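import Pool.Agent.Lib.MP_a54f13_nt.Hp.SpecN

/-!
# Package `Hp`, part L: one good block of primes in a long range (the masses of the tubes again)

Architect: helper16 (THEOREM A' of MP_a54f13_nt: long window). Conventions as in `Hp/SpecN.lean`: file
`Pool/Agent/Lib/MP_a54f13_nt/Hp/<Name>.lean` importing `Pool.Agent.Lib.MP_a54f13_nt.Hp.SpecL`, private names in
`namespace Pool.Agent.A54.Hp.<Name>L`, final theorem `Pool.Agent.A54.Hp.stmt<Name> : Stmt<Name>`; the Props named under `uses` are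
hypotheses of the theorem, in this order. Most modules are variants of the proved modules `Hp/RtA.lean`, `Hp/RtB.lean`, `Hp/Ret.lean`,
`Hp/Sin.lean`, `Hp/Stp.lean`, `Hp/PP.lean`, `Hp/Two.lean`: copy and adapt. `Hp/LBase.lean` (helper72) has useful facts.

IDEA. The amplifier is a product of `k` sums over disjoint sets of primes of `(M, 2M]` (`M` a small power of `1/w`). Besides
returns of size `M^k` it produces returns of the sizes `M^j`, `j < k`. They are counted with the dual lattice and a free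
parameter `K`; the special points now lie in few tubes, and the mass of wide tubes is small.
-/

set_option autoImplicit false

namespace Pool.Agent.A54.Hp

open MeasureTheory Filter Topology Set
open scoped ContDiff ComplexConjugate UpperHalfPlane MatrixGroups ENNReal
open Pool.Agent.A54.Dyn (G fl base ze io mk4 dom)
open Pool.Agent.A54.Av (Mat NonSc)

noncomputable section

/-! ### Definitions -/

/-- `M` is a good scale: at least `M^(1-κ)` primes `p ∈ (M, 2M]` have `|l(p)| ≥ M^(-κ)` -/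
def GdC (κ : ℝ) (l : ℕ → ℝ) (M : ℝ) : Prop :=
  M ^ (1 - κ) ≤ (((Pm M).filter (fun p => M ^ (-κ) ≤ |l p|)).card : ℝ)

/-- there is a good scale in `[w^(-1/(1000 K)), w^(-1/1000)]` -/
def GdK (K : ℝ) (l : ℕ → ℝ) (w : ℝ) : Prop :=
  ∃ M : ℝ, w ^ (-(1 / (1000 * K)) : ℝ) ≤ M ∧ M ≤ w ^ (-(1 / 1000) : ℝ) ∧ GdC (1 / 10000) l M

/-- the hypothesis on the cusp (proved by helper86 for cuspidal Hecke eigenfunctions) -/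
def IsoL (R : ℝ) (Φ : G → ℂ) (w : ℝ) : Prop := ∀ η K : ℝ, 0 < η → η ≤ K → η * K ≤ w ^ (1 / 4 : ℝ) →
  MeasurableSet (Zc R η K) ∧ ms Φ (Zc R η K) ≤ ENNReal.ofReal (w ^ (1 / 20 : ℝ))

/-- integral matrices of size `Y` -/
def Ds (B Y : ℝ) : Set Mat := {s | Y ^ 2 ≤ ((s.det : ℤ) : ℝ) ∧ ((s.det : ℤ) : ℝ) ≤ (B * Y) ^ 2}

/-- the number of returns of size `Y` of `x` to `V` -/
def NS (B Y : ℝ) (V : Set G) (x : G) : ℝ≥0∞ :=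
  ∑' s : Mat, {s : Mat | s ∈ Ds B Y ∧ nm s * x ∈ V}.indicator (fun _ => (1 : ℝ≥0∞)) s

/-- the number of the `s` of size `Y` with `y⁻¹ (s x) ∈ b` -/
def rL (B Y : ℝ) (b : Set G) (x y : G) : ℝ≥0∞ :=
  ∑' s : Mat, {s : Mat | s ∈ Ds B Y ∧ y⁻¹ * (nm s * x) ∈ b}.indicator (fun _ => (1 : ℝ≥0∞)) s

/-! ### The amplifier -/

/-- **AIk** the amplifier inequality for products (helper19, `Hp/SpecH.lean`; not a module of this file). For `i ∉ S` the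
coordinates `p i`, `q i` are `1`. -/
def StmtAIk : Prop := ∀ (l : ℕ → ℝ) (Φ : G → ℂ), HE l Φ → ∀ (R : ℝ) (U : Set G), MeasurableSet U →
  U ⊆ Om R → ∀ (k : ℕ) (P : Fin k → Finset ℕ), (∀ i, ∀ p ∈ P i, p.Prime) →
  (∀ i j, i ≠ j → Disjoint (P i) (P j)) →
    ENNReal.ofReal (∏ i, ∑ p ∈ P i, |l p|) ^ 2 * ms Φ U ^ 2 ≤
      ∑ S : Finset (Fin k), (∏ i ∈ Sᶜ, ((P i).card : ℝ≥0∞)) *
        ∑ p ∈ Fintype.piFinset (fun i => if i ∈ S then P i else {1}),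
          ∑ q ∈ Fintype.piFinset (fun i => if i ∈ S then P i else {1}),
            ENNReal.ofReal ((√(∏ i, ((p i : ℝ) * q i)))⁻¹) * ∑' s : Mn (∏ i, p i * q i), Dd Φ U (nm s.1)

/-- **AIL** the amplifier inequality for one good block (uses `AIk`). Proof. `Q = {p ∈ Pm M : |l p| ≥ M^(-κ)}`, `#Q ≥ M^(1-κ) ≥ 2k`. Choose `k` disjoint
subsets `P_i` of `Q` with `⌊#Q/k⌋ ≥ M^(1-κ)/(2k)` elements (e.g. with `Finset.equivFin Q`: the elements with index in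
`[i m, (i+1) m)`, `m = #Q/k`), so `∑_{P_i} |l p| ≥ M^(1-2κ)/(2k)` and the left side of `AIk` is at least `(2k)^(-2k) (M^k)^(2-4κ) ms²`. The
elements of `Pm M` are in `(M, 2M]`, `#P_i ≤ #Pm M ≤ 2M`. For `#S = j`: `∏_{i ∉ S} #P_i ≤ (2M)^(k-j)`; `(√(∏ p_i q_i))⁻¹ ≤ M^(-j)`; `n = ∏ p_i q_i`
satisfies `M^(2j) ≤ n ≤ (2M)^(2j) ≤ (2^k M^j)²`, so the `s ∈ Mn n` are in `Ds (2^k) (M^j)`. For a given `s` at most `2^k` pairs `(p, q)` have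
`∏ p_i q_i = det s`: the primes of `P_i` dividing `det s` are `p_i, q_i` (the `P_i` are disjoint; unique factorisation: `Nat.factors` or: `p_i` and `q_i`
divide `∏ p'_j q'_j`, so each is one of `p'_i, q'_i`, and if `p_i = q_i = p` then `p²` is the power of `p` in the product), so `(p_i, q_i)` is `(p'_i, q'_i)` or `(q'_i, p'_i)`.
So the terms with `#S = j` contribute at most `2^k (2M)^(k-j) M^(-j) 2^k ∑_s 1_{Ds} Dd`. `k = 0`: both sides are clear (`Mn 1`, `Ds 1 1`). -/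
def StmtAIL : Prop := ∀ k : ℕ, ∃ C : ℝ, 1 ≤ C ∧ ∀ (l : ℕ → ℝ) (Φ : G → ℂ), HE l Φ → ∀ (R : ℝ) (U : Set G),
  MeasurableSet U → U ⊆ Om R → ∀ κ M : ℝ, 0 ≤ κ → κ ≤ 1 / 2 → 1 ≤ M → 2 * (k : ℝ) ≤ M ^ (1 - κ) → GdC κ l M →
    ENNReal.ofReal ((M ^ k) ^ (2 - 4 * κ)) * ms Φ U ^ 2 ≤ ENNReal.ofReal C *
      ∑ j ∈ Finset.range (k + 1), ENNReal.ofReal (M ^ k / (M ^ j) ^ 2) *
        ∑' s : Mat, (Ds (2 ^ k) (M ^ j)).indicator (fun s => Dd Φ U (nm s)) s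

/-! ### Returns -/

/-- **RL** double counting (uses `NuL`, `NuR`). Proof. As `Hp/RtA.lean` (the condition on `det s` is replaced by `s ∈ Ds B Y`). -/
def StmtRL : Prop := ∀ (B Y : ℝ) (V b : Set G), IsOpen V → IsOpen b → ∀ x : G,
  NS B Y V x * nu b ≤ ∫⁻ y in Vb V b, rL B Y b x y ∂nu

/-- **RB** pointwise bounds (uses `CtA`, `CtB`). Proof. As `Hp/RtB.lean`. If `s ∈ Ds B Y` and `y⁻¹ (nm s x) = β ∈ bt c (c w)` then `cj y x s = √(det s) β`, `√(det s) ≤ B Y`,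
`|β₀₀|, |β₁₁| ≤ 4`, `|β₀₁|, |β₁₀| ≤ c w ≤ w`: diagonal entries `≤ 4 B Y`, off-diagonal entries `≤ B Y w ≤ B/K ≤ B`. `CtA` with `4B` and `M = Y`; `CtB` with
`4B`, `M = Y` and `1/(K Y)` instead of `w`: its dual box is `Bxx (1/Y) K`, and the bound is `C Y⁴ (K Y)^(-2) = C Y²/K²`. -/
def StmtRB : Prop := ∀ R B : ℝ, 1 ≤ R → 1 ≤ B → ∃ C : ℝ, 1 ≤ C ∧ ∀ c w Y K : ℝ, 0 < c → c ≤ 1 / 2 → 0 < w →
  w ≤ 1 → 1 ≤ Y → 1 ≤ K → Y * w * K ≤ 1 → ∀ x ∈ Om R, ∀ y ∈ Om R,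
    rL B Y (bt c (c * w)) x y ≤ ENNReal.ofReal (C * Y ^ 2) ∧
    ((∀ n : Mat, Bxx (1 / Y) K (cj x y n) → n = 0) →
      rL B Y (bt c (c * w)) x y ≤ ENNReal.ofReal (C * (Y ^ 2 / K ^ 2)))

/-- **SpT** the special points lie in few tubes (uses nothing). Proof. Let `y ∈ Sp R ε K x` with the matrix `n`, `W = cj x y n = x⁻¹ n y`, `d = det n = det W`, `|d| ≥ 1`. `n = x W y⁻¹` has
entries at most `4 R² K` (`ε ≤ K`), so there are at most `(8R² K + 1)⁴ ≤ C K⁴` such `n`. `X(ξ) = (ξ₀, 2ξ₁; 2ξ₂, -ξ₀)`, `D = diag(1,-1)`, `X(xi g) = g D g⁻¹`. `y = n⁻¹ x W`, so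
`X(xi y) = n⁻¹ x (W D W⁻¹) x⁻¹ n`, and `W D W⁻¹ = d⁻¹ (W₀₀W₁₁ + W₀₁W₁₀, -2W₀₀W₀₁; 2W₁₀W₁₁, -(W₀₀W₁₁ + W₀₁W₁₀)) = -D + E` with `|E_ij| ≤ 2 ε K`
(`W₀₀W₁₁ + W₀₁W₁₀ = 2W₀₀W₁₁ - d`). Let `ζ_n` be given by `X(ζ_n) = - n⁻¹ x D x⁻¹ n` (a traceless matrix, depends only on `n`, `x`). Then `X(xi y) - X(ζ_n) = n⁻¹ x E x⁻¹ n` has entries at
most `16 (4R²K)² R² · 2εK ≤ C K³ ε` (`n⁻¹ = adj(n)/d`). `Z` = the set of the `ζ_n`, `n` with entries `≤ 4R²K`, `det n ≠ 0`. -/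
def StmtSpT : Prop := ∀ R : ℝ, 1 ≤ R → ∃ C : ℝ, 1 ≤ C ∧ ∀ x ∈ Om R, ∀ ε K : ℝ, 0 < ε → ε ≤ K → 1 ≤ K →
  ∃ Z : Finset (Fin 3 → ℝ), (Z.card : ℝ) ≤ C * K ^ 4 ∧ ∀ y ∈ Sp R ε K x, ∃ ζ ∈ Z, y ∈ Tb R ζ (C * (K ^ 3 * ε))

/-- **RtL** the number of returns (uses `RL`, `RB`, `Cz`, `Vol`). Proof. As `Hp/Ret.lean`. `V' = Vb V b ⊆ Om (8R)`. Let `y ∈ V'`, `y ∉ Sp (8R) (1/Y) K x`. An `n ≠ 0` with `Bxx (1/Y) K (cj x y n)` has `det n = 0`, and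
`Cz` (radius `8R`, `M = Y`, `1/(K Y)` instead of `w`) gives `x ∈ Zc (8R) (16R/Y) (16R K)`, excluded (`x ∈ Om R`, monotonicity in the constants). So `RB` gives
`rL ≤ C Y²/K²` outside `Sp` and `rL ≤ C Y²` always: `NS nu b ≤ C (Y²/K²) nu V' + C Y² nu (V' ∩ Sp)` (for the second term use `lintegral_indicator_const_le`,
`Sp` need not be measurable), and `nu b ≥ c' c² w²` (`Vol`, second part). -/
def StmtRtL : Prop := ∀ R B c : ℝ, 1 ≤ R → 1 ≤ B → 0 < c → c ≤ 1 / 2 → ∃ C : ℝ, 1 ≤ C ∧ ∀ w Y K : ℝ,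
  0 < w → w ≤ 1 → 1 ≤ Y → 1 ≤ K → Y * w * K ≤ 1 → ∀ V : Set G, IsOpen V → V ⊆ Om R →
    Vb V (bt c (c * w)) ⊆ Om (8 * R) → IsOpen (bt c (c * w)) → ∀ x ∈ V, x ∉ Zc R (C / Y) (C * K) →
      NS B Y V x ≤ ENNReal.ofReal C *
        (ENNReal.ofReal (Y ^ 2 / (K ^ 2 * w ^ 2)) * nu (Vb V (bt c (c * w))) +
          ENNReal.ofReal (Y ^ 2 / w ^ 2) * nu (Vb V (bt c (c * w)) ∩ Sp (8 * R) (1 / Y) K x))

/-- **Trv** the trivial bound (uses `Nm`). Proof. `x, nm s x ∈ Om R`: the entries of `s` are at most `2R² √(det s) ≤ 2R² B Y` (`Nm`, last part); there are at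
most `(4R² B Y + 1)⁴ ≤ C Y⁴` such matrices. -/
def StmtTrv : Prop := ∀ R B : ℝ, 1 ≤ R → 1 ≤ B → ∃ C : ℝ, 1 ≤ C ∧ ∀ Y : ℝ, 1 ≤ Y → ∀ V : Set G, V ⊆ Om R →
  ∀ x ∈ V, NS B Y V x ≤ ENNReal.ofReal (C * Y ^ 4)

/-! ### Tubes -/

/-- **VT** the part of `V'` in a wide tube (uses `NuL`, `Vol`). Proof. Let `T = V' ∩ {y : |xi y - ζ| ≤ w'}`. Tonelli: `A nu T ≤ ∫⁻_{y ∈ T} ms Φ (Tb R (xi y) (3w)) = ∫⁻_{g ∈ Om R} ‖Φ g‖² nu {y ∈ T : |xi y - xi g| ≤ 3w}`. If the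
last set is not empty then `|xi g - ζ| ≤ w' + 3w ≤ 4w'`, and its measure is at most `nu (Tb (64R) (xi g) (3w)) ≤ 9 C w²` (`Vol`). -/
def StmtVT : Prop := ∀ R : ℝ, 1 ≤ R → ∃ C : ℝ, 1 ≤ C ∧ ∀ (l : ℕ → ℝ) (Φ : G → ℂ), HE l Φ → ∀ w w' : ℝ,
  0 < w → w ≤ w' → ∀ (A : ℝ≥0∞) (V' : Set G), MeasurableSet V' → V' ⊆ Om (64 * R) →
    (∀ y ∈ V', A ≤ ms Φ (Tb R (xi y) (3 * w))) → ∀ ζ : Fin 3 → ℝ,
      A * nu (V' ∩ {y | ∀ i, |xi y i - ζ i| ≤ w'}) ≤ ENNReal.ofReal (C * w ^ 2) * ms Φ (Tb R ζ (4 * w'))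

/-- **SnL** single tubes, all widths (uses `Tot`, `AIL`, `Dds`, `CtA`, `Tub`). Proof. As `Hp/Sin.lean`. `U = Tb R ζ w'`, `x₀ ∈ U`. If `s ∈ Ds (2^k) (M^j)`, `j ≤ k`, and `x, nm s x ∈ U` then
`cj x₀ x₀ s = √(det s) (x₀⁻¹ (nm s x)) (x₀⁻¹ x)⁻¹` has diagonal entries at most `C M^j` and off-diagonal entries at most `2^k M^j C w' ≤ C` (`M^j w' ≤ M^k w' ≤ 1`), so there
are at most `C (M^j)²` such `s` (`CtA`), each with `Dd ≤ ms Φ U`; the other `s` have `Dd = 0` (`Dds`). `AIL`: `(M^k)^(2-4κ) ms² ≤ C ∑_j (M^k/(M^j)²) (M^j)² ms ≤ C (k+1) M^k ms`, and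
`ms < ∞` (`Tot`). -/
def StmtSnL : Prop := ∀ (R : ℝ) (k : ℕ), 1 ≤ R → ∃ C : ℝ, 1 ≤ C ∧ ∀ (l : ℕ → ℝ) (Φ : G → ℂ), HE l Φ →
  ∀ w' κ M : ℝ, 0 < w' → 0 ≤ κ → κ ≤ 1 / 2 → 1 ≤ M → 2 * (k : ℝ) ≤ M ^ (1 - κ) → GdC κ l M → M ^ k * w' ≤ 1 →
    ∀ ζ : Fin 3 → ℝ, ms Φ (Tb R ζ w') ≤ ENNReal.ofReal (C * (M ^ k) ^ (-(1 - 4 * κ)))

/-! ### The main step -/

/-- **StL** (uses `NuL`, `Vol`, `Bt`, `Tot`, `AIL`, `Dds`, `CS`, `VV`, `Zt`, `SpT`, `RtL`, `Trv`, `VT`). Proof. As `Hp/Stp.lean`: `b = bt c (c w)`, `V = Vb U b ⊆ Om (8R)` (open), `V' = Vb V b ⊆ Om (64R)`, `nu b · Dd Φ U h ≤ 2A nu {x ∈ V : h x ∈ V}`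
(`CS`), `A nu V, A nu V' ≤ C w²` (`VV`), `nu b ≥ c' w²`. `AIL`: with `Y = M^j`,
`(M^k)^(2-4κ) ms² ≤ C ∑_j (M^k/Y²) (2A/nu b) ∫⁻_V NS (2^k) Y V x dν ≤ C ∑_j (M^k/Y²) sup_{x ∈ V} NS`. (1) `Y < Y₀`: `NS ≤ C Y⁴` (`Trv`, radius `8R`), the term is
`≤ C M^k Y₀²`. (2) `Y ≥ Y₀` (`Y w K ≤ M^k w K ≤ 1`): `x ∈ V` is not in `Zc (8R) (C/Y) (C K)` by `Zt` (`w (C K) ≤ C/Y`; `U` is disjoint from `Zc R (C'/Y₀) (C' K)`), so `RtL` (radius `8R`):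
`(M^k/Y²) NS ≤ C M^k (nu V'/(K² w²) + nu (V' ∩ Sp)/w²)`, `Sp = Sp (64R) (1/Y) K x`. By `SpT` (radius `64R`) `V' ∩ Sp` is covered by `C K⁴` sets
`V' ∩ {|xi y - ζ| ≤ C K³/Y}`, and by `VT` (for `y ∈ V'` there are `v ∈ V`, `u ∈ U` with `|xi y - xi v|, |xi v - xi u| ≤ w`, so
`A ≤ ms Φ (Tb R (xi u) w) ≤ ms Φ (Tb R (xi y) (3w))`) `A nu` of each is at most `C w² ms Φ (Tb R ζ (4 C K³/Y)) ≤ C w² T` (the width `C' K³/Y₀` of the hypothesis is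
larger; and `C K³/Y ≥ w` because `Y w ≤ 1`). So the term is at most `C (M^k/A) (K^(-2) + K⁴ T)`. -/
def StmtStL : Prop := ∀ (R : ℝ) (k : ℕ), 1 ≤ R → ∃ C : ℝ, 1 ≤ C ∧ ∀ (l : ℕ → ℝ) (Φ : G → ℂ), HE l Φ →
  ∀ w κ M K Y₀ A : ℝ, 0 < w → w ≤ 1 → 0 ≤ κ → κ ≤ 1 / 2 → 1 ≤ M → 1 ≤ K → 1 ≤ Y₀ → M ^ k * w * K ≤ 1 → 0 < A →
    2 * (k : ℝ) ≤ M ^ (1 - κ) → GdC κ l M → ∀ T : ℝ≥0∞,
    (∀ ζ : Fin 3 → ℝ, ms Φ (Tb R ζ (C * (K ^ 3 / Y₀))) ≤ T) →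
    ∀ U : Set G, MeasurableSet U → U ⊆ Ul Φ R w A → Disjoint U (Zc R (C / Y₀) (C * K)) →
      ENNReal.ofReal ((M ^ k) ^ (2 - 4 * κ)) * ms Φ U ^ 2 ≤ ENNReal.ofReal C *
        (ENNReal.ofReal (M ^ k * Y₀ ^ 2) + ENNReal.ofReal (M ^ k / A) *
          (ENNReal.ofReal (1 / K ^ 2) + ENNReal.ofReal (K ^ 4) * T))

/-- **PL** (uses `Tot`, `SnL`, `Lv`, `StL`). Proof. As `Hp/PP.lean`. Let `M₀ = w^(-θ)` be the good scale, `θ ∈ [1/(1000K), 1/1000]`, `κ = 1/10000`. All numbers `k` of factors below are at most `1000 K`, so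
the constants (maximum over these `k`) depend only on `K, R`, and `2k ≤ M₀^(1-κ)` for small `w`. Suppose `Cw > w^(1+c)`, `c = 1/1000`. (1) `k₁` with `M₀^(k₁) ∈ (w^(-1+θ), w^(-1)]`; `SnL` at the
width `w`: masses `≤ C w^(0.999 · 0.9996) ≤ w^0.998`. (2) `Lv` with `δ = 1/500`: `A ∈ [w^1.002, w^0.998]`, `A ms U₀ ≥ w^1.002`, `U₀ = Ul Φ R w A`. (3) `Y₀ = w^(-3/10)`, `K' = w^(-1/40)` (in `StL`),
`k₂` with `M = M₀^(k₂) ∈ (w^(-0.97+θ), w^(-0.97)]`, so `M w K' ≤ 1`. (4) `T`: `C K'³/Y₀ = C w^0.225 ≤ w^0.22`; `k₃` with `M₀^(k₃) ∈ (w^(-0.22+θ), w^(-0.22)]`, `SnL` at the width `w^0.22`: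
`T ≤ C w^(0.219 · 0.9996) ≤ w^0.21`. (5) `Z = Zc R (C/Y₀) (C K')`, `(C/Y₀)(C K') = C² w^0.275 ≤ w^(1/4)`, `ms Z ≤ w^(1/10)` (`IsoL`), and `ms U₀ ≥ w^1.002/A ≥ w^0.004`, so `U = U₀ \ Z` has
`ms U ≥ w^1.002/(2A)`. (6) `StL`: `M^(2-4κ) ms² ≤ C (M w^(-0.6) + (M/A)(w^0.05 + w^(-0.1+0.21)))`. If the first term is at least half: `M^(1-4κ) w^0.008/4 ≤ 2C w^(-0.6)`, but
`M^(1-4κ) ≥ w^(-0.969·0.9996) ≥ w^(-0.968)`. Otherwise `M^(2-4κ) w^2.004/(4A²) ≤ 4C (M/A) w^0.05`, so `A ≥ w^(2.004 - 0.968 - 0.05)/(16C) = w^0.986/(16C)`, against `A ≤ w^0.998`. All for `w ≤ w₀`. -/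
def StmtPL : Prop := ∀ K R : ℝ, 1 ≤ K → 1 ≤ R → ∃ w₀ : ℝ, 0 < w₀ ∧ w₀ ≤ 1 ∧ ∀ (l : ℕ → ℝ) (Φ : G → ℂ),
  HE l Φ → ∀ w : ℝ, 0 < w → w ≤ w₀ → IsoL R Φ w → GdK K l w →
    Cw Φ R w ≤ ENNReal.ofReal (w ^ (1001 / 1000 : ℝ))

end

end Pool.Agent.A54.Hp
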