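import Pool.Agent.Lib.MP_a54f13_nt.Hp.Hk2
import Pool.Agent.Lib.MP_a54f13_nt.Hp.SpecL

/-!
# Package `Hp`, long window version: the amplifier inequality for products (AIk)
-/

set_option autoImplicit false

namespace Pool.Agent.A54.Hp

open MeasureTheory Filter Topology Set
open scoped ContDiff ComplexConjugate UpperHalfPlane MatrixGroups ENNReal
open Pool.Agent.A54.Dyn (G fl base ze io mk4 dom)
open Pool.Agent.A54.Av (Mat NonSc)

noncomputable section

namespace AIkM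

open A2M Hk

/-- `∫ F H_n F` -/
def II (F : G → ℝ≥0∞) (n : ℕ) : ℝ≥0∞ := ∫⁻ x, F x * hs F n x ∂nu

/-- the cut off absolute value -/
def ff (Φ : G → ℂ) (U : Set G) : G → ℝ≥0∞ := U.indicator (fun x => ‖Φ x‖ₑ)

lemma ff_meas {Φ : G → ℂ} (hΦ : Continuous Φ) {U : Set G} (hU : MeasurableSet U) :
    Measurable (ff Φ U) := (hΦ.enorm.measurable).indicator hU

lemma II_eq {Φ : G → ℂ} (hΦ : Continuous Φ) {U : Set G} (hU : MeasurableSet U) (n : ℕ) :
    II (ff Φ U) n = ∑' s : Mn n, Dd Φ U (nm s.1) := by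
  have := countMn n
  have hF := ff_meas hΦ hU
  have h1 : ∀ s : Mn n, Measurable fun x => ff Φ U x * ff Φ U (nm s.1 * x) :=
    fun s => hF.mul (meas_mul hF _)
  have h2 : ∀ s : Mn n, Dd Φ U (nm s.1) = ∫⁻ x, ff Φ U x * ff Φ U (nm s.1 * x) ∂nu := fun _ => rfl
  simp only [h2]
  rw [← lintegral_tsum fun s => (h1 s).aemeasurable]
  unfold II hs
  refine lintegral_congr fun x => ?_
  rw [ENNReal.tsum_mul_left]

lemma ms_eq (Φ : G → ℂ) {U : Set G} (hU : MeasurableSet U) :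
    ∫⁻ x, ff Φ U x * ‖Φ x‖ₑ ∂nu = ms Φ U := by
  unfold ms
  rw [← lintegral_indicator hU]
  refine lintegral_congr fun x => ?_
  unfold ff
  by_cases hx : x ∈ U
  · rw [Set.indicator_of_mem hx, Set.indicator_of_mem hx, _root_.sq]
  · rw [Set.indicator_of_notMem hx, Set.indicator_of_notMem hx, zero_mul]

lemma cs {α : Type*} [MeasurableSpace α] (μ : Measure α) (f g : α → ℝ≥0∞) (hf : Measurable f)
    (hg : Measurable g) :
    (∫⁻ x, f x * g x ∂μ) ^ 2 ≤ (∫⁻ x, f x ^ 2 ∂μ) * ∫⁻ x, g x ^ 2 ∂μ := by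
  have h3 := ENNReal.lintegral_mul_le_Lp_mul_Lq μ (p := 2) (q := 2) Real.HolderConjugate.two_two
    hf.aemeasurable hg.aemeasurable
  have h4 : ∀ f : α → ℝ≥0∞, ∫⁻ x, f x ^ (2 : ℝ) ∂μ = ∫⁻ x, f x ^ 2 ∂μ := by
    intro f
    refine lintegral_congr fun x => ?_
    rw [← ENNReal.rpow_natCast]
    norm_num
  rw [h4, h4] at h3
  have h5 : ∀ a : ℝ≥0∞, (a ^ (1 / 2 : ℝ)) ^ 2 = a := by
    intro a
    rw [← ENNReal.rpow_natCast, ← ENNReal.rpow_mul]
    norm_num
  calc (∫⁻ x, f x * g x ∂μ) ^ 2 ≤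
      ((∫⁻ x, f x ^ 2 ∂μ) ^ (1 / 2 : ℝ) * (∫⁻ x, g x ^ 2 ∂μ) ^ (1 / 2 : ℝ)) ^ 2 :=
        pow_le_pow_left' h3 2
    _ = (∫⁻ x, f x ^ 2 ∂μ) * ∫⁻ x, g x ^ 2 ∂μ := by rw [mul_pow, h5, h5]

/-! ### The weights -/

/-- the weight of `n = ∏ p_i` -/
def ck {k : ℕ} (p : Fin k → ℕ) : ℝ≥0∞ := ENNReal.ofReal ((√(∏ i, (p i : ℝ)))⁻¹)

lemma ck_mul {k : ℕ} (l : ℕ → ℝ) (p : Fin k → ℕ) (hp : ∀ i, 0 < p i) :
    ENNReal.ofReal (∏ i, |l (p i)|) = ck p * ENNReal.ofReal (∏ i, (√(p i) * |l (p i)|)) := by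
  unfold ck
  rw [← ENNReal.ofReal_mul (by positivity)]
  congr 1
  rw [Finset.prod_mul_distrib, Real.sqrt_prod _ fun i _ => by positivity, ← mul_assoc,
    inv_mul_cancel₀, one_mul]
  exact (Finset.prod_pos fun i _ => Real.sqrt_pos.2 (by exact_mod_cast hp i)).ne'

/-- the weight after removing the coordinates off `S` -/
lemma ck_sq {k : ℕ} (p q : Fin k → ℕ) (hp : ∀ i, 0 < p i) (hq : ∀ i, 0 < q i) (S : Finset (Fin k))
    (h : ∀ i ∈ Sᶜ, p i = q i) :
    ck p * ck q * ∏ i ∈ Sᶜ, (p i : ℝ≥0∞) =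
      ENNReal.ofReal ((√(∏ i ∈ S, ((p i : ℝ) * q i)))⁻¹) := by
  have hpr : ∀ i, (0 : ℝ) < p i := fun i => by exact_mod_cast hp i
  have hqr : ∀ i, (0 : ℝ) < q i := fun i => by exact_mod_cast hq i
  have h1 : ∏ i ∈ Sᶜ, (p i : ℝ≥0∞) = ENNReal.ofReal (∏ i ∈ Sᶜ, (p i : ℝ)) := by
    rw [ENNReal.ofReal_prod_of_nonneg fun i _ => (hpr i).le]
    exact Finset.prod_congr rfl fun i _ => (ENNReal.ofReal_natCast _).symm
  rw [h1]
  unfold ck
  rw [← ENNReal.ofReal_mul (by positivity), ← ENNReal.ofReal_mul (by positivity)]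
  congr 1
  have h2 : √(∏ i, (p i : ℝ)) * √(∏ i, (q i : ℝ)) =
      √(∏ i ∈ S, ((p i : ℝ) * q i)) * ∏ i ∈ Sᶜ, (p i : ℝ) := by
    rw [← Real.sqrt_mul (Finset.prod_nonneg fun i _ => (hpr i).le), ← Finset.prod_mul_distrib,
      ← Finset.prod_mul_prod_compl S (fun i => (p i : ℝ) * q i),
      Real.sqrt_mul (Finset.prod_nonneg fun i _ => (mul_pos (hpr i) (hqr i)).le)]
    congr 1
    have h3 : ∏ i ∈ Sᶜ, ((p i : ℝ) * q i) = (∏ i ∈ Sᶜ, (p i : ℝ)) ^ 2 := by
      rw [← Finset.prod_pow]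
      refine Finset.prod_congr rfl fun i hi => ?_
      rw [← h i hi]
      ring
    rw [h3, Real.sqrt_sq (Finset.prod_nonneg fun i _ => (hpr i).le)]
  have h4 : (∏ i ∈ Sᶜ, (p i : ℝ)) ≠ 0 := (Finset.prod_pos fun i _ => hpr i).ne'
  rw [← mul_inv, h2, mul_inv, mul_assoc, inv_mul_cancel₀ h4, mul_one]

/-! ### From full tuples to tuples with coordinates `1` off `S` -/

/-- replace the coordinates off `S` by `1` -/
def cut {k : ℕ} (S : Finset (Fin k)) (p : Fin k → ℕ) : Fin k → ℕ := fun i => if i ∈ S then p i else 1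

/-- replace the coordinates in `S` by `1` -/
def cut' {k : ℕ} (S : Finset (Fin k)) (p : Fin k → ℕ) : Fin k → ℕ := fun i => if i ∈ S then 1 else p i

lemma fiber {k : ℕ} (P : Fin k → Finset ℕ) (S : Finset (Fin k))
    (g : (Fin k → ℕ) × (Fin k → ℕ) → ℝ≥0∞) :
    ∑ x ∈ (Fintype.piFinset P ×ˢ Fintype.piFinset P).filter (fun x => ∀ i ∈ Sᶜ, x.1 i = x.2 i),
      g (cut S x.1, cut S x.2) ≤
    (∏ i ∈ Sᶜ, ((P i).card : ℝ≥0∞)) *
      ∑ p ∈ Fintype.piFinset (fun i => if i ∈ S then P i else {1}),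
        ∑ q ∈ Fintype.piFinset (fun i => if i ∈ S then P i else {1}), g (p, q) := by
  classical
  set A := (Fintype.piFinset P ×ˢ Fintype.piFinset P).filter (fun x => ∀ i ∈ Sᶜ, x.1 i = x.2 i)
  set Q := Fintype.piFinset (fun i => if i ∈ S then P i else {1})
  have hcut : ∀ p ∈ Fintype.piFinset P, cut S p ∈ Q := by
    intro p hp
    rw [Fintype.mem_piFinset] at hp ⊢
    intro i
    unfold cut
    by_cases hi : i ∈ S
    · rw [if_pos hi, if_pos hi]
      exact hp i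
    · rw [if_neg hi, if_neg hi]
      exact Finset.mem_singleton_self 1
  have hmap : ∀ x ∈ A, (cut S x.1, cut S x.2) ∈ Q ×ˢ Q := by
    intro x hx
    have hx1 := (Finset.mem_filter.1 hx).1
    rw [Finset.mem_product] at hx1 ⊢
    exact ⟨hcut _ hx1.1, hcut _ hx1.2⟩
  rw [← Finset.sum_fiberwise_of_maps_to hmap, ← Finset.sum_product Q Q g, Finset.mul_sum]
  refine Finset.sum_le_sum fun y _ => ?_
  have h1 : ∀ x ∈ A.filter (fun x => (cut S x.1, cut S x.2) = y), g (cut S x.1, cut S x.2) = g y :=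
    fun x hx => by rw [(Finset.mem_filter.1 hx).2]
  rw [Finset.sum_congr rfl h1, Finset.sum_const, nsmul_eq_mul]
  refine mul_le_mul_left ?_ _
  have h2 : (A.filter (fun x => (cut S x.1, cut S x.2) = y)).card ≤
      (Fintype.piFinset (fun i => if i ∈ S then ({1} : Finset ℕ) else P i)).card := by
    refine Finset.card_le_card_of_injOn (fun x => cut' S x.1) ?_ ?_
    · intro x hx
      have hx1 := (Finset.mem_product.1 (Finset.mem_filter.1 (Finset.mem_filter.1 hx).1).1).1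
      rw [Fintype.mem_piFinset] at hx1
      rw [Finset.mem_coe, Fintype.mem_piFinset]
      intro i
      show cut' S x.1 i ∈ _
      unfold cut'
      by_cases hi : i ∈ S
      · rw [if_pos hi, if_pos hi]
        exact Finset.mem_singleton_self 1
      · rw [if_neg hi, if_neg hi]
        exact hx1 i
    · intro x hx z hz hxz
      have hx' := Finset.mem_filter.1 hx
      have hz' := Finset.mem_filter.1 hz
      have hxC := (Finset.mem_filter.1 hx'.1).2
      have hzC := (Finset.mem_filter.1 hz'.1).2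
      have e : (cut S x.1, cut S x.2) = (cut S z.1, cut S z.2) := hx'.2.trans hz'.2.symm
      have e1 := congrArg Prod.fst e
      have e2 := congrArg Prod.snd e
      have k1 : ∀ i, x.1 i = z.1 i := by
        intro i
        by_cases hi : i ∈ S
        · have := congrFun e1 i
          simpa [cut, hi] using this
        · have := congrFun hxz i
          simpa [cut', hi] using this
      have k2 : ∀ i, x.2 i = z.2 i := by
        intro i
        by_cases hi : i ∈ S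
        · have := congrFun e2 i
          simpa [cut, hi] using this
        · rw [← hxC i (Finset.mem_compl.2 hi), ← hzC i (Finset.mem_compl.2 hi)]
          exact k1 i
      exact Prod.ext (funext k1) (funext k2)
  have h3 : (Fintype.piFinset (fun i => if i ∈ S then ({1} : Finset ℕ) else P i)).card =
      ∏ i ∈ Sᶜ, (P i).card := by
    rw [Fintype.card_piFinset, ← Finset.prod_mul_prod_compl S]
    have h4 : ∏ i ∈ S, (if i ∈ S then ({1} : Finset ℕ) else P i).card = 1 :=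
      Finset.prod_eq_one fun i hi => by rw [if_pos hi, Finset.card_singleton]
    rw [h4, one_mul]
    exact Finset.prod_congr rfl fun i hi => by rw [if_neg (Finset.mem_compl.1 hi)]
  rw [h3] at h2
  calc ((A.filter (fun x => (cut S x.1, cut S x.2) = y)).card : ℝ≥0∞)
      ≤ ((∏ i ∈ Sᶜ, (P i).card : ℕ) : ℝ≥0∞) := by exact_mod_cast h2
    _ = _ := by push_cast; rfl

lemma prod_cut {k : ℕ} (S : Finset (Fin k)) (p q : Fin k → ℕ) :
    ∏ i, cut S p i * cut S q i = ∏ i ∈ S, p i * q i := by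
  rw [← Finset.prod_mul_prod_compl S]
  have h4 : ∏ i ∈ Sᶜ, cut S p i * cut S q i = 1 :=
    Finset.prod_eq_one fun i hi => by simp [cut, Finset.mem_compl.1 hi]
  rw [h4, mul_one]
  exact Finset.prod_congr rfl fun i hi => by simp [cut, hi]

lemma prod_cut_real {k : ℕ} (S : Finset (Fin k)) (p q : Fin k → ℕ) :
    ∏ i, ((cut S p i : ℝ) * cut S q i) = ∏ i ∈ S, ((p i : ℝ) * q i) := by
  have h := prod_cut S p q
  have h2 : ((∏ i, cut S p i * cut S q i : ℕ) : ℝ) = ((∏ i ∈ S, p i * q i : ℕ) : ℝ) := by rw [h]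
  push_cast at h2
  exact h2

lemma tm_pos {k : ℕ} (p q : Fin k → ℕ) (F1 F2 : G → ℝ≥0∞) (S : Finset (Fin k))
    (h : ∀ i ∈ Sᶜ, p i = q i) : tm p q F1 F2 Finset.univ S =
      (∏ i ∈ Sᶜ, (p i : ℝ≥0∞)) * ∫⁻ x, F1 x * hs F2 (∏ i ∈ S, p i * q i) x ∂nu := by
  unfold tm
  rw [if_pos]
  · congr 1
    refine Finset.prod_congr ?_ fun _ _ => rfl
    ext i
    simp
  · intro i hi
    have h1 : i ∉ S := by simpa using hi
    exact h i (Finset.mem_compl.2 h1)

lemma tm_neg {k : ℕ} (p q : Fin k → ℕ) (F1 F2 : G → ℝ≥0∞) (S : Finset (Fin k))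
    (h : ¬ ∀ i ∈ Sᶜ, p i = q i) : tm p q F1 F2 Finset.univ S = 0 := by
  unfold tm
  rw [if_neg]
  intro h'
  exact h fun i hi => h' i (by
    have h1 : i ∉ S := Finset.mem_compl.1 hi
    simpa using h1)

end AIkM

open AIkM A2M Hk

theorem stmtAIk (hNu : StmtNuL) (hUnf : StmtUnf) (hNm : StmtNm) : StmtAIk := by
  classical
  intro l Φ hE R U hU _ k P hP hdisj
  set F := ff Φ U with hFdef
  have hF : Measurable F := ff_meas hE.cont hU
  have hφ : Measurable fun y => ‖Φ y‖ₑ := hE.cont.enorm.measurable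
  have hpr : ∀ p ∈ Fintype.piFinset P, ∀ i, (p i).Prime := fun p hp i =>
    hP i _ (Fintype.mem_piFinset.1 hp i)
  have hneq : ∀ p ∈ Fintype.piFinset P, ∀ q ∈ Fintype.piFinset P, ∀ i j, i ≠ j → p i ≠ q j := by
    intro p hp q hq i j hij h
    exact Finset.disjoint_left.1 (hdisj i j hij) (Fintype.mem_piFinset.1 hp i)
      (h ▸ Fintype.mem_piFinset.1 hq j)
  -- the function `Ψ`
  set Ψ : G → ℝ≥0∞ := fun y => ∑ p ∈ Fintype.piFinset P, ck p * hs F (∏ i, p i) y with hΨ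
  have hΨm : Measurable Ψ := Finset.measurable_sum _ fun p _ => (meas_hs hF _).const_mul _
  -- the first inequality
  have s1 : 2 * (ENNReal.ofReal (∏ i, ∑ p ∈ P i, |l p|) * ms Φ U) ≤
      ∫⁻ y in FF, Ψ y * ‖Φ y‖ₑ ∂nu := by
    have e1 : ENNReal.ofReal (∏ i, ∑ p ∈ P i, |l p|) =
        ∑ p ∈ Fintype.piFinset P, ENNReal.ofReal (∏ i, |l (p i)|) := by
      rw [Finset.prod_univ_sum, ENNReal.ofReal_sum_of_nonneg]
      intro p _
      exact Finset.prod_nonneg fun i _ => abs_nonneg _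
    have e2 : ∫⁻ y in FF, Ψ y * ‖Φ y‖ₑ ∂nu =
        ∑ p ∈ Fintype.piFinset P, ck p * ∫⁻ y in FF, hs F (∏ i, p i) y * ‖Φ y‖ₑ ∂nu := by
      have m1 : ∀ p ∈ Fintype.piFinset P,
          Measurable fun y => ck p * (hs F (∏ i, p i) y * ‖Φ y‖ₑ) :=
        fun p _ => ((meas_hs hF _).mul hφ).const_mul _
      have m2 : ∀ p : Fin k → ℕ, Measurable fun y => hs F (∏ i, p i) y * ‖Φ y‖ₑ :=
        fun p => (meas_hs hF _).mul hφ
      have e3 : ∀ p ∈ Fintype.piFinset P, ck p * ∫⁻ y in FF, hs F (∏ i, p i) y * ‖Φ y‖ₑ ∂nu =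
          ∫⁻ y in FF, ck p * (hs F (∏ i, p i) y * ‖Φ y‖ₑ) ∂nu := fun p _ =>
        (lintegral_const_mul _ (m2 p)).symm
      rw [Finset.sum_congr rfl e3, ← lintegral_finsetSum _ m1]
      refine lintegral_congr fun y => ?_
      rw [hΨ, Finset.sum_mul]
      exact Finset.sum_congr rfl fun p _ => mul_assoc _ _ _
    rw [e1, e2, Finset.sum_mul, Finset.mul_sum]
    refine Finset.sum_le_sum fun p hp => ?_
    have h1 := r1 hNu hUnf hNm hE p Finset.univ (fun i _ => hpr p hp i)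
      (fun i _ j _ hij => hneq p hp p hp i j hij) F hF
    rw [ms_eq Φ hU] at h1
    rw [ck_mul l p fun i => (hpr p hp i).pos]
    calc 2 * (ck p * ENNReal.ofReal (∏ i, (√(p i) * |l (p i)|)) * ms Φ U)
        = ck p * (2 * (ENNReal.ofReal (∏ i, (√(p i) * |l (p i)|)) * ms Φ U)) := by ring
      _ ≤ _ := mul_le_mul_right h1 _
  -- Cauchy-Schwarz
  have s2 : (2 * (ENNReal.ofReal (∏ i, ∑ p ∈ P i, |l p|) * ms Φ U)) ^ 2 ≤
      2 * ∫⁻ y in FF, Ψ y ^ 2 ∂nu := by
    refine (pow_le_pow_left' s1 2).trans ((cs (nu.restrict FF) Ψ _ hΨm hφ).trans ?_)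
    rw [mul_comm]
    exact mul_le_mul_left hE.norm _
  -- the square
  have s3 : ∫⁻ y in FF, Ψ y ^ 2 ∂nu ≤ 2 * ∑ p ∈ Fintype.piFinset P, ∑ q ∈ Fintype.piFinset P,
      ck p * ck q * ∑ S ∈ (Finset.univ : Finset (Fin k)).powerset, tm p q F F Finset.univ S := by
    have e1 : ∀ y, Ψ y ^ 2 = ∑ p ∈ Fintype.piFinset P, ∑ q ∈ Fintype.piFinset P,
        ck p * ck q * (hs F (∏ i, p i) y * hs F (∏ i, q i) y) := by
      intro y
      rw [_root_.sq, hΨ, Finset.sum_mul_sum]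
      exact Finset.sum_congr rfl fun p _ => Finset.sum_congr rfl fun q _ => by ring
    have m0 : ∀ p q : Fin k → ℕ, Measurable fun y => hs F (∏ i, p i) y * hs F (∏ i, q i) y :=
      fun p q => (meas_hs hF _).mul (meas_hs hF _)
    have m1 : ∀ p q : Fin k → ℕ, Measurable fun y =>
        ck p * ck q * (hs F (∏ i, p i) y * hs F (∏ i, q i) y) := fun p q => (m0 p q).const_mul _
    have m2 : ∀ p : Fin k → ℕ, Measurable fun y => ∑ q ∈ Fintype.piFinset P,
        ck p * ck q * (hs F (∏ i, p i) y * hs F (∏ i, q i) y) :=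
      fun p => Finset.measurable_sum _ fun q _ => m1 p q
    simp only [e1]
    rw [lintegral_finsetSum _ fun p _ => m2 p, Finset.mul_sum]
    refine Finset.sum_le_sum fun p hp => ?_
    rw [lintegral_finsetSum _ fun q _ => m1 p q, Finset.mul_sum]
    refine Finset.sum_le_sum fun q hq => ?_
    rw [lintegral_const_mul _ (m0 p q)]
    have h1 := r2 hNu hUnf hNm p q Finset.univ (fun i _ => hpr p hp i) (fun i _ => hpr q hq i)
      (fun i _ j _ hij => ⟨hneq p hp p hp i j hij, hneq p hp q hq i j hij, hneq q hq q hq i j hij⟩)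
      F F hF hF
    calc ck p * ck q * ∫⁻ y in FF, hs F (∏ i, p i) y * hs F (∏ i, q i) y ∂nu
        ≤ ck p * ck q * (2 * ∑ S ∈ (Finset.univ : Finset (Fin k)).powerset,
            tm p q F F Finset.univ S) := mul_le_mul_right h1 _
      _ = _ := by ring
  -- rearrange
  have s4 : ∑ p ∈ Fintype.piFinset P, ∑ q ∈ Fintype.piFinset P,
      ck p * ck q * ∑ S ∈ (Finset.univ : Finset (Fin k)).powerset, tm p q F F Finset.univ S ≤
      ∑ S : Finset (Fin k), (∏ i ∈ Sᶜ, ((P i).card : ℝ≥0∞)) *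
        ∑ p ∈ Fintype.piFinset (fun i => if i ∈ S then P i else {1}),
          ∑ q ∈ Fintype.piFinset (fun i => if i ∈ S then P i else {1}),
            ENNReal.ofReal ((√(∏ i, ((p i : ℝ) * q i)))⁻¹) * II F (∏ i, p i * q i) := by
    have e1 : ∑ p ∈ Fintype.piFinset P, ∑ q ∈ Fintype.piFinset P,
        ck p * ck q * ∑ S ∈ (Finset.univ : Finset (Fin k)).powerset, tm p q F F Finset.univ S =
        ∑ S : Finset (Fin k), ∑ x ∈ Fintype.piFinset P ×ˢ Fintype.piFinset P,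
          ck x.1 * ck x.2 * tm x.1 x.2 F F Finset.univ S := by
      rw [← Finset.sum_product (Fintype.piFinset P) (Fintype.piFinset P)
        (fun x => ck x.1 * ck x.2 * ∑ S ∈ (Finset.univ : Finset (Fin k)).powerset,
          tm x.1 x.2 F F Finset.univ S)]
      simp only [Finset.mul_sum, Finset.powerset_univ]
      rw [Finset.sum_comm]
    rw [e1]
    refine Finset.sum_le_sum fun S _ => ?_
    refine le_trans ?_ (fiber P S (fun x =>
      ENNReal.ofReal ((√(∏ i, ((x.1 i : ℝ) * x.2 i)))⁻¹) * II F (∏ i, x.1 i * x.2 i)))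
    rw [Finset.sum_filter]
    refine Finset.sum_le_sum fun x hx => ?_
    rw [Finset.mem_product] at hx
    by_cases hC : ∀ i ∈ Sᶜ, x.1 i = x.2 i
    · rw [tm_pos _ _ _ _ S hC, if_pos hC]
      dsimp only
      rw [prod_cut, prod_cut_real, ← ck_sq x.1 x.2 (fun i => (hpr _ hx.1 i).pos)
        (fun i => (hpr _ hx.2 i).pos) S hC]
      exact le_of_eq (by unfold II; ring)
    · rw [tm_neg _ _ _ _ S hC, if_neg hC, mul_zero]
  -- conclusion
  have s5 : ENNReal.ofReal (∏ i, ∑ p ∈ P i, |l p|) ^ 2 * ms Φ U ^ 2 ≤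
      ∑ p ∈ Fintype.piFinset P, ∑ q ∈ Fintype.piFinset P,
        ck p * ck q * ∑ S ∈ (Finset.univ : Finset (Fin k)).powerset, tm p q F F Finset.univ S := by
    have h1 := s2.trans (mul_le_mul_right s3 2)
    have h2 : (4 : ℝ≥0∞) * (ENNReal.ofReal (∏ i, ∑ p ∈ P i, |l p|) ^ 2 * ms Φ U ^ 2) ≤
        4 * ∑ p ∈ Fintype.piFinset P, ∑ q ∈ Fintype.piFinset P,
          ck p * ck q * ∑ S ∈ (Finset.univ : Finset (Fin k)).powerset, tm p q F F Finset.univ S := by
      calc (4 : ℝ≥0∞) * (ENNReal.ofReal (∏ i, ∑ p ∈ P i, |l p|) ^ 2 * ms Φ U ^ 2)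
          = (2 * (ENNReal.ofReal (∏ i, ∑ p ∈ P i, |l p|) * ms Φ U)) ^ 2 := by ring
        _ ≤ _ := h1
        _ = _ := by rw [← mul_assoc]; norm_num
    exact (ENNReal.mul_le_mul_iff_right (by norm_num) (by norm_num)).1 h2
  refine (s5.trans s4).trans (le_of_eq ?_)
  refine Finset.sum_congr rfl fun S _ => ?_
  congr 1
  refine Finset.sum_congr rfl fun p _ => Finset.sum_congr rfl fun q _ => ?_
  rw [hFdef, II_eq hE.cont hU]

end

end Pool.Agent.A54.Hp
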