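import Pool.Agent.Lib.MP_a54f13_nt.Hp.SpecM

/-!
Package `Hp`, module `Nm`: the normalised matrices.
-/

set_option autoImplicit false

namespace Pool.Agent.A54.Hp

open MeasureTheory Filter Topology Set
open scoped ContDiff ComplexConjugate UpperHalfPlane MatrixGroups ENNReal
open Pool.Agent.A54.Dyn (G fl base ze io mk4 dom)
open Pool.Agent.A54.Av (Mat NonSc)

namespace NmM

lemma nm_of {s : Mat} (h : 0 < s.det) (i j : Fin 2) :
    nm s i j = ((s i j : ℤ) : ℝ) / √((s.det : ℤ) : ℝ) := by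
  have h' : (0 : ℝ) < ((s.det : ℤ) : ℝ) := by exact_mod_cast h
  unfold nm
  rw [dif_pos h']
  fin_cases i <;> fin_cases j
  · exact Dyn.mk4_00
  · exact Dyn.mk4_01
  · exact Dyn.mk4_10
  · exact Dyn.mk4_11

lemma nm_neg {s : Mat} (h : ¬ 0 < s.det) : nm s = 1 := by
  have h' : ¬ (0 : ℝ) < ((s.det : ℤ) : ℝ) := by
    intro h1
    exact h (by exact_mod_cast h1)
  unfold nm
  rw [dif_neg h']

lemma ext_nm {g h : G} (H : ∀ i j, g i j = h i j) : g = h :=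
  Dyn.G_ext (H 0 0) (H 0 1) (H 1 0) (H 1 1)

lemma mul_ij (g h : G) (i j : Fin 2) : (g * h) i j = g i 0 * h 0 j + g i 1 * h 1 j := by
  rw [Matrix.SpecialLinearGroup.coe_mul, Matrix.mul_apply, Fin.sum_univ_two]

lemma p1 (s s' : Mat) (hs : 0 < s.det) (hs' : 0 < s'.det) : nm (s * s') = nm s * nm s' := by
  have hd : (s * s').det = s.det * s'.det := Matrix.det_mul s s'
  have hp : 0 < (s * s').det := by
    rw [hd]
    exact mul_pos hs hs'
  have h1 : (0 : ℝ) < ((s.det : ℤ) : ℝ) := by exact_mod_cast hs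
  have h2 : (0 : ℝ) < ((s'.det : ℤ) : ℝ) := by exact_mod_cast hs'
  apply ext_nm
  intro i j
  rw [mul_ij, nm_of hp, nm_of hs, nm_of hs, nm_of hs', nm_of hs', hd, Matrix.mul_apply,
    Fin.sum_univ_two, Int.cast_mul, Real.sqrt_mul h1.le, Int.cast_add, Int.cast_mul, Int.cast_mul]
  have e1 : √((s.det : ℤ) : ℝ) ≠ 0 := (Real.sqrt_pos.mpr h1).ne'
  have e2 : √((s'.det : ℤ) : ℝ) ≠ 0 := (Real.sqrt_pos.mpr h2).ne'
  field_simp

lemma p2 (γ : SL(2, ℤ)) : nm (γ : Mat) = io γ := by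
  have h : (γ : Mat).det = 1 := γ.det_coe
  have hp : 0 < (γ : Mat).det := by
    rw [h]
    norm_num
  apply ext_nm
  intro i j
  rw [nm_of hp, h]
  simp [io]

lemma p3 (s : Mat) (hs : 0 < s.det) : nm s.adjugate = (nm s)⁻¹ := by
  rw [eq_inv_iff_mul_eq_one]
  have hd : s.adjugate.det = s.det := by
    rw [Matrix.det_adjugate]
    simp
  have hp : 0 < s.adjugate.det := by
    rw [hd]
    exact hs
  rw [← p1 _ _ hp hs, Matrix.adjugate_mul]
  have h1 : (0 : ℝ) < ((s.det : ℤ) : ℝ) := by exact_mod_cast hs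
  have hd2 : (s.det • (1 : Mat)).det = s.det ^ 2 := by
    rw [Matrix.det_smul, Matrix.det_one, mul_one, Fintype.card_fin]
  have hp2 : 0 < (s.det • (1 : Mat)).det := by
    rw [hd2]
    positivity
  apply ext_nm
  intro i j
  rw [nm_of hp2, hd2, Int.cast_pow, Real.sqrt_sq h1.le]
  have e : ((s.det : ℤ) : ℝ) ≠ 0 := h1.ne'
  fin_cases i <;> fin_cases j <;> simp [e]

lemma p4 (n : ℤ) (s : Mat) (hn : 0 < n) : nm (n • s) = nm s := by
  have hd : (n • s).det = n ^ 2 * s.det := by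
    rw [Matrix.det_smul, Fintype.card_fin]
  by_cases hs : 0 < s.det
  · have hp : 0 < (n • s).det := by
      rw [hd]
      positivity
    have h1 : (0 : ℝ) < ((s.det : ℤ) : ℝ) := by exact_mod_cast hs
    have h2 : (0 : ℝ) < (n : ℝ) := by exact_mod_cast hn
    apply ext_nm
    intro i j
    rw [nm_of hp, nm_of hs, hd, Int.cast_mul, Int.cast_pow, Real.sqrt_mul (by positivity),
      Real.sqrt_sq h2.le]
    have e1 : √((s.det : ℤ) : ℝ) ≠ 0 := (Real.sqrt_pos.mpr h1).ne'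
    have e2 : (n : ℝ) ≠ 0 := h2.ne'
    rw [Matrix.smul_apply, smul_eq_mul, Int.cast_mul]
    field_simp
  · have hp : ¬ 0 < (n • s).det := by
      rw [hd]
      intro h
      have : 0 < n ^ 2 := by positivity
      exact hs (pos_of_mul_pos_right h this.le)
    rw [nm_neg hp, nm_neg hs]

lemma p5 (R R' : ℝ) (x : G) (s : Mat) (hs : 0 < s.det) (hx : x ∈ Om R) (hy : nm s * x ∈ Om R')
    (i j : Fin 2) : |((s i j : ℤ) : ℝ)| ≤ 2 * R * R' * √((s.det : ℤ) : ℝ) := by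
  have h1 : (0 : ℝ) < ((s.det : ℤ) : ℝ) := by exact_mod_cast hs
  have e1 : 0 < √((s.det : ℤ) : ℝ) := Real.sqrt_pos.mpr h1
  have hx' : ∀ i j, |x⁻¹ i j| ≤ R := by
    intro i j
    fin_cases i <;> fin_cases j
    · show |x⁻¹ 0 0| ≤ R
      rw [Dyn.inv_00]; exact hx 1 1
    · show |x⁻¹ 0 1| ≤ R
      rw [Dyn.inv_01, abs_neg]; exact hx 0 1
    · show |x⁻¹ 1 0| ≤ R
      rw [Dyn.inv_10, abs_neg]; exact hx 1 0
    · show |x⁻¹ 1 1| ≤ R
      rw [Dyn.inv_11]; exact hx 0 0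
  have hR : 0 ≤ R := (abs_nonneg _).trans (hx 0 0)
  have hR' : 0 ≤ R' := (abs_nonneg _).trans (hy 0 0)
  have e2 : nm s = (nm s * x) * x⁻¹ := by group
  have e3 : ((s i j : ℤ) : ℝ) = (nm s * x * x⁻¹) i j * √((s.det : ℤ) : ℝ) := by
    rw [← e2, nm_of hs, div_mul_cancel₀ _ e1.ne']
  rw [e3, abs_mul, abs_of_pos e1]
  refine mul_le_mul_of_nonneg_right ?_ e1.le
  rw [mul_ij]
  have b1 : |(nm s * x) i 0 * x⁻¹ 0 j| ≤ R' * R := by
    rw [abs_mul]
    exact mul_le_mul (hy i 0) (hx' 0 j) (abs_nonneg _) hR'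
  have b2 : |(nm s * x) i 1 * x⁻¹ 1 j| ≤ R' * R := by
    rw [abs_mul]
    exact mul_le_mul (hy i 1) (hx' 1 j) (abs_nonneg _) hR'
  calc _ ≤ |(nm s * x) i 0 * x⁻¹ 0 j| + |(nm s * x) i 1 * x⁻¹ 1 j| := abs_add_le _ _
    _ ≤ R' * R + R' * R := add_le_add b1 b2
    _ = 2 * R * R' := by ring

end NmM

theorem stmtNm : StmtNm :=
  ⟨NmM.p1, NmM.p2, NmM.p3, NmM.p4, fun R R' x s hs hx hy i j => NmM.p5 R R' x s hs hx hy i j⟩

end Pool.Agent.A54.Hp
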