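import Pool.Agent.Lib.MP_a54f13_nt.Hp.SpecN

/-!
# `StmtTub`: two points of a tube

For the package `Hp`, part N (note 4597 of MP_a54f13_nt). Author: helper92.
-/

set_option autoImplicit false

namespace Pool.Agent.A54.Hp.TubN

open Pool.Agent.A54.Dyn (G)

noncomputable section

lemma one {R w u v e : ℝ} (hR : 0 ≤ R) (hu : |u| ≤ R) (hv : |v| ≤ R) (he : |e| ≤ 2 * w) :
    |u * v * e| ≤ 2 * R ^ 2 * w := by
  rw [abs_mul, abs_mul]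
  have h1 : |u| * |v| ≤ R * R := mul_le_mul hu hv (abs_nonneg _) hR
  have h2 : |u| * |v| * |e| ≤ R * R * (2 * w) :=
    mul_le_mul h1 he (abs_nonneg _) (mul_nonneg hR hR)
  linarith

lemma three {R w u1 v1 e1 u2 v2 e2 u3 v3 e3 : ℝ} (hR : 0 ≤ R) (hu1 : |u1| ≤ R) (hv1 : |v1| ≤ R)
    (he1 : |e1| ≤ 2 * w) (hu2 : |u2| ≤ R) (hv2 : |v2| ≤ R) (he2 : |e2| ≤ 2 * w)
    (hu3 : |u3| ≤ R) (hv3 : |v3| ≤ R) (he3 : |e3| ≤ 2 * w) :
    |u1 * v1 * e1 - u2 * v2 * e2 + u3 * v3 * e3| ≤ 6 * R ^ 2 * w := by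
  have h1 := abs_le.mp (one hR hu1 hv1 he1)
  have h2 := abs_le.mp (one hR hu2 hv2 he2)
  have h3 := abs_le.mp (one hR hu3 hv3 he3)
  rw [abs_le]
  constructor <;> linarith [h1.1, h1.2, h2.1, h2.2, h3.1, h3.2]

lemma two {R u1 v1 u2 v2 : ℝ} (hR : 0 ≤ R) (hu1 : |u1| ≤ R) (hv1 : |v1| ≤ R)
    (hu2 : |u2| ≤ R) (hv2 : |v2| ≤ R) : |u1 * v1 - u2 * v2| ≤ 2 * R ^ 2 := by
  have h1 : |u1 * v1| ≤ R * R := by
    rw [abs_mul]
    exact mul_le_mul hu1 hv1 (abs_nonneg _) hR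
  have h2 : |u2 * v2| ≤ R * R := by
    rw [abs_mul]
    exact mul_le_mul hu2 hv2 (abs_nonneg _) hR
  rw [abs_le] at h1 h2 ⊢
  constructor <;> linarith [h1.1, h1.2, h2.1, h2.2]

/-- `u` large, `u v` small -/
lemma fin {R w u v t : ℝ} (hR : 1 ≤ R) (h1 : |u * v| ≤ 6 * R ^ 2 * w)
    (h2 : 1 / 2 ≤ u * t ∨ 1 / 2 ≤ 6 * R ^ 2 * w) (ht : |t| ≤ 2 * R ^ 2) (hv : |v| ≤ 2 * R ^ 2) :
    |v| ≤ 24 * R ^ 4 * w := by
  have hR2 : 0 < R ^ 2 := by positivity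
  rcases h2 with h2 | h2
  · have h3 : 1 / 2 ≤ |u| * (2 * R ^ 2) := by
      calc (1 / 2 : ℝ) ≤ |u * t| := h2.trans (le_abs_self _)
        _ = |u| * |t| := abs_mul _ _
        _ ≤ |u| * (2 * R ^ 2) := mul_le_mul_of_nonneg_left ht (abs_nonneg _)
    have h4 : |v| * (1 / 2) ≤ |v| * (|u| * (2 * R ^ 2)) :=
      mul_le_mul_of_nonneg_left h3 (abs_nonneg _)
    have h5 : |v| * (|u| * (2 * R ^ 2)) = |u * v| * (2 * R ^ 2) := by
      rw [abs_mul]; ring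
    have h6 : |u * v| * (2 * R ^ 2) ≤ 6 * R ^ 2 * w * (2 * R ^ 2) :=
      mul_le_mul_of_nonneg_right h1 (by positivity)
    have h7 : 6 * R ^ 2 * w * (2 * R ^ 2) = 12 * R ^ 4 * w := by ring
    linarith
  · have h3 : 2 * R ^ 2 * (1 / 2) ≤ 2 * R ^ 2 * (6 * R ^ 2 * w) :=
      mul_le_mul_of_nonneg_left h2 (by positivity)
    have h4 : 2 * R ^ 2 * (6 * R ^ 2 * w) = 12 * R ^ 4 * w := by ring
    linarith

/-- the computation, `x₀ = (a, b; c, d)`, `x = (p, q; r, s)` -/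
lemma core {R w a b c d p q r s : ℝ} (hR : 1 ≤ R) (h0 : a * d - b * c = 1)
    (h : p * s - q * r = 1) (ha : |a| ≤ R) (hb : |b| ≤ R) (hc : |c| ≤ R) (hd : |d| ≤ R)
    (hp : |p| ≤ R) (hq : |q| ≤ R) (hr : |r| ≤ R) (hs : |s| ≤ R)
    (e0 : |(p * s + q * r) - (a * d + b * c)| ≤ 2 * w) (e1 : |p * q - a * b| ≤ 2 * w)
    (e2 : |r * s - c * d| ≤ 2 * w) :
    |d * p - b * r| ≤ 24 * R ^ 4 ∧ |a * s - c * q| ≤ 24 * R ^ 4 ∧
      |d * q - b * s| ≤ 24 * R ^ 4 * w ∧ |a * r - c * p| ≤ 24 * R ^ 4 * w := by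
  have hR0 : 0 ≤ R := by linarith
  have b00 := two hR0 hd hp hb hr
  have b11 := two hR0 ha hs hc hq
  have b01 := two hR0 hd hq hb hs
  have b10 := two hR0 ha hr hc hp
  have hle : 2 * R ^ 2 ≤ 24 * R ^ 4 := by
    have h1 : 1 ≤ R ^ 2 := one_le_pow₀ hR
    nlinarith
  have i1 : (d * p - b * r) * (d * q - b * s) = d * d * (p * q - a * b) -
      b * d * ((p * s + q * r) - (a * d + b * c)) + b * b * (r * s - c * d) := by ring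
  have i2 : (a * s - c * q) * (a * r - c * p) = c * c * (p * q - a * b) -
      a * c * ((p * s + q * r) - (a * d + b * c)) + a * a * (r * s - c * d) := by ring
  have i3 : 2 * ((d * q - b * s) * (a * r - c * p)) =
      (a * d * ((p * s + q * r) - (a * d + b * c)) - a * b * (r * s - c * d) +
        c * d * -(p * q - a * b)) +
      (b * c * ((p * s + q * r) - (a * d + b * c)) - a * b * (r * s - c * d) +
        c * d * -(p * q - a * b)) := by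
    linear_combination (a * d - b * c) * h0 - (a * d - b * c) * h
  have e1' : |-(p * q - a * b)| ≤ 2 * w := by rw [abs_neg]; exact e1
  have j1 : |(d * p - b * r) * (d * q - b * s)| ≤ 6 * R ^ 2 * w := by
    rw [i1]
    exact three hR0 hd hd e1 hb hd e0 hb hb e2
  have j2 : |(a * s - c * q) * (a * r - c * p)| ≤ 6 * R ^ 2 * w := by
    rw [i2]
    exact three hR0 hc hc e1 ha hc e0 ha ha e2
  have j3 := abs_le.mp (three hR0 ha hd e0 ha hb e2 hc hd e1')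
  have j4 := abs_le.mp (three hR0 hb hc e0 ha hb e2 hc hd e1')
  have i4 : (d * p - b * r) * (a * s - c * q) = 1 + (d * q - b * s) * (a * r - c * p) := by
    linear_combination h0 + (a * d - b * c) * h
  have k : 1 / 2 ≤ (d * p - b * r) * (a * s - c * q) ∨ 1 / 2 ≤ 6 * R ^ 2 * w := by
    rcases le_or_gt (1 / 2) (6 * R ^ 2 * w) with h1 | h1
    · exact Or.inr h1
    · left
      rw [i4]
      linarith [j3.1, j4.1]
  have k' : 1 / 2 ≤ (a * s - c * q) * (d * p - b * r) ∨ 1 / 2 ≤ 6 * R ^ 2 * w := by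
    rw [mul_comm (a * s - c * q)]
    exact k
  exact ⟨b00.trans hle, b11.trans hle, fin hR j1 k b11 b01, fin hR j2 k' b00 b10⟩

end

end Pool.Agent.A54.Hp.TubN

namespace Pool.Agent.A54.Hp

open Pool.Agent.A54.Dyn (G)

/-- two points of a tube -/
theorem stmtTub : StmtTub := by
  intro R hR
  have hR4 : 1 ≤ R ^ 4 := one_le_pow₀ hR
  refine ⟨24 * R ^ 4, by linarith, ?_⟩
  intro ζ w _ x₀ hx₀ x hx
  obtain ⟨o₀, t₀⟩ := hx₀
  obtain ⟨o, t⟩ := hx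
  have tt : ∀ i, |xi x i - xi x₀ i| ≤ 2 * w := by
    intro i
    have h1 := abs_le.mp (t₀ i)
    have h2 := abs_le.mp (t i)
    rw [abs_le]
    constructor <;> linarith [h1.1, h1.2, h2.1, h2.2]
  have e0 : |(x 0 0 * x 1 1 + x 0 1 * x 1 0) - (x₀ 0 0 * x₀ 1 1 + x₀ 0 1 * x₀ 1 0)| ≤ 2 * w :=
    tt 0
  have e1 : |x 0 0 * x 0 1 - x₀ 0 0 * x₀ 0 1| ≤ 2 * w := by
    have h1 : |-(x 0 0 * x 0 1) - -(x₀ 0 0 * x₀ 0 1)| ≤ 2 * w := tt 1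
    rw [abs_sub_comm] at h1
    have h2 : -(x₀ 0 0 * x₀ 0 1) - -(x 0 0 * x 0 1) = x 0 0 * x 0 1 - x₀ 0 0 * x₀ 0 1 := by ring
    rw [h2] at h1
    exact h1
  have e2 : |x 1 0 * x 1 1 - x₀ 1 0 * x₀ 1 1| ≤ 2 * w := tt 2
  have key := TubN.core hR (Dyn.det_eq x₀) (Dyn.det_eq x) (o₀ 0 0) (o₀ 0 1) (o₀ 1 0) (o₀ 1 1)
    (o 0 0) (o 0 1) (o 1 0) (o 1 1) e0 e1 e2
  have m00 : (x₀⁻¹ * x) 0 0 = x₀ 1 1 * x 0 0 - x₀ 0 1 * x 1 0 := by
    rw [Dyn.mul_00, Dyn.inv_00, Dyn.inv_01]; ring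
  have m11 : (x₀⁻¹ * x) 1 1 = x₀ 0 0 * x 1 1 - x₀ 1 0 * x 0 1 := by
    rw [Dyn.mul_11, Dyn.inv_10, Dyn.inv_11]; ring
  have m01 : (x₀⁻¹ * x) 0 1 = x₀ 1 1 * x 0 1 - x₀ 0 1 * x 1 1 := by
    rw [Dyn.mul_01, Dyn.inv_00, Dyn.inv_01]; ring
  have m10 : (x₀⁻¹ * x) 1 0 = x₀ 0 0 * x 1 0 - x₀ 1 0 * x 0 0 := by
    rw [Dyn.mul_10, Dyn.inv_10, Dyn.inv_11]; ring
  rw [m00, m11, m01, m10]
  exact key

end Pool.Agent.A54.Hp
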