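import Pool.Agent.Lib.MP_a54f13_nt.Hp.SpecL

/-!
# Package `Hp`, part L, module `AIL`: the amplifier inequality for one good block of primes
-/

set_option autoImplicit false

namespace Pool.Agent.A54.Hp

open MeasureTheory Filter Topology Set
open scoped ContDiff ComplexConjugate UpperHalfPlane MatrixGroups ENNReal
open Pool.Agent.A54.Dyn (G fl base ze io mk4 dom)
open Pool.Agent.A54.Av (Mat NonSc)

noncomputable section

namespace AILL

/-! ### Disjoint subsets -/

/-- `k` disjoint subsets with `#Q / k` elements -/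
theorem split (Q : Finset ℕ) (k : ℕ) (_hk : 0 < k) :
    ∃ P : Fin k → Finset ℕ, (∀ i, P i ⊆ Q) ∧ (∀ i j, i ≠ j → Disjoint (P i) (P j)) ∧
      ∀ i, Q.card / k ≤ (P i).card := by
  classical
  set m := Q.card / k with hm
  have e := Q.equivFin
  refine ⟨fun i => Q.attach.filter (fun x => ((e x : Fin Q.card) : ℕ) / m = (i : ℕ)) |>.map
    (Function.Embedding.subtype _), fun i x hx => ?_, fun i j hij => ?_, fun i => ?_⟩
  · simp only [Finset.mem_map, Finset.mem_filter, Finset.mem_attach, true_and] at hx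
    obtain ⟨y, -, rfl⟩ := hx
    exact y.2
  · rw [Finset.disjoint_left]
    intro x hx hy
    simp only [Finset.mem_map, Finset.mem_filter, Finset.mem_attach, true_and] at hx hy
    obtain ⟨y, hy1, rfl⟩ := hx
    obtain ⟨z, hz1, hz2⟩ := hy
    have : z = y := by
      apply Subtype.ext
      exact hz2
    rw [this] at hz1
    apply hij
    apply Fin.ext
    omega
  · rw [Finset.card_map]
    rcases Nat.eq_zero_or_pos m with h0 | h0
    · rw [h0]
      exact Nat.zero_le _
    have hb : ∀ t : ℕ, t < m → (i : ℕ) * m + t < Q.card := by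
      intro t ht
      have h1 : ((i : ℕ) + 1) * m ≤ k * m := Nat.mul_le_mul_right _ i.2
      have h2 : k * m ≤ Q.card := by
        rw [hm]
        exact Nat.mul_div_le _ _
      nlinarith
    calc m = (Finset.range m).card := (Finset.card_range m).symm
      _ ≤ _ := by
        refine Finset.card_le_card_of_injOn
          (fun t => if h : t < m then e.symm ⟨(i : ℕ) * m + t, hb t h⟩ else
            e.symm ⟨(i : ℕ) * m + 0, hb 0 h0⟩) ?_ ?_
        · intro t ht
          have ht' : t < m := Finset.mem_range.1 ht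
          simp only [Finset.coe_filter, Set.mem_setOf_eq, dif_pos ht', Finset.mem_attach, true_and,
            Equiv.apply_symm_apply]
          rw [Nat.mul_comm, Nat.mul_add_div h0, Nat.div_eq_of_lt ht', add_zero]
        · intro t ht t' ht' htt
          have h1 : t < m := Finset.mem_range.1 ht
          have h2 : t' < m := Finset.mem_range.1 ht'
          simp only [dif_pos h1, dif_pos h2] at htt
          have h3 := e.symm.injective htt
          have h4 := congrArg Fin.val h3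
          simp only at h4
          omega

/-! ### Unique factorisation -/

/-- the factors are determined by the product -/
theorem eq_of_prod {k : ℕ} (a b : Fin k → ℕ) (hab : ∀ i j, i ≠ j → Nat.Coprime (a i) (b j))
    (h : ∏ i, a i = ∏ i, b i) (i : Fin k) : a i = b i := by
  classical
  apply Nat.dvd_antisymm
  · have h1 : a i ∣ ∏ j, b j := by
      rw [← h]
      exact Finset.dvd_prod_of_mem _ (Finset.mem_univ i)
    rw [← Finset.mul_prod_erase _ _ (Finset.mem_univ i)] at h1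
    refine Nat.Coprime.dvd_of_dvd_mul_right ?_ h1
    refine Nat.Coprime.prod_right fun j hj => hab i j ?_
    exact fun h2 => Finset.ne_of_mem_erase hj h2.symm
  · have h1 : b i ∣ ∏ j, a j := by
      rw [h]
      exact Finset.dvd_prod_of_mem _ (Finset.mem_univ i)
    rw [← Finset.mul_prod_erase _ _ (Finset.mem_univ i)] at h1
    refine Nat.Coprime.dvd_of_dvd_mul_right ?_ h1
    refine Nat.Coprime.prod_right fun j hj => (hab j i ?_).symm
    exact Finset.ne_of_mem_erase hj

theorem two_primes {p q p' q' : ℕ} (hp : p.Prime) (hp' : p'.Prime) (hq' : q'.Prime)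
    (h : p * q = p' * q') : (p = p' ∧ q = q') ∨ (p = q' ∧ q = p') := by
  have h1 : p ∣ p' * q' := h ▸ dvd_mul_right p q
  rcases (hp.dvd_mul).1 h1 with h2 | h2
  · left
    have h3 := (Nat.prime_dvd_prime_iff_eq hp hp').1 h2
    refine ⟨h3, ?_⟩
    rw [h3] at h
    exact Nat.eq_of_mul_eq_mul_left hp'.pos h
  · right
    have h3 := (Nat.prime_dvd_prime_iff_eq hp hq').1 h2
    refine ⟨h3, ?_⟩
    rw [h3, mul_comm p' q'] at h
    exact Nat.eq_of_mul_eq_mul_left hq'.pos h

section count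

variable {k : ℕ} (P : Fin k → Finset ℕ) (S : Finset (Fin k))

/-- the coordinates -/
def FS (i : Fin k) : Finset ℕ := if i ∈ S then P i else {1}

variable {P S}

theorem FS_cop (hP : ∀ i, ∀ p ∈ P i, p.Prime) (hd : ∀ i j, i ≠ j → Disjoint (P i) (P j))
    {i j : Fin k} (hij : i ≠ j) {x y : ℕ} (hx : x ∈ FS P S i) (hy : y ∈ FS P S j) :
    Nat.Coprime x y := by
  unfold FS at hx hy
  split_ifs at hx with h1
  · split_ifs at hy with h2
    · rw [Nat.coprime_primes (hP i x hx) (hP j y hy)]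
      intro h3
      rw [h3] at hx
      exact Finset.disjoint_left.1 (hd i j hij) hx hy
    · rw [Finset.mem_singleton] at hy
      rw [hy]
      exact Nat.coprime_one_right x
  · rw [Finset.mem_singleton] at hx
    rw [hx]
    exact Nat.coprime_one_left y

theorem FS_pair (hP : ∀ i, ∀ p ∈ P i, p.Prime) {i : Fin k} {p q p' q' : ℕ} (hp : p ∈ FS P S i)
    (hq : q ∈ FS P S i) (hp' : p' ∈ FS P S i) (hq' : q' ∈ FS P S i) (h : p * q = p' * q') :
    (p = p' ∧ q = q') ∨ (p = q' ∧ q = p') := by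
  unfold FS at hp hq hp' hq'
  split_ifs at hp hq hp' hq' with h1
  · exact two_primes (hP i p hp) (hP i p' hp') (hP i q' hq') h
  · rw [Finset.mem_singleton] at hp hq hp' hq'
    left
    rw [hp, hq, hp', hq']
    exact ⟨rfl, rfl⟩

/-- at most `2^k` pairs have a given product -/
theorem card_le (hP : ∀ i, ∀ p ∈ P i, p.Prime) (hd : ∀ i j, i ≠ j → Disjoint (P i) (P j))
    (n : ℤ) :
    ((Fintype.piFinset (FS P S) ×ˢ Fintype.piFinset (FS P S)).filter
      (fun x => n = ((∏ i, x.1 i * x.2 i : ℕ) : ℤ))).card ≤ 2 ^ k := by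
  classical
  set W := (Fintype.piFinset (FS P S) ×ˢ Fintype.piFinset (FS P S)).filter
      (fun x => n = ((∏ i, x.1 i * x.2 i : ℕ) : ℤ)) with hW
  rcases W.eq_empty_or_nonempty with h0 | ⟨x0, hx0⟩
  · rw [h0]
    exact Nat.zero_le _
  have key : W ⊆ Finset.univ.image (fun ε : Fin k → Bool =>
      ((fun i => if ε i then x0.1 i else x0.2 i, fun i => if ε i then x0.2 i else x0.1 i) :
        (Fin k → ℕ) × (Fin k → ℕ))) := by
    intro x hx
    rw [hW, Finset.mem_filter, Finset.mem_product, Fintype.mem_piFinset,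
      Fintype.mem_piFinset] at hx hx0
    obtain ⟨⟨h1, h2⟩, h3⟩ := hx
    obtain ⟨⟨h4, h5⟩, h6⟩ := hx0
    have h7 : ∏ i, x.1 i * x.2 i = ∏ i, x0.1 i * x0.2 i := by
      rw [h3] at h6
      exact_mod_cast h6
    have h8 : ∀ i, x.1 i * x.2 i = x0.1 i * x0.2 i := by
      refine eq_of_prod (fun i => x.1 i * x.2 i) (fun i => x0.1 i * x0.2 i) (fun i j hij => ?_) h7
      have c1 := FS_cop hP hd hij (h1 i) (h4 j)
      have c2 := FS_cop hP hd hij (h1 i) (h5 j)
      have c3 := FS_cop hP hd hij (h2 i) (h4 j)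
      have c4 := FS_cop hP hd hij (h2 i) (h5 j)
      exact Nat.Coprime.mul_left (Nat.Coprime.mul_right c1 c2) (Nat.Coprime.mul_right c3 c4)
    rw [Finset.mem_image]
    refine ⟨fun i => decide (x.1 i = x0.1 i ∧ x.2 i = x0.2 i), Finset.mem_univ _, ?_⟩
    refine Prod.ext (funext fun i => ?_) (funext fun i => ?_)
    · rcases FS_pair hP (h1 i) (h2 i) (h4 i) (h5 i) (h8 i) with h9 | h9
      · simp [h9]
      · by_cases h10 : x.1 i = x0.1 i ∧ x.2 i = x0.2 i
        · simp [h10]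
        · simp only [decide_eq_false h10]
          exact h9.1.symm
    · rcases FS_pair hP (h1 i) (h2 i) (h4 i) (h5 i) (h8 i) with h9 | h9
      · simp [h9]
      · by_cases h10 : x.1 i = x0.1 i ∧ x.2 i = x0.2 i
        · simp [h10]
        · simp only [decide_eq_false h10]
          exact h9.2.symm
  refine (Finset.card_le_card key).trans (Finset.card_image_le.trans ?_)
  rw [Finset.card_univ, Fintype.card_fun, Fintype.card_bool, Fintype.card_fin]

/-- size of the products -/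
theorem prod_bd (M : ℝ) (hM : 1 ≤ M) (hQ : ∀ i, P i ⊆ Pm M) {p q : Fin k → ℕ}
    (hp : p ∈ Fintype.piFinset (FS P S)) (hq : q ∈ Fintype.piFinset (FS P S)) :
    (M ^ S.card) ^ 2 ≤ ∏ i, ((p i : ℝ) * q i) ∧
      ∏ i, ((p i : ℝ) * q i) ≤ ((2 : ℝ) ^ k * M ^ S.card) ^ 2 := by
  classical
  have hM0 : (0 : ℝ) < M := by linarith
  rw [Fintype.mem_piFinset] at hp hq
  have h1 : ∏ i, ((p i : ℝ) * q i) = ∏ i ∈ S, ((p i : ℝ) * q i) := by
    symm
    refine Finset.prod_subset (Finset.subset_univ S) fun i _ hi => ?_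
    have h2 := hp i
    have h3 := hq i
    unfold FS at h2 h3
    rw [if_neg hi, Finset.mem_singleton] at h2 h3
    rw [h2, h3]
    norm_num
  have hmem : ∀ x : ℕ, x ∈ Pm M → M ≤ x ∧ (x : ℝ) ≤ 2 * M := by
    intro x hx
    unfold Pm at hx
    rw [Finset.mem_filter, Finset.mem_Ioc] at hx
    exact ⟨(Nat.lt_of_floor_lt hx.1.1).le, (Nat.le_floor_iff (by linarith)).1 hx.1.2⟩
  have h4 : ∀ i ∈ S, (M ≤ p i ∧ (p i : ℝ) ≤ 2 * M) ∧ (M ≤ q i ∧ (q i : ℝ) ≤ 2 * M) := by
    intro i hi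
    have h2 := hp i
    have h3 := hq i
    unfold FS at h2 h3
    rw [if_pos hi] at h2 h3
    exact ⟨hmem _ (hQ i h2), hmem _ (hQ i h3)⟩
  rw [h1]
  constructor
  · calc (M ^ S.card) ^ 2 = ∏ i ∈ S, (M * M) := by
          rw [Finset.prod_const]
          ring
      _ ≤ ∏ i ∈ S, ((p i : ℝ) * q i) := by
          refine Finset.prod_le_prod (fun i _ => by positivity) fun i hi => ?_
          obtain ⟨⟨a1, a2⟩, a3, a4⟩ := h4 i hi
          exact mul_le_mul a1 a3 hM0.le (hM0.le.trans a1)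
  · calc ∏ i ∈ S, ((p i : ℝ) * q i) ≤ ∏ i ∈ S, ((2 * M) * (2 * M)) := by
          refine Finset.prod_le_prod (fun i _ => by positivity) fun i hi => ?_
          obtain ⟨⟨a1, a2⟩, a3, a4⟩ := h4 i hi
          exact mul_le_mul a2 a4 (by positivity) (by positivity)
      _ = ((2 : ℝ) ^ S.card * M ^ S.card) ^ 2 := by
          rw [Finset.prod_const]
          rw [show (2 * M * (2 * M)) = (2 * M) ^ 2 by ring, ← pow_mul, mul_comm 2 S.card, pow_mul,
            mul_pow]
      _ ≤ ((2 : ℝ) ^ k * M ^ S.card) ^ 2 := by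
          have h5 : (2 : ℝ) ^ S.card ≤ 2 ^ k := by
            refine pow_le_pow_right₀ (by norm_num) ?_
            calc S.card ≤ Fintype.card (Fin k) := Finset.card_le_univ S
              _ = k := Fintype.card_fin k
          gcongr

/-- the terms for one `S` -/
theorem term_le (Φ : G → ℂ) (U : Set G) (M : ℝ) (hM : 1 ≤ M) (hQ : ∀ i, P i ⊆ Pm M)
    (hP : ∀ i, ∀ p ∈ P i, p.Prime) (hd : ∀ i j, i ≠ j → Disjoint (P i) (P j)) :
    ∑ p ∈ Fintype.piFinset (FS P S), ∑ q ∈ Fintype.piFinset (FS P S),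
        ENNReal.ofReal ((√(∏ i, ((p i : ℝ) * q i)))⁻¹) *
          ∑' s : Mn (∏ i, p i * q i), Dd Φ U (nm s.1) ≤
      ENNReal.ofReal ((M ^ S.card)⁻¹) * ((2 : ℝ≥0∞) ^ k *
        ∑' s : Mat, (Ds (2 ^ k) (M ^ S.card)).indicator (fun s => Dd Φ U (nm s)) s) := by
  classical
  have hM0 : (0 : ℝ) < M := by linarith
  have step : ∀ p ∈ Fintype.piFinset (FS P S), ∀ q ∈ Fintype.piFinset (FS P S),
      ENNReal.ofReal ((√(∏ i, ((p i : ℝ) * q i)))⁻¹) *
          ∑' s : Mn (∏ i, p i * q i), Dd Φ U (nm s.1) ≤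
      ENNReal.ofReal ((M ^ S.card)⁻¹) *
        ∑' s : Mat, (if s.det = ((∏ i, p i * q i : ℕ) : ℤ) then
          (Ds (2 ^ k) (M ^ S.card)).indicator (fun s => Dd Φ U (nm s)) s else 0) := by
    intro p hp q hq
    obtain ⟨b1, b2⟩ := prod_bd (S := S) M hM hQ hp hq
    refine mul_le_mul' (ENNReal.ofReal_le_ofReal ?_) (le_of_eq ?_)
    · refine inv_anti₀ (by positivity) ?_
      rw [← Real.sqrt_sq (show 0 ≤ M ^ S.card by positivity)]
      exact Real.sqrt_le_sqrt b1
    · have h1 := tsum_subtype {s : Mat | s.det = ((∏ i, p i * q i : ℕ) : ℤ)}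
        (fun s : Mat => Dd Φ U (nm s))
      refine h1.trans (tsum_congr fun s => ?_)
      by_cases hs : s.det = ((∏ i, p i * q i : ℕ) : ℤ)
      · rw [if_pos hs]
        have m1 : s ∈ {s : Mat | s.det = ((∏ i, p i * q i : ℕ) : ℤ)} := hs
        have m2 : s ∈ Ds (2 ^ k) (M ^ S.card) := by
          unfold Ds
          rw [Set.mem_setOf_eq, hs]
          push_cast
          exact ⟨b1, b2⟩
        rw [Set.indicator_of_mem m1, Set.indicator_of_mem m2]
      · rw [if_neg hs, Set.indicator_of_notMem]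
        exact hs
  calc _ ≤ ∑ p ∈ Fintype.piFinset (FS P S), ∑ q ∈ Fintype.piFinset (FS P S),
        ENNReal.ofReal ((M ^ S.card)⁻¹) *
        ∑' s : Mat, (if s.det = ((∏ i, p i * q i : ℕ) : ℤ) then
          (Ds (2 ^ k) (M ^ S.card)).indicator (fun s => Dd Φ U (nm s)) s else 0) :=
        Finset.sum_le_sum fun p hp => Finset.sum_le_sum fun q hq => step p hp q hq
    _ = ENNReal.ofReal ((M ^ S.card)⁻¹) * ∑' s : Mat,
        ∑ x ∈ Fintype.piFinset (FS P S) ×ˢ Fintype.piFinset (FS P S),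
          (if s.det = ((∏ i, x.1 i * x.2 i : ℕ) : ℤ) then
          (Ds (2 ^ k) (M ^ S.card)).indicator (fun s => Dd Φ U (nm s)) s else 0) := by
        rw [Summable.tsum_finsetSum (fun _ _ => ENNReal.summable), Finset.mul_sum,
          Finset.sum_product]
    _ ≤ _ := by
        refine mul_le_mul' le_rfl ?_
        rw [← ENNReal.tsum_mul_left]
        refine ENNReal.tsum_le_tsum fun s => ?_
        rw [← Finset.sum_filter, Finset.sum_const, nsmul_eq_mul]
        refine mul_le_mul' ?_ le_rfl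
        have h1 := card_le (S := S) hP hd s.det
        calc ((((Fintype.piFinset (FS P S) ×ˢ Fintype.piFinset (FS P S)).filter
              (fun x => s.det = ((∏ i, x.1 i * x.2 i : ℕ) : ℤ))).card : ℕ) : ℝ≥0∞)
            ≤ ((2 ^ k : ℕ) : ℝ≥0∞) := by exact_mod_cast h1
          _ = (2 : ℝ≥0∞) ^ k := by push_cast; rfl

end count

end AILL

open AILL

theorem stmtAIL (hAIk : StmtAIk) : StmtAIL := by
  classical
  intro k
  have hC1 : (1 : ℝ) ≤ (2 * (k : ℝ)) ^ (2 * k) * 8 ^ k := by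
    rcases Nat.eq_zero_or_pos k with h0 | h0
    · subst h0
      norm_num
    · have h1 : (1 : ℝ) ≤ k := by exact_mod_cast h0
      have h2 : (1 : ℝ) ≤ (2 * (k : ℝ)) ^ (2 * k) := one_le_pow₀ (by linarith)
      have h3 : (1 : ℝ) ≤ 8 ^ k := one_le_pow₀ (by norm_num)
      nlinarith
  refine ⟨(2 * (k : ℝ)) ^ (2 * k) * 8 ^ k, hC1, ?_⟩
  intro l Φ hE R U hU hUR κ M hκ hκ2 hM hkM hGd
  have hM0 : (0 : ℝ) < M := by linarith
  -- the sets
  obtain ⟨P, hPQ, hPd, hPs⟩ : ∃ P : Fin k → Finset ℕ,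
      (∀ i, P i ⊆ (Pm M).filter (fun p => M ^ (-κ) ≤ |l p|)) ∧
      (∀ i j, i ≠ j → Disjoint (P i) (P j)) ∧
      ∀ i, M ^ (1 - κ) / (2 * k) ≤ ((P i).card : ℝ) := by
    rcases Nat.eq_zero_or_pos k with h0 | h0
    · subst h0
      exact ⟨fun _ => ∅, fun i => i.elim0, fun i => i.elim0, fun i => i.elim0⟩
    · obtain ⟨P, h1, h2, h3⟩ := split ((Pm M).filter (fun p => M ^ (-κ) ≤ |l p|)) k h0
      refine ⟨P, h1, h2, fun i => ?_⟩
      have hk0 : (0 : ℝ) < k := by exact_mod_cast h0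
      have h4 : M ^ (1 - κ) ≤ (((Pm M).filter (fun p => M ^ (-κ) ≤ |l p|)).card : ℝ) := hGd
      set q := ((Pm M).filter (fun p => M ^ (-κ) ≤ |l p|)).card with hq
      have h5 : (q : ℝ) < k * ((q / k : ℕ) : ℝ) + k := by
        have h6 : q < k * (q / k) + k := by
          have := Nat.lt_mul_div_succ q h0
          rw [Nat.mul_succ] at this
          exact this
        exact_mod_cast h6
      have h7 : ((q / k : ℕ) : ℝ) ≤ ((P i).card : ℝ) := by exact_mod_cast h3 i
      rw [div_le_iff₀ (by positivity)]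
      nlinarith
  have hPm : ∀ i, P i ⊆ Pm M := fun i => (hPQ i).trans (Finset.filter_subset _ _)
  have hPp : ∀ i, ∀ p ∈ P i, p.Prime := by
    intro i p hp
    have h1 := hPm i hp
    unfold Pm at h1
    exact (Finset.mem_filter.1 h1).2
  have hmain := hAIk l Φ hE R U hU hUR k P hPp hPd
  -- the left side
  have hleft : ENNReal.ofReal ((M ^ k) ^ (2 - 4 * κ)) ≤
      ENNReal.ofReal ((2 * (k : ℝ)) ^ (2 * k)) *
        ENNReal.ofReal (∏ i, ∑ p ∈ P i, |l p|) ^ 2 := by
    have h1 : (M ^ (1 - 2 * κ) / (2 * k)) ^ k ≤ ∏ i, ∑ p ∈ P i, |l p| := by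
      calc (M ^ (1 - 2 * κ) / (2 * k)) ^ k = ∏ _i : Fin k, (M ^ (1 - 2 * κ) / (2 * k)) := by
            rw [Finset.prod_const, Finset.card_univ, Fintype.card_fin]
        _ ≤ ∏ i, ∑ p ∈ P i, |l p| := by
            refine Finset.prod_le_prod (fun i _ => by positivity) fun i _ => ?_
            calc M ^ (1 - 2 * κ) / (2 * k) = M ^ (1 - κ) / (2 * k) * M ^ (-κ) := by
                  rw [div_mul_eq_mul_div, ← Real.rpow_add hM0]
                  congr 2
                  ring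
              _ ≤ ((P i).card : ℝ) * M ^ (-κ) :=
                  mul_le_mul_of_nonneg_right (hPs i) (by positivity)
              _ = ∑ _p ∈ P i, M ^ (-κ) := by rw [Finset.sum_const, nsmul_eq_mul]
              _ ≤ ∑ p ∈ P i, |l p| :=
                  Finset.sum_le_sum fun p hp => (Finset.mem_filter.1 (hPQ i hp)).2
    have h2 : (M ^ k) ^ (2 - 4 * κ) =
        (2 * (k : ℝ)) ^ (2 * k) * ((M ^ (1 - 2 * κ) / (2 * k)) ^ k) ^ 2 := by
      have h3 : (M ^ k) ^ (2 - 4 * κ) = (M ^ (1 - 2 * κ)) ^ (2 * k) := by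
        rw [← Real.rpow_natCast M k, ← Real.rpow_mul hM0.le, ← Real.rpow_natCast (M ^ (1 - 2 * κ)),
          ← Real.rpow_mul hM0.le]
        congr 1
        push_cast
        ring
      rw [h3, ← pow_mul, mul_comm k 2]
      rcases Nat.eq_zero_or_pos k with h0 | h0
      · subst h0
        norm_num
      · have hk0 : (0 : ℝ) < k := by exact_mod_cast h0
        rw [← mul_pow]
        congr 1
        field_simp
    rw [h2, ENNReal.ofReal_mul (by positivity), ← ENNReal.ofReal_pow (by positivity)]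
    refine mul_le_mul' le_rfl (ENNReal.ofReal_le_ofReal ?_)
    have h4 : 0 ≤ (M ^ (1 - 2 * κ) / (2 * (k : ℝ))) ^ k := by positivity
    exact pow_le_pow_left₀ h4 h1 2
  -- the right side
  have hcard : ∀ i, ((P i).card : ℝ≥0∞) ≤ ENNReal.ofReal (2 * M) := by
    intro i
    have h1 : ((P i).card : ℝ) ≤ 2 * M := by
      have h2 : (P i).card ≤ ⌊2 * M⌋₊ := by
        calc (P i).card ≤ (Pm M).card := Finset.card_le_card (hPm i)
          _ ≤ (Finset.Ioc ⌊M⌋₊ ⌊2 * M⌋₊).card := Finset.card_filter_le _ _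
          _ = ⌊2 * M⌋₊ - ⌊M⌋₊ := Nat.card_Ioc _ _
          _ ≤ ⌊2 * M⌋₊ := Nat.sub_le _ _
      calc ((P i).card : ℝ) ≤ (⌊2 * M⌋₊ : ℝ) := by exact_mod_cast h2
        _ ≤ 2 * M := Nat.floor_le (by positivity)
    rw [← ENNReal.ofReal_natCast]
    exact ENNReal.ofReal_le_ofReal h1
  set T : ℕ → ℝ≥0∞ := fun j => ENNReal.ofReal (M ^ k / (M ^ j) ^ 2) *
        ∑' s : Mat, (Ds (2 ^ k) (M ^ j)).indicator (fun s => Dd Φ U (nm s)) s with hT
  have hterm : ∀ S : Finset (Fin k), (∏ i ∈ Sᶜ, ((P i).card : ℝ≥0∞)) *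
        ∑ p ∈ Fintype.piFinset (fun i => if i ∈ S then P i else {1}),
          ∑ q ∈ Fintype.piFinset (fun i => if i ∈ S then P i else {1}),
            ENNReal.ofReal ((√(∏ i, ((p i : ℝ) * q i)))⁻¹) *
              ∑' s : Mn (∏ i, p i * q i), Dd Φ U (nm s.1) ≤ (4 : ℝ≥0∞) ^ k * T S.card := by
    intro S
    have h1 : (∏ i ∈ Sᶜ, ((P i).card : ℝ≥0∞)) ≤ ENNReal.ofReal ((2 * M) ^ (k - S.card)) := by
      calc (∏ i ∈ Sᶜ, ((P i).card : ℝ≥0∞)) ≤ ∏ _i ∈ Sᶜ, ENNReal.ofReal (2 * M) :=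
            Finset.prod_le_prod' fun i _ => hcard i
        _ = ENNReal.ofReal ((2 * M) ^ (k - S.card)) := by
            rw [Finset.prod_const, Finset.card_compl, Fintype.card_fin,
              ENNReal.ofReal_pow (by positivity)]
    have h2 := term_le (S := S) Φ U M hM hPm hPp hPd
    refine (mul_le_mul' h1 h2).trans ?_
    have hSk : S.card ≤ k := by
      calc S.card ≤ Fintype.card (Fin k) := Finset.card_le_univ S
        _ = k := Fintype.card_fin k
    have h3 : ENNReal.ofReal ((2 * M) ^ (k - S.card)) * ENNReal.ofReal ((M ^ S.card)⁻¹) ≤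
        (2 : ℝ≥0∞) ^ k * ENNReal.ofReal (M ^ k / (M ^ S.card) ^ 2) := by
      have h4 : (2 : ℝ≥0∞) ^ k = ENNReal.ofReal (2 ^ k) := by
        rw [ENNReal.ofReal_pow (by norm_num)]
        norm_num
      rw [h4, ← ENNReal.ofReal_mul (by positivity), ← ENNReal.ofReal_mul (by positivity)]
      refine ENNReal.ofReal_le_ofReal ?_
      have h5 : M ^ k = M ^ (k - S.card) * M ^ S.card := by
        rw [← pow_add, Nat.sub_add_cancel hSk]
      rw [h5, mul_pow]
      have h6 : (2 : ℝ) ^ (k - S.card) ≤ 2 ^ k := pow_le_pow_right₀ (by norm_num) (Nat.sub_le _ _)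
      have h7 : M ^ (k - S.card) * M ^ S.card / (M ^ S.card) ^ 2 =
          M ^ (k - S.card) * (M ^ S.card)⁻¹ := by
        field_simp
      rw [h7, mul_assoc]
      exact mul_le_mul_of_nonneg_right h6 (by positivity)
    calc ENNReal.ofReal ((2 * M) ^ (k - S.card)) * (ENNReal.ofReal ((M ^ S.card)⁻¹) *
          ((2 : ℝ≥0∞) ^ k *
            ∑' s : Mat, (Ds (2 ^ k) (M ^ S.card)).indicator (fun s => Dd Φ U (nm s)) s))
        = (ENNReal.ofReal ((2 * M) ^ (k - S.card)) * ENNReal.ofReal ((M ^ S.card)⁻¹)) *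
          ((2 : ℝ≥0∞) ^ k *
            ∑' s : Mat, (Ds (2 ^ k) (M ^ S.card)).indicator (fun s => Dd Φ U (nm s)) s) := by
          rw [mul_assoc]
      _ ≤ ((2 : ℝ≥0∞) ^ k * ENNReal.ofReal (M ^ k / (M ^ S.card) ^ 2)) *
          ((2 : ℝ≥0∞) ^ k *
            ∑' s : Mat, (Ds (2 ^ k) (M ^ S.card)).indicator (fun s => Dd Φ U (nm s)) s) :=
          mul_le_mul' h3 le_rfl
      _ = (4 : ℝ≥0∞) ^ k * T S.card := by
          rw [hT, show (4 : ℝ≥0∞) = 2 * 2 by norm_num, mul_pow]
          ring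
  have hright : ∑ S : Finset (Fin k), (∏ i ∈ Sᶜ, ((P i).card : ℝ≥0∞)) *
        ∑ p ∈ Fintype.piFinset (fun i => if i ∈ S then P i else {1}),
          ∑ q ∈ Fintype.piFinset (fun i => if i ∈ S then P i else {1}),
            ENNReal.ofReal ((√(∏ i, ((p i : ℝ) * q i)))⁻¹) *
              ∑' s : Mn (∏ i, p i * q i), Dd Φ U (nm s.1) ≤
      (8 : ℝ≥0∞) ^ k * ∑ j ∈ Finset.range (k + 1), T j := by
    calc _ ≤ ∑ _S : Finset (Fin k), (4 : ℝ≥0∞) ^ k * ∑ j ∈ Finset.range (k + 1), T j := by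
          refine Finset.sum_le_sum fun S _ => (hterm S).trans (mul_le_mul' le_rfl ?_)
          have hSk : S.card ≤ k := by
            calc S.card ≤ Fintype.card (Fin k) := Finset.card_le_univ S
              _ = k := Fintype.card_fin k
          exact Finset.single_le_sum (f := T) (fun _ _ => bot_le)
            (Finset.mem_range.2 (Nat.lt_succ_of_le hSk))
      _ = (8 : ℝ≥0∞) ^ k * ∑ j ∈ Finset.range (k + 1), T j := by
          rw [Finset.sum_const, Finset.card_univ, Fintype.card_finset, Fintype.card_fin,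
            nsmul_eq_mul, ← mul_assoc]
          congr 1
          push_cast
          rw [← mul_pow]
          norm_num
  calc ENNReal.ofReal ((M ^ k) ^ (2 - 4 * κ)) * ms Φ U ^ 2
      ≤ (ENNReal.ofReal ((2 * (k : ℝ)) ^ (2 * k)) *
        ENNReal.ofReal (∏ i, ∑ p ∈ P i, |l p|) ^ 2) * ms Φ U ^ 2 := mul_le_mul' hleft le_rfl
    _ = ENNReal.ofReal ((2 * (k : ℝ)) ^ (2 * k)) *
        (ENNReal.ofReal (∏ i, ∑ p ∈ P i, |l p|) ^ 2 * ms Φ U ^ 2) := by rw [mul_assoc]
    _ ≤ ENNReal.ofReal ((2 * (k : ℝ)) ^ (2 * k)) *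
        ((8 : ℝ≥0∞) ^ k * ∑ j ∈ Finset.range (k + 1), T j) :=
        mul_le_mul' le_rfl (hmain.trans hright)
    _ = ENNReal.ofReal ((2 * (k : ℝ)) ^ (2 * k) * 8 ^ k) *
        ∑ j ∈ Finset.range (k + 1), T j := by
        rw [← mul_assoc, ENNReal.ofReal_mul (by positivity),
          ENNReal.ofReal_pow (show (0 : ℝ) ≤ 8 by norm_num)]
        norm_num

end

end Pool.Agent.A54.Hp
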