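import Pool.Agent.Lib.MP_a54f13_nt.Hp.SpecA
import Pool.Agent.Lib.MP_a54f13_nt.Sq.Twr

/-!
# Package `Hp`, module `TwG`: the tower on the group
-/

set_option autoImplicit false

namespace Pool.Agent.A54.Hp

open MeasureTheory Filter Topology Set
open scoped ContDiff ComplexConjugate UpperHalfPlane MatrixGroups ENNReal
open Pool.Agent.A54.Dyn (G fl base ze io mk4 dom)
open Pool.Agent.A54.Half (H0)
open Pool.Agent.A54.Sq (la)

namespace TwGM

noncomputable section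

open Pool.Agent.A54.Sq.TwrM (sk mu_pos prod_pos sk_pos la_nat la_neg sk_succ dz_at)

variable {f : ℍ → ℝ} {t : ℝ}

/-- the functions with nonnegative index -/
def gp (f : ℍ → ℝ) (t : ℝ) (k : ℕ) (z : ℂ) : ℂ := Av.fk f k z / ((sk t k : ℝ) : ℂ)

lemma Gf_nat (k : ℕ) : Gf f t (k : ℤ) = gp f t k := rfl

lemma Gf_negSucc (m : ℕ) :
    Gf f t (Int.negSucc m) = fun z => (-1) ^ (m + 1) * conj (gp f t (m + 1) z) := rfl

lemma gp_zero (z : ℂ) : gp f t 0 z = (ext f z : ℂ) := by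
  have h1 : sk t 0 = 1 := by
    unfold sk
    simp
  have h2 : Av.fk f 0 z = (ext f z : ℂ) := rfl
  unfold gp
  rw [h1, h2, Complex.ofReal_one, div_one]

lemma gp_eq (k : ℕ) : gp f t k = fun z => (((sk t k)⁻¹ : ℝ) : ℂ) * Av.fk f k z := by
  funext z
  unfold gp
  rw [div_eq_inv_mul, Complex.ofReal_inv]

lemma Gf_neg (n : ℤ) (z : ℂ) : Gf f t (-n) z = (-1) ^ n * conj (Gf f t n z) := by
  cases n with
  | ofNat k =>
    cases k with
    | zero =>
      show gp f t 0 z = (-1) ^ (0 : ℤ) * conj (gp f t 0 z)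
      rw [zpow_zero, one_mul, gp_zero, Complex.conj_ofReal]
    | succ m =>
      show (-1) ^ (m + 1) * conj (gp f t (m + 1) z) =
        (-1) ^ (((m + 1 : ℕ) : ℤ)) * conj (gp f t (m + 1) z)
      rw [zpow_natCast]
  | negSucc m =>
    show gp f t (m + 1) z = (-1) ^ (Int.negSucc m) *
      conj ((-1) ^ (m + 1) * conj (gp f t (m + 1) z))
    rw [map_mul, Complex.conj_conj, map_pow, map_neg, map_one, zpow_negSucc, ← mul_assoc,
      inv_mul_cancel₀ (pow_ne_zero _ (by norm_num)), one_mul]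

lemma Gf_negnat (m : ℕ) : Gf f t (-(m : ℤ)) = fun z => (-1) ^ m * conj (gp f t m z) := by
  funext z
  rw [Gf_neg, zpow_natCast]
  rfl

lemma gp_smooth (hs : ∀ k, ContDiffOn ℝ ∞ (Av.fk f k) H0) (k : ℕ) :
    ContDiffOn ℝ ∞ (gp f t k) H0 := by
  rw [gp_eq]
  exact contDiffOn_const.mul (hs k)

lemma Gf_smooth (hs : ∀ k, ContDiffOn ℝ ∞ (Av.fk f k) H0) (n : ℤ) :
    ContDiffOn ℝ ∞ (Gf f t n) H0 := by
  cases n with
  | ofNat k => exact gp_smooth hs k
  | negSucc m =>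
    exact contDiffOn_const.mul (Complex.conjCLE.contDiff.comp_contDiffOn (gp_smooth hs (m + 1)))

lemma diff_at (hs : ∀ k, ContDiffOn ℝ ∞ (Av.fk f k) H0) (k : ℕ) {z : ℂ} (hz : z ∈ H0) :
    DifferentiableAt ℝ (Av.fk f k) z :=
  ((hs k).contDiffAt (Half.isOpen_H0.mem_nhds hz)).differentiableAt (by simp)

lemma gp_diff (hs : ∀ k, ContDiffOn ℝ ∞ (Av.fk f k) H0) (k : ℕ) {z : ℂ} (hz : z ∈ H0) :
    DifferentiableAt ℝ (gp f t k) z :=
  ((gp_smooth hs k).contDiffAt (Half.isOpen_H0.mem_nhds hz)).differentiableAt (by simp)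

lemma conj_at {a : ℂ → ℂ} {z : ℂ} (ha : DifferentiableAt ℝ a z) :
    DifferentiableAt ℝ (fun w => conj (a w)) z ∧
    dz (fun w => conj (a w)) z = conj (dzb a z) ∧ dzb (fun w => conj (a w)) z = conj (dz a z) := by
  have h2 : HasFDerivAt (fun w => conj (a w))
      ((Complex.conjCLE.toContinuousLinearMap).comp (fderiv ℝ a z)) z :=
    (Complex.conjCLE.toContinuousLinearMap.hasFDerivAt (x := a z)).comp z ha.hasFDerivAt
  have h3 : ∀ v, fderiv ℝ (fun w => conj (a w)) z v = conj (fderiv ℝ a z v) := by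
    intro v
    rw [h2.fderiv]
    rfl
  refine ⟨h2.differentiableAt, ?_, ?_⟩
  · unfold dz dzb
    rw [h3, h3]
    simp only [map_add, map_mul, Complex.conj_I]
    ring
  · unfold dz dzb
    rw [h3, h3]
    simp only [map_sub, map_mul, Complex.conj_I]
    ring

lemma up_nat (ht : 0 < t) (hs : ∀ k, ContDiffOn ℝ ∞ (Av.fk f k) H0) (k : ℕ) {z : ℂ} (hz : z ∈ H0) :
    Complex.I * (z.im : ℂ) * dz (gp f t k) z + (k : ℂ) * gp f t k z =
      ((√(Av.mu k t) : ℝ) : ℂ) * gp f t (k + 1) z := by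
  rw [gp_eq, gp_eq, (dz_at _ (diff_at hs k hz)).1]
  have e1 : Av.fk f (k + 1) z = Complex.I * (z.im : ℂ) * dz (Av.fk f k) z + (k : ℂ) * Av.fk f k z :=
    rfl
  have e2 : ((sk t (k + 1))⁻¹ : ℝ) = (√(Av.mu k t))⁻¹ * (sk t k)⁻¹ := by
    rw [sk_succ ht, mul_inv, mul_comm]
  have h3 : ((√(Av.mu k t) : ℝ) : ℂ) ≠ 0 := by
    exact_mod_cast (Real.sqrt_pos.2 (mu_pos ht k)).ne'
  simp only []
  rw [e1, e2]
  push_cast
  field_simp

lemma down_nat (ht : 0 < t) (hs : ∀ k, ContDiffOn ℝ ∞ (Av.fk f k) H0)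
    (hL : ∀ k, ∀ z ∈ H0, Av.LL (k + 1) (Av.fk f (k + 1)) z = -((Av.mu k t : ℝ) : ℂ) * Av.fk f k z)
    (k : ℕ) {z : ℂ} (hz : z ∈ H0) :
    -(Complex.I * (z.im : ℂ) * dzb (gp f t (k + 1)) z) - ((k : ℂ) + 1) * gp f t (k + 1) z =
      -(((√(Av.mu k t) : ℝ) : ℂ) * gp f t k z) := by
  rw [gp_eq, gp_eq, (dz_at _ (diff_at hs (k + 1) hz)).2]
  have e1 := hL k z hz
  unfold Av.LL at e1
  push_cast at e1
  have e2 : ((sk t (k + 1))⁻¹ : ℝ) = (√(Av.mu k t))⁻¹ * (sk t k)⁻¹ := by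
    rw [sk_succ ht, mul_inv, mul_comm]
  have h3 : ((√(Av.mu k t) : ℝ) : ℂ) ≠ 0 := by
    exact_mod_cast (Real.sqrt_pos.2 (mu_pos ht k)).ne'
  have e4 : ((Av.mu k t : ℝ) : ℂ) = ((√(Av.mu k t) : ℝ) : ℂ) * ((√(Av.mu k t) : ℝ) : ℂ) := by
    rw [← Complex.ofReal_mul, Real.mul_self_sqrt (mu_pos ht k).le]
  calc -(Complex.I * (z.im : ℂ) * ((((sk t (k + 1))⁻¹ : ℝ) : ℂ) * dzb (Av.fk f (k + 1)) z)) -
        ((k : ℂ) + 1) * ((((sk t (k + 1))⁻¹ : ℝ) : ℂ) * Av.fk f (k + 1) z)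
      = (((sk t (k + 1))⁻¹ : ℝ) : ℂ) * (-(Complex.I * (z.im : ℂ) * dzb (Av.fk f (k + 1)) z) -
          ((k : ℂ) + 1) * Av.fk f (k + 1) z) := by ring
    _ = (((sk t (k + 1))⁻¹ : ℝ) : ℂ) * (-((Av.mu k t : ℝ) : ℂ) * Av.fk f k z) := by rw [e1]
    _ = -(((√(Av.mu k t) : ℝ) : ℂ) * ((((sk t k)⁻¹ : ℝ) : ℂ) * Av.fk f k z)) := by
        rw [e4, e2]
        push_cast
        field_simp

lemma up (ht : 0 < t) (hs : ∀ k, ContDiffOn ℝ ∞ (Av.fk f k) H0)
    (hL : ∀ k, ∀ z ∈ H0, Av.LL (k + 1) (Av.fk f (k + 1)) z = -((Av.mu k t : ℝ) : ℂ) * Av.fk f k z)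
    (n : ℤ) {z : ℂ} (hz : z ∈ H0) :
    Complex.I * (z.im : ℂ) * dz (Gf f t n) z + (n : ℂ) * Gf f t n z =
      ((la t n : ℝ) : ℂ) * Gf f t (n + 1) z := by
  cases n with
  | ofNat k =>
    have h2 := up_nat ht hs k hz
    show Complex.I * (z.im : ℂ) * dz (gp f t k) z + (((k : ℕ) : ℤ) : ℂ) * gp f t k z =
      ((la t (k : ℤ) : ℝ) : ℂ) * gp f t (k + 1) z
    rw [la_nat, Int.cast_natCast]
    exact h2
  | negSucc m =>
    have h2 := down_nat ht hs hL m hz
    have e0 : Int.negSucc m + 1 = -(m : ℤ) := by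
      rw [Int.negSucc_eq]
      ring
    rw [e0, la_neg, Gf_negnat]
    have hgd := gp_diff (t := t) hs (m + 1) hz
    have hc := conj_at hgd
    have e1 : dz (Gf f t (Int.negSucc m)) z = (-1) ^ (m + 1) * conj (dzb (gp f t (m + 1)) z) := by
      have e : Gf f t (Int.negSucc m) =
          fun z => (-1) ^ (m + 1) * (fun w => conj (gp f t (m + 1) w)) z := rfl
      rw [e, (dz_at _ hc.1).1, hc.2.1]
    have e2 : Gf f t (Int.negSucc m) z = (-1) ^ (m + 1) * conj (gp f t (m + 1) z) := rfl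
    have e3 : ((Int.negSucc m : ℤ) : ℂ) = -((m : ℂ) + 1) := by
      rw [Int.negSucc_eq]
      push_cast
      ring
    rw [e1, e2, e3]
    have h3 := congrArg (starRingEnd ℂ) h2
    simp only [map_sub, map_neg, map_mul, map_add, Complex.conj_I, Complex.conj_ofReal,
      map_natCast, map_one] at h3
    linear_combination (-1) ^ (m + 1) * h3

lemma down (ht : 0 < t) (hs : ∀ k, ContDiffOn ℝ ∞ (Av.fk f k) H0)
    (hL : ∀ k, ∀ z ∈ H0, Av.LL (k + 1) (Av.fk f (k + 1)) z = -((Av.mu k t : ℝ) : ℂ) * Av.fk f k z)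
    (n : ℤ) {z : ℂ} (hz : z ∈ H0) :
    -(Complex.I * (z.im : ℂ) * dzb (Gf f t (n + 1)) z) - ((n : ℂ) + 1) * Gf f t (n + 1) z =
      -(((la t n : ℝ) : ℂ) * Gf f t n z) := by
  cases n with
  | ofNat k =>
    have h2 := down_nat ht hs hL k hz
    show -(Complex.I * (z.im : ℂ) * dzb (gp f t (k + 1)) z) -
      ((((k : ℕ) : ℤ) : ℂ) + 1) * gp f t (k + 1) z = -(((la t (k : ℤ) : ℝ) : ℂ) * gp f t k z)
    rw [la_nat, Int.cast_natCast]
    exact h2
  | negSucc m =>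
    have h2 := up_nat ht hs m hz
    have e0 : Int.negSucc m + 1 = -(m : ℤ) := by
      rw [Int.negSucc_eq]
      ring
    rw [e0, la_neg, Gf_negnat]
    have hgd := gp_diff (t := t) hs m hz
    have hc := conj_at hgd
    have e1 : dzb (fun z => (-1) ^ m * conj (gp f t m z)) z =
        (-1) ^ m * conj (dz (gp f t m) z) := by
      have e : (fun z => (-1) ^ m * conj (gp f t m z)) =
          fun z => (-1) ^ m * (fun w => conj (gp f t m w)) z := rfl
      rw [e, (dz_at _ hc.1).2, hc.2.2]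
    have e2 : Gf f t (Int.negSucc m) z = (-1) ^ (m + 1) * conj (gp f t (m + 1) z) := rfl
    have e3 : ((Int.negSucc m : ℤ) : ℂ) = -((m : ℂ) + 1) := by
      rw [Int.negSucc_eq]
      push_cast
      ring
    rw [e1, e2, e3]
    have h3 := congrArg (starRingEnd ℂ) h2
    simp only [map_mul, map_add, Complex.conj_I, Complex.conj_ofReal, map_natCast] at h3
    linear_combination (-1) ^ m * h3

/-! ### invariance -/

lemma Gf_T (hW : ∀ k, Av.Wt k (Av.fk f k)) (n : ℤ) {z : ℂ} (hz : z ∈ H0) :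
    Gf f t n (z + 1) = Gf f t n z := by
  cases n with
  | ofNat k =>
    show gp f t k (z + 1) = gp f t k z
    unfold gp
    rw [(hW k).T z hz]
  | negSucc m =>
    show (-1) ^ (m + 1) * conj (gp f t (m + 1) (z + 1)) = (-1) ^ (m + 1) * conj (gp f t (m + 1) z)
    unfold gp
    rw [(hW (m + 1)).T z hz]

lemma Gf_S (hW : ∀ k, Av.Wt k (Av.fk f k)) (n : ℤ) {z : ℂ} (hz : z ∈ H0) :
    Gf f t n (-z⁻¹) = (z / conj z) ^ n * Gf f t n z := by
  cases n with
  | ofNat k =>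
    show gp f t k (-z⁻¹) = (z / conj z) ^ ((k : ℕ) : ℤ) * gp f t k z
    unfold gp
    rw [(hW k).S z hz, zpow_natCast, mul_div_assoc]
  | negSucc m =>
    show (-1) ^ (m + 1) * conj (gp f t (m + 1) (-z⁻¹)) =
      (z / conj z) ^ (Int.negSucc m) * ((-1) ^ (m + 1) * conj (gp f t (m + 1) z))
    unfold gp
    have h1 : conj (z / conj z) = (z / conj z)⁻¹ := by
      rw [map_div₀, Complex.conj_conj, inv_div]
    rw [(hW (m + 1)).S z hz, zpow_negSucc, mul_div_assoc, map_mul, map_pow, h1, inv_pow]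
    ring

lemma io_mul (γ γ' : SL(2, ℤ)) : io (γ * γ') = io γ * io γ' := by
  unfold io
  rw [map_mul]

lemma io_one : io 1 = 1 := by
  unfold io
  rw [map_one]

/-- the subgroup of the invariances -/
def Sg (F : G → ℂ) : Subgroup SL(2, ℤ) where
  carrier := {γ | ∀ g : G, F (io γ * g) = F g}
  mul_mem' {a b} ha hb g := by
    rw [io_mul, mul_assoc, ha, hb]
  one_mem' g := by
    rw [io_one, one_mul]
  inv_mem' {a} ha g := by
    have h1 := ha (io a⁻¹ * g)
    rw [← mul_assoc, ← io_mul, mul_inv_cancel, io_one, one_mul] at h1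
    exact h1.symm

lemma io_T (i j : Fin 2) : (io ModularGroup.T) i j = ((ModularGroup.T i j : ℤ) : ℝ) := rfl

lemma io_S (i j : Fin 2) : (io ModularGroup.S) i j = ((ModularGroup.S i j : ℤ) : ℝ) := rfl

lemma inv_T (hW : ∀ k, Av.Wt k (Av.fk f k)) (n : ℤ) (g : G) :
    Ff f t n (io ModularGroup.T * g) = Ff f t n g := by
  have e00 : (io ModularGroup.T) 0 0 = 1 := by rw [io_T]; simp [ModularGroup.T]
  have e01 : (io ModularGroup.T) 0 1 = 1 := by rw [io_T]; simp [ModularGroup.T]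
  have e10 : (io ModularGroup.T) 1 0 = 0 := by rw [io_T]; simp [ModularGroup.T]
  have e11 : (io ModularGroup.T) 1 1 = 1 := by rw [io_T]; simp [ModularGroup.T]
  have hb : ((base (io ModularGroup.T * g) : ℍ) : ℂ) = (base g : ℂ) + 1 := by
    rw [Dyn.base_mul, Dyn.smul_coe, e00, e01, e10, e11]
    simp
  have hz : ze (io ModularGroup.T * g) = ze g := by
    rw [Dyn.ze_mul, e10, e11]
    simp
  unfold Ff
  rw [hb, hz, Gf_T hW n (base g).im_pos]

lemma inv_S (hW : ∀ k, Av.Wt k (Av.fk f k)) (n : ℤ) (g : G) :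
    Ff f t n (io ModularGroup.S * g) = Ff f t n g := by
  have e00 : (io ModularGroup.S) 0 0 = 0 := by rw [io_S]; simp [ModularGroup.S]
  have e01 : (io ModularGroup.S) 0 1 = -1 := by rw [io_S]; simp [ModularGroup.S]
  have e10 : (io ModularGroup.S) 1 0 = 1 := by rw [io_S]; simp [ModularGroup.S]
  have e11 : (io ModularGroup.S) 1 1 = 0 := by rw [io_S]; simp [ModularGroup.S]
  have hne : ((base g : ℍ) : ℂ) ≠ 0 := UpperHalfPlane.ne_zero (base g)
  have hnc : conj ((base g : ℍ) : ℂ) ≠ 0 := (map_ne_zero _).2 hne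
  have hb : ((base (io ModularGroup.S * g) : ℍ) : ℂ) = -((base g : ℂ))⁻¹ := by
    rw [Dyn.base_mul, Dyn.smul_coe, e00, e01, e10, e11]
    simp [neg_div, one_div]
  have hz : ze (io ModularGroup.S * g) = ze g * ((base g : ℂ) / conj (base g : ℂ))⁻¹ := by
    rw [Dyn.ze_mul, e10, e11, inv_div]
    simp
  unfold Ff
  rw [hb, hz, Gf_S hW n (base g).im_pos, mul_zpow, inv_zpow, mul_assoc,
    inv_mul_cancel_left₀ (zpow_ne_zero n (div_ne_zero hne hnc))]

lemma inv_all (hW : ∀ k, Av.Wt k (Av.fk f k)) (n : ℤ) (γ : SL(2, ℤ)) (g : G) :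
    Ff f t n (io γ * g) = Ff f t n g := by
  have h1 : Subgroup.closure {ModularGroup.S, ModularGroup.T} ≤ Sg (Ff f t n) := by
    rw [Subgroup.closure_le]
    rintro x (rfl | rfl)
    · exact fun g => inv_S hW n g
    · exact fun g => inv_T hW n g
  rw [SpecialLinearGroup.SL2Z_generators] at h1
  exact h1 (Subgroup.mem_top γ) g

/-! ### norms, bounds, continuity -/

lemma norm_neg_succ (m : ℕ) (z : ℂ) : ‖Gf f t (Int.negSucc m) z‖ = ‖gp f t (m + 1) z‖ := by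
  rw [Gf_negSucc, norm_mul, norm_pow, norm_neg, norm_one, one_pow, one_mul, RCLike.norm_conj]

lemma lint (ht : 0 < t) (hn : ∫ z in ModularGroup.fdo, f z ^ 2 = Real.pi / 3)
    (hk : ∀ k : ℕ, ∫ z in ModularGroup.fdo, Av.fk f k z * conj (Av.fk f k z) =
      (((∏ j ∈ Finset.range k, Av.mu j t) * ∫ z in ModularGroup.fdo, f z * f z : ℝ) : ℂ)) (k : ℕ) :
    ∫⁻ z in ModularGroup.fdo, ‖gp f t k (z : ℂ)‖ₑ ^ 2 = ENNReal.ofReal (Real.pi / 3) := by
  have hP := prod_pos ht k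
  have h1 := hk k
  have h2 : ∫ z in ModularGroup.fdo, f z * f z = Real.pi / 3 := by
    rw [← hn]
    refine integral_congr_ae (Eventually.of_forall fun z => ?_)
    simp only
    ring
  rw [h2] at h1
  have hpi : 0 < (∏ j ∈ Finset.range k, Av.mu j t) * (Real.pi / 3) :=
    mul_pos hP (by positivity)
  have hI : Integrable (fun z : ℍ => Av.fk f k z * conj (Av.fk f k z))
      (volume.restrict ModularGroup.fdo) := by
    by_contra hI
    rw [integral_undef hI] at h1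
    have h3 : (0 : ℝ) = (∏ j ∈ Finset.range k, Av.mu j t) * (Real.pi / 3) := by
      exact_mod_cast h1
    exact hpi.ne h3
  have e1 : ∀ z : ℍ, Av.fk f k z * conj (Av.fk f k z) = ((‖Av.fk f k z‖ ^ 2 : ℝ) : ℂ) := by
    intro z
    rw [Complex.mul_conj, Complex.normSq_eq_norm_sq]
  have hI2 : Integrable (fun z : ℍ => ‖Av.fk f k z‖ ^ 2) (volume.restrict ModularGroup.fdo) := by
    have h3 := hI.norm
    refine h3.congr (Eventually.of_forall fun z => ?_)
    simp only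
    rw [e1, Complex.norm_real, Real.norm_of_nonneg (by positivity)]
  have h4 : ∫ z in ModularGroup.fdo, ‖Av.fk f k (z : ℂ)‖ ^ 2 =
      (∏ j ∈ Finset.range k, Av.mu j t) * (Real.pi / 3) := by
    have h5 : ((∫ z in ModularGroup.fdo, ‖Av.fk f k (z : ℂ)‖ ^ 2 : ℝ) : ℂ) =
        (((∏ j ∈ Finset.range k, Av.mu j t) * (Real.pi / 3) : ℝ) : ℂ) := by
      rw [← h1, ← integral_complex_ofReal]
      refine integral_congr_ae (Eventually.of_forall fun z => ?_)
      simp only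
      rw [e1]
    exact_mod_cast h5
  have e2 : ∀ z : ℍ, ‖gp f t k (z : ℂ)‖ₑ ^ 2 =
      ENNReal.ofReal ((∏ j ∈ Finset.range k, Av.mu j t)⁻¹ * ‖Av.fk f k (z : ℂ)‖ ^ 2) := by
    intro z
    rw [← ofReal_norm, ← ENNReal.ofReal_pow (norm_nonneg _)]
    congr 1
    rw [gp_eq]
    simp only
    rw [norm_mul, mul_pow, Complex.norm_real, Real.norm_eq_abs, sq_abs, inv_pow]
    unfold sk
    rw [Real.sq_sqrt hP.le]
  have e3 : ∫⁻ z in ModularGroup.fdo, ‖gp f t k (z : ℂ)‖ₑ ^ 2 =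
      ∫⁻ z in ModularGroup.fdo, ENNReal.ofReal
        ((∏ j ∈ Finset.range k, Av.mu j t)⁻¹ * ‖Av.fk f k (z : ℂ)‖ ^ 2) :=
    lintegral_congr fun z => e2 z
  rw [e3, ← ofReal_integral_eq_lintegral_ofReal (hI2.const_mul _)
    (Eventually.of_forall fun z => by positivity), integral_const_mul, h4, ← mul_assoc,
    inv_mul_cancel₀ hP.ne', one_mul]

lemma cont (hs : ∀ k, ContDiffOn ℝ ∞ (Av.fk f k) H0) (n : ℤ) : Continuous (Ff f t n) := by
  unfold Ff
  refine (Dyn.continuous_ze.zpow₀ n fun g => Or.inl (Dyn.ze_ne g)).mul ?_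
  exact (Gf_smooth hs n).continuousOn.comp_continuous
    (UpperHalfPlane.continuous_coe.comp Dyn.continuous_base) fun g => (base g).im_pos

end

end TwGM

open TwGM in
/-- **TwG** the tower on the group -/
theorem stmtTwG (hWf : Av.StmtWf) (hDer : Av.StmtDer) (hNk : Av.StmtNk) : StmtTwG := by
  intro f t hf n
  have ht := hf.pos
  have hs : ∀ k, ContDiffOn ℝ ∞ (Av.fk f k) H0 := fun k => (hWf f t hf k).2.1
  have hL := fun k => (hWf f t hf k).2.2
  have hW := fun k => (hWf f t hf k).1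
  refine ⟨Gf_smooth hs n, fun z hz => up ht hs hL n hz, fun z hz => down ht hs hL n hz,
    fun z => Gf_neg n z, fun z => gp_zero z, inv_all hW n, ?_, ?_, cont hs n⟩
  · cases n with
    | ofNat k => exact lint ht hf.normalised (fun k => hNk f f t t hf hf k) k
    | negSucc m =>
      have h1 := lint ht hf.normalised (fun k => hNk f f t t hf hf k) (m + 1)
      rw [← h1]
      refine lintegral_congr fun z => ?_
      rw [← ofReal_norm, ← ofReal_norm, norm_neg_succ]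
  · have hb : ∀ k : ℕ, ∃ C : ℝ, ∀ z ∈ H0, ‖gp f t k z‖ ≤ C := by
      intro k
      obtain ⟨C, hC⟩ := hDer f t hf k
      refine ⟨C / Sq.TwrM.sk t k, fun z hz => ?_⟩
      unfold gp
      rw [norm_div, Complex.norm_real, Real.norm_of_nonneg (Sq.TwrM.sk_pos ht k).le]
      exact div_le_div_of_nonneg_right (hC z hz) (Sq.TwrM.sk_pos ht k).le
    cases n with
    | ofNat k => exact hb k
    | negSucc m =>
      obtain ⟨C, hC⟩ := hb (m + 1)
      exact ⟨C, fun z hz => by rw [norm_neg_succ]; exact hC z hz⟩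

end Pool.Agent.A54.Hp
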