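import Pool.Agent.Lib.MP_a54f13_nt.Hp.SpecC
import Pool.Agent.Lib.MP_a54f13_nt.Hp.TwG
import Pool.Agent.Lib.MP_a54f13_nt.Av.Wf
import Pool.Agent.Lib.MP_a54f13_nt.Pl.U2

/-!
# Package `Hp`, `Asw`: short windows (helper1)
-/

set_option autoImplicit false

namespace Pool.Agent.A54.Hp

open MeasureTheory Filter Topology Set
open scoped ContDiff ComplexConjugate UpperHalfPlane MatrixGroups ENNReal
open Pool.Agent.A54.Dyn (G fl base ze io mk4 dom)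
open Pool.Agent.A54.Dyn.LiftM (Sct XC XX cc rot m0)
open Pool.Agent.A54.Half (H0)
open Pool.Agent.A54.Sq (la TestP)

noncomputable section

namespace AswM

lemma cont_Gf {f : ℍ → ℝ} {t : ℝ} (hf : IsHeckeMaass f t) (n : ℤ) :
    Continuous (fun z : ℍ => ‖Gf f t n (z : ℂ)‖) :=
  ((TwGM.Gf_smooth (Av.WfM.smooth_fk hf.smooth) n).continuousOn.comp_continuous
    UpperHalfPlane.continuous_coe (fun z => z.im_pos)).norm

/-! ### the window -/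

lemma ch_nonneg (τ₀ x : ℝ) : 0 ≤ ch τ₀ x := le_max_left _ _

lemma ch_cont {τ₀ : ℝ} : Continuous (ch τ₀) :=
  continuous_const.max (continuous_const.sub (continuous_abs.div_const τ₀))

lemma ch_zero {τ₀ x : ℝ} (h0 : 0 < τ₀) (h : τ₀ ≤ |x|) : ch τ₀ x = 0 := by
  unfold ch
  have : 1 ≤ |x| / τ₀ := by rwa [le_div_iff₀ h0, one_mul]
  exact max_eq_left (by linarith)

lemma ch_eq {τ₀ x : ℝ} (h0 : 0 < τ₀) (h : |x| ≤ τ₀) : ch τ₀ x = 1 - |x| / τ₀ := by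
  unfold ch
  have : |x| / τ₀ ≤ 1 := by rwa [div_le_iff₀ h0, one_mul]
  exact max_eq_right (by linarith)

lemma ch_cpt {τ₀ : ℝ} (h0 : 0 < τ₀) : HasCompactSupport (ch τ₀) := by
  refine HasCompactSupport.intro (isCompact_Icc (a := -τ₀) (b := τ₀)) fun x hx => ?_
  apply ch_zero h0
  by_contra hlt
  push Not at hlt
  exact hx ⟨(abs_lt.mp hlt).1.le, (abs_lt.mp hlt).2.le⟩

lemma ch_int {τ₀ : ℝ} (h0 : 0 < τ₀) : ∫ x, ch τ₀ x = τ₀ := by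
  have h1 : ∫ x, ch τ₀ x = ∫ x in (-τ₀)..τ₀, ch τ₀ x := by
    rw [intervalIntegral.integral_of_le (by linarith)]
    symm
    apply setIntegral_eq_integral_of_forall_compl_eq_zero
    intro x hx
    apply ch_zero h0
    by_contra hlt
    push Not at hlt
    exact hx ⟨(abs_lt.mp hlt).1, (abs_lt.mp hlt).2.le⟩
  have hi : ∀ a b : ℝ, IntervalIntegrable (ch τ₀) volume a b := fun a b =>
    ch_cont.intervalIntegrable a b
  rw [h1, ← intervalIntegral.integral_add_adjacent_intervals (hi (-τ₀) 0) (hi 0 τ₀)]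
  have h2 : ∫ x in (-τ₀)..0, ch τ₀ x = ∫ x in (-τ₀)..0, (1 + x / τ₀) := by
    apply intervalIntegral.integral_congr
    intro x hx
    rw [uIcc_of_le (by linarith)] at hx
    show ch τ₀ x = 1 + x / τ₀
    rw [ch_eq h0 (abs_le.mpr ⟨hx.1, by linarith [hx.2]⟩), abs_of_nonpos hx.2]
    ring
  have h3 : ∫ x in (0 : ℝ)..τ₀, ch τ₀ x = ∫ x in (0 : ℝ)..τ₀, (1 - x / τ₀) := by
    apply intervalIntegral.integral_congr
    intro x hx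
    rw [uIcc_of_le h0.le] at hx
    show ch τ₀ x = 1 - x / τ₀
    rw [ch_eq h0 (abs_le.mpr ⟨by linarith [hx.1], hx.2⟩), abs_of_nonneg hx.1]
  have hid : ∀ a b : ℝ, IntervalIntegrable (fun x : ℝ => x / τ₀) volume a b := fun a b =>
    (continuous_id.div_const τ₀).intervalIntegrable a b
  have hc : ∀ a b : ℝ, IntervalIntegrable (fun _ : ℝ => (1 : ℝ)) volume a b := fun a b =>
    continuous_const.intervalIntegrable a b
  rw [h2, h3, intervalIntegral.integral_add (hc _ _) (hid _ _),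
    intervalIntegral.integral_sub (hc _ _) (hid _ _), intervalIntegral.integral_div,
    intervalIntegral.integral_div, integral_id, integral_id]
  simp only [intervalIntegral.integral_const, smul_eq_mul, mul_one]
  field_simp
  ring

lemma ch_lint {τ₀ : ℝ} (h0 : 0 < τ₀) : ∫⁻ x, ENNReal.ofReal (ch τ₀ x) = ENNReal.ofReal τ₀ := by
  rw [← ofReal_integral_eq_lintegral_ofReal (ch_cont.integrable_of_hasCompactSupport (ch_cpt h0))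
    (Eventually.of_forall fun x => ch_nonneg τ₀ x), ch_int h0]

lemma ch_meas {τ₀ : ℝ} : Measurable fun x => ENNReal.ofReal (ch τ₀ x) :=
  ch_cont.measurable.ennreal_ofReal

lemma win {τ₀ : ℝ} (h0 : 0 < τ₀) (e : ℝ≥0∞) :
    ∫⁻ τ : ℝ, ∫⁻ σ : ℝ, ENNReal.ofReal (ch τ₀ τ * ch τ₀ σ) * e = ENNReal.ofReal (τ₀ * τ₀) * e := by
  have h1 : ∀ τ : ℝ, ∫⁻ σ : ℝ, ENNReal.ofReal (ch τ₀ τ * ch τ₀ σ) * e =
      ENNReal.ofReal (ch τ₀ τ) * (ENNReal.ofReal τ₀ * e) := by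
    intro τ
    have h2 : ∀ σ : ℝ, ENNReal.ofReal (ch τ₀ τ * ch τ₀ σ) * e =
        ENNReal.ofReal (ch τ₀ τ) * (ENNReal.ofReal (ch τ₀ σ) * e) := by
      intro σ
      rw [ENNReal.ofReal_mul (ch_nonneg τ₀ τ), mul_assoc]
    simp only [h2]
    rw [lintegral_const_mul _ (ch_meas.mul_const e), lintegral_mul_const _ ch_meas, ch_lint h0]
  simp only [h1]
  rw [lintegral_mul_const _ ch_meas, ch_lint h0, ENNReal.ofReal_mul h0.le, mul_assoc]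

/-- comparison of the window averages with a constant -/
lemma win_le {τ₀ : ℝ} (h0 : 0 < τ₀) (F : ℝ → ℝ → ℝ≥0∞) (V e : ℝ≥0∞)
    (h : ∀ τ σ, |τ| ≤ τ₀ → |σ| ≤ τ₀ → V ≤ F τ σ + e ∧ F τ σ ≤ V + e) :
    ENNReal.ofReal (τ₀ * τ₀) * V ≤
      (∫⁻ τ : ℝ, ∫⁻ σ : ℝ, ENNReal.ofReal (ch τ₀ τ * ch τ₀ σ) * F τ σ) +
        ENNReal.ofReal (τ₀ * τ₀) * e ∧
    (∫⁻ τ : ℝ, ∫⁻ σ : ℝ, ENNReal.ofReal (ch τ₀ τ * ch τ₀ σ) * F τ σ) ≤
      ENNReal.ofReal (τ₀ * τ₀) * V + ENNReal.ofReal (τ₀ * τ₀) * e := by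
  have hz : ∀ τ σ : ℝ, ¬ (|τ| ≤ τ₀ ∧ |σ| ≤ τ₀) → ENNReal.ofReal (ch τ₀ τ * ch τ₀ σ) = 0 := by
    intro τ σ hn
    rw [not_and_or, not_le, not_le] at hn
    rcases hn with hn | hn
    · rw [ch_zero h0 hn.le, zero_mul, ENNReal.ofReal_zero]
    · rw [ch_zero h0 hn.le, mul_zero, ENNReal.ofReal_zero]
  have hm1 : ∀ τ : ℝ, Measurable fun σ : ℝ => ENNReal.ofReal (ch τ₀ τ * ch τ₀ σ) * e :=
    fun τ => (ch_cont.measurable.const_mul _).ennreal_ofReal.mul_const e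
  have hm2 : Measurable fun τ : ℝ => ∫⁻ σ : ℝ, ENNReal.ofReal (ch τ₀ τ * ch τ₀ σ) * e := by
    apply Measurable.lintegral_prod_right
    exact ((ch_cont.measurable.comp measurable_fst).mul
      (ch_cont.measurable.comp measurable_snd)).ennreal_ofReal.mul_const e
  constructor
  · rw [← win h0 V, ← win h0 e, ← lintegral_add_right _ hm2]
    refine lintegral_mono fun τ => ?_
    rw [← lintegral_add_right _ (hm1 τ)]
    refine lintegral_mono fun σ => ?_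
    by_cases hc : |τ| ≤ τ₀ ∧ |σ| ≤ τ₀
    · rw [← mul_add]
      exact mul_le_mul_right (h τ σ hc.1 hc.2).1 _
    · simp only [hz τ σ hc, zero_mul, add_zero, le_refl]
  · rw [← win h0 V, ← win h0 e, ← lintegral_add_right _ hm2]
    refine lintegral_mono fun τ => ?_
    rw [← lintegral_add_right _ (hm1 τ)]
    refine lintegral_mono fun σ => ?_
    by_cases hc : |τ| ≤ τ₀ ∧ |σ| ≤ τ₀
    · rw [← mul_add]
      exact mul_le_mul_right (h τ σ hc.1 hc.2).2 _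
    · simp only [hz τ σ hc, zero_mul, add_zero, le_refl]

/-! ### mean squares -/

lemma slice {F : ℝ → ℍ → ℝ} (h : Continuous fun p : ℝ × ℍ => F p.1 p.2) (τ : ℝ) :
    Continuous (F τ) := by
  have h1 : Continuous fun z : ℍ => ((τ, z) : ℝ × ℍ) := continuous_const.prodMk continuous_id
  exact h.comp h1

lemma Sb_cont {f : ℍ → ℝ} {t : ℝ} (hf : IsHeckeMaass f t) (N : ℕ) (b : ℤ → ℝ) :
    Continuous (Sb f t N b) := by
  unfold Sb Sw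
  exact continuous_finsetSum _ fun n _ => continuous_const.mul ((cont_Gf hf n).pow 2)

lemma Sb_nonneg (f : ℍ → ℝ) (t : ℝ) (N : ℕ) (b : ℤ → ℝ) (z : ℍ) : 0 ≤ Sb f t N b z := by
  unfold Sb Sw
  exact Finset.sum_nonneg fun n _ => by positivity

lemma Sb_sq {f : ℍ → ℝ} {t : ℝ} (hf : IsHeckeMaass f t) {N K : ℕ} {b : ℤ → ℝ}
    (hb : ∑ n ∈ Finset.Icc (-(N : ℤ)) N, b n ^ 2 = 1) {ζ₁ ζ₂ : ℂ → ℝ} (h1 : TestP H0 ζ₁)
    (h2 : TestP H0 ζ₂) (h12 : ∀ z, ζ₁ z ≤ ζ₂ z) {B : ℝ} (hU : U4 f t ζ₂ (N + K) B) :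
    ∫ z : ℍ, ζ₁ z * Sb f t N b z ^ 2 ≤ B := by
  have hi1 : Integrable fun z : ℍ => ζ₁ z * Sb f t N b z ^ 2 :=
    Pl.U2M.integrable_test h1.test ((Sb_cont hf N b).pow 2)
  have hi2 : ∀ n : ℤ, Integrable fun z : ℍ => ζ₂ z * ‖Gf f t n (z : ℂ)‖ ^ 4 := fun n =>
    Pl.U2M.integrable_test h2.test ((cont_Gf hf n).pow 4)
  calc ∫ z : ℍ, ζ₁ z * Sb f t N b z ^ 2
      ≤ ∫ z : ℍ, ∑ n ∈ Finset.Icc (-(N : ℤ)) N, b n ^ 2 * (ζ₂ z * ‖Gf f t n (z : ℂ)‖ ^ 4) := by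
        apply integral_mono hi1 (integrable_finsetSum _ fun n _ => (hi2 n).const_mul _)
        intro z
        show ζ₁ z * Sb f t N b z ^ 2 ≤
          ∑ n ∈ Finset.Icc (-(N : ℤ)) N, b n ^ 2 * (ζ₂ z * ‖Gf f t n (z : ℂ)‖ ^ 4)
        have hcs := Finset.sum_mul_sq_le_sq_mul_sq (Finset.Icc (-(N : ℤ)) N) b
          (fun n => b n * ‖Gf f t n (z : ℂ)‖ ^ 2)
        rw [hb, one_mul] at hcs
        have e1 : Sb f t N b z = ∑ n ∈ Finset.Icc (-(N : ℤ)) N,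
            b n * (b n * ‖Gf f t n (z : ℂ)‖ ^ 2) := by
          unfold Sb Sw
          exact Finset.sum_congr rfl fun n _ => by ring
        have e2 : ∑ n ∈ Finset.Icc (-(N : ℤ)) N, b n ^ 2 * (ζ₂ z * ‖Gf f t n (z : ℂ)‖ ^ 4) =
            ζ₂ z * ∑ n ∈ Finset.Icc (-(N : ℤ)) N, (b n * ‖Gf f t n (z : ℂ)‖ ^ 2) ^ 2 := by
          rw [Finset.mul_sum]
          exact Finset.sum_congr rfl fun n _ => by ring
        rw [e1, e2]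
        exact mul_le_mul (h12 z) hcs (sq_nonneg _) (h2.nonneg z)
    _ = ∑ n ∈ Finset.Icc (-(N : ℤ)) N, b n ^ 2 * ∫ z : ℍ, ζ₂ z * ‖Gf f t n (z : ℂ)‖ ^ 4 := by
        rw [integral_finsetSum _ fun n _ => (hi2 n).const_mul _]
        exact Finset.sum_congr rfl fun n _ => integral_const_mul _ _
    _ ≤ ∑ n ∈ Finset.Icc (-(N : ℤ)) N, b n ^ 2 * B := by
        refine Finset.sum_le_sum fun n hn => mul_le_mul_of_nonneg_left (hU n ?_) (sq_nonneg _)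
        rw [Finset.mem_Icc] at hn
        have : |n| ≤ (N : ℤ) := abs_le.mpr hn
        push_cast
        omega
    _ = B := by rw [← Finset.sum_mul, hb, one_mul]

lemma sq_add {ζ : ℂ → ℝ} (hζ : TestP H0 ζ) {S T : ℍ → ℝ} (hS : Continuous S) (hT : Continuous T)
    {E B : ℝ} (h1 : ∫ z : ℍ, ζ z * (T z - S z) ^ 2 ≤ E) (h2 : ∫ z : ℍ, ζ z * S z ^ 2 ≤ B) :
    ∫ z : ℍ, ζ z * T z ^ 2 ≤ 2 * E + 2 * B := by
  have i1 : Integrable fun z : ℍ => ζ z * (T z - S z) ^ 2 :=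
    Pl.U2M.integrable_test (G := fun z => (T z - S z) ^ 2) hζ.test ((hT.sub hS).pow 2)
  have i2 : Integrable fun z : ℍ => ζ z * S z ^ 2 :=
    Pl.U2M.integrable_test (G := fun z => S z ^ 2) hζ.test (hS.pow 2)
  have i3 : Integrable fun z : ℍ => ζ z * T z ^ 2 :=
    Pl.U2M.integrable_test (G := fun z => T z ^ 2) hζ.test (hT.pow 2)
  have e1 : ∫ z : ℍ, ζ z * T z ^ 2 ≤
      ∫ z : ℍ, (2 * (ζ z * (T z - S z) ^ 2) + 2 * (ζ z * S z ^ 2)) := by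
    apply integral_mono i3 ((i1.const_mul 2).add (i2.const_mul 2))
    intro z
    show ζ z * T z ^ 2 ≤ 2 * (ζ z * (T z - S z) ^ 2) + 2 * (ζ z * S z ^ 2)
    have := hζ.nonneg z
    nlinarith [mul_nonneg this (sq_nonneg (T z - 2 * S z))]
  rw [integral_add (i1.const_mul 2) (i2.const_mul 2), integral_const_mul,
    integral_const_mul] at e1
  linarith

lemma key {C₂ C₃ q B x₁ y₁ x₂ y₂ : ℝ} (hC₂ : 0 ≤ C₂) (hC₃ : 0 ≤ C₃) (hq0 : 0 < q) (hB : 0 ≤ B)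
    (h1 : x₁ ≤ C₃ * q ^ 2 * B) (h4 : y₂ ≤ C₃ * q ^ 2 * B)
    (h5 : (y₁ ≤ B ∧ x₂ ≤ (2 * C₃ + 2) * B) ∨ (y₁ ≤ (2 * C₃ + 2) * B ∧ x₂ ≤ B)) :
    C₂ * (√x₁ * √y₁ + √x₂ * √y₂) ≤ C₂ * (√C₃ + √(2 * C₃ + 2) * √C₃) * q * B := by
  have hsE : √(C₃ * q ^ 2 * B) = √C₃ * q * √B := by
    rw [Real.sqrt_mul (by positivity), Real.sqrt_mul hC₃, Real.sqrt_sq hq0.le]
  have hsB : √((2 * C₃ + 2) * B) = √(2 * C₃ + 2) * √B := Real.sqrt_mul (by positivity) _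
  have hBB : √B * √B = B := Real.mul_self_sqrt hB
  have h1' : √x₁ ≤ √C₃ * q * √B := (Real.sqrt_le_sqrt h1).trans hsE.le
  have h4' : √y₂ ≤ √C₃ * q * √B := (Real.sqrt_le_sqrt h4).trans hsE.le
  have hsum : √x₁ * √y₁ + √x₂ * √y₂ ≤ (√C₃ + √(2 * C₃ + 2) * √C₃) * q * B := by
    rcases h5 with ⟨h, h'⟩ | ⟨h', h⟩
    · have h6 : √x₁ * √y₁ ≤ (√C₃ * q * √B) * √B :=
        mul_le_mul h1' (Real.sqrt_le_sqrt h) (Real.sqrt_nonneg _) (by positivity)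
      have h7 : √x₂ * √y₂ ≤ (√(2 * C₃ + 2) * √B) * (√C₃ * q * √B) :=
        mul_le_mul ((Real.sqrt_le_sqrt h').trans hsB.le) h4' (Real.sqrt_nonneg _) (by positivity)
      have e1 : (√C₃ * q * √B) * √B + (√(2 * C₃ + 2) * √B) * (√C₃ * q * √B) =
          (√C₃ + √(2 * C₃ + 2) * √C₃) * q * (√B * √B) := by ring
      rw [hBB] at e1
      linarith
    · have h6 : √x₁ * √y₁ ≤ (√C₃ * q * √B) * (√(2 * C₃ + 2) * √B) :=
        mul_le_mul h1' ((Real.sqrt_le_sqrt h').trans hsB.le) (Real.sqrt_nonneg _) (by positivity)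
      have h7 : √x₂ * √y₂ ≤ √B * (√C₃ * q * √B) :=
        mul_le_mul (Real.sqrt_le_sqrt h) h4' (Real.sqrt_nonneg _) (by positivity)
      have e1 : (√C₃ * q * √B) * (√(2 * C₃ + 2) * √B) + √B * (√C₃ * q * √B) =
          (√C₃ + √(2 * C₃ + 2) * √C₃) * q * (√B * √B) := by ring
      rw [hBB] at e1
      linarith
  calc C₂ * (√x₁ * √y₁ + √x₂ * √y₂)
      ≤ C₂ * ((√C₃ + √(2 * C₃ + 2) * √C₃) * q * B) := mul_le_mul_of_nonneg_left hsum hC₂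
    _ = C₂ * (√C₃ + √(2 * C₃ + 2) * √C₃) * q * B := by ring

lemma comp {φ ζ : ℂ → ℝ} (hζ : TestP H0 ζ) {C₂ C₃ q B τ₀ : ℝ} {k : ℝ → ℝ} (hC₂ : 0 ≤ C₂)
    (hC₃ : 0 ≤ C₃) (hq0 : 0 < q) (hq1 : q ≤ 1) (hB : 0 ≤ B) {S : ℍ → ℝ} {T : ℝ → ℍ → ℝ}
    (hcS : Continuous S) (hcT : ∀ τ, Continuous (T τ)) (hS0 : ∀ z, 0 ≤ S z)
    (hT0 : ∀ τ z, 0 ≤ T τ z)
    (hE : ∀ τ : ℝ, |τ| ≤ τ₀ → ∫ z : ℍ, ζ z * (T τ z - S z) ^ 2 ≤ C₃ * q ^ 2 * B)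
    (hSB : ∫ z : ℍ, ζ z * S z ^ 2 ≤ B)
    (hSch : ∀ S₁ S₂ S₁' S₂' : ℍ → ℝ, Continuous S₁ → Continuous S₂ → Continuous S₁' →
      Continuous S₂' →
      (∀ z, 0 ≤ S₁ z) → (∀ z, 0 ≤ S₂ z) → (∀ z, 0 ≤ S₁' z) → (∀ z, 0 ≤ S₂' z) →
      V2 φ k S₁ S₁' ≤ V2 φ k S₂ S₂' + ENNReal.ofReal (C₂ *
        (√(∫ z : ℍ, ζ z * (S₁ z - S₂ z) ^ 2) * √(∫ z : ℍ, ζ z * S₁' z ^ 2) +
          √(∫ z : ℍ, ζ z * S₂ z ^ 2) * √(∫ z : ℍ, ζ z * (S₁' z - S₂' z) ^ 2))))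
    (τ σ : ℝ) (hτ : |τ| ≤ τ₀) (hσ : |σ| ≤ τ₀) :
    V2 φ k S S ≤ V2 φ k (T τ) (T σ) +
        ENNReal.ofReal (C₂ * (√C₃ + √(2 * C₃ + 2) * √C₃) * q * B) ∧
      V2 φ k (T τ) (T σ) ≤ V2 φ k S S +
        ENNReal.ofReal (C₂ * (√C₃ + √(2 * C₃ + 2) * √C₃) * q * B) := by
  have hTB : ∀ τ : ℝ, |τ| ≤ τ₀ → ∫ z : ℍ, ζ z * T τ z ^ 2 ≤ (2 * C₃ + 2) * B := by
    intro τ hτ
    have h1 := sq_add hζ hcS (hcT τ) (hE τ hτ) hSB
    have h2 : C₃ * q ^ 2 * B ≤ C₃ * B := by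
      have h3 : q ^ 2 ≤ 1 := pow_le_one₀ hq0.le hq1
      have h4 : C₃ * q ^ 2 ≤ C₃ * 1 := mul_le_mul_of_nonneg_left h3 hC₃
      rw [mul_one] at h4
      exact mul_le_mul_of_nonneg_right h4 hB
    linarith
  have hsym : ∀ τ : ℝ, ∫ z : ℍ, ζ z * (S z - T τ z) ^ 2 =
      ∫ z : ℍ, ζ z * (T τ z - S z) ^ 2 := fun τ =>
    integral_congr_ae (Eventually.of_forall fun z => by
      show ζ z * (S z - T τ z) ^ 2 = ζ z * (T τ z - S z) ^ 2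
      ring)
  constructor
  · refine (hSch S (T τ) S (T σ) hcS (hcT τ) hcS (hcT σ) hS0 (hT0 τ) hS0 (hT0 σ)).trans ?_
    rw [hsym τ, hsym σ]
    exact add_le_add le_rfl (ENNReal.ofReal_le_ofReal
      (key hC₂ hC₃ hq0 hB (hE τ hτ) (hE σ hσ) (Or.inl ⟨hSB, hTB τ hτ⟩)))
  · refine (hSch (T τ) S (T σ) S (hcT τ) hcS (hcT σ) hcS (hT0 τ) hS0 (hT0 σ) hS0).trans ?_
    exact add_le_add le_rfl (ENNReal.ofReal_le_ofReal
      (key hC₂ hC₃ hq0 hB (hE τ hτ) (hE σ hσ) (Or.inr ⟨hTB σ hσ, hSB⟩)))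

end AswM

open AswM in
/-- **Asw** short windows -/
theorem stmtAsw (_ : StmtNuR) (_ : StmtFib) (hSta : StmtSta) (hSch : StmtSch)
    (hSti : StmtSti) : StmtAsw := by
  intro c hc0 hc1
  obtain ⟨K₀, hK₀⟩ := hSta (c / 800) (by positivity) (by linarith)
  refine ⟨K₀, fun K hK C₀ hC₀ φ hφ => ?_⟩
  obtain ⟨ζ₁, C₂, a₀, hζ₁, hφζ, hC₂, ha₀, -, hS⟩ := hSch φ hφ
  obtain ⟨ζ₂, C₃, t₀, hζ₂, hζζ, hC₃, ht₀, hT⟩ := hK₀ K hK C₀ hC₀ ζ₁ hζ₁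
  refine ⟨ζ₂, C₂ * (√C₃ + √(2 * C₃ + 2) * √C₃), t₀, a₀, hζ₂, fun z => (hφζ z).trans (hζζ z),
    by positivity, ht₀, ha₀, ?_⟩
  intro v l f t N b hD ht B hB hU C₁ a k ha hk
  have ht1 : 1 ≤ t := hD.one_le
  have htp : 0 < t := by linarith
  have hτ0 : 0 < t ^ (-(c / 200)) := Real.rpow_pos_of_pos htp _
  have hq0 : 0 < t ^ (-(c / 400)) := Real.rpow_pos_of_pos htp _
  have hq1 : t ^ (-(c / 400)) ≤ 1 := Real.rpow_le_one_of_one_le_of_nonpos ht1 (by linarith)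
  have hq2 : t ^ (-(4 * (c / 800))) = (t ^ (-(c / 400))) ^ 2 := by
    rw [← Real.rpow_natCast, ← Real.rpow_mul htp.le]
    congr 1
    push_cast
    ring
  have hq3 : t ^ (-(4 * (c / 800))) = t ^ (-(c / 200)) := by
    congr 1
    ring
  have hc' := (hSti (Pb f t N b) hD.he.cont).1
  have hpos := (hSti (Pb f t N b) hD.he.cont).2.1
  have hcT : ∀ τ : ℝ, Continuous (St (Pb f t N b) τ) := fun τ =>
    slice (F := St (Pb f t N b)) hc' τ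
  have hE : ∀ τ : ℝ, |τ| ≤ t ^ (-(c / 200)) →
      ∫ z : ℍ, ζ₁ z * (St (Pb f t N b) τ z - Sb f t N b z) ^ 2 ≤
        C₃ * (t ^ (-(c / 400))) ^ 2 * B := by
    intro τ hτ
    have h1 := hT f t hD.hm ht N b hD.pack B hB hU τ (by rw [hq3]; exact hτ)
    rw [hq2] at h1
    exact h1
  have hSB : ∫ z : ℍ, ζ₁ z * Sb f t N b z ^ 2 ≤ B :=
    Sb_sq hD.hm hD.pack.norm hζ₁ hζ₂ hζζ hU
  have hcomp := comp (τ₀ := t ^ (-(c / 200))) hζ₁ hC₂ hC₃ hq0 hq1 hB (Sb_cont hD.hm N b) hcT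
    (Sb_nonneg f t N b) hpos hE hSB ((hS C₁ a k ha hk).2)
  obtain ⟨w1, w2⟩ := win_le hτ0 (fun τ σ => V2 φ k (St (Pb f t N b) τ) (St (Pb f t N b) σ))
    (V2 φ k (Sb f t N b) (Sb f t N b)) _ hcomp
  have hττ : t ^ (-(c / 200)) * t ^ (-(c / 200)) = t ^ (-(c / 100)) := by
    rw [← Real.rpow_add htp]
    congr 1
    ring
  rw [hττ] at w1 w2
  have hof : ENNReal.ofReal (t ^ (-(c / 100))) *
      ENNReal.ofReal (C₂ * (√C₃ + √(2 * C₃ + 2) * √C₃) * t ^ (-(c / 400)) * B) =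
      ENNReal.ofReal (t ^ (-(c / 100)) *
        (C₂ * (√C₃ + √(2 * C₃ + 2) * √C₃) * t ^ (-(c / 400)) * B)) :=
    (ENNReal.ofReal_mul (Real.rpow_nonneg htp.le _)).symm
  rw [hof] at w1 w2
  exact ⟨w1, w2⟩

end

end Pool.Agent.A54.Hp
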