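import Pool.Agent.Lib.MP_a54f13_nt.Hp.SpecA
import Pool.Agent.Lib.MP_a54f13_nt.Half
import Pool.Agent.Lib.MP_a54f13_nt.IntLap

/-!
# B4: a priori bounds on the half-plane
-/

set_option autoImplicit false

namespace Pool.Agent.A54.Hp

open MeasureTheory Filter Topology Set
open scoped ContDiff ComplexConjugate UpperHalfPlane MatrixGroups ENNReal
open Pool.Agent.A54.Half (H0)
open Pool.Agent.A54.Sq (la TestP Tow Up)

noncomputable section

namespace B4M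

/-- from the half-plane to the plane -/
lemma conv {V : Set ℂ} (hVH : V ⊆ H0) {ψ : ℂ → ℝ} (hψ : TestR V ψ) (F : ℂ → ℝ) :
    ∫ z : ℍ, ψ z * F z = ∫ z : ℂ, (ψ z * (z.im)⁻¹ ^ 2) * F z := by
  have h0 : ∀ z : ℂ, z.im ≤ 0 → ψ z * F z = 0 := by
    intro z hz
    rw [hψ.eq_zero (fun h => (not_lt.mpr hz) (hVH h)), zero_mul]
  rw [stmtInt.1 _ h0]
  apply integral_congr_ae
  refine Filter.Eventually.of_forall fun z => ?_
  simp only
  rw [div_eq_mul_inv, inv_pow]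
  ring

lemma testR_im {V : Set ℂ} (hVH : V ⊆ H0) {ψ : ℂ → ℝ} (hψ : TestR V ψ) :
    TestR V (fun z => ψ z * z.im ^ 2) :=
  Half.testR_mul Half.isOpen_H0 hψ (hψ.sub.trans hVH) (Half.contDiff_im.pow 2).contDiffOn

/-- from the plane to the half-plane -/
lemma conv2 {V : Set ℂ} (hVH : V ⊆ H0) {ψ : ℂ → ℝ} (hψ : TestR V ψ) (F : ℂ → ℝ) :
    ∫ z : ℂ, ψ z * F z = ∫ z : ℍ, (ψ z * (z : ℂ).im ^ 2) * F z := by
  rw [conv hVH (testR_im hVH hψ) F]
  apply integral_congr_ae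
  refine Filter.Eventually.of_forall fun z => ?_
  simp only
  by_cases hz : z ∈ V
  · have hne : z.im ≠ 0 := ne_of_gt (hVH hz)
    field_simp
  · simp only [hψ.eq_zero hz, zero_mul]

/-- the cutoff does not matter on `V` -/
lemma loc {V : Set ℂ} {χ ψ : ℂ → ℝ} (h1 : ∀ z ∈ V, χ z = 1) (hψ : TestR V ψ) (F : ℂ → ℂ) (k : ℕ) :
    ∫ z : ℂ, ψ z * ‖(χ z : ℂ) * F z‖ ^ k = ∫ z : ℂ, ψ z * ‖F z‖ ^ k := by
  apply integral_congr_ae
  refine Filter.Eventually.of_forall fun z => ?_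
  simp only
  by_cases hz : z ∈ V
  · rw [h1 z hz, Complex.ofReal_one, one_mul]
  · rw [hψ.eq_zero hz, zero_mul, zero_mul]

/-- the masses are bounded -/
lemma mass (hM : StmtMss) {V : Set ℂ} (hVH : V ⊆ H0) {ζ : ℂ → ℝ} (hζ : TestP V ζ) :
    ∃ M : ℝ, 1 ≤ M ∧ ∀ (f : ℍ → ℝ) (t : ℝ), IsHeckeMaass f t → ∀ n : ℤ,
      ∫ z : ℂ, ζ z * ‖Gf f t n z‖ ^ 2 ≤ M := by
  have hsub : tsupport ζ ⊆ H0 := hζ.test.sub.trans hVH
  set K : Set ℍ := UpperHalfPlane.coe ⁻¹' (tsupport ζ) with hKdef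
  have hKc : IsCompact K := by
    rw [UpperHalfPlane.isOpenEmbedding_coe.isInducing.isCompact_preimage_iff]
    · exact hζ.test.cpt.isCompact
    · intro z hz
      exact ⟨⟨z, hsub hz⟩, rfl⟩
  have hKm : MeasurableSet K := hKc.isClosed.measurableSet
  obtain ⟨C, hC0, hC⟩ := hM K hKc
  obtain ⟨S, hS⟩ := (testR_im hVH hζ.test).cpt.exists_bound_of_continuous
    (testR_im hVH hζ.test).smooth.continuous
  have hS0 : 0 ≤ S := (norm_nonneg _).trans (hS 0)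
  refine ⟨max 1 (S * C), le_max_left _ _, fun f t hf n => le_trans ?_ (le_max_right _ _)⟩
  rw [conv2 hVH hζ.test]
  refine (Real.le_norm_self _).trans ?_
  refine (norm_integral_le_lintegral_norm _).trans ?_
  refine ENNReal.toReal_le_of_le_ofReal (mul_nonneg hS0 hC0) ?_
  calc ∫⁻ z : ℍ, ENNReal.ofReal ‖(ζ z * (z : ℂ).im ^ 2) * ‖Gf f t n z‖ ^ 2‖
      ≤ ∫⁻ z : ℍ, K.indicator (fun z : ℍ => ENNReal.ofReal S * ‖Gf f t n (z : ℂ)‖ₑ ^ 2) z := by
        apply lintegral_mono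
        intro z
        by_cases hz : z ∈ K
        · simp only
          rw [Set.indicator_of_mem hz, norm_mul, ENNReal.ofReal_mul (norm_nonneg _)]
          refine mul_le_mul' (ENNReal.ofReal_le_ofReal (hS z)) (le_of_eq ?_)
          rw [norm_pow, norm_norm, ENNReal.ofReal_pow (norm_nonneg _), ofReal_norm]
        · simp only
          rw [Set.indicator_of_notMem hz]
          have h0 : ζ (z : ℂ) = 0 := image_eq_zero_of_notMem_tsupport hz
          rw [h0, zero_mul, zero_mul, norm_zero, ENNReal.ofReal_zero]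
    _ = ENNReal.ofReal S * ∫⁻ z in K, ‖Gf f t n (z : ℂ)‖ₑ ^ 2 := by
        rw [lintegral_indicator hKm, lintegral_const_mul' _ _ ENNReal.ofReal_ne_top]
    _ ≤ ENNReal.ofReal S * ENNReal.ofReal C := mul_le_mul_right (hC f t hf n) _
    _ = ENNReal.ofReal (S * C) := (ENNReal.ofReal_mul hS0).symm

end B4M

open B4M in
theorem stmtB4 (hG : StmtTwG) (hT : StmtTwc) (hM : StmtMss) (hB : Sq.StmtBoo) : StmtB4 := by
  intro φ hφ κ η hκ hκ2 hη
  obtain ⟨χ, V, hχ, -, hV, hVH, h1, hsub⟩ := Half.setup hφ.test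
  have hφV : TestR V φ := ⟨hφ.test.smooth, hφ.test.cpt, hsub⟩
  have hw : TestP V (fun z => φ z * (z.im)⁻¹ ^ 2) :=
    ⟨Half.testR_weight hVH hφV, fun z => mul_nonneg (hφ.nonneg z) (sq_nonneg _)⟩
  obtain ⟨ζ, C, hζ, hC0, hE⟩ := hB V hV hVH κ η hκ hκ2 hη _ hw
  obtain ⟨M, hM1, hMM⟩ := mass hM hVH hζ
  have hz2 := testR_im hVH hζ.test
  refine ⟨fun z => ζ z * z.im ^ 2, C * M ^ 2,
    ⟨⟨hz2.smooth, hz2.cpt, hz2.sub.trans hVH⟩, fun z => mul_nonneg (hζ.nonneg z) (sq_nonneg _)⟩,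
    by positivity, ?_⟩
  intro f t hf ht n hn
  have hTow := hT χ V hχ hV hVH h1 f t hf
  have hm : ∀ n : ℤ, ∫ z, ζ z * ‖(χ z : ℂ) * Gf f t n z‖ ^ 2 ≤ M := by
    intro n
    rw [loc h1 hζ.test]
    exact hMM f t hf n
  have key := hE t _ ht hTow M hM1 hm n hn
  rw [loc h1 hw.test (Gf f t n) 4, loc h1 hζ.test (Gf f t 0) 4, ← conv hVH hφV
    (fun z => ‖Gf f t n z‖ ^ 4), conv2 hVH hζ.test (fun z => ‖Gf f t 0 z‖ ^ 4)] at key
  have e0 : ∀ z : ℍ, ‖Gf f t 0 (z : ℂ)‖ ^ 4 = f z ^ 4 := by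
    intro z
    rw [(hG f t hf 0).2.2.2.2.1 (z : ℂ), Half.ext_coe, Complex.norm_real, Real.norm_eq_abs]
    exact Even.pow_abs (by decide) _
  simp only [e0] at key
  exact key

end

end Pool.Agent.A54.Hp
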