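import Pool.Agent.Lib.MP_a54f13_nt.Hp.SpecC
import Pool.Agent.Lib.MP_a54f13_nt.Sq.Bd
import Pool.Agent.Lib.MP_a54f13_nt.IntLap

/-!
# Package `Hp`: bounded fourth moments for sequences
-/

set_option autoImplicit false

namespace Pool.Agent.A54.Hp

open MeasureTheory Filter Topology Set
open scoped ContDiff ComplexConjugate UpperHalfPlane MatrixGroups ENNReal
open Pool.Agent.A54.Half (H0 ff)
open Pool.Agent.A54.Sq (la TestP)
open Pool.Agent.A54.Pl (Ed)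

noncomputable section

namespace BddM

/-- the mean squares of the localised forms are bounded -/
lemma var {f : ℕ → ℍ → ℝ} {ρ : ℕ → ℝ} (hρ : ∀ i, 0 < ρ i) (hrl : Tendsto ρ atTop (𝓝 0))
    (hm : ∀ φ : ℂ → ℝ, TestP H0 φ → ∃ C : ℝ, ∀ᶠ i in atTop,
      ∫ z : ℂ, φ z * (Ed (ρ i) (fun w => ext (f i) w ^ 2) z) ^ 2 ≤ C)
    {χ : ℂ → ℝ} {V : Set ℂ} (hV : IsOpen V) (hVH : V ⊆ H0)
    (h1 : ∀ z ∈ V, χ z = 1) {ζ : ℂ → ℝ} (hζ : TestP V ζ) :
    ∃ X : ℝ, ∀ i, ∫ z, ζ z * (Ed (ρ i) (fun w => ff χ (f i) w ^ 2) z - 0) ^ 2 ≤ X := by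
  obtain ⟨ρ₀, hρ₀, hdisc⟩ := Pl.FBM.discs hζ.test.cpt.isCompact hV hζ.test.sub
  obtain ⟨B, hB⟩ := hm ζ ⟨⟨hζ.test.smooth, hζ.test.cpt, hζ.test.sub.trans hVH⟩, hζ.nonneg⟩
  apply Sq.BdM.bdd_of_ev (B := B)
  filter_upwards [hrl.eventually (ge_mem_nhds hρ₀), hB] with i e1 e2
  have a3 := Sq.BdM.ed_eq h1 (f i) (hdisc (ρ i) (hρ i) e1) 0
  rw [a3]
  simp only [sub_zero]
  exact e2

end BddM

theorem stmtBdd (hTwr : Sq.StmtTwr) (hUpB : Sq.StmtUpB) (_ : StmtLh) : StmtBdd := by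
  intro f t ρ δ hf ht hδ hr hm K hK
  have hrl : Tendsto ρ atTop (𝓝 0) := by
    have h1 : Tendsto (fun i => t i ^ (-(1 / 2 + δ))) atTop (𝓝 0) :=
      (tendsto_rpow_neg_atTop (by linarith : 0 < 1 / 2 + δ)).comp ht
    exact squeeze_zero (fun i => (hr i).1.le) (fun i => (hr i).2) h1
  have hInt : StmtInt := stmtInt
  have hK' : IsCompact (UpperHalfPlane.coe '' K) := hK.image UpperHalfPlane.continuous_coe
  have hKH : UpperHalfPlane.coe '' K ⊆ H0 := by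
    rintro _ ⟨z, _, rfl⟩
    exact z.im_pos
  obtain ⟨φ, hφ, hφ01, hev⟩ := exists_cutoff hK' Half.isOpen_H0 hKH
  obtain ⟨χ, V, hχ, h01, hV, hVH, h1, hsub⟩ := Half.setup hφ
  have hφV : TestR V φ := ⟨hφ.smooth, hφ.cpt, hsub⟩
  have hw : TestP V fun z => φ z * (z.im)⁻¹ ^ 2 :=
    ⟨Half.testR_weight hVH hφV, fun z => mul_nonneg (hφ01 z).1 (by positivity)⟩
  obtain ⟨c, hc⟩ := hTwr χ V hχ h01 hV hVH h1
  choose G hG1 hG2 hG3 using fun i => hc (f i) (t i) (hf i)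
  have hnorm : ∀ i z, ‖G i 0 z‖ ^ 2 = ff χ (f i) z ^ 2 := by
    intro i z
    rw [hG3, Complex.norm_real, Real.norm_eq_abs, sq_abs]
  have hEd : ∀ i, (Ed (ρ i) fun w => ‖G i 0 w‖ ^ 2) =
      Ed (ρ i) fun w => ff χ (f i) w ^ 2 := by
    intro i
    congr 1
    funext w
    exact hnorm i w
  have hX : ∀ ζ : ℂ → ℝ, ∃ X : ℝ, TestP V ζ → ∀ i,
      ∫ z, ζ z * (Ed (ρ i) (fun w => ff χ (f i) w ^ 2) z - 0) ^ 2 ≤ X := by
    intro ζ
    by_cases hζ : TestP V ζ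
    · obtain ⟨X, hX⟩ := BddM.var (fun i => (hr i).1) hrl hm hV hVH h1 hζ
      exact ⟨X, fun _ => hX⟩
    · exact ⟨0, fun h => absurd h hζ⟩
  choose x hx using hX
  have hδ' : 0 < min δ (1 / 2) := lt_min hδ (by norm_num)
  obtain ⟨C, κ, hC, hκ, hU⟩ := hUpB V hV hVH c x (min δ (1 / 2)) hδ' (min_le_right _ _) _ hw
  have hDat : ∀ i, 1 ≤ t i → Sq.Dat V c x (min δ (1 / 2)) (t i) 0 (ρ i) (G i) := by
    intro i hi
    refine ⟨hi, hG1 i, hG2 i, ?_, le_refl 0, zero_le_two, (hr i).1, ?_⟩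
    · intro ζ hζ
      rw [hEd i]
      exact hx ζ hζ i
    · refine (hr i).2.trans ?_
      apply Real.rpow_le_rpow_of_exponent_le hi
      have := min_le_left δ (1 / 2)
      linarith
  apply Sq.BdM.bdd_of_ev (B := 9 * x (fun z => φ z * (z.im)⁻¹ ^ 2) + 4 * C)
  filter_upwards [ht.eventually_ge_atTop 1] with i hi
  have hD := hDat i hi
  have hu := hU _ _ _ _ hD
  have hvar := hD.var _ hw
  set w := ∫ z, φ z * (z.im)⁻¹ ^ 2 * ‖G i 0 z‖ ^ 4 with hwdef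
  have hw0 : 0 ≤ w := integral_nonneg fun z => mul_nonneg (hw.nonneg z) (by positivity)
  have hX0 : 0 ≤ ∫ z, φ z * (z.im)⁻¹ ^ 2 *
      (Ed (ρ i) (fun w => ‖G i 0 w‖ ^ 2) z - 0) ^ 2 :=
    integral_nonneg fun z => mul_nonneg (hw.nonneg z) (sq_nonneg _)
  have ht1 : t i ^ (-κ) ≤ 1 := Real.rpow_le_one_of_one_le_of_nonpos hi (by linarith)
  have ht0 : 0 ≤ t i ^ (-κ) := Real.rpow_nonneg (by linarith) _
  have hq := Sq.BdM.quad hw0 hX0 (mul_nonneg hC ht0)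
    (mul_le_of_le_one_right hC ht1) (by linarith)
  -- the moment over the compact set
  have hle : ∫ z in K, f i z ^ 4 ≤ ∫ z : ℍ, φ z * f i z ^ 4 := by
    rw [← integral_indicator hK.isClosed.measurableSet]
    apply integral_mono_of_nonneg
    · refine Filter.Eventually.of_forall fun z => ?_
      simp only [Pi.zero_apply]
      exact Set.indicator_nonneg (fun z _ => by positivity) z
    · exact Pl.FBM.integ hφ ((Pl.FBM.cont (hf i)).pow 4)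
    · refine Filter.Eventually.of_forall fun z => ?_
      simp only
      by_cases hz : z ∈ K
      · rw [Set.indicator_of_mem hz]
        have h0 : ∀ᶠ w in 𝓝 (z : ℂ), φ w = 1 :=
          (mem_nhdsSet_iff_forall.mp hev) z (Set.mem_image_of_mem _ hz)
        have h1 : φ (z : ℂ) = 1 := h0.self_of_nhds
        rw [h1, one_mul]
      · rw [Set.indicator_of_notMem hz]
        exact mul_nonneg (hφ01 _).1 (by positivity)
  have heq : ∫ z : ℍ, φ z * f i z ^ 4 = w := by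
    rw [Half.int_eq hInt hVH h1 hφV, hwdef]
    refine integral_congr_ae (Filter.Eventually.of_forall fun z => ?_)
    show φ z * (z.im)⁻¹ ^ 2 * ff χ (f i) z ^ 4 = φ z * (z.im)⁻¹ ^ 2 * ‖G i 0 z‖ ^ 4
    have h4 : ‖G i 0 z‖ ^ 4 = (‖G i 0 z‖ ^ 2) ^ 2 := by ring
    rw [h4, hnorm]
    ring
  linarith

end

end Pool.Agent.A54.Hp
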