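import Pool.Agent.Lib.MP_a54f13_nt.Hp.SpecC

/-!
# Package `Hp`, module **Bs**: the bootstrap (helper85)
-/

set_option autoImplicit false

namespace Pool.Agent.A54.Hp

open MeasureTheory Filter Topology Set
open scoped ContDiff ComplexConjugate UpperHalfPlane MatrixGroups ENNReal
open Pool.Agent.A54.Dyn (G fl base ze io mk4 dom)
open Pool.Agent.A54.Dyn.LiftM (Sct XC XX cc rot m0)
open Pool.Agent.A54.Half (H0)
open Pool.Agent.A54.Sq (la TestP)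

noncomputable section

namespace BsM

/-- large `t` -/
theorem big (δ ρ₀ : ℝ) (K : ℕ) (hδ : 0 < δ) (hδ1 : δ ≤ 1 / 100) (hρ : 0 < ρ₀) :
    ∃ t₀ : ℝ, 1 ≤ t₀ ∧ ∀ t : ℝ, t₀ ≤ t → 4 ≤ t ^ (1 / 2 - δ / 2) ∧
      2 * t ^ (1 / 2 - 2 * δ) + K ≤ t ^ (1 / 2 - δ / 4) ∧ t ^ (-(1 / 2 + δ)) ≤ ρ₀ := by
  have e1 : ∀ᶠ t : ℝ in atTop, 4 ≤ t ^ (1 / 2 - δ / 2) :=
    (tendsto_rpow_atTop (by linarith)).eventually_ge_atTop 4
  have e2 : ∀ᶠ t : ℝ in atTop, (K : ℝ) ≤ t ^ (1 / 2 - 2 * δ) :=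
    (tendsto_rpow_atTop (by linarith)).eventually_ge_atTop _
  have e3 : ∀ᶠ t : ℝ in atTop, 3 ≤ t ^ (7 / 4 * δ) :=
    (tendsto_rpow_atTop (by linarith)).eventually_ge_atTop 3
  have e4 : ∀ᶠ t : ℝ in atTop, t ^ (-(1 / 2 + δ)) < ρ₀ :=
    (tendsto_rpow_neg_atTop (by linarith)).eventually (gt_mem_nhds hρ)
  obtain ⟨t₀, ht₀⟩ := eventually_atTop.1
    ((eventually_ge_atTop (1 : ℝ)).and (e1.and (e2.and (e3.and e4))))
  refine ⟨max 1 t₀, le_max_left _ _, fun t ht => ?_⟩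
  obtain ⟨h0, h1, h2, h3, h4⟩ := ht₀ t ((le_max_right _ _).trans ht)
  refine ⟨h1, ?_, h4.le⟩
  have hx : 0 ≤ t ^ (1 / 2 - 2 * δ) := Real.rpow_nonneg (by linarith) _
  have h5 : t ^ (1 / 2 - δ / 4) = t ^ (1 / 2 - 2 * δ) * t ^ (7 / 4 * δ) := by
    rw [← Real.rpow_add (by linarith)]
    congr 1
    ring
  rw [h5]
  nlinarith

/-- the exponents -/
theorem core (δ η s CK C₂ CB t X I : ℝ) (N : ℕ) (ht : 1 ≤ t) (_hδ : 0 < δ) (hδ1 : δ ≤ 1 / 100)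
    (hη : 0 < η) (hηδ : η ≤ δ / 4) (hs : 3 * η ≤ s) (hCK : 0 ≤ CK) (hC₂ : 0 ≤ C₂) (hCB : 0 ≤ CB)
    (h4 : 4 ≤ t ^ (1 / 2 - δ / 2)) (hN : N = ⌊t ^ (1 / 2 - δ / 2) / 4⌋₊)
    (hX : X ≤ C₂ * (1 + t ^ (-(2 * δ)) * (CB * t ^ (s + η))))
    (hI : I ≤ CK * √X * √(CB * t ^ (s + η)) +
        CK * ((CB * t ^ (s + η)) * (((N : ℝ) + 1) ^ 2 / t + t ^ (-(1 / 2 + δ)) * t / ((N : ℝ) + 1) +
          (((N : ℝ) + 1) ^ 2)⁻¹) + ((N : ℝ) + 1) / t)) :
    I ≤ (CK * (√C₂ * √CB * (1 + √CB)) + CK * (21 * CB + 1)) * t ^ (s - η) := by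
  have ht0 : 0 < t := by linarith
  have hmono : ∀ {a b : ℝ}, a ≤ b → t ^ a ≤ t ^ b := fun h => Real.rpow_le_rpow_of_exponent_le ht h
  have hpos : ∀ a : ℝ, 0 < t ^ a := fun a => Real.rpow_pos_of_pos ht0 a
  have hu1 : 1 ≤ t ^ (s - η) := Real.one_le_rpow ht (by linarith)
  obtain ⟨y, hy⟩ : ∃ y, y = t ^ (1 / 2 - δ / 2) := ⟨_, rfl⟩
  rw [← hy] at h4 hN
  have hy0 : 0 < y := by linarith
  have hNle : (N : ℝ) ≤ y / 4 := by
    rw [hN]; exact Nat.floor_le (by linarith)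
  have hNlt : y / 4 < (N : ℝ) + 1 := by
    rw [hN]; exact Nat.lt_floor_add_one _
  have hN1 : (N : ℝ) + 1 ≤ y := by linarith
  have hN0 : 0 < (N : ℝ) + 1 := by positivity
  -- the first part
  have hB0 : 0 ≤ CB * t ^ (s + η) := mul_nonneg hCB (hpos _).le
  have hsB : √(CB * t ^ (s + η)) = √CB * t ^ ((s + η) / 2) := by
    rw [Real.sqrt_mul hCB, Real.sqrt_eq_rpow (t ^ (s + η)), ← Real.rpow_mul ht0.le]
    congr 2
    ring
  have hsX : √X ≤ √C₂ * (1 + √CB * t ^ ((s + η) / 2 - δ)) := by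
    refine (Real.sqrt_le_sqrt hX).trans ?_
    rw [Real.sqrt_mul hC₂]
    refine mul_le_mul_of_nonneg_left ?_ (Real.sqrt_nonneg _)
    have h5 : t ^ (-(2 * δ)) * (CB * t ^ (s + η)) = (√CB * t ^ ((s + η) / 2 - δ)) ^ 2 := by
      rw [mul_pow, Real.sq_sqrt hCB, ← Real.rpow_natCast (t ^ ((s + η) / 2 - δ)) 2,
        ← Real.rpow_mul ht0.le, mul_left_comm, ← Real.rpow_add ht0]
      congr 2
      push_cast
      ring
    rw [h5]
    have h6 : 0 ≤ √CB * t ^ ((s + η) / 2 - δ) := mul_nonneg (Real.sqrt_nonneg _) (hpos _).le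
    rw [Real.sqrt_le_left (by linarith)]
    nlinarith
  have hA : CK * √X * √(CB * t ^ (s + η)) ≤ CK * (√C₂ * √CB * (1 + √CB)) * t ^ (s - η) := by
    rw [hsB, mul_assoc, mul_assoc CK]
    refine mul_le_mul_of_nonneg_left ?_ hCK
    have h7 : √X * (√CB * t ^ ((s + η) / 2)) ≤
        √C₂ * (1 + √CB * t ^ ((s + η) / 2 - δ)) * (√CB * t ^ ((s + η) / 2)) :=
      mul_le_mul_of_nonneg_right hsX (mul_nonneg (Real.sqrt_nonneg _) (hpos _).le)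
    refine h7.trans ?_
    have h8 : √C₂ * (1 + √CB * t ^ ((s + η) / 2 - δ)) * (√CB * t ^ ((s + η) / 2)) =
        √C₂ * √CB * (t ^ ((s + η) / 2) + √CB * (t ^ ((s + η) / 2 - δ) * t ^ ((s + η) / 2))) := by
      ring
    rw [h8, ← Real.rpow_add ht0, mul_assoc (√C₂ * √CB)]
    refine mul_le_mul_of_nonneg_left ?_ (mul_nonneg (Real.sqrt_nonneg _) (Real.sqrt_nonneg _))
    have h9 : t ^ ((s + η) / 2) ≤ t ^ (s - η) := hmono (by linarith)
    have h10 : t ^ ((s + η) / 2 - δ + (s + η) / 2) ≤ t ^ (s - η) := hmono (by linarith)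
    have h11 := mul_le_mul_of_nonneg_left h10 (Real.sqrt_nonneg CB)
    linarith
  -- the second part
  have hz : t ^ (-(δ / 2)) = t ^ (-(δ / 2)) := rfl
  have hE1 : ((N : ℝ) + 1) ^ 2 / t ≤ t ^ (-(δ / 2)) := by
    rw [div_le_iff₀ ht0]
    have h5 : ((N : ℝ) + 1) ^ 2 ≤ y ^ 2 := pow_le_pow_left₀ hN0.le hN1 2
    have h6 : y ^ 2 = t ^ (1 - δ) := by
      rw [hy, ← Real.rpow_natCast, ← Real.rpow_mul ht0.le]
      congr 1
      push_cast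
      ring
    have h7 : t ^ (-(δ / 2)) * t = t ^ (1 - δ / 2) := by
      nth_rewrite 2 [← Real.rpow_one t]
      rw [← Real.rpow_add ht0]
      congr 1
      ring
    rw [h7]
    exact (h5.trans h6.le).trans (hmono (by linarith))
  have hE2 : t ^ (-(1 / 2 + δ)) * t / ((N : ℝ) + 1) ≤ 4 * t ^ (-(δ / 2)) := by
    rw [div_le_iff₀ hN0]
    have h5 : t ^ (-(1 / 2 + δ)) * t = t ^ (-(δ / 2)) * y := by
      rw [hy]
      nth_rewrite 2 [← Real.rpow_one t]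
      rw [← Real.rpow_add ht0, ← Real.rpow_add ht0]
      congr 1
      ring
    rw [h5]
    have h6 := mul_le_mul_of_nonneg_left hNlt.le (hpos (-(δ / 2))).le
    linarith
  have hE3 : (((N : ℝ) + 1) ^ 2)⁻¹ ≤ 16 * t ^ (-(δ / 2)) := by
    have h5 : (y / 4) ^ 2 ≤ ((N : ℝ) + 1) ^ 2 := pow_le_pow_left₀ (by linarith) hNlt.le 2
    have h6 : (((N : ℝ) + 1) ^ 2)⁻¹ ≤ ((y / 4) ^ 2)⁻¹ := inv_anti₀ (by positivity) h5
    have h7 : ((y / 4) ^ 2)⁻¹ = 16 * t ^ (-(1 - δ)) := by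
      have h8 : y ^ 2 = t ^ (1 - δ) := by
        rw [hy, ← Real.rpow_natCast, ← Real.rpow_mul ht0.le]
        congr 1
        push_cast
        ring
      rw [div_pow, h8, Real.rpow_neg ht0.le, inv_div]
      norm_num
      ring
    have h9 : t ^ (-(1 - δ)) ≤ t ^ (-(δ / 2)) := hmono (by linarith)
    linarith
  have hE4 : ((N : ℝ) + 1) / t ≤ 1 := by
    rw [div_le_one ht0]
    have h5 : y ≤ t ^ (1 : ℝ) := by
      rw [hy]; exact hmono (by linarith)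
    rw [Real.rpow_one] at h5
    linarith
  have hC : CK * ((CB * t ^ (s + η)) * (((N : ℝ) + 1) ^ 2 / t + t ^ (-(1 / 2 + δ)) * t /
      ((N : ℝ) + 1) + (((N : ℝ) + 1) ^ 2)⁻¹) + ((N : ℝ) + 1) / t) ≤
      CK * (21 * CB + 1) * t ^ (s - η) := by
    rw [mul_assoc CK]
    refine mul_le_mul_of_nonneg_left ?_ hCK
    have h5 : (CB * t ^ (s + η)) * (((N : ℝ) + 1) ^ 2 / t + t ^ (-(1 / 2 + δ)) * t /
        ((N : ℝ) + 1) + (((N : ℝ) + 1) ^ 2)⁻¹) ≤ (CB * t ^ (s + η)) * (21 * t ^ (-(δ / 2))) :=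
      mul_le_mul_of_nonneg_left (by linarith) hB0
    have h6 : (CB * t ^ (s + η)) * (21 * t ^ (-(δ / 2))) =
        21 * CB * (t ^ (s + η) * t ^ (-(δ / 2))) := by ring
    rw [h6, ← Real.rpow_add ht0] at h5
    have h7 : t ^ (s + η + -(δ / 2)) ≤ t ^ (s - η) := hmono (by linarith)
    have h8 := mul_le_mul_of_nonneg_left h7 (by positivity : 0 ≤ 21 * CB)
    nlinarith
  calc I ≤ _ := hI
    _ ≤ _ := add_le_add hA hC
    _ = _ := by ring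

/-- the statement of the induction -/
def IH (c C₀ : ℝ) (K : ℕ) (v : ℝ → ℝ) (s : ℝ) : Prop :=
  ∀ φ : ℂ → ℝ, TestP H0 φ → ∃ C : ℝ, 0 ≤ C ∧
    ∀ (l : ℕ → ℝ) (f : ℍ → ℝ) (t : ℝ) (N : ℕ) (b : ℤ → ℝ), Dt c v C₀ K l f t N b →
      ∫ z : ℍ, φ z * f z ^ 4 ≤ C * t ^ s

theorem IH.mono {c C₀ : ℝ} {K : ℕ} {v : ℝ → ℝ} {s s' : ℝ} (h : IH c C₀ K v s) (hs : s ≤ s') :
    IH c C₀ K v s' := by
  intro φ hφ
  obtain ⟨C, hC, h1⟩ := h φ hφ
  refine ⟨C, hC, fun l f t N b hD => (h1 l f t N b hD).trans ?_⟩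
  exact mul_le_mul_of_nonneg_left (Real.rpow_le_rpow_of_exponent_le hD.one_le hs) hC

theorem bound (hB4 : StmtB4) {c C₀ : ℝ} {K : ℕ} {v : ℝ → ℝ} {s κ η : ℝ} (hs : 0 ≤ s)
    (h : IH c C₀ K v s) (hκ : 0 < κ) (hκ1 : κ ≤ 1 / 2) (hη : 0 < η) (φ : ℂ → ℝ) (hφ : TestP H0 φ) :
    ∃ C : ℝ, 0 ≤ C ∧ ∀ (l : ℕ → ℝ) (f : ℍ → ℝ) (t : ℝ) (N : ℕ) (b : ℤ → ℝ),
      Dt c v C₀ K l f t N b → ∀ n : ℤ, |(n : ℝ)| ≤ t ^ (1 / 2 - κ) →
        ∫ z : ℍ, φ z * ‖Gf f t n (z : ℂ)‖ ^ 4 ≤ C * t ^ (s + η) := by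
  obtain ⟨ζ, C, hζ, hC, h1⟩ := hB4 φ hφ κ η hκ hκ1 hη
  obtain ⟨C', hC', h2⟩ := h ζ hζ
  refine ⟨C * (1 + C'), by positivity, fun l f t N b hD n hn => ?_⟩
  have ht : 1 ≤ t := hD.one_le
  have ht0 : 0 < t := by linarith
  refine (h1 f t hD.hm ht n hn).trans ?_
  have h3 := h2 l f t N b hD
  have h4 : 1 ≤ t ^ s := Real.one_le_rpow ht hs
  have h5 : 1 + ∫ z : ℍ, ζ z * f z ^ 4 ≤ (1 + C') * t ^ s := by nlinarith
  have h6 : C * (1 + C') * t ^ (s + η) = C * t ^ η * ((1 + C') * t ^ s) := by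
    rw [Real.rpow_add ht0]; ring
  rw [h6]
  exact mul_le_mul_of_nonneg_left h5 (mul_nonneg hC (Real.rpow_nonneg ht0.le _))

end BsM

open BsM in
theorem stmtBs (hB4 : StmtB4) (hKy : StmtKy) (hTri : StmtTri4) (hBs1 : StmtBs1) : StmtBs := by
  intro c hc hc1
  obtain ⟨K₀, hK₀⟩ := hBs1 c hc hc1
  refine ⟨K₀, fun K hK C₀ hC₀ v hv η hη => ?_⟩
  obtain ⟨δ, hδd⟩ : ∃ δ, δ = c / 1600 := ⟨_, rfl⟩
  have hδ : 0 < δ := by rw [hδd]; positivity
  have hδ1 : δ ≤ 1 / 100 := by rw [hδd]; linarith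
  obtain ⟨e, hed⟩ : ∃ e, e = min (η / 4) (δ / 4) := ⟨_, rfl⟩
  have he : 0 < e := by rw [hed]; exact lt_min (by linarith) (by linarith)
  have he1 : e ≤ η / 4 := by rw [hed]; exact min_le_left _ _
  have he2 : e ≤ δ / 4 := by rw [hed]; exact min_le_right _ _
  -- the step
  have hstep : ∀ s : ℝ, 3 * e ≤ s → IH c C₀ K v s → IH c C₀ K v (s - e) := by
    intro s hs hIH φ hφ
    have hs0 : 0 ≤ s := by linarith
    obtain ⟨ζ, CK, ρ₀, hζ, hCK, hρ₀, hky⟩ := hKy φ hφ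
    obtain ⟨ζ₂, C₂, t₂, hζ₂, hC₂, ht₂, hbs⟩ := hK₀ K hK C₀ hC₀ v hv ζ hζ
    obtain ⟨B1, hB1, hb1⟩ := bound hB4 hs0 hIH (κ := δ / 4) (by linarith) (by linarith) he ζ hζ
    obtain ⟨B2, hB2, hb2⟩ := bound hB4 hs0 hIH (κ := δ / 4) (by linarith) (by linarith) he ζ₂ hζ₂
    obtain ⟨CT, hCT, htri⟩ := hTri φ hφ
    obtain ⟨t₀, ht₀, hbig⟩ := big δ ρ₀ K hδ hδ1 hρ₀
    obtain ⟨CB, hCBd⟩ : ∃ CB, CB = max B1 B2 := ⟨_, rfl⟩
    have hCB : 0 ≤ CB := by rw [hCBd]; exact hB1.trans (le_max_left _ _)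
    obtain ⟨T, hTd⟩ : ∃ T, T = max t₀ t₂ := ⟨_, rfl⟩
    have hT1 : 1 ≤ T := by rw [hTd]; exact ht₀.trans (le_max_left _ _)
    refine ⟨(CK * (√C₂ * √CB * (1 + √CB)) + CK * (21 * CB + 1)) + CT * T ^ 2, by positivity, ?_⟩
    intro l f t N b hD
    have ht : 1 ≤ t := hD.one_le
    have ht0 : 0 < t := by linarith
    have hu0 : 0 < t ^ (s - e) := Real.rpow_pos_of_pos ht0 _
    have hu1 : 1 ≤ t ^ (s - e) := Real.one_le_rpow ht (by linarith)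
    rcases le_total T t with hTt | hTt
    · have h1 : t₀ ≤ t := by rw [hTd] at hTt; exact (le_max_left _ _).trans hTt
      have h2 : t₂ ≤ t := by rw [hTd] at hTt; exact (le_max_right _ _).trans hTt
      obtain ⟨h4, hNK, hρ⟩ := hbig t h1
      obtain ⟨M, hM⟩ : ∃ M, M = ⌊t ^ (1 / 2 - δ / 2) / 4⌋₊ := ⟨_, rfl⟩
      have hMle : (M : ℝ) ≤ t ^ (1 / 2 - δ / 2) / 4 := by
        rw [hM]; exact Nat.floor_le (by linarith)
      have hmo : t ^ (1 / 2 - δ / 2) ≤ t ^ (1 / 2 - δ / 4) :=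
        Real.rpow_le_rpow_of_exponent_le ht (by linarith)
      have hB : ∀ n : ℤ, |(n : ℝ)| ≤ t ^ (1 / 2 - δ / 4) →
          ∫ z : ℍ, ζ z * ‖Gf f t n (z : ℂ)‖ ^ 4 ≤ CB * t ^ (s + e) := fun n hn =>
        (hb1 l f t N b hD n hn).trans (mul_le_mul_of_nonneg_right (by
          rw [hCBd]; exact le_max_left _ _) (Real.rpow_nonneg ht0.le _))
      have hB' : ∀ n : ℤ, |(n : ℝ)| ≤ t ^ (1 / 2 - δ / 4) →
          ∫ z : ℍ, ζ₂ z * ‖Gf f t n (z : ℂ)‖ ^ 4 ≤ CB * t ^ (s + e) := fun n hn =>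
        (hb2 l f t N b hD n hn).trans (mul_le_mul_of_nonneg_right (by
          rw [hCBd]; exact le_max_right _ _) (Real.rpow_nonneg ht0.le _))
      have hB0 : 0 ≤ CB * t ^ (s + e) := mul_nonneg hCB (Real.rpow_nonneg ht0.le _)
      have hX := hbs l f t N b hD h2 (CB * t ^ (s + e)) hB0 (by
        intro n hn
        refine hB' n ?_
        have h5 : |(n : ℝ)| ≤ ((N + K : ℕ) : ℝ) := by exact_mod_cast hn
        refine h5.trans ?_
        have h6 := hD.pack.hi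
        have h7 : c / 800 = 2 * δ := by rw [hδd]; ring
        rw [h7] at h6
        push_cast
        linarith)
      have hrh : rh c t = t ^ (-(1 / 2 + δ)) := by rw [rh, hδd]
      have hky2 := hky f t hD.hm ht M (CB * t ^ (s + e)) (rh c t) (by
        have h5 : 2 * (M : ℝ) + 2 ≤ t ^ (1 / 2 : ℝ) := by
          have h6 : t ^ (1 / 2 - δ / 2) ≤ t ^ (1 / 2 : ℝ) :=
            Real.rpow_le_rpow_of_exponent_le ht (by linarith)
          linarith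
        have h7 : (t ^ (1 / 2 : ℝ)) ^ 2 = t := by
          rw [← Real.rpow_natCast, ← Real.rpow_mul ht0.le]
          norm_num
        calc (2 * (M : ℝ) + 2) ^ 2 ≤ (t ^ (1 / 2 : ℝ)) ^ 2 := pow_le_pow_left₀ (by positivity) h5 2
          _ = t := h7) hB0 (by
        intro n hn
        refine hB n ?_
        have h5 : |(n : ℝ)| ≤ ((2 * M + 1 : ℕ) : ℝ) := by exact_mod_cast hn
        refine h5.trans ?_
        push_cast
        linarith) (by rw [hrh]; exact Real.rpow_pos_of_pos ht0 _) (by rw [hrh]; exact hρ)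
      have h9 : c / 800 = 2 * δ := by rw [hδd]; ring
      rw [h9] at hX
      rw [hrh] at hX hky2
      have h8 := core δ e s CK C₂ CB t _ _ M ht hδ hδ1 he he2 hs hCK hC₂ hCB h4 hM hX hky2
      refine h8.trans ?_
      have h10 : 0 ≤ CT * T ^ 2 * t ^ (s - e) := by positivity
      nlinarith
    · refine (htri f t hD.hm ht).trans ?_
      have h1 : t ^ 2 ≤ T ^ 2 := pow_le_pow_left₀ ht0.le hTt 2
      have h2 : CT * t ^ 2 ≤ CT * T ^ 2 := mul_le_mul_of_nonneg_left h1 hCT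
      have h3 : CT * T ^ 2 ≤ CT * T ^ 2 * t ^ (s - e) := le_mul_of_one_le_right (by positivity) hu1
      have h4 : 0 ≤ (CK * (√C₂ * √CB * (1 + √CB)) + CK * (21 * CB + 1)) * t ^ (s - e) := by
        positivity
      rw [add_mul]
      linarith
  -- the induction
  have h0 : IH c C₀ K v 2 := by
    intro φ hφ
    obtain ⟨C, hC, h1⟩ := hTri φ hφ
    refine ⟨C, hC, fun l f t N b hD => ?_⟩
    rw [Real.rpow_two]
    exact h1 f t hD.hm hD.one_le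
  have hall : ∀ k : ℕ, IH c C₀ K v (max (2 - k * e) (3 * e)) := by
    intro k
    induction k with
    | zero =>
      refine h0.mono ?_
      rw [Nat.cast_zero, zero_mul, sub_zero]
      exact le_max_left _ _
    | succ k ih =>
      refine (hstep _ (le_max_right _ _) ih).mono ?_
      rw [sub_le_iff_le_add]
      refine max_le ?_ ?_
      · have : 2 - ((k + 1 : ℕ) : ℝ) * e ≤ max (2 - ((k + 1 : ℕ) : ℝ) * e) (3 * e) :=
          le_max_left _ _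
        push_cast at this ⊢
        linarith
      · have : 3 * e ≤ max (2 - ((k + 1 : ℕ) : ℝ) * e) (3 * e) := le_max_right _ _
        linarith
  obtain ⟨k, hk⟩ := exists_nat_ge (2 / e)
  refine (hall k).mono (max_le ?_ ?_)
  · rw [div_le_iff₀ he] at hk
    linarith
  · linarith

end

end Pool.Agent.A54.Hp
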