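import Pool.Agent.Lib.MP_a54f13_nt.Hp.SpecA
import Pool.Agent.Lib.MP_a54f13_nt.IntLap
import Pool.Agent.Lib.MP_a54f13_nt.Rel
import Pool.Agent.Lib.MP_a54f13_nt.Pl.FB
import Pool.Agent.Lib.MP_a54f13_nt.Pl.G1

/-! # Package `Hp`, `Ky`: the fourth moment and means of `f²` -/

set_option autoImplicit false

namespace Pool.Agent.A54.Hp

open MeasureTheory Filter Topology Set
open scoped ContDiff ComplexConjugate UpperHalfPlane MatrixGroups ENNReal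
open Pool.Agent.A54.Half (H0)
open Pool.Agent.A54.Sq (la TestP Tow Up Wi)

noncomputable section

namespace KyM

/-- test functions are bounded above -/
lemma bdd {V : Set ℂ} {ψ : ℂ → ℝ} (hψ : TestR V ψ) : ∃ c : ℝ, 0 ≤ c ∧ ∀ z, ψ z ≤ c := by
  obtain ⟨b, hb⟩ := hψ.smooth.continuous.bounded_above_of_compact_support hψ.cpt
  exact ⟨b, (norm_nonneg _).trans (hb 0), fun z => (le_abs_self _).trans (hb z)⟩

/-- a nonnegative test function is dominated by a multiple of a cutoff -/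
lemma dom {V : Set ℂ} {ψ ζ : ℂ → ℝ} (hψ : TestR V ψ) (h0 : ∀ z, 0 ≤ ζ z)
    (h1 : ∀ z ∈ tsupport ψ, ζ z = 1) : ∃ c : ℝ, 0 ≤ c ∧ ∀ z, ψ z ≤ c * ζ z := by
  obtain ⟨c, hc, hb⟩ := bdd hψ
  refine ⟨c, hc, fun z => ?_⟩
  by_cases hz : z ∈ tsupport ψ
  · rw [h1 z hz, mul_one]
    exact hb z
  · rw [image_eq_zero_of_notMem_tsupport hz]
    exact mul_nonneg hc (h0 z)

/-- the same with the weight `(im z)⁻²` -/
lemma dom2 {V : Set ℂ} (hV : V ⊆ H0) {ψ ζ : ℂ → ℝ} (hψ : TestR V ψ) (h0 : ∀ z, 0 ≤ ζ z)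
    (h1 : ∀ z ∈ tsupport ψ, ζ z = 1) :
    ∃ c : ℝ, 0 ≤ c ∧ ∀ z, ψ z ≤ c * (ζ z * (z.im)⁻¹ ^ 2) := by
  have h2 : TestR V fun z => ψ z * z.im ^ 2 := hψ.mul_right (Half.contDiff_im.pow 2)
  obtain ⟨c, hc, hb⟩ := bdd h2
  refine ⟨c, hc, fun z => ?_⟩
  by_cases hz : z ∈ tsupport ψ
  · have hz0 : 0 < z.im := hV (hψ.sub hz)
    have h3 : ψ z = (ψ z * z.im ^ 2) * (z.im)⁻¹ ^ 2 := by
      field_simp
    rw [h3, h1 z hz, one_mul]
    exact mul_le_mul_of_nonneg_right (hb z) (by positivity)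
  · rw [image_eq_zero_of_notMem_tsupport hz]
    exact mul_nonneg hc (mul_nonneg (h0 z) (by positivity))

/-- fourth moments on the plane and on the half-plane -/
lemma four {V : Set ℂ} (hVH : V ⊆ H0) {χ ζ : ℂ → ℝ} (h1 : ∀ z ∈ V, χ z = 1) (hζ : TestR V ζ)
    (g : ℂ → ℂ) :
    ∫ z : ℍ, ζ z * ‖g (z : ℂ)‖ ^ 4 = ∫ z : ℂ, (ζ z * (z.im)⁻¹ ^ 2) * ‖(χ z : ℂ) * g z‖ ^ 4 := by
  have h0 : ∀ z : ℂ, z.im ≤ 0 → ζ z * ‖g z‖ ^ 4 = 0 := by
    intro z hz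
    rw [hζ.eq_zero (fun h => (not_lt.mpr hz) (hVH h)), zero_mul]
  rw [stmtInt.1 (fun z => ζ z * ‖g z‖ ^ 4) h0]
  refine integral_congr_ae (Eventually.of_forall fun z => ?_)
  by_cases hz : z ∈ V
  · simp only [h1 z hz, Complex.ofReal_one, one_mul]
    ring
  · simp only [hζ.eq_zero hz, zero_mul, zero_div]

/-- comparison of fourth moments -/
lemma four_le {V : Set ℂ} (hVH : V ⊆ H0) {χ ζ ψ : ℂ → ℝ} (h1 : ∀ z ∈ V, χ z = 1) (hζ : TestR V ζ)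
    (hψ : TestP V ψ) {c B : ℝ} (hc : 0 ≤ c)
    (hd : ∀ z, ψ z ≤ c * (ζ z * (z.im)⁻¹ ^ 2)) {g : ℂ → ℂ}
    (hg : Continuous fun z => (χ z : ℂ) * g z)
    (hB : ∫ z : ℍ, ζ z * ‖g (z : ℂ)‖ ^ 4 ≤ B) :
    ∫ z, ψ z * ‖(χ z : ℂ) * g z‖ ^ 4 ≤ c * B := by
  rw [four hVH h1 hζ g] at hB
  refine le_trans ?_ (mul_le_mul_of_nonneg_left hB hc)
  rw [← integral_const_mul]
  refine integral_mono (Rel.integrable_testR hψ.test (hg.norm.pow 4))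
    ((Rel.integrable_testR (Half.testR_weight hVH hζ) (hg.norm.pow 4)).const_mul c) fun z => ?_
  show ψ z * ‖(χ z : ℂ) * g z‖ ^ 4 ≤ c * (ζ z * (z.im)⁻¹ ^ 2 * ‖(χ z : ℂ) * g z‖ ^ 4)
  calc ψ z * ‖(χ z : ℂ) * g z‖ ^ 4 ≤ c * (ζ z * (z.im)⁻¹ ^ 2) * ‖(χ z : ℂ) * g z‖ ^ 4 :=
        mul_le_mul_of_nonneg_right (hd z) (by positivity)
    _ = _ := by ring

/-- second moments -/
lemma two_le {V : Set ℂ} (hVH : V ⊆ H0) {χ ψ : ℂ → ℝ} (h1 : ∀ z ∈ V, χ z = 1) (hψ : TestP V ψ)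
    {c M : ℝ} (hc : 0 ≤ c) (hd : ∀ z, ψ z * z.im ^ 2 ≤ c) (hM : 0 ≤ M) (g : ℂ → ℂ)
    (hB : ∫⁻ z in (fun z : ℍ => (z : ℂ)) ⁻¹' tsupport ψ, ‖g (z : ℂ)‖ₑ ^ 2 ≤ ENNReal.ofReal M) :
    ∫ z, ψ z * ‖(χ z : ℂ) * g z‖ ^ 2 ≤ c * M := by
  have hH : TestR H0 ψ := ⟨hψ.test.smooth, hψ.test.cpt, hψ.test.sub.trans hVH⟩
  have e1 : ∫ z, ψ z * ‖(χ z : ℂ) * g z‖ ^ 2 = ∫ z : ℍ, ψ z * (z : ℂ).im ^ 2 * ‖g z‖ ^ 2 := by
    rw [Pl.G1M.int_weight stmtInt hH fun z => ‖g z‖ ^ 2]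
    refine integral_congr_ae (Eventually.of_forall fun z => ?_)
    by_cases hz : z ∈ V
    · simp only [h1 z hz, Complex.ofReal_one, one_mul]
    · simp only [hψ.test.eq_zero hz, zero_mul]
  set K : Set ℍ := (fun z : ℍ => (z : ℂ)) ⁻¹' tsupport ψ with hK
  have hKm : MeasurableSet K :=
    ((isClosed_tsupport ψ).preimage UpperHalfPlane.continuous_coe).measurableSet
  rw [e1]
  by_cases hi : Integrable fun z : ℍ => ψ z * (z : ℂ).im ^ 2 * ‖g z‖ ^ 2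
  · rw [integral_eq_lintegral_of_nonneg_ae (Eventually.of_forall fun z =>
      mul_nonneg (mul_nonneg (hψ.nonneg _) (sq_nonneg _)) (sq_nonneg _)) hi.aestronglyMeasurable]
    refine ENNReal.toReal_le_of_le_ofReal (mul_nonneg hc hM) ?_
    calc ∫⁻ z : ℍ, ENNReal.ofReal (ψ z * (z : ℂ).im ^ 2 * ‖g z‖ ^ 2)
        ≤ ∫⁻ z : ℍ, K.indicator (fun z : ℍ => ENNReal.ofReal c * ‖g z‖ₑ ^ 2) z := by
          refine lintegral_mono fun z => ?_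
          by_cases hz : z ∈ K
          · rw [indicator_of_mem hz]
            rw [ENNReal.ofReal_mul (mul_nonneg (hψ.nonneg _) (sq_nonneg _)),
              ENNReal.ofReal_pow (norm_nonneg _), ofReal_norm]
            gcongr
            exact hd z
          · have h2 : ψ (z : ℂ) = 0 := image_eq_zero_of_notMem_tsupport hz
            rw [indicator_of_notMem hz, h2]
            simp
      _ = ENNReal.ofReal c * ∫⁻ z in K, ‖g z‖ₑ ^ 2 := by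
          rw [lintegral_indicator hKm, lintegral_const_mul' _ _ ENNReal.ofReal_ne_top]
      _ ≤ ENNReal.ofReal c * ENNReal.ofReal M := by gcongr
      _ = ENNReal.ofReal (c * M) := (ENNReal.ofReal_mul hc).symm
  · rw [integral_undef hi]
    exact mul_nonneg hc hM

/-- the final combination of constants -/
lemma fin_alg {c C₁ M B E q : ℝ} (hc : 0 ≤ c) (hC : 0 ≤ C₁) (hM : 0 ≤ M) (hB : 0 ≤ B)
    (hE : 0 ≤ E) (hq : 0 ≤ q) (X : ℝ) {I : ℝ}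
    (h : I ≤ 3 * (√(c * X) * √(c * B)) + C₁ * (c * B * E + M * q)) :
    I ≤ (3 * c + C₁ * (c + M)) * √X * √B + (3 * c + C₁ * (c + M)) * (B * E + q) := by
  have e1 : √(c * X) * √(c * B) = c * (√X * √B) := by
    rw [Real.sqrt_mul hc, Real.sqrt_mul hc]
    have : √c * √c = c := Real.mul_self_sqrt hc
    linear_combination (√X * √B) * this
  rw [e1] at h
  have h2 : 0 ≤ √X * √B := by positivity
  have h3 : 0 ≤ B * E := mul_nonneg hB hE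
  have h4 : 0 ≤ C₁ * (c + M) * (√X * √B) := by positivity
  have h5 : 0 ≤ 3 * c * (B * E + q) := by positivity
  have h6 : 0 ≤ C₁ * M * (B * E) := by positivity
  have h7 : 0 ≤ C₁ * c * q := by positivity
  nlinarith

end KyM

open KyM in
/-- the fourth moment and means of `f²` -/
theorem stmtKy (hTwG : StmtTwG) (hTwc : StmtTwc) (hMss : StmtMss) (hKey : Sq.StmtKey)
    (_hLad : Sq.StmtLad) : StmtKy := by
  intro φ hφ
  obtain ⟨χ, V, hχ, h01, hV, hVH, h1, hsub⟩ := Half.setup hφ.test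
  have hφV : TestR V φ := ⟨hφ.test.smooth, hφ.test.cpt, hsub⟩
  set φ₁ : ℂ → ℝ := fun z => φ z * (z.im)⁻¹ ^ 2 with hφ₁
  have hφ₁V : TestP V φ₁ :=
    ⟨Half.testR_weight hVH hφV, fun z => mul_nonneg (hφ.nonneg z) (by positivity)⟩
  obtain ⟨ζ₁, C₁, r0, hζ₁, hC₁, hr0, hK⟩ := hKey V hV hVH φ₁ hφ₁V
  -- the cutoff
  obtain ⟨ζ, hζ, hζ01, hζ1⟩ := exists_cutoff
    ((hφV.cpt.isCompact.union hφ₁V.test.cpt.isCompact).union hζ₁.test.cpt.isCompact) hV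
    (union_subset (union_subset hφV.sub hφ₁V.test.sub) hζ₁.test.sub)
  have hone : ∀ z ∈ (tsupport φ ∪ tsupport φ₁) ∪ tsupport ζ₁, ζ z = 1 := fun z hz =>
    hζ1.self_of_nhdsSet z hz
  have hζ0 : ∀ z, 0 ≤ ζ z := fun z => (hζ01 z).1
  have hζH : TestP H0 ζ := ⟨⟨hζ.smooth, hζ.cpt, hζ.sub.trans hVH⟩, hζ0⟩
  obtain ⟨c1, hc1, hd1⟩ := dom hφ₁V.test hζ0 fun z hz => hone z (Or.inl (Or.inr hz))
  obtain ⟨c2, hc2, hd2⟩ := dom2 hVH hφ₁V.test hζ0 fun z hz => hone z (Or.inl (Or.inr hz))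
  obtain ⟨c3, hc3, hd3⟩ := dom2 hVH hζ₁.test hζ0 fun z hz => hone z (Or.inr hz)
  obtain ⟨c4, hc4, hd4⟩ := bdd (hζ₁.test.mul_right (Half.contDiff_im.pow 2))
  obtain ⟨MK, hMK, hM⟩ := hMss _ (Pl.G1M.cpt_pre hζ₁.test.cpt.isCompact (hζ₁.test.sub.trans hVH))
  obtain ⟨ρ₁, hρ₁, hdisc⟩ := Pl.FBM.discs hζ.cpt.isCompact hV hζ.sub
  set c : ℝ := max (max c1 c2) c3 with hcdef
  have hcc1 : c1 ≤ c := (le_max_left _ _).trans (le_max_left _ _)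
  have hcc2 : c2 ≤ c := (le_max_right _ _).trans (le_max_left _ _)
  have hcc3 : c3 ≤ c := le_max_right _ _
  have hc0 : 0 ≤ c := hc1.trans hcc1
  have hw : ∀ z : ℂ, 0 ≤ ζ z * (z.im)⁻¹ ^ 2 := fun z => mul_nonneg (hζ0 z) (by positivity)
  refine ⟨ζ, 3 * c + C₁ * (c + c4 * MK), min r0 ρ₁, hζH, by positivity, lt_min hr0 hρ₁, ?_⟩
  intro f t hf ht N B ρ hN hB hU hρ hρ'
  have ht0 : 0 < t := by linarith
  set G : ℤ → ℂ → ℂ := fun n z => (χ z : ℂ) * Gf f t n z with hG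
  have hTow : Tow V t G := hTwc χ V hχ hV hVH h1 f t hf
  have hGc : ∀ n, Continuous fun z => (χ z : ℂ) * Gf f t n z := fun n => (hTow.smooth n).continuous
  have hUp : Up ζ₁ G (2 * N + 1) (c * B) := by
    intro n hn
    exact four_le hVH h1 hζ hζ₁ hc0
      (fun z => (hd3 z).trans (mul_le_mul_of_nonneg_right hcc3 (hw z))) (hGc n) (hU n hn)
  have hMM : ∀ n : ℤ, ∫ z, ζ₁ z * ‖G n z‖ ^ 2 ≤ c4 * MK := fun n =>
    two_le hVH h1 hζ₁ hc4 hd4 hMK (Gf f t n) (hM f t hf n)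
  have hD : ∀ d : ℤ, |d| ≤ 2 * N → Wi φ₁ G d d ≤ c * B := by
    intro d hd
    have h2 := four_le hVH h1 hζ hφ₁V hc0
      (fun z => (hd2 z).trans (mul_le_mul_of_nonneg_right hcc2 (hw z))) (hGc d)
      (hU d (by push_cast; linarith))
    refine le_of_eq_of_le ?_ h2
    unfold Wi
    refine integral_congr_ae (Eventually.of_forall fun z => ?_)
    show φ₁ z * (‖G d z‖ ^ 2 * ‖G d z‖ ^ 2) = φ₁ z * ‖G d z‖ ^ 4
    ring
  have hkey := hK t G ht hTow N (c * B) (c4 * MK) (c * B) ρ 0 hN hUp hMM hD hρ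
    (hρ'.trans (min_le_left _ _)) le_rfl (by norm_num)
  -- the value at zero
  have hG0 : ∀ z ∈ V, ‖G 0 z‖ ^ 2 = ext f z ^ 2 := by
    intro z hz
    simp only [hG, h1 z hz, Complex.ofReal_one, one_mul]
    rw [(hTwG f t hf 0).2.2.2.2.1 z, Complex.norm_real, Real.norm_eq_abs, sq_abs]
  have heq : ∫ z : ℍ, φ z * f z ^ 4 = ∫ z, φ₁ z * ‖G 0 z‖ ^ 4 := by
    rw [Half.int_eq stmtInt hVH h1 hφV]
    refine integral_congr_ae (Eventually.of_forall fun z => ?_)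
    show φ z * (z.im)⁻¹ ^ 2 * Half.ff χ f z ^ 4 = φ z * (z.im)⁻¹ ^ 2 * ‖G 0 z‖ ^ 4
    by_cases hz : z ∈ V
    · have h4 : ‖G 0 z‖ ^ 4 = (‖G 0 z‖ ^ 2) ^ 2 := by ring
      rw [h4, hG0 z hz]
      simp only [Half.ff, h1 z hz, one_mul]
      ring
    · simp only [hφV.eq_zero hz, zero_mul]
  -- the means
  have hEdc : Continuous (Pl.Ed ρ fun w => ‖G 0 w‖ ^ 2) :=
    Pl.continuous_Ed ((hGc 0).norm.pow 2) ρ
  have hEd : ∫ z, φ₁ z * (Pl.Ed ρ (fun w => ‖G 0 w‖ ^ 2) z - 0) ^ 2 ≤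
      c * ∫ z : ℂ, ζ z * (Pl.Ed ρ (fun w => ext f w ^ 2) z) ^ 2 := by
    have e1 : ∫ z : ℂ, ζ z * (Pl.Ed ρ (fun w => ext f w ^ 2) z) ^ 2 =
        ∫ z : ℂ, ζ z * (Pl.Ed ρ (fun w => ‖G 0 w‖ ^ 2) z) ^ 2 := by
      refine integral_congr_ae (Eventually.of_forall fun z => ?_)
      by_cases hz : z ∈ tsupport ζ
      · have e2 : Pl.Ed ρ (fun w => ext f w ^ 2) z = Pl.Ed ρ (fun w => ‖G 0 w‖ ^ 2) z :=
          Pl.Ed_congr fun u hu =>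
            (hG0 _ (hdisc ρ hρ (hρ'.trans (min_le_right _ _)) z hz u hu)).symm
        simp only [e2]
      · have : ζ z = 0 := image_eq_zero_of_notMem_tsupport hz
        simp only [this, zero_mul]
    rw [e1, ← integral_const_mul]
    simp only [sub_zero]
    refine integral_mono (Rel.integrable_testR hφ₁V.test (hEdc.pow 2))
      ((Rel.integrable_testR hζ (hEdc.pow 2)).const_mul c) fun z => ?_
    show φ₁ z * Pl.Ed ρ (fun w => ‖G 0 w‖ ^ 2) z ^ 2 ≤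
      c * (ζ z * Pl.Ed ρ (fun w => ‖G 0 w‖ ^ 2) z ^ 2)
    rw [← mul_assoc]
    exact mul_le_mul_of_nonneg_right
      ((hd1 z).trans (mul_le_mul_of_nonneg_right hcc1 (hζ0 z))) (sq_nonneg _)
  set X : ℝ := ∫ z : ℂ, ζ z * (Pl.Ed ρ (fun w => ext f w ^ 2) z) ^ 2 with hX
  rw [heq]
  refine fin_alg hc0 hC₁ (mul_nonneg hc4 hMK) hB (E := ((N : ℝ) + 1) ^ 2 / t + ρ * t / ((N : ℝ) + 1) +
    (((N : ℝ) + 1) ^ 2)⁻¹) (by positivity) (q := ((N : ℝ) + 1) / t) (by positivity) X ?_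
  refine hkey.trans ?_
  have h8 : √(∫ z, φ₁ z * (Pl.Ed ρ (fun w => ‖G 0 w‖ ^ 2) z - 0) ^ 2) * √(c * B) ≤
      √(c * X) * √(c * B) := mul_le_mul_of_nonneg_right (Real.sqrt_le_sqrt hEd) (Real.sqrt_nonneg _)
  have h9 : c4 * MK * ((N : ℝ) + 1) / t = c4 * MK * (((N : ℝ) + 1) / t) := by ring
  rw [h9]
  linarith

end

end Pool.Agent.A54.Hp
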