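import Pool.Agent.Lib.MP_a54f13_nt.Hp.SpecC
import Pool.Agent.Lib.MP_a54f13_nt.Hp.Ky

/-! # Package `Hp`, `Bs1`: the mean square of the local masses -/

set_option autoImplicit false

namespace Pool.Agent.A54.Hp

open MeasureTheory Filter Topology Set
open scoped ContDiff ComplexConjugate UpperHalfPlane MatrixGroups ENNReal
open Pool.Agent.A54.Half (H0)
open Pool.Agent.A54.Sq (la TestP Tow Up)

noncomputable section

namespace Bs1M

/-- the radius is positive -/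
lemma rh_pos {c t : ℝ} (ht : 0 < t) : 0 < rh c t := Real.rpow_pos_of_pos ht _

/-- the radius is small for large `t` -/
lemma rh_le {c t m : ℝ} (hc : 0 < c) (hm : 0 < m) (h1 : 1 ≤ t) (h : (m ^ 2)⁻¹ ≤ t) : rh c t ≤ m := by
  have ht : 0 < t := by linarith
  have h2 : rh c t ≤ t ^ (-(1 / 2 : ℝ)) := by
    unfold rh
    exact Real.rpow_le_rpow_of_exponent_le h1 (by linarith)
  refine h2.trans ?_
  have h3 : m⁻¹ ≤ t ^ (1 / 2 : ℝ) := by
    rw [← Real.sqrt_eq_rpow]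
    refine Real.le_sqrt_of_sq_le ?_
    rw [inv_pow]
    exact h
  rw [Real.rpow_neg ht.le]
  have h4 : (t ^ (1 / 2 : ℝ))⁻¹ ≤ (m⁻¹)⁻¹ := inv_anti₀ (inv_pos.mpr hm) h3
  rwa [inv_inv] at h4

/-- sums of test functions -/
lemma addP {ζ₁ ζ₂ : ℂ → ℝ} (h₁ : TestP H0 ζ₁) (h₂ : TestP H0 ζ₂) :
    TestP H0 (fun z => ζ₁ z + ζ₂ z) := by
  have hs : tsupport (fun z => ζ₁ z + ζ₂ z) ⊆ tsupport ζ₁ ∪ tsupport ζ₂ := by
    refine closure_minimal ?_ ((isClosed_tsupport _).union (isClosed_tsupport _))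
    intro z hz
    by_contra h
    rw [mem_union, not_or] at h
    refine hz ?_
    show ζ₁ z + ζ₂ z = 0
    rw [image_eq_zero_of_notMem_tsupport h.1, image_eq_zero_of_notMem_tsupport h.2, add_zero]
  refine ⟨⟨h₁.test.smooth.add h₂.test.smooth, h₁.test.cpt.add h₂.test.cpt,
    hs.trans (union_subset h₁.test.sub h₂.test.sub)⟩, fun z => add_nonneg (h₁.nonneg z) (h₂.nonneg z)⟩

/-- the tower is continuous on the half-plane -/
lemma contOn (hTwG : StmtTwG) {f : ℍ → ℝ} {t : ℝ} (hf : IsHeckeMaass f t) (n : ℤ) :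
    ContinuousOn (Gf f t n) H0 := (hTwG f t hf n).1.continuousOn

lemma contH (hTwG : StmtTwG) {f : ℍ → ℝ} {t : ℝ} (hf : IsHeckeMaass f t) (n : ℤ) :
    Continuous fun z : ℍ => Gf f t n (z : ℂ) :=
  (contOn hTwG hf n).comp_continuous UpperHalfPlane.continuous_coe fun z => z.im_pos

/-- smaller test functions -/
lemma U4_mono (hTwG : StmtTwG) {f : ℍ → ℝ} {t : ℝ} (hf : IsHeckeMaass f t) {ζ₁ ζ₂ : ℂ → ℝ}
    (h₁ : TestP H0 ζ₁) (h₂ : TestP H0 ζ₂) (hle : ∀ z, ζ₁ z ≤ ζ₂ z) {N : ℕ} {B : ℝ}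
    (h : U4 f t ζ₂ N B) : U4 f t ζ₁ N B := by
  intro n hn
  have hc : Continuous fun z : ℍ => ‖Gf f t n (z : ℂ)‖ ^ 4 := (contH hTwG hf n).norm.pow 4
  refine le_trans (integral_mono (Pl.FBM.integ h₁.test hc) (Pl.FBM.integ h₂.test hc) fun z => ?_)
    (h n hn)
  exact mul_le_mul_of_nonneg_right (hle z) (by positivity)

/-- `φ y²` -/
lemma wt {φ : ℂ → ℝ} (h : TestP H0 φ) : TestP H0 (fun z => φ z * z.im ^ 2) :=
  ⟨h.test.mul_right (Half.contDiff_im.pow 2), fun z => mul_nonneg (h.nonneg z) (sq_nonneg _)⟩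

/-- products with cutoffs are continuous -/
lemma contMul {χ : ℂ → ℝ} (hχ : TestR H0 χ) {F : ℂ → ℝ} (hF : ContinuousOn F H0) :
    Continuous fun z => χ z * F z := by
  refine continuous_of_tsupport fun z hz => ?_
  have hz1 : z ∈ tsupport χ := by
    refine closure_mono ?_ hz
    intro w hw h0
    exact hw (by
      show χ w * F w = 0
      rw [h0, zero_mul])
  have hz2 : z ∈ H0 := hχ.sub hz1
  exact (hχ.smooth.continuous.continuousAt).mul (hF.continuousAt (Half.isOpen_H0.mem_nhds hz2))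

/-- the two steps together -/
lemma comb (hSt1 : StmtSt1) (hSt2 : StmtSt2) {c : ℝ} (hc : 0 < c) (hc1 : c ≤ 1) :
    ∃ K₀ : ℕ, ∀ K : ℕ, K₀ ≤ K → ∀ C₀ : ℝ, 0 ≤ C₀ → ∀ v : ℝ → ℝ, (∀ R, 0 < v R) →
    ∀ φ : ℂ → ℝ, TestP H0 φ → ∀ C₁ : ℝ, 0 ≤ C₁ →
    ∃ (ζ : ℂ → ℝ) (D t₀ : ℝ), TestP H0 ζ ∧ 0 ≤ D ∧ 1 ≤ t₀ ∧
      ∀ (l : ℕ → ℝ) (f : ℍ → ℝ) (t : ℝ) (N : ℕ) (b : ℤ → ℝ), Dt c v C₀ K l f t N b → t₀ ≤ t →
        ∀ B : ℝ, 0 ≤ B → U4 f t ζ (N + K) B → ∀ k : ℝ → ℝ, Ker C₁ (3 * rh c t) k →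
          V2 φ k (Sb f t N b) (Sb f t N b) ≤
            ENNReal.ofReal (D * (1 + t ^ (-(c / 400)) * (1 + B))) := by
  obtain ⟨K₀, hK₀⟩ := hSt1 c hc hc1
  refine ⟨K₀, fun K hK C₀ hC₀ v hv φ hφ C₁ hC₁ => ?_⟩
  obtain ⟨ζ, Ca, ta, hζ, _, hCa, hta, hA⟩ := hK₀ K hK C₀ hC₀ v hv φ hφ C₁ hC₁
  obtain ⟨Cb, θ, hCb, hθ, hθ1, hB⟩ := hSt2 c C₀ hc hc1 hC₀ K v hv φ hφ
  obtain ⟨tb, htb, hB'⟩ := hB θ θ hθ le_rfl le_rfl
  have hnn : 0 ≤ Cb * (θ / θ ^ 2 + θ ^ c) := by positivity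
  have hnn2 : 0 ≤ Cb / θ ^ 2 := by positivity
  refine ⟨ζ, Ca + (Cb / θ ^ 2 + Cb * (θ / θ ^ 2 + θ ^ c)), max ta tb, hζ, by positivity,
    hta.trans (le_max_left _ _), ?_⟩
  intro l f t N b hD ht B hB0 hU k hk
  have ht1 : 1 ≤ t := (hta.trans (le_max_left _ _)).trans ht
  have ht0 : 0 < t := by linarith
  have h1 := hA l f t N b hD ((le_max_left _ _).trans ht) B hB0 hU k hk
  obtain ⟨h2, h3⟩ := hB' l f t N b hD ((le_max_right _ _).trans ht)
  have hp : 0 ≤ t ^ (-(c / 400)) * (1 + B) := by positivity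
  calc V2 φ k (Sb f t N b) (Sb f t N b)
      ≤ (ENNReal.ofReal (Cb / θ ^ 2) + ENNReal.ofReal (Cb * (θ / θ ^ 2 + θ ^ c))) +
        ENNReal.ofReal (Ca * t ^ (-(c / 400)) * (1 + B)) := by
          refine h1.trans (add_le_add_left (h2.trans (add_le_add_left h3 _)) _)
    _ = ENNReal.ofReal ((Cb / θ ^ 2 + Cb * (θ / θ ^ 2 + θ ^ c)) + Ca * (t ^ (-(c / 400)) * (1 + B))) := by
          rw [← ENNReal.ofReal_add hnn2 hnn, ← ENNReal.ofReal_add (add_nonneg hnn2 hnn)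
            (by positivity), mul_assoc]
    _ ≤ _ := by
          refine ENNReal.ofReal_le_ofReal ?_
          have h4 : 0 ≤ (Cb / θ ^ 2 + Cb * (θ / θ ^ 2 + θ ^ c)) * (t ^ (-(c / 400)) * (1 + B)) := by
            positivity
          nlinarith

/-- the final estimate for the constants -/
lemma fin_alg {c t B X D E Cp r : ℝ} (hc : 0 < c) (ht : 1 ≤ t) (hB : 0 ≤ B) (hD : 0 ≤ D)
    (hE : 0 ≤ E) (hCp : 0 ≤ Cp) (hr : 0 ≤ r) (hr1 : r ≤ 1)
    (h : ENNReal.ofReal X ≤ ENNReal.ofReal (D * (1 + t ^ (-(c / 400)) * (1 + B))) +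
      ENNReal.ofReal (Cp * r) * ENNReal.ofReal (E * (1 + t ^ (-(c / 400)) * (1 + B)))) :
    X ≤ 2 * (D + Cp * E) * (1 + t ^ (-(c / 800)) * B) := by
  have ht0 : 0 < t := by linarith
  have hp : 0 ≤ t ^ (-(c / 400)) := by positivity
  have hp1 : t ^ (-(c / 400)) ≤ 1 := Real.rpow_le_one_of_one_le_of_nonpos ht (by linarith)
  have hp2 : t ^ (-(c / 400)) ≤ t ^ (-(c / 800)) :=
    Real.rpow_le_rpow_of_exponent_le ht (by linarith)
  have hY : 0 ≤ 1 + t ^ (-(c / 400)) * (1 + B) := by positivity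
  rw [← ENNReal.ofReal_mul (by positivity), ← ENNReal.ofReal_add (by positivity) (by positivity),
    ENNReal.ofReal_le_ofReal_iff (by positivity)] at h
  have h2 : 1 + t ^ (-(c / 400)) * (1 + B) ≤ 2 * (1 + t ^ (-(c / 800)) * B) := by
    have h3 : t ^ (-(c / 400)) * B ≤ t ^ (-(c / 800)) * B := mul_le_mul_of_nonneg_right hp2 hB
    have h4 : 0 ≤ t ^ (-(c / 800)) * B := by positivity
    nlinarith
  have h5 : Cp * r * (E * (1 + t ^ (-(c / 400)) * (1 + B))) ≤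
      Cp * E * (1 + t ^ (-(c / 400)) * (1 + B)) := by
    have : Cp * r ≤ Cp * 1 := mul_le_mul_of_nonneg_left hr1 hCp
    have h6 : 0 ≤ E * (1 + t ^ (-(c / 400)) * (1 + B)) := by positivity
    calc Cp * r * (E * (1 + t ^ (-(c / 400)) * (1 + B)))
        ≤ Cp * 1 * (E * (1 + t ^ (-(c / 400)) * (1 + B))) := mul_le_mul_of_nonneg_right this h6
      _ = _ := by ring
  have h7 : 0 ≤ D + Cp * E := by positivity
  calc X ≤ D * (1 + t ^ (-(c / 400)) * (1 + B)) + Cp * r * (E * (1 + t ^ (-(c / 400)) * (1 + B))) := h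
    _ ≤ (D + Cp * E) * (1 + t ^ (-(c / 400)) * (1 + B)) := by linarith
    _ ≤ (D + Cp * E) * (2 * (1 + t ^ (-(c / 800)) * B)) := mul_le_mul_of_nonneg_left h2 h7
    _ = _ := by ring

end Bs1M

open Bs1M in
/-- the mean square of the local masses -/
theorem stmtBs1 (hTwG : StmtTwG) (hPv : StmtPv) (hSt1 : StmtSt1) (hSt2 : StmtSt2)
    (hDif : StmtDif) : StmtBs1 := by
  intro c hc hc1
  obtain ⟨K₀, hK₀⟩ := comb hSt1 hSt2 hc hc1
  refine ⟨max 1 K₀, fun K hK C₀ hC₀ v hv φ hφ => ?_⟩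
  obtain ⟨Ck, kf, hCk, hkf, hP⟩ := hPv
  obtain ⟨ζp, Cp, hζp, hCp, hP'⟩ := hP φ hφ
  obtain ⟨ζa, Da, ta, hζa, hDa, hta, hA⟩ :=
    hK₀ K ((le_max_right _ _).trans hK) C₀ hC₀ v hv _ (wt hφ) Ck hCk
  obtain ⟨ζb, Db, tb, hζb, hDb, htb, hB⟩ :=
    hK₀ K ((le_max_right _ _).trans hK) C₀ hC₀ v hv ζp hζp Ck hCk
  obtain ⟨ζd, Cd, td, hζd, hCd, htd, hDd⟩ :=
    hDif c C₀ hc hc1 hC₀ K ((le_max_left _ _).trans hK) φ hφ
  obtain ⟨χ, V, hχ, h01, hV, hVH, h1, hsub⟩ := Half.setup hφ.test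
  obtain ⟨ρ₁, hρ₁, hdisc⟩ := Pl.FBM.discs hφ.test.cpt.isCompact hV hsub
  have hm : 0 < min (1 / 8) ρ₁ := lt_min (by norm_num) hρ₁
  refine ⟨fun z => ζa z + ζb z + ζd z, 2 * (2 * (Da + Cp * Db)) + 2 * Cd,
    max (max ta tb) (max td (max 1 ((min (1 / 8) ρ₁) ^ 2)⁻¹)), addP (addP hζa hζb) hζd,
    by positivity, (hta.trans (le_max_left _ _)).trans (le_max_left _ _), ?_⟩
  intro l f t N b hD ht B hB0 hU
  have hta' : ta ≤ t := ((le_max_left _ _).trans (le_max_left _ _)).trans ht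
  have htb' : tb ≤ t := ((le_max_right _ _).trans (le_max_left _ _)).trans ht
  have htd' : td ≤ t := ((le_max_left _ _).trans (le_max_right _ _)).trans ht
  have htr : ((min (1 / 8) ρ₁) ^ 2)⁻¹ ≤ t :=
    ((le_max_right _ _).trans ((le_max_right _ _).trans (le_max_right _ _))).trans ht
  have ht1 : 1 ≤ t := hD.one_le
  have ht0 : 0 < t := by linarith
  have hf := hD.hm
  have hr : 0 < rh c t := rh_pos ht0
  have hrm : rh c t ≤ min (1 / 8) ρ₁ := rh_le hc hm ht1 htr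
  have hr8 : rh c t ≤ 1 / 8 := hrm.trans (min_le_left _ _)
  have hrρ : rh c t ≤ ρ₁ := hrm.trans (min_le_right _ _)
  have hζ := addP (addP hζa hζb) hζd
  have hUa : U4 f t ζa (N + K) B := U4_mono hTwG hf hζa hζ (fun z => by
    have h2 := hζb.nonneg z
    have h3 := hζd.nonneg z
    linarith) hU
  have hUb : U4 f t ζb (N + K) B := U4_mono hTwG hf hζb hζ (fun z => by
    have h2 := hζa.nonneg z
    have h3 := hζd.nonneg z
    linarith) hU
  have hUd : U4 f t ζd (N + K) B := U4_mono hTwG hf hζd hζ (fun z => by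
    have h2 := hζa.nonneg z
    have h3 := hζb.nonneg z
    linarith) hU
  have hKer : Ker Ck (3 * rh c t) (kf (rh c t)) := hkf _ hr hr8
  -- the function `Spl`
  have hSc : ContinuousOn (Spl f t N b) H0 := by
    unfold Spl
    exact continuousOn_finsetSum _ fun n _ =>
      continuousOn_const.mul ((contOn hTwG hf n).norm.pow 2)
  have hS0 : ∀ z, 0 ≤ Spl f t N b z := fun z =>
    Finset.sum_nonneg fun n _ => mul_nonneg (sq_nonneg _) (sq_nonneg _)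
  have hPP := hP' (rh c t) hr hr8 (Spl f t N b) hSc hS0
  have hV1 := hA l f t N b hD hta' B hB0 hUa (kf (rh c t)) hKer
  have hV2 := hB l f t N b hD htb' B hB0 hUb (kf (rh c t)) hKer
  have hX : ∫ z : ℂ, φ z * (Pl.Ed (rh c t) (Spl f t N b) z) ^ 2 ≤
      2 * (Da + Cp * Db) * (1 + t ^ (-(c / 800)) * B) := by
    refine fin_alg hc ht1 hB0 hDa hDb hCp hr.le (hr8.trans (by norm_num)) (hPP.trans ?_)
    exact add_le_add hV1 (mul_le_mul_right hV2 _)
  have hY := hDd v l f t N b hD htd' B hB0 hUd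
  -- integrability
  have hfc : ContinuousOn (fun w => ext f w ^ 2) H0 := by
    have h2 : (fun w => ext f w ^ 2) = fun w => ‖Gf f t 0 w‖ ^ 2 := by
      funext w
      rw [(hTwG f t hf 0).2.2.2.2.1 w, Complex.norm_real, Real.norm_eq_abs, sq_abs]
    rw [h2]
    exact (contOn hTwG hf 0).norm.pow 2
  have hcut : ∀ F : ℂ → ℝ, ∀ z ∈ tsupport φ, Pl.Ed (rh c t) F z =
      Pl.Ed (rh c t) (fun w => χ w * F w) z := by
    intro F z hz
    refine Pl.Ed_congr fun u hu => ?_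
    rw [h1 _ (hdisc _ hr hrρ z hz u hu), one_mul]
  have hcE : ∀ F : ℂ → ℝ, ContinuousOn F H0 →
      Continuous (Pl.Ed (rh c t) (fun w => χ w * F w)) := fun F hF =>
    Pl.continuous_Ed (contMul hχ hF) _
  have hc1 := hcE _ hfc
  have hc2 := hcE _ hSc
  have key : ∀ z, φ z * (Pl.Ed (rh c t) (fun w => ext f w ^ 2) z) ^ 2 ≤
      2 * (φ z * (Pl.Ed (rh c t) (Spl f t N b) z) ^ 2) +
      2 * (φ z * (Pl.Ed (rh c t) (fun w => ext f w ^ 2) z - Pl.Ed (rh c t) (Spl f t N b) z) ^ 2) := by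
    intro z
    have h2 := hφ.nonneg z
    nlinarith [mul_nonneg h2 (sq_nonneg (Pl.Ed (rh c t) (fun w => ext f w ^ 2) z -
      2 * Pl.Ed (rh c t) (Spl f t N b) z))]
  have i2 : Integrable fun z => φ z * (Pl.Ed (rh c t) (Spl f t N b) z) ^ 2 := by
    refine (Rel.integrable_testR hφ.test (hc2.pow 2)).congr (Eventually.of_forall fun z => ?_)
    by_cases hz : z ∈ tsupport φ
    · have e1 := hcut (fun w => ext f w ^ 2) z hz
      have e2 := hcut (Spl f t N b) z hz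
      simp only [e2, Pi.pow_apply]
    · have : φ z = 0 := image_eq_zero_of_notMem_tsupport hz
      simp only [this, zero_mul]
  have i3 : Integrable fun z => φ z * (Pl.Ed (rh c t) (fun w => ext f w ^ 2) z -
      Pl.Ed (rh c t) (Spl f t N b) z) ^ 2 := by
    refine (Rel.integrable_testR hφ.test ((hc1.sub hc2).pow 2)).congr
      (Eventually.of_forall fun z => ?_)
    by_cases hz : z ∈ tsupport φ
    · have e1 := hcut (fun w => ext f w ^ 2) z hz
      have e2 := hcut (Spl f t N b) z hz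
      simp only [e1, e2, Pi.pow_apply, Pi.sub_apply]
    · have : φ z = 0 := image_eq_zero_of_notMem_tsupport hz
      simp only [this, zero_mul]
  have i1 : Integrable fun z => φ z * (Pl.Ed (rh c t) (fun w => ext f w ^ 2) z) ^ 2 := by
    refine (Rel.integrable_testR hφ.test (hc1.pow 2)).congr (Eventually.of_forall fun z => ?_)
    by_cases hz : z ∈ tsupport φ
    · have e1 := hcut (fun w => ext f w ^ 2) z hz
      have e2 := hcut (Spl f t N b) z hz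
      simp only [e1, Pi.pow_apply]
    · have : φ z = 0 := image_eq_zero_of_notMem_tsupport hz
      simp only [this, zero_mul]
  have hmono := integral_mono i1 ((i2.const_mul 2).add (i3.const_mul 2)) key
  have hadd : ∫ z : ℂ, (2 * (φ z * (Pl.Ed (rh c t) (Spl f t N b) z) ^ 2) +
      2 * (φ z * (Pl.Ed (rh c t) (fun w => ext f w ^ 2) z - Pl.Ed (rh c t) (Spl f t N b) z) ^ 2)) =
      2 * (∫ z : ℂ, φ z * (Pl.Ed (rh c t) (Spl f t N b) z) ^ 2) +
      2 * ∫ z : ℂ, φ z * (Pl.Ed (rh c t) (fun w => ext f w ^ 2) z -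
        Pl.Ed (rh c t) (Spl f t N b) z) ^ 2 := by
    rw [integral_add (i2.const_mul 2) (i3.const_mul 2), integral_const_mul, integral_const_mul]
  have hmono2 := hmono.trans (le_of_eq hadd)
  have hq : 0 ≤ t ^ (-(c / 800)) * B := by positivity
  nlinarith [mul_nonneg hCd hq]

end

end Pool.Agent.A54.Hp
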