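import Pool.Agent.Lib.MP_a54f13_nt.Hp.SpecM

/-!
# Package `Hp`, module Bt: the small tubes
-/

set_option autoImplicit false

namespace Pool.Agent.A54.Hp

open MeasureTheory Filter Topology Set
open scoped ContDiff ComplexConjugate UpperHalfPlane MatrixGroups ENNReal
open Pool.Agent.A54.Dyn (G fl base ze io mk4 dom)
open Pool.Agent.A54.Av (Mat NonSc)

noncomputable section

namespace BtM

open Pool.Agent.A54.Dyn

/-- entries of elements of the small tube -/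
lemma bnd {c w : ℝ} (hc0 : 0 < c) (hc : c ≤ 1 / 2) (hw : w ≤ 1) {β : G}
    (h : β ∈ bt c (c * w)) :
    |β 0 0 - 1| ≤ c ∧ |β 0 1| ≤ c * w ∧ |β 1 0| ≤ c * w ∧ |β 1 1 - 1| ≤ 4 * c := by
  obtain ⟨h1, h2, h3⟩ := h
  refine ⟨h1.le, h2.le, h3.le, ?_⟩
  have hcw : c * w ≤ c := by nlinarith
  have h4 : |β 0 1 * β 1 0| ≤ c / 2 := by
    rw [abs_mul]
    have h5 : |β 0 1| ≤ c := h2.le.trans hcw
    have h6 : |β 1 0| ≤ 1 / 2 := (h3.le.trans hcw).trans hc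
    have h7 := mul_le_mul h5 h6 (abs_nonneg _) hc0.le
    linarith
  have hd := det_eq β
  have h5 : 1 / 2 ≤ β 0 0 := by
    have := (abs_lt.mp h1).1
    linarith
  have h6 : β 0 0 * (β 1 1 - 1) = β 0 1 * β 1 0 - (β 0 0 - 1) := by linarith
  have h7 : |β 0 0 * (β 1 1 - 1)| ≤ 3 / 2 * c := by
    rw [h6]
    refine (abs_sub _ _).trans ?_
    linarith [h1.le]
  rw [abs_mul, abs_of_pos (by linarith : (0 : ℝ) < β 0 0)] at h7
  have h8 : 1 / 2 * |β 1 1 - 1| ≤ β 0 0 * |β 1 1 - 1| :=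
    mul_le_mul_of_nonneg_right h5 (abs_nonneg _)
  linarith

lemma abs3 {a b c A B C : ℝ} (ha : |a| ≤ A) (hb : |b| ≤ B) (hc : |c| ≤ C) : |a + b + c| ≤ A + B + C := by
  have h1 := abs_add_le (a + b) c
  have h2 := abs_add_le a b
  linarith

lemma mulb {a b A B : ℝ} (ha : |a| ≤ A) (hb : |b| ≤ B) : |a * b| ≤ A * B := by
  rw [abs_mul]
  exact mul_le_mul ha hb (abs_nonneg _) ((abs_nonneg _).trans ha)

/-- change of the geodesic -/
lemma dif {u δ : G} {R K : ℝ} (hu : u ∈ Om R) (h1 : |δ 0 0 * δ 0 1| ≤ K)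
    (h2 : |δ 0 1 * δ 1 0| ≤ K) (h3 : |δ 1 0 * δ 1 1| ≤ K) (i : Fin 3) :
    |xi (u * δ) i - xi u i| ≤ 8 * (R * R) * K := by
  have hR : 0 ≤ R := (abs_nonneg _).trans (hu 0 0)
  have hK : 0 ≤ K := (abs_nonneg _).trans h1
  have hd := det_eq δ
  have hp : δ 0 0 * δ 1 1 = 1 + δ 0 1 * δ 1 0 := by linarith
  have e : ∀ {x y : ℝ}, |x| ≤ R → |y| ≤ R → |x * y| ≤ R * R := fun hx hy => mulb hx hy
  have hRK : 0 ≤ R * R * K := by positivity
  fin_cases i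
  · show |((u * δ) 0 0 * (u * δ) 1 1 + (u * δ) 0 1 * (u * δ) 1 0) - (u 0 0 * u 1 1 + u 0 1 * u 1 0)| ≤ _
    rw [mul_00, mul_01, mul_10, mul_11]
    have h4 : (u 0 0 * δ 0 0 + u 0 1 * δ 1 0) * (u 1 0 * δ 0 1 + u 1 1 * δ 1 1) +
        (u 0 0 * δ 0 1 + u 0 1 * δ 1 1) * (u 1 0 * δ 0 0 + u 1 1 * δ 1 0) -
        (u 0 0 * u 1 1 + u 0 1 * u 1 0) =
        2 * ((u 0 0 * u 1 0) * (δ 0 0 * δ 0 1)) +
          2 * ((u 0 0 * u 1 1) * (δ 0 1 * δ 1 0) + (u 0 1 * u 1 0) * (δ 0 1 * δ 1 0)) +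
          2 * ((u 0 1 * u 1 1) * (δ 1 0 * δ 1 1)) := by
      linear_combination (u 0 0 * u 1 1 + u 0 1 * u 1 0) * hp
    rw [h4]
    have a1 := mulb (e (hu 0 0) (hu 1 0)) h1
    have a2 := mulb (e (hu 0 0) (hu 1 1)) h2
    have a3 := mulb (e (hu 0 1) (hu 1 0)) h2
    have a4 := mulb (e (hu 0 1) (hu 1 1)) h3
    rw [abs_le] at *
    constructor <;> linarith [a1.1, a1.2, a2.1, a2.2, a3.1, a3.2, a4.1, a4.2]
  · show |(-((u * δ) 0 0 * (u * δ) 0 1)) - (-(u 0 0 * u 0 1))| ≤ _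
    rw [mul_00, mul_01]
    have h4 : -((u 0 0 * δ 0 0 + u 0 1 * δ 1 0) * (u 0 0 * δ 0 1 + u 0 1 * δ 1 1)) -
        -(u 0 0 * u 0 1) =
        -((u 0 0 * u 0 0) * (δ 0 0 * δ 0 1)) - 2 * ((u 0 0 * u 0 1) * (δ 0 1 * δ 1 0)) -
          (u 0 1 * u 0 1) * (δ 1 0 * δ 1 1) := by
      linear_combination (-(u 0 0 * u 0 1)) * hp
    rw [h4]
    have a1 := mulb (e (hu 0 0) (hu 0 0)) h1
    have a2 := mulb (e (hu 0 0) (hu 0 1)) h2
    have a4 := mulb (e (hu 0 1) (hu 0 1)) h3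
    rw [abs_le] at *
    constructor <;> linarith [a1.1, a1.2, a2.1, a2.2, a4.1, a4.2]
  · show |((u * δ) 1 0 * (u * δ) 1 1) - (u 1 0 * u 1 1)| ≤ _
    rw [mul_10, mul_11]
    have h4 : (u 1 0 * δ 0 0 + u 1 1 * δ 1 0) * (u 1 0 * δ 0 1 + u 1 1 * δ 1 1) -
        u 1 0 * u 1 1 =
        (u 1 0 * u 1 0) * (δ 0 0 * δ 0 1) + 2 * ((u 1 0 * u 1 1) * (δ 0 1 * δ 1 0)) +
          (u 1 1 * u 1 1) * (δ 1 0 * δ 1 1) := by
      linear_combination (u 1 0 * u 1 1) * hp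
    rw [h4]
    have a1 := mulb (e (hu 1 0) (hu 1 0)) h1
    have a2 := mulb (e (hu 1 0) (hu 1 1)) h2
    have a4 := mulb (e (hu 1 1) (hu 1 1)) h3
    rw [abs_le] at *
    constructor <;> linarith [a1.1, a1.2, a2.1, a2.2, a4.1, a4.2]

lemma le2 {x c : ℝ} (h : |x - 1| ≤ c) : |x| ≤ 1 + c := by
  have h1 := abs_add_le (x - 1) 1
  rw [sub_add_cancel, abs_one] at h1
  linarith

/-- the entries of `β⁻¹ β'` -/
lemma ent {c w : ℝ} (hc0 : 0 < c) (hc : c ≤ 1 / 2) (hw0 : 0 < w) (hw : w ≤ 1) {β β' : G}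
    (h : β ∈ bt c (c * w)) (h' : β' ∈ bt c (c * w)) :
    |(β⁻¹ * β') 0 0 - 1| ≤ 10 * c ∧ |(β⁻¹ * β') 0 1| ≤ 6 * c * w ∧ |(β⁻¹ * β') 1 0| ≤ 6 * c * w ∧
      |(β⁻¹ * β') 1 1 - 1| ≤ 10 * c := by
  obtain ⟨h1, h2, h3, h4⟩ := bnd hc0 hc hw h
  obtain ⟨k1, k2, k3, k4⟩ := bnd hc0 hc hw h'
  have hcw : c * w ≤ c := by nlinarith
  have hcw0 : 0 ≤ c * w := by positivity
  have g1 : |β 0 0| ≤ 3 / 2 := (le2 h1).trans (by linarith)
  have g2 : |β 1 1| ≤ 3 := (le2 h4).trans (by linarith)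
  have g3 : |β' 0 0| ≤ 3 / 2 := (le2 k1).trans (by linarith)
  have g4 : |β' 1 1| ≤ 3 := (le2 k4).trans (by linarith)
  have g5 : |β 0 1| ≤ 1 / 2 := (h2.trans hcw).trans hc
  have g6 : |β 1 0| ≤ 1 / 2 := (h3.trans hcw).trans hc
  refine ⟨?_, ?_, ?_, ?_⟩
  · rw [mul_00, inv_00, inv_01]
    have e1 : β 1 1 * β' 0 0 + -β 0 1 * β' 1 0 - 1 =
        (β 1 1 - 1) * β' 0 0 + (β' 0 0 - 1) + (-(β 0 1 * β' 1 0)) := by ring
    rw [e1]
    have a3 : |-(β 0 1 * β' 1 0)| ≤ 1 / 2 * c := by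
      rw [abs_neg]; exact mulb g5 (k3.trans hcw)
    have := abs3 (mulb h4 g3) k1 a3
    linarith
  · rw [mul_01, inv_00, inv_01]
    have a1 := mulb g2 k2
    have a2 := mulb h2 g4
    rw [abs_le] at *
    constructor <;> linarith [a1.1, a1.2, a2.1, a2.2]
  · rw [mul_10, inv_10, inv_11]
    have a1 := mulb h3 g3
    have a2 := mulb g1 k3
    rw [abs_le] at *
    constructor <;> linarith [a1.1, a1.2, a2.1, a2.2]
  · rw [mul_11, inv_10, inv_11]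
    have e1 : -β 1 0 * β' 0 1 + β 0 0 * β' 1 1 - 1 =
        (β 0 0 - 1) + β 0 0 * (β' 1 1 - 1) + (-(β 1 0 * β' 0 1)) := by ring
    rw [e1]
    have a3 : |-(β 1 0 * β' 0 1)| ≤ 1 / 2 * c := by
      rw [abs_neg]; exact mulb g6 (k2.trans hcw)
    have := abs3 h1 (mulb g1 k4) a3
    linarith

lemma one_mem {c w : ℝ} (hc0 : 0 < c) (hw0 : 0 < w) : (1 : G) ∈ bt c (c * w) := by
  have h : 0 < c * w := by positivity
  refine ⟨?_, ?_, ?_⟩
  · show |(1 : Matrix (Fin 2) (Fin 2) ℝ) 0 0 - 1| < c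
    simpa using hc0
  · show |(1 : Matrix (Fin 2) (Fin 2) ℝ) 0 1| < c * w
    simpa using h
  · show |(1 : Matrix (Fin 2) (Fin 2) ℝ) 1 0| < c * w
    simpa using h

/-- small changes of the geodesic -/
lemma mv {R c w : ℝ} (hR : 1 ≤ R) (hc0 : 0 < c) (hc : c ≤ 1 / 2) (hcR : 864 * (R * R) * c ≤ 1)
    (hw0 : 0 < w) (hw : w ≤ 1) {β β' : G}
    (h : β ∈ bt c (c * w)) (h' : β' ∈ bt c (c * w)) {u : G} (hu : u ∈ Om R) (i : Fin 3) :
    |xi (u * (β⁻¹ * β')) i - xi u i| ≤ w := by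
  obtain ⟨h1, h2, h3, h4⟩ := ent hc0 hc hw0 hw h h'
  have hcw0 : 0 ≤ c * w := by positivity
  have g1 : |(β⁻¹ * β') 0 0| ≤ 6 := (le2 h1).trans (by linarith)
  have g2 : |(β⁻¹ * β') 1 1| ≤ 6 := (le2 h4).trans (by linarith)
  have g3 : |(β⁻¹ * β') 0 1| ≤ 6 := h2.trans (by nlinarith)
  have a1 := mulb g1 h2
  have a2 := mulb g3 h3
  have a3 := mulb h3 g2
  have := dif (u := u) (δ := β⁻¹ * β') (R := R) (K := 36 * c * w) hu (by linarith) (by linarith)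
    (by linarith) i
  have e : 8 * (R * R) * (36 * c * w) ≤ w := by
    have h5 : 8 * (R * R) * (36 * c * w) = (288 * (R * R) * c) * w := by ring
    rw [h5]
    have hR0 : 0 ≤ R := by linarith
    have h7 : 0 ≤ R * R * c := by positivity
    have h6 : 288 * (R * R) * c ≤ 1 := by linarith
    have h8 := mul_le_mul_of_nonneg_right h6 hw0.le
    linarith
  linarith

end BtM

open BtM Pool.Agent.A54.Dyn in
theorem stmtBt : StmtBt := by
  intro R c₁ hR hc₁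
  have hRR : 1 ≤ R * R := by nlinarith
  set c : ℝ := min (1 / (864 * (R * R))) (c₁ / 10) with hcdef
  have hc0 : 0 < c := lt_min (by positivity) (by positivity)
  have hcR : 864 * (R * R) * c ≤ 1 := by
    have h1 : c ≤ 1 / (864 * (R * R)) := min_le_left _ _
    have h2 : 864 * (R * R) * c ≤ 864 * (R * R) * (1 / (864 * (R * R))) :=
      mul_le_mul_of_nonneg_left h1 (by positivity)
    rwa [mul_one_div_cancel (by positivity)] at h2
  have hc10 : 10 * c ≤ c₁ := by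
    have h1 : c ≤ c₁ / 10 := min_le_right _ _
    linarith
  have hc : c ≤ 1 / 2 := by nlinarith
  refine ⟨c, hc0, hc, fun w hw0 hw => ?_⟩
  refine ⟨fun β hβ β' hβ' => ⟨?_, fun u hu i => mv hR hc0 hc hcR hw0 hw hβ hβ' hu i⟩, ?_, ?_⟩
  · obtain ⟨h1, h2, h3, h4⟩ := ent hc0 hc hw0 hw hβ hβ'
    have hcw : c * w ≤ c := by nlinarith
    intro i j
    fin_cases i <;> fin_cases j
    · show |(β⁻¹ * β') 0 0 - (1 : Matrix (Fin 2) (Fin 2) ℝ) 0 0| ≤ c₁
      rw [Matrix.one_apply_eq]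
      linarith
    · show |(β⁻¹ * β') 0 1 - (1 : Matrix (Fin 2) (Fin 2) ℝ) 0 1| ≤ c₁
      rw [Matrix.one_apply_ne (by decide), sub_zero]
      linarith
    · show |(β⁻¹ * β') 1 0 - (1 : Matrix (Fin 2) (Fin 2) ℝ) 1 0| ≤ c₁
      rw [Matrix.one_apply_ne (by decide), sub_zero]
      linarith
    · show |(β⁻¹ * β') 1 1 - (1 : Matrix (Fin 2) (Fin 2) ℝ) 1 1| ≤ c₁
      rw [Matrix.one_apply_eq]
      linarith
  · intro U hU
    have key : ∀ x β : G, x * β * (β⁻¹ * 1) = x := fun x β => by group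
    constructor
    · rintro x ⟨β, hβ, hx⟩ i j
      have hu := hU hx
      obtain ⟨h1, h2, h3, h4⟩ := bnd hc0 hc hw hβ
      have hcw : c * w ≤ c := by nlinarith
      have g1 : |β 0 0| ≤ 3 := (le2 h1).trans (by linarith)
      have g2 : |β 1 1| ≤ 3 := (le2 h4).trans (by linarith)
      have g5 : |β 0 1| ≤ 3 := (h2.trans hcw).trans (by linarith)
      have g6 : |β 1 0| ≤ 3 := (h3.trans hcw).trans (by linarith)
      have ex : x = x * β * β⁻¹ := by group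
      have hR0 : 0 ≤ R := by linarith
      rw [ex]
      fin_cases i <;> fin_cases j
      · show |(x * β * β⁻¹) 0 0| ≤ 8 * R
        rw [mul_00, inv_00, inv_10]
        have a1 := mulb (hu 0 0) g2
        have a2 := mulb (hu 0 1) g6
        rw [abs_le] at *
        constructor <;> linarith [a1.1, a1.2, a2.1, a2.2]
      · show |(x * β * β⁻¹) 0 1| ≤ 8 * R
        rw [mul_01, inv_01, inv_11]
        have a1 := mulb (hu 0 0) g5
        have a2 := mulb (hu 0 1) g1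
        rw [abs_le] at *
        constructor <;> linarith [a1.1, a1.2, a2.1, a2.2]
      · show |(x * β * β⁻¹) 1 0| ≤ 8 * R
        rw [mul_10, inv_00, inv_10]
        have a1 := mulb (hu 1 0) g2
        have a2 := mulb (hu 1 1) g6
        rw [abs_le] at *
        constructor <;> linarith [a1.1, a1.2, a2.1, a2.2]
      · show |(x * β * β⁻¹) 1 1| ≤ 8 * R
        rw [mul_11, inv_01, inv_11]
        have a1 := mulb (hu 1 0) g5
        have a2 := mulb (hu 1 1) g1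
        rw [abs_le] at *
        constructor <;> linarith [a1.1, a1.2, a2.1, a2.2]
    · rintro x ⟨β, hβ, hx⟩
      refine ⟨x * β, hx, fun i => ?_⟩
      have h1 := mv hR hc0 hc hcR hw0 hw hβ (one_mem hc0 hw0) (hU hx) i
      rwa [key x β] at h1
  · have e : bt c (c * w) = {g : G | |g 0 0 - 1| < c} ∩ ({g : G | |g 0 1| < c * w} ∩
        {g : G | |g 1 0| < c * w}) := rfl
    rw [e]
    refine (isOpen_lt ?_ continuous_const).inter ((isOpen_lt ?_ continuous_const).inter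
      (isOpen_lt ?_ continuous_const))
    · exact ((continuous_entry 0 0).sub continuous_const).abs
    · exact (continuous_entry 0 1).abs
    · exact (continuous_entry 1 0).abs

end

end Pool.Agent.A54.Hp
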