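import Pool.Agent.Lib.MP_a54f13_nt.Hp.SpecM

/-!
# Package `Hp`, part M: Cauchy–Schwarz on tubes
-/

set_option autoImplicit false

namespace Pool.Agent.A54.Hp

open MeasureTheory Filter Topology Set
open scoped ContDiff ComplexConjugate UpperHalfPlane MatrixGroups ENNReal
open Pool.Agent.A54.Dyn (G)

noncomputable section

namespace CSM

/-- the cut off absolute value -/
def ff (Φ : G → ℂ) (U : Set G) (x : G) : ℝ≥0∞ := U.indicator (fun x => ‖Φ x‖ₑ) x

lemma ff_meas (Φ : G → ℂ) (hΦ : Continuous Φ) (U : Set G) (hU : MeasurableSet U) :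
    Measurable (ff Φ U) := (hΦ.enorm.measurable).indicator hU

lemma ff_sq (Φ : G → ℂ) (U : Set G) (x : G) :
    ff Φ U x ^ 2 = U.indicator (fun x => ‖Φ x‖ₑ ^ 2) x := by
  unfold ff
  by_cases hx : x ∈ U
  · rw [indicator_of_mem hx, indicator_of_mem hx]
  · rw [indicator_of_notMem hx, indicator_of_notMem hx]
    simp

lemma inner_sq [nu.IsMulLeftInvariant] (Φ : G → ℂ) (U b : Set G)
    (hU : MeasurableSet U) (hb : IsOpen b) (x : G) :
    ∫⁻ β in b, ff Φ U (x * β) ^ 2 ∂nu = ms Φ (U ∩ {g | x⁻¹ * g ∈ b}) := by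
  rw [← lintegral_indicator hb.measurableSet]
  have hb' : MeasurableSet {g : G | x⁻¹ * g ∈ b} :=
    (hb.preimage (continuous_const.mul continuous_id)).measurableSet
  have h1 : ∀ β : G, b.indicator (fun β => ff Φ U (x * β) ^ 2) β =
      (fun g => (U ∩ {g | x⁻¹ * g ∈ b}).indicator (fun x => ‖Φ x‖ₑ ^ 2) g) (x * β) := by
    intro β
    simp only
    rw [inter_comm, ← indicator_indicator]
    by_cases hβ : β ∈ b
    · rw [indicator_of_mem hβ, indicator_of_mem (by simpa using hβ), ff_sq]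
    · rw [indicator_of_notMem hβ, indicator_of_notMem (by simpa using hβ)]
  rw [lintegral_congr h1, lintegral_mul_left_eq_self, lintegral_indicator (hU.inter hb')]
  rfl

lemma cs (f g : G → ℝ≥0∞) (hf : Measurable f) (hg : Measurable g) (μ : Measure G) (A : ℝ≥0∞)
    (h1 : ∫⁻ x, f x ^ 2 ∂μ ≤ A) (h2 : ∫⁻ x, g x ^ 2 ∂μ ≤ A) : ∫⁻ x, f x * g x ∂μ ≤ A := by
  have h3 := ENNReal.lintegral_mul_le_Lp_mul_Lq μ (p := 2) (q := 2) Real.HolderConjugate.two_two
    hf.aemeasurable hg.aemeasurable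
  have h4 : ∀ f : G → ℝ≥0∞, ∫⁻ x, f x ^ (2 : ℝ) ∂μ = ∫⁻ x, f x ^ 2 ∂μ := by
    intro f
    refine lintegral_congr fun x => ?_
    rw [← ENNReal.rpow_natCast]
    norm_num
  rw [h4, h4] at h3
  refine h3.trans ?_
  calc (∫⁻ x, f x ^ 2 ∂μ) ^ (1 / 2 : ℝ) * (∫⁻ x, g x ^ 2 ∂μ) ^ (1 / 2 : ℝ) ≤
      A ^ (1 / 2 : ℝ) * A ^ (1 / 2 : ℝ) :=
        mul_le_mul' (ENNReal.rpow_le_rpow h1 (by norm_num)) (ENNReal.rpow_le_rpow h2 (by norm_num))
    _ = A := by
        rw [← ENNReal.rpow_add_of_nonneg _ _ (by norm_num) (by norm_num)]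
        norm_num

end CSM

open CSM

theorem stmtCS (hL : StmtNuL) (hR : StmtNuR) : StmtCS := by
  obtain ⟨i1, i2, i3, -, -⟩ := hL
  obtain ⟨i4, -⟩ := hR
  intro Φ hΦ U b hU hb A hA h
  have hf := ff_meas Φ hΦ U hU
  have hW : IsOpen {x | x ∈ Vb U b ∧ h * x ∈ Vb U b} := by
    have hV : IsOpen (Vb U b) := by
      have : Vb U b = ⋃ u ∈ U, {x : G | x⁻¹ * u ∈ b} := by
        ext x
        simp only [Vb, mem_ofPred_eq, mem_iUnion, exists_prop]
        constructor
        · rintro ⟨β, hβ, h1⟩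
          exact ⟨x * β, h1, by simpa using hβ⟩
        · rintro ⟨u, hu, h1⟩
          exact ⟨x⁻¹ * u, h1, by simpa using hu⟩
      rw [this]
      exact isOpen_biUnion fun u _ => hb.preimage (continuous_inv.mul continuous_const)
    exact hV.inter (hV.preimage (continuous_const.mul continuous_id))
  have h1 : ∀ β : G, Dd Φ U h = ∫⁻ x, ff Φ U (x * β) * ff Φ U (h * (x * β)) ∂nu := by
    intro β
    rw [lintegral_mul_right_eq_self (fun x => ff Φ U x * ff Φ U (h * x)) β]
    rfl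
  have h2 : nu b * Dd Φ U h = ∫⁻ β in b, ∫⁻ x, ff Φ U (x * β) * ff Φ U (h * (x * β)) ∂nu ∂nu := by
    have h3 : ∫⁻ β in b, ∫⁻ x, ff Φ U (x * β) * ff Φ U (h * (x * β)) ∂nu ∂nu =
        ∫⁻ _ in b, Dd Φ U h ∂nu := lintegral_congr fun β => (h1 β).symm
    rw [h3, setLIntegral_const, mul_comm]
  have hm : Measurable (Function.uncurry fun (β x : G) => ff Φ U (x * β) * ff Φ U (h * (x * β))) := by
    unfold Function.uncurry
    exact (hf.comp (measurable_snd.mul measurable_fst)).mul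
      (hf.comp (measurable_const.mul (measurable_snd.mul measurable_fst)))
  rw [h2, lintegral_lintegral_swap hm.aemeasurable, ← lintegral_indicator_const hW.measurableSet]
  refine lintegral_mono fun x => ?_
  by_cases hx : x ∈ {x | x ∈ Vb U b ∧ h * x ∈ Vb U b}
  · rw [indicator_of_mem hx]
    refine cs (fun β => ff Φ U (x * β)) (fun β => ff Φ U (h * (x * β)))
      (hf.comp (measurable_const.mul measurable_id))
      (hf.comp (measurable_const.mul (measurable_const.mul measurable_id))) _ A ?_ ?_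
    · rw [inner_sq Φ U b hU hb x]
      exact hA x
    · have h5 : ∀ β : G, ff Φ U (h * (x * β)) ^ 2 = ff Φ U (h * x * β) ^ 2 := fun β => by
        rw [mul_assoc]
      rw [lintegral_congr h5, inner_sq Φ U b hU hb (h * x)]
      exact hA (h * x)
  · rw [indicator_of_notMem hx, nonpos_iff_eq_zero]
    rw [← lintegral_indicator hb.measurableSet]
    refine (lintegral_congr fun β => ?_).trans lintegral_zero
    by_cases hβ : β ∈ b
    · rw [indicator_of_mem hβ]
      rcases not_and_or.1 hx with h6 | h6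
      · have h7 : x * β ∉ U := fun h8 => h6 ⟨β, hβ, h8⟩
        simp [ff, indicator_of_notMem h7]
      · have h7 : h * (x * β) ∉ U := fun h8 => h6 ⟨β, hβ, by rwa [mul_assoc]⟩
        simp [ff, indicator_of_notMem h7]
    · rw [indicator_of_notMem hβ]

end

end Pool.Agent.A54.Hp
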