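import Pool.Agent.Lib.MP_a54f13_nt.Hp.SpecL
import Pool.Agent.Lib.MP_a54f13_nt.Ef.SpecS

/-!
# Package `Hp`, part U: the cusp

Architect: helper39 (after helper86's idea in note 4610: Soundararajan's theorem for all cuspidal Hecke eigenfunctions on the group, applied to
`Φ(· fl(-s))`). Conventions as in `Hp/SpecM.lean`: file `Pool/Agent/Lib/MP_a54f13_nt/Hp/<Name>.lean` importing
`Pool.Agent.Lib.MP_a54f13_nt.Hp.SpecU`, private names in `namespace Pool.Agent.A54.Hp.<Name>M`, final theorem `stmt<Name> : Stmt<Name>`, the used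
statements are hypotheses. Model for the Fourier analysis: `Ef/Cus.lean` (`CusM.pars`, `CusM.lint_gen`), `Ef/HkR.lean`, `Av/Fo1.lean`.
-/

set_option autoImplicit false

namespace Pool.Agent.A54.Hp

open MeasureTheory Filter Topology Set
open scoped ContDiff ComplexConjugate UpperHalfPlane MatrixGroups ENNReal
open Pool.Agent.A54.Dyn (G fl base ze io mk4 dom)
open Pool.Agent.A54.Dyn.LiftM (Sct XC XX cc rot m0)
open Pool.Agent.A54.Av (Mat NonSc)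

noncomputable section

/-- unipotent elements -/
def un (x : ℝ) : G := mk4 1 x 0 1 (by norm_num)

/-- cuspidal functions -/
def Csp (Φ : G → ℂ) : Prop := ∀ g : G, ∫ x in (0 : ℝ)..1, Φ (mk4 1 x 0 1 (by norm_num) * g) = 0

/-- the diagonal element with `base (ay y) = i y` (for `y > 0`: `ay y = fl (log y)`) -/
def ay (y : ℝ) : G := fl (Real.log y)

/-- the `m`-th Fourier coefficient at `g` -/
def Fc (Φ : G → ℂ) (m : ℤ) (g : G) : ℂ :=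
  ∫ x in (0 : ℝ)..1, Φ (un x * g) * Complex.exp (-(2 * Real.pi * Complex.I * m * x))

/-- **Mul** multiplicative extension. Proof. For a prime `p` let `U p 0 = 1`, `U p 1 = l p`, `U p (a+2) = l p * U p (a+1) - U p a`, and `lam n = ∏_{p ∈ n.primeFactors} U p (n.factorization p)`
(`lam 0 = 0` or anything). `rel`: `n = p^a m`, `p ∤ m`: `lam (p^a m) = U p a · lam m` (`Nat.factorization_mul` for coprime factors, or `Nat.Coprime` product), and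
`l p U p a = U p (a+1) + [a ≥ 1] U p (a-1)`. -/
def StmtMul : Prop := ∀ l : ℕ → ℝ, ∃ lam : ℕ → ℝ, Ef.HMul lam ∧ ∀ p : ℕ, p.Prime → lam p = l p

/-- **FcH** Hecke relations for the Fourier coefficients. Proof. `h(x) = Φ (un x * ay y * rot k)` is continuous and `1`-periodic (`inv` for `γ = (1,1;0,1)`, `un (x+1) = io γ * un x`).
Entries: `nm (p,0;0,1) * un x * ay y = un (p x) * ay (p y)` and `nm (1,b;0,p) * un x * ay y = un ((x+b)/p) * ay (y/p)` (`ay (y z) = ay y * ay z`; `nm` of an upper triangular matrix). Multiply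
`HE.hecke` at `un x * ay y * rot k` by `e(-m x)` and integrate over `[0,1]`: `√p l(p) a_m(y) = [p ∣ m] a_{m/p}(p y) + p a_{pm}(y/p)` (substitution and periodicity: `∫_0^1 h(px) e(-mx) dx = [p ∣ m] a_{m/p}`;
`∑_b ∫_0^1 h((x+b)/p) e(-mx) dx = p ∫_0^1 h(u) e(-mpu) du`), `a_m(y) = Fc Φ m (ay y * rot k)`. With `py` for `y`: `a_{pm}(y) = p^{-1/2} l(p) a_m(py) - [p ∣ m] p^{-1} a_{m/p}(p² y)`. Strong induction on `n ≥ 1` (write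
`n = p m`): for `σ = ±1`, `a_{σn}(y) = lam(n) n^{-1/2} a_σ(n y)`, using `lam (pm) = l(p) lam(m) - [p ∣ m] lam(m/p)`, `lam 1 = 1`. -/
def StmtFcH : Prop := ∀ (l lam : ℕ → ℝ) (Φ : G → ℂ), HE l Φ → Ef.HMul lam → (∀ p : ℕ, p.Prime → lam p = l p) →
  ∀ (n : ℕ) (σ : ℤ), 1 ≤ n → (σ = 1 ∨ σ = -1) → ∀ (y : ℝ) (k : XC), 0 < y →
    Fc Φ (σ * n) (ay y * rot k) = ((lam n / √n : ℝ) : ℂ) * Fc Φ σ (ay (n * y) * rot k)

/-- **CuM** the mass high in the cusp (uses `Ef.StmtSnd`, `Mul`, `FcH`). Proof. Let `Y ≥ 1`. `nu = m0.map Sct`, `Sct (x + iy, k) = un x * ay y * rot k` (`toSL2R`; for `y > 0`), and `{z ∈ fdo, im z > Y}` is the strip `|x| < 1/2`,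
`y > Y`. Parseval on `[-1/2, 1/2]` (as `CusM.pars`; `Fc Φ 0 = 0` by `Csp`) and `FcH`: the mass is
`∫_k ∫_{y > Y} ∑_{n ≥ 1} ∑_{σ = ±1} (lam(n)²/n) ‖a_σ(n y, k)‖² dy/y² = ∑_σ ∫_k ∫_{u > 0} ‖a_σ(u, k)‖² SF lam (u/Y) du/u²` (`u = n y`, `n < u/Y`; `SF` counts `n ≤ u/Y`, the difference is a null set)
`≤ C Y^{-1/4} ∑_σ ∫_k ∫_u ‖a_σ‖² SF lam u du/u² = C Y^{-1/4} (mass of im > 1) ≤ 2 C Y^{-1/4}` (`HE.norm`). See `Ef/Cus.lean`. -/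
def StmtCuM : Prop := ∃ C : ℝ, 0 ≤ C ∧ ∀ (l : ℕ → ℝ) (Φ : G → ℂ), HE l Φ → Csp Φ → ∀ Y : ℝ, 1 ≤ Y →
  ∫⁻ g in FF ∩ {g | Y < (base g).im}, ‖Φ g‖ₑ ^ 2 ∂nu ≤ ENNReal.ofReal (C * Y ^ (-(1 / 4 : ℝ)))

/-- **FlH** right translates by the flow (uses `NuL`, `NuR`, `Unf`). Proof. Continuity, invariance, the Hecke relation and `Csp` are clear (left against right multiplication). Norm: for a `Γ`-invariant measurable `F ≥ 0` and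
`h ∈ G`, `∫⁻_{FF} F(g h) = ∫⁻ 1_FF(g h⁻¹) F(g)` (right invariance) `= (1/2) ∑_γ ∫⁻_{FF} 1_FF(γ g h⁻¹) F(g)` (`Unf` (1) for `g ↦ 1_FF(g h⁻¹) F(g)`) `= ∫⁻_{FF} F(g)`, because `∑_γ 1_FF(γ g') = 2` for almost
all `g'` (`base g'` outside a null set: `ULM.cnt` or the proof of `Unf`). -/
def StmtFlH : Prop := ∀ (l : ℕ → ℝ) (Φ : G → ℂ), HE l Φ → ∀ s : ℝ, HE l (fun g => Φ (g * fl s)) ∧
  (Csp Φ → Csp (fun g => Φ (g * fl s)))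

/-- **Hgt** height. Proof. `u ∈ ℤ²`, `u ≠ 0`, `u = d u'`, `u'` primitive, `γ ∈ SL(2, ℤ)` with `γ u' = (1, 0)` (`γ⁻¹` has first column `u'`). For `h = io γ * g`: `h⁻¹ (1,0) = g⁻¹ u' = (h₁₁, -h₁₀)`,
`im (base h) = 1/(h₁₀² + h₁₁²)`. With `g = x * fl s`: `g⁻¹ u = (e^{-s/2} p₀, e^{s/2} p₁)`, `p = x⁻¹ u = (x₁₁ u₀ - x₀₁ u₁, -x₁₀ u₀ + x₀₀ u₁)`. If `|p₀| ≤ η`, `|p₁| ≤ K` take `s = -log (K/η)`, in the other case
`s = log (K/η)`: both coordinates are at most `√(η K)`, so `‖g⁻¹ u'‖² ≤ ‖g⁻¹ u‖² ≤ 2 η K`. -/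
def StmtHgt : Prop := ∀ η K : ℝ, 0 < η → η ≤ K → ∀ (x : G) (u : Fin 2 → ℤ), u ≠ 0 →
  (|x 1 1 * u 0 - x 0 1 * u 1| ≤ η → |-(x 1 0) * u 0 + x 0 0 * u 1| ≤ K →
    ∃ γ : SL(2, ℤ), 1 / (2 * (η * K)) ≤ (base (io γ * (x * fl (-Real.log (K / η))))).im) ∧
  (|-(x 1 0) * u 0 + x 0 0 * u 1| ≤ η → |x 1 1 * u 0 - x 0 1 * u 1| ≤ K →
    ∃ γ : SL(2, ℤ), 1 / (2 * (η * K)) ≤ (base (io γ * (x * fl (Real.log (K / η))))).im)

/-- **Zcm** measurability. Proof. A countable union (over `u`) of closed sets, intersected with the closed set `Om R`. -/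
def StmtZcm : Prop := ∀ R a b : ℝ, MeasurableSet {x : G | x ∈ Om R ∧ ∃ u : Fin 2 → ℤ, u ≠ 0 ∧
  |x 1 1 * u 0 - x 0 1 * u 1| ≤ a ∧ |-(x 1 0) * u 0 + x 0 0 * u 1| ≤ b}

/-- **Cst** the mass of a part of a box which is flowed high into the cusp (uses `NuR`, `Unf`, `CuM`, `FlH`). Proof. `Ψ(g) = Φ(g fl(-s))`. Right invariance: `ms Φ A = ∫⁻ 1_A(g fl(-s)) ‖Ψ g‖²` `= (1/2) ∑_γ ∫⁻_{FF} 1_A(γ g fl(-s)) ‖Ψ g‖²` (`Unf`). If
`γ g fl(-s) = x ∈ A` then some `γ'` has `im (base (γ' x fl s)) ≥ Y`, i.e. `im ((γ' γ) • base g) ≥ Y`; as `base g ∈ fdo ⊆ fd`, `im (base g) ≥ Y` (`im (γ • z) ≤ im z` for `z ∈ fd`: `|cz + d| ≥ 1` for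
`(c, d) ≠ 0` integral, see `Pl/U1.lean`), and for a given `g` at most `J(R)` elements `γ` have `γ (g fl(-s)) ∈ Om R` (as in `Tot`). So `ms Φ A ≤ (J/2) ∫⁻_{FF, im ≥ Y} ‖Ψ‖² ≤ C Y^{-1/4}` (`CuM` for `Ψ` with `Y/2`). -/
def StmtCst : Prop := ∀ R : ℝ, 1 ≤ R → ∃ C : ℝ, 0 ≤ C ∧ ∀ (l : ℕ → ℝ) (Φ : G → ℂ), HE l Φ → Csp Φ →
  ∀ (s Y : ℝ) (A : Set G), 2 ≤ Y → MeasurableSet A → A ⊆ Om R →
    (∀ x ∈ A, ∃ γ : SL(2, ℤ), Y ≤ (base (io γ * (x * fl s))).im) →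
      ms Φ A ≤ ENNReal.ofReal (C * Y ^ (-(1 / 4 : ℝ)))

/-- **IsU** the cusp set (uses `Hgt`, `Zcm`, `Cst`). Proof. `Zc R η K` is the union of the sets of `Zcm` with `(a, b) = (η, K)` and `(K, η)`. `Cst` for each, with `Y = 1/(2 η K) ≥ 2` and
`s = ∓ log (K/η)` (`Hgt`): `ms ≤ 2 C (2 η K)^{1/4}`. -/
def StmtIsU : Prop := ∀ R : ℝ, 1 ≤ R → ∃ C : ℝ, 0 ≤ C ∧ ∀ (l : ℕ → ℝ) (Φ : G → ℂ), HE l Φ → Csp Φ →
  ∀ η K : ℝ, 0 < η → η ≤ K → η * K ≤ 1 / 4 → MeasurableSet (Zc R η K) ∧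
    ms Φ (Zc R η K) ≤ ENNReal.ofReal (C * (η * K) ^ (1 / 4 : ℝ))

end

end Pool.Agent.A54.Hp
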