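import Pool.Agent.Lib.MP_a54f13_nt.Hp.Core
import Pool.Agent.Lib.MP_a54f13_nt.Hp.SpecU

/-!
# Package `Hp`: the counting bound for cuspidal Hecke eigenfunctions with one good block in a long range
-/

set_option autoImplicit false

namespace Pool.Agent.A54.Hp

open MeasureTheory Filter Topology Set
open scoped ContDiff ComplexConjugate UpperHalfPlane MatrixGroups ENNReal
open Pool.Agent.A54.Dyn (G fl base ze io mk4 dom)

noncomputable section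

/-- **CoL** -/
theorem coreL (hPL : StmtPL) (hIs : StmtIsU) {K : ℝ} (hK : 1 ≤ K) : CoreC (1 / 1000) (GdK K) := by
  intro R hR
  obtain ⟨w₁, hw₁, _, hP⟩ := hPL K R hK hR
  obtain ⟨C, hC, hI⟩ := hIs R hR
  have hC1 : 0 < C + 1 := by linarith
  refine ⟨min w₁ (min (1 / 256) ((C + 1) ^ (-(80 : ℝ)))), by
    refine lt_min hw₁ (lt_min (by norm_num) (Real.rpow_pos_of_pos hC1 _)), ?_⟩
  intro l Φ hΦ hcu w hw hww hG
  have hw1 : w ≤ w₁ := hww.trans (min_le_left _ _)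
  have hw2 : w ≤ 1 / 256 := hww.trans ((min_le_right _ _).trans (min_le_left _ _))
  have hw3 : w ≤ (C + 1) ^ (-(80 : ℝ)) := hww.trans ((min_le_right _ _).trans (min_le_right _ _))
  have h1 : IsoL R Φ w := by
    intro η K' hη hηK hle
    have h4 : w ^ (1 / 4 : ℝ) ≤ 1 / 4 := by
      calc w ^ (1 / 4 : ℝ) ≤ (1 / 256 : ℝ) ^ (1 / 4 : ℝ) :=
            Real.rpow_le_rpow hw.le hw2 (by norm_num)
        _ = 1 / 4 := by
            rw [show (1 / 256 : ℝ) = (1 / 4) ^ (4 : ℝ) by norm_num, ← Real.rpow_mul (by norm_num)]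
            norm_num
    obtain ⟨hm, hms⟩ := hI l Φ hΦ hcu η K' hη hηK (hle.trans h4)
    refine ⟨hm, hms.trans (ENNReal.ofReal_le_ofReal ?_)⟩
    have hηK0 : 0 ≤ η * K' := mul_nonneg hη.le (hη.le.trans hηK)
    have h5 : (η * K') ^ (1 / 4 : ℝ) ≤ w ^ (1 / 16 : ℝ) := by
      calc (η * K') ^ (1 / 4 : ℝ) ≤ (w ^ (1 / 4 : ℝ)) ^ (1 / 4 : ℝ) :=
            Real.rpow_le_rpow hηK0 hle (by norm_num)
        _ = w ^ (1 / 16 : ℝ) := by
            rw [← Real.rpow_mul hw.le]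
            norm_num
    have h6 : (C + 1) * w ^ (1 / 80 : ℝ) ≤ 1 := by
      have h7 : w ^ (1 / 80 : ℝ) ≤ (C + 1)⁻¹ := by
        calc w ^ (1 / 80 : ℝ) ≤ ((C + 1) ^ (-(80 : ℝ))) ^ (1 / 80 : ℝ) :=
              Real.rpow_le_rpow hw.le hw3 (by norm_num)
          _ = (C + 1)⁻¹ := by
              rw [← Real.rpow_mul hC1.le, show (-(80 : ℝ)) * (1 / 80) = -1 by norm_num,
                Real.rpow_neg_one]
      calc (C + 1) * w ^ (1 / 80 : ℝ) ≤ (C + 1) * (C + 1)⁻¹ :=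
            mul_le_mul_of_nonneg_left h7 hC1.le
        _ = 1 := mul_inv_cancel₀ hC1.ne'
    have h8 : w ^ (1 / 16 : ℝ) = w ^ (1 / 80 : ℝ) * w ^ (1 / 20 : ℝ) := by
      rw [← Real.rpow_add hw]
      norm_num
    have h9 : 0 ≤ w ^ (1 / 20 : ℝ) := Real.rpow_nonneg hw.le _
    have h10 : 0 ≤ w ^ (1 / 16 : ℝ) := Real.rpow_nonneg hw.le _
    calc C * (η * K') ^ (1 / 4 : ℝ) ≤ C * w ^ (1 / 16 : ℝ) := mul_le_mul_of_nonneg_left h5 hC
      _ ≤ (C + 1) * w ^ (1 / 16 : ℝ) := by nlinarith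
      _ = ((C + 1) * w ^ (1 / 80 : ℝ)) * w ^ (1 / 20 : ℝ) := by rw [h8]; ring
      _ ≤ 1 * w ^ (1 / 20 : ℝ) := mul_le_mul_of_nonneg_right h6 h9
      _ = w ^ (1 / 20 : ℝ) := one_mul _
  have h2 := hP l Φ hΦ w hw hw1 h1 hG
  have h3 : (1 + 1 / 1000 : ℝ) = 1001 / 1000 := by norm_num
  rw [h3]
  exact h2

end

end Pool.Agent.A54.Hp
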