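import Pool.Agent.Lib.MP_a54f13_nt.Hp.SpecM

/-!
# Package `Hp`, module Tot: total mass of a box
-/

set_option autoImplicit false

namespace Pool.Agent.A54.Hp

open MeasureTheory Filter Topology Set
open scoped ContDiff ComplexConjugate UpperHalfPlane MatrixGroups ENNReal
open Pool.Agent.A54.Dyn (G fl base ze io mk4 dom)
open Pool.Agent.A54.Av (Mat NonSc)

noncomputable section

namespace TotM

theorem countable_sl : Countable SL(2, ℤ) := by
  have : Countable (Matrix (Fin 2) (Fin 2) ℤ) :=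
    inferInstanceAs (Countable (Fin 2 → Fin 2 → ℤ))
  exact Subtype.countable

theorem measOm (R : ℝ) : MeasurableSet (Om R) := by
  have h : Om R = ⋂ i, ⋂ j, {g : G | |g i j| ≤ R} := by
    ext g
    simp only [Om, mem_iInter]
    exact Iff.rfl
  rw [h]
  refine MeasurableSet.iInter fun i => MeasurableSet.iInter fun j => ?_
  exact (isClosed_le (continuous_abs.comp (Dyn.continuous_entry i j))
    continuous_const).measurableSet

theorem inv_mem {R : ℝ} {y : G} (hy : y ∈ Om R) : y⁻¹ ∈ Om R := by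
  intro i j
  fin_cases i <;> fin_cases j
  · change |y⁻¹ 0 0| ≤ R
    rw [Dyn.inv_00]
    exact hy 1 1
  · change |y⁻¹ 0 1| ≤ R
    rw [Dyn.inv_01, abs_neg]
    exact hy 0 1
  · change |y⁻¹ 1 0| ≤ R
    rw [Dyn.inv_10, abs_neg]
    exact hy 1 0
  · change |y⁻¹ 1 1| ≤ R
    rw [Dyn.inv_11]
    exact hy 0 0

theorem mul_le {R : ℝ} {x z : G} (hx : x ∈ Om R) (hz : z ∈ Om R) (i j : Fin 2) :
    |(x * z) i j| ≤ 2 * R ^ 2 := by
  have h : (x * z) i j = x i 0 * z 0 j + x i 1 * z 1 j := by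
    change (x.1 * z.1) i j = _
    rw [Matrix.mul_apply, Fin.sum_univ_two]
  rw [h]
  have hR : 0 ≤ R := (abs_nonneg _).trans (hx 0 0)
  calc |x i 0 * z 0 j + x i 1 * z 1 j| ≤ |x i 0 * z 0 j| + |x i 1 * z 1 j| := abs_add_le _ _
    _ = |x i 0| * |z 0 j| + |x i 1| * |z 1 j| := by rw [abs_mul, abs_mul]
    _ ≤ R * R + R * R :=
        add_le_add (mul_le_mul (hx i 0) (hz 0 j) (abs_nonneg _) hR)
          (mul_le_mul (hx i 1) (hz 1 j) (abs_nonneg _) hR)
    _ = 2 * R ^ 2 := by ring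

theorem finJ (B : ℤ) : {γ : SL(2, ℤ) | ∀ i j, |γ i j| ≤ B}.Finite := by
  have h1 : (Set.pi univ fun _ : Fin 2 => Set.pi univ fun _ : Fin 2 => Set.Icc (-B) B :
      Set (Fin 2 → Fin 2 → ℤ)).Finite :=
    Set.Finite.pi fun _ => Set.Finite.pi fun _ => Set.finite_Icc _ _
  have h2 := Set.Finite.preimage (f := fun γ : SL(2, ℤ) => (γ.1 : Fin 2 → Fin 2 → ℤ))
    (Subtype.val_injective.injOn) h1
  refine h2.subset fun γ hγ => ?_
  intro i _ j _
  exact abs_le.1 (hγ i j)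

theorem count {R : ℝ} (J : Finset SL(2, ℤ))
    (hJ : ∀ γ : SL(2, ℤ), (∀ i j, |((γ i j : ℤ) : ℝ)| ≤ 2 * R ^ 2) → γ ∈ J) (g : G) :
    ∑' γ : SL(2, ℤ), (Om R).indicator (fun _ => (1 : ℝ≥0∞)) (io γ * g) ≤ (J.card : ℝ≥0∞) := by
  by_cases h : ∃ γ0 : SL(2, ℤ), io γ0 * g ∈ Om R
  · obtain ⟨γ0, h0⟩ := h
    rw [← (Equiv.mulRight γ0).tsum_eq
      (fun γ => (Om R).indicator (fun _ => (1 : ℝ≥0∞)) (io γ * g))]
    calc ∑' δ : SL(2, ℤ), (Om R).indicator (fun _ => (1 : ℝ≥0∞))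
          (io (Equiv.mulRight γ0 δ) * g)
        ≤ ∑' δ : SL(2, ℤ), (J : Set SL(2, ℤ)).indicator (fun _ => (1 : ℝ≥0∞)) δ := by
          refine ENNReal.tsum_le_tsum fun δ => ?_
          by_cases hδ : io (Equiv.mulRight γ0 δ) * g ∈ Om R
          · have hm : δ ∈ J := by
              refine hJ δ fun i j => ?_
              have h1 := mul_le hδ (inv_mem h0) i j
              have h2 : io (Equiv.mulRight γ0 δ) * g * (io γ0 * g)⁻¹ = io δ := by
                have h3 : io (Equiv.mulRight γ0 δ) = io δ * io γ0 := map_mul _ _ _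
                rw [h3]
                group
              rw [h2] at h1
              exact h1
            rw [indicator_of_mem hδ, indicator_of_mem (Finset.mem_coe.2 hm)]
          · rw [indicator_of_notMem hδ]
            exact zero_le
      _ = (J.card : ℝ≥0∞) := by
          rw [tsum_eq_sum (s := J)]
          · rw [Finset.sum_congr rfl
              (fun δ hδ => indicator_of_mem (Finset.mem_coe.2 hδ) (fun _ => (1 : ℝ≥0∞)))]
            rw [Finset.sum_const, nsmul_eq_mul, mul_one]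
          · intro δ hδ
            exact indicator_of_notMem (fun h => hδ (Finset.mem_coe.1 h)) _
  · have h1 : ∀ γ : SL(2, ℤ), (Om R).indicator (fun _ => (1 : ℝ≥0∞)) (io γ * g) = 0 :=
      fun γ => indicator_of_notMem (fun hγ => h ⟨γ, hγ⟩) _
    rw [tsum_congr h1, tsum_zero]
    exact zero_le

end TotM

open TotM in
theorem stmtTot (h : StmtUnf) : StmtTot := by
  intro R hR
  obtain ⟨J, hJ⟩ : ∃ J : Finset SL(2, ℤ), ∀ γ : SL(2, ℤ),
      (∀ i j, |((γ i j : ℤ) : ℝ)| ≤ 2 * R ^ 2) → γ ∈ J := by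
    refine ⟨(finJ ⌊2 * R ^ 2⌋).toFinset, fun γ hγ => ?_⟩
    rw [Set.Finite.mem_toFinset]
    intro i j
    refine Int.le_floor.2 ?_
    rw [Int.cast_abs]
    exact hγ i j
  refine ⟨J.card, Nat.cast_nonneg _, fun l Φ hΦ => ?_⟩
  rw [ENNReal.ofReal_natCast]
  have hm : Measurable fun g : G => ‖Φ g‖ₑ ^ 2 := (hΦ.cont.measurable.enorm).pow_const 2
  have hF : Measurable ((Om R).indicator fun g => ‖Φ g‖ₑ ^ 2) := hm.indicator (measOm R)
  have h1 := h.1 _ hF
  have h2 : ∫⁻ g, (Om R).indicator (fun g => ‖Φ g‖ₑ ^ 2) g ∂nu = ms Φ (Om R) := by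
    rw [lintegral_indicator (measOm R)]
    rfl
  rw [h2] at h1
  have h3 : ∑' γ : SL(2, ℤ), ∫⁻ g in FF, (Om R).indicator (fun g => ‖Φ g‖ₑ ^ 2) (io γ * g) ∂nu
      = ∫⁻ g in FF, ∑' γ : SL(2, ℤ), (Om R).indicator (fun g => ‖Φ g‖ₑ ^ 2) (io γ * g) ∂nu := by
    have := countable_sl
    rw [lintegral_tsum]
    intro γ
    exact (hF.comp (continuous_const.mul continuous_id).measurable).aemeasurable
  have h4 : ∀ g, ∑' γ : SL(2, ℤ), (Om R).indicator (fun g => ‖Φ g‖ₑ ^ 2) (io γ * g) ≤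
      (J.card : ℝ≥0∞) * ‖Φ g‖ₑ ^ 2 := by
    intro g
    have h5 : ∀ γ : SL(2, ℤ), (Om R).indicator (fun g => ‖Φ g‖ₑ ^ 2) (io γ * g) =
        (Om R).indicator (fun _ => (1 : ℝ≥0∞)) (io γ * g) * ‖Φ g‖ₑ ^ 2 := by
      intro γ
      by_cases hg : io γ * g ∈ Om R
      · rw [indicator_of_mem hg, indicator_of_mem hg, one_mul, hΦ.inv]
      · rw [indicator_of_notMem hg, indicator_of_notMem hg, zero_mul]
    rw [tsum_congr h5, ENNReal.tsum_mul_right]
    gcongr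
    exact count J hJ g
  have h5 : 2 * ms Φ (Om R) ≤ 2 * (J.card : ℝ≥0∞) := by
    rw [← h1, h3]
    calc ∫⁻ g in FF, ∑' γ : SL(2, ℤ), (Om R).indicator (fun g => ‖Φ g‖ₑ ^ 2) (io γ * g) ∂nu
        ≤ ∫⁻ g in FF, (J.card : ℝ≥0∞) * ‖Φ g‖ₑ ^ 2 ∂nu := lintegral_mono h4
      _ = (J.card : ℝ≥0∞) * ∫⁻ g in FF, ‖Φ g‖ₑ ^ 2 ∂nu := lintegral_const_mul _ hm
      _ ≤ (J.card : ℝ≥0∞) * 2 := by
          gcongr
          exact hΦ.norm
      _ = 2 * (J.card : ℝ≥0∞) := mul_comm _ _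
  exact (ENNReal.mul_le_mul_iff_right two_ne_zero ENNReal.ofNat_ne_top).1 h5

end

end Pool.Agent.A54.Hp
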