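import Pool.Agent.Lib.MP_a54f13_nt.Hp.SpecU
import Pool.Agent.Lib.MP_a54f13_nt.Hp.Tot

/-!
# Package `Hp`: the mass of a set which is flowed high into the cusp (`StmtCst`)

For note 4597 of MP_a54f13_nt (THEOREM A). Author: helper67.
-/

set_option autoImplicit false

namespace Pool.Agent.A54.Hp

open MeasureTheory Filter Topology Set
open scoped ContDiff ComplexConjugate UpperHalfPlane MatrixGroups ENNReal
open Pool.Agent.A54.Dyn (G fl base ze io mk4 dom)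

noncomputable section

namespace CstM

lemma io_smul (γ : SL(2, ℤ)) (z : ℍ) : io γ • z = γ • z := rfl

lemma isOpen_fdo : IsOpen ModularGroup.fdo := by
  have h1 : Continuous fun z : ℍ => Complex.normSq (z : ℂ) :=
    Complex.continuous_normSq.comp UpperHalfPlane.continuous_coe
  have h2 : Continuous fun z : ℍ => |z.re| := UpperHalfPlane.continuous_re.abs
  exact (isOpen_lt continuous_const h1).inter (isOpen_lt h2 continuous_const)

lemma base_io_mul (γ : SL(2, ℤ)) (v : G) : base (io γ * v) = γ • base v := by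
  rw [Dyn.base_mul, io_smul]

lemma im_le (γ : SL(2, ℤ)) {z : ℍ} (hz : z ∈ ModularGroup.fd) : (γ • z).im ≤ z.im := by
  have hzp := z.im_pos
  have e := ModularGroup.im_smul_eq_div_normSq γ z
  have hd := UpperHalfPlane.denom_ne_zero (γ : GL (Fin 2) ℝ) z
  rw [ModularGroup.denom_apply] at e hd
  have hn : Complex.normSq (((γ 1 0 : ℤ) : ℂ) * z + ((γ 1 1 : ℤ) : ℂ)) =
      (((γ 1 0 : ℤ) : ℝ) * z.re + (γ 1 1 : ℤ)) ^ 2 + (((γ 1 0 : ℤ) : ℝ) * z.im) ^ 2 := by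
    rw [Complex.normSq_apply]
    simp
    ring
  have hnp : 0 < Complex.normSq (((γ 1 0 : ℤ) : ℂ) * z + ((γ 1 1 : ℤ) : ℂ)) :=
    Complex.normSq_pos.mpr hd
  have hz1 : 1 ≤ z.re ^ 2 + z.im ^ 2 := by
    have h := hz.1
    rw [Complex.normSq_apply] at h
    have h2 : ((z : ℂ)).re = z.re := rfl
    have h3 : ((z : ℂ)).im = z.im := rfl
    rw [h2, h3] at h
    nlinarith
  have hz2 : |z.re| ≤ 1 / 2 := hz.2
  have hcd : ¬(γ 1 0 = 0 ∧ γ 1 1 = 0) := by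
    rintro ⟨h1, h2⟩
    have := γ.det_coe
    rw [Matrix.det_fin_two] at this
    rw [h1, h2] at this
    simp at this
  have hint : (1 : ℤ) ≤ (γ 1 0) ^ 2 + (γ 1 1) ^ 2 - |γ 1 0 * γ 1 1| := by
    have h1 := abs_mul (γ 1 0) (γ 1 1)
    have h2 : |γ 1 0| ^ 2 = (γ 1 0) ^ 2 := sq_abs _
    have h3 : |γ 1 1| ^ 2 = (γ 1 1) ^ 2 := sq_abs _
    rw [h1, ← h2, ← h3]
    by_cases h4 : γ 1 0 = 0
    · have h5 : γ 1 1 ≠ 0 := fun h5 => hcd ⟨h4, h5⟩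
      have h6 : 1 ≤ |γ 1 1| := Int.one_le_abs h5
      rw [h4, abs_zero]
      nlinarith
    · have h6 : 1 ≤ |γ 1 0| := Int.one_le_abs h4
      by_cases h7 : γ 1 1 = 0
      · rw [h7, abs_zero]
        nlinarith
      · have h8 : 1 ≤ |γ 1 1| := Int.one_le_abs h7
        nlinarith [sq_nonneg (|γ 1 0| - |γ 1 1|)]
  have hreal : (1 : ℝ) ≤ ((γ 1 0 : ℤ) : ℝ) ^ 2 + ((γ 1 1 : ℤ) : ℝ) ^ 2 -
      |((γ 1 0 : ℤ) : ℝ) * ((γ 1 1 : ℤ) : ℝ)| := by exact_mod_cast hint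
  have hcross : -|((γ 1 0 : ℤ) : ℝ) * ((γ 1 1 : ℤ) : ℝ)| ≤
      2 * (((γ 1 0 : ℤ) : ℝ) * ((γ 1 1 : ℤ) : ℝ)) * z.re := by
    have h1 : |2 * (((γ 1 0 : ℤ) : ℝ) * ((γ 1 1 : ℤ) : ℝ)) * z.re| ≤
        |((γ 1 0 : ℤ) : ℝ) * ((γ 1 1 : ℤ) : ℝ)| := by
      rw [abs_mul, abs_mul, abs_two]
      nlinarith [abs_nonneg (((γ 1 0 : ℤ) : ℝ) * ((γ 1 1 : ℤ) : ℝ)), abs_nonneg z.re]
    have h2 := neg_abs_le (2 * (((γ 1 0 : ℤ) : ℝ) * ((γ 1 1 : ℤ) : ℝ)) * z.re)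
    linarith
  have hone : 1 ≤ (((γ 1 0 : ℤ) : ℝ) * z.re + (γ 1 1 : ℤ)) ^ 2 +
      (((γ 1 0 : ℤ) : ℝ) * z.im) ^ 2 := by
    have h1 : (((γ 1 0 : ℤ) : ℝ) * z.re + (γ 1 1 : ℤ)) ^ 2 + (((γ 1 0 : ℤ) : ℝ) * z.im) ^ 2 =
        ((γ 1 0 : ℤ) : ℝ) ^ 2 * (z.re ^ 2 + z.im ^ 2) +
          2 * (((γ 1 0 : ℤ) : ℝ) * ((γ 1 1 : ℤ) : ℝ)) * z.re + ((γ 1 1 : ℤ) : ℝ) ^ 2 := by ring
    rw [h1]
    have h2 : ((γ 1 0 : ℤ) : ℝ) ^ 2 * 1 ≤ ((γ 1 0 : ℤ) : ℝ) ^ 2 * (z.re ^ 2 + z.im ^ 2) :=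
      mul_le_mul_of_nonneg_left hz1 (sq_nonneg _)
    linarith
  rw [e, div_le_iff₀ hnp, hn]
  nlinarith

end CstM

open CstM in
/-- **Cst** -/
theorem stmtCst (hR : StmtNuR) (hU : StmtUnf) (hC : StmtCuM) (hF : StmtFlH) : StmtCst := by
  intro R hR1
  obtain ⟨J, hJ⟩ : ∃ J : Finset SL(2, ℤ), ∀ γ : SL(2, ℤ),
      (∀ i j, |((γ i j : ℤ) : ℝ)| ≤ 2 * R ^ 2) → γ ∈ J := by
    refine ⟨(TotM.finJ ⌊2 * R ^ 2⌋).toFinset, fun γ hγ => ?_⟩
    rw [Set.Finite.mem_toFinset]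
    intro i j
    refine Int.le_floor.2 ?_
    rw [Int.cast_abs]
    exact hγ i j
  obtain ⟨C, hC0, hCM⟩ := hC
  have h2p : 0 ≤ (2 : ℝ) ^ (1 / 4 : ℝ) := by positivity
  refine ⟨J.card * (C * 2 ^ (1 / 4 : ℝ)), by positivity, ?_⟩
  intro l Φ hΦ hcs s Y A hY hA hAR hAγ
  have hinv := hR.1
  obtain ⟨hΨ, hΨc⟩ := hF l Φ hΦ (-s)
  have hY1 : 1 ≤ Y / 2 := by linarith
  have hcm := hCM l (fun g => Φ (g * fl (-s))) hΨ (hΨc hcs) (Y / 2) hY1
  have hm0 : Measurable fun g : G => ‖Φ g‖ₑ ^ 2 := (hΦ.cont.measurable.enorm).pow_const 2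
  have hmA : Measurable (A.indicator fun g => ‖Φ g‖ₑ ^ 2) := hm0.indicator hA
  have hmr : Measurable (fun g : G => g * fl (-s)) :=
    (continuous_id.mul continuous_const).measurable
  have hmF : Measurable (fun g => A.indicator (fun x => ‖Φ x‖ₑ ^ 2) (g * fl (-s))) := hmA.comp hmr
  have hmΨ : Measurable fun g : G => ‖Φ (g * fl (-s))‖ₑ ^ 2 := hm0.comp hmr
  have h1 : ms Φ A = ∫⁻ g, A.indicator (fun x => ‖Φ x‖ₑ ^ 2) (g * fl (-s)) ∂nu := by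
    rw [lintegral_mul_right_eq_self (fun g => A.indicator (fun x => ‖Φ x‖ₑ ^ 2) g) (fl (-s)),
      lintegral_indicator hA]
    rfl
  have h2 := hU.1 _ hmF
  rw [← h1] at h2
  have h3 : ∑' γ : SL(2, ℤ), ∫⁻ g in FF,
      A.indicator (fun x => ‖Φ x‖ₑ ^ 2) (io γ * g * fl (-s)) ∂nu =
      ∫⁻ g in FF, ∑' γ : SL(2, ℤ), A.indicator (fun x => ‖Φ x‖ₑ ^ 2) (io γ * g * fl (-s)) ∂nu := by
    have := TotM.countable_sl
    rw [lintegral_tsum]
    intro γ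
    exact (hmF.comp (continuous_const.mul continuous_id).measurable).aemeasurable
  have hSm : MeasurableSet {g : G | Y / 2 < (base g).im} :=
    (isOpen_lt continuous_const (UpperHalfPlane.continuous_im.comp Dyn.continuous_base)).measurableSet
  have hFFm : MeasurableSet FF := by
    unfold FF
    exact Dyn.measurable_base isOpen_fdo.measurableSet
  have h4 : ∀ g ∈ FF, ∑' γ : SL(2, ℤ), A.indicator (fun x => ‖Φ x‖ₑ ^ 2) (io γ * g * fl (-s)) ≤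
      (J.card : ℝ≥0∞) *
        {g : G | Y / 2 < (base g).im}.indicator (fun g => ‖Φ (g * fl (-s))‖ₑ ^ 2) g := by
    intro g hg
    by_cases hex : ∃ γ : SL(2, ℤ), io γ * g * fl (-s) ∈ A
    · obtain ⟨γ, hγ⟩ := hex
      obtain ⟨γ', hγ'⟩ := hAγ _ hγ
      have h5 : io γ' * (io γ * g * fl (-s) * fl s) = io (γ' * γ) * g := by
        have h6 : io (γ' * γ) = io γ' * io γ := map_mul _ _ _
        rw [h6, Dyn.fl_neg]
        group
      rw [h5, base_io_mul] at hγ'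
      have h7 : (base g).im ≥ Y := hγ'.trans (im_le _ (ModularGroup.fdo_subset_fd hg))
      have h8 : g ∈ {g : G | Y / 2 < (base g).im} := by
        change Y / 2 < (base g).im
        linarith
      rw [indicator_of_mem h8]
      have h9 : ∀ γ : SL(2, ℤ), A.indicator (fun x => ‖Φ x‖ₑ ^ 2) (io γ * g * fl (-s)) ≤
          (Om R).indicator (fun _ => (1 : ℝ≥0∞)) (io γ * (g * fl (-s))) *
            ‖Φ (g * fl (-s))‖ₑ ^ 2 := by
        intro γ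
        rw [mul_assoc (io γ)]
        by_cases hh : io γ * (g * fl (-s)) ∈ A
        · rw [indicator_of_mem hh, indicator_of_mem (hAR hh), one_mul, hΦ.inv]
        · rw [indicator_of_notMem hh]
          exact zero_le
      refine (ENNReal.tsum_le_tsum h9).trans ?_
      rw [ENNReal.tsum_mul_right]
      gcongr
      exact TotM.count J hJ _
    · have h5 : ∀ γ : SL(2, ℤ), A.indicator (fun x => ‖Φ x‖ₑ ^ 2) (io γ * g * fl (-s)) = 0 :=
        fun γ => indicator_of_notMem (fun h => hex ⟨γ, h⟩) _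
      rw [tsum_congr h5, tsum_zero]
      exact zero_le
  have h5 : ms Φ A ≤ (J.card : ℝ≥0∞) * ENNReal.ofReal (C * (Y / 2) ^ (-(1 / 4 : ℝ))) := by
    calc ms Φ A ≤ 2 * ms Φ A := by
          rw [two_mul]
          exact le_self_add
      _ = ∫⁻ g in FF, ∑' γ : SL(2, ℤ),
            A.indicator (fun x => ‖Φ x‖ₑ ^ 2) (io γ * g * fl (-s)) ∂nu := by rw [← h2, h3]
      _ ≤ ∫⁻ g in FF, (J.card : ℝ≥0∞) *
            {g : G | Y / 2 < (base g).im}.indicator (fun g => ‖Φ (g * fl (-s))‖ₑ ^ 2) g ∂nu :=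
          setLIntegral_mono (measurable_const.mul (hmΨ.indicator hSm)) h4
      _ = (J.card : ℝ≥0∞) * ∫⁻ g in FF,
            {g : G | Y / 2 < (base g).im}.indicator (fun g => ‖Φ (g * fl (-s))‖ₑ ^ 2) g ∂nu :=
          lintegral_const_mul _ (hmΨ.indicator hSm)
      _ = (J.card : ℝ≥0∞) * ∫⁻ g in FF ∩ {g : G | Y / 2 < (base g).im},
            ‖Φ (g * fl (-s))‖ₑ ^ 2 ∂nu := by
          rw [lintegral_indicator hSm, Measure.restrict_restrict hSm, inter_comm]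
      _ ≤ (J.card : ℝ≥0∞) * ENNReal.ofReal (C * (Y / 2) ^ (-(1 / 4 : ℝ))) := by
          gcongr
  refine h5.trans (le_of_eq ?_)
  rw [← ENNReal.ofReal_natCast, ← ENNReal.ofReal_mul (Nat.cast_nonneg _)]
  congr 1
  rw [Real.div_rpow (by linarith) (by norm_num), Real.rpow_neg (by norm_num : (0:ℝ) ≤ 2)]
  rw [div_inv_eq_mul]
  ring

end

end Pool.Agent.A54.Hp
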