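import Pool.Agent.Lib.MP_a54f13_nt.Hp.SpecN

/-!
# CtA: the trivial count of integral matrices in a box
-/

set_option autoImplicit false

namespace Pool.Agent.A54.Hp

open MeasureTheory Filter Topology Set
open scoped ContDiff ComplexConjugate UpperHalfPlane MatrixGroups ENNReal
open Pool.Agent.A54.Dyn (G fl base ze io mk4 dom)
open Pool.Agent.A54.Av (Mat NonSc)

noncomputable section

namespace CtAN

/-- entries of the inverse -/
theorem inv_le (R : ℝ) (x : G) (hx : x ∈ Om R) (i j : Fin 2) : |(x⁻¹ : G).1 i j| ≤ R := by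
  have h : (x⁻¹ : G).1 = x.1.adjugate := rfl
  rw [h, Matrix.adjugate_fin_two]
  have h00 := hx 0 0
  have h01 := hx 0 1
  have h10 := hx 1 0
  have h11 := hx 1 1
  fin_cases i <;> fin_cases j <;> simp [abs_neg] <;> assumption

/-- entries of a product -/
theorem prod_le (R : ℝ) (hR : 0 ≤ R) (a d b : Matrix (Fin 2) (Fin 2) ℝ) (ha : ∀ i j, |a i j| ≤ R)
    (hd : ∀ i j, |d i j| ≤ 1) (hb : ∀ i j, |b i j| ≤ R) (i j : Fin 2) : |(a * d * b) i j| ≤ 4 * R ^ 2 := by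
  have key : ∀ k l : Fin 2, |a i k * d k l * b l j| ≤ R ^ 2 := by
    intro k l
    rw [abs_mul, abs_mul]
    have h1 : |a i k| * |d k l| ≤ R * 1 :=
      mul_le_mul (ha i k) (hd k l) (abs_nonneg _) hR
    calc |a i k| * |d k l| * |b l j| ≤ (R * 1) * R :=
          mul_le_mul h1 (hb l j) (abs_nonneg _) (by positivity)
      _ = R ^ 2 := by ring
  have he : (a * d * b) i j = a i 0 * d 0 0 * b 0 j + a i 1 * d 1 0 * b 0 j +
      (a i 0 * d 0 1 * b 1 j + a i 1 * d 1 1 * b 1 j) := by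
    simp only [Matrix.mul_apply, Fin.sum_univ_two]
    ring
  rw [he]
  have e1 := abs_le.1 (key 0 0)
  have e2 := abs_le.1 (key 1 0)
  have e3 := abs_le.1 (key 0 1)
  have e4 := abs_le.1 (key 1 1)
  rw [abs_le]
  constructor <;> linarith [e1.1, e1.2, e2.1, e2.2, e3.1, e3.2, e4.1, e4.2]

/-- the integral matrix from the conjugated one -/
theorem back (x y : G) (s t : Mat) :
    (s - t).map (fun a : ℤ => (a : ℝ)) = y.1 * (cj y x s - cj y x t) * (x⁻¹ : G).1 := by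
  have hy : y.1 * (y⁻¹ : G).1 = 1 := by
    have h : (y * y⁻¹ : G).1 = y.1 * (y⁻¹ : G).1 := rfl
    rw [← h, mul_inv_cancel]
    rfl
  have hx : x.1 * (x⁻¹ : G).1 = 1 := by
    have h : (x * x⁻¹ : G).1 = x.1 * (x⁻¹ : G).1 := rfl
    rw [← h, mul_inv_cancel]
    rfl
  have hm : (s - t).map (fun a : ℤ => (a : ℝ)) =
      s.map (fun a : ℤ => (a : ℝ)) - t.map (fun a : ℤ => (a : ℝ)) := by
    ext i j
    simp
  unfold cj
  rw [hm, ← Matrix.sub_mul, ← Matrix.mul_sub]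
  calc s.map (fun a : ℤ => (a : ℝ)) - t.map (fun a : ℤ => (a : ℝ))
      = (1 : Matrix (Fin 2) (Fin 2) ℝ) * (s.map (fun a : ℤ => (a : ℝ)) - t.map (fun a : ℤ => (a : ℝ))) * 1 := by
        rw [Matrix.one_mul, Matrix.mul_one]
    _ = (y.1 * (y⁻¹ : G).1) * (s.map (fun a : ℤ => (a : ℝ)) - t.map (fun a : ℤ => (a : ℝ))) *
          (x.1 * (x⁻¹ : G).1) := by rw [hy, hx]
    _ = _ := by simp only [Matrix.mul_assoc]

/-- the four floors -/
def fl4 (g : Matrix (Fin 2) (Fin 2) ℝ) : (ℤ × ℤ) × (ℤ × ℤ) :=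
  ((⌊g 0 0⌋, ⌊g 1 1⌋), (⌊g 0 1⌋, ⌊g 1 0⌋))

/-- the four entries of a difference -/
def en (t s : Mat) : (ℤ × ℤ) × (ℤ × ℤ) :=
  ((s 0 0 - t 0 0, s 1 1 - t 1 1), (s 0 1 - t 0 1, s 1 0 - t 1 0))

theorem en_inj (t : Mat) : Function.Injective (en t) := by
  intro s s' h
  simp only [en, Prod.mk.injEq] at h
  obtain ⟨⟨h1, h2⟩, h3, h4⟩ := h
  ext i j
  fin_cases i <;> fin_cases j <;> simp <;> omega

theorem floor_sub (a b : ℝ) (h : ⌊a⌋ = ⌊b⌋) : |a - b| ≤ 1 := by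
  have h1 := Int.floor_le a
  have h2 := Int.lt_floor_add_one a
  have h3 := Int.floor_le b
  have h4 := Int.lt_floor_add_one b
  rw [h] at h1 h2
  rw [abs_le]
  constructor <;> linarith

theorem floor_mem (a D : ℝ) (h : |a| ≤ D) : ⌊a⌋ ∈ Finset.Icc (-(⌊D⌋ + 1)) ⌊D⌋ := by
  rw [abs_le] at h
  rw [Finset.mem_Icc]
  constructor
  · rw [Int.le_floor]
    have := Int.lt_floor_add_one D
    push_cast
    linarith [h.1]
  · exact Int.floor_le_floor h.2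

theorem card_floor (D : ℝ) (hD : 1 ≤ D) : ((Finset.Icc (-(⌊D⌋ + 1)) ⌊D⌋).card : ℝ) ≤ 4 * D := by
  rw [Int.card_Icc]
  have h0 : (0 : ℤ) ≤ ⌊D⌋ := Int.floor_nonneg.2 (by linarith)
  have h1 := Int.floor_le D
  have h2 : (((⌊D⌋ + 1 - -(⌊D⌋ + 1)).toNat : ℕ) : ℝ) = ((⌊D⌋ + 1 - -(⌊D⌋ + 1) : ℤ) : ℝ) := by
    have : (((⌊D⌋ + 1 - -(⌊D⌋ + 1)).toNat : ℕ) : ℤ) = (⌊D⌋ + 1 - -(⌊D⌋ + 1) : ℤ) :=
      Int.toNat_of_nonneg (by omega)
    exact_mod_cast this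
  rw [h2]
  push_cast
  linarith

/-- one value of the floors -/
theorem fibre (R : ℝ) (hR : 1 ≤ R) (x y : G) (hx : x ∈ Om R) (hy : y ∈ Om R) (S : Finset Mat)
    (t : Mat) :
    (S.filter (fun s => fl4 (cj y x s) = fl4 (cj y x t))).card ≤
      (((Finset.Icc (-⌊4 * R ^ 2⌋) ⌊4 * R ^ 2⌋) ×ˢ (Finset.Icc (-⌊4 * R ^ 2⌋) ⌊4 * R ^ 2⌋)) ×ˢ
        ((Finset.Icc (-⌊4 * R ^ 2⌋) ⌊4 * R ^ 2⌋) ×ˢ (Finset.Icc (-⌊4 * R ^ 2⌋) ⌊4 * R ^ 2⌋))).card := by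
  apply Finset.card_le_card_of_injOn (en t)
  · intro s hs
    rw [Finset.mem_coe, Finset.mem_filter] at hs
    have hf := hs.2
    simp only [fl4, Prod.mk.injEq] at hf
    obtain ⟨⟨h1, h2⟩, h3, h4⟩ := hf
    have hd : ∀ i j, |(cj y x s - cj y x t) i j| ≤ 1 := by
      intro i j
      rw [Matrix.sub_apply]
      fin_cases i <;> fin_cases j
      · exact floor_sub _ _ h1
      · exact floor_sub _ _ h3
      · exact floor_sub _ _ h4
      · exact floor_sub _ _ h2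
    have hb : ∀ i j, |((s i j - t i j : ℤ) : ℝ)| ≤ 4 * R ^ 2 := by
      intro i j
      have e := prod_le R (by linarith) y.1 (cj y x s - cj y x t) (x⁻¹ : G).1 (fun i j => hy i j) hd
        (fun i j => inv_le R x hx i j) i j
      rw [← back x y s t] at e
      simpa using e
    have hc : ∀ i j, s i j - t i j ∈ Finset.Icc (-⌊4 * R ^ 2⌋) ⌊4 * R ^ 2⌋ := by
      intro i j
      have := abs_le.1 (hb i j)
      rw [Finset.mem_Icc]
      constructor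
      · have h5 : t i j - s i j ≤ ⌊4 * R ^ 2⌋ := by
          rw [Int.le_floor]
          push_cast at this ⊢
          linarith [this.1]
        linarith
      · rw [Int.le_floor]
        exact this.2
    simp only [en, Finset.coe_product, Set.mem_prod, Finset.mem_coe]
    exact ⟨⟨hc 0 0, hc 1 1⟩, hc 0 1, hc 1 0⟩
  · exact (en_inj t).injOn

theorem card_box (R : ℝ) (hR : 1 ≤ R) :
    (((Finset.Icc (-⌊4 * R ^ 2⌋) ⌊4 * R ^ 2⌋).card : ℕ) : ℝ) ≤ 8 * R ^ 2 + 1 := by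
  rw [Int.card_Icc]
  have h0 : (0 : ℤ) ≤ ⌊4 * R ^ 2⌋ := Int.floor_nonneg.2 (by positivity)
  have h1 := Int.floor_le (4 * R ^ 2)
  have h2 : (((⌊4 * R ^ 2⌋ + 1 - -⌊4 * R ^ 2⌋).toNat : ℕ) : ℝ) = ((⌊4 * R ^ 2⌋ + 1 - -⌊4 * R ^ 2⌋ : ℤ) : ℝ) := by
    have : (((⌊4 * R ^ 2⌋ + 1 - -⌊4 * R ^ 2⌋).toNat : ℕ) : ℤ) = (⌊4 * R ^ 2⌋ + 1 - -⌊4 * R ^ 2⌋ : ℤ) :=
      Int.toNat_of_nonneg (by omega)
    exact_mod_cast this
  rw [h2]
  push_cast
  linarith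

end CtAN

/-- **CtA** -/
theorem stmtCtA : StmtCtA := by
  classical
  intro R B hR hB
  refine ⟨(8 * R ^ 2 + 1) ^ 4 * (256 * B ^ 4), ?_, ?_⟩
  · have h1 : 1 ≤ (8 * R ^ 2 + 1) ^ 4 := one_le_pow₀ (by nlinarith [sq_nonneg R])
    have h2 : 1 ≤ B ^ 4 := one_le_pow₀ hB
    nlinarith
  intro x hx y hy M hM S hS
  set f : Mat → (ℤ × ℤ) × (ℤ × ℤ) := fun s => CtAN.fl4 (cj y x s) with hf
  set bx : ℕ := (Finset.Icc (-⌊4 * R ^ 2⌋) ⌊4 * R ^ 2⌋).card with hbx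
  have hfib : ∀ a ∈ S.image f, (S.filter (fun s => f s = a)).card ≤ bx ^ 4 := by
    intro a ha
    obtain ⟨t, _, rfl⟩ := Finset.mem_image.1 ha
    have := CtAN.fibre R hR x y hx hy S t
    rw [Finset.card_product, Finset.card_product] at this
    calc (S.filter (fun s => f s = f t)).card ≤ bx * bx * (bx * bx) := this
      _ = bx ^ 4 := by ring
  have h1 : S.card ≤ bx ^ 4 * (S.image f).card := Finset.card_le_mul_card_image S _ hfib
  have hBM : 1 ≤ B * M := by nlinarith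
  have h2 : (S.image f).card ≤ (((Finset.Icc (-(⌊B * M⌋ + 1)) ⌊B * M⌋) ×ˢ (Finset.Icc (-(⌊B * M⌋ + 1)) ⌊B * M⌋)) ×ˢ
      ((Finset.Icc (-(⌊B⌋ + 1)) ⌊B⌋) ×ˢ (Finset.Icc (-(⌊B⌋ + 1)) ⌊B⌋))).card := by
    apply Finset.card_le_card
    intro a ha
    obtain ⟨s, hs, rfl⟩ := Finset.mem_image.1 ha
    obtain ⟨g1, g2, g3, g4⟩ := hS s hs
    simp only [hf, CtAN.fl4, Finset.mem_product]
    exact ⟨⟨CtAN.floor_mem _ _ g1, CtAN.floor_mem _ _ g2⟩, CtAN.floor_mem _ _ g3, CtAN.floor_mem _ _ g4⟩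
  rw [Finset.card_product, Finset.card_product, Finset.card_product] at h2
  have h3 := CtAN.card_floor (B * M) hBM
  have h4 := CtAN.card_floor B hB
  have h5 := CtAN.card_box R hR
  set u : ℕ := (Finset.Icc (-(⌊B * M⌋ + 1)) ⌊B * M⌋).card with hu
  set v : ℕ := (Finset.Icc (-(⌊B⌋ + 1)) ⌊B⌋).card with hv
  have h6 : S.card ≤ bx ^ 4 * (u * u * (v * v)) := h1.trans (Nat.mul_le_mul_left _ h2)
  have h7 : (S.card : ℝ) ≤ (bx : ℝ) ^ 4 * ((u : ℝ) * u * (v * v)) := by exact_mod_cast h6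
  have hu0 : (0 : ℝ) ≤ u := Nat.cast_nonneg _
  have hv0 : (0 : ℝ) ≤ v := Nat.cast_nonneg _
  have hb0 : (0 : ℝ) ≤ bx := Nat.cast_nonneg _
  calc (S.card : ℝ) ≤ (bx : ℝ) ^ 4 * ((u : ℝ) * u * (v * v)) := h7
    _ ≤ (8 * R ^ 2 + 1) ^ 4 * ((4 * (B * M)) * (4 * (B * M)) * ((4 * B) * (4 * B))) := by
        gcongr
    _ = (8 * R ^ 2 + 1) ^ 4 * (256 * B ^ 4) * M ^ 2 := by ring

end

end Pool.Agent.A54.Hp
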