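import Pool.Agent.Lib.MP_a54f13_nt.Hp.SpecN

/-! Package `Hp`, part N: `CtB`, the generic count, from `DuL`. -/

set_option autoImplicit false

namespace Pool.Agent.A54.Hp

open Pool.Agent.A54.Dyn (G det_eq inv_00 inv_01 inv_10 inv_11)
open Pool.Agent.A54.Av (Mat)

noncomputable section

namespace CtBN

/-- entries of a product of three matrices -/
lemma mul3 (a s b : Matrix (Fin 2) (Fin 2) ℝ) (i j : Fin 2) : (a * s * b) i j =
    (a i 0 * s 0 0 + a i 1 * s 1 0) * b 0 j + (a i 0 * s 0 1 + a i 1 * s 1 1) * b 1 j := by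
  simp only [Matrix.mul_apply, Fin.sum_univ_two]

/-- the entries of `cj` -/
lemma cj_00 (y x : G) (s : Mat) : cj y x s 0 0 =
    (y 1 1 * s 0 0 - y 0 1 * s 1 0) * x 0 0 + (y 1 1 * s 0 1 - y 0 1 * s 1 1) * x 1 0 := by
  have e0 : (y⁻¹ : G).1 0 0 = y 1 1 := inv_00 y
  have e1 : (y⁻¹ : G).1 0 1 = -y 0 1 := inv_01 y
  unfold cj
  rw [mul3, e0, e1]
  simp only [Matrix.map_apply]
  ring

lemma cj_01 (y x : G) (s : Mat) : cj y x s 0 1 =
    (y 1 1 * s 0 0 - y 0 1 * s 1 0) * x 0 1 + (y 1 1 * s 0 1 - y 0 1 * s 1 1) * x 1 1 := by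
  have e0 : (y⁻¹ : G).1 0 0 = y 1 1 := inv_00 y
  have e1 : (y⁻¹ : G).1 0 1 = -y 0 1 := inv_01 y
  unfold cj
  rw [mul3, e0, e1]
  simp only [Matrix.map_apply]
  ring

lemma cj_10 (y x : G) (s : Mat) : cj y x s 1 0 =
    (-y 1 0 * s 0 0 + y 0 0 * s 1 0) * x 0 0 + (-y 1 0 * s 0 1 + y 0 0 * s 1 1) * x 1 0 := by
  have e0 : (y⁻¹ : G).1 1 0 = -y 1 0 := inv_10 y
  have e1 : (y⁻¹ : G).1 1 1 = y 0 0 := inv_11 y
  unfold cj
  rw [mul3, e0, e1]
  simp only [Matrix.map_apply]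

lemma cj_11 (y x : G) (s : Mat) : cj y x s 1 1 =
    (-y 1 0 * s 0 0 + y 0 0 * s 1 0) * x 0 1 + (-y 1 0 * s 0 1 + y 0 0 * s 1 1) * x 1 1 := by
  have e0 : (y⁻¹ : G).1 1 0 = -y 1 0 := inv_10 y
  have e1 : (y⁻¹ : G).1 1 1 = y 0 0 := inv_11 y
  unfold cj
  rw [mul3, e0, e1]
  simp only [Matrix.map_apply]

/-- the `4 × 4` matrix of `s ↦ y⁻¹ s x` -/
def AA (y x : G) : Matrix (Fin 4) (Fin 4) ℝ :=
  !![y 1 1 * x 0 0, y 1 1 * x 1 0, -y 0 1 * x 0 0, -y 0 1 * x 1 0;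
     y 1 1 * x 0 1, y 1 1 * x 1 1, -y 0 1 * x 0 1, -y 0 1 * x 1 1;
     -y 1 0 * x 0 0, -y 1 0 * x 1 0, y 0 0 * x 0 0, y 0 0 * x 1 0;
     -y 1 0 * x 0 1, -y 1 0 * x 1 1, y 0 0 * x 0 1, y 0 0 * x 1 1]

/-- the determinant of a Kronecker product -/
lemma det_kron (a b c d p q r s : ℝ) :
    (!![a * p, a * r, b * p, b * r;
        a * q, a * s, b * q, b * s;
        c * p, c * r, d * p, d * r;
        c * q, c * s, d * q, d * s] : Matrix (Fin 4) (Fin 4) ℝ).det =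
      (a * d - b * c) ^ 2 * (p * s - q * r) ^ 2 := by
  rw [Matrix.det_succ_row_zero]
  simp only [Fin.sum_univ_four, Matrix.det_fin_three]
  simp [Fin.succAbove, Matrix.submatrix]
  ring

lemma det_AA (y x : G) : (AA y x).det = 1 := by
  have hx := det_eq x
  have hy := det_eq y
  have h := det_kron (y 1 1) (-y 0 1) (-y 1 0) (y 0 0) (x 0 0) (x 0 1) (x 1 0) (x 1 1)
  unfold AA
  rw [h]
  have e1 : y 1 1 * y 0 0 - -y 0 1 * -y 1 0 = 1 := by linarith
  rw [e1, hx]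
  norm_num

/-- the vector of the entries -/
def vec (s : Mat) : Fin 4 → ℤ := ![s 0 0, s 0 1, s 1 0, s 1 1]

lemma vec_inj : Function.Injective vec := by
  intro s t h
  have h0 : s 0 0 = t 0 0 := congrFun h 0
  have h1 : s 0 1 = t 0 1 := congrFun h 1
  have h2 : s 1 0 = t 1 0 := congrFun h 2
  have h3 : s 1 1 = t 1 1 := congrFun h 3
  ext i j
  fin_cases i <;> fin_cases j
  · exact h0
  · exact h1
  · exact h2
  · exact h3

/-- the sides of the box -/
def BB (B M w : ℝ) : Fin 4 → ℝ := ![B * M, B * (M * w), B * (M * w), B * M]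

lemma sum_AA (y x : G) (s : Mat) :
    (∑ j, AA y x 0 j * (vec s j : ℝ)) = cj y x s 0 0 ∧
    (∑ j, AA y x 1 j * (vec s j : ℝ)) = cj y x s 0 1 ∧
    (∑ j, AA y x 2 j * (vec s j : ℝ)) = cj y x s 1 0 ∧
    (∑ j, AA y x 3 j * (vec s j : ℝ)) = cj y x s 1 1 := by
  rw [cj_00, cj_01, cj_10, cj_11]
  refine ⟨?_, ?_, ?_, ?_⟩ <;>
  · simp only [Fin.sum_univ_four, AA, vec, Matrix.of_apply, Matrix.cons_val]
    ring

end CtBN

open CtBN in
/-- **CtB** -/
theorem stmtCtB (h : StmtDuL) : StmtCtB := by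
  intro B hB
  have hB0 : (0 : ℝ) < B := by linarith
  refine ⟨2 ^ 23 * B ^ 4, ?_, ?_⟩
  · have := one_le_pow₀ (n := 4) hB
    linarith
  intro x y M w hM hw hd S hS
  have hMw : 0 < M * w := mul_pos hM hw
  have hBp : ∀ i, 0 < BB B M w i := by
    intro i
    fin_cases i
    · exact mul_pos hB0 hM
    · exact mul_pos hB0 hMw
    · exact mul_pos hB0 hMw
    · exact mul_pos hB0 hM
  have key := h (AA y x) (BB B M w) (by rw [det_AA]; simp) hBp ?_ (S.image vec) ?_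
  · rw [Finset.card_image_of_injective _ vec_inj] at key
    refine key.trans (le_of_eq ?_)
    simp only [Fin.prod_univ_four, BB, Matrix.cons_val]
    ring
  · intro n τ hn hτ
    have h0 := hn 0
    have h1 := hn 1
    have h2 := hn 2
    have h3 := hn 3
    simp only [Fin.sum_univ_four, AA, Matrix.of_apply, Matrix.cons_val] at h0 h1 h2 h3
    have hx := det_eq x
    have hy := det_eq y
    set N : Mat := !![n 0, n 2; n 1, n 3] with hN
    have a00 : (N 0 0 : ℝ) = (n 0 : ℝ) := rfl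
    have a01 : (N 0 1 : ℝ) = (n 2 : ℝ) := rfl
    have a10 : (N 1 0 : ℝ) = (n 1 : ℝ) := rfl
    have a11 : (N 1 1 : ℝ) = (n 3 : ℝ) := rfl
    have c00 : cj x y N 0 0 = τ 0 := by
      rw [cj_00, a00, a01, a10, a11, h0, h1, h2, h3]
      linear_combination (τ 0) * ((x 0 0 * x 1 1 - x 0 1 * x 1 0) * hy + hx)
    have c01 : cj x y N 0 1 = τ 2 := by
      rw [cj_01, a00, a01, a10, a11, h0, h1, h2, h3]
      linear_combination (τ 2) * ((x 0 0 * x 1 1 - x 0 1 * x 1 0) * hy + hx)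
    have c10 : cj x y N 1 0 = τ 1 := by
      rw [cj_10, a00, a01, a10, a11, h0, h1, h2, h3]
      linear_combination (τ 1) * ((x 0 0 * x 1 1 - x 0 1 * x 1 0) * hy + hx)
    have c11 : cj x y N 1 1 = τ 3 := by
      rw [cj_11, a00, a01, a10, a11, h0, h1, h2, h3]
      linear_combination (τ 3) * ((x 0 0 * x 1 1 - x 0 1 * x 1 0) * hy + hx)
    have bM : 1 / (32 * (B * M)) ≤ 1 / M := by
      apply one_div_le_one_div_of_le hM
      nlinarith
    have bMw : 1 / (32 * (B * (M * w))) ≤ 1 / (M * w) := by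
      apply one_div_le_one_div_of_le hMw
      nlinarith
    have t0 : |τ 0| ≤ 1 / (32 * (B * M)) := hτ 0
    have t1 : |τ 1| ≤ 1 / (32 * (B * (M * w))) := hτ 1
    have t2 : |τ 2| ≤ 1 / (32 * (B * (M * w))) := hτ 2
    have t3 : |τ 3| ≤ 1 / (32 * (B * M)) := hτ 3
    have hN0 : N = 0 := by
      apply hd
      refine ⟨?_, ?_, ?_, ?_⟩
      · rw [c00]; exact t0.trans bM
      · rw [c11]; exact t3.trans bM
      · rw [c01]; exact t2.trans bMw
      · rw [c10]; exact t1.trans bMw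
    have e00 : n 0 = 0 := congrFun (congrFun hN0 0) 0
    have e01 : n 2 = 0 := congrFun (congrFun hN0 0) 1
    have e10 : n 1 = 0 := congrFun (congrFun hN0 1) 0
    have e11 : n 3 = 0 := congrFun (congrFun hN0 1) 1
    funext i
    fin_cases i
    · exact e00
    · exact e10
    · exact e01
    · exact e11
  · intro m hm i
    obtain ⟨s, hs, rfl⟩ := Finset.mem_image.mp hm
    obtain ⟨s0, s3, s1, s2⟩ := hS s hs
    obtain ⟨q0, q1, q2, q3⟩ := sum_AA y x s
    fin_cases i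
    · refine le_of_eq_of_le (congrArg abs q0) s0
    · refine le_of_eq_of_le (congrArg abs q1) s1
    · refine le_of_eq_of_le (congrArg abs q2) s2
    · refine le_of_eq_of_le (congrArg abs q3) s3

end

end Pool.Agent.A54.Hp
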