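import Pool.Agent.Lib.MP_a54f13_nt.Hp.SpecC

/-!
# Package `Hp`, module `Cus`: cuspidality of the tower on the group
-/

set_option autoImplicit false

namespace Pool.Agent.A54.Hp

open MeasureTheory Filter Topology Set
open scoped ContDiff ComplexConjugate UpperHalfPlane MatrixGroups ENNReal
open Pool.Agent.A54.Dyn (G fl base ze io mk4 dom)
open Pool.Agent.A54.Half (H0)
open Pool.Agent.A54.Sq (la)

namespace CusM

noncomputable section

variable {H : ℂ → ℂ}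

lemma mk_eq (x y : ℝ) : (⟨x, y⟩ : ℂ) = (x : ℂ) + (y : ℂ) * Complex.I :=
  Complex.mk_eq_add_mul_I x y

lemma cont_line (y : ℝ) : Continuous (fun x : ℝ => (⟨x, y⟩ : ℂ)) := by
  simp_rw [mk_eq]
  fun_prop

lemma cont_x {K : ℂ → ℂ} (hK : ContinuousOn K H0) {y : ℝ} (hy : 0 < y) :
    Continuous (fun x : ℝ => K ⟨x, y⟩) :=
  hK.comp_continuous (cont_line y) (fun _ => hy)

lemma cont_d (hH : ContDiffOn ℝ ∞ H H0) (v : ℂ) : ContinuousOn (fun z => fderiv ℝ H z v) H0 :=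
  (hH.continuousOn_fderiv_of_isOpen Half.isOpen_H0 (by simp)).clm_apply continuousOn_const

lemma hasF (hH : ContDiffOn ℝ ∞ H H0) {z : ℂ} (hz : z ∈ H0) : HasFDerivAt H (fderiv ℝ H z) z :=
  ((hH.contDiffAt (Half.isOpen_H0.mem_nhds hz)).differentiableAt (by simp)).hasFDerivAt

lemma hasD_x (hH : ContDiffOn ℝ ∞ H H0) {x y : ℝ} (hy : 0 < y) :
    HasDerivAt (fun x : ℝ => H ⟨x, y⟩) (fderiv ℝ H ⟨x, y⟩ 1) x := by
  have h1 : HasFDerivAt H (fderiv ℝ H ⟨x, y⟩) (⟨x, y⟩ : ℂ) := hasF hH hy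
  have h2 : HasDerivAt (fun x : ℝ => (⟨x, y⟩ : ℂ)) 1 x := by
    simp_rw [mk_eq]
    simpa using (Complex.ofRealCLM.hasDerivAt (x := x)).add_const ((y : ℂ) * Complex.I)
  exact h1.comp_hasDerivAt x h2

lemma hasD_y (hH : ContDiffOn ℝ ∞ H H0) {x y : ℝ} (hy : 0 < y) :
    HasDerivAt (fun y : ℝ => H ⟨x, y⟩) (fderiv ℝ H ⟨x, y⟩ Complex.I) y := by
  have h1 : HasFDerivAt H (fderiv ℝ H ⟨x, y⟩) (⟨x, y⟩ : ℂ) := hasF hH hy
  have h2 : HasDerivAt (fun y : ℝ => (⟨x, y⟩ : ℂ)) Complex.I y := by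
    simp_rw [mk_eq]
    simpa using (((Complex.ofRealCLM.hasDerivAt (x := y)).mul_const Complex.I).const_add (x : ℂ))
  exact h1.comp_hasDerivAt y h2

lemma int_dx (hH : ContDiffOn ℝ ∞ H H0) (hp : ∀ z ∈ H0, H (z + 1) = H z) {y : ℝ} (hy : 0 < y) :
    ∫ x in (0 : ℝ)..1, fderiv ℝ H ⟨x, y⟩ 1 = 0 := by
  rw [intervalIntegral.integral_eq_sub_of_hasDerivAt (f := fun x : ℝ => H ⟨x, y⟩)
    (fun x _ => hasD_x hH hy) ((cont_x (cont_d hH 1) hy).intervalIntegrable _ _)]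
  have h1 : (⟨1, y⟩ : ℂ) = ⟨0, y⟩ + 1 := by apply Complex.ext <;> simp
  have h2 : H (⟨0, y⟩ + 1) = H ⟨0, y⟩ := hp _ hy
  rw [h1, h2, sub_self]

lemma int_dy (hH : ContDiffOn ℝ ∞ H H0)
    (h0 : ∀ y : ℝ, 0 < y → ∫ x in (0 : ℝ)..1, H ⟨x, y⟩ = 0) {y : ℝ} (hy : 0 < y) :
    ∫ x in (0 : ℝ)..1, fderiv ℝ H ⟨x, y⟩ Complex.I = 0 := by
  have hc : Continuous (fun p : ℝ × ℝ => (⟨p.1, p.2⟩ : ℂ)) := by
    simp_rw [mk_eq]
    fun_prop
  have hK : IsCompact ((fun p : ℝ × ℝ => (⟨p.1, p.2⟩ : ℂ)) '' (Icc 0 1 ×ˢ Icc (y / 2) (2 * y))) :=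
    (isCompact_Icc.prod isCompact_Icc).image hc
  have hKH : ((fun p : ℝ × ℝ => (⟨p.1, p.2⟩ : ℂ)) '' (Icc 0 1 ×ˢ Icc (y / 2) (2 * y))) ⊆ H0 := by
    rintro z ⟨p, hp, rfl⟩
    have h1 : y / 2 ≤ p.2 := hp.2.1
    change 0 < p.2
    linarith
  obtain ⟨C, hC⟩ := hK.exists_bound_of_continuousOn ((cont_d hH Complex.I).mono hKH)
  have hD := (intervalIntegral.hasDerivAt_integral_of_dominated_loc_of_deriv_le (μ := volume)
    (a := 0) (b := 1) (F := fun (y : ℝ) (x : ℝ) => H ⟨x, y⟩)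
    (F' := fun (y : ℝ) (x : ℝ) => fderiv ℝ H ⟨x, y⟩ Complex.I) (x₀ := y)
    (s := Ioo (y / 2) (2 * y)) (bound := fun _ => C)
    (Ioo_mem_nhds (by linarith) (by linarith))
    (by
      filter_upwards [lt_mem_nhds hy] with y' hy'
      exact (cont_x hH.continuousOn hy').aestronglyMeasurable)
    ((cont_x hH.continuousOn hy).intervalIntegrable _ _)
    ((cont_x (cont_d hH Complex.I) hy).aestronglyMeasurable)
    (by
      refine Eventually.of_forall (fun x hx y' hy' => ?_)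
      rw [uIoc_of_le zero_le_one] at hx
      exact hC _ ⟨(x, y'), ⟨⟨hx.1.le, hx.2⟩, ⟨hy'.1.le, hy'.2.le⟩⟩, rfl⟩)
    (intervalIntegrable_const)
    (by
      refine Eventually.of_forall (fun x hx y' hy' => ?_)
      have h1 : 0 < y' := by
        have := hy'.1
        linarith
      exact hasD_y hH h1)).2
  have h2 : HasDerivAt (fun y : ℝ => ∫ x in (0 : ℝ)..1, H ⟨x, y⟩) 0 y :=
    (hasDerivAt_const y (0 : ℂ)).congr_of_eventuallyEq (by
      filter_upwards [lt_mem_nhds hy] with y' hy'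
      exact h0 y' hy')
  exact hD.unique h2

/-- the step -/
lemma step (hH : ContDiffOn ℝ ∞ H H0) (hp : ∀ z ∈ H0, H (z + 1) = H z)
    (h0 : ∀ y : ℝ, 0 < y → ∫ x in (0 : ℝ)..1, H ⟨x, y⟩ = 0) {K : ℂ → ℂ} {a : ℂ} (ha : a ≠ 0) {n : ℂ}
    (hK : ∀ z ∈ H0, Complex.I * (z.im : ℂ) * dz H z + n * H z = a * K z) {y : ℝ} (hy : 0 < y) :
    ∫ x in (0 : ℝ)..1, K ⟨x, y⟩ = 0 := by
  have h1 : ∀ x : ℝ, K ⟨x, y⟩ = a⁻¹ * (Complex.I * (y : ℂ) * fderiv ℝ H ⟨x, y⟩ 1) +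
      (a⁻¹ * ((y : ℂ) * fderiv ℝ H ⟨x, y⟩ Complex.I) + a⁻¹ * (n * H ⟨x, y⟩)) := by
    intro x
    have h2 := hK ⟨x, y⟩ hy
    have h3 : K ⟨x, y⟩ = a⁻¹ * (a * K ⟨x, y⟩) := by rw [inv_mul_cancel_left₀ ha]
    rw [h3, ← h2]
    unfold dz
    have hI := Complex.I_mul_I
    linear_combination (-(a⁻¹ * (y : ℂ) * fderiv ℝ H ⟨x, y⟩ Complex.I)) * hI
  have c1 : Continuous (fun x : ℝ => fderiv ℝ H ⟨x, y⟩ 1) := cont_x (cont_d hH 1) hy
  have c2 : Continuous (fun x : ℝ => fderiv ℝ H ⟨x, y⟩ Complex.I) := cont_x (cont_d hH Complex.I) hy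
  have c3 : Continuous (fun x : ℝ => H ⟨x, y⟩) := cont_x hH.continuousOn hy
  simp_rw [h1]
  rw [intervalIntegral.integral_add, intervalIntegral.integral_add]
  · simp_rw [intervalIntegral.integral_const_mul]
    rw [int_dx hH hp hy, int_dy hH h0 hy, h0 y hy]
    simp
  · exact (continuous_const.mul (continuous_const.mul c2)).intervalIntegrable _ _
  · exact (continuous_const.mul (continuous_const.mul c3)).intervalIntegrable _ _
  · exact (continuous_const.mul (continuous_const.mul c1)).intervalIntegrable _ _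
  · exact ((continuous_const.mul (continuous_const.mul c2)).add
      (continuous_const.mul (continuous_const.mul c3))).intervalIntegrable _ _

lemma io_T (i j : Fin 2) : (io ModularGroup.T) i j = ((ModularGroup.T i j : ℤ) : ℝ) := rfl

lemma per {f : ℍ → ℝ} {t : ℝ} {n : ℤ}
    (h : ∀ (γ : SL(2, ℤ)) (g : G), Ff f t n (io γ * g) = Ff f t n g) {z : ℂ} (hz : z ∈ H0) :
    Gf f t n (z + 1) = Gf f t n z := by
  obtain ⟨g, hg⟩ : ∃ g : G, ((base g : ℍ) : ℂ) = z :=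
    ⟨Dyn.LiftM.Sct (⟨z, hz⟩, 0), by rw [Dyn.LiftM.base_Sct]⟩
  have e00 : (io ModularGroup.T) 0 0 = 1 := by rw [io_T]; simp [ModularGroup.T]
  have e01 : (io ModularGroup.T) 0 1 = 1 := by rw [io_T]; simp [ModularGroup.T]
  have e10 : (io ModularGroup.T) 1 0 = 0 := by rw [io_T]; simp [ModularGroup.T]
  have e11 : (io ModularGroup.T) 1 1 = 1 := by rw [io_T]; simp [ModularGroup.T]
  have hb : ((base (io ModularGroup.T * g) : ℍ) : ℂ) = (base g : ℂ) + 1 := by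
    rw [Dyn.base_mul, Dyn.smul_coe, e00, e01, e10, e11]
    simp
  have hze : ze (io ModularGroup.T * g) = ze g := by
    rw [Dyn.ze_mul, e10, e11]
    simp
  have h1 := h ModularGroup.T g
  unfold Ff at h1
  rw [hb, hze, hg] at h1
  exact mul_left_cancel₀ (zpow_ne_zero n (Dyn.ze_ne g)) h1

lemma base_u (x : ℝ) (g : G) :
    ((base (mk4 1 x 0 1 (by norm_num) * g) : ℍ) : ℂ) = ⟨(base g).re + x, (base g).im⟩ := by
  rw [Dyn.base_mul, Dyn.smul_coe, Dyn.mk4_00, Dyn.mk4_01, Dyn.mk4_10, Dyn.mk4_11]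
  apply Complex.ext <;> simp

lemma ze_u (x : ℝ) (g : G) : ze (mk4 1 x 0 1 (by norm_num) * g) = ze g := by
  rw [Dyn.ze_mul, Dyn.mk4_10, Dyn.mk4_11]
  simp

lemma int_shift {K : ℂ → ℂ} (hp : ∀ z ∈ H0, K (z + 1) = K z)
    (h0 : ∀ y : ℝ, 0 < y → ∫ x in (0 : ℝ)..1, K ⟨x, y⟩ = 0) {y : ℝ} (hy : 0 < y) (r : ℝ) :
    ∫ x in (0 : ℝ)..1, K ⟨r + x, y⟩ = 0 := by
  have hper : Function.Periodic (fun x : ℝ => K ⟨x, y⟩) 1 := by
    intro x
    have h1 : (⟨x + 1, y⟩ : ℂ) = ⟨x, y⟩ + 1 := by apply Complex.ext <;> simp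
    simp only []
    rw [h1]
    exact hp _ hy
  have h2 := hper.intervalIntegral_add_eq r 0
  rw [zero_add] at h2
  have h3 : ∫ x in (0 : ℝ)..1, K ⟨r + x, y⟩ = ∫ x in r..(r + 1), K ⟨x, y⟩ := by
    have := intervalIntegral.integral_comp_add_left (a := 0) (b := 1) (fun x : ℝ => K ⟨x, y⟩) r
    simpa using this
  rw [h3, h2]
  exact h0 y hy

end

end CusM

open CusM

theorem stmtCus (hTwG : StmtTwG) : StmtCus := by
  intro f t hf
  have hT := hTwG f t hf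
  have hs : ∀ n : ℤ, ContDiffOn ℝ ∞ (Gf f t n) H0 := fun n => (hT n).1
  have hp : ∀ n : ℤ, ∀ z ∈ H0, Gf f t n (z + 1) = Gf f t n z :=
    fun n z hz => per (hT n).2.2.2.2.2.1 hz
  have hnat : ∀ n : ℕ, ∀ y : ℝ, 0 < y → ∫ x in (0 : ℝ)..1, Gf f t (n : ℤ) ⟨x, y⟩ = 0 := by
    intro n
    induction n with
    | zero =>
      intro y hy
      have h1 : ∀ x : ℝ, Gf f t ((0 : ℕ) : ℤ) ⟨x, y⟩ = ((ext f ⟨x, y⟩ : ℝ) : ℂ) :=
        fun x => (hT 0).2.2.2.2.1 _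
      simp_rw [h1]
      rw [intervalIntegral.integral_ofReal, hf.cuspidal y hy, Complex.ofReal_zero]
    | succ n ih =>
      intro y hy
      have hla : ((la t (n : ℤ) : ℝ) : ℂ) ≠ 0 := by
        have h1 : 0 < la t (n : ℤ) := by
          unfold la
          apply Real.sqrt_pos.2
          positivity
        exact_mod_cast h1.ne'
      have h2 := step (hs n) (hp n) ih hla (hT n).2.1 hy
      have h3 : ((n + 1 : ℕ) : ℤ) = (n : ℤ) + 1 := by push_cast; ring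
      rw [h3]
      exact h2
  have hint : ∀ (n : ℤ) (y : ℝ), 0 < y → ∫ x in (0 : ℝ)..1, Gf f t n ⟨x, y⟩ = 0 := by
    intro n y hy
    rcases Int.eq_nat_or_neg n with ⟨m, rfl | rfl⟩
    · exact hnat m y hy
    · have h1 : ∀ z, Gf f t (-(m : ℤ)) z = (-1) ^ (m : ℤ) * conj (Gf f t (m : ℤ) z) :=
        (hT m).2.2.2.1
      simp_rw [h1]
      rw [intervalIntegral.integral_const_mul]
      have h2 : ∫ x in (0 : ℝ)..1, conj (Gf f t (m : ℤ) ⟨x, y⟩) =
          conj (∫ x in (0 : ℝ)..1, Gf f t (m : ℤ) ⟨x, y⟩) := by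
        simp only [intervalIntegral.integral_of_le zero_le_one]
        exact integral_conj
      rw [h2, hnat m y hy]
      simp
  refine ⟨hint, fun N c g => ?_⟩
  unfold Ph
  have h1 : ∀ (n : ℤ) (x : ℝ), Ff f t n (mk4 1 x 0 1 (by norm_num) * g) =
      ze g ^ n * Gf f t n ⟨(base g).re + x, (base g).im⟩ := by
    intro n x
    unfold Ff
    rw [ze_u, base_u]
  simp_rw [h1]
  have hc : ∀ n : ℤ, Continuous (fun x : ℝ => Gf f t n ⟨(base g).re + x, (base g).im⟩) := by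
    intro n
    exact (cont_x (hs n).continuousOn (base g).im_pos).comp (continuous_const.add continuous_id)
  have h2 : ∀ n ∈ Finset.Icc (-(N : ℤ)) N, IntervalIntegrable (fun x : ℝ =>
      c n * (ze g ^ n * Gf f t n ⟨(base g).re + x, (base g).im⟩)) volume 0 1 := by
    intro n _
    have h3 : Continuous (fun x : ℝ =>
        c n * (ze g ^ n * Gf f t n ⟨(base g).re + x, (base g).im⟩)) :=
      continuous_const.mul (continuous_const.mul (hc n))
    exact h3.intervalIntegrable _ _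
  rw [intervalIntegral.integral_finsetSum h2]
  apply Finset.sum_eq_zero
  intro n _
  rw [intervalIntegral.integral_const_mul, intervalIntegral.integral_const_mul,
    int_shift (hp n) (hint n) (base g).im_pos, mul_zero, mul_zero]

end Pool.Agent.A54.Hp
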