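import Pool.Agent.Lib.MP_a54f13_nt.Hp.SpecN

/-!
# Package `Hp`, module Cz: singular matrices give cusps
-/

set_option autoImplicit false

namespace Pool.Agent.A54.Hp

open MeasureTheory Filter Topology Set
open scoped ContDiff ComplexConjugate UpperHalfPlane MatrixGroups ENNReal
open Pool.Agent.A54.Dyn (G fl base ze io mk4 dom)
open Pool.Agent.A54.Av (Mat NonSc)

noncomputable section

namespace CzN

/-- the entries of `x⁻¹ n` -/
def P0 (x : G) (n : Mat) (j : Fin 2) : ℝ := x 1 1 * (n 0 j : ℝ) - x 0 1 * (n 1 j : ℝ)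

/-- the entries of `x⁻¹ n` -/
def P1 (x : G) (n : Mat) (j : Fin 2) : ℝ := -(x 1 0) * (n 0 j : ℝ) + x 0 0 * (n 1 j : ℝ)

lemma cj_0 (x y : G) (n : Mat) (j : Fin 2) :
    cj x y n 0 j = P0 x n 0 * y 0 j + P0 x n 1 * y 1 j := by
  have e0 : (x⁻¹ : G).1 0 0 = x 1 1 := Dyn.inv_00 x
  have e1 : (x⁻¹ : G).1 0 1 = -x 0 1 := Dyn.inv_01 x
  unfold cj P0
  rw [Matrix.mul_apply, Fin.sum_univ_two, Matrix.mul_apply, Matrix.mul_apply, Fin.sum_univ_two,
    Fin.sum_univ_two, e0, e1]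
  simp only [Matrix.map_apply]
  ring

lemma cj_1 (x y : G) (n : Mat) (j : Fin 2) :
    cj x y n 1 j = P1 x n 0 * y 0 j + P1 x n 1 * y 1 j := by
  have e0 : (x⁻¹ : G).1 1 0 = -x 1 0 := Dyn.inv_10 x
  have e1 : (x⁻¹ : G).1 1 1 = x 0 0 := Dyn.inv_11 x
  unfold cj P1
  rw [Matrix.mul_apply, Fin.sum_univ_two, Matrix.mul_apply, Matrix.mul_apply, Fin.sum_univ_two,
    Fin.sum_univ_two, e0, e1]
  simp only [Matrix.map_apply]

lemma two {a b c d R t : ℝ} (ha : |a| ≤ t) (hb : |b| ≤ t) (hc : |c| ≤ R)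
    (hd : |d| ≤ R) : |a * c - b * d| ≤ 2 * R * t := by
  have ht : 0 ≤ t := (abs_nonneg _).trans ha
  refine (abs_sub _ _).trans ?_
  rw [abs_mul, abs_mul]
  have h1 := mul_le_mul ha hc (abs_nonneg _) ht
  have h2 := mul_le_mul hb hd (abs_nonneg _) ht
  linarith

/-- inversion of a row -/
lemma row {y : G} {R t p0 p1 w0 w1 : ℝ} (hy : y ∈ Om R)
    (e0 : w0 = p0 * y 0 0 + p1 * y 1 0) (e1 : w1 = p0 * y 0 1 + p1 * y 1 1)
    (h0 : |w0| ≤ t) (h1 : |w1| ≤ t) : |p0| ≤ 2 * R * t ∧ |p1| ≤ 2 * R * t := by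
  have hd := Dyn.det_eq y
  constructor
  · have h : p0 = w0 * y 1 1 - w1 * y 1 0 := by
      rw [e0, e1]
      linear_combination (-p0) * hd
    rw [h]
    exact two h0 h1 (hy 1 1) (hy 1 0)
  · have h : p1 = w1 * y 0 0 - w0 * y 0 1 := by
      rw [e0, e1]
      linear_combination (-p1) * hd
    rw [h]
    exact two h1 h0 (hy 0 0) (hy 0 1)

end CzN

open CzN in
theorem stmtCz : StmtCz := by
  intro R hR x hx y hy M w hM hw hw1 n hn hdet hB
  have hM0 : 0 < M := by linarith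
  obtain ⟨h00, h11, h01, h10⟩ := hB
  have hle : 1 / M ≤ 1 / (M * w) := by
    apply one_div_le_one_div_of_le (by positivity)
    nlinarith
  have hdx := Dyn.det_eq x
  have hdy := Dyn.det_eq y
  have hdn : ((n 0 0 : ℤ) : ℝ) * n 1 1 - n 0 1 * n 1 0 = 0 := by
    rw [Matrix.det_fin_two] at hdet
    exact_mod_cast hdet
  have hW : cj x y n 0 0 * cj x y n 1 1 = cj x y n 0 1 * cj x y n 1 0 := by
    rw [cj_0, cj_0, cj_1, cj_1]
    have e : P0 x n 0 * P1 x n 1 - P0 x n 1 * P1 x n 0 = 0 := by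
      unfold P0 P1
      linear_combination (x 0 0 * x 1 1 - x 0 1 * x 1 0) * hdn
    linear_combination (y 0 0 * y 1 1 - y 0 1 * y 1 0) * e
  have e1 : 2 * R * (1 / M) = 2 * R / M := by ring
  have e2 : 2 * R * (1 / (M * w)) = 2 * R / (M * w) := by ring
  obtain ⟨j, hj⟩ : ∃ j, (fun i => n i j) ≠ (0 : Fin 2 → ℤ) := by
    by_contra h
    push Not at h
    apply hn
    ext i j
    exact congrFun (h j) i
  refine ⟨hx, fun i => n i j, hj, ?_⟩
  show (|P0 x n j| ≤ _ ∧ |P1 x n j| ≤ _) ∨ (|P1 x n j| ≤ _ ∧ |P0 x n j| ≤ _)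
  have hcase : |cj x y n 0 1| ≤ 1 / M ∨ |cj x y n 1 0| ≤ 1 / M := by
    by_contra h
    push Not at h
    have h1 : |cj x y n 0 0 * cj x y n 1 1| ≤ 1 / M * (1 / M) := by
      rw [abs_mul]
      exact mul_le_mul h00 h11 (abs_nonneg _) (by positivity)
    have h2 : 1 / M * (1 / M) < |cj x y n 0 1 * cj x y n 1 0| := by
      rw [abs_mul]
      exact mul_lt_mul'' h.1 h.2 (by positivity) (by positivity)
    rw [hW] at h1
    linarith
  have key : ∀ t t' : ℝ, |cj x y n 0 0| ≤ t → |cj x y n 0 1| ≤ t → |cj x y n 1 0| ≤ t' →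
      |cj x y n 1 1| ≤ t' → |P0 x n j| ≤ 2 * R * t ∧ |P1 x n j| ≤ 2 * R * t' := by
    intro t t' a b c d
    have k1 := row hy (cj_0 x y n 0) (cj_0 x y n 1) a b
    have k2 := row hy (cj_1 x y n 0) (cj_1 x y n 1) c d
    fin_cases j
    · exact ⟨k1.1, k2.1⟩
    · exact ⟨k1.2, k2.2⟩
  rcases hcase with h | h
  · left
    have := key (1 / M) (1 / (M * w)) h00 h h10 (h11.trans hle)
    rw [e1, e2] at this
    exact this
  · right
    have := key (1 / (M * w)) (1 / M) (h00.trans hle) h01 h h11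
    rw [e1, e2] at this
    exact ⟨this.2, this.1⟩

end

end Pool.Agent.A54.Hp
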