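import Pool.Agent.Lib.MP_a54f13_nt.Hp.SpecM

/-!
# Package `Hp`, module `Dds`: simple bounds for `Dd`
-/

set_option autoImplicit false

namespace Pool.Agent.A54.Hp

open MeasureTheory Filter Topology Set
open scoped ContDiff ComplexConjugate UpperHalfPlane MatrixGroups ENNReal
open Pool.Agent.A54.Dyn (G fl base ze io mk4 dom)
open Pool.Agent.A54.Av (Mat NonSc)

noncomputable section

namespace DdsM

/-- Cauchy–Schwarz with squares -/
theorem cs {f g : G → ℝ≥0∞} (hf : AEMeasurable f nu) (hg : AEMeasurable g nu) :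
    (∫⁻ x, f x * g x ∂nu) ^ 2 ≤ (∫⁻ x, f x ^ 2 ∂nu) * ∫⁻ x, g x ^ 2 ∂nu := by
  have h1 := ENNReal.lintegral_mul_le_Lp_mul_Lq nu (p := 2) (q := 2)
    (by constructor <;> norm_num) hf hg
  simp only [Pi.mul_apply] at h1
  have h2 := pow_le_pow_left₀ zero_le h1 2
  refine h2.trans (le_of_eq ?_)
  rw [mul_pow]
  have e1 : ∀ a : ℝ≥0∞, (a ^ (1 / (2 : ℝ))) ^ 2 = a := fun a => by
    rw [← ENNReal.rpow_natCast, ← ENNReal.rpow_mul]
    norm_num
  rw [e1, e1]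
  have e2 : ∀ a : ℝ≥0∞, a ^ (2 : ℝ) = a ^ 2 := fun a => by
    rw [← ENNReal.rpow_natCast]
    norm_num
  simp only [e2]

theorem meas_f {Φ : G → ℂ} (hΦ : Continuous Φ) {U : Set G} (hU : MeasurableSet U) :
    Measurable (U.indicator (fun x => ‖Φ x‖ₑ)) :=
  (hΦ.measurable.enorm).indicator hU

theorem sq_ind (Φ : G → ℂ) {U : Set G} (hU : MeasurableSet U) :
    ∫⁻ x, (U.indicator (fun x => ‖Φ x‖ₑ) x) ^ 2 ∂nu = ms Φ U := by
  have h1 : ∀ x, (U.indicator (fun x => ‖Φ x‖ₑ) x) ^ 2 = U.indicator (fun x => ‖Φ x‖ₑ ^ 2) x := by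
    intro x
    by_cases hx : x ∈ U
    · rw [Set.indicator_of_mem hx, Set.indicator_of_mem hx]
    · rw [Set.indicator_of_notMem hx, Set.indicator_of_notMem hx]
      norm_num
  simp only [h1]
  rw [lintegral_indicator hU, ms]

theorem entry (γ : SL(2, ℤ)) (i j : Fin 2) : (io γ) i j = ((γ i j : ℤ) : ℝ) := rfl

/-- the elements with small entries -/
def Sf (K : ℝ) : Set SL(2, ℤ) := {γ | ∀ i j, |((γ i j : ℤ) : ℝ)| ≤ K}

theorem finite_Sf (K : ℝ) : (Sf K).Finite := by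
  have h1 : (Set.univ.pi fun _ : Fin 2 => Set.univ.pi fun _ : Fin 2 =>
      Set.Icc (-⌈K⌉) ⌈K⌉ : Set (Fin 2 → Fin 2 → ℤ)).Finite :=
    Set.Finite.pi fun _ => Set.Finite.pi fun _ => Set.finite_Icc _ _
  refine Set.Finite.of_injOn (f := fun γ : SL(2, ℤ) => fun i j => γ i j)
    (t := Set.univ.pi fun _ : Fin 2 => Set.univ.pi fun _ : Fin 2 => Set.Icc (-⌈K⌉) ⌈K⌉)
    ?_ ?_ h1
  · intro γ hγ
    rw [Set.mem_univ_pi]
    intro i
    rw [Set.mem_univ_pi]
    intro j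
    have h2 := abs_le.1 (hγ i j)
    have h3 : K ≤ ((⌈K⌉ : ℤ) : ℝ) := Int.le_ceil K
    constructor
    · have h4 : (((-⌈K⌉ : ℤ)) : ℝ) ≤ ((γ i j : ℤ) : ℝ) := by
        push_cast
        linarith [h2.1]
      exact_mod_cast h4
    · have h4 : ((γ i j : ℤ) : ℝ) ≤ ((⌈K⌉ : ℤ) : ℝ) := by linarith [h2.2]
      exact_mod_cast h4
  · intro γ _ γ' _ h
    apply Subtype.ext
    exact h

/-- returns to the box -/
theorem ret {R : ℝ} (hR : 1 ≤ R) {γ : SL(2, ℤ)} {x : G} (hx : x ∈ Om R) (hy : io γ * x ∈ Om R) :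
    γ ∈ Sf (2 * R ^ 2) := by
  have h1 : io γ = (io γ * x) * x⁻¹ := by rw [mul_inv_cancel_right]
  intro i j
  rw [← entry, h1]
  set y : G := io γ * x with hydef
  have hR0 : 0 ≤ R := by linarith
  have key : ∀ a b c d : ℝ, |a| ≤ R → |b| ≤ R → |c| ≤ R → |d| ≤ R →
      |a * b + c * d| ≤ 2 * R ^ 2 := by
    intro a b c d ha hb hc hd
    calc |a * b + c * d| ≤ |a * b| + |c * d| := abs_add_le _ _
      _ = |a| * |b| + |c| * |d| := by rw [abs_mul, abs_mul]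
      _ ≤ R * R + R * R := add_le_add (mul_le_mul ha hb (abs_nonneg _) hR0)
          (mul_le_mul hc hd (abs_nonneg _) hR0)
      _ = 2 * R ^ 2 := by ring
  have hinv : ∀ i j, |(x⁻¹ : G) i j| ≤ R := by
    intro i j
    fin_cases i <;> fin_cases j
    · show |(x⁻¹ : G) 0 0| ≤ R
      rw [Dyn.inv_00]
      exact hx 1 1
    · show |(x⁻¹ : G) 0 1| ≤ R
      rw [Dyn.inv_01, abs_neg]
      exact hx 0 1
    · show |(x⁻¹ : G) 1 0| ≤ R
      rw [Dyn.inv_10, abs_neg]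
      exact hx 1 0
    · show |(x⁻¹ : G) 1 1| ≤ R
      rw [Dyn.inv_11]
      exact hx 0 0
  have hmul : (y * x⁻¹ : G) i j = y i 0 * (x⁻¹ : G) 0 j + y i 1 * (x⁻¹ : G) 1 j := by
    rw [Matrix.SpecialLinearGroup.coe_mul, Matrix.mul_apply, Fin.sum_univ_two]
  rw [hmul]
  exact key _ _ _ _ (hy i 0) (hinv 0 j) (hy i 1) (hinv 1 j)

end DdsM

open DdsM in
/-- **Dds**: simple bounds for `Dd`. -/
theorem stmtDds (hNu : StmtNuL) : StmtDds := by
  have : nu.IsMulLeftInvariant := hNu.1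
  have main : ∀ (Φ : G → ℂ), Continuous Φ → ∀ U : Set G, MeasurableSet U → ∀ h : G,
      Dd Φ U h ^ 2 ≤ ms Φ (U ∩ {g | h * g ∈ U}) * ms Φ U ∧ Dd Φ U h ≤ ms Φ U ∧
        ((∀ x ∈ U, h * x ∉ U) → Dd Φ U h = 0) := by
    intro Φ hΦ U hU h
    have hmul : Measurable fun g : G => h * g := (continuous_const.mul continuous_id).measurable
    have hV : MeasurableSet (U ∩ {g | h * g ∈ U}) := hU.inter (hmul hU)
    have h1 : Dd Φ U h = ∫⁻ g, (U ∩ {g | h * g ∈ U}).indicator (fun x => ‖Φ x‖ₑ) g *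
        U.indicator (fun x => ‖Φ x‖ₑ) (h * g) ∂nu := by
      unfold Dd
      refine lintegral_congr fun g => ?_
      by_cases hg : h * g ∈ U
      · by_cases hg2 : g ∈ U
        · rw [Set.indicator_of_mem hg2, Set.indicator_of_mem (show g ∈ U ∩ {g | h * g ∈ U} from
            ⟨hg2, hg⟩)]
        · have hg3 : g ∉ U ∩ {g | h * g ∈ U} := fun h3 => hg2 h3.1
          rw [Set.indicator_of_notMem hg2, Set.indicator_of_notMem hg3, zero_mul]
      · rw [Set.indicator_of_notMem hg, mul_zero, mul_zero]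
    have h2 : Dd Φ U h ^ 2 ≤ ms Φ (U ∩ {g | h * g ∈ U}) * ms Φ U := by
      rw [h1]
      refine (cs (meas_f hΦ hV).aemeasurable
        ((meas_f hΦ hU).comp hmul).aemeasurable).trans (le_of_eq ?_)
      rw [sq_ind Φ hV]
      refine congrArg (ms Φ (U ∩ {g | h * g ∈ U}) * ·) ?_
      have h3 := lintegral_mul_left_eq_self (μ := nu)
        (fun g => (U.indicator (fun x => ‖Φ x‖ₑ) g) ^ 2) h
      rw [← sq_ind Φ hU, ← h3]
      rfl
    have h3 : Dd Φ U h ≤ ms Φ U := by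
      have h4 : ms Φ (U ∩ {g | h * g ∈ U}) ≤ ms Φ U :=
        lintegral_mono_set Set.inter_subset_left
      have h5 : Dd Φ U h ^ 2 ≤ ms Φ U ^ 2 := by
        refine h2.trans ?_
        rw [sq]
        exact mul_le_mul_left h4 _
      exact (ENNReal.pow_le_pow_left_iff two_ne_zero).1 h5
    refine ⟨h2, h3, fun h4 => ?_⟩
    unfold Dd
    have h5 : ∀ g, U.indicator (fun x => ‖Φ x‖ₑ) g * U.indicator (fun x => ‖Φ x‖ₑ) (h * g) = 0 := by
      intro g
      by_cases hg : g ∈ U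
      · rw [Set.indicator_of_notMem (h4 g hg), mul_zero]
      · rw [Set.indicator_of_notMem hg, zero_mul]
    simp only [h5, lintegral_zero]
  refine ⟨main, fun R hR => ?_⟩
  have hfin := finite_Sf (2 * R ^ 2)
  refine ⟨(hfin.toFinset.card : ℝ), Nat.cast_nonneg _, ?_⟩
  intro Φ hΦ U hU hUR
  have h1 : ∀ γ ∉ hfin.toFinset, Dd Φ U (io γ) = 0 := by
    intro γ hγ
    refine (main Φ hΦ U hU (io γ)).2.2 fun x hx hy => hγ ?_
    rw [Set.Finite.mem_toFinset]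
    exact ret hR (hUR hx) (hUR hy)
  rw [tsum_eq_sum h1]
  calc ∑ γ ∈ hfin.toFinset, Dd Φ U (io γ) ≤ ∑ _γ ∈ hfin.toFinset, ms Φ U :=
        Finset.sum_le_sum fun γ _ => (main Φ hΦ U hU (io γ)).2.1
    _ = ENNReal.ofReal (hfin.toFinset.card : ℝ) * ms Φ U := by
        rw [Finset.sum_const, nsmul_eq_mul, ENNReal.ofReal_natCast]

end

end Pool.Agent.A54.Hp
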