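import Pool.Agent.Lib.MP_a54f13_nt.Hp.SpecC
import Pool.Agent.Lib.MP_a54f13_nt.Hp.Ky

/-! # Package `Hp`, `Dif`: means of `f² - S` for the data -/

set_option autoImplicit false

namespace Pool.Agent.A54.Hp

open MeasureTheory Filter Topology Set
open scoped ContDiff ComplexConjugate UpperHalfPlane MatrixGroups ENNReal
open Pool.Agent.A54.Half (H0)
open Pool.Agent.A54.Sq (la TestP Tow Up)

noncomputable section

namespace DifM

/-- the radius is positive -/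
lemma rh_pos {c t : ℝ} (ht : 0 < t) : 0 < rh c t := Real.rpow_pos_of_pos ht _

/-- the radius is small for large `t` -/
lemma rh_le {c t m : ℝ} (hc : 0 < c) (hm : 0 < m) (h1 : 1 ≤ t) (h : (m ^ 2)⁻¹ ≤ t) : rh c t ≤ m := by
  have ht : 0 < t := by linarith
  have h2 : rh c t ≤ t ^ (-(1 / 2 : ℝ)) := by
    unfold rh
    exact Real.rpow_le_rpow_of_exponent_le h1 (by linarith)
  refine h2.trans ?_
  have h3 : m⁻¹ ≤ t ^ (1 / 2 : ℝ) := by
    rw [← Real.sqrt_eq_rpow]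
    refine Real.le_sqrt_of_sq_le ?_
    rw [inv_pow]
    exact h
  rw [Real.rpow_neg ht.le]
  have h4 : (t ^ (1 / 2 : ℝ))⁻¹ ≤ (m⁻¹)⁻¹ := inv_anti₀ (inv_pos.mpr hm) h3
  rwa [inv_inv] at h4

/-- the size of the quotient -/
lemma quot {c t : ℝ} (h1 : 1 ≤ t) {N : ℕ} (hN : (N : ℝ) ≤ 2 * t ^ (1 / 2 - c / 800)) :
    ((N : ℝ) / (rh c t * t)) ^ 2 ≤ 4 * t ^ (-(c / 800)) := by
  have ht : 0 < t := by linarith
  have hr : 0 < rh c t := rh_pos ht
  have e1 : rh c t * t = t ^ (1 / 2 - c / 1600) := by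
    unfold rh
    nth_rewrite 2 [← Real.rpow_one t]
    rw [← Real.rpow_add ht]
    ring_nf
  have h2 : (N : ℝ) / (rh c t * t) ≤ 2 * t ^ (-(c / 1600)) := by
    rw [div_le_iff₀ (by positivity), e1]
    refine hN.trans (le_of_eq ?_)
    rw [mul_assoc, ← Real.rpow_add ht]
    ring_nf
  have h3 : 0 ≤ (N : ℝ) / (rh c t * t) := by positivity
  refine (pow_le_pow_left₀ h3 h2 2).trans (le_of_eq ?_)
  rw [mul_pow, ← Real.rpow_natCast (t ^ (-(c / 1600))) 2, ← Real.rpow_mul ht.le]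
  norm_num
  ring_nf

end DifM

open DifM in
/-- means of `f² - S` for the data -/
theorem stmtDif (hTwG : StmtTwG) (hTwc : StmtTwc) (hMfS : StmtMfS) (_hLh : StmtLh) : StmtDif := by
  intro c C₀ hc _hc1 _hC₀ K hK φ hφ
  obtain ⟨χ, V, hχ, h01, hV, hVH, h1, hsub⟩ := Half.setup hφ.test
  have hφV : TestP V φ := ⟨⟨hφ.test.smooth, hφ.test.cpt, hsub⟩, hφ.nonneg⟩
  obtain ⟨ζ₁, C₁, r0, hζ₁, hC₁, hr0, hMf⟩ := hMfS V hV hVH φ hφV
  obtain ⟨ζ, hζ, hζ01, hζ1⟩ := exists_cutoff hζ₁.test.cpt.isCompact hV hζ₁.test.sub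
  have hζ0 : ∀ z, 0 ≤ ζ z := fun z => (hζ01 z).1
  have hζH : TestP H0 ζ := ⟨⟨hζ.smooth, hζ.cpt, hζ.sub.trans hVH⟩, hζ0⟩
  obtain ⟨c3, hc3, hd3⟩ := KyM.dom2 hVH hζ₁.test hζ0 fun z hz => hζ1.self_of_nhdsSet z hz
  obtain ⟨ρ₁, hρ₁, hdisc⟩ := Pl.FBM.discs hφ.test.cpt.isCompact hV hsub
  have hm : 0 < min r0 ρ₁ := lt_min hr0 hρ₁
  refine ⟨ζ, 4 * C₁ * c3, max 1 ((min r0 ρ₁) ^ 2)⁻¹, hζH, by positivity, le_max_left _ _, ?_⟩
  intro v l f t N b hD ht B hB hU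
  have ht1 : 1 ≤ t := (le_max_left _ _).trans ht
  have ht0 : 0 < t := by linarith
  have hf := hD.hm
  have hr : 0 < rh c t := rh_pos ht0
  have hrm : rh c t ≤ min r0 ρ₁ := rh_le hc hm ht1 ((le_max_right _ _).trans ht)
  set G : ℤ → ℂ → ℂ := fun n z => (χ z : ℂ) * Gf f t n z with hG
  have hTow : Tow V t G := hTwc χ V hχ hV hVH h1 f t hf
  have hGc : ∀ n, Continuous fun z => (χ z : ℂ) * Gf f t n z := fun n => (hTow.smooth n).continuous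
  have hUp : Up ζ₁ G (N + 1) (c3 * B) := by
    intro n hn
    refine KyM.four_le hVH h1 hζ hζ₁ hc3 hd3 (hGc n) (hU n (hn.trans ?_))
    push_cast
    have : (1 : ℤ) ≤ (K : ℤ) := by exact_mod_cast hK
    linarith
  have hmain := hMf t G ht1 hTow N (c3 * B) (rh c t) (fun n => b n ^ 2) hD.pack.one_le hUp hr
    (hrm.trans (min_le_left _ _)) (fun n => sq_nonneg _) hD.pack.norm
  have hG0 : ∀ z ∈ V, ‖G 0 z‖ ^ 2 = ext f z ^ 2 := by
    intro z hz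
    simp only [hG, h1 z hz, Complex.ofReal_one, one_mul]
    rw [(hTwG f t hf 0).2.2.2.2.1 z, Complex.norm_real, Real.norm_eq_abs, sq_abs]
  have hGS : ∀ z ∈ V, ∑ n ∈ Finset.Icc (-(N : ℤ)) N, b n ^ 2 * ‖G n z‖ ^ 2 = Spl f t N b z := by
    intro z hz
    simp only [hG, Spl, h1 z hz, Complex.ofReal_one, one_mul]
  have heq : ∫ z : ℂ, φ z * (Pl.Ed (rh c t) (fun w => ext f w ^ 2) z - Pl.Ed (rh c t) (Spl f t N b) z) ^ 2 =
      ∫ z, φ z * (Pl.Ed (rh c t) (fun z => ‖G 0 z‖ ^ 2) z -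
        Pl.Ed (rh c t) (fun z => ∑ n ∈ Finset.Icc (-(N : ℤ)) N, b n ^ 2 * ‖G n z‖ ^ 2) z) ^ 2 := by
    refine integral_congr_ae (Eventually.of_forall fun z => ?_)
    by_cases hz : z ∈ tsupport φ
    · have e1 : Pl.Ed (rh c t) (fun w => ext f w ^ 2) z = Pl.Ed (rh c t) (fun w => ‖G 0 w‖ ^ 2) z :=
        Pl.Ed_congr fun u hu => (hG0 _ (hdisc _ hr (hrm.trans (min_le_right _ _)) z hz u hu)).symm
      have e2 : Pl.Ed (rh c t) (Spl f t N b) z =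
          Pl.Ed (rh c t) (fun z => ∑ n ∈ Finset.Icc (-(N : ℤ)) N, b n ^ 2 * ‖G n z‖ ^ 2) z :=
        Pl.Ed_congr fun u hu => (hGS _ (hdisc _ hr (hrm.trans (min_le_right _ _)) z hz u hu)).symm
      simp only [e1, e2]
    · have : φ z = 0 := image_eq_zero_of_notMem_tsupport hz
      simp only [this, zero_mul]
  rw [heq]
  refine hmain.trans ?_
  have hq := quot (c := c) ht1 hD.pack.hi
  calc C₁ * ((N : ℝ) / (rh c t * t)) ^ 2 * (c3 * B)
      ≤ C₁ * (4 * t ^ (-(c / 800))) * (c3 * B) := by gcongr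
    _ = 4 * C₁ * c3 * t ^ (-(c / 800)) * B := by ring

end

end Pool.Agent.A54.Hp
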