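import Pool.Agent.Lib.MP_a54f13_nt.Hp.SpecN

/-!
# Hp/DuF: sums of exponentials over a set without coincidences modulo the integral lattice

`StmtDuF` (package `Hp`, part N). The set `D` meets its translates by nonzero integral vectors in the empty set, so the
integral of a periodic function over `D` is at most its integral over the unit cube; there the exponentials are orthonormal.
-/

set_option autoImplicit false

namespace Pool.Agent.A54.Hp

open MeasureTheory Filter Topology Set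
open scoped ENNReal

noncomputable section

namespace DuFN

/-- the exponential -/
def e (m : Fin 4 → ℤ) (t : Fin 4 → ℝ) : ℂ :=
  Complex.exp (2 * Real.pi * Complex.I * ((∑ i, (m i : ℝ) * t i : ℝ) : ℂ))

/-- one-dimensional orthogonality -/
theorem int1 (k : ℤ) :
    ∫ t in Ico (0 : ℝ) 1, Complex.exp (2 * Real.pi * Complex.I * (((k : ℝ) * t : ℝ) : ℂ)) =
      if k = 0 then 1 else 0 := by
  rw [integral_Ico_eq_integral_Ioc, ← intervalIntegral.integral_of_le (by norm_num)]
  split_ifs with hk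
  · subst hk
    simp
  · have hc : (2 * Real.pi * Complex.I * (k : ℂ)) ≠ 0 := by
      have : (k : ℂ) ≠ 0 := by exact_mod_cast hk
      have h2 : (Real.pi : ℂ) ≠ 0 := by exact_mod_cast Real.pi_ne_zero
      simp [this, h2, Complex.I_ne_zero]
    have h1 : ∀ t : ℝ, Complex.exp (2 * Real.pi * Complex.I * (((k : ℝ) * t : ℝ) : ℂ)) =
        Complex.exp ((2 * Real.pi * Complex.I * (k : ℂ)) * t) := by
      intro t
      congr 1
      push_cast
      ring
    simp_rw [h1]
    rw [integral_exp_mul_complex hc]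
    have h3 : Complex.exp (2 * Real.pi * Complex.I * (k : ℂ) * ((1 : ℝ) : ℂ)) = 1 := by
      rw [Complex.exp_eq_one_iff]
      exact ⟨k, by push_cast; ring⟩
    rw [h3]
    simp

/-- the unit cube -/
def Q : Set (Fin 4 → ℝ) := Set.univ.pi fun _ => Ico (0 : ℝ) 1

theorem intQ (k : Fin 4 → ℤ) : ∫ t in Q, e k t = if k = 0 then 1 else 0 := by
  have h1 : (volume : Measure (Fin 4 → ℝ)).restrict Q =
      Measure.pi (fun _ : Fin 4 => (volume : Measure ℝ).restrict (Ico (0 : ℝ) 1)) := by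
    rw [Q, volume_pi, Measure.restrict_pi_pi]
  have h2 : ∀ t : Fin 4 → ℝ, e k t =
      ∏ i, Complex.exp (2 * Real.pi * Complex.I * (((k i : ℝ) * t i : ℝ) : ℂ)) := by
    intro t
    rw [← Complex.exp_sum, e]
    congr 1
    push_cast
    rw [Finset.mul_sum]
  rw [h1]
  simp_rw [h2]
  rw [integral_fintype_prod_eq_prod
    (f := fun i (x : ℝ) => Complex.exp (2 * Real.pi * Complex.I * (((k i : ℝ) * x : ℝ) : ℂ)))]
  simp_rw [int1]
  split_ifs with h
  · subst h
    simp
  · have : ∃ i, k i ≠ 0 := by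
      by_contra h3
      push Not at h3
      exact h (funext h3)
    obtain ⟨i, hi⟩ := this
    exact Finset.prod_eq_zero (Finset.mem_univ i) (by simp [hi])

theorem e_cont (m : Fin 4 → ℤ) : Continuous (e m) := by
  unfold e
  fun_prop

theorem e_norm (m : Fin 4 → ℤ) (t : Fin 4 → ℝ) : ‖e m t‖ = 1 := by
  have : (2 * Real.pi * Complex.I * ((∑ i, (m i : ℝ) * t i : ℝ) : ℂ)) =
      ((2 * Real.pi * (∑ i, (m i : ℝ) * t i) : ℝ) : ℂ) * Complex.I := by
    push_cast
    ring
  rw [e, this, Complex.norm_exp_ofReal_mul_I]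

theorem e_conj (m m' : Fin 4 → ℤ) (t : Fin 4 → ℝ) :
    e m t * (starRingEnd ℂ) (e m' t) = e (m - m') t := by
  have h : (starRingEnd ℂ) (e m' t) =
      Complex.exp (-(2 * Real.pi * Complex.I * ((∑ i, (m' i : ℝ) * t i : ℝ) : ℂ))) := by
    rw [e, ← Complex.exp_conj]
    congr 1
    simp [map_ofNat]
  rw [h, e, e, ← Complex.exp_add]
  congr 1
  push_cast
  simp only [Pi.sub_apply, Int.cast_sub, sub_mul, Finset.sum_sub_distrib]
  ring

theorem e_per (m n : Fin 4 → ℤ) (t t' : Fin 4 → ℝ) (h : ∀ i, t' i = t i + n i) :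
    e m t' = e m t := by
  rw [e, e, Complex.exp_eq_exp_iff_exists_int]
  refine ⟨∑ i, m i * n i, ?_⟩
  simp_rw [h]
  push_cast
  simp only [mul_add, Finset.sum_add_distrib]
  ring

/-- the sum of exponentials -/
def F (S : Finset (Fin 4 → ℤ)) (t : Fin 4 → ℝ) : ℂ := ∑ m ∈ S, e m t

theorem F_cont (S : Finset (Fin 4 → ℤ)) : Continuous (F S) := by
  unfold F
  exact continuous_finsetSum _ fun m _ => e_cont m

theorem F_sq (S : Finset (Fin 4 → ℤ)) (t : Fin 4 → ℝ) :
    ((‖F S t‖ ^ 2 : ℝ) : ℂ) = ∑ m ∈ S, ∑ m' ∈ S, e (m - m') t := by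
  have h : ((‖F S t‖ ^ 2 : ℝ) : ℂ) = F S t * (starRingEnd ℂ) (F S t) := by
    rw [Complex.mul_conj, Complex.normSq_eq_norm_sq]
  rw [h, F, map_sum, Finset.sum_mul_sum]
  exact Finset.sum_congr rfl fun m _ => Finset.sum_congr rfl fun m' _ => e_conj m m' t

theorem Q_vol : volume Q = 1 := by
  rw [Q, volume_pi, Measure.pi_pi]
  simp

theorem e_int (k : Fin 4 → ℤ) : IntegrableOn (e k) Q := by
  refine Measure.integrableOn_of_bounded (M := 1) (by rw [Q_vol]; simp)
    (e_cont k).aestronglyMeasurable ?_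
  exact Eventually.of_forall fun t => (e_norm k t).le

theorem intF (S : Finset (Fin 4 → ℤ)) : ∫ t in Q, ‖F S t‖ ^ 2 = S.card := by
  have h : ((∫ t in Q, ‖F S t‖ ^ 2 : ℝ) : ℂ) = S.card := by
    rw [← integral_complex_ofReal]
    simp_rw [F_sq]
    rw [integral_finsetSum]
    · have h1 : ∀ m ∈ S, ∫ t in Q, ∑ m' ∈ S, e (m - m') t = 1 := by
        intro m hm
        rw [integral_finsetSum]
        · simp_rw [intQ, sub_eq_zero]
          simp [hm]
        · intro m' _
          exact e_int _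
      rw [Finset.sum_congr rfl h1]
      simp
    · intro m _
      exact integrable_finsetSum _ fun m' _ => e_int _
  exact_mod_cast h

theorem lintF (S : Finset (Fin 4 → ℤ)) : ∫⁻ t in Q, ‖F S t‖ₑ ^ 2 = (S.card : ℝ≥0∞) := by
  have h1 : ∀ t, ‖F S t‖ₑ ^ 2 = ENNReal.ofReal (‖F S t‖ ^ 2) := by
    intro t
    rw [ENNReal.ofReal_pow (norm_nonneg _), ofReal_norm]
  simp_rw [h1]
  have hb : ∀ t, ‖F S t‖ ≤ S.card := by
    intro t
    rw [F]
    refine (norm_sum_le _ _).trans ?_
    simp [e_norm]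
  rw [← ofReal_integral_eq_lintegral_ofReal, intF]
  · simp
  · refine Measure.integrableOn_of_bounded (M := (S.card : ℝ) ^ 2) (by rw [Q_vol]; simp)
      ((F_cont S).norm.pow 2).aestronglyMeasurable ?_
    refine Eventually.of_forall fun t => ?_
    rw [Real.norm_of_nonneg (by positivity)]
    exact pow_le_pow_left₀ (norm_nonneg _) (hb t) 2
  · exact Eventually.of_forall fun t => by positivity

/-- the integral vectors -/
abbrev L : AddSubgroup (Fin 4 → ℝ) :=
  (Submodule.span ℤ (Set.range (Pi.basisFun ℝ (Fin 4)))).toAddSubgroup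

instance : Countable L :=
  inferInstanceAs (Countable (Submodule.span ℤ (Set.range (Pi.basisFun ℝ (Fin 4)))))

theorem mem_L {v : Fin 4 → ℝ} (hv : v ∈ L) : ∃ n : Fin 4 → ℤ, ∀ i, v i = n i := by
  have h : v ∈ Submodule.span ℤ (Set.range (Pi.basisFun ℝ (Fin 4))) := hv
  rw [Module.Basis.mem_span_iff_repr_mem] at h
  choose n hn using h
  refine ⟨n, fun i => ?_⟩
  have := hn i
  simpa using this.symm

theorem Q_eq : ZSpan.fundamentalDomain (Pi.basisFun ℝ (Fin 4)) = Q := by
  ext t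
  rw [ZSpan.mem_fundamentalDomain, Q]
  simp

theorem fund : IsAddFundamentalDomain L Q (volume : Measure (Fin 4 → ℝ)) := by
  rw [← Q_eq]
  exact ZSpan.isAddFundamentalDomain' _ _

theorem le_Q (D : Set (Fin 4 → ℝ)) (hD : MeasurableSet D)
    (hinj : ∀ t ∈ D, ∀ t' ∈ D, ∀ n : Fin 4 → ℤ, (∀ i, t i - t' i = (n i : ℝ)) → n = 0)
    (f : (Fin 4 → ℝ) → ℝ≥0∞)
    (hf : ∀ (n : Fin 4 → ℤ) (t t' : Fin 4 → ℝ), (∀ i, t' i = t i + n i) → f t' = f t) :
    ∫⁻ t in D, f t ≤ ∫⁻ t in Q, f t := by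
  have hfL : ∀ (g : L) (t : Fin 4 → ℝ), f (g +ᵥ t) = f t := by
    intro g t
    obtain ⟨n, hn⟩ := mem_L g.2
    refine hf n t _ fun i => ?_
    rw [AddSubgroup.vadd_def, vadd_eq_add, Pi.add_apply, hn i]
    ring
  have hQm : MeasurableSet Q := MeasurableSet.univ_pi fun _ => measurableSet_Ico
  rw [fund.setLIntegral_eq_tsum' f D]
  simp_rw [hfL]
  rw [← lintegral_iUnion]
  · exact lintegral_mono_set (iUnion_subset fun g => inter_subset_right)
  · intro g
    exact (hD.const_vadd g).inter hQm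
  · intro g g' hg
    refine Set.disjoint_left.2 ?_
    rintro x ⟨hx, -⟩ ⟨hx', -⟩
    apply hg
    rw [Set.mem_vadd_set] at hx hx'
    obtain ⟨t, ht, rfl⟩ := hx
    obtain ⟨t', ht', h⟩ := hx'
    obtain ⟨n, hn⟩ := mem_L (g' - g).2
    have h0 : n = 0 := by
      refine hinj t ht t' ht' n fun i => ?_
      have h1 := congrFun h i
      rw [AddSubgroup.vadd_def, AddSubgroup.vadd_def, vadd_eq_add, vadd_eq_add, Pi.add_apply,
        Pi.add_apply] at h1
      have h2 := hn i
      rw [AddSubgroup.coe_sub, Pi.sub_apply] at h2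
      linarith
    apply Subtype.ext
    funext i
    have h2 := hn i
    rw [AddSubgroup.coe_sub, Pi.sub_apply, h0] at h2
    simp only [Pi.zero_apply, Int.cast_zero] at h2
    linarith

end DuFN

theorem stmtDuF : StmtDuF := by
  intro S D hD hinj
  refine (DuFN.le_Q D hD hinj (fun t => ‖DuFN.F S t‖ₑ ^ 2) ?_).trans (DuFN.lintF S).le
  intro n t t' h
  have : DuFN.F S t' = DuFN.F S t := by
    unfold DuFN.F
    exact Finset.sum_congr rfl fun m _ => DuFN.e_per m n t t' h
  simp only [this]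

end

end Pool.Agent.A54.Hp
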