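import Pool.Agent.Lib.MP_a54f13_nt.Hp.SpecN

/-! DuL: few lattice points if the dual lattice has no short vector. -/

set_option autoImplicit false

namespace Pool.Agent.A54.Hp

open MeasureTheory Filter Topology Set
open scoped ENNReal

namespace DuLN

/-- the box of the dual side -/
def bx (B : Fin 4 → ℝ) : Set (Fin 4 → ℝ) :=
  Set.pi univ (fun i => Icc (-(1 / (64 * B i))) (1 / (64 * B i)))

theorem mem_bx {B : Fin 4 → ℝ} {τ : Fin 4 → ℝ} : τ ∈ bx B ↔ ∀ i, |τ i| ≤ 1 / (64 * B i) := by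
  unfold bx
  rw [Set.mem_univ_pi]
  exact forall_congr' fun i => by rw [Set.mem_Icc, abs_le]

theorem bx_compact (B : Fin 4 → ℝ) : IsCompact (bx B) :=
  isCompact_univ_pi fun _ => isCompact_Icc

/-- the transposed map -/
noncomputable def ff (A : Matrix (Fin 4) (Fin 4) ℝ) : (Fin 4 → ℝ) →ₗ[ℝ] (Fin 4 → ℝ) :=
  Matrix.toLin' A.transpose

theorem ff_apply (A : Matrix (Fin 4) (Fin 4) ℝ) (τ : Fin 4 → ℝ) (j : Fin 4) :
    ff A τ j = ∑ i, A i j * τ i := by
  unfold ff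
  rw [Matrix.toLin'_apply]
  simp [Matrix.mulVec, dotProduct, Matrix.transpose_apply]

theorem dd_meas (A : Matrix (Fin 4) (Fin 4) ℝ) (B : Fin 4 → ℝ) : MeasurableSet (ff A '' bx B) :=
  ((bx_compact B).image (LinearMap.continuous_of_finiteDimensional (ff A))).measurableSet

theorem dd_vol (A : Matrix (Fin 4) (Fin 4) ℝ) (B : Fin 4 → ℝ) (hA : |A.det| = 1) :
    volume (ff A '' bx B) = ∏ i, ENNReal.ofReal (1 / (32 * B i)) := by
  rw [Measure.addHaar_image_linearMap]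
  have h1 : LinearMap.det (ff A) = A.det := by
    unfold ff
    rw [LinearMap.det_toLin', Matrix.det_transpose]
  rw [h1, hA]
  unfold bx
  rw [volume_pi_pi]
  simp only [Real.volume_Icc, ENNReal.ofReal_one, one_mul]
  refine Finset.prod_congr rfl fun i _ => ?_
  congr 1
  rw [sub_neg_eq_add]
  by_cases h : B i = 0
  · simp [h]
  · field_simp
    norm_num

theorem cos_ge {x : ℝ} (hx : |x| ≤ 1 / 16) : 1 / 2 ≤ Real.cos (2 * Real.pi * x) := by
  rw [← Real.cos_abs, ← Real.cos_pi_div_three]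
  have hp := Real.pi_pos
  have h1 : |2 * Real.pi * x| ≤ Real.pi / 3 := by
    rw [abs_mul, abs_of_pos (by positivity : (0 : ℝ) < 2 * Real.pi)]
    nlinarith
  exact Real.cos_le_cos_of_nonneg_of_le_pi (abs_nonneg _) (by linarith) h1

theorem norm_ge (S : Finset (Fin 4 → ℤ)) (t : Fin 4 → ℝ)
    (h : ∀ m ∈ S, |∑ i, (m i : ℝ) * t i| ≤ 1 / 16) :
    (S.card : ℝ) / 2 ≤
      ‖∑ m ∈ S, Complex.exp (2 * Real.pi * Complex.I * ((∑ i, (m i : ℝ) * t i : ℝ) : ℂ))‖ := by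
  refine le_trans ?_ (Complex.re_le_norm _)
  rw [Complex.re_sum]
  have h1 : ∀ m ∈ S, (1 : ℝ) / 2 ≤
      (Complex.exp (2 * Real.pi * Complex.I * ((∑ i, (m i : ℝ) * t i : ℝ) : ℂ))).re := by
    intro m hm
    have h2 : (2 * Real.pi * Complex.I * ((∑ i, (m i : ℝ) * t i : ℝ) : ℂ)) =
        ((2 * Real.pi * (∑ i, (m i : ℝ) * t i) : ℝ) : ℂ) * Complex.I := by
      push_cast
      ring
    rw [h2, Complex.exp_ofReal_mul_I_re]
    exact cos_ge (h m hm)
  have h3 := Finset.sum_le_sum h1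
  rw [Finset.sum_const, nsmul_eq_mul] at h3
  linarith

theorem dot_le (A : Matrix (Fin 4) (Fin 4) ℝ) (B : Fin 4 → ℝ) (hB : ∀ i, 0 < B i)
    (m : Fin 4 → ℤ) (hm : ∀ i, |∑ j, A i j * (m j : ℝ)| ≤ B i) (τ : Fin 4 → ℝ)
    (hτ : ∀ i, |τ i| ≤ 1 / (64 * B i)) : |∑ j, (m j : ℝ) * ff A τ j| ≤ 1 / 16 := by
  have h1 : ∑ j, (m j : ℝ) * ff A τ j = ∑ i, (∑ j, A i j * (m j : ℝ)) * τ i := by
    simp only [ff_apply, Finset.mul_sum, Finset.sum_mul]
    rw [Finset.sum_comm]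
    exact Finset.sum_congr rfl fun i _ => Finset.sum_congr rfl fun j _ => by ring
  rw [h1]
  refine (Finset.abs_sum_le_sum_abs _ _).trans ?_
  have h2 : ∀ i ∈ (Finset.univ : Finset (Fin 4)),
      |(∑ j, A i j * (m j : ℝ)) * τ i| ≤ 1 / 64 := by
    intro i _
    rw [abs_mul]
    calc |∑ j, A i j * (m j : ℝ)| * |τ i| ≤ B i * (1 / (64 * B i)) :=
          mul_le_mul (hm i) (hτ i) (abs_nonneg _) (hB i).le
      _ = 1 / 64 := by
          have := (hB i).ne'
          field_simp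
  refine (Finset.sum_le_sum h2).trans ?_
  simp
  norm_num

end DuLN

open DuLN

theorem stmtDuL (hF : StmtDuF) : StmtDuL := by
  intro A B hA hB hdual S hS
  have hpB : 0 < ∏ i, B i := Finset.prod_pos fun i _ => hB i
  rcases Finset.eq_empty_or_nonempty S with rfl | hne
  · simp only [Finset.card_empty, Nat.cast_zero]
    positivity
  have hc : (0 : ℝ) < (S.card : ℝ) := by exact_mod_cast hne.card_pos
  have h1 := hF S (ff A '' bx B) (dd_meas A B) (by
    rintro _ ⟨τ, hτ, rfl⟩ _ ⟨τ', hτ', rfl⟩ n hn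
    refine hdual n (fun i => τ i - τ' i) (fun j => ?_) (fun i => ?_)
    · rw [← hn j, ff_apply, ff_apply, ← Finset.sum_sub_distrib]
      exact Finset.sum_congr rfl fun i _ => by ring
    · have e1 := mem_bx.1 hτ i
      have e2 := mem_bx.1 hτ' i
      have e3 : (1 : ℝ) / (32 * B i) = 1 / (64 * B i) + 1 / (64 * B i) := by
        have := (hB i).ne'
        field_simp
        norm_num
      rw [e3]
      exact (abs_sub _ _).trans (add_le_add e1 e2))
  have h2 : ENNReal.ofReal (((S.card : ℝ) / 2) ^ 2) * volume (ff A '' bx B) ≤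
      ∫⁻ t in ff A '' bx B,
        ‖∑ m ∈ S, Complex.exp (2 * Real.pi * Complex.I * ((∑ i, (m i : ℝ) * t i : ℝ) : ℂ))‖ₑ ^ 2 := by
    rw [← setLIntegral_const]
    refine setLIntegral_mono' (dd_meas A B) ?_
    rintro _ ⟨τ, hτ, rfl⟩
    have e1 := norm_ge S (ff A τ) (fun m hm => dot_le A B hB m (hS m hm) τ (mem_bx.1 hτ))
    rw [← ofReal_norm, ← ENNReal.ofReal_pow (norm_nonneg _)]
    exact ENNReal.ofReal_le_ofReal (pow_le_pow_left₀ (by positivity) e1 2)
  have h3 := h2.trans h1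
  rw [dd_vol A B hA, ← ENNReal.ofReal_prod_of_nonneg (fun i _ => by have := hB i; positivity),
    ← ENNReal.ofReal_mul (by positivity), ← ENNReal.ofReal_natCast,
    ENNReal.ofReal_le_ofReal_iff (by positivity)] at h3
  have h4 : ∏ i, (1 : ℝ) / (32 * B i) = 1 / (2 ^ 20 * ∏ i, B i) := by
    rw [Finset.prod_div_distrib, Finset.prod_const_one, Finset.prod_mul_distrib]
    norm_num
  rw [h4] at h3
  have h5 : ((S.card : ℝ) / 2) ^ 2 ≤ (S.card : ℝ) * (2 ^ 20 * ∏ i, B i) := by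
    have h6 : (0 : ℝ) < 2 ^ 20 * ∏ i, B i := by positivity
    calc ((S.card : ℝ) / 2) ^ 2 =
        (((S.card : ℝ) / 2) ^ 2 * (1 / (2 ^ 20 * ∏ i, B i))) * (2 ^ 20 * ∏ i, B i) := by
          field_simp
      _ ≤ _ := mul_le_mul_of_nonneg_right h3 h6.le
  nlinarith

end Pool.Agent.A54.Hp
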