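import Pool.Agent.Lib.MP_a54f13_nt.Hp.SpecA
import Pool.Agent.Lib.MP_a54f13_nt.Pl.E2

/-!
# THEOREM A, module E2s: means of derivatives with the constant `C / r ^ 2`
-/

set_option autoImplicit false

namespace Pool.Agent.A54.Hp.E2sM

open MeasureTheory Filter Topology Set
open scoped ContDiff ComplexConjugate UpperHalfPlane MatrixGroups ENNReal
open Pool.Agent.A54.Half (H0)

noncomputable section

/-- the derivative of the smooth step is bounded and vanishes outside `[0, 1]` -/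
lemma sigma_bound : ∃ M : ℝ, 0 ≤ M ∧ (∀ x, |deriv Real.smoothTransition x| ≤ M) ∧
    ∀ x, x < 0 ∨ 1 < x → deriv Real.smoothTransition x = 0 := by
  have h0 : ∀ x, x < 0 ∨ 1 < x → deriv Real.smoothTransition x = 0 := by
    rintro x (hx | hx)
    · have h1 : Real.smoothTransition =ᶠ[𝓝 x] fun _ => (0 : ℝ) := by
        filter_upwards [Iio_mem_nhds hx] with y hy
        exact Real.smoothTransition.zero_of_nonpos (le_of_lt hy)
      rw [h1.deriv_eq, deriv_const]
    · have h1 : Real.smoothTransition =ᶠ[𝓝 x] fun _ => (1 : ℝ) := by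
        filter_upwards [Ioi_mem_nhds hx] with y hy
        exact Real.smoothTransition.one_of_one_le (le_of_lt hy)
      rw [h1.deriv_eq, deriv_const]
  have hc : Continuous (deriv Real.smoothTransition) :=
    (Real.smoothTransition.contDiff (n := 1)).continuous_deriv le_rfl
  obtain ⟨M, hM⟩ := (isCompact_Icc (a := (0 : ℝ)) (b := 1)).exists_bound_of_continuousOn
    hc.continuousOn
  refine ⟨|M|, abs_nonneg _, fun x => ?_, h0⟩
  by_cases hx : x ∈ Icc (0 : ℝ) 1
  · have := hM x hx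
    rw [Real.norm_eq_abs] at this
    exact this.trans (le_abs_self M)
  · rw [h0 x, abs_zero]
    · exact abs_nonneg _
    · by_contra h1
      push Not at h1
      exact hx ⟨h1.1, h1.2⟩

/-- the argument of the smooth step -/
def qh (h : ℝ) (u : ℂ) : ℝ := (1 - h - ‖u‖ ^ 2) / h

/-- the bump function -/
def bh (h : ℝ) (u : ℂ) : ℝ := Real.smoothTransition (qh h u)

lemma contDiff_qh (h : ℝ) : ContDiff ℝ ∞ (qh h) := by
  unfold qh
  exact (contDiff_const.sub (contDiff_norm_sq ℝ)).div_const _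

lemma contDiff_bh (h : ℝ) : ContDiff ℝ ∞ (bh h) :=
  Real.smoothTransition.contDiff.comp (contDiff_qh h)

lemma hasFDerivAt_qh (h : ℝ) (u : ℂ) :
    HasFDerivAt (qh h) (-(h⁻¹ * 2) • (innerSL ℝ u : ℂ →L[ℝ] ℝ)) u := by
  have h1 := (hasStrictFDerivAt_norm_sq u).hasFDerivAt
  have h2 := (h1.const_sub (1 - h)).const_mul h⁻¹
  have h3 : (qh h) = fun y : ℂ => h⁻¹ * (1 - h - ‖y‖ ^ 2) := by
    funext y
    unfold qh
    rw [div_eq_inv_mul]
  rw [h3]
  refine h2.congr_fderiv ?_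
  ext v
  simp
  ring

lemma hasFDerivAt_bh (h : ℝ) (u : ℂ) :
    HasFDerivAt (bh h) (deriv Real.smoothTransition (qh h u) •
      (-(h⁻¹ * 2) • (innerSL ℝ u : ℂ →L[ℝ] ℝ))) u := by
  have h1 : HasDerivAt Real.smoothTransition (deriv Real.smoothTransition (qh h u)) (qh h u) :=
    ((Real.smoothTransition.contDiff (n := 1)).differentiable (by simp) _).hasDerivAt
  exact h1.comp_hasFDerivAt u (hasFDerivAt_qh h u)

lemma norm_dzb {h : ℝ} (h0 : 0 < h) (u : ℂ) :
    ‖dzb (fun u => ((bh h u : ℝ) : ℂ)) u‖ ≤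
      4 * |deriv Real.smoothTransition (qh h u)| * h⁻¹ * ‖u‖ := by
  have h1 : HasFDerivAt (fun u => ((bh h u : ℝ) : ℂ)) (Complex.ofRealCLM.comp
      (deriv Real.smoothTransition (qh h u) • (-(h⁻¹ * 2) • (innerSL ℝ u : ℂ →L[ℝ] ℝ)))) u :=
    (Complex.ofRealCLM.hasFDerivAt).comp u (hasFDerivAt_bh h u)
  have h2 : ∀ v : ℂ, ‖v‖ = 1 → ‖fderiv ℝ (fun u => ((bh h u : ℝ) : ℂ)) u v‖ ≤
      2 * |deriv Real.smoothTransition (qh h u)| * h⁻¹ * ‖u‖ := by
    intro v hv
    rw [h1.fderiv]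
    simp only [ContinuousLinearMap.comp_apply, Complex.ofRealCLM_apply, Complex.norm_real,
      Real.norm_eq_abs, smul_apply, smul_eq_mul, innerSL_apply_apply, abs_mul]
    have h3 : |inner ℝ u v| ≤ ‖u‖ * ‖v‖ := abs_real_inner_le_norm u v
    rw [hv, mul_one] at h3
    have h4 : |-(h⁻¹ * 2)| = h⁻¹ * 2 := by
      rw [abs_neg, abs_of_pos (by positivity)]
    rw [h4]
    calc |deriv Real.smoothTransition (qh h u)| * (h⁻¹ * 2 * |inner ℝ u v|)
        ≤ |deriv Real.smoothTransition (qh h u)| * (h⁻¹ * 2 * ‖u‖) := by gcongr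
      _ = _ := by ring
  unfold dzb
  refine (norm_add_le _ _).trans ?_
  have h5 := h2 1 (by simp)
  have h6 := h2 Complex.I (by simp)
  rw [norm_mul, Complex.norm_I, one_mul]
  linarith

/-- the annulus -/
def Ann (h : ℝ) : Set ℂ := Metric.closedBall 0 (√(1 - h)) \ Metric.ball 0 (√(1 - 2 * h))

lemma vol_Ann {h : ℝ} (h0 : 0 < h) (h1 : h < 1 / 2) : (volume (Ann h)).toReal = Real.pi * h := by
  unfold Ann
  have hsub : Metric.ball (0 : ℂ) (√(1 - 2 * h)) ⊆ Metric.closedBall 0 (√(1 - h)) :=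
    Metric.ball_subset_closedBall.trans
      (Metric.closedBall_subset_closedBall (Real.sqrt_le_sqrt (by linarith)))
  rw [measure_sdiff hsub measurableSet_ball.nullMeasurableSet measure_ball_lt_top.ne,
    ENNReal.toReal_sub_of_le (measure_mono hsub) measure_closedBall_lt_top.ne,
    Complex.volume_ball, Complex.volume_closedBall]
  simp only [ENNReal.toReal_mul, ENNReal.toReal_pow, ENNReal.coe_toReal, NNReal.coe_real_pi]
  rw [ENNReal.toReal_ofReal (Real.sqrt_nonneg _), ENNReal.toReal_ofReal (Real.sqrt_nonneg _),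
    Real.sq_sqrt (by linarith), Real.sq_sqrt (by linarith)]
  ring

lemma measurableSet_Ann (h : ℝ) : MeasurableSet (Ann h) :=
  measurableSet_closedBall.diff measurableSet_ball

lemma int_dzb {h M : ℝ} (h0 : 0 < h) (h1 : h < 1 / 2) (hM0 : 0 ≤ M)
    (hM : ∀ x, |deriv Real.smoothTransition x| ≤ M)
    (hM' : ∀ x, x < 0 ∨ 1 < x → deriv Real.smoothTransition x = 0) :
    ∫ u in Metric.ball (0 : ℂ) 1, ‖dzb (fun u => ((bh h u : ℝ) : ℂ)) u‖ ≤ 4 * M * Real.pi := by
  have hfin : IsFiniteMeasure (volume.restrict (Metric.ball (0 : ℂ) 1)) :=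
    ⟨by rw [Measure.restrict_apply_univ]; exact measure_ball_lt_top⟩
  have hC : ContDiff ℝ ∞ (fun u => ((bh h u : ℝ) : ℂ)) := contDiff_ofReal (contDiff_bh h)
  have hcont : Continuous (dzb (fun u => ((bh h u : ℝ) : ℂ))) := (contDiff_dzb hC).continuous
  have hint : IntegrableOn (fun u => ‖dzb (fun u => ((bh h u : ℝ) : ℂ)) u‖)
      (Metric.ball (0 : ℂ) 1) :=
    (hcont.norm.continuousOn.integrableOn_compact (isCompact_closedBall (0 : ℂ) 1)).mono_set
      Metric.ball_subset_closedBall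
  have hind : IntegrableOn ((Ann h).indicator fun _ => 4 * M * h⁻¹) (Metric.ball (0 : ℂ) 1) :=
    (integrable_const (4 * M * h⁻¹)).indicator (measurableSet_Ann h)
  have hle : ∫ u in Metric.ball (0 : ℂ) 1, ‖dzb (fun u => ((bh h u : ℝ) : ℂ)) u‖ ≤
      ∫ u in Metric.ball (0 : ℂ) 1, (Ann h).indicator (fun _ => 4 * M * h⁻¹) u := by
    refine setIntegral_mono_on hint hind measurableSet_ball fun u hu => ?_
    have hu1 : ‖u‖ ≤ 1 := by
      rw [mem_ball_zero_iff] at hu
      exact hu.le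
    have h2 := norm_dzb h0 u
    by_cases hA : u ∈ Ann h
    · rw [indicator_of_mem hA]
      refine h2.trans ?_
      have h3 := hM (qh h u)
      calc 4 * |deriv Real.smoothTransition (qh h u)| * h⁻¹ * ‖u‖
          ≤ 4 * M * h⁻¹ * 1 := by gcongr
        _ = 4 * M * h⁻¹ := mul_one _
    · rw [indicator_of_notMem hA]
      have h4 : deriv Real.smoothTransition (qh h u) = 0 := by
        refine hM' _ ?_
        by_contra h5
        push Not at h5
        obtain ⟨h6, h7⟩ := h5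
        unfold qh at h6 h7
        have h8 : 0 ≤ 1 - h - ‖u‖ ^ 2 := by
          by_contra h9
          push Not at h9
          have := div_neg_of_neg_of_pos h9 h0
          linarith
        rw [div_le_one h0] at h7
        refine hA ⟨?_, ?_⟩
        · rw [mem_closedBall_zero_iff]
          exact Real.le_sqrt_of_sq_le (by linarith)
        · rw [mem_ball_zero_iff, not_lt]
          exact Real.sqrt_le_iff.2 ⟨norm_nonneg _, by linarith⟩
      rw [h4, abs_zero] at h2
      simpa using h2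
  refine hle.trans ?_
  rw [integral_indicator (measurableSet_Ann h), Measure.restrict_restrict (measurableSet_Ann h),
    setIntegral_const, Measure.real]
  have h5 : (volume (Ann h ∩ Metric.ball (0 : ℂ) 1)).toReal ≤ Real.pi * h := by
    rw [← vol_Ann h0 h1]
    refine ENNReal.toReal_mono ?_ (measure_mono inter_subset_left)
    exact (measure_mono (sdiff_subset)).trans_lt measure_closedBall_lt_top |>.ne
  rw [smul_eq_mul]
  calc (volume (Ann h ∩ Metric.ball (0 : ℂ) 1)).toReal * (4 * M * h⁻¹)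
      ≤ (Real.pi * h) * (4 * M * h⁻¹) := by gcongr
    _ = 4 * M * Real.pi := by field_simp

lemma bh_nonneg (h : ℝ) (u : ℂ) : 0 ≤ bh h u := Real.smoothTransition.nonneg _

lemma bh_le_one (h : ℝ) (u : ℂ) : bh h u ≤ 1 := Real.smoothTransition.le_one _

lemma bh_one {h : ℝ} (h0 : 0 < h) (h1 : h < 1 / 2) (u : ℂ)
    (hu : u ∈ Metric.ball (0 : ℂ) (√(1 - 2 * h))) : bh h u = 1 := by
  refine Real.smoothTransition.one_of_one_le ?_
  unfold qh
  rw [mem_ball_zero_iff] at hu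
  have h2 : ‖u‖ ^ 2 ≤ 1 - 2 * h := by
    have := Real.sq_sqrt (show 0 ≤ 1 - 2 * h by linarith)
    rw [← this]
    exact pow_le_pow_left₀ (norm_nonneg _) hu.le 2
  rw [le_div_iff₀ h0]
  linarith

lemma bh_supp {h : ℝ} (h0 : 0 < h) (h1 : h < 1 / 2) :
    tsupport (bh h) ⊆ Metric.closedBall (0 : ℂ) (√(1 - h)) := by
  refine closure_minimal ?_ Metric.isClosed_closedBall
  intro u hu
  rw [mem_closedBall_zero_iff]
  by_contra h2
  push Not at h2
  refine hu (Real.smoothTransition.zero_of_nonpos ?_)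
  unfold qh
  refine div_nonpos_of_nonpos_of_nonneg ?_ h0.le
  have h3 : 1 - h ≤ ‖u‖ ^ 2 := by
    have h4 := Real.sq_sqrt (show 0 ≤ 1 - h by linarith)
    rw [← h4]
    exact pow_le_pow_left₀ (Real.sqrt_nonneg _) h2.le 2
  linarith

lemma bh_test {h : ℝ} (h0 : 0 < h) (h1 : h < 1 / 2) : TestR (Metric.ball (0 : ℂ) 1) (bh h) := by
  refine ⟨contDiff_bh h, ?_, ?_⟩
  · exact (isCompact_closedBall (0 : ℂ) (√(1 - h))).of_isClosed_subset (isClosed_tsupport _)
      (bh_supp h0 h1)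
  · refine (bh_supp h0 h1).trans (Metric.closedBall_subset_ball ?_)
    rw [Real.sqrt_lt' one_pos]
    linarith

end

end Pool.Agent.A54.Hp.E2sM

namespace Pool.Agent.A54.Hp

open MeasureTheory Filter Topology Set
open scoped ContDiff ComplexConjugate UpperHalfPlane MatrixGroups ENNReal
open Pool.Agent.A54.Half (H0)
open E2sM
open Pool.Agent.A54.Pl (lin Ed continuous_Ed)
open Pool.Agent.A54.Pl.E2M (A continuous_A decomp kernel_le exists_im_lb)

theorem stmtE2s (h : Pl.StmtE1k) : StmtE2s := by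
  intro V hVo hV φ hφ hφ0
  obtain ⟨ζ, C0, r0, hζ, hC0, hr0, hE⟩ := h V hVo hV φ hφ hφ0
  obtain ⟨m0, hm0, hm⟩ := exists_im_lb hV hφ
  obtain ⟨M, hM0, hM, hM'⟩ := sigma_bound
  have hpi := Real.pi_pos
  refine ⟨ζ, 2 * ((Real.pi * m0) ^ 2)⁻¹ * (C0 * (4 * M * Real.pi) ^ 2), min r0 1, hζ,
    by positivity, lt_min hr0 one_pos, min_le_right _ _, fun r hr hrr W hW => ?_⟩
  have hrr0 : r ≤ r0 := hrr.trans (min_le_left _ _)
  have hX : 0 ≤ ∫ z, ζ z ^ 2 * ‖dzb W z‖ ^ 2 := integral_nonneg fun z => by positivity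
  have hY : 0 ≤ ∫ z, ζ z ^ 2 * ‖W z‖ ^ 2 := integral_nonneg fun z => by positivity
  set X := ∫ z, ζ z ^ 2 * ‖dzb W z‖ ^ 2 with hXdef
  set Y := ∫ z, ζ z ^ 2 * ‖W z‖ ^ 2 with hYdef
  -- the bound for every small parameter
  have key : ∀ g : ℝ, 0 < g → g < 1 / 2 → ∫ z, φ z * ‖Ed r (dzb W) z‖ ^ 2 ≤
      2 * (C0 * (2 * g) ^ 2 * X) +
      2 * ((Real.pi * m0 * r) ^ 2)⁻¹ * (C0 * (4 * M * Real.pi) ^ 2 * Y) := by
    intro g hg0 hg1
    have hbT' := bh_test hg0 hg1
    set bc : ℂ → ℂ := fun u => ((bh g u : ℝ) : ℂ) with hbcdef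
    have hbC : ContDiff ℝ ∞ bc := contDiff_ofReal (contDiff_bh g)
    have hbT : Test (Metric.ball (0 : ℂ) 1) bc := TestR.toTest hbT'
    set k1 : ℂ → ℂ := fun u => ((Real.pi : ℂ))⁻¹ * (1 - bc u) with hk1
    have hk1c : Continuous k1 := continuous_const.mul (continuous_const.sub hbC.continuous)
    have hk1b : ∀ u, ‖k1 u‖ ≤ Real.pi⁻¹ * 2 := by
      intro u
      rw [hk1]
      simp only [norm_mul, norm_inv, Complex.norm_real, Real.norm_eq_abs, abs_of_pos Real.pi_pos]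
      refine mul_le_mul_of_nonneg_left ?_ (inv_nonneg.mpr Real.pi_pos.le)
      refine (norm_sub_le _ _).trans ?_
      rw [norm_one]
      have : ‖bc u‖ ≤ 1 := by
        rw [hbcdef]
        simp only [Complex.norm_real, Real.norm_eq_abs, abs_of_nonneg (bh_nonneg g u)]
        exact bh_le_one g u
      linarith
    set k2 : ℂ → ℂ := dzb bc with hk2
    have hk2c : Continuous k2 := (contDiff_dzb hbC).continuous
    obtain ⟨B2, hB2⟩ := hk2c.bounded_above_of_compact_support (hbT.dzb).cpt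
    have hI2 : ∫ u in Metric.ball (0 : ℂ) 1, ‖k2 u‖ ≤ 4 * M * Real.pi := int_dzb hg0 hg1 hM0 hM hM'
    have hI2' : 0 ≤ ∫ u in Metric.ball (0 : ℂ) 1, ‖k2 u‖ := integral_nonneg fun u => norm_nonneg _
    have hs0 : 0 < √(1 - 2 * g) := Real.sqrt_pos.mpr (by linarith)
    have hs1 : √(1 - 2 * g) < 1 := by
      rw [Real.sqrt_lt' one_pos]
      linarith
    have hI1 : ∫ u in Metric.ball (0 : ℂ) 1, ‖k1 u‖ ≤ 2 * g := by
      have := kernel_le hs0 hs1 (bh g) (contDiff_bh g).continuous (bh_nonneg g) (bh_le_one g)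
        (bh_one hg0 hg1)
      rw [Real.sq_sqrt (by linarith)] at this
      linarith
    have hI1' : 0 ≤ ∫ u in Metric.ball (0 : ℂ) 1, ‖k1 u‖ := integral_nonneg fun u => norm_nonneg _
    have hdW : Continuous (dzb W) := (contDiff_dzb hW).continuous
    have e1 := hE r hr hrr0 (dzb W) hdW k1 hk1c.measurable ⟨_, hk1b⟩
    have e2 := hE r hr hrr0 W hW.continuous k2 hk2c.measurable ⟨B2, hB2⟩
    have hA1 : Continuous (A k1 (dzb W) r) := continuous_A hk1c hdW r
    have hA2 : Continuous (A k2 W r) := continuous_A hk2c hW.continuous r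
    have hφc := hφ.smooth.continuous
    have j1 : Integrable fun z => φ z * ‖A k1 (dzb W) r z‖ ^ 2 :=
      (hφc.mul (hA1.norm.pow 2)).integrable_of_hasCompactSupport hφ.cpt.mul_right
    have j2 : Integrable fun z => φ z * ‖A k2 W r z‖ ^ 2 :=
      (hφc.mul (hA2.norm.pow 2)).integrable_of_hasCompactSupport hφ.cpt.mul_right
    have j0 : Integrable fun z => φ z * ‖Ed r (dzb W) z‖ ^ 2 :=
      (hφc.mul ((continuous_Ed hdW r).norm.pow 2)).integrable_of_hasCompactSupport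
        hφ.cpt.mul_right
    have hpt : ∀ z, φ z * ‖Ed r (dzb W) z‖ ^ 2 ≤ 2 * (φ z * ‖A k1 (dzb W) r z‖ ^ 2) +
        2 * ((Real.pi * m0 * r) ^ 2)⁻¹ * (φ z * ‖A k2 W r z‖ ^ 2) := by
      intro z
      by_cases hz : z ∈ tsupport φ
      · have hmz := hm z hz
        have hzim : 0 < z.im := hm0.trans_le hmz
        have hrz : r * z.im ≠ 0 := (mul_pos hr hzim).ne'
        have hd : Ed r (dzb W) z = A k1 (dzb W) r z -
            (((Real.pi * (r * z.im) : ℝ) : ℂ))⁻¹ * A k2 W r z :=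
          decomp hbC hbT.cpt hbT.sub hW r z hrz
        have hn : ‖Ed r (dzb W) z‖ ≤ ‖A k1 (dzb W) r z‖ +
            (Real.pi * m0 * r)⁻¹ * ‖A k2 W r z‖ := by
          rw [hd]
          refine (norm_sub_le _ _).trans ?_
          refine add_le_add_right ?_ _
          rw [norm_mul, norm_inv, Complex.norm_real, Real.norm_eq_abs,
            abs_of_pos (by have := Real.pi_pos; positivity)]
          refine mul_le_mul_of_nonneg_right ?_ (norm_nonneg _)
          refine inv_anti₀ (by have := Real.pi_pos; positivity) ?_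
          have := Real.pi_pos
          calc Real.pi * m0 * r = Real.pi * (r * m0) := by ring
            _ ≤ Real.pi * (r * z.im) := by gcongr
        have hsq : ‖Ed r (dzb W) z‖ ^ 2 ≤ 2 * ‖A k1 (dzb W) r z‖ ^ 2 +
            2 * ((Real.pi * m0 * r) ^ 2)⁻¹ * ‖A k2 W r z‖ ^ 2 := by
          have h1 : ‖Ed r (dzb W) z‖ ^ 2 ≤ (‖A k1 (dzb W) r z‖ +
            (Real.pi * m0 * r)⁻¹ * ‖A k2 W r z‖) ^ 2 :=
            pow_le_pow_left₀ (norm_nonneg _) hn 2
          have h2 : ((Real.pi * m0 * r) ^ 2)⁻¹ = ((Real.pi * m0 * r)⁻¹) ^ 2 := by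
            rw [inv_pow]
          rw [h2]
          nlinarith [sq_nonneg (‖A k1 (dzb W) r z‖ - (Real.pi * m0 * r)⁻¹ * ‖A k2 W r z‖)]
        calc φ z * ‖Ed r (dzb W) z‖ ^ 2 ≤ φ z * (2 * ‖A k1 (dzb W) r z‖ ^ 2 +
            2 * ((Real.pi * m0 * r) ^ 2)⁻¹ * ‖A k2 W r z‖ ^ 2) :=
              mul_le_mul_of_nonneg_left hsq (hφ0 z)
          _ = _ := by ring
      · rw [image_eq_zero_of_notMem_tsupport hz]
        simp
    have hint : ∫ z, φ z * ‖Ed r (dzb W) z‖ ^ 2 ≤ 2 * (∫ z, φ z * ‖A k1 (dzb W) r z‖ ^ 2) +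
        2 * ((Real.pi * m0 * r) ^ 2)⁻¹ * ∫ z, φ z * ‖A k2 W r z‖ ^ 2 := by
      rw [← integral_const_mul, ← integral_const_mul,
        ← integral_add (j1.const_mul _) (j2.const_mul _)]
      exact integral_mono j0 ((j1.const_mul _).add (j2.const_mul _)) hpt
    have e1' : ∫ z, φ z * ‖A k1 (dzb W) r z‖ ^ 2 ≤ C0 * (2 * g) ^ 2 * X := by
      refine e1.trans (mul_le_mul_of_nonneg_right (mul_le_mul_of_nonneg_left ?_ hC0) hX)
      exact pow_le_pow_left₀ hI1' hI1 2
    have e2' : ∫ z, φ z * ‖A k2 W r z‖ ^ 2 ≤ C0 * (4 * M * Real.pi) ^ 2 * Y := by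
      refine e2.trans (mul_le_mul_of_nonneg_right (mul_le_mul_of_nonneg_left ?_ hC0) hY)
      exact pow_le_pow_left₀ hI2' hI2 2
    refine hint.trans ?_
    gcongr
  have hgoal : 2 * ((Real.pi * m0 * r) ^ 2)⁻¹ * (C0 * (4 * M * Real.pi) ^ 2 * Y) =
      2 * ((Real.pi * m0) ^ 2)⁻¹ * (C0 * (4 * M * Real.pi) ^ 2) / r ^ 2 * Y := by
    field_simp
  rw [← hgoal]
  refine le_of_forall_pos_le_add fun ε hε => ?_
  obtain ⟨g, hg0, hg1, hg⟩ : ∃ g : ℝ, 0 < g ∧ g < 1 / 2 ∧ 2 * (C0 * (2 * g) ^ 2 * X) ≤ ε := by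
    refine ⟨min (1 / 4) (ε / (8 * (C0 * X) + 1)), lt_min (by norm_num) (by positivity),
      (min_le_left _ _).trans_lt (by norm_num), ?_⟩
    set g := min (1 / 4) (ε / (8 * (C0 * X) + 1)) with hgdef
    have h0 : 0 < g := lt_min (by norm_num) (by positivity)
    have h1 : g ≤ 1 := (min_le_left _ _).trans (by norm_num)
    have h2 : g ≤ ε / (8 * (C0 * X) + 1) := min_le_right _ _
    have h3 : g ^ 2 ≤ g := by nlinarith
    have h4 : g * (8 * (C0 * X) + 1) ≤ ε := by
      rwa [le_div_iff₀ (by positivity)] at h2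
    have h5 : 0 ≤ C0 * X := mul_nonneg hC0 hX
    calc 2 * (C0 * (2 * g) ^ 2 * X) = 8 * (C0 * X) * g ^ 2 := by ring
      _ ≤ 8 * (C0 * X) * g := mul_le_mul_of_nonneg_left h3 (by positivity)
      _ ≤ g * (8 * (C0 * X) + 1) := by linarith
      _ ≤ ε := h4
  have := key g hg0 hg1
  linarith

end Pool.Agent.A54.Hp
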