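import Pool.Agent.Lib.MP_a54f13_nt.Hp.SpecB
import Pool.Agent.Lib.MP_a54f13_nt.IntLap

/-!
# Package `Hp`, `EdU`: Euclidean discs and indicator kernels
-/

set_option autoImplicit false

namespace Pool.Agent.A54.Hp

open MeasureTheory Filter Topology Set
open scoped ContDiff ComplexConjugate UpperHalfPlane MatrixGroups ENNReal NNReal
open Pool.Agent.A54.Dyn (G fl base ze io mk4 dom)
open Pool.Agent.A54.Half (H0)

noncomputable section

namespace EdUM

/-- integrability on the half-plane -/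
lemma integrable_gen (g : ℂ → ℝ) :
    Integrable (fun z : ℍ => g z) ↔
      IntegrableOn (fun w : ℂ => (1 / w.im ^ 2 : ℝ) • g w) {z : ℂ | 0 < z.im} := by
  have hmeas : Measurable (fun z : ℍ => (1 / NNReal.mk z.im z.im_pos.le : ℝ≥0) ^ 2) := by
    have h1 : Measurable (fun z : ℍ => NNReal.mk z.im z.im_pos.le) :=
      (UpperHalfPlane.continuous_im.subtype_mk _).measurable
    exact (h1.const_div 1).pow_const 2
  rw [UpperHalfPlane.volume_def, integrable_withDensity_iff_integrable_smul hmeas]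
  have h2 : (fun z : ℍ => ((1 / NNReal.mk z.im z.im_pos.le : ℝ≥0) ^ 2) • g (z : ℂ))
      = (fun w : ℂ => (1 / w.im ^ 2 : ℝ) • g w) ∘ (UpperHalfPlane.coe) := by
    funext z
    rw [NNReal.smul_def]
    simp only [Function.comp]
    congr 1
    push_cast
    simp
  rw [h2, ← UpperHalfPlane.measurableEmbedding_coe.integrable_map_iff,
    UpperHalfPlane.measurableEmbedding_coe.map_comap, IntLap.range_coe_eq]
  rfl

/-- the disc -/
lemma disc (F : ℂ → ℝ) (z : ℂ) (a : ℝ) (ha : 0 < a) :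
    ∫ u in Metric.ball (0 : ℂ) 1, F (z + (a : ℂ) * u) =
      (a ^ 2)⁻¹ * ∫ w in Metric.ball z a, F w := by
  have h1 : ∫ u in Metric.ball (0 : ℂ) 1, F (z + (a : ℂ) * u) =
      ∫ u : ℂ, (Metric.ball z a).indicator F (z + a • u) := by
    rw [← integral_indicator Metric.isOpen_ball.measurableSet]
    refine integral_congr_ae (Eventually.of_forall fun u => ?_)
    have h2 : u ∈ Metric.ball (0 : ℂ) 1 ↔ z + (a : ℂ) * u ∈ Metric.ball z a := by
      rw [mem_ball_zero_iff, mem_ball_iff_norm, add_sub_cancel_left, norm_mul, Complex.norm_real,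
        Real.norm_eq_abs, abs_of_pos ha]
      constructor
      · intro h; nlinarith
      · intro h; nlinarith
    simp only [Set.indicator, Complex.real_smul]
    by_cases h3 : z + (a : ℂ) * u ∈ Metric.ball z a
    · rw [if_pos (h2.2 h3), if_pos h3]
    · rw [if_neg (fun h => h3 (h2.1 h)), if_neg h3]
  rw [h1, Measure.integral_comp_smul volume (fun w => (Metric.ball z a).indicator F (z + w)) a,
    integral_add_left_eq_self (fun w => (Metric.ball z a).indicator F w) z,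
    integral_indicator Metric.isOpen_ball.measurableSet, Complex.finrank_real_complex,
    smul_eq_mul, abs_of_pos (by positivity)]

end EdUM

open EdUM in
theorem stmtEdU (hLh : StmtLh) : StmtEdU := by
  intro ρ hρ hρ1 F hF hF0 z
  have hy : 0 < (z : ℂ).im := z.im_pos
  set y : ℝ := (z : ℂ).im with hyd
  have hR2 : 0 < ρ ^ 2 * (1 + 2 * ρ) := by positivity
  set r : ℝ := √(ρ ^ 2 * (1 + 2 * ρ)) with hr
  have hrr : r ^ 2 = ρ ^ 2 * (1 + 2 * ρ) := Real.sq_sqrt hR2.le
  have hrb : r ^ 2 ≤ 1 / 50 := by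
    rw [hrr]
    have h1 : ρ ^ 2 ≤ (1 / 8) ^ 2 := pow_le_pow_left₀ hρ.le hρ1 2
    nlinarith
  have hr0 : 0 < r ^ 2 := by rw [hrr]; exact hR2
  -- the set
  set K : Set ℂ := {w : ℂ | 0 < w.im ∧ ‖(z : ℂ) - w‖ ^ 2 < r ^ 2 * (y * w.im)} with hKd
  have hKo : IsOpen K := by
    have h1 : IsOpen {w : ℂ | ‖(z : ℂ) - w‖ ^ 2 < r ^ 2 * (y * w.im)} := isOpen_lt (by fun_prop)
      (continuous_const.mul (continuous_const.mul Complex.continuous_im))
    exact (isOpen_lt continuous_const Complex.continuous_im).inter h1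
  have him : ∀ w : ℂ, |w.im - y| ≤ ‖(z : ℂ) - w‖ := by
    intro w
    rw [norm_sub_rev]
    exact Complex.abs_im_le_norm (w - z)
  have hKB : K ⊆ Metric.closedBall (z : ℂ) (y / 2) := by
    rintro w ⟨hw1, hw2⟩
    rw [mem_closedBall_iff_norm, norm_sub_rev]
    have h1 := him w
    have h2 : (w.im - y) ^ 2 ≤ ‖(z : ℂ) - w‖ ^ 2 := by
      rw [← sq_abs]
      exact pow_le_pow_left₀ (abs_nonneg _) h1 2
    have h3 : r ^ 2 * (y * w.im) ≤ 1 / 50 * (y * w.im) :=
      mul_le_mul_of_nonneg_right hrb (by positivity)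
    have h4 : w.im ≤ 2 * y := by
      by_contra h5
      push Not at h5
      nlinarith [mul_pos hy hw1]
    have h6 : ‖(z : ℂ) - w‖ ^ 2 ≤ (y / 2) ^ 2 := by nlinarith
    exact le_of_sq_le_sq h6 (by positivity)
  have hBH : Metric.closedBall (z : ℂ) (y / 2) ⊆ H0 := by
    intro w hw
    rw [mem_closedBall_iff_norm, norm_sub_rev] at hw
    have h1 := (abs_le.1 ((him w).trans hw)).1
    show 0 < w.im
    linarith
  have hFK : IntegrableOn (fun w : ℂ => (1 / w.im ^ 2 : ℝ) * F w) K := by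
    refine IntegrableOn.mono_set ?_ hKB
    refine ContinuousOn.integrableOn_compact (isCompact_closedBall _ _) ?_
    refine ContinuousOn.mul ?_ (hF.mono hBH)
    refine ContinuousOn.div continuousOn_const (Complex.continuous_im.pow 2).continuousOn ?_
    intro w hw
    exact (pow_pos (hBH hw) 2).ne'
  -- the function on the plane
  set g : ℂ → ℝ := fun w => K.indicator (fun w => (Real.pi * r ^ 2)⁻¹ * F w) w with hg
  have hgH : ∀ w : ℍ, kk r (uh z w) * F w = g w := by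
    intro w
    have h1 : uh z w < r ^ 2 ↔ (w : ℂ) ∈ K := by
      unfold uh
      have h2 : 0 < z.im * w.im := mul_pos z.im_pos w.im_pos
      rw [div_lt_iff₀ h2]
      constructor
      · intro h; exact ⟨w.im_pos, h⟩
      · intro h; exact h.2
    simp only [hg, Set.indicator, kk]
    by_cases h3 : (w : ℂ) ∈ K
    · rw [if_pos (h1.2 h3), if_pos h3]
    · rw [if_neg (fun h => h3 (h1.1 h)), if_neg h3, zero_mul]
  have hgi : (fun w : ℂ => (1 / w.im ^ 2 : ℝ) • g w) =
      K.indicator (fun w => (Real.pi * r ^ 2)⁻¹ * ((1 / w.im ^ 2 : ℝ) * F w)) := by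
    funext w
    simp only [hg, Set.indicator, smul_eq_mul]
    split_ifs
    · ring
    · ring
  have hint0 : IntegrableOn (fun w : ℂ => (Real.pi * r ^ 2)⁻¹ * ((1 / w.im ^ 2 : ℝ) * F w)) K :=
    hFK.const_mul _
  have hKH : K ⊆ {w : ℂ | 0 < w.im} := fun w hw => hw.1
  have hint : IntegrableOn (fun w : ℂ => (1 / w.im ^ 2 : ℝ) • g w) {w : ℂ | 0 < w.im} := by
    rw [hgi]
    exact ((integrable_indicator_iff hKo.measurableSet).2 hint0).integrableOn
  have hI : ∫ w : ℍ, kk r (uh z w) * F w =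
      (Real.pi * r ^ 2)⁻¹ * ∫ w in K, (1 / w.im ^ 2 : ℝ) * F w := by
    rw [integral_congr_ae (Eventually.of_forall hgH), IntLap.int_gen g, hgi,
      setIntegral_indicator hKo.measurableSet, Set.inter_eq_self_of_subset_right hKH,
      integral_const_mul]
  refine ⟨?_, ?_⟩
  · rw [show (fun w : ℍ => kk r (uh z w) * F w) = fun w : ℍ => g w from funext hgH]
    exact (integrable_gen g).2 hint
  -- the inequality
  have ha : 0 < ρ * y := mul_pos hρ hy
  have h1 : Pl.Ed ρ F z = (Real.pi)⁻¹ * (((ρ * y) ^ 2)⁻¹ * ∫ w in Metric.ball (z : ℂ) (ρ * y), F w) := by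
    rw [← disc F z (ρ * y) ha]
    rfl
  have hbK : Metric.ball (z : ℂ) (ρ * y) ⊆ K := by
    intro w hw
    rw [mem_ball_iff_norm, norm_sub_rev] at hw
    have h2 := abs_lt.1 (lt_of_le_of_lt (him w) hw)
    have h3 : (1 - ρ) * y < w.im := by linarith [h2.1]
    have h4 : 0 < w.im := lt_trans (mul_pos (by linarith) hy) h3
    refine ⟨h4, ?_⟩
    have h5 : ‖(z : ℂ) - w‖ ^ 2 < (ρ * y) ^ 2 := pow_lt_pow_left₀ hw (norm_nonneg _) two_ne_zero
    have h6 : (ρ * y) ^ 2 ≤ r ^ 2 * (y * ((1 - ρ) * y)) := by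
      rw [hrr]
      have h7 : 1 ≤ (1 + 2 * ρ) * (1 - ρ) := by nlinarith
      have h8 : 0 ≤ ρ ^ 2 * y ^ 2 := by positivity
      calc (ρ * y) ^ 2 = ρ ^ 2 * y ^ 2 * 1 := by ring
        _ ≤ ρ ^ 2 * y ^ 2 * ((1 + 2 * ρ) * (1 - ρ)) := mul_le_mul_of_nonneg_left h7 h8
        _ = _ := by ring
    have h9 : r ^ 2 * (y * ((1 - ρ) * y)) ≤ r ^ 2 * (y * w.im) :=
      mul_le_mul_of_nonneg_left (mul_le_mul_of_nonneg_left h3.le hy.le) hr0.le
    linarith
  have h10 : ∫ w in Metric.ball (z : ℂ) (ρ * y), F w ≤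
      ((1 + ρ) * y) ^ 2 * ∫ w in K, (1 / w.im ^ 2 : ℝ) * F w := by
    rw [← integral_const_mul]
    have h11 : IntegrableOn (fun w : ℂ => ((1 + ρ) * y) ^ 2 * ((1 / w.im ^ 2 : ℝ) * F w)) K :=
      hFK.const_mul _
    have h12 : IntegrableOn F (Metric.ball (z : ℂ) (ρ * y)) := by
      refine IntegrableOn.mono_set ?_ (hbK.trans hKB)
      exact ContinuousOn.integrableOn_compact (isCompact_closedBall _ _) (hF.mono hBH)
    refine (setIntegral_mono_on h12 (h11.mono_set hbK) Metric.isOpen_ball.measurableSet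
      fun w hw => ?_).trans (setIntegral_mono_set h11 ?_ (Eventually.of_forall hbK))
    · rw [mem_ball_iff_norm, norm_sub_rev] at hw
      have h2 := abs_lt.1 (lt_of_le_of_lt (him w) hw)
      have h3 : 0 < w.im := by nlinarith [h2.1]
      have h4 : w.im ≤ (1 + ρ) * y := by linarith [h2.2]
      have h5 : 1 ≤ ((1 + ρ) * y) ^ 2 * (1 / w.im ^ 2) := by
        rw [mul_one_div, one_le_div (by positivity)]
        exact pow_le_pow_left₀ h3.le h4 2
      calc F w = 1 * F w := (one_mul _).symm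
        _ ≤ ((1 + ρ) * y) ^ 2 * (1 / w.im ^ 2) * F w := mul_le_mul_of_nonneg_right h5 (hF0 w)
        _ = _ := by ring
    · refine Eventually.of_forall fun w => ?_
      have := hF0 w
      simp only [Pi.zero_apply]
      positivity
  have hJ0 : 0 ≤ ∫ w in K, (1 / w.im ^ 2 : ℝ) * F w := by
    refine integral_nonneg fun w => ?_
    have := hF0 w
    simp only [Pi.zero_apply]
    positivity
  rw [h1, hI]
  set J : ℝ := ∫ w in K, (1 / w.im ^ 2 : ℝ) * F w with hJ
  have hpi := Real.pi_pos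
  have h13 : (1 + ρ) ^ 2 * (1 + 2 * ρ) ≤ 1 + 10 * ρ := by
    have h14 : ρ ^ 2 ≤ ρ / 8 := by nlinarith
    have h15 : ρ ^ 3 ≤ ρ / 64 := by nlinarith
    nlinarith
  have h16 : (Real.pi)⁻¹ * (((ρ * y) ^ 2)⁻¹ * (((1 + ρ) * y) ^ 2 * J)) =
      ((1 + ρ) ^ 2 * (1 + 2 * ρ)) * ((Real.pi * r ^ 2)⁻¹ * J) := by
    rw [hrr]
    have : 0 < 1 + 2 * ρ := by positivity
    field_simp
  calc (Real.pi)⁻¹ * (((ρ * y) ^ 2)⁻¹ * ∫ w in Metric.ball (z : ℂ) (ρ * y), F w)
      ≤ (Real.pi)⁻¹ * (((ρ * y) ^ 2)⁻¹ * (((1 + ρ) * y) ^ 2 * J)) := by gcongr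
    _ = _ := h16
    _ ≤ (1 + 10 * ρ) * ((Real.pi * r ^ 2)⁻¹ * J) :=
        mul_le_mul_of_nonneg_right h13 (mul_nonneg (by positivity) hJ0)

end

end Pool.Agent.A54.Hp
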