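import Pool.Agent.Lib.MP_a54f13_nt.Hp.SpecU
import Pool.Agent.Lib.MP_a54f13_nt.Ef.HkR

/-!
# Package `Hp`, part U: Hecke relations for the Fourier coefficients (`StmtFcH`)
-/

set_option autoImplicit false

namespace Pool.Agent.A54.Hp

open MeasureTheory Filter Topology Set
open scoped ContDiff ComplexConjugate UpperHalfPlane MatrixGroups ENNReal
open Pool.Agent.A54.Dyn (G fl base ze io mk4 dom)
open Pool.Agent.A54.Dyn.LiftM (Sct XC XX cc rot m0)
open Pool.Agent.A54.Av (Mat NonSc ee)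

noncomputable section

namespace FcHM

open Pool.Agent.A54.Av.Fo1M (cf ee_add ee_int cont_ee)

lemma nm_ent (s : Mat) (h : (0 : ℝ) < ((s.det : ℤ) : ℝ)) (i j : Fin 2) :
    (nm s) i j = ((s i j : ℤ) : ℝ) / √((s.det : ℤ) : ℝ) := by
  unfold nm
  rw [dif_pos h]
  fin_cases i <;> fin_cases j <;> rfl

lemma ay_00 {y : ℝ} (hy : 0 < y) : ay y 0 0 = √y := by
  rw [ay, Dyn.fl_00, Real.exp_half, Real.exp_log hy]

lemma ay_11 {y : ℝ} (hy : 0 < y) : ay y 1 1 = (√y)⁻¹ := by
  rw [ay, Dyn.fl_11, neg_div, Real.exp_neg, Real.exp_half, Real.exp_log hy]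

lemma ay_01 (y : ℝ) : ay y 0 1 = 0 := rfl
lemma ay_10 (y : ℝ) : ay y 1 0 = 0 := rfl
lemma un_00 (x : ℝ) : un x 0 0 = 1 := rfl
lemma un_01 (x : ℝ) : un x 0 1 = x := rfl
lemma un_10 (x : ℝ) : un x 1 0 = 0 := rfl
lemma un_11 (x : ℝ) : un x 1 1 = 1 := rfl

lemma continuous_un : Continuous un := by
  apply continuous_induced_rng.mpr
  apply continuous_matrix
  intro i j
  fin_cases i <;> fin_cases j
  · exact continuous_const
  · exact continuous_id
  · exact continuous_const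
  · exact continuous_const

lemma mul1 {p : ℕ} (hp : 0 < p) {y : ℝ} (hy : 0 < y) (x : ℝ) :
    nm !![(p : ℤ), 0; 0, 1] * (un x * ay y) = un (p * x) * ay (p * y) := by
  have hpR : (0 : ℝ) < p := by exact_mod_cast hp
  have hdet : ((Matrix.det (!![(p : ℤ), 0; 0, 1] : Mat) : ℤ) : ℝ) = p := by
    rw [Matrix.det_fin_two_of]
    push_cast
    ring
  have hd : (0 : ℝ) < ((Matrix.det (!![(p : ℤ), 0; 0, 1] : Mat) : ℤ) : ℝ) := by rwa [hdet]
  have hpy : 0 < (p : ℝ) * y := by positivity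
  have e00 : nm !![(p : ℤ), 0; 0, 1] 0 0 = √p := by
    rw [nm_ent _ hd, hdet]
    change (((p : ℤ) : ℤ) : ℝ) / √p = √p
    rw [Int.cast_natCast, Real.div_sqrt]
  have e01 : nm !![(p : ℤ), 0; 0, 1] 0 1 = 0 := by
    rw [nm_ent _ hd]
    change ((0 : ℤ) : ℝ) / _ = 0
    simp
  have e10 : nm !![(p : ℤ), 0; 0, 1] 1 0 = 0 := by
    rw [nm_ent _ hd]
    change ((0 : ℤ) : ℝ) / _ = 0
    simp
  have e11 : nm !![(p : ℤ), 0; 0, 1] 1 1 = (√p)⁻¹ := by
    rw [nm_ent _ hd, hdet]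
    change ((1 : ℤ) : ℝ) / √p = _
    simp
  have hs : √((p : ℝ) * y) = √p * √y := Real.sqrt_mul hpR.le y
  have h1 : √(p : ℝ) ≠ 0 := (Real.sqrt_pos.2 hpR).ne'
  have h2 : √y ≠ 0 := (Real.sqrt_pos.2 hy).ne'
  have h3 : √(p : ℝ) * √(p : ℝ) = p := Real.mul_self_sqrt hpR.le
  apply Dyn.G_ext
  · rw [Dyn.mul_00, Dyn.mul_00, Dyn.mul_10, Dyn.mul_00, e00, e01, ay_00 hy, ay_10, un_00, un_01,
      un_00, un_01, ay_00 hpy, ay_10, hs]
    ring
  · rw [Dyn.mul_01, Dyn.mul_01, Dyn.mul_11, Dyn.mul_01, e00, e01, ay_11 hy, ay_01, un_00, un_01,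
      un_00, un_01, ay_01, ay_11 hpy, hs]
    field_simp
    linear_combination x * h3
  · rw [Dyn.mul_10, Dyn.mul_00, Dyn.mul_10, Dyn.mul_10, e10, e11, ay_10, un_10, un_11, un_10,
      un_11, ay_10]
    ring
  · rw [Dyn.mul_11, Dyn.mul_01, Dyn.mul_11, Dyn.mul_11, e10, e11, ay_11 hy, ay_01, un_10, un_11,
      un_10, un_11, ay_01, ay_11 hpy, hs, mul_inv]
    ring

lemma mul2 {p : ℕ} (hp : 0 < p) (b : ℕ) {y : ℝ} (hy : 0 < y) (x : ℝ) :
    nm !![1, (b : ℤ); 0, (p : ℤ)] * (un x * ay y) = un ((x + b) / p) * ay (y / p) := by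
  have hpR : (0 : ℝ) < p := by exact_mod_cast hp
  have hdet : ((Matrix.det (!![1, (b : ℤ); 0, (p : ℤ)] : Mat) : ℤ) : ℝ) = p := by
    rw [Matrix.det_fin_two_of]
    push_cast
    ring
  have hd : (0 : ℝ) < ((Matrix.det (!![1, (b : ℤ); 0, (p : ℤ)] : Mat) : ℤ) : ℝ) := by rwa [hdet]
  have hpy : 0 < y / (p : ℝ) := by positivity
  have e00 : nm !![1, (b : ℤ); 0, (p : ℤ)] 0 0 = (√p)⁻¹ := by
    rw [nm_ent _ hd, hdet]
    change ((1 : ℤ) : ℝ) / √p = _
    simp
  have e01 : nm !![1, (b : ℤ); 0, (p : ℤ)] 0 1 = b / √p := by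
    rw [nm_ent _ hd, hdet]
    change (((b : ℤ) : ℤ) : ℝ) / √p = _
    rw [Int.cast_natCast]
  have e10 : nm !![1, (b : ℤ); 0, (p : ℤ)] 1 0 = 0 := by
    rw [nm_ent _ hd]
    change ((0 : ℤ) : ℝ) / _ = 0
    simp
  have e11 : nm !![1, (b : ℤ); 0, (p : ℤ)] 1 1 = √p := by
    rw [nm_ent _ hd, hdet]
    change (((p : ℤ) : ℤ) : ℝ) / √p = √p
    rw [Int.cast_natCast, Real.div_sqrt]
  have hs : √(y / (p : ℝ)) = √y / √p := Real.sqrt_div hy.le _
  have h1 : √(p : ℝ) ≠ 0 := (Real.sqrt_pos.2 hpR).ne'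
  have h2 : √y ≠ 0 := (Real.sqrt_pos.2 hy).ne'
  have h3 : √(p : ℝ) * √(p : ℝ) = p := Real.mul_self_sqrt hpR.le
  apply Dyn.G_ext
  · rw [Dyn.mul_00, Dyn.mul_00, Dyn.mul_10, Dyn.mul_00, e00, e01, ay_00 hy, ay_10, un_00, un_01,
      un_10, un_11, un_00, un_01, ay_00 hpy, ay_10, hs]
    ring
  · rw [Dyn.mul_01, Dyn.mul_01, Dyn.mul_11, Dyn.mul_01, e00, e01, ay_11 hy, ay_01, un_00, un_01,
      un_10, un_11, un_00, un_01, ay_01, ay_11 hpy, hs]
    field_simp
    linear_combination (-(x + b)) * h3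
  · rw [Dyn.mul_10, Dyn.mul_00, Dyn.mul_10, Dyn.mul_10, e10, e11, ay_10, un_10, un_11, un_10,
      un_11, ay_10]
    ring
  · rw [Dyn.mul_11, Dyn.mul_01, Dyn.mul_11, Dyn.mul_11, e10, e11, ay_11 hy, ay_01, un_10, un_11,
      un_10, un_11, ay_01, ay_11 hpy, hs]
    field_simp
    ring

/-- the function on the horocycle -/
def Hh (Φ : G → ℂ) (k : XC) (y x : ℝ) : ℂ := Φ (un x * (ay y * rot k))

lemma Fc_eq (Φ : G → ℂ) (k : XC) (y : ℝ) (m : ℤ) : Fc Φ m (ay y * rot k) = cf (Hh Φ k y) m := by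
  unfold Fc cf Hh ee
  refine intervalIntegral.integral_congr fun x _ => ?_
  congr 2
  ring

lemma Hh_cont {Φ : G → ℂ} (hΦ : Continuous Φ) (k : XC) (y : ℝ) : Continuous (Hh Φ k y) :=
  hΦ.comp (continuous_un.mul continuous_const)

lemma io_T (i j : Fin 2) : (io ModularGroup.T) i j = ((ModularGroup.T i j : ℤ) : ℝ) := rfl

lemma un_add (x : ℝ) : un (x + 1) = io ModularGroup.T * un x := by
  have e00 : (io ModularGroup.T) 0 0 = 1 := by rw [io_T]; simp [ModularGroup.T]
  have e01 : (io ModularGroup.T) 0 1 = 1 := by rw [io_T]; simp [ModularGroup.T]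
  have e10 : (io ModularGroup.T) 1 0 = 0 := by rw [io_T]; simp [ModularGroup.T]
  have e11 : (io ModularGroup.T) 1 1 = 1 := by rw [io_T]; simp [ModularGroup.T]
  apply Dyn.G_ext
  · rw [Dyn.mul_00, e00, e01, un_00, un_00, un_10]; ring
  · rw [Dyn.mul_01, e00, e01, un_01, un_01, un_11]; ring
  · rw [Dyn.mul_10, e10, e11, un_10, un_00, un_10]; ring
  · rw [Dyn.mul_11, e10, e11, un_11, un_01, un_11]; ring

lemma Hh_per {l : ℕ → ℝ} {Φ : G → ℂ} (h : HE l Φ) (k : XC) (y x : ℝ) :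
    Hh Φ k y (x + 1) = Hh Φ k y x := by
  unfold Hh
  rw [un_add, mul_assoc, h.inv]

lemma hid {l : ℕ → ℝ} {Φ : G → ℂ} (h : HE l Φ) (k : XC) {p : ℕ} (hp : p.Prime) {y : ℝ}
    (hy : 0 < y) (x : ℝ) : Hh Φ k (p * y) (p * x) +
      ∑ b ∈ Finset.range p, Hh Φ k (y / p) ((x + b) / p) = ((√p * l p : ℝ) : ℂ) * Hh Φ k y x := by
  have h1 := h.hecke p hp (un x * (ay y * rot k))
  unfold Hh
  rw [← h1]
  congr 1
  · congr 1
    rw [← mul_assoc, ← mul_assoc, ← mul1 hp.pos hy x, mul_assoc, mul_assoc, mul_assoc]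
  · refine Finset.sum_congr rfl fun b _ => ?_
    congr 1
    rw [← mul_assoc, ← mul_assoc, ← mul2 hp.pos b hy x, mul_assoc, mul_assoc, mul_assoc]

/-- the relation for the coefficients -/
lemma coef {l : ℕ → ℝ} {Φ : G → ℂ} (h : HE l Φ) (k : XC) {p : ℕ} (hp : p.Prime) {y : ℝ}
    (hy : 0 < y) (n : ℤ) : ((√p * l p : ℝ) : ℂ) * cf (Hh Φ k y) n =
      (if (p : ℤ) ∣ n then cf (Hh Φ k (p * y)) (n / p) else 0) +
      (p : ℂ) * cf (Hh Φ k (y / p)) (p * n) := by
  have hp0 := hp.pos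
  have hc1 := Hh_cont h.cont k (p * y)
  have hc2 := Hh_cont h.cont k (y / p)
  have i1 : IntervalIntegrable (fun x : ℝ => Hh Φ k (p * y) (p * x) * ee (-((n : ℂ) * x)))
      volume 0 1 := by
    have := cont_ee
    have hh : Continuous fun x : ℝ => Hh Φ k (p * y) (p * x) * ee (-((n : ℂ) * x)) := by fun_prop
    exact hh.intervalIntegrable _ _
  have i2 : ∀ b : ℕ, IntervalIntegrable
      (fun x : ℝ => Hh Φ k (y / p) ((x + b) / p) * ee (-((n : ℂ) * x))) volume 0 1 := by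
    intro b
    have := cont_ee
    have hh : Continuous fun x : ℝ => Hh Φ k (y / p) ((x + b) / p) * ee (-((n : ℂ) * x)) := by
      fun_prop
    exact hh.intervalIntegrable _ _
  have h1 : ((√p * l p : ℝ) : ℂ) * cf (Hh Φ k y) n =
      ∫ x in (0 : ℝ)..1, (Hh Φ k (p * y) (p * x) * ee (-((n : ℂ) * x)) +
        ∑ b ∈ Finset.range p, Hh Φ k (y / p) ((x + b) / p) * ee (-((n : ℂ) * x))) := by
    unfold cf
    rw [← intervalIntegral.integral_const_mul]
    refine intervalIntegral.integral_congr fun x _ => ?_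
    change ((√p * l p : ℝ) : ℂ) * (Hh Φ k y x * ee (-((n : ℂ) * x))) = _
    rw [← mul_assoc, ← hid h k hp hy x, add_mul, Finset.sum_mul]
  have i3 : IntervalIntegrable (fun x : ℝ => ∑ b ∈ Finset.range p,
      Hh Φ k (y / p) ((x + b) / p) * ee (-((n : ℂ) * x))) volume 0 1 := by
    have := IntervalIntegrable.sum (μ := volume) (a := (0 : ℝ)) (b := 1) (Finset.range p)
      (f := fun (b : ℕ) (x : ℝ) => Hh Φ k (y / p) ((x + b) / p) * ee (-((n : ℂ) * x)))
      (fun b _ => i2 b)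
    refine this.congr fun x _ => ?_
    simp
  rw [h1, intervalIntegral.integral_add i1 i3,
    intervalIntegral.integral_finsetSum fun b _ => i2 b, Ef.HkRM.gen hc2 hp0 n,
    Ef.HkRM.dil hc1 (Hh_per h k (p * y)) hp0 n]

lemma sgn_dvd {σ : ℤ} (hσ : σ = 1 ∨ σ = -1) (p m : ℕ) : (p : ℤ) ∣ σ * m ↔ p ∣ m := by
  rcases hσ with rfl | rfl
  · rw [one_mul, Int.natCast_dvd_natCast]
  · rw [neg_one_mul, dvd_neg, Int.natCast_dvd_natCast]

lemma main {l lam : ℕ → ℝ} {Φ : G → ℂ} (h : HE l Φ) (hl : Ef.HMul lam)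
    (hpl : ∀ p : ℕ, p.Prime → lam p = l p) {σ : ℤ} (hσ : σ = 1 ∨ σ = -1) (k : XC) (n : ℕ) :
    1 ≤ n → ∀ y : ℝ, 0 < y →
      cf (Hh Φ k y) (σ * n) = ((lam n / √n : ℝ) : ℂ) * cf (Hh Φ k (n * y)) σ := by
  induction n using Nat.strong_induction_on with
  | _ n ih =>
    intro hn y hy
    by_cases h1 : n = 1
    · subst h1
      rw [hl.one]
      simp
    · set p := n.minFac with hpdef
      have hp : p.Prime := Nat.minFac_prime h1
      obtain ⟨m, hm⟩ : p ∣ n := Nat.minFac_dvd n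
      have hp0 : 0 < p := hp.pos
      have hm1 : 1 ≤ m := by
        rcases Nat.eq_zero_or_pos m with h2 | h2
        · rw [h2, mul_zero] at hm
          omega
        · exact h2
      have hmn : m < n := by
        rw [hm]
        exact lt_mul_of_one_lt_left hm1 hp.one_lt
      have hpR : (0 : ℝ) < p := by exact_mod_cast hp0
      have hmR : (0 : ℝ) < m := by exact_mod_cast hm1
      have hpy : 0 < (p : ℝ) * y := by positivity
      have h2 := coef h k hp hpy (σ * m)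
      rw [mul_div_cancel_left₀ _ hpR.ne'] at h2
      have e1 : (p : ℤ) * (σ * m) = σ * n := by
        rw [hm]
        push_cast
        ring
      rw [e1, ih m hmn hm1 _ hpy] at h2
      have e2 : (m : ℝ) * (p * y) = n * y := by
        rw [hm]
        push_cast
        ring
      rw [e2] at h2
      have hrel := hl.rel p m hp hm1
      rw [← hm, hpl p hp] at hrel
      have hsn : √(n : ℝ) = √p * √m := by
        rw [hm, Nat.cast_mul, Real.sqrt_mul hpR.le]
      have hpC : (p : ℂ) ≠ 0 := by exact_mod_cast hpR.ne'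
      have hsp : √(p : ℝ) ≠ 0 := (Real.sqrt_pos.2 hpR).ne'
      have hsm : √(m : ℝ) ≠ 0 := (Real.sqrt_pos.2 hmR).ne'
      have hpp : √(p : ℝ) * √(p : ℝ) = p := Real.mul_self_sqrt hpR.le
      -- the coefficient of the smaller index
      have h3 : (if (p : ℤ) ∣ σ * m then cf (Hh Φ k (p * (p * y))) (σ * m / p) else 0) =
          (((if p ∣ m then lam (m / p) else 0) * (√p / √m) : ℝ) : ℂ) * cf (Hh Φ k (n * y)) σ := by
        by_cases hd : p ∣ m
        · rw [if_pos ((sgn_dvd hσ p m).2 hd), if_pos hd]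
          obtain ⟨m', hm'⟩ := hd
          have hm'1 : 1 ≤ m' := by
            rcases Nat.eq_zero_or_pos m' with h4 | h4
            · rw [h4, mul_zero] at hm'
              omega
            · exact h4
          have hm'n : m' < n := by
            refine lt_of_le_of_lt ?_ hmn
            rw [hm']
            exact Nat.le_mul_of_pos_left m' hp0
          have e3 : σ * (m : ℤ) / p = σ * m' := by
            rw [hm']
            push_cast
            rw [show σ * ((p : ℤ) * m') = p * (σ * m') by ring]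
            exact Int.mul_ediv_cancel_left _ (by positivity)
          have e4 : m / p = m' := by
            rw [hm']
            exact Nat.mul_div_cancel_left m' hp0
          have e5 : (m' : ℝ) * (p * (p * y)) = n * y := by
            rw [hm, hm']
            push_cast
            ring
          rw [e3, e4, ih m' hm'n hm'1 _ (by positivity), e5]
          congr 2
          have hm'R : (0 : ℝ) < m' := by exact_mod_cast hm'1
          have hsm' : √(m' : ℝ) ≠ 0 := (Real.sqrt_pos.2 hm'R).ne'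
          have e6 : √(m : ℝ) = √p * √m' := by
            rw [hm', Nat.cast_mul, Real.sqrt_mul hpR.le]
          rw [e6]
          field_simp
        · rw [if_neg (fun h4 => hd ((sgn_dvd hσ p m).1 h4)), if_neg hd]
          simp
      rw [h3] at h2
      have h5 : (p : ℂ) * cf (Hh Φ k y) (σ * n) = (p : ℂ) *
          (((lam n / √n : ℝ) : ℂ) * cf (Hh Φ k (n * y)) σ) := by
        have h6 : (((√p * l p) * (lam m / √m) -
            (if p ∣ m then lam (m / p) else 0) * (√p / √m) : ℝ)) = p * (lam n / √n) := by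
          have h7 : lam n = l p * lam m - (if p ∣ m then lam (m / p) else 0) := by linarith
          rw [h7, hsn]
          field_simp
          rw [pow_two, hpp]
          ring
        have h8 : (((p : ℝ) * (lam n / √n) : ℝ) : ℂ) = (p : ℂ) * ((lam n / √n : ℝ) : ℂ) := by
          rw [Complex.ofReal_mul, Complex.ofReal_natCast]
        rw [← mul_assoc, ← h8, ← h6, Complex.ofReal_sub, Complex.ofReal_mul (√p * l p)]
        linear_combination -h2
      exact mul_left_cancel₀ hpC h5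

end FcHM

open FcHM in
/-- **FcH** -/
theorem stmtFcH : StmtFcH := by
  intro l lam Φ h hl hpl n σ hn hσ y k hy
  rw [Fc_eq, Fc_eq]
  exact main h hl hpl hσ k n hn y hy

end

end Pool.Agent.A54.Hp
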