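import Pool.Agent.Lib.MP_a54f13_nt.Hp.SpecA

/-!
# `StmtFib`: integrals over the fibres

For the package `Hp`, part A (architect: helper39). Author: helper2.
-/

set_option autoImplicit false

namespace Pool.Agent.A54.Hp.FibM

open MeasureTheory Filter Topology Set
open scoped ContDiff ComplexConjugate UpperHalfPlane MatrixGroups ENNReal
open Pool.Agent.A54.Dyn (G fl base ze io mk4 dom)
open Pool.Agent.A54.Dyn.LiftM (Sct XC XX cc rot m0)

noncomputable section

/-- trigonometric polynomials on the circle: the `L²` norm -/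
lemma parseval (s : Finset ℤ) (a : ℤ → ℂ) :
    ∫ x : XC, ‖∑ n ∈ s, a n * (fourier (2 * n) x : ℂ)‖ ^ 2 ∂AddCircle.haarAddCircle =
      ∑ n ∈ s, ‖a n‖ ^ 2 := by
  have h1 : ∀ x : XC, ((‖∑ n ∈ s, a n * (fourier (2 * n) x : ℂ)‖ ^ 2 : ℝ) : ℂ) =
      ∑ n ∈ s, ∑ m ∈ s, (a n * conj (a m)) * (fourier (2 * (n - m)) x : ℂ) := by
    intro x
    have h0 : ((‖∑ n ∈ s, a n * (fourier (2 * n) x : ℂ)‖ ^ 2 : ℝ) : ℂ) =
        (∑ n ∈ s, a n * (fourier (2 * n) x : ℂ)) *
          conj (∑ n ∈ s, a n * (fourier (2 * n) x : ℂ)) := by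
      rw [Complex.mul_conj, Complex.normSq_eq_norm_sq]
    rw [h0, map_sum, Finset.sum_mul_sum]
    refine Finset.sum_congr rfl fun n _ => Finset.sum_congr rfl fun m _ => ?_
    rw [map_mul, Dyn.LiftM.fourier_cc, Dyn.LiftM.fourier_cc, Dyn.LiftM.fourier_cc, map_zpow₀,
      Dyn.LiftM.cc_conj, inv_zpow']
    have h2 : 2 * (n - m) = 2 * n + (-(2 * m)) := by ring
    rw [h2, zpow_add₀ (Dyn.LiftM.cc_ne x)]
    ring
  have hint : ∀ k : ℤ, Integrable (fun x : XC => (fourier k x : ℂ)) AddCircle.haarAddCircle :=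
    fun k => (ContinuousMap.continuous _).integrable_of_hasCompactSupport
      (HasCompactSupport.of_compactSpace _)
  have h3 : ((∫ x : XC, ‖∑ n ∈ s, a n * (fourier (2 * n) x : ℂ)‖ ^ 2 ∂AddCircle.haarAddCircle : ℝ) : ℂ) =
      ∑ n ∈ s, ∑ m ∈ s, (a n * conj (a m)) * (if n = m then 1 else 0) := by
    rw [← integral_complex_ofReal]
    simp_rw [h1]
    rw [integral_finsetSum _ fun n _ => integrable_finsetSum _ fun m _ => (hint _).const_mul _]
    refine Finset.sum_congr rfl fun n _ => ?_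
    rw [integral_finsetSum _ fun m _ => (hint _).const_mul _]
    refine Finset.sum_congr rfl fun m _ => ?_
    rw [integral_const_mul, Dyn.LiftM.integral_fourier]
    have h4 : (2 * (n - m) = 0) ↔ n = m := by omega
    simp only [h4]
  apply Complex.ofReal_injective
  rw [h3]
  push_cast
  refine Finset.sum_congr rfl fun n hn => ?_
  rw [Finset.sum_eq_single n]
  · rw [if_pos rfl, mul_one, Complex.mul_conj, Complex.normSq_eq_norm_sq]
    push_cast
    rfl
  · intro m _ hm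
    rw [if_neg (fun h => hm h.symm), mul_zero]
  · intro h
    exact absurd hn h

/-- the values on the section -/
lemma Ph_Sct (f : ℍ → ℝ) (t : ℝ) (N : ℕ) (c : ℤ → ℂ) (z : ℍ) (x : XC) :
    Ph f t N c (Sct (z, x)) =
      ∑ n ∈ Finset.Icc (-(N : ℤ)) N, (c n * Gf f t n (z : ℂ)) * (fourier (2 * n) x : ℂ) := by
  unfold Ph
  refine Finset.sum_congr rfl fun n _ => ?_
  unfold Ff
  rw [Dyn.LiftM.base_Sct, Dyn.LiftM.ze_Sct, Dyn.LiftM.fourier_cc]
  have h : (cc x ^ 2 : ℂ) ^ n = cc x ^ (2 * n) := by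
    rw [zpow_mul]
    rfl
  change c n * ((cc x ^ 2) ^ n * Gf f t n (z : ℂ)) = _
  rw [h]
  ring

lemma fibre (f : ℍ → ℝ) (t : ℝ) (N : ℕ) (c : ℤ → ℂ) (z : ℍ) :
    ∫ x : XC, ‖Ph f t N c (Sct (z, x))‖ ^ 2 ∂AddCircle.haarAddCircle =
      Sw f t N (fun n => ‖c n‖ ^ 2) z := by
  simp_rw [Ph_Sct]
  rw [parseval]
  unfold Sw
  refine Finset.sum_congr rfl fun n _ => ?_
  rw [norm_mul, mul_pow]

lemma cont_Ph (h2 : StmtTwG) {f : ℍ → ℝ} {t : ℝ} (hf : IsHeckeMaass f t) (N : ℕ) (c : ℤ → ℂ) :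
    Continuous (Ph f t N c) := by
  unfold Ph
  refine continuous_finsetSum _ fun n _ => continuous_const.mul ?_
  obtain ⟨-, -, -, -, -, -, -, -, h⟩ := h2 f t hf n
  exact h

end

end Pool.Agent.A54.Hp.FibM

namespace Pool.Agent.A54.Hp

open MeasureTheory Filter Topology Set
open scoped ContDiff ComplexConjugate UpperHalfPlane MatrixGroups ENNReal
open Pool.Agent.A54.Dyn (G fl base ze io mk4 dom)
open Pool.Agent.A54.Dyn.LiftM (Sct XC XX cc rot m0)

/-- integrals over the fibres -/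
theorem stmtFib (h1 : StmtNuL) (h2 : StmtTwG) : StmtFib := by
  have _ := h1
  intro f t hf N c
  refine ⟨fun z => ?_, fun H hH => ?_⟩
  · unfold St
    simp_rw [Dyn.fl_zero, mul_one]
    exact FibM.fibre f t N c z
  · have hc := FibM.cont_Ph h2 hf N c
    have hmS : Measurable Sct := Dyn.LiftM.continuous_Sct.measurable
    have hm : Measurable fun g : G => H (base g) * ‖Ph f t N c g‖ₑ ^ 2 :=
      (hH.comp Dyn.measurable_base).mul (hc.measurable.enorm.pow_const 2)
    unfold nu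
    rw [lintegral_map hm hmS]
    unfold m0
    rw [lintegral_prod (fun p : XX => H (base (Sct p)) * ‖Ph f t N c (Sct p)‖ₑ ^ 2)
      (hm.comp hmS).aemeasurable]
    refine lintegral_congr fun z => ?_
    have hcz : Continuous fun x : XC => Ph f t N c (Sct (z, x)) :=
      hc.comp (Dyn.LiftM.continuous_Sct.comp (by fun_prop))
    have e1 : ∀ x : XC, H (base (Sct (z, x))) * ‖Ph f t N c (Sct (z, x))‖ₑ ^ 2 =
        H z * ENNReal.ofReal (‖Ph f t N c (Sct (z, x))‖ ^ 2) := by
      intro x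
      rw [Dyn.LiftM.base_Sct, ENNReal.ofReal_pow (norm_nonneg _), ofReal_norm]
    simp_rw [e1]
    have hc2 : Continuous fun x : XC => ‖Ph f t N c (Sct (z, x))‖ ^ 2 := hcz.norm.pow 2
    have hm2 : Measurable fun x : XC => ENNReal.ofReal (‖Ph f t N c (Sct (z, x))‖ ^ 2) :=
      hc2.measurable.ennreal_ofReal
    rw [lintegral_const_mul _ hm2]
    congr 1
    rw [← ofReal_integral_eq_lintegral_ofReal, FibM.fibre]
    · exact hc2.integrable_of_hasCompactSupport (HasCompactSupport.of_compactSpace _)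
    · exact Eventually.of_forall fun x => by positivity

end Pool.Agent.A54.Hp
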