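import Pool.Agent.Lib.MP_a54f13_nt.Hp.SpecC
import Pool.Agent.Lib.MP_a54f13_nt.IntLap
import Pool.Agent.Lib.MP_a54f13_nt.Pl.Fin
import Pool.Agent.Lib.MP_a54f13_nt.Sq.FD

/-!
# Package `Hp`, module `FinF`: the first four moments from the local masses
-/

set_option autoImplicit false

namespace Pool.Agent.A54.Hp

open MeasureTheory Filter Topology Set
open scoped ContDiff ComplexConjugate UpperHalfPlane MatrixGroups ENNReal
open Pool.Agent.A54.Half (H0)
open Pool.Agent.A54.Sq (la TestP)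

noncomputable section

theorem stmtFinF (hFlt : Sq.StmtFlt) (hU2 : Pl.StmtU2) (hFou : Sq.StmtFou) (_hLh : StmtLh) :
    StmtFinF := by
  intro f t ρ δ hf ht hδ hρ hyp
  have key := hFlt f t ρ (fun _ => 1) δ 1 hf ht hδ hρ (fun _ => ⟨zero_le_one, one_le_two⟩)
    tendsto_const_nhds hyp
  have hH : Pl.CondH f := by
    intro φ hφ
    have hφ2 : TestR H0 fun z => φ z * (z.im)⁻¹ ^ 2 :=
      Half.testR_mul Half.isOpen_H0 hφ hφ.sub (Half.contDiffOn_weight 2)
    obtain ⟨k2, k4⟩ := key _ hφ2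
    constructor
    · rw [Sq.FDM.int_one stmtInt hφ]
      rw [one_mul] at k2
      exact k2.congr fun i => (Sq.FDM.int_eq stmtInt hφ (f i) 2).symm
    · rw [Sq.FDM.int_one stmtInt hφ]
      rw [one_pow, mul_one] at k4
      exact k4.congr fun i => (Sq.FDM.int_eq stmtInt hφ (f i) 4).symm
  exact hFou f t hf ht (Pl.condA_of_condH hU2 hf hH)

end

end Pool.Agent.A54.Hp
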