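import Pool.Agent.Lib.MP_a54f13_nt.Hp.SpecA

/-!
# Package `Hp`, part A: the derivative along the flow (`StmtFlD`)
-/

set_option autoImplicit false

namespace Pool.Agent.A54.Hp

open MeasureTheory Filter Topology Set
open scoped ContDiff ComplexConjugate UpperHalfPlane MatrixGroups ENNReal
open Pool.Agent.A54.Dyn (G fl base ze io mk4 dom)
open Pool.Agent.A54.Half (H0)
open Pool.Agent.A54.Sq (la TestP)

noncomputable section

namespace FlDM

lemma e1 : HasDerivAt (fun s : ℝ => ((Real.exp (s / 2) : ℝ) : ℂ)) (1 / 2) 0 := by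
  have h2 : HasDerivAt (fun s : ℝ => s / 2) (1 / 2) (0 : ℝ) := (hasDerivAt_id (0 : ℝ)).div_const 2
  have h3 := h2.exp.ofReal_comp
  simpa using h3

lemma e2 : HasDerivAt (fun s : ℝ => ((Real.exp (-s / 2) : ℝ) : ℂ)) (-(1 / 2)) 0 := by
  have h2 : HasDerivAt (fun s : ℝ => -s / 2) (-1 / 2) (0 : ℝ) :=
    ((hasDerivAt_id (0 : ℝ)).neg).div_const 2
  have h3 := h2.exp.ofReal_comp
  have h4 : (((Real.exp (-0 / 2) * (-1 / 2) : ℝ)) : ℂ) = -(1 / 2) := by
    norm_num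
  rwa [h4] at h3

/-- denominators -/
lemma den_ne (g : G) : (g 1 0 : ℂ) * Complex.I + g 1 1 ≠ 0 := by
  have := Dyn.denom_ne g UpperHalfPlane.I
  simpa using this

lemma den_ne' (g : G) : (g 1 1 : ℂ) + Complex.I * g 1 0 ≠ 0 := by
  have := den_ne g
  rwa [add_comm, mul_comm Complex.I]

lemma base_fl (g : G) (s : ℝ) : ((base (g * fl s) : ℍ) : ℂ) =
    ((g 0 0 : ℂ) * ((Real.exp (s / 2) : ℝ) : ℂ) * Complex.I +
      (g 0 1 : ℂ) * ((Real.exp (-s / 2) : ℝ) : ℂ)) /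
    ((g 1 0 : ℂ) * ((Real.exp (s / 2) : ℝ) : ℂ) * Complex.I +
      (g 1 1 : ℂ) * ((Real.exp (-s / 2) : ℝ) : ℂ)) := by
  rw [Dyn.base_coe, Dyn.mul_00, Dyn.mul_01, Dyn.mul_10, Dyn.mul_11, Dyn.fl_00, Dyn.fl_01, Dyn.fl_10,
    Dyn.fl_11]
  push_cast
  simp only [mul_zero, add_zero, zero_add]

lemma ze_fl (g : G) (s : ℝ) : ze (g * fl s) =
    ((g 1 1 : ℂ) * ((Real.exp (-s / 2) : ℝ) : ℂ) -
      Complex.I * ((g 1 0 : ℂ) * ((Real.exp (s / 2) : ℝ) : ℂ))) /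
    ((g 1 1 : ℂ) * ((Real.exp (-s / 2) : ℝ) : ℂ) +
      Complex.I * ((g 1 0 : ℂ) * ((Real.exp (s / 2) : ℝ) : ℂ))) := by
  rw [ze, Dyn.mul_10, Dyn.mul_11, Dyn.fl_00, Dyn.fl_01, Dyn.fl_10, Dyn.fl_11]
  push_cast
  simp only [mul_zero, add_zero, zero_add]

lemma det_c (g : G) : (g 0 0 : ℂ) * g 1 1 - (g 0 1 : ℂ) * g 1 0 = 1 := by
  have := Dyn.det_eq g
  exact_mod_cast this

lemma d_base (g : G) : HasDerivAt (fun s : ℝ => ((base (g * fl s) : ℍ) : ℂ))
    (Complex.I / ((g 1 1 : ℂ) + Complex.I * g 1 0) ^ 2) 0 := by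
  have h1 : HasDerivAt (fun s : ℝ => (g 0 0 : ℂ) * ((Real.exp (s / 2) : ℝ) : ℂ) * Complex.I +
      (g 0 1 : ℂ) * ((Real.exp (-s / 2) : ℝ) : ℂ))
      ((g 0 0 : ℂ) * (1 / 2) * Complex.I + (g 0 1 : ℂ) * (-(1 / 2))) 0 :=
    ((e1.const_mul _).mul_const _).add (e2.const_mul _)
  have h2 : HasDerivAt (fun s : ℝ => (g 1 0 : ℂ) * ((Real.exp (s / 2) : ℝ) : ℂ) * Complex.I +
      (g 1 1 : ℂ) * ((Real.exp (-s / 2) : ℝ) : ℂ))
      ((g 1 0 : ℂ) * (1 / 2) * Complex.I + (g 1 1 : ℂ) * (-(1 / 2))) 0 :=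
    ((e1.const_mul _).mul_const _).add (e2.const_mul _)
  have h3 := h1.div h2 (by simpa using den_ne g)
  have h4 : (fun s : ℝ => ((base (g * fl s) : ℍ) : ℂ)) =
      (fun s : ℝ => (g 0 0 : ℂ) * ((Real.exp (s / 2) : ℝ) : ℂ) * Complex.I +
      (g 0 1 : ℂ) * ((Real.exp (-s / 2) : ℝ) : ℂ)) /
      (fun s : ℝ => (g 1 0 : ℂ) * ((Real.exp (s / 2) : ℝ) : ℂ) * Complex.I +
        (g 1 1 : ℂ) * ((Real.exp (-s / 2) : ℝ) : ℂ)) := by
    funext s
    exact base_fl g s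
  rw [h4]
  refine h3.congr_deriv ?_
  have h5 := den_ne g
  have h6 := den_ne' g
  have h7 := det_c g
  simp only [zero_div, neg_zero, Real.exp_zero, Complex.ofReal_one, mul_one]
  have h8 : (g 1 1 : ℂ) + Complex.I * g 1 0 = (g 1 0 : ℂ) * Complex.I + g 1 1 := by ring
  rw [h8, div_left_inj' (pow_ne_zero 2 h5)]
  linear_combination Complex.I * h7

lemma d_ze (g : G) : HasDerivAt (fun s : ℝ => ze (g * fl s)) ((ze g ^ 2 - 1) / 2) 0 := by
  have h1 : HasDerivAt (fun s : ℝ => (g 1 1 : ℂ) * ((Real.exp (-s / 2) : ℝ) : ℂ) -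
      Complex.I * ((g 1 0 : ℂ) * ((Real.exp (s / 2) : ℝ) : ℂ)))
      ((g 1 1 : ℂ) * (-(1 / 2)) - Complex.I * ((g 1 0 : ℂ) * (1 / 2))) 0 :=
    (e2.const_mul _).sub ((e1.const_mul _).const_mul _)
  have h2 : HasDerivAt (fun s : ℝ => (g 1 1 : ℂ) * ((Real.exp (-s / 2) : ℝ) : ℂ) +
      Complex.I * ((g 1 0 : ℂ) * ((Real.exp (s / 2) : ℝ) : ℂ)))
      ((g 1 1 : ℂ) * (-(1 / 2)) + Complex.I * ((g 1 0 : ℂ) * (1 / 2))) 0 :=
    (e2.const_mul _).add ((e1.const_mul _).const_mul _)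
  have h3 := h1.div h2 (by simpa using den_ne' g)
  have h4 : (fun s : ℝ => ze (g * fl s)) =
      (fun s : ℝ => (g 1 1 : ℂ) * ((Real.exp (-s / 2) : ℝ) : ℂ) -
      Complex.I * ((g 1 0 : ℂ) * ((Real.exp (s / 2) : ℝ) : ℂ))) /
      (fun s : ℝ => (g 1 1 : ℂ) * ((Real.exp (-s / 2) : ℝ) : ℂ) +
        Complex.I * ((g 1 0 : ℂ) * ((Real.exp (s / 2) : ℝ) : ℂ))) := by
    funext s
    exact ze_fl g s
  rw [h4]
  refine h3.congr_deriv ?_
  have h6 := den_ne' g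
  simp only [zero_div, neg_zero, Real.exp_zero, Complex.ofReal_one, mul_one]
  rw [ze]
  field_simp
  ring

/-- the derivative of the base point is `i y ζ` -/
lemma w_eq (g : G) : Complex.I / ((g 1 1 : ℂ) + Complex.I * g 1 0) ^ 2 =
    Complex.I * (((base g).im : ℝ) : ℂ) * ze g := by
  have h1 : (base g).im = 1 / (g 1 0 ^ 2 + g 1 1 ^ 2) := by
    have := Dyn.im_smul g UpperHalfPlane.I
    rw [base, this, UpperHalfPlane.I_im]
    congr 1
    simp [Complex.normSq_apply]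
    ring
  have h6 := den_ne' g
  have h7 : (((g 1 0 ^ 2 + g 1 1 ^ 2 : ℝ)) : ℂ) =
      ((g 1 1 : ℂ) + Complex.I * g 1 0) * ((g 1 1 : ℂ) - Complex.I * g 1 0) := by
    push_cast
    linear_combination ((g 1 0 : ℂ) ^ 2) * Complex.I_sq
  have h8 : (g 1 1 : ℂ) - Complex.I * g 1 0 ≠ 0 := by
    intro h
    have h9 : (((g 1 0 ^ 2 + g 1 1 ^ 2 : ℝ)) : ℂ) = 0 := by rw [h7, h, mul_zero]
    have h10 : g 1 0 ^ 2 + g 1 1 ^ 2 = 0 := by exact_mod_cast h9
    have h11 : g 1 0 = 0 := by nlinarith [sq_nonneg (g 1 0), sq_nonneg (g 1 1)]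
    have h12 : g 1 1 = 0 := by nlinarith [sq_nonneg (g 1 0), sq_nonneg (g 1 1)]
    apply h6
    rw [h11, h12]
    simp
  rw [h1, Complex.ofReal_div, Complex.ofReal_one, h7, ze]
  field_simp

/-- real differentials in terms of `dz`, `dzb` -/
lemma fder (H : ℂ → ℂ) (z w : ℂ) : fderiv ℝ H z w = (dz H z * w + dzb H z * conj w) / 2 := by
  have h1 : w = w.re • (1 : ℂ) + w.im • Complex.I := by
    rw [Complex.real_smul, Complex.real_smul, mul_one]
    exact (Complex.re_add_im w).symm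
  have h2 : fderiv ℝ H z w = w.re • fderiv ℝ H z 1 + w.im • fderiv ℝ H z Complex.I := by
    conv_lhs => rw [h1]
    rw [map_add, map_smul, map_smul]
  have h3 : conj w = (w.re : ℂ) - (w.im : ℂ) * Complex.I := by
    apply Complex.ext <;> simp
  have h4 : w = (w.re : ℂ) + (w.im : ℂ) * Complex.I := (Complex.re_add_im w).symm
  rw [h2, h3, Complex.real_smul, Complex.real_smul, dz, dzb]
  conv_rhs => rw [h4]
  simp only [Complex.add_re, Complex.ofReal_re, Complex.mul_re, Complex.I_re, mul_zero, Complex.ofReal_im,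
    Complex.I_im, mul_one, sub_self, add_zero, Complex.add_im, Complex.mul_im, zero_add]
  linear_combination ((w.im : ℂ) * fderiv ℝ H z Complex.I) * Complex.I_sq

end FlDM

open FlDM in
/-- `Hp/FlD`: the derivative along the flow -/
theorem stmtFlD (hTw : StmtTwG) : StmtFlD := by
  intro f t hf
  have key : ∀ (n : ℤ) (g : G), HasDerivAt (fun s : ℝ => Ff f t n (g * fl s))
      ((1 / 2) * (((la t n : ℝ) : ℂ) * Ff f t (n + 1) g -
        ((la t (n - 1) : ℝ) : ℂ) * Ff f t (n - 1) g)) 0 := by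
    intro n g
    have hz : ((base g : ℍ) : ℂ) ∈ H0 := (base g).im_pos
    have hb0 : ((base (g * fl 0) : ℍ) : ℂ) = ((base g : ℍ) : ℂ) := by rw [Dyn.fl_zero, mul_one]
    have hz0 : ze (g * fl 0) = ze g := by rw [Dyn.fl_zero, mul_one]
    -- the function `G_n`
    have h1 : HasFDerivAt (Gf f t n) (fderiv ℝ (Gf f t n) ((base g : ℍ) : ℂ)) ((base g : ℍ) : ℂ) := by
      have h2 := (hTw f t hf n).1
      have h3 : ContDiffAt ℝ ∞ (Gf f t n) ((base g : ℍ) : ℂ) :=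
        h2.contDiffAt (Half.isOpen_H0.mem_nhds hz)
      exact (h3.differentiableAt (by simp)).hasFDerivAt
    have h2 := d_base g
    rw [w_eq] at h2
    have h3 : HasDerivAt (fun s : ℝ => Gf f t n ((base (g * fl s) : ℍ) : ℂ))
        (fderiv ℝ (Gf f t n) ((base g : ℍ) : ℂ) (Complex.I * (((base g).im : ℝ) : ℂ) * ze g)) 0 := by
      have h4 : HasFDerivAt (Gf f t n) (fderiv ℝ (Gf f t n) ((base g : ℍ) : ℂ))
          ((base (g * fl 0) : ℍ) : ℂ) := by rwa [hb0]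
      exact h4.comp_hasDerivAt (0 : ℝ) h2
    have h4 : HasDerivAt (fun s : ℝ => ze (g * fl s) ^ n)
        ((n : ℂ) * ze g ^ (n - 1) * ((ze g ^ 2 - 1) / 2)) 0 := by
      have h5 := hasDerivAt_zpow n (ze (g * fl 0)) (Or.inl (Dyn.ze_ne _))
      rw [hz0] at h5
      have h6 : HasDerivAt (fun x : ℂ => x ^ n) ((n : ℂ) * ze g ^ (n - 1)) (ze (g * fl 0)) := by
        rwa [hz0]
      exact h6.comp (0 : ℝ) (d_ze g)
    have h5 := h4.mul h3
    have h6 : (fun s : ℝ => Ff f t n (g * fl s)) =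
        (fun s : ℝ => ze (g * fl s) ^ n) * (fun s : ℝ => Gf f t n ((base (g * fl s) : ℍ) : ℂ)) := by
      funext s
      rfl
    rw [h6]
    refine h5.congr_deriv ?_
    rw [hb0, hz0]
    -- the relations of the tower
    have r1 := (hTw f t hf n).2.1 _ hz
    have r2 := (hTw f t hf (n - 1)).2.2.1 _ hz
    rw [sub_add_cancel] at r2
    push_cast at r2
    have him : (((base g : ℍ) : ℂ)).im = (base g).im := rfl
    rw [him] at r1 r2
    have hzn : ze g ≠ 0 := Dyn.ze_ne g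
    have hconj : conj (ze g) = (ze g)⁻¹ := by
      rw [Complex.inv_def, Complex.normSq_eq_norm_sq, Dyn.norm_ze]
      simp
    have hcw : conj (Complex.I * (((base g).im : ℝ) : ℂ) * ze g) =
        -(Complex.I * (((base g).im : ℝ) : ℂ)) * (ze g)⁻¹ := by
      rw [map_mul, map_mul, Complex.conj_I, Complex.conj_ofReal, hconj]
      ring
    rw [fder, hcw, Ff, Ff, zpow_add_one₀ hzn, zpow_sub_one₀ hzn]
    set ζ := ze g with hζ
    set y : ℂ := (((base g).im : ℝ) : ℂ) with hy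
    have e : ζ * ζ⁻¹ = 1 := mul_inv_cancel₀ hzn
    set P := ζ ^ n
    set D := dz (Gf f t n) ((base g : ℍ) : ℂ)
    set E := dzb (Gf f t n) ((base g : ℍ) : ℂ)
    set X := Gf f t n ((base g : ℍ) : ℂ)
    have r1' : Complex.I * y * D = ((la t n : ℝ) : ℂ) * Gf f t (n + 1) ((base g : ℍ) : ℂ) - n * X := by
      linear_combination r1
    have r2' : Complex.I * y * E =
        ((la t (n - 1) : ℝ) : ℂ) * Gf f t (n - 1) ((base g : ℍ) : ℂ) - n * X := by
      linear_combination -r2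
    have e2 : P * ζ⁻¹ * ζ ^ 2 = P * ζ := by
      rw [mul_assoc, pow_two, ← mul_assoc ζ⁻¹, inv_mul_cancel₀ hzn, one_mul]
    linear_combination (P * ζ / 2) * r1' - (P * ζ⁻¹ / 2) * r2' + ((n : ℂ) * X / 2) * e2
  intro n g s
  have h1 := key n (g * fl s)
  have h2 : HasDerivAt (fun r : ℝ => Ff f t n (g * fl s * fl (r - s)))
      ((1 / 2) * (((la t n : ℝ) : ℂ) * Ff f t (n + 1) (g * fl s) -
      ((la t (n - 1) : ℝ) : ℂ) * Ff f t (n - 1) (g * fl s))) s := by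
    refine HasDerivAt.comp_sub_const (f := fun r : ℝ => Ff f t n (g * fl s * fl r)) s s ?_
    rwa [sub_self]
  refine h2.congr_of_eventuallyEq (Eventually.of_forall fun r => ?_)
  change Ff f t n (g * fl r) = Ff f t n (g * fl s * fl (r - s))
  rw [mul_assoc, ← Dyn.fl_add, add_sub_cancel]

end

end Pool.Agent.A54.Hp
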