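import Pool.Agent.Lib.MP_a54f13_nt.Hp.SpecU
import Pool.Agent.Lib.MP_a54f13_nt.Pl.U1

/-! # Package `Hp`, `FlH`: right translates by the flow -/

set_option autoImplicit false

namespace Pool.Agent.A54.Hp

open MeasureTheory Filter Topology Set
open scoped ContDiff ComplexConjugate UpperHalfPlane MatrixGroups ENNReal
open Pool.Agent.A54.Dyn (G fl base ze io mk4 dom)

noncomputable section

namespace FlHM

/-- at most two translates of a point are in the fundamental domain -/
lemma cnt_le (w : ℍ) :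
    ∑' γ : SL(2, ℤ), ModularGroup.fdo.indicator (fun _ => (1 : ℝ≥0∞)) (γ • w) ≤ 2 := by
  classical
  by_cases h : ∃ γ0 : SL(2, ℤ), γ0 • w ∈ ModularGroup.fdo
  · obtain ⟨γ0, h0⟩ := h
    rw [tsum_eq_sum (s := ({γ0, -γ0} : Finset SL(2, ℤ)))]
    · calc ∑ γ ∈ ({γ0, -γ0} : Finset SL(2, ℤ)),
            ModularGroup.fdo.indicator (fun _ => (1 : ℝ≥0∞)) (γ • w)
          ≤ ∑ γ ∈ ({γ0, -γ0} : Finset SL(2, ℤ)), (1 : ℝ≥0∞) := by
            refine Finset.sum_le_sum fun γ _ => ?_
            by_cases h1 : γ • w ∈ ModularGroup.fdo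
            · rw [indicator_of_mem h1]
            · rw [indicator_of_notMem h1]
              exact bot_le
        _ = ((({γ0, -γ0} : Finset SL(2, ℤ)).card : ℕ) : ℝ≥0∞) := by
            rw [Finset.sum_const, nsmul_eq_mul, mul_one]
        _ ≤ ((2 : ℕ) : ℝ≥0∞) := by
            exact_mod_cast Finset.card_le_two
        _ = 2 := by norm_num
    · intro γ hγ
      refine indicator_of_notMem (fun h' => hγ ?_) _
      have h2 : (γ * γ0⁻¹) • (γ0 • w) ∈ ModularGroup.fdo := by
        rw [← mul_smul, inv_mul_cancel_right]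
        exact h'
      rw [Finset.mem_insert, Finset.mem_singleton]
      rcases ModularGroup.eq_one_or_neg_one_of_mem_fdo_mem_fdo h0 h2 with h3 | h3
      · left
        exact mul_inv_eq_one.mp h3
      · right
        rw [mul_inv_eq_iff_eq_mul] at h3
        rw [h3, neg_one_mul]
  · have h1 : ∀ γ : SL(2, ℤ), ModularGroup.fdo.indicator (fun _ => (1 : ℝ≥0∞)) (γ • w) = 0 :=
      fun γ => indicator_of_notMem (fun h2 => h ⟨γ, h2⟩) _
    simp_rw [h1]
    rw [tsum_zero]
    exact bot_le

lemma ind_eq (γ : SL(2, ℤ)) (g : G) : FF.indicator (fun _ => (1 : ℝ≥0∞)) (io γ * g) =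
    ModularGroup.fdo.indicator (fun _ => (1 : ℝ≥0∞)) (γ • base g) := by
  have h1 : base (io γ * g) = γ • base g := by
    rw [Dyn.base_mul]
    rfl
  by_cases h : γ • base g ∈ ModularGroup.fdo
  · have h2 : io γ * g ∈ FF := by
      show base (io γ * g) ∈ ModularGroup.fdo
      rw [h1]
      exact h
    rw [indicator_of_mem h, indicator_of_mem h2]
  · have h2 : io γ * g ∉ FF := by
      show ¬ base (io γ * g) ∈ ModularGroup.fdo
      rw [h1]
      exact h
    rw [indicator_of_notMem h, indicator_of_notMem h2]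

lemma measFF : MeasurableSet FF := Dyn.measurable_base X.measurableSet_fdo

/-- right translates of invariant functions -/
lemma trans_le (hR : nu.IsMulRightInvariant) (hU : StmtUnf) {F : G → ℝ≥0∞} (hF : Measurable F)
    (hinv : ∀ (γ : SL(2, ℤ)) (g : G), F (io γ * g) = F g) (h : G) :
    ∫⁻ g in FF, F (g * h) ∂nu ≤ ∫⁻ g in FF, F g ∂nu := by
  have := Pl.U1M.countable_sl
  set f : G → ℝ≥0∞ := fun x => FF.indicator (fun _ => (1 : ℝ≥0∞)) (x * h⁻¹) * F x with hf
  have hI : Measurable fun x : G => FF.indicator (fun _ => (1 : ℝ≥0∞)) (x * h⁻¹) :=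
    (measurable_const.indicator measFF).comp (continuous_mul_const h⁻¹).measurable
  have hfm : Measurable f := hI.mul hF
  have e1 : ∫⁻ g in FF, F (g * h) ∂nu = ∫⁻ g, f g ∂nu := by
    rw [← lintegral_mul_right_eq_self f h, ← lintegral_indicator measFF]
    refine lintegral_congr fun g => ?_
    simp only [hf]
    rw [mul_inv_cancel_right]
    by_cases hg : g ∈ FF
    · rw [indicator_of_mem hg, indicator_of_mem hg, one_mul]
    · rw [indicator_of_notMem hg, indicator_of_notMem hg, zero_mul]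
  have e2 : 2 * ∫⁻ g, f g ∂nu ≤ 2 * ∫⁻ g in FF, F g ∂nu := by
    rw [← hU.1 f hfm, ← lintegral_tsum (fun γ => by
      exact (hfm.comp (continuous_const_mul (io γ)).measurable).aemeasurable),
      ← lintegral_const_mul' _ _ (by norm_num)]
    refine lintegral_mono fun g => ?_
    have e3 : ∀ γ : SL(2, ℤ), f (io γ * g) =
        ModularGroup.fdo.indicator (fun _ => (1 : ℝ≥0∞)) (γ • base (g * h⁻¹)) * F g := by
      intro γ
      simp only [hf]
      rw [hinv, mul_assoc, ind_eq]
    simp_rw [e3]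
    rw [ENNReal.tsum_mul_right]
    gcongr
    exact cnt_le _
  rw [e1]
  exact (ENNReal.mul_le_mul_iff_right (by norm_num) (by norm_num)).mp e2

end FlHM

open FlHM in
/-- right translates by the flow -/
theorem stmtFlH (_hNuL : StmtNuL) (hNuR : StmtNuR) (hUnf : StmtUnf) : StmtFlH := by
  intro l Φ hE s
  refine ⟨⟨hE.cont.comp (continuous_mul_const _), fun γ g => ?_, ?_, fun p hp g => ?_⟩, fun h g => ?_⟩
  · show Φ (io γ * g * fl s) = Φ (g * fl s)
    rw [mul_assoc, hE.inv]
  · refine (trans_le hNuR.1 hUnf (F := fun g => ‖Φ g‖ₑ ^ 2)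
      ((hE.cont.measurable.enorm).pow_const 2) (fun γ g => ?_) (fl s)).trans hE.norm
    show ‖Φ (io γ * g)‖ₑ ^ 2 = ‖Φ g‖ₑ ^ 2
    rw [hE.inv]
  · have h := hE.hecke p hp (g * fl s)
    simp only [← mul_assoc] at h
    exact h
  · have h2 := h (g * fl s)
    simp only [← mul_assoc] at h2
    exact h2

end

end Pool.Agent.A54.Hp
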