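import Pool.Agent.Lib.MP_a54f13_nt.Hp.SpecA

/-!
# Package `Hp`, module HeF: the combinations are Hecke eigenfunctions (helper94)
-/

set_option autoImplicit false

namespace Pool.Agent.A54.Hp

open MeasureTheory Filter Topology Set
open scoped ContDiff ComplexConjugate UpperHalfPlane MatrixGroups ENNReal
open Pool.Agent.A54.Dyn (G fl base ze io mk4 dom)
open Pool.Agent.A54.Dyn.LiftM (Sct XC XX cc rot m0)
open Pool.Agent.A54.Av (Mat NonSc)
open Pool.Agent.A54.Half (H0)
open Pool.Agent.A54.Sq (la TestP Tow Up)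

noncomputable section

namespace HeFM

theorem det_tri (a b d : ℤ) : (!![a, b; 0, d] : Mat).det = a * d := by
  rw [Matrix.det_fin_two_of]
  ring

theorem nm_eq (a b d : ℤ) (h : 0 < a * d) : ∃ r : ℝ, 0 < r ∧
    nm !![a, b; 0, d] 0 0 = a / r ∧ nm !![a, b; 0, d] 0 1 = b / r ∧
    nm !![a, b; 0, d] 1 0 = 0 ∧ nm !![a, b; 0, d] 1 1 = d / r := by
  have h1 : (0 : ℝ) < (((!![a, b; 0, d] : Mat).det : ℤ) : ℝ) := by
    rw [det_tri]
    exact_mod_cast h
  refine ⟨√(((!![a, b; 0, d] : Mat).det : ℤ) : ℝ), Real.sqrt_pos.mpr h1, ?_, ?_, ?_, ?_⟩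
  · rw [nm, dif_pos h1, Dyn.mk4_00]
    simp
  · rw [nm, dif_pos h1, Dyn.mk4_01]
    simp
  · rw [nm, dif_pos h1, Dyn.mk4_10]
    simp
  · rw [nm, dif_pos h1, Dyn.mk4_11]
    simp

theorem base_tri (a b d : ℤ) (h : 0 < a * d) (g : G) :
    ((base (nm !![a, b; 0, d] * g) : ℍ) : ℂ) = ((a : ℂ) * (base g : ℂ) + b) / d := by
  obtain ⟨r, hr, h1, h2, h3, h4⟩ := nm_eq a b d h
  have hr' : (r : ℂ) ≠ 0 := by exact_mod_cast hr.ne'
  have hd : (d : ℂ) ≠ 0 := by
    have : d ≠ 0 := by
      rintro rfl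
      simp at h
    exact_mod_cast this
  rw [Dyn.base_mul, Dyn.smul_coe, h1, h2, h3, h4]
  push_cast
  rw [zero_mul, zero_add, div_eq_div_iff (div_ne_zero hd hr') hd]
  field_simp

theorem ze_tri (a b d : ℤ) (h : 0 < a * d) (g : G) : ze (nm !![a, b; 0, d] * g) = ze g := by
  obtain ⟨r, hr, h1, h2, h3, h4⟩ := nm_eq a b d h
  have hr' : (r : ℂ) ≠ 0 := by exact_mod_cast hr.ne'
  have hd : (d : ℂ) ≠ 0 := by
    have : d ≠ 0 := by
      rintro rfl
      simp at h
    exact_mod_cast this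
  rw [Dyn.ze_mul, h3, h4]
  push_cast
  rw [zero_mul, zero_mul, zero_add, div_self (div_ne_zero hd hr'), mul_one]

theorem isOpen_fdo : IsOpen ModularGroup.fdo := by
  have : ModularGroup.fdo = {z : ℍ | 1 < Complex.normSq (z : ℂ)} ∩
      {z : ℍ | |z.re| < (1 : ℝ) / 2} := rfl
  rw [this]
  apply IsOpen.inter
  · exact isOpen_lt continuous_const (Complex.continuous_normSq.comp UpperHalfPlane.continuous_coe)
  · exact isOpen_lt (continuous_abs.comp UpperHalfPlane.continuous_re) continuous_const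

end HeFM

open HeFM in
theorem stmtHeF (hTwG : StmtTwG) (hHkG : StmtHkG) (hFib : StmtFib) : StmtHeF := by
  intro f t hf l hl N c hc
  refine ⟨?_, ?_, ?_, ?_⟩
  · -- continuity
    unfold Ph
    exact continuous_finsetSum _ fun n _ => continuous_const.mul (hTwG f t hf n).2.2.2.2.2.2.2.2
  · -- invariance
    intro γ g
    unfold Ph
    refine Finset.sum_congr rfl fun n _ => ?_
    rw [(hTwG f t hf n).2.2.2.2.2.1 γ g]
  · -- the norm
    have hm : MeasurableSet (ModularGroup.fdo : Set ℍ) := isOpen_fdo.measurableSet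
    have hG : ∀ n, Measurable fun z : ℍ => ‖Gf f t n (z : ℂ)‖ₑ ^ 2 := by
      intro n
      have h1 : Continuous fun z : ℍ => Gf f t n (z : ℂ) :=
        (hTwG f t hf n).1.continuousOn.comp_continuous UpperHalfPlane.continuous_coe
          (fun z => z.2)
      exact (h1.measurable.enorm).pow_const 2
    have h1 := (hFib f t hf N c).2 ((ModularGroup.fdo : Set ℍ).indicator fun _ => 1)
      (measurable_const.indicator hm)
    have h2 : ∫⁻ g in FF, ‖Ph f t N c g‖ₑ ^ 2 ∂nu =
        ∫⁻ g, ((ModularGroup.fdo : Set ℍ).indicator (fun _ => (1 : ℝ≥0∞))) (base g) *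
          ‖Ph f t N c g‖ₑ ^ 2 ∂nu := by
      have hFF : MeasurableSet FF := Dyn.measurable_base hm
      rw [← lintegral_indicator hFF]
      refine lintegral_congr fun g => ?_
      by_cases hg : base g ∈ (ModularGroup.fdo : Set ℍ)
      · rw [indicator_of_mem (s := FF) hg, indicator_of_mem hg, one_mul]
      · rw [indicator_of_notMem (s := FF) hg, indicator_of_notMem hg, zero_mul]
    rw [h2, h1]
    have h3 : ∫⁻ z : ℍ, ((ModularGroup.fdo : Set ℍ).indicator (fun _ => (1 : ℝ≥0∞))) z *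
        ENNReal.ofReal (Sw f t N (fun n => ‖c n‖ ^ 2) z) =
        ∫⁻ z in ModularGroup.fdo, ENNReal.ofReal (Sw f t N (fun n => ‖c n‖ ^ 2) z) := by
      rw [← lintegral_indicator hm]
      refine lintegral_congr fun z => ?_
      by_cases hz : z ∈ (ModularGroup.fdo : Set ℍ)
      · rw [indicator_of_mem hz, indicator_of_mem hz, one_mul]
      · rw [indicator_of_notMem hz, indicator_of_notMem hz, zero_mul]
    rw [h3]
    have h4 : ∀ z : ℍ, ENNReal.ofReal (Sw f t N (fun n => ‖c n‖ ^ 2) z) =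
        ∑ n ∈ Finset.Icc (-(N : ℤ)) N, ENNReal.ofReal (‖c n‖ ^ 2) * ‖Gf f t n (z : ℂ)‖ₑ ^ 2 := by
      intro z
      unfold Sw
      rw [ENNReal.ofReal_sum_of_nonneg fun n _ => by positivity]
      refine Finset.sum_congr rfl fun n _ => ?_
      rw [ENNReal.ofReal_mul (by positivity), ENNReal.ofReal_pow (norm_nonneg _),
        ENNReal.ofReal_pow (norm_nonneg (Gf f t n (z : ℂ))), ofReal_norm,
        ofReal_norm]
    simp only [h4]
    rw [lintegral_finsetSum _ fun n _ => (hG n).const_mul _]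
    simp only [lintegral_const_mul _ (hG _)]
    have h5 : ∀ n, ∫⁻ z in ModularGroup.fdo, ‖Gf f t n (z : ℂ)‖ₑ ^ 2 =
        ENNReal.ofReal (Real.pi / 3) := fun n => (hTwG f t hf n).2.2.2.2.2.2.1
    simp only [h5]
    rw [← Finset.sum_mul, ← ENNReal.ofReal_sum_of_nonneg fun n _ => by positivity,
      ← ENNReal.ofReal_mul (Finset.sum_nonneg fun n _ => by positivity)]
    calc ENNReal.ofReal ((∑ n ∈ Finset.Icc (-(N : ℤ)) N, ‖c n‖ ^ 2) * (Real.pi / 3))
        ≤ ENNReal.ofReal 2 := by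
          refine ENNReal.ofReal_le_ofReal ?_
          have h6 := Real.pi_lt_four
          have h7 := Real.pi_pos
          nlinarith
      _ = 2 := by simp
  · -- the Hecke relation
    intro p hp g
    have hp0 : (0 : ℤ) < p := by exact_mod_cast hp.pos
    have hz : ((base g : ℍ) : ℂ) ∈ H0 := (base g).2
    have h1 : ∀ n, Ff f t n (nm !![(p : ℤ), 0; 0, 1] * g) =
        ze g ^ n * Gf f t n ((p : ℂ) * (base g : ℂ)) := by
      intro n
      have h : (0 : ℤ) < p * 1 := by simpa using hp0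
      rw [Ff, ze_tri _ _ _ h, base_tri _ _ _ h]
      simp
    have h2 : ∀ n (b : ℕ), Ff f t n (nm !![1, (b : ℤ); 0, (p : ℤ)] * g) =
        ze g ^ n * Gf f t n (((base g : ℂ) + b) / p) := by
      intro n b
      have h : (0 : ℤ) < 1 * p := by simpa using hp0
      rw [Ff, ze_tri _ _ _ h, base_tri _ _ _ h]
      simp
    simp only [Ph, h1, h2]
    rw [Finset.sum_comm, ← Finset.sum_add_distrib, Finset.mul_sum]
    refine Finset.sum_congr rfl fun n _ => ?_
    have h3 := hHkG f t hf p hp _ (hl p hp) n _ hz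
    rw [Ff, ← Finset.mul_sum, ← Finset.mul_sum]
    linear_combination (c n * ze g ^ n) * h3

end

end Pool.Agent.A54.Hp
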