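import Pool.Agent.Lib.MP_a54f13_nt.Hp.SpecU

/-!
# `Hp.Hgt`: height of points of the cusp set
-/

set_option autoImplicit false

namespace Pool.Agent.A54.Hp

open MeasureTheory Filter Topology Set
open scoped ContDiff ComplexConjugate UpperHalfPlane MatrixGroups ENNReal
open Pool.Agent.A54.Dyn (G fl base ze io mk4 dom)

namespace HgtM

lemma im_base (g : G) : (base g).im = 1 / (g 1 0 ^ 2 + g 1 1 ^ 2) := by
  unfold base
  rw [Dyn.im_smul]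
  have h : Complex.normSq ((g 1 0 : ℂ) * (UpperHalfPlane.I : ℍ) + g 1 1) = g 1 0 ^ 2 + g 1 1 ^ 2 := by
    rw [Complex.normSq_apply]
    simp
    ring
  rw [h]
  simp

lemma bot_pos (g : G) : 0 < g 1 0 ^ 2 + g 1 1 ^ 2 := by
  have h1 := (base g).im_pos
  rw [im_base] at h1
  exact one_div_pos.mp h1

lemma io_apply (γ : SL(2, ℤ)) (i j : Fin 2) : io γ i j = ((γ i j : ℤ) : ℝ) := by
  rfl

lemma prim (u : Fin 2 → ℤ) (hu : u ≠ 0) : ∃ (γ : SL(2, ℤ)) (d : ℤ), 1 ≤ d ∧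
    u 0 = d * γ 1 1 ∧ u 1 = -(d * γ 1 0) := by
  have hg : 0 < Int.gcd (u 0) (u 1) := by
    rw [Int.gcd_pos_iff]
    by_contra hc
    push Not at hc
    apply hu
    funext i
    fin_cases i
    · exact hc.1
    · exact hc.2
  obtain ⟨g, c, e, h0, h1, h2, h3⟩ := Int.exists_gcd_one' hg
  have hb := Int.isCoprime_iff_gcd_eq_one.mpr h1
  obtain ⟨a, b, hab⟩ := hb
  refine ⟨⟨!![a, b; -e, c], ?_⟩, g, by exact_mod_cast h0, ?_, ?_⟩
  · rw [Matrix.det_fin_two_of]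
    linear_combination hab
  · simp only [Matrix.of_apply, Matrix.cons_val', Matrix.cons_val_one, Matrix.cons_val_fin_one]
    rw [h2]; ring
  · simp only [Matrix.of_apply, Matrix.cons_val', Matrix.cons_val_zero, Matrix.cons_val_one, Matrix.cons_val_fin_one]
    rw [h3]; ring

lemma core (x : G) (s B : ℝ) (u : Fin 2 → ℤ) (hu : u ≠ 0)
    (h : Real.exp s * (-(x 1 0) * u 0 + x 0 0 * u 1) ^ 2 + Real.exp (-s) * (x 1 1 * u 0 - x 0 1 * u 1) ^ 2 ≤ B) :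
    ∃ γ : SL(2, ℤ), 1 / B ≤ (base (io γ * (x * fl s))).im := by
  obtain ⟨γ, d, hd, h0, h1⟩ := prim u hu
  refine ⟨γ, ?_⟩
  rw [im_base]
  set h' := io γ * (x * fl s) with hh'
  have hpos := bot_pos h'
  apply one_div_le_one_div_of_le hpos
  refine le_trans ?_ h
  have he1 : Real.exp (s / 2) ^ 2 = Real.exp s := by
    rw [← Real.exp_nat_mul]; congr 1; push_cast; ring
  have he2 : Real.exp (-s / 2) ^ 2 = Real.exp (-s) := by
    rw [← Real.exp_nat_mul]; congr 1; push_cast; ring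
  have hm : ∀ (A B : G) (i j : Fin 2), (A * B) i j = A i 0 * B 0 j + A i 1 * B 1 j := by
    intro A B i j
    rw [Matrix.SpecialLinearGroup.coe_mul, Matrix.mul_apply, Fin.sum_univ_two]
  have e10 : h' 1 0 = Real.exp (s / 2) * ((γ 1 0 : ℤ) * x 0 0 + (γ 1 1 : ℤ) * x 1 0) := by
    rw [hh', hm, hm, hm, Dyn.fl_00, Dyn.fl_10, io_apply, io_apply]; ring
  have e11 : h' 1 1 = Real.exp (-s / 2) * ((γ 1 0 : ℤ) * x 0 1 + (γ 1 1 : ℤ) * x 1 1) := by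
    rw [hh', hm, hm, hm, Dyn.fl_01, Dyn.fl_11, io_apply, io_apply]; ring
  have r0 : (u 0 : ℝ) = (d : ℝ) * (γ 1 1 : ℤ) := by exact_mod_cast h0
  have r1 : (u 1 : ℝ) = -((d : ℝ) * (γ 1 0 : ℤ)) := by exact_mod_cast h1
  have hd' : (1 : ℝ) ≤ (d : ℝ) ^ 2 := by
    have : (1 : ℝ) ≤ d := by exact_mod_cast hd
    nlinarith
  rw [e10, e11, mul_pow, mul_pow, he1, he2, r0, r1]
  have q1 : (-(x 1 0) * ((d : ℝ) * (γ 1 1 : ℤ)) + x 0 0 * -((d : ℝ) * (γ 1 0 : ℤ))) ^ 2 =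
      (d : ℝ) ^ 2 * ((γ 1 0 : ℤ) * x 0 0 + (γ 1 1 : ℤ) * x 1 0) ^ 2 := by ring
  have q2 : (x 1 1 * ((d : ℝ) * (γ 1 1 : ℤ)) - x 0 1 * -((d : ℝ) * (γ 1 0 : ℤ))) ^ 2 =
      (d : ℝ) ^ 2 * ((γ 1 0 : ℤ) * x 0 1 + (γ 1 1 : ℤ) * x 1 1) ^ 2 := by ring
  rw [q1, q2]
  have a1 : ∀ z : ℝ, z ^ 2 ≤ (d : ℝ) ^ 2 * z ^ 2 := fun z => le_mul_of_one_le_left (sq_nonneg z) hd'
  gcongr
  · exact a1 _
  · exact a1 _

lemma sq_le_of {z c : ℝ} (h : |z| ≤ c) : z ^ 2 ≤ c ^ 2 := by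
  have h0 := abs_nonneg z
  rw [← sq_abs]
  exact pow_le_pow_left₀ h0 h 2

end HgtM

open HgtM in
theorem stmtHgt : StmtHgt := by
  intro η K hη hK x u hu
  have hK0 : 0 < K := lt_of_lt_of_le hη hK
  have hq : 0 < K / η := div_pos hK0 hη
  have e1 : Real.exp (Real.log (K / η)) = K / η := Real.exp_log hq
  have e2 : Real.exp (-Real.log (K / η)) = η / K := by
    rw [Real.exp_neg, e1, inv_div]
  refine ⟨fun h1 h2 => ?_, fun h1 h2 => ?_⟩
  · apply core x _ _ u hu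
    rw [neg_neg, e1, e2]
    have a1 := sq_le_of h1
    have a2 := sq_le_of h2
    have b1 : η / K * (-(x 1 0) * u 0 + x 0 0 * u 1) ^ 2 ≤ η / K * K ^ 2 := by gcongr
    have b2 : K / η * (x 1 1 * u 0 - x 0 1 * u 1) ^ 2 ≤ K / η * η ^ 2 := by gcongr
    have c1 : η / K * K ^ 2 = η * K := by field_simp
    have c2 : K / η * η ^ 2 = η * K := by field_simp
    linarith
  · apply core x _ _ u hu
    rw [e1, e2]
    have a1 := sq_le_of h1
    have a2 := sq_le_of h2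
    have b1 : K / η * (-(x 1 0) * u 0 + x 0 0 * u 1) ^ 2 ≤ K / η * η ^ 2 := by gcongr
    have b2 : η / K * (x 1 1 * u 0 - x 0 1 * u 1) ^ 2 ≤ η / K * K ^ 2 := by gcongr
    have c1 : η / K * K ^ 2 = η * K := by field_simp
    have c2 : K / η * η ^ 2 = η * K := by field_simp
    linarith

end Pool.Agent.A54.Hp
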