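import Pool.Agent.Lib.MP_a54f13_nt.Hp.SpecB

/-!
# Package `Hp`, `Hm`: two-point homogeneity (helper1)
-/

set_option autoImplicit false

namespace Pool.Agent.A54.Hp

open MeasureTheory Filter Topology Set
open scoped ContDiff ComplexConjugate UpperHalfPlane MatrixGroups ENNReal
open Pool.Agent.A54.Dyn (G fl base ze io mk4 dom)

noncomputable section

namespace HmM

/-- rotations -/
def rt (θ : ℝ) : G := mk4 (Real.cos θ) (Real.sin θ) (-Real.sin θ) (Real.cos θ) (by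
  have := Real.sin_sq_add_cos_sq θ
  nlinarith)

lemma fix_I (g : G) (h1 : g 0 0 = g 1 1) (h2 : g 0 1 = -g 1 0) :
    g • UpperHalfPlane.I = UpperHalfPlane.I := by
  apply UpperHalfPlane.ext
  rw [Dyn.smul_coe, div_eq_iff (Dyn.denom_ne _ _), h1, h2]
  simp only [UpperHalfPlane.coe_I]
  push_cast
  linear_combination -(g 1 0 : ℂ) * Complex.I_mul_I

lemma re_smul (g : G) (z : ℍ) : (g • z : ℍ).re =
    ((g 0 0 * z.re + g 0 1) * (g 1 0 * z.re + g 1 1) + g 0 0 * g 1 0 * z.im ^ 2) /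
      Complex.normSq ((g 1 0 : ℂ) * z + g 1 1) := by
  have h3 : ((g • z : ℍ) : ℂ).re =
      ((g 0 0 * z.re + g 0 1) * (g 1 0 * z.re + g 1 1) + g 0 0 * g 1 0 * z.im ^ 2) /
      Complex.normSq ((g 1 0 : ℂ) * z + g 1 1) := by
    rw [Dyn.smul_coe, Complex.div_re, ← add_div]
    congr 1
    simp only [Complex.add_im, Complex.add_re, Complex.mul_im, Complex.mul_re, Complex.ofReal_re,
      Complex.ofReal_im, UpperHalfPlane.coe_re, UpperHalfPlane.coe_im]
    ring
  exact h3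

lemma toAxis (w : ℍ) : ∃ g : G, g • UpperHalfPlane.I = UpperHalfPlane.I ∧ (g • w : ℍ).re = 0 := by
  let ζ : ℂ := ⟨(1 - w.re ^ 2 - w.im ^ 2) / 2, -w.re⟩
  refine ⟨rt (ζ.arg / 2), fix_I _ rfl (by show Real.sin _ = - -Real.sin _; ring), ?_⟩
  rw [re_smul]
  have e00 : rt (ζ.arg / 2) 0 0 = Real.cos (ζ.arg / 2) := rfl
  have e01 : rt (ζ.arg / 2) 0 1 = Real.sin (ζ.arg / 2) := rfl
  have e10 : rt (ζ.arg / 2) 1 0 = -Real.sin (ζ.arg / 2) := rfl
  have e11 : rt (ζ.arg / 2) 1 1 = Real.cos (ζ.arg / 2) := rfl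
  rw [e00, e01, e10, e11]
  have hs : Real.sin ζ.arg = 2 * Real.sin (ζ.arg / 2) * Real.cos (ζ.arg / 2) := by
    rw [← Real.sin_two_mul]
    congr 1
    ring
  have hc : Real.cos ζ.arg = Real.cos (ζ.arg / 2) ^ 2 - Real.sin (ζ.arg / 2) ^ 2 := by
    rw [← Real.cos_two_mul']
    congr 1
    ring
  have hz : Real.sin ζ.arg * ζ.re - Real.cos ζ.arg * ζ.im = 0 := by
    by_cases h0 : ζ = 0
    · rw [h0]
      simp
    · have hn : ‖ζ‖ ≠ 0 := norm_ne_zero_iff.mpr h0
      have h1 := Complex.norm_mul_cos_arg ζ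
      have h2 := Complex.norm_mul_sin_arg ζ
      apply mul_left_cancel₀ hn
      rw [mul_zero, mul_sub, ← mul_assoc, ← mul_assoc, h1, h2]
      ring
  have hre : ζ.re = (1 - w.re ^ 2 - w.im ^ 2) / 2 := rfl
  have him : ζ.im = -w.re := rfl
  rw [hre, him, hs, hc] at hz
  rw [div_eq_zero_iff]
  left
  linear_combination hz

lemma toI (z w : ℍ) : ∃ g : G, g • z = UpperHalfPlane.I ∧ (g • w : ℍ).re = 0 ∧
    1 ≤ (g • w : ℍ).im := by
  obtain ⟨k, hk1, hk2⟩ := toAxis (z.toSL2R⁻¹ • w)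
  have h0 : z.toSL2R⁻¹ • z = UpperHalfPlane.I := by
    rw [inv_smul_eq_iff]
    exact (UpperHalfPlane.toSL2R_smul_I z).symm
  by_cases h1 : 1 ≤ (k • (z.toSL2R⁻¹ • w) : ℍ).im
  · refine ⟨k * z.toSL2R⁻¹, ?_, ?_, ?_⟩
    · rw [mul_smul, h0, hk1]
    · rw [mul_smul]
      exact hk2
    · rw [mul_smul]
      exact h1
  · push Not at h1
    set v : ℍ := k • (z.toSL2R⁻¹ • w) with hv
    have hw1 : wr • UpperHalfPlane.I = UpperHalfPlane.I := fix_I _ rfl (by
      show (1 : ℝ) = - -1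
      norm_num)
    have hre : (wr • v : ℍ).re = 0 := by
      rw [re_smul]
      have e00 : wr 0 0 = 0 := rfl
      have e01 : wr 0 1 = 1 := rfl
      have e10 : wr 1 0 = -1 := rfl
      have e11 : wr 1 1 = 0 := rfl
      rw [e00, e01, e10, e11, hk2]
      simp
    have him : (wr • v : ℍ).im = 1 / v.im := by
      rw [Dyn.im_smul]
      have e10 : wr 1 0 = -1 := rfl
      have e11 : wr 1 1 = 0 := rfl
      rw [e10, e11]
      have h2 : Complex.normSq (((-1 : ℝ) : ℂ) * (v : ℂ) + ((0 : ℝ) : ℂ)) = v.im * v.im := by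
        rw [Complex.normSq_apply]
        simp only [Complex.add_im, Complex.add_re, Complex.mul_im, Complex.mul_re,
          Complex.ofReal_re, Complex.ofReal_im, UpperHalfPlane.coe_re, UpperHalfPlane.coe_im, hk2]
        ring
      rw [h2]
      have := v.im_pos.ne'
      field_simp
    refine ⟨wr * (k * z.toSL2R⁻¹), ?_, ?_, ?_⟩
    · rw [mul_smul, mul_smul, h0, hk1, hw1]
    · rw [mul_smul, mul_smul, ← hv]
      exact hre
    · rw [mul_smul, mul_smul, ← hv, him, le_div_iff₀ v.im_pos]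
      linarith

lemma uh_I (w : ℍ) (h : w.re = 0) : uh UpperHalfPlane.I w = (w.im - 1) ^ 2 / w.im := by
  unfold uh
  have h1 : ‖((UpperHalfPlane.I : ℍ) : ℂ) - (w : ℂ)‖ ^ 2 = (w.im - 1) ^ 2 := by
    rw [← Complex.normSq_eq_norm_sq, Complex.normSq_apply]
    simp only [Complex.sub_re, Complex.sub_im, UpperHalfPlane.coe_re, UpperHalfPlane.coe_im, h,
      UpperHalfPlane.coe_I, Complex.I_re, Complex.I_im]
    ring
  rw [h1, UpperHalfPlane.I_im, one_mul]

end HmM

open HmM in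
theorem stmtHm (hUg : StmtUg) : StmtHm := by
  intro z w z' w' h
  obtain ⟨g, hg1, hg2, hg3⟩ := toI z w
  obtain ⟨g', hg1', hg2', hg3'⟩ := toI z' w'
  have hu : uh UpperHalfPlane.I (g • w) = uh UpperHalfPlane.I (g' • w') := by
    rw [← hg1, hUg.1 g z w, h, ← hUg.1 g' z' w', hg1', hg1]
  rw [uh_I _ hg2, uh_I _ hg2', div_eq_div_iff (g • w).im_pos.ne' (g' • w').im_pos.ne'] at hu
  have him : (g • w : ℍ).im = (g' • w' : ℍ).im := by
    set s := (g • w : ℍ).im
    set s' := (g' • w' : ℍ).im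
    have h1 : (s - s') * (s * s' - 1) = 0 := by linear_combination hu
    rcases mul_eq_zero.mp h1 with h2 | h2
    · linarith
    · nlinarith
  have heq : (g • w : ℍ) = g' • w' := by
    apply UpperHalfPlane.ext
    apply Complex.ext
    · exact hg2.trans hg2'.symm
    · exact him
  refine ⟨g'⁻¹ * g, ?_, ?_⟩
  · rw [mul_smul, hg1, ← hg1', inv_smul_smul]
  · rw [mul_smul, heq, inv_smul_smul]

end

end Pool.Agent.A54.Hp
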