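import Pool.Agent.Lib.MP_a54f13_nt.Hp.SpecL

/-!
# Package `Hp`: the hypothesis on the eigenvalues (long windows) gives good scales
-/

set_option autoImplicit false

namespace Pool.Agent.A54.Hp

open Filter Topology Set

noncomputable section

namespace HprKM

/-- a property which holds along all sequences holds uniformly -/
lemma diag (Q : ℕ → ℝ → Prop) (u : ℕ → ℝ) (hu : Tendsto u atTop atTop)
    (h : ∀ Y : ℕ → ℝ, Tendsto Y atTop atTop → (∀ i, Y i ≤ u i) → ∀ᶠ i in atTop, Q i (Y i)) :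
    ∃ (Y₀ : ℝ) (i₀ : ℕ), 1 ≤ Y₀ ∧ ∀ i, i₀ ≤ i → ∀ Y : ℝ, Y₀ ≤ Y → Y ≤ u i → Q i Y := by
  classical
  by_contra hcon
  push Not at hcon
  have h1 : ∀ n : ℕ, ∃ᶠ i in atTop, ∃ Y : ℝ, (n : ℝ) ≤ Y ∧ Y ≤ u i ∧ ¬ Q i Y := by
    intro n
    rw [frequently_atTop]
    intro i₀
    obtain ⟨i, hi, Y, hY1, hY2, hY3⟩ := hcon (max 1 (n : ℝ)) i₀ (le_max_left _ _)
    exact ⟨i, hi, Y, (le_max_right _ _).trans hY1, hY2, hY3⟩
  obtain ⟨φ, hφ, hP⟩ := extraction_forall_of_frequently h1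
  choose Z hZ1 hZ2 hZ3 using hP
  let Y : ℕ → ℝ := fun i => if hi : ∃ n, φ n = i then Z hi.choose else u i
  have hYφ : ∀ n, Y (φ n) = Z n := by
    intro n
    have hi : ∃ m, φ m = φ n := ⟨n, rfl⟩
    have h2 : hi.choose = n := hφ.injective hi.choose_spec
    simp only [Y, hi, dif_pos]
    rw [h2]
  have hYu : ∀ i, Y i ≤ u i := by
    intro i
    by_cases hi : ∃ n, φ n = i
    · obtain ⟨n, rfl⟩ := hi
      rw [hYφ]; exact hZ2 n
    · simp only [Y, hi, dif_neg, not_false_iff]; exact le_refl _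
  have hYt : Tendsto Y atTop atTop := by
    rw [tendsto_atTop]
    intro A
    obtain ⟨m, hm⟩ := exists_nat_ge A
    filter_upwards [hu.eventually_ge_atTop A, eventually_ge_atTop (φ m)] with i hi1 hi2
    by_cases hi : ∃ n, φ n = i
    · obtain ⟨n, rfl⟩ := hi
      rw [hYφ]
      have hmn : m ≤ n := (hφ.le_iff_le).mp hi2
      have : (m : ℝ) ≤ n := by exact_mod_cast hmn
      exact hm.trans (this.trans (hZ1 n))
    · simp only [Y, hi, dif_neg, not_false_iff]; exact hi1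
  have h3 := h Y hYt hYu
  obtain ⟨i₁, hi₁⟩ := eventually_atTop.mp h3
  have h4 := hi₁ (φ i₁) (hφ.id_le i₁)
  rw [hYφ] at h4
  exact hZ3 i₁ h4

end HprKM

/-- **HprK** -/
theorem hprK (l : ℕ → ℕ → ℝ) (t : ℕ → ℝ) (c K : ℝ) (hc1 : c ≤ 1) (hK : 1 ≤ K)
    (ht : Tendsto t atTop atTop)
    (h : ∀ Y : ℕ → ℝ, Tendsto Y atTop atTop → (∀ᶠ i in atTop, Y i ^ K ≤ t i ^ (1 / 1000 : ℝ)) →
      ∀ᶠ i in atTop, ∃ M : ℝ, Y i ≤ M ∧ M ≤ Y i ^ K ∧ GdC (1 / 10000) (l i) M) :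
    ∃ (W : ℝ) (i₀ : ℕ), 0 < W ∧ ∀ i, i₀ ≤ i → ∀ w : ℝ, t i ^ (-(1 / 2 + c / 1600)) ≤ w → w ≤ W →
      GdK K (l i) w := by
  have hK0 : 0 < K := by linarith
  have hu : Tendsto (fun i => t i ^ (1 / (1000 * K))) atTop atTop :=
    (tendsto_rpow_atTop (by positivity)).comp ht
  obtain ⟨Y₀, i₀, hY₀, hQ⟩ := HprKM.diag
    (fun i Y => ∃ M : ℝ, Y ≤ M ∧ M ≤ Y ^ K ∧ GdC (1 / 10000) (l i) M) _ hu (by
      intro Y hY hYu
      refine h Y hY ?_
      filter_upwards [hY.eventually_ge_atTop 1, ht.eventually_ge_atTop 1] with i hi1 hi2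
      calc Y i ^ K ≤ (t i ^ (1 / (1000 * K))) ^ K :=
            Real.rpow_le_rpow (by linarith) (hYu i) hK0.le
        _ = t i ^ (1 / 1000 : ℝ) := by
            rw [← Real.rpow_mul (by linarith)]
            congr 1
            field_simp)
  obtain ⟨i₁, hi₁⟩ := (ht.eventually_ge_atTop 1).exists_forall_of_atTop
  have hY0 : 0 < Y₀ := by linarith
  refine ⟨Y₀ ^ (-(1000 * K)), max i₀ i₁, by positivity, ?_⟩
  intro i hi w hw1 hw2
  have ht1 : 1 ≤ t i := hi₁ i ((le_max_right _ _).trans hi)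
  have ht0 : 0 < t i := by linarith
  have hw0 : 0 < w := lt_of_lt_of_le (Real.rpow_pos_of_pos ht0 _) hw1
  have e1 : (w ^ (-(1 / (1000 * K)))) ^ K = w ^ (-(1 / 1000) : ℝ) := by
    rw [← Real.rpow_mul hw0.le]
    congr 1
    field_simp
  obtain ⟨M, hM1, hM2, hM3⟩ := hQ i ((le_max_left _ _).trans hi) (w ^ (-(1 / (1000 * K)))) (by
      have h1 : (Y₀ ^ (-(1000 * K))) ^ (-(1 / (1000 * K))) ≤ w ^ (-(1 / (1000 * K))) :=
        Real.rpow_le_rpow_of_nonpos hw0 hw2 (by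
          have : 0 < 1 / (1000 * K) := by positivity
          linarith)
      have h2 : (Y₀ ^ (-(1000 * K))) ^ (-(1 / (1000 * K))) = Y₀ := by
        rw [← Real.rpow_mul hY0.le]
        have : -(1000 * K) * -(1 / (1000 * K)) = 1 := by field_simp
        rw [this, Real.rpow_one]
      rw [h2] at h1
      exact h1) (by
      have h1 : w ^ (-(1 / (1000 * K))) ≤ (t i ^ (-(1 / 2 + c / 1600))) ^ (-(1 / (1000 * K))) :=
        Real.rpow_le_rpow_of_nonpos (Real.rpow_pos_of_pos ht0 _) hw1 (by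
          have : 0 < 1 / (1000 * K) := by positivity
          linarith)
      refine h1.trans ?_
      rw [← Real.rpow_mul ht0.le]
      apply Real.rpow_le_rpow_of_exponent_le ht1
      have h3 : 0 < 1 / (1000 * K) := by positivity
      have h4 : 1 / 2 + c / 1600 ≤ 1 := by linarith
      nlinarith)
  exact ⟨M, hM1, by rw [e1] at hM2; exact hM2, hM3⟩

end

end Pool.Agent.A54.Hp
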