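import Pool.Agent.Lib.MP_a54f13_nt.Hp.SpecU

/-!
# Package `Hp`, module `IsU` (helper28): the cusp set has small mass
-/

set_option autoImplicit false

namespace Pool.Agent.A54.Hp

open MeasureTheory Filter Topology Set
open scoped ContDiff ComplexConjugate UpperHalfPlane MatrixGroups ENNReal
open Pool.Agent.A54.Dyn (G fl base ze io mk4 dom)

noncomputable section

namespace IsUM

/-- one half of the cusp set -/
def Zh (R a b : ℝ) : Set G := {x : G | x ∈ Om R ∧ ∃ u : Fin 2 → ℤ, u ≠ 0 ∧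
  |x 1 1 * u 0 - x 0 1 * u 1| ≤ a ∧ |-(x 1 0) * u 0 + x 0 0 * u 1| ≤ b}

lemma Zc_eq (R η K : ℝ) : Zc R η K = Zh R η K ∪ Zh R K η := by
  ext x
  simp only [Zc, Zh, Set.mem_ofPred_eq, Set.mem_union]
  constructor
  · rintro ⟨h1, u, hu, h | h⟩
    · exact Or.inl ⟨h1, u, hu, h⟩
    · exact Or.inr ⟨h1, u, hu, h.2, h.1⟩
  · rintro (⟨h1, u, hu, h⟩ | ⟨h1, u, hu, h⟩)
    · exact ⟨h1, u, hu, Or.inl h⟩
    · exact ⟨h1, u, hu, Or.inr ⟨h.2, h.1⟩⟩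

lemma num {η K : ℝ} (h0 : 0 < η) (hK : 0 < K) :
    (1 / (2 * (η * K))) ^ (-(1 / 4 : ℝ)) ≤ 2 * (η * K) ^ (1 / 4 : ℝ) := by
  have hp : 0 < η * K := mul_pos h0 hK
  rw [one_div, Real.inv_rpow (by positivity), Real.rpow_neg (by positivity), inv_inv,
    Real.mul_rpow (by norm_num) hp.le]
  have h2 : (2 : ℝ) ^ (1 / 4 : ℝ) ≤ 2 := by
    calc (2 : ℝ) ^ (1 / 4 : ℝ) ≤ 2 ^ (1 : ℝ) :=
          Real.rpow_le_rpow_of_exponent_le (by norm_num) (by norm_num)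
      _ = 2 := Real.rpow_one 2
  exact mul_le_mul_of_nonneg_right h2 (by positivity)

end IsUM

open IsUM in
theorem stmtIsU (h1 : StmtHgt) (h2 : StmtZcm) (h3 : StmtCst) : StmtIsU := by
  intro R hR
  obtain ⟨C, hC, hCst⟩ := h3 R hR
  refine ⟨4 * C, by positivity, fun l Φ hΦ hcs η K h0 hηK hsm => ?_⟩
  have hK : 0 < K := lt_of_lt_of_le h0 hηK
  have hp : 0 < η * K := mul_pos h0 hK
  have hY : 2 ≤ 1 / (2 * (η * K)) := by
    rw [le_div_iff₀ (by positivity)]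
    linarith
  have hm1 : MeasurableSet (Zh R η K) := h2 R η K
  have hm2 : MeasurableSet (Zh R K η) := h2 R K η
  have hn := num h0 hK
  have hCn : C * (1 / (2 * (η * K))) ^ (-(1 / 4 : ℝ)) ≤ 2 * C * (η * K) ^ (1 / 4 : ℝ) := by
    calc C * (1 / (2 * (η * K))) ^ (-(1 / 4 : ℝ)) ≤ C * (2 * (η * K) ^ (1 / 4 : ℝ)) :=
          mul_le_mul_of_nonneg_left hn hC
      _ = _ := by ring
  have i1 : ms Φ (Zh R η K) ≤ ENNReal.ofReal (2 * C * (η * K) ^ (1 / 4 : ℝ)) := by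
    refine le_trans (hCst l Φ hΦ hcs (-Real.log (K / η)) (1 / (2 * (η * K))) (Zh R η K) hY hm1
      (fun x hx => hx.1) ?_) (ENNReal.ofReal_le_ofReal hCn)
    rintro x ⟨_, u, hu, ha, hb⟩
    exact (h1 η K h0 hηK x u hu).1 ha hb
  have i2 : ms Φ (Zh R K η) ≤ ENNReal.ofReal (2 * C * (η * K) ^ (1 / 4 : ℝ)) := by
    refine le_trans (hCst l Φ hΦ hcs (Real.log (K / η)) (1 / (2 * (η * K))) (Zh R K η) hY hm2
      (fun x hx => hx.1) ?_) (ENNReal.ofReal_le_ofReal hCn)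
    rintro x ⟨_, u, hu, ha, hb⟩
    exact (h1 η K h0 hηK x u hu).2 hb ha
  rw [Zc_eq]
  refine ⟨hm1.union hm2, ?_⟩
  calc ms Φ (Zh R η K ∪ Zh R K η) ≤ ms Φ (Zh R η K) + ms Φ (Zh R K η) :=
        lintegral_union_le _ _ _
    _ ≤ ENNReal.ofReal (2 * C * (η * K) ^ (1 / 4 : ℝ)) +
        ENNReal.ofReal (2 * C * (η * K) ^ (1 / 4 : ℝ)) := add_le_add i1 i2
    _ = ENNReal.ofReal (4 * C * (η * K) ^ (1 / 4 : ℝ)) := by
        rw [← ENNReal.ofReal_add (by positivity) (by positivity)]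
        congr 1
        ring

end

end Pool.Agent.A54.Hp
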