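import Pool.Agent.Lib.MP_a54f13_nt.Hp.SpecB

/-!
# Package `Hp`: the convolution square of the indicator kernel (`StmtK2`)
-/

set_option autoImplicit false

namespace Pool.Agent.A54.Hp

open MeasureTheory Filter Topology Set
open scoped ContDiff ComplexConjugate UpperHalfPlane MatrixGroups ENNReal
open Pool.Agent.A54.Dyn (G fl base ze io mk4 dom)
open Pool.Agent.A54.Dyn.LiftM (Sct XC XX cc rot m0)
open Pool.Agent.A54.Half (H0)
open Pool.Agent.A54.Sq (la TestP)

noncomputable section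

namespace K2M

/-- the action preserves the measure -/
lemma mp (g : G) : MeasurePreserving (fun z : ℍ => g • z) (volume : Measure ℍ) volume :=
  measurePreserving_smul (g : GL (Fin 2) ℝ) (volume : Measure ℍ)

lemma uh_symm (z w : ℍ) : uh z w = uh w z := by
  unfold uh
  rw [norm_sub_rev, mul_comm z.im]

lemma uh_nonneg (z w : ℍ) : 0 ≤ uh z w :=
  div_nonneg (sq_nonneg _) (mul_nonneg z.im_pos.le w.im_pos.le)

lemma uh_cont : Continuous fun p : ℍ × ℍ => uh p.1 p.2 := by
  unfold uh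
  refine Continuous.div ?_ ?_ fun p => (mul_pos p.1.im_pos p.2.im_pos).ne'
  · exact (((UpperHalfPlane.continuous_coe.comp continuous_fst).sub
      (UpperHalfPlane.continuous_coe.comp continuous_snd)).norm).pow 2
  · exact (UpperHalfPlane.continuous_im.comp continuous_fst).mul
      (UpperHalfPlane.continuous_im.comp continuous_snd)

lemma kk_meas (r : ℝ) : Measurable (kk r) :=
  Measurable.ite (measurableSet_lt measurable_id measurable_const) measurable_const
    measurable_const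

lemma kk_nonneg (r u : ℝ) : 0 ≤ kk r u := by
  unfold kk
  split_ifs
  · positivity
  · exact le_rfl

lemma kk_le (r u : ℝ) : kk r u ≤ (Real.pi * r ^ 2)⁻¹ := by
  unfold kk
  split_ifs
  · exact le_rfl
  · positivity

lemma kk_int {r : ℝ} (hr : 0 < r) :
    ENNReal.ofReal Real.pi * ∫⁻ u in Ioi (0 : ℝ), ENNReal.ofReal (kk r u) = 1 := by
  have h1 : ∀ u : ℝ, ENNReal.ofReal (kk r u) =
      (Iio (r ^ 2)).indicator (fun _ => ENNReal.ofReal (Real.pi * r ^ 2)⁻¹) u := by
    intro u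
    unfold kk
    by_cases h : u < r ^ 2
    · rw [if_pos h, indicator_of_mem (mem_Iio.mpr h)]
    · rw [if_neg h, indicator_of_notMem (by simpa using h), ENNReal.ofReal_zero]
  simp only [h1]
  rw [lintegral_indicator measurableSet_Iio, setLIntegral_const,
    Measure.restrict_apply measurableSet_Iio]
  have h2 : Iio (r ^ 2) ∩ Ioi (0 : ℝ) = Ioo 0 (r ^ 2) := by
    ext u
    simp only [mem_inter_iff, mem_Iio, mem_Ioi, mem_Ioo]
    tauto
  rw [h2, Real.volume_Ioo, sub_zero, ← ENNReal.ofReal_mul (by positivity),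
    ← ENNReal.ofReal_mul Real.pi_pos.le]
  have h3 : Real.pi * ((Real.pi * r ^ 2)⁻¹ * r ^ 2) = 1 := by
    have := Real.pi_pos
    field_simp
  rw [h3, ENNReal.ofReal_one]

/-- total mass one -/
lemma one_r (hAr : StmtAr) {r : ℝ} (hr : 0 < r) (z : ℍ) :
    ∫⁻ w : ℍ, ENNReal.ofReal (kk r (uh z w)) = 1 := by
  rw [hAr (fun u => ENNReal.ofReal (kk r u)) (kk_meas r).ennreal_ofReal z]
  exact kk_int hr

lemma one_l (hAr : StmtAr) {r : ℝ} (hr : 0 < r) (w : ℍ) :
    ∫⁻ z : ℍ, ENNReal.ofReal (kk r (uh z w)) = 1 := by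
  simp only [uh_symm _ w]
  exact one_r hAr hr w

/-- the convolution square -/
def MM (r : ℝ) (w w' : ℍ) : ℝ≥0∞ :=
  ∫⁻ z : ℍ, ENNReal.ofReal (kk r (uh z w) * kk r (uh z w'))

lemma MM_le (hAr : StmtAr) {r : ℝ} (hr : 0 < r) (w w' : ℍ) :
    MM r w w' ≤ ENNReal.ofReal (Real.pi * r ^ 2)⁻¹ := by
  unfold MM
  calc ∫⁻ z : ℍ, ENNReal.ofReal (kk r (uh z w) * kk r (uh z w'))
      ≤ ∫⁻ z : ℍ, ENNReal.ofReal (Real.pi * r ^ 2)⁻¹ * ENNReal.ofReal (kk r (uh z w')) := by
        refine lintegral_mono fun z => ?_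
        rw [← ENNReal.ofReal_mul (by positivity)]
        exact ENNReal.ofReal_le_ofReal (mul_le_mul_of_nonneg_right (kk_le r _) (kk_nonneg r _))
    _ = ENNReal.ofReal (Real.pi * r ^ 2)⁻¹ := by
        rw [lintegral_const_mul' _ _ ENNReal.ofReal_ne_top, one_l hAr hr, mul_one]

lemma uh_meas (w : ℍ) : Measurable fun z : ℍ => uh z w :=
  (uh_cont.comp (continuous_id.prodMk continuous_const)).measurable

/-- invariance -/
lemma MM_inv (hUg : StmtUg) (r : ℝ) (g : G) (w w' : ℍ) :
    MM r (g • w) (g • w') = MM r w w' := by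
  unfold MM
  have hm : Measurable fun z : ℍ => ENNReal.ofReal (kk r (uh z (g • w)) * kk r (uh z (g • w'))) :=
    (((kk_meas r).comp (uh_meas _)).mul ((kk_meas r).comp (uh_meas _))).ennreal_ofReal
  rw [← (mp g).lintegral_comp hm]
  refine lintegral_congr fun z => ?_
  rw [hUg.1, hUg.1]

/-- the number `s ≥ 1` with `s + 1/s - 2 = max x 0` -/
def ss (x : ℝ) : ℝ := 1 + max x 0 / 2 + √(max x 0 + max x 0 ^ 2 / 4)

lemma ss_pos (x : ℝ) : 0 < ss x := by
  unfold ss
  positivity

lemma ss_cont : Continuous ss := by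
  unfold ss
  fun_prop

/-- the point `i s` -/
def PP (x : ℝ) : ℍ := ⟨((ss x : ℝ) : ℂ) * Complex.I, by simpa using ss_pos x⟩

lemma uh_PP (z : ℍ) (x : ℝ) :
    uh z (PP x) = ‖(z : ℂ) - ((ss x : ℝ) : ℂ) * Complex.I‖ ^ 2 / (z.im * ss x) := by
  have h1 : ((PP x : ℍ) : ℂ) = ((ss x : ℝ) : ℂ) * Complex.I := rfl
  have h2 : (PP x).im = ss x := by
    rw [← UpperHalfPlane.coe_im, h1]
    simp
  unfold uh
  rw [h1, h2]

lemma uh_I (x : ℝ) : uh UpperHalfPlane.I (PP x) = max x 0 := by
  rw [uh_PP]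
  have h1 : ((UpperHalfPlane.I : ℍ) : ℂ) - ((ss x : ℝ) : ℂ) * Complex.I =
      ((1 - ss x : ℝ) : ℂ) * Complex.I := by
    rw [UpperHalfPlane.coe_I]
    push_cast
    ring
  have h2 : UpperHalfPlane.I.im = 1 := rfl
  rw [h1, h2, norm_mul, Complex.norm_I, mul_one, Complex.norm_real, Real.norm_eq_abs, sq_abs,
    one_mul, div_eq_iff (ss_pos x).ne']
  unfold ss
  have h3 : 0 ≤ max x 0 := le_max_right _ _
  generalize max x 0 = m at *
  have h4 : √(m + m ^ 2 / 4) ^ 2 = m + m ^ 2 / 4 := Real.sq_sqrt (by positivity)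
  nlinarith

/-- the distance of two points near `z` -/
lemma tri (hUg : StmtUg) {r : ℝ} {z w w' : ℍ} (h : uh z w < r ^ 2) (h' : uh z w' < r ^ 2) :
    uh w w' < r ^ 2 * (r ^ 2 + 4) := by
  have hd := hUg.2.1
  rw [hd] at h h' ⊢
  obtain ⟨D, hD⟩ : ∃ D : ℝ, D = max (dist z w) (dist z w') := ⟨_, rfl⟩
  have hD0 : 0 ≤ D := by
    rw [hD]
    exact le_max_of_le_left dist_nonneg
  have hc : 2 * Real.cosh D - 2 < r ^ 2 := by
    rcases max_choice (dist z w) (dist z w') with h1 | h1
    · rw [hD, h1]; exact h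
    · rw [hD, h1]; exact h'
  have h1 : dist w w' ≤ 2 * D := by
    have a1 := dist_triangle_left w w' z
    have a2 : dist z w ≤ D := by rw [hD]; exact le_max_left _ _
    have a3 : dist z w' ≤ D := by rw [hD]; exact le_max_right _ _
    linarith
  have h2 : Real.cosh (dist w w') ≤ Real.cosh (2 * D) := by
    rw [Real.cosh_le_cosh, abs_of_nonneg dist_nonneg, abs_of_nonneg (by positivity)]
    exact h1
  have h3 : Real.cosh (2 * D) = 2 * Real.cosh D ^ 2 - 1 := by
    rw [Real.cosh_two_mul, Real.cosh_sq]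
    ring
  have h4 := Real.one_le_cosh D
  rw [h3] at h2
  have h5 : 0 ≤ r ^ 2 := sq_nonneg r
  nlinarith

end K2M

open K2M in
/-- **K2** -/
theorem stmtK2 (hUg : StmtUg) (hAr : StmtAr) (hHm : StmtHm) : StmtK2 := by
  refine ⟨3, by norm_num, fun ρ hρ hρ8 => ?_⟩
  obtain ⟨r, hr'⟩ : ∃ r : ℝ, r = √(ρ ^ 2 * (1 + 2 * ρ)) := ⟨_, rfl⟩
  have hr2 : r ^ 2 = ρ ^ 2 * (1 + 2 * ρ) := by
    rw [hr']
    exact Real.sq_sqrt (by positivity)
  have hr : 0 < r := by
    rw [hr']
    exact Real.sqrt_pos.mpr (by positivity)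
  rw [← hr']
  obtain ⟨k, hk⟩ : ∃ k : ℝ → ℝ, k = fun x => (MM r UpperHalfPlane.I (PP x)).toReal := ⟨_, rfl⟩
  have hfin : ∀ w w', MM r w w' ≠ ⊤ := fun w w' =>
    ne_top_of_le_ne_top ENNReal.ofReal_ne_top (MM_le hAr hr w w')
  -- the formula
  have hform : ∀ w w' : ℍ, MM r w w' = ENNReal.ofReal (k (uh w w')) := by
    intro w w'
    have h1 : uh w w' = uh UpperHalfPlane.I (PP (uh w w')) := by
      rw [uh_I, max_eq_left (uh_nonneg _ _)]
    obtain ⟨g, hg1, hg2⟩ := hHm _ _ _ _ h1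
    have h2 := MM_inv hUg r g w w'
    rw [hg1, hg2] at h2
    rw [hk]
    show _ = ENNReal.ofReal (MM r UpperHalfPlane.I (PP (uh w w'))).toReal
    rw [ENNReal.ofReal_toReal (hfin _ _), h2]
  have hmeas : Measurable k := by
    rw [hk]
    refine Measurable.ennreal_toReal ?_
    have hc : Continuous fun p : ℝ × ℍ => uh p.2 (PP p.1) := by
      simp only [uh_PP]
      refine Continuous.div ?_ ?_ fun p => (mul_pos p.2.im_pos (ss_pos _)).ne'
      · exact (((UpperHalfPlane.continuous_coe.comp continuous_snd).sub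
          ((Complex.continuous_ofReal.comp (ss_cont.comp continuous_fst)).mul
            continuous_const)).norm).pow 2
      · exact (UpperHalfPlane.continuous_im.comp continuous_snd).mul
          (ss_cont.comp continuous_fst)
    have hc2 : Measurable fun p : ℝ × ℍ => uh p.2 UpperHalfPlane.I :=
      (uh_meas _).comp measurable_snd
    exact Measurable.lintegral_prod_right'
      (f := fun p : ℝ × ℍ => ENNReal.ofReal (kk r (uh p.2 UpperHalfPlane.I) *
        kk r (uh p.2 (PP p.1))))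
      (((kk_meas r).comp hc2).mul ((kk_meas r).comp hc.measurable)).ennreal_ofReal
  have hnn : ∀ u, 0 ≤ k u := fun u => by
    rw [hk]
    exact ENNReal.toReal_nonneg
  have hle : ∀ u, k u ≤ 3 / (3 * ρ) ^ 2 := by
    intro u
    rw [hk]
    have h1 : (MM r UpperHalfPlane.I (PP u)).toReal ≤ (Real.pi * r ^ 2)⁻¹ :=
      ENNReal.toReal_le_of_le_ofReal (by positivity) (MM_le hAr hr _ _)
    refine h1.trans ?_
    rw [hr2, inv_le_comm₀ (by positivity) (by positivity)]
    have h2 : (3 / (3 * ρ) ^ 2)⁻¹ = 3 * ρ ^ 2 := by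
      field_simp
    rw [h2]
    have h3 := Real.pi_gt_three
    have h4 : 0 < ρ ^ 2 := by positivity
    have h5 : 0 < ρ ^ 2 * ρ := by positivity
    nlinarith [mul_pos Real.pi_pos h5, mul_pos (sub_pos.mpr h3) h4]
  have hsupp : ∀ u, (3 * ρ) ^ 2 ≤ u → k u = 0 := by
    intro u hu
    have hu0 : 0 ≤ u := le_trans (sq_nonneg _) hu
    have h1 : ∀ z : ℍ, kk r (uh z UpperHalfPlane.I) * kk r (uh z (PP u)) = 0 := by
      intro z
      by_cases a1 : uh z UpperHalfPlane.I < r ^ 2
      · by_cases a2 : uh z (PP u) < r ^ 2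
        · exfalso
          have h2 := tri hUg a1 a2
          rw [uh_I, max_eq_left hu0, hr2] at h2
          have h3 : 0 < ρ ^ 2 := by positivity
          have h4 : ρ ^ 2 ≤ 1 / 64 := by nlinarith
          have h5 : ρ ^ 2 * (1 + 2 * ρ) ≤ ρ ^ 2 * (5 / 4) :=
            mul_le_mul_of_nonneg_left (by linarith) h3.le
          have h6 : ρ ^ 2 * (1 + 2 * ρ) + 4 ≤ 5 := by nlinarith
          have h7 : ρ ^ 2 * (1 + 2 * ρ) * (ρ ^ 2 * (1 + 2 * ρ) + 4) ≤
              (ρ ^ 2 * (5 / 4)) * 5 :=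
            mul_le_mul h5 h6 (by positivity) (by positivity)
          nlinarith
        · unfold kk
          rw [if_neg a2, mul_zero]
      · unfold kk
        rw [if_neg a1, zero_mul]
    rw [hk]
    show (MM r UpperHalfPlane.I (PP u)).toReal = 0
    unfold MM
    simp only [h1, ENNReal.ofReal_zero, lintegral_zero, ENNReal.toReal_zero]
  have hone : Real.pi * ∫ u in Ioi (0 : ℝ), k u = 1 := by
    have h1 := hAr (fun u => ENNReal.ofReal (k u)) hmeas.ennreal_ofReal UpperHalfPlane.I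
    have h2 : ∫⁻ w : ℍ, ENNReal.ofReal (k (uh UpperHalfPlane.I w)) = 1 := by
      simp only [← hform]
      unfold MM
      have hm : Measurable fun p : ℍ × ℍ => ENNReal.ofReal
          (kk r (uh p.2 UpperHalfPlane.I) * kk r (uh p.2 p.1)) := by
        refine (Measurable.mul ((kk_meas r).comp ((uh_meas _).comp measurable_snd))
          ((kk_meas r).comp ?_)).ennreal_ofReal
        exact (uh_cont.comp (continuous_snd.prodMk continuous_fst)).measurable
      rw [lintegral_lintegral_swap hm.aemeasurable]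
      have h3 : ∀ z : ℍ, ∫⁻ w : ℍ, ENNReal.ofReal
          (kk r (uh z UpperHalfPlane.I) * kk r (uh z w)) =
          ENNReal.ofReal (kk r (uh z UpperHalfPlane.I)) := by
        intro z
        have h4 : ∀ w : ℍ, ENNReal.ofReal (kk r (uh z UpperHalfPlane.I) * kk r (uh z w)) =
            ENNReal.ofReal (kk r (uh z UpperHalfPlane.I)) * ENNReal.ofReal (kk r (uh z w)) :=
          fun w => ENNReal.ofReal_mul (kk_nonneg r _)
        simp only [h4]
        rw [lintegral_const_mul' _ _ ENNReal.ofReal_ne_top, one_r hAr hr, mul_one]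
      simp only [h3]
      exact one_l hAr hr _
    rw [h2] at h1
    rw [integral_eq_lintegral_of_nonneg_ae (Eventually.of_forall hnn)
      hmeas.aestronglyMeasurable]
    have h5 := congrArg ENNReal.toReal h1
    rw [ENNReal.toReal_one, ENNReal.toReal_mul, ENNReal.toReal_ofReal Real.pi_pos.le] at h5
    exact h5.symm
  exact ⟨k, ⟨by positivity, hmeas, hnn, hle, hsupp, hone⟩, hform⟩

end

end Pool.Agent.A54.Hp
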