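import Pool.Agent.Lib.MP_a54f13_nt.Hp.SpecC
import Pool.Agent.Lib.MP_a54f13_nt.IntLap
import Pool.Agent.Lib.MP_a54f13_nt.Rel
import Pool.Agent.Lib.MP_a54f13_nt.Pl.FB
import Pool.Agent.Lib.MP_a54f13_nt.Pl.G1

/-! # Package `Hp`, `L2S`: the local masses converge in mean square (helper58) -/

set_option autoImplicit false

namespace Pool.Agent.A54.Hp

open MeasureTheory Filter Topology Set
open scoped ContDiff ComplexConjugate UpperHalfPlane MatrixGroups ENNReal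
open Pool.Agent.A54.Dyn (G fl base ze io mk4 dom)
open Pool.Agent.A54.Half (H0)
open Pool.Agent.A54.Sq (la TestP)

noncomputable section

namespace L2SM

lemma wR {φ : ℂ → ℝ} (hφ : TestR H0 φ) : TestR H0 (fun z => φ z * z.im ^ 2) :=
  hφ.mul_right (Half.contDiff_im.pow 2)

lemma wP {φ : ℂ → ℝ} (hφ : TestP H0 φ) : TestP H0 (fun z => φ z * z.im ^ 2) :=
  ⟨wR hφ.test, fun z => mul_nonneg (hφ.nonneg z) (sq_nonneg _)⟩

lemma sqP {ζ : ℂ → ℝ} (hζ : TestR H0 ζ) : TestP H0 (fun z => ζ z ^ 2) := by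
  refine ⟨?_, fun z => sq_nonneg _⟩
  have h := hζ.mul_right hζ.smooth
  have e : (fun z => ζ z ^ 2) = fun z => ζ z * ζ z := funext fun z => sq _
  rw [e]
  exact h

lemma sp_nonneg (f : ℍ → ℝ) (t : ℝ) (N : ℕ) (b : ℤ → ℝ) (z : ℂ) : 0 ≤ Spl f t N b z :=
  Finset.sum_nonneg fun n _ => mul_nonneg (sq_nonneg _) (sq_nonneg _)

lemma sp_smooth (hT : StmtTwG) {f : ℍ → ℝ} {t : ℝ} (hm : IsHeckeMaass f t) (N : ℕ) (b : ℤ → ℝ) :
    ContDiffOn ℝ ∞ (Spl f t N b) H0 := by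
  unfold Spl
  refine ContDiffOn.sum fun n _ => ?_
  exact contDiffOn_const.mul ((hT f t hm n).1.norm_sq ℝ)

lemma cut (hT : StmtTwG) {f : ℍ → ℝ} {t : ℝ} (hm : IsHeckeMaass f t) (N : ℕ) (b : ℤ → ℝ)
    {χ : ℂ → ℝ} (hχ : TestR H0 χ) : ContDiff ℝ ∞ (fun z => χ z * Spl f t N b z) :=
  Half.smooth_mulR Half.isOpen_H0 hχ.smooth hχ.sub (sp_smooth hT hm N b)

lemma sb_cont (hT : StmtTwG) {f : ℍ → ℝ} {t : ℝ} (hm : IsHeckeMaass f t) (N : ℕ) (b : ℤ → ℝ) :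
    Continuous (Sb f t N b) := by
  have h1 : ContinuousOn (Spl f t N b) H0 := (sp_smooth hT hm N b).continuousOn
  exact h1.comp_continuous UpperHalfPlane.continuous_coe fun z => z.im_pos

/-- second moments of `S` from fourth moments of the tower -/
lemma sq_le (hT : StmtTwG) {f : ℍ → ℝ} {t : ℝ} (hm : IsHeckeMaass f t) {N M : ℕ} {b : ℤ → ℝ}
    (hNM : N ≤ M) (hb : ∑ n ∈ Finset.Icc (-(N : ℤ)) N, b n ^ 2 = 1) {ζ : ℂ → ℝ}
    (hζ : TestP H0 ζ) {B : ℝ} (hU : U4 f t (fun z => ζ z * z.im ^ 2) M B) :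
    ∫ z : ℂ, ζ z * Spl f t N b z ^ 2 ≤ B := by
  obtain ⟨χ, V, hχ, h01, hV, hVH, h1, hsub⟩ := Half.setup hζ.test
  have hG : ∀ n, Continuous fun z => ((χ z : ℝ) : ℂ) * Gf f t n z := fun n =>
    (Half.smooth_mulC Half.isOpen_H0 (Complex.ofRealCLM.contDiff.comp hχ.smooth)
      (by
        refine subset_trans ?_ hχ.sub
        refine closure_mono fun z hz h0 => hz ?_
        show ((χ z : ℝ) : ℂ) = 0
        rw [h0]
        rfl) (hT f t hm n).1).continuous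
  have hi : ∀ n, Integrable fun z => ζ z * ‖Gf f t n z‖ ^ 4 := by
    intro n
    refine (Rel.integrable_testR hζ.test ((hG n).norm.pow 4)).congr
      (Eventually.of_forall fun z => ?_)
    show ζ z * ‖((χ z : ℝ) : ℂ) * Gf f t n z‖ ^ 4 = ζ z * ‖Gf f t n z‖ ^ 4
    by_cases hz : z ∈ V
    · rw [h1 z hz, Complex.ofReal_one, one_mul]
    · have : ζ z = 0 := image_eq_zero_of_notMem_tsupport fun h => hz (hsub h)
      rw [this, zero_mul, zero_mul]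
  have h4 : ∀ n ∈ Finset.Icc (-(N : ℤ)) N, ∫ z : ℂ, ζ z * ‖Gf f t n z‖ ^ 4 ≤ B := by
    intro n hn
    rw [Finset.mem_Icc] at hn
    have h2 := hU n (by rw [abs_le]; constructor <;> omega)
    rw [← Pl.G1M.int_weight stmtInt hζ.test fun z => ‖Gf f t n z‖ ^ 4]
    exact h2
  have hpt : ∀ z, ζ z * Spl f t N b z ^ 2 ≤
      ∑ n ∈ Finset.Icc (-(N : ℤ)) N, b n ^ 2 * (ζ z * ‖Gf f t n z‖ ^ 4) := by
    intro z
    have h5 : Spl f t N b z ^ 2 ≤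
        ∑ n ∈ Finset.Icc (-(N : ℤ)) N, b n ^ 2 * ‖Gf f t n z‖ ^ 4 := by
      have h6 := Finset.sum_mul_sq_le_sq_mul_sq (Finset.Icc (-(N : ℤ)) N) (fun n => b n)
        (fun n => b n * ‖Gf f t n z‖ ^ 2)
      rw [hb, one_mul] at h6
      refine le_trans (le_of_eq ?_) (h6.trans (le_of_eq ?_))
      · unfold Spl
        congr 1
        exact Finset.sum_congr rfl fun n _ => by ring
      · exact Finset.sum_congr rfl fun n _ => by ring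
    calc ζ z * Spl f t N b z ^ 2
        ≤ ζ z * ∑ n ∈ Finset.Icc (-(N : ℤ)) N, b n ^ 2 * ‖Gf f t n z‖ ^ 4 :=
          mul_le_mul_of_nonneg_left h5 (hζ.nonneg z)
      _ = _ := by
          rw [Finset.mul_sum]
          exact Finset.sum_congr rfl fun n _ => by ring
  calc ∫ z : ℂ, ζ z * Spl f t N b z ^ 2
      ≤ ∫ z : ℂ, ∑ n ∈ Finset.Icc (-(N : ℤ)) N, b n ^ 2 * (ζ z * ‖Gf f t n z‖ ^ 4) :=
        integral_mono_of_nonneg (Eventually.of_forall fun z =>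
          mul_nonneg (hζ.nonneg z) (sq_nonneg _))
          (integrable_finsetSum _ fun n _ => (hi n).const_mul _) (Eventually.of_forall hpt)
    _ = ∑ n ∈ Finset.Icc (-(N : ℤ)) N, b n ^ 2 * ∫ z : ℂ, ζ z * ‖Gf f t n z‖ ^ 4 := by
        rw [integral_finsetSum _ fun n _ => (hi n).const_mul _]
        exact Finset.sum_congr rfl fun n _ => integral_const_mul _ _
    _ ≤ ∑ n ∈ Finset.Icc (-(N : ℤ)) N, b n ^ 2 * B :=
        Finset.sum_le_sum fun n hn => mul_le_mul_of_nonneg_left (h4 n hn) (sq_nonneg _)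
    _ = B := by rw [← Finset.sum_mul, hb, one_mul]

lemma lim_rpow {t : ℕ → ℝ} (ht : Tendsto t atTop atTop) (C : ℝ) {a : ℝ} (ha : 0 < a) :
    Tendsto (fun i => C * t i ^ (-a)) atTop (𝓝 0) := by
  have h := ((tendsto_rpow_neg_atTop ha).comp ht).const_mul C
  rw [mul_zero] at h
  exact h

/-- the masses on the half-plane -/
lemma massH (hM : StmtMsW) {c C₀ : ℝ} {K : ℕ} {v : ℝ → ℝ} (hc : 0 < c) {l : ℕ → ℕ → ℝ}
    {f : ℕ → ℍ → ℝ} {t : ℕ → ℝ} {N : ℕ → ℕ} {b : ℕ → ℤ → ℝ}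
    (hD : ∀ i, Dt c v C₀ K (l i) (f i) (t i) (N i) (b i)) (ht : Tendsto t atTop atTop)
    (hf : ∀ φ : ℂ → ℝ, TestR H0 φ → Tendsto (fun i => ∫ z : ℍ, φ z * f i z ^ 2) atTop
      (𝓝 (∫ z : ℍ, φ z))) {φ : ℂ → ℝ} (hφ : TestR H0 φ) :
    Tendsto (fun i => ∫ z : ℍ, φ z * Sb (f i) (t i) (N i) (b i) z) atTop (𝓝 (∫ z : ℍ, φ z)) := by
  obtain ⟨C, hC, h⟩ := hM φ hφ
  have h1 : Tendsto (fun i => (∫ z : ℍ, φ z * Sb (f i) (t i) (N i) (b i) z) -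
      ∫ z : ℍ, φ z * f i z ^ 2) atTop (𝓝 0) := by
    refine squeeze_zero_norm' (Eventually.of_forall fun i => ?_)
      (lim_rpow ht (2 * C) (a := 1 / 2) (by norm_num))
    rw [Real.norm_eq_abs]
    refine (h (f i) (t i) (hD i).hm (hD i).one_le (N i) (fun n => b i n ^ 2)
      (fun n => sq_nonneg _) (hD i).pack.norm).trans ?_
    have ht1 := (hD i).one_le
    have ht0 : 0 < t i := by linarith
    have h3 : (N i : ℝ) ≤ 2 * t i ^ (1 / 2 : ℝ) := (hD i).pack.hi.trans (by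
      apply mul_le_mul_of_nonneg_left _ (by norm_num)
      exact Real.rpow_le_rpow_of_exponent_le ht1 (by linarith))
    have h4 : t i ^ (1 / 2 : ℝ) / t i = t i ^ (-(1 / 2 : ℝ)) := by
      rw [div_eq_iff ht0.ne', ← Real.rpow_add_one ht0.ne']
      norm_num
    calc C * N i / t i ≤ C * (2 * t i ^ (1 / 2 : ℝ)) / t i := by gcongr
      _ = 2 * C * (t i ^ (1 / 2 : ℝ) / t i) := by ring
      _ = _ := by rw [h4]
  have h5 := h1.add (hf φ hφ)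
  simpa using h5

lemma massP (hM : StmtMsW) {c C₀ : ℝ} {K : ℕ} {v : ℝ → ℝ} (hc : 0 < c) {l : ℕ → ℕ → ℝ}
    {f : ℕ → ℍ → ℝ} {t : ℕ → ℝ} {N : ℕ → ℕ} {b : ℕ → ℤ → ℝ}
    (hD : ∀ i, Dt c v C₀ K (l i) (f i) (t i) (N i) (b i)) (ht : Tendsto t atTop atTop)
    (hf : ∀ φ : ℂ → ℝ, TestR H0 φ → Tendsto (fun i => ∫ z : ℍ, φ z * f i z ^ 2) atTop
      (𝓝 (∫ z : ℍ, φ z))) {φ : ℂ → ℝ} (hφ : TestR H0 φ) :
    Tendsto (fun i => ∫ z : ℂ, φ z * Spl (f i) (t i) (N i) (b i) z) atTop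
      (𝓝 (∫ z : ℂ, φ z)) := by
  have h := massH hM hc hD ht hf (wR hφ)
  have e1 := Pl.G1M.int_weight stmtInt hφ
  have e2 := e1 (fun _ => 1)
  simp only [mul_one] at e2
  rw [← e2]
  refine h.congr fun i => ?_
  exact e1 (Spl (f i) (t i) (N i) (b i))

/-- equality of means -/
lemma edc {φ : ℂ → ℝ} {V : Set ℂ} (hφ : TestR H0 φ) (hV : IsOpen V) (hsub : tsupport φ ⊆ V) :
    ∃ ρ₀ : ℝ, 0 < ρ₀ ∧ ∀ ρ : ℝ, 0 < ρ → ρ ≤ ρ₀ → ∀ W W' : ℂ → ℝ, (∀ w ∈ V, W w = W' w) →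
      ∀ z ∈ tsupport φ, Pl.Ed ρ W z = Pl.Ed ρ W' z := by
  obtain ⟨ρ₀, h0, h⟩ := Pl.FBM.discs hφ.cpt.isCompact hV hsub
  exact ⟨ρ₀, h0, fun ρ hρ hρ' W W' hW z hz => Pl.Ed_congr fun u hu => hW _ (h ρ hρ hρ' z hz u hu)⟩

lemma int_tsupp {φ A B : ℂ → ℝ} (h : ∀ z ∈ tsupport φ, A z = B z) :
    ∫ z, φ z * A z = ∫ z, φ z * B z := by
  congr 1
  funext z
  by_cases hz : z ∈ tsupport φ
  · rw [h z hz]
  · rw [image_eq_zero_of_notMem_tsupport hz, zero_mul, zero_mul]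

/-- the first moment of the means -/
lemma ed1 (hE3 : Pl.StmtE3) {F : ℕ → ℂ → ℝ} (hF : ∀ i, ContDiffOn ℝ ∞ (F i) H0) {ρ : ℕ → ℝ}
    (hρ0 : ∀ i, 0 < ρ i) (hρ : Tendsto ρ atTop (𝓝 0)) {φ : ℂ → ℝ} (hφ : TestR H0 φ)
    (hm : Tendsto (fun i => ∫ z, φ z * F i z) atTop (𝓝 (∫ z, φ z)))
    (hB : ∀ ζ : ℂ → ℝ, TestP H0 ζ →
      Tendsto (fun i => ρ i * √(∫ z, ζ z * F i z ^ 2)) atTop (𝓝 0)) :
    Tendsto (fun i => ∫ z, φ z * Pl.Ed (ρ i) (F i) z) atTop (𝓝 (∫ z, φ z)) := by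
  obtain ⟨χ, V, hχ, h01, hV, hVH, h1, hsub⟩ := Half.setup hφ
  have hφV : TestR V φ := ⟨hφ.smooth, hφ.cpt, hsub⟩
  obtain ⟨ζ, C, r0, hζ, hC, hr0, hE⟩ := hE3 V hV hVH φ hφV
  obtain ⟨ρ₀, hρ₀, hcg⟩ := edc hφ hV hsub
  have hζH : TestR H0 ζ := ⟨hζ.smooth, hζ.cpt, hζ.sub.trans hVH⟩
  set D : ℝ := √(∫ z, ζ z ^ 2 * ‖fderiv ℝ (fun _ : ℂ => (1:ℝ)) z‖ ^ 2) +
    √(∫ z, ζ z ^ 2 * (1:ℝ) ^ 2) with hD
  have hF2 : ∀ i, ContDiff ℝ ∞ (fun z => χ z * F i z) := fun i =>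
    Half.smooth_mulR Half.isOpen_H0 hχ.smooth hχ.sub (hF i)
  have t1 : Tendsto (fun i => (∫ z, φ z * Pl.Ed (ρ i) (F i) z) - ∫ z, φ z * F i z) atTop
      (𝓝 0) := by
    have h5 : Tendsto (fun i => C * D * (ρ i * √(∫ z, ζ z ^ 2 * F i z ^ 2))) atTop (𝓝 0) := by
      have := (hB _ (sqP hζH)).const_mul (C * D)
      rw [mul_zero] at this
      exact this
    refine squeeze_zero_norm' ?_ h5
    filter_upwards [hρ.eventually (ge_mem_nhds hr0), hρ.eventually (ge_mem_nhds hρ₀)] with i h2 h3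
    rw [Real.norm_eq_abs]
    have hEi := hE (ρ i) (hρ0 i) h2 (fun z => χ z * F i z) (fun _ => 1) (hF2 i) contDiff_const
    simp only [one_mul] at hEi
    have e1 : ∫ z, φ z * Pl.Ed (ρ i) (fun z => χ z * F i z) z =
        ∫ z, φ z * Pl.Ed (ρ i) (F i) z :=
      int_tsupp (hcg (ρ i) (hρ0 i) h3 _ _ fun w hw => by rw [h1 w hw, one_mul])
    have e2 : ∫ z, φ z * (χ z * F i z) = ∫ z, φ z * F i z :=
      int_tsupp fun z hz => by rw [h1 z (hsub hz), one_mul]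
    have e3 : ∫ z, ζ z ^ 2 * (χ z * F i z) ^ 2 = ∫ z, ζ z ^ 2 * F i z ^ 2 := by
      congr 1
      funext z
      by_cases hz : z ∈ tsupport ζ
      · rw [h1 z (hζ.sub hz), one_mul]
      · rw [image_eq_zero_of_notMem_tsupport hz]
        ring
    rw [e1, e2, e3] at hEi
    refine hEi.trans (le_of_eq ?_)
    rw [hD]
    ring
  have h6 := t1.add hm
  simpa using h6

lemma rh_pos {c t : ℝ} (ht : 1 ≤ t) : 0 < rh c t := Real.rpow_pos_of_pos (by linarith) _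

lemma rh_lim {c : ℝ} (hc : 0 < c) {t : ℕ → ℝ} (ht : Tendsto t atTop atTop) :
    Tendsto (fun i => rh c (t i)) atTop (𝓝 0) := by
  have h := lim_rpow ht 1 (a := 1 / 2 + c / 1600) (by positivity)
  simp only [one_mul] at h
  exact h

/-- the conclusion of `St1` -/
def C1 (c : ℝ) (v : ℝ → ℝ) (C₀ : ℝ) (K : ℕ) : Prop := ∀ φ : ℂ → ℝ, TestP H0 φ → ∀ C₁ : ℝ, 0 ≤ C₁ →
    ∃ (ζ : ℂ → ℝ) (C t₀ : ℝ), TestP H0 ζ ∧ (∀ z, φ z ≤ ζ z) ∧ 0 ≤ C ∧ 1 ≤ t₀ ∧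
      ∀ (l : ℕ → ℝ) (f : ℍ → ℝ) (t : ℝ) (N : ℕ) (b : ℤ → ℝ), Dt c v C₀ K l f t N b → t₀ ≤ t →
        ∀ B : ℝ, 0 ≤ B → U4 f t ζ (N + K) B → ∀ k : ℝ → ℝ, Ker C₁ (3 * rh c t) k →
          V2 φ k (Sb f t N b) (Sb f t N b) ≤
            V2 φ (sk (t ^ (-(1 / 20 : ℝ)))) (Sb f t N b) (Sb f t N b) +
              ENNReal.ofReal (C * t ^ (-(c / 400)) * (1 + B))

/-- the first conclusion of `Xb` -/
def CX (c : ℝ) (v : ℝ → ℝ) (C₀ : ℝ) (K : ℕ) : Prop := ∀ φ : ℂ → ℝ, TestP H0 φ →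
    ∀ η : ℝ, 0 < η → ∃ C t₀ : ℝ, 0 ≤ C ∧ 1 ≤ t₀ ∧
      ∀ (l : ℕ → ℝ) (f : ℍ → ℝ) (t : ℝ) (N : ℕ) (b : ℤ → ℝ), Dt c v C₀ K l f t N b → t₀ ≤ t →
        U4 f t φ (N + K) (C * t ^ η)

lemma step1 {c C₀ : ℝ} {K : ℕ} {v : ℝ → ℝ} (hc : 0 < c) (h1 : C1 c v C₀ K) (hX : CX c v C₀ K)
    {l : ℕ → ℕ → ℝ} {f : ℕ → ℍ → ℝ} {t : ℕ → ℝ} {N : ℕ → ℕ} {b : ℕ → ℤ → ℝ}
    (hD : ∀ i, Dt c v C₀ K (l i) (f i) (t i) (N i) (b i)) (ht : Tendsto t atTop atTop)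
    {P : ℝ} (hP : 0 ≤ P) {kf : ℝ → ℝ → ℝ}
    (hk : ∀ ρ : ℝ, 0 < ρ → ρ ≤ 1 / 8 → Ker P (3 * ρ) (kf ρ)) {ψ : ℂ → ℝ} (hψ : TestP H0 ψ)
    {δ : ℝ} (hδ : 0 < δ) : ∀ᶠ i in atTop,
      V2 ψ (kf (rh c (t i))) (Sb (f i) (t i) (N i) (b i)) (Sb (f i) (t i) (N i) (b i)) ≤
        V2 ψ (sk (t i ^ (-(1 / 20 : ℝ)))) (Sb (f i) (t i) (N i) (b i))
          (Sb (f i) (t i) (N i) (b i)) + ENNReal.ofReal δ := by
  obtain ⟨ζ, C, t₀, hζ, -, hC, -, h⟩ := h1 ψ hψ P hP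
  obtain ⟨C', t₁, hC', -, h'⟩ := hX ζ hζ (c / 1600) (by positivity)
  have hl := lim_rpow ht (C * (1 + C')) (a := c / 400 - c / 1600) (by linarith)
  filter_upwards [ht.eventually (eventually_ge_atTop t₀), ht.eventually (eventually_ge_atTop t₁),
    hl.eventually (ge_mem_nhds hδ), (rh_lim hc ht).eventually (ge_mem_nhds (by norm_num :
      (0 : ℝ) < 1 / 8))] with i i1 i2 i3 i4
  have ht1 := (hD i).one_le
  have ht0 : 0 < t i := by linarith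
  refine (h (l i) (f i) (t i) (N i) (b i) (hD i) i1 (C' * t i ^ (c / 1600)) (by positivity)
    (h' _ _ _ _ _ (hD i) i2) _ (hk _ (rh_pos ht1) i4)).trans ?_
  gcongr
  refine le_trans ?_ i3
  have e1 : t i ^ (-(c / 400 - c / 1600)) = t i ^ (-(c / 400)) * t i ^ (c / 1600) := by
    rw [← Real.rpow_add ht0]
    congr 1
    ring
  rw [e1]
  have e2 : 1 ≤ t i ^ (c / 1600) := Real.one_le_rpow ht1 (by positivity)
  have e3 : 0 < t i ^ (-(c / 400)) := Real.rpow_pos_of_pos ht0 _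
  calc C * t i ^ (-(c / 400)) * (1 + C' * t i ^ (c / 1600))
      ≤ C * t i ^ (-(c / 400)) * (t i ^ (c / 1600) + C' * t i ^ (c / 1600)) := by gcongr
    _ = _ := by ring

lemma smallθ {C c δ a : ℝ} (hc : 0 < c) (hδ : 0 < δ) (ha : 0 < a) :
    ∃ θ : ℝ, 0 < θ ∧ θ ≤ a ∧ θ ≤ 1 ∧ C * (θ + θ ^ c) ≤ δ := by
  have h1 : Tendsto (fun θ : ℝ => C * (θ + θ ^ c)) (𝓝[>] 0) (𝓝 0) := by
    have h2 : ContinuousAt (fun θ : ℝ => C * (θ + θ ^ c)) 0 :=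
      continuousAt_const.mul (continuousAt_id.add
        (Real.continuousAt_rpow_const 0 c (Or.inr hc.le)))
    have h3 := h2.tendsto
    simp only [zero_add, Real.zero_rpow hc.ne', mul_zero] at h3
    exact h3.mono_left nhdsWithin_le_nhds
  have h4 : ∀ᶠ θ : ℝ in 𝓝[>] 0, θ ≤ a := by
    filter_upwards [Ioo_mem_nhdsGT ha] with θ h
    exact h.2.le
  have h5 : ∀ᶠ θ : ℝ in 𝓝[>] 0, θ ≤ 1 := by
    filter_upwards [Ioo_mem_nhdsGT (zero_lt_one' ℝ)] with θ h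
    exact h.2.le
  obtain ⟨θ, k1, k2, k3, k4⟩ := (((h1.eventually (ge_mem_nhds hδ)).and
    (h4.and (h5.and self_mem_nhdsWithin))).exists)
  exact ⟨θ, k4, k2, k3, k1⟩

/-- upper bounds for the second moments -/
lemma upper (hT : StmtTwG) (hPv : StmtPv) (hS2 : StmtSt2) (hV : StmtVfx) {c C₀ : ℝ} (hc : 0 < c)
    (hc1 : c ≤ 1) (hC₀ : 0 ≤ C₀) {K : ℕ} {v : ℝ → ℝ} (hv : ∀ R, 0 < v R) (h1 : C1 c v C₀ K)
    (hX : CX c v C₀ K) {l : ℕ → ℕ → ℝ} {f : ℕ → ℍ → ℝ} {t : ℕ → ℝ} {N : ℕ → ℕ} {b : ℕ → ℤ → ℝ}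
    (hD : ∀ i, Dt c v C₀ K (l i) (f i) (t i) (N i) (b i)) (ht : Tendsto t atTop atTop)
    (hm : ∀ φ : ℂ → ℝ, TestR H0 φ → Tendsto (fun i =>
      ∫ z : ℍ, φ z * Sb (f i) (t i) (N i) (b i) z) atTop (𝓝 (∫ z : ℍ, φ z)))
    {φ : ℂ → ℝ} (hφ : TestP H0 φ) {δ : ℝ} (hδ : 0 < δ) :
    ∀ᶠ i in atTop, ∫ z : ℂ, φ z * (Pl.Ed (rh c (t i)) (Spl (f i) (t i) (N i) (b i)) z) ^ 2 ≤
      (∫ z : ℂ, φ z) + δ := by
  obtain ⟨P, kf, hP, hk, hPv⟩ := hPv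
  obtain ⟨ζ, C2, hζ, hC2, hPv⟩ := hPv φ hφ
  have hφ2 := wP hφ
  have hδ4 : 0 < δ / 4 := by linarith
  obtain ⟨C3, θ₁, hC3, hθ₁, hθ₁1, h3⟩ := hS2 c C₀ hc hc1 hC₀ K v hv _ hφ2
  obtain ⟨C4, θ₂, hC4, hθ₂, hθ₂1, h4⟩ := hS2 c C₀ hc hc1 hC₀ K v hv _ hζ
  obtain ⟨t4, -, h4⟩ := h4 θ₂ θ₂ hθ₂ le_rfl le_rfl
  obtain ⟨e₀, he₀, hVf⟩ := hV (fun i => Sb (f i) (t i) (N i) (b i))
    (fun i => sb_cont hT (hD i).hm _ _) (fun i z => sp_nonneg _ _ _ _ _) hm _ hφ2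
  obtain ⟨θ, hθ, hθm, hθ1, hθδ⟩ := smallθ (C := C3) hc hδ4 (lt_min hθ₁ he₀)
  have hθθ₁ : θ ≤ θ₁ := hθm.trans (min_le_left _ _)
  have hθe : θ ≤ e₀ := hθm.trans (min_le_right _ _)
  have hε : 0 < θ ^ 3 := by positivity
  have hεθ : θ ^ 3 ≤ θ := by
    calc θ ^ 3 = θ * (θ * θ) := by ring
      _ ≤ θ * (1 * 1) := by gcongr
      _ = θ := by ring
  obtain ⟨t3, -, h3⟩ := h3 θ (θ ^ 3) hε hεθ hθθ₁
  have hq : θ ^ 3 / θ ^ 2 = θ := by
    rw [div_eq_iff (by positivity)]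
    ring
  rw [hq] at h3
  set P0 : ℝ := ∫ z : ℂ, φ z with hP0
  have hP00 : 0 ≤ P0 := integral_nonneg hφ.nonneg
  have hPe : ∫ z : ℍ, (fun z : ℂ => φ z * z.im ^ 2) (z : ℂ) = P0 := by
    have e2 := Pl.G1M.int_weight stmtInt hφ.test (fun _ => 1)
    simp only [mul_one] at e2
    exact e2
  have hV3 := hVf (θ ^ 3) hε (hεθ.trans hθe)
  rw [hPe] at hV3
  have hV4 := hV3.eventually (gt_mem_nhds ((ENNReal.ofReal_lt_ofReal_iff (by linarith)).mpr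
    (by linarith : P0 < P0 + δ / 4)))
  set M : ℝ := C4 / θ₂ ^ 2 + C4 * (θ₂ / θ₂ ^ 2 + θ₂ ^ c) + 1 with hM
  have hM0 : 0 ≤ M := by positivity
  have hρM : Tendsto (fun i => C2 * M * rh c (t i)) atTop (𝓝 0) := by
    have := (rh_lim hc ht).const_mul (C2 * M)
    rw [mul_zero] at this
    exact this
  filter_upwards [step1 hc h1 hX hD ht hP hk hφ2 hδ4, step1 hc h1 hX hD ht hP hk hζ one_pos,
    ht.eventually (eventually_ge_atTop t3), ht.eventually (eventually_ge_atTop t4), hV4,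
    hρM.eventually (ge_mem_nhds hδ4), (rh_lim hc ht).eventually (ge_mem_nhds (by norm_num :
      (0 : ℝ) < 1 / 8))] with i s1 s2 s3 s4 s5 s6 s7
  have ht1 := (hD i).one_le
  have hρ := rh_pos (c := c) ht1
  obtain ⟨g1, -⟩ := h3 _ _ _ _ _ (hD i) s3
  obtain ⟨g2, g3⟩ := h4 _ _ _ _ _ (hD i) s4
  have hPi := hPv _ hρ s7 (Spl (f i) (t i) (N i) (b i))
    (sp_smooth hT (hD i).hm _ _).continuousOn (sp_nonneg _ _ _ _)
  have u1 : V2 (fun z => φ z * z.im ^ 2) (kf (rh c (t i))) (Sb (f i) (t i) (N i) (b i))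
      (Sb (f i) (t i) (N i) (b i)) ≤ ENNReal.ofReal (P0 + δ / 4 + δ / 4 + δ / 4) := by
    rw [ENNReal.ofReal_add (by positivity) hδ4.le, ENNReal.ofReal_add (by positivity) hδ4.le]
    refine s1.trans ?_
    gcongr
    refine g1.trans ?_
    gcongr
  have u2 : V2 ζ (kf (rh c (t i))) (Sb (f i) (t i) (N i) (b i))
      (Sb (f i) (t i) (N i) (b i)) ≤ ENNReal.ofReal M := by
    rw [hM, ENNReal.ofReal_add (by positivity) one_pos.le,
      ENNReal.ofReal_add (by positivity) (by positivity)]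
    refine s2.trans ?_
    gcongr
    refine g2.trans ?_
    gcongr
  have u3 : ENNReal.ofReal (C2 * rh c (t i)) * V2 ζ (kf (rh c (t i)))
      (Sb (f i) (t i) (N i) (b i)) (Sb (f i) (t i) (N i) (b i)) ≤ ENNReal.ofReal (δ / 4) := by
    calc _ ≤ ENNReal.ofReal (C2 * rh c (t i)) * ENNReal.ofReal M := by gcongr
      _ = ENNReal.ofReal (C2 * rh c (t i) * M) := (ENNReal.ofReal_mul (by positivity)).symm
      _ ≤ ENNReal.ofReal (δ / 4) := by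
          apply ENNReal.ofReal_le_ofReal
          refine le_trans (le_of_eq ?_) s6
          ring
  have u4 := hPi.trans (add_le_add u1 u3)
  rw [← ENNReal.ofReal_add (by positivity) hδ4.le, ENNReal.ofReal_le_ofReal_iff (by positivity)]
    at u4
  linarith

/-- the expansion of the square -/
lemma expand {φ A B : ℂ → ℝ} (hφ : TestP H0 φ) (hA : Continuous A) (hB : Continuous B) :
    ∫ z, φ z * (A z - 1) ^ 2 ≤ 2 * (∫ z, φ z * (A z - B z) ^ 2) +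
      2 * ((∫ z, φ z * B z ^ 2) - 2 * (∫ z, φ z * B z) + ∫ z, φ z) := by
  have i1 : Integrable fun z => φ z * (A z - 1) ^ 2 :=
    Rel.integrable_testR hφ.test ((hA.sub continuous_const).pow 2)
  have i2 : Integrable fun z => φ z * (A z - B z) ^ 2 :=
    Rel.integrable_testR hφ.test ((hA.sub hB).pow 2)
  have i3 : Integrable fun z => φ z * B z ^ 2 := Rel.integrable_testR hφ.test (hB.pow 2)
  have i4 : Integrable fun z => φ z * B z := Rel.integrable_testR hφ.test hB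
  have i5 : Integrable φ := hφ.test.integrable
  have i7 : Integrable fun z => φ z * B z ^ 2 - 2 * (φ z * B z) := i3.sub (i4.const_mul 2)
  have i6 : Integrable fun z => φ z * B z ^ 2 - 2 * (φ z * B z) + φ z := i7.add i5
  have e1 : 2 * (∫ z, φ z * (A z - B z) ^ 2) +
      2 * ((∫ z, φ z * B z ^ 2) - 2 * (∫ z, φ z * B z) + ∫ z, φ z) =
      ∫ z, (2 * (φ z * (A z - B z) ^ 2) + 2 * (φ z * B z ^ 2 - 2 * (φ z * B z) + φ z)) := by
    rw [integral_add (i2.const_mul 2) (i6.const_mul 2), integral_const_mul, integral_const_mul,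
      integral_add i7 i5, integral_sub i3 (i4.const_mul 2), integral_const_mul]
  rw [e1]
  refine integral_mono i1 ((i2.const_mul 2).add (i6.const_mul 2)) fun z => ?_
  show φ z * (A z - 1) ^ 2 ≤
    2 * (φ z * (A z - B z) ^ 2) + 2 * (φ z * B z ^ 2 - 2 * (φ z * B z) + φ z)
  have h := hφ.nonneg z
  nlinarith [mul_nonneg h (sq_nonneg (A z - B z - (B z - 1)))]

end L2SM

open L2SM in
theorem stmtL2S (hT : StmtTwG) (_hL : StmtLh) (hE3 : Pl.StmtE3) (hPv : StmtPv) (hS1 : StmtSt1)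
    (hS2 : StmtSt2) (hDif : StmtDif) (hXb : StmtXb) (hM : StmtMsW) (hV : StmtVfx) : StmtL2S := by
  intro c hc hc1
  obtain ⟨K1, h1⟩ := hS1 c hc hc1
  obtain ⟨K2, h2⟩ := hXb c hc hc1
  refine ⟨max K1 (max K2 1), fun K hK C₀ hC₀ v hv l f t N b hD ht hf φ hφ => ?_⟩
  have hK1 : K1 ≤ K := (le_max_left _ _).trans hK
  have hK2 : K2 ≤ K := ((le_max_left _ _).trans (le_max_right _ _)).trans hK
  have hK3 : 1 ≤ K := ((le_max_right _ _).trans (le_max_right _ _)).trans hK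
  have c1 : L2SM.C1 c v C₀ K := h1 K hK1 C₀ hC₀ v hv
  have cX : L2SM.CX c v C₀ K := fun ψ hψ => (h2 K hK2 C₀ hC₀ v hv ψ hψ).1
  have hmH : ∀ ψ : ℂ → ℝ, TestR H0 ψ → Tendsto (fun i =>
      ∫ z : ℍ, ψ z * Sb (f i) (t i) (N i) (b i) z) atTop (𝓝 (∫ z : ℍ, ψ z)) :=
    fun ψ hψ => massH hM hc hD ht hf hψ
  have hρ0 : ∀ i, 0 < rh c (t i) := fun i => rh_pos (hD i).one_le
  have hρ := rh_lim hc ht
  -- first moments
  have hB : ∀ ζ : ℂ → ℝ, TestP H0 ζ → Tendsto (fun i => rh c (t i) *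
      √(∫ z, ζ z * Spl (f i) (t i) (N i) (b i) z ^ 2)) atTop (𝓝 0) := by
    intro ζ hζ
    obtain ⟨C', t₁, hC', -, h'⟩ := cX _ (wP hζ) (c / 1600) (by positivity)
    have hl := lim_rpow ht (√C') (a := 1 / 2) (by norm_num)
    refine squeeze_zero' (Eventually.of_forall fun i => mul_nonneg (hρ0 i).le (Real.sqrt_nonneg _))
      ?_ hl
    filter_upwards [ht.eventually (eventually_ge_atTop t₁)] with i i1
    have ht1 := (hD i).one_le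
    have ht0 : 0 < t i := by linarith
    have k1 := sq_le hT (hD i).hm (Nat.le_add_right (N i) K) (hD i).pack.norm hζ
      (h' _ _ _ _ _ (hD i) i1)
    have k2 : 1 ≤ t i ^ (c / 1600) := Real.one_le_rpow ht1 (by positivity)
    have k3 : √(∫ z, ζ z * Spl (f i) (t i) (N i) (b i) z ^ 2) ≤ √C' * t i ^ (c / 1600) := by
      refine (Real.sqrt_le_sqrt k1).trans ?_
      rw [Real.sqrt_mul hC']
      apply mul_le_mul_of_nonneg_left _ (Real.sqrt_nonneg _)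
      rw [Real.sqrt_le_left (by linarith)]
      nlinarith
    calc rh c (t i) * √(∫ z, ζ z * Spl (f i) (t i) (N i) (b i) z ^ 2)
        ≤ rh c (t i) * (√C' * t i ^ (c / 1600)) := by
          have := (hρ0 i).le
          gcongr
      _ = √C' * (t i ^ (-(1 / 2 + c / 1600)) * t i ^ (c / 1600)) := by
          unfold rh
          ring
      _ = √C' * t i ^ (-(1 / 2 : ℝ)) := by
          rw [← Real.rpow_add ht0]
          congr 2
          ring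
  have m1 := ed1 hE3 (fun i => sp_smooth hT (hD i).hm (N i) (b i)) hρ0 hρ hφ.test
    (massP hM hc hD ht hf hφ.test) hB
  -- the difference
  obtain ⟨ζ, C, t₀, hζ, hC, -, hd⟩ := hDif c C₀ hc hc1 hC₀ K hK3 φ hφ
  obtain ⟨C', t₁, hC', -, h'⟩ := cX _ hζ (c / 1600) (by positivity)
  have hl := lim_rpow ht (C * C') (a := c / 800 - c / 1600) (by linarith)
  -- cut offs
  obtain ⟨χ, V, hχ, h01, hVo, hVH, hχ1, hsub⟩ := Half.setup hφ.test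
  obtain ⟨ρ₀, hρ₀, hcg⟩ := edc hφ.test hVo hsub
  rw [Metric.tendsto_nhds]
  intro ε hε
  filter_upwards [ht.eventually (eventually_ge_atTop t₀), ht.eventually (eventually_ge_atTop t₁),
    hρ.eventually (ge_mem_nhds hρ₀), hl.eventually (ge_mem_nhds (by linarith : (0 : ℝ) < ε / 8)),
    upper hT hPv hS2 hV hc hc1 hC₀ hv c1 cX hD ht hmH hφ (by linarith : 0 < ε / 8),
    m1.eventually (lt_mem_nhds (by linarith : (∫ z, φ z) - ε / 16 < ∫ z, φ z))]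
    with i i1 i2 i3 i4 i5 i6
  have ht1 := (hD i).one_le
  have ht0 : 0 < t i := by linarith
  have hd1 := hd v (l i) (f i) (t i) (N i) (b i) (hD i) i1 (C' * t i ^ (c / 1600)) (by positivity)
    (h' _ _ _ _ _ (hD i) i2)
  have e1 : C * t i ^ (-(c / 800)) * (C' * t i ^ (c / 1600)) =
      C * C' * t i ^ (-(c / 800 - c / 1600)) := by
    have : t i ^ (-(c / 800 - c / 1600)) = t i ^ (-(c / 800)) * t i ^ (c / 1600) := by
      rw [← Real.rpow_add ht0]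
      congr 1
      ring
    rw [this]
    ring
  rw [e1] at hd1
  set A : ℂ → ℝ := Pl.Ed (rh c (t i)) (fun w => Half.ff χ (f i) w ^ 2) with hAd
  set B : ℂ → ℝ := Pl.Ed (rh c (t i)) (fun w => χ w * Spl (f i) (t i) (N i) (b i) w) with hBd
  have hA : Continuous A :=
    Pl.continuous_Ed ((Half.ff_smooth hχ (hD i).hm.smooth).continuous.pow 2) _
  have hBc : Continuous B := Pl.continuous_Ed (cut hT (hD i).hm (N i) (b i) hχ).continuous _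
  have eA : ∀ z ∈ tsupport φ, Pl.Ed (rh c (t i)) (fun w => ext (f i) w ^ 2) z = A z :=
    hcg _ (hρ0 i) i3 _ _ fun w hw => by
      show ext (f i) w ^ 2 = (χ w * ext (f i) w) ^ 2
      rw [hχ1 w hw, one_mul]
  have eB : ∀ z ∈ tsupport φ, Pl.Ed (rh c (t i)) (Spl (f i) (t i) (N i) (b i)) z = B z :=
    hcg _ (hρ0 i) i3 _ _ fun w hw => by rw [hχ1 w hw, one_mul]
  have f1 : ∫ z, φ z * (Pl.Ed (rh c (t i)) (fun w => ext (f i) w ^ 2) z - 1) ^ 2 =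
      ∫ z, φ z * (A z - 1) ^ 2 := int_tsupp fun z hz => by rw [eA z hz]
  have f2 : ∫ z, φ z * (Pl.Ed (rh c (t i)) (fun w => ext (f i) w ^ 2) z -
      Pl.Ed (rh c (t i)) (Spl (f i) (t i) (N i) (b i)) z) ^ 2 = ∫ z, φ z * (A z - B z) ^ 2 :=
    int_tsupp fun z hz => by rw [eA z hz, eB z hz]
  have f3 : ∫ z, φ z * (Pl.Ed (rh c (t i)) (Spl (f i) (t i) (N i) (b i)) z) ^ 2 =
      ∫ z, φ z * B z ^ 2 := int_tsupp fun z hz => by rw [eB z hz]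
  have f4 : ∫ z, φ z * Pl.Ed (rh c (t i)) (Spl (f i) (t i) (N i) (b i)) z =
      ∫ z, φ z * B z := int_tsupp eB
  rw [f2] at hd1
  rw [f3] at i5
  rw [f4] at i6
  rw [f1, Real.dist_eq, sub_zero, abs_of_nonneg
    (integral_nonneg fun z => mul_nonneg (hφ.nonneg z) (sq_nonneg _))]
  have := expand hφ hA hBc
  linarith

end

end Pool.Agent.A54.Hp
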