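import Pool.Agent.Lib.MP_a54f13_nt.Hp.SpecA

/-!
# Package `Hp`, part A: fourth moments on the group (`StmtL4G`)
-/

set_option autoImplicit false

namespace Pool.Agent.A54.Hp

open MeasureTheory Filter Topology Set
open scoped ContDiff ComplexConjugate UpperHalfPlane MatrixGroups ENNReal
open Pool.Agent.A54.Dyn (G fl base ze io mk4 dom)
open Pool.Agent.A54.Dyn.LiftM (Sct XC XX cc rot m0)
open Pool.Agent.A54.Half (H0)
open Pool.Agent.A54.Sq (la TestP Tow Up)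

noncomputable section

namespace L4GM

lemma cpt_pre {K : Set ℂ} (hK : IsCompact K) (hKH : K ⊆ H0) :
    IsCompact (UpperHalfPlane.coe ⁻¹' K : Set ℍ) := by
  rw [UpperHalfPlane.isOpenEmbedding_coe.isInducing.isCompact_preimage_iff]
  · exact hK
  · intro z hz
    exact ⟨⟨z, hKH hz⟩, rfl⟩

/-- the larger test function -/
lemma exists_zeta {φ : ℂ → ℝ} (hφ : TestP H0 φ) :
    ∃ ζ : ℂ → ℝ, TestP H0 ζ ∧ (∀ z, φ z ≤ ζ z) ∧ ∀ z w : ℍ, dist z w ≤ 1 → φ z ≤ ζ w := by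
  classical
  set K : Set ℍ := UpperHalfPlane.coe ⁻¹' (tsupport φ) with hKdef
  have hK : IsCompact K := cpt_pre hφ.test.cpt.isCompact hφ.test.sub
  have hK1 : IsCompact (Metric.cthickening 1 K) := hK.cthickening
  have hK2 : IsCompact (UpperHalfPlane.coe '' (Metric.cthickening 1 K) : Set ℂ) :=
    hK1.image UpperHalfPlane.continuous_coe
  have hsub : (UpperHalfPlane.coe '' (Metric.cthickening 1 K) : Set ℂ) ⊆ H0 := by
    rintro _ ⟨z, _, rfl⟩
    exact z.im_pos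
  obtain ⟨χ, hχ, hχ1, hχ2⟩ := exists_cutoff hK2 Half.isOpen_H0 hsub
  obtain ⟨A, hA⟩ : ∃ A : ℝ, ∀ z, φ z ≤ A := by
    obtain ⟨A, hA⟩ := hφ.test.smooth.continuous.bounded_above_of_compact_support hφ.test.cpt
    exact ⟨A, fun z => (le_abs_self _).trans (hA z)⟩
  have hA0 : 0 ≤ A := (hφ.nonneg 0).trans (hA 0)
  have hone : ∀ w : ℍ, w ∈ Metric.cthickening 1 K → χ w = 1 := by
    intro w hw
    have h := hχ2.self_of_nhdsSet
    exact h w ⟨w, hw, rfl⟩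
  refine ⟨fun z => A * χ z, ⟨⟨contDiff_const.mul hχ.smooth, hχ.cpt.mul_left, ?_⟩, fun z =>
    mul_nonneg hA0 (hχ1 z).1⟩, ?_, ?_⟩
  · exact (tsupport_mul_subset_right).trans hχ.sub
  · intro z
    by_cases hz : φ z = 0
    · rw [hz]; exact mul_nonneg hA0 (hχ1 z).1
    · have hzs : z ∈ tsupport φ := subset_tsupport _ hz
      have hz0 : 0 < z.im := hφ.test.sub hzs
      have h1 : (⟨z, hz0⟩ : ℍ) ∈ Metric.cthickening 1 K :=
        Metric.self_subset_cthickening K hzs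
      have h2 := hone _ h1
      change χ z = 1 at h2
      change φ z ≤ A * χ z
      rw [h2, mul_one]
      exact hA z
  · intro z w hzw
    by_cases hz : φ z = 0
    · rw [hz]; exact mul_nonneg hA0 (hχ1 w).1
    · have hzs : (z : ℂ) ∈ tsupport φ := subset_tsupport _ hz
      have h1 : w ∈ Metric.cthickening 1 K :=
        Metric.mem_cthickening_of_dist_le w z 1 K hzs (by rwa [dist_comm])
      change φ z ≤ A * χ w
      rw [hone _ h1, mul_one]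
      exact hA _

/-- convexity -/
lemma conv4 {ι : Type*} (s : Finset ι) (x y : ι → ℝ) (hx : ∀ i ∈ s, 0 ≤ x i) :
    (∑ i ∈ s, x i * y i) ^ 4 ≤ (∑ i ∈ s, x i) ^ 3 * ∑ i ∈ s, x i * y i ^ 4 := by
  have h1 : (∑ i ∈ s, x i * y i) ^ 2 ≤ (∑ i ∈ s, x i) * ∑ i ∈ s, x i * y i ^ 2 := by
    refine Finset.sum_sq_le_sum_mul_sum_of_sq_le_mul s hx
      (fun i hi => mul_nonneg (hx i hi) (sq_nonneg _)) fun i _ => le_of_eq (by ring)
  have h2 : (∑ i ∈ s, x i * y i ^ 2) ^ 2 ≤ (∑ i ∈ s, x i) * ∑ i ∈ s, x i * y i ^ 4 := by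
    refine Finset.sum_sq_le_sum_mul_sum_of_sq_le_mul s hx
      (fun i hi => mul_nonneg (hx i hi) (by positivity)) fun i _ => le_of_eq (by ring)
  have h3 : 0 ≤ ∑ i ∈ s, x i := Finset.sum_nonneg hx
  calc (∑ i ∈ s, x i * y i) ^ 4 = ((∑ i ∈ s, x i * y i) ^ 2) ^ 2 := by ring
    _ ≤ ((∑ i ∈ s, x i) * ∑ i ∈ s, x i * y i ^ 2) ^ 2 :=
        pow_le_pow_left₀ (sq_nonneg _) h1 2
    _ = (∑ i ∈ s, x i) ^ 2 * (∑ i ∈ s, x i * y i ^ 2) ^ 2 := by ring
    _ ≤ (∑ i ∈ s, x i) ^ 2 * ((∑ i ∈ s, x i) * ∑ i ∈ s, x i * y i ^ 4) :=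
        mul_le_mul_of_nonneg_left h2 (sq_nonneg _)
    _ = _ := by ring

lemma norm_Ff (f : ℍ → ℝ) (t : ℝ) (n : ℤ) (g : G) :
    ‖Ff f t n g‖ = ‖Gf f t n ((base g : ℍ) : ℂ)‖ := by
  unfold Ff
  rw [norm_mul, norm_zpow, Dyn.norm_ze, one_zpow, one_mul]

/-- the pointwise bound -/
lemma ph_le (f : ℍ → ℝ) (t : ℝ) (N : ℕ) (c : ℤ → ℂ) (g : G) :
    ‖Ph f t N c g‖ ^ 4 ≤ (∑ n ∈ Finset.Icc (-(N : ℤ)) N, ‖c n‖) ^ 3 *
      ∑ n ∈ Finset.Icc (-(N : ℤ)) N, ‖c n‖ * ‖Gf f t n ((base g : ℍ) : ℂ)‖ ^ 4 := by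
  refine le_trans (pow_le_pow_left₀ (norm_nonneg _) ?_ 4)
    (conv4 _ (fun n => ‖c n‖) _ fun n _ => norm_nonneg _)
  unfold Ph
  refine (norm_sum_le _ _).trans (Finset.sum_le_sum fun n _ => ?_)
  rw [norm_mul, norm_Ff]

/-- continuity on the half-plane -/
lemma cont_Gf (hT : StmtTwG) {f : ℍ → ℝ} {t : ℝ} (hf : IsHeckeMaass f t) (n : ℤ) :
    Continuous fun z : ℍ => Gf f t n (z : ℂ) :=
  ((hT f t hf n).1.continuousOn).comp_continuous UpperHalfPlane.continuous_coe fun z => z.im_pos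

lemma intble (hT : StmtTwG) {f : ℍ → ℝ} {t : ℝ} (hf : IsHeckeMaass f t) {ζ : ℂ → ℝ}
    (hζ : TestP H0 ζ) (n : ℤ) :
    Integrable fun z : ℍ => ζ z * ‖Gf f t n (z : ℂ)‖ ^ 4 := by
  refine Continuous.integrable_of_hasCompactSupport
    ((hζ.test.smooth.continuous.comp UpperHalfPlane.continuous_coe).mul
      ((cont_Gf hT hf n).norm.pow 4)) ?_
  refine HasCompactSupport.intro (cpt_pre hζ.test.cpt.isCompact hζ.test.sub) fun z hz => ?_
  have h : ζ z = 0 := image_eq_zero_of_notMem_tsupport hz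
  rw [h, zero_mul]

/-- translation -/
lemma trans_le (hR : StmtNuR) {φ ζ : ℂ → ℝ}
    (h : ∀ z w : ℍ, dist z w ≤ 1 → φ z ≤ ζ w) (F : G → ℝ≥0∞) (u : ℝ) (hu : |u| ≤ 1) :
    ∫⁻ g, ENNReal.ofReal (φ (base g : ℂ)) * F (g * fl u) ∂nu ≤
      ∫⁻ g, ENNReal.ofReal (ζ (base g : ℂ)) * F g ∂nu := by
  have := hR.1
  have h1 : ∀ g : G, ENNReal.ofReal (φ (base g : ℂ)) * F (g * fl u) =
      (fun x : G => ENNReal.ofReal (φ (base (x * fl (-u)) : ℂ)) * F x) (g * fl u) := by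
    intro g
    change _ = ENNReal.ofReal (φ (base (g * fl u * fl (-u)) : ℂ)) * F (g * fl u)
    rw [mul_assoc g, ← Dyn.fl_add, add_neg_cancel, Dyn.fl_zero, mul_one]
  rw [lintegral_congr h1, lintegral_mul_right_eq_self
    (fun x : G => ENNReal.ofReal (φ (base (x * fl (-u)) : ℂ)) * F x) (fl u)]
  refine lintegral_mono fun g => ?_
  refine mul_le_mul_left (ENNReal.ofReal_le_ofReal ?_) _
  refine h _ _ ?_
  rw [Dyn.dist_base_fl, abs_neg]
  exact hu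

end L4GM

open L4GM in
/-- **L4G** -/
theorem stmtL4G (hL : StmtNuL) (hR : StmtNuR) (hT : StmtTwG) : StmtL4G := by
  intro φ hφ
  obtain ⟨ζ, hζ, h1, h2⟩ := exists_zeta hφ
  refine ⟨ζ, hζ, h1, ?_⟩
  intro f t hf N c B hU u hu
  refine (trans_le hR h2 (fun g => ‖Ph f t N c g‖ₑ ^ 4) u hu).trans ?_
  set S : Finset ℤ := Finset.Icc (-(N : ℤ)) N with hS
  set A : ℝ := ∑ n ∈ S, ‖c n‖ with hA
  have hA0 : 0 ≤ A := Finset.sum_nonneg fun n _ => norm_nonneg _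
  -- the function on the half-plane
  set H : ℍ → ℝ := fun z => A ^ 3 * ∑ n ∈ S, ‖c n‖ * (ζ z * ‖Gf f t n (z : ℂ)‖ ^ 4) with hH
  have hH0 : ∀ z, 0 ≤ H z := fun z => mul_nonneg (by positivity)
    (Finset.sum_nonneg fun n _ => mul_nonneg (norm_nonneg _)
      (mul_nonneg (hζ.nonneg _) (by positivity)))
  have hHi : Integrable H :=
    (integrable_finsetSum _ fun n _ => (intble hT hf hζ n).const_mul _).const_mul _
  have hHc : Continuous H :=
    continuous_const.mul (continuous_finsetSum _ fun n _ => continuous_const.mul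
      ((hζ.test.smooth.continuous.comp UpperHalfPlane.continuous_coe).mul
        ((cont_Gf hT hf n).norm.pow 4)))
  have hpt : ∀ g : G, ENNReal.ofReal (ζ (base g : ℂ)) * ‖Ph f t N c g‖ₑ ^ 4 ≤
      ENNReal.ofReal (H (base g)) := by
    intro g
    rw [← ofReal_norm, ← ENNReal.ofReal_pow (norm_nonneg _), ← ENNReal.ofReal_mul (hζ.nonneg _)]
    refine ENNReal.ofReal_le_ofReal ?_
    refine (mul_le_mul_of_nonneg_left (ph_le f t N c g) (hζ.nonneg _)).trans (le_of_eq ?_)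
    rw [hH]
    simp only [Finset.mul_sum]
    refine Finset.sum_congr rfl fun n _ => by ring
  calc ∫⁻ g, ENNReal.ofReal (ζ (base g : ℂ)) * ‖Ph f t N c g‖ₑ ^ 4 ∂nu
      ≤ ∫⁻ g, ENNReal.ofReal (H (base g)) ∂nu := lintegral_mono hpt
    _ = ∫⁻ z : ℍ, ENNReal.ofReal (H z) :=
        hL.2.2.2.2 (fun z => ENNReal.ofReal (H z)) hHc.measurable.ennreal_ofReal
    _ = ENNReal.ofReal (∫ z : ℍ, H z) :=
        (ofReal_integral_eq_lintegral_ofReal hHi (Eventually.of_forall hH0)).symm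
    _ ≤ ENNReal.ofReal (A ^ 4 * B) := by
        refine ENNReal.ofReal_le_ofReal ?_
        rw [hH, integral_const_mul, integral_finsetSum _
          fun n _ => (intble hT hf hζ n).const_mul _]
        have h3 : ∑ n ∈ S, ∫ z : ℍ, ‖c n‖ * (ζ z * ‖Gf f t n (z : ℂ)‖ ^ 4) ≤ A * B := by
          rw [hA, Finset.sum_mul]
          refine Finset.sum_le_sum fun n hn => ?_
          rw [integral_const_mul]
          refine mul_le_mul_of_nonneg_left (hU n ?_) (norm_nonneg _)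
          rw [hS, Finset.mem_Icc] at hn
          exact abs_le.2 hn
        calc A ^ 3 * ∑ n ∈ S, ∫ z : ℍ, ‖c n‖ * (ζ z * ‖Gf f t n (z : ℂ)‖ ^ 4)
            ≤ A ^ 3 * (A * B) := mul_le_mul_of_nonneg_left h3 (by positivity)
          _ = A ^ 4 * B := by ring

end

end Pool.Agent.A54.Hp
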