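import Pool.Agent.Lib.MP_a54f13_nt.Hp.SpecB
import Pool.Agent.Lib.MP_a54f13_nt.IntLap

/-!
# Package `Hp`, module `Lh`: the measure of the half-plane
-/

set_option autoImplicit false

namespace Pool.Agent.A54.Hp

open MeasureTheory Filter Topology Set
open scoped ContDiff ComplexConjugate UpperHalfPlane MatrixGroups ENNReal NNReal

namespace LhM

lemma meas_dens : Measurable (fun z : ℍ =>
    (((1 / NNReal.mk z.im z.im_pos.le : ℝ≥0) ^ 2 : ℝ≥0) : ℝ≥0∞)) := by
  have h1 : Measurable (fun z : ℍ => NNReal.mk z.im z.im_pos.le) :=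
    (UpperHalfPlane.continuous_im.subtype_mk _).measurable
  exact ((h1.const_div 1).pow_const 2).coe_nnreal_ennreal

lemma dens_eq (z : ℍ) : (((1 / NNReal.mk z.im z.im_pos.le : ℝ≥0) ^ 2 : ℝ≥0) : ℝ≥0∞) =
    ENNReal.ofReal (1 / (z : ℂ).im ^ 2) := by
  rw [← ENNReal.ofReal_coe_nnreal]
  congr 1
  push_cast
  simp

end LhM

/-- **Lh** the measure of the half-plane -/
theorem stmtLh : StmtLh := by
  intro F hF
  have hF2 : Measurable (fun z : ℍ => F (z : ℂ)) :=
    hF.comp UpperHalfPlane.measurableEmbedding_coe.measurable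
  rw [UpperHalfPlane.volume_def, lintegral_withDensity_eq_lintegral_mul _ LhM.meas_dens hF2]
  have h2 : ∀ z : ℍ, ((fun z : ℍ => (((1 / NNReal.mk z.im z.im_pos.le : ℝ≥0) ^ 2 : ℝ≥0) : ℝ≥0∞)) *
      fun z : ℍ => F (z : ℂ)) z = (fun w : ℂ => ENNReal.ofReal (1 / w.im ^ 2) * F w) (z : ℂ) := by
    intro z
    rw [Pi.mul_apply, LhM.dens_eq]
  rw [lintegral_congr h2, ← UpperHalfPlane.measurableEmbedding_coe.lintegral_map
      (fun w : ℂ => ENNReal.ofReal (1 / w.im ^ 2) * F w),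
    UpperHalfPlane.measurableEmbedding_coe.map_comap, IntLap.range_coe_eq]

end Pool.Agent.A54.Hp
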