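import Pool.Agent.Lib.MP_a54f13_nt.Hp.SpecM

/-!
# Package `Hp`: a dyadic level of the tube mass (`StmtLev`)
-/

set_option autoImplicit false

namespace Pool.Agent.A54.Hp

open MeasureTheory Filter Topology Set
open scoped ContDiff ComplexConjugate UpperHalfPlane MatrixGroups ENNReal
open Pool.Agent.A54.Dyn (G fl base ze io mk4 dom)
open Pool.Agent.A54.Av (Mat NonSc)

namespace LevM

lemma continuous_xi (i : Fin 3) : Continuous fun g : G => xi g i := by
  have h := Dyn.continuous_entry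
  fin_cases i
  · exact ((h 0 0).mul (h 1 1)).add ((h 0 1).mul (h 1 0))
  · exact ((h 0 0).mul (h 0 1)).neg
  · exact (h 1 0).mul (h 1 1)

lemma isClosed_Om (R : ℝ) : IsClosed (Om R) := by
  have e : Om R = ⋂ i : Fin 2, ⋂ j : Fin 2, {g : G | |g i j| ≤ R} := by
    ext g; simp [Om]
  rw [e]
  exact isClosed_iInter fun i => isClosed_iInter fun j =>
    isClosed_le (Dyn.continuous_entry i j).abs continuous_const

/-- pairs of points of the box whose geodesics are near -/
def Pp (R w : ℝ) : Set (G × G) := {p | p.2 ∈ Om R ∧ ∀ i, |xi p.2 i - xi p.1 i| ≤ w}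

lemma isClosed_Pp (R w : ℝ) : IsClosed (Pp R w) := by
  have e : Pp R w = (Prod.snd ⁻¹' Om R) ∩ ⋂ i : Fin 3, {p : G × G | |xi p.2 i - xi p.1 i| ≤ w} := by
    ext p; simp [Pp]
  rw [e]
  refine ((isClosed_Om R).preimage continuous_snd).inter (isClosed_iInter fun i => ?_)
  exact isClosed_le (((continuous_xi i).comp continuous_snd).sub
    ((continuous_xi i).comp continuous_fst)).abs continuous_const

lemma isClosed_Tb (R : ℝ) (ζ : Fin 3 → ℝ) (w : ℝ) : IsClosed (Tb R ζ w) := by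
  have e : Tb R ζ w = Om R ∩ ⋂ i : Fin 3, {g : G | |xi g i - ζ i| ≤ w} := by
    ext p; simp [Tb]
  rw [e]
  exact (isClosed_Om R).inter (isClosed_iInter fun i =>
    isClosed_le ((continuous_xi i).sub continuous_const).abs continuous_const)

/-- the tube mass is measurable -/
lemma meas_m (h : StmtNuL) (Φ : G → ℂ) (hΦ : Continuous Φ) (R w : ℝ) :
    Measurable fun g => ms Φ (Tb R (xi g) w) := by
  obtain ⟨_, _, h3, _, _⟩ := h
  have := h3
  have e : (fun g => ms Φ (Tb R (xi g) w)) =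
      fun g => ∫⁻ y, (Pp R w).indicator (fun p => ‖Φ p.2‖ₑ ^ 2) (g, y) ∂nu := by
    funext g
    unfold ms
    rw [← lintegral_indicator (isClosed_Tb R (xi g) w).measurableSet]
    rfl
  rw [e]
  refine Measurable.lintegral_prod_right' (f := (Pp R w).indicator (fun p => ‖Φ p.2‖ₑ ^ 2)) ?_
  refine Measurable.indicator ?_ (isClosed_Pp R w).measurableSet
  exact ((hΦ.measurable.comp measurable_snd).enorm).pow_const 2

/-- the level set -/
def Ul (Φ : G → ℂ) (R w A : ℝ) : Set G := {g | g ∈ Om R ∧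
  ENNReal.ofReal A ≤ ms Φ (Tb R (xi g) w) ∧ ms Φ (Tb R (xi g) w) < ENNReal.ofReal (2 * A)}

lemma meas_Ul (h : StmtNuL) (Φ : G → ℂ) (hΦ : Continuous Φ) (R w A : ℝ) :
    MeasurableSet (Ul Φ R w A) := by
  have hm := meas_m h Φ hΦ R w
  exact (isClosed_Om R).measurableSet.inter
    ((measurableSet_le measurable_const hm).inter (measurableSet_lt hm measurable_const))

/-- a point of the box is below `a` or in one of the levels `2^j a`, `j ≤ J` -/
lemma pick {a b : ℝ} (ha : 0 < a) {J : ℕ} (hJ : b / a < 2 ^ (J + 1)) {m : ℝ≥0∞}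
    (hm : m ≤ ENNReal.ofReal b) : m ≤ ENNReal.ofReal a ∨
      ∃ j ∈ Finset.range (J + 1), ENNReal.ofReal (2 ^ j * a) ≤ m ∧
        m < ENNReal.ofReal (2 * (2 ^ j * a)) := by
  rcases le_or_gt m (ENNReal.ofReal a) with h | h
  · exact Or.inl h
  · right
    have hfin : m ≠ ⊤ := ne_top_of_le_ne_top ENNReal.ofReal_ne_top hm
    have e : m = ENNReal.ofReal m.toReal := (ENNReal.ofReal_toReal hfin).symm
    have hb : 0 ≤ b := by
      by_contra hb
      rw [ENNReal.ofReal_of_nonpos (not_le.mp hb).le] at hm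
      exact absurd (lt_of_lt_of_le h hm) (by simp)
    have h1 : a < m.toReal := by
      rw [e] at h
      exact (ENNReal.ofReal_lt_ofReal_iff_of_nonneg ha.le).mp h
    have h2 : m.toReal ≤ b := ENNReal.toReal_le_of_le_ofReal hb hm
    obtain ⟨j, hj1, hj2⟩ := exists_nat_pow_near (x := m.toReal / a) (y := 2)
      ((one_le_div ha).mpr h1.le) one_lt_two
    have h3 : (2 : ℝ) ^ j < 2 ^ (J + 1) :=
      lt_of_le_of_lt (hj1.trans (div_le_div_of_nonneg_right h2 ha.le)) hJ
    have h4 : j < J + 1 := (pow_lt_pow_iff_right₀ one_lt_two).mp h3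
    refine ⟨j, Finset.mem_range.mpr h4, ?_, ?_⟩
    · rw [e]
      exact ENNReal.ofReal_le_ofReal ((le_div_iff₀ ha).mp hj1)
    · rw [e]
      refine (ENNReal.ofReal_lt_ofReal_iff (by positivity)).mpr ?_
      have := (div_lt_iff₀ ha).mp hj2
      calc m.toReal < 2 ^ (j + 1) * a := this
        _ = 2 * (2 ^ j * a) := by ring

lemma geo (J : ℕ) : ∑ j ∈ Finset.range (J + 1), (2 : ℝ) * 2 ^ j ≤ 4 * 2 ^ J := by
  rw [← Finset.mul_sum, geom_sum_eq (by norm_num : (2 : ℝ) ≠ 1)]
  have : (2 : ℝ) ^ (J + 1) = 2 * 2 ^ J := by ring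
  rw [this]; linarith

/-- the whole integral is bounded by the levels -/
lemma bound (h : StmtNuL) (Φ : G → ℂ) (hΦ : Continuous Φ) (R w a b : ℝ) (ha : 0 < a) (J : ℕ)
    (hJ : b / a < 2 ^ (J + 1)) (hb : ∀ ζ : Fin 3 → ℝ, ms Φ (Tb R ζ w) ≤ ENNReal.ofReal b) :
    Cw Φ R w ≤ ENNReal.ofReal a * ms Φ (Om R) +
      ∑ j ∈ Finset.range (J + 1), ENNReal.ofReal (2 * (2 ^ j * a)) * ms Φ (Ul Φ R w (2 ^ j * a)) := by
  have hmeas : Measurable fun g => ‖Φ g‖ₑ ^ 2 := hΦ.measurable.enorm.pow_const 2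
  have hpt : ∀ g ∈ Om R, ‖Φ g‖ₑ ^ 2 * ms Φ (Tb R (xi g) w) ≤
      ENNReal.ofReal a * ‖Φ g‖ₑ ^ 2 + ∑ j ∈ Finset.range (J + 1),
        (Ul Φ R w (2 ^ j * a)).indicator
          (fun g => ENNReal.ofReal (2 * (2 ^ j * a)) * ‖Φ g‖ₑ ^ 2) g := by
    intro g hg
    rcases pick ha hJ (hb (xi g)) with h1 | ⟨j, hj, h1, h2⟩
    · refine le_trans ?_ le_self_add
      rw [mul_comm]
      gcongr
    · refine le_trans ?_ le_add_self
      refine le_trans ?_ (Finset.single_le_sum (f := fun j => (Ul Φ R w (2 ^ j * a)).indicator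
          (fun g => ENNReal.ofReal (2 * (2 ^ j * a)) * ‖Φ g‖ₑ ^ 2) g) (fun _ _ => bot_le) hj)
      have hmem : g ∈ Ul Φ R w (2 ^ j * a) := ⟨hg, h1, h2⟩
      simp only [indicator_of_mem hmem]
      rw [mul_comm]
      gcongr
  calc Cw Φ R w ≤ ∫⁻ g in Om R, (ENNReal.ofReal a * ‖Φ g‖ₑ ^ 2 + ∑ j ∈ Finset.range (J + 1),
        (Ul Φ R w (2 ^ j * a)).indicator
          (fun g => ENNReal.ofReal (2 * (2 ^ j * a)) * ‖Φ g‖ₑ ^ 2) g) ∂nu :=
        setLIntegral_mono' (isClosed_Om R).measurableSet hpt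
    _ = ENNReal.ofReal a * ms Φ (Om R) + ∑ j ∈ Finset.range (J + 1), ∫⁻ g in Om R,
        (Ul Φ R w (2 ^ j * a)).indicator
          (fun g => ENNReal.ofReal (2 * (2 ^ j * a)) * ‖Φ g‖ₑ ^ 2) g ∂nu := by
        rw [lintegral_add_left (hmeas.const_mul _), lintegral_const_mul _ hmeas,
          lintegral_finsetSum]
        · rfl
        · intro j _
          exact (hmeas.const_mul _).indicator (meas_Ul h Φ hΦ R w _)
    _ ≤ _ := by
        gcongr with j hj
        calc ∫⁻ g in Om R, (Ul Φ R w (2 ^ j * a)).indicator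
              (fun g => ENNReal.ofReal (2 * (2 ^ j * a)) * ‖Φ g‖ₑ ^ 2) g ∂nu
            ≤ ∫⁻ g, (Ul Φ R w (2 ^ j * a)).indicator
              (fun g => ENNReal.ofReal (2 * (2 ^ j * a)) * ‖Φ g‖ₑ ^ 2) g ∂nu :=
              setLIntegral_le_lintegral _ _
          _ = ENNReal.ofReal (2 * (2 ^ j * a)) * ms Φ (Ul Φ R w (2 ^ j * a)) := by
              rw [lintegral_indicator (meas_Ul h Φ hΦ R w _), lintegral_const_mul _ hmeas]
              rfl

end LevM

open LevM in
/-- **Lev** -/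
theorem stmtLev (hN : StmtNuL) (hT : StmtTot) : StmtLev := by
  intro R c δ hR hc hc1 hδ hδ1
  obtain ⟨C, hC, hTot⟩ := hT R hR
  have hD : (1 : ℝ) ≤ C + 4 := by linarith
  have hD0 : (0 : ℝ) < C + 4 := by linarith
  refine ⟨(C + 4) ^ (-(1 / c)), Real.rpow_pos_of_pos hD0 _,
    Real.rpow_le_one_of_one_le_of_nonpos hD (by
      have : 0 < 1 / c := by positivity
      linarith), ?_⟩
  intro l Φ hΦ w hw hw0 hub hbig
  have hw1 : w ≤ 1 := hw0.trans (Real.rpow_le_one_of_one_le_of_nonpos hD (by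
      have : 0 < 1 / c := by positivity
      linarith))
  -- `w ^ c ≤ 1 / (C + 4)`
  have hwc : (C + 4) * w ^ c ≤ 1 := by
    have h1 : w ^ c ≤ ((C + 4) ^ (-(1 / c))) ^ c := Real.rpow_le_rpow hw.le hw0 hc.le
    have h2 : ((C + 4) ^ (-(1 / c))) ^ c = (C + 4)⁻¹ := by
      rw [← Real.rpow_mul hD0.le]
      have : -(1 / c) * c = -1 := by field_simp
      rw [this, Real.rpow_neg_one]
    rw [h2] at h1
    calc (C + 4) * w ^ c ≤ (C + 4) * (C + 4)⁻¹ := mul_le_mul_of_nonneg_left h1 hD0.le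
      _ = 1 := mul_inv_cancel₀ hD0.ne'
  set a : ℝ := w ^ (1 + 2 * c) with ha'
  set b : ℝ := w ^ (1 - δ) with hb'
  have ha : 0 < a := Real.rpow_pos_of_pos hw _
  have hb : 0 < b := Real.rpow_pos_of_pos hw _
  have hab : a ≤ b := Real.rpow_le_rpow_of_exponent_ge hw hw1 (by linarith)
  obtain ⟨J, hJ1, hJ2⟩ := exists_nat_pow_near (x := b / a) (y := 2)
    ((one_le_div ha).mpr hab) one_lt_two
  have hJb : 2 ^ J * a ≤ b := (le_div_iff₀ ha).mp hJ1
  by_contra hno
  push Not at hno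
  have hsmall : ∀ j ∈ Finset.range (J + 1), ms Φ (Ul Φ R w (2 ^ j * a)) ≤
      ENNReal.ofReal (w ^ (2 * c + δ)) := by
    intro j hj
    have hjJ : j ≤ J := Nat.lt_succ_iff.mp (Finset.mem_range.mp hj)
    have h1 : a ≤ 2 ^ j * a := le_mul_of_one_le_left ha.le (one_le_pow₀ one_le_two)
    have h2 : 2 ^ j * a ≤ b :=
      (mul_le_mul_of_nonneg_right (pow_le_pow_right₀ one_le_two hjJ) ha.le).trans hJb
    exact (hno (2 ^ j * a) h1 h2 (meas_Ul hN Φ hΦ.cont R w _)).le
  have hmain : Cw Φ R w ≤ ENNReal.ofReal (w ^ (1 + c)) := by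
    calc Cw Φ R w ≤ ENNReal.ofReal a * ms Φ (Om R) + ∑ j ∈ Finset.range (J + 1),
          ENNReal.ofReal (2 * (2 ^ j * a)) * ms Φ (Ul Φ R w (2 ^ j * a)) :=
          bound hN Φ hΦ.cont R w a b ha J hJ2 hub
      _ ≤ ENNReal.ofReal a * ENNReal.ofReal C + ∑ j ∈ Finset.range (J + 1),
          ENNReal.ofReal (2 * (2 ^ j * a)) * ENNReal.ofReal (w ^ (2 * c + δ)) := by
          gcongr with j hj
          · exact hTot l Φ hΦ
          · exact hsmall j hj
      _ = ENNReal.ofReal (a * C + ∑ j ∈ Finset.range (J + 1),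
          (2 * (2 ^ j * a)) * w ^ (2 * c + δ)) := by
          rw [ENNReal.ofReal_add (by positivity) (Finset.sum_nonneg fun j _ => by positivity),
            ENNReal.ofReal_mul ha.le, ENNReal.ofReal_sum_of_nonneg (fun j _ => by positivity)]
          congr 1
          refine Finset.sum_congr rfl fun j _ => ?_
          rw [← ENNReal.ofReal_mul (by positivity)]
      _ ≤ ENNReal.ofReal (w ^ (1 + c)) := by
          refine ENNReal.ofReal_le_ofReal ?_
          have h1 : ∑ j ∈ Finset.range (J + 1), (2 * (2 ^ j * a)) * w ^ (2 * c + δ) ≤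
              4 * b * w ^ (2 * c + δ) := by
            rw [← Finset.sum_mul]
            refine mul_le_mul_of_nonneg_right ?_ (Real.rpow_nonneg hw.le _)
            calc ∑ j ∈ Finset.range (J + 1), 2 * (2 ^ j * a)
                = (∑ j ∈ Finset.range (J + 1), (2 : ℝ) * 2 ^ j) * a := by
                  rw [Finset.sum_mul]; exact Finset.sum_congr rfl fun j _ => by ring
              _ ≤ (4 * 2 ^ J) * a := mul_le_mul_of_nonneg_right (geo J) ha.le
              _ = 4 * (2 ^ J * a) := by ring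
              _ ≤ 4 * b := by linarith
          have h2 : b * w ^ (2 * c + δ) = a := by
            rw [hb', ha', ← Real.rpow_add hw]; congr 1; ring
          have h3 : a = w ^ (1 + c) * w ^ c := by
            rw [ha', ← Real.rpow_add hw]; congr 1; ring
          calc a * C + ∑ j ∈ Finset.range (J + 1), (2 * (2 ^ j * a)) * w ^ (2 * c + δ)
              ≤ a * C + 4 * b * w ^ (2 * c + δ) := by linarith
            _ = (C + 4) * a := by rw [mul_assoc 4 b, h2]; ring
            _ = w ^ (1 + c) * ((C + 4) * w ^ c) := by rw [h3]; ring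
            _ ≤ w ^ (1 + c) * 1 := mul_le_mul_of_nonneg_left hwc (Real.rpow_nonneg hw.le _)
            _ = w ^ (1 + c) := mul_one _
  exact absurd hbig (not_lt.mpr hmain)

end Pool.Agent.A54.Hp
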