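import Pool.Agent.Lib.MP_a54f13_nt.Hp.SpecN
import Pool.Agent.Lib.MP_a54f13_nt.Hp.Lev

/-!
# Package `Hp`, part N: a dyadic level of the tube mass, sharper form (`StmtLv`)
-/

set_option autoImplicit false

namespace Pool.Agent.A54.Hp

open MeasureTheory Filter Topology Set
open scoped ContDiff ComplexConjugate UpperHalfPlane MatrixGroups ENNReal
open Pool.Agent.A54.Dyn (G fl base ze io mk4 dom)
open Pool.Agent.A54.Av (Mat NonSc)

namespace LvN

/-- the number of levels -/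
lemma num {c δ w : ℝ} (hc : 0 < c) (hc1 : c ≤ 1) (hδ : 0 ≤ δ) (hδ1 : δ ≤ 1) (hw : 0 < w)
    (hw1 : w ≤ 1) {J : ℕ} (hJ : (2 : ℝ) ^ J ≤ w ^ (1 - δ) / w ^ (1 + 2 * c)) :
    (J : ℝ) * w ^ (c / 2) ≤ 12 / c := by
  have h1 : w ^ (1 - δ) / w ^ (1 + 2 * c) = w⁻¹ ^ (2 * c + δ) := by
    rw [← Real.rpow_sub hw, Real.inv_rpow hw.le, ← Real.rpow_neg hw.le]
    congr 1; ring
  have hwi : 1 ≤ w⁻¹ := (one_le_inv₀ hw).mpr hw1
  have hwi0 : 0 < w⁻¹ := by positivity
  rw [h1] at hJ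
  have h2 : (J : ℝ) * Real.log 2 ≤ (2 * c + δ) * Real.log w⁻¹ := by
    have := Real.log_le_log (by positivity) hJ
    rwa [Real.log_pow, Real.log_rpow hwi0] at this
  have h3 : 0 ≤ Real.log w⁻¹ := Real.log_nonneg hwi
  have h4 : (2 * c + δ) * Real.log w⁻¹ ≤ 3 * Real.log w⁻¹ :=
    mul_le_mul_of_nonneg_right (by linarith) h3
  have h5 : Real.log w⁻¹ ≤ w⁻¹ ^ (c / 2) / (c / 2) :=
    Real.log_le_rpow_div hwi0.le (by positivity)
  have h6 : (J : ℝ) * (1 / 2) ≤ (J : ℝ) * Real.log 2 :=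
    mul_le_mul_of_nonneg_left (by linarith [Real.log_two_gt_d9]) (Nat.cast_nonneg J)
  have h7 : (J : ℝ) ≤ 6 * (w⁻¹ ^ (c / 2) / (c / 2)) := by linarith
  have hs : 0 < w ^ (c / 2) := Real.rpow_pos_of_pos hw _
  have h8 : w⁻¹ ^ (c / 2) * w ^ (c / 2) = 1 := by
    rw [Real.inv_rpow hw.le, inv_mul_cancel₀ hs.ne']
  calc (J : ℝ) * w ^ (c / 2) ≤ 6 * (w⁻¹ ^ (c / 2) / (c / 2)) * w ^ (c / 2) :=
        mul_le_mul_of_nonneg_right h7 hs.le
    _ = 6 * (w⁻¹ ^ (c / 2) * w ^ (c / 2)) / (c / 2) := by ring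
    _ = 12 / c := by rw [h8]; field_simp; norm_num

end LvN

open LvN in
/-- **Lv** -/
theorem stmtLv (hN : StmtNuL) (hT : StmtTot) : StmtLv := by
  intro R c δ hR hc hc1 hδ hδ1
  obtain ⟨C, hC, hTot⟩ := hT R hR
  obtain ⟨D, hD'⟩ : ∃ D : ℝ, D = C + 2 + 24 / c := ⟨_, rfl⟩
  have hD : 1 ≤ D := by
    have : 0 < 24 / c := by positivity
    linarith
  have hD0 : 0 < D := by linarith
  have hexp : -(2 / c) ≤ 0 := by
    have : 0 < 2 / c := by positivity
    linarith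
  refine ⟨D ^ (-(2 / c)), Real.rpow_pos_of_pos hD0 _,
    Real.rpow_le_one_of_one_le_of_nonpos hD hexp, ?_⟩
  intro l Φ hΦ w hw hw0 hub hbig
  have hw1 : w ≤ 1 := hw0.trans (Real.rpow_le_one_of_one_le_of_nonpos hD hexp)
  obtain ⟨s, hs'⟩ : ∃ s : ℝ, s = w ^ (c / 2) := ⟨_, rfl⟩
  have hs : 0 < s := by rw [hs']; exact Real.rpow_pos_of_pos hw _
  have hs1 : s ≤ 1 := by rw [hs']; exact Real.rpow_le_one hw.le hw1 (by positivity)
  -- `s ≤ 1 / D`
  have hsD : s * D ≤ 1 := by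
    have h1 : w ^ (c / 2) ≤ (D ^ (-(2 / c))) ^ (c / 2) :=
      Real.rpow_le_rpow hw.le hw0 (by positivity)
    have h2 : (D ^ (-(2 / c))) ^ (c / 2) = D⁻¹ := by
      rw [← Real.rpow_mul hD0.le]
      have : -(2 / c) * (c / 2) = -1 := by field_simp
      rw [this, Real.rpow_neg_one]
    rw [h2, ← hs'] at h1
    calc s * D ≤ D⁻¹ * D := mul_le_mul_of_nonneg_right h1 hD0.le
      _ = 1 := inv_mul_cancel₀ hD0.ne'
  obtain ⟨a, ha'⟩ : ∃ a : ℝ, a = w ^ (1 + 2 * c) := ⟨_, rfl⟩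
  obtain ⟨b, hb'⟩ : ∃ b : ℝ, b = w ^ (1 - δ) := ⟨_, rfl⟩
  have ha : 0 < a := by rw [ha']; exact Real.rpow_pos_of_pos hw _
  have hb : 0 < b := by rw [hb']; exact Real.rpow_pos_of_pos hw _
  have hab : a ≤ b := by
    rw [ha', hb']
    exact Real.rpow_le_rpow_of_exponent_ge hw hw1 (by linarith)
  obtain ⟨J, hJ1, hJ2⟩ := exists_nat_pow_near (x := b / a) (y := 2)
    ((one_le_div ha).mpr hab) one_lt_two
  have hJb : 2 ^ J * a ≤ b := (le_div_iff₀ ha).mp hJ1
  have hJs : (J : ℝ) * s ≤ 12 / c := by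
    rw [hs']
    refine num hc hc1 hδ hδ1 hw hw1 ?_
    rw [← ha', ← hb']
    exact hJ1
  rw [← ha', ← hb']
  rw [← hb'] at hub
  by_contra hno
  push Not at hno
  have hsmall : ∀ j ∈ Finset.range (J + 1),
      ENNReal.ofReal (2 * (2 ^ j * a)) * ms Φ (LevM.Ul Φ R w (2 ^ j * a)) ≤
        ENNReal.ofReal (2 * a) := by
    intro j hj
    have hjJ : j ≤ J := Nat.lt_succ_iff.mp (Finset.mem_range.mp hj)
    have h1 : a ≤ 2 ^ j * a := le_mul_of_one_le_left ha.le (one_le_pow₀ one_le_two)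
    have h2 : 2 ^ j * a ≤ b :=
      (mul_le_mul_of_nonneg_right (pow_le_pow_right₀ one_le_two hjJ) ha.le).trans hJb
    have h3 : ENNReal.ofReal (2 ^ j * a) * ms Φ (LevM.Ul Φ R w (2 ^ j * a)) <
        ENNReal.ofReal a := hno (2 ^ j * a) h1 h2 (LevM.meas_Ul hN Φ hΦ.cont R w _)
    rw [ENNReal.ofReal_mul zero_le_two, ENNReal.ofReal_mul zero_le_two, mul_assoc]
    exact mul_le_mul_right h3.le _
  have hmain : Cw Φ R w ≤ ENNReal.ofReal (w ^ (1 + c)) := by
    calc Cw Φ R w ≤ ENNReal.ofReal a * ms Φ (Om R) + ∑ j ∈ Finset.range (J + 1),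
          ENNReal.ofReal (2 * (2 ^ j * a)) * ms Φ (LevM.Ul Φ R w (2 ^ j * a)) :=
          LevM.bound hN Φ hΦ.cont R w a b ha J hJ2 hub
      _ ≤ ENNReal.ofReal a * ENNReal.ofReal C + ∑ _j ∈ Finset.range (J + 1),
          ENNReal.ofReal (2 * a) := by
          refine add_le_add ?_ (Finset.sum_le_sum hsmall)
          gcongr
          exact hTot l Φ hΦ
      _ = ENNReal.ofReal (a * C + ∑ _j ∈ Finset.range (J + 1), (2 * a)) := by
          rw [ENNReal.ofReal_add (by positivity) (Finset.sum_nonneg fun j _ => by positivity),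
            ENNReal.ofReal_mul ha.le, ENNReal.ofReal_sum_of_nonneg (fun j _ => by positivity)]
      _ ≤ ENNReal.ofReal (w ^ (1 + c)) := by
          refine ENNReal.ofReal_le_ofReal ?_
          rw [Finset.sum_const, Finset.card_range, nsmul_eq_mul]
          push_cast
          have h3 : a = w ^ (1 + c) * (s * s) := by
            rw [ha', hs', ← Real.rpow_add hw, ← Real.rpow_add hw]; congr 1; ring
          have h4 : (s * s) * (C + 2 + 2 * (J : ℝ)) ≤ 1 := by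
            have h5 : (s * s) * (C + 2 + 2 * (J : ℝ)) = s * (s * (C + 2) + 2 * (J * s)) := by
              ring
            have h6 : s * (C + 2) ≤ 1 * (C + 2) :=
              mul_le_mul_of_nonneg_right hs1 (by linarith)
            have h7 : s * (C + 2) + 2 * (J * s) ≤ D := by
              rw [hD']
              have : 24 / c = 2 * (12 / c) := by ring
              rw [this]
              linarith
            rw [h5]
            exact (mul_le_mul_of_nonneg_left h7 hs.le).trans hsD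
          calc a * C + ((J : ℝ) + 1) * (2 * a) = a * (C + 2 + 2 * (J : ℝ)) := by ring
            _ = w ^ (1 + c) * ((s * s) * (C + 2 + 2 * (J : ℝ))) := by rw [h3]; ring
            _ ≤ w ^ (1 + c) * 1 := mul_le_mul_of_nonneg_left h4 (Real.rpow_nonneg hw.le _)
            _ = w ^ (1 + c) := mul_one _
  exact absurd hbig (not_lt.mpr hmain)

end Pool.Agent.A54.Hp
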