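import Pool.Agent.Lib.MP_a54f13_nt.Hp.SpecA
import Pool.Agent.Lib.MP_a54f13_nt.Sq.MsS
import Pool.Agent.Lib.MP_a54f13_nt.Pl.Spec
import Pool.Agent.Lib.MP_a54f13_nt.Rel

/-!
# Module `MfS` (helper68): means of `|G_0|² - S`
-/

set_option autoImplicit false

namespace Pool.Agent.A54.Hp

open MeasureTheory Filter Topology Set
open scoped ContDiff ComplexConjugate UpperHalfPlane MatrixGroups ENNReal
open Pool.Agent.A54.Half (H0)
open Pool.Agent.A54.Sq (la TestP Tow Up)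
open Pool.Agent.A54.Pl (lin Ed)

noncomputable section

namespace MfSM

private lemma dzb_im' (z : ℂ) : dzb (fun w : ℂ => ((w.im : ℝ) : ℂ)) z = Complex.I := by
  have h : HasFDerivAt (fun w : ℂ => ((w.im : ℝ) : ℂ)) (Complex.ofRealCLM.comp Complex.imCLM) z :=
    (Complex.ofRealCLM.comp Complex.imCLM).hasFDerivAt
  unfold dzb
  rw [h.fderiv]
  simp

/-- small discs with centre in the support of a test function -/
private lemma small {V : Set ℂ} (hV : IsOpen V) {φ : ℂ → ℝ} (hφ : TestR V φ) :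
    ∃ r1 : ℝ, 0 < r1 ∧ ∀ r : ℝ, 0 < r → r ≤ r1 → ∀ z ∈ tsupport φ, ∀ u ∈ Metric.ball (0 : ℂ) 1,
      lin r u z ∈ V := by
  obtain ⟨δ, hδ, hδV⟩ := hφ.cpt.isCompact.exists_cthickening_subset_open hV hφ.sub
  obtain ⟨m, hm⟩ := hφ.cpt.isCompact.isBounded.exists_norm_le
  have hm0 : 0 < |m| + 1 := by positivity
  refine ⟨δ / (|m| + 1), by positivity, fun r hr hrr z hz u hu => hδV ?_⟩
  have hr2 : r * (|m| + 1) ≤ δ := by rwa [le_div_iff₀ hm0] at hrr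
  have hu1 : ‖u‖ ≤ 1 := by
    rw [Metric.mem_ball, dist_zero_right] at hu
    exact hu.le
  have h1 : dist (lin r u z) z ≤ δ := by
    rw [dist_eq_norm, Pl.norm_lin_sub, abs_of_pos hr]
    have h2 : |z.im| ≤ |m| + 1 := by
      have h3 := (Complex.abs_im_le_norm z).trans (hm z hz)
      have h4 := le_abs_self m
      linarith
    calc r * |z.im| * ‖u‖ ≤ r * (|m| + 1) * 1 := by gcongr
      _ ≤ δ := by rw [mul_one]; exact hr2
  exact Metric.mem_cthickening_of_dist_le _ z _ _ hz h1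

/-- the pointwise inequality for one step -/
private lemma pt {V : Set ℂ} {t : ℝ} {G : ℤ → ℂ → ℂ} (hT : Tow V t G) (ht : 1 ≤ t) (n : ℤ) {r : ℝ} {z : ℂ}
    (hz : ∀ u ∈ Metric.ball (0 : ℂ) 1, lin r u z ∈ V) :
    t ^ 2 * (Ed r (fun w => ‖G (n + 1) w‖ ^ 2) z - Ed r (fun w => ‖G n w‖ ^ 2) z) ^ 2 ≤
      2 * ‖Ed r (dzb (fun w => ((w.im : ℝ) : ℂ) * Sq.pp G n w)) z‖ ^ 2 + 8 * ‖Ed r (Sq.pp G n) z‖ ^ 2 := by
  have hc : ∀ k : ℤ, Continuous (fun w => ‖G k w‖ ^ 2) := fun k => (hT.smooth k).continuous.norm.pow 2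
  have hp := Sq.MsSM.smooth_pp hT n
  have him : ContDiff ℝ ∞ (fun z : ℂ => ((z.im : ℝ) : ℂ)) := contDiff_ofReal Complex.imCLM.contDiff
  have hW := him.mul hp
  have hWd : Continuous (dzb (fun w => ((w.im : ℝ) : ℂ) * Sq.pp G n w)) := (contDiff_dzb hW).continuous
  have hla : t ≤ la t n := Sq.MsSM.le_la n
  have e1 : Ed r (fun w => ((la t n * (‖G (n + 1) w‖ ^ 2 - ‖G n w‖ ^ 2) : ℝ) : ℂ)) z =
      Ed r (fun w => (-Complex.I) * dzb (fun w => ((w.im : ℝ) : ℂ) * Sq.pp G n w) w - 2 * Sq.pp G n w) z := by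
    apply Pl.Ed_congr
    intro u hu
    have h1 := Sq.MsSM.local_id hT n (hz u hu)
    obtain ⟨x, hx⟩ : ∃ x, x = lin r u z := ⟨_, rfl⟩
    rw [← hx] at h1 ⊢
    have h2 := dzb_mul (z := x) him hp
    rw [dzb_im'] at h2
    rw [h2]
    push_cast at h1 ⊢
    rw [h1]
    linear_combination (Sq.pp G n x) * Complex.I_sq
  rw [Pl.Ed_ofReal, Pl.Ed_sub (W₁ := fun w => (-Complex.I) * dzb (fun w => ((w.im : ℝ) : ℂ) * Sq.pp G n w) w)
      (W₂ := fun w => 2 * Sq.pp G n w) (continuous_const.mul hWd) (continuous_const.mul hp.continuous),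
    Pl.Ed_const_mul, Pl.Ed_const_mul, Pl.Ed_const_mulR, Pl.Ed_sub (hc _) (hc _)] at e1
  obtain ⟨D, hD⟩ : ∃ D, D = Ed r (fun w => ‖G (n + 1) w‖ ^ 2) z - Ed r (fun w => ‖G n w‖ ^ 2) z := ⟨_, rfl⟩
  obtain ⟨P, hP⟩ : ∃ P, P = Ed r (dzb (fun w => ((w.im : ℝ) : ℂ) * Sq.pp G n w)) z := ⟨_, rfl⟩
  obtain ⟨R, hR⟩ : ∃ R, R = Ed r (Sq.pp G n) z := ⟨_, rfl⟩
  rw [← hD, ← hP] at e1
  have e2 : Ed r (fun w => Sq.pp G n w) z = R := hR.symm
  rw [e2] at e1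
  rw [← hD, ← hP, ← hR]
  have h3 : ‖((la t n * D : ℝ) : ℂ)‖ ≤ ‖P‖ + 2 * ‖R‖ := by
    rw [e1]
    refine (norm_sub_le _ _).trans ?_
    rw [norm_mul, norm_mul, norm_neg, Complex.norm_I, one_mul, Complex.norm_ofNat]
  rw [Complex.norm_real, Real.norm_eq_abs, abs_mul, abs_of_nonneg (by linarith)] at h3
  have h4 : t * |D| ≤ ‖P‖ + 2 * ‖R‖ := (mul_le_mul_of_nonneg_right hla (abs_nonneg D)).trans h3
  have h5 : (t * |D|) ^ 2 ≤ (‖P‖ + 2 * ‖R‖) ^ 2 := pow_le_pow_left₀ (by positivity) h4 2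
  rw [mul_pow, sq_abs] at h5
  nlinarith [sq_nonneg (‖P‖ - 2 * ‖R‖)]

private lemma Ed_sum (r : ℝ) (S : Finset ℤ) (w : ℤ → ℝ) (F : ℤ → ℂ → ℝ) (hF : ∀ n, Continuous (F n)) (z : ℂ) :
    Ed r (fun z => ∑ n ∈ S, w n * F n z) z = ∑ n ∈ S, w n * Ed r (F n) z := by
  induction S using Finset.induction_on with
  | empty => simp [Ed]
  | insert k S hk ih =>
    have h1 : (fun z => ∑ n ∈ insert k S, w n * F n z) = fun z => w k * F k z + ∑ n ∈ S, w n * F n z := by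
      funext z
      rw [Finset.sum_insert hk]
    rw [h1, Pl.Ed_add (W₁ := fun z => w k * F k z) (W₂ := fun z => ∑ n ∈ S, w n * F n z)
      (continuous_const.mul (hF k)) (continuous_finsetSum _ fun n _ => continuous_const.mul (hF n)),
      Pl.Ed_const_mulR, ih, Finset.sum_insert hk]

/-- one step: `L²` bound -/
private lemma step (hE1 : Pl.StmtE1) (hE2 : StmtE2s) {V : Set ℂ} (hV : IsOpen V) (hVH : V ⊆ H0) {φ : ℂ → ℝ}
    (hφ : TestP V φ) : ∃ (ζ : ℂ → ℝ) (C r0 : ℝ), TestP V ζ ∧ 0 ≤ C ∧ 0 < r0 ∧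
      ∀ (t : ℝ) (G : ℤ → ℂ → ℂ), 1 ≤ t → Tow V t G → ∀ (N : ℕ) (B r : ℝ), Up ζ G (N + 1) B → 0 < r → r ≤ r0 →
        ∀ n : ℤ, |n| ≤ N + 1 → |n + 1| ≤ N + 1 →
        ∫ z, φ z * (Ed r (fun w => ‖G (n + 1) w‖ ^ 2) z - Ed r (fun w => ‖G n w‖ ^ 2) z) ^ 2 ≤
          C / (r * t) ^ 2 * B := by
  obtain ⟨ζ1, C1, r1, hζ1, hC1, hr1, h1⟩ := hE1 V hV hVH φ hφ.test hφ.nonneg
  obtain ⟨ζ2, C2, r2, hζ2, hC2, hr2, hr21, h2⟩ := hE2 V hV hVH φ hφ.test hφ.nonneg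
  obtain ⟨r3, hr3, h3⟩ := small hV hφ.test
  obtain ⟨ζ, hζ, hζ01, hone⟩ := exists_cutoff (hζ1.cpt.union hζ2.cpt) hV (union_subset hζ1.sub hζ2.sub)
  have hone' : ∀ z ∈ tsupport ζ1 ∪ tsupport ζ2, ζ z = 1 := fun z hz => subset_of_mem_nhdsSet hone hz
  obtain ⟨M1, hM1⟩ := hζ1.cpt.exists_bound_of_continuous hζ1.smooth.continuous
  have hζ2i : Continuous (fun z : ℂ => ζ2 z * z.im) := hζ2.smooth.continuous.mul Complex.continuous_im
  have hζ2c : HasCompactSupport (fun z : ℂ => ζ2 z * z.im) := hζ2.cpt.mul_right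
  obtain ⟨M2, hM2⟩ := hζ2c.exists_bound_of_continuous hζ2i
  obtain ⟨M, hM⟩ : ∃ M, M = M1 ^ 2 + M2 ^ 2 := ⟨_, rfl⟩
  have hM0 : 0 ≤ M := by rw [hM]; positivity
  have b1 : ∀ z, ζ1 z ^ 2 ≤ M * ζ z := by
    intro z
    by_cases hz : z ∈ tsupport ζ1
    · rw [hone' z (Or.inl hz), mul_one]
      have h4 : ζ1 z ^ 2 ≤ M1 ^ 2 := by
        rw [← sq_abs]
        exact pow_le_pow_left₀ (abs_nonneg _) (hM1 z) 2
      rw [hM]
      nlinarith [sq_nonneg M2]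
    · rw [image_eq_zero_of_notMem_tsupport hz]
      have : 0 ≤ M * ζ z := mul_nonneg hM0 (hζ01 z).1
      simpa using this
  have b2 : ∀ z, ζ2 z ^ 2 * z.im ^ 2 ≤ M * ζ z := by
    intro z
    by_cases hz : z ∈ tsupport ζ2
    · rw [hone' z (Or.inr hz), mul_one, ← mul_pow]
      have h4 : (ζ2 z * z.im) ^ 2 ≤ M2 ^ 2 := by
        rw [← sq_abs]
        exact pow_le_pow_left₀ (abs_nonneg _) (hM2 z) 2
      rw [hM]
      nlinarith [sq_nonneg M1]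
    · rw [image_eq_zero_of_notMem_tsupport hz]
      have : 0 ≤ M * ζ z := mul_nonneg hM0 (hζ01 z).1
      simpa using this
  refine ⟨ζ, (2 * C2 + 8 * C1) * M, min (min r1 r2) r3, ⟨hζ, fun z => (hζ01 z).1⟩, by positivity,
    lt_min (lt_min hr1 hr2) hr3, ?_⟩
  intro t G ht hT N B r hB hr hrr n hn hn1
  have hrr1 : r ≤ r1 := hrr.trans ((min_le_left _ _).trans (min_le_left _ _))
  have hrr2 : r ≤ r2 := hrr.trans ((min_le_left _ _).trans (min_le_right _ _))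
  have hrr3 : r ≤ r3 := hrr.trans (min_le_right _ _)
  have hr1' : r ≤ 1 := hrr2.trans hr21
  have hp := Sq.MsSM.smooth_pp hT n
  have him : ContDiff ℝ ∞ (fun z : ℂ => ((z.im : ℝ) : ℂ)) := contDiff_ofReal Complex.imCLM.contDiff
  have hW := him.mul hp
  have hWd : Continuous (dzb (fun w => ((w.im : ℝ) : ℂ) * Sq.pp G n w)) := (contDiff_dzb hW).continuous
  have hc : ∀ k : ℤ, Continuous (fun w => ‖G k w‖ ^ 2) := fun k => (hT.smooth k).continuous.norm.pow 2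
  -- integrate the pointwise inequality
  have hpt : ∀ z, t ^ 2 * (φ z * (Ed r (fun w => ‖G (n + 1) w‖ ^ 2) z - Ed r (fun w => ‖G n w‖ ^ 2) z) ^ 2) ≤
      2 * (φ z * ‖Ed r (dzb (fun w => ((w.im : ℝ) : ℂ) * Sq.pp G n w)) z‖ ^ 2) +
        8 * (φ z * ‖Ed r (Sq.pp G n) z‖ ^ 2) := by
    intro z
    by_cases hz : z ∈ tsupport φ
    · have h4 := mul_le_mul_of_nonneg_left (pt hT ht n (h3 r hr hrr3 z hz)) (hφ.nonneg z)
      calc _ = φ z * (t ^ 2 * (Ed r (fun w => ‖G (n + 1) w‖ ^ 2) z - Ed r (fun w => ‖G n w‖ ^ 2) z) ^ 2) := by ring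
        _ ≤ _ := h4
        _ = _ := by ring
    · rw [image_eq_zero_of_notMem_tsupport hz]
      simp
  have hcE : Continuous (fun z => (Ed r (fun w => ‖G (n + 1) w‖ ^ 2) z - Ed r (fun w => ‖G n w‖ ^ 2) z) ^ 2) :=
    ((Pl.continuous_Ed (hc _) r).sub (Pl.continuous_Ed (hc _) r)).pow 2
  have hi0 := Rel.integrable_testR hφ.test hcE
  have hi1 : Integrable (fun z => φ z * ‖Ed r (dzb (fun w => ((w.im : ℝ) : ℂ) * Sq.pp G n w)) z‖ ^ 2) :=
    Rel.integrable_testR hφ.test ((Pl.continuous_Ed hWd r).norm.pow 2)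
  have hi2 : Integrable (fun z => φ z * ‖Ed r (Sq.pp G n) z‖ ^ 2) :=
    Rel.integrable_testR hφ.test ((Pl.continuous_Ed hp.continuous r).norm.pow 2)
  have hint : t ^ 2 * (∫ z, φ z * (Ed r (fun w => ‖G (n + 1) w‖ ^ 2) z - Ed r (fun w => ‖G n w‖ ^ 2) z) ^ 2) ≤
      2 * (∫ z, φ z * ‖Ed r (dzb (fun w => ((w.im : ℝ) : ℂ) * Sq.pp G n w)) z‖ ^ 2) +
        8 * ∫ z, φ z * ‖Ed r (Sq.pp G n) z‖ ^ 2 := by
    rw [← integral_const_mul, ← integral_const_mul, ← integral_const_mul,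
      ← integral_add (hi1.const_mul 2) (hi2.const_mul 8)]
    exact integral_mono (hi0.const_mul _) ((hi1.const_mul 2).add (hi2.const_mul 8)) hpt
  -- the right hand sides
  have hζp : Integrable (fun z => ζ z * ‖Sq.pp G n z‖ ^ 2) := Rel.integrable_testR hζ (hp.continuous.norm.pow 2)
  have hi4 : ∀ k : ℤ, Integrable (fun z => ζ z * ‖G k z‖ ^ 4) := fun k =>
    Rel.integrable_testR hζ ((hT.smooth k).continuous.norm.pow 4)
  have hpB : ∫ z, ζ z * ‖Sq.pp G n z‖ ^ 2 ≤ B := by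
    have h4 : ∫ z, ζ z * ‖Sq.pp G n z‖ ^ 2 ≤ ∫ z, ((ζ z * ‖G (n + 1) z‖ ^ 4 + ζ z * ‖G n z‖ ^ 4) / 2) := by
      refine integral_mono hζp (((hi4 _).add (hi4 _)).div_const 2) fun z => ?_
      have h5 : ‖Sq.pp G n z‖ = ‖G (n + 1) z‖ * ‖G n z‖ := by
        unfold Sq.pp
        rw [norm_mul, RCLike.norm_conj]
      simp only [h5]
      have h6 : (‖G (n + 1) z‖ * ‖G n z‖) ^ 2 ≤ (‖G (n + 1) z‖ ^ 4 + ‖G n z‖ ^ 4) / 2 := by
        nlinarith [sq_nonneg (‖G (n + 1) z‖ ^ 2 - ‖G n z‖ ^ 2)]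
      calc ζ z * (‖G (n + 1) z‖ * ‖G n z‖) ^ 2 ≤ ζ z * ((‖G (n + 1) z‖ ^ 4 + ‖G n z‖ ^ 4) / 2) :=
            mul_le_mul_of_nonneg_left h6 (hζ01 z).1
        _ = _ := by ring
    rw [integral_div, integral_add (hi4 _) (hi4 _)] at h4
    have h7 := hB (n + 1) (by exact_mod_cast hn1)
    have h8 := hB n (by exact_mod_cast hn)
    linarith
  have c1 : ∫ z, ζ1 z ^ 2 * ‖Sq.pp G n z‖ ^ 2 ≤ M * B := by
    have h4 : ∫ z, ζ1 z ^ 2 * ‖Sq.pp G n z‖ ^ 2 ≤ ∫ z, M * (ζ z * ‖Sq.pp G n z‖ ^ 2) := by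
      refine integral_mono ?_ (hζp.const_mul M) fun z => ?_
      · have h5 := Rel.integrable_testR hζ1 (hζ1.smooth.continuous.mul (hp.continuous.norm.pow 2))
        refine h5.congr (Eventually.of_forall fun w => ?_)
        simp only [Pi.mul_apply, Pi.pow_apply]
        ring
      · have := mul_le_mul_of_nonneg_right (b1 z) (sq_nonneg ‖Sq.pp G n z‖)
        calc ζ1 z ^ 2 * ‖Sq.pp G n z‖ ^ 2 ≤ M * ζ z * ‖Sq.pp G n z‖ ^ 2 := this
          _ = _ := by ring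
    rw [integral_const_mul] at h4
    exact h4.trans (mul_le_mul_of_nonneg_left hpB hM0)
  have c2 : ∫ z, ζ2 z ^ 2 * ‖((z.im : ℝ) : ℂ) * Sq.pp G n z‖ ^ 2 ≤ M * B := by
    have h4 : ∫ z, ζ2 z ^ 2 * ‖((z.im : ℝ) : ℂ) * Sq.pp G n z‖ ^ 2 ≤ ∫ z, M * (ζ z * ‖Sq.pp G n z‖ ^ 2) := by
      refine integral_mono ?_ (hζp.const_mul M) fun z => ?_
      · have h5 := Rel.integrable_testR hζ2 (hζ2.smooth.continuous.mul (hW.continuous.norm.pow 2))
        refine h5.congr (Eventually.of_forall fun w => ?_)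
        simp only [Pi.mul_apply, Pi.pow_apply]
        ring
      · have h6 : ‖((z.im : ℝ) : ℂ) * Sq.pp G n z‖ ^ 2 = z.im ^ 2 * ‖Sq.pp G n z‖ ^ 2 := by
          rw [norm_mul, mul_pow, Complex.norm_real, Real.norm_eq_abs, sq_abs]
        have := mul_le_mul_of_nonneg_right (b2 z) (sq_nonneg ‖Sq.pp G n z‖)
        simp only [h6]
        calc ζ2 z ^ 2 * (z.im ^ 2 * ‖Sq.pp G n z‖ ^ 2) = ζ2 z ^ 2 * z.im ^ 2 * ‖Sq.pp G n z‖ ^ 2 := by ring
          _ ≤ M * ζ z * ‖Sq.pp G n z‖ ^ 2 := this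
          _ = _ := by ring
    rw [integral_const_mul] at h4
    exact h4.trans (mul_le_mul_of_nonneg_left hpB hM0)
  have d1 := h1 r hr hrr1 (Sq.pp G n) hp.continuous
  have d2 := h2 r hr hrr2 (fun w => ((w.im : ℝ) : ℂ) * Sq.pp G n w) hW
  have d3 : C1 * ∫ z, ζ1 z ^ 2 * ‖Sq.pp G n z‖ ^ 2 ≤ C1 * (M * B) := mul_le_mul_of_nonneg_left c1 hC1
  have d4 : C2 / r ^ 2 * ∫ z, ζ2 z ^ 2 * ‖((z.im : ℝ) : ℂ) * Sq.pp G n z‖ ^ 2 ≤ C2 / r ^ 2 * (M * B) :=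
    mul_le_mul_of_nonneg_left c2 (by positivity)
  have hB0 : 0 ≤ B := by
    refine le_trans ?_ hpB
    exact integral_nonneg fun z => mul_nonneg (hζ01 z).1 (sq_nonneg _)
  have d5 : C1 * (M * B) ≤ C1 / r ^ 2 * (M * B) := by
    apply mul_le_mul_of_nonneg_right _ (mul_nonneg hM0 hB0)
    rw [le_div_iff₀ (by positivity)]
    have : r ^ 2 ≤ 1 := pow_le_one₀ hr.le hr1'
    calc C1 * r ^ 2 ≤ C1 * 1 := mul_le_mul_of_nonneg_left this hC1
      _ = C1 := mul_one _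
  have d6 : t ^ 2 * (∫ z, φ z * (Ed r (fun w => ‖G (n + 1) w‖ ^ 2) z - Ed r (fun w => ‖G n w‖ ^ 2) z) ^ 2) ≤
      (2 * C2 + 8 * C1) * M / r ^ 2 * B := by
    have : (2 * C2 + 8 * C1) * M / r ^ 2 * B = 2 * (C2 / r ^ 2 * (M * B)) + 8 * (C1 / r ^ 2 * (M * B)) := by ring
    rw [this]
    linarith
  have ht2 : 0 < t ^ 2 := by positivity
  have d7 : (2 * C2 + 8 * C1) * M / (r * t) ^ 2 * B = (2 * C2 + 8 * C1) * M / r ^ 2 * B / t ^ 2 := by
    field_simp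
  rw [d7, le_div_iff₀ ht2]
  linarith

end MfSM

open MfSM in
theorem stmtMfS (hE1 : Pl.StmtE1) (hE2 : StmtE2s) : StmtMfS := by
  intro V hV hVH φ hφ
  obtain ⟨ζ, C, r0, hζ, hC, hr0, hstep⟩ := step hE1 hE2 hV hVH hφ
  refine ⟨ζ, C, r0, hζ, hC, hr0, ?_⟩
  intro t G ht hT N B r w hN hB hr hrr hw hw1
  have hc : ∀ k : ℤ, Continuous (fun w => ‖G k w‖ ^ 2) := fun k => (hT.smooth k).continuous.norm.pow 2
  obtain ⟨E, hE⟩ : ∃ E, E = C / (r * t) ^ 2 * B := ⟨_, rfl⟩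
  have hst : ∀ n : ℤ, |n| ≤ N + 1 → |n + 1| ≤ N + 1 →
      ∫ z, φ z * (Ed r (fun w => ‖G (n + 1) w‖ ^ 2) z - Ed r (fun w => ‖G n w‖ ^ 2) z) ^ 2 ≤ E := by
    intro n h1 h2
    rw [hE]
    exact hstep t G ht hT N B r hB hr hrr n h1 h2
  obtain ⟨v, hv⟩ : ∃ v : ℤ → ℂ → ℝ, v = fun n => Ed r (fun w => ‖G n w‖ ^ 2) := ⟨_, rfl⟩
  have hvc : ∀ n, Continuous (v n) := by
    intro n
    rw [hv]
    exact Pl.continuous_Ed (hc n) r
  have hvneg : ∀ n, v (-n) = v n := by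
    intro n
    rw [hv]
    have : (fun w => ‖G (-n) w‖ ^ 2) = fun w => ‖G n w‖ ^ 2 := by
      funext z
      rw [hT.neg n z, norm_mul, norm_zpow, norm_neg, norm_one, one_zpow, one_mul, RCLike.norm_conj]
    simp only [this]
  have hst' : ∀ n : ℤ, |n| ≤ N + 1 → |n + 1| ≤ N + 1 →
      ∫ z, φ z * (v (n + 1) z - v n z) ^ 2 ≤ E := by
    intro n h1 h2
    rw [hv]
    exact hst n h1 h2
  have hint : ∀ n m : ℤ, Integrable (fun z => φ z * (v n z - v m z) ^ 2) := fun n m =>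
    Rel.integrable_testR hφ.test (((hvc n).sub (hvc m)).pow 2)
  have hE0 : 0 ≤ E := by
    refine le_trans ?_ (hst' 0 (by simp; positivity) (by simp))
    exact integral_nonneg fun z => mul_nonneg (hφ.nonneg z) (sq_nonneg _)
  -- telescoping
  have htel : ∀ k : ℕ, k ≤ N → ∫ z, φ z * (v 0 z - v k z) ^ 2 ≤ (N : ℝ) ^ 2 * E := by
    intro k hk
    have h1 : ∀ z, φ z * (v 0 z - v k z) ^ 2 ≤
        ∑ j ∈ Finset.range k, (k : ℝ) * (φ z * (v ((j : ℤ) + 1) z - v j z) ^ 2) := by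
      intro z
      have h2 : v k z - v 0 z = ∑ j ∈ Finset.range k, (v ((j : ℤ) + 1) z - v j z) := by
        have := Finset.sum_range_sub (fun j : ℕ => v (j : ℤ) z) k
        push_cast at this
        exact this.symm
      have h3 : (v 0 z - v k z) ^ 2 = (∑ j ∈ Finset.range k, (v ((j : ℤ) + 1) z - v j z)) ^ 2 := by
        rw [← h2]
        ring
      have h4 := sq_sum_le_card_mul_sum_sq (s := Finset.range k) (f := fun j : ℕ => v ((j : ℤ) + 1) z - v j z)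
      rw [Finset.card_range] at h4
      rw [h3]
      refine (mul_le_mul_of_nonneg_left h4 (hφ.nonneg z)).trans ?_
      rw [Finset.mul_sum, Finset.mul_sum]
      exact (Finset.sum_congr rfl fun j _ => by ring).le
    have h5 : ∫ z, φ z * (v 0 z - v k z) ^ 2 ≤
        ∫ z, ∑ j ∈ Finset.range k, (k : ℝ) * (φ z * (v ((j : ℤ) + 1) z - v j z) ^ 2) :=
      integral_mono (hint 0 k) (integrable_finsetSum _ fun j _ => (hint _ _).const_mul _) h1
    rw [integral_finsetSum _ fun j _ => (hint _ _).const_mul _] at h5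
    have h6 : ∑ j ∈ Finset.range k, ∫ z, (k : ℝ) * (φ z * (v ((j : ℤ) + 1) z - v j z) ^ 2) ≤
        ∑ _j ∈ Finset.range k, (k : ℝ) * E := by
      apply Finset.sum_le_sum
      intro j hj
      rw [Finset.mem_range] at hj
      rw [integral_const_mul]
      apply mul_le_mul_of_nonneg_left _ (Nat.cast_nonneg k)
      apply hst'
      · rw [abs_of_nonneg (by positivity)]
        have : j ≤ N := by omega
        have : (j : ℤ) ≤ N := by exact_mod_cast this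
        linarith
      · rw [abs_of_nonneg (by positivity)]
        have : j ≤ N := by omega
        have : (j : ℤ) ≤ N := by exact_mod_cast this
        linarith
    rw [Finset.sum_const, Finset.card_range, nsmul_eq_mul] at h6
    have h7 : (k : ℝ) * (k * E) ≤ (N : ℝ) ^ 2 * E := by
      have h8 : (k : ℝ) ≤ N := by exact_mod_cast hk
      have h9 : (k : ℝ) * k ≤ (N : ℝ) ^ 2 := by
        rw [pow_two]
        exact mul_le_mul h8 h8 (Nat.cast_nonneg k) (Nat.cast_nonneg N)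
      calc (k : ℝ) * (k * E) = (k * k : ℝ) * E := by ring
        _ ≤ _ := mul_le_mul_of_nonneg_right h9 hE0
    linarith
  have htel' : ∀ n : ℤ, |n| ≤ N → ∫ z, φ z * (v 0 z - v n z) ^ 2 ≤ (N : ℝ) ^ 2 * E := by
    intro n hn
    obtain ⟨k, rfl | rfl⟩ := Int.eq_nat_or_neg n
    · apply htel k
      rw [Nat.abs_cast] at hn
      exact_mod_cast hn
    · rw [hvneg]
      apply htel k
      rw [abs_neg, Nat.abs_cast] at hn
      exact_mod_cast hn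
  -- the mean of S
  have hS : ∀ z, Ed r (fun z => ∑ n ∈ Finset.Icc (-(N : ℤ)) N, w n * ‖G n z‖ ^ 2) z =
      ∑ n ∈ Finset.Icc (-(N : ℤ)) N, w n * v n z := by
    intro z
    rw [hv]
    exact Ed_sum r _ w (fun n z => ‖G n z‖ ^ 2) hc z
  have h0 : ∀ z, Ed r (fun z => ‖G 0 z‖ ^ 2) z = v 0 z := by
    intro z
    rw [hv]
  simp only [hS, h0]
  have hpt : ∀ z, φ z * (v 0 z - ∑ n ∈ Finset.Icc (-(N : ℤ)) N, w n * v n z) ^ 2 ≤
      ∑ n ∈ Finset.Icc (-(N : ℤ)) N, w n * (φ z * (v 0 z - v n z) ^ 2) := by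
    intro z
    have h1 : v 0 z - ∑ n ∈ Finset.Icc (-(N : ℤ)) N, w n * v n z =
        ∑ n ∈ Finset.Icc (-(N : ℤ)) N, w n * (v 0 z - v n z) := by
      simp only [mul_sub]
      rw [Finset.sum_sub_distrib, ← Finset.sum_mul, hw1, one_mul]
    have h2 := Real.pow_arith_mean_le_arith_mean_pow_of_even (Finset.Icc (-(N : ℤ)) N) w
      (fun n => v 0 z - v n z) (fun n _ => hw n) hw1 (n := 2) even_two
    rw [h1]
    refine (mul_le_mul_of_nonneg_left h2 (hφ.nonneg z)).trans ?_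
    rw [Finset.mul_sum]
    exact (Finset.sum_congr rfl fun n _ => by ring).le
  have hcS : Continuous (fun z => (v 0 z - ∑ n ∈ Finset.Icc (-(N : ℤ)) N, w n * v n z) ^ 2) :=
    ((hvc 0).sub (continuous_finsetSum _ fun n _ => continuous_const.mul (hvc n))).pow 2
  have h3 : ∫ z, φ z * (v 0 z - ∑ n ∈ Finset.Icc (-(N : ℤ)) N, w n * v n z) ^ 2 ≤
      ∫ z, ∑ n ∈ Finset.Icc (-(N : ℤ)) N, w n * (φ z * (v 0 z - v n z) ^ 2) :=
    integral_mono (Rel.integrable_testR hφ.test hcS)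
      (integrable_finsetSum _ fun n _ => (hint _ _).const_mul _) hpt
  rw [integral_finsetSum _ fun n _ => (hint _ _).const_mul _] at h3
  have h4 : ∑ n ∈ Finset.Icc (-(N : ℤ)) N, ∫ z, w n * (φ z * (v 0 z - v n z) ^ 2) ≤
      ∑ n ∈ Finset.Icc (-(N : ℤ)) N, w n * ((N : ℝ) ^ 2 * E) := by
    apply Finset.sum_le_sum
    intro n hn
    rw [integral_const_mul]
    rw [Finset.mem_Icc] at hn
    exact mul_le_mul_of_nonneg_left (htel' n (abs_le.2 hn)) (hw n)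
  rw [← Finset.sum_mul, hw1, one_mul] at h4
  have h5 : (N : ℝ) ^ 2 * E = C * ((N : ℝ) / (r * t)) ^ 2 * B := by
    rw [hE, div_pow]
    ring
  rw [← h5]
  exact h3.trans h4

end

end Pool.Agent.A54.Hp
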