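import Pool.Agent.Lib.MP_a54f13_nt.Hp.SpecC
import Pool.Agent.Lib.MP_a54f13_nt.Sq.MsS
import Pool.Agent.Lib.MP_a54f13_nt.Half
import Pool.Agent.Lib.MP_a54f13_nt.IntLap

/-!
# Package `Hp`, module `MsW`: the mass of `S`
-/

set_option autoImplicit false

namespace Pool.Agent.A54.Hp

open MeasureTheory Filter Topology Set
open scoped ContDiff ComplexConjugate UpperHalfPlane MatrixGroups ENNReal
open Pool.Agent.A54.Half (H0)
open Pool.Agent.A54.Sq (la TestP Tow)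

noncomputable section

namespace MsWM

/-- the trace of a compact set on the half-plane -/
lemma isCompact_pre {K : Set ℂ} (hK : IsCompact K) (hs : K ⊆ H0) :
    IsCompact {z : ℍ | (z : ℂ) ∈ K} := by
  have h : K ⊆ Set.range UpperHalfPlane.coe := by
    rw [IntLap.range_coe_eq]
    exact hs
  exact (UpperHalfPlane.isOpenEmbedding_coe.isInducing.isCompact_preimage_iff h).2 hK

/-- integrals over the half-plane, comparison -/
lemma mass_le (hLh : StmtLh) {V : Set ℂ} (hVH : V ⊆ H0) {ζ : ℂ → ℝ} (hζ : TestP V ζ) {D C : ℝ}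
    (hD : ∀ z, z.im ^ 2 * ζ z ≤ D) (hD0 : 0 ≤ D) (hC0 : 0 ≤ C) {H Gn : ℂ → ℂ} (hGc : Continuous Gn)
    (hle : ∀ z, ‖Gn z‖ ≤ ‖H z‖)
    (hC : ∫⁻ z in {z : ℍ | (z : ℂ) ∈ tsupport ζ}, ‖H (z : ℂ)‖ₑ ^ 2 ≤ ENNReal.ofReal C) :
    ∫ z, ζ z * ‖Gn z‖ ^ 2 ≤ D * C := by
  have hsup : tsupport ζ ⊆ H0 := hζ.test.sub.trans hVH
  have hnn : ∀ z, 0 ≤ ζ z * ‖Gn z‖ ^ 2 := fun z => mul_nonneg (hζ.nonneg z) (by positivity)
  have hcont : Continuous fun z => ζ z * ‖Gn z‖ ^ 2 :=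
    hζ.test.smooth.continuous.mul (hGc.norm.pow 2)
  rw [integral_eq_lintegral_of_nonneg_ae (Eventually.of_forall hnn) hcont.aestronglyMeasurable]
  refine ENNReal.toReal_le_of_le_ofReal (mul_nonneg hD0 hC0) ?_
  have hFm : Measurable fun z : ℂ => ENNReal.ofReal (z.im ^ 2 * (ζ z * ‖Gn z‖ ^ 2)) :=
    (((Complex.continuous_im.pow 2).mul hcont).measurable).ennreal_ofReal
  have h1 := hLh _ hFm
  have hH0m : MeasurableSet {z : ℂ | 0 < z.im} := Half.isOpen_H0.measurableSet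
  have h2 : ∫⁻ z in {z : ℂ | 0 < z.im}, ENNReal.ofReal (1 / z.im ^ 2) *
      ENNReal.ofReal (z.im ^ 2 * (ζ z * ‖Gn z‖ ^ 2)) =
      ∫⁻ z, ENNReal.ofReal (ζ z * ‖Gn z‖ ^ 2) := by
    rw [← lintegral_indicator hH0m]
    refine lintegral_congr fun z => ?_
    by_cases hz : z ∈ {z : ℂ | 0 < z.im}
    · rw [Set.indicator_of_mem hz]
      have hz0 : (0 : ℝ) < z.im := hz
      rw [← ENNReal.ofReal_mul (by positivity)]
      congr 1
      field_simp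
    · rw [Set.indicator_of_notMem hz]
      have h3 : ζ z = 0 := image_eq_zero_of_notMem_tsupport fun h => hz (hsup h)
      rw [h3, zero_mul, ENNReal.ofReal_zero]
  rw [← h2, ← h1]
  have hKm : MeasurableSet {z : ℍ | (z : ℂ) ∈ tsupport ζ} :=
    (isClosed_tsupport ζ).measurableSet.preimage UpperHalfPlane.measurableEmbedding_coe.measurable
  calc ∫⁻ z : ℍ, ENNReal.ofReal ((z : ℂ).im ^ 2 * (ζ z * ‖Gn z‖ ^ 2))
      ≤ ∫⁻ z : ℍ, {z : ℍ | (z : ℂ) ∈ tsupport ζ}.indicator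
          (fun z : ℍ => ENNReal.ofReal D * ‖H (z : ℂ)‖ₑ ^ 2) z := by
        refine lintegral_mono fun z => ?_
        by_cases hz : z ∈ {z : ℍ | (z : ℂ) ∈ tsupport ζ}
        · rw [Set.indicator_of_mem hz]
          have e1 : ‖H (z : ℂ)‖ₑ ^ 2 = ENNReal.ofReal (‖H (z : ℂ)‖ ^ 2) := by
            rw [← ofReal_norm, ENNReal.ofReal_pow (norm_nonneg _)]
          rw [e1, ← ENNReal.ofReal_mul hD0]
          apply ENNReal.ofReal_le_ofReal
          have h3 : ‖Gn (z : ℂ)‖ ^ 2 ≤ ‖H (z : ℂ)‖ ^ 2 :=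
            pow_le_pow_left₀ (norm_nonneg _) (hle _) 2
          calc (z : ℂ).im ^ 2 * (ζ z * ‖Gn z‖ ^ 2) = ((z : ℂ).im ^ 2 * ζ z) * ‖Gn z‖ ^ 2 := by ring
            _ ≤ D * ‖H (z : ℂ)‖ ^ 2 := mul_le_mul (hD _) h3 (by positivity) hD0
        · rw [Set.indicator_of_notMem hz]
          have h3 : ζ (z : ℂ) = 0 := image_eq_zero_of_notMem_tsupport hz
          simp [h3]
    _ = ENNReal.ofReal D * ∫⁻ z in {z : ℍ | (z : ℂ) ∈ tsupport ζ}, ‖H (z : ℂ)‖ₑ ^ 2 := by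
        rw [lintegral_indicator hKm, lintegral_const_mul' _ _ ENNReal.ofReal_ne_top]
    _ ≤ ENNReal.ofReal D * ENNReal.ofReal C := by gcongr
    _ = ENNReal.ofReal (D * C) := (ENNReal.ofReal_mul hD0).symm

end MsWM

open MsWM in
/-- **MsW** the mass of `S` -/
theorem stmtMsW (hTwG : StmtTwG) (hTwc : StmtTwc) (hMss : StmtMss) (hLh : StmtLh) : StmtMsW := by
  intro φ hφ
  -- the cutoff
  obtain ⟨χ, hχ, hχ01, hone⟩ := exists_cutoff hφ.cpt.isCompact Half.isOpen_H0 hφ.sub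
  obtain ⟨V, hVdef⟩ : ∃ V : Set ℂ, V = interior {z | χ z = 1} := ⟨_, rfl⟩
  have hVo : IsOpen V := by
    rw [hVdef]
    exact isOpen_interior
  have hV1 : ∀ z ∈ V, χ z = 1 := by
    intro z hz
    rw [hVdef] at hz
    exact (show z ∈ {z | χ z = 1} from interior_subset hz)
  have hVH : V ⊆ H0 := by
    intro z hz
    by_contra h
    have h1 := hV1 z hz
    rw [hχ.eq_zero h] at h1
    exact zero_ne_one h1
  have hsV : tsupport φ ⊆ V := by
    rw [hVdef]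
    exact subset_interior_iff_mem_nhdsSet.2 hone
  -- the test function on the plane
  obtain ⟨φ₁, hφ₁d⟩ : ∃ φ₁ : ℂ → ℝ, φ₁ = fun z => φ z * ((z.im)⁻¹) ^ 2 := ⟨_, rfl⟩
  have hφ₁ : TestR V φ₁ := by
    have h1 : TestR V φ := ⟨hφ.smooth, hφ.cpt, hsV⟩
    rw [hφ₁d]
    exact Half.testR_mul Half.isOpen_H0 h1 hφ.sub (Half.contDiffOn_weight 2)
  obtain ⟨ζ, C₁, hζ, hC₁, hstep⟩ := Sq.MsSM.step hVo hφ₁
  -- the bound of `y² ζ`
  have hc2 : Continuous fun z : ℂ => z.im ^ 2 * ζ z :=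
    (Complex.continuous_im.pow 2).mul hζ.test.smooth.continuous
  obtain ⟨D₀, hD₀⟩ := hζ.test.cpt.isCompact.exists_bound_of_continuousOn hc2.continuousOn
  have hD : ∀ z : ℂ, z.im ^ 2 * ζ z ≤ max D₀ 0 := by
    intro z
    by_cases hz : z ∈ tsupport ζ
    · exact ((le_abs_self _).trans (hD₀ z hz)).trans (le_max_left _ _)
    · rw [image_eq_zero_of_notMem_tsupport hz, mul_zero]
      exact le_max_right _ _
  obtain ⟨C₂, hC₂, hmass⟩ := hMss {z : ℍ | (z : ℂ) ∈ tsupport ζ}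
    (isCompact_pre hζ.test.cpt.isCompact (hζ.test.sub.trans hVH))
  obtain ⟨D, hDd⟩ : ∃ D : ℝ, D = max D₀ 0 := ⟨_, rfl⟩
  rw [← hDd] at hD
  have hDnn : 0 ≤ D := by
    rw [hDd]
    exact le_max_right _ _
  refine ⟨C₁ * (D * C₂), by positivity, ?_⟩
  intro f t hf ht N w hw hw1
  have hT : Tow V t (fun n z => (χ z : ℂ) * Gf f t n z) := hTwc χ V hχ hVo hVH hV1 f t hf
  have hM : ∀ n : ℤ, ∫ z, ζ z * ‖(χ z : ℂ) * Gf f t n z‖ ^ 2 ≤ D * C₂ := by
    intro n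
    refine mass_le hLh hVH hζ hD hDnn hC₂ (H := Gf f t n) (hT.smooth n).continuous ?_
      (hmass f t hf n)
    intro z
    rw [norm_mul, Complex.norm_real, Real.norm_of_nonneg (hχ01 z).1]
    have h1 := mul_le_mul_of_nonneg_right (hχ01 z).2 (norm_nonneg (Gf f t n z))
    rw [one_mul] at h1
    exact h1
  obtain ⟨a, had⟩ : ∃ a : ℤ → ℝ, a = fun n => ∫ z, φ₁ z * ‖(χ z : ℂ) * Gf f t n z‖ ^ 2 :=
    ⟨_, rfl⟩
  have hneg : ∀ n, a (-n) = a n := by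
    intro n
    rw [had]
    show ∫ z, φ₁ z * ‖(χ z : ℂ) * Gf f t (-n) z‖ ^ 2 = ∫ z, φ₁ z * ‖(χ z : ℂ) * Gf f t n z‖ ^ 2
    congr 1
    funext z
    rw [(hTwG f t hf n).2.2.2.1 z, norm_mul, norm_mul, norm_mul, norm_zpow, norm_neg, norm_one,
      one_zpow, one_mul, RCLike.norm_conj]
  have hst : ∀ n, |a (n + 1) - a n| ≤ C₁ * (D * C₂) / t := by
    intro n
    rw [had]
    exact hstep t _ ht hT (D * C₂) hM n
  have htel := Sq.MsSM.tele hst hneg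
  -- the integrals over the half-plane
  have hin : ∀ n : ℤ, Integrable fun z => φ₁ z * ‖(χ z : ℂ) * Gf f t n z‖ ^ 2 := fun n =>
    (hφ₁.smooth.continuous.mul ((hT.smooth n).continuous.norm.pow 2)).integrable_of_hasCompactSupport
      hφ₁.cpt.mul_right
  have hpt : ∀ (n : ℤ) (z : ℂ), (1 / z.im ^ 2 : ℝ) * (φ z * ‖Gf f t n z‖ ^ 2) =
      φ₁ z * ‖(χ z : ℂ) * Gf f t n z‖ ^ 2 := by
    intro n z
    rw [hφ₁d]
    by_cases hz : z ∈ V
    · simp only [hV1 z hz, Complex.ofReal_one, one_mul]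
      rw [inv_pow, one_div]
      ring
    · have h1 : φ z = 0 := image_eq_zero_of_notMem_tsupport fun h => hz (hsV h)
      simp [h1]
  have hI1 : ∫ z : ℍ, φ z * Sw f t N w z = ∑ n ∈ Finset.Icc (-(N : ℤ)) N, w n * a n := by
    have e1 : ∫ z : ℍ, φ z * Sw f t N w z =
        ∫ z : ℂ, (1 / z.im ^ 2 : ℝ) • (φ z * ∑ n ∈ Finset.Icc (-(N : ℤ)) N,
          w n * ‖Gf f t n z‖ ^ 2) := by
      rw [← IntLap.int_gen']
      · rfl
      · intro z hz
        have h1 : φ z = 0 := hφ.eq_zero fun h => absurd hz (not_le.2 h)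
        rw [h1, zero_mul]
    rw [e1]
    have e2 : ∀ z : ℂ, (1 / z.im ^ 2 : ℝ) • (φ z * ∑ n ∈ Finset.Icc (-(N : ℤ)) N,
        w n * ‖Gf f t n z‖ ^ 2) =
        ∑ n ∈ Finset.Icc (-(N : ℤ)) N, w n * (φ₁ z * ‖(χ z : ℂ) * Gf f t n z‖ ^ 2) := by
      intro z
      rw [smul_eq_mul, Finset.mul_sum, Finset.mul_sum]
      refine Finset.sum_congr rfl fun n _ => ?_
      rw [← hpt]
      ring
    simp only [e2]
    rw [integral_finsetSum _ fun n _ => (hin n).const_mul _, had]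
    refine Finset.sum_congr rfl fun n _ => ?_
    rw [integral_const_mul]
  have hI0 : ∫ z : ℍ, φ z * f z ^ 2 = a 0 := by
    have e1 : ∫ z : ℍ, φ z * f z ^ 2 = ∫ z : ℍ, (fun z : ℂ => φ z * ‖Gf f t 0 z‖ ^ 2) z := by
      refine integral_congr_ae (Eventually.of_forall fun z => ?_)
      show φ z * f z ^ 2 = φ z * ‖Gf f t 0 (z : ℂ)‖ ^ 2
      rw [(hTwG f t hf 0).2.2.2.2.1 z, Half.ext_coe, Complex.norm_real, Real.norm_eq_abs, sq_abs]
    have e2 := IntLap.int_gen' (fun z : ℂ => φ z * ‖Gf f t 0 z‖ ^ 2) (by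
      intro z hz
      have h1 : φ z = 0 := hφ.eq_zero fun h => absurd hz (not_le.2 h)
      show φ z * ‖Gf f t 0 z‖ ^ 2 = 0
      rw [h1, zero_mul])
    refine e1.trans (e2.trans ?_)
    rw [had]
    refine integral_congr_ae (Eventually.of_forall fun z => ?_)
    show (1 / z.im ^ 2 : ℝ) • (φ z * ‖Gf f t 0 z‖ ^ 2) = φ₁ z * ‖(χ z : ℂ) * Gf f t 0 z‖ ^ 2
    rw [smul_eq_mul, hpt]
  have h0 : a 0 = ∑ n ∈ Finset.Icc (-(N : ℤ)) N, w n * a 0 := by
    rw [← Finset.sum_mul, hw1, one_mul]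
  have hdiff : (∫ z : ℍ, φ z * Sw f t N w z) - ∫ z : ℍ, φ z * f z ^ 2 =
      ∑ n ∈ Finset.Icc (-(N : ℤ)) N, w n * (a n - a 0) := by
    rw [hI1, hI0]
    conv_lhs => rw [h0]
    rw [← Finset.sum_sub_distrib]
    refine Finset.sum_congr rfl fun n _ => ?_
    ring
  have ht0 : 0 < t := by linarith
  have hq : 0 ≤ C₁ * (D * C₂) / t := by positivity
  rw [hdiff]
  calc |∑ n ∈ Finset.Icc (-(N : ℤ)) N, w n * (a n - a 0)|
      ≤ ∑ n ∈ Finset.Icc (-(N : ℤ)) N, |w n * (a n - a 0)| := Finset.abs_sum_le_sum_abs _ _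
    _ ≤ ∑ n ∈ Finset.Icc (-(N : ℤ)) N, w n * (N * (C₁ * (D * C₂) / t)) := by
        refine Finset.sum_le_sum fun n hn => ?_
        rw [abs_mul, abs_of_nonneg (hw n)]
        refine mul_le_mul_of_nonneg_left ?_ (hw n)
        refine (htel n).trans (mul_le_mul_of_nonneg_right ?_ hq)
        rw [Finset.mem_Icc] at hn
        have h6 : |n| ≤ (N : ℤ) := abs_le.2 hn
        have h7 : ((|n| : ℤ) : ℝ) ≤ (((N : ℤ) : ℤ) : ℝ) := by exact_mod_cast h6
        push_cast at h7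
        exact h7
    _ = C₁ * (D * C₂) * N / t := by
        rw [← Finset.sum_mul, hw1, one_mul]
        ring

end

end Pool.Agent.A54.Hp
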