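import Pool.Agent.Lib.MP_a54f13_nt.Hp.SpecA
import Pool.Agent.Lib.MP_a54f13_nt.Av.SpecA
import Pool.Agent.Lib.MP_a54f13_nt.Pl.U1

/-!
# Package `Hp`, module `Mss`: masses on compact sets
-/

set_option autoImplicit false

namespace Pool.Agent.A54.Hp

open MeasureTheory Filter Topology Set
open scoped ContDiff ComplexConjugate UpperHalfPlane MatrixGroups ENNReal
open Pool.Agent.A54.Dyn (G fl base ze io mk4 dom)
open Pool.Agent.A54.Dyn.LiftM (Sct XC XX cc rot m0)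
open Pool.Agent.A54.Av (Mat NonSc)
open Pool.Agent.A54.Half (H0)

noncomputable section

namespace MssM

/-- the absolute value of the tower is invariant -/
lemma inv {f : ℍ → ℝ} {t : ℝ} {n : ℤ}
    (h : ∀ (γ : SL(2, ℤ)) (g : G), Ff f t n (io γ * g) = Ff f t n g) (γ : SL(2, ℤ)) (z : ℍ) :
    ‖Gf f t n ((γ • z : ℍ) : ℂ)‖ = ‖Gf f t n (z : ℂ)‖ := by
  have h1 := congrArg (fun w : ℂ => ‖w‖) (h γ (Sct (z, 0)))
  have h2 : base (io γ * Sct (z, 0)) = γ • z := by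
    rw [Dyn.base_mul, Dyn.LiftM.base_Sct]
    rfl
  unfold Ff at h1
  simp only [norm_mul, norm_zpow, Dyn.norm_ze, one_zpow, one_mul] at h1
  rw [h2, Dyn.LiftM.base_Sct] at h1
  exact h1

/-- a compact set meets finitely many translates of the fundamental domain -/
lemma fin_tr {K : Set ℍ} (hK : IsCompact K) : ∃ s : Finset SL(2, ℤ), ∀ z ∈ ModularGroup.fdo,
    ∀ γ : SL(2, ℤ), γ • z ∈ K → γ ∈ s := by
  obtain ⟨R, y0, M, hR, hy0, h⟩ := Pl.U1M.compact_strip hK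
  have hf := Pl.U1M.fin_strip (max R (1 / 2)) (min y0 (1 / 2)) (hR.trans (le_max_left _ _))
    (lt_min hy0 (by norm_num))
  refine ⟨hf.toFinset, fun z hz γ hγ => ?_⟩
  rw [Set.Finite.mem_toFinset]
  obtain ⟨h1, h2, -⟩ := h _ hγ
  have hz1 : |z.re| ≤ 1 / 2 := hz.2.le
  have hz2 : 1 / 2 ≤ z.im := by
    have hv := ModularGroup.three_le_four_mul_im_sq_of_mem_fd (ModularGroup.fdo_subset_fd hz)
    have hvpos := z.im_pos
    nlinarith
  exact ⟨z, ⟨hz1.trans (le_max_right _ _), (min_le_right _ _).trans hz2⟩,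
    h1.trans (le_max_left _ _), (min_le_left _ _).trans h2⟩

end MssM

theorem stmtMss (h1 : StmtTwG) (h2 : Av.StmtUL) : StmtMss := by
  intro K hK
  obtain ⟨s, hs⟩ := MssM.fin_tr hK
  refine ⟨(s.card : ℝ) * (Real.pi / 3), by positivity, fun f t hf n => ?_⟩
  obtain ⟨t1, -, -, -, -, t6, t7, -, -⟩ := h1 f t hf n
  have hcont : Continuous fun z : ℍ => Gf f t n (z : ℂ) :=
    t1.continuousOn.comp_continuous UpperHalfPlane.continuous_coe fun z => z.im_pos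
  have hinv := fun (γ : SL(2, ℤ)) (z : ℍ) => MssM.inv t6 γ z
  have hinv2 : ∀ (γ : SL(2, ℤ)) (z : ℍ),
      ‖Gf f t n ((γ • z : ℍ) : ℂ)‖ₑ = ‖Gf f t n (z : ℂ)‖ₑ := fun γ z => by
    rw [← ofReal_norm, hinv, ofReal_norm]
  have hKm : MeasurableSet K := hK.isClosed.measurableSet
  have hFm : Measurable fun z : ℍ => ‖Gf f t n (z : ℂ)‖ₑ ^ 2 :=
    hcont.measurable.enorm.pow_const 2
  have h3 := h2.1 (K.indicator fun z : ℍ => ‖Gf f t n (z : ℂ)‖ₑ ^ 2) (hFm.indicator hKm)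
  rw [lintegral_indicator hKm] at h3
  have h4 : ∫⁻ z in ModularGroup.fdo, ∑' γ : SL(2, ℤ),
      K.indicator (fun z : ℍ => ‖Gf f t n (z : ℂ)‖ₑ ^ 2) (γ • z) ≤
      ∫⁻ z in ModularGroup.fdo, (s.card : ℝ≥0∞) * ‖Gf f t n (z : ℂ)‖ₑ ^ 2 := by
    refine setLIntegral_mono' X.measurableSet_fdo fun z hz => ?_
    rw [tsum_eq_sum (s := s)]
    · refine (Finset.sum_le_card_nsmul s _ (‖Gf f t n (z : ℂ)‖ₑ ^ 2) fun γ _ => ?_).trans
        (le_of_eq (nsmul_eq_mul _ _))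
      refine (indicator_le_self _ _ _).trans ?_
      rw [hinv2]
    · intro γ hγ
      exact indicator_of_notMem (fun h => hγ (hs z hz γ h)) _
  rw [lintegral_const_mul _ hFm, t7, h3] at h4
  have h5 : ∫⁻ z in K, ‖Gf f t n (z : ℂ)‖ₑ ^ 2 ≤ 2 * ∫⁻ z in K, ‖Gf f t n (z : ℂ)‖ₑ ^ 2 := by
    rw [two_mul]
    exact le_self_add
  refine (h5.trans h4).trans (le_of_eq ?_)
  rw [ENNReal.ofReal_mul (Nat.cast_nonneg _), ENNReal.ofReal_natCast]

end

end Pool.Agent.A54.Hp
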