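import Pool.Agent.Lib.MP_a54f13_nt.Hp.SpecU

/-!
# Package `Hp`, cusp part, module `Mul`: multiplicative extension
-/

set_option autoImplicit false

namespace Pool.Agent.A54.Hp

noncomputable section

namespace MulM

/-- the values at the powers of a prime -/
def Up (l : ℕ → ℝ) (p : ℕ) : ℕ → ℝ
  | 0 => 1
  | 1 => l p
  | a + 2 => l p * Up l p (a + 1) - Up l p a

/-- the extension -/
def lam (l : ℕ → ℝ) (n : ℕ) : ℝ := n.factorization.prod (Up l)

lemma lam_mul (l : ℕ → ℝ) {p a m : ℕ} (hp : p.Prime) (hm : m ≠ 0) (hpm : ¬ p ∣ m) :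
    lam l (p ^ a * m) = Up l p a * lam l m := by
  unfold lam
  rw [Nat.factorization_mul (pow_ne_zero a hp.ne_zero) hm, hp.factorization_pow,
    Finsupp.prod_add_index_of_disjoint]
  · rw [Finsupp.prod_single_index]
    rfl
  · refine Finset.disjoint_left.2 fun q hq hq' => ?_
    have h1 : q = p := by
      have := Finsupp.support_single_subset hq
      exact Finset.mem_singleton.1 this
    rw [h1, Nat.support_factorization] at hq'
    exact hpm (Nat.dvd_of_mem_primeFactors hq')

lemma lam_one (l : ℕ → ℝ) : lam l 1 = 1 := by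
  unfold lam
  rw [Nat.factorization_one, Finsupp.prod_zero_index]

lemma lam_prime (l : ℕ → ℝ) {p : ℕ} (hp : p.Prime) : lam l p = l p := by
  have h := lam_mul l (a := 1) hp one_ne_zero (fun h => hp.one_lt.ne' (Nat.dvd_one.1 h))
  rw [pow_one, mul_one, lam_one, mul_one] at h
  exact h

end MulM

open MulM

theorem stmtMul : StmtMul := by
  intro l
  refine ⟨lam l, ⟨lam_one l, fun p n hp hn => ?_⟩, fun p hp => lam_prime l hp⟩
  obtain ⟨a, m, hpm, rfl⟩ := Nat.exists_eq_pow_mul_and_not_dvd (n := n) (by omega) p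
    hp.one_lt.ne'
  have hm : m ≠ 0 := fun h => hpm (h ▸ dvd_zero p)
  have e1 : p * (p ^ a * m) = p ^ (a + 1) * m := by ring
  rw [lam_prime l hp, e1, lam_mul l hp hm hpm, lam_mul l hp hm hpm]
  rcases a with _ | a
  · have h1 : ¬ p ∣ p ^ 0 * m := by
      rw [pow_zero, one_mul]
      exact hpm
    rw [if_neg h1, add_zero]
    change l p * (1 * lam l m) = l p * lam l m
    rw [one_mul]
  · have h1 : p ∣ p ^ (a + 1) * m := Dvd.dvd.mul_right (dvd_pow_self p (by omega)) m
    have h2 : p ^ (a + 1) * m / p = p ^ a * m := by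
      rw [pow_succ', mul_assoc, Nat.mul_div_cancel_left _ hp.pos]
    rw [if_pos h1, h2, lam_mul l hp hm hpm]
    change l p * (Up l p (a + 1) * lam l m) =
      (l p * Up l p (a + 1) - Up l p a) * lam l m + Up l p a * lam l m
    ring

end

end Pool.Agent.A54.Hp
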