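import Pool.Agent.Lib.MP_a54f13_nt.Hp.SpecM

/-!
# `StmtNuL`: left invariance of the measure `nu` on `SL(2, ℝ)`

(The file is not called like the statement: that name is reserved on some operating systems.)

For the package `Hp` (note 4597 of MP_a54f13_nt). Author: helper92.
-/

set_option autoImplicit false

namespace Pool.Agent.A54.Hp.NuLM

open MeasureTheory Filter Topology Set
open scoped ContDiff ComplexConjugate UpperHalfPlane MatrixGroups ENNReal
open Pool.Agent.A54.Dyn (G fl base ze io mk4 dom)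
open Pool.Agent.A54.Dyn.LiftM

noncomputable section

lemma cc_add (x y : XC) : cc (x + y) = cc x * cc y := by
  unfold cc
  rw [AddCircle.toCircle_add, Circle.coe_mul]

lemma rot_add (x y : XC) : rot (x + y) = rot x * rot y := by
  apply Dyn.G_ext
  · rw [Dyn.mul_00]
    change (cc (x + y)).re = (cc x).re * (cc y).re + (cc x).im * (-(cc y).im)
    rw [cc_add, Complex.mul_re]; ring
  · rw [Dyn.mul_01]
    change (cc (x + y)).im = (cc x).re * (cc y).im + (cc x).im * (cc y).re
    rw [cc_add, Complex.mul_im]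
  · rw [Dyn.mul_10]
    change -(cc (x + y)).im = -(cc x).im * (cc y).re + (cc x).re * (-(cc y).im)
    rw [cc_add, Complex.mul_im]; ring
  · rw [Dyn.mul_11]
    change (cc (x + y)).re = -(cc x).im * (cc y).im + (cc x).re * (cc y).re
    rw [cc_add, Complex.mul_re]; ring

/-- the stabiliser of the base point -/
lemma stab (k : G) (hk : base k = UpperHalfPlane.I) : ∃ x : XC, k = rot x := by
  have h0 := Dyn.base_coe k
  rw [hk] at h0
  have hd : (k 1 0 : ℂ) * Complex.I + k 1 1 ≠ 0 := Dyn.denom_ne k UpperHalfPlane.I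
  rw [UpperHalfPlane.coe_I, eq_div_iff hd] at h0
  have hre := congrArg Complex.re h0
  have him := congrArg Complex.im h0
  simp only [Complex.mul_re, Complex.mul_im, Complex.add_re, Complex.add_im, Complex.I_re,
    Complex.I_im, Complex.ofReal_re, Complex.ofReal_im, zero_mul, one_mul, mul_zero, mul_one,
    zero_add, add_zero, zero_sub, sub_zero] at hre him
  have hdet := Dyn.det_eq k
  have hn : ‖((⟨k 0 0, k 0 1⟩ : ℂ))‖ = 1 := by
    have h1 : Complex.normSq (⟨k 0 0, k 0 1⟩ : ℂ) = 1 := by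
      rw [Complex.normSq_mk]
      have h10 : k 1 0 = -k 0 1 := by linarith
      rw [h10, him] at hdet
      linarith
    rw [Complex.normSq_eq_norm_sq] at h1
    nlinarith [norm_nonneg ((⟨k 0 0, k 0 1⟩ : ℂ))]
  obtain ⟨x, hx⟩ := (AddCircle.homeomorphCircle (T := 1) one_ne_zero).surjective
    ⟨(⟨k 0 0, k 0 1⟩ : ℂ), mem_sphere_zero_iff_norm.mpr hn⟩
  rw [AddCircle.homeomorphCircle_apply] at hx
  have hc : cc x = (⟨k 0 0, k 0 1⟩ : ℂ) := by
    unfold cc
    rw [hx]
  refine ⟨x, Dyn.G_ext ?_ ?_ ?_ ?_⟩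
  · change k 0 0 = (cc x).re
    rw [hc]
  · change k 0 1 = (cc x).im
    rw [hc]
  · change k 1 0 = -(cc x).im
    rw [hc]
    change k 1 0 = -(k 0 1)
    linarith
  · change k 1 1 = (cc x).re
    rw [hc]
    change k 1 1 = k 0 0
    linarith

/-- left multiplication in the coordinates of the section -/
lemma mul_Sct (h : G) (z : ℍ) : ∃ x0 : XC, ∀ x : XC, h * Sct (z, x) = Sct (h • z, x0 + x) := by
  have hk : base (((h • z).toSL2R)⁻¹ * (h * z.toSL2R)) = UpperHalfPlane.I := by
    rw [Dyn.base_mul, Dyn.base_mul]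
    have h1 : base z.toSL2R = z := UpperHalfPlane.toSL2R_smul_I z
    rw [h1]
    have h2 : (h • z).toSL2R • UpperHalfPlane.I = h • z := UpperHalfPlane.toSL2R_smul_I _
    rw [inv_smul_eq_iff]
    exact h2.symm
  obtain ⟨x0, hx0⟩ := stab _ hk
  refine ⟨x0, fun x => ?_⟩
  unfold Sct
  change h * (z.toSL2R * rot x) = (h • z).toSL2R * rot (x0 + x)
  rw [rot_add, ← hx0]
  group

lemma meas_Sct : Measurable Sct := continuous_Sct.measurable

lemma lint (F : G → ℝ≥0∞) (hF : Measurable F) :
    ∫⁻ g, F g ∂nu = ∫⁻ z : ℍ, ∫⁻ x : XC, F (Sct (z, x)) ∂AddCircle.haarAddCircle := by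
  unfold nu m0
  rw [lintegral_map hF meas_Sct, lintegral_prod (fun p : XX => F (Sct p))
    (hF.comp meas_Sct).aemeasurable]

/-- the action preserves the measure -/
lemma mp (h : G) : MeasurePreserving (fun z : ℍ => h • z) (volume : Measure ℍ) volume :=
  measurePreserving_smul (h : GL (Fin 2) ℝ) (volume : Measure ℍ)

lemma left (h : G) (F : G → ℝ≥0∞) (hF : Measurable F) :
    ∫⁻ g, F (h * g) ∂nu = ∫⁻ g, F g ∂nu := by
  have hm : Measurable fun g : G => h * g := (continuous_const.mul continuous_id).measurable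
  rw [lint (fun g => F (h * g)) (hF.comp hm), lint F hF]
  have h1 : ∀ z : ℍ, ∫⁻ x : XC, F (h * Sct (z, x)) ∂AddCircle.haarAddCircle =
      ∫⁻ x : XC, F (Sct (h • z, x)) ∂AddCircle.haarAddCircle := by
    intro z
    obtain ⟨x0, hx0⟩ := mul_Sct h z
    simp_rw [hx0]
    exact lintegral_add_left_eq_self (fun x : XC => F (Sct (h • z, x))) x0
  have h2 : Measurable fun z : ℍ => ∫⁻ x : XC, F (Sct (z, x)) ∂AddCircle.haarAddCircle :=
    (hF.comp meas_Sct).lintegral_prod_right'
  calc ∫⁻ z : ℍ, ∫⁻ x : XC, F (h * Sct (z, x)) ∂AddCircle.haarAddCircle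
      = ∫⁻ z : ℍ, ∫⁻ x : XC, F (Sct (h • z, x)) ∂AddCircle.haarAddCircle :=
        lintegral_congr h1
    _ = ∫⁻ z : ℍ, ∫⁻ x : XC, F (Sct (z, x)) ∂AddCircle.haarAddCircle :=
        (mp h).lintegral_comp h2

lemma leftInv : nu.IsMulLeftInvariant := by
  refine ⟨fun h => ?_⟩
  refine Measure.ext_of_lintegral _ fun F hF => ?_
  have hm : Measurable fun g : G => h * g := (continuous_const.mul continuous_id).measurable
  rw [lintegral_map hF hm]
  exact left h F hF

lemma finComp : IsFiniteMeasureOnCompacts nu := ⟨fun {K} hK => by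
  unfold nu
  rw [Measure.map_apply meas_Sct hK.measurableSet]
  exact (isCompact_Sct hK).measure_lt_top⟩

lemma lintBase (F : ℍ → ℝ≥0∞) (hF : Measurable F) : ∫⁻ g, F (base g) ∂nu = ∫⁻ z : ℍ, F z := by
  rw [lint (fun g => F (base g)) (hF.comp Dyn.measurable_base)]
  refine lintegral_congr fun z => ?_
  simp_rw [base_Sct]
  rw [lintegral_const, measure_univ, mul_one]

lemma vol_ne : (volume : Measure ℍ) ≠ 0 := by
  intro h0
  have h1 := UpperHalfPlane.volume_eq_lintegral Set.univ
  rw [h0, Measure.coe_zero, Pi.zero_apply, Set.image_univ, UpperHalfPlane.range_coe] at h1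
  have hm : Measurable fun z : ℂ => (((1 / ‖z.im‖₊) ^ 2 : NNReal) : ℝ≥0∞) := by
    fun_prop
  have h2 : 0 < ∫⁻ z : ℂ in UpperHalfPlane.upperHalfPlaneSet,
      (((1 / ‖z.im‖₊) ^ 2 : NNReal) : ℝ≥0∞) := by
    rw [setLIntegral_pos_iff hm]
    have h3 : UpperHalfPlane.upperHalfPlaneSet ⊆
        Function.support (fun z : ℂ => (((1 / ‖z.im‖₊) ^ 2 : NNReal) : ℝ≥0∞)) ∩
          UpperHalfPlane.upperHalfPlaneSet := by
      intro z hz
      refine ⟨?_, hz⟩
      have hz' : 0 < z.im := hz
      rw [Function.mem_support]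
      have : (1 / ‖z.im‖₊) ^ 2 ≠ 0 := by
        refine pow_ne_zero _ (one_div_ne_zero ?_)
        rw [nnnorm_ne_zero_iff]
        exact hz'.ne'
      exact_mod_cast this
    refine lt_of_lt_of_le ?_ (measure_mono h3)
    exact UpperHalfPlane.isOpen_upperHalfPlaneSet.measure_pos volume
      ⟨Complex.I, by change 0 < Complex.I.im; simp⟩
  exact h2.ne h1

lemma neZero : nu ≠ 0 := by
  intro h0
  have h1 := lintBase (fun _ => 1) measurable_const
  rw [h0, lintegral_zero_measure, lintegral_one] at h1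
  exact vol_ne (Measure.measure_univ_eq_zero.mp h1.symm)

end

end Pool.Agent.A54.Hp.NuLM

namespace Pool.Agent.A54.Hp

open MeasureTheory

/-- left invariance -/
theorem stmtNuL : StmtNuL := by
  have hc := NuLM.finComp
  exact ⟨NuLM.leftInv, hc, inferInstance, NuLM.neZero, NuLM.lintBase⟩

end Pool.Agent.A54.Hp
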