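import Pool.Agent.Lib.MP_a54f13_nt.Hp.SpecM

/-!
# Package `Hp`: unimodularity of `nu` (helper2)
-/

set_option autoImplicit false

namespace Pool.Agent.A54.Hp

open MeasureTheory Filter Topology Set
open scoped ContDiff ComplexConjugate UpperHalfPlane MatrixGroups ENNReal NNReal
open Pool.Agent.A54.Dyn (G fl base ze io mk4 dom)
open Pool.Agent.A54.Av (Mat NonSc)

noncomputable section

namespace NuRM

theorem isHaar (h : StmtNuL) : nu.IsHaarMeasure := by
  obtain ⟨h1, h2, -, h4, -⟩ := h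
  have := h1
  have := h2
  obtain ⟨n, hn⟩ : ∃ n, nu (compactCovering G n) ≠ 0 := by
    by_contra hcon
    push Not at hcon
    apply h4
    rw [← Measure.measure_univ_eq_zero, ← iUnion_compactCovering]
    exact measure_iUnion_null hcon
  have : nu.IsOpenPosMeasure :=
    isOpenPosMeasure_of_mulLeftInvariant_of_compact _ (isCompact_compactCovering G n) hn
  exact { }

/-- upper unipotent elements -/
def up (x : ℝ) : G := mk4 1 x 0 1 (by ring)

/-- lower unipotent elements -/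
def lo (x : ℝ) : G := mk4 1 0 x 1 (by ring)

/-- the modular character -/
def Dt : G →* ℝ≥0 := Measure.modularCharacter

theorem Dt_ne (g : G) : Dt g ≠ 0 := by
  intro h
  have h1 : Dt g * Dt g⁻¹ = 1 := by rw [← map_mul, mul_inv_cancel, map_one]
  rw [h, zero_mul] at h1
  exact zero_ne_one h1

theorem Dt_conj (a g : G) : Dt (a * g * a⁻¹) = Dt g := by
  have h1 : Dt a * Dt a⁻¹ = 1 := by rw [← map_mul, mul_inv_cancel, map_one]
  rw [map_mul, map_mul, mul_comm (Dt a), mul_assoc, h1, mul_one]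

theorem Dt_of_sq {a g : G} (h : a * g * a⁻¹ = g * g) : Dt g = 1 := by
  have h1 := Dt_conj a g
  rw [h, map_mul] at h1
  exact mul_left_cancel₀ (Dt_ne g) (h1.trans (mul_one _).symm)

theorem exp_half : Real.exp (Real.log 2 / 2) * Real.exp (Real.log 2 / 2) = 2 := by
  rw [← Real.exp_add, show Real.log 2 / 2 + Real.log 2 / 2 = Real.log 2 by ring,
    Real.exp_log (by norm_num)]

theorem exp_pm : Real.exp (Real.log 2 / 2) * Real.exp (-Real.log 2 / 2) = 1 := by
  rw [← Real.exp_add, show Real.log 2 / 2 + -Real.log 2 / 2 = 0 by ring, Real.exp_zero]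

theorem up_sq (x : ℝ) : fl (Real.log 2) * up x * (fl (Real.log 2))⁻¹ = up x * up x := by
  have e1 := exp_half
  have e2 := exp_pm
  apply Dyn.G_ext
  · rw [Dyn.mul_00, Dyn.mul_00, Dyn.mul_01, Dyn.mul_00, Dyn.inv_00, Dyn.inv_10, Dyn.fl_00,
      Dyn.fl_01, Dyn.fl_10, Dyn.fl_11]
    change (Real.exp (Real.log 2 / 2) * 1 + 0 * 0) * Real.exp (-Real.log 2 / 2) +
      (Real.exp (Real.log 2 / 2) * x + 0 * 1) * -0 = 1 * 1 + x * 0
    linear_combination e2
  · rw [Dyn.mul_01, Dyn.mul_00, Dyn.mul_01, Dyn.mul_01, Dyn.inv_01, Dyn.inv_11, Dyn.fl_00,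
      Dyn.fl_01]
    change (Real.exp (Real.log 2 / 2) * 1 + 0 * 0) * -0 +
      (Real.exp (Real.log 2 / 2) * x + 0 * 1) * Real.exp (Real.log 2 / 2) = 1 * x + x * 1
    linear_combination x * e1
  · rw [Dyn.mul_10, Dyn.mul_10, Dyn.mul_11, Dyn.mul_10, Dyn.inv_00, Dyn.inv_10, Dyn.fl_10,
      Dyn.fl_11]
    change (0 * 1 + Real.exp (-Real.log 2 / 2) * 0) * Real.exp (-Real.log 2 / 2) +
      (0 * x + Real.exp (-Real.log 2 / 2) * 1) * -0 = 0 * 1 + 1 * 0
    ring
  · rw [Dyn.mul_11, Dyn.mul_10, Dyn.mul_11, Dyn.mul_11, Dyn.inv_01, Dyn.inv_11, Dyn.fl_00,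
      Dyn.fl_01, Dyn.fl_10, Dyn.fl_11]
    change (0 * 1 + Real.exp (-Real.log 2 / 2) * 0) * -0 +
      (0 * x + Real.exp (-Real.log 2 / 2) * 1) * Real.exp (Real.log 2 / 2) = 0 * x + 1 * 1
    linear_combination e2

theorem lo_sq (x : ℝ) : (fl (Real.log 2))⁻¹ * lo x * ((fl (Real.log 2))⁻¹)⁻¹ = lo x * lo x := by
  have e1 := exp_half
  have e2 := exp_pm
  rw [inv_inv]
  apply Dyn.G_ext
  · rw [Dyn.mul_00, Dyn.mul_00, Dyn.mul_01, Dyn.mul_00, Dyn.inv_00, Dyn.inv_01, Dyn.fl_00,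
      Dyn.fl_01, Dyn.fl_10, Dyn.fl_11]
    change (Real.exp (-Real.log 2 / 2) * 1 + -0 * x) * Real.exp (Real.log 2 / 2) +
      (Real.exp (-Real.log 2 / 2) * 0 + -0 * 1) * 0 = 1 * 1 + 0 * x
    linear_combination e2
  · rw [Dyn.mul_01, Dyn.mul_00, Dyn.mul_01, Dyn.mul_01, Dyn.inv_00, Dyn.inv_01, Dyn.fl_01,
      Dyn.fl_11]
    change (Real.exp (-Real.log 2 / 2) * 1 + -0 * x) * 0 +
      (Real.exp (-Real.log 2 / 2) * 0 + -0 * 1) * Real.exp (-Real.log 2 / 2) = 1 * 0 + 0 * 1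
    ring
  · rw [Dyn.mul_10, Dyn.mul_10, Dyn.mul_11, Dyn.mul_10, Dyn.inv_10, Dyn.inv_11, Dyn.fl_00,
      Dyn.fl_10]
    change (-0 * 1 + Real.exp (Real.log 2 / 2) * x) * Real.exp (Real.log 2 / 2) +
      (-0 * 0 + Real.exp (Real.log 2 / 2) * 1) * 0 = x * 1 + 1 * x
    linear_combination x * e1
  · rw [Dyn.mul_11, Dyn.mul_10, Dyn.mul_11, Dyn.mul_11, Dyn.inv_10, Dyn.inv_11, Dyn.fl_00,
      Dyn.fl_01, Dyn.fl_10, Dyn.fl_11]
    change (-0 * 1 + Real.exp (Real.log 2 / 2) * x) * 0 +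
      (-0 * 0 + Real.exp (Real.log 2 / 2) * 1) * Real.exp (-Real.log 2 / 2) = x * 0 + 1 * 1
    linear_combination e2

theorem Dt_up (x : ℝ) : Dt (up x) = 1 := Dt_of_sq (up_sq x)

theorem Dt_lo (x : ℝ) : Dt (lo x) = 1 := Dt_of_sq (lo_sq x)

theorem Dt_gen {g : G} (hc : g 1 0 ≠ 0) : Dt g = 1 := by
  have hd := Dyn.det_eq g
  have h1 : g = up ((g 0 0 - 1) / g 1 0) * lo (g 1 0) * up ((g 1 1 - 1) / g 1 0) := by
    apply Dyn.G_ext
    · rw [Dyn.mul_00, Dyn.mul_00, Dyn.mul_01]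
      change _ = (1 * 1 + (g 0 0 - 1) / g 1 0 * g 1 0) * 1 + (1 * 0 + (g 0 0 - 1) / g 1 0 * 1) * 0
      field_simp
      ring
    · rw [Dyn.mul_01, Dyn.mul_00, Dyn.mul_01]
      change _ = (1 * 1 + (g 0 0 - 1) / g 1 0 * g 1 0) * ((g 1 1 - 1) / g 1 0) +
        (1 * 0 + (g 0 0 - 1) / g 1 0 * 1) * 1
      field_simp
      linear_combination -hd
    · rw [Dyn.mul_10, Dyn.mul_10, Dyn.mul_11]
      change _ = (0 * 1 + 1 * g 1 0) * 1 + (0 * 0 + 1 * 1) * 0
      ring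
    · rw [Dyn.mul_11, Dyn.mul_10, Dyn.mul_11]
      change _ = (0 * 1 + 1 * g 1 0) * ((g 1 1 - 1) / g 1 0) + (0 * 0 + 1 * 1) * 1
      field_simp
      ring
  rw [h1, map_mul, map_mul, Dt_up, Dt_lo, Dt_up, mul_one, mul_one]

theorem Dt_one (g : G) : Dt g = 1 := by
  by_cases hc : g 1 0 = 0
  · have h1 : (lo 1 * g) 1 0 ≠ 0 := by
      rw [Dyn.mul_10, hc]
      change (1 : ℝ) * g 0 0 + 1 * 0 ≠ 0
      have hd := Dyn.det_eq g
      rw [hc, mul_zero, sub_zero] at hd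
      intro h0
      have h2 : g 0 0 = 0 := by linarith
      rw [h2, zero_mul] at hd
      exact zero_ne_one hd
    have h2 := Dt_gen h1
    rw [map_mul, Dt_lo, one_mul] at h2
    exact h2
  · exact Dt_gen hc

theorem right (h : StmtNuL) : nu.IsMulRightInvariant := by
  have := isHaar h
  constructor
  intro g
  have h1 : Measure.haarScalarFactor (Measure.map (· * g) nu) nu = 1 := by
    rw [← Measure.modularCharacterFun_eq_haarScalarFactor nu g]
    exact Dt_one g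
  have h2 := Measure.isMulLeftInvariant_eq_smul (Measure.map (· * g) nu) nu
  rw [h1, one_smul] at h2
  exact h2

theorem inv (h : StmtNuL) : nu.IsInvInvariant := by
  have := isHaar h
  have := right h
  constructor
  obtain ⟨c, hc⟩ : ∃ c : ℝ≥0∞, nu.inv = c • nu :=
    ⟨Measure.haarScalarFactor nu.inv nu, Measure.isMulLeftInvariant_eq_smul nu.inv nu⟩
  have h1 : Measure.map Inv.inv (Measure.map Inv.inv nu) = c ^ 2 • nu := by
    rw [← Measure.inv_def nu, hc, Measure.map_smul, ← Measure.inv_def nu, hc, smul_smul, pow_two]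
  have h2 : nu = c ^ 2 • nu := by
    rw [Measure.map_map continuous_inv.measurable continuous_inv.measurable] at h1
    simpa only [inv_involutive, Function.Involutive.comp_self, Measure.map_id] using h1
  have K : TopologicalSpace.PositiveCompacts G := Classical.arbitrary _
  have h3 : c ^ 2 * nu K = 1 ^ 2 * nu K := by
    conv_rhs => rw [h2]
    simp
  have h4 : c ^ 2 = 1 ^ 2 :=
    (ENNReal.mul_left_inj (Measure.measure_pos_of_nonempty_interior _ K.interior_nonempty).ne'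
          K.isCompact.measure_lt_top.ne).1 h3
  have h5 : c = 1 := (ENNReal.pow_right_strictMono two_ne_zero).injective h4
  rw [hc, h5, one_smul]

end NuRM

theorem stmtNuR (h : StmtNuL) : StmtNuR := ⟨NuRM.right h, NuRM.inv h⟩

end

end Pool.Agent.A54.Hp
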