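import Pool.Agent.Lib.MP_a54f13_nt.Hp.SpecL

/-!
# Package `Hp`, module `PL`: masses of tubes for one good block, the final exponent argument (helper61)
-/

set_option autoImplicit false

namespace Pool.Agent.A54.Hp

open MeasureTheory Filter Topology Set
open scoped ContDiff ComplexConjugate UpperHalfPlane MatrixGroups ENNReal
open Pool.Agent.A54.Dyn (G fl base ze io mk4 dom)
open Pool.Agent.A54.Av (Mat NonSc)

noncomputable section

namespace PLL

/-- comparison of exponentials with a small factor -/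
theorem exl {C u x y : ℝ} (hC : 0 ≤ C) (h4 : 12 * C * Real.exp (-(u / 1000)) < 1)
    (h : x - y ≤ -(u / 1000)) : 12 * C * Real.exp x < Real.exp y := by
  have h1 : Real.exp x = Real.exp (x - y) * Real.exp y := by
    rw [← Real.exp_add]; congr 1; ring
  have h2 : 12 * C * Real.exp (x - y) < 1 :=
    lt_of_le_of_lt (mul_le_mul_of_nonneg_left (Real.exp_le_exp.2 h) (by linarith)) h4
  calc 12 * C * Real.exp x = (12 * C * Real.exp (x - y)) * Real.exp y := by rw [h1]; ring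
    _ < 1 * Real.exp y := mul_lt_mul_of_pos_right h2 (Real.exp_pos y)
    _ = Real.exp y := one_mul _

/-- the exponents -/
theorem core {u v a μ C : ℝ} (hu : 0 ≤ u) (h1 : 969 / 1000 * u ≤ v)
    (ha : 499 / 500 * u ≤ a) (hC : 1 ≤ C)
    (h2 : Real.exp (-(1002 / 1000 * u)) / 2 ≤ Real.exp (-a) * μ)
    (h3 : Real.exp (4999 / 2500 * v) * μ ^ 2 ≤
      C * (Real.exp (v + 3 / 5 * u) + (Real.exp (v + a - 1 / 20 * u) +
        Real.exp (v + a - 11 / 100 * u))))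
    (h4 : 12 * C * Real.exp (-(u / 1000)) < 1) : False := by
  set x : ℝ := Real.exp (-a) * μ with hx
  have hμ : μ = Real.exp a * x := by
    rw [hx, ← mul_assoc, ← Real.exp_add, add_neg_cancel, Real.exp_zero, one_mul]
  have hx0 : 0 < x := lt_of_lt_of_le (by positivity) h2
  have hx2 : Real.exp (-(2004 / 1000 * u)) / 4 ≤ x ^ 2 := by
    have h5 := mul_self_le_mul_self (by positivity) h2
    have h6 : Real.exp (-(2004 / 1000 * u)) / 4 = Real.exp (-(1002 / 1000 * u)) / 2 *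
        (Real.exp (-(1002 / 1000 * u)) / 2) := by
      rw [div_mul_div_comm, ← Real.exp_add]
      norm_num
      ring_nf
    rw [h6, pow_two]
    exact h5
  have hl : Real.exp (4999 / 2500 * v) * μ ^ 2 =
      Real.exp (4999 / 2500 * v + 2 * a) * x ^ 2 := by
    rw [hμ, mul_pow, ← mul_assoc, ← Real.exp_nat_mul, ← Real.exp_add]
    norm_num
  rw [hl] at h3
  have hC0 : 0 ≤ C := by linarith
  have t1 := exl (x := v + 3 / 5 * u) (y := 4999 / 2500 * v + 2 * a - 2004 / 1000 * u) hC0 h4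
    (by nlinarith)
  have t2 := exl (x := v + a - 1 / 20 * u) (y := 4999 / 2500 * v + 2 * a - 2004 / 1000 * u)
    hC0 h4 (by nlinarith)
  have t3 := exl (x := v + a - 11 / 100 * u) (y := 4999 / 2500 * v + 2 * a - 2004 / 1000 * u)
    hC0 h4 (by nlinarith)
  set L : ℝ := Real.exp (4999 / 2500 * v + 2 * a) with hL
  have hLpos : 0 < L := Real.exp_pos _
  have e1 : Real.exp (4999 / 2500 * v + 2 * a - 2004 / 1000 * u) =
      L * Real.exp (-(2004 / 1000 * u)) := by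
    rw [hL, ← Real.exp_add]; congr 1
  rw [e1] at t1 t2 t3
  have f1 : L * (Real.exp (-(2004 / 1000 * u)) / 4) ≤ L * x ^ 2 :=
    mul_le_mul_of_nonneg_left hx2 hLpos.le
  nlinarith

theorem rp {x y : ℝ} (hx : 0 < x) : x ^ y = Real.exp (Real.log x * y) := Real.rpow_def_of_pos hx y

/-- the numerical conclusion -/
theorem num {w A M μ C : ℝ} (hw : 0 < w) (hw1 : w ≤ 1) (hA : 0 < A) (hM : 0 < M)
    (hA1 : A ≤ w ^ (499 / 500 : ℝ)) (hM1 : w ^ (-(969 / 1000) : ℝ) ≤ M) (hC : 1 ≤ C)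
    (h2 : w ^ (1002 / 1000 : ℝ) / 2 ≤ A * μ)
    (h3 : M ^ (4999 / 2500 : ℝ) * μ ^ 2 ≤
      C * (M * w ^ (-(3 / 5) : ℝ) + M / A * (w ^ (1 / 20 : ℝ) +
        w ^ (-(1 / 10) : ℝ) * w ^ (21 / 100 : ℝ))))
    (h4 : 12 * C * w ^ (1 / 1000 : ℝ) < 1) : False := by
  have l1 : Real.log A ≤ Real.log w * (499 / 500) := by
    have := Real.log_le_log hA hA1
    rwa [Real.log_rpow hw, mul_comm] at this
  have l2 : Real.log w * (-(969 / 1000)) ≤ Real.log M := by
    have := Real.log_le_log (Real.rpow_pos_of_pos hw _) hM1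
    rwa [Real.log_rpow hw, mul_comm] at this
  have l0 : Real.log w ≤ 0 := Real.log_nonpos hw.le hw1
  refine core (u := -Real.log w) (v := Real.log M) (a := -Real.log A) (μ := μ) (C := C)
    (by linarith) (by linarith) (by linarith) hC ?_ ?_ ?_
  · rw [neg_neg, Real.exp_log hA]
    rw [rp hw] at h2
    convert h2 using 3
    ring
  · have hMA : M / A = Real.exp (Real.log M - Real.log A) := by
      rw [Real.exp_sub, Real.exp_log hM, Real.exp_log hA]
    have hE1 : Real.exp (Real.log M + 3 / 5 * -Real.log w) = M * w ^ (-(3 / 5) : ℝ) := by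
      rw [Real.exp_add, Real.exp_log hM, rp hw]
      congr 2
      ring
    have hE2 : Real.exp (Real.log M + -Real.log A - 1 / 20 * -Real.log w) =
        M / A * w ^ (1 / 20 : ℝ) := by
      rw [hMA, rp hw, ← Real.exp_add]
      congr 1
      ring
    have hE3 : Real.exp (Real.log M + -Real.log A - 11 / 100 * -Real.log w) =
        M / A * (w ^ (-(1 / 10) : ℝ) * w ^ (21 / 100 : ℝ)) := by
      rw [hMA, rp hw, rp hw, ← Real.exp_add, ← Real.exp_add]
      congr 1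
      ring
    have hE4 : Real.exp (4999 / 2500 * Real.log M) = M ^ (4999 / 2500 : ℝ) := by
      rw [rp hM, mul_comm]
    rw [hE1, hE2, hE3, hE4, ← mul_add]
    exact h3
  · rw [rp hw] at h4
    convert h4 using 3
    ring

/-- small numbers -/
theorem sml {K w D e : ℝ} (hw : 0 < w) (hw1 : w ≤ 1) (h : K * w ^ (1 / 10000 : ℝ) < 1)
    (hD0 : 0 ≤ D) (hD : D ≤ K) (he : 1 / 10000 ≤ e) : D * w ^ e < 1 := by
  refine lt_of_le_of_lt ?_ h
  exact mul_le_mul hD (Real.rpow_le_rpow_of_exponent_ge hw hw1 he)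
    (Real.rpow_nonneg hw.le _) (hD0.trans hD)

theorem ms_mono (Φ : G → ℂ) {U V : Set G} (h : U ⊆ V) : ms Φ U ≤ ms Φ V :=
  lintegral_mono_set h

/-- a power of the good scale close to a given size -/
theorem pw {K w M : ℝ} (hK : 1 ≤ K) (hw : 0 < w) (hw1 : w < 1)
    (h1 : w ^ (-(1 / (1000 * K)) : ℝ) ≤ M) (h2 : M ≤ w ^ (-(1 / 1000) : ℝ)) (e : ℝ)
    (he : 0 ≤ e) (he1 : e ≤ 1) : ∃ k : ℕ, k ≤ ⌈1000 * K⌉₊ ∧
      w ^ (-(e - 1 / 1000) : ℝ) ≤ M ^ k ∧ M ^ k ≤ w ^ (-e) := by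
  have hM1 : 1 < M :=
    (Real.one_lt_rpow_of_pos_of_lt_one_of_neg hw hw1 (by
      have : 0 < 1 / (1000 * K) := by positivity
      linarith)).trans_le h1
  have hM0 : 0 < M := by linarith
  obtain ⟨k, hk1, hk2⟩ := exists_nat_pow_near
    (Real.one_le_rpow_of_pos_of_le_one_of_nonpos hw hw1.le (show -e ≤ 0 by linarith)) hM1
  refine ⟨k, ?_, ?_, hk1⟩
  · have h3 : (w ^ (-(1 / (1000 * K)) : ℝ)) ^ k ≤ w ^ (-e) :=
      (pow_le_pow_left₀ (Real.rpow_nonneg hw.le _) h1 k).trans hk1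
    rw [← Real.rpow_natCast, ← Real.rpow_mul hw.le,
      Real.rpow_le_rpow_left_iff_of_base_lt_one hw hw1] at h3
    have h4 : 1 / (1000 * K) * (k : ℝ) ≤ 1 := by linarith
    have h5 : (k : ℝ) ≤ 1000 * K := by
      have h6 := mul_le_mul_of_nonneg_left h4 (show (0 : ℝ) ≤ 1000 * K by positivity)
      rw [← mul_assoc, mul_one_div_cancel (by positivity), one_mul, mul_one] at h6
      exact h6
    exact_mod_cast h5.trans (Nat.le_ceil _)
  · rw [pow_succ] at hk2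
    have h3 : w ^ (-e) < M ^ k * w ^ (-(1 / 1000) : ℝ) :=
      hk2.trans_le (mul_le_mul_of_nonneg_left h2 (by positivity))
    have h4 : w ^ (-(e - 1 / 1000) : ℝ) = w ^ (-e) * w ^ (1 / 1000 : ℝ) := by
      rw [← Real.rpow_add hw]
      congr 1
      ring
    have h5 : w ^ (-(1 / 1000) : ℝ) * w ^ (1 / 1000 : ℝ) = 1 := by
      rw [← Real.rpow_add hw, neg_add_cancel, Real.rpow_zero]
    rw [h4]
    calc w ^ (-e) * w ^ (1 / 1000 : ℝ)
        ≤ (M ^ k * w ^ (-(1 / 1000) : ℝ)) * w ^ (1 / 1000 : ℝ) :=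
          mul_le_mul_of_nonneg_right h3.le (Real.rpow_nonneg hw.le _)
      _ = M ^ k := by rw [mul_assoc, h5, mul_one]

/-- single tubes: the exponent -/
theorem tb {w X C e f : ℝ} (hw : 0 < w) (hC : 0 ≤ C)
    (hX : w ^ (-e) ≤ X) (hf : C * w ^ (e * (2499 / 2500) - f) < 1) :
    C * X ^ (-(1 - 4 * (1 / 10000)) : ℝ) ≤ w ^ f := by
  have h1 : X ^ (-(1 - 4 * (1 / 10000)) : ℝ) ≤ w ^ (e * (2499 / 2500)) := by
    have h2 : (w ^ (-e)) ^ (-(1 - 4 * (1 / 10000)) : ℝ) = w ^ (e * (2499 / 2500)) := by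
      rw [← Real.rpow_mul hw.le]
      congr 1
      ring
    rw [← h2]
    exact Real.rpow_le_rpow_of_nonpos (Real.rpow_pos_of_pos hw _) hX (by norm_num)
  have h3 : w ^ (e * (2499 / 2500)) = w ^ (e * (2499 / 2500) - f) * w ^ f := by
    rw [← Real.rpow_add hw]
    congr 1
    ring
  calc C * X ^ (-(1 - 4 * (1 / 10000)) : ℝ) ≤ C * w ^ (e * (2499 / 2500)) :=
        mul_le_mul_of_nonneg_left h1 hC
    _ = (C * w ^ (e * (2499 / 2500) - f)) * w ^ f := by rw [h3]; ring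
    _ ≤ 1 * w ^ f := mul_le_mul_of_nonneg_right hf.le (Real.rpow_nonneg hw.le _)
    _ = _ := one_mul _

end PLL

open PLL in
theorem stmtPL (hTot : StmtTot) (hSnL : StmtSnL) (hLv : StmtLv) (hStL : StmtStL) : StmtPL := by
  intro K R hK hR
  obtain ⟨CT, hCT0, hCT⟩ := hTot R hR
  have hSnL' := fun k : ℕ => hSnL R k hR
  have hStL' := fun k : ℕ => hStL R k hR
  choose C₁ hC₁ hS using hSnL'
  choose C₂ hC₂ hSt using hStL'
  obtain ⟨w₁, hw₁, hw₁', hL⟩ := hLv R (1 / 1000) (1 / 500) hR (by norm_num) (by norm_num)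
    (by norm_num) (by norm_num)
  set N : ℕ := ⌈1000 * K⌉₊ with hN
  set Cm : ℝ := ∑ k ∈ Finset.range (N + 1), (C₁ k + C₂ k) with hCm
  have hCm1 : ∀ k : ℕ, k ≤ N → C₁ k ≤ Cm ∧ C₂ k ≤ Cm := by
    intro k hk
    have h1 : C₁ k + C₂ k ≤ Cm := Finset.single_le_sum (f := fun k => C₁ k + C₂ k)
      (fun i _ => by have := hC₁ i; have := hC₂ i; positivity)
      (Finset.mem_range.2 (Nat.lt_succ_of_le hk))
    have h2 := hC₁ k
    have h3 := hC₂ k
    exact ⟨by linarith, by linarith⟩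
  have hCm0 : 1 ≤ Cm := (hC₁ 0).trans (hCm1 0 (Nat.zero_le _)).1
  set D : ℝ := 13 * Cm ^ 2 with hD
  have hCC : Cm ≤ Cm ^ 2 := by nlinarith
  have hD1 : 1 ≤ D := by nlinarith
  have hD0 : 0 < D := by linarith
  have hb : (0 : ℝ) < 1 / (2 * D) := by positivity
  have hb1 : 1 / (2 * D) < 1 := by
    rw [div_lt_one (by positivity)]
    linarith
  refine ⟨min w₁ (min ((1 / (2 * D)) ^ (10000 : ℝ)) ((1 / (2 * (N : ℝ) + 1)) ^ (2000 * K))),
    lt_min hw₁ (lt_min (by positivity) (by positivity)),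
    (min_le_left _ _).trans hw₁', ?_⟩
  intro l Φ hΦ w hw hww hIso hGd
  by_contra hcon
  rw [not_le] at hcon
  have hwL : w ≤ w₁ := hww.trans (min_le_left _ _)
  have hwD : w ≤ (1 / (2 * D)) ^ (10000 : ℝ) :=
    hww.trans ((min_le_right _ _).trans (min_le_left _ _))
  have hwN : w ≤ (1 / (2 * (N : ℝ) + 1)) ^ (2000 * K) :=
    hww.trans ((min_le_right _ _).trans (min_le_right _ _))
  have hw1' : w < 1 := hwD.trans_lt (Real.rpow_lt_one hb.le hb1 (by norm_num))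
  have hw1 : w ≤ 1 := hw1'.le
  have hsm : D * w ^ (1 / 10000 : ℝ) < 1 := by
    have h1 : w ^ (1 / 10000 : ℝ) ≤ 1 / (2 * D) := by
      have h2 := Real.rpow_le_rpow hw.le hwD (show (0 : ℝ) ≤ 1 / 10000 by norm_num)
      rw [← Real.rpow_mul (by positivity)] at h2
      norm_num at h2 ⊢
      exact h2
    calc D * w ^ (1 / 10000 : ℝ) ≤ D * (1 / (2 * D)) := mul_le_mul_of_nonneg_left h1 hD0.le
      _ = 1 / 2 := by field_simp
      _ < 1 := by norm_num
  have hsml : ∀ {E e : ℝ}, 0 ≤ E → E ≤ D → 1 / 10000 ≤ e → E * w ^ e < 1 :=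
    fun hE0 hE he => sml hw hw1 hsm hE0 hE he
  -- the good scale
  obtain ⟨M, hMl, hMu, hG⟩ := hGd
  have hK0 : 0 < K := by linarith
  have hM1 : 1 ≤ M :=
    (Real.one_le_rpow_of_pos_of_le_one_of_nonpos hw hw1 (by
      have : 0 < 1 / (1000 * K) := by positivity
      linarith)).trans hMl
  have hM0 : 0 < M := by linarith
  have hkM : ∀ k : ℕ, k ≤ N → 2 * (k : ℝ) ≤ M ^ (1 - 1 / 10000 : ℝ) := by
    intro k hk
    have h1 : (2 * (N : ℝ) + 1) ≤ w ^ (-(1 / (2000 * K)) : ℝ) := by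
      have h2 := Real.rpow_le_rpow_of_nonpos hw hwN
        (show (-(1 / (2000 * K)) : ℝ) ≤ 0 by
          have : 0 < 1 / (2000 * K) := by positivity
          linarith)
      rw [← Real.rpow_mul (by positivity), one_div, Real.inv_rpow (by positivity),
        ← Real.rpow_neg (by positivity)] at h2
      have h3 : -(2000 * K * -(1 / (2000 * K))) = 1 := by
        field_simp
      rw [h3, Real.rpow_one] at h2
      exact h2
    have h4 : w ^ (-(1 / (2000 * K)) : ℝ) ≤ M ^ (1 - 1 / 10000 : ℝ) := by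
      have h5 : w ^ (-(1 / (2000 * K)) : ℝ) = (w ^ (-(1 / (1000 * K)) : ℝ)) ^ (1 / 2 : ℝ) := by
        rw [← Real.rpow_mul hw.le]
        congr 1
        field_simp
        norm_num
      rw [h5]
      refine (Real.rpow_le_rpow (Real.rpow_nonneg hw.le _) hMl (by norm_num)).trans ?_
      exact Real.rpow_le_rpow_of_exponent_le hM1 (by norm_num)
    have h6 : (k : ℝ) ≤ N := by exact_mod_cast hk
    linarith
  -- (1) single tubes
  obtain ⟨k₁, hk₁, hk₁a, hk₁b⟩ := pw hK hw hw1' hMl hMu 1 (by norm_num) le_rfl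
  have htube : ∀ ζ : Fin 3 → ℝ, ms Φ (Tb R ζ w) ≤ ENNReal.ofReal (w ^ (1 - 1 / 500 : ℝ)) := by
    intro ζ
    refine (hS k₁ l Φ hΦ w (1 / 10000) M hw (by norm_num) (by norm_num) hM1 (hkM k₁ hk₁) hG
      ?_ ζ).trans (ENNReal.ofReal_le_ofReal ?_)
    · calc M ^ k₁ * w ≤ w ^ (-1 : ℝ) * w := mul_le_mul_of_nonneg_right hk₁b hw.le
        _ = 1 := by rw [Real.rpow_neg_one, inv_mul_cancel₀ hw.ne']
    · exact tb hw (by linarith [hC₁ k₁]) hk₁a (hsml (by linarith [hC₁ k₁])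
        (by nlinarith [(hCm1 k₁ hk₁).1]) (by norm_num))
  -- (2) the level
  obtain ⟨A, hA1, hA2, hAm, hAms⟩ := hL l Φ hΦ w hw hwL htube (by
    convert hcon using 3
    norm_num)
  have hApos : 0 < A := lt_of_lt_of_le (Real.rpow_pos_of_pos hw _) hA1
  -- (3) the scale
  obtain ⟨k₂, hk₂, hk₂a, hk₂b⟩ := pw hK hw hw1' hMl hMu (97 / 100) (by norm_num) (by norm_num)
  have hk₂a' : w ^ (-(969 / 1000) : ℝ) ≤ M ^ k₂ := by
    convert hk₂a using 2
    norm_num
  set C : ℝ := C₂ k₂ with hCdef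
  have hC : 1 ≤ C := hC₂ k₂
  have hCCm : C ≤ Cm := (hCm1 k₂ hk₂).2
  have hCD : 12 * C ≤ D := by nlinarith
  have hC2D : C ^ 2 ≤ D := by nlinarith
  set Y₀ : ℝ := w ^ (-(3 / 10) : ℝ) with hY₀
  set K' : ℝ := w ^ (-(1 / 40) : ℝ) with hK'
  have hY1 : 1 ≤ Y₀ := Real.one_le_rpow_of_pos_of_le_one_of_nonpos hw hw1 (by norm_num)
  have hK'1 : 1 ≤ K' := Real.one_le_rpow_of_pos_of_le_one_of_nonpos hw hw1 (by norm_num)
  have hMwK : M ^ k₂ * w * K' ≤ 1 := by
    calc M ^ k₂ * w * K' ≤ w ^ (-(97 / 100) : ℝ) * w * K' := by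
          refine mul_le_mul_of_nonneg_right ?_ (by linarith)
          exact mul_le_mul_of_nonneg_right hk₂b hw.le
      _ = w ^ (1 / 200 : ℝ) := by
          rw [hK']
          nth_rewrite 2 [← Real.rpow_one w]
          rw [← Real.rpow_add hw, ← Real.rpow_add hw]
          norm_num
      _ ≤ 1 := Real.rpow_le_one hw.le hw1 (by norm_num)
  -- (4) wide tubes
  obtain ⟨k₃, hk₃, hk₃a, hk₃b⟩ := pw hK hw hw1' hMl hMu (11 / 50) (by norm_num) (by norm_num)
  have hwide : C * (K' ^ 3 / Y₀) ≤ w ^ (11 / 50 : ℝ) := by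
    have h1 : K' ^ 3 / Y₀ = w ^ (1 / 200 : ℝ) * w ^ (11 / 50 : ℝ) := by
      rw [hK', hY₀, ← Real.rpow_natCast, ← Real.rpow_mul hw.le, ← Real.rpow_sub hw,
        ← Real.rpow_add hw]
      norm_num
    rw [h1, ← mul_assoc]
    have h2 := hsml (E := C) (e := 1 / 200) (by linarith) (by linarith) (by norm_num)
    calc C * w ^ (1 / 200 : ℝ) * w ^ (11 / 50 : ℝ) ≤ 1 * w ^ (11 / 50 : ℝ) :=
          mul_le_mul_of_nonneg_right h2.le (Real.rpow_nonneg hw.le _)
      _ = _ := one_mul _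
  have hT : ∀ ζ : Fin 3 → ℝ, ms Φ (Tb R ζ (C * (K' ^ 3 / Y₀))) ≤
      ENNReal.ofReal (w ^ (21 / 100 : ℝ)) := by
    intro ζ
    refine (ms_mono Φ (V := Tb R ζ (w ^ (11 / 50 : ℝ)))
      (fun g hg => ⟨hg.1, fun i => (hg.2 i).trans hwide⟩)).trans ?_
    refine (hS k₃ l Φ hΦ (w ^ (11 / 50 : ℝ)) (1 / 10000) M (Real.rpow_pos_of_pos hw _)
      (by norm_num) (by norm_num) hM1 (hkM k₃ hk₃) hG ?_ ζ).trans
      (ENNReal.ofReal_le_ofReal ?_)
    · calc M ^ k₃ * w ^ (11 / 50 : ℝ) ≤ w ^ (-(11 / 50) : ℝ) * w ^ (11 / 50 : ℝ) :=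
            mul_le_mul_of_nonneg_right hk₃b (Real.rpow_nonneg hw.le _)
        _ = 1 := by rw [← Real.rpow_add hw, neg_add_cancel, Real.rpow_zero]
    · exact tb hw (by linarith [hC₁ k₃]) hk₃a (hsml (by linarith [hC₁ k₃])
        (by nlinarith [(hCm1 k₃ hk₃).1]) (by norm_num))
  -- (5) the cusp
  obtain ⟨hZm, hZ⟩ := hIso (C / Y₀) (C * K') (by positivity) (by
    calc C / Y₀ ≤ C := div_le_self (by linarith) hY1
      _ ≤ C * K' := le_mul_of_one_le_right (by linarith) hK'1) (by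
    have h1 := hsml (E := C ^ 2) (e := 1 / 40) (by positivity) hC2D (by norm_num)
    have h2 : C / Y₀ * (C * K') = C ^ 2 * (w ^ (1 / 40 : ℝ) * w ^ (1 / 4 : ℝ)) := by
      have h3 : K' / Y₀ = w ^ (1 / 40 : ℝ) * w ^ (1 / 4 : ℝ) := by
        rw [hK', hY₀, ← Real.rpow_sub hw, ← Real.rpow_add hw]
        norm_num
      rw [← h3]
      ring
    rw [h2, ← mul_assoc]
    calc C ^ 2 * w ^ (1 / 40 : ℝ) * w ^ (1 / 4 : ℝ) ≤ 1 * w ^ (1 / 4 : ℝ) :=
          mul_le_mul_of_nonneg_right h1.le (Real.rpow_nonneg hw.le _)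
      _ = _ := one_mul _)
  set Z : Set G := Zc R (C / Y₀) (C * K') with hZdef
  set U : Set G := Ul Φ R w A \ Z with hU
  have hUR : U ⊆ Om R := fun g hg => hg.1.1
  have hfin : ms Φ U ≠ ⊤ := ne_top_of_le_ne_top ENNReal.ofReal_ne_top
    ((ms_mono Φ hUR).trans (hCT l Φ hΦ))
  obtain ⟨μ, hμ0, hμ⟩ : ∃ μ : ℝ, 0 ≤ μ ∧ ms Φ U = ENNReal.ofReal μ :=
    ⟨(ms Φ U).toReal, ENNReal.toReal_nonneg, (ENNReal.ofReal_toReal hfin).symm⟩
  have hun : ms Φ (Ul Φ R w A) ≤ ENNReal.ofReal (μ + w ^ (1 / 20 : ℝ)) := by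
    rw [ENNReal.ofReal_add hμ0 (Real.rpow_nonneg hw.le _), ← hμ]
    refine le_trans (ms_mono Φ (show Ul Φ R w A ⊆ U ∪ Z from fun g hg => ?_))
      ((lintegral_union_le _ _ _).trans (add_le_add le_rfl hZ))
    by_cases h : g ∈ Z
    · exact Or.inr h
    · exact Or.inl ⟨hg, h⟩
  have hAμ0 : w ^ (1 + 2 * (1 / 1000) : ℝ) ≤ A * (μ + w ^ (1 / 20 : ℝ)) := by
    rw [← ENNReal.ofReal_le_ofReal_iff (by positivity), ENNReal.ofReal_mul hApos.le]
    exact hAms.trans (mul_le_mul_right hun _)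
  have hAμ : w ^ (1002 / 1000 : ℝ) / 2 ≤ A * μ := by
    have e1 : w ^ (1 + 2 * (1 / 1000) : ℝ) = w ^ (1002 / 1000 : ℝ) := by norm_num
    rw [e1] at hAμ0
    have h1 : A * w ^ (1 / 20 : ℝ) ≤ w ^ (1002 / 1000 : ℝ) / 2 := by
      have h2 := hsml (E := 2) (e := 23 / 500) (by norm_num) (by nlinarith) (by norm_num)
      calc A * w ^ (1 / 20 : ℝ) ≤ w ^ (1 - 1 / 500 : ℝ) * w ^ (1 / 20 : ℝ) :=
            mul_le_mul_of_nonneg_right hA2 (Real.rpow_nonneg hw.le _)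
        _ = (2 * w ^ (23 / 500 : ℝ)) * w ^ (1002 / 1000 : ℝ) / 2 := by
            rw [← Real.rpow_add hw, mul_assoc, ← Real.rpow_add hw]
            norm_num
        _ ≤ 1 * w ^ (1002 / 1000 : ℝ) / 2 := by
            have := mul_le_mul_of_nonneg_right h2.le
              (Real.rpow_nonneg hw.le (1002 / 1000 : ℝ))
            linarith
        _ = _ := by rw [one_mul]
    nlinarith
  -- (6) the main step
  have hMk0 : 0 < M ^ k₂ := by positivity
  have hstep := hSt k₂ l Φ hΦ w (1 / 10000) M K' Y₀ A hw hw1 (by norm_num) (by norm_num) hM1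
    hK'1 hY1 hMwK hApos (hkM k₂ hk₂) hG _ hT U (hAm.diff hZm) (fun g hg => hg.1)
    Set.disjoint_sdiff_left
  have hreal : (M ^ k₂) ^ (2 - 4 * (1 / 10000) : ℝ) * μ ^ 2 ≤
      C * (M ^ k₂ * Y₀ ^ 2 + M ^ k₂ / A * (1 / K' ^ 2 + K' ^ 4 * w ^ (21 / 100 : ℝ))) := by
    rw [← ENNReal.ofReal_le_ofReal_iff (by positivity), ENNReal.ofReal_mul (by positivity),
      ENNReal.ofReal_mul (by positivity), ENNReal.ofReal_pow hμ0,
      ENNReal.ofReal_add (by positivity) (by positivity),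
      ENNReal.ofReal_mul (p := M ^ k₂ / A) (by positivity),
      ENNReal.ofReal_add (by positivity) (by positivity),
      ENNReal.ofReal_mul (p := K' ^ 4) (by positivity), ← hμ]
    exact hstep
  have eY : Y₀ ^ 2 = w ^ (-(3 / 5) : ℝ) := by
    rw [hY₀, ← Real.rpow_natCast, ← Real.rpow_mul hw.le]
    norm_num
  have eK2 : 1 / K' ^ 2 = w ^ (1 / 20 : ℝ) := by
    rw [hK', ← Real.rpow_natCast, ← Real.rpow_mul hw.le, one_div, ← Real.rpow_neg hw.le]
    norm_num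
  have eK4 : K' ^ 4 = w ^ (-(1 / 10) : ℝ) := by
    rw [hK', ← Real.rpow_natCast, ← Real.rpow_mul hw.le]
    norm_num
  rw [eY, eK2, eK4, show (2 - 4 * (1 / 10000) : ℝ) = 4999 / 2500 by norm_num] at hreal
  exact num hw hw1 hApos hMk0 (by
    convert hA2 using 2
    norm_num) hk₂a' hC hAμ hreal (hsml (by linarith) hCD (by norm_num))

end

end Pool.Agent.A54.Hp
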