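import Pool.Agent.Lib.MP_a54f13_nt.Hp.SpecA

/-!
# Package `Hp`, module `Pk` (helper62): packets exist
-/

set_option autoImplicit false

namespace Pool.Agent.A54.Hp

open MeasureTheory Filter Topology Set
open scoped ContDiff ComplexConjugate UpperHalfPlane MatrixGroups ENNReal
open Pool.Agent.A54.Sq (la TestP Tow Up)

noncomputable section

namespace PkM

/-- the operator `T - t` on profiles -/
def Tp (t : ℝ) (N : ℕ) (u : ℝ → ℝ) : ℝ → ℝ := fun x : ℝ =>
  (√(((x - 1 / N) * N + 1 / 2) ^ 2 + t ^ 2) * u (x - 1 / N) +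
      √((x * N + 1 / 2) ^ 2 + t ^ 2) * u (x + 1 / N)) / 2 - t * u x

lemma exists_chi : ∃ χ : ℝ → ℝ, ContDiff ℝ ∞ χ ∧ (∀ x, χ (-x) = χ x) ∧ (∀ x, |x| ≤ 1 / 2 → χ x = 1) ∧
    (∀ x, 1 ≤ |x| → χ x = 0) ∧ ∀ x, |χ x| ≤ 1 := by
  let f : ContDiffBump (0 : ℝ) := ⟨1 / 2, 1, by norm_num, by norm_num⟩
  refine ⟨f, f.contDiff, f.neg, ?_, ?_, ?_⟩
  · intro x hx
    refine f.one_of_mem_closedBall ?_
    rw [Metric.mem_closedBall, Real.dist_eq, sub_zero]
    exact hx
  · intro x hx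
    refine f.zero_of_le_dist ?_
    rw [Real.dist_eq, sub_zero]
    exact hx
  · intro x
    rw [abs_of_nonneg f.nonneg]
    exact f.le_one

lemma iter_zero {w : ℝ → ℝ} {R : ℝ} (hw : ∀ x, R ≤ |x| → w x = 0) (j : ℕ) {x : ℝ} (hx : R < |x|) :
    iteratedDeriv j w x = 0 := by
  have h1 : w =ᶠ[𝓝 x] fun _ => (0 : ℝ) := by
    have h2 : ∀ᶠ y in 𝓝 x, R < |y| := (continuous_abs.tendsto x).eventually (lt_mem_nhds hx)
    filter_upwards [h2] with y hy
    exact hw y hy.le
  rw [h1.iteratedDeriv_eq j]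
  simp

lemma chi_bound {w : ℝ → ℝ} (hw : ContDiff ℝ ∞ w) (h0 : ∀ x, 1 ≤ |x| → w x = 0) (J : ℕ) :
    ∃ C : ℝ, 0 ≤ C ∧ ∀ j ≤ J, ∀ x, |iteratedDeriv j w x| ≤ C := by
  have h1 : ∀ j : ℕ, ∃ B : ℝ, 0 ≤ B ∧ ∀ x, |iteratedDeriv j w x| ≤ B := by
    intro j
    have hc : Continuous (iteratedDeriv j w) := hw.continuous_iteratedDeriv j (by exact_mod_cast le_top)
    obtain ⟨B, hB⟩ := (isCompact_Icc (a := (-1 : ℝ)) (b := 1)).exists_bound_of_continuousOn hc.continuousOn
    have hB0 : 0 ≤ B := (norm_nonneg _).trans (hB 0 (by constructor <;> norm_num))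
    refine ⟨B, hB0, fun x => ?_⟩
    rcases le_or_gt |x| 1 with hx | hx
    · exact hB x (abs_le.1 hx)
    · rw [iter_zero h0 j hx, abs_zero]
      exact hB0
  choose B hB0 hB using h1
  refine ⟨∑ j ∈ Finset.range (J + 1), B j, Finset.sum_nonneg fun j _ => hB0 j, fun j hj x => ?_⟩
  exact (hB j x).trans (Finset.single_le_sum (fun j _ => hB0 j) (Finset.mem_range.2 (by omega)))

/-- the iterates of the operator -/
lemma iter (h : StmtPka) {d : ℝ} (hd : 0 < d) (hd8 : d ≤ 1 / 8) {χ : ℝ → ℝ} (hχ : ContDiff ℝ ∞ χ)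
    (h0 : ∀ x, 1 ≤ |x| → χ x = 0) (k : ℕ) : ∀ J : ℕ, ∃ C t₀ : ℝ, 0 ≤ C ∧ 1 ≤ t₀ ∧
      ∀ (t : ℝ) (N : ℕ), t₀ ≤ t → t ^ (1 / 2 - d) ≤ N → (N : ℝ) ≤ 2 * t ^ (1 / 2 - d) → 1 ≤ N → k ≤ 2 * N →
        ContDiff ℝ ∞ ((Tp t N)^[k] χ) ∧ (∀ x, 1 + (k : ℝ) / N ≤ |x| → (Tp t N)^[k] χ x = 0) ∧
        ∀ j ≤ J, ∀ x, |iteratedDeriv j ((Tp t N)^[k] χ) x| ≤ C * (t ^ (2 * d)) ^ k := by
  induction k with
  | zero =>
    intro J
    obtain ⟨C, hC0, hC⟩ := chi_bound hχ h0 J
    refine ⟨C, 1, hC0, le_rfl, fun t N _ _ _ _ _ => ⟨hχ, ?_, ?_⟩⟩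
    · intro x hx
      simp only [Nat.cast_zero, zero_div, add_zero] at hx
      exact h0 x hx
    · intro j hj x
      rw [pow_zero, mul_one]
      exact hC j hj x
  | succ k ih =>
    intro J
    obtain ⟨C1, t1, hC1, ht1, h1⟩ := ih (J + 2)
    obtain ⟨C2, t2, hC2, ht2, h2⟩ := h d hd hd8 J
    refine ⟨C2 * C1, max t1 t2, by positivity, ht1.trans (le_max_left _ _), ?_⟩
    intro t N ht hN1 hN2 hN hk
    have ht1' : t1 ≤ t := (le_max_left _ _).trans ht
    have ht0 : (0 : ℝ) < t := by linarith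
    obtain ⟨a1, a2, a3⟩ := h1 t N ht1' hN1 hN2 hN (by omega)
    have hN0 : (0 : ℝ) < N := by exact_mod_cast hN
    have hkN : (k : ℝ) / N ≤ 2 := by
      rw [div_le_iff₀ hN0]
      have : ((k + 1 : ℕ) : ℝ) ≤ ((2 * N : ℕ) : ℝ) := by exact_mod_cast hk
      push_cast at this
      linarith
    obtain ⟨b1, b2⟩ := h2 t N ((le_max_right _ _).trans ht) hN1 hN2 ((Tp t N)^[k] χ)
      (C1 * (t ^ (2 * d)) ^ k) a1 (fun x hx => a2 x (by linarith)) (by positivity) a3
    rw [Function.iterate_succ_apply']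
    refine ⟨b1, ?_, ?_⟩
    · intro x hx
      push_cast at hx
      rw [add_div] at hx
      have hN' : 0 < 1 / (N : ℝ) := by positivity
      have c1 : (Tp t N)^[k] χ x = 0 := a2 x (by linarith)
      have c2 : (Tp t N)^[k] χ (x - 1 / N) = 0 := a2 _ (by
        have := abs_sub_abs_le_abs_sub x (1 / (N : ℝ))
        rw [abs_of_pos hN'] at this
        linarith)
      have c3 : (Tp t N)^[k] χ (x + 1 / N) = 0 := a2 _ (by
        have := abs_sub_abs_le_abs_sub x (-(1 / (N : ℝ)))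
        rw [abs_neg, abs_of_pos hN', sub_neg_eq_add] at this
        linarith)
      have c4 : ∀ u : ℝ → ℝ, u x = 0 → u (x - 1 / N) = 0 → u (x + 1 / N) = 0 → Tp t N u x = 0 := by
        intro u u1 u2 u3
        unfold Tp
        rw [u1, u2, u3]
        ring
      exact c4 _ c1 c2 c3
    · intro j hj x
      refine (b2 j hj x).trans (le_of_eq ?_)
      ring

/-- Lipschitz bound from the derivative -/
lemma lip {w : ℝ → ℝ} (hw : ContDiff ℝ ∞ w) {B : ℝ} (hB : ∀ x, |iteratedDeriv 1 w x| ≤ B) (x y : ℝ) :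
    |w y - w x| ≤ B * |y - x| := by
  have hd : ∀ z ∈ (univ : Set ℝ), HasDerivWithinAt w (deriv w z) univ z := fun z _ =>
    ((hw.differentiable (by simp)) z).hasDerivAt.hasDerivWithinAt
  have hb : ∀ z ∈ (univ : Set ℝ), ‖deriv w z‖ ≤ B := by
    intro z _
    have := hB z
    rw [iteratedDeriv_one] at this
    exact this
  exact Convex.norm_image_sub_le_of_norm_hasDerivWithin_le hd hb convex_univ (mem_univ x) (mem_univ y)

lemma sum_bound (S U : Finset ℤ) (f : ℤ → ℝ) (M : ℝ) (hM : 0 ≤ M) (h0 : ∀ n ∉ U, f n = 0)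
    (h1 : ∀ n, f n ≤ M) : ∑ n ∈ S, f n ≤ U.card * M := by
  classical
  have e1 : ∑ n ∈ S.filter (fun n => n ∈ U), f n = ∑ n ∈ S, f n :=
    Finset.sum_filter_of_ne fun n _ hn => by
      by_contra h
      exact hn (h0 n h)
  rw [← e1]
  refine (Finset.sum_le_card_nsmul _ _ M fun n _ => h1 n).trans ?_
  rw [nsmul_eq_mul]
  refine mul_le_mul_of_nonneg_right ?_ hM
  exact_mod_cast Finset.card_le_card fun n hn => (Finset.mem_filter.1 hn).2

/-- the operator on the integers -/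
lemma TT_one {t : ℝ} {N : ℕ} (hN : 1 ≤ N) (q : ℝ) (u : ℝ → ℝ) :
    TT t (fun n : ℤ => u ((n : ℝ) / N) / q) = fun n : ℤ => Tp t N u ((n : ℝ) / N) / q := by
  funext n
  have hN0 : (N : ℝ) ≠ 0 := by positivity
  have e1 : (((n - 1 : ℤ) : ℝ)) / N = (n : ℝ) / N - 1 / N := by
    push_cast
    ring
  have e2 : (((n + 1 : ℤ) : ℝ)) / N = (n : ℝ) / N + 1 / N := by
    push_cast
    ring
  have e3 : ((n : ℝ) / N - 1 / N) * N + 1 / 2 = ((n - 1 : ℤ) : ℝ) + 1 / 2 := by
    push_cast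
    field_simp
  have e4 : (n : ℝ) / N * N + 1 / 2 = (n : ℝ) + 1 / 2 := by
    field_simp
  unfold TT Tp la
  simp only
  rw [e1, e2, e3, e4]
  ring

/-- the iterates on the integers -/
lemma TT_iter {t : ℝ} {N : ℕ} (hN : 1 ≤ N) (q : ℝ) (χ : ℝ → ℝ) (k : ℕ) :
    (TT t)^[k] (fun n : ℤ => χ ((n : ℝ) / N) / q) = fun n : ℤ => (Tp t N)^[k] χ ((n : ℝ) / N) / q := by
  induction k with
  | zero => rfl
  | succ k ih =>
    rw [Function.iterate_succ_apply', ih, Function.iterate_succ_apply', TT_one hN]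

end PkM

open PkM in
theorem stmtPk (h : StmtPka) : StmtPk := by
  intro d hd hd8 K
  obtain ⟨χ, hχ, hev, hone, hzero, hle⟩ := exists_chi
  have hit := fun k => iter h hd hd8 hχ hzero k 1
  choose Ck tk hCk htk hit using hit
  set C : ℝ := 1 + ∑ k ∈ Finset.range (K + 2), Ck k with hC
  have hCle : ∀ k ≤ K + 1, Ck k ≤ C := by
    intro k hk
    have := Finset.single_le_sum (f := Ck) (fun k _ => hCk k) (Finset.mem_range.2 (by omega : k < K + 2))
    linarith
  have hC1 : 1 ≤ C := by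
    have := Finset.sum_nonneg (fun k (_ : k ∈ Finset.range (K + 2)) => hCk k)
    linarith
  have hC2 : 0 ≤ C ^ 2 := sq_nonneg C
  have hCC : 0 ≤ C * (1 + C) := by positivity
  set t₀ : ℝ := ((K : ℝ) + 1) ^ 4 + ∑ k ∈ Finset.range (K + 2), tk k with ht₀
  have htle : ∀ k ≤ K + 1, tk k ≤ t₀ := by
    intro k hk
    have := Finset.single_le_sum (f := tk) (fun k _ => (zero_le_one.trans (htk k)))
      (Finset.mem_range.2 (by omega : k < K + 2))
    have h4 : (0 : ℝ) ≤ ((K : ℝ) + 1) ^ 4 := by positivity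
    linarith
  have htsum : 0 ≤ ∑ k ∈ Finset.range (K + 2), tk k :=
    Finset.sum_nonneg (fun k (_ : k ∈ Finset.range (K + 2)) => zero_le_one.trans (htk k))
  refine ⟨5 * C ^ 2 + 6 * (C * (1 + C)) + 12 * C, t₀, by positivity, ?_, ?_⟩
  · exact (htk 0).trans (htle 0 (by omega))
  intro t ht
  have ht1 : (1 : ℝ) ≤ t := ((htk 0).trans (htle 0 (by omega))).trans ht
  have ht0 : (0 : ℝ) < t := by linarith
  set x₀ : ℝ := t ^ (1 / 2 - d) with hx₀
  have hx1 : 1 ≤ x₀ := Real.one_le_rpow ht1 (by linarith)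
  set N : ℕ := ⌈x₀⌉₊ with hN
  have hN1 : x₀ ≤ N := Nat.le_ceil _
  have hN2 : (N : ℝ) ≤ 2 * x₀ := by
    have := Nat.ceil_lt_add_one (by linarith : 0 ≤ x₀)
    linarith
  have hNr : (1 : ℝ) ≤ N := hx1.trans hN1
  have hNpos : 1 ≤ N := by exact_mod_cast hNr
  have hN0 : (0 : ℝ) < N := by linarith
  have hKx : (K : ℝ) + 1 ≤ x₀ := by
    have h1 : ((K : ℝ) + 1) ^ (4 : ℕ) ≤ t := by linarith
    have h2 : (K : ℝ) + 1 = (((K : ℝ) + 1) ^ (4 : ℕ)) ^ ((1 : ℝ) / 4) := by
      rw [← Real.rpow_natCast, ← Real.rpow_mul (by positivity)]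
      norm_num
    rw [h2]
    calc (((K : ℝ) + 1) ^ (4 : ℕ)) ^ ((1 : ℝ) / 4) ≤ t ^ ((1 : ℝ) / 4) :=
          Real.rpow_le_rpow (by positivity) h1 (by norm_num)
      _ ≤ x₀ := Real.rpow_le_rpow_of_exponent_le ht1 (by linarith)
  have hKN : K + 1 ≤ N := by
    have : ((K + 1 : ℕ) : ℝ) ≤ N := by
      push_cast
      linarith
    exact_mod_cast this
  -- the bounds for the iterates
  set T : ℝ := t ^ (2 * d) with hT
  have hT1 : 1 ≤ T := Real.one_le_rpow ht1 (by linarith)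
  have hT0 : 0 < T := by linarith
  have hI : ∀ k ≤ K + 1, ContDiff ℝ ∞ ((Tp t N)^[k] χ) ∧ ∀ j ≤ 1, ∀ x,
      |iteratedDeriv j ((Tp t N)^[k] χ) x| ≤ C * T ^ k := by
    intro k hk
    obtain ⟨a1, _, a3⟩ := hit k t N ((htle k hk).trans ht) hN1 hN2 hNpos (by omega)
    refine ⟨a1, fun j hj x => (a3 j hj x).trans ?_⟩
    exact mul_le_mul_of_nonneg_right (hCle k hk) (by positivity)
  have hI0 : ∀ k ≤ K + 1, ∀ x, |(Tp t N)^[k] χ x| ≤ C * T ^ k := by
    intro k hk x
    have := (hI k hk).2 0 (by omega) x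
    rwa [iteratedDeriv_zero] at this
  -- the normalisation
  set Q : ℝ := ∑ n ∈ Finset.Icc (-(N : ℤ)) N, χ ((n : ℝ) / N) ^ 2 with hQ
  have hQN : (N : ℝ) ≤ Q := by
    have h1 : ∑ n ∈ Finset.Icc (-((N / 2 : ℕ) : ℤ)) ((N / 2 : ℕ) : ℤ), χ ((n : ℝ) / N) ^ 2 ≤ Q := by
      refine Finset.sum_le_sum_of_subset_of_nonneg ?_ (fun n _ _ => sq_nonneg _)
      intro n hn
      rw [Finset.mem_Icc] at hn ⊢
      omega
    have h2 : ∑ n ∈ Finset.Icc (-((N / 2 : ℕ) : ℤ)) ((N / 2 : ℕ) : ℤ), χ ((n : ℝ) / N) ^ 2 =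
        ((2 * (N / 2) + 1 : ℕ) : ℝ) := by
      have h3 : ∀ n ∈ Finset.Icc (-((N / 2 : ℕ) : ℤ)) ((N / 2 : ℕ) : ℤ), χ ((n : ℝ) / N) ^ 2 = 1 := by
        intro n hn
        rw [Finset.mem_Icc] at hn
        have h4 : 2 * |n| ≤ N := by
          rcases abs_cases n with h | h <;> omega
        have h5 : 2 * |(n : ℝ)| ≤ N := by exact_mod_cast h4
        rw [hone _ (by
          rw [abs_div, Nat.abs_cast, div_le_iff₀ hN0]
          linarith), one_pow]
      rw [Finset.sum_congr rfl h3, Finset.sum_const, Int.card_Icc, nsmul_eq_mul, mul_one]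
      congr 1
      omega
    rw [h2] at h1
    refine le_trans ?_ h1
    exact_mod_cast (by omega : N ≤ 2 * (N / 2) + 1)
  have hQ0 : 0 < Q := by linarith
  set q : ℝ := √Q with hq
  have hq0 : 0 < q := Real.sqrt_pos.2 hQ0
  have hqq : q ^ 2 = Q := Real.sq_sqrt hQ0.le
  set b : ℤ → ℝ := fun n => χ ((n : ℝ) / N) / q with hb
  have hTT : ∀ k, (TT t)^[k] b = fun n : ℤ => (Tp t N)^[k] χ ((n : ℝ) / N) / q := TT_iter hNpos q χ
  have hTT1 : TT t b = fun n : ℤ => (Tp t N) χ ((n : ℝ) / N) / q := hTT 1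
  have hb0 : ∀ n : ℤ, (N : ℤ) < |n| → b n = 0 := by
    intro n hn
    have h1 : (N : ℝ) ≤ |(n : ℝ)| := by
      have : ((N : ℤ) : ℝ) ≤ ((|n| : ℤ) : ℝ) := by exact_mod_cast hn.le
      rw [Int.cast_abs] at this
      simpa using this
    simp only [hb]
    rw [hzero _ (by
      rw [abs_div, Nat.abs_cast, le_div_iff₀ hN0, one_mul]
      exact h1), zero_div]
  have hcard : (2 * (N : ℝ) + 1) ≤ 3 * N := by linarith
  refine ⟨N, b, by omega, ⟨hNpos, hN1, hN2, hb0, ?_, ?_, ?_, ?_, ?_⟩⟩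
  · intro n
    simp only [hb]
    have : (((-n : ℤ) : ℝ)) / N = -((n : ℝ) / N) := by
      push_cast
      ring
    rw [this, hev]
  · simp only [hb, div_pow]
    rw [← Finset.sum_div, hqq]
    exact div_self hQ0.ne'
  · intro k hk
    rw [hTT k]
    have h1 : ∀ n : ℤ, ((Tp t N)^[k] χ ((n : ℝ) / N) / q) ^ 2 ≤ (C * T ^ k) ^ 2 / Q := by
      intro n
      rw [div_pow, hqq]
      refine div_le_div_of_nonneg_right ?_ hQ0.le
      rw [← sq_abs]
      exact pow_le_pow_left₀ (abs_nonneg _) (hI0 k (by omega) _) 2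
    refine (Finset.sum_le_card_nsmul _ _ _ fun n _ => h1 n).trans ?_
    rw [nsmul_eq_mul, Int.card_Icc]
    have h2 : ((((N + K : ℕ) : ℤ) + 1 - -((N + K : ℕ) : ℤ)).toNat : ℝ) ≤ 5 * N := by
      have h3 : (((N + K : ℕ) : ℤ) + 1 - -((N + K : ℕ) : ℤ)).toNat ≤ 5 * N := by omega
      exact_mod_cast h3
    have h4 : (C * T ^ k) ^ 2 / Q ≤ (C * T ^ k) ^ 2 / N :=
      div_le_div_of_nonneg_left (by positivity) hN0 hQN
    have h5 : (0 : ℝ) ≤ (C * T ^ k) ^ 2 / N := by positivity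
    calc ((((N + K : ℕ) : ℤ) + 1 - -((N + K : ℕ) : ℤ)).toNat : ℝ) * ((C * T ^ k) ^ 2 / Q) ≤
          5 * N * ((C * T ^ k) ^ 2 / N) := mul_le_mul h2 h4 (by positivity) (by positivity)
      _ = 5 * C ^ 2 * T ^ (2 * k) := by
          field_simp
          ring
      _ ≤ (5 * C ^ 2 + 6 * (C * (1 + C)) + 12 * C) * T ^ (2 * k) :=
          mul_le_mul_of_nonneg_right (by linarith) (by positivity)
  · intro j S
    rw [hTT1]
    have hu := hI 0 (by omega)
    have hv := hI 1 (by omega)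
    simp only [Function.iterate_zero, id, pow_zero, mul_one] at hu
    simp only [Function.iterate_one, pow_one] at hv
    have hv0 := hI0 1 (by omega)
    simp only [Function.iterate_one, pow_one] at hv0
    set v : ℝ → ℝ := Tp t N χ with hvdef
    set M : ℝ := C * (1 + C) * T * |(j : ℝ)| / N / Q with hM
    have hM0 : 0 ≤ M := by positivity
    have h1 : ∀ n : ℤ, |b n * (v (((n + j : ℤ) : ℝ) / N) / q) - b (n + j) * (v ((n : ℝ) / N) / q)| ≤ M := by
      intro n
      simp only [hb]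
      set x := (n : ℝ) / N with hx
      set y := ((n + j : ℤ) : ℝ) / N with hy
      have hxy : |y - x| = |(j : ℝ)| / N := by
        have : y - x = (j : ℝ) / N := by
          rw [hx, hy]
          push_cast
          ring
        rw [this, abs_div, Nat.abs_cast]
      have e1 : χ x / q * (v y / q) - χ y / q * (v x / q) = (χ x * (v y - v x) - v x * (χ y - χ x)) / Q := by
        rw [← hqq]
        field_simp
        ring
      have l1 : |χ y - χ x| ≤ C * (|(j : ℝ)| / N) := by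
        rw [← hxy]
        exact lip hu.1 (hu.2 1 le_rfl) x y
      have l2 : |v y - v x| ≤ C * T * (|(j : ℝ)| / N) := by
        rw [← hxy]
        exact lip hv.1 (hv.2 1 le_rfl) x y
      rw [e1, abs_div, abs_of_pos hQ0, hM]
      refine div_le_div_of_nonneg_right ?_ hQ0.le
      have l3 : |χ x * (v y - v x)| ≤ 1 * (C * T * (|(j : ℝ)| / N)) := by
        rw [abs_mul]
        exact mul_le_mul (hle x) l2 (abs_nonneg _) zero_le_one
      have l4 : |v x * (χ y - χ x)| ≤ C * T * (C * (|(j : ℝ)| / N)) := by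
        rw [abs_mul]
        exact mul_le_mul (hv0 x) l1 (abs_nonneg _) (by positivity)
      have l5 := abs_sub (χ x * (v y - v x)) (v x * (χ y - χ x))
      have l6 : C * (1 + C) * T * |(j : ℝ)| / N = 1 * (C * T * (|(j : ℝ)| / N)) + C * T * (C * (|(j : ℝ)| / N)) := by
        ring
      rw [l6]
      linarith
    have h2 := sum_bound S (Finset.Icc (-(N : ℤ)) N ∪ Finset.Icc (-(N : ℤ) - j) (N - j))
      (fun n => |b n * (v (((n + j : ℤ) : ℝ) / N) / q) - b (n + j) * (v ((n : ℝ) / N) / q)|) M hM0 (by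
        intro n hn
        rw [Finset.mem_union, Finset.mem_Icc, Finset.mem_Icc] at hn
        have c1 : b n = 0 := hb0 n (by
          rcases abs_cases n with h | h <;> omega)
        have c2 : b (n + j) = 0 := hb0 _ (by
          rcases abs_cases (n + j) with h | h <;> omega)
        rw [c1, c2]
        simp) h1
    have h3 : ((Finset.Icc (-(N : ℤ)) N ∪ Finset.Icc (-(N : ℤ) - j) (N - j)).card : ℝ) ≤ 6 * N := by
      have h4 : (Finset.Icc (-(N : ℤ)) N ∪ Finset.Icc (-(N : ℤ) - j) (N - j)).card ≤ 6 * N := by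
        refine (Finset.card_union_le _ _).trans ?_
        rw [Int.card_Icc, Int.card_Icc]
        omega
      exact_mod_cast h4
    refine h2.trans ?_
    have h5 : T / N ≤ t ^ (-(1 / 2) + 3 * d) := by
      rw [div_le_iff₀ hN0]
      calc T = t ^ (-(1 / 2) + 3 * d) * x₀ := by
            rw [hT, hx₀, ← Real.rpow_add ht0]
            congr 1
            ring
        _ ≤ t ^ (-(1 / 2) + 3 * d) * N := mul_le_mul_of_nonneg_left hN1 (by positivity)
    have h6 : M ≤ C * (1 + C) * |(j : ℝ)| * (T / N) / N := by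
      rw [hM]
      have : C * (1 + C) * T * |(j : ℝ)| / N = C * (1 + C) * |(j : ℝ)| * (T / N) := by ring
      rw [this]
      exact div_le_div_of_nonneg_left (by positivity) hN0 hQN
    calc ((Finset.Icc (-(N : ℤ)) N ∪ Finset.Icc (-(N : ℤ) - j) (N - j)).card : ℝ) * M ≤
          6 * N * (C * (1 + C) * |(j : ℝ)| * (T / N) / N) := mul_le_mul h3 h6 hM0 (by positivity)
      _ = 6 * (C * (1 + C)) * |(j : ℝ)| * (T / N) := by
          field_simp
      _ ≤ 6 * (C * (1 + C)) * |(j : ℝ)| * t ^ (-(1 / 2) + 3 * d) :=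
          mul_le_mul_of_nonneg_left h5 (by positivity)
      _ ≤ (5 * C ^ 2 + 6 * (C * (1 + C)) + 12 * C) * |(j : ℝ)| * t ^ (-(1 / 2) + 3 * d) := by
          refine mul_le_mul_of_nonneg_right (mul_le_mul_of_nonneg_right ?_ (abs_nonneg _)) (by positivity)
          linarith
  · intro S
    have hu := hI 0 (by omega)
    simp only [Function.iterate_zero, id, pow_zero, mul_one] at hu
    set M : ℝ := 2 * C / N / Q with hM
    have hM0 : 0 ≤ M := by positivity
    have h1 : ∀ n : ℤ, |b n ^ 2 - b (n + 1) ^ 2| ≤ M := by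
      intro n
      simp only [hb]
      set x := (n : ℝ) / N with hx
      set y := ((n + 1 : ℤ) : ℝ) / N with hy
      have hxy : |y - x| = 1 / N := by
        have : y - x = 1 / N := by
          rw [hx, hy]
          push_cast
          ring
        rw [this, abs_div, Nat.abs_cast, abs_one]
      have e1 : (χ x / q) ^ 2 - (χ y / q) ^ 2 = -((χ y - χ x) * (χ x + χ y)) / Q := by
        rw [← hqq]
        field_simp
        ring
      have l1 : |χ y - χ x| ≤ C * (1 / N) := by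
        rw [← hxy]
        exact lip hu.1 (hu.2 1 le_rfl) x y
      have l2 : |χ x + χ y| ≤ 2 := by
        have := abs_add_le (χ x) (χ y)
        have := hle x
        have := hle y
        linarith
      rw [e1, abs_div, abs_neg, abs_of_pos hQ0, abs_mul, hM]
      refine div_le_div_of_nonneg_right ?_ hQ0.le
      calc |χ y - χ x| * |χ x + χ y| ≤ C * (1 / N) * 2 := mul_le_mul l1 l2 (abs_nonneg _) (by positivity)
        _ = 2 * C / N := by ring
    have h2 := sum_bound S (Finset.Icc (-(N : ℤ)) N ∪ Finset.Icc (-(N : ℤ) - 1) (N - 1))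
      (fun n => |b n ^ 2 - b (n + 1) ^ 2|) M hM0 (by
        intro n hn
        rw [Finset.mem_union, Finset.mem_Icc, Finset.mem_Icc] at hn
        have c1 : b n = 0 := hb0 n (by
          rcases abs_cases n with h | h <;> omega)
        have c2 : b (n + 1) = 0 := hb0 _ (by
          rcases abs_cases (n + 1) with h | h <;> omega)
        rw [c1, c2]
        simp) h1
    have h3 : ((Finset.Icc (-(N : ℤ)) N ∪ Finset.Icc (-(N : ℤ) - 1) (N - 1)).card : ℝ) ≤ 6 * N := by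
      have h4 : (Finset.Icc (-(N : ℤ)) N ∪ Finset.Icc (-(N : ℤ) - 1) (N - 1)).card ≤ 6 * N := by
        refine (Finset.card_union_le _ _).trans ?_
        rw [Int.card_Icc, Int.card_Icc]
        omega
      exact_mod_cast h4
    refine h2.trans ?_
    have h6 : M ≤ 2 * C / N / N := by
      rw [hM]
      exact div_le_div_of_nonneg_left (by positivity) hN0 hQN
    calc ((Finset.Icc (-(N : ℤ)) N ∪ Finset.Icc (-(N : ℤ) - 1) (N - 1)).card : ℝ) * M ≤
          6 * N * (2 * C / N / N) := mul_le_mul h3 h6 hM0 (by positivity)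
      _ = 12 * C / N := by
          field_simp
          ring
      _ ≤ (5 * C ^ 2 + 6 * (C * (1 + C)) + 12 * C) / N :=
          div_le_div_of_nonneg_right (by linarith) hN0.le

end

end Pool.Agent.A54.Hp
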