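import Pool.Agent.Lib.MP_a54f13_nt.Hp.SpecA

/-!
# Package `Hp`, module `Pka` (helper62): the operator `T - t` on smooth profiles
-/

set_option autoImplicit false

namespace Pool.Agent.A54.Hp

open MeasureTheory Filter Topology Set
open scoped ContDiff ComplexConjugate UpperHalfPlane MatrixGroups ENNReal

noncomputable section

namespace PkaM

/-- `ψ(y) = √(1 + y²) - 1` -/
def ps (y : ℝ) : ℝ := √(1 + y ^ 2) - 1

lemma ps_smooth : ContDiff ℝ ∞ ps := by
  unfold ps
  exact ((contDiff_const.add (contDiff_id.pow 2)).sqrt (fun y => by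
    have : (0 : ℝ) < 1 + id y ^ 2 := by positivity
    exact this.ne')).sub contDiff_const

lemma ps_le (y : ℝ) : |ps y| ≤ y ^ 2 := by
  unfold ps
  have h1 : 1 ≤ √(1 + y ^ 2) := by
    rw [Real.one_le_sqrt]
    nlinarith [sq_nonneg y]
  have h2 : √(1 + y ^ 2) ≤ 1 + y ^ 2 := by
    rw [Real.sqrt_le_left (by positivity)]
    nlinarith [sq_nonneg y]
  rw [abs_of_nonneg (by linarith)]
  linarith

lemma ps_deriv (y : ℝ) : |deriv ps y| ≤ |y| := by
  have hpos : (0 : ℝ) < 1 + y ^ 2 := by positivity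
  have h1 : HasDerivAt ps (2 * y / (2 * √(1 + y ^ 2))) y := by
    have h2 : HasDerivAt (fun y : ℝ => 1 + y ^ 2) (2 * y) y := by
      have := ((hasDerivAt_id y).pow 2).const_add 1
      simpa using this
    exact (h2.sqrt hpos.ne').sub_const 1
  rw [h1.deriv]
  have h3 : 1 ≤ √(1 + y ^ 2) := by
    rw [Real.one_le_sqrt]
    nlinarith [sq_nonneg y]
  have h4 : 2 * y / (2 * √(1 + y ^ 2)) = y / √(1 + y ^ 2) := by
    rw [mul_div_mul_left _ _ (by norm_num)]
  rw [h4, abs_div, abs_of_nonneg (by linarith : (0 : ℝ) ≤ √(1 + y ^ 2))]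
  exact div_le_self (abs_nonneg y) h3

/-- `λ - t` -/
def Lf (t : ℝ) (N : ℕ) (x : ℝ) : ℝ := t * ps ((x * N + 1 / 2) / t)

lemma sqrt_eq {t : ℝ} (ht : 0 < t) (N : ℕ) (x : ℝ) : √((x * N + 1 / 2) ^ 2 + t ^ 2) = t + Lf t N x := by
  unfold Lf ps
  have h1 : (x * N + 1 / 2) ^ 2 + t ^ 2 = t ^ 2 * (1 + ((x * N + 1 / 2) / t) ^ 2) := by
    field_simp
    ring
  rw [h1, Real.sqrt_mul (by positivity), Real.sqrt_sq ht.le]
  ring

lemma Lf_form (t : ℝ) (N : ℕ) : Lf t N = fun x => t * (fun z => ps (z + 1 / 2 / t)) ((N : ℝ) / t * x) := by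
  funext x
  unfold Lf
  simp only
  congr 2
  rw [add_div]
  ring

lemma shift_smooth (e : ℝ) : ContDiff ℝ ∞ (fun z => ps (z + e)) :=
  ps_smooth.comp (contDiff_id.add contDiff_const)

lemma Lf_smooth (t : ℝ) (N : ℕ) : ContDiff ℝ ∞ (Lf t N) := by
  rw [Lf_form]
  exact contDiff_const.mul ((shift_smooth _).comp (contDiff_const.mul contDiff_id))

lemma Lf_iter (t : ℝ) (N i : ℕ) (x : ℝ) : iteratedDeriv i (Lf t N) x =
    t * (((N : ℝ) / t) ^ i * iteratedDeriv i ps ((x * N + 1 / 2) / t)) := by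
  rw [Lf_form, iteratedDeriv_const_mul_field,
    iteratedDeriv_comp_const_mul ((shift_smooth (1 / 2 / t)).of_le (by exact_mod_cast le_top)) ((N : ℝ) / t),
    iteratedDeriv_comp_add_const]
  simp only
  congr 3
  rw [add_div]
  ring

lemma L_bound (i : ℕ) : ∃ D : ℝ, 0 ≤ D ∧ ∀ (t : ℝ) (N : ℕ), 1 ≤ t → 1 ≤ N → (N : ℝ) ≤ t → (N : ℝ) ^ 2 ≤ 4 * t →
    ∀ x : ℝ, |x| ≤ 4 → |iteratedDeriv i (Lf t N) x| ≤ D := by
  have hc : Continuous (iteratedDeriv i ps) := ps_smooth.continuous_iteratedDeriv i (by exact_mod_cast le_top)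
  obtain ⟨B, hB⟩ := (isCompact_Icc (a := (-5 : ℝ)) (b := 5)).exists_bound_of_continuousOn hc.continuousOn
  have hB0 : 0 ≤ B := (norm_nonneg _).trans (hB 0 (by constructor <;> norm_num))
  refine ⟨100 + 4 * B, by positivity, ?_⟩
  intro t N ht hN hNt hN2 x hx
  have ht0 : 0 < t := by linarith
  have hN1 : (1 : ℝ) ≤ N := by exact_mod_cast hN
  set y := (x * N + 1 / 2) / t with hy
  have hy1 : |y| ≤ 5 * N / t := by
    rw [hy, abs_div, abs_of_pos ht0]
    refine div_le_div_of_nonneg_right ?_ ht0.le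
    have h1 : |x * N + 1 / 2| ≤ |x * N| + |1 / 2| := abs_add_le _ _
    have h2 : |x * N| = |x| * N := by rw [abs_mul, abs_of_nonneg (by linarith : (0 : ℝ) ≤ N)]
    have h3 : |x| * N ≤ 4 * N := mul_le_mul_of_nonneg_right hx (by linarith)
    have h4 : |(1 / 2 : ℝ)| = 1 / 2 := abs_of_pos (by norm_num)
    rw [h2, h4] at h1
    linarith
  have hy5 : |y| ≤ 5 := by
    refine hy1.trans ?_
    rw [div_le_iff₀ ht0]
    linarith
  have hNN : (N : ℝ) ^ 2 / t ≤ 4 := by
    rw [div_le_iff₀ ht0]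
    exact hN2
  have hNt1 : (N : ℝ) / t ≤ 1 := by
    rw [div_le_one ht0]
    exact hNt
  have hNt0 : 0 ≤ (N : ℝ) / t := by positivity
  rw [Lf_iter, abs_mul, abs_of_pos ht0, abs_mul, abs_of_nonneg (pow_nonneg hNt0 i), ← hy]
  have hBy : |iteratedDeriv i ps y| ≤ B := hB y (abs_le.1 hy5)
  rcases Nat.lt_or_ge i 2 with hi | hi
  · rcases (by omega : i = 0 ∨ i = 1) with h0 | h0
    · subst h0
      rw [iteratedDeriv_zero, pow_zero, one_mul]
      have h1 : |ps y| ≤ (5 * N / t) ^ 2 := (ps_le y).trans (by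
        rw [← sq_abs y]
        exact pow_le_pow_left₀ (abs_nonneg y) hy1 2)
      calc t * |ps y| ≤ t * (5 * N / t) ^ 2 := mul_le_mul_of_nonneg_left h1 ht0.le
        _ = 25 * ((N : ℝ) ^ 2 / t) := by
          field_simp
          ring
        _ ≤ 100 + 4 * B := by linarith
    · subst h0
      rw [iteratedDeriv_one, pow_one]
      have h1 : |deriv ps y| ≤ 5 * N / t := (ps_deriv y).trans hy1
      calc t * ((N : ℝ) / t * |deriv ps y|) ≤ t * ((N : ℝ) / t * (5 * N / t)) :=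
            mul_le_mul_of_nonneg_left (mul_le_mul_of_nonneg_left h1 hNt0) ht0.le
        _ = 5 * ((N : ℝ) ^ 2 / t) := by
          field_simp
        _ ≤ 100 + 4 * B := by linarith
  · have h1 : ((N : ℝ) / t) ^ i ≤ ((N : ℝ) / t) ^ 2 := pow_le_pow_of_le_one hNt0 hNt1 hi
    calc t * (((N : ℝ) / t) ^ i * |iteratedDeriv i ps y|) ≤ t * (((N : ℝ) / t) ^ 2 * B) :=
          mul_le_mul_of_nonneg_left (mul_le_mul h1 hBy (abs_nonneg _) (by positivity)) ht0.le
      _ = ((N : ℝ) ^ 2 / t) * B := by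
          field_simp
      _ ≤ 4 * B := mul_le_mul_of_nonneg_right hNN hB0
      _ ≤ 100 + 4 * B := by linarith

lemma iter_zero {w : ℝ → ℝ} {R : ℝ} (hw : ∀ x, R ≤ |x| → w x = 0) (j : ℕ) {x : ℝ} (hx : R < |x|) :
    iteratedDeriv j w x = 0 := by
  have h1 : w =ᶠ[𝓝 x] fun _ => (0 : ℝ) := by
    have h2 : ∀ᶠ y in 𝓝 x, R < |y| := (continuous_abs.tendsto x).eventually (lt_mem_nhds hx)
    filter_upwards [h2] with y hy
    exact hw y hy.le
  rw [h1.iteratedDeriv_eq j]
  simp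

/-- products with `λ - t` -/
lemma prod_bound (J : ℕ) : ∃ C : ℝ, 0 ≤ C ∧ ∀ (t : ℝ) (N : ℕ), 1 ≤ t → 1 ≤ N → (N : ℝ) ≤ t →
    (N : ℝ) ^ 2 ≤ 4 * t → ∀ (w : ℝ → ℝ) (A : ℝ), ContDiff ℝ ∞ w → (∀ x, 4 ≤ |x| → w x = 0) → 0 ≤ A →
    (∀ j ≤ J, ∀ x, |iteratedDeriv j w x| ≤ A) →
    ∀ j ≤ J, ∀ x, |iteratedDeriv j (fun x => Lf t N x * w x) x| ≤ C * A := by
  choose D hD0 hD using L_bound
  refine ⟨∑ j ∈ Finset.range (J + 1), ∑ i ∈ Finset.range (j + 1), (j.choose i : ℝ) * D i, ?_, ?_⟩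
  · exact Finset.sum_nonneg fun j _ => Finset.sum_nonneg fun i _ => mul_nonneg (Nat.cast_nonneg _) (hD0 i)
  intro t N ht hN hNt hN2 w A hw hw0 hA hwA j hj x
  have hC : ∑ i ∈ Finset.range (j + 1), (j.choose i : ℝ) * D i ≤
      ∑ j ∈ Finset.range (J + 1), ∑ i ∈ Finset.range (j + 1), (j.choose i : ℝ) * D i :=
    Finset.single_le_sum (f := fun j => ∑ i ∈ Finset.range (j + 1), (j.choose i : ℝ) * D i)
      (fun j _ => Finset.sum_nonneg fun i _ => mul_nonneg (Nat.cast_nonneg _) (hD0 i))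
      (Finset.mem_range.2 (by omega))
  refine le_trans ?_ (mul_le_mul_of_nonneg_right hC hA)
  rcases le_or_gt |x| 4 with hx | hx
  · rw [iteratedDeriv_fun_mul ((Lf_smooth t N).contDiffAt.of_le (by exact_mod_cast le_top))
      (hw.contDiffAt.of_le (by exact_mod_cast le_top)), Finset.sum_mul]
    refine (Finset.abs_sum_le_sum_abs _ _).trans (Finset.sum_le_sum fun i hi => ?_)
    rw [abs_mul, abs_mul, Nat.abs_cast]
    have hi' := Finset.mem_range.1 hi
    have h1 := hD i t N ht hN hNt hN2 x hx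
    have h2 := hwA (j - i) (by omega) x
    calc (j.choose i : ℝ) * |iteratedDeriv i (Lf t N) x| * |iteratedDeriv (j - i) w x| ≤
          (j.choose i : ℝ) * D i * A :=
          mul_le_mul (mul_le_mul_of_nonneg_left h1 (Nat.cast_nonneg _)) h2 (abs_nonneg _)
            (mul_nonneg (Nat.cast_nonneg _) (hD0 i))
      _ = _ := rfl
  · have h1 : iteratedDeriv j (fun x => Lf t N x * w x) x = 0 :=
      iter_zero (R := 4) (fun y hy => by rw [hw0 y hy, mul_zero]) j hx
    rw [h1, abs_zero]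
    exact mul_nonneg (Finset.sum_nonneg fun i _ => mul_nonneg (Nat.cast_nonneg _) (hD0 i)) hA

/-- second differences -/
lemma snd_diff (v v' v'' : ℝ → ℝ) (h1 : ∀ x, HasDerivAt v (v' x) x) (h2 : ∀ x, HasDerivAt v' (v'' x) x)
    (A : ℝ) (hA : ∀ x, |v'' x| ≤ A) (h : ℝ) (hh : 0 ≤ h) (x : ℝ) :
    |v (x - h) + v (x + h) - 2 * v x| ≤ h ^ 2 * A := by
  have a1 : ∀ y, ‖v' (y + h) - v' y‖ ≤ A * h := by
    intro y
    have := Convex.norm_image_sub_le_of_norm_hasDerivWithin_le (s := univ) (x := y) (y := y + h)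
      (fun z _ => (h2 z).hasDerivWithinAt) (fun z _ => hA z) convex_univ (mem_univ _) (mem_univ _)
    rw [add_sub_cancel_left, Real.norm_of_nonneg hh] at this
    exact this
  have a2 : ∀ y, HasDerivAt (fun y => v (y + h) - v y) (v' (y + h) - v' y) y := fun y =>
    ((h1 (y + h)).comp_add_const y h).sub (h1 y)
  have a3 := Convex.norm_image_sub_le_of_norm_hasDerivWithin_le (s := univ) (x := x - h) (y := x)
      (f := fun y => v (y + h) - v y)
      (fun z _ => (a2 z).hasDerivWithinAt) (fun z _ => a1 z) convex_univ (mem_univ _) (mem_univ _)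
  have a4 : x - (x - h) = h := by ring
  rw [a4, Real.norm_of_nonneg hh, Real.norm_eq_abs, sub_add_cancel] at a3
  have a5 : v (x + h) - v x - (v x - v (x - h)) = v (x - h) + v (x + h) - 2 * v x := by ring
  rw [a5] at a3
  refine a3.trans (le_of_eq ?_)
  ring

end PkaM

open PkaM in
theorem stmtPka : StmtPka := by
  intro d hd hd8 J
  obtain ⟨C, hC0, hC⟩ := prod_bound J
  refine ⟨C + 1, 4, by positivity, by norm_num, ?_⟩
  intro t N ht hN1 hN2 u A hu hu0 hA huA
  have ht0 : (0 : ℝ) < t := by linarith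
  have ht1 : (1 : ℝ) ≤ t := by linarith
  have hpow1 : (1 : ℝ) ≤ t ^ (1 / 2 - d) := Real.one_le_rpow ht1 (by linarith)
  have hN1' : (1 : ℝ) ≤ N := hpow1.trans hN1
  have hNpos : 1 ≤ N := by exact_mod_cast hN1'
  have hN0 : (0 : ℝ) < N := by linarith
  have hsq1 : (t ^ (1 / 2 - d)) ^ 2 = t ^ (1 - 2 * d) := by
    rw [← Real.rpow_natCast, ← Real.rpow_mul ht0.le]
    congr 1
    push_cast
    ring
  have hNle : (N : ℝ) ^ 2 ≤ 4 * t := by
    have h1 : (N : ℝ) ^ 2 ≤ (2 * t ^ (1 / 2 - d)) ^ 2 := pow_le_pow_left₀ hN0.le hN2 2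
    rw [mul_pow, hsq1] at h1
    have h2 : t ^ (1 - 2 * d) ≤ t ^ (1 : ℝ) := Real.rpow_le_rpow_of_exponent_le ht1 (by linarith)
    rw [Real.rpow_one] at h2
    linarith
  have hNt : (N : ℝ) ≤ t := by
    have h1 : (N : ℝ) ^ 2 ≤ t ^ 2 := by nlinarith
    exact (abs_le_of_sq_le_sq' h1 ht0.le).2
  set h : ℝ := 1 / N with hh
  have hh0 : 0 ≤ h := by positivity
  have hh1 : h ≤ 1 := by
    rw [hh, div_le_one hN0]
    exact hN1'
  have hth : t * h ^ 2 ≤ t ^ (2 * d) := by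
    have h1 : t ^ (1 - 2 * d) ≤ (N : ℝ) ^ 2 := by
      rw [← hsq1]
      exact pow_le_pow_left₀ (by positivity) hN1 2
    have h2 : t ^ (2 * d) * t ^ (1 - 2 * d) = t := by
      rw [← Real.rpow_add ht0]
      have : 2 * d + (1 - 2 * d) = 1 := by ring
      rw [this, Real.rpow_one]
    rw [hh, div_pow, one_pow, mul_one_div, div_le_iff₀ (by positivity)]
    calc t = t ^ (2 * d) * t ^ (1 - 2 * d) := h2.symm
      _ ≤ t ^ (2 * d) * (N : ℝ) ^ 2 := mul_le_mul_of_nonneg_left h1 (by positivity)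
  -- the decomposition
  set F1 : ℝ → ℝ := fun x => (1 / 2) * (fun z => Lf t N z * u z) (x - h) with hF1
  set F2 : ℝ → ℝ := fun x => (1 / 2) * (Lf t N x * u (x + h)) with hF2
  set F3 : ℝ → ℝ := fun x => (t / 2) * (u (x - h) + u (x + h) - 2 * u x) with hF3
  have hdec : (fun x : ℝ => (√(((x - h) * N + 1 / 2) ^ 2 + t ^ 2) * u (x - h) +
      √((x * N + 1 / 2) ^ 2 + t ^ 2) * u (x + h)) / 2 - t * u x) = fun x => (F1 x + F2 x) + F3 x := by
    funext x
    simp only [hF1, hF2, hF3]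
    rw [sqrt_eq ht0, sqrt_eq ht0]
    ring
  have sm : ContDiff ℝ ∞ (fun x => u (x - h)) := hu.comp (contDiff_id.sub contDiff_const)
  have sp : ContDiff ℝ ∞ (fun x => u (x + h)) := hu.comp (contDiff_id.add contDiff_const)
  have s1 : ContDiff ℝ ∞ F1 := contDiff_const.mul
    (((Lf_smooth t N).mul hu).comp (contDiff_id.sub contDiff_const))
  have s2 : ContDiff ℝ ∞ F2 := contDiff_const.mul ((Lf_smooth t N).mul sp)
  have s3 : ContDiff ℝ ∞ F3 := contDiff_const.mul ((sm.add sp).sub (contDiff_const.mul hu))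
  rw [hdec]
  refine ⟨(s1.add s2).add s3, ?_⟩
  intro j hj x
  have le_inf : ∀ m : ℕ, ((m : ℕ∞) : WithTop ℕ∞) ≤ ((⊤ : ℕ∞) : WithTop ℕ∞) := fun m => by
    exact_mod_cast le_top
  have e0 : iteratedDeriv j (fun x => (F1 x + F2 x) + F3 x) x =
      iteratedDeriv j F1 x + iteratedDeriv j F2 x + iteratedDeriv j F3 x := by
    rw [iteratedDeriv_fun_add ((s1.add s2).contDiffAt.of_le (le_inf j)) (s3.contDiffAt.of_le (le_inf j)),
      iteratedDeriv_fun_add (s1.contDiffAt.of_le (le_inf j)) (s2.contDiffAt.of_le (le_inf j))]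
  have b1 : |iteratedDeriv j F1 x| ≤ 1 / 2 * (C * A) := by
    have h1 := hC t N ht1 hNpos hNt hNle u A hu (fun x hx => hu0 x (by linarith)) hA
      (fun j hj x => huA j (by omega) x) j hj (x - h)
    rw [hF1, iteratedDeriv_const_mul_field, iteratedDeriv_comp_sub_const j (fun z => Lf t N z * u z) h, abs_mul,
      abs_of_pos (by norm_num : (0 : ℝ) < 1 / 2)]
    exact mul_le_mul_of_nonneg_left h1 (by norm_num)
  have b2 : |iteratedDeriv j F2 x| ≤ 1 / 2 * (C * A) := by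
    have h1 := hC t N ht1 hNpos hNt hNle (fun x => u (x + h)) A sp (fun x hx => hu0 _ (by
        have : |x| ≤ |x + h| + |h| := by
          have := abs_sub (x + h) h
          rw [add_sub_cancel_right] at this
          exact this
        rw [abs_of_nonneg hh0] at this
        linarith)) hA
      (fun j hj x => by
        rw [iteratedDeriv_comp_add_const]
        exact huA j (by omega) (x + h)) j hj x
    rw [hF2, iteratedDeriv_const_mul_field, abs_mul, abs_of_pos (by norm_num : (0 : ℝ) < 1 / 2)]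
    exact mul_le_mul_of_nonneg_left h1 (by norm_num)
  have b3 : |iteratedDeriv j F3 x| ≤ 1 / 2 * (t ^ (2 * d) * A) := by
    have e1 : iteratedDeriv j F3 x = (t / 2) * (iteratedDeriv j u (x - h) + iteratedDeriv j u (x + h) -
        2 * iteratedDeriv j u x) := by
      rw [hF3, iteratedDeriv_const_mul_field,
        iteratedDeriv_fun_sub ((sm.add sp).contDiffAt.of_le (le_inf j))
          ((contDiff_const.mul hu).contDiffAt.of_le (le_inf j)),
        iteratedDeriv_fun_add (sm.contDiffAt.of_le (le_inf j)) (sp.contDiffAt.of_le (le_inf j)),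
        iteratedDeriv_const_mul_field, iteratedDeriv_comp_sub_const, iteratedDeriv_comp_add_const]
    have hd1 : ∀ m : ℕ, ∀ y, HasDerivAt (iteratedDeriv m u) (iteratedDeriv (m + 1) u y) y := by
      intro m y
      have h1 : Differentiable ℝ (iteratedDeriv m u) :=
        hu.differentiable_iteratedDeriv m (by exact_mod_cast WithTop.coe_lt_top _)
      rw [iteratedDeriv_succ]
      exact (h1 y).hasDerivAt
    have h1 := snd_diff (iteratedDeriv j u) (iteratedDeriv (j + 1) u) (iteratedDeriv (j + 1 + 1) u)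
      (hd1 j) (hd1 (j + 1)) A (fun y => huA (j + 1 + 1) (by omega) y) h hh0 x
    rw [e1, abs_mul, abs_of_pos (by positivity : (0 : ℝ) < t / 2)]
    calc t / 2 * |iteratedDeriv j u (x - h) + iteratedDeriv j u (x + h) - 2 * iteratedDeriv j u x| ≤
          t / 2 * (h ^ 2 * A) := mul_le_mul_of_nonneg_left h1 (by positivity)
      _ = 1 / 2 * ((t * h ^ 2) * A) := by ring
      _ ≤ 1 / 2 * (t ^ (2 * d) * A) :=
          mul_le_mul_of_nonneg_left (mul_le_mul_of_nonneg_right hth hA) (by norm_num)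
  have ht2d : (1 : ℝ) ≤ t ^ (2 * d) := Real.one_le_rpow ht1 (by linarith)
  have hCA : 0 ≤ C * A := mul_nonneg hC0 hA
  rw [e0]
  have h3 := abs_add_three (iteratedDeriv j F1 x) (iteratedDeriv j F2 x) (iteratedDeriv j F3 x)
  have h4 : C * A ≤ t ^ (2 * d) * (C * A) := le_mul_of_one_le_left hCA ht2d
  have h5 : 0 ≤ t ^ (2 * d) * A := by positivity
  calc _ ≤ 1 / 2 * (C * A) + 1 / 2 * (C * A) + 1 / 2 * (t ^ (2 * d) * A) := by linarith
    _ ≤ t ^ (2 * d) * (C * A) + t ^ (2 * d) * A := by linarith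
    _ = (C + 1) * t ^ (2 * d) * A := by ring

end

end Pool.Agent.A54.Hp
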