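import Pool.Agent.Lib.MP_a54f13_nt.Hp.SpecB

/-!
# Package `Hp`, module Po: polar coordinates and the sinh substitution (helper94)
-/

set_option autoImplicit false

namespace Pool.Agent.A54.Hp

open MeasureTheory Filter Topology Set
open scoped ContDiff ComplexConjugate UpperHalfPlane MatrixGroups ENNReal

noncomputable section

namespace PoM

theorem subst_sq (F : ℝ → ℝ≥0∞) (hF : Measurable F) :
    2 * ∫⁻ r in Ioi (0 : ℝ), ENNReal.ofReal r * F (r ^ 2) = ∫⁻ u in Ioi (0 : ℝ), F u := by
  have himg : (fun x : ℝ => x ^ 2) '' Ioi (0 : ℝ) = Ioi 0 := by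
    ext u
    constructor
    · rintro ⟨r, hr, rfl⟩
      exact pow_pos (mem_Ioi.1 hr) 2
    · intro hu
      exact ⟨√u, Real.sqrt_pos.2 hu, Real.sq_sqrt (le_of_lt hu)⟩
  have h1 := lintegral_image_eq_lintegral_abs_deriv_mul (s := Ioi (0 : ℝ))
    (f := fun x : ℝ => x ^ 2) (f' := fun x => 2 * x) measurableSet_Ioi
    (fun x _ => by simpa using (hasDerivAt_pow 2 x).hasDerivWithinAt)
    (fun x hx y hy h => (pow_left_inj₀ (le_of_lt hx) (le_of_lt hy) two_ne_zero).1 h) F
  rw [himg] at h1
  rw [h1, ← lintegral_const_mul _ (by fun_prop)]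
  refine setLIntegral_congr_fun measurableSet_Ioi fun r hr => ?_
  have h2 : |2 * r| = 2 * r := abs_of_pos (by have := mem_Ioi.1 hr; positivity)
  rw [h2, ENNReal.ofReal_mul zero_le_two, ENNReal.ofReal_ofNat, mul_assoc]

end PoM

open PoM in
theorem stmtPo : StmtPo := by
  refine ⟨fun F hF => ?_, fun c α hc F hF => ?_⟩
  · have h0 : Measurable fun p : ℝ × ℝ => F (p.1 ^ 2 + p.2 ^ 2) := by fun_prop
    have h1 := lintegral_comp_polarCoord_symm (fun p : ℝ × ℝ => F (p.1 ^ 2 + p.2 ^ 2))
    have h2 : ∫⁻ p : ℝ × ℝ, F (p.1 ^ 2 + p.2 ^ 2) = ∫⁻ x : ℝ, ∫⁻ y : ℝ, F (x ^ 2 + y ^ 2) := by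
      rw [Measure.volume_eq_prod, lintegral_prod _ h0.aemeasurable]
    rw [← h2, ← h1]
    have h3 : ∀ p : ℝ × ℝ, ENNReal.ofReal p.1 • F ((polarCoord.symm p).1 ^ 2 +
        (polarCoord.symm p).2 ^ 2) = ENNReal.ofReal p.1 * F (p.1 ^ 2) := by
      intro p
      have h4 : (polarCoord.symm p).1 ^ 2 + (polarCoord.symm p).2 ^ 2 = p.1 ^ 2 := by
        rw [polarCoord_symm_apply]
        have := Real.sin_sq_add_cos_sq p.2
        simp only
        linear_combination p.1 ^ 2 * this
      rw [h4, smul_eq_mul]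
    simp only [h3]
    have h4 : polarCoord.target = Ioi (0 : ℝ) ×ˢ Ioo (-Real.pi) Real.pi := rfl
    have h5 : Measurable fun p : ℝ × ℝ => ENNReal.ofReal p.1 * F (p.1 ^ 2) := by fun_prop
    rw [h4, Measure.volume_eq_prod, ← Measure.prod_restrict, lintegral_prod _ h5.aemeasurable]
    simp only [lintegral_const, Measure.restrict_apply MeasurableSet.univ, univ_inter,
      Real.volume_Ioo]
    rw [lintegral_mul_const _ (by fun_prop), ← subst_sq F hF]
    have h6 : ENNReal.ofReal (Real.pi - -Real.pi) = ENNReal.ofReal Real.pi * 2 := by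
      rw [← ENNReal.ofReal_ofNat 2, ← ENNReal.ofReal_mul Real.pi_pos.le]
      congr 1
      ring
    rw [h6]
    ring
  · have hd : ∀ x, HasDerivAt (fun x => 2 * c * Real.sinh (x + α))
        (2 * c * Real.cosh (x + α)) x := by
      intro x
      have h1 := ((Real.hasDerivAt_sinh (x + α)).comp x ((hasDerivAt_id x).add_const α))
      simpa using h1.const_mul (2 * c)
    have hinj : Function.Injective fun x => 2 * c * Real.sinh (x + α) := by
      intro x y h
      have h1 : Real.sinh (x + α) = Real.sinh (y + α) :=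
        mul_left_cancel₀ (by positivity) h
      exact add_right_cancel (Real.sinh_injective h1)
    have hsurj : Function.Surjective fun x => 2 * c * Real.sinh (x + α) := by
      intro y
      obtain ⟨z, hz⟩ := Real.sinh_surjective (y / (2 * c))
      refine ⟨z - α, ?_⟩
      simp only [sub_add_cancel, hz]
      field_simp
    have h1 := lintegral_image_eq_lintegral_abs_deriv_mul (s := univ)
      (f := fun x => 2 * c * Real.sinh (x + α)) (f' := fun x => 2 * c * Real.cosh (x + α))
      MeasurableSet.univ (fun x _ => (hd x).hasDerivWithinAt) hinj.injOn F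
    rw [image_univ, hsurj.range_eq, Measure.restrict_univ] at h1
    rw [h1]
    refine lintegral_congr fun x => ?_
    rw [abs_of_pos (mul_pos (by positivity) (Real.cosh_pos _))]

end

end Pool.Agent.A54.Hp
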