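import Pool.Agent.Lib.MP_a54f13_nt.Hp.SpecB
import Pool.Agent.Lib.MP_a54f13_nt.IntLap

/-!
# Package `Hp`, part B, module Pv: mean squares of `Ed` and `V2`
-/

set_option autoImplicit false

namespace Pool.Agent.A54.Hp

open MeasureTheory Filter Topology Set
open scoped ContDiff ComplexConjugate UpperHalfPlane MatrixGroups ENNReal
open Pool.Agent.A54.Half (H0)
open Pool.Agent.A54.Sq (la TestP)

noncomputable section

namespace PvM

lemma cont_uh : Continuous fun p : ℍ × ℍ => uh p.1 p.2 := by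
  unfold uh
  refine Continuous.div ?_ ?_ ?_
  · exact (((UpperHalfPlane.continuous_coe.comp continuous_fst).sub
      (UpperHalfPlane.continuous_coe.comp continuous_snd)).norm).pow 2
  · exact (UpperHalfPlane.continuous_im.comp continuous_fst).mul
      (UpperHalfPlane.continuous_im.comp continuous_snd)
  · intro p
    exact (mul_pos p.1.im_pos p.2.im_pos).ne'

lemma meas_kk (r : ℝ) : Measurable (kk r) := by
  unfold kk
  exact Measurable.ite measurableSet_Iio measurable_const measurable_const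

lemma kk_nonneg (r u : ℝ) : 0 ≤ kk r u := by
  unfold kk
  split_ifs
  · positivity
  · exact le_rfl

lemma ofReal_int_le {α : Type} [MeasurableSpace α] {μ : Measure α} {f : α → ℝ}
    (hf : ∀ x, 0 ≤ f x) : ENNReal.ofReal (∫ x, f x ∂μ) ≤ ∫⁻ x, ENNReal.ofReal (f x) ∂μ := by
  by_cases h : Integrable f μ
  · rw [ofReal_integral_eq_lintegral_ofReal h (ae_of_all _ hf)]
  · rw [integral_undef h]
    simp

/-- the square of an average -/
lemma sq_int (c : ℍ → ℝ≥0∞) (hc : Measurable c) (g : ℍ → ℍ → ℝ≥0∞)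
    (hg : Measurable (Function.uncurry g)) :
    ∫⁻ z, c z * (∫⁻ w, g z w) ^ 2 = ∫⁻ w, ∫⁻ w', ∫⁻ z, c z * g z w * g z w' := by
  have hg1 : ∀ z, Measurable (g z) := fun z => hg.comp measurable_prodMk_left
  have hg2 : ∀ w, Measurable fun z => g z w := fun w => hg.comp measurable_prodMk_right
  have hA : Measurable fun z => ∫⁻ w, g z w := hg.lintegral_prod_right'
  calc ∫⁻ z, c z * (∫⁻ w, g z w) ^ 2
      = ∫⁻ z, ∫⁻ w, c z * g z w * (∫⁻ w', g z w') := by
        refine lintegral_congr fun z => ?_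
        rw [lintegral_mul_const _ ((hg1 z).const_mul (c z)), lintegral_const_mul _ (hg1 z), sq,
          mul_assoc]
    _ = ∫⁻ w, ∫⁻ z, c z * g z w * (∫⁻ w', g z w') := by
        refine lintegral_lintegral_swap (Measurable.aemeasurable ?_)
        exact ((hc.comp measurable_fst).mul hg).mul (hA.comp measurable_fst)
    _ = ∫⁻ w, ∫⁻ z, ∫⁻ w', c z * g z w * g z w' := by
        refine lintegral_congr fun w => lintegral_congr fun z => ?_
        rw [lintegral_const_mul _ (hg1 z)]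
    _ = ∫⁻ w, ∫⁻ w', ∫⁻ z, c z * g z w * g z w' := by
        refine lintegral_congr fun w => ?_
        refine lintegral_lintegral_swap (Measurable.aemeasurable ?_)
        exact ((hc.mul (hg2 w)).comp measurable_fst).mul hg

/-- close points -/
lemma close {ρ y y' D : ℝ} (hρ : 0 < ρ) (hρ' : ρ ≤ 1 / 8) (hy : 0 < y) (hD : 0 ≤ D)
    (hyy : y' ≤ y + D) (h : D ^ 2 < ρ ^ 2 * (1 + 2 * ρ) * (y * y')) : D ≤ 2 * ρ * y := by
  by_contra hcon
  push Not at hcon
  have hρ2 : ρ ^ 2 * (1 + 2 * ρ) ≤ 5 / 4 * ρ ^ 2 := by nlinarith [sq_nonneg ρ]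
  have h0 : 0 ≤ ρ ^ 2 := sq_nonneg ρ
  have h1 : y * y' ≤ y * (y + D) := mul_le_mul_of_nonneg_left hyy hy.le
  have h2 : ρ ^ 2 * (1 + 2 * ρ) * (y * y') ≤ 5 / 4 * ρ ^ 2 * (y * (y + D)) := by
    refine (mul_le_mul_of_nonneg_left h1 (by positivity)).trans ?_
    exact mul_le_mul_of_nonneg_right hρ2 (by positivity)
  have h3 : (2 * ρ * y) ^ 2 ≤ D ^ 2 := by
    have : 0 ≤ 2 * ρ * y := by positivity
    exact pow_le_pow_left₀ this hcon.le 2
  have h4 : 2 * ρ * y * D ≤ D * D := mul_le_mul_of_nonneg_right hcon.le hD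
  have h5 : ρ * (2 * ρ * y * D) ≤ 1 / 8 * (D * D) := by
    have h6 : 0 ≤ 2 * ρ * y * D := by positivity
    calc ρ * (2 * ρ * y * D) ≤ 1 / 8 * (2 * ρ * y * D) := mul_le_mul_of_nonneg_right hρ' h6
      _ ≤ 1 / 8 * (D * D) := by linarith
  nlinarith

/-- the test functions -/
lemma test (φ : ℂ → ℝ) (hφ : TestP H0 φ) : ∃ (ζ : ℂ → ℝ) (C₁ C₂ : ℝ), TestP H0 ζ ∧ 0 ≤ C₁ ∧ 0 ≤ C₂ ∧
    (∀ w : ℂ, φ w * w.im ^ 2 ≤ C₂ * ζ w) ∧
    ∀ ρ : ℝ, 0 < ρ → ρ ≤ 1 / 8 → ∀ z w : ℍ, uh z w < ρ ^ 2 * (1 + 2 * ρ) →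
      φ z * (z : ℂ).im ^ 2 ≤ φ w * (w : ℂ).im ^ 2 + C₁ * ρ * ζ w := by
  have hK := hφ.test.cpt.isCompact
  have hK' : IsCompact ((fun p : ℂ × ℂ => Pl.lin (1 / 2) p.1 p.2) ''
      (Metric.closedBall 0 1 ×ˢ tsupport φ)) :=
    ((isCompact_closedBall (0 : ℂ) 1).prod hK).image (Pl.continuous_lin (1 / 2))
  have hKH : (fun p : ℂ × ℂ => Pl.lin (1 / 2) p.1 p.2) '' (Metric.closedBall 0 1 ×ˢ tsupport φ) ⊆
      H0 := by
    rintro _ ⟨⟨u, w⟩, ⟨hu, hw⟩, rfl⟩
    refine Pl.lin_mem_H0 (by norm_num) (by norm_num) ?_ (hφ.test.sub hw)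
    simpa using hu
  obtain ⟨ζ, hζ, hζ01, hone⟩ := exists_cutoff hK' Half.isOpen_H0 hKH
  have hone' := hone.self_of_nhdsSet
  have hsm : ContDiff ℝ ∞ fun z : ℂ => φ z * z.im ^ 2 :=
    hφ.test.smooth.mul (Complex.imCLM.contDiff.pow 2)
  have hcs : HasCompactSupport fun z : ℂ => φ z * z.im ^ 2 := hφ.test.cpt.mul_right
  obtain ⟨L, hL⟩ := hsm.lipschitzWith_of_hasCompactSupport hcs (by simp)
  obtain ⟨C₂, hC₂⟩ := hsm.continuous.bounded_above_of_compact_support hcs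
  obtain ⟨M, hM⟩ := hK.exists_bound_of_continuousOn (f := fun z : ℂ => z) continuousOn_id
  have hC₂0 : 0 ≤ C₂ := (norm_nonneg _).trans (hC₂ 0)
  refine ⟨ζ, 2 * L * |M|, C₂, ⟨hζ, fun z => (hζ01 z).1⟩, by positivity, hC₂0, ?_, ?_⟩
  · intro w
    by_cases hw : w ∈ tsupport φ
    · have h1 : ζ w = 1 := hone' w ⟨(0, w), ⟨by simp, hw⟩, by simp [Pl.lin]⟩
      rw [h1, mul_one]
      exact (Real.le_norm_self _).trans (hC₂ w)
    · rw [image_eq_zero_of_notMem_tsupport hw, zero_mul]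
      exact mul_nonneg hC₂0 (hζ01 w).1
  · intro ρ hρ hρ' z w hzw
    have hRHS : 0 ≤ φ w * (w : ℂ).im ^ 2 + 2 * L * |M| * ρ * ζ w := by
      have h1 := hφ.nonneg (w : ℂ)
      have h2 := (hζ01 (w : ℂ)).1
      positivity
    by_cases hz : (z : ℂ) ∈ tsupport φ
    · have hy := z.im_pos
      have hy' := w.im_pos
      have h1 : ‖(z : ℂ) - w‖ ^ 2 < ρ ^ 2 * (1 + 2 * ρ) * (z.im * w.im) := by
        unfold uh at hzw
        rwa [div_lt_iff₀ (mul_pos hy hy')] at hzw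
      have h2 : w.im ≤ z.im + ‖(z : ℂ) - w‖ := by
        have h3 := Complex.abs_im_le_norm ((z : ℂ) - w)
        rw [Complex.sub_im] at h3
        have h4 := (abs_le.1 h3).1
        have h5 : (z : ℂ).im = z.im := rfl
        have h6 : (w : ℂ).im = w.im := rfl
        rw [h5, h6] at h4
        linarith
      have h3 := close hρ hρ' hy (norm_nonneg _) h2 h1
      have h4 : ζ w = 1 := by
        refine hone' w ⟨(((2 / z.im : ℝ) : ℂ) * ((w : ℂ) - z), z), ⟨?_, hz⟩, ?_⟩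
        · rw [mem_closedBall_zero_iff, norm_mul, Complex.norm_real, Real.norm_eq_abs,
            abs_of_pos (by positivity), norm_sub_rev]
          calc 2 / z.im * ‖(z : ℂ) - w‖ ≤ 2 / z.im * (2 * ρ * z.im) :=
                mul_le_mul_of_nonneg_left h3 (by positivity)
            _ = 4 * ρ := by field_simp; norm_num
            _ ≤ 1 := by linarith
        · have h5 : ((z : ℂ).im : ℝ) = z.im := rfl
          have h6 : (((1 / 2 * z.im : ℝ) : ℂ)) * (((2 / z.im : ℝ) : ℂ) * ((w : ℂ) - z)) =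
              (w : ℂ) - z := by
            rw [← mul_assoc, ← Complex.ofReal_mul]
            have h7 : 1 / 2 * z.im * (2 / z.im) = 1 := by field_simp
            rw [h7, Complex.ofReal_one, one_mul]
          simp only [Pl.lin]
          rw [h5, h6]
          ring
      have h5 := hL.dist_le_mul (z : ℂ) (w : ℂ)
      rw [Real.dist_eq, Complex.dist_eq] at h5
      have h6 := (abs_le.1 h5).2
      have h7 : z.im ≤ |M| := by
        have h8 := Complex.abs_im_le_norm (z : ℂ)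
        have h9 := hM (z : ℂ) hz
        have h10 : (z : ℂ).im = z.im := rfl
        rw [h10] at h8
        exact (le_abs_self _).trans (h8.trans (h9.trans (le_abs_self M)))
      have h8 : (L : ℝ) * ‖(z : ℂ) - w‖ ≤ L * (2 * ρ * |M|) := by
        refine mul_le_mul_of_nonneg_left (h3.trans ?_) L.coe_nonneg
        exact mul_le_mul_of_nonneg_left h7 (by positivity)
      rw [h4]
      linarith
    · rw [image_eq_zero_of_notMem_tsupport hz, zero_mul]
      exact hRHS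

end PvM

open PvM

theorem stmtPv (_hUg : StmtUg) (_hLh : StmtLh) (_hAr : StmtAr) (hK2 : StmtK2)
    (hEdU : StmtEdU) : StmtPv := by
  obtain ⟨C₀, hC₀, hK⟩ := hK2
  have hex : ∀ ρ : ℝ, ∃ k : ℝ → ℝ, 0 < ρ → ρ ≤ 1 / 8 → Ker C₀ (3 * ρ) k ∧
      ∀ w w' : ℍ, ∫⁻ z : ℍ, ENNReal.ofReal (kk (√(ρ ^ 2 * (1 + 2 * ρ))) (uh z w) *
        kk (√(ρ ^ 2 * (1 + 2 * ρ))) (uh z w')) = ENNReal.ofReal (k (uh w w')) := by
    intro ρ
    by_cases h : 0 < ρ ∧ ρ ≤ 1 / 8
    · obtain ⟨k, hk⟩ := hK ρ h.1 h.2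
      exact ⟨k, fun _ _ => hk⟩
    · exact ⟨fun _ => 0, fun h1 h2 => absurd ⟨h1, h2⟩ h⟩
  choose kf hkf using hex
  refine ⟨C₀, kf, hC₀, fun ρ h1 h2 => (hkf ρ h1 h2).1, fun φ hφ => ?_⟩
  obtain ⟨ζ, C₁, C₂, hζ, hC₁, hC₂, hψζ, hLip⟩ := test φ hφ
  refine ⟨ζ, 33 * C₂ + 6 * C₁, hζ, by positivity, fun ρ hρ hρ' F hF hF0 => ?_⟩
  obtain ⟨hker, hk2⟩ := hkf ρ hρ hρ'
  have hr2 : √(ρ ^ 2 * (1 + 2 * ρ)) ^ 2 = ρ ^ 2 * (1 + 2 * ρ) := Real.sq_sqrt (by positivity)
  have hE := hEdU ρ hρ hρ' F hF hF0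
  generalize √(ρ ^ 2 * (1 + 2 * ρ)) = r at hk2 hr2 hE
  have hψ0 : ∀ z : ℂ, 0 ≤ φ z * z.im ^ 2 := fun z => mul_nonneg (hφ.nonneg z) (sq_nonneg _)
  have hφ0 : ∀ z : ℂ, z.im ≤ 0 → φ z = 0 := fun z hz =>
    image_eq_zero_of_notMem_tsupport fun h => absurd (hφ.test.sub h) (not_lt.2 hz)
  have hFc : Continuous fun w : ℍ => F (w : ℂ) :=
    hF.comp_continuous UpperHalfPlane.continuous_coe fun w => w.im_pos
  have hψc : Continuous fun w : ℍ => φ (w : ℂ) * (w : ℂ).im ^ 2 :=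
    (hφ.test.smooth.continuous.comp UpperHalfPlane.continuous_coe).mul
      ((Complex.continuous_im.comp UpperHalfPlane.continuous_coe).pow 2)
  have hζc : Continuous fun w : ℍ => ζ (w : ℂ) :=
    hζ.test.smooth.continuous.comp UpperHalfPlane.continuous_coe
  -- step 1
  have s1 : ENNReal.ofReal (∫ z : ℂ, φ z * (Pl.Ed ρ F z) ^ 2) ≤
      ∫⁻ z : ℍ, ENNReal.ofReal (φ z * (z : ℂ).im ^ 2 * (1 + 10 * ρ) ^ 2) *
        (∫⁻ w : ℍ, ENNReal.ofReal (kk r (uh z w) * F w)) ^ 2 := by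
    have e1 : ∫ z : ℂ, φ z * (Pl.Ed ρ F z) ^ 2 =
        ∫ z : ℍ, (fun z : ℂ => φ z * z.im ^ 2 * (Pl.Ed ρ F z) ^ 2) z := by
      rw [IntLap.int_gen' (fun z : ℂ => φ z * z.im ^ 2 * (Pl.Ed ρ F z) ^ 2)
        (fun z hz => by simp only [hφ0 z hz, zero_mul])]
      refine integral_congr_ae (ae_of_all _ fun z => ?_)
      by_cases hz : 0 < z.im
      · simp only [smul_eq_mul]
        field_simp
      · simp only [hφ0 z (not_lt.1 hz), zero_mul, smul_zero]
    rw [e1]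
    refine (ofReal_int_le fun z : ℍ => mul_nonneg (hψ0 (z : ℂ)) (sq_nonneg _)).trans
      (lintegral_mono fun z => ?_)
    obtain ⟨hi, hle⟩ := hE z
    have hA0 : 0 ≤ ∫ w : ℍ, kk r (uh z w) * F w :=
      integral_nonneg fun w => mul_nonneg (kk_nonneg _ _) (hF0 _)
    have hEd0 : 0 ≤ Pl.Ed ρ F z := by
      unfold Pl.Ed
      exact smul_nonneg (inv_nonneg.2 Real.pi_pos.le) (integral_nonneg fun u => hF0 _)
    have hA' : ∫⁻ w : ℍ, ENNReal.ofReal (kk r (uh z w) * F w) =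
        ENNReal.ofReal (∫ w : ℍ, kk r (uh z w) * F w) :=
      (ofReal_integral_eq_lintegral_ofReal hi
        (ae_of_all _ fun w => mul_nonneg (kk_nonneg _ _) (hF0 _))).symm
    have hp : 0 ≤ φ (z : ℂ) * (z : ℂ).im ^ 2 * (1 + 10 * ρ) ^ 2 :=
      mul_nonneg (hψ0 _) (sq_nonneg _)
    rw [hA', ← ENNReal.ofReal_pow hA0, ← ENNReal.ofReal_mul hp]
    refine ENNReal.ofReal_le_ofReal ?_
    have h1 : (Pl.Ed ρ F z) ^ 2 ≤ ((1 + 10 * ρ) * ∫ w : ℍ, kk r (uh z w) * F w) ^ 2 :=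
      pow_le_pow_left₀ hEd0 hle 2
    calc φ (z : ℂ) * (z : ℂ).im ^ 2 * (Pl.Ed ρ F z) ^ 2
        ≤ φ (z : ℂ) * (z : ℂ).im ^ 2 * ((1 + 10 * ρ) * ∫ w : ℍ, kk r (uh z w) * F w) ^ 2 :=
          mul_le_mul_of_nonneg_left h1 (hψ0 _)
      _ = _ := by ring
  -- step 2
  have hcm : Measurable fun z : ℍ => ENNReal.ofReal (φ z * (z : ℂ).im ^ 2 * (1 + 10 * ρ) ^ 2) :=
    (hψc.measurable.mul_const _).ennreal_ofReal
  have hgm : Measurable (Function.uncurry fun (z w : ℍ) => ENNReal.ofReal (kk r (uh z w) * F w)) := by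
    unfold Function.uncurry
    exact (((meas_kk r).comp cont_uh.measurable).mul
      (hFc.measurable.comp measurable_snd)).ennreal_ofReal
  rw [sq_int _ hcm _ hgm] at s1
  refine s1.trans ?_
  have s2 : ∀ w w' : ℍ, ∫⁻ z : ℍ, ENNReal.ofReal (φ z * (z : ℂ).im ^ 2 * (1 + 10 * ρ) ^ 2) *
      ENNReal.ofReal (kk r (uh z w) * F w) * ENNReal.ofReal (kk r (uh z w') * F w') ≤
      ENNReal.ofReal (φ w * (w : ℂ).im ^ 2 * kf ρ (uh w w') * F w * F w') +
        ENNReal.ofReal ((33 * C₂ + 6 * C₁) * ρ) *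
          ENNReal.ofReal (ζ w * kf ρ (uh w w') * F w * F w') := by
    intro w w'
    have hζ0 := hζ.nonneg (w : ℂ)
    have hFw := hF0 (w : ℂ)
    have hFw' := hF0 (w' : ℂ)
    have hkn := hker.nonneg (uh w w')
    have hψw := hψ0 (w : ℂ)
    have hc0 : 0 ≤ (1 + 10 * ρ) ^ 2 * (φ w * (w : ℂ).im ^ 2 + C₁ * ρ * ζ w) * F w * F w' := by
      positivity
    calc ∫⁻ z : ℍ, ENNReal.ofReal (φ z * (z : ℂ).im ^ 2 * (1 + 10 * ρ) ^ 2) *
          ENNReal.ofReal (kk r (uh z w) * F w) * ENNReal.ofReal (kk r (uh z w') * F w')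
        ≤ ∫⁻ z : ℍ, ENNReal.ofReal
            ((1 + 10 * ρ) ^ 2 * (φ w * (w : ℂ).im ^ 2 + C₁ * ρ * ζ w) * F w * F w') *
            ENNReal.ofReal (kk r (uh z w) * kk r (uh z w')) := by
          refine lintegral_mono fun z => ?_
          have k1 := kk_nonneg r (uh z w)
          have k2 := kk_nonneg r (uh z w')
          have hψz := hψ0 (z : ℂ)
          rw [← ENNReal.ofReal_mul (by positivity), ← ENNReal.ofReal_mul (by positivity),
            ← ENNReal.ofReal_mul hc0]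
          refine ENNReal.ofReal_le_ofReal ?_
          by_cases h : uh z w < ρ ^ 2 * (1 + 2 * ρ)
          · have h1 := hLip ρ hρ hρ' z w h
            have h2 : 0 ≤ (1 + 10 * ρ) ^ 2 * (kk r (uh z w) * F w) * (kk r (uh z w') * F w') := by
              positivity
            calc φ z * (z : ℂ).im ^ 2 * (1 + 10 * ρ) ^ 2 * (kk r (uh z w) * F w) *
                  (kk r (uh z w') * F w')
                = φ z * (z : ℂ).im ^ 2 *
                  ((1 + 10 * ρ) ^ 2 * (kk r (uh z w) * F w) * (kk r (uh z w') * F w')) := by ring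
              _ ≤ (φ w * (w : ℂ).im ^ 2 + C₁ * ρ * ζ w) *
                  ((1 + 10 * ρ) ^ 2 * (kk r (uh z w) * F w) * (kk r (uh z w') * F w')) :=
                  mul_le_mul_of_nonneg_right h1 h2
              _ = _ := by ring
          · have h1 : kk r (uh z w) = 0 := by
              unfold kk
              rw [hr2, if_neg h]
            rw [h1]
            simp
      _ = ENNReal.ofReal
            ((1 + 10 * ρ) ^ 2 * (φ w * (w : ℂ).im ^ 2 + C₁ * ρ * ζ w) * F w * F w') *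
            ENNReal.ofReal (kf ρ (uh w w')) := by
          rw [lintegral_const_mul' _ _ ENNReal.ofReal_ne_top, hk2 w w']
      _ ≤ _ := by
          rw [← ENNReal.ofReal_mul hc0, ← ENNReal.ofReal_mul (by positivity),
            ← ENNReal.ofReal_add (by positivity) (by positivity)]
          refine ENNReal.ofReal_le_ofReal ?_
          have h1 : (1 + 10 * ρ) ^ 2 ≤ 1 + 33 * ρ := by nlinarith
          have h2 : (1 + 10 * ρ) ^ 2 ≤ 6 := by nlinarith
          have h3 := hψζ (w : ℂ)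
          have h4 : (1 + 10 * ρ) ^ 2 * (φ w * (w : ℂ).im ^ 2 + C₁ * ρ * ζ w) ≤
              φ w * (w : ℂ).im ^ 2 + (33 * C₂ + 6 * C₁) * ρ * ζ w := by
            have h5 : (1 + 10 * ρ) ^ 2 * (φ w * (w : ℂ).im ^ 2) ≤
                (1 + 33 * ρ) * (φ w * (w : ℂ).im ^ 2) := mul_le_mul_of_nonneg_right h1 hψw
            have h6 : (1 + 10 * ρ) ^ 2 * (C₁ * ρ * ζ w) ≤ 6 * (C₁ * ρ * ζ w) :=
              mul_le_mul_of_nonneg_right h2 (by positivity)
            have h7 : 33 * ρ * (φ w * (w : ℂ).im ^ 2) ≤ 33 * ρ * (C₂ * ζ w) :=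
              mul_le_mul_of_nonneg_left h3 (by positivity)
            linarith
          have h8 : 0 ≤ F w * F w' * kf ρ (uh w w') := by positivity
          calc (1 + 10 * ρ) ^ 2 * (φ w * (w : ℂ).im ^ 2 + C₁ * ρ * ζ w) * F w * F w' *
                kf ρ (uh w w')
              = (1 + 10 * ρ) ^ 2 * (φ w * (w : ℂ).im ^ 2 + C₁ * ρ * ζ w) *
                (F w * F w' * kf ρ (uh w w')) := by ring
            _ ≤ (φ w * (w : ℂ).im ^ 2 + (33 * C₂ + 6 * C₁) * ρ * ζ w) *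
                (F w * F w' * kf ρ (uh w w')) := mul_le_mul_of_nonneg_right h4 h8
            _ = _ := by ring
  refine (lintegral_mono fun w => lintegral_mono fun w' => s2 w w').trans (le_of_eq ?_)
  -- step 3
  have hkm : Measurable fun p : ℍ × ℍ => kf ρ (uh p.1 p.2) := hker.meas.comp cont_uh.measurable
  have hm1 : Measurable (Function.uncurry fun (w w' : ℍ) =>
      ENNReal.ofReal (φ w * (w : ℂ).im ^ 2 * kf ρ (uh w w') * F w * F w')) := by
    unfold Function.uncurry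
    exact ((((hψc.measurable.comp measurable_fst).mul hkm).mul
      (hFc.measurable.comp measurable_fst)).mul (hFc.measurable.comp measurable_snd)).ennreal_ofReal
  have hm1' : ∀ w : ℍ, Measurable fun w' : ℍ =>
      ENNReal.ofReal (φ w * (w : ℂ).im ^ 2 * kf ρ (uh w w') * F w * F w') :=
    fun w => hm1.comp measurable_prodMk_left
  have hm2 : Measurable fun w : ℍ => ∫⁻ w' : ℍ,
      ENNReal.ofReal (φ w * (w : ℂ).im ^ 2 * kf ρ (uh w w') * F w * F w') :=
    hm1.lintegral_prod_right'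
  unfold V2
  beta_reduce
  rw [← lintegral_const_mul' _ _ ENNReal.ofReal_ne_top, ← lintegral_add_left hm2]
  refine lintegral_congr fun w => ?_
  rw [lintegral_add_left (hm1' w), lintegral_const_mul' _ _ ENNReal.ofReal_ne_top]

end

end Pool.Agent.A54.Hp
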