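import Pool.Agent.Lib.MP_a54f13_nt.Hp.SpecB

/-!
# Package `Hp`, module `Qa` (helper62): crossing geodesics
-/

set_option autoImplicit false

namespace Pool.Agent.A54.Hp

open MeasureTheory Filter Topology Set
open scoped ContDiff ComplexConjugate UpperHalfPlane MatrixGroups ENNReal
open Pool.Agent.A54.Dyn (G fl base ze io mk4 dom)
open Pool.Agent.A54.Dyn.LiftM (Sct XC XX cc rot m0)
open Pool.Agent.A54.Half (H0)
open Pool.Agent.A54.Sq (la TestP)

noncomputable section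

namespace QaM

/-! ### Coordinates -/

lemma sinh_sq {p s : ℝ} (h : 0 < p * s) : ∃ α : ℝ, ∀ x : ℝ,
    (p * Real.exp x - s * Real.exp (-x)) ^ 2 = (2 * √(p * s) * Real.sinh (x + α)) ^ 2 := by
  have hs : s ≠ 0 := right_ne_zero_of_mul h.ne'
  have hp : p ≠ 0 := left_ne_zero_of_mul h.ne'
  have hps : 0 < p / s := by
    have : p / s = p * s / s ^ 2 := by
      field_simp
    rw [this]
    positivity
  refine ⟨Real.log (p / s) / 2, fun x => ?_⟩
  set E := Real.exp x with hE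
  set A := Real.exp (Real.log (p / s) / 2) with hA
  have hE0 : E ≠ 0 := (Real.exp_pos x).ne'
  have hA0 : A ≠ 0 := (Real.exp_pos _).ne'
  have hA2 : A ^ 2 = p / s := by
    rw [hA, ← Real.exp_nat_mul]
    have : ((2 : ℕ) : ℝ) * (Real.log (p / s) / 2) = Real.log (p / s) := by
      push_cast
      ring
    rw [this, Real.exp_log hps]
  have hsinh : Real.sinh (x + Real.log (p / s) / 2) = (E * A - (E * A)⁻¹) / 2 := by
    rw [Real.sinh_eq, Real.exp_neg, Real.exp_add]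
  rw [hsinh, mul_pow, mul_pow, Real.sq_sqrt h.le, Real.exp_neg, ← hE]
  have e1 : (E * A - (E * A)⁻¹) ^ 2 = E ^ 2 * A ^ 2 - 2 + (E ^ 2 * A ^ 2)⁻¹ := by
    field_simp
    ring
  rw [div_pow, e1, hA2]
  field_simp
  ring

/-! ### The change of variables -/

lemma scale2 {f : ℝ → ℝ≥0∞} (hf : Measurable f) (τ : ℝ) : ∫⁻ σ : ℝ, f σ = 2 * ∫⁻ v : ℝ, f (2 * v - τ) := by
  have h1 : ∫⁻ σ : ℝ, f σ = ∫⁻ σ : ℝ, f (σ - τ) := (lintegral_sub_right_eq_self f τ).symm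
  have h2 := Real.smul_map_volume_mul_left (a := (2 : ℝ)) (by norm_num)
  have hg : Measurable (fun σ : ℝ => f (σ - τ)) := hf.comp (measurable_id.sub_const τ)
  have hm : Measurable (fun v : ℝ => 2 * v) := measurable_id.const_mul 2
  calc ∫⁻ σ : ℝ, f σ = ∫⁻ σ : ℝ, f (σ - τ) := h1
    _ = ∫⁻ σ : ℝ, f (σ - τ) ∂(ENNReal.ofReal |(2 : ℝ)| • Measure.map (fun v : ℝ => 2 * v) volume) := by rw [h2]
    _ = ENNReal.ofReal |(2 : ℝ)| * ∫⁻ v : ℝ, f (2 * v - τ) := by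
        rw [lintegral_smul_measure, lintegral_map hg hm, smul_eq_mul]
    _ = 2 * ∫⁻ v : ℝ, f (2 * v - τ) := by
        congr 1
        rw [abs_of_pos (by norm_num)]
        norm_num

lemma chvar {h : ℝ → ℝ → ℝ≥0∞} (hh : Measurable (Function.uncurry h)) :
    ∫⁻ τ : ℝ, ∫⁻ σ : ℝ, h ((τ - σ) / 2) ((τ + σ) / 2) = 2 * ∫⁻ x : ℝ, ∫⁻ y : ℝ, h x y := by
  have h1 : ∀ τ : ℝ, ∫⁻ σ : ℝ, h ((τ - σ) / 2) ((τ + σ) / 2) = 2 * ∫⁻ v : ℝ, h (τ - v) v := by
    intro τ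
    have hm : Measurable (fun σ : ℝ => h ((τ - σ) / 2) ((τ + σ) / 2)) :=
      hh.comp (((measurable_const.sub measurable_id).div_const 2).prodMk
        ((measurable_const.add measurable_id).div_const 2))
    rw [scale2 hm τ]
    congr 1
    refine lintegral_congr fun v => ?_
    have e1 : (τ - (2 * v - τ)) / 2 = τ - v := by ring
    have e2 : (τ + (2 * v - τ)) / 2 = v := by ring
    rw [e1, e2]
  simp only [h1]
  have hm2 : Measurable (fun p : ℝ × ℝ => h (p.1 - p.2) p.2) :=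
    hh.comp ((measurable_fst.sub measurable_snd).prodMk measurable_snd)
  rw [lintegral_const_mul _ (Measurable.lintegral_prod_right' hm2),
    lintegral_lintegral_swap hm2.aemeasurable]
  congr 1
  have h3 : ∀ v : ℝ, ∫⁻ τ : ℝ, h (τ - v) v = ∫⁻ x : ℝ, h x v := fun v =>
    lintegral_sub_right_eq_self (fun x => h x v) v
  simp only [h3]
  exact (lintegral_lintegral_swap hh.aemeasurable).symm

/-- the integral of a kernel over the plane -/
lemma ker_plane (hPo : StmtPo) {k : ℝ → ℝ} {C a : ℝ} (hk : Ker C a k) :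
    ∫⁻ x : ℝ, ∫⁻ y : ℝ, ENNReal.ofReal (k (x ^ 2 + y ^ 2)) = 1 := by
  rw [hPo.1 (fun u => ENNReal.ofReal (k u)) hk.meas.ennreal_ofReal]
  have hint : IntegrableOn k (Ioi (0 : ℝ)) := by
    by_contra h
    have h1 := hk.one
    rw [integral_undef h, mul_zero] at h1
    exact zero_ne_one h1
  rw [← ofReal_integral_eq_lintegral_ofReal hint (Eventually.of_forall hk.nonneg),
    ← ENNReal.ofReal_mul Real.pi_pos.le, hk.one, ENNReal.ofReal_one]

lemma J_eq (hPo : StmtPo) {k : ℝ → ℝ} {C a : ℝ} (hk : Ker C a k) {P Q : ℝ} (α β : ℝ) (hP : 0 < P) (hQ : 0 < Q) :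
    ∫⁻ τ : ℝ, ∫⁻ σ : ℝ, ENNReal.ofReal (Real.cosh ((τ - σ) / 2 + α) * Real.cosh ((τ + σ) / 2 + β) *
      k ((2 * P * Real.sinh ((τ - σ) / 2 + α)) ^ 2 + (2 * Q * Real.sinh ((τ + σ) / 2 + β)) ^ 2)) =
      ENNReal.ofReal (1 / (2 * P * Q)) := by
  set h : ℝ → ℝ → ℝ≥0∞ := fun x y => ENNReal.ofReal (Real.cosh (x + α) * Real.cosh (y + β) *
    k ((2 * P * Real.sinh (x + α)) ^ 2 + (2 * Q * Real.sinh (y + β)) ^ 2)) with hh
  have cx : Continuous (fun p : ℝ × ℝ => p.1 + α) := continuous_fst.add continuous_const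
  have cy : Continuous (fun p : ℝ × ℝ => p.2 + β) := continuous_snd.add continuous_const
  have hm : Measurable (Function.uncurry h) := by
    refine Measurable.ennreal_ofReal (Measurable.mul ?_ ?_)
    · exact ((Real.continuous_cosh.comp cx).mul (Real.continuous_cosh.comp cy)).measurable
    · refine hk.meas.comp (Continuous.measurable ?_)
      exact ((continuous_const.mul (Real.continuous_sinh.comp cx)).pow 2).add
        ((continuous_const.mul (Real.continuous_sinh.comp cy)).pow 2)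
  have e0 := chvar hm
  simp only [hh] at e0
  rw [e0]
  -- the inner integral
  have e1 : ∀ x : ℝ, ∫⁻ y : ℝ, ENNReal.ofReal (Real.cosh (x + α) * Real.cosh (y + β) *
      k ((2 * P * Real.sinh (x + α)) ^ 2 + (2 * Q * Real.sinh (y + β)) ^ 2)) =
      ENNReal.ofReal (1 / (2 * P * (2 * Q))) * (ENNReal.ofReal (2 * P * Real.cosh (x + α)) *
        ∫⁻ ξ : ℝ, ENNReal.ofReal (k ((2 * P * Real.sinh (x + α)) ^ 2 + ξ ^ 2))) := by
    intro x
    have e2 := hPo.2 Q β hQ (fun ξ => ENNReal.ofReal (k ((2 * P * Real.sinh (x + α)) ^ 2 + ξ ^ 2)))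
      (Measurable.ennreal_ofReal (hk.meas.comp ((measurable_id.pow_const 2).const_add _)))
    rw [← e2, ← mul_assoc, ← ENNReal.ofReal_mul (by positivity)]
    rw [← lintegral_const_mul' _ _ ENNReal.ofReal_ne_top]
    refine lintegral_congr fun y => ?_
    have c1 := Real.cosh_pos (x + α)
    have c2 := Real.cosh_pos (y + β)
    rw [← mul_assoc, ← ENNReal.ofReal_mul (by positivity), ← ENNReal.ofReal_mul (by positivity)]
    congr 1
    field_simp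
  simp only [e1]
  have hm3 : Measurable (fun ξ₁ : ℝ => ∫⁻ ξ : ℝ, ENNReal.ofReal (k (ξ₁ ^ 2 + ξ ^ 2))) := by
    refine Measurable.lintegral_prod_right' (f := fun p : ℝ × ℝ => ENNReal.ofReal (k (p.1 ^ 2 + p.2 ^ 2))) ?_
    exact Measurable.ennreal_ofReal (hk.meas.comp ((measurable_fst.pow_const 2).add (measurable_snd.pow_const 2)))
  have e3 := hPo.2 P α hP (fun ξ₁ : ℝ => ∫⁻ ξ : ℝ, ENNReal.ofReal (k (ξ₁ ^ 2 + ξ ^ 2))) hm3
  rw [lintegral_const_mul' _ _ ENNReal.ofReal_ne_top, e3, ker_plane hPo hk, mul_one]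
  have e4 : (2 : ℝ≥0∞) = ENNReal.ofReal 2 := by norm_num
  rw [e4, ← ENNReal.ofReal_mul (by norm_num)]
  congr 1
  field_simp

/-! ### The Lipschitz property -/

lemma phi_lip {φ : ℂ → ℝ} (hφ : TestP H0 φ) : ∃ M L : ℝ, 0 ≤ M ∧ 0 ≤ L ∧ (∀ z, φ z ≤ M) ∧
    ∀ z w : ℍ, |φ z - φ w| ≤ L * dist z w := by
  obtain ⟨M, hM⟩ := hφ.test.cpt.exists_bound_of_continuous hφ.test.smooth.continuous
  have hM0 : 0 ≤ M := (norm_nonneg _).trans (hM 0)
  have hMle : ∀ z, φ z ≤ M := fun z => (le_abs_self _).trans (hM z)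
  obtain ⟨L1, hL1⟩ := ContDiff.lipschitzWith_of_hasCompactSupport (n := 1) (𝕂 := ℝ) hφ.test.cpt
    (hφ.test.smooth.of_le (by exact_mod_cast le_top)) one_ne_zero
  obtain ⟨Y, hY⟩ := hφ.test.cpt.isCompact.exists_bound_of_continuousOn (f := fun z : ℂ => z.im)
    Complex.continuous_im.continuousOn
  set Y0 := max Y 0 with hY0
  have hY00 : 0 ≤ Y0 := le_max_right _ _
  have key : ∀ z w : ℍ, φ w ≠ 0 → dist z w ≤ 1 → |φ z - φ w| ≤ (L1 : ℝ) * (Y0 * (2 * dist z w)) := by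
    intro z w hw hd
    have h1 : |φ z - φ w| ≤ L1 * dist (z : ℂ) w := by
      have := hL1.dist_le_mul (z : ℂ) w
      rwa [Real.dist_eq] at this
    refine h1.trans (mul_le_mul_of_nonneg_left ?_ L1.coe_nonneg)
    refine (UpperHalfPlane.dist_coe_le z w).trans ?_
    have h2 : w.im ≤ Y0 := by
      have h3 := hY (w : ℂ) (subset_tsupport φ hw)
      have h4 : (w : ℂ).im ≤ Y := (le_abs_self _).trans h3
      exact h4.trans (le_max_left _ _)
    have h5 : Real.exp (dist z w) - 1 ≤ 2 * dist z w := by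
      have h6 := Real.abs_exp_sub_one_le (x := dist z w) (by rw [abs_of_nonneg dist_nonneg]; exact hd)
      rw [abs_of_nonneg (dist_nonneg (x := z) (y := w))] at h6
      exact (le_abs_self _).trans h6
    have h7 : 0 ≤ Real.exp (dist z w) - 1 := by
      have := Real.one_le_exp (dist_nonneg (x := z) (y := w))
      linarith
    exact mul_le_mul h2 h5 h7 hY00
  refine ⟨M, L1 * (Y0 * 2) + 2 * M, hM0, by positivity, hMle, ?_⟩
  intro z w
  have hd0 : 0 ≤ dist z w := dist_nonneg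
  have hL0 : 0 ≤ (L1 : ℝ) * (Y0 * 2) := by positivity
  have e1 : (L1 * (Y0 * 2) + 2 * M) * dist z w = (L1 : ℝ) * (Y0 * (2 * dist z w)) + 2 * M * dist z w := by ring
  rw [e1]
  have n1 : 0 ≤ 2 * M * dist z w := by positivity
  have n2 : 0 ≤ (L1 : ℝ) * (Y0 * (2 * dist z w)) := by positivity
  rcases le_or_gt (dist z w) 1 with hd | hd
  · by_cases hw : φ w = 0
    · by_cases hz : φ z = 0
      · rw [hz, hw, sub_zero, abs_zero]
        linarith
      · have h1 := key w z hz (by rw [dist_comm]; exact hd)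
        rw [dist_comm w z, abs_sub_comm] at h1
        linarith
    · have h1 := key z w hw hd
      linarith
  · have h1 : |φ z - φ w| ≤ 2 * M := by
      have h2 := abs_sub (φ z) (φ w)
      have h3 : |φ z| ≤ M := hM z
      have h4 : |φ w| ≤ M := hM w
      linarith
    have h2 : 2 * M * 1 ≤ 2 * M * dist z w := mul_le_mul_of_nonneg_left hd.le (by linarith)
    linarith

lemma dist_fl (y : G) (τ τ' : ℝ) : dist (base (y * fl (-τ))) (base (y * fl (-τ'))) = |τ - τ'| := by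
  have h1 := Dyn.dist_base_fl (y * fl (-τ')) (τ' - τ)
  rw [mul_assoc, ← Dyn.fl_add] at h1
  have e1 : -τ' + (τ' - τ) = -τ := by ring
  rw [e1] at h1
  rw [h1, abs_sub_comm]

/-! ### The window -/

lemma ch_nonneg (τ₀ x : ℝ) : 0 ≤ ch τ₀ x := le_max_left _ _

lemma ch_le_one {τ₀ : ℝ} (h : 0 < τ₀) (x : ℝ) : ch τ₀ x ≤ 1 := by
  unfold ch
  refine max_le zero_le_one ?_
  have : 0 ≤ |x| / τ₀ := by positivity
  linarith

lemma ch_lip {τ₀ : ℝ} (h : 0 < τ₀) (x y : ℝ) : |ch τ₀ x - ch τ₀ y| ≤ |x - y| / τ₀ := by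
  unfold ch
  have h2 : |max 0 (1 - |x| / τ₀) - max 0 (1 - |y| / τ₀)| ≤ |(1 - |x| / τ₀) - (1 - |y| / τ₀)| := by
    refine (abs_max_sub_max_le_max (0 : ℝ) (1 - |x| / τ₀) 0 (1 - |y| / τ₀)).trans ?_
    rw [sub_zero, abs_zero]
    exact (max_eq_right (abs_nonneg _)).le
  refine h2.trans ?_
  have e1 : (1 - |x| / τ₀) - (1 - |y| / τ₀) = (|y| - |x|) / τ₀ := by ring
  rw [e1, abs_div, abs_of_pos h]
  refine div_le_div_of_nonneg_right ?_ h.le
  rw [abs_sub_comm]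
  exact abs_abs_sub_abs_le_abs_sub x y

/-! ### The two bounds for `Ik` -/

/-- the data of a pair of crossing geodesics -/
lemma coords (hUg : StmtUg) {y y' : G} {θ : ℝ} (hθ : 0 < θ)
    (h1 : θ ^ 2 ≤ (y⁻¹ * y') 0 0 * (y⁻¹ * y') 1 1) (h2 : θ ^ 2 ≤ -((y⁻¹ * y') 0 1 * (y⁻¹ * y') 1 0)) :
    ∃ P Q α β : ℝ, θ ≤ P ∧ θ ≤ Q ∧ P ^ 2 + Q ^ 2 = 1 ∧ ∀ τ σ : ℝ,
      uh (base (y * fl (-τ))) (base (y' * fl (-σ))) =
        (2 * P * Real.sinh ((τ - σ) / 2 + α)) ^ 2 + (2 * Q * Real.sinh ((τ + σ) / 2 + β)) ^ 2 := by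
  have hθ2 : 0 < θ ^ 2 := by positivity
  have p1 : 0 < (y⁻¹ * y') 0 0 * (y⁻¹ * y') 1 1 := lt_of_lt_of_le hθ2 h1
  have p2 : 0 < (y⁻¹ * y') 0 1 * -((y⁻¹ * y') 1 0) := by
    rw [mul_neg]
    exact lt_of_lt_of_le hθ2 h2
  obtain ⟨α, hα⟩ := sinh_sq p1
  obtain ⟨β, hβ⟩ := sinh_sq p2
  refine ⟨√((y⁻¹ * y') 0 0 * (y⁻¹ * y') 1 1), √((y⁻¹ * y') 0 1 * -((y⁻¹ * y') 1 0)), α, β,
    Real.le_sqrt_of_sq_le h1, Real.le_sqrt_of_sq_le (by rw [mul_neg]; exact h2), ?_, ?_⟩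
  · rw [Real.sq_sqrt p1.le, Real.sq_sqrt p2.le]
    have := Dyn.det_eq (y⁻¹ * y')
    linarith
  · intro τ σ
    rw [hUg.2.2.1 y y' τ σ, ← hα, ← hβ]
    ring

variable {φ : ℂ → ℝ} {k : ℝ → ℝ} {C₀ a τ₀ P Q α β : ℝ} {y y' : G}

/-- the upper bound -/
lemma up (hPo : StmtPo) (hk : Ker C₀ a k) (hP : 0 < P) (hQ : 0 < Q)
    (hu : ∀ τ σ : ℝ, uh (base (y * fl (-τ))) (base (y' * fl (-σ))) =
        (2 * P * Real.sinh ((τ - σ) / 2 + α)) ^ 2 + (2 * Q * Real.sinh ((τ + σ) / 2 + β)) ^ 2)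
    {B : ℝ} (hB0 : 0 ≤ B) (hB : ∀ τ σ : ℝ, uh (base (y * fl (-τ))) (base (y' * fl (-σ))) < a ^ 2 →
      ch τ₀ τ * ch τ₀ σ * φ (base (y * fl (-τ)) : ℂ) ≤
        B * (Real.cosh ((τ - σ) / 2 + α) * Real.cosh ((τ + σ) / 2 + β))) :
    Ik φ k (ch τ₀) y y' ≤ ENNReal.ofReal (B / (2 * P * Q)) := by
  have h1 : B / (2 * P * Q) = B * (1 / (2 * P * Q)) := by ring
  rw [h1, ENNReal.ofReal_mul hB0, ← J_eq hPo hk α β hP hQ, ← lintegral_const_mul' _ _ ENNReal.ofReal_ne_top]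
  unfold Ik
  refine lintegral_mono fun τ => ?_
  rw [← lintegral_const_mul' _ _ ENNReal.ofReal_ne_top]
  refine lintegral_mono fun σ => ?_
  simp only
  rw [← ENNReal.ofReal_mul hB0, ← hu τ σ]
  refine ENNReal.ofReal_le_ofReal ?_
  rcases lt_or_ge (uh (base (y * fl (-τ))) (base (y' * fl (-σ)))) (a ^ 2) with h | h
  · have h2 := mul_le_mul_of_nonneg_right (hB τ σ h) (hk.nonneg (uh (base (y * fl (-τ))) (base (y' * fl (-σ)))))
    calc _ = ch τ₀ τ * ch τ₀ σ * φ (base (y * fl (-τ)) : ℂ) * k (uh (base (y * fl (-τ))) (base (y' * fl (-σ)))) := by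
          ring
      _ ≤ _ := h2
      _ = _ := by ring
  · rw [hk.supp _ h]
    simp

/-- the lower bound -/
lemma lo (hPo : StmtPo) (hk : Ker C₀ a k) (hP : 0 < P) (hQ : 0 < Q)
    (hu : ∀ τ σ : ℝ, uh (base (y * fl (-τ))) (base (y' * fl (-σ))) =
        (2 * P * Real.sinh ((τ - σ) / 2 + α)) ^ 2 + (2 * Q * Real.sinh ((τ + σ) / 2 + β)) ^ 2)
    {B : ℝ} (hB : ∀ τ σ : ℝ, uh (base (y * fl (-τ))) (base (y' * fl (-σ))) < a ^ 2 →
        B * (Real.cosh ((τ - σ) / 2 + α) * Real.cosh ((τ + σ) / 2 + β)) ≤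
          ch τ₀ τ * ch τ₀ σ * φ (base (y * fl (-τ)) : ℂ)) :
    ENNReal.ofReal (B / (2 * P * Q)) ≤ Ik φ k (ch τ₀) y y' := by
  rcases lt_or_ge B 0 with hB0 | hB0
  · rw [ENNReal.ofReal_of_nonpos (div_nonpos_of_nonpos_of_nonneg hB0.le (by positivity))]
    exact zero_le
  have h1 : B / (2 * P * Q) = B * (1 / (2 * P * Q)) := by ring
  rw [h1, ENNReal.ofReal_mul hB0, ← J_eq hPo hk α β hP hQ, ← lintegral_const_mul' _ _ ENNReal.ofReal_ne_top]
  unfold Ik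
  refine lintegral_mono fun τ => ?_
  rw [← lintegral_const_mul' _ _ ENNReal.ofReal_ne_top]
  refine lintegral_mono fun σ => ?_
  simp only
  rw [← ENNReal.ofReal_mul hB0, ← hu τ σ]
  refine ENNReal.ofReal_le_ofReal ?_
  rcases lt_or_ge (uh (base (y * fl (-τ))) (base (y' * fl (-σ)))) (a ^ 2) with h | h
  · have h2 := mul_le_mul_of_nonneg_right (hB τ σ h) (hk.nonneg (uh (base (y * fl (-τ))) (base (y' * fl (-σ)))))
    calc _ = B * (Real.cosh ((τ - σ) / 2 + α) * Real.cosh ((τ + σ) / 2 + β)) *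
          k (uh (base (y * fl (-τ))) (base (y' * fl (-σ)))) := by ring
      _ ≤ _ := h2
      _ = _ := by ring
  · rw [hk.supp _ h]
    simp

/-! ### The estimates -/

lemma abs_le_of_sinh {P ε θ X : ℝ} (hθ : 0 < θ) (hP : θ ≤ P) (hε : 0 < ε) (h : (2 * P * Real.sinh X) ^ 2 < ε ^ 2) :
    |X| ≤ ε / (2 * θ) := by
  have h1 : |2 * P * Real.sinh X| < ε := abs_lt_of_sq_lt_sq h hε.le
  rw [abs_mul, abs_of_pos (by linarith : (0 : ℝ) < 2 * P)] at h1
  have h2 : |X| ≤ |Real.sinh X| := by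
    rw [Real.abs_sinh]
    exact Real.self_le_sinh_iff.2 (abs_nonneg X)
  rw [le_div_iff₀ (by positivity)]
  have h3 : |X| * (2 * θ) ≤ |Real.sinh X| * (2 * P) :=
    mul_le_mul h2 (by linarith) (by positivity) (abs_nonneg _)
  linarith

lemma cosh_le_exp (X : ℝ) : Real.cosh X ≤ Real.exp |X| := by
  rw [← Real.cosh_abs, Real.cosh_eq]
  have : Real.exp (-|X|) ≤ Real.exp |X| := Real.exp_le_exp.2 (by linarith [abs_nonneg X])
  linarith

/-- `c - 1 ≤ (|X| + |Y|) c` for `c = cosh X cosh Y` -/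
lemma cosh_cosh (X Y : ℝ) : 1 ≤ Real.cosh X * Real.cosh Y ∧
    Real.cosh X * Real.cosh Y - 1 ≤ (|X| + |Y|) * (Real.cosh X * Real.cosh Y) := by
  have h1 := Real.one_le_cosh X
  have h2 := Real.one_le_cosh Y
  have hc : 1 ≤ Real.cosh X * Real.cosh Y := one_le_mul_of_one_le_of_one_le h1 h2
  refine ⟨hc, ?_⟩
  have h3 : Real.cosh X * Real.cosh Y ≤ Real.exp (|X| + |Y|) := by
    rw [Real.exp_add]
    exact mul_le_mul (cosh_le_exp X) (cosh_le_exp Y) (by linarith) (Real.exp_pos _).le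
  have h4 : Real.cosh X * Real.cosh Y * Real.exp (-(|X| + |Y|)) ≤ 1 := by
    rw [Real.exp_neg, ← div_eq_mul_inv, div_le_one (Real.exp_pos _)]
    exact h3
  have h5 : 1 - (|X| + |Y|) ≤ Real.exp (-(|X| + |Y|)) := by
    have := Real.add_one_le_exp (-(|X| + |Y|))
    linarith
  have h6 : Real.cosh X * Real.cosh Y * (1 - (|X| + |Y|)) ≤ 1 :=
    (mul_le_mul_of_nonneg_left h5 (by linarith)).trans h4
  linarith

/-- the comparison of the weight with its value at the crossing point -/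
lemma est {ε θ M L : ℝ} (hφ : TestP H0 φ) (hM : ∀ z, φ z ≤ M) (hM0 : 0 ≤ M) (hL0 : 0 ≤ L)
    (hL : ∀ z w : ℍ, |φ z - φ w| ≤ L * dist z w) (hτ : 0 < τ₀) (hτ1 : τ₀ ≤ 1) (hθ : 0 < θ) (hε : 0 < ε)
    (hP : θ ≤ P) (hQ : θ ≤ Q) {τ σ : ℝ}
    (h : (2 * P * Real.sinh ((τ - σ) / 2 + α)) ^ 2 + (2 * Q * Real.sinh ((τ + σ) / 2 + β)) ^ 2 < ε ^ 2) :
    ch τ₀ τ * ch τ₀ σ * φ (base (y * fl (-τ)) : ℂ) ≤
      (ch τ₀ (-α - β) * ch τ₀ (α - β) * φ (base (y * fl (-(-α - β))) : ℂ) + (3 * M + L) * (ε / θ / τ₀)) *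
        (Real.cosh ((τ - σ) / 2 + α) * Real.cosh ((τ + σ) / 2 + β)) ∧
    (ch τ₀ (-α - β) * ch τ₀ (α - β) * φ (base (y * fl (-(-α - β))) : ℂ) - (3 * M + L) * (ε / θ / τ₀)) *
        (Real.cosh ((τ - σ) / 2 + α) * Real.cosh ((τ + σ) / 2 + β)) ≤
      ch τ₀ τ * ch τ₀ σ * φ (base (y * fl (-τ)) : ℂ) := by
  set X := (τ - σ) / 2 + α with hX
  set Y := (τ + σ) / 2 + β with hY
  set c := Real.cosh X * Real.cosh Y with hc
  set t1 := -α - β with ht1
  set s1 := α - β with hs1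
  set δ := ε / θ with hδ
  have hδ0 : 0 < δ := by positivity
  have bX : |X| ≤ δ / 2 := by
    have := abs_le_of_sinh hθ hP hε (lt_of_le_of_lt (le_add_of_nonneg_right (sq_nonneg _)) h)
    have e : ε / (2 * θ) = δ / 2 := by
      rw [hδ]
      field_simp
    rwa [e] at this
  have bY : |Y| ≤ δ / 2 := by
    have := abs_le_of_sinh hθ hQ hε (lt_of_le_of_lt (le_add_of_nonneg_left (sq_nonneg _)) h)
    have e : ε / (2 * θ) = δ / 2 := by
      rw [hδ]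
      field_simp
    rwa [e] at this
  have dτ : |τ - t1| ≤ δ := by
    have e : τ - t1 = X + Y := by
      rw [hX, hY, ht1]
      ring
    rw [e]
    have := abs_add_le X Y
    linarith
  have dσ : |σ - s1| ≤ δ := by
    have e : σ - s1 = Y - X := by
      rw [hX, hY, hs1]
      ring
    rw [e]
    have := abs_sub Y X
    linarith
  obtain ⟨hc1, hc2⟩ := cosh_cosh X Y
  rw [← hc] at hc1 hc2
  set w := ch τ₀ τ * ch τ₀ σ * φ (base (y * fl (-τ)) : ℂ) with hw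
  set F := ch τ₀ t1 * ch τ₀ s1 * φ (base (y * fl (-t1)) : ℂ) with hF
  have hδτ : δ ≤ δ / τ₀ := le_div_self hδ0.le hτ hτ1
  have hδτ0 : 0 < δ / τ₀ := by positivity
  -- the difference
  have hdiff : |w - F| ≤ (2 * M + L) * (δ / τ₀) := by
    have e : w - F = (ch τ₀ τ - ch τ₀ t1) * (ch τ₀ σ * φ (base (y * fl (-τ)) : ℂ)) +
        ch τ₀ t1 * (ch τ₀ σ - ch τ₀ s1) * φ (base (y * fl (-τ)) : ℂ) +
        ch τ₀ t1 * ch τ₀ s1 * (φ (base (y * fl (-τ)) : ℂ) - φ (base (y * fl (-t1)) : ℂ)) := by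
      rw [hw, hF]
      ring
    have f0 : |φ (base (y * fl (-τ)) : ℂ)| ≤ M := by
      rw [abs_of_nonneg (hφ.nonneg _)]
      exact hM _
    have c0 : ∀ x, |ch τ₀ x| ≤ 1 := fun x => by
      rw [abs_of_nonneg (ch_nonneg _ _)]
      exact ch_le_one hτ x
    have l1 : |ch τ₀ τ - ch τ₀ t1| ≤ δ / τ₀ := (ch_lip hτ _ _).trans (div_le_div_of_nonneg_right dτ hτ.le)
    have l2 : |ch τ₀ σ - ch τ₀ s1| ≤ δ / τ₀ := (ch_lip hτ _ _).trans (div_le_div_of_nonneg_right dσ hτ.le)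
    have l3 : |φ (base (y * fl (-τ)) : ℂ) - φ (base (y * fl (-t1)) : ℂ)| ≤ L * δ := by
      refine (hL _ _).trans ?_
      rw [dist_fl]
      exact mul_le_mul_of_nonneg_left dτ hL0
    have b1 : |(ch τ₀ τ - ch τ₀ t1) * (ch τ₀ σ * φ (base (y * fl (-τ)) : ℂ))| ≤ δ / τ₀ * (1 * M) := by
      rw [abs_mul, abs_mul]
      exact mul_le_mul l1 (mul_le_mul (c0 σ) f0 (abs_nonneg _) zero_le_one) (by positivity) hδτ0.le
    have b2 : |ch τ₀ t1 * (ch τ₀ σ - ch τ₀ s1) * φ (base (y * fl (-τ)) : ℂ)| ≤ 1 * (δ / τ₀) * M := by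
      rw [abs_mul, abs_mul]
      exact mul_le_mul (mul_le_mul (c0 t1) l2 (abs_nonneg _) zero_le_one) f0 (abs_nonneg _) (by positivity)
    have b3 : |ch τ₀ t1 * ch τ₀ s1 * (φ (base (y * fl (-τ)) : ℂ) - φ (base (y * fl (-t1)) : ℂ))| ≤
        1 * 1 * (L * δ) := by
      rw [abs_mul, abs_mul]
      exact mul_le_mul (mul_le_mul (c0 t1) (c0 s1) (abs_nonneg _) zero_le_one) l3 (abs_nonneg _) (by norm_num)
    have b4 : L * δ ≤ L * (δ / τ₀) := mul_le_mul_of_nonneg_left hδτ hL0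
    rw [e]
    have b5 := abs_add_three ((ch τ₀ τ - ch τ₀ t1) * (ch τ₀ σ * φ (base (y * fl (-τ)) : ℂ)))
      (ch τ₀ t1 * (ch τ₀ σ - ch τ₀ s1) * φ (base (y * fl (-τ)) : ℂ))
      (ch τ₀ t1 * ch τ₀ s1 * (φ (base (y * fl (-τ)) : ℂ) - φ (base (y * fl (-t1)) : ℂ)))
    linarith
  obtain ⟨hd1, hd2⟩ := abs_le.1 hdiff
  have hF0 : 0 ≤ F := mul_nonneg (mul_nonneg (ch_nonneg _ _) (ch_nonneg _ _)) (hφ.nonneg _)
  have hFM : F ≤ M := by
    have h1 : ch τ₀ t1 * ch τ₀ s1 ≤ 1 := mul_le_one₀ (ch_le_one hτ _) (ch_nonneg _ _) (ch_le_one hτ _)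
    calc F ≤ 1 * M := mul_le_mul h1 (hM _) (hφ.nonneg _) zero_le_one
      _ = M := one_mul M
  have hMd : 0 ≤ M * (δ / τ₀) := by positivity
  have hE1 : 0 ≤ (2 * M + L) * (δ / τ₀) := by positivity
  have hE : (3 * M + L) * (δ / τ₀) = (2 * M + L) * (δ / τ₀) + M * (δ / τ₀) := by ring
  rw [hE]
  constructor
  · have h1 : w ≤ F + ((2 * M + L) * (δ / τ₀) + M * (δ / τ₀)) := by linarith
    refine h1.trans (le_mul_of_one_le_right (by linarith) hc1)
  · have h1 : (c - 1) * F ≤ M * (δ / τ₀) * c := by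
      have h2 : c - 1 ≤ (δ / τ₀) * c := by
        refine hc2.trans (mul_le_mul_of_nonneg_right ?_ (by linarith))
        linarith
      calc (c - 1) * F ≤ ((δ / τ₀) * c) * M := mul_le_mul h2 hFM hF0 (by positivity)
        _ = M * (δ / τ₀) * c := by ring
    have h3 : (2 * M + L) * (δ / τ₀) ≤ (2 * M + L) * (δ / τ₀) * c := le_mul_of_one_le_right hE1 hc1
    have h4 : (F - ((2 * M + L) * (δ / τ₀) + M * (δ / τ₀))) * c =
        F + (c - 1) * F - (2 * M + L) * (δ / τ₀) * c - M * (δ / τ₀) * c := by ring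
    rw [h4]
    linarith

end QaM

open QaM in
theorem stmtQa (hUg : StmtUg) (hPo : StmtPo) : StmtQa := by
  intro φ hφ
  obtain ⟨M, L, hM0, hL0, hM, hL⟩ := phi_lip hφ
  refine ⟨6 * M + 2 * L, by positivity, ?_⟩
  intro τ₀ a ε θ C₀ k k' hτ hτ1 hk hk' haε hεθ y y' h1 h2
  have hε : 0 < ε := hk'.pos
  have hθ : 0 < θ := lt_of_lt_of_le hε hεθ
  obtain ⟨P, Q, α, β, hP, hQ, hPQ, hu⟩ := coords hUg hθ h1 h2
  have hP0 : 0 < P := lt_of_lt_of_le hθ hP
  have hQ0 : 0 < Q := lt_of_lt_of_le hθ hQ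
  have hPQ2 : θ ≤ 2 * P * Q := by
    rcases le_or_gt (1 / 2) P with h | h
    · have : 1 / 2 * θ ≤ P * Q := mul_le_mul h hQ hθ.le hP0.le
      linarith
    · have hq : 1 / 2 ≤ Q := by
        by_contra h'
        rw [not_le] at h'
        nlinarith
      have : θ * (1 / 2) ≤ P * Q := mul_le_mul hP hq (by norm_num) hP0.le
      linarith
  have hD : 0 < 2 * P * Q := by positivity
  have ha : 0 < a := hk.pos
  have haε2 : a ^ 2 ≤ ε ^ 2 := pow_le_pow_left₀ ha.le haε 2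
  constructor
  · set F := ch τ₀ (-α - β) * ch τ₀ (α - β) * φ (base (y * fl (-(-α - β))) : ℂ) with hF
    set E := (3 * M + L) * (ε / θ / τ₀) with hE
    have hE0 : 0 ≤ E := by positivity
    have hF0 : 0 ≤ F := mul_nonneg (mul_nonneg (ch_nonneg _ _) (ch_nonneg _ _)) (hφ.nonneg _)
    have u1 : Ik φ k (ch τ₀) y y' ≤ ENNReal.ofReal ((F + E) / (2 * P * Q)) :=
      up hPo hk hP0 hQ0 hu (by positivity) fun τ σ h => by
        rw [hu] at h
        exact (est hφ hM hM0 hL0 hL hτ hτ1 hθ hε hP hQ (lt_of_lt_of_le h haε2)).1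
    have u2 : ENNReal.ofReal ((F - E) / (2 * P * Q)) ≤ Ik φ k' (ch τ₀) y y' :=
      lo hPo hk' hP0 hQ0 hu fun τ σ h => by
        rw [hu] at h
        exact (est hφ hM hM0 hL0 hL hτ hτ1 hθ hε hP hQ h).2
    have u3 : ENNReal.ofReal ((F + E) / (2 * P * Q)) ≤
        ENNReal.ofReal ((F - E) / (2 * P * Q)) + ENNReal.ofReal (2 * E / (2 * P * Q)) := by
      have e : (F + E) / (2 * P * Q) = (F - E) / (2 * P * Q) + 2 * E / (2 * P * Q) := by ring
      rw [e]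
      exact ENNReal.ofReal_add_le
    have u4 : 2 * E / (2 * P * Q) ≤ (6 * M + 2 * L) * ε / (θ ^ 2 * τ₀) := by
      have h3 : 2 * E / (2 * P * Q) ≤ 2 * E / θ := div_le_div_of_nonneg_left (by positivity) hθ hPQ2
      refine h3.trans (le_of_eq ?_)
      rw [hE]
      field_simp
      ring
    exact u1.trans (u3.trans (add_le_add u2 (ENNReal.ofReal_le_ofReal u4)))
  · have u1 : Ik φ k (ch τ₀) y y' ≤ ENNReal.ofReal (M / (2 * P * Q)) :=
      up hPo hk hP0 hQ0 hu hM0 fun τ σ _ => by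
        have c1 := (cosh_cosh ((τ - σ) / 2 + α) ((τ + σ) / 2 + β)).1
        have h3 : ch τ₀ τ * ch τ₀ σ ≤ 1 := mul_le_one₀ (ch_le_one hτ _) (ch_nonneg _ _) (ch_le_one hτ _)
        calc ch τ₀ τ * ch τ₀ σ * φ (base (y * fl (-τ)) : ℂ) ≤ 1 * M :=
              mul_le_mul h3 (hM _) (hφ.nonneg _) zero_le_one
          _ = M := one_mul M
          _ ≤ _ := le_mul_of_one_le_right hM0 c1
    refine u1.trans (ENNReal.ofReal_le_ofReal ?_)
    have h3 : M / (2 * P * Q) ≤ M / θ := div_le_div_of_nonneg_left hM0 hθ hPQ2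
    exact h3.trans (div_le_div_of_nonneg_right (by linarith) hθ.le)

end

end Pool.Agent.A54.Hp
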