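import Pool.Agent.Lib.MP_a54f13_nt.Hp.Defs

/-!
# Package `Hp`, lattice half: definitions and basic lemmas

THEOREM A (helper39, notes 4597, 4609). Architect of this half: helper72.
-/

set_option autoImplicit false

namespace Pool.Agent.A54.Hp

open MeasureTheory Filter Topology Set
open scoped ContDiff ComplexConjugate UpperHalfPlane MatrixGroups ENNReal
open Pool.Agent.A54.Dyn (G fl base ze io mk4 dom)
open Pool.Agent.A54.Av (Mat NonSc)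

noncomputable section

/-! ### definitions -/

/-- group elements near the diagonal part of the identity -/
def Dg (c w : ℝ) : Set G := {g | |g 0 0 - 1| ≤ c ∧ |g 1 1 - 1| ≤ c ∧ |g 0 1| ≤ w ∧ |g 1 0| ≤ w}

/-- group elements with small off-diagonal entries -/
def Nw (C w : ℝ) : Set G := {g | |g 0 0| ≤ C ∧ |g 1 1| ≤ C ∧ |g 0 1| ≤ w ∧ |g 1 0| ≤ w}

/-- matrices whose determinant is a product of two primes of `(M, 2M]` -/
def Mpq (M : ℝ) : Set Mat := {s | ∃ p ∈ Pm M, ∃ q ∈ Pm M, s.det = (p : ℤ) * (q : ℤ)}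

/-- matrices whose determinant is a product of four primes of `(M, 2M]` -/
def Mp4 (M : ℝ) : Set Mat := {r | ∃ p ∈ Pm M, ∃ q ∈ Pm M, ∃ p' ∈ Pm M, ∃ q' ∈ Pm M,
  r.det = (p : ℤ) * (q : ℤ) * ((p' : ℤ) * (q' : ℤ))}

/-- the integral points `u` within `D` of the points `lam ξ`, `|lam| ≤ Λ` -/
def Cyl (Λ D : ℝ) (ξ : Fin 3 → ℝ) : Set (Fin 3 → ℤ) :=
  {u | ∃ lam : ℝ, |lam| ≤ Λ ∧ ∀ i, |((u i : ℤ) : ℝ) - lam * ξ i| ≤ D}

/-- `ξ` is bounded and bounded away from `0` -/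
def Bd (B : ℝ) (ξ : Fin 3 → ℝ) : Prop := (∀ i, |ξ i| ≤ B) ∧ ∃ i, 1 ≤ B * |ξ i|

/-- the cross product of integral vectors -/
def cr (u v : Fin 3 → ℤ) : Fin 3 → ℤ :=
  ![u 1 * v 2 - u 2 * v 1, u 2 * v 0 - u 0 * v 2, u 0 * v 1 - u 1 * v 0]

/-- the action of `s` on linear forms: `N' = adj(s) N s` with `N = (n₀, n₂; n₁, -n₀)` -/
def nn (s : Mat) (n : Fin 3 → ℤ) : Fin 3 → ℤ :=
  ![n 0 * (s 0 0 * s 1 1 + s 0 1 * s 1 0) - n 1 * (s 0 0 * s 0 1) + n 2 * (s 1 0 * s 1 1),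
    n 1 * s 0 0 ^ 2 - 2 * n 0 * (s 0 0 * s 1 0) - n 2 * s 1 0 ^ 2,
    n 2 * s 1 1 ^ 2 + 2 * n 0 * (s 0 1 * s 1 1) - n 1 * s 0 1 ^ 2]

/-- `ξ` is close to the line through a short integral vector -/
def Ex1 (s w : ℝ) (ξ : Fin 3 → ℝ) : Prop := ∃ v : Fin 3 → ℤ, v ≠ 0 ∧ nz v ≤ w ^ (-(1 / 5 : ℝ) - s) ∧
  ∃ lam : ℝ, ∀ i, |((v i : ℤ) : ℝ) - lam * ξ i| ≤ w ^ (4 / 5 - s : ℝ)

/-- `ξ` is close to a rational plane of very small height -/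
def Ex2 (s w : ℝ) (ξ : Fin 3 → ℝ) : Prop := ∃ n : Fin 3 → ℤ, n ≠ 0 ∧ nz n ≤ w ^ (-s) ∧
  |pr n ξ| ≤ w ^ (1 - s)

/-- pairs `(s, s')` of matrices of the amplifier for which `s x` and `s' x` are close -/
structure GP (R M : ℝ) (x : G) (B : Set G) (e : Mat × Mat) : Prop where
  m1 : e.1 ∈ Mpq M
  m2 : e.2 ∈ Mpq M
  ne : e.1 ≠ e.2
  o1 : nm e.1 * x ∈ Om R
  o2 : nm e.2 * x ∈ Om R
  b : x⁻¹ * nm (e.2.adjugate * e.1) * x ∈ B

/-! ### lemmas about `nm` -/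

lemma det_fin (s : Mat) : s.det = s 0 0 * s 1 1 - s 0 1 * s 1 0 := Matrix.det_fin_two s

lemma nm_apply {s : Mat} (h : 0 < s.det) (i j : Fin 2) :
    nm s i j = ((s i j : ℤ) : ℝ) / √((s.det : ℤ) : ℝ) := by
  have h' : (0 : ℝ) < ((s.det : ℤ) : ℝ) := by exact_mod_cast h
  unfold nm
  rw [dif_pos h']
  fin_cases i <;> fin_cases j <;> rfl

lemma sqrt_det_pos {s : Mat} (h : 0 < s.det) : 0 < √((s.det : ℤ) : ℝ) :=
  Real.sqrt_pos.mpr (by exact_mod_cast h)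

lemma entry_eq {s : Mat} (h : 0 < s.det) (i j : Fin 2) :
    ((s i j : ℤ) : ℝ) = √((s.det : ℤ) : ℝ) * nm s i j := by
  rw [nm_apply h, mul_div_cancel₀ _ (sqrt_det_pos h).ne']

lemma nm_mul {s t : Mat} (hs : 0 < s.det) (ht : 0 < t.det) : nm (s * t) = nm s * nm t := by
  have hd : (s * t).det = s.det * t.det := Matrix.det_mul s t
  have hst : 0 < (s * t).det := by rw [hd]; exact mul_pos hs ht
  have hs' : (0 : ℝ) ≤ ((s.det : ℤ) : ℝ) := by exact_mod_cast hs.le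
  have hsq : √(((s * t).det : ℤ) : ℝ) = √((s.det : ℤ) : ℝ) * √((t.det : ℤ) : ℝ) := by
    rw [hd, Int.cast_mul, Real.sqrt_mul hs']
  have h1 := (sqrt_det_pos hs).ne'
  have h2 := (sqrt_det_pos ht).ne'
  ext i j
  rw [Matrix.SpecialLinearGroup.coe_mul, Matrix.mul_apply, Fin.sum_univ_two]
  change nm (s * t) i j = nm s i 0 * nm t 0 j + nm s i 1 * nm t 1 j
  rw [nm_apply hst, nm_apply hs, nm_apply hs, nm_apply ht, nm_apply ht, hsq, Matrix.mul_apply,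
    Fin.sum_univ_two]
  push_cast
  field_simp

lemma det_adj (s : Mat) : s.adjugate.det = s.det := by
  rw [Matrix.det_adjugate]; simp

lemma nm_one : nm (1 : Mat) = 1 := by
  have h : (0 : ℤ) < (1 : Mat).det := by simp
  ext i j
  rw [nm_apply h]
  simp [Matrix.one_apply]

lemma nm_smul {s : Mat} (hs : 0 < s.det) {k : ℤ} (hk : 0 < k) : nm (k • s) = nm s := by
  have hd : (k • s).det = k ^ 2 * s.det := by
    rw [Matrix.det_smul]; simp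
  have hks : 0 < (k • s).det := by rw [hd]; positivity
  have hk' : (0 : ℝ) < (k : ℝ) := by exact_mod_cast hk
  have hsq : √(((k • s).det : ℤ) : ℝ) = (k : ℝ) * √((s.det : ℤ) : ℝ) := by
    rw [hd]; push_cast
    rw [Real.sqrt_mul (by positivity), Real.sqrt_sq hk'.le]
  ext i j
  rw [nm_apply hks, nm_apply hs, hsq, Matrix.smul_apply]
  simp only [smul_eq_mul, Int.cast_mul]
  rw [mul_div_mul_left _ _ hk'.ne']

lemma nm_adj {s : Mat} (hs : 0 < s.det) : nm s.adjugate = (nm s)⁻¹ := by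
  rw [eq_inv_iff_mul_eq_one]
  have h1 : 0 < s.adjugate.det := by rw [det_adj]; exact hs
  rw [← nm_mul h1 hs, Matrix.adjugate_mul, nm_smul (by simp) hs, nm_one]

lemma nm_io (γ : SL(2, ℤ)) : nm (γ : Mat) = io γ := by
  have h : (0 : ℤ) < (γ : Mat).det := by rw [γ.det_coe]; norm_num
  ext i j
  rw [nm_apply h, γ.det_coe]
  simp [io]

lemma nm_of_det_one {s : Mat} (h : s.det = 1) (i j : Fin 2) : nm s i j = ((s i j : ℤ) : ℝ) := by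
  rw [nm_apply (by rw [h]; norm_num), h]; simp

/-! ### boxes -/

lemma Om_mono {R R' : ℝ} (h : R ≤ R') : Om R ⊆ Om R' := fun _ hg i j => (hg i j).trans h

lemma Om_mul {R R' : ℝ} {x y : G} (hx : x ∈ Om R) (hy : y ∈ Om R') :
    x * y ∈ Om (2 * R * R') := by
  intro i j
  have e : (x * y) i j = x i 0 * y 0 j + x i 1 * y 1 j := by
    rw [Matrix.SpecialLinearGroup.coe_mul, Matrix.mul_apply, Fin.sum_univ_two]
  rw [e]
  have hR : 0 ≤ R := (abs_nonneg _).trans (hx 0 0)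
  calc |x i 0 * y 0 j + x i 1 * y 1 j| ≤ |x i 0 * y 0 j| + |x i 1 * y 1 j| := abs_add_le _ _
    _ = |x i 0| * |y 0 j| + |x i 1| * |y 1 j| := by rw [abs_mul, abs_mul]
    _ ≤ R * R' + R * R' := add_le_add (mul_le_mul (hx i 0) (hy 0 j) (abs_nonneg _) hR)
        (mul_le_mul (hx i 1) (hy 1 j) (abs_nonneg _) hR)
    _ = 2 * R * R' := by ring

lemma Om_inv {R : ℝ} {x : G} (hx : x ∈ Om R) : x⁻¹ ∈ Om R := by
  intro i j
  fin_cases i <;> fin_cases j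
  · change |x⁻¹ 0 0| ≤ R
    rw [Dyn.inv_00]; exact hx 1 1
  · change |x⁻¹ 0 1| ≤ R
    rw [Dyn.inv_01, abs_neg]; exact hx 0 1
  · change |x⁻¹ 1 0| ≤ R
    rw [Dyn.inv_10, abs_neg]; exact hx 1 0
  · change |x⁻¹ 1 1| ≤ R
    rw [Dyn.inv_11]; exact hx 0 0

/-- entries of a matrix which moves a point of the box into the box -/
lemma entry_le {R : ℝ} {x : G} {s : Mat} (hs : 0 < s.det) (hx : x ∈ Om R) (hy : nm s * x ∈ Om R)
    (i j : Fin 2) : |((s i j : ℤ) : ℝ)| ≤ 2 * R ^ 2 * √((s.det : ℤ) : ℝ) := by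
  have h1 : nm s ∈ Om (2 * R * R) := by
    have := Om_mul hy (Om_inv hx)
    rwa [mul_inv_cancel_right] at this
  have h2 := h1 i j
  rw [entry_eq hs, abs_mul, abs_of_pos (sqrt_det_pos hs)]
  calc _ ≤ √((s.det : ℤ) : ℝ) * (2 * R * R) := mul_le_mul_of_nonneg_left h2 (sqrt_det_pos hs).le
    _ = _ := by ring

/-- number of integral matrices with entries at most `K` -/
lemma card_box {K : ℝ} (hK : 0 ≤ K) (S : Finset Mat) (hS : ∀ s ∈ S, ∀ i j, |((s i j : ℤ) : ℝ)| ≤ K) :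
    (S.card : ℝ) ≤ (2 * K + 1) ^ 4 := by
  have hm : ∀ s ∈ S, ∀ i j, s i j ∈ Finset.Icc (-⌊K⌋) ⌊K⌋ := by
    intro s hs i j
    have h := hS s hs i j
    rw [abs_le] at h
    rw [Finset.mem_Icc]
    constructor
    · rw [neg_le]
      apply Int.le_floor.mpr
      push_cast
      linarith [h.1]
    · exact Int.le_floor.mpr h.2
  have h1 : S.card ≤ ((Finset.Icc (-⌊K⌋) ⌊K⌋ ×ˢ Finset.Icc (-⌊K⌋) ⌊K⌋) ×ˢ
      (Finset.Icc (-⌊K⌋) ⌊K⌋ ×ˢ Finset.Icc (-⌊K⌋) ⌊K⌋)).card := by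
    apply Finset.card_le_card_of_injOn (fun s : Mat => ((s 0 0, s 0 1), (s 1 0, s 1 1)))
    · intro s hs
      have hs' : s ∈ S := hs
      simp only [Finset.coe_product, Set.mem_prod, Finset.mem_coe]
      exact ⟨⟨hm s hs' 0 0, hm s hs' 0 1⟩, ⟨hm s hs' 1 0, hm s hs' 1 1⟩⟩
    · intro s _ t _ hst
      simp only [Prod.mk.injEq] at hst
      obtain ⟨⟨a1, a2⟩, ⟨a3, a4⟩⟩ := hst
      ext i j
      fin_cases i <;> fin_cases j <;> assumption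
  have h2 : ((Finset.Icc (-⌊K⌋) ⌊K⌋).card : ℝ) ≤ 2 * K + 1 := by
    rw [Int.card_Icc]
    have h3 : 0 ≤ ⌊K⌋ := Int.floor_nonneg.mpr hK
    have h4 : ((⌊K⌋ + 1 - -⌊K⌋).toNat : ℤ) = 2 * ⌊K⌋ + 1 := by omega
    have h5 : ((⌊K⌋ + 1 - -⌊K⌋).toNat : ℝ) = 2 * (⌊K⌋ : ℝ) + 1 := by exact_mod_cast h4
    rw [h5]
    linarith [Int.floor_le K]
  have h6 : (0 : ℝ) ≤ ((Finset.Icc (-⌊K⌋) ⌊K⌋).card : ℝ) := by positivity
  calc (S.card : ℝ) ≤ (((Finset.Icc (-⌊K⌋) ⌊K⌋ ×ˢ Finset.Icc (-⌊K⌋) ⌊K⌋) ×ˢ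
      (Finset.Icc (-⌊K⌋) ⌊K⌋ ×ˢ Finset.Icc (-⌊K⌋) ⌊K⌋)).card : ℝ) := by exact_mod_cast h1
    _ = ((Finset.Icc (-⌊K⌋) ⌊K⌋).card : ℝ) ^ 4 := by
        rw [Finset.card_product, Finset.card_product]; push_cast; ring
    _ ≤ (2 * K + 1) ^ 4 := pow_le_pow_left₀ h6 h2 4

/-- the set of integral matrices with bounded entries is finite -/
lemma finite_box (K : ℝ) : {s : Mat | ∀ i j, |((s i j : ℤ) : ℝ)| ≤ K}.Finite := by
  have h1 : (Set.Icc (-⌊K⌋) ⌊K⌋).Finite := Set.finite_Icc _ _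
  have h2 : {f : Fin 2 → Fin 2 → ℤ | ∀ i j, f i j ∈ Set.Icc (-⌊K⌋) ⌊K⌋}.Finite := by
    have h3 : {f : Fin 2 → Fin 2 → ℤ | ∀ i j, f i j ∈ Set.Icc (-⌊K⌋) ⌊K⌋} =
        Set.pi Set.univ (fun _ : Fin 2 => Set.pi Set.univ (fun _ : Fin 2 => Set.Icc (-⌊K⌋) ⌊K⌋)) := by
      ext f
      simp only [Set.mem_ofPred_eq, Set.mem_univ_pi]
    rw [h3]
    exact Set.Finite.pi (fun _ => Set.Finite.pi fun _ => h1)
  refine h2.subset ?_
  intro s hs i j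
  have h := hs i j
  rw [abs_le] at h
  refine ⟨?_, Int.le_floor.mpr h.2⟩
  rw [neg_le]
  apply Int.le_floor.mpr
  push_cast
  linarith [h.1]

/-! ### the coordinates `xi` and `uu` -/

lemma xi_0 (g : G) : xi g 0 = g 0 0 * g 1 1 + g 0 1 * g 1 0 := rfl
lemma xi_1 (g : G) : xi g 1 = -(g 0 0 * g 0 1) := rfl
lemma xi_2 (g : G) : xi g 2 = g 1 0 * g 1 1 := rfl
lemma uu_0 (s : Mat) : uu s 0 = s 0 0 - s 1 1 := rfl
lemma uu_1 (s : Mat) : uu s 1 = s 0 1 := rfl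
lemma uu_2 (s : Mat) : uu s 2 = s 1 0 := rfl
lemma tr_eq (s : Mat) : s.trace = s 0 0 + s 1 1 := Matrix.trace_fin_two s

lemma pr_eq (n : Fin 3 → ℤ) (ξ : Fin 3 → ℝ) :
    pr n ξ = (n 0 : ℝ) * ξ 0 + (n 1 : ℝ) * ξ 1 + (n 2 : ℝ) * ξ 2 := Fin.sum_univ_three _

lemma nz_eq (n : Fin 3 → ℤ) : nz n = |((n 0 : ℤ) : ℝ)| + |((n 1 : ℤ) : ℝ)| + |((n 2 : ℤ) : ℝ)| :=
  Fin.sum_univ_three _

lemma abs_le_nz (n : Fin 3 → ℤ) (i : Fin 3) : |((n i : ℤ) : ℝ)| ≤ nz n :=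
  Finset.single_le_sum (f := fun i => |((n i : ℤ) : ℝ)|) (fun _ _ => abs_nonneg _)
    (Finset.mem_univ i)

lemma nz_nonneg (n : Fin 3 → ℤ) : 0 ≤ nz n := Finset.sum_nonneg fun _ _ => abs_nonneg _

lemma one_le_nz {n : Fin 3 → ℤ} (h : n ≠ 0) : 1 ≤ nz n := by
  obtain ⟨i, hi⟩ := Function.ne_iff.mp h
  have h1 : 1 ≤ |n i| := Int.one_le_abs hi
  have h2 : (1 : ℝ) ≤ |((n i : ℤ) : ℝ)| := by exact_mod_cast h1
  exact h2.trans (abs_le_nz n i)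

/-- the quadric -/
lemma xi_quad (g : G) : xi g 0 ^ 2 + 4 * (xi g 1 * xi g 2) = 1 := by
  have h := Dyn.det_eq g
  rw [xi_0, xi_1, xi_2]
  have : (g 0 0 * g 1 1 + g 0 1 * g 1 0) ^ 2 + 4 * (-(g 0 0 * g 0 1) * (g 1 0 * g 1 1)) =
    (g 0 0 * g 1 1 - g 0 1 * g 1 0) ^ 2 := by ring
  rw [this, h]; norm_num

lemma xi_le {R : ℝ} {x : G} (hx : x ∈ Om R) (i : Fin 3) : |xi x i| ≤ 2 * R ^ 2 := by
  have hR : 0 ≤ R := (abs_nonneg _).trans (hx 0 0)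
  have key : ∀ i j k l, |x i j * x k l| ≤ R ^ 2 := fun i j k l => by
    rw [abs_mul, _root_.sq]
    exact mul_le_mul (hx i j) (hx k l) (abs_nonneg _) hR
  have hR2 : 0 ≤ R ^ 2 := by positivity
  fin_cases i
  · change |x 0 0 * x 1 1 + x 0 1 * x 1 0| ≤ _
    linarith [abs_add_le (x 0 0 * x 1 1) (x 0 1 * x 1 0), key 0 0 1 1, key 0 1 1 0]
  · change |-(x 0 0 * x 0 1)| ≤ _
    rw [abs_neg]
    linarith [key 0 0 0 1]
  · change |x 1 0 * x 1 1| ≤ _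
    linarith [key 1 0 1 1]

lemma exists_xi (x : G) : ∃ i, 1 ≤ 3 * |xi x i| := by
  by_contra h
  push Not at h
  have h0 := h 0
  have h1 := h 1
  have h2 := h 2
  have hq := xi_quad x
  have a0 : xi x 0 ^ 2 = |xi x 0| ^ 2 := (sq_abs _).symm
  have a1 : xi x 1 * xi x 2 ≤ |xi x 1| * |xi x 2| := by
    rw [← abs_mul]; exact le_abs_self _
  nlinarith [abs_nonneg (xi x 0), abs_nonneg (xi x 1), abs_nonneg (xi x 2)]

lemma Bd_xi {R : ℝ} (hR : 1 ≤ R) {x : G} (hx : x ∈ Om R) : Bd (3 * R ^ 2) (xi x) := by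
  have hR2 : 1 ≤ R ^ 2 := one_le_pow₀ hR
  refine ⟨fun i => (xi_le hx i).trans (by linarith), ?_⟩
  obtain ⟨i, hi⟩ := exists_xi x
  refine ⟨i, hi.trans ?_⟩
  nlinarith [abs_nonneg (xi x i)]

/-- `X(xi (x g)) = x X(xi g) x⁻¹`, in coordinates -/
lemma xi_mul_0 (x g : G) : xi (x * g) 0 = xi x 0 * xi g 0 -
    2 * (x 0 0 * x 1 0) * xi g 1 + 2 * (x 0 1 * x 1 1) * xi g 2 := by
  rw [xi_0, xi_0, xi_0, xi_1, xi_2, Dyn.mul_00, Dyn.mul_01, Dyn.mul_10, Dyn.mul_11]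
  ring

lemma xi_mul_1 (x g : G) : xi (x * g) 1 = xi x 1 * xi g 0 + x 0 0 ^ 2 * xi g 1 -
    x 0 1 ^ 2 * xi g 2 := by
  rw [xi_1, xi_1, xi_0, xi_1, xi_2, Dyn.mul_00, Dyn.mul_01]
  ring

lemma xi_mul_2 (x g : G) : xi (x * g) 2 = xi x 2 * xi g 0 - x 1 0 ^ 2 * xi g 1 +
    x 1 1 ^ 2 * xi g 2 := by
  rw [xi_2, xi_2, xi_0, xi_1, xi_2, Dyn.mul_10, Dyn.mul_11]
  ring

/-- the linear forms `nn s n` -/
lemma pr_nn {s : Mat} (hs : 0 < s.det) (n : Fin 3 → ℤ) (x : G) :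
    pr (nn s n) (xi x) = ((s.det : ℤ) : ℝ) * pr n (xi (nm s * x)) := by
  have hsq : √((s.det : ℤ) : ℝ) ^ 2 = ((s.det : ℤ) : ℝ) :=
    Real.sq_sqrt (by exact_mod_cast hs.le)
  have key : ∀ t : ℝ, (∀ i j, ((s i j : ℤ) : ℝ) = t * nm s i j) →
      pr (nn s n) (xi x) = t ^ 2 * pr n (xi (nm s * x)) := by
    intro t e
    rw [pr_eq, pr_eq, xi_0 (nm s * x), xi_1 (nm s * x), xi_2 (nm s * x), xi_0 x, xi_1 x, xi_2 x,
      Dyn.mul_00, Dyn.mul_01, Dyn.mul_10, Dyn.mul_11]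
    change ((n 0 * (s 0 0 * s 1 1 + s 0 1 * s 1 0) - n 1 * (s 0 0 * s 0 1) +
        n 2 * (s 1 0 * s 1 1) : ℤ) : ℝ) * (x 0 0 * x 1 1 + x 0 1 * x 1 0) +
      ((n 1 * s 0 0 ^ 2 - 2 * n 0 * (s 0 0 * s 1 0) - n 2 * s 1 0 ^ 2 : ℤ) : ℝ) *
        -(x 0 0 * x 0 1) +
      ((n 2 * s 1 1 ^ 2 + 2 * n 0 * (s 0 1 * s 1 1) - n 1 * s 0 1 ^ 2 : ℤ) : ℝ) *
        (x 1 0 * x 1 1) = _
    push_cast
    rw [e 0 0, e 0 1, e 1 0, e 1 1]
    ring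
  rw [key _ (entry_eq hs), hsq]

/-- discriminant of `nn s n` -/
lemma nn_disc (s : Mat) (n : Fin 3 → ℤ) :
    nn s n 0 ^ 2 + nn s n 1 * nn s n 2 = s.det ^ 2 * (n 0 ^ 2 + n 1 * n 2) := by
  rw [det_fin]
  change (n 0 * (s 0 0 * s 1 1 + s 0 1 * s 1 0) - n 1 * (s 0 0 * s 0 1) +
      n 2 * (s 1 0 * s 1 1)) ^ 2 +
    (n 1 * s 0 0 ^ 2 - 2 * n 0 * (s 0 0 * s 1 0) - n 2 * s 1 0 ^ 2) *
      (n 2 * s 1 1 ^ 2 + 2 * n 0 * (s 0 1 * s 1 1) - n 1 * s 0 1 ^ 2) = _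
  ring

/-! ### neighbourhoods of the identity -/

lemma Dg_mono {c c' w w' : ℝ} (hc : c ≤ c') (hw : w ≤ w') : Dg c w ⊆ Dg c' w' := fun _ hg =>
  ⟨hg.1.trans hc, hg.2.1.trans hc, hg.2.2.1.trans hw, hg.2.2.2.trans hw⟩

lemma Dg_sub_Nw {c w : ℝ} : Dg c w ⊆ Nw (1 + c) w := fun g hg => by
  refine ⟨?_, ?_, hg.2.2.1, hg.2.2.2⟩
  · have h1 := hg.1
    rw [abs_le] at h1 ⊢
    constructor <;> linarith [abs_nonneg (g 0 0 - 1)]
  · have h1 := hg.2.1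
    rw [abs_le] at h1 ⊢
    constructor <;> linarith [abs_nonneg (g 1 1 - 1)]

lemma Dg_sub_Nb {c w : ℝ} (hw : w ≤ c) : Dg c w ⊆ Nb c := fun g hg => by
  intro i j
  fin_cases i <;> fin_cases j
  · simpa using hg.1
  · simpa using hg.2.2.1.trans hw
  · simpa using hg.2.2.2.trans hw
  · simpa using hg.2.1

lemma Dg_inv {c w : ℝ} {g : G} (hg : g ∈ Dg c w) : g⁻¹ ∈ Dg c w := by
  refine ⟨?_, ?_, ?_, ?_⟩
  · rw [Dyn.inv_00]; exact hg.2.1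
  · rw [Dyn.inv_11]; exact hg.1
  · rw [Dyn.inv_01, abs_neg]; exact hg.2.2.1
  · rw [Dyn.inv_10, abs_neg]; exact hg.2.2.2

lemma Dg_mul {c w c' w' : ℝ} {g h : G} (hg : g ∈ Dg c w) (hh : h ∈ Dg c' w') :
    g * h ∈ Dg (c + c' + c * c' + w * w') ((1 + c) * w' + (1 + c') * w) := by
  obtain ⟨a1, a2, a3, a4⟩ := hg
  obtain ⟨b1, b2, b3, b4⟩ := hh
  have c0 : 0 ≤ c := (abs_nonneg _).trans a1
  have c0' : 0 ≤ c' := (abs_nonneg _).trans b1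
  have w0 : 0 ≤ w := (abs_nonneg _).trans a3
  have w0' : 0 ≤ w' := (abs_nonneg _).trans b3
  have g0 : |g 0 0| ≤ 1 + c := by
    calc |g 0 0| = |1 + (g 0 0 - 1)| := by ring_nf
      _ ≤ |(1 : ℝ)| + |g 0 0 - 1| := abs_add_le _ _
      _ ≤ 1 + c := by rw [abs_one]; linarith
  have g1 : |g 1 1| ≤ 1 + c := by
    calc |g 1 1| = |1 + (g 1 1 - 1)| := by ring_nf
      _ ≤ |(1 : ℝ)| + |g 1 1 - 1| := abs_add_le _ _
      _ ≤ 1 + c := by rw [abs_one]; linarith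
  have h0 : |h 0 0| ≤ 1 + c' := by
    calc |h 0 0| = |1 + (h 0 0 - 1)| := by ring_nf
      _ ≤ |(1 : ℝ)| + |h 0 0 - 1| := abs_add_le _ _
      _ ≤ 1 + c' := by rw [abs_one]; linarith
  have h1 : |h 1 1| ≤ 1 + c' := by
    calc |h 1 1| = |1 + (h 1 1 - 1)| := by ring_nf
      _ ≤ |(1 : ℝ)| + |h 1 1 - 1| := abs_add_le _ _
      _ ≤ 1 + c' := by rw [abs_one]; linarith
  refine ⟨?_, ?_, ?_, ?_⟩
  · rw [Dyn.mul_00]
    calc |g 0 0 * h 0 0 + g 0 1 * h 1 0 - 1|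
        = |(g 0 0 - 1) + (h 0 0 - 1) + (g 0 0 - 1) * (h 0 0 - 1) + g 0 1 * h 1 0| := by ring_nf
      _ ≤ |g 0 0 - 1| + |h 0 0 - 1| + |(g 0 0 - 1) * (h 0 0 - 1)| + |g 0 1 * h 1 0| :=
        (abs_add_le _ _).trans (add_le_add_left ((abs_add_le _ _).trans
          (add_le_add_left (abs_add_le _ _) _)) _)
      _ ≤ c + c' + c * c' + w * w' := by
        rw [abs_mul, abs_mul]
        exact add_le_add (add_le_add (add_le_add a1 b1) (mul_le_mul a1 b1 (abs_nonneg _) c0))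
          (mul_le_mul a3 b4 (abs_nonneg _) w0)
  · rw [Dyn.mul_11]
    calc |g 1 0 * h 0 1 + g 1 1 * h 1 1 - 1|
        = |(g 1 1 - 1) + (h 1 1 - 1) + (g 1 1 - 1) * (h 1 1 - 1) + g 1 0 * h 0 1| := by ring_nf
      _ ≤ |g 1 1 - 1| + |h 1 1 - 1| + |(g 1 1 - 1) * (h 1 1 - 1)| + |g 1 0 * h 0 1| :=
        (abs_add_le _ _).trans (add_le_add_left ((abs_add_le _ _).trans
          (add_le_add_left (abs_add_le _ _) _)) _)
      _ ≤ c + c' + c * c' + w * w' := by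
        rw [abs_mul, abs_mul]
        exact add_le_add (add_le_add (add_le_add a2 b2) (mul_le_mul a2 b2 (abs_nonneg _) c0))
          (mul_le_mul a4 b3 (abs_nonneg _) w0)
  · rw [Dyn.mul_01]
    calc |g 0 0 * h 0 1 + g 0 1 * h 1 1| ≤ |g 0 0 * h 0 1| + |g 0 1 * h 1 1| := abs_add_le _ _
      _ = |g 0 0| * |h 0 1| + |h 1 1| * |g 0 1| := by rw [abs_mul, abs_mul]; ring
      _ ≤ (1 + c) * w' + (1 + c') * w :=
        add_le_add (mul_le_mul g0 b3 (abs_nonneg _) (by linarith))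
          (mul_le_mul h1 a3 (abs_nonneg _) (by linarith))
  · rw [Dyn.mul_10]
    calc |g 1 0 * h 0 0 + g 1 1 * h 1 0| ≤ |g 1 0 * h 0 0| + |g 1 1 * h 1 0| := abs_add_le _ _
      _ = |g 1 1| * |h 1 0| + |h 0 0| * |g 1 0| := by rw [abs_mul, abs_mul]; ring
      _ ≤ (1 + c) * w' + (1 + c') * w :=
        add_le_add (mul_le_mul g1 b4 (abs_nonneg _) (by linarith))
          (mul_le_mul h0 a4 (abs_nonneg _) (by linarith))

/-- the small open tube is contained in `Dg` -/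
lemma bt_sub_Dg {c w : ℝ} (hc0 : 0 < c) (hc : c ≤ 1 / 4) (hw0 : 0 < w) (hw : w ^ 2 ≤ c / 4) :
    bt c w ⊆ Dg (2 * c) w := fun g hg => by
  obtain ⟨h1, h2, h3⟩ := hg
  have hd := Dyn.det_eq g
  have h4 : |g 0 1 * g 1 0| ≤ c / 4 := by
    rw [abs_mul]
    calc |g 0 1| * |g 1 0| ≤ w * w := mul_le_mul h2.le h3.le (abs_nonneg _) hw0.le
      _ ≤ c / 4 := by rw [← _root_.sq]; exact hw
  rw [abs_lt] at h1
  rw [abs_le] at h4
  refine ⟨?_, ?_, h2.le, h3.le⟩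
  · rw [abs_le]
    constructor <;> linarith [h1.1, h1.2]
  · rw [abs_le]
    constructor
    · by_contra hcon
      push Not at hcon
      nlinarith [h1.1, h1.2, h4.1, h4.2]
    · by_contra hcon
      push Not at hcon
      nlinarith [h1.1, h1.2, h4.1, h4.2]

/-- translation by an element of `Dg` moves `xi` by `O(w)` -/
lemma xi_Dg {R c w : ℝ} (hc : c ≤ 1) (hw : w ≤ 1) {x g : G} (hx : x ∈ Om R) (hg : g ∈ Dg c w)
    (i : Fin 3) : |xi (x * g) i - xi x i| ≤ 16 * R ^ 2 * w := by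
  obtain ⟨a1, a2, a3, a4⟩ := hg
  have w0 : 0 ≤ w := (abs_nonneg _).trans a3
  have hR : 0 ≤ R := (abs_nonneg _).trans (hx 0 0)
  have g0 : |g 0 0| ≤ 2 := by
    calc |g 0 0| = |1 + (g 0 0 - 1)| := by ring_nf
      _ ≤ |(1 : ℝ)| + |g 0 0 - 1| := abs_add_le _ _
      _ ≤ 2 := by rw [abs_one]; linarith
  have g1 : |g 1 1| ≤ 2 := by
    calc |g 1 1| = |1 + (g 1 1 - 1)| := by ring_nf
      _ ≤ |(1 : ℝ)| + |g 1 1 - 1| := abs_add_le _ _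
      _ ≤ 2 := by rw [abs_one]; linarith
  have hd := Dyn.det_eq g
  have e0 : |xi g 0 - 1| ≤ 2 * w := by
    rw [xi_0, show g 0 0 * g 1 1 + g 0 1 * g 1 0 - 1 = 2 * (g 0 1 * g 1 0) by linarith, abs_mul,
      abs_mul, abs_two]
    have : |g 0 1| * |g 1 0| ≤ w * 1 := mul_le_mul a3 (a4.trans hw) (abs_nonneg _) w0
    linarith
  have e1 : |xi g 1| ≤ 2 * w := by
    rw [xi_1, abs_neg, abs_mul]
    exact mul_le_mul g0 a3 (abs_nonneg _) (by norm_num)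
  have e2 : |xi g 2| ≤ 2 * w := by
    rw [xi_2, abs_mul, mul_comm]
    exact mul_le_mul g1 a4 (abs_nonneg _) (by norm_num)
  have key : ∀ i j k l, |x i j * x k l| ≤ R ^ 2 := fun i j k l => by
    rw [abs_mul, _root_.sq]
    exact mul_le_mul (hx i j) (hx k l) (abs_nonneg _) hR
  have hx0 := xi_le hx
  have hR2 : 0 ≤ R ^ 2 := by positivity
  have m1 : ∀ (a b A B : ℝ), |a| ≤ A → |b| ≤ B → |a * b| ≤ A * B := fun a b A B ha hb => by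
    rw [abs_mul]; exact mul_le_mul ha hb (abs_nonneg _) ((abs_nonneg _).trans ha)
  have n1 : 0 ≤ R ^ 2 * w := by positivity
  fin_cases i
  · change |xi (x * g) 0 - xi x 0| ≤ _
    rw [xi_mul_0, show xi x 0 * xi g 0 - 2 * (x 0 0 * x 1 0) * xi g 1 +
      2 * (x 0 1 * x 1 1) * xi g 2 - xi x 0 = xi x 0 * (xi g 0 - 1) +
      (-2) * ((x 0 0 * x 1 0) * xi g 1) + 2 * ((x 0 1 * x 1 1) * xi g 2) by ring]
    have b1 := m1 _ _ _ _ (hx0 0) e0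
    have b2 := m1 _ _ _ _ (key 0 0 1 0) e1
    have b3 := m1 _ _ _ _ (key 0 1 1 1) e2
    rw [abs_le] at b1 b2 b3 ⊢
    constructor <;> nlinarith [b1.1, b1.2, b2.1, b2.2, b3.1, b3.2]
  · change |xi (x * g) 1 - xi x 1| ≤ _
    rw [xi_mul_1, show xi x 1 * xi g 0 + x 0 0 ^ 2 * xi g 1 - x 0 1 ^ 2 * xi g 2 - xi x 1 =
      xi x 1 * (xi g 0 - 1) + (x 0 0 * x 0 0) * xi g 1 - (x 0 1 * x 0 1) * xi g 2 by ring]
    have b1 := m1 _ _ _ _ (hx0 1) e0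
    have b2 := m1 _ _ _ _ (key 0 0 0 0) e1
    have b3 := m1 _ _ _ _ (key 0 1 0 1) e2
    rw [abs_le] at b1 b2 b3 ⊢
    constructor <;> nlinarith [b1.1, b1.2, b2.1, b2.2, b3.1, b3.2]
  · change |xi (x * g) 2 - xi x 2| ≤ _
    rw [xi_mul_2, show xi x 2 * xi g 0 - x 1 0 ^ 2 * xi g 1 + x 1 1 ^ 2 * xi g 2 - xi x 2 =
      xi x 2 * (xi g 0 - 1) - (x 1 0 * x 1 0) * xi g 1 + (x 1 1 * x 1 1) * xi g 2 by ring]
    have b1 := m1 _ _ _ _ (hx0 2) e0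
    have b2 := m1 _ _ _ _ (key 1 0 1 0) e1
    have b3 := m1 _ _ _ _ (key 1 1 1 1) e2
    rw [abs_le] at b1 b2 b3 ⊢
    constructor <;> nlinarith [b1.1, b1.2, b2.1, b2.2, b3.1, b3.2]

end

end Pool.Agent.A54.Hp
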