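import Pool.Agent.Lib.MP_a54f13_nt.Hp.SpecB
import Pool.Agent.Lib.MP_a54f13_nt.Hp.LBase

/-!
# Package `Hp`, module `Qb` (helper62): general pairs of geodesics
-/

set_option autoImplicit false

namespace Pool.Agent.A54.Hp

open MeasureTheory Filter Topology Set
open scoped ContDiff ComplexConjugate UpperHalfPlane MatrixGroups ENNReal
open Pool.Agent.A54.Dyn (G fl base ze io mk4 dom)
open Pool.Agent.A54.Dyn.LiftM (Sct XC XX cc rot m0)
open Pool.Agent.A54.Half (H0)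
open Pool.Agent.A54.Sq (la TestP)

noncomputable section

namespace QbM

lemma sinh_sq {p s : ℝ} (h : 0 < p * s) : ∃ α : ℝ, ∀ x : ℝ,
    (p * Real.exp x - s * Real.exp (-x)) ^ 2 = (2 * √(p * s) * Real.sinh (x + α)) ^ 2 := by
  have hs : s ≠ 0 := right_ne_zero_of_mul h.ne'
  have hp : p ≠ 0 := left_ne_zero_of_mul h.ne'
  have hps : 0 < p / s := by
    have : p / s = p * s / s ^ 2 := by
      field_simp
    rw [this]
    positivity
  refine ⟨Real.log (p / s) / 2, fun x => ?_⟩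
  set E := Real.exp x with hE
  set A := Real.exp (Real.log (p / s) / 2) with hA
  have hE0 : E ≠ 0 := (Real.exp_pos x).ne'
  have hA0 : A ≠ 0 := (Real.exp_pos _).ne'
  have hA2 : A ^ 2 = p / s := by
    rw [hA, ← Real.exp_nat_mul]
    have : ((2 : ℕ) : ℝ) * (Real.log (p / s) / 2) = Real.log (p / s) := by
      push_cast
      ring
    rw [this, Real.exp_log hps]
  have hsinh : Real.sinh (x + Real.log (p / s) / 2) = (E * A - (E * A)⁻¹) / 2 := by
    rw [Real.sinh_eq, Real.exp_neg, Real.exp_add]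
  rw [hsinh, mul_pow, mul_pow, Real.sq_sqrt h.le, Real.exp_neg, ← hE]
  have e1 : (E * A - (E * A)⁻¹) ^ 2 = E ^ 2 * A ^ 2 - 2 + (E ^ 2 * A ^ 2)⁻¹ := by
    field_simp
    ring
  rw [div_pow, e1, hA2]
  field_simp
  ring

lemma abs_le_of_sinh {P ε θ X : ℝ} (hθ : 0 < θ) (hP : θ ≤ P) (hε : 0 < ε) (h : (2 * P * Real.sinh X) ^ 2 < ε ^ 2) :
    |X| ≤ ε / (2 * θ) := by
  have h1 : |2 * P * Real.sinh X| < ε := abs_lt_of_sq_lt_sq h hε.le
  rw [abs_mul, abs_of_pos (by linarith : (0 : ℝ) < 2 * P)] at h1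
  have h2 : |X| ≤ |Real.sinh X| := by
    rw [Real.abs_sinh]
    exact Real.self_le_sinh_iff.2 (abs_nonneg X)
  rw [le_div_iff₀ (by positivity)]
  have h3 : |X| * (2 * θ) ≤ |Real.sinh X| * (2 * P) :=
    mul_le_mul h2 (by linarith) (by positivity) (abs_nonneg _)
  linarith

lemma exp_exp (x : ℝ) : Real.exp x * Real.exp (-x) = 1 := by
  rw [← Real.exp_add, add_neg_cancel, Real.exp_zero]

lemma sq_minus (p s x : ℝ) : -(4 * (p * s)) ≤ (p * Real.exp x - s * Real.exp (-x)) ^ 2 := by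
  have h1 := exp_exp x
  have h2 : (p * Real.exp x - s * Real.exp (-x)) ^ 2 = (p * Real.exp x + s * Real.exp (-x)) ^ 2 -
      4 * (p * s) * (Real.exp x * Real.exp (-x)) := by ring
  rw [h2, h1]
  nlinarith [sq_nonneg (p * Real.exp x + s * Real.exp (-x))]

lemma sq_plus (q r y : ℝ) : 4 * (q * r) ≤ (q * Real.exp y + r * Real.exp (-y)) ^ 2 := by
  have := sq_minus q (-r) y
  have e : (q * Real.exp y - -r * Real.exp (-y)) ^ 2 = (q * Real.exp y + r * Real.exp (-y)) ^ 2 := by ring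
  rw [e] at this
  linarith

lemma exp_one_le : Real.exp 1 ≤ 3 := by
  have := Real.exp_one_lt_d9
  linarith

lemma small {q r y η : ℝ} (hη : 0 < η) (hy : |y| ≤ 1) (h1 : |q * r| ≤ η ^ 2)
    (h2 : (q * Real.exp y + r * Real.exp (-y)) ^ 2 < η ^ 2) : |q| ≤ 9 * η ∧ |r| ≤ 9 * η := by
  have hE := exp_exp y
  have e1 : (q * Real.exp y) ^ 2 + (r * Real.exp (-y)) ^ 2 =
      (q * Real.exp y + r * Real.exp (-y)) ^ 2 - 2 * (q * r) := by
    have : (q * Real.exp y + r * Real.exp (-y)) ^ 2 = (q * Real.exp y) ^ 2 + (r * Real.exp (-y)) ^ 2 +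
        2 * (q * r) * (Real.exp y * Real.exp (-y)) := by ring
    rw [this, hE]
    ring
  have h3 := (abs_le.1 h1).1
  have A : (q * Real.exp y) ^ 2 < (2 * η) ^ 2 := by nlinarith [sq_nonneg (r * Real.exp (-y))]
  have B : (r * Real.exp (-y)) ^ 2 < (2 * η) ^ 2 := by nlinarith [sq_nonneg (q * Real.exp y)]
  have A1 := abs_lt_of_sq_lt_sq A (by linarith)
  have B1 := abs_lt_of_sq_lt_sq B (by linarith)
  rw [abs_mul, abs_of_pos (Real.exp_pos _)] at A1 B1
  have hy' := abs_le.1 hy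
  have E1 : Real.exp y ≤ 3 := (Real.exp_le_exp.2 hy'.2).trans exp_one_le
  have E2 : Real.exp (-y) ≤ 3 := (Real.exp_le_exp.2 (by linarith [hy'.1])).trans exp_one_le
  constructor
  · calc |q| = |q| * Real.exp y * Real.exp (-y) := by rw [mul_assoc, hE, mul_one]
      _ ≤ 2 * η * 3 := mul_le_mul A1.le E2 (Real.exp_pos _).le (by linarith)
      _ ≤ 9 * η := by linarith
  · calc |r| = |r| * Real.exp (-y) * Real.exp y := by rw [mul_assoc, mul_comm (Real.exp (-y)), hE, mul_one]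
      _ ≤ 2 * η * 3 := mul_le_mul B1.le E1 (Real.exp_pos _).le (by linarith)
      _ ≤ 9 * η := by linarith

/-- for fixed `τ` the set of `σ` is contained in an interval of length `4 a` -/
lemma slice {p q r s a : ℝ} (ha : 0 < a) (ha1 : a ≤ 1) (hdet : p * s - q * r = 1) :
    ∃ m : ℝ → ℝ, ∀ τ σ : ℝ, (p * Real.exp ((τ - σ) / 2) - s * Real.exp (-((τ - σ) / 2))) ^ 2 +
      (q * Real.exp ((τ + σ) / 2) + r * Real.exp (-((τ + σ) / 2))) ^ 2 < a ^ 2 → |σ - m τ| ≤ 2 * a := by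
  have ha2 : a ^ 2 ≤ 1 := by
    calc a ^ 2 ≤ 1 ^ 2 := pow_le_pow_left₀ ha.le ha1 2
      _ = 1 := one_pow 2
  have half : (1 / 2 : ℝ) ^ 2 ≤ 1 / 2 := by norm_num
  rcases le_or_gt (1 / 2) (p * s) with h | h
  · obtain ⟨α, hα⟩ := sinh_sq (by linarith : 0 < p * s)
    refine ⟨fun τ => τ + 2 * α, fun τ σ hu => ?_⟩
    have h1 : (2 * √(p * s) * Real.sinh ((τ - σ) / 2 + α)) ^ 2 < a ^ 2 := by
      rw [← hα]
      exact lt_of_le_of_lt (le_add_of_nonneg_right (sq_nonneg _)) hu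
    have h2 := abs_le_of_sinh (by norm_num : (0 : ℝ) < 1 / 2)
      (Real.le_sqrt_of_sq_le (half.trans h)) ha h1
    have e1 : a / (2 * (1 / 2)) = a := by ring
    rw [e1] at h2
    have e2 : σ - (τ + 2 * α) = -(2 * ((τ - σ) / 2 + α)) := by ring
    rw [e2, abs_neg, abs_mul, abs_of_pos (by norm_num : (0 : ℝ) < 2)]
    linarith
  · rcases le_or_gt (p * s) (-(1 / 2)) with h' | h'
    · refine ⟨fun _ => 0, fun τ σ hu => ?_⟩
      have h1 := sq_minus p s ((τ - σ) / 2)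
      have h2 := sq_nonneg (q * Real.exp ((τ + σ) / 2) + r * Real.exp (-((τ + σ) / 2)))
      exfalso
      linarith
    · have h1 : 1 / 2 ≤ q * -r := by linarith
      obtain ⟨β, hβ⟩ := sinh_sq (by linarith : 0 < q * -r)
      refine ⟨fun τ => -τ - 2 * β, fun τ σ hu => ?_⟩
      have h2 : (2 * √(q * -r) * Real.sinh ((τ + σ) / 2 + β)) ^ 2 < a ^ 2 := by
        rw [← hβ]
        have e : (q * Real.exp ((τ + σ) / 2) - -r * Real.exp (-((τ + σ) / 2))) ^ 2 =
            (q * Real.exp ((τ + σ) / 2) + r * Real.exp (-((τ + σ) / 2))) ^ 2 := by ring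
        rw [e]
        exact lt_of_le_of_lt (le_add_of_nonneg_left (sq_nonneg _)) hu
      have h3 := abs_le_of_sinh (by norm_num : (0 : ℝ) < 1 / 2)
        (Real.le_sqrt_of_sq_le (half.trans h1)) ha h2
      have e1 : a / (2 * (1 / 2)) = a := by ring
      rw [e1] at h3
      have e2 : σ - (-τ - 2 * β) = 2 * ((τ + σ) / 2 + β) := by ring
      simp only
      rw [e2, abs_mul, abs_of_pos (by norm_num : (0 : ℝ) < 2)]
      linarith

/-! ### Compactness -/

lemma cpt {φ : ℂ → ℝ} (hφ : TestP H0 φ) : ∃ R : ℝ, 1 ≤ R ∧ ∀ (v : G) (z : ℍ), φ z ≠ 0 → dist (base v) z ≤ 2 →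
    v ∈ Om R := by
  set K : Set ℍ := UpperHalfPlane.coe ⁻¹' tsupport φ with hK
  have hKc : IsCompact K := by
    rw [hK, UpperHalfPlane.isOpenEmbedding_coe.isInducing.isCompact_preimage_iff]
    · exact hφ.test.cpt.isCompact
    · intro z hz
      exact ⟨⟨z, hφ.test.sub hz⟩, rfl⟩
  have hKt : IsCompact (base ⁻¹' Metric.cthickening 2 K) := Dyn.isCompact_base hKc.cthickening
  have hb : ∀ i j : Fin 2, ∃ B : ℝ, ∀ g ∈ base ⁻¹' Metric.cthickening 2 K, ‖g i j‖ ≤ B := fun i j =>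
    hKt.exists_bound_of_continuousOn (Dyn.continuous_entry i j).continuousOn
  choose B hB using hb
  refine ⟨1 + ∑ i, ∑ j, |B i j|, ?_, ?_⟩
  · have : 0 ≤ ∑ i, ∑ j, |B i j| := Finset.sum_nonneg fun i _ => Finset.sum_nonneg fun j _ => abs_nonneg _
    linarith
  · intro v z hz hd i j
    have h1 : v ∈ base ⁻¹' Metric.cthickening 2 K :=
      Metric.mem_cthickening_of_dist_le (base v) z 2 K (subset_tsupport φ hz) hd
    have h2 := hB i j v h1
    have h3 : |B i j| ≤ ∑ j, |B i j| :=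
      Finset.single_le_sum (f := fun j => |B i j|) (fun j _ => abs_nonneg _) (Finset.mem_univ j)
    have h4 : ∑ j, |B i j| ≤ ∑ i, ∑ j, |B i j| :=
      Finset.single_le_sum (f := fun i => ∑ j, |B i j|)
        (fun i _ => Finset.sum_nonneg fun j _ => abs_nonneg _) (Finset.mem_univ i)
    have h5 : |v i j| ≤ |B i j| := (le_of_eq (Real.norm_eq_abs _).symm).trans (h2.trans (le_abs_self _))
    linarith

/-! ### The integral -/

lemma ch_nonneg (τ₀ x : ℝ) : 0 ≤ ch τ₀ x := le_max_left _ _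

lemma ch_le_one {τ₀ : ℝ} (h : 0 < τ₀) (x : ℝ) : ch τ₀ x ≤ 1 := by
  unfold ch
  refine max_le zero_le_one ?_
  have : 0 ≤ |x| / τ₀ := by positivity
  linarith

lemma ch_zero {τ₀ : ℝ} (h : 0 < τ₀) (h1 : τ₀ ≤ 1) {x : ℝ} (hx : 1 < |x|) : ch τ₀ x = 0 := by
  unfold ch
  refine max_eq_left ?_
  have : 1 ≤ |x| / τ₀ := by
    rw [le_div_iff₀ h]
    linarith
  linarith

variable {φ : ℂ → ℝ} {k : ℝ → ℝ} {C₀ a τ₀ : ℝ} {y y' : G}

lemma point (hk : Ker C₀ a k) (hτ : 0 < τ₀) (hτ1 : τ₀ ≤ 1) (h : Ik φ k (ch τ₀) y y' ≠ 0) :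
    ∃ τ σ : ℝ, |τ| ≤ 1 ∧ |σ| ≤ 1 ∧ φ (base (y * fl (-τ)) : ℂ) ≠ 0 ∧
      uh (base (y * fl (-τ))) (base (y' * fl (-σ))) < a ^ 2 := by
  by_contra hcon
  push Not at hcon
  apply h
  unfold Ik
  have h0 : ∀ τ σ : ℝ, ENNReal.ofReal (ch τ₀ τ * ch τ₀ σ * (φ (base (y * fl (-τ)) : ℂ) *
      k (uh (base (y * fl (-τ))) (base (y' * fl (-σ)))))) = 0 := by
    intro τ σ
    rcases le_or_gt |τ| 1 with h1 | h1
    · rcases le_or_gt |σ| 1 with h2 | h2
      · by_cases h3 : φ (base (y * fl (-τ)) : ℂ) = 0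
        · rw [h3]
          simp
        · rw [hk.supp _ (hcon τ σ h1 h2 h3)]
          simp
      · rw [ch_zero hτ hτ1 h2]
        simp
    · rw [ch_zero hτ hτ1 h1]
      simp
  simp only [h0, lintegral_zero]

lemma bound {M : ℝ} (hM0 : 0 ≤ M) (hφ0 : ∀ z, 0 ≤ φ z) (hM : ∀ z, φ z ≤ M) (hC₀ : 0 ≤ C₀) (hk : Ker C₀ a k)
    (hτ : 0 < τ₀) (hτ1 : τ₀ ≤ 1) {m : ℝ → ℝ}
    (hm : ∀ τ σ : ℝ, uh (base (y * fl (-τ))) (base (y' * fl (-σ))) < a ^ 2 → |σ - m τ| ≤ 2 * a) :
    Ik φ k (ch τ₀) y y' ≤ ENNReal.ofReal (8 * M * C₀ / a) := by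
  have ha := hk.pos
  have hle : ∀ τ σ : ℝ, ch τ₀ τ * ch τ₀ σ * (φ (base (y * fl (-τ)) : ℂ) *
      k (uh (base (y * fl (-τ))) (base (y' * fl (-σ))))) ≤ M * (C₀ / a ^ 2) := by
    intro τ σ
    have h1 : ch τ₀ τ * ch τ₀ σ ≤ 1 := mul_le_one₀ (ch_le_one hτ _) (ch_nonneg _ _) (ch_le_one hτ _)
    have h2 : φ (base (y * fl (-τ)) : ℂ) * k (uh (base (y * fl (-τ))) (base (y' * fl (-σ)))) ≤
        M * (C₀ / a ^ 2) := mul_le_mul (hM _) (hk.le _) (hk.nonneg _) hM0
    have h3 : 0 ≤ φ (base (y * fl (-τ)) : ℂ) * k (uh (base (y * fl (-τ))) (base (y' * fl (-σ)))) :=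
      mul_nonneg (hφ0 _) (hk.nonneg _)
    calc _ ≤ 1 * (M * (C₀ / a ^ 2)) := mul_le_mul h1 h2 h3 zero_le_one
      _ = _ := one_mul _
  have hin : ∀ τ : ℝ, ∫⁻ σ : ℝ, ENNReal.ofReal (ch τ₀ τ * ch τ₀ σ * (φ (base (y * fl (-τ)) : ℂ) *
      k (uh (base (y * fl (-τ))) (base (y' * fl (-σ)))))) ≤
      (Icc (-1 : ℝ) 1).indicator (fun _ => ENNReal.ofReal (M * (C₀ / a ^ 2)) * ENNReal.ofReal (4 * a)) τ := by
    intro τ
    by_cases hτI : τ ∈ Icc (-1 : ℝ) 1
    · rw [indicator_of_mem hτI]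
      have h1 : ∀ σ : ℝ, ENNReal.ofReal (ch τ₀ τ * ch τ₀ σ * (φ (base (y * fl (-τ)) : ℂ) *
          k (uh (base (y * fl (-τ))) (base (y' * fl (-σ)))))) ≤
          (Icc (m τ - 2 * a) (m τ + 2 * a)).indicator (fun _ => ENNReal.ofReal (M * (C₀ / a ^ 2))) σ := by
        intro σ
        by_cases hσ : uh (base (y * fl (-τ))) (base (y' * fl (-σ))) < a ^ 2
        · have h2 := abs_le.1 (hm τ σ hσ)
          have h3 : σ ∈ Icc (m τ - 2 * a) (m τ + 2 * a) := ⟨by linarith [h2.1], by linarith [h2.2]⟩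
          rw [indicator_of_mem h3]
          exact ENNReal.ofReal_le_ofReal (hle τ σ)
        · rw [hk.supp _ (not_lt.1 hσ)]
          simp
      refine (lintegral_mono h1).trans ?_
      rw [lintegral_indicator_const measurableSet_Icc, Real.volume_Icc]
      have e : m τ + 2 * a - (m τ - 2 * a) = 4 * a := by ring
      rw [e]
    · rw [indicator_of_notMem hτI]
      have h1 : 1 < |τ| := by
        by_contra h
        exact hτI (abs_le.1 (not_lt.1 h))
      rw [ch_zero hτ hτ1 h1]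
      simp
  unfold Ik
  refine (lintegral_mono hin).trans ?_
  rw [lintegral_indicator_const measurableSet_Icc, Real.volume_Icc, ← ENNReal.ofReal_mul (by positivity),
    ← ENNReal.ofReal_mul (by positivity)]
  refine ENNReal.ofReal_le_ofReal (le_of_eq ?_)
  field_simp
  ring

end QbM

open QbM in
theorem stmtQb (hUg : StmtUg) : StmtQb := by
  intro φ hφ C₀ hC₀
  obtain ⟨M, hM⟩ := hφ.test.cpt.exists_bound_of_continuous hφ.test.smooth.continuous
  have hM0 : 0 ≤ M := (norm_nonneg _).trans (hM 0)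
  have hMle : ∀ z, φ z ≤ M := fun z => (le_abs_self _).trans (hM z)
  obtain ⟨R₁, hR₁, hcpt⟩ := cpt hφ
  set R := 2 * (R₁ * R₁) + R₁ with hR
  have hR1 : 1 ≤ R := by nlinarith
  have hRR : R₁ ≤ R := by nlinarith
  obtain ⟨hinv, hcosh, hu, hwr, hwrR, hlast⟩ := hUg
  obtain ⟨Cu, hCu0, hCu⟩ := hlast R hR1
  refine ⟨R, 8 * M * C₀ + 9 * Cu, hR1, by positivity, ?_⟩
  intro τ₀ a k hτ hτ1 ha1 hk y y'
  have ha := hk.pos
  set g := y⁻¹ * y' with hg
  have hdet := Dyn.det_eq g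
  constructor
  · obtain ⟨m, hm⟩ := slice ha ha1 hdet
    refine (bound hM0 hφ.nonneg hMle hC₀ hk hτ hτ1 (m := m) fun τ σ h => ?_).trans ?_
    · rw [hu] at h
      exact hm τ σ h
    · refine ENNReal.ofReal_le_ofReal (div_le_div_of_nonneg_right ?_ ha.le)
      linarith
  · intro hne
    obtain ⟨τ, σ, hτ2, hσ2, hφne, huh⟩ := point hk hτ hτ1 hne
    have ha2 : a ^ 2 ≤ 1 := by
      calc a ^ 2 ≤ 1 ^ 2 := pow_le_pow_left₀ ha.le ha1 2
        _ = 1 := one_pow 2
    have hd1 : dist (base y) (base (y * fl (-τ))) ≤ 1 := by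
      rw [dist_comm, Dyn.dist_base_fl, abs_neg]
      exact hτ2
    have hd2 : dist (base y') (base (y' * fl (-σ))) ≤ 1 := by
      rw [dist_comm, Dyn.dist_base_fl, abs_neg]
      exact hσ2
    have hd3 : dist (base (y * fl (-τ))) (base (y' * fl (-σ))) ≤ 1 := by
      have h1 := huh
      rw [hcosh] at h1
      have h2 : Real.cosh (dist (base (y * fl (-τ))) (base (y' * fl (-σ)))) < Real.cosh 1 := by
        have h3 : 3 / 2 < Real.cosh 1 := by
          rw [Real.cosh_eq]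
          have := Real.exp_one_gt_d9
          have := Real.exp_neg_one_gt_d9
          linarith
        linarith
      rw [Real.cosh_lt_cosh, abs_of_nonneg dist_nonneg, abs_one] at h2
      exact h2.le
    have hyR : y ∈ Om R₁ := hcpt y _ hφne (by linarith)
    have hy'R : y' ∈ Om R₁ := hcpt y' _ hφne (by
      have := dist_triangle (base y') (base (y' * fl (-σ))) (base (y * fl (-τ)))
      rw [dist_comm (base (y' * fl (-σ))) (base (y * fl (-τ)))] at this
      linarith)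
    have hgR : g ∈ Om R := Om_mono (by linarith) (Om_mul (Om_inv hyR) hy'R)
    have hyR' : y ∈ Om R := Om_mono hRR hyR
    have hyg : y * g = y' := by rw [hg, mul_inv_cancel_left]
    refine ⟨hyR', Om_mono hRR hy'R, ?_⟩
    intro η hη
    have hη0 : 0 < η := lt_of_lt_of_le ha hη
    have haη : a ^ 2 ≤ η ^ 2 := pow_le_pow_left₀ ha.le hη 2
    rw [hu, ← hg] at huh
    have hx : |(τ - σ) / 2| ≤ 1 := by
      rw [abs_div, abs_of_pos (by norm_num : (0 : ℝ) < 2)]
      have := abs_sub τ σ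
      linarith
    have hy : |(τ + σ) / 2| ≤ 1 := by
      rw [abs_div, abs_of_pos (by norm_num : (0 : ℝ) < 2)]
      have := abs_add_le τ σ
      linarith
    have s1 : (g 0 0 * Real.exp ((τ - σ) / 2) - g 1 1 * Real.exp (-((τ - σ) / 2))) ^ 2 < a ^ 2 :=
      lt_of_le_of_lt (le_add_of_nonneg_right (sq_nonneg _)) huh
    have s2 : (g 0 1 * Real.exp ((τ + σ) / 2) + g 1 0 * Real.exp (-((τ + σ) / 2))) ^ 2 < a ^ 2 :=
      lt_of_le_of_lt (le_add_of_nonneg_left (sq_nonneg _)) huh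
    have hCM : 0 ≤ 8 * M * C₀ * η := by positivity
    refine ⟨?_, ?_, ?_⟩
    · intro h1 i
      obtain ⟨b1, b2⟩ := small hη0 hy h1 (lt_of_lt_of_le s2 haη)
      have h3 := hCu y g (9 * η) hyR' hgR b1 b2 i
      rw [hyg] at h3
      linarith
    · intro h1 i
      have e1 : (g 0 0 * Real.exp ((τ - σ) / 2) + -(g 1 1) * Real.exp (-((τ - σ) / 2))) ^ 2 =
          (g 0 0 * Real.exp ((τ - σ) / 2) - g 1 1 * Real.exp (-((τ - σ) / 2))) ^ 2 := by ring
      obtain ⟨b1, b2⟩ := small (q := g 0 0) (r := -(g 1 1)) hη0 hx (by rw [mul_neg, abs_neg]; exact h1)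
        (by rw [e1]; exact lt_of_lt_of_le s1 haη)
      have w1 : (g * wr) 0 1 = g 0 0 := by
        unfold wr
        rw [Dyn.mul_01, Dyn.mk4_01, Dyn.mk4_11]
        ring
      have w2 : (g * wr) 1 0 = -(g 1 1) := by
        unfold wr
        rw [Dyn.mul_10, Dyn.mk4_00, Dyn.mk4_10]
        ring
      have h3 := hCu y (g * wr) (9 * η) hyR' ((hwrR R g).1 hgR) (by rw [w1]; exact b1) (by rw [w2]; exact b2) i
      rw [← mul_assoc, hyg, hwr] at h3
      have e2 : -xi y' i - xi y i = -(xi y' i + xi y i) := by ring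
      rw [e2, abs_neg] at h3
      linarith
    · intro h1 h2
      have m1 := sq_minus (g 0 0) (g 1 1) ((τ - σ) / 2)
      have m2 := sq_plus (g 0 1) (g 1 0) ((τ + σ) / 2)
      have hη2 : 0 < η ^ 2 := by positivity
      constructor
      · rcases abs_cases (g 0 0 * g 1 1) with h | h
        · rw [h.1] at h2
          exact h2
        · rw [h.1] at h2
          exfalso
          linarith
      · rcases abs_cases (g 0 1 * g 1 0) with h | h
        · rw [h.1] at h1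
          exfalso
          linarith
        · rw [h.1] at h1
          exact h1

end

end Pool.Agent.A54.Hp
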