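import Pool.Agent.Lib.MP_a54f13_nt.Hp.SpecB

/-!
# Package `Hp`, module `Qi` (helper62): the pair formula
-/

set_option autoImplicit false

namespace Pool.Agent.A54.Hp

open MeasureTheory Filter Topology Set
open scoped ContDiff ComplexConjugate UpperHalfPlane MatrixGroups ENNReal
open Pool.Agent.A54.Dyn (G fl base ze io mk4 dom)
open Pool.Agent.A54.Dyn.LiftM (Sct XC XX cc rot m0)
open Pool.Agent.A54.Half (H0)
open Pool.Agent.A54.Sq (la TestP)

noncomputable section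

namespace QiM

lemma continuous_uh : Continuous (fun p : ℍ × ℍ => uh p.1 p.2) := by
  unfold uh
  refine Continuous.div ?_ ?_ ?_
  · exact ((UpperHalfPlane.continuous_coe.comp continuous_fst).sub
      (UpperHalfPlane.continuous_coe.comp continuous_snd)).norm.pow 2
  · exact (UpperHalfPlane.continuous_im.comp continuous_fst).mul (UpperHalfPlane.continuous_im.comp continuous_snd)
  · intro p
    exact mul_ne_zero p.1.im_pos.ne' p.2.im_pos.ne'

lemma continuous_b1 : Continuous (fun p : (ℝ × ℝ) × (G × G) => base (p.2.1 * fl (-p.1.1))) := by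
  refine Dyn.continuous_base.comp ?_
  refine Continuous.mul (continuous_fst.comp continuous_snd) ?_
  exact Dyn.continuous_fl.comp (continuous_fst.comp continuous_fst).neg

lemma continuous_b2 : Continuous (fun p : (ℝ × ℝ) × (G × G) => base (p.2.2 * fl (-p.1.2))) := by
  refine Dyn.continuous_base.comp ?_
  refine Continuous.mul (continuous_snd.comp continuous_snd) ?_
  exact Dyn.continuous_fl.comp (continuous_snd.comp continuous_fst).neg

lemma meas_Phi {Φ : G → ℂ} (hΦ : Continuous Φ) : Measurable (fun g => ‖Φ g‖ₑ ^ 2) :=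
  (hΦ.enorm.measurable).pow_const 2

lemma V2_eq (h1 : StmtNuL) (h2 : StmtSti) {Φ : G → ℂ} (hΦ : Continuous Φ) {φ : ℂ → ℝ} (hφ : TestP H0 φ)
    {k : ℝ → ℝ} (hk : Measurable k) (hk0 : ∀ u, 0 ≤ k u) (τ σ : ℝ) :
    V2 φ k (St Φ τ) (St Φ σ) = ∫⁻ y, ∫⁻ y', ENNReal.ofReal (φ (base (y * fl (-τ)) : ℂ) *
      k (uh (base (y * fl (-τ))) (base (y' * fl (-σ))))) * (‖Φ y‖ₑ ^ 2 * ‖Φ y'‖ₑ ^ 2) ∂nu ∂nu := by
  have hsf : SigmaFinite nu := h1.2.2.1
  obtain ⟨_, hSt0, hSt⟩ := h2 Φ hΦ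
  have hφc : Continuous φ := hφ.test.smooth.continuous
  set H : ℍ → ℝ≥0∞ := fun z => ENNReal.ofReal (φ z) *
    ∫⁻ g, ENNReal.ofReal (k (uh z (base (g * fl (-σ))))) * ‖Φ g‖ₑ ^ 2 ∂nu with hH
  have hHm : Measurable H := by
    refine ((hφc.comp UpperHalfPlane.continuous_coe).measurable.ennreal_ofReal).mul ?_
    refine Measurable.lintegral_prod_right' (f := fun p : ℍ × G =>
      ENNReal.ofReal (k (uh p.1 (base (p.2 * fl (-σ))))) * ‖Φ p.2‖ₑ ^ 2) ?_
    refine Measurable.mul ?_ ((meas_Phi hΦ).comp measurable_snd)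
    refine (hk.comp ?_).ennreal_ofReal
    exact (continuous_uh.comp (continuous_fst.prodMk
      (Dyn.continuous_base.comp (continuous_snd.mul continuous_const)))).measurable
  have e1 : V2 φ k (St Φ τ) (St Φ σ) = ∫⁻ z : ℍ, H z * ENNReal.ofReal (St Φ τ z) := by
    unfold V2
    refine lintegral_congr fun z => ?_
    have e2 : ∀ w : ℍ, ENNReal.ofReal (φ z * k (uh z w) * St Φ τ z * St Φ σ w) =
        (ENNReal.ofReal (φ z) * ENNReal.ofReal (St Φ τ z)) *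
          (ENNReal.ofReal (k (uh z w)) * ENNReal.ofReal (St Φ σ w)) := by
      intro w
      rw [ENNReal.ofReal_mul (mul_nonneg (mul_nonneg (hφ.nonneg _) (hk0 _)) (hSt0 _ _)),
        ENNReal.ofReal_mul (mul_nonneg (hφ.nonneg _) (hk0 _)), ENNReal.ofReal_mul (hφ.nonneg _)]
      ring
    simp only [e2]
    rw [lintegral_const_mul' _ _ (ENNReal.mul_ne_top ENNReal.ofReal_ne_top ENNReal.ofReal_ne_top)]
    have e3 := hSt σ (fun w => ENNReal.ofReal (k (uh z w))) (by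
      refine (hk.comp ?_).ennreal_ofReal
      exact (continuous_uh.comp (continuous_const.prodMk continuous_id)).measurable)
    rw [e3]
    simp only [hH]
    ring
  rw [e1, hSt τ H hHm]
  refine lintegral_congr fun y => ?_
  have hfin : ENNReal.ofReal (φ (base (y * fl (-τ)) : ℂ)) * ‖Φ y‖ₑ ^ 2 ≠ ⊤ :=
    ENNReal.mul_ne_top ENNReal.ofReal_ne_top (ENNReal.pow_ne_top enorm_ne_top)
  have e4 : ∀ y' : G, ENNReal.ofReal (φ (base (y * fl (-τ)) : ℂ) *
      k (uh (base (y * fl (-τ))) (base (y' * fl (-σ))))) * (‖Φ y‖ₑ ^ 2 * ‖Φ y'‖ₑ ^ 2) =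
      (ENNReal.ofReal (φ (base (y * fl (-τ)) : ℂ)) * ‖Φ y‖ₑ ^ 2) *
        (ENNReal.ofReal (k (uh (base (y * fl (-τ))) (base (y' * fl (-σ))))) * ‖Φ y'‖ₑ ^ 2) := by
    intro y'
    rw [ENNReal.ofReal_mul (hφ.nonneg _)]
    ring
  simp only [e4]
  rw [lintegral_const_mul' _ _ hfin]
  simp only [hH]
  ring

end QiM

open QiM in
theorem stmtQi (h1 : StmtNuL) (h2 : StmtSti) : StmtQi := by
  intro Φ hΦ φ hφ k χ hk hk0 hχ hχ0
  have hsf : SigmaFinite nu := h1.2.2.1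
  have hφc : Continuous φ := hφ.test.smooth.continuous
  -- the function of four variables
  set F : (ℝ × ℝ) × (G × G) → ℝ≥0∞ := fun p => ENNReal.ofReal (χ p.1.1 * χ p.1.2 *
    (φ (base (p.2.1 * fl (-p.1.1)) : ℂ) * k (uh (base (p.2.1 * fl (-p.1.1))) (base (p.2.2 * fl (-p.1.2)))))) *
      (‖Φ p.2.1‖ₑ ^ 2 * ‖Φ p.2.2‖ₑ ^ 2) with hF
  have c1 := continuous_b1
  have c2 := continuous_b2
  have hFm : Measurable F := by
    have m1 : Measurable (fun p : (ℝ × ℝ) × (G × G) => ‖Φ p.2.1‖ₑ ^ 2) :=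
      (meas_Phi hΦ).comp (measurable_fst.comp measurable_snd)
    have m2 : Measurable (fun p : (ℝ × ℝ) × (G × G) => ‖Φ p.2.2‖ₑ ^ 2) :=
      (meas_Phi hΦ).comp (measurable_snd.comp measurable_snd)
    refine Measurable.mul (Measurable.ennreal_ofReal (Measurable.mul ?_ (Measurable.mul ?_ ?_))) (m1.mul m2)
    · exact ((hχ.comp (continuous_fst.comp continuous_fst)).mul
        (hχ.comp (continuous_snd.comp continuous_fst))).measurable
    · exact (hφc.comp (UpperHalfPlane.continuous_coe.comp c1)).measurable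
    · exact hk.comp (continuous_uh.comp (c1.prodMk c2)).measurable
  have e1 : Aw Φ φ k χ = ∫⁻ τ : ℝ, ∫⁻ σ : ℝ, (∫⁻ y, ∫⁻ y', F ((τ, σ), (y, y')) ∂nu ∂nu) := by
    unfold Aw
    refine lintegral_congr fun τ => lintegral_congr fun σ => ?_
    rw [V2_eq h1 h2 hΦ hφ hk hk0, ← lintegral_const_mul' _ _ ENNReal.ofReal_ne_top]
    refine lintegral_congr fun y => ?_
    rw [← lintegral_const_mul' _ _ ENNReal.ofReal_ne_top]
    refine lintegral_congr fun y' => ?_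
    simp only [hF]
    rw [ENNReal.ofReal_mul (mul_nonneg (hχ0 τ) (hχ0 σ))]
    ring
  have e2 : ∫⁻ y, ∫⁻ y', ‖Φ y‖ₑ ^ 2 * ‖Φ y'‖ₑ ^ 2 * Ik φ k χ y y' ∂nu ∂nu =
      ∫⁻ y, ∫⁻ y', (∫⁻ τ : ℝ, ∫⁻ σ : ℝ, F ((τ, σ), (y, y'))) ∂nu ∂nu := by
    refine lintegral_congr fun y => lintegral_congr fun y' => ?_
    have hfin : ‖Φ y‖ₑ ^ 2 * ‖Φ y'‖ₑ ^ 2 ≠ ⊤ :=
      ENNReal.mul_ne_top (ENNReal.pow_ne_top enorm_ne_top) (ENNReal.pow_ne_top enorm_ne_top)
    unfold Ik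
    rw [← lintegral_const_mul' _ _ hfin]
    refine lintegral_congr fun τ => ?_
    rw [← lintegral_const_mul' _ _ hfin]
    refine lintegral_congr fun σ => ?_
    simp only [hF]
    ring
  have a1 : ∀ p : ℝ × ℝ, ∫⁻ y, ∫⁻ y', F (p, (y, y')) ∂nu ∂nu = ∫⁻ q : G × G, F (p, q) ∂(nu.prod nu) := by
    intro p
    rw [lintegral_prod (fun q : G × G => F (p, q)) (hFm.comp measurable_prodMk_left).aemeasurable]
  have a2 : ∀ q : G × G, ∫⁻ τ : ℝ, ∫⁻ σ : ℝ, F ((τ, σ), q) = ∫⁻ p : ℝ × ℝ, F (p, q) := by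
    intro q
    rw [Measure.volume_eq_prod, lintegral_prod (fun p : ℝ × ℝ => F (p, q)) (hFm.comp measurable_prodMk_right).aemeasurable]
  have a3 : ∫⁻ τ : ℝ, ∫⁻ σ : ℝ, (∫⁻ q : G × G, F ((τ, σ), q) ∂(nu.prod nu)) =
      ∫⁻ p : ℝ × ℝ, (∫⁻ q : G × G, F (p, q) ∂(nu.prod nu)) := by
    rw [Measure.volume_eq_prod, lintegral_prod _ (Measurable.lintegral_prod_right' hFm).aemeasurable]
  have a4 : ∫⁻ y, ∫⁻ y', (∫⁻ p : ℝ × ℝ, F (p, (y, y'))) ∂nu ∂nu =
      ∫⁻ q : G × G, (∫⁻ p : ℝ × ℝ, F (p, q)) ∂(nu.prod nu) := by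
    rw [lintegral_prod _ (Measurable.lintegral_prod_left' hFm).aemeasurable]
  rw [e1, e2]
  simp only [a1, a2]
  rw [a3, a4, lintegral_lintegral_swap hFm.aemeasurable]

end

end Pool.Agent.A54.Hp
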