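import Pool.Agent.Lib.MP_a54f13_nt.Hp.SpecC

/-!
# Package `Hp`, module `Qx`: the case `n = 2` on the half-plane (helper97)
-/

set_option autoImplicit false

namespace Pool.Agent.A54.Hp

open MeasureTheory Filter Topology Set
open scoped ContDiff ComplexConjugate UpperHalfPlane MatrixGroups ENNReal
open Pool.Agent.A54.Half (H0)

namespace QxM

lemma cont_form {f : ℍ → ℝ} {t : ℝ} (hf : IsHeckeMaass f t) : Continuous f := by
  have h1 : ContinuousOn (ext f) {z : ℂ | 0 < z.im} := hf.smooth.continuousOn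
  have h2 : f = fun z : ℍ => ext f (z : ℂ) := by
    funext z
    rw [Half.ext_coe]
  rw [h2]
  exact h1.comp_continuous UpperHalfPlane.continuous_coe fun z => z.im_pos

end QxM

theorem stmtQx (hU1 : Pl.StmtU1) : StmtQx := by
  intro f t hf h φ hφ
  obtain ⟨ψ, hψ, hI⟩ := hU1 φ hφ
  have h1 : ∫ z : ℍ, φ z = ∫ z in ModularGroup.fdo, ψ z := by
    have := hI (fun _ => 1) continuous_const (fun _ _ => rfl)
    simpa using this
  have h2 : ∀ i, ∫ z : ℍ, φ z * f i z ^ 2 = ∫ z in ModularGroup.fdo, ψ z * f i z ^ 2 :=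
    fun i => hI (fun z => f i z ^ 2) ((QxM.cont_form (hf i)).pow 2) fun γ z => by
      rw [(hf i).invariant γ z]
  rw [h1]
  exact (h ψ hψ).congr fun i => (h2 i).symm

end Pool.Agent.A54.Hp
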