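import Pool.Agent.Lib.MP_a54f13_nt.Hp.SpecN

/-!
# Package `Hp`: returns, pointwise bounds (`StmtRtB`)
-/

set_option autoImplicit false

namespace Pool.Agent.A54.Hp

open MeasureTheory Filter Topology Set
open scoped ContDiff ComplexConjugate UpperHalfPlane MatrixGroups ENNReal
open Pool.Agent.A54.Dyn (G fl base ze io mk4 dom)
open Pool.Agent.A54.Av (Mat NonSc)

namespace RtBN

/-- a number of elements, as an infinite sum of an indicator function -/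
lemma tsum_le {α : Type*} (S : Set α) (K : ℝ)
    (h : ∀ T : Finset α, (∀ s ∈ T, s ∈ S) → (T.card : ℝ) ≤ K) :
    ∑' s, S.indicator (fun _ => (1 : ℝ≥0∞)) s ≤ ENNReal.ofReal K := by
  classical
  rw [ENNReal.tsum_eq_iSup_sum]
  refine iSup_le fun T => ?_
  have e : ∑ s ∈ T, S.indicator (fun _ => (1 : ℝ≥0∞)) s = ((T.filter (· ∈ S)).card : ℝ≥0∞) := by
    rw [Finset.card_filter, Nat.cast_sum]
    refine Finset.sum_congr rfl fun s _ => ?_
    by_cases hs : s ∈ S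
    · rw [indicator_of_mem hs, if_pos hs, Nat.cast_one]
    · rw [indicator_of_notMem hs, if_neg hs, Nat.cast_zero]
  rw [e, ← ENNReal.ofReal_natCast]
  exact ENNReal.ofReal_le_ofReal (h _ fun s hs => (Finset.mem_filter.mp hs).2)

lemma map_eq (s : Mat) (h : (0 : ℝ) < ((s.det : ℤ) : ℝ)) :
    s.map (fun a : ℤ => (a : ℝ)) = √((s.det : ℤ) : ℝ) • (nm s).1 := by
  have h2 : √((s.det : ℤ) : ℝ) ≠ 0 := (Real.sqrt_pos.mpr h).ne'
  have e : ∀ i j, (nm s).1 i j = ((s i j : ℤ) : ℝ) / √((s.det : ℤ) : ℝ) := by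
    intro i j
    unfold nm
    rw [dif_pos h]
    fin_cases i <;> fin_cases j <;> rfl
  ext i j
  rw [Matrix.map_apply, Matrix.smul_apply, e, smul_eq_mul, mul_div_cancel₀ _ h2]

lemma cj_eq (y x : G) (s : Mat) (h : (0 : ℝ) < ((s.det : ℤ) : ℝ)) (i j : Fin 2) :
    cj y x s i j = √((s.det : ℤ) : ℝ) * (y⁻¹ * (nm s * x)) i j := by
  have e : cj y x s = √((s.det : ℤ) : ℝ) • (y⁻¹ * (nm s * x) : G).1 := by
    unfold cj
    rw [map_eq s h, Matrix.mul_smul, Matrix.smul_mul, Matrix.mul_assoc]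
    rfl
  rw [e, Matrix.smul_apply, smul_eq_mul]

lemma bd {c w : ℝ} (hc : 0 < c) (hc2 : c ≤ 1 / 2) (hw : 0 < w) (hw1 : w ≤ 1) {β : G}
    (hβ : β ∈ bt c (c * w)) : |β 0 0| ≤ 4 ∧ |β 1 1| ≤ 4 ∧ |β 0 1| ≤ w ∧ |β 1 0| ≤ w := by
  obtain ⟨h1, h2, h3⟩ := hβ
  have hcw : c * w ≤ 1 / 2 * w := mul_le_mul_of_nonneg_right hc2 hw.le
  have a1 := abs_lt.mp h1
  have hd := Dyn.det_eq β
  have h01 : |β 0 1| ≤ 1 / 2 := by linarith
  have h10 : |β 1 0| ≤ 1 / 2 := by linarith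
  have hp : |β 0 1 * β 1 0| ≤ 1 / 2 * (1 / 2) := by
    rw [abs_mul]
    exact mul_le_mul h01 h10 (abs_nonneg _) (by norm_num)
  have h00 : 1 / 2 ≤ β 0 0 := by linarith
  refine ⟨?_, ?_, by linarith, by linarith⟩
  · rw [abs_le]; constructor <;> linarith
  · have e : β 0 0 * |β 1 1| ≤ 5 / 4 := by
      have : β 0 0 * |β 1 1| = |β 0 0 * β 1 1| := by
        rw [abs_mul, abs_of_nonneg (by linarith : (0 : ℝ) ≤ β 0 0)]
      rw [this]
      have e2 : β 0 0 * β 1 1 = 1 + β 0 1 * β 1 0 := by linarith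
      rw [e2]
      calc |1 + β 0 1 * β 1 0| ≤ |(1 : ℝ)| + |β 0 1 * β 1 0| := abs_add_le _ _
        _ ≤ 5 / 4 := by rw [abs_one]; linarith
    have e3 : 1 / 2 * |β 1 1| ≤ β 0 0 * |β 1 1| := mul_le_mul_of_nonneg_right h00 (abs_nonneg _)
    linarith

/-- the determinant is between `0` and `4 M²` -/
lemma dets {M : ℝ} (hM : 1 ≤ M) {s : Mat}
    (h : ∃ p ∈ Pm M, ∃ q ∈ Pm M, s.det = ((p * q : ℕ) : ℤ)) :
    (0 : ℝ) < ((s.det : ℤ) : ℝ) ∧ √((s.det : ℤ) : ℝ) ≤ 2 * M := by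
  obtain ⟨p, hp, q, hq, e⟩ := h
  have aux : ∀ p ∈ Pm M, (0 : ℝ) < p ∧ (p : ℝ) ≤ 2 * M := by
    intro p hp
    rw [Pm, Finset.mem_filter, Finset.mem_Ioc] at hp
    exact ⟨by exact_mod_cast hp.2.pos, (Nat.cast_le.mpr hp.1.2).trans
      (Nat.floor_le (by linarith))⟩
  obtain ⟨p0, p1⟩ := aux p hp
  obtain ⟨q0, q1⟩ := aux q hq
  have e1 : ((s.det : ℤ) : ℝ) = p * q := by rw [e]; push_cast; ring
  rw [e1]
  refine ⟨mul_pos p0 q0, ?_⟩
  rw [Real.sqrt_le_iff]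
  refine ⟨by linarith, ?_⟩
  calc (p : ℝ) * q ≤ (2 * M) * (2 * M) := mul_le_mul p1 q1 q0.le (by linarith)
    _ = (2 * M) ^ 2 := by ring

/-- the matrices which are counted lie in a box -/
lemma boxes {c w M : ℝ} (hc : 0 < c) (hc2 : c ≤ 1 / 2) (hw : 0 < w) (hw1 : w ≤ 1) (hM : 1 ≤ M)
    {x y : G} {s : Mat} (hs : (∃ p ∈ Pm M, ∃ q ∈ Pm M, s.det = ((p * q : ℕ) : ℤ)) ∧
      y⁻¹ * (nm s * x) ∈ bt c (c * w)) : Bxx (8 * M) (8 * (M * w)) (cj y x s) := by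
  obtain ⟨h0, h1⟩ := dets hM hs.1
  obtain ⟨b1, b2, b3, b4⟩ := bd hc hc2 hw hw1 hs.2
  have hr : (0 : ℝ) ≤ √((s.det : ℤ) : ℝ) := Real.sqrt_nonneg _
  have hd : ∀ i j (K : ℝ), |(y⁻¹ * (nm s * x)) i j| ≤ K → |cj y x s i j| ≤ 2 * M * K := by
    intro i j K hK
    rw [cj_eq y x s h0, abs_mul, abs_of_nonneg hr]
    exact mul_le_mul h1 hK (abs_nonneg _) (by linarith)
  have hMw : 0 < M * w := mul_pos (by linarith) hw
  refine ⟨?_, ?_, ?_, ?_⟩
  · exact (hd 0 0 4 b1).trans (by linarith)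
  · exact (hd 1 1 4 b2).trans (by linarith)
  · exact (hd 0 1 w b3).trans (by linarith)
  · exact (hd 1 0 w b4).trans (by linarith)

end RtBN

open RtBN in
/-- **RtB** -/
theorem stmtRtB (hA : StmtCtA) (hB : StmtCtB) : StmtRtB := by
  intro R hR
  obtain ⟨C₁, h1, hA1⟩ := hA R 8 hR (by norm_num)
  obtain ⟨C₂, h2, hB1⟩ := hB 8 (by norm_num)
  refine ⟨max C₁ C₂, le_max_of_le_left h1, ?_⟩
  intro c w M hc hc2 hw hw1 hM hMw x hx y hy
  have hM0 : 0 < M := by linarith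
  constructor
  · unfold rr
    refine tsum_le _ _ fun T hT => ?_
    refine (hA1 x hx y hy M hM T fun s hs => ?_).trans
      (mul_le_mul_of_nonneg_right (le_max_left _ _) (by positivity))
    obtain ⟨b1, b2, b3, b4⟩ := boxes hc hc2 hw hw1 hM (hT s hs)
    exact ⟨b1, b2, b3.trans (by linarith), b4.trans (by linarith)⟩
  · intro hn
    unfold rr
    refine tsum_le _ _ fun T hT => ?_
    exact (hB1 x y M w hM0 hw hn T fun s hs => boxes hc hc2 hw hw1 hM (hT s hs)).trans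
      (mul_le_mul_of_nonneg_right (le_max_right _ _) (by positivity))

end Pool.Agent.A54.Hp
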