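import Pool.Agent.Lib.MP_a54f13_nt.Hp.SpecL
import Pool.Agent.Lib.MP_a54f13_nt.Hp.RtB

/-!
# Package `Hp`, part L: returns, pointwise bounds (`StmtRB`)
-/

set_option autoImplicit false

namespace Pool.Agent.A54.Hp

open MeasureTheory Filter Topology Set
open scoped ContDiff ComplexConjugate UpperHalfPlane MatrixGroups ENNReal
open Pool.Agent.A54.Dyn (G fl base ze io mk4 dom)
open Pool.Agent.A54.Av (Mat NonSc)

namespace RBL

/-- the determinant is between `Y²` and `(B Y)²` -/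
lemma dets {B Y : ℝ} (hB : 1 ≤ B) (hY : 1 ≤ Y) {s : Mat} (h : s ∈ Ds B Y) :
    (0 : ℝ) < ((s.det : ℤ) : ℝ) ∧ √((s.det : ℤ) : ℝ) ≤ B * Y := by
  obtain ⟨h1, h2⟩ := h
  have h3 : (0 : ℝ) < Y ^ 2 := by positivity
  exact ⟨h3.trans_le h1, Real.sqrt_le_iff.2 ⟨by positivity, h2⟩⟩

/-- the entries of the matrices which are counted -/
lemma ent {c w B Y : ℝ} (hc : 0 < c) (hc2 : c ≤ 1 / 2) (hw : 0 < w) (hw1 : w ≤ 1) (hB : 1 ≤ B)
    (hY : 1 ≤ Y) {x y : G} {s : Mat} (hs : s ∈ Ds B Y ∧ y⁻¹ * (nm s * x) ∈ bt c (c * w)) :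
    |cj y x s 0 0| ≤ B * Y * 4 ∧ |cj y x s 1 1| ≤ B * Y * 4 ∧ |cj y x s 0 1| ≤ B * Y * w ∧
      |cj y x s 1 0| ≤ B * Y * w := by
  obtain ⟨h0, h1⟩ := dets hB hY hs.1
  obtain ⟨b1, b2, b3, b4⟩ := RtBN.bd hc hc2 hw hw1 hs.2
  have hr : (0 : ℝ) ≤ √((s.det : ℤ) : ℝ) := Real.sqrt_nonneg _
  have hd : ∀ i j (K : ℝ), |(y⁻¹ * (nm s * x)) i j| ≤ K → |cj y x s i j| ≤ B * Y * K := by
    intro i j K hK
    rw [RtBN.cj_eq y x s h0, abs_mul, abs_of_nonneg hr]
    exact mul_le_mul h1 hK (abs_nonneg _) (by positivity)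
  exact ⟨hd 0 0 4 b1, hd 1 1 4 b2, hd 0 1 w b3, hd 1 0 w b4⟩

end RBL

open RBL in
/-- **RB** -/
theorem stmtRB (hA : StmtCtA) (hB : StmtCtB) : StmtRB := by
  intro R B hR hB1
  obtain ⟨C₁, h1, hA1⟩ := hA R (4 * B) hR (by linarith)
  obtain ⟨C₂, h2, hB2⟩ := hB (4 * B) (by linarith)
  refine ⟨max C₁ C₂, le_max_of_le_left h1, ?_⟩
  intro c w Y K hc hc2 hw hw1 hY hK hYwK x hx y hy
  have hY0 : 0 < Y := by linarith
  have hK0 : 0 < K := by linarith
  have hYw0 : 0 < Y * w := by positivity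
  have hYw : Y * w ≤ 1 / K := by rwa [le_div_iff₀ hK0]
  have hK1 : 1 / K ≤ 1 := by rw [div_le_one hK0]; exact hK
  constructor
  · unfold rL
    refine RtBN.tsum_le _ _ fun T hT => ?_
    refine (hA1 x hx y hy Y hY T fun s hs => ?_).trans
      (mul_le_mul_of_nonneg_right (le_max_left _ _) (by positivity))
    obtain ⟨b1, b2, b3, b4⟩ := ent hc hc2 hw hw1 hB1 hY (hT s hs)
    have hle : B * Y * w ≤ 4 * B := by
      have : B * (Y * w) ≤ B * 1 := mul_le_mul_of_nonneg_left (by linarith) (by linarith)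
      nlinarith
    exact ⟨b1.trans (by linarith), b2.trans (by linarith), b3.trans hle, b4.trans hle⟩
  · intro hn
    have e1 : Y * (1 / (K * Y)) = 1 / K := by field_simp
    have e2 : 1 / (Y * (1 / (K * Y))) = K := by rw [e1, one_div_one_div]
    unfold rL
    refine RtBN.tsum_le _ _ fun T hT => ?_
    have h3 := hB2 x y Y (1 / (K * Y)) hY0 (by positivity) (fun n hb => hn n (by rwa [e2] at hb)) T
      fun s hs => by
        obtain ⟨b1, b2, b3, b4⟩ := ent hc hc2 hw hw1 hB1 hY (hT s hs)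
        rw [e1]
        have hle : B * Y * w ≤ 4 * B * (1 / K) := by
          have h4 : B * (Y * w) ≤ B * (1 / K) := mul_le_mul_of_nonneg_left hYw (by linarith)
          have h5 : 0 < B * (1 / K) := by positivity
          nlinarith
        exact ⟨b1.trans (by linarith), b2.trans (by linarith), b3.trans hle, b4.trans hle⟩
    refine h3.trans ?_
    have e3 : Y ^ 4 * (1 / (K * Y)) ^ 2 = Y ^ 2 / K ^ 2 := by field_simp
    rw [e3]
    exact mul_le_mul_of_nonneg_right (le_max_right _ _) (by positivity)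

end Pool.Agent.A54.Hp
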