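import Pool.Agent.Lib.MP_a54f13_nt.Hp.SpecA

/-!
# Package `Hp`: module Rev (reversal of time)
-/

set_option autoImplicit false

namespace Pool.Agent.A54.Hp

open MeasureTheory Filter Topology Set
open scoped ContDiff ComplexConjugate UpperHalfPlane MatrixGroups ENNReal
open Pool.Agent.A54.Dyn (G fl base ze io mk4 dom)

noncomputable section

namespace RevM

/-- the rotation by a right angle -/
def w0 : G := mk4 0 1 (-1) 0 (by norm_num)

lemma e10 (g : G) : (g * w0) 1 0 = -(g 1 1) := by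
  show (g.1 * w0.1) 1 0 = _
  rw [Matrix.mul_apply, Fin.sum_univ_two]
  simp [w0, mk4]

lemma e11 (g : G) : (g * w0) 1 1 = g 1 0 := by
  show (g.1 * w0.1) 1 1 = _
  rw [Matrix.mul_apply, Fin.sum_univ_two]
  simp [w0, mk4]

lemma e00 (g : G) : (g * w0) 0 0 = -(g 0 1) := by
  show (g.1 * w0.1) 0 0 = _
  rw [Matrix.mul_apply, Fin.sum_univ_two]
  simp [w0, mk4]

lemma e01 (g : G) : (g * w0) 0 1 = g 0 0 := by
  show (g.1 * w0.1) 0 1 = _
  rw [Matrix.mul_apply, Fin.sum_univ_two]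
  simp [w0, mk4]

lemma ze_w0 (g : G) : ze (g * w0) = -ze g := by
  unfold Dyn.ze
  rw [e10, e11]
  have hd := Dyn.denI_ne g
  have hd' := Dyn.denI_ne (g * w0)
  rw [e10, e11] at hd'
  rw [div_eq_iff hd', neg_mul, div_mul_eq_mul_div, eq_neg_iff_add_eq_zero, add_div' _ _ _ hd,
    div_eq_zero_iff]
  left
  push_cast
  linear_combination 2 * ((g 1 0 : ℝ) : ℂ) * ((g 1 1 : ℝ) : ℂ) * Complex.I_sq

lemma base_w0 (g : G) : base (g * w0) = base g := by
  apply UpperHalfPlane.ext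
  rw [Dyn.base_coe, Dyn.base_coe, e00, e01, e10, e11]
  have hd : (g 1 0 : ℂ) * Complex.I + g 1 1 ≠ 0 := Dyn.denom_ne g UpperHalfPlane.I
  have hd' : ((-(g 1 1) : ℝ) : ℂ) * Complex.I + (g 1 0 : ℂ) ≠ 0 := by
    have := Dyn.denom_ne (g * w0) UpperHalfPlane.I
    rw [e10, e11] at this
    exact this
  rw [div_eq_div_iff hd' hd]
  push_cast
  linear_combination (((g 0 0 : ℝ) : ℂ) * ((g 1 1 : ℝ) : ℂ) -
    ((g 0 1 : ℝ) : ℂ) * ((g 1 0 : ℝ) : ℂ)) * Complex.I_sq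

lemma conj_ze (g : G) : conj (ze g) = (ze g)⁻¹ := by
  have h1 : ze g * conj (ze g) = 1 := by
    rw [Complex.mul_conj, Complex.normSq_eq_norm_sq, Dyn.norm_ze]
    norm_num
  exact eq_inv_of_mul_eq_one_right h1

lemma neg_one_sq_zpow (n : ℤ) : ((-1 : ℂ) ^ n) * (-1) ^ n = 1 := by
  rw [← mul_zpow]
  norm_num

lemma conj_Ff {f : ℍ → ℝ} {t : ℝ} (h4 : ∀ n : ℤ, ∀ z, Gf f t (-n) z = (-1) ^ n * conj (Gf f t n z))
    (n : ℤ) (g : G) : conj (Ff f t n g) = (-1) ^ n * Ff f t (-n) g := by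
  have h5 := h4 n ((base g : ℍ) : ℂ)
  have h6 : conj (Gf f t n ((base g : ℍ) : ℂ)) = (-1) ^ n * Gf f t (-n) ((base g : ℍ) : ℂ) := by
    rw [h5, ← mul_assoc, neg_one_sq_zpow, one_mul]
  unfold Ff
  rw [map_mul, map_zpow₀, conj_ze, h6, inv_zpow', mul_left_comm]

lemma Ff_w0 (f : ℍ → ℝ) (t : ℝ) (n : ℤ) (g : G) :
    Ff f t n (g * w0) = (-1) ^ n * Ff f t n g := by
  unfold Ff
  rw [ze_w0, base_w0, neg_eq_neg_one_mul, mul_zpow, mul_assoc]

lemma negI_inv : (-Complex.I)⁻¹ = Complex.I := by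
  rw [inv_neg, Complex.inv_I, neg_neg]

lemma conj_Pb {f : ℍ → ℝ} {t : ℝ} (h4 : ∀ n : ℤ, ∀ z, Gf f t (-n) z = (-1) ^ n * conj (Gf f t n z))
    (N : ℕ) (b : ℤ → ℝ) (hb : ∀ n, b (-n) = b n) (g : G) :
    Pb f t N b (g * w0) = conj (Pb f t N b g) := by
  unfold Pb Ph
  rw [map_sum]
  refine Finset.sum_nbij' (fun n => -n) (fun n => -n) ?_ ?_ ?_ ?_ ?_
  · intro n hn
    rw [Finset.mem_Icc] at hn ⊢
    omega
  · intro n hn
    rw [Finset.mem_Icc] at hn ⊢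
    omega
  · intro n _
    exact neg_neg n
  · intro n _
    exact neg_neg n
  · intro n _
    rw [map_mul, map_mul, map_zpow₀, Complex.conj_ofReal, conj_Ff h4, neg_neg, hb, Ff_w0, map_neg,
      Complex.conj_I, neg_neg, zpow_neg, zpow_neg, ← inv_zpow, ← inv_zpow, Complex.inv_I]
    norm_num

end RevM

open RevM

/-- **Rev** reversal of time. -/
theorem stmtRev (hT : StmtTwG) : StmtRev := by
  intro f t hf N b hb g
  have h4 : ∀ n : ℤ, ∀ z, Gf f t (-n) z = (-1) ^ n * conj (Gf f t n z) := fun n =>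
    (hT f t hf n).2.2.2.1
  have h := conj_Pb h4 N b hb g
  have h' : Pb f t N b (g * mk4 0 1 (-1) 0 (by norm_num)) = conj (Pb f t N b g) := h
  rw [h', RCLike.norm_conj]

end

end Pool.Agent.A54.Hp
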