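import Pool.Agent.Lib.MP_a54f13_nt.Hp.SpecL

/-!
# Package `Hp`, module `RtL`: the number of returns of size `Y`
-/

set_option autoImplicit false

namespace Pool.Agent.A54.Hp

open MeasureTheory Filter Topology Set
open scoped ContDiff ComplexConjugate UpperHalfPlane MatrixGroups ENNReal
open Pool.Agent.A54.Dyn (G fl base ze io mk4 dom)
open Pool.Agent.A54.Av (Mat NonSc)

noncomputable section

namespace RtLL

lemma isOpen_Vb {V b : Set G} (hV : IsOpen V) : IsOpen (Vb V b) := by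
  have h : Vb V b = ⋃ β ∈ b, (fun x : G => x * β) ⁻¹' V := by
    ext x
    simp only [Vb, mem_ofPred_eq, mem_iUnion, mem_preimage, exists_prop]
  rw [h]
  exact isOpen_biUnion fun β _ => hV.preimage (continuous_mul_const β)

lemma Zc_mono {R R' η η' K K' : ℝ} {x : G} (hx : x ∈ Om R) (h1 : η' ≤ η) (h2 : K' ≤ K)
    (h : x ∈ Zc R' η' K') : x ∈ Zc R η K := by
  obtain ⟨_, u, hu, h3⟩ := h
  refine ⟨hx, u, hu, ?_⟩
  rcases h3 with ⟨a, b⟩ | ⟨a, b⟩
  · exact Or.inl ⟨a.trans h1, b.trans h2⟩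
  · exact Or.inr ⟨a.trans h1, b.trans h2⟩

lemma Om_mono {R R' : ℝ} (h : R ≤ R') {x : G} (hx : x ∈ Om R) : x ∈ Om R' :=
  fun i j => (hx i j).trans h

lemma divide {N X : ℝ≥0∞} {t : ℝ} (ht : 0 < t) (h : N * ENNReal.ofReal t ≤ X) :
    N ≤ X * ENNReal.ofReal t⁻¹ := by
  have h1 : ENNReal.ofReal t * ENNReal.ofReal t⁻¹ = 1 := by
    rw [← ENNReal.ofReal_mul ht.le, mul_inv_cancel₀ ht.ne', ENNReal.ofReal_one]
  calc N = N * (ENNReal.ofReal t * ENNReal.ofReal t⁻¹) := by rw [h1, mul_one]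
    _ = N * ENNReal.ofReal t * ENNReal.ofReal t⁻¹ := by rw [mul_assoc]
    _ ≤ X * ENNReal.ofReal t⁻¹ := mul_le_mul_left h _

end RtLL

open RtLL in
open Classical in
theorem stmtRtL (hRL : StmtRL) (hRB : StmtRB) (hCz : StmtCz) (hVol : StmtVol) : StmtRtL := by
  intro R B c hR hB hc0 hc1
  obtain ⟨C1, hC1, hRB'⟩ := hRB (8 * R) B (by linarith) hB
  obtain ⟨c', hc', hvol⟩ := hVol.2.1 c hc0 hc1
  set t0 : ℝ := c' * c ^ 2 with ht0
  have ht0p : 0 < t0 := by positivity
  set C : ℝ := 16 * R + C1 / t0 with hC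
  have hCa : 16 * R ≤ C := by
    have : 0 ≤ C1 / t0 := by positivity
    linarith
  have hCb : C1 / t0 ≤ C := by linarith
  refine ⟨C, by linarith, ?_⟩
  intro w Y K hw0 hw1 hY hK hYwK V hV hVR hV' hbo x hx hxZ
  set b : Set G := bt c (c * w) with hb
  set S : Set G := Sp (8 * R) (1 / Y) K x with hS
  have hY0 : 0 < Y := by linarith
  have hK0 : 0 < K := by linarith
  have hxR : x ∈ Om R := hVR hx
  have hx8 : x ∈ Om (8 * R) := Om_mono (by linarith) hxR
  have hVm : MeasurableSet (Vb V b) := (isOpen_Vb hV).measurableSet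
  have hpt : ∀ y ∈ Vb V b, rL B Y b x y ≤ ENNReal.ofReal (C1 * (Y ^ 2 / K ^ 2)) +
      S.indicator (fun _ => ENNReal.ofReal (C1 * Y ^ 2)) y := by
    intro y hy
    have hy8 := hV' hy
    obtain ⟨h1, h2⟩ := hRB' c w Y K hc0 hc1 hw0 hw1 hY hK hYwK x hx8 y hy8
    by_cases hyS : y ∈ S
    · rw [indicator_of_mem hyS]
      exact h1.trans le_add_self
    · rw [indicator_of_notMem hyS, add_zero]
      refine h2 fun n hn => ?_
      by_contra hn0
      by_cases hdet : n.det = 0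
      · apply hxZ
        have e1 : 1 / (Y * (1 / (K * Y))) = K := by field_simp
        have e2 : 2 * (8 * R) / (Y * (1 / (K * Y))) = 16 * R * K := by
          field_simp
          ring
        have h3 := hCz (8 * R) (by linarith) x hx8 y hy8 Y (1 / (K * Y)) hY (by positivity)
          (by
            rw [div_le_one (by positivity)]
            nlinarith) n hn0 hdet (by rw [e1]; exact hn)
        rw [e2] at h3
        refine Zc_mono hxR ?_ ?_ h3
        · exact div_le_div_of_nonneg_right (by linarith) hY0.le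
        · exact mul_le_mul_of_nonneg_right hCa hK0.le
      · exact hyS ⟨hy8, n, hdet, hn⟩
  have hint : ∫⁻ y in Vb V b, rL B Y b x y ∂nu ≤
      ENNReal.ofReal (C1 * (Y ^ 2 / K ^ 2)) * nu (Vb V b) +
        ENNReal.ofReal (C1 * Y ^ 2) * nu (Vb V b ∩ S) := by
    calc ∫⁻ y in Vb V b, rL B Y b x y ∂nu ≤ ∫⁻ y in Vb V b, (ENNReal.ofReal (C1 * (Y ^ 2 / K ^ 2)) +
          S.indicator (fun _ => ENNReal.ofReal (C1 * Y ^ 2)) y) ∂nu :=
          setLIntegral_mono' hVm hpt
      _ = ENNReal.ofReal (C1 * (Y ^ 2 / K ^ 2)) * nu (Vb V b) +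
          ∫⁻ y in Vb V b, S.indicator (fun _ => ENNReal.ofReal (C1 * Y ^ 2)) y ∂nu := by
          rw [lintegral_add_left measurable_const, setLIntegral_const]
      _ ≤ _ := by
          refine add_le_add_right ?_ _
          refine (lintegral_indicator_const_le _ _).trans ?_
          rw [Measure.restrict_apply' hVm, inter_comm]
  have hb2 : ENNReal.ofReal (t0 * w ^ 2) ≤ nu b := by
    have h3 := hvol (c * w) (by positivity) (by nlinarith)
    have e : c' * (c * w) ^ 2 = t0 * w ^ 2 := by rw [ht0]; ring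
    rw [e] at h3
    exact h3
  have h4 : NS B Y V x * ENNReal.ofReal (t0 * w ^ 2) ≤
      ENNReal.ofReal (C1 * (Y ^ 2 / K ^ 2)) * nu (Vb V b) +
        ENNReal.ofReal (C1 * Y ^ 2) * nu (Vb V b ∩ S) :=
    (mul_le_mul_right hb2 _).trans ((hRL B Y V b hV hbo x).trans hint)
  have h5 := divide (by positivity) h4
  refine h5.trans ?_
  rw [add_mul, mul_add]
  have hc1 : ∀ a : ℝ, 0 ≤ a → ENNReal.ofReal (C1 * a) * ENNReal.ofReal (t0 * w ^ 2)⁻¹ ≤
      ENNReal.ofReal C * ENNReal.ofReal (a / w ^ 2) := by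
    intro a ha
    rw [← ENNReal.ofReal_mul (by positivity), ← ENNReal.ofReal_mul (by linarith)]
    refine ENNReal.ofReal_le_ofReal ?_
    have e : C1 * a * (t0 * w ^ 2)⁻¹ = C1 / t0 * (a / w ^ 2) := by
      field_simp
    rw [e]
    exact mul_le_mul_of_nonneg_right hCb (by positivity)
  refine add_le_add ?_ ?_
  · have e : Y ^ 2 / (K ^ 2 * w ^ 2) = Y ^ 2 / K ^ 2 / w ^ 2 := by rw [div_div]
    rw [mul_right_comm, ← mul_assoc, e]
    exact mul_le_mul_left (hc1 (Y ^ 2 / K ^ 2) (by positivity)) _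
  · rw [mul_right_comm, ← mul_assoc]
    exact mul_le_mul_left (hc1 (Y ^ 2) (by positivity)) _

end

end Pool.Agent.A54.Hp
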