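import Pool.Agent.Lib.MP_a54f13_nt.Hp.SpecB

/-!
# Package `Hp`, part B: Schur's test
-/

set_option autoImplicit false

namespace Pool.Agent.A54.Hp

open MeasureTheory Filter Topology Set
open scoped ContDiff ComplexConjugate UpperHalfPlane MatrixGroups ENNReal
open Pool.Agent.A54.Dyn (G fl base ze io mk4 dom)
open Pool.Agent.A54.Half (H0)
open Pool.Agent.A54.Sq (TestP)

noncomputable section

namespace SchM

lemma uh_symm (z w : ℍ) : uh z w = uh w z := by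
  unfold uh
  rw [norm_sub_rev, mul_comm z.im]

lemma cont_uh : Continuous fun p : ℍ × ℍ => uh p.1 p.2 := by
  unfold uh
  refine Continuous.div ?_ ?_ ?_
  · exact ((UpperHalfPlane.continuous_coe.comp continuous_fst).sub
      (UpperHalfPlane.continuous_coe.comp continuous_snd)).norm.pow 2
  · exact (UpperHalfPlane.continuous_im.comp continuous_fst).mul
      (UpperHalfPlane.continuous_im.comp continuous_snd)
  · intro p
    exact (mul_pos p.1.im_pos p.2.im_pos).ne'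

/-- the kernel -/
def ka (φ : ℂ → ℝ) (k : ℝ → ℝ) (z w : ℍ) : ℝ≥0∞ := ENNReal.ofReal (φ z * k (uh z w))

lemma meas_ka {φ : ℂ → ℝ} (hφ : Continuous φ) {k : ℝ → ℝ} (hk : Measurable k) :
    Measurable fun p : ℍ × ℍ => ka φ k p.1 p.2 := by
  unfold ka
  refine Measurable.ennreal_ofReal (Measurable.mul ?_ ?_)
  · exact ((hφ.comp UpperHalfPlane.continuous_coe).comp continuous_fst).measurable
  · exact hk.comp cont_uh.measurable

/-- Cauchy–Schwarz with a weight -/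
lemma csw {α : Type*} [MeasurableSpace α] (μ : Measure α) {κ f g : α → ℝ≥0∞} (hκ : Measurable κ)
    (hf : Measurable f) (hg : Measurable g) :
    ∫⁻ x, κ x * f x * g x ∂μ ≤ (∫⁻ x, κ x * f x ^ 2 ∂μ) ^ (1 / 2 : ℝ) *
      (∫⁻ x, κ x * g x ^ 2 ∂μ) ^ (1 / 2 : ℝ) := by
  have h3 := ENNReal.lintegral_mul_le_Lp_mul_Lq (μ.withDensity κ) (p := 2) (q := 2)
    Real.HolderConjugate.two_two hf.aemeasurable hg.aemeasurable
  rw [lintegral_withDensity_eq_lintegral_mul _ hκ (hf.mul hg),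
    lintegral_withDensity_eq_lintegral_mul _ hκ (hf.pow_const _),
    lintegral_withDensity_eq_lintegral_mul _ hκ (hg.pow_const _)] at h3
  have h4 : ∀ f : α → ℝ≥0∞, ∫⁻ x, (κ * fun x => f x ^ (2 : ℝ)) x ∂μ = ∫⁻ x, κ x * f x ^ 2 ∂μ := by
    intro f
    refine lintegral_congr fun x => ?_
    rw [Pi.mul_apply, ← ENNReal.rpow_natCast]
    norm_num
  rw [h4, h4] at h3
  refine le_trans (le_of_eq ?_) h3
  refine lintegral_congr fun x => ?_
  simp only [Pi.mul_apply, mul_assoc]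

/-- the integral of a kernel -/
lemma int_ker (hA : StmtAr) {C₀ a : ℝ} {k : ℝ → ℝ} (hk : Ker C₀ a k) (z : ℍ) :
    ∫⁻ w : ℍ, ENNReal.ofReal (k (uh z w)) = 1 := by
  rw [hA (fun u => ENNReal.ofReal (k u)) hk.meas.ennreal_ofReal z]
  have h1 : Integrable k (volume.restrict (Ioi 0)) := by
    refine Integrable.of_integral_ne_zero fun h => ?_
    have := hk.one
    rw [h, mul_zero] at this
    exact zero_ne_one this
  rw [← ofReal_integral_eq_lintegral_ofReal h1 (Eventually.of_forall hk.nonneg),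
    ← ENNReal.ofReal_mul Real.pi_pos.le, hk.one, ENNReal.ofReal_one]

/-- the data: `φ ≤ ζ`, `φ ≤ M` and `M + 1 ≤ ζ` near the support of `φ` -/
structure Dat (φ ζ : ℂ → ℝ) (M : ℝ) : Prop where
  cφ : Continuous φ
  cζ : Continuous ζ
  nφ : ∀ z, 0 ≤ φ z
  nζ : ∀ z, 0 ≤ ζ z
  le : ∀ z, φ z ≤ ζ z
  M0 : 0 ≤ M
  leM : ∀ z, φ z ≤ M
  near : ∀ z w : ℍ, φ z ≠ 0 → uh z w < 1 / 4 → M + 1 ≤ ζ w

variable {φ ζ : ℂ → ℝ} {M : ℝ}

lemma ka_zero {C₀ a : ℝ} {k : ℝ → ℝ} (ha : a ≤ 1 / 2) (hk : Ker C₀ a k) (hD : Dat φ ζ M) (z w : ℍ)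
    (hw : ¬ M + 1 ≤ ζ w) : φ z * k (uh z w) = 0 := by
  by_cases hz : φ z = 0
  · rw [hz, zero_mul]
  · have h1 : 1 / 4 ≤ uh z w := by
      by_contra h
      exact hw (hD.near z w hz (not_le.1 h))
    have h2 : a ^ 2 ≤ uh z w := by
      have := hk.pos
      nlinarith
    rw [hk.supp _ h2, mul_zero]

lemma int_right (hA : StmtAr) {C₀ a : ℝ} {k : ℝ → ℝ} (hk : Ker C₀ a k) (hD : Dat φ ζ M) (z : ℍ) :
    ∫⁻ w : ℍ, ka φ k z w ≤ ENNReal.ofReal (ζ z) := by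
  unfold ka
  have h1 : ∀ w : ℍ, ENNReal.ofReal (φ z * k (uh z w)) =
      ENNReal.ofReal (φ z) * ENNReal.ofReal (k (uh z w)) := fun w => ENNReal.ofReal_mul (hD.nφ z)
  simp only [h1]
  rw [lintegral_const_mul' _ _ ENNReal.ofReal_ne_top, int_ker hA hk z, mul_one]
  exact ENNReal.ofReal_le_ofReal (hD.le z)

lemma int_left (hA : StmtAr) {C₀ a : ℝ} {k : ℝ → ℝ} (ha : a ≤ 1 / 2) (hk : Ker C₀ a k)
    (hD : Dat φ ζ M) (w : ℍ) : ∫⁻ z : ℍ, ka φ k z w ≤ ENNReal.ofReal (ζ w) := by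
  unfold ka
  by_cases hw : M + 1 ≤ ζ w
  · have h1 : ∀ z : ℍ, ENNReal.ofReal (φ z * k (uh z w)) ≤
        ENNReal.ofReal M * ENNReal.ofReal (k (uh w z)) := by
      intro z
      rw [← ENNReal.ofReal_mul hD.M0, uh_symm w z]
      exact ENNReal.ofReal_le_ofReal (mul_le_mul_of_nonneg_right (hD.leM z) (hk.nonneg _))
    refine (lintegral_mono h1).trans ?_
    rw [lintegral_const_mul' _ _ ENNReal.ofReal_ne_top, int_ker hA hk w, mul_one]
    exact ENNReal.ofReal_le_ofReal (by linarith)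
  · have h1 : ∀ z : ℍ, ENNReal.ofReal (φ z * k (uh z w)) = 0 := by
      intro z
      rw [ka_zero ha hk hD z w hw, ENNReal.ofReal_zero]
    simp only [h1, lintegral_zero]
    exact zero_le

/-- Schur's test for nonnegative measurable functions -/
lemma schur (hA : StmtAr) {C₀ a : ℝ} {k : ℝ → ℝ} (ha : a ≤ 1 / 2) (hk : Ker C₀ a k)
    (hD : Dat φ ζ M) {s s' : ℍ → ℝ≥0∞} (hs : Measurable s) (hs' : Measurable s') :
    ∫⁻ z : ℍ, ∫⁻ w : ℍ, ka φ k z w * s z * s' w ≤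
      (∫⁻ z : ℍ, ENNReal.ofReal (ζ z) * s z ^ 2) ^ (1 / 2 : ℝ) *
        (∫⁻ z : ℍ, ENNReal.ofReal (ζ z) * s' z ^ 2) ^ (1 / 2 : ℝ) := by
  have hm := meas_ka hD.cφ hk.meas
  have e1 : ∫⁻ z : ℍ, ∫⁻ w : ℍ, ka φ k z w * s z * s' w =
      ∫⁻ p : ℍ × ℍ, ka φ k p.1 p.2 * s p.1 * s' p.2 ∂(volume.prod volume) := by
    rw [lintegral_prod]
    exact ((hm.mul (hs.comp measurable_fst)).mul (hs'.comp measurable_snd)).aemeasurable
  have e2 : ∫⁻ p : ℍ × ℍ, ka φ k p.1 p.2 * s p.1 ^ 2 ∂(volume.prod volume) ≤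
      ∫⁻ z : ℍ, ENNReal.ofReal (ζ z) * s z ^ 2 := by
    rw [lintegral_prod]
    · refine lintegral_mono fun z => ?_
      have hmz : Measurable fun w : ℍ => ka φ k z w := hm.comp measurable_prodMk_left
      simp only
      rw [lintegral_mul_const _ hmz]
      exact mul_le_mul_left (int_right hA hk hD z) _
    · exact (hm.mul ((hs.comp measurable_fst).pow_const 2)).aemeasurable
  have e3 : ∫⁻ p : ℍ × ℍ, ka φ k p.1 p.2 * s' p.2 ^ 2 ∂(volume.prod volume) ≤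
      ∫⁻ z : ℍ, ENNReal.ofReal (ζ z) * s' z ^ 2 := by
    rw [lintegral_prod_symm']
    · refine lintegral_mono fun w => ?_
      have hmw : Measurable fun z : ℍ => ka φ k z w := hm.comp measurable_prodMk_right
      simp only
      rw [lintegral_mul_const _ hmw]
      exact mul_le_mul_left (int_left hA ha hk hD w) _
    · exact (hm.mul ((hs'.comp measurable_snd).pow_const 2))
  rw [e1]
  refine (csw (volume.prod volume) hm (hs.comp measurable_fst) (hs'.comp measurable_snd)).trans ?_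
  exact mul_le_mul' (ENNReal.rpow_le_rpow e2 (by norm_num)) (ENNReal.rpow_le_rpow e3 (by norm_num))

lemma compact_pre {K : Set ℂ} (hK : IsCompact K) (hH : K ⊆ H0) :
    IsCompact (UpperHalfPlane.coe ⁻¹' K) := by
  refine (UpperHalfPlane.isOpenEmbedding_coe.isInducing.isCompact_preimage_iff ?_).2 hK
  intro z hz
  exact ⟨⟨z, hH hz⟩, rfl⟩

lemma intble {ζ : ℂ → ℝ} (hζ : TestP H0 ζ) {F : ℍ → ℝ} (hF : Continuous F) :
    Integrable (fun z : ℍ => ζ z * F z) := by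
  have h1 : Continuous fun z : ℍ => ζ z * F z :=
    (hζ.test.smooth.continuous.comp UpperHalfPlane.continuous_coe).mul hF
  refine h1.integrable_of_hasCompactSupport ?_
  refine HasCompactSupport.intro (compact_pre hζ.test.cpt.isCompact hζ.test.sub) fun z hz => ?_
  have h2 : ζ (z : ℂ) = 0 := image_eq_zero_of_notMem_tsupport hz
  rw [h2, zero_mul]

lemma lint {ζ : ℂ → ℝ} (hζ : TestP H0 ζ) {F : ℍ → ℝ} (hF : Continuous F) (h0 : ∀ z, 0 ≤ F z) :
    ∫⁻ z : ℍ, ENNReal.ofReal (ζ z) * ENNReal.ofReal (F z) =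
      ENNReal.ofReal (∫ z : ℍ, ζ z * F z) := by
  rw [ofReal_integral_eq_lintegral_ofReal (intble hζ hF)
    (Eventually.of_forall fun z => mul_nonneg (hζ.nonneg _) (h0 z))]
  exact lintegral_congr fun z => (ENNReal.ofReal_mul (hζ.nonneg _)).symm

/-- the function `ζ` -/
lemma exists_dat (hU : StmtUg) {φ : ℂ → ℝ} (hφ : TestP H0 φ) :
    ∃ (ζ : ℂ → ℝ) (M : ℝ), TestP H0 ζ ∧ Dat φ ζ M := by
  obtain ⟨C, hC⟩ := hφ.test.cpt.exists_bound_of_continuous hφ.test.smooth.continuous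
  have hC0 : 0 ≤ C := (norm_nonneg _).trans (hC 0)
  have hle : ∀ z, φ z ≤ C := fun z => (le_abs_self _).trans (hC z)
  have hK : IsCompact (UpperHalfPlane.coe ⁻¹' tsupport φ) :=
    compact_pre hφ.test.cpt.isCompact hφ.test.sub
  have hK1 : IsCompact (Metric.cthickening 1 (UpperHalfPlane.coe ⁻¹' tsupport φ)) := hK.cthickening
  have hK2 : IsCompact (UpperHalfPlane.coe ''
      Metric.cthickening 1 (UpperHalfPlane.coe ⁻¹' tsupport φ)) :=
    hK1.image UpperHalfPlane.continuous_coe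
  have hK3 : UpperHalfPlane.coe '' Metric.cthickening 1 (UpperHalfPlane.coe ⁻¹' tsupport φ) ⊆
      H0 := by
    rintro _ ⟨z, -, rfl⟩
    exact z.im_pos
  obtain ⟨ζ₀, hζ₀, h01, h1⟩ := exists_cutoff hK2 Half.isOpen_H0 hK3
  have h1' : ∀ w ∈ Metric.cthickening 1 (UpperHalfPlane.coe ⁻¹' tsupport φ), ζ₀ (w : ℂ) = 1 :=
    fun w hw => h1.self_of_nhdsSet _ ⟨w, hw, rfl⟩
  refine ⟨fun z => (C + 1) * ζ₀ z, C, ⟨⟨?_, ?_, ?_⟩, ?_⟩, ⟨hφ.test.smooth.continuous, ?_, hφ.nonneg,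
    ?_, ?_, hC0, hle, ?_⟩⟩
  · exact contDiff_const.mul hζ₀.smooth
  · exact hζ₀.cpt.mul_left
  · exact (tsupport_mul_subset_right (f := fun _ => C + 1) (g := ζ₀)).trans hζ₀.sub
  · exact fun z => mul_nonneg (by linarith) (h01 z).1
  · exact continuous_const.mul hζ₀.smooth.continuous
  · exact fun z => mul_nonneg (by linarith) (h01 z).1
  · intro z
    by_cases hz : z ∈ tsupport φ
    · have h2 : ζ₀ z = 1 := by
        have h3 := h1' ⟨z, hφ.test.sub hz⟩ (Metric.self_subset_cthickening _ hz)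
        exact h3
      show φ z ≤ (C + 1) * ζ₀ z
      rw [h2]
      linarith [hle z]
    · rw [image_eq_zero_of_notMem_tsupport hz]
      exact mul_nonneg (by linarith) (h01 z).1
  · intro z w hz hw
    have h2 : dist w z ≤ 1 := by
      by_contra h
      rw [dist_comm] at h
      push Not at h
      have h3 := hU.2.1 z w
      have h4 : Real.cosh 1 ≤ Real.cosh (dist z w) := by
        rw [Real.cosh_le_cosh, abs_one]
        exact h.le.trans (le_abs_self _)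
      have h5 : Real.cosh 1 = (Real.exp 1 + Real.exp (-1)) / 2 := Real.cosh_eq 1
      have h6 := Real.exp_one_gt_d9
      have h7 := Real.exp_pos (-1)
      linarith
    have h3 : ζ₀ (w : ℂ) = 1 := by
      refine h1' w (Metric.mem_cthickening_of_dist_le w z 1 _ ?_ h2)
      exact subset_tsupport _ hz
    show C + 1 ≤ (C + 1) * ζ₀ w
    rw [h3, mul_one]

lemma V2_eq {φ : ℂ → ℝ} (hφ : ∀ z, 0 ≤ φ z) {k : ℝ → ℝ} (hk : ∀ u, 0 ≤ k u) {S : ℍ → ℝ}
    (hS : ∀ z, 0 ≤ S z) (S' : ℍ → ℝ) :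
    V2 φ k S S' = ∫⁻ z : ℍ, ∫⁻ w : ℍ, ka φ k z w * ENNReal.ofReal (S z) * ENNReal.ofReal (S' w) := by
  unfold V2 ka
  refine lintegral_congr fun z => lintegral_congr fun w => ?_
  have h1 : 0 ≤ φ z * k (uh z w) := mul_nonneg (hφ z) (hk _)
  rw [ENNReal.ofReal_mul (mul_nonneg h1 (hS z)), ENNReal.ofReal_mul h1]

lemma half_rpow {x : ℝ} (hx : 0 ≤ x) : ENNReal.ofReal x ^ (1 / 2 : ℝ) = ENNReal.ofReal √x := by
  rw [ENNReal.ofReal_rpow_of_nonneg hx (by norm_num), Real.sqrt_eq_rpow]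

/-- (1) -/
lemma part1 (hA : StmtAr) {C₀ a : ℝ} {k : ℝ → ℝ} (ha : a ≤ 1 / 2) (hk : Ker C₀ a k)
    (hζ : TestP H0 ζ) (hD : Dat φ ζ M) {S S' : ℍ → ℝ} (hS : Continuous S) (hS' : Continuous S') :
    V2 φ k (fun z => |S z|) (fun z => |S' z|) ≤
      ENNReal.ofReal (√(∫ z : ℍ, ζ z * S z ^ 2) * √(∫ z : ℍ, ζ z * S' z ^ 2)) := by
  have h1 : ∀ F : ℍ → ℝ, Continuous F →
      (∫⁻ z : ℍ, ENNReal.ofReal (ζ z) * ENNReal.ofReal |F z| ^ 2) ^ (1 / 2 : ℝ) =
        ENNReal.ofReal √(∫ z : ℍ, ζ z * F z ^ 2) := by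
    intro F hF
    have h2 : ∀ z, ENNReal.ofReal |F z| ^ 2 = ENNReal.ofReal (F z ^ 2) := by
      intro z
      rw [← ENNReal.ofReal_pow (abs_nonneg _), sq_abs]
    simp only [h2]
    rw [lint hζ (F := fun z => F z ^ 2) (hF.pow 2) fun z => sq_nonneg _, half_rpow]
    exact integral_nonneg fun z => mul_nonneg (hζ.nonneg _) (sq_nonneg _)
  rw [V2_eq hD.nφ hk.nonneg (fun z => abs_nonneg _)]
  refine (schur hA ha hk hD hS.abs.measurable.ennreal_ofReal
    hS'.abs.measurable.ennreal_ofReal).trans ?_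
  rw [h1 S hS, h1 S' hS', ← ENNReal.ofReal_mul (Real.sqrt_nonneg _)]

/-- (2) -/
lemma part2 {C₀ a : ℝ} {k : ℝ → ℝ} (ha : a ≤ 1 / 2) (hk : Ker C₀ a k)
    (hζ : TestP H0 ζ) (hD : Dat φ ζ M) {S S' : ℍ → ℝ} (hS : Continuous S) (hS' : Continuous S')
    (hS0 : ∀ z, 0 ≤ S z) (hS0' : ∀ z, 0 ≤ S' z) :
    V2 φ k S S' ≤ ENNReal.ofReal (C₀ / a ^ 2 * ((∫ z : ℍ, ζ z * S z) * ∫ z : ℍ, ζ z * S' z)) := by
  have hc : 0 ≤ C₀ / a ^ 2 := (hk.nonneg 0).trans (hk.le 0)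
  have h1 : ∀ z w : ℍ, ka φ k z w ≤ ENNReal.ofReal (C₀ / a ^ 2) * ENNReal.ofReal (ζ z) *
      ENNReal.ofReal (ζ w) := by
    intro z w
    unfold ka
    rw [← ENNReal.ofReal_mul hc, ← ENNReal.ofReal_mul (mul_nonneg hc (hD.nζ z))]
    refine ENNReal.ofReal_le_ofReal ?_
    by_cases hw : M + 1 ≤ ζ w
    · have h2 : φ z * k (uh z w) ≤ ζ z * (C₀ / a ^ 2) :=
        mul_le_mul (hD.le z) (hk.le _) (hk.nonneg _) (hD.nζ z)
      have h3 : 0 ≤ ζ z * (C₀ / a ^ 2) := mul_nonneg (hD.nζ z) hc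
      have h4 : 1 ≤ ζ w := by linarith [hD.M0]
      calc φ z * k (uh z w) ≤ ζ z * (C₀ / a ^ 2) * 1 := by rw [mul_one]; exact h2
        _ ≤ ζ z * (C₀ / a ^ 2) * ζ w := mul_le_mul_of_nonneg_left h4 h3
        _ = C₀ / a ^ 2 * ζ z * ζ w := by ring
    · rw [ka_zero ha hk hD z w hw]
      exact mul_nonneg (mul_nonneg hc (hD.nζ z)) (hD.nζ w)
  rw [V2_eq hD.nφ hk.nonneg hS0]
  have h2 : ∀ z w : ℍ, ka φ k z w * ENNReal.ofReal (S z) * ENNReal.ofReal (S' w) ≤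
      ENNReal.ofReal (C₀ / a ^ 2) * (ENNReal.ofReal (ζ z) * ENNReal.ofReal (S z)) *
        (ENNReal.ofReal (ζ w) * ENNReal.ofReal (S' w)) := by
    intro z w
    calc ka φ k z w * ENNReal.ofReal (S z) * ENNReal.ofReal (S' w) ≤
        ENNReal.ofReal (C₀ / a ^ 2) * ENNReal.ofReal (ζ z) *
          ENNReal.ofReal (ζ w) * ENNReal.ofReal (S z) * ENNReal.ofReal (S' w) :=
          mul_le_mul_left (mul_le_mul_left (h1 z w) _) _
      _ = _ := by ring
  refine (lintegral_mono fun z => lintegral_mono fun w => h2 z w).trans ?_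
  have h3 : ∀ z : ℍ, ∫⁻ w : ℍ, ENNReal.ofReal (C₀ / a ^ 2) *
      (ENNReal.ofReal (ζ z) * ENNReal.ofReal (S z)) *
        (ENNReal.ofReal (ζ w) * ENNReal.ofReal (S' w)) =
      ENNReal.ofReal (C₀ / a ^ 2) * (ENNReal.ofReal (ζ z) * ENNReal.ofReal (S z)) *
        ENNReal.ofReal (∫ z : ℍ, ζ z * S' z) := by
    intro z
    rw [lintegral_const_mul' _ _ (by finiteness), lint hζ hS' hS0']
  simp only [h3]
  rw [lintegral_mul_const' _ _ ENNReal.ofReal_ne_top, lintegral_const_mul' _ _ ENNReal.ofReal_ne_top,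
    lint hζ hS hS0, ← ENNReal.ofReal_mul hc, ← ENNReal.ofReal_mul, mul_assoc]
  exact mul_nonneg hc (integral_nonneg fun z => mul_nonneg (hζ.nonneg _) (hS0 z))

lemma meas_V {φ : ℂ → ℝ} (hφ : Continuous φ) {k : ℝ → ℝ} (hk : Measurable k) {S S' : ℍ → ℝ}
    (hS : Continuous S) (hS' : Continuous S') :
    Measurable fun p : ℍ × ℍ => ENNReal.ofReal (φ p.1 * k (uh p.1 p.2) * S p.1 * S' p.2) := by
  refine Measurable.ennreal_ofReal ?_
  refine ((Measurable.mul ?_ ?_).mul (hS.comp continuous_fst).measurable).mul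
    (hS'.comp continuous_snd).measurable
  · exact ((hφ.comp UpperHalfPlane.continuous_coe).comp continuous_fst).measurable
  · exact hk.comp cont_uh.measurable

lemma V2_add {φ : ℂ → ℝ} (hφ : Continuous φ) {k : ℝ → ℝ} (hk : Measurable k)
    {S₁ S₁' : ℍ → ℝ} (S₂ S₂' : ℍ → ℝ) (h1 : Continuous S₁) (h1' : Continuous S₁') :
    ∫⁻ z : ℍ, ∫⁻ w : ℍ,
      (ENNReal.ofReal (φ z * k (uh z w) * S₁ z * S₁' w) +
        ENNReal.ofReal (φ z * k (uh z w) * S₂ z * S₂' w)) =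
      V2 φ k S₁ S₁' + V2 φ k S₂ S₂' := by
  have hm := meas_V hφ hk h1 h1'
  have e1 : ∀ z : ℍ, ∫⁻ w : ℍ, (ENNReal.ofReal (φ z * k (uh z w) * S₁ z * S₁' w) +
        ENNReal.ofReal (φ z * k (uh z w) * S₂ z * S₂' w)) =
      (∫⁻ w : ℍ, ENNReal.ofReal (φ z * k (uh z w) * S₁ z * S₁' w)) +
        ∫⁻ w : ℍ, ENNReal.ofReal (φ z * k (uh z w) * S₂ z * S₂' w) := by
    intro z
    have hmz : Measurable fun w : ℍ => ENNReal.ofReal (φ z * k (uh z w) * S₁ z * S₁' w) :=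
      hm.comp (measurable_prodMk_left (x := z))
    exact lintegral_add_left hmz _
  simp only [e1]
  unfold V2
  exact lintegral_add_left (Measurable.lintegral_prod_right' hm) _

end SchM

open SchM

theorem stmtSch (hU : StmtUg) (hA : StmtAr) : StmtSch := by
  intro φ hφ
  obtain ⟨ζ, M, hζ, hD⟩ := exists_dat hU hφ
  refine ⟨ζ, 1, 1 / 2, hζ, hD.le, zero_le_one, by norm_num, by norm_num, ?_⟩
  intro C₀ a k ha hk
  have hc := hφ.test.smooth.continuous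
  refine ⟨fun S S' hS hS' => ⟨?_, fun h0 h0' => ?_⟩, ?_⟩
  · rw [one_mul]
    exact part1 hA ha hk hζ hD hS hS'
  · rw [one_mul]
    exact part2 ha hk hζ hD hS hS' h0 h0'
  · intro S₁ S₂ S₁' S₂' h1 h2 h1' h2' p1 p2 p1' p2'
    have e1 : V2 φ k S₁ S₁' ≤ V2 φ k S₂ S₂' + (V2 φ k (fun z => |S₁ z - S₂ z|) (fun z => |S₁' z|) +
        V2 φ k (fun z => |S₂ z|) (fun z => |S₁' z - S₂' z|)) := by
      have hm := meas_V hc hk.meas h2 h2'
      have e2 : ∀ z : ℍ, ∫⁻ w : ℍ, (ENNReal.ofReal (φ z * k (uh z w) * S₂ z * S₂' w) +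
          (ENNReal.ofReal (φ z * k (uh z w) * |S₁ z - S₂ z| * |S₁' w|) +
            ENNReal.ofReal (φ z * k (uh z w) * |S₂ z| * |S₁' w - S₂' w|))) =
          (∫⁻ w : ℍ, ENNReal.ofReal (φ z * k (uh z w) * S₂ z * S₂' w)) +
            ∫⁻ w : ℍ, (ENNReal.ofReal (φ z * k (uh z w) * |S₁ z - S₂ z| * |S₁' w|) +
            ENNReal.ofReal (φ z * k (uh z w) * |S₂ z| * |S₁' w - S₂' w|)) := by
        intro z
        have hmz : Measurable fun w : ℍ => ENNReal.ofReal (φ z * k (uh z w) * S₂ z * S₂' w) :=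
          hm.comp (measurable_prodMk_left (x := z))
        exact lintegral_add_left hmz _
      have e3 : V2 φ k S₂ S₂' + (V2 φ k (fun z => |S₁ z - S₂ z|) (fun z => |S₁' z|) +
          V2 φ k (fun z => |S₂ z|) (fun z => |S₁' z - S₂' z|)) = ∫⁻ z : ℍ, ∫⁻ w : ℍ,
          (ENNReal.ofReal (φ z * k (uh z w) * S₂ z * S₂' w) +
          (ENNReal.ofReal (φ z * k (uh z w) * |S₁ z - S₂ z| * |S₁' w|) +
            ENNReal.ofReal (φ z * k (uh z w) * |S₂ z| * |S₁' w - S₂' w|))) := by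
        have e4 := V2_add hc hk.meas (S₁ := fun z => |S₁ z - S₂ z|) (S₁' := fun z => |S₁' z|)
          (fun z => |S₂ z|) (fun z => |S₁' z - S₂' z|) (h1.sub h2).abs h1'.abs
        rw [← e4]
        simp only [e2]
        exact (lintegral_add_left (Measurable.lintegral_prod_right' hm) _).symm
      rw [e3]
      unfold V2
      refine lintegral_mono fun z => lintegral_mono fun w => ?_
      have h0 : 0 ≤ φ z * k (uh z w) := mul_nonneg (hφ.nonneg z) (hk.nonneg _)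
      rw [← ENNReal.ofReal_add (by positivity) (by positivity),
        ← ENNReal.ofReal_add (mul_nonneg (mul_nonneg h0 (p2 z)) (p2' w)) (by positivity)]
      refine ENNReal.ofReal_le_ofReal ?_
      have h3 : S₁ z * S₁' w ≤ S₂ z * S₂' w + (|S₁ z - S₂ z| * |S₁' w| +
          |S₂ z| * |S₁' w - S₂' w|) := by
        have h4 : S₁ z * S₁' w = S₂ z * S₂' w + ((S₁ z - S₂ z) * S₁' w +
            S₂ z * (S₁' w - S₂' w)) := by ring
        rw [h4, ← abs_mul, ← abs_mul]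
        exact add_le_add le_rfl (add_le_add (le_abs_self _) (le_abs_self _))
      calc φ z * k (uh z w) * S₁ z * S₁' w = φ z * k (uh z w) * (S₁ z * S₁' w) := by ring
        _ ≤ φ z * k (uh z w) * (S₂ z * S₂' w + (|S₁ z - S₂ z| * |S₁' w| +
          |S₂ z| * |S₁' w - S₂' w|)) := mul_le_mul_of_nonneg_left h3 h0
        _ = _ := by ring
    refine e1.trans (add_le_add le_rfl ?_)
    rw [one_mul, ENNReal.ofReal_add (by positivity) (by positivity)]
    exact add_le_add (part1 hA ha hk hζ hD (h1.sub h2) h1')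
      (part1 hA ha hk hζ hD h2 (h1'.sub h2'))

end

end Pool.Agent.A54.Hp
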