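import Pool.Agent.Lib.MP_a54f13_nt.Hp.SpecB

/-!
# Package `Hp`: smooth kernels
-/

set_option autoImplicit false

namespace Pool.Agent.A54.Hp

open MeasureTheory Filter Topology Set
open scoped ContDiff ComplexConjugate UpperHalfPlane MatrixGroups ENNReal
open Pool.Agent.A54.Half (H0)

noncomputable section

namespace SkM

/-! ### The profile -/

theorem st_cont : Continuous fun u : ℝ => Real.smoothTransition (2 - 2 * u) :=
  Real.smoothTransition.continuous.comp (by fun_prop)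

theorem st_zero {u : ℝ} (hu : 1 ≤ u) : Real.smoothTransition (2 - 2 * u) = 0 :=
  Real.smoothTransition.zero_of_nonpos (by linarith)

theorem st_one {u : ℝ} (hu : u ≤ 1 / 2) : Real.smoothTransition (2 - 2 * u) = 1 :=
  Real.smoothTransition.one_of_one_le (by linarith)

theorem int_eq : ∫ u in Ioi (0 : ℝ), Real.smoothTransition (2 - 2 * u) =
    ∫ u in Ioc (0 : ℝ) 1, Real.smoothTransition (2 - 2 * u) := by
  refine setIntegral_eq_of_subset_of_forall_diff_eq_zero measurableSet_Ioi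
    (fun u hu => hu.1) fun u hu => ?_
  refine st_zero ?_
  by_contra h
  exact hu.2 ⟨hu.1, (not_le.1 h).le⟩

theorem ct_pos : 0 < ct := by
  refine mul_pos Real.pi_pos ?_
  rw [int_eq]
  have hi : IntegrableOn (fun u : ℝ => Real.smoothTransition (2 - 2 * u)) (Ioc 0 1) :=
    (st_cont.integrableOn_Icc (a := 0) (b := 1)).mono_set Ioc_subset_Icc_self
  have h1 : ∫ u in Ioc (0 : ℝ) (1 / 2), Real.smoothTransition (2 - 2 * u) ≤
      ∫ u in Ioc (0 : ℝ) 1, Real.smoothTransition (2 - 2 * u) :=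
    setIntegral_mono_set hi (Eventually.of_forall fun u => Real.smoothTransition.nonneg _)
      (Eventually.of_forall (Ioc_subset_Ioc_right (by norm_num)))
  have h2 : ∫ u in Ioc (0 : ℝ) (1 / 2), Real.smoothTransition (2 - 2 * u) =
      ∫ u in Ioc (0 : ℝ) (1 / 2), (1 : ℝ) :=
    setIntegral_congr_fun measurableSet_Ioc fun u hu => st_one hu.2
  rw [h2, setIntegral_const, smul_eq_mul, mul_one, Real.volume_real_Ioc_of_le (by norm_num)] at h1
  linarith

theorem sk_ker {e : ℝ} (he : 0 < e) : Ker (1 / ct) e (sk e) where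
  pos := he
  meas := by
    have h : Continuous (sk e) := by
      unfold sk
      exact (Real.smoothTransition.continuous.comp (by fun_prop)).div_const _
    exact h.measurable
  nonneg u := div_nonneg (Real.smoothTransition.nonneg _) (mul_pos ct_pos (pow_pos he 2)).le
  le u := by
    unfold sk
    rw [div_div]
    exact div_le_div_of_nonneg_right (Real.smoothTransition.le_one _)
      (mul_pos ct_pos (pow_pos he 2)).le
  supp u hu := by
    unfold sk
    rw [st_zero ((one_le_div (pow_pos he 2)).2 hu), zero_div]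
  one := by
    obtain ⟨g, hg⟩ : ∃ g : ℝ → ℝ, g = fun v : ℝ => Real.smoothTransition (2 - 2 * v) := ⟨_, rfl⟩
    have h1 : (fun u : ℝ => sk e u) = fun u => (ct * e ^ 2)⁻¹ * g ((e ^ 2)⁻¹ * u) := by
      funext u
      rw [hg]
      unfold sk
      simp only
      rw [div_eq_inv_mul, div_eq_inv_mul u]
    rw [h1, integral_const_mul, integral_comp_mul_left_Ioi _ _ (inv_pos.2 (pow_pos he 2)), mul_zero,
      smul_eq_mul, inv_inv, hg]
    have h2 : Real.pi * ∫ u in Ioi (0 : ℝ), Real.smoothTransition (2 - 2 * u) = ct := rfl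
    have h3 : (e ^ 2) ≠ 0 := (pow_pos he 2).ne'
    have h4 : ct ≠ 0 := ct_pos.ne'
    calc Real.pi * ((ct * e ^ 2)⁻¹ * (e ^ 2 * ∫ u in Ioi (0 : ℝ), Real.smoothTransition (2 - 2 * u)))
        = (ct * e ^ 2)⁻¹ * e ^ 2 *
          (Real.pi * ∫ u in Ioi (0 : ℝ), Real.smoothTransition (2 - 2 * u)) := by ring
      _ = 1 := by
          rw [h2]
          field_simp

/-- Derivatives of the smooth transition are bounded. -/
theorem st_bd : ∃ C : ℝ, 0 ≤ C ∧ ∀ i ≤ 3, ∀ x : ℝ,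
    ‖iteratedFDeriv ℝ i Real.smoothTransition x‖ ≤ C := by
  have h1 : ∀ i : ℕ, ∃ C : ℝ, 0 ≤ C ∧ ∀ x : ℝ,
      ‖iteratedFDeriv ℝ i Real.smoothTransition x‖ ≤ C := by
    intro i
    have hc : Continuous (iteratedFDeriv ℝ i Real.smoothTransition) :=
      (Real.smoothTransition.contDiff (n := ⊤)).continuous_iteratedFDeriv (mod_cast le_top)
    obtain ⟨C, hC⟩ := (isCompact_Icc (a := (0 : ℝ)) (b := 1)).exists_bound_of_continuousOn
      hc.continuousOn
    have hk : ∀ (a : ℝ) (x : ℝ), ‖a‖ ≤ 1 → Real.smoothTransition =ᶠ[𝓝 x] (fun _ => a) →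
        ‖iteratedFDeriv ℝ i Real.smoothTransition x‖ ≤ 1 := by
      intro a x ha h
      rw [(h.iteratedFDeriv ℝ i).eq_of_nhds]
      rcases eq_or_ne i 0 with rfl | hi
      · rw [norm_iteratedFDeriv_zero]
        exact ha
      · rw [iteratedFDeriv_const_of_ne hi]
        simp
    refine ⟨max 1 C, le_max_of_le_left zero_le_one, fun x => ?_⟩
    rcases lt_or_ge x 0 with h0 | h0
    · refine (hk 0 x (by simp) ?_).trans (le_max_left _ _)
      filter_upwards [Iio_mem_nhds h0] with y hy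
      exact Real.smoothTransition.zero_of_nonpos (le_of_lt hy)
    · rcases le_or_gt x 1 with h2 | h2
      · exact (hC x ⟨h0, h2⟩).trans (le_max_right _ _)
      · refine (hk 1 x (by simp) ?_).trans (le_max_left _ _)
        filter_upwards [Ioi_mem_nhds h2] with y hy
        exact Real.smoothTransition.one_of_one_le (le_of_lt hy)
  choose C h0 hC using h1
  refine ⟨∑ i ∈ Finset.range 4, C i, Finset.sum_nonneg fun i _ => h0 i, fun i hi x => ?_⟩
  exact (hC i x).trans (Finset.single_le_sum (f := C) (fun j _ => h0 j)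
    (Finset.mem_range.2 (by omega)))

/-! ### The function `u` in the plane -/

/-- `u` is a linear combination of the components of this function -/
def Ga (w : ℂ) : Fin 4 → ℝ := ![(w.re ^ 2 + w.im ^ 2) / w.im, w.re / w.im, 1 / w.im, 1]

theorem H0_open : IsOpen H0 := isOpen_lt continuous_const Complex.continuous_im

theorem Ga_smooth : ContDiffOn ℝ ∞ Ga H0 := by
  have hr : ContDiffOn ℝ ∞ (fun w : ℂ => w.re) H0 := Complex.reCLM.contDiff.contDiffOn
  have hi : ContDiffOn ℝ ∞ (fun w : ℂ => w.im) H0 := Complex.imCLM.contDiff.contDiffOn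
  have hne : ∀ w ∈ H0, w.im ≠ 0 := fun w hw => ne_of_gt hw
  rw [contDiffOn_pi]
  intro k
  fin_cases k
  · exact ((hr.pow 2).add (hi.pow 2)).div hi hne
  · exact hr.div hi hne
  · exact contDiffOn_const.div hi hne
  · exact contDiffOn_const

/-- the linear functional -/
def Li (z : ℍ) (e : ℝ) : (Fin 4 → ℝ) →L[ℝ] ℝ :=
  (-(2 / e ^ 2 * (1 / z.im))) • ContinuousLinearMap.proj 0 +
    (2 / e ^ 2 * (2 * z.re / z.im)) • ContinuousLinearMap.proj 1 +
    (-(2 / e ^ 2 * ((z.re ^ 2 + z.im ^ 2) / z.im))) • ContinuousLinearMap.proj 2 +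
    (2 + 2 / e ^ 2 * 2) • ContinuousLinearMap.proj 3

theorem Li_apply (z : ℍ) (e : ℝ) (x : Fin 4 → ℝ) : Li z e x =
    -(2 / e ^ 2 * (1 / z.im)) * x 0 + 2 / e ^ 2 * (2 * z.re / z.im) * x 1 +
    -(2 / e ^ 2 * ((z.re ^ 2 + z.im ^ 2) / z.im)) * x 2 + (2 + 2 / e ^ 2 * 2) * x 3 := rfl

theorem norm_sq (z w : ℂ) : ‖z - w‖ ^ 2 = (z.re - w.re) ^ 2 + (z.im - w.im) ^ 2 := by
  rw [Complex.sq_norm, Complex.normSq_apply, Complex.sub_re, Complex.sub_im]
  ring

theorem Li_Ga (z : ℍ) {e : ℝ} (he : 0 < e) {w : ℂ} (hw : 0 < w.im) :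
    Li z e (Ga w) = 2 - 2 * (‖(z : ℂ) - w‖ ^ 2 / (z.im * w.im) / e ^ 2) := by
  have h1 : z.im ≠ 0 := z.im_pos.ne'
  have h2 : w.im ≠ 0 := hw.ne'
  have h3 : e ≠ 0 := he.ne'
  rw [Li_apply, norm_sq]
  have e0 : Ga w 0 = (w.re ^ 2 + w.im ^ 2) / w.im := rfl
  have e1 : Ga w 1 = w.re / w.im := rfl
  have e2 : Ga w 2 = 1 / w.im := rfl
  have e3 : Ga w 3 = 1 := rfl
  rw [e0, e1, e2, e3, UpperHalfPlane.coe_re, UpperHalfPlane.coe_im]
  field_simp
  ring

theorem Li_norm {m M : ℝ} (hm : 0 < m) (hM : 0 ≤ M) {z : ℍ} (h1 : m ≤ z.im) (h2 : z.im ≤ M)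
    (h3 : |z.re| ≤ M) {e : ℝ} (he : 0 < e) (he1 : e ≤ 1) :
    ‖Li z e‖ ≤ (6 + 2 / m + 4 * M / m + 4 * M ^ 2 / m) / e ^ 2 := by
  have he2 : 0 < e ^ 2 := pow_pos he 2
  have hee : e ^ 2 ≤ 1 := pow_le_one₀ he.le he1
  have hz := z.im_pos
  have hinv : 1 / z.im ≤ 1 / m := one_div_le_one_div_of_le hm h1
  have hi0 : 0 < 1 / z.im := one_div_pos.2 hz
  have hC : 0 ≤ (6 + 2 / m + 4 * M / m + 4 * M ^ 2 / m) / e ^ 2 := by positivity
  refine ContinuousLinearMap.opNorm_le_bound _ hC fun x => ?_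
  have hx : ∀ i, |x i| ≤ ‖x‖ := fun i => norm_le_pi_norm x i
  have hn : 0 ≤ ‖x‖ := norm_nonneg x
  rw [Li_apply, Real.norm_eq_abs]
  have t0 : |-(2 / e ^ 2 * (1 / z.im)) * x 0| ≤ 2 / e ^ 2 * (1 / m) * ‖x‖ := by
    rw [abs_mul, abs_neg, abs_of_pos (by positivity)]
    exact mul_le_mul (mul_le_mul_of_nonneg_left hinv (by positivity)) (hx 0) (abs_nonneg _)
      (by positivity)
  have t1 : |2 / e ^ 2 * (2 * z.re / z.im) * x 1| ≤ 2 / e ^ 2 * (2 * M * (1 / m)) * ‖x‖ := by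
    rw [abs_mul, abs_mul, abs_of_pos (by positivity : 0 < 2 / e ^ 2), abs_div, abs_mul, abs_two,
      abs_of_pos hz]
    refine mul_le_mul (mul_le_mul_of_nonneg_left ?_ (by positivity)) (hx 1) (abs_nonneg _)
      (by positivity)
    rw [div_eq_mul_one_div]
    exact mul_le_mul (by linarith) hinv hi0.le (by positivity)
  have t2 : |-(2 / e ^ 2 * ((z.re ^ 2 + z.im ^ 2) / z.im)) * x 2| ≤
      2 / e ^ 2 * (2 * M ^ 2 * (1 / m)) * ‖x‖ := by
    rw [abs_mul, abs_neg, abs_of_nonneg (by positivity)]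
    refine mul_le_mul (mul_le_mul_of_nonneg_left ?_ (by positivity)) (hx 2) (abs_nonneg _)
      (by positivity)
    rw [div_eq_mul_one_div]
    refine mul_le_mul ?_ hinv hi0.le (by positivity)
    have h4 : z.re ^ 2 ≤ M ^ 2 := by
      rw [← sq_abs z.re]
      exact pow_le_pow_left₀ (abs_nonneg _) h3 2
    have h5 : z.im ^ 2 ≤ M ^ 2 := pow_le_pow_left₀ hz.le h2 2
    linarith
  have t3 : |(2 + 2 / e ^ 2 * 2) * x 3| ≤ (6 / e ^ 2) * ‖x‖ := by
    rw [abs_mul, abs_of_pos (by positivity)]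
    refine mul_le_mul ?_ (hx 3) (abs_nonneg _) (by positivity)
    have h6 : 2 ≤ 2 / e ^ 2 := by
      rw [le_div_iff₀ he2]
      linarith
    have h7 : 6 / e ^ 2 = 2 / e ^ 2 + 2 / e ^ 2 * 2 := by ring
    linarith
  have hs := abs_add_le (-(2 / e ^ 2 * (1 / z.im)) * x 0 + 2 / e ^ 2 * (2 * z.re / z.im) * x 1 +
    -(2 / e ^ 2 * ((z.re ^ 2 + z.im ^ 2) / z.im)) * x 2) ((2 + 2 / e ^ 2 * 2) * x 3)
  have hs1 := abs_add_le (-(2 / e ^ 2 * (1 / z.im)) * x 0 + 2 / e ^ 2 * (2 * z.re / z.im) * x 1)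
    (-(2 / e ^ 2 * ((z.re ^ 2 + z.im ^ 2) / z.im)) * x 2)
  have hs2 := abs_add_le (-(2 / e ^ 2 * (1 / z.im)) * x 0) (2 / e ^ 2 * (2 * z.re / z.im) * x 1)
  have hfin : 2 / e ^ 2 * (1 / m) * ‖x‖ + 2 / e ^ 2 * (2 * M * (1 / m)) * ‖x‖ +
      2 / e ^ 2 * (2 * M ^ 2 * (1 / m)) * ‖x‖ + (6 / e ^ 2) * ‖x‖ =
      (6 + 2 / m + 4 * M / m + 4 * M ^ 2 / m) / e ^ 2 * ‖x‖ := by
    have h8 : m ≠ 0 := hm.ne'
    field_simp
    ring
  linarith

/-! ### The support -/

theorem hk_supp {e : ℝ} (he : 0 < e) (he1 : e ≤ 1 / 4) {z : ℍ} {w : ℂ}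
    (h : hk (sk e) z w ≠ 0) : z.im / 2 ≤ w.im ∧ ‖(z : ℂ) - w‖ ≤ z.im := by
  have hz := z.im_pos
  have he2 : 0 < e ^ 2 := pow_pos he 2
  have hee : e ^ 2 ≤ 1 / 16 := by nlinarith
  unfold hk at h
  split_ifs at h with hw
  · have h1 : ‖(z : ℂ) - w‖ ^ 2 / (z.im * w.im) < e ^ 2 := by
      by_contra hc
      exact h ((sk_ker he).supp _ (not_lt.1 hc))
    rw [div_lt_iff₀ (mul_pos hz hw)] at h1
    have h2 := norm_sq (z : ℂ) w
    rw [UpperHalfPlane.coe_re, UpperHalfPlane.coe_im] at h2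
    have h3 : e ^ 2 * (z.im * w.im) ≤ 1 / 16 * (z.im * w.im) :=
      mul_le_mul_of_nonneg_right hee (mul_pos hz hw).le
    have h4 : (z.im - w.im) ^ 2 ≤ 1 / 16 * (z.im * w.im) := by
      nlinarith [sq_nonneg (z.re - w.re)]
    have h5 : z.im / 2 ≤ w.im := by
      by_contra hc
      push Not at hc
      nlinarith
    have h6 : w.im ≤ 2 * z.im := by
      by_contra hc
      push Not at hc
      nlinarith
    refine ⟨h5, ?_⟩
    refine abs_le_of_sq_le_sq' ?_ hz.le |>.2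
    nlinarith
  · exact absurd rfl h

end SkM

open SkM in
theorem stmtSk : StmtSk := by
  refine ⟨ct_pos, ⟨1 / ct, (one_div_pos.2 ct_pos).le, fun e he => sk_ker he⟩, ?_⟩
  intro K hK
  -- bounds on `K`
  obtain ⟨m, hm0, hm⟩ : ∃ m : ℝ, 0 < m ∧ ∀ z ∈ K, m ≤ z.im := by
    rcases K.eq_empty_or_nonempty with rfl | hne
    · exact ⟨1, one_pos, fun z hz => absurd hz (notMem_empty z)⟩
    · obtain ⟨z, hz, h⟩ := hK.exists_isMinOn hne UpperHalfPlane.continuous_im.continuousOn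
      exact ⟨z.im, z.im_pos, fun w hw => h hw⟩
  obtain ⟨M, hM⟩ := hK.exists_bound_of_continuousOn
    (f := fun z : ℍ => (z : ℂ)) UpperHalfPlane.continuous_coe.continuousOn
  set M' := max M 0 with hM'
  have hM0 : 0 ≤ M' := le_max_right _ _
  have hzM : ∀ z ∈ K, ‖(z : ℂ)‖ ≤ M' := fun z hz => (hM z hz).trans (le_max_left _ _)
  have hzi : ∀ z ∈ K, z.im ≤ M' := fun z hz =>
    ((le_abs_self _).trans (Complex.abs_im_le_norm (z : ℂ))).trans (hzM z hz)
  have hzr : ∀ z ∈ K, |z.re| ≤ M' := fun z hz =>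
    (Complex.abs_re_le_norm (z : ℂ)).trans (hzM z hz)
  set K₀ : Set ℂ := {w : ℂ | m / 2 ≤ w.im} ∩ Metric.closedBall 0 (2 * M') with hK₀
  have hK₀c : IsCompact K₀ := (isCompact_closedBall (0 : ℂ) (2 * M')).inter_left
    (isClosed_le continuous_const Complex.continuous_im)
  have hK₀H : K₀ ⊆ H0 := fun w hw => lt_of_lt_of_le (half_pos hm0) hw.1
  have hsupp : ∀ e : ℝ, 0 < e → e ≤ 1 / 4 → ∀ z ∈ K, ∀ w : ℂ, hk (sk e) z w ≠ 0 → w ∈ K₀ := by
    intro e he he1 z hz w hw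
    obtain ⟨h1, h2⟩ := hk_supp he he1 hw
    refine ⟨?_, ?_⟩
    · have := hm z hz
      show m / 2 ≤ w.im
      linarith
    · rw [mem_closedBall_zero_iff]
      have h3 : ‖w‖ ≤ ‖(z : ℂ)‖ + ‖(z : ℂ) - w‖ := by
        have h4 : w = (z : ℂ) - ((z : ℂ) - w) := by ring
        calc ‖w‖ = ‖(z : ℂ) - ((z : ℂ) - w)‖ := by rw [← h4]
          _ ≤ _ := norm_sub_le _ _
      have := hzM z hz
      have := hzi z hz
      linarith
  have hts : ∀ e : ℝ, 0 < e → e ≤ 1 / 4 → ∀ z ∈ K, tsupport (hk (sk e) z) ⊆ K₀ := by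
    intro e he he1 z hz
    exact closure_minimal (fun w hw => hsupp e he he1 z hz w hw) hK₀c.isClosed
  -- bounds for the derivatives
  obtain ⟨CT, hCT0, hCT⟩ := st_bd
  have hud : UniqueDiffOn ℝ H0 := H0_open.uniqueDiffOn
  obtain ⟨DG, hDG0, hDG⟩ : ∃ D : ℝ, 0 ≤ D ∧ ∀ i ≤ 3, ∀ w ∈ K₀,
      ‖iteratedFDerivWithin ℝ i Ga H0 w‖ ≤ D := by
    have h1 : ∀ i : ℕ, ∃ D : ℝ, 0 ≤ D ∧ ∀ w ∈ K₀, ‖iteratedFDerivWithin ℝ i Ga H0 w‖ ≤ D := by
      intro i
      have hc : ContinuousOn (iteratedFDerivWithin ℝ i Ga H0) K₀ :=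
        (Ga_smooth.continuousOn_iteratedFDerivWithin (mod_cast le_top) hud).mono hK₀H
      obtain ⟨D, hD⟩ := hK₀c.exists_bound_of_continuousOn hc
      exact ⟨max D 0, le_max_right _ _, fun w hw => (hD w hw).trans (le_max_left _ _)⟩
    choose D h0 hD using h1
    refine ⟨∑ i ∈ Finset.range 4, D i, Finset.sum_nonneg fun i _ => h0 i, fun i hi w hw => ?_⟩
    exact (hD i w hw).trans (Finset.single_le_sum (f := D) (fun j _ => h0 j)
      (Finset.mem_range.2 (by omega)))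
  set CL : ℝ := 6 + 2 / m + 4 * M' / m + 4 * M' ^ 2 / m with hCL
  have hCL0 : 0 ≤ CL := by positivity
  set D₁ : ℝ := CL * DG + 1 with hD₁
  have hD₁1 : 1 ≤ D₁ := by
    have := mul_nonneg hCL0 hDG0
    linarith
  have hct := ct_pos
  -- the local formula
  have hloc : ∀ e : ℝ, 0 < e → ∀ z : ℍ, EqOn (hk (sk e) z)
      ((fun x : ℝ => (ct * e ^ 2)⁻¹ • Real.smoothTransition x) ∘ ((Li z e) ∘ Ga)) H0 := by
    intro e he z w hw
    have hw' : 0 < w.im := hw
    simp only [Function.comp_apply]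
    rw [Li_Ga z he hw', smul_eq_mul, ← div_eq_inv_mul]
    unfold hk
    rw [if_pos hw']
    rfl
  have hsm : ∀ e : ℝ, ContDiff ℝ ∞ (fun x : ℝ => (ct * e ^ 2)⁻¹ • Real.smoothTransition x) :=
    fun e => (Real.smoothTransition.contDiff (n := ⊤)).const_smul _
  have hLG : ∀ (e : ℝ) (z : ℍ), ContDiffOn ℝ ∞ ((Li z e) ∘ Ga) H0 := fun e z =>
    (Li z e).contDiff.comp_contDiffOn Ga_smooth
  refine ⟨K₀, 6 * (CT / ct) * D₁ ^ 3, 1 / 4, hK₀c, hK₀H, by positivity, by norm_num, by norm_num,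
    ?_⟩
  intro e he he1 z hz
  have he1' : e ≤ 1 := he1.trans (by norm_num)
  have he2 : 0 < e ^ 2 := pow_pos he 2
  refine ⟨?_, hts e he he1 z hz, ?_⟩
  · rw [contDiff_iff_contDiffAt]
    intro w
    by_cases hw : w ∈ K₀
    · have h1 : ContDiffOn ℝ ∞ (hk (sk e) z) H0 :=
        ((hsm e).comp_contDiffOn (hLG e z)).congr (hloc e he z)
      exact h1.contDiffAt (H0_open.mem_nhds (hK₀H hw))
    · have h1 : hk (sk e) z =ᶠ[𝓝 w] fun _ => 0 := by
        filter_upwards [hK₀c.isClosed.isOpen_compl.mem_nhds hw] with w' hw'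
        by_contra hne
        exact hw' (hsupp e he he1 z hz w' hne)
      exact contDiffAt_const.congr_of_eventuallyEq h1
  · intro j hj w
    have hR : 0 ≤ 6 * (CT / ct) * D₁ ^ 3 * e⁻¹ ^ 8 := by positivity
    by_cases hw : w ∈ K₀
    · have hwH := hK₀H hw
      rw [← iteratedFDerivWithin_of_isOpen j H0_open hwH,
        iteratedFDerivWithin_congr (hloc e he z) hwH]
      have hD1e : 1 ≤ D₁ / e ^ 2 := by
        rw [one_le_div he2]
        exact (pow_le_one₀ he.le he1').trans hD₁1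
      have key := norm_iteratedFDerivWithin_comp_le (𝕜 := ℝ) (n := j) (N := ∞)
        (g := fun x : ℝ => (ct * e ^ 2)⁻¹ • Real.smoothTransition x) (f := (Li z e) ∘ Ga)
        (s := H0) (t := univ) (x := w) (hsm e).contDiffOn (hLG e z) (mod_cast le_top)
        uniqueDiffOn_univ hud (mapsTo_univ _ _) hwH (C := (ct * e ^ 2)⁻¹ * CT)
        (D := D₁ / e ^ 2) ?_ ?_
      · refine key.trans ?_
        have hf : ((Nat.factorial j : ℕ) : ℝ) ≤ 6 := by
          have : Nat.factorial j ≤ Nat.factorial 3 := Nat.factorial_le hj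
          exact_mod_cast this
        have hp : (D₁ / e ^ 2) ^ j ≤ (D₁ / e ^ 2) ^ 3 := pow_le_pow_right₀ hD1e hj
        have h0 : 0 ≤ (ct * e ^ 2)⁻¹ * CT := by positivity
        calc ((Nat.factorial j : ℕ) : ℝ) * ((ct * e ^ 2)⁻¹ * CT) * (D₁ / e ^ 2) ^ j
            ≤ 6 * ((ct * e ^ 2)⁻¹ * CT) * (D₁ / e ^ 2) ^ 3 :=
              mul_le_mul (mul_le_mul_of_nonneg_right hf h0) hp (by positivity) (by positivity)
          _ = 6 * (CT / ct) * D₁ ^ 3 * e⁻¹ ^ 8 := by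
              have h3 : e ≠ 0 := he.ne'
              have h4 : ct ≠ 0 := hct.ne'
              field_simp
      · intro i hi
        rw [iteratedFDerivWithin_univ]
        have h1 : iteratedFDeriv ℝ i (fun x : ℝ => (ct * e ^ 2)⁻¹ • Real.smoothTransition x)
            (((Li z e) ∘ Ga) w) = (ct * e ^ 2)⁻¹ •
              iteratedFDeriv ℝ i Real.smoothTransition (((Li z e) ∘ Ga) w) :=
          iteratedFDeriv_const_smul_apply' (Real.smoothTransition.contDiff (n := i)).contDiffAt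
        rw [h1, norm_smul, Real.norm_of_nonneg (by positivity)]
        exact mul_le_mul_of_nonneg_left (hCT i (hi.trans hj) _) (by positivity)
      · intro i hi1 hij
        have h1 := (Li z e).norm_iteratedFDerivWithin_comp_left (N := ∞)
          (Ga_smooth w hwH) hud hwH (n := i) (mod_cast le_top)
        have h2 := Li_norm hm0 hM0 (hm z hz) (hzi z hz) (hzr z hz) he he1'
        have h3 := hDG i (hij.trans hj) w hw
        calc ‖iteratedFDerivWithin ℝ i ((Li z e) ∘ Ga) H0 w‖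
            ≤ CL / e ^ 2 * DG := h1.trans (mul_le_mul h2 h3 (norm_nonneg _) (by positivity))
          _ ≤ D₁ / e ^ 2 := by
              rw [div_mul_eq_mul_div]
              exact div_le_div_of_nonneg_right (by linarith) he2.le
          _ ≤ (D₁ / e ^ 2) ^ i := le_self_pow₀ hD1e (by omega)
    · have h1 : iteratedFDeriv ℝ j (hk (sk e) z) w = 0 := by
        by_contra hne
        have h2 : w ∈ tsupport (iteratedFDeriv ℝ j (hk (sk e) z)) :=
          subset_closure (Function.mem_support.2 hne)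
        exact hw (hts e he he1 z hz (tsupport_iteratedFDeriv_subset j h2))
      rw [h1, norm_zero]
      exact hR

end

end Pool.Agent.A54.Hp
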