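import Pool.Agent.Lib.MP_a54f13_nt.Hp.SpecC

/-!
# Module SmQ: the dyadic sum of `C_w`
-/

set_option autoImplicit false

namespace Pool.Agent.A54.Hp

open MeasureTheory Filter Topology Set
open scoped ENNReal

namespace SmQM

lemma pow_rpow (c : ℝ) (j : ℕ) : ((2 : ℝ) ^ j) ^ c = ((2 : ℝ) ^ c) ^ j := by
  rw [← Real.rpow_natCast, ← Real.rpow_natCast, ← Real.rpow_mul (by norm_num),
    ← Real.rpow_mul (by norm_num), mul_comm]

lemma term (c C x : ℝ) (hc : c ≤ 1) (hC : 1 ≤ C) (hx : 0 < x) :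
    x⁻¹ * (C * x) ^ (1 + c) ≤ C ^ 2 * x ^ c := by
  have h1 : (C * x) ^ (1 + c) = C ^ (1 + c) * (x * x ^ c) := by
    rw [Real.mul_rpow (by linarith) hx.le, Real.rpow_add hx 1 c, Real.rpow_one]
  have h2 : C ^ (1 + c) ≤ C ^ 2 := by
    have h3 := Real.rpow_le_rpow_of_exponent_le hC (show 1 + c ≤ (2 : ℝ) by linarith)
    have h4 : C ^ (2 : ℝ) = C ^ 2 := by
      have h5 := Real.rpow_natCast C 2
      rw [← h5]
      norm_num
    rw [h4] at h3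
    exact h3
  have h3 : 0 < x ^ c := Real.rpow_pos_of_pos hx c
  rw [h1]
  have h4 : x⁻¹ * (C ^ (1 + c) * (x * x ^ c)) = C ^ (1 + c) * x ^ c := by
    field_simp
  rw [h4]
  exact mul_le_mul_of_nonneg_right h2 h3.le

lemma total (c C a θ : ℝ) (J : ℕ) (hc : 0 < c) (ha : 0 < a) (hJ : 2 ^ J * a ≤ 2 * θ) :
    ∑ j ∈ Finset.range (J + 1), C ^ 2 * (2 ^ j * a) ^ c ≤
      C ^ 2 * ((2 : ℝ) ^ c / ((2 : ℝ) ^ c - 1)) * (2 : ℝ) ^ c * θ ^ c := by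
  have hq : 1 < (2 : ℝ) ^ c := Real.one_lt_rpow (by norm_num) hc
  have hθ : 0 < θ := by
    have : 0 < (2 : ℝ) ^ J * a := by positivity
    linarith
  have h1 : ∀ j : ℕ, ((2 : ℝ) ^ j * a) ^ c = ((2 : ℝ) ^ c) ^ j * a ^ c := fun j => by
    rw [Real.mul_rpow (by positivity) ha.le, pow_rpow]
  have h2 : ((2 : ℝ) ^ c) ^ J * a ^ c ≤ (2 : ℝ) ^ c * θ ^ c := by
    rw [← h1 J, ← Real.mul_rpow (by norm_num) hθ.le]
    exact Real.rpow_le_rpow (by positivity) hJ hc.le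
  have h3 : ∑ j ∈ Finset.range (J + 1), C ^ 2 * (2 ^ j * a) ^ c =
      C ^ 2 * a ^ c * ∑ j ∈ Finset.range (J + 1), ((2 : ℝ) ^ c) ^ j := by
    rw [Finset.mul_sum]
    refine Finset.sum_congr rfl fun j _ => ?_
    rw [h1]
    ring
  rw [h3, geom_sum_eq hq.ne']
  set q : ℝ := (2 : ℝ) ^ c with hqd
  have hq1 : 0 < q - 1 := by linarith
  have ha' : 0 < a ^ c := Real.rpow_pos_of_pos ha c
  have h4 : (q ^ (J + 1) - 1) / (q - 1) ≤ q ^ J * (q / (q - 1)) := by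
    rw [← mul_div_assoc, ← pow_succ]
    exact div_le_div_of_nonneg_right (by linarith) hq1.le
  calc C ^ 2 * a ^ c * ((q ^ (J + 1) - 1) / (q - 1))
      ≤ C ^ 2 * a ^ c * (q ^ J * (q / (q - 1))) :=
        mul_le_mul_of_nonneg_left h4 (by positivity)
    _ = C ^ 2 * (q / (q - 1)) * (q ^ J * a ^ c) := by ring
    _ ≤ C ^ 2 * (q / (q - 1)) * (q * θ ^ c) :=
        mul_le_mul_of_nonneg_left h2 (by positivity)
    _ = C ^ 2 * (q / (q - 1)) * q * θ ^ c := by ring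

end SmQM

open SmQM in
theorem stmtSmQ : StmtSmQ := by
  intro c C hc hc1 hC
  have hq : 1 < (2 : ℝ) ^ c := Real.one_lt_rpow (by norm_num) hc
  have hq1 : 0 < (2 : ℝ) ^ c - 1 := by linarith
  refine ⟨C ^ 2 * ((2 : ℝ) ^ c / ((2 : ℝ) ^ c - 1)) * (2 : ℝ) ^ c, by positivity, ?_⟩
  intro v C₀ K l f t N b hD R a θ J hR ha hJ hv
  have ht : 0 < t := by linarith [hD.one_le]
  have ha0 : 0 < a := lt_of_lt_of_le (Real.rpow_pos_of_pos ht _) ha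
  have hx : ∀ j : ℕ, 0 < (2 : ℝ) ^ j * a := fun j => by positivity
  have hterm : ∀ j ∈ Finset.range (J + 1),
      ENNReal.ofReal ((2 ^ j * a)⁻¹) * Cw (Pb f t N b) R (C * (2 ^ j * a)) ≤
        ENNReal.ofReal (C ^ 2 * (2 ^ j * a) ^ c) := by
    intro j hj
    have hj' : j ≤ J := Nat.lt_succ_iff.1 (Finset.mem_range.1 hj)
    have h1 : a ≤ 2 ^ j * a := le_mul_of_one_le_left ha0.le (one_le_pow₀ (by norm_num))
    have h2 : (2 : ℝ) ^ j * a ≤ 2 ^ J * a :=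
      mul_le_mul_of_nonneg_right (pow_le_pow_right₀ (by norm_num) hj') ha0.le
    have h3 : (2 : ℝ) ^ j * a ≤ C * (2 ^ j * a) := le_mul_of_one_le_left (hx j).le hC
    have h4 := hD.cw R hR (C * (2 ^ j * a)) (ha.trans (h1.trans h3))
      (le_trans (mul_le_mul_of_nonneg_left (h2.trans hJ) (by linarith)) hv)
    calc ENNReal.ofReal ((2 ^ j * a)⁻¹) * Cw (Pb f t N b) R (C * (2 ^ j * a))
        ≤ ENNReal.ofReal ((2 ^ j * a)⁻¹) * ENNReal.ofReal ((C * (2 ^ j * a)) ^ (1 + c)) :=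
          mul_le_mul' le_rfl h4
      _ = ENNReal.ofReal ((2 ^ j * a)⁻¹ * (C * (2 ^ j * a)) ^ (1 + c)) :=
          (ENNReal.ofReal_mul (inv_nonneg.2 (hx j).le)).symm
      _ ≤ ENNReal.ofReal (C ^ 2 * (2 ^ j * a) ^ c) :=
          ENNReal.ofReal_le_ofReal (term c C _ hc1 hC (hx j))
  calc ∑ j ∈ Finset.range (J + 1), ENNReal.ofReal ((2 ^ j * a)⁻¹) *
        Cw (Pb f t N b) R (C * (2 ^ j * a))
      ≤ ∑ j ∈ Finset.range (J + 1), ENNReal.ofReal (C ^ 2 * (2 ^ j * a) ^ c) :=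
        Finset.sum_le_sum hterm
    _ = ENNReal.ofReal (∑ j ∈ Finset.range (J + 1), C ^ 2 * (2 ^ j * a) ^ c) :=
        (ENNReal.ofReal_sum_of_nonneg fun j _ =>
          mul_nonneg (sq_nonneg C) (Real.rpow_nonneg (hx j).le c)).symm
    _ ≤ ENNReal.ofReal (C ^ 2 * ((2 : ℝ) ^ c / ((2 : ℝ) ^ c - 1)) * (2 : ℝ) ^ c * θ ^ c) :=
        ENNReal.ofReal_le_ofReal (total c C a θ J hc ha0 hJ)

end Pool.Agent.A54.Hp
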