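import Pool.Agent.Lib.MP_a54f13_nt.Hp.SpecN
import Pool.Agent.Lib.MP_a54f13_nt.Hp.Nm

/-!
Package `Hp`, part N, module `Sin`: the masses of single tubes.
-/

set_option autoImplicit false

namespace Pool.Agent.A54.Hp

open MeasureTheory Filter Topology Set
open scoped ContDiff ComplexConjugate UpperHalfPlane MatrixGroups ENNReal
open Pool.Agent.A54.Dyn (G fl base ze io mk4 dom)
open Pool.Agent.A54.Av (Mat NonSc)

namespace SinN

lemma continuous_xi (i : Fin 3) : Continuous (fun g : G => xi g i) := by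
  have h00 := Dyn.continuous_entry 0 0
  have h01 := Dyn.continuous_entry 0 1
  have h10 := Dyn.continuous_entry 1 0
  have h11 := Dyn.continuous_entry 1 1
  fin_cases i
  · exact (h00.mul h11).add (h01.mul h10)
  · exact (h00.mul h01).neg
  · exact h10.mul h11

lemma meas_Tb (R : ℝ) (ζ : Fin 3 → ℝ) (w : ℝ) : MeasurableSet (Tb R ζ w) := by
  have h1 : IsClosed (Om R) := by
    have : Om R = ⋂ i : Fin 2, ⋂ j : Fin 2, {g : G | |g i j| ≤ R} := by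
      ext g
      simp [Om]
    rw [this]
    exact isClosed_iInter fun i => isClosed_iInter fun j =>
      isClosed_le (Dyn.continuous_entry i j).abs continuous_const
  have h2 : Tb R ζ w = Om R ∩ ⋂ i : Fin 3, {g : G | |xi g i - ζ i| ≤ w} := by
    ext g
    simp [Tb]
  rw [h2]
  exact (h1.inter (isClosed_iInter fun i =>
    isClosed_le ((continuous_xi i).sub continuous_const).abs continuous_const)).measurableSet

/-- the primes of `Pm M` are at most `2M` -/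
lemma Pm_le {M : ℝ} (hM : 1 ≤ M) {p : ℕ} (hp : p ∈ Pm M) : (p : ℝ) ≤ 2 * M := by
  rw [Pm, Finset.mem_filter, Finset.mem_Ioc] at hp
  exact (Nat.le_floor_iff (by linarith)).1 hp.1.2

lemma Pm_prime {M : ℝ} {p : ℕ} (hp : p ∈ Pm M) : p.Prime := by
  rw [Pm, Finset.mem_filter] at hp
  exact hp.2

lemma Pm_card {M : ℝ} (hM : 1 ≤ M) : ((Pm M).card : ℝ) ≤ 2 * M := by
  have h1 : (Pm M).card ≤ ⌊2 * M⌋₊ := by
    refine (Finset.card_filter_le _ _).trans ?_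
    rw [Nat.card_Ioc]
    exact Nat.sub_le _ _
  calc ((Pm M).card : ℝ) ≤ (⌊2 * M⌋₊ : ℕ) := by exact_mod_cast h1
    _ ≤ 2 * M := Nat.floor_le (by linarith)

/-- the matrix `x₀⁻¹ s x₀` -/
lemma cj_eq {s : Mat} (hs : 0 < s.det) (x₀ x : G) (i j : Fin 2) :
    cj x₀ x₀ s i j = √((s.det : ℤ) : ℝ) * ((x₀⁻¹ * (nm s * x)) * (x₀⁻¹ * x)⁻¹ : G) i j := by
  have h1 : ((x₀⁻¹ * (nm s * x)) * (x₀⁻¹ * x)⁻¹ : G) = x₀⁻¹ * nm s * x₀ := by group
  have hd : (0 : ℝ) < ((s.det : ℤ) : ℝ) := by exact_mod_cast hs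
  have hne : √((s.det : ℤ) : ℝ) ≠ 0 := (Real.sqrt_pos.mpr hd).ne'
  have h2 : ∀ i j : Fin 2, (s.map (fun a : ℤ => (a : ℝ))) i j = √((s.det : ℤ) : ℝ) * nm s i j := by
    intro i j
    rw [NmM.nm_of hs, Matrix.map_apply, mul_div_cancel₀ _ hne]
  have h3 : s.map (fun a : ℤ => (a : ℝ)) = √((s.det : ℤ) : ℝ) • (nm s).1 := by
    ext i j
    rw [h2 i j]
    rfl
  rw [h1]
  unfold cj
  rw [h3, Matrix.mul_smul, Matrix.smul_mul]
  rfl

/-- entries of a quotient of two elements of a tube -/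
lemma quot_bd {C w : ℝ} (hC : 1 ≤ C) (hw : 0 < w) (hw1 : w ≤ 1) {g h : G} (g00 : |g 0 0| ≤ C) (g11 : |g 1 1| ≤ C)
    (g01 : |g 0 1| ≤ C * w) (g10 : |g 1 0| ≤ C * w) (h00 : |h 0 0| ≤ C) (h11 : |h 1 1| ≤ C)
    (h01 : |h 0 1| ≤ C * w) (h10 : |h 1 0| ≤ C * w) :
    |(g * h⁻¹ : G) 0 0| ≤ 2 * C ^ 2 ∧ |(g * h⁻¹ : G) 1 1| ≤ 2 * C ^ 2 ∧
      |(g * h⁻¹ : G) 0 1| ≤ 2 * C ^ 2 * w ∧ |(g * h⁻¹ : G) 1 0| ≤ 2 * C ^ 2 * w := by
  have hC0 : 0 ≤ C := by linarith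
  have hCw : 0 ≤ C * w := by positivity
  have hww : w * w ≤ 1 := by nlinarith
  have key : ∀ a b c d A B C' D' : ℝ, |a| ≤ A → |b| ≤ B → |c| ≤ C' → |d| ≤ D' → 0 ≤ A → 0 ≤ C' →
      |a * b + c * d| ≤ A * B + C' * D' := by
    intro a b c d A B C' D' ha hb hc hd hA hC'
    refine (abs_add_le _ _).trans ?_
    rw [abs_mul, abs_mul]
    exact add_le_add (mul_le_mul ha hb (abs_nonneg _) hA) (mul_le_mul hc hd (abs_nonneg _) hC')
  refine ⟨?_, ?_, ?_, ?_⟩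
  · rw [Dyn.mul_00, Dyn.inv_00, Dyn.inv_10]
    refine (key _ _ _ _ C C (C * w) (C * w) g00 h11 g01 (by rw [abs_neg]; exact h10) hC0 hCw).trans ?_
    nlinarith [mul_nonneg hC0 hC0]
  · rw [Dyn.mul_11, Dyn.inv_01, Dyn.inv_11]
    refine (key _ _ _ _ (C * w) (C * w) C C g10 (by rw [abs_neg]; exact h01) g11 h00 hCw hC0).trans ?_
    nlinarith [mul_nonneg hC0 hC0]
  · rw [Dyn.mul_01, Dyn.inv_01, Dyn.inv_11]
    refine (key _ _ _ _ C (C * w) (C * w) C g00 (by rw [abs_neg]; exact h01) g01 h00 hC0 hCw).trans ?_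
    nlinarith
  · rw [Dyn.mul_10, Dyn.inv_00, Dyn.inv_10]
    refine (key _ _ _ _ (C * w) C C (C * w) g10 h11 g11 (by rw [abs_neg]; exact h10) hCw hC0).trans ?_
    nlinarith

/-- sums of constants over sets with few elements -/
lemma tsum_le {α : Type} (S : Set α) (X : ℝ≥0∞) (K : ℝ) (hK : ∀ T : Finset α, (∀ s ∈ T, s ∈ S) → (T.card : ℝ) ≤ K) :
    ∑' s : α, S.indicator (fun _ => X) s ≤ ENNReal.ofReal K * X := by
  classical
  rw [ENNReal.tsum_eq_iSup_sum]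
  refine iSup_le fun T => ?_
  have h1 : ∑ s ∈ T, S.indicator (fun _ => X) s = ((T.filter (fun s => s ∈ S)).card : ℝ≥0∞) * X := by
    rw [← nsmul_eq_mul, ← Finset.sum_const, Finset.sum_filter]
    refine Finset.sum_congr rfl fun s _ => ?_
    rw [Set.indicator_apply]
  rw [h1]
  refine mul_le_mul_left ?_ X
  have h2 := hK (T.filter (fun s => s ∈ S)) (fun s hs => (Finset.mem_filter.1 hs).2)
  rw [← ENNReal.ofReal_natCast]
  exact ENNReal.ofReal_le_ofReal h2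

end SinN

open SinN

theorem stmtSin (hTot : StmtTot) (hAI : StmtAI) (hDds : StmtDds) (hCtA : StmtCtA) (hTwo : StmtTwo)
    (hTub : StmtTub) : StmtSin := by
  intro R hR
  obtain ⟨Ct, hCt, hT⟩ := hTot R hR
  obtain ⟨Cu, hCu, hU⟩ := hTub R hR
  have hB : 1 ≤ 4 * Cu ^ 2 := by nlinarith
  obtain ⟨Ca, hCa, hA⟩ := hCtA R (4 * Cu ^ 2) hR hB
  obtain ⟨hD1, hD2⟩ := hDds
  obtain ⟨Cd, hCd, hD⟩ := hD2 R hR
  refine ⟨2 * Ca + 2 * Cd, by linarith, ?_⟩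
  intro l Φ hHE w M hw hM hMw hGd ζ
  have hM0 : 0 < M := by linarith
  have hw1 : w ≤ 1 := by nlinarith
  have hΦ : Continuous Φ := hHE.cont
  rcases Set.eq_empty_or_nonempty (Tb R ζ w) with hemp | ⟨x₀, hx₀⟩
  · rw [hemp]
    unfold ms
    simp
  have hms : MeasurableSet (Tb R ζ w) := meas_Tb R ζ w
  have hsub : Tb R ζ w ⊆ Om R := fun g hg => hg.1
  obtain ⟨X, hX⟩ : ∃ X : ℝ≥0∞, X = ms Φ (Tb R ζ w) := ⟨_, rfl⟩
  have hXtop : X ≠ ⊤ := by
    have h1 : X ≤ ENNReal.ofReal Ct := by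
      rw [hX]
      refine le_trans ?_ (hT l Φ hHE)
      exact lintegral_mono_set hsub
    exact ne_top_of_le_ne_top ENNReal.ofReal_ne_top h1
  have hai := hAI l Φ hHE R (Tb R ζ w) hms hsub (Pm M) (fun p hp => Pm_prime hp)
  have htwo := hTwo M hM (fun s => Dd Φ (Tb R ζ w) (nm s))
  -- the sum over the matrices of determinant p q
  have hcnt : ∑' s : Mat, {s : Mat | ∃ p ∈ Pm M, ∃ q ∈ Pm M, s.det = ((p * q : ℕ) : ℤ)}.indicator
      (fun s => Dd Φ (Tb R ζ w) (nm s)) s ≤ ENNReal.ofReal (Ca * M ^ 2) * X := by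
    refine le_trans (ENNReal.tsum_le_tsum (g := fun s => {s : Mat | (∃ p ∈ Pm M, ∃ q ∈ Pm M,
      s.det = ((p * q : ℕ) : ℤ)) ∧ ∃ x ∈ Tb R ζ w, nm s * x ∈ Tb R ζ w}.indicator (fun _ => X) s) fun s => ?_)
      (tsum_le _ X _ ?_)
    · by_cases h1 : ∃ p ∈ Pm M, ∃ q ∈ Pm M, s.det = ((p * q : ℕ) : ℤ)
      · rw [Set.indicator_of_mem (show s ∈ {s : Mat | ∃ p ∈ Pm M, ∃ q ∈ Pm M, s.det = ((p * q : ℕ) : ℤ)} from h1)]
        by_cases h2 : ∃ x ∈ Tb R ζ w, nm s * x ∈ Tb R ζ w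
        · rw [Set.indicator_of_mem (show s ∈ {s : Mat | (∃ p ∈ Pm M, ∃ q ∈ Pm M,
            s.det = ((p * q : ℕ) : ℤ)) ∧ ∃ x ∈ Tb R ζ w, nm s * x ∈ Tb R ζ w} from ⟨h1, h2⟩), hX]
          exact (hD1 Φ hΦ _ hms (nm s)).2.1
        · rw [(hD1 Φ hΦ _ hms (nm s)).2.2 (fun x hx hx' => h2 ⟨x, hx, hx'⟩)]
          exact zero_le
      · rw [Set.indicator_of_notMem (show s ∉ {s : Mat | ∃ p ∈ Pm M, ∃ q ∈ Pm M,
          s.det = ((p * q : ℕ) : ℤ)} from h1)]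
        exact zero_le
    · intro T hTm
      refine hA x₀ (hsub hx₀) x₀ (hsub hx₀) M hM T fun s hs => ?_
      obtain ⟨⟨p, hp, q, hq, hdet⟩, x, hx, hx'⟩ := hTm s hs
      have hp0 : 0 < p := (Pm_prime hp).pos
      have hq0 : 0 < q := (Pm_prime hq).pos
      have hpos : 0 < s.det := by
        rw [hdet]
        exact_mod_cast Nat.mul_pos hp0 hq0
      obtain ⟨a00, a11, a01, a10⟩ := hU ζ w hw x₀ hx₀ x hx
      obtain ⟨b00, b11, b01, b10⟩ := hU ζ w hw x₀ hx₀ (nm s * x) hx'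
      obtain ⟨c00, c11, c01, c10⟩ := quot_bd hCu hw hw1 b00 b11 b01 b10 a00 a11 a01 a10
      have hsq : √((s.det : ℤ) : ℝ) ≤ 2 * M := by
        refine Real.sqrt_le_iff.2 ⟨by linarith, ?_⟩
        rw [hdet]
        push_cast
        have e1 := Pm_le hM hp
        have e2 := Pm_le hM hq
        have e3 : (0 : ℝ) ≤ p := Nat.cast_nonneg p
        calc (p : ℝ) * q ≤ (2 * M) * (2 * M) := mul_le_mul e1 e2 (Nat.cast_nonneg q) (by linarith)
          _ = (2 * M) ^ 2 := by ring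
      have hs0 : 0 ≤ √((s.det : ℤ) : ℝ) := Real.sqrt_nonneg _
      have hdiag : ∀ y : ℝ, |y| ≤ 2 * Cu ^ 2 → |√((s.det : ℤ) : ℝ) * y| ≤ 4 * Cu ^ 2 * M := by
        intro y hy
        rw [abs_mul, abs_of_nonneg hs0]
        calc √((s.det : ℤ) : ℝ) * |y| ≤ (2 * M) * (2 * Cu ^ 2) := mul_le_mul hsq hy (abs_nonneg _) (by linarith)
          _ = 4 * Cu ^ 2 * M := by ring
      have hoff : ∀ y : ℝ, |y| ≤ 2 * Cu ^ 2 * w → |√((s.det : ℤ) : ℝ) * y| ≤ 4 * Cu ^ 2 := by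
        intro y hy
        rw [abs_mul, abs_of_nonneg hs0]
        calc √((s.det : ℤ) : ℝ) * |y| ≤ (2 * M) * (2 * Cu ^ 2 * w) :=
              mul_le_mul hsq hy (abs_nonneg _) (by linarith)
          _ = 4 * Cu ^ 2 * (M * w) := by ring
          _ ≤ 4 * Cu ^ 2 * 1 := mul_le_mul_of_nonneg_left hMw (by positivity)
          _ = 4 * Cu ^ 2 := by ring
      refine ⟨?_, ?_, ?_, ?_⟩
      · rw [cj_eq hpos x₀ x]; exact hdiag _ c00
      · rw [cj_eq hpos x₀ x]; exact hdiag _ c11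
      · rw [cj_eq hpos x₀ x]; exact hoff _ c01
      · rw [cj_eq hpos x₀ x]; exact hoff _ c10
  -- everything together
  have hgam := hD Φ hΦ (Tb R ζ w) hms hsub
  rw [← hX] at hai hgam ⊢
  have hcard : ((Pm M).card : ℝ≥0∞) ≤ ENNReal.ofReal (2 * M) := by
    rw [← ENNReal.ofReal_natCast]
    exact ENNReal.ofReal_le_ofReal (Pm_card hM)
  have hG : M ^ (999 / 1000 : ℝ) ≤ ∑ p ∈ Pm M, |l p| := by
    have := hGd
    unfold Gd at this
    have e : (1 : ℝ) - 1 / 1000 = 999 / 1000 := by norm_num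
    rwa [e] at this
  have hmain : ENNReal.ofReal (M ^ (999 / 1000 : ℝ)) ^ 2 * X ^ 2 ≤ ENNReal.ofReal ((2 * Ca + 2 * Cd) * M) * X := by
    calc ENNReal.ofReal (M ^ (999 / 1000 : ℝ)) ^ 2 * X ^ 2
        ≤ ENNReal.ofReal (∑ p ∈ Pm M, |l p|) ^ 2 * X ^ 2 := by
          gcongr
      _ ≤ ENNReal.ofReal (2 / M) * (ENNReal.ofReal (Ca * M ^ 2) * X) +
            ENNReal.ofReal (2 * M) * (ENNReal.ofReal Cd * X) := by
          refine hai.trans (add_le_add (htwo.trans ?_) ?_)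
          · gcongr
          · gcongr
      _ = ENNReal.ofReal ((2 * Ca + 2 * Cd) * M) * X := by
          rw [← mul_assoc, ← mul_assoc, ← ENNReal.ofReal_mul (by positivity), ← ENNReal.ofReal_mul (by positivity),
            ← add_mul, ← ENNReal.ofReal_add (by positivity) (by positivity)]
          congr 2
          field_simp
  -- back to real numbers
  obtain ⟨x, hx0, hxX⟩ : ∃ x : ℝ, 0 ≤ x ∧ X = ENNReal.ofReal x :=
    ⟨X.toReal, ENNReal.toReal_nonneg, (ENNReal.ofReal_toReal hXtop).symm⟩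
  rw [hxX] at hmain ⊢
  refine ENNReal.ofReal_le_ofReal ?_
  rcases hx0.eq_or_lt with h0 | h0
  · rw [← h0]
    positivity
  have hMp : 0 ≤ M ^ (999 / 1000 : ℝ) := by positivity
  rw [← ENNReal.ofReal_pow hMp, ← ENNReal.ofReal_pow hx0, ← ENNReal.ofReal_mul (by positivity),
    ← ENNReal.ofReal_mul (by positivity), ENNReal.ofReal_le_ofReal_iff (by positivity)] at hmain
  have h1 : (M ^ (999 / 1000 : ℝ)) ^ 2 * x ≤ (2 * Ca + 2 * Cd) * M := by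
    have h2 : ((M ^ (999 / 1000 : ℝ)) ^ 2 * x) * x ≤ ((2 * Ca + 2 * Cd) * M) * x := by
      calc ((M ^ (999 / 1000 : ℝ)) ^ 2 * x) * x = (M ^ (999 / 1000 : ℝ)) ^ 2 * x ^ 2 := by ring
        _ ≤ _ := hmain
    exact le_of_mul_le_mul_right h2 h0
  have h3 : (M ^ (999 / 1000 : ℝ)) ^ 2 * M ^ (-(998 / 1000) : ℝ) = M := by
    rw [← Real.rpow_natCast, ← Real.rpow_mul hM0.le, ← Real.rpow_add hM0]
    norm_num
  have h4 : 0 < (M ^ (999 / 1000 : ℝ)) ^ 2 := by positivity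
  refine le_of_mul_le_mul_left ?_ h4
  calc (M ^ (999 / 1000 : ℝ)) ^ 2 * x ≤ (2 * Ca + 2 * Cd) * M := h1
    _ = (2 * Ca + 2 * Cd) * ((M ^ (999 / 1000 : ℝ)) ^ 2 * M ^ (-(998 / 1000) : ℝ)) := by rw [h3]
    _ = (M ^ (999 / 1000 : ℝ)) ^ 2 * ((2 * Ca + 2 * Cd) * M ^ (-(998 / 1000) : ℝ)) := by ring

end Pool.Agent.A54.Hp
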