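import Pool.Agent.Lib.MP_a54f13_nt.Hp.SpecL
import Pool.Agent.Lib.MP_a54f13_nt.Hp.Sin

/-!
Package `Hp`, part L, module `SnL`: the masses of single tubes, all widths.
-/

set_option autoImplicit false

namespace Pool.Agent.A54.Hp

open MeasureTheory Filter Topology Set
open scoped ContDiff ComplexConjugate UpperHalfPlane MatrixGroups ENNReal
open Pool.Agent.A54.Dyn (G fl base ze io mk4 dom)
open Pool.Agent.A54.Av (Mat NonSc)

open SinN in
theorem stmtSnL (hTot : StmtTot) (hAIL : StmtAIL) (hDds : StmtDds) (hCtA : StmtCtA) (hTub : StmtTub) :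
    StmtSnL := by
  intro R k hR
  obtain ⟨Ct, hCt, hT⟩ := hTot R hR
  obtain ⟨Cu, hCu, hU⟩ := hTub R hR
  have hB0 : (1 : ℝ) ≤ 2 ^ k := one_le_pow₀ (by norm_num)
  have hCu2 : 1 ≤ 2 * Cu ^ 2 := by nlinarith
  have hB : 1 ≤ 2 ^ k * (2 * Cu ^ 2) := by nlinarith
  obtain ⟨Ca, hCa, hA⟩ := hCtA R (2 ^ k * (2 * Cu ^ 2)) hR hB
  obtain ⟨Cl, hCl, hL⟩ := hAIL k
  obtain ⟨hD1, hD2⟩ := hDds
  have hkC : (1 : ℝ) ≤ (k : ℝ) + 1 := by
    have := Nat.cast_nonneg (α := ℝ) k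
    linarith
  have hC1 : (1 : ℝ) ≤ Cl * ((k : ℝ) + 1) := by nlinarith
  have hC2 : (1 : ℝ) ≤ Cl * ((k : ℝ) + 1) * Ca := by nlinarith
  refine ⟨Cl * ((k : ℝ) + 1) * Ca, hC2, ?_⟩
  intro l Φ hHE w κ M hw hκ hκ1 hM hkM hGd hMw ζ
  have hM0 : 0 < M := by linarith
  have hMk : 1 ≤ M ^ k := one_le_pow₀ hM
  have hMk0 : 0 < M ^ k := by linarith
  have hw1 : w ≤ 1 := by nlinarith
  have hΦ : Continuous Φ := hHE.cont
  rcases Set.eq_empty_or_nonempty (Tb R ζ w) with hemp | ⟨x₀, hx₀⟩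
  · rw [hemp]
    unfold ms
    simp
  have hms : MeasurableSet (Tb R ζ w) := meas_Tb R ζ w
  have hsub : Tb R ζ w ⊆ Om R := fun g hg => hg.1
  obtain ⟨X, hX⟩ : ∃ X : ℝ≥0∞, X = ms Φ (Tb R ζ w) := ⟨_, rfl⟩
  have hXtop : X ≠ ⊤ := by
    have h1 : X ≤ ENNReal.ofReal Ct := by
      rw [hX]
      refine le_trans ?_ (hT l Φ hHE)
      exact lintegral_mono_set hsub
    exact ne_top_of_le_ne_top ENNReal.ofReal_ne_top h1
  have hai := hL l Φ hHE R (Tb R ζ w) hms hsub κ M hκ hκ1 hM hkM hGd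
  -- the sum over the matrices of size `M ^ j`
  have hcnt : ∀ j ∈ Finset.range (k + 1), ∑' s : Mat, (Ds (2 ^ k) (M ^ j)).indicator
      (fun s => Dd Φ (Tb R ζ w) (nm s)) s ≤ ENNReal.ofReal (Ca * (M ^ j) ^ 2) * X := by
    intro j hj
    have hjk : j ≤ k := Nat.lt_succ_iff.1 (Finset.mem_range.1 hj)
    have hY : 1 ≤ M ^ j := one_le_pow₀ hM
    have hY0 : 0 < M ^ j := by linarith
    have hYw : M ^ j * w ≤ 1 :=
      (mul_le_mul_of_nonneg_right (pow_le_pow_right₀ hM hjk) hw.le).trans hMw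
    refine le_trans (ENNReal.tsum_le_tsum (g := fun s => {s : Mat | s ∈ Ds (2 ^ k) (M ^ j) ∧
      ∃ x ∈ Tb R ζ w, nm s * x ∈ Tb R ζ w}.indicator (fun _ => X) s) fun s => ?_)
      (tsum_le _ X _ ?_)
    · by_cases h1 : s ∈ Ds (2 ^ k) (M ^ j)
      · rw [Set.indicator_of_mem h1]
        by_cases h2 : ∃ x ∈ Tb R ζ w, nm s * x ∈ Tb R ζ w
        · rw [Set.indicator_of_mem (show s ∈ {s : Mat | s ∈ Ds (2 ^ k) (M ^ j) ∧
            ∃ x ∈ Tb R ζ w, nm s * x ∈ Tb R ζ w} from ⟨h1, h2⟩), hX]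
          exact (hD1 Φ hΦ _ hms (nm s)).2.1
        · rw [(hD1 Φ hΦ _ hms (nm s)).2.2 (fun x hx hx' => h2 ⟨x, hx, hx'⟩)]
          exact zero_le
      · rw [Set.indicator_of_notMem h1]
        exact zero_le
    · intro T hTm
      refine hA x₀ (hsub hx₀) x₀ (hsub hx₀) (M ^ j) hY T fun s hs => ?_
      obtain ⟨hdet, x, hx, hx'⟩ := hTm s hs
      obtain ⟨hdet1, hdet2⟩ := hdet
      have hpos : 0 < s.det := by
        have h3 : (0 : ℝ) < ((s.det : ℤ) : ℝ) := lt_of_lt_of_le (by positivity) hdet1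
        exact_mod_cast h3
      obtain ⟨a00, a11, a01, a10⟩ := hU ζ w hw x₀ hx₀ x hx
      obtain ⟨b00, b11, b01, b10⟩ := hU ζ w hw x₀ hx₀ (nm s * x) hx'
      obtain ⟨c00, c11, c01, c10⟩ := quot_bd hCu hw hw1 b00 b11 b01 b10 a00 a11 a01 a10
      have hsq : √((s.det : ℤ) : ℝ) ≤ 2 ^ k * M ^ j :=
        Real.sqrt_le_iff.2 ⟨by positivity, hdet2⟩
      have hs0 : 0 ≤ √((s.det : ℤ) : ℝ) := Real.sqrt_nonneg _
      have hdiag : ∀ y : ℝ, |y| ≤ 2 * Cu ^ 2 →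
          |√((s.det : ℤ) : ℝ) * y| ≤ 2 ^ k * (2 * Cu ^ 2) * M ^ j := by
        intro y hy
        rw [abs_mul, abs_of_nonneg hs0]
        calc √((s.det : ℤ) : ℝ) * |y| ≤ (2 ^ k * M ^ j) * (2 * Cu ^ 2) :=
              mul_le_mul hsq hy (abs_nonneg _) (by positivity)
          _ = 2 ^ k * (2 * Cu ^ 2) * M ^ j := by ring
      have hoff : ∀ y : ℝ, |y| ≤ 2 * Cu ^ 2 * w →
          |√((s.det : ℤ) : ℝ) * y| ≤ 2 ^ k * (2 * Cu ^ 2) := by
        intro y hy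
        rw [abs_mul, abs_of_nonneg hs0]
        calc √((s.det : ℤ) : ℝ) * |y| ≤ (2 ^ k * M ^ j) * (2 * Cu ^ 2 * w) :=
              mul_le_mul hsq hy (abs_nonneg _) (by positivity)
          _ = 2 ^ k * (2 * Cu ^ 2) * (M ^ j * w) := by ring
          _ ≤ 2 ^ k * (2 * Cu ^ 2) * 1 := mul_le_mul_of_nonneg_left hYw (by positivity)
          _ = 2 ^ k * (2 * Cu ^ 2) := by ring
      refine ⟨?_, ?_, ?_, ?_⟩
      · rw [cj_eq hpos x₀ x]; exact hdiag _ c00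
      · rw [cj_eq hpos x₀ x]; exact hdiag _ c11
      · rw [cj_eq hpos x₀ x]; exact hoff _ c01
      · rw [cj_eq hpos x₀ x]; exact hoff _ c10
  rw [← hX] at hai ⊢
  have hmain : ENNReal.ofReal ((M ^ k) ^ (2 - 4 * κ)) * X ^ 2 ≤
      ENNReal.ofReal (Cl * ((k : ℝ) + 1) * Ca * M ^ k) * X := by
    refine hai.trans ?_
    have h1 : ∑ j ∈ Finset.range (k + 1), ENNReal.ofReal (M ^ k / (M ^ j) ^ 2) *
        ∑' s : Mat, (Ds (2 ^ k) (M ^ j)).indicator (fun s => Dd Φ (Tb R ζ w) (nm s)) s ≤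
        ∑ _j ∈ Finset.range (k + 1), ENNReal.ofReal (Ca * M ^ k) * X := by
      refine Finset.sum_le_sum fun j hj => ?_
      have hY0 : 0 < M ^ j := by positivity
      calc ENNReal.ofReal (M ^ k / (M ^ j) ^ 2) *
            ∑' s : Mat, (Ds (2 ^ k) (M ^ j)).indicator (fun s => Dd Φ (Tb R ζ w) (nm s)) s
          ≤ ENNReal.ofReal (M ^ k / (M ^ j) ^ 2) * (ENNReal.ofReal (Ca * (M ^ j) ^ 2) * X) := by
            gcongr
            exact hcnt j hj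
        _ = ENNReal.ofReal (Ca * M ^ k) * X := by
            rw [← mul_assoc, ← ENNReal.ofReal_mul (by positivity)]
            congr 2
            field_simp
    calc ENNReal.ofReal Cl * ∑ j ∈ Finset.range (k + 1), ENNReal.ofReal (M ^ k / (M ^ j) ^ 2) *
          ∑' s : Mat, (Ds (2 ^ k) (M ^ j)).indicator (fun s => Dd Φ (Tb R ζ w) (nm s)) s
        ≤ ENNReal.ofReal Cl * ∑ _j ∈ Finset.range (k + 1), ENNReal.ofReal (Ca * M ^ k) * X := by
          gcongr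
      _ = ENNReal.ofReal (Cl * ((k : ℝ) + 1) * Ca * M ^ k) * X := by
          rw [Finset.sum_const, Finset.card_range, nsmul_eq_mul]
          have h2 : ((k + 1 : ℕ) : ℝ≥0∞) = ENNReal.ofReal ((k : ℝ) + 1) := by
            rw [← ENNReal.ofReal_natCast]
            push_cast
            rfl
          rw [h2, ← mul_assoc, ← mul_assoc, ← ENNReal.ofReal_mul (by positivity),
            ← ENNReal.ofReal_mul (by positivity)]
          congr 2
          ring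
  -- back to real numbers
  obtain ⟨x, hx0, hxX⟩ : ∃ x : ℝ, 0 ≤ x ∧ X = ENNReal.ofReal x :=
    ⟨X.toReal, ENNReal.toReal_nonneg, (ENNReal.ofReal_toReal hXtop).symm⟩
  rw [hxX] at hmain ⊢
  refine ENNReal.ofReal_le_ofReal ?_
  rcases hx0.eq_or_lt with h0 | h0
  · rw [← h0]
    positivity
  have hMp : 0 < (M ^ k) ^ (2 - 4 * κ) := by positivity
  rw [← ENNReal.ofReal_pow hx0, ← ENNReal.ofReal_mul (by positivity),
    ← ENNReal.ofReal_mul (by positivity), ENNReal.ofReal_le_ofReal_iff (by positivity)] at hmain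
  have h1 : (M ^ k) ^ (2 - 4 * κ) * x ≤ Cl * ((k : ℝ) + 1) * Ca * M ^ k := by
    have h2 : ((M ^ k) ^ (2 - 4 * κ) * x) * x ≤ (Cl * ((k : ℝ) + 1) * Ca * M ^ k) * x := by
      calc ((M ^ k) ^ (2 - 4 * κ) * x) * x = (M ^ k) ^ (2 - 4 * κ) * x ^ 2 := by ring
        _ ≤ _ := hmain
    exact le_of_mul_le_mul_right h2 h0
  have h3 : (M ^ k) ^ (2 - 4 * κ) * (M ^ k) ^ (-(1 - 4 * κ)) = M ^ k := by
    rw [← Real.rpow_add hMk0]
    have e : (2 - 4 * κ) + -(1 - 4 * κ) = 1 := by ring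
    rw [e, Real.rpow_one]
  refine le_of_mul_le_mul_left ?_ hMp
  calc (M ^ k) ^ (2 - 4 * κ) * x ≤ Cl * ((k : ℝ) + 1) * Ca * M ^ k := h1
    _ = Cl * ((k : ℝ) + 1) * Ca * ((M ^ k) ^ (2 - 4 * κ) * (M ^ k) ^ (-(1 - 4 * κ))) := by rw [h3]
    _ = (M ^ k) ^ (2 - 4 * κ) * (Cl * ((k : ℝ) + 1) * Ca * (M ^ k) ^ (-(1 - 4 * κ))) := by ring

end Pool.Agent.A54.Hp
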