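import Pool.Agent.Lib.MP_a54f13_nt.Hp.SpecL
import Pool.Agent.Lib.MP_a54f13_nt.Hp.LBase

/-!
# Package `Hp`, part L, module `SpT`: the special points lie in few tubes (helper76)
-/

set_option autoImplicit false

namespace Pool.Agent.A54.Hp

open MeasureTheory Filter Topology Set
open scoped ContDiff ComplexConjugate UpperHalfPlane MatrixGroups ENNReal
open Pool.Agent.A54.Dyn (G fl base ze io mk4 dom)
open Pool.Agent.A54.Av (Mat NonSc)

namespace SpTL

/-- the real matrix -/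
noncomputable def rm (n : Mat) : Matrix (Fin 2) (Fin 2) ℝ := n.map (fun a : ℤ => (a : ℝ))

/-- `adj(n) x` -/
noncomputable def zm (x : G) (n : Mat) : Matrix (Fin 2) (Fin 2) ℝ := (rm n).adjugate * x.1

/-- the geodesic of the tube -/
noncomputable def zt (x : G) (n : Mat) : Fin 3 → ℝ :=
  ![-(zm x n 0 0 * zm x n 1 1 + zm x n 0 1 * zm x n 1 0) / ((n.det : ℤ) : ℝ),
    zm x n 0 0 * zm x n 0 1 / ((n.det : ℤ) : ℝ), -(zm x n 1 0 * zm x n 1 1) / ((n.det : ℤ) : ℝ)]

theorem det_rm (n : Mat) : (rm n).det = ((n.det : ℤ) : ℝ) := by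
  rw [rm, Matrix.det_fin_two, Matrix.det_fin_two]
  simp

theorem m1 (x : G) : x.1 * (x⁻¹ : G).1 = 1 := by
  have h : (x * x⁻¹ : G).1 = 1 := by rw [mul_inv_cancel]; rfl
  rwa [Matrix.SpecialLinearGroup.coe_mul] at h

theorem xW (x y : G) (n : Mat) : x.1 * cj x y n = rm n * y.1 := by
  rw [cj, ← Matrix.mul_assoc, ← Matrix.mul_assoc, m1, Matrix.one_mul]
  rfl

theorem n_eq (x y : G) (n : Mat) : rm n = x.1 * cj x y n * (y⁻¹ : G).1 := by
  rw [xW, Matrix.mul_assoc, m1, Matrix.mul_one]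

theorem zW (x y : G) (n : Mat) : zm x n * cj x y n = ((n.det : ℤ) : ℝ) • y.1 := by
  rw [zm, Matrix.mul_assoc, xW, ← Matrix.mul_assoc, Matrix.adjugate_mul, det_rm, Matrix.smul_mul,
    Matrix.one_mul]

theorem det_W (x y : G) (n : Mat) : (cj x y n).det = ((n.det : ℤ) : ℝ) := by
  have h := congrArg Matrix.det (xW x y n)
  rw [Matrix.det_mul, Matrix.det_mul, det_rm] at h
  have h1 : x.1.det = 1 := x.2
  have h2 : y.1.det = 1 := y.2
  rw [h1, h2, one_mul, mul_one] at h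
  exact h

/-- entries of products -/
theorem mul_le2 {A B : Matrix (Fin 2) (Fin 2) ℝ} {s t : ℝ} (hA : ∀ i j, |A i j| ≤ s)
    (hB : ∀ i j, |B i j| ≤ t) (i j : Fin 2) : |(A * B) i j| ≤ 2 * (s * t) := by
  have hs : 0 ≤ s := (abs_nonneg _).trans (hA 0 0)
  rw [Matrix.mul_apply, Fin.sum_univ_two]
  calc |A i 0 * B 0 j + A i 1 * B 1 j| ≤ |A i 0 * B 0 j| + |A i 1 * B 1 j| := abs_add_le _ _
    _ = |A i 0| * |B 0 j| + |A i 1| * |B 1 j| := by rw [abs_mul, abs_mul]
    _ ≤ s * t + s * t := add_le_add (mul_le_mul (hA _ _) (hB _ _) (abs_nonneg _) hs)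
        (mul_le_mul (hA _ _) (hB _ _) (abs_nonneg _) hs)
    _ = 2 * (s * t) := by ring

theorem adj_le {A : Matrix (Fin 2) (Fin 2) ℝ} {s : ℝ} (hA : ∀ i j, |A i j| ≤ s) (i j : Fin 2) :
    |A.adjugate i j| ≤ s := by
  rw [Matrix.adjugate_fin_two]
  fin_cases i <;> fin_cases j
  · simpa using hA 1 1
  · simpa using hA 0 1
  · simpa using hA 1 0
  · simpa using hA 0 0

/-- products of two bounded products -/
theorem pq_le {z z' w w' m e : ℝ} (hz : |z| ≤ m) (hz' : |z'| ≤ m) (hw : |w * w'| ≤ e) :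
    |z * z' * (w * w')| ≤ m ^ 2 * e := by
  rw [abs_mul, abs_mul, _root_.sq]
  have hm : 0 ≤ m := (abs_nonneg _).trans hz
  exact mul_le_mul (mul_le_mul hz hz' (abs_nonneg _) hm) hw (abs_nonneg _) (by positivity)

theorem div_le2 {N d E : ℝ} (hd : 1 ≤ |d|) (hN : |N| ≤ E) : |N / d ^ 2| ≤ E := by
  have h1 : 1 ≤ d ^ 2 := by
    rw [← sq_abs]
    exact one_le_pow₀ hd
  rw [abs_div, abs_of_nonneg (by positivity : (0 : ℝ) ≤ d ^ 2), div_le_iff₀ (by linarith)]
  have hE : 0 ≤ E := (abs_nonneg _).trans hN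
  nlinarith

/-- the computation -/
theorem core {W00 W01 W10 W11 Z00 Z01 Z10 Z11 y00 y01 y10 y11 d m ε K : ℝ}
    (hd : 1 ≤ |d|) (hW : W00 * W11 - W01 * W10 = d)
    (h00 : Z00 * W00 + Z01 * W10 = d * y00) (h01 : Z00 * W01 + Z01 * W11 = d * y01)
    (h10 : Z10 * W00 + Z11 * W10 = d * y10) (h11 : Z10 * W01 + Z11 * W11 = d * y11)
    (hε : 0 ≤ ε) (hεK : ε ≤ K) (w00 : |W00| ≤ ε) (w11 : |W11| ≤ ε) (w01 : |W01| ≤ K) (w10 : |W10| ≤ K)
    (z00 : |Z00| ≤ m) (z01 : |Z01| ≤ m) (z10 : |Z10| ≤ m) (z11 : |Z11| ≤ m) :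
    |y00 * y11 + y01 * y10 - -(Z00 * Z11 + Z01 * Z10) / d| ≤ 8 * (m ^ 2 * (ε * K)) ∧
    |-(y00 * y01) - Z00 * Z01 / d| ≤ 8 * (m ^ 2 * (ε * K)) ∧
    |y10 * y11 - -(Z10 * Z11) / d| ≤ 8 * (m ^ 2 * (ε * K)) := by
  have hd0 : d ≠ 0 := by
    intro h
    rw [h, abs_zero] at hd
    linarith
  have hK : 0 ≤ K := hε.trans hεK
  have a1 : |W00 * W01| ≤ ε * K := by
    rw [abs_mul]; exact mul_le_mul w00 w01 (abs_nonneg _) hε
  have a2 : |W00 * W11| ≤ ε * K := by
    rw [abs_mul]; exact mul_le_mul w00 (w11.trans hεK) (abs_nonneg _) hε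
  have a3 : |W11 * W10| ≤ ε * K := by
    rw [abs_mul]; exact mul_le_mul w11 w10 (abs_nonneg _) hε
  have hm0 : 0 ≤ m ^ 2 * (ε * K) := by positivity
  have e00 : y00 = (Z00 * W00 + Z01 * W10) / d := by rw [h00]; field_simp
  have e01 : y01 = (Z00 * W01 + Z01 * W11) / d := by rw [h01]; field_simp
  have e10 : y10 = (Z10 * W00 + Z11 * W10) / d := by rw [h10]; field_simp
  have e11 : y11 = (Z10 * W01 + Z11 * W11) / d := by rw [h11]; field_simp
  refine ⟨?_, ?_, ?_⟩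
  · have e : y00 * y11 + y01 * y10 - -(Z00 * Z11 + Z01 * Z10) / d =
        (2 * (Z00 * Z10 * (W00 * W01)) + 2 * (Z01 * Z11 * (W11 * W10)) +
          2 * (Z00 * Z11 * (W00 * W11)) + 2 * (Z01 * Z10 * (W00 * W11))) / d ^ 2 := by
      rw [e00, e01, e10, e11]
      field_simp
      rw [← hW]
      ring
    rw [e]
    refine div_le2 hd ?_
    have b1 := pq_le z00 z10 a1
    have b2 := pq_le z01 z11 a3
    have b3 := pq_le z00 z11 a2
    have b4 := pq_le z01 z10 a2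
    rw [abs_le] at b1 b2 b3 b4 ⊢
    constructor <;> linarith [b1.1, b1.2, b2.1, b2.2, b3.1, b3.2, b4.1, b4.2]
  · have e : -(y00 * y01) - Z00 * Z01 / d =
        (-(Z00 * Z00 * (W00 * W01)) - 2 * (Z00 * Z01 * (W00 * W11)) -
          Z01 * Z01 * (W11 * W10)) / d ^ 2 := by
      rw [e00, e01]
      field_simp
      rw [← hW]
      ring
    rw [e]
    refine div_le2 hd ?_
    have b1 := pq_le z00 z00 a1
    have b2 := pq_le z00 z01 a2
    have b3 := pq_le z01 z01 a3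
    rw [abs_le] at b1 b2 b3 ⊢
    constructor <;> linarith [b1.1, b1.2, b2.1, b2.2, b3.1, b3.2]
  · have e : y10 * y11 - -(Z10 * Z11) / d =
        (Z10 * Z10 * (W00 * W01) + 2 * (Z10 * Z11 * (W00 * W11)) +
          Z11 * Z11 * (W11 * W10)) / d ^ 2 := by
      rw [e10, e11]
      field_simp
      rw [← hW]
      ring
    rw [e]
    refine div_le2 hd ?_
    have b1 := pq_le z10 z10 a1
    have b2 := pq_le z10 z11 a2
    have b3 := pq_le z11 z11 a3
    rw [abs_le] at b1 b2 b3 ⊢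
    constructor <;> linarith [b1.1, b1.2, b2.1, b2.2, b3.1, b3.2]

end SpTL

open SpTL in
open Classical in
theorem stmtSpT : StmtSpT := by
  intro R hR
  have hR0 : 0 < R := by linarith
  have hR8 : 1 ≤ R ^ 8 := one_le_pow₀ hR
  refine ⟨6561 * R ^ 8, by linarith, ?_⟩
  intro x hx ε K hε hεK hK
  have hK0 : 0 < K := by linarith
  refine ⟨(finite_box (4 * R ^ 2 * K)).toFinset.image (zt x), ?_, ?_⟩
  · have h1 : (((finite_box (4 * R ^ 2 * K)).toFinset.image (zt x)).card : ℝ) ≤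
        ((finite_box (4 * R ^ 2 * K)).toFinset.card : ℝ) := by
      exact_mod_cast Finset.card_image_le
    have h2 := card_box (K := 4 * R ^ 2 * K) (by positivity) (finite_box (4 * R ^ 2 * K)).toFinset
      (fun s hs => by simpa using hs)
    have h3 : 2 * (4 * R ^ 2 * K) + 1 ≤ 9 * R ^ 2 * K := by
      have : 1 ≤ R ^ 2 * K := by
        have := one_le_pow₀ hR (n := 2)
        nlinarith
      linarith
    calc _ ≤ _ := h1
      _ ≤ (2 * (4 * R ^ 2 * K) + 1) ^ 4 := h2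
      _ ≤ (9 * R ^ 2 * K) ^ 4 := pow_le_pow_left₀ (by positivity) h3 4
      _ = 6561 * R ^ 8 * K ^ 4 := by ring
  · rintro y ⟨hy, n, hn, w00, w11, w01, w10⟩
    have hWK : ∀ i j, |cj x y n i j| ≤ K := by
      intro i j
      fin_cases i <;> fin_cases j
      · exact w00.trans hεK
      · exact w01
      · exact w10
      · exact w11.trans hεK
    have hyi : y⁻¹ ∈ Om R := Om_inv hy
    have hN : ∀ i j, |rm n i j| ≤ 4 * R ^ 2 * K := by
      intro i j
      rw [n_eq x y n]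
      have h1 := mul_le2 (A := x.1) (B := cj x y n) (s := R) (t := K) hx hWK
      have h2 := mul_le2 (A := x.1 * cj x y n) (B := (y⁻¹ : G).1) (t := R) h1 hyi i j
      calc _ ≤ _ := h2
        _ = 4 * R ^ 2 * K := by ring
    have hZ : ∀ i j, |zm x n i j| ≤ 8 * R ^ 3 * K := by
      intro i j
      have h2 := mul_le2 (A := (rm n).adjugate) (B := x.1) (t := R) (adj_le hN) hx i j
      calc _ ≤ _ := h2
        _ = 8 * R ^ 3 * K := by ring
    refine ⟨zt x n, ?_, hy, ?_⟩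
    · rw [Finset.mem_image]
      refine ⟨n, ?_, rfl⟩
      rw [Set.Finite.mem_toFinset]
      exact hN
    · have hd : 1 ≤ |((n.det : ℤ) : ℝ)| := by
        have := Int.one_le_abs hn
        exact_mod_cast this
      have hzW := zW x y n
      have ent : ∀ i j, zm x n i 0 * cj x y n 0 j + zm x n i 1 * cj x y n 1 j =
          ((n.det : ℤ) : ℝ) * y i j := by
        intro i j
        have h := congrFun (congrFun hzW i) j
        rw [Matrix.mul_apply, Fin.sum_univ_two, Matrix.smul_apply, smul_eq_mul] at h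
        exact h
      have hW : cj x y n 0 0 * cj x y n 1 1 - cj x y n 0 1 * cj x y n 1 0 =
          ((n.det : ℤ) : ℝ) := by
        rw [← Matrix.det_fin_two, det_W]
      obtain ⟨r0, r1, r2⟩ := core hd hW (ent 0 0) (ent 0 1) (ent 1 0) (ent 1 1) hε.le hεK w00 w11
        w01 w10 (hZ 0 0) (hZ 0 1) (hZ 1 0) (hZ 1 1)
      have hb : 8 * ((8 * R ^ 3 * K) ^ 2 * (ε * K)) ≤ 6561 * R ^ 8 * (K ^ 3 * ε) := by
        have h1 : 8 * ((8 * R ^ 3 * K) ^ 2 * (ε * K)) = 512 * R ^ 6 * (K ^ 3 * ε) := by ring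
        have h2 : R ^ 6 ≤ R ^ 8 := pow_le_pow_right₀ hR (by norm_num)
        rw [h1]
        refine mul_le_mul_of_nonneg_right ?_ (by positivity)
        nlinarith [pow_pos hR0 8]
      intro i
      fin_cases i
      · exact r0.trans hb
      · exact r1.trans hb
      · exact r2.trans hb

end Pool.Agent.A54.Hp
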