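import Pool.Agent.Lib.MP_a54f13_nt.Hp.SpecC

/-!
# Package `Hp`, module `St1` (task 24194, helper99): from the scale `3ρ` to `t^(-1/20)`
-/

set_option autoImplicit false

namespace Pool.Agent.A54.Hp

open MeasureTheory Filter Topology Set
open scoped ContDiff ComplexConjugate UpperHalfPlane MatrixGroups ENNReal
open Pool.Agent.A54.Dyn (G fl base ze io mk4 dom)
open Pool.Agent.A54.Half (H0)
open Pool.Agent.A54.Sq (la TestP)

noncomputable section

namespace St1M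

lemma ker_mono {C C' a : ℝ} {k : ℝ → ℝ} (h : Ker C a k) (hC : C ≤ C') : Ker C' a k where
  pos := h.pos
  meas := h.meas
  nonneg := h.nonneg
  le u := (h.le u).trans (div_le_div_of_nonneg_right hC (sq_nonneg a))
  supp := h.supp
  one := h.one

/-- the numbers of scales -/
lemma exJ {a θ : ℝ} (ha : 0 < a) (h : a ≤ θ) : ∃ J : ℕ, θ ≤ 2 ^ J * a ∧ 2 ^ J * a ≤ 2 * θ := by
  obtain ⟨n, h1, h2⟩ := exists_nat_pow_near (x := θ / a) (y := 2) ((one_le_div ha).2 h) one_lt_two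
  refine ⟨n + 1, ?_, ?_⟩
  · rw [div_lt_iff₀ ha] at h2
    exact h2.le
  · rw [le_div_iff₀ ha] at h1
    rw [pow_succ]
    linarith

/-- large `t` -/
lemma large (x : ℝ) (hx : 0 < x) (y : ℝ) (hy : 0 < y) :
    ∃ T : ℝ, 1 ≤ T ∧ ∀ t : ℝ, T ≤ t → t ^ (-x) ≤ y := by
  have h1 := (tendsto_rpow_neg_atTop hx).eventually (gt_mem_nhds hy)
  obtain ⟨T, hT⟩ := Filter.eventually_atTop.1 h1
  exact ⟨max T 1, le_max_right _ _, fun t ht => (hT t ((le_max_left _ _).trans ht)).le⟩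

end St1M

open St1M in
theorem stmtSt1 (hTot : StmtTot) (hRev : StmtRev) (hSk : StmtSk) (hQ : StmtQ) (hAsw : StmtAsw)
    (hSmQ : StmtSmQ) : StmtSt1 := by
  intro c hc hc1
  obtain ⟨K₀, hK₀⟩ := hAsw c hc hc1
  refine ⟨K₀, fun K hK C₀ hC₀ v hv φ hφ C₁ hC₁ => ?_⟩
  obtain ⟨ζ, CA, tA, aA, hζ, hφζ, hCA, htA, haA, hA⟩ := hK₀ K hK C₀ hC₀ φ hφ
  obtain ⟨-, ⟨Cs, hCs, hks⟩, -⟩ := hSk
  obtain ⟨R, CQ, hR, hCQ, hQ'⟩ := hQ φ hφ (max C₁ Cs) (le_max_of_le_left hC₁)
  obtain ⟨CS, hCS, hS⟩ := hSmQ c CQ hc hc1 hCQ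
  obtain ⟨CT, hCT, hT⟩ := hTot R hR
  obtain ⟨T1, hT1, h1⟩ := large (1 / 20) (by norm_num) aA haA
  obtain ⟨T2, hT2, h2⟩ := large (1 / 80) (by norm_num) (v R / (2 * CQ))
    (div_pos (hv R) (by positivity))
  obtain ⟨T3, hT3, h3⟩ := large (9 / 20) (by norm_num) (1 / 3) (by norm_num)
  refine ⟨ζ, 2 * CA + CQ * CT ^ 2 + CQ * CS, max tA (max T1 (max T2 T3)), hζ, hφζ, by positivity,
    le_max_of_le_left htA, ?_⟩
  intro l f t N b hD ht B hB hU k hk
  have ht0 : tA ≤ t := (le_max_left _ _).trans ht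
  have ht1 : T1 ≤ t := (le_max_left _ _).trans ((le_max_right _ _).trans ht)
  have ht2 : T2 ≤ t := (le_max_left _ _).trans ((le_max_right _ _).trans
    ((le_max_right _ _).trans ht))
  have ht3 : T3 ≤ t := (le_max_right _ _).trans ((le_max_right _ _).trans
    ((le_max_right _ _).trans ht))
  have h1t : 1 ≤ t := hD.one_le
  have htp : 0 < t := by linarith
  set ε : ℝ := t ^ (-(1 / 20 : ℝ)) with hε
  set θ : ℝ := t ^ (-(1 / 80 : ℝ)) with hθ
  set τ : ℝ := t ^ (-(c / 200)) with hτ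
  set a : ℝ := 3 * rh c t with ha
  have hrh : 0 < rh c t := Real.rpow_pos_of_pos htp _
  have hapos : 0 < a := by positivity
  have hεpos : 0 < ε := Real.rpow_pos_of_pos htp _
  have hθpos : 0 < θ := Real.rpow_pos_of_pos htp _
  have hτpos : 0 < τ := Real.rpow_pos_of_pos htp _
  have hτ1 : τ ≤ 1 := Real.rpow_le_one_of_one_le_of_nonpos h1t (by linarith)
  have hθ1 : θ ≤ 1 := Real.rpow_le_one_of_one_le_of_nonpos h1t (by norm_num)
  have hεθ : ε ≤ θ := Real.rpow_le_rpow_of_exponent_le h1t (by norm_num)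
  have haε : a ≤ ε := by
    have e1 : rh c t ≤ t ^ (-(9 / 20 : ℝ)) * ε := by
      rw [rh, hε, ← Real.rpow_add htp]
      exact Real.rpow_le_rpow_of_exponent_le h1t (by linarith)
    have e2 := h3 t ht3
    have e3 : t ^ (-(9 / 20 : ℝ)) * ε ≤ 1 / 3 * ε := mul_le_mul_of_nonneg_right e2 hεpos.le
    rw [ha]
    linarith
  have hεA : ε ≤ aA := h1 t ht1
  obtain ⟨J, hJ1, hJ2⟩ := exJ hapos (haε.trans hεθ)
  have hvR : CQ * (2 * θ) ≤ v R := by
    have e1 := h2 t ht2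
    rw [le_div_iff₀ (by positivity)] at e1
    linarith
  have hsum := hS v C₀ K l f t N b hD R a θ J hR (by rw [ha]; linarith) hJ2 hvR
  have hwr : ∀ g, ‖Pb f t N b (g * wr)‖ = ‖Pb f t N b g‖ := fun g =>
    hRev f t hD.hm N b hD.pack.even g
  have hq := hQ' (Pb f t N b) hD.he.cont hwr τ a ε θ k (sk ε) J hτpos hτ1
    (ker_mono hk (le_max_left _ _)) (ker_mono (hks ε hεpos) (le_max_right _ _)) haε hεθ hθ1 hJ1
  have hA1 := (hA v l f t N b hD ht0 B hB hU C₁ a k (haε.trans hεA) hk).1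
  have hA2 := (hA v l f t N b hD ht0 B hB hU Cs ε (sk ε) hεA (hks ε hεpos)).2
  have hms := hT l (Pb f t N b) hD.he
  -- numbers
  set s : ℝ := t ^ (-(c / 100)) with hs
  set e : ℝ := CA * t ^ (-(c / 400)) * B with he
  set V : ℝ≥0∞ := V2 φ k (Sb f t N b) (Sb f t N b)
  set W : ℝ≥0∞ := V2 φ (sk ε) (Sb f t N b) (Sb f t N b)
  have hspos : 0 < s := Real.rpow_pos_of_pos htp _
  have hupos : 0 < t ^ (-(c / 400)) := Real.rpow_pos_of_pos htp _
  have hepos : 0 ≤ e := by positivity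
  have n1 : ε / (θ ^ 2 * τ) ≤ s * t ^ (-(c / 400)) := by
    rw [div_le_iff₀ (by positivity), hθ, hτ, hs, hε, ← Real.rpow_natCast, ← Real.rpow_mul htp.le,
      ← Real.rpow_add htp, ← Real.rpow_add htp, ← Real.rpow_add htp]
    refine Real.rpow_le_rpow_of_exponent_le h1t ?_
    push_cast
    linarith
  have n2 : θ ^ c = s * t ^ (-(c / 400)) := by
    rw [hθ, hs, ← Real.rpow_mul htp.le, ← Real.rpow_add htp]
    congr 1
    ring
  have n3 : s * e + CQ * ε / (θ ^ 2 * τ) * CT ^ 2 + CQ * (CS * θ ^ c) + s * e ≤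
      s * ((2 * CA + CQ * CT ^ 2 + CQ * CS) * t ^ (-(c / 400)) * (1 + B)) := by
    have m1 : CQ * ε / (θ ^ 2 * τ) * CT ^ 2 ≤ CQ * CT ^ 2 * (s * t ^ (-(c / 400))) := by
      have m2 : CQ * ε / (θ ^ 2 * τ) * CT ^ 2 = CQ * CT ^ 2 * (ε / (θ ^ 2 * τ)) := by ring
      rw [m2]
      exact mul_le_mul_of_nonneg_left n1 (by positivity)
    rw [n2, he]
    have m3 : 0 ≤ s * t ^ (-(c / 400)) := by positivity
    have m4 : 0 ≤ CA * (s * t ^ (-(c / 400))) := by positivity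
    have m5 : 0 ≤ (CQ * CT ^ 2 + CQ * CS) * (s * t ^ (-(c / 400))) * B := by positivity
    nlinarith
  have hfin : ENNReal.ofReal s * V ≤ ENNReal.ofReal s *
      (W + ENNReal.ofReal ((2 * CA + CQ * CT ^ 2 + CQ * CS) * t ^ (-(c / 400)) * (1 + B))) := by
    calc ENNReal.ofReal s * V ≤ Aw (Pb f t N b) φ k (ch τ) + ENNReal.ofReal (s * e) := hA1
      _ ≤ (Aw (Pb f t N b) φ (sk ε) (ch τ) +
          ENNReal.ofReal (CQ * ε / (θ ^ 2 * τ)) * ms (Pb f t N b) (Om R) ^ 2 +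
          ENNReal.ofReal CQ * ∑ j ∈ Finset.range (J + 1),
            ENNReal.ofReal ((2 ^ j * a)⁻¹) * Cw (Pb f t N b) R (CQ * (2 ^ j * a))) +
          ENNReal.ofReal (s * e) := by gcongr
      _ ≤ ((ENNReal.ofReal s * W + ENNReal.ofReal (s * e)) +
          ENNReal.ofReal (CQ * ε / (θ ^ 2 * τ)) * (ENNReal.ofReal CT) ^ 2 +
          ENNReal.ofReal CQ * ENNReal.ofReal (CS * θ ^ c)) + ENNReal.ofReal (s * e) := by
        gcongr
      _ = ENNReal.ofReal s * W + ENNReal.ofReal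
          (s * e + CQ * ε / (θ ^ 2 * τ) * CT ^ 2 + CQ * (CS * θ ^ c) + s * e) := by
        rw [ENNReal.ofReal_add (by positivity) (by positivity),
          ENNReal.ofReal_add (by positivity) (by positivity),
          ENNReal.ofReal_add (by positivity) (by positivity), ← ENNReal.ofReal_pow hCT,
          ← ENNReal.ofReal_mul (by positivity), ← ENNReal.ofReal_mul (by positivity)]
        ring
      _ ≤ ENNReal.ofReal s * W + ENNReal.ofReal
          (s * ((2 * CA + CQ * CT ^ 2 + CQ * CS) * t ^ (-(c / 400)) * (1 + B))) := by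
        gcongr
      _ = _ := by
        rw [ENNReal.ofReal_mul hspos.le, ← mul_add]
  exact (ENNReal.mul_le_mul_iff_right (ENNReal.ofReal_pos.2 hspos).ne' ENNReal.ofReal_ne_top).1 hfin

end

end Pool.Agent.A54.Hp
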