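import Pool.Agent.Lib.MP_a54f13_nt.Hp.SpecC

/-!
# Package `Hp`, module St2: step 2, from `t^(-1/20)` to fixed scales
-/

set_option autoImplicit false

namespace Pool.Agent.A54.Hp

open MeasureTheory Filter Topology Set
open scoped ContDiff ComplexConjugate UpperHalfPlane MatrixGroups ENNReal
open Pool.Agent.A54.Dyn (G fl base ze io mk4 dom)
open Pool.Agent.A54.Dyn.LiftM (Sct XC XX cc rot m0)
open Pool.Agent.A54.Half (H0)
open Pool.Agent.A54.Sq (la TestP)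

noncomputable section

namespace St2M

lemma measOm (R : ℝ) : MeasurableSet (Om R) := by
  have h : Om R = ⋂ i, ⋂ j, {g : G | |g i j| ≤ R} := by
    ext g
    simp only [Om, mem_iInter]
    exact Iff.rfl
  rw [h]
  refine MeasurableSet.iInter fun i => MeasurableSet.iInter fun j => ?_
  exact (isClosed_le (continuous_abs.comp (Dyn.continuous_entry i j))
    continuous_const).measurableSet

/-- compact sets are contained in boxes -/
lemma box {K : Set G} (hK : IsCompact K) : ∃ R : ℝ, 1 ≤ R ∧ K ⊆ Om R := by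
  have h : ∀ i j : Fin 2, ∃ C : ℝ, ∀ g ∈ K, ‖g i j‖ ≤ C := fun i j =>
    hK.exists_bound_of_continuousOn (Dyn.continuous_entry i j).continuousOn
  choose C hC using h
  have h0 : ∀ i j : Fin 2, |C i j| ≤ ∑ i, ∑ j, |C i j| := by
    intro i j
    calc |C i j| ≤ ∑ j, |C i j| :=
          Finset.single_le_sum (f := fun j => |C i j|) (fun _ _ => abs_nonneg _) (Finset.mem_univ j)
      _ ≤ ∑ i, ∑ j, |C i j| :=
          Finset.single_le_sum (f := fun i => ∑ j, |C i j|)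
            (fun _ _ => Finset.sum_nonneg fun _ _ => abs_nonneg _) (Finset.mem_univ i)
  refine ⟨1 + ∑ i, ∑ j, |C i j|, ?_, fun g hg i j => ?_⟩
  · have := Finset.sum_nonneg (s := Finset.univ) (f := fun i : Fin 2 => ∑ j, |C i j|)
      (fun _ _ => Finset.sum_nonneg fun _ _ => abs_nonneg _)
    linarith
  · have h1 := hC i j g hg
    rw [Real.norm_eq_abs] at h1
    have h2 := le_abs_self (C i j)
    have h3 := h0 i j
    linarith

lemma Sb_eq (hFib : StmtFib) {f : ℍ → ℝ} {t : ℝ} (hf : IsHeckeMaass f t) (N : ℕ) (b : ℤ → ℝ) :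
    Sb f t N b = St (Pb f t N b) 0 := by
  funext z
  have h := (hFib f t hf N (fun n => (-Complex.I) ^ n * (b n : ℂ))).1 z
  have h2 : (fun n => ‖(-Complex.I) ^ n * (b n : ℂ)‖ ^ 2) = fun n => b n ^ 2 := by
    funext n
    rw [norm_mul, norm_zpow, norm_neg, Complex.norm_I, one_zpow, one_mul, Complex.norm_real,
      Real.norm_eq_abs, sq_abs]
  rw [h2] at h
  exact h.symm

/-- bounded masses -/
lemma mass (hTot : StmtTot) (hFib : StmtFib) (hSti : StmtSti) {ζ : ℂ → ℝ} (hζ : TestP H0 ζ) :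
    ∃ C : ℝ, 0 ≤ C ∧ ∀ (c C₀ : ℝ) (K : ℕ) (v : ℝ → ℝ) (l : ℕ → ℝ) (f : ℍ → ℝ) (t : ℝ) (N : ℕ)
      (b : ℤ → ℝ), Dt c v C₀ K l f t N b → ∫ z : ℍ, ζ z * Sb f t N b z ≤ C := by
  set K : Set ℍ := UpperHalfPlane.coe ⁻¹' (tsupport ζ) with hKdef
  have hKc : IsCompact K := by
    rw [UpperHalfPlane.isOpenEmbedding_coe.isInducing.isCompact_preimage_iff]
    · exact hζ.test.cpt.isCompact
    · intro z hz
      exact ⟨⟨z, hζ.test.sub hz⟩, rfl⟩
  obtain ⟨R, hR, hKR⟩ := box (Dyn.isCompact_base hKc)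
  obtain ⟨C, hC, hT⟩ := hTot R hR
  obtain ⟨M, hM⟩ := hζ.test.cpt.exists_bound_of_continuous hζ.test.smooth.continuous
  have hM0 : 0 ≤ M := (norm_nonneg _).trans (hM 0)
  refine ⟨M * C, mul_nonneg hM0 hC, fun c C₀ K' v l f t N b hD => ?_⟩
  obtain ⟨s1, s2, s3⟩ := hSti (Pb f t N b) hD.he.cont
  rw [Sb_eq hFib hD.hm]
  have hcz : Continuous fun z : ℍ => ζ z :=
    hζ.test.smooth.continuous.comp UpperHalfPlane.continuous_coe
  have hcs : Continuous fun z : ℍ => St (Pb f t N b) 0 z :=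
    Continuous.comp (f := fun z : ℍ => ((0 : ℝ), z)) s1 (by fun_prop)
  rw [integral_eq_lintegral_of_nonneg_ae
    (Eventually.of_forall fun z => mul_nonneg (hζ.nonneg _) (s2 0 z))
    (hcz.mul hcs).aestronglyMeasurable]
  refine ENNReal.toReal_le_of_le_ofReal (mul_nonneg hM0 hC) ?_
  have e1 : ∫⁻ z : ℍ, ENNReal.ofReal (ζ z * St (Pb f t N b) 0 z) =
      ∫⁻ z : ℍ, (fun z : ℍ => ENNReal.ofReal (ζ z)) z * ENNReal.ofReal (St (Pb f t N b) 0 z) :=
    lintegral_congr fun z => ENNReal.ofReal_mul (hζ.nonneg _)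
  have e3 := s3 0 (fun z : ℍ => ENNReal.ofReal (ζ z))
    (ENNReal.measurable_ofReal.comp hcz.measurable)
  rw [e1, e3]
  calc ∫⁻ g, ENNReal.ofReal (ζ (base (g * fl (-0)) : ℂ)) * ‖Pb f t N b g‖ₑ ^ 2 ∂nu
      ≤ ∫⁻ g, (Om R).indicator (fun g => ENNReal.ofReal M * ‖Pb f t N b g‖ₑ ^ 2) g ∂nu := by
        refine lintegral_mono fun g => ?_
        have e2 : g * fl (-0) = g := by
          rw [neg_zero, Dyn.fl_zero, mul_one]
        change ENNReal.ofReal (ζ (base (g * fl (-0)) : ℂ)) * ‖Pb f t N b g‖ₑ ^ 2 ≤ _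
        rw [e2]
        by_cases hg : g ∈ Om R
        · rw [indicator_of_mem hg]
          gcongr
          exact (Real.le_norm_self _).trans (hM _)
        · have h3 : ζ (base g : ℂ) = 0 := by
            refine image_eq_zero_of_notMem_tsupport fun h4 => hg (hKR ?_)
            exact h4
          rw [h3, ENNReal.ofReal_zero, zero_mul]
          exact zero_le
    _ = ENNReal.ofReal M * ms (Pb f t N b) (Om R) := by
        rw [lintegral_indicator (measOm R), lintegral_const_mul' _ _ ENNReal.ofReal_ne_top]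
        rfl
    _ ≤ ENNReal.ofReal M * ENNReal.ofReal C := by
        gcongr
        exact hT l _ hD.he
    _ = ENNReal.ofReal (M * C) := (ENNReal.ofReal_mul hM0).symm

/-- a dyadic multiple of `a` -/
lemma dy {a θ : ℝ} (ha : 0 < a) (h : a ≤ θ) : ∃ J : ℕ, θ ≤ 2 ^ J * a ∧ 2 ^ J * a ≤ 2 * θ := by
  classical
  have hex : ∃ n : ℕ, θ ≤ 2 ^ n * a := by
    obtain ⟨n, hn⟩ := pow_unbounded_of_one_lt (θ / a) (by norm_num : (1 : ℝ) < 2)
    exact ⟨n, (div_le_iff₀ ha).1 hn.le⟩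
  refine ⟨Nat.find hex, Nat.find_spec hex, ?_⟩
  rcases Nat.eq_zero_or_pos (Nat.find hex) with h0 | h0
  · rw [h0, pow_zero, one_mul]
    linarith
  · obtain ⟨n, hn⟩ := Nat.exists_eq_succ_of_ne_zero h0.ne'
    have h1 := Nat.find_min hex (m := n) (by omega)
    rw [not_le] at h1
    rw [hn, pow_succ]
    linarith

/-- the errors are small for large `t` -/
lemma ev (Cw' ε : ℝ) (hε : 0 < ε) : ∃ t₀ : ℝ, 1 ≤ t₀ ∧ ∀ t : ℝ, t₀ ≤ t →
    t ^ (-(1 / 20 : ℝ)) ≤ ε ∧ Cw' * t ^ (-(77 / 800 : ℝ)) ≤ ε := by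
  have h1 := (tendsto_rpow_neg_atTop (by norm_num : (0 : ℝ) < 1 / 20)).eventually
    (eventually_le_nhds hε)
  have h2 : Tendsto (fun t : ℝ => Cw' * t ^ (-(77 / 800 : ℝ))) atTop (𝓝 0) := by
    have := (tendsto_rpow_neg_atTop (by norm_num : (0 : ℝ) < 77 / 800)).const_mul Cw'
    rwa [mul_zero] at this
  obtain ⟨t₀, ht⟩ := eventually_atTop.1 (h1.and (h2.eventually (eventually_le_nhds hε)))
  exact ⟨max 1 t₀, le_max_left _ _, fun t h => ht t ((le_max_right _ _).trans h)⟩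

lemma pows {c t : ℝ} (hc : 0 < c) (hc1 : c ≤ 1) (ht : 1 ≤ t) :
    (t ^ (-(1 / 20 : ℝ)))⁻¹ ^ 8 * t ^ (-(1 / 2) + 3 * (c / 800)) ≤ t ^ (-(77 / 800 : ℝ)) ∧
    t ^ (-(1 / 2) + 3 * (c / 800)) ≤ t ^ (-(77 / 800 : ℝ)) ∧
    rh c t ≤ t ^ (-(1 / 20 : ℝ)) := by
  have ht0 : 0 < t := by linarith
  refine ⟨?_, ?_, ?_⟩
  · rw [← Real.rpow_neg ht0.le, ← Real.rpow_natCast, ← Real.rpow_mul ht0.le, ← Real.rpow_add ht0]
    refine Real.rpow_le_rpow_of_exponent_le ht ?_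
    push_cast
    linarith
  · exact Real.rpow_le_rpow_of_exponent_le ht (by linarith)
  · exact Real.rpow_le_rpow_of_exponent_le ht (by linarith)

end St2M

theorem stmtSt2 (hTot : StmtTot) (hFib : StmtFib) (hRev : StmtRev) (hSch : StmtSch)
    (hSk : StmtSk) (hSti : StmtSti) (hQ : StmtQ) (hWkV : StmtWkV) (hSmQ : StmtSmQ) : StmtSt2 := by
  intro c C₀ hc hc1 hC₀ K v hv φ hφ
  obtain ⟨-, ⟨Ck, hCk, hker⟩, -⟩ := hSk
  obtain ⟨R, CQ, hR, hCQ, hQ'⟩ := hQ φ hφ Ck hCk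
  obtain ⟨CW, e₀, hCW, he0, he1, hW⟩ := hWkV c C₀ hc hc1 hC₀ K φ hφ
  obtain ⟨CS, hCS, hS⟩ := hSmQ c CQ hc hc1 hCQ
  obtain ⟨CT, hCT, hT⟩ := hTot R hR
  obtain ⟨ζ, Cs, a₀, hζ, -, hCs, ha0, ha1, hSch1⟩ := hSch φ hφ
  obtain ⟨Cm, hCm, hm⟩ := St2M.mass hTot hFib hSti hζ
  have hvR := hv R
  have hCQ0 : 0 < CQ := by linarith
  refine ⟨CQ * CT ^ 2 + CQ * CS + 1 + Cs * Ck * Cm ^ 2, min (min 1 e₀) (min a₀ (v R / (2 * CQ))),
    by positivity, by positivity, (min_le_left _ _).trans (min_le_left _ _), ?_⟩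
  intro θ ε hε hεθ hθ
  have hθ1 : θ ≤ 1 := hθ.trans ((min_le_left _ _).trans (min_le_left _ _))
  have hθe : θ ≤ e₀ := hθ.trans ((min_le_left _ _).trans (min_le_right _ _))
  have hθa : θ ≤ a₀ := hθ.trans ((min_le_right _ _).trans (min_le_left _ _))
  have hθv : CQ * (2 * θ) ≤ v R := by
    have h1 : θ ≤ v R / (2 * CQ) := hθ.trans ((min_le_right _ _).trans (min_le_right _ _))
    rw [le_div_iff₀ (by positivity)] at h1
    linarith
  have hθ0 : 0 < θ := hε.trans_le hεθ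
  obtain ⟨t₀, ht₀, hev⟩ := St2M.ev (CW + CW * ε⁻¹ ^ 8) ε hε
  refine ⟨t₀, ht₀, fun l f t N b hD ht => ⟨?_, ?_⟩⟩
  · obtain ⟨hev1, hev2⟩ := hev t ht
    have ht1 : 1 ≤ t := ht₀.trans ht
    have ht0 : 0 < t := by linarith
    obtain ⟨p1, p2, p3⟩ := St2M.pows hc hc1 ht1
    set a : ℝ := t ^ (-(1 / 20 : ℝ)) with ha
    have ha' : 0 < a := Real.rpow_pos_of_pos ht0 _
    have haθ : a ≤ θ := hev1.trans hεθ
    obtain ⟨J, hJ1, hJ2⟩ := St2M.dy ha' haθ
    have hrev : ∀ g, ‖Pb f t N b (g * wr)‖ = ‖Pb f t N b g‖ := fun g =>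
      hRev f t hD.hm N b hD.pack.even g
    have q1 := hQ' (Pb f t N b) hD.he.cont hrev 1 a ε θ (sk a) (sk ε) J one_pos le_rfl
      (hker a ha') (hker ε hε) hev1 hεθ hθ1 hJ1
    have w1 := (hW v l f t N b hD a ha' (haθ.trans hθe)).1
    have w2 := (hW v l f t N b hD ε hε (hεθ.trans hθe)).2
    have s1 := hS v C₀ K l f t N b hD R a θ J hR p3 hJ2 hθv
    have t1 := hT l _ hD.he
    set Φ := Pb f t N b with hΦ
    set V1 := V2 φ (sk a) (Sb f t N b) (Sb f t N b)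
    set V0 := V2 φ (sk ε) (Sb f t N b) (Sb f t N b)
    have hE : CW * a⁻¹ ^ 8 * t ^ (-(1 / 2) + 3 * (c / 800)) +
        CW * ε⁻¹ ^ 8 * t ^ (-(1 / 2) + 3 * (c / 800)) ≤ ε := by
      refine le_trans ?_ hev2
      have e1 := mul_le_mul_of_nonneg_left p1 hCW
      have e2 := mul_le_mul_of_nonneg_left p2 (by positivity : 0 ≤ CW * ε⁻¹ ^ 8)
      linarith
    have hθc : 0 ≤ θ ^ c := Real.rpow_nonneg hθ0.le c
    calc V1 ≤ Aw Φ φ (sk a) (ch 1) +
          ENNReal.ofReal (CW * a⁻¹ ^ 8 * t ^ (-(1 / 2) + 3 * (c / 800))) := w1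
      _ ≤ (Aw Φ φ (sk ε) (ch 1) + ENNReal.ofReal (CQ * ε / (θ ^ 2 * 1)) * ms Φ (Om R) ^ 2 +
          ENNReal.ofReal CQ * ∑ j ∈ Finset.range (J + 1),
            ENNReal.ofReal ((2 ^ j * a)⁻¹) * Cw Φ R (CQ * (2 ^ j * a))) +
          ENNReal.ofReal (CW * a⁻¹ ^ 8 * t ^ (-(1 / 2) + 3 * (c / 800))) := by gcongr
      _ ≤ ((V0 + ENNReal.ofReal (CW * ε⁻¹ ^ 8 * t ^ (-(1 / 2) + 3 * (c / 800)))) +
          ENNReal.ofReal (CQ * ε / (θ ^ 2 * 1)) * ENNReal.ofReal CT ^ 2 +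
          ENNReal.ofReal CQ * ENNReal.ofReal (CS * θ ^ c)) +
          ENNReal.ofReal (CW * a⁻¹ ^ 8 * t ^ (-(1 / 2) + 3 * (c / 800))) := by gcongr
      _ = V0 + ENNReal.ofReal (CW * ε⁻¹ ^ 8 * t ^ (-(1 / 2) + 3 * (c / 800)) +
          CQ * ε / (θ ^ 2 * 1) * CT ^ 2 + CQ * (CS * θ ^ c) +
          CW * a⁻¹ ^ 8 * t ^ (-(1 / 2) + 3 * (c / 800))) := by
          rw [← ENNReal.ofReal_pow hCT, ← ENNReal.ofReal_mul (by positivity),
            ← ENNReal.ofReal_mul (by positivity), add_assoc V0, add_assoc V0, add_assoc V0,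
            ← ENNReal.ofReal_add (by positivity) (by positivity),
            ← ENNReal.ofReal_add (by positivity) (by positivity),
            ← ENNReal.ofReal_add (by positivity) (by positivity)]
      _ ≤ V0 + ENNReal.ofReal ((CQ * CT ^ 2 + CQ * CS + 1 + Cs * Ck * Cm ^ 2) *
          (ε / θ ^ 2 + θ ^ c)) := by
          gcongr
          have h5 : ε ≤ ε / θ ^ 2 := by
            rw [le_div_iff₀ (by positivity)]
            nlinarith [pow_le_one₀ (n := 2) hθ0.le hθ1]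
          have h6 : 0 ≤ ε / θ ^ 2 := by positivity
          have h7 : CQ * ε / (θ ^ 2 * 1) * CT ^ 2 = CQ * CT ^ 2 * (ε / θ ^ 2) := by ring
          rw [h7]
          have h8 : 0 ≤ CQ * CT ^ 2 * θ ^ c := by positivity
          have h9 : 0 ≤ CQ * CS * (ε / θ ^ 2) := by positivity
          have h10 : 0 ≤ Cs * Ck * Cm ^ 2 * (ε / θ ^ 2 + θ ^ c) := by positivity
          nlinarith
  · obtain ⟨s1, s2, s3⟩ := hSti (Pb f t N b) hD.he.cont
    have hSe := St2M.Sb_eq hFib hD.hm N b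
    have hcs : Continuous (Sb f t N b) := by
      rw [hSe]
      exact Continuous.comp (f := fun z : ℍ => ((0 : ℝ), z)) s1 (by fun_prop)
    have hns : ∀ z, 0 ≤ Sb f t N b z := by
      intro z
      rw [hSe]
      exact s2 0 z
    have h1 := (hSch1 Ck ε (sk ε) (hεθ.trans hθa) (hker ε hε)).1 (Sb f t N b) (Sb f t N b) hcs hcs
    have h2 := h1.2 hns hns
    refine h2.trans (ENNReal.ofReal_le_ofReal ?_)
    have h3 := hm c C₀ K v l f t N b hD
    have h4 : 0 ≤ ∫ z : ℍ, ζ z * Sb f t N b z :=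
      integral_nonneg fun z => mul_nonneg (hζ.nonneg _) (hns z)
    have h5 : (∫ z : ℍ, ζ z * Sb f t N b z) * ∫ z : ℍ, ζ z * Sb f t N b z ≤ Cm ^ 2 := by
      rw [pow_two]
      exact mul_le_mul h3 h3 h4 hCm
    calc Cs * Ck / ε ^ 2 * ((∫ z : ℍ, ζ z * Sb f t N b z) * ∫ z : ℍ, ζ z * Sb f t N b z)
        ≤ Cs * Ck / ε ^ 2 * Cm ^ 2 := mul_le_mul_of_nonneg_left h5 (by positivity)
      _ = Cs * Ck * Cm ^ 2 / ε ^ 2 := by ring
      _ ≤ (CQ * CT ^ 2 + CQ * CS + 1 + Cs * Ck * Cm ^ 2) / ε ^ 2 := by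
          gcongr
          have : 0 ≤ CQ * CT ^ 2 + CQ * CS + 1 := by positivity
          linarith

end

end Pool.Agent.A54.Hp
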