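import Pool.Agent.Lib.MP_a54f13_nt.Hp.SpecN

/-!
# Package `Hp`, part N, module Stp: the main inequality
-/

set_option autoImplicit false

namespace Pool.Agent.A54.Hp

open MeasureTheory Filter Topology Set
open scoped ContDiff ComplexConjugate UpperHalfPlane MatrixGroups ENNReal
open Pool.Agent.A54.Dyn (G)
open Pool.Agent.A54.Av (Mat)

noncomputable section

namespace StpN

instance instCountableMat : Countable Mat := inferInstanceAs (Countable (Fin 2 → Fin 2 → ℤ))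

/-- the matrices of determinant `p q` -/
def DD (M : ℝ) : Set Mat := {s : Mat | ∃ p ∈ Pm M, ∃ q ∈ Pm M, s.det = ((p * q : ℕ) : ℤ)}

lemma Vb_open (U : Set G) {b : Set G} (hb : IsOpen b) : IsOpen (Vb U b) := by
  have : Vb U b = ⋃ u ∈ U, {x : G | x⁻¹ * u ∈ b} := by
    ext x
    simp only [Vb, mem_ofPred_eq, mem_iUnion, exists_prop]
    constructor
    · rintro ⟨β, hβ, h1⟩
      exact ⟨x * β, h1, by simpa using hβ⟩
    · rintro ⟨u, hu, h1⟩
      exact ⟨x⁻¹ * u, h1, by simpa using hu⟩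
  rw [this]
  exact isOpen_biUnion fun u _ => hb.preimage (continuous_inv.mul continuous_const)

lemma Vb_mono (U : Set G) {b b' : Set G} (h : b ⊆ b') : Vb U b ⊆ Vb U b' :=
  fun _ ⟨β, hβ, h1⟩ => ⟨β, h hβ, h1⟩

lemma bt_mono {c c' w : ℝ} (hc : c ≤ c') (hw : 0 ≤ w) : bt c (c * w) ⊆ bt c' (c' * w) := by
  intro g hg
  obtain ⟨h0, h1, h2⟩ := hg
  have h3 : c * w ≤ c' * w := mul_le_mul_of_nonneg_right hc hw
  exact ⟨h0.trans_le hc, h1.trans_le h3, h2.trans_le h3⟩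

lemma bt_open (c w : ℝ) : IsOpen (bt c w) := by
  have h0 : IsOpen {g : G | |g 0 0 - 1| < c} :=
    isOpen_lt ((Dyn.continuous_entry 0 0).sub continuous_const).abs continuous_const
  have h1 : IsOpen {g : G | |g 0 1| < w} :=
    isOpen_lt (Dyn.continuous_entry 0 1).abs continuous_const
  have h2 : IsOpen {g : G | |g 1 0| < w} :=
    isOpen_lt (Dyn.continuous_entry 1 0).abs continuous_const
  exact h0.inter (h1.inter h2)

lemma Zc_mono {R η K η' K' : ℝ} (h1 : η ≤ η') (h2 : K ≤ K') : Zc R η K ⊆ Zc R η' K' := by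
  rintro x ⟨hx, u, hu, h⟩
  refine ⟨hx, u, hu, ?_⟩
  rcases h with ⟨ha, hb⟩ | ⟨ha, hb⟩
  · exact Or.inl ⟨ha.trans h1, hb.trans h2⟩
  · exact Or.inr ⟨ha.trans h1, hb.trans h2⟩

lemma tube_mass (Φ : G → ℂ) (R w A : ℝ) (U b : Set G) (hU : U ⊆ Ul Φ R w A)
    (hb : ∀ β ∈ b, ∀ β' ∈ b, ∀ u ∈ Om R, ∀ i, |xi (u * (β⁻¹ * β')) i - xi u i| ≤ w) (x : G) :
    ms Φ (U ∩ {g | x⁻¹ * g ∈ b}) ≤ ENNReal.ofReal (2 * A) := by
  by_cases hne : (U ∩ {g | x⁻¹ * g ∈ b}).Nonempty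
  · obtain ⟨u₀, hu₀, hu₁⟩ := hne
    have h1 : U ∩ {g | x⁻¹ * g ∈ b} ⊆ Tb R (xi u₀) w := by
      rintro g ⟨hg, hg1⟩
      refine ⟨(hU hg).1, fun i => ?_⟩
      have h2 := hb (x⁻¹ * u₀) hu₁ (x⁻¹ * g) hg1 u₀ (hU hu₀).1 i
      have h3 : u₀ * ((x⁻¹ * u₀)⁻¹ * (x⁻¹ * g)) = g := by group
      rwa [h3] at h2
    exact (lintegral_mono_set h1).trans (hU hu₀).2.2.le
  · rw [not_nonempty_iff_eq_empty] at hne
    rw [hne]
    unfold ms
    simp

lemma swap (M : ℝ) {V : Set G} (hV : IsOpen V) : ∫⁻ x in V, nS M V x ∂nu =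
    ∑' s : Mat, (DD M).indicator (fun s => nu {x | x ∈ V ∧ nm s * x ∈ V}) s := by
  have ho : ∀ s : Mat, IsOpen {x : G | nm s * x ∈ V} := fun s =>
    hV.preimage (continuous_const.mul continuous_id)
  have h1 : ∀ s : Mat, (fun x : G => (Sx M V x).indicator (fun _ => (1 : ℝ≥0∞)) s) =
      fun x => (DD M).indicator (fun _ => (1 : ℝ≥0∞)) s *
        {x : G | nm s * x ∈ V}.indicator (fun _ => (1 : ℝ≥0∞)) x := by
    intro s
    funext x
    by_cases hD : s ∈ DD M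
    · rw [indicator_of_mem hD, one_mul]
      by_cases hx : nm s * x ∈ V
      · have h2 : s ∈ Sx M V x := ⟨hD, hx⟩
        have h3 : x ∈ {x : G | nm s * x ∈ V} := hx
        rw [indicator_of_mem h2, indicator_of_mem h3]
      · have h2 : s ∉ Sx M V x := fun h => hx h.2
        have h3 : x ∉ {x : G | nm s * x ∈ V} := hx
        rw [indicator_of_notMem h2, indicator_of_notMem h3]
    · have h2 : s ∉ Sx M V x := fun h => hD h.1
      rw [indicator_of_notMem hD, indicator_of_notMem h2, zero_mul]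
  have hm : ∀ s : Mat, Measurable fun x : G => (Sx M V x).indicator (fun _ => (1 : ℝ≥0∞)) s := by
    intro s
    rw [h1 s]
    exact measurable_const.mul (measurable_const.indicator (ho s).measurableSet)
  have h0 : ∀ x : G, nS M V x = ∑' s : Mat, (Sx M V x).indicator (fun _ => (1 : ℝ≥0∞)) s :=
    fun x => rfl
  rw [lintegral_congr h0, lintegral_tsum fun s => (hm s).aemeasurable]
  refine tsum_congr fun s => ?_
  rw [h1 s, lintegral_const_mul _ (measurable_const.indicator (ho s).measurableSet),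
    lintegral_indicator_const (ho s).measurableSet, one_mul,
    Measure.restrict_apply (ho s).measurableSet]
  by_cases hD : s ∈ DD M
  · rw [indicator_of_mem hD, indicator_of_mem hD, one_mul]
    congr 1
    ext x
    exact and_comm
  · rw [indicator_of_notMem hD, indicator_of_notMem hD, zero_mul]

lemma card_le {M : ℝ} (hM : 1 ≤ M) : ((Pm M).card : ℝ≥0∞) ≤ ENNReal.ofReal (2 * M) := by
  have h1 : (Pm M).card ≤ ⌊2 * M⌋₊ := by
    unfold Pm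
    refine (Finset.card_filter_le _ _).trans ?_
    rw [Nat.card_Ioc]
    omega
  have h2 : ((Pm M).card : ℝ) ≤ 2 * M :=
    (Nat.cast_le.2 h1).trans (Nat.floor_le (by linarith))
  rw [← ENNReal.ofReal_natCast]
  exact ENNReal.ofReal_le_ofReal h2

/-- the real constants -/
lemma consts {C₂ C₃ C₄ κ M w A : ℝ} (h2 : 1 ≤ C₂) (h3 : 0 ≤ C₃) (h4 : 0 ≤ C₄) (hκ : 0 < κ)
    (hM : 1 ≤ M) (hw : 0 < w) (hA : 0 < A) :
    4 * (C₂ * (M ^ 4 * (C₃ * w ^ 2 / A) + M ^ (-(4 : ℝ)) * w ^ (-(6 : ℝ)))) * C₃ / (M * κ) ≤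
      (1 + 8 * C₂ + 4 * C₂ * C₃ ^ 2 / κ + 4 * C₂ * C₃ / κ + 2 * C₄) *
        (M ^ (3 : ℝ) * w ^ (2 : ℝ) / A + M ^ (-(5 : ℝ)) * w ^ (-(6 : ℝ))) := by
  have hM0 : 0 < M := by linarith
  have e1 : M ^ (3 : ℝ) = M ^ 3 := by
    rw [← Real.rpow_natCast]
    norm_num
  have e2 : w ^ (2 : ℝ) = w ^ 2 := by
    rw [← Real.rpow_natCast]
    norm_num
  have e3 : M ^ (-(5 : ℝ)) = M ^ (-(4 : ℝ)) / M := by
    rw [← Real.rpow_sub_one hM0.ne']
    norm_num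
  rw [e1, e2, e3]
  set a := M ^ (-(4 : ℝ)) with ha
  set d := w ^ (-(6 : ℝ)) with hd
  have ha0 : 0 < a := Real.rpow_pos_of_pos hM0 _
  have hd0 : 0 < d := Real.rpow_pos_of_pos hw _
  have e4 : 4 * (C₂ * (M ^ 4 * (C₃ * w ^ 2 / A) + a * d)) * C₃ / (M * κ) =
      4 * C₂ * C₃ ^ 2 / κ * (M ^ 3 * w ^ 2 / A) + 4 * C₂ * C₃ / κ * (a / M * d) := by
    field_simp
  rw [e4, mul_add]
  have p1 : 0 ≤ M ^ 3 * w ^ 2 / A := by positivity
  have p2 : 0 ≤ a / M * d := by positivity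
  have q1 : 0 ≤ 4 * C₂ * C₃ ^ 2 / κ := by positivity
  have q2 : 0 ≤ 4 * C₂ * C₃ / κ := by positivity
  refine add_le_add (mul_le_mul_of_nonneg_right ?_ p1) (mul_le_mul_of_nonneg_right ?_ p2)
  · linarith
  · linarith

end StpN

open StpN

theorem stmtStp (hL : StmtNuL) (hVol : StmtVol) (hBt : StmtBt) (_hTot : StmtTot) (hAI : StmtAI)
    (hDds : StmtDds) (hCS : StmtCS) (hVV : StmtVV) (hZt : StmtZt) (hRet : StmtRet)
    (hTwo : StmtTwo) : StmtStp := by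
  obtain ⟨i1, i2, i3, -, -⟩ := hL
  intro R hR
  obtain ⟨c₀, hc₀, hc₀', hB₀⟩ := hBt R 1 hR one_pos
  obtain ⟨c₁, hc₁, hc₁', hB₁⟩ := hBt (8 * R) 1 (by linarith) one_pos
  have hcpos : 0 < min c₀ c₁ := lt_min hc₀ hc₁
  generalize hcdef : min c₀ c₁ = c at hcpos
  have hcc₀ : c ≤ c₀ := hcdef ▸ min_le_left _ _
  have hcc₁ : c ≤ c₁ := hcdef ▸ min_le_right _ _
  have hc2 : c ≤ 1 / 2 := hcc₀.trans hc₀'
  obtain ⟨C₂, hC₂, hRet'⟩ := hRet (8 * R) c (by linarith) hcpos hc2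
  obtain ⟨C₃, hC₃, hVV'⟩ := hVV R hR
  obtain ⟨C₄, hC₄, hDds2⟩ := hDds.2 R hR
  obtain ⟨κ₀, hκ₀, hVol'⟩ := hVol.2.1 c hcpos hc2
  have hκ : 0 < κ₀ * c ^ 2 := by positivity
  refine ⟨1 + 8 * C₂ + 4 * C₂ * C₃ ^ 2 / (κ₀ * c ^ 2) + 4 * C₂ * C₃ / (κ₀ * c ^ 2) + 2 * C₄, ?_, ?_⟩
  · have q1 : 0 ≤ 4 * C₂ * C₃ ^ 2 / (κ₀ * c ^ 2) := by positivity
    have q2 : 0 ≤ 4 * C₂ * C₃ / (κ₀ * c ^ 2) := by positivity
    linarith
  intro l Φ hΦ w M A hw hw1 hM hMw hCM hA hGd U hUm hU hdis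
  have hCdef : 8 * C₂ ≤
      1 + 8 * C₂ + 4 * C₂ * C₃ ^ 2 / (κ₀ * c ^ 2) + 4 * C₂ * C₃ / (κ₀ * c ^ 2) + 2 * C₄ := by
    have q1 : 0 ≤ 4 * C₂ * C₃ ^ 2 / (κ₀ * c ^ 2) := by positivity
    have q2 : 0 ≤ 4 * C₂ * C₃ / (κ₀ * c ^ 2) := by positivity
    linarith
  have hcon := consts hC₂ hC₃ hC₄ hκ hM hw hA
  have hC4' : 2 * C₄ ≤
      1 + 8 * C₂ + 4 * C₂ * C₃ ^ 2 / (κ₀ * c ^ 2) + 4 * C₂ * C₃ / (κ₀ * c ^ 2) + 2 * C₄ := by
    have q1 : 0 ≤ 4 * C₂ * C₃ ^ 2 / (κ₀ * c ^ 2) := by positivity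
    have q2 : 0 ≤ 4 * C₂ * C₃ / (κ₀ * c ^ 2) := by positivity
    linarith
  generalize hC : 1 + 8 * C₂ + 4 * C₂ * C₃ ^ 2 / (κ₀ * c ^ 2) + 4 * C₂ * C₃ / (κ₀ * c ^ 2) +
    2 * C₄ = C at hCM hdis hCdef hcon hC4' ⊢
  clear hC
  have hM0 : 0 < M := by linarith
  have hC0 : 0 ≤ C := by linarith
  -- the small tube
  obtain ⟨hB₀1, hB₀2, hB₀3⟩ := hB₀ w hw hw1
  obtain ⟨hB₁1, hB₁2, hB₁3⟩ := hB₁ w hw hw1
  have hb0 : bt c (c * w) ⊆ bt c₀ (c₀ * w) := bt_mono hcc₀ hw.le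
  have hb1 : bt c (c * w) ⊆ bt c₁ (c₁ * w) := bt_mono hcc₁ hw.le
  have hbo : IsOpen (bt c (c * w)) := bt_open _ _
  have hUR : U ⊆ Om R := fun u hu => (hU hu).1
  have hV1 : Vb U (bt c (c * w)) ⊆ Om (8 * R) ∧
      ∀ x ∈ Vb U (bt c (c * w)), ∃ u ∈ U, ∀ i, |xi x i - xi u i| ≤ w :=
    ⟨(Vb_mono U hb0).trans (hB₀2 U hUR).1, fun x hx => (hB₀2 U hUR).2 x (Vb_mono U hb0 hx)⟩
  have h64 : 8 * (8 * R) = 64 * R := by ring
  have hV2 : Vb (Vb U (bt c (c * w))) (bt c (c * w)) ⊆ Om (64 * R) ∧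
      ∀ x ∈ Vb (Vb U (bt c (c * w))) (bt c (c * w)), ∃ u ∈ Vb U (bt c (c * w)),
        ∀ i, |xi x i - xi u i| ≤ w := by
    have := hB₁2 (Vb U (bt c (c * w))) hV1.1
    rw [h64] at this
    exact ⟨(Vb_mono _ hb1).trans this.1, fun x hx => this.2 x (Vb_mono _ hb1 hx)⟩
  have hVV1 := hVV' l Φ hΦ w U (bt c (c * w)) hw hw1 hUm hUR hbo hV1 hV2 (ENNReal.ofReal A)
    (fun u hu => (hU hu).2.1)
  have hmass : ∀ x : G, ms Φ (U ∩ {g | x⁻¹ * g ∈ bt c (c * w)}) ≤ ENNReal.ofReal (2 * A) :=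
    tube_mass Φ R w A U _ hU fun β hβ β' hβ' u hu i =>
      (hB₀1 β (hb0 hβ) β' (hb0 hβ')).2 u hu i
  have hcs := hCS Φ hΦ.cont U (bt c (c * w)) hUm hbo (ENNReal.ofReal (2 * A)) hmass
  have hnub : ENNReal.ofReal (κ₀ * c ^ 2 * w ^ 2) ≤ nu (bt c (c * w)) := by
    refine le_trans (le_of_eq ?_) (hVol' (c * w) (by positivity) (by nlinarith))
    ring_nf
  generalize hbdef : bt c (c * w) = b at *
  generalize hVdef : Vb U b = V at *
  have hVo : IsOpen V := hVdef ▸ Vb_open U hbo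
  -- returns
  have hN0 : 0 ≤ C₂ * (M ^ 4 * (C₃ * w ^ 2 / A) + M ^ (-(4 : ℝ)) * w ^ (-(6 : ℝ))) := by
    have := Real.rpow_pos_of_pos hM0 (-(4 : ℝ))
    have := Real.rpow_pos_of_pos hw (-(6 : ℝ))
    positivity
  have hVbV : nu (Vb V b) ≤ ENNReal.ofReal (C₃ * w ^ 2 / A) := by
    rw [ENNReal.ofReal_div_of_pos hA, ENNReal.le_div_iff_mul_le
      (Or.inl (ENNReal.ofReal_pos.2 hA).ne') (Or.inl ENNReal.ofReal_ne_top), mul_comm]
    exact hVV1.2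
  have hret : ∀ x ∈ V, nS M V x ≤ ENNReal.ofReal
      (C₂ * (M ^ 4 * (C₃ * w ^ 2 / A) + M ^ (-(4 : ℝ)) * w ^ (-(6 : ℝ)))) := by
    intro x hx
    have hMw0 : 0 < M * w := mul_pos hM0 hw
    have hη : 0 < C₂ / M := by positivity
    have hηK : C₂ / M ≤ C₂ / (M * w) := by
      refine div_le_div_of_nonneg_left (by linarith) hMw0 ?_
      nlinarith
    have hwK : w * (C₂ / (M * w)) ≤ C₂ / M := by
      refine le_of_eq ?_
      field_simp
    have hnot : x ∉ Zc (8 * R) (C₂ / M) (C₂ / (M * w)) := by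
      intro hxZ
      have hx' : x ∈ Vb U (bt c (c * w)) := by rw [hbdef, hVdef]; exact hx
      obtain ⟨y, hy, hyZ⟩ := hZt R (8 * R) c w (C₂ / M) (C₂ / (M * w)) hcpos hc2 hw hw1 hη hηK hwK
        U hUR x hx' hxZ
      refine Set.disjoint_left.1 hdis hy (Zc_mono ?_ ?_ hyZ)
      · rw [← mul_div_assoc]
        exact div_le_div_of_nonneg_right hCdef hM0.le
      · rw [← mul_div_assoc]
        exact div_le_div_of_nonneg_right hCdef hMw0.le
    have h1 := hRet' w M hw hw1 hM hMw (by linarith) V hVo hV1.1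
      (by rw [hbdef, h64]; exact hV2.1) (by rw [hbdef]; exact hbo) x hx hnot
    rw [hbdef] at h1
    refine h1.trans ?_
    rw [ENNReal.ofReal_mul (p := C₂) (by linarith)]
    refine mul_le_mul_right ?_ _
    have p0 : 0 ≤ M ^ (-(4 : ℝ)) * w ^ (-(6 : ℝ)) := by
      have := Real.rpow_pos_of_pos hM0 (-(4 : ℝ))
      have := Real.rpow_pos_of_pos hw (-(6 : ℝ))
      positivity
    rw [ENNReal.ofReal_add (by positivity) p0]
    refine add_le_add ?_ le_rfl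
    rw [ENNReal.ofReal_mul (p := M ^ 4) (by positivity)]
    exact mul_le_mul_right hVbV _
  generalize hNdef : C₂ * (M ^ 4 * (C₃ * w ^ 2 / A) + M ^ (-(4 : ℝ)) * w ^ (-(6 : ℝ))) = N at *
  have hint : ∫⁻ x in V, nS M V x ∂nu ≤ ENNReal.ofReal N * nu V := by
    calc ∫⁻ x in V, nS M V x ∂nu ≤ ∫⁻ _ in V, ENNReal.ofReal N ∂nu :=
          setLIntegral_mono' hVo.measurableSet hret
      _ = ENNReal.ofReal N * nu V := by rw [setLIntegral_const]
  -- sums over pairs of primes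
  generalize hS1 : ∑ p ∈ Pm M, ∑ q ∈ Pm M, ENNReal.ofReal ((√((p : ℝ) * q))⁻¹) *
    ∑' s : Mn (p * q), Dd Φ U (nm s.1) = S1
  have hS1le : nu b * S1 ≤ ENNReal.ofReal (4 * N * C₃ * w ^ 2 / M) := by
    have h1 : S1 ≤ ENNReal.ofReal (2 / M) * ∑' s : Mat, (DD M).indicator (fun s => Dd Φ U (nm s)) s := by
      rw [← hS1]
      exact hTwo M hM fun s => Dd Φ U (nm s)
    have h2 : nu b * ∑' s : Mat, (DD M).indicator (fun s => Dd Φ U (nm s)) s ≤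
        ENNReal.ofReal (2 * A) * ∫⁻ x in V, nS M V x ∂nu := by
      rw [swap M hVo, ← ENNReal.tsum_mul_left, ← ENNReal.tsum_mul_left]
      refine ENNReal.tsum_le_tsum fun s => ?_
      by_cases hs : s ∈ DD M
      · rw [indicator_of_mem hs, indicator_of_mem hs]
        exact hcs (nm s)
      · rw [indicator_of_notMem hs, indicator_of_notMem hs, mul_zero, mul_zero]
    calc nu b * S1 ≤ nu b * (ENNReal.ofReal (2 / M) *
          ∑' s : Mat, (DD M).indicator (fun s => Dd Φ U (nm s)) s) := mul_le_mul_right h1 _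
      _ = ENNReal.ofReal (2 / M) * (nu b *
          ∑' s : Mat, (DD M).indicator (fun s => Dd Φ U (nm s)) s) := by ring
      _ ≤ ENNReal.ofReal (2 / M) * (ENNReal.ofReal (2 * A) * (ENNReal.ofReal N * nu V)) :=
          mul_le_mul_right (h2.trans (mul_le_mul_right hint _)) _
      _ = ENNReal.ofReal (4 * N / M) * (ENNReal.ofReal A * nu V) := by
          rw [ENNReal.ofReal_mul (p := 2) (by norm_num : (0 : ℝ) ≤ 2)]
          have e1 : ENNReal.ofReal (4 * N / M) =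
              ENNReal.ofReal (2 / M) * ENNReal.ofReal 2 * ENNReal.ofReal N := by
            rw [← ENNReal.ofReal_mul (by positivity), ← ENNReal.ofReal_mul (by positivity)]
            congr 1
            ring
          rw [e1]
          ring
      _ ≤ ENNReal.ofReal (4 * N / M) * ENNReal.ofReal (C₃ * w ^ 2) := mul_le_mul_right hVV1.1 _
      _ = ENNReal.ofReal (4 * N * C₃ * w ^ 2 / M) := by
          rw [← ENNReal.ofReal_mul (by positivity)]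
          congr 1
          ring
  have hκw : 0 < κ₀ * c ^ 2 * w ^ 2 := by positivity
  have hS2 : S1 ≤ ENNReal.ofReal (4 * N * C₃ / (M * (κ₀ * c ^ 2))) := by
    have h1 : S1 * ENNReal.ofReal (κ₀ * c ^ 2 * w ^ 2) ≤ ENNReal.ofReal (4 * N * C₃ * w ^ 2 / M) := by
      rw [mul_comm]
      exact (mul_le_mul_left hnub _).trans hS1le
    have h2 : S1 ≤ ENNReal.ofReal (4 * N * C₃ * w ^ 2 / M) / ENNReal.ofReal (κ₀ * c ^ 2 * w ^ 2) := by
      rw [ENNReal.le_div_iff_mul_le (Or.inl (ENNReal.ofReal_pos.2 hκw).ne')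
        (Or.inl ENNReal.ofReal_ne_top)]
      exact h1
    refine h2.trans (le_of_eq ?_)
    rw [← ENNReal.ofReal_div_of_pos hκw]
    congr 1
    field_simp
  -- the amplifier inequality
  have hai := hAI l Φ hΦ R U hUm hUR (Pm M) (fun p hp => (Finset.mem_filter.1 hp).2)
  rw [hS1] at hai
  have hgd : ENNReal.ofReal (M ^ (1998 / 1000 : ℝ)) ≤ ENNReal.ofReal (∑ p ∈ Pm M, |l p|) ^ 2 := by
    have h1 : M ^ (1998 / 1000 : ℝ) = (M ^ (1 - 1 / 1000 : ℝ)) ^ 2 := by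
      rw [← Real.rpow_natCast, ← Real.rpow_mul hM0.le]
      norm_num
    have h2 : 0 ≤ M ^ (1 - 1 / 1000 : ℝ) := Real.rpow_nonneg hM0.le _
    rw [h1, ENNReal.ofReal_pow h2]
    exact pow_le_pow_left' (ENNReal.ofReal_le_ofReal hGd) 2
  have hd := hDds2 Φ hΦ.cont U hUm hUR
  calc ENNReal.ofReal (M ^ (1998 / 1000 : ℝ)) * ms Φ U ^ 2
      ≤ ENNReal.ofReal (∑ p ∈ Pm M, |l p|) ^ 2 * ms Φ U ^ 2 := mul_le_mul_left hgd _
    _ ≤ S1 + ((Pm M).card : ℝ≥0∞) * ∑' γ : SL(2, ℤ), Dd Φ U (Dyn.io γ) := hai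
    _ ≤ ENNReal.ofReal (C * (M ^ (3 : ℝ) * w ^ (2 : ℝ) / A + M ^ (-(5 : ℝ)) * w ^ (-(6 : ℝ)))) +
        ENNReal.ofReal (2 * M) * (ENNReal.ofReal C₄ * ms Φ U) :=
        add_le_add (hS2.trans (ENNReal.ofReal_le_ofReal hcon)) (mul_le_mul' (card_le hM) hd)
    _ ≤ _ := by
        have p1 : 0 ≤ M ^ (3 : ℝ) * w ^ (2 : ℝ) / A := by
          have := Real.rpow_pos_of_pos hM0 (3 : ℝ)
          have := Real.rpow_pos_of_pos hw (2 : ℝ)
          positivity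
        have p2 : 0 ≤ M ^ (-(5 : ℝ)) * w ^ (-(6 : ℝ)) := by
          have := Real.rpow_pos_of_pos hM0 (-(5 : ℝ))
          have := Real.rpow_pos_of_pos hw (-(6 : ℝ))
          positivity
        rw [ENNReal.ofReal_mul hC0, ENNReal.ofReal_add p1 p2,
          mul_add (ENNReal.ofReal C) (_ + _) (ENNReal.ofReal M * ms Φ U)]
        refine add_le_add le_rfl ?_
        rw [← mul_assoc, ← mul_assoc, ← ENNReal.ofReal_mul (by positivity),
          ← ENNReal.ofReal_mul hC0]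
        refine mul_le_mul_left (ENNReal.ofReal_le_ofReal ?_) _
        nlinarith

end

end Pool.Agent.A54.Hp
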