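import Pool.Agent.Lib.MP_a54f13_nt.Hp.SpecL
import Pool.Agent.Lib.MP_a54f13_nt.Hp.Stp

/-!
# Package `Hp`, part L, module StL: the main inequality for one good block
-/

set_option autoImplicit false

namespace Pool.Agent.A54.Hp

open MeasureTheory Filter Topology Set
open scoped ContDiff ComplexConjugate UpperHalfPlane MatrixGroups ENNReal
open Pool.Agent.A54.Dyn (G)
open Pool.Agent.A54.Av (Mat)

noncomputable section

namespace StLL

lemma Tb_mono {R : ℝ} {ζ : Fin 3 → ℝ} {a b : ℝ} (h : a ≤ b) : Tb R ζ a ⊆ Tb R ζ b :=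
  fun _ hg => ⟨hg.1, fun i => (hg.2 i).trans h⟩

lemma ms_mono (Φ : G → ℂ) {U V : Set G} (h : U ⊆ V) : ms Φ U ≤ ms Φ V := lintegral_mono_set h

lemma swap (D : Set Mat) {V : Set G} (hV : IsOpen V) :
    ∫⁻ x in V, (∑' s : Mat, {s : Mat | s ∈ D ∧ nm s * x ∈ V}.indicator
      (fun _ => (1 : ℝ≥0∞)) s) ∂nu =
    ∑' s : Mat, D.indicator (fun s => nu {x | x ∈ V ∧ nm s * x ∈ V}) s := by
  have ho : ∀ s : Mat, IsOpen {x : G | nm s * x ∈ V} := fun s =>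
    hV.preimage (continuous_const.mul continuous_id)
  have h1 : ∀ s : Mat, (fun x : G => {s : Mat | s ∈ D ∧ nm s * x ∈ V}.indicator
      (fun _ => (1 : ℝ≥0∞)) s) =
      fun x => D.indicator (fun _ => (1 : ℝ≥0∞)) s *
        {x : G | nm s * x ∈ V}.indicator (fun _ => (1 : ℝ≥0∞)) x := by
    intro s
    funext x
    by_cases hD : s ∈ D
    · rw [indicator_of_mem hD, one_mul]
      by_cases hx : nm s * x ∈ V
      · have h2 : s ∈ {s : Mat | s ∈ D ∧ nm s * x ∈ V} := ⟨hD, hx⟩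
        have h3 : x ∈ {x : G | nm s * x ∈ V} := hx
        rw [indicator_of_mem h2, indicator_of_mem h3]
      · have h2 : s ∉ {s : Mat | s ∈ D ∧ nm s * x ∈ V} := fun h => hx h.2
        have h3 : x ∉ {x : G | nm s * x ∈ V} := hx
        rw [indicator_of_notMem h2, indicator_of_notMem h3]
    · have h2 : s ∉ {s : Mat | s ∈ D ∧ nm s * x ∈ V} := fun h => hD h.1
      rw [indicator_of_notMem hD, indicator_of_notMem h2, zero_mul]
  have hm : ∀ s : Mat, Measurable fun x : G => {s : Mat | s ∈ D ∧ nm s * x ∈ V}.indicator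
      (fun _ => (1 : ℝ≥0∞)) s := by
    intro s
    rw [h1 s]
    exact measurable_const.mul (measurable_const.indicator (ho s).measurableSet)
  rw [lintegral_tsum fun s => (hm s).aemeasurable]
  refine tsum_congr fun s => ?_
  rw [h1 s, lintegral_const_mul _ (measurable_const.indicator (ho s).measurableSet),
    lintegral_indicator_const (ho s).measurableSet, one_mul,
    Measure.restrict_apply (ho s).measurableSet]
  by_cases hD : s ∈ D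
  · rw [indicator_of_mem hD, indicator_of_mem hD, one_mul]
    congr 1
    ext x
    exact and_comm
  · rw [indicator_of_notMem hD, indicator_of_notMem hD, zero_mul]

/-- the special points of `V'` -/
lemma special {R w' c₆ c₇ : ℝ} {A T : ℝ≥0∞} (Z : Finset (Fin 3 → ℝ)) (hZ : (Z.card : ℝ) ≤ c₆)
    (S V' : Set G) (hcov : ∀ y ∈ S, ∃ ζ ∈ Z, y ∈ Tb R ζ w')
    (hVT : ∀ ζ : Fin 3 → ℝ, A * nu (V' ∩ {y | ∀ i, |xi y i - ζ i| ≤ w'}) ≤
      ENNReal.ofReal c₇ * T) :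
    A * nu (V' ∩ S) ≤ ENNReal.ofReal c₆ * (ENNReal.ofReal c₇ * T) := by
  have h1 : V' ∩ S ⊆ ⋃ ζ ∈ Z, (V' ∩ {y | ∀ i, |xi y i - ζ i| ≤ w'}) := by
    rintro y ⟨hy, hyS⟩
    obtain ⟨ζ, hζ, hyζ⟩ := hcov y hyS
    exact mem_biUnion hζ ⟨hy, hyζ.2⟩
  have h2 : nu (V' ∩ S) ≤ ∑ ζ ∈ Z, nu (V' ∩ {y | ∀ i, |xi y i - ζ i| ≤ w'}) :=
    (measure_mono h1).trans (measure_biUnion_finset_le _ _)
  have h3 : ((Z.card : ℕ) : ℝ≥0∞) ≤ ENNReal.ofReal c₆ := by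
    rw [← ENNReal.ofReal_natCast]
    exact ENNReal.ofReal_le_ofReal hZ
  calc A * nu (V' ∩ S) ≤ A * ∑ ζ ∈ Z, nu (V' ∩ {y | ∀ i, |xi y i - ζ i| ≤ w'}) :=
        mul_le_mul_right h2 _
    _ = ∑ ζ ∈ Z, A * nu (V' ∩ {y | ∀ i, |xi y i - ζ i| ≤ w'}) := Finset.mul_sum _ _ _
    _ ≤ ∑ _ζ ∈ Z, ENNReal.ofReal c₇ * T := Finset.sum_le_sum fun ζ _ => hVT ζ
    _ = ((Z.card : ℕ) : ℝ≥0∞) * (ENNReal.ofReal c₇ * T) := by
        rw [Finset.sum_const, nsmul_eq_mul]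
    _ ≤ ENNReal.ofReal c₆ * (ENNReal.ofReal c₇ * T) := mul_le_mul_left h3 _

/-- the term of a large `Y` -/
lemma large {C₂ C₃ C₆ C₇ C₈ Mk Y K w A : ℝ} (h2 : 0 ≤ C₂) (h3 : 0 ≤ C₃) (h6 : 0 ≤ C₆)
    (h7 : 0 ≤ C₇) (hMk : 0 < Mk) (hY : 0 < Y) (hK : 0 < K) (hw : 0 < w) (hA : 0 < A)
    (h8a : C₂ * C₃ ≤ C₈) (h8b : C₂ * C₆ * C₇ ≤ C₈) {N nV nS T : ℝ≥0∞}
    (hN : N ≤ ENNReal.ofReal C₂ * (ENNReal.ofReal (Y ^ 2 / (K ^ 2 * w ^ 2)) * nV +
      ENNReal.ofReal (Y ^ 2 / w ^ 2) * nS))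
    (hV : ENNReal.ofReal A * nV ≤ ENNReal.ofReal (C₃ * w ^ 2))
    (hS : ENNReal.ofReal A * nS ≤
      ENNReal.ofReal (C₆ * K ^ 4) * (ENNReal.ofReal (C₇ * w ^ 2) * T)) (X₀ : ℝ≥0∞) :
    ENNReal.ofReal (Mk / Y ^ 2) * N ≤ ENNReal.ofReal C₈ * (X₀ + ENNReal.ofReal (Mk / A) *
      (ENNReal.ofReal (1 / K ^ 2) + ENNReal.ofReal (K ^ 4) * T)) := by
  have e1 : ENNReal.ofReal (Mk / Y ^ 2) =
      ENNReal.ofReal (Mk / A) * ENNReal.ofReal (1 / Y ^ 2) * ENNReal.ofReal A := by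
    rw [← ENNReal.ofReal_mul (by positivity), ← ENNReal.ofReal_mul (by positivity)]
    congr 1
    field_simp
  have e2 : ENNReal.ofReal (1 / Y ^ 2) * (ENNReal.ofReal C₂ *
      ENNReal.ofReal (Y ^ 2 / (K ^ 2 * w ^ 2)) * ENNReal.ofReal (C₃ * w ^ 2)) =
      ENNReal.ofReal (C₂ * C₃) * ENNReal.ofReal (1 / K ^ 2) := by
    rw [← ENNReal.ofReal_mul (by positivity), ← ENNReal.ofReal_mul (by positivity),
      ← ENNReal.ofReal_mul (by positivity), ← ENNReal.ofReal_mul (by positivity)]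
    congr 1
    field_simp
  have e3 : ENNReal.ofReal (1 / Y ^ 2) * (ENNReal.ofReal C₂ * ENNReal.ofReal (Y ^ 2 / w ^ 2) *
      (ENNReal.ofReal (C₆ * K ^ 4) * ENNReal.ofReal (C₇ * w ^ 2))) =
      ENNReal.ofReal (C₂ * C₆ * C₇) * ENNReal.ofReal (K ^ 4) := by
    rw [← ENNReal.ofReal_mul (by positivity), ← ENNReal.ofReal_mul (by positivity),
      ← ENNReal.ofReal_mul (by positivity), ← ENNReal.ofReal_mul (by positivity),
      ← ENNReal.ofReal_mul (by positivity)]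
    congr 1
    field_simp
  have h4 : ENNReal.ofReal A * N ≤ ENNReal.ofReal C₂ *
      (ENNReal.ofReal (Y ^ 2 / (K ^ 2 * w ^ 2)) * ENNReal.ofReal (C₃ * w ^ 2) +
        ENNReal.ofReal (Y ^ 2 / w ^ 2) *
          (ENNReal.ofReal (C₆ * K ^ 4) * (ENNReal.ofReal (C₇ * w ^ 2) * T))) := by
    calc ENNReal.ofReal A * N ≤ ENNReal.ofReal A * (ENNReal.ofReal C₂ *
          (ENNReal.ofReal (Y ^ 2 / (K ^ 2 * w ^ 2)) * nV +
            ENNReal.ofReal (Y ^ 2 / w ^ 2) * nS)) := mul_le_mul_right hN _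
      _ = ENNReal.ofReal C₂ * (ENNReal.ofReal (Y ^ 2 / (K ^ 2 * w ^ 2)) *
          (ENNReal.ofReal A * nV) + ENNReal.ofReal (Y ^ 2 / w ^ 2) *
            (ENNReal.ofReal A * nS)) := by ring
      _ ≤ _ := mul_le_mul_right (add_le_add (mul_le_mul_right hV _) (mul_le_mul_right hS _)) _
  calc ENNReal.ofReal (Mk / Y ^ 2) * N
      = ENNReal.ofReal (Mk / A) * (ENNReal.ofReal (1 / Y ^ 2) * (ENNReal.ofReal A * N)) := by
        rw [e1]; ring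
    _ ≤ ENNReal.ofReal (Mk / A) * (ENNReal.ofReal (1 / Y ^ 2) * (ENNReal.ofReal C₂ *
      (ENNReal.ofReal (Y ^ 2 / (K ^ 2 * w ^ 2)) * ENNReal.ofReal (C₃ * w ^ 2) +
        ENNReal.ofReal (Y ^ 2 / w ^ 2) *
          (ENNReal.ofReal (C₆ * K ^ 4) * (ENNReal.ofReal (C₇ * w ^ 2) * T))))) :=
        mul_le_mul_right (mul_le_mul_right h4 _) _
    _ = ENNReal.ofReal (Mk / A) * ((ENNReal.ofReal (1 / Y ^ 2) * (ENNReal.ofReal C₂ *
          ENNReal.ofReal (Y ^ 2 / (K ^ 2 * w ^ 2)) * ENNReal.ofReal (C₃ * w ^ 2))) +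
        (ENNReal.ofReal (1 / Y ^ 2) * (ENNReal.ofReal C₂ * ENNReal.ofReal (Y ^ 2 / w ^ 2) *
          (ENNReal.ofReal (C₆ * K ^ 4) * ENNReal.ofReal (C₇ * w ^ 2)))) * T) := by ring
    _ = ENNReal.ofReal (Mk / A) * (ENNReal.ofReal (C₂ * C₃) * ENNReal.ofReal (1 / K ^ 2) +
          ENNReal.ofReal (C₂ * C₆ * C₇) * ENNReal.ofReal (K ^ 4) * T) := by rw [e2, e3]
    _ ≤ ENNReal.ofReal (Mk / A) * (ENNReal.ofReal C₈ * ENNReal.ofReal (1 / K ^ 2) +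
          ENNReal.ofReal C₈ * ENNReal.ofReal (K ^ 4) * T) :=
        mul_le_mul_right (add_le_add (mul_le_mul_left (ENNReal.ofReal_le_ofReal h8a) _)
          (mul_le_mul_left (mul_le_mul_left (ENNReal.ofReal_le_ofReal h8b) _) _)) _
    _ = ENNReal.ofReal C₈ * (0 + ENNReal.ofReal (Mk / A) *
      (ENNReal.ofReal (1 / K ^ 2) + ENNReal.ofReal (K ^ 4) * T)) := by ring
    _ ≤ _ := mul_le_mul_right (add_le_add zero_le le_rfl) _

/-- the term of a small `Y` -/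
lemma small {C₅ C₈ Mk Y Y₀ : ℝ} (h5 : 0 ≤ C₅) (h58 : C₅ ≤ C₈) (hMk : 0 < Mk) (hY : 0 < Y)
    (hYY : Y ≤ Y₀) {N : ℝ≥0∞} (hN : N ≤ ENNReal.ofReal (C₅ * Y ^ 4)) (X₁ : ℝ≥0∞) :
    ENNReal.ofReal (Mk / Y ^ 2) * N ≤ ENNReal.ofReal C₈ *
      (ENNReal.ofReal (Mk * Y₀ ^ 2) + X₁) := by
  have h8 : 0 ≤ C₈ := h5.trans h58
  calc ENNReal.ofReal (Mk / Y ^ 2) * N
      ≤ ENNReal.ofReal (Mk / Y ^ 2) * ENNReal.ofReal (C₅ * Y ^ 4) := mul_le_mul_right hN _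
    _ = ENNReal.ofReal (C₅ * (Mk * Y ^ 2)) := by
        rw [← ENNReal.ofReal_mul (by positivity)]
        congr 1
        field_simp
    _ ≤ ENNReal.ofReal (C₈ * (Mk * Y₀ ^ 2)) := by
        apply ENNReal.ofReal_le_ofReal
        have : Y ^ 2 ≤ Y₀ ^ 2 := pow_le_pow_left₀ hY.le hYY 2
        have h1 : Mk * Y ^ 2 ≤ Mk * Y₀ ^ 2 := mul_le_mul_of_nonneg_left this hMk.le
        exact mul_le_mul h58 h1 (by positivity) h8
    _ = ENNReal.ofReal C₈ * ENNReal.ofReal (Mk * Y₀ ^ 2) := ENNReal.ofReal_mul h8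
    _ ≤ _ := mul_le_mul_right (le_add_of_nonneg_right zero_le) _

end StLL

open StLL StpN

/-- **StL** the main inequality for one good block. -/
theorem stmtStL (_hL : StmtNuL) (hVol : StmtVol) (hBt : StmtBt) (_hTot : StmtTot) (hAI : StmtAIL)
    (_hDds : StmtDds) (hCS : StmtCS) (hVV : StmtVV) (hZt : StmtZt) (hSpT : StmtSpT)
    (hRtL : StmtRtL) (hTrv : StmtTrv) (hVT : StmtVT) : StmtStL := by
  intro R k hR
  obtain ⟨c₀, hc₀, hc₀', hB₀⟩ := hBt R 1 hR one_pos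
  obtain ⟨c₁, hc₁, hc₁', hB₁⟩ := hBt (8 * R) 1 (by linarith) one_pos
  have hcpos : 0 < min c₀ c₁ := lt_min hc₀ hc₁
  generalize hcdef : min c₀ c₁ = c at hcpos
  have hcc₀ : c ≤ c₀ := hcdef ▸ min_le_left _ _
  have hcc₁ : c ≤ c₁ := hcdef ▸ min_le_right _ _
  have hc2 : c ≤ 1 / 2 := hcc₀.trans hc₀'
  have h2k : (1 : ℝ) ≤ 2 ^ k := one_le_pow₀ (by norm_num)
  obtain ⟨Ca, hCa, hAI'⟩ := hAI k
  obtain ⟨C₂, hC₂, hRet'⟩ := hRtL (8 * R) (2 ^ k) c (by linarith) h2k hcpos hc2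
  obtain ⟨C₃, hC₃, hVV'⟩ := hVV R hR
  obtain ⟨C₅, hC₅, hTrv'⟩ := hTrv (8 * R) (2 ^ k) (by linarith) h2k
  obtain ⟨C₆, hC₆, hSp'⟩ := hSpT (8 * (8 * R)) (by linarith)
  obtain ⟨C₇, hC₇, hVT'⟩ := hVT R hR
  obtain ⟨κ₀, hκ₀, hVol'⟩ := hVol.2.1 c hcpos hc2
  have hκ : 0 < κ₀ * c ^ 2 := by positivity
  set C₈ : ℝ := C₅ + C₂ * C₃ + C₂ * C₆ * C₇ with hC₈
  have h23 : 0 ≤ C₂ * C₃ := by positivity
  have h267 : 0 ≤ C₂ * C₆ * C₇ := by positivity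
  have hC₈0 : 0 ≤ C₈ := by linarith
  have h58 : C₅ ≤ C₈ := by linarith
  have h238 : C₂ * C₃ ≤ C₈ := by linarith
  have h2678 : C₂ * C₆ * C₇ ≤ C₈ := by linarith
  have hE0 : 0 ≤ Ca * (2 * ((k + 1 : ℕ) : ℝ) * C₈ * C₃ / (κ₀ * c ^ 2)) := by positivity
  refine ⟨1 + 8 * C₂ + 4 * C₆ + Ca * (2 * ((k + 1 : ℕ) : ℝ) * C₈ * C₃ / (κ₀ * c ^ 2)),
    by linarith, ?_⟩
  intro l Φ hΦ w κ M K Y₀ A hw hw1 hκ0 hκ1 hM hK hY₀ hMwK hA hkM hGd T hT U hUm hU hdis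
  have hCdef : 8 * C₂ ≤
      1 + 8 * C₂ + 4 * C₆ + Ca * (2 * ((k + 1 : ℕ) : ℝ) * C₈ * C₃ / (κ₀ * c ^ 2)) := by linarith
  have hCdef6 : 4 * C₆ ≤
      1 + 8 * C₂ + 4 * C₆ + Ca * (2 * ((k + 1 : ℕ) : ℝ) * C₈ * C₃ / (κ₀ * c ^ 2)) := by linarith
  have hCE : Ca * (2 * ((k + 1 : ℕ) : ℝ) * C₈ * C₃ / (κ₀ * c ^ 2)) ≤
      1 + 8 * C₂ + 4 * C₆ + Ca * (2 * ((k + 1 : ℕ) : ℝ) * C₈ * C₃ / (κ₀ * c ^ 2)) := by linarith
  generalize hC : 1 + 8 * C₂ + 4 * C₆ +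
    Ca * (2 * ((k + 1 : ℕ) : ℝ) * C₈ * C₃ / (κ₀ * c ^ 2)) = C at hT hdis hCdef hCdef6 hCE ⊢
  clear hC
  have hM0 : 0 < M := by linarith
  have hK0 : 0 < K := by linarith
  have hY₀0 : 0 < Y₀ := by linarith
  have hMk : 0 < M ^ k := pow_pos hM0 k
  have hC0 : 0 ≤ C := by linarith
  -- the small tube
  obtain ⟨hB₀1, hB₀2, hB₀3⟩ := hB₀ w hw hw1
  obtain ⟨hB₁1, hB₁2, hB₁3⟩ := hB₁ w hw hw1
  have hb0 : bt c (c * w) ⊆ bt c₀ (c₀ * w) := bt_mono hcc₀ hw.le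
  have hb1 : bt c (c * w) ⊆ bt c₁ (c₁ * w) := bt_mono hcc₁ hw.le
  have hbo : IsOpen (bt c (c * w)) := bt_open _ _
  have hUR : U ⊆ Om R := fun u hu => (hU hu).1
  have hV1 : Vb U (bt c (c * w)) ⊆ Om (8 * R) ∧
      ∀ x ∈ Vb U (bt c (c * w)), ∃ u ∈ U, ∀ i, |xi x i - xi u i| ≤ w :=
    ⟨(Vb_mono U hb0).trans (hB₀2 U hUR).1, fun x hx => (hB₀2 U hUR).2 x (Vb_mono U hb0 hx)⟩
  have h64 : 8 * (8 * R) = 64 * R := by ring
  have hV2 : Vb (Vb U (bt c (c * w))) (bt c (c * w)) ⊆ Om (64 * R) ∧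
      ∀ x ∈ Vb (Vb U (bt c (c * w))) (bt c (c * w)), ∃ u ∈ Vb U (bt c (c * w)),
        ∀ i, |xi x i - xi u i| ≤ w := by
    have := hB₁2 (Vb U (bt c (c * w))) hV1.1
    rw [h64] at this
    exact ⟨(Vb_mono _ hb1).trans this.1, fun x hx => this.2 x (Vb_mono _ hb1 hx)⟩
  have hVV1 := hVV' l Φ hΦ w U (bt c (c * w)) hw hw1 hUm hUR hbo hV1 hV2 (ENNReal.ofReal A)
    (fun u hu => (hU hu).2.1)
  have hmass : ∀ x : G, ms Φ (U ∩ {g | x⁻¹ * g ∈ bt c (c * w)}) ≤ ENNReal.ofReal (2 * A) :=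
    tube_mass Φ R w A U _ hU fun β hβ β' hβ' u hu i =>
      (hB₀1 β (hb0 hβ) β' (hb0 hβ')).2 u hu i
  have hcs := hCS Φ hΦ.cont U (bt c (c * w)) hUm hbo (ENNReal.ofReal (2 * A)) hmass
  have hnub : ENNReal.ofReal (κ₀ * c ^ 2 * w ^ 2) ≤ nu (bt c (c * w)) := by
    refine le_trans (le_of_eq ?_) (hVol' (c * w) (by positivity)
      (mul_le_one₀ (by linarith only [hc2]) hw.le hw1))
    ring_nf
  generalize hbdef : bt c (c * w) = b at *
  generalize hVdef : Vb U b = V at *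
  have hVo : IsOpen V := hVdef ▸ Vb_open U hbo
  have hVbo : IsOpen (Vb V b) := Vb_open V hbo
  -- masses of the tubes at the points of `V' = Vb V b`
  have hA3 : ∀ y ∈ Vb V b, ENNReal.ofReal A ≤ ms Φ (Tb R (xi y) (3 * w)) := by
    intro y hy
    obtain ⟨v, hv, hyv⟩ := hV2.2 y hy
    obtain ⟨u, hu, hvu⟩ := hV1.2 v hv
    refine (hU hu).2.1.trans (ms_mono Φ fun g hg => ⟨hg.1, fun i => ?_⟩)
    have h1 := hg.2 i
    have h2 := hyv i
    have h3 := hvu i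
    have h4 : xi g i - xi y i = (xi g i - xi u i) - (xi v i - xi u i) - (xi y i - xi v i) := by
      ring
    rw [h4]
    calc |(xi g i - xi u i) - (xi v i - xi u i) - (xi y i - xi v i)|
        ≤ |(xi g i - xi u i) - (xi v i - xi u i)| + |xi y i - xi v i| := abs_sub _ _
      _ ≤ (|xi g i - xi u i| + |xi v i - xi u i|) + |xi y i - xi v i| :=
          add_le_add (abs_sub _ _) le_rfl
      _ ≤ 3 * w := by linarith
  -- every term
  set X : ℝ≥0∞ := ENNReal.ofReal (M ^ k * Y₀ ^ 2) + ENNReal.ofReal (M ^ k / A) *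
    (ENNReal.ofReal (1 / K ^ 2) + ENNReal.ofReal (K ^ 4) * T) with hX
  have hterm : ∀ j ∈ Finset.range (k + 1), ∀ x ∈ V,
      ENNReal.ofReal (M ^ k / (M ^ j) ^ 2) * NS (2 ^ k) (M ^ j) V x ≤ ENNReal.ofReal C₈ * X := by
    intro j hj x hx
    have hjk : j ≤ k := by
      have := Finset.mem_range.1 hj
      omega
    have hYM : M ^ j ≤ M ^ k := pow_le_pow_right₀ hM hjk
    have hY1 : 1 ≤ M ^ j := one_le_pow₀ hM
    generalize M ^ j = Y at hYM hY1 ⊢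
    have hY0 : 0 < Y := by linarith
    have hYwK : Y * w * K ≤ 1 := by
      refine le_trans ?_ hMwK
      exact mul_le_mul_of_nonneg_right (mul_le_mul_of_nonneg_right hYM hw.le) hK0.le
    have hYw : Y * w ≤ 1 := by
      have : 0 ≤ Y * w := by positivity
      exact (le_mul_of_one_le_right this hK).trans hYwK
    by_cases hYY : Y < Y₀
    · exact small (by linarith) h58 hMk hY0 hYY.le (hTrv' Y hY1 V hV1.1 x hx) _
    · rw [not_lt] at hYY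
      have hη : 0 < C₂ / Y := by positivity
      have hKY : 1 ≤ K * Y := one_le_mul_of_one_le_of_one_le hK hY1
      have hηK : C₂ / Y ≤ C₂ * K := by
        rw [div_le_iff₀ hY0, mul_assoc]
        exact le_mul_of_one_le_right (by linarith only [hC₂]) hKY
      have hwK : w * (C₂ * K) ≤ C₂ / Y := by
        rw [le_div_iff₀ hY0]
        calc w * (C₂ * K) * Y = C₂ * (Y * w * K) := by ring
          _ ≤ C₂ * 1 := mul_le_mul_of_nonneg_left hYwK (by linarith only [hC₂])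
          _ = C₂ := mul_one _
      have hnot : x ∉ Zc (8 * R) (C₂ / Y) (C₂ * K) := by
        intro hxZ
        have hx' : x ∈ Vb U (bt c (c * w)) := by rw [hbdef, hVdef]; exact hx
        obtain ⟨y, hy, hyZ⟩ := hZt R (8 * R) c w (C₂ / Y) (C₂ * K) hcpos hc2 hw hw1 hη hηK hwK
          U hUR x hx' hxZ
        refine Set.disjoint_left.1 hdis hy (Zc_mono ?_ ?_ hyZ)
        · rw [← mul_div_assoc]
          exact div_le_div₀ hC0 hCdef hY₀0 hYY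
        · rw [← mul_assoc]
          exact mul_le_mul_of_nonneg_right hCdef hK0.le
      have h1 := hRet' w Y K hw hw1 hY1 hK hYwK V hVo hV1.1
        (by rw [hbdef, h64]; exact hV2.1) (by rw [hbdef]; exact hbo) x hx hnot
      rw [hbdef] at h1
      have hxO : x ∈ Om (8 * (8 * R)) := by
        intro a d
        have := hV1.1 hx a d
        linarith
      obtain ⟨Z, hZ, hcov⟩ := hSp' x hxO (1 / Y) K (by positivity)
        (by rw [div_le_iff₀ hY0]; exact hKY) hK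
      have hwY : w ≤ C₆ * (K ^ 3 * (1 / Y)) := by
        rw [mul_one_div, ← mul_div_assoc, le_div_iff₀ hY0]
        have h3 : 1 ≤ K ^ 3 := one_le_pow₀ hK
        rw [mul_comm w Y]
        exact hYw.trans (one_le_mul_of_one_le_of_one_le hC₆ h3)
      have hw'T : ∀ ζ : Fin 3 → ℝ, ms Φ (Tb R ζ (4 * (C₆ * (K ^ 3 * (1 / Y))))) ≤ T := by
        intro ζ
        refine (ms_mono Φ (Tb_mono ?_)).trans (hT ζ)
        have h3 : 1 / Y ≤ 1 / Y₀ := one_div_le_one_div_of_le hY₀0 hYY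
        have h4 : K ^ 3 * (1 / Y) ≤ K ^ 3 / Y₀ := by
          rw [div_eq_mul_one_div (K ^ 3) Y₀]
          exact mul_le_mul_of_nonneg_left h3 (by positivity)
        have h5 : 0 ≤ K ^ 3 * (1 / Y) := by positivity
        calc 4 * (C₆ * (K ^ 3 * (1 / Y))) = (4 * C₆) * (K ^ 3 * (1 / Y)) := by ring
          _ ≤ C * (K ^ 3 / Y₀) := mul_le_mul hCdef6 h4 h5 hC0
      refine large (by linarith) hC₃ (by linarith) (by linarith) hMk hY0 hK0 hw hA h238 h2678 h1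
        hVV1.2 ?_ _
      refine special Z hZ _ _ hcov fun ζ => ?_
      refine (hVT' l Φ hΦ w _ hw hwY (ENNReal.ofReal A) (Vb V b) hVbo.measurableSet hV2.1 hA3
        ζ).trans (mul_le_mul_right (hw'T ζ) _)
  -- sum
  have hai := hAI' l Φ hΦ R U hUm hUR κ M hκ0 hκ1 hM hkM hGd
  generalize hS1 : ∑ j ∈ Finset.range (k + 1), ENNReal.ofReal (M ^ k / (M ^ j) ^ 2) *
    ∑' s : Mat, (Ds (2 ^ k) (M ^ j)).indicator (fun s => Dd Φ U (nm s)) s = S1 at hai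
  have hsum : nu b * S1 ≤ ENNReal.ofReal (2 * ((k + 1 : ℕ) : ℝ) * C₈ * C₃ * w ^ 2) * X := by
    have h1 : ∀ j ∈ Finset.range (k + 1), nu b * (ENNReal.ofReal (M ^ k / (M ^ j) ^ 2) *
        ∑' s : Mat, (Ds (2 ^ k) (M ^ j)).indicator (fun s => Dd Φ U (nm s)) s) ≤
        ENNReal.ofReal (2 * A) * (ENNReal.ofReal C₈ * X * nu V) := by
      intro j hj
      have h2 : nu b * ∑' s : Mat, (Ds (2 ^ k) (M ^ j)).indicator (fun s => Dd Φ U (nm s)) s ≤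
          ENNReal.ofReal (2 * A) * ∫⁻ x in V, NS (2 ^ k) (M ^ j) V x ∂nu := by
        have h3 : ∫⁻ x in V, NS (2 ^ k) (M ^ j) V x ∂nu =
            ∑' s : Mat, (Ds (2 ^ k) (M ^ j)).indicator
              (fun s => nu {x | x ∈ V ∧ nm s * x ∈ V}) s := swap _ hVo
        rw [h3, ← ENNReal.tsum_mul_left, ← ENNReal.tsum_mul_left]
        refine ENNReal.tsum_le_tsum fun s => ?_
        by_cases hs : s ∈ Ds (2 ^ k) (M ^ j)
        · rw [indicator_of_mem hs, indicator_of_mem hs]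
          exact hcs (nm s)
        · rw [indicator_of_notMem hs, indicator_of_notMem hs, mul_zero, mul_zero]
      have h4 : ENNReal.ofReal (M ^ k / (M ^ j) ^ 2) * ∫⁻ x in V, NS (2 ^ k) (M ^ j) V x ∂nu ≤
          ENNReal.ofReal C₈ * X * nu V := by
        rw [← lintegral_const_mul' _ _ ENNReal.ofReal_ne_top]
        calc ∫⁻ x in V, ENNReal.ofReal (M ^ k / (M ^ j) ^ 2) * NS (2 ^ k) (M ^ j) V x ∂nu
            ≤ ∫⁻ _ in V, ENNReal.ofReal C₈ * X ∂nu :=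
              setLIntegral_mono' hVo.measurableSet (hterm j hj)
          _ = ENNReal.ofReal C₈ * X * nu V := by rw [setLIntegral_const]
      calc nu b * (ENNReal.ofReal (M ^ k / (M ^ j) ^ 2) *
            ∑' s : Mat, (Ds (2 ^ k) (M ^ j)).indicator (fun s => Dd Φ U (nm s)) s)
          = ENNReal.ofReal (M ^ k / (M ^ j) ^ 2) * (nu b *
            ∑' s : Mat, (Ds (2 ^ k) (M ^ j)).indicator (fun s => Dd Φ U (nm s)) s) := by ring
        _ ≤ ENNReal.ofReal (M ^ k / (M ^ j) ^ 2) * (ENNReal.ofReal (2 * A) *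
            ∫⁻ x in V, NS (2 ^ k) (M ^ j) V x ∂nu) := mul_le_mul_right h2 _
        _ = ENNReal.ofReal (2 * A) * (ENNReal.ofReal (M ^ k / (M ^ j) ^ 2) *
            ∫⁻ x in V, NS (2 ^ k) (M ^ j) V x ∂nu) := by ring
        _ ≤ _ := mul_le_mul_right h4 _
    calc nu b * S1 = ∑ j ∈ Finset.range (k + 1), nu b * (ENNReal.ofReal (M ^ k / (M ^ j) ^ 2) *
          ∑' s : Mat, (Ds (2 ^ k) (M ^ j)).indicator (fun s => Dd Φ U (nm s)) s) := by
          rw [← hS1, Finset.mul_sum]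
      _ ≤ ∑ _j ∈ Finset.range (k + 1),
          ENNReal.ofReal (2 * A) * (ENNReal.ofReal C₈ * X * nu V) := Finset.sum_le_sum h1
      _ = ((k + 1 : ℕ) : ℝ≥0∞) * (ENNReal.ofReal (2 * A) * (ENNReal.ofReal C₈ * X * nu V)) := by
          rw [Finset.sum_const, Finset.card_range, nsmul_eq_mul]
      _ = ENNReal.ofReal ((k + 1 : ℕ) : ℝ) * ENNReal.ofReal 2 * ENNReal.ofReal C₈ * X *
          (ENNReal.ofReal A * nu V) := by
          rw [ENNReal.ofReal_natCast, ENNReal.ofReal_mul (p := 2) (by norm_num : (0 : ℝ) ≤ 2)]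
          ring
      _ ≤ ENNReal.ofReal ((k + 1 : ℕ) : ℝ) * ENNReal.ofReal 2 * ENNReal.ofReal C₈ * X *
          ENNReal.ofReal (C₃ * w ^ 2) := mul_le_mul_right hVV1.1 _
      _ = ENNReal.ofReal (2 * ((k + 1 : ℕ) : ℝ) * C₈ * C₃ * w ^ 2) * X := by
          have e1 : ENNReal.ofReal (2 * ((k + 1 : ℕ) : ℝ) * C₈ * C₃ * w ^ 2) =
              ENNReal.ofReal ((k + 1 : ℕ) : ℝ) * ENNReal.ofReal 2 * ENNReal.ofReal C₈ *
                ENNReal.ofReal (C₃ * w ^ 2) := by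
            rw [← ENNReal.ofReal_mul (by positivity), ← ENNReal.ofReal_mul (by positivity),
              ← ENNReal.ofReal_mul (by positivity)]
            congr 1
            ring
          rw [e1]
          ring
  have hκw : 0 < κ₀ * c ^ 2 * w ^ 2 := by positivity
  have hS2 : S1 ≤ ENNReal.ofReal (2 * ((k + 1 : ℕ) : ℝ) * C₈ * C₃ / (κ₀ * c ^ 2)) * X := by
    have e1 : (1 : ℝ≥0∞) =
        ENNReal.ofReal (1 / (κ₀ * c ^ 2 * w ^ 2)) * ENNReal.ofReal (κ₀ * c ^ 2 * w ^ 2) := by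
      rw [← ENNReal.ofReal_mul (by positivity), one_div_mul_cancel hκw.ne', ENNReal.ofReal_one]
    have e2 : ENNReal.ofReal (2 * ((k + 1 : ℕ) : ℝ) * C₈ * C₃ / (κ₀ * c ^ 2)) =
        ENNReal.ofReal (1 / (κ₀ * c ^ 2 * w ^ 2)) *
          ENNReal.ofReal (2 * ((k + 1 : ℕ) : ℝ) * C₈ * C₃ * w ^ 2) := by
      rw [← ENNReal.ofReal_mul (by positivity)]
      congr 1
      field_simp
    calc S1 = 1 * S1 := (one_mul _).symm
      _ = ENNReal.ofReal (1 / (κ₀ * c ^ 2 * w ^ 2)) *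
          (ENNReal.ofReal (κ₀ * c ^ 2 * w ^ 2) * S1) := by rw [← mul_assoc, ← e1]
      _ ≤ ENNReal.ofReal (1 / (κ₀ * c ^ 2 * w ^ 2)) * (nu b * S1) :=
          mul_le_mul_right (mul_le_mul_left hnub _) _
      _ ≤ ENNReal.ofReal (1 / (κ₀ * c ^ 2 * w ^ 2)) *
          (ENNReal.ofReal (2 * ((k + 1 : ℕ) : ℝ) * C₈ * C₃ * w ^ 2) * X) :=
          mul_le_mul_right hsum _
      _ = _ := by rw [e2]; ring
  calc ENNReal.ofReal ((M ^ k) ^ (2 - 4 * κ)) * ms Φ U ^ 2 ≤ ENNReal.ofReal Ca * S1 := hai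
    _ ≤ ENNReal.ofReal Ca *
        (ENNReal.ofReal (2 * ((k + 1 : ℕ) : ℝ) * C₈ * C₃ / (κ₀ * c ^ 2)) * X) :=
        mul_le_mul_right hS2 _
    _ = ENNReal.ofReal (Ca * (2 * ((k + 1 : ℕ) : ℝ) * C₈ * C₃ / (κ₀ * c ^ 2))) * X := by
        rw [ENNReal.ofReal_mul (p := Ca) (by linarith)]
        ring
    _ ≤ ENNReal.ofReal C * X := mul_le_mul_left (ENNReal.ofReal_le_ofReal hCE) _

end

end Pool.Agent.A54.Hp
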