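import Pool.Agent.Lib.MP_a54f13_nt.Hp.SpecA

/-!
# Package `Hp`, module `Sta` (helper28): short times, `S^τ` is close to `S`
-/

set_option autoImplicit false

namespace Pool.Agent.A54.Hp

open MeasureTheory Filter Topology Set
open scoped ContDiff ComplexConjugate UpperHalfPlane MatrixGroups ENNReal
open Pool.Agent.A54.Dyn (G fl base ze io mk4 dom)
open Pool.Agent.A54.Dyn.LiftM (Sct XC XX cc rot m0)
open Pool.Agent.A54.Half (H0)
open Pool.Agent.A54.Sq (la TestP Tow Up)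

noncomputable section

namespace StaM

/-! ### Elementary inequalities -/

lemma int_le {F : ℍ → ℝ} (hF : ∀ z, 0 ≤ F z) {c : ℝ} (hc : 0 ≤ c)
    (h : ∫⁻ z, ENNReal.ofReal (F z) ≤ ENNReal.ofReal c) : ∫ z, F z ≤ c := by
  by_cases hi : Integrable F
  · rw [integral_eq_lintegral_of_nonneg_ae (Eventually.of_forall hF) hi.1]
    exact ENNReal.toReal_le_of_le_ofReal hc h
  · rw [integral_undef hi]
    exact hc

/-- Cauchy–Schwarz on an interval -/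
lemma cs_int {a b : ℝ} (hab : a ≤ b) {h : ℝ → ℝ} (hc : Continuous h) :
    (∫ u in a..b, h u) ^ 2 ≤ (b - a) * ∫ u in a..b, h u ^ 2 := by
  rcases hab.eq_or_lt with rfl | hlt
  · simp
  have hL : 0 < b - a := sub_pos.2 hlt
  set I := ∫ u in a..b, h u with hI
  have h1 : 0 ≤ ∫ u in a..b, (h u - I / (b - a)) ^ 2 :=
    intervalIntegral.integral_nonneg hab fun u _ => sq_nonneg _
  have hi1 : IntervalIntegrable (fun u => h u ^ 2) volume a b := (hc.pow 2).intervalIntegrable a b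
  have hi2 : IntervalIntegrable (fun u => (2 * (I / (b - a))) * h u) volume a b :=
    (continuous_const.mul hc).intervalIntegrable a b
  have hi3 : IntervalIntegrable (fun _ : ℝ => (I / (b - a)) ^ 2) volume a b :=
    continuous_const.intervalIntegrable a b
  have h2 : ∫ u in a..b, (h u - I / (b - a)) ^ 2 = (∫ u in a..b, h u ^ 2) - I ^ 2 / (b - a) := by
    have e : (fun u => (h u - I / (b - a)) ^ 2) =
        fun u => h u ^ 2 - (2 * (I / (b - a))) * h u + (I / (b - a)) ^ 2 := by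
      funext u
      ring
    rw [e, intervalIntegral.integral_add (hi1.sub hi2) hi3, intervalIntegral.integral_sub hi1 hi2,
      intervalIntegral.integral_const_mul, intervalIntegral.integral_const, ← hI, smul_eq_mul]
    field_simp
    ring
  rw [h2] at h1
  have h3 : I ^ 2 / (b - a) ≤ ∫ u in a..b, h u ^ 2 := by linarith
  rw [div_le_iff₀ hL] at h3
  linarith

/-- fourth powers on an interval -/
lemma pow4_int {a : ℝ} (ha : 0 ≤ a) {h : ℝ → ℝ} (hc : Continuous h) :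
    (∫ u in (-a)..a, h u) ^ 4 ≤ 8 * a ^ 3 * ∫ u in (-a)..a, h u ^ 4 := by
  have hab : -a ≤ a := by linarith
  have h1 := cs_int hab hc
  have h2 := cs_int hab (h := fun u => h u ^ 2) (hc.pow 2)
  have e : ∀ u, (h u ^ 2) ^ 2 = h u ^ 4 := fun u => by ring
  simp only [e] at h2
  have h3 : (∫ u in (-a)..a, h u) ^ 4 = ((∫ u in (-a)..a, h u) ^ 2) ^ 2 := by ring
  have h4 : ((∫ u in (-a)..a, h u) ^ 2) ^ 2 ≤ ((a - -a) * ∫ u in (-a)..a, h u ^ 2) ^ 2 :=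
    pow_le_pow_left₀ (sq_nonneg _) h1 2
  have h5 : ((a - -a) * ∫ u in (-a)..a, h u ^ 2) ^ 2 =
      4 * a ^ 2 * (∫ u in (-a)..a, h u ^ 2) ^ 2 := by ring
  have h6 : 4 * a ^ 2 * (∫ u in (-a)..a, h u ^ 2) ^ 2 ≤
      4 * a ^ 2 * ((a - -a) * ∫ u in (-a)..a, h u ^ 4) :=
    mul_le_mul_of_nonneg_left h2 (by positivity)
  rw [h3]
  calc _ ≤ _ := h4
    _ = _ := h5
    _ ≤ _ := h6
    _ = _ := by ring

/-- continuous functions on the circle are integrable -/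
lemma ic {h : XC → ℝ} (hc : Continuous h) : Integrable h AddCircle.haarAddCircle :=
  hc.integrable_of_hasCompactSupport (HasCompactSupport.of_compactSpace _)

/-- Cauchy–Schwarz on the circle -/
lemma cs_circ {h : XC → ℝ} (hc : Continuous h) :
    (∫ x : XC, h x ∂AddCircle.haarAddCircle) ^ 2 ≤
      ∫ x : XC, h x ^ 2 ∂AddCircle.haarAddCircle := by
  set I := ∫ x : XC, h x ∂AddCircle.haarAddCircle with hI
  have h1 : 0 ≤ ∫ x : XC, (h x - I) ^ 2 ∂AddCircle.haarAddCircle :=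
    integral_nonneg fun x => sq_nonneg _
  have h2 : ∫ x : XC, (h x - I) ^ 2 ∂AddCircle.haarAddCircle =
      (∫ x : XC, h x ^ 2 ∂AddCircle.haarAddCircle) - I ^ 2 := by
    have e : (fun x : XC => (h x - I) ^ 2) = fun x => (h x ^ 2 - (2 * I) * h x) + I ^ 2 := by
      funext x
      ring
    have i1 : Integrable (fun x : XC => h x ^ 2) AddCircle.haarAddCircle := ic (hc.pow 2)
    have i2 : Integrable (fun x : XC => 2 * I * h x) AddCircle.haarAddCircle :=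
      ic (continuous_const.mul hc)
    have i3 : Integrable (fun x : XC => h x ^ 2 - 2 * I * h x) AddCircle.haarAddCircle := i1.sub i2
    have i4 : Integrable (fun _ : XC => I ^ 2) AddCircle.haarAddCircle := integrable_const _
    rw [e, integral_add i3 i4, integral_sub i1 i2, integral_const_mul, ← hI, integral_const]
    simp
    ring
  linarith

/-- the pointwise inequality in the fibre -/
lemma ptw (q r : ℂ) {l : ℝ} (hl : 0 < l) :
    (‖q + r‖ ^ 2 - ‖q‖ ^ 2) ^ 2 ≤ 4 * l * ‖q‖ ^ 4 + (4 / l + 2) * ‖r‖ ^ 4 := by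
  have h1 : |‖q + r‖ - ‖q‖| ≤ ‖r‖ := by
    have := abs_norm_sub_norm_le (q + r) q
    rwa [add_sub_cancel_left] at this
  have h2 : ‖q + r‖ + ‖q‖ ≤ 2 * ‖q‖ + ‖r‖ := by
    have := norm_add_le q r
    linarith
  have hq := norm_nonneg q
  have hr := norm_nonneg r
  have hs := norm_nonneg (q + r)
  have h3 : (‖q + r‖ ^ 2 - ‖q‖ ^ 2) ^ 2 = |‖q + r‖ - ‖q‖| ^ 2 * (‖q + r‖ + ‖q‖) ^ 2 := by
    rw [sq_abs]
    ring
  have h4 : |‖q + r‖ - ‖q‖| ^ 2 * (‖q + r‖ + ‖q‖) ^ 2 ≤ ‖r‖ ^ 2 * (2 * ‖q‖ + ‖r‖) ^ 2 :=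
    mul_le_mul (pow_le_pow_left₀ (abs_nonneg _) h1 2) (pow_le_pow_left₀ (by positivity) h2 2)
      (by positivity) (by positivity)
  have h5 : ‖r‖ ^ 2 * (2 * ‖q‖ + ‖r‖) ^ 2 ≤ 8 * ‖q‖ ^ 2 * ‖r‖ ^ 2 + 2 * ‖r‖ ^ 4 := by
    nlinarith [mul_nonneg (sq_nonneg ‖r‖) (sq_nonneg (2 * ‖q‖ - ‖r‖))]
  have h6 : 8 * ‖q‖ ^ 2 * ‖r‖ ^ 2 ≤ 4 * l * ‖q‖ ^ 4 + 4 / l * ‖r‖ ^ 4 := by
    have h7 : 0 ≤ 4 / l * (l * ‖q‖ ^ 2 - ‖r‖ ^ 2) ^ 2 := by positivity
    have h8 : 4 / l * (l * ‖q‖ ^ 2 - ‖r‖ ^ 2) ^ 2 =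
        4 * l * ‖q‖ ^ 4 + 4 / l * ‖r‖ ^ 4 - 8 * ‖q‖ ^ 2 * ‖r‖ ^ 2 := by
      field_simp
      ring
    linarith
  rw [h3]
  calc _ ≤ _ := h4
    _ ≤ _ := h5
    _ ≤ _ := by linarith

/-! ### Integrals over the group -/

lemma lint_nu {H : G → ℝ≥0∞} (hH : Measurable H) :
    ∫⁻ g, H g ∂nu = ∫⁻ z : ℍ, ∫⁻ x : XC, H (Sct (z, x)) ∂AddCircle.haarAddCircle := by
  have hmS : Measurable Sct := Dyn.LiftM.continuous_Sct.measurable
  unfold nu
  rw [lintegral_map hH hmS]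
  unfold m0
  rw [lintegral_prod (fun p : XX => H (Sct p)) (hH.comp hmS).aemeasurable]

/-- the weighted fourth moment -/
def M4 (φ : ℂ → ℝ) (q : G → ℂ) : ℝ≥0∞ :=
  ∫⁻ g, ENNReal.ofReal (φ (base g : ℂ)) * ‖q g‖ₑ ^ 4 ∂nu

lemma meas4 {φ : ℂ → ℝ} (hφ : Continuous φ) {q : G → ℂ} (hq : Continuous q) :
    Measurable fun g : G => ENNReal.ofReal (φ (base g : ℂ)) * ‖q g‖ₑ ^ 4 := by
  refine Measurable.mul ?_ (hq.measurable.enorm.pow_const 4)
  exact ENNReal.measurable_ofReal.comp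
    (hφ.comp (UpperHalfPlane.continuous_coe.comp Dyn.continuous_base)).measurable

/-- the difference of the fibre integrals -/
lemma fib_diff {φ : ℂ → ℝ} (hφ : Continuous φ) (hp : ∀ z, 0 ≤ φ z) {q r : G → ℂ}
    (hq : Continuous q) (hr : Continuous r) {l : ℝ} (hl : 0 < l) :
    ∫⁻ z : ℍ, ENNReal.ofReal (φ z * ((∫ x : XC, ‖q (Sct (z, x)) + r (Sct (z, x))‖ ^ 2
      ∂AddCircle.haarAddCircle) - ∫ x : XC, ‖q (Sct (z, x))‖ ^ 2 ∂AddCircle.haarAddCircle) ^ 2) ≤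
    ENNReal.ofReal (4 * l) * M4 φ q + ENNReal.ofReal (4 / l + 2) * M4 φ r := by
  have hmq := meas4 hφ hq
  have hmr := meas4 hφ hr
  have e0 : ENNReal.ofReal (4 * l) * M4 φ q + ENNReal.ofReal (4 / l + 2) * M4 φ r =
      ∫⁻ g, (ENNReal.ofReal (4 * l) * (ENNReal.ofReal (φ (base g : ℂ)) * ‖q g‖ₑ ^ 4) +
        ENNReal.ofReal (4 / l + 2) * (ENNReal.ofReal (φ (base g : ℂ)) * ‖r g‖ₑ ^ 4)) ∂nu := by
    unfold M4
    rw [lintegral_add_left (hmq.const_mul _), lintegral_const_mul _ hmq, lintegral_const_mul _ hmr]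
  have hms : Measurable fun g : G =>
      (ENNReal.ofReal (4 * l) * (ENNReal.ofReal (φ (base g : ℂ)) * ‖q g‖ₑ ^ 4) +
        ENNReal.ofReal (4 / l + 2) * (ENNReal.ofReal (φ (base g : ℂ)) * ‖r g‖ₑ ^ 4)) :=
    (hmq.const_mul _).add (hmr.const_mul _)
  rw [e0, lint_nu hms]
  refine lintegral_mono fun z => ?_
  have hS : Continuous fun x : XC => Sct (z, x) := Dyn.LiftM.continuous_Sct.comp (by fun_prop)
  have hq' : Continuous fun x : XC => q (Sct (z, x)) := hq.comp hS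
  have hr' : Continuous fun x : XC => r (Sct (z, x)) := hr.comp hS
  have c1 : Continuous fun x : XC => ‖q (Sct (z, x)) + r (Sct (z, x))‖ ^ 2 := (hq'.add hr').norm.pow 2
  have c2 : Continuous fun x : XC => ‖q (Sct (z, x))‖ ^ 2 := hq'.norm.pow 2
  have c3 : Continuous fun x : XC => 4 * l * ‖q (Sct (z, x))‖ ^ 4 +
      (4 / l + 2) * ‖r (Sct (z, x))‖ ^ 4 :=
    (continuous_const.mul (hq'.norm.pow 4)).add (continuous_const.mul (hr'.norm.pow 4))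
  have h1 : ((∫ x : XC, ‖q (Sct (z, x)) + r (Sct (z, x))‖ ^ 2
      ∂AddCircle.haarAddCircle) - ∫ x : XC, ‖q (Sct (z, x))‖ ^ 2 ∂AddCircle.haarAddCircle) ^ 2 ≤
      ∫ x : XC, (4 * l * ‖q (Sct (z, x))‖ ^ 4 + (4 / l + 2) * ‖r (Sct (z, x))‖ ^ 4)
        ∂AddCircle.haarAddCircle := by
    rw [← integral_sub (ic c1) (ic c2)]
    refine le_trans (cs_circ (c1.sub c2)) ?_
    exact integral_mono (ic ((c1.sub c2).pow 2)) (ic c3) fun x => ptw _ _ hl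
  have h2 : ENNReal.ofReal (φ z * ((∫ x : XC, ‖q (Sct (z, x)) + r (Sct (z, x))‖ ^ 2
      ∂AddCircle.haarAddCircle) - ∫ x : XC, ‖q (Sct (z, x))‖ ^ 2 ∂AddCircle.haarAddCircle) ^ 2) ≤
      ENNReal.ofReal (∫ x : XC, φ z * (4 * l * ‖q (Sct (z, x))‖ ^ 4 +
        (4 / l + 2) * ‖r (Sct (z, x))‖ ^ 4) ∂AddCircle.haarAddCircle) := by
    refine ENNReal.ofReal_le_ofReal ?_
    rw [integral_const_mul]
    exact mul_le_mul_of_nonneg_left h1 (hp _)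
  refine le_trans h2 ?_
  have i5 : Integrable (fun x : XC => φ z * (4 * l * ‖q (Sct (z, x))‖ ^ 4 +
      (4 / l + 2) * ‖r (Sct (z, x))‖ ^ 4)) AddCircle.haarAddCircle := ic (continuous_const.mul c3)
  rw [ofReal_integral_eq_lintegral_ofReal i5
    (Eventually.of_forall fun x => mul_nonneg (hp _) (by positivity))]
  refine le_of_eq (lintegral_congr fun x => ?_)
  have hb : (base (Sct (z, x)) : ℍ) = z := Dyn.LiftM.base_Sct (z, x)
  rw [hb, ← ofReal_norm (q (Sct (z, x))), ← ofReal_norm (r (Sct (z, x))),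
    ← ENNReal.ofReal_pow (norm_nonneg _), ← ENNReal.ofReal_pow (norm_nonneg _),
    ← ENNReal.ofReal_mul (hp _), ← ENNReal.ofReal_mul (hp _), ← ENNReal.ofReal_mul (by positivity),
    ← ENNReal.ofReal_mul (by positivity), ← ENNReal.ofReal_add]
  · congr 1
    ring
  · exact mul_nonneg (by positivity) (mul_nonneg (hp _) (by positivity))
  · exact mul_nonneg (by positivity) (mul_nonneg (hp _) (by positivity))

/-- combinations of the `‖G_n‖²` -/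
lemma sum_diff {φ : ℂ → ℝ} (hφ : Continuous φ) (hp : ∀ z, 0 ≤ φ z) (s : Finset ℤ) (a : ℤ → ℝ)
    (u : ℤ → ℍ → ℝ) (hu : ∀ n, Continuous (u n)) {B : ℝ} (hB : 0 ≤ B)
    (h : ∀ n ∈ s, ∫⁻ z : ℍ, ENNReal.ofReal (φ z * u n z ^ 2) ≤ ENNReal.ofReal B) :
    ∫⁻ z : ℍ, ENNReal.ofReal (φ z * (∑ n ∈ s, a n * u n z) ^ 2) ≤
      ENNReal.ofReal ((∑ n ∈ s, |a n|) ^ 2 * B) := by
  have hA : 0 ≤ ∑ n ∈ s, |a n| := Finset.sum_nonneg fun n _ => abs_nonneg _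
  have hm : ∀ n, Measurable fun z : ℍ => ENNReal.ofReal (φ z * u n z ^ 2) := fun n =>
    ENNReal.measurable_ofReal.comp
      ((hφ.comp UpperHalfPlane.continuous_coe).mul ((hu n).pow 2)).measurable
  have h1 : ∀ z : ℍ, ENNReal.ofReal (φ z * (∑ n ∈ s, a n * u n z) ^ 2) ≤
      ∑ n ∈ s, ENNReal.ofReal ((∑ n ∈ s, |a n|) * |a n|) * ENNReal.ofReal (φ z * u n z ^ 2) := by
    intro z
    have e1 : (∑ n ∈ s, a n * u n z) ^ 2 ≤ (∑ n ∈ s, |a n|) * ∑ n ∈ s, |a n| * u n z ^ 2 := by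
      have e2 := Finset.sum_sq_le_sum_mul_sum_of_sq_le_mul s (r := fun n => |a n| * |u n z|)
        (f := fun n => |a n|) (g := fun n => |a n| * u n z ^ 2)
        (fun n _ => abs_nonneg _) (fun n _ => by positivity)
        (fun n _ => le_of_eq (by rw [mul_pow, sq_abs (u n z)]; ring))
      refine le_trans ?_ e2
      rw [← sq_abs (∑ n ∈ s, a n * u n z)]
      refine pow_le_pow_left₀ (abs_nonneg _) ?_ 2
      refine le_trans (Finset.abs_sum_le_sum_abs _ _) (le_of_eq ?_)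
      exact Finset.sum_congr rfl fun n _ => abs_mul _ _
    have e3 : φ z * (∑ n ∈ s, a n * u n z) ^ 2 ≤
        ∑ n ∈ s, ((∑ n ∈ s, |a n|) * |a n|) * (φ z * u n z ^ 2) := by
      refine le_trans (mul_le_mul_of_nonneg_left e1 (hp _)) (le_of_eq ?_)
      rw [Finset.mul_sum, Finset.mul_sum]
      exact Finset.sum_congr rfl fun n _ => by ring
    refine le_trans (ENNReal.ofReal_le_ofReal e3) ?_
    rw [ENNReal.ofReal_sum_of_nonneg fun n _ =>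
      mul_nonneg (mul_nonneg hA (abs_nonneg _)) (mul_nonneg (hp _) (sq_nonneg _))]
    refine Finset.sum_le_sum fun n _ => le_of_eq ?_
    rw [ENNReal.ofReal_mul (mul_nonneg hA (abs_nonneg _))]
  refine le_trans (lintegral_mono h1) ?_
  rw [lintegral_finsetSum _ fun n _ => (hm n).const_mul _]
  calc ∑ n ∈ s, ∫⁻ z : ℍ, ENNReal.ofReal ((∑ n ∈ s, |a n|) * |a n|) *
        ENNReal.ofReal (φ z * u n z ^ 2)
      ≤ ∑ n ∈ s, ENNReal.ofReal ((∑ n ∈ s, |a n|) * |a n|) * ENNReal.ofReal B := by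
        refine Finset.sum_le_sum fun n hn => ?_
        rw [lintegral_const_mul _ (hm n)]
        gcongr
        exact h n hn
    _ = ENNReal.ofReal ((∑ n ∈ s, |a n|) ^ 2 * B) := by
        have e : ∀ n ∈ s, ENNReal.ofReal ((∑ n ∈ s, |a n|) * |a n|) * ENNReal.ofReal B =
            ENNReal.ofReal ((∑ n ∈ s, |a n|) * |a n| * B) := fun n _ =>
          (ENNReal.ofReal_mul (mul_nonneg hA (abs_nonneg _))).symm
        rw [Finset.sum_congr rfl e, ← ENNReal.ofReal_sum_of_nonneg fun n _ =>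
          mul_nonneg (mul_nonneg hA (abs_nonneg _)) hB]
        congr 1
        rw [← Finset.sum_mul, ← Finset.mul_sum]
        ring

/-- the fourth moment of the remainder -/
lemma rem4 (hs : SigmaFinite nu) {φ : ℂ → ℝ} (hφ : Continuous φ) {r Ψ : G → ℂ}
    (hΨ : Continuous Ψ) (k : ℕ) {a X : ℝ} (ha : 0 ≤ a) (hX : 0 ≤ X)
    (hr : ∀ g, ‖r g‖ ≤ a ^ k * ∫ u in (-a)..a, ‖Ψ (g * fl u)‖)
    (hu : ∀ u : ℝ, |u| ≤ a → M4 φ (fun g => Ψ (g * fl u)) ≤ ENNReal.ofReal X) :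
    M4 φ r ≤ ENNReal.ofReal (16 * a ^ (4 * k + 4) * X) := by
  have hcF : Continuous fun y : G × ℝ => Ψ (y.1 * fl y.2) :=
    hΨ.comp (continuous_fst.mul (Dyn.continuous_fl.comp continuous_snd))
  have hab : -a ≤ a := by linarith
  have h1 : ∀ g, ENNReal.ofReal (φ (base g : ℂ)) * ‖r g‖ₑ ^ 4 ≤
      ENNReal.ofReal (8 * a ^ (4 * k + 3)) * ∫⁻ u in Set.Ioc (-a) a,
        ENNReal.ofReal (φ (base g : ℂ)) * ‖Ψ (g * fl u)‖ₑ ^ 4 := by
    intro g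
    have hc : Continuous fun u : ℝ => ‖Ψ (g * fl u)‖ :=
      (hcF.comp (continuous_const.prodMk continuous_id)).norm
    have e1 : ‖r g‖ ^ 4 ≤ 8 * a ^ (4 * k + 3) * ∫ u in (-a)..a, ‖Ψ (g * fl u)‖ ^ 4 := by
      have e2 := pow_le_pow_left₀ (norm_nonneg _) (hr g) 4
      have e3 := pow4_int ha hc
      rw [mul_pow] at e2
      refine le_trans e2 (le_trans (mul_le_mul_of_nonneg_left e3 (by positivity)) (le_of_eq ?_))
      rw [← pow_mul, mul_comm k 4, pow_add]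
      ring
    have e4 : ENNReal.ofReal (∫ u in (-a)..a, ‖Ψ (g * fl u)‖ ^ 4) =
        ∫⁻ u in Set.Ioc (-a) a, ‖Ψ (g * fl u)‖ₑ ^ 4 := by
      rw [intervalIntegral.integral_of_le hab, ofReal_integral_eq_lintegral_ofReal]
      · refine lintegral_congr fun u => ?_
        rw [ENNReal.ofReal_pow (norm_nonneg _), ofReal_norm]
      · exact ((hc.pow 4).integrableOn_Icc).mono_set Set.Ioc_subset_Icc_self
      · exact Eventually.of_forall fun u => by positivity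
    have hm : Measurable fun u : ℝ => ‖Ψ (g * fl u)‖ₑ ^ 4 := by
      have : Continuous fun u : ℝ => Ψ (g * fl u) :=
        hcF.comp (continuous_const.prodMk continuous_id)
      exact this.measurable.enorm.pow_const 4
    have hk : 0 ≤ 8 * a ^ (4 * k + 3) := by positivity
    rw [lintegral_const_mul _ hm, ← e4, ← ofReal_norm (r g), ← ENNReal.ofReal_pow (norm_nonneg _),
      mul_left_comm, ← ENNReal.ofReal_mul hk]
    exact mul_le_mul_right (ENNReal.ofReal_le_ofReal e1) _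
  have hmF : Measurable fun y : G × ℝ => ENNReal.ofReal (φ (base y.1 : ℂ)) *
      ‖Ψ (y.1 * fl y.2)‖ₑ ^ 4 := by
    refine Measurable.mul ?_ (hcF.measurable.enorm.pow_const 4)
    exact ENNReal.measurable_ofReal.comp ((hφ.comp (UpperHalfPlane.continuous_coe.comp
      Dyn.continuous_base)).comp continuous_fst).measurable
  unfold M4
  calc ∫⁻ g, ENNReal.ofReal (φ (base g : ℂ)) * ‖r g‖ₑ ^ 4 ∂nu
      ≤ ∫⁻ g, (ENNReal.ofReal (8 * a ^ (4 * k + 3)) * ∫⁻ u in Set.Ioc (-a) a,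
        ENNReal.ofReal (φ (base g : ℂ)) * ‖Ψ (g * fl u)‖ₑ ^ 4) ∂nu := lintegral_mono h1
    _ = ENNReal.ofReal (8 * a ^ (4 * k + 3)) * ∫⁻ g, (∫⁻ u in Set.Ioc (-a) a,
        ENNReal.ofReal (φ (base g : ℂ)) * ‖Ψ (g * fl u)‖ₑ ^ 4) ∂nu := by
        rw [lintegral_const_mul' _ _ ENNReal.ofReal_ne_top]
    _ = ENNReal.ofReal (8 * a ^ (4 * k + 3)) * ∫⁻ u in Set.Ioc (-a) a, (∫⁻ g,
        ENNReal.ofReal (φ (base g : ℂ)) * ‖Ψ (g * fl u)‖ₑ ^ 4 ∂nu) := by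
        rw [lintegral_lintegral_swap]
        exact hmF.aemeasurable
    _ ≤ ENNReal.ofReal (8 * a ^ (4 * k + 3)) * ∫⁻ _u in Set.Ioc (-a) a, ENNReal.ofReal X := by
        refine mul_le_mul_right (setLIntegral_mono' measurableSet_Ioc fun u hu' => ?_) _
        exact hu u (abs_le.2 ⟨hu'.1.le, hu'.2⟩)
    _ = ENNReal.ofReal (16 * a ^ (4 * k + 4) * X) := by
        rw [setLIntegral_const, Real.volume_Ioc, ← ENNReal.ofReal_mul hX,
          ← ENNReal.ofReal_mul (by positivity)]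
        congr 1
        ring

/-! ### The coefficients -/

/-- `p_n = ∑_{k<K} (iτ)^k/k! b^{(k)}_n` -/
def pco (t : ℝ) (b : ℤ → ℝ) (K : ℕ) (τ : ℝ) (n : ℤ) : ℂ :=
  ∑ k ∈ Finset.range K, (Complex.I * τ) ^ k / (k.factorial : ℂ) * (((TT t)^[k] b n : ℝ) : ℂ)

lemma norm_term (τ : ℝ) (k : ℕ) (x : ℝ) :
    ‖(Complex.I * τ) ^ k / (k.factorial : ℂ) * (x : ℂ)‖ ≤ |τ| ^ k * |x| := by
  rw [norm_mul, norm_div, norm_pow, norm_mul, Complex.norm_I, one_mul, Complex.norm_real,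
    Complex.norm_real, Complex.norm_natCast, Real.norm_eq_abs, Real.norm_eq_abs]
  have h1 : (1 : ℝ) ≤ k.factorial := by exact_mod_cast Nat.factorial_pos k
  refine mul_le_mul_of_nonneg_right ?_ (abs_nonneg x)
  exact div_le_self (by positivity) h1

lemma pp_sq (t : ℝ) (b : ℤ → ℝ) (K : ℕ) (τ : ℝ) (s : Finset ℤ) {C T : ℝ} (hC : 0 ≤ C)
    (hT : 0 ≤ T) (hτ : |τ| * T ≤ 1)
    (hb : ∀ k < K, ∑ n ∈ s, ((TT t)^[k] b n) ^ 2 ≤ C * T ^ (2 * k)) :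
    ∑ n ∈ s, ‖pco t b K τ n‖ ^ 2 ≤ (K : ℝ) ^ 2 * C := by
  have h1 : ∀ n ∈ s, ‖pco t b K τ n‖ ^ 2 ≤
      K * ∑ k ∈ Finset.range K, |τ| ^ (2 * k) * ((TT t)^[k] b n) ^ 2 := by
    intro n _
    have h2 : ‖pco t b K τ n‖ ≤ ∑ k ∈ Finset.range K, |τ| ^ k * |(TT t)^[k] b n| :=
      le_trans (norm_sum_le _ _) (Finset.sum_le_sum fun k _ => norm_term τ k _)
    refine le_trans (pow_le_pow_left₀ (norm_nonneg _) h2 2) ?_
    refine le_trans sq_sum_le_card_mul_sum_sq (le_of_eq ?_)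
    rw [Finset.card_range]
    congr 1
    refine Finset.sum_congr rfl fun k _ => ?_
    rw [mul_pow, sq_abs, ← pow_mul, mul_comm k 2]
  refine le_trans (Finset.sum_le_sum h1) ?_
  rw [← Finset.mul_sum, Finset.sum_comm]
  have h3 : ∀ k ∈ Finset.range K, ∑ n ∈ s, |τ| ^ (2 * k) * ((TT t)^[k] b n) ^ 2 ≤ C := by
    intro k hk
    rw [← Finset.mul_sum]
    have h4 := hb k (Finset.mem_range.1 hk)
    have h5 : (|τ| * T) ^ (2 * k) ≤ 1 := pow_le_one₀ (by positivity) hτ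
    calc |τ| ^ (2 * k) * ∑ n ∈ s, ((TT t)^[k] b n) ^ 2 ≤ |τ| ^ (2 * k) * (C * T ^ (2 * k)) :=
          mul_le_mul_of_nonneg_left h4 (by positivity)
      _ = C * (|τ| * T) ^ (2 * k) := by rw [mul_pow]; ring
      _ ≤ C * 1 := mul_le_mul_of_nonneg_left h5 hC
      _ = C := mul_one C
  calc (K : ℝ) * ∑ k ∈ Finset.range K, ∑ n ∈ s, |τ| ^ (2 * k) * ((TT t)^[k] b n) ^ 2
      ≤ K * ∑ _k ∈ Finset.range K, C :=
        mul_le_mul_of_nonneg_left (Finset.sum_le_sum h3) (Nat.cast_nonneg K)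
    _ = (K : ℝ) ^ 2 * C := by
        rw [Finset.sum_const, Finset.card_range, nsmul_eq_mul]
        ring

lemma pp_sub (t : ℝ) (b : ℤ → ℝ) (K : ℕ) (τ : ℝ) (s : Finset ℤ) {C T : ℝ} (hC : 0 ≤ C)
    (hT : 0 ≤ T) (hτ : |τ| * T ≤ 1)
    (hb : ∀ k < K + 1, ∑ n ∈ s, ((TT t)^[k] b n) ^ 2 ≤ C * T ^ (2 * k)) :
    ∑ n ∈ s, ‖pco t b (K + 1) τ n - (b n : ℂ)‖ ^ 2 ≤ (K : ℝ) ^ 2 * (C * (|τ| * T) ^ 2) := by
  have h1 : ∀ n ∈ s, ‖pco t b (K + 1) τ n - (b n : ℂ)‖ ^ 2 ≤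
      K * ∑ k ∈ Finset.range K, |τ| ^ (2 * (k + 1)) * ((TT t)^[k + 1] b n) ^ 2 := by
    intro n _
    have e : pco t b (K + 1) τ n - (b n : ℂ) = ∑ k ∈ Finset.range K,
        (Complex.I * τ) ^ (k + 1) / ((k + 1).factorial : ℂ) *
          (((TT t)^[k + 1] b n : ℝ) : ℂ) := by
      unfold pco
      rw [Finset.sum_range_succ']
      simp
    have h2 : ‖pco t b (K + 1) τ n - (b n : ℂ)‖ ≤
        ∑ k ∈ Finset.range K, |τ| ^ (k + 1) * |(TT t)^[k + 1] b n| := by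
      rw [e]
      exact le_trans (norm_sum_le _ _) (Finset.sum_le_sum fun k _ => norm_term τ (k + 1) _)
    refine le_trans (pow_le_pow_left₀ (norm_nonneg _) h2 2) ?_
    refine le_trans sq_sum_le_card_mul_sum_sq (le_of_eq ?_)
    rw [Finset.card_range]
    congr 1
    refine Finset.sum_congr rfl fun k _ => ?_
    rw [mul_pow, sq_abs, ← pow_mul, mul_comm (k + 1) 2]
  refine le_trans (Finset.sum_le_sum h1) ?_
  rw [← Finset.mul_sum, Finset.sum_comm]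
  have h3 : ∀ k ∈ Finset.range K,
      ∑ n ∈ s, |τ| ^ (2 * (k + 1)) * ((TT t)^[k + 1] b n) ^ 2 ≤ C * (|τ| * T) ^ 2 := by
    intro k hk
    rw [← Finset.mul_sum]
    have h4 := hb (k + 1) (by have := Finset.mem_range.1 hk; omega)
    have h5 : (|τ| * T) ^ (2 * (k + 1)) ≤ (|τ| * T) ^ 2 :=
      pow_le_pow_of_le_one (by positivity) hτ (by omega)
    calc |τ| ^ (2 * (k + 1)) * ∑ n ∈ s, ((TT t)^[k + 1] b n) ^ 2
        ≤ |τ| ^ (2 * (k + 1)) * (C * T ^ (2 * (k + 1))) :=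
          mul_le_mul_of_nonneg_left h4 (by positivity)
      _ = C * (|τ| * T) ^ (2 * (k + 1)) := by rw [mul_pow]; ring
      _ ≤ C * (|τ| * T) ^ 2 := mul_le_mul_of_nonneg_left h5 hC
  calc (K : ℝ) * ∑ k ∈ Finset.range K, ∑ n ∈ s, |τ| ^ (2 * (k + 1)) * ((TT t)^[k + 1] b n) ^ 2
      ≤ K * ∑ _k ∈ Finset.range K, C * (|τ| * T) ^ 2 :=
        mul_le_mul_of_nonneg_left (Finset.sum_le_sum h3) (Nat.cast_nonneg K)
    _ = (K : ℝ) ^ 2 * (C * (|τ| * T) ^ 2) := by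
        rw [Finset.sum_const, Finset.card_range, nsmul_eq_mul]
        ring

/-- the sum of the differences of the squares -/
lemma diff_sq (s : Finset ℤ) (p : ℤ → ℂ) (b : ℤ → ℝ) {X Y Z : ℝ}
    (hX : ∑ n ∈ s, ‖p n - (b n : ℂ)‖ ^ 2 ≤ X) (hY : ∑ n ∈ s, ‖p n‖ ^ 2 ≤ Y)
    (hZ : ∑ n ∈ s, b n ^ 2 ≤ Z) (hX0 : 0 ≤ X) :
    (∑ n ∈ s, |‖p n‖ ^ 2 - b n ^ 2|) ^ 2 ≤ X * (2 * (Y + Z)) := by
  have h1 : (∑ n ∈ s, |‖p n‖ ^ 2 - b n ^ 2|) ^ 2 ≤
      (∑ n ∈ s, ‖p n - (b n : ℂ)‖ ^ 2) * ∑ n ∈ s, (‖p n‖ + |b n|) ^ 2 := by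
    refine Finset.sum_sq_le_sum_mul_sum_of_sq_le_mul s (fun n _ => sq_nonneg _)
      (fun n _ => sq_nonneg _) fun n _ => ?_
    have e1 : ‖p n‖ ^ 2 - b n ^ 2 = (‖p n‖ - ‖(b n : ℂ)‖) * (‖p n‖ + |b n|) := by
      rw [Complex.norm_real, Real.norm_eq_abs, ← sq_abs (b n)]
      ring
    rw [e1, abs_mul, mul_pow, sq_abs (‖p n‖ + |b n|)]
    refine mul_le_mul_of_nonneg_right ?_ (sq_nonneg _)
    exact pow_le_pow_left₀ (abs_nonneg _) (abs_norm_sub_norm_le _ _) 2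
  have h2 : ∑ n ∈ s, (‖p n‖ + |b n|) ^ 2 ≤ 2 * (Y + Z) := by
    have h3 : ∀ n ∈ s, (‖p n‖ + |b n|) ^ 2 ≤ 2 * (‖p n‖ ^ 2 + b n ^ 2) := by
      intro n _
      rw [← sq_abs (b n)]
      nlinarith [sq_nonneg (‖p n‖ - |b n|)]
    refine le_trans (Finset.sum_le_sum h3) ?_
    rw [← Finset.mul_sum, Finset.sum_add_distrib]
    linarith
  have h4 : 0 ≤ ∑ n ∈ s, (‖p n‖ + |b n|) ^ 2 := Finset.sum_nonneg fun n _ => sq_nonneg _
  exact le_trans h1 (mul_le_mul hX h2 h4 hX0)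

/-- the fourth power of a sum -/
lemma pow4_sum (s : Finset ℤ) (u : ℤ → ℝ) {Y : ℝ} (hY : ∑ n ∈ s, u n ^ 2 ≤ Y) :
    (∑ n ∈ s, u n) ^ 4 ≤ ((s.card : ℝ) * Y) ^ 2 := by
  have h1 : (∑ n ∈ s, u n) ^ 2 ≤ s.card * ∑ n ∈ s, u n ^ 2 := sq_sum_le_card_mul_sum_sq
  have h2 : (∑ n ∈ s, u n) ^ 2 ≤ s.card * Y :=
    le_trans h1 (mul_le_mul_of_nonneg_left hY (Nat.cast_nonneg _))
  have h3 : (∑ n ∈ s, u n) ^ 4 = ((∑ n ∈ s, u n) ^ 2) ^ 2 := by ring
  rw [h3]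
  exact pow_le_pow_left₀ (sq_nonneg _) h2 2

/-! ### The forms -/

lemma cont_Ph (h5 : StmtTwG) {f : ℍ → ℝ} {t : ℝ} (hf : IsHeckeMaass f t) (N : ℕ) (c : ℤ → ℂ) :
    Continuous (Ph f t N c) := by
  unfold Ph
  refine continuous_finsetSum _ fun n _ => continuous_const.mul ?_
  obtain ⟨-, -, -, -, -, -, -, -, h⟩ := h5 f t hf n
  exact h

lemma norm_Ff (f : ℍ → ℝ) (t : ℝ) (n : ℤ) (z : ℍ) (x : XC) :
    ‖Ff f t n (Sct (z, x))‖ = ‖Gf f t n (z : ℂ)‖ := by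
  unfold Ff
  rw [norm_mul, norm_zpow, Dyn.norm_ze, one_zpow, one_mul, Dyn.LiftM.base_Sct]

lemma cont_u (h5 : StmtTwG) {f : ℍ → ℝ} {t : ℝ} (hf : IsHeckeMaass f t) (n : ℤ) :
    Continuous fun z : ℍ => ‖Gf f t n (z : ℂ)‖ ^ 2 := by
  obtain ⟨-, -, -, -, -, -, -, -, h⟩ := h5 f t hf n
  have h1 : (fun z : ℍ => ‖Gf f t n (z : ℂ)‖ ^ 2) =
      fun z : ℍ => ‖Ff f t n (Sct (z, (0 : XC)))‖ ^ 2 := by
    funext z
    rw [norm_Ff]
  rw [h1]
  exact (h.comp (Dyn.LiftM.continuous_Sct.comp (by fun_prop))).norm.pow 2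

/-- the fourth moments of the `G_n` -/
lemma mom (h5 : StmtTwG) {f : ℍ → ℝ} {t : ℝ} (hf : IsHeckeMaass f t) {φ : ℂ → ℝ}
    (hφ : Continuous φ) (hp : ∀ z, 0 ≤ φ z) (N : ℕ) {B : ℝ}
    (h : ∀ c : ℤ → ℂ, M4 φ (Ph f t N c) ≤
      ENNReal.ofReal ((∑ n ∈ Finset.Icc (-(N : ℤ)) N, ‖c n‖) ^ 4 * B))
    (n : ℤ) (hn : n ∈ Finset.Icc (-(N : ℤ)) N) :
    ∫⁻ z : ℍ, ENNReal.ofReal (φ z * (‖Gf f t n (z : ℂ)‖ ^ 2) ^ 2) ≤ ENNReal.ofReal B := by
  have h1 := h (Pi.single n 1)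
  have h2 : ∑ m ∈ Finset.Icc (-(N : ℤ)) N, ‖(Pi.single n 1 : ℤ → ℂ) m‖ = 1 := by
    rw [Finset.sum_eq_single n]
    · simp
    · intro m _ hm
      rw [Pi.single_eq_of_ne hm, norm_zero]
    · intro h
      exact absurd hn h
  rw [h2, one_pow, one_mul] at h1
  refine le_trans (le_of_eq ?_) h1
  unfold M4
  rw [lint_nu (meas4 hφ (cont_Ph h5 hf N _))]
  refine lintegral_congr fun z => ?_
  have h3 : ∀ x : XC, ENNReal.ofReal (φ (base (Sct (z, x)) : ℂ)) *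
      ‖Ph f t N (Pi.single n 1) (Sct (z, x))‖ₑ ^ 4 =
      ENNReal.ofReal (φ z * (‖Gf f t n (z : ℂ)‖ ^ 2) ^ 2) := by
    intro x
    have e1 : Ph f t N (Pi.single n 1) (Sct (z, x)) = Ff f t n (Sct (z, x)) := by
      unfold Ph
      rw [Finset.sum_eq_single n]
      · simp
      · intro m _ hm
        rw [Pi.single_eq_of_ne hm, zero_mul]
      · intro h
        exact absurd hn h
    have hb : (base (Sct (z, x)) : ℍ) = z := Dyn.LiftM.base_Sct (z, x)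
    rw [e1, hb, ← ofReal_norm, norm_Ff, ← ENNReal.ofReal_pow (norm_nonneg _),
      ← ENNReal.ofReal_mul (hp _)]
    congr 1
    ring
  simp_rw [h3]
  rw [lintegral_const, measure_univ, mul_one]

lemma card_le {N K : ℕ} {t d : ℝ} (ht : 1 ≤ t) (hd : 0 < d)
    (hN : (N : ℝ) ≤ 2 * t ^ (1 / 2 - d)) :
    ((Finset.Icc (-((N + K : ℕ) : ℤ)) ((N + K : ℕ) : ℤ)).card : ℝ) ^ 2 ≤
      (2 * (K : ℝ) + 5) ^ 2 * t := by
  have h1 : ((Finset.Icc (-((N + K : ℕ) : ℤ)) ((N + K : ℕ) : ℤ)).card : ℝ) =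
      2 * N + 2 * K + 1 := by
    rw [Int.card_Icc]
    have : (((N + K : ℕ) : ℤ) + 1 - -((N + K : ℕ) : ℤ)).toNat = 2 * N + 2 * K + 1 := by
      push_cast
      omega
    rw [this]
    push_cast
    ring
  have hs : 1 ≤ √t := by rw [Real.one_le_sqrt]; exact ht
  have h2 : t ^ (1 / 2 - d) ≤ √t := by
    rw [Real.sqrt_eq_rpow]
    exact Real.rpow_le_rpow_of_exponent_le ht (by linarith)
  have h3 : (2 * (N : ℝ) + 2 * K + 1) ≤ (2 * K + 5) * √t := by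
    have hK : (0 : ℝ) ≤ K := Nat.cast_nonneg K
    nlinarith
  rw [h1]
  calc (2 * (N : ℝ) + 2 * K + 1) ^ 2 ≤ ((2 * K + 5) * √t) ^ 2 :=
        pow_le_pow_left₀ (by positivity) h3 2
    _ = (2 * (K : ℝ) + 5) ^ 2 * t := by rw [mul_pow, Real.sq_sqrt (by linarith)]

/-- the final computation -/
lemma final {K : ℕ} {t T C₀ B τ S X A c : ℝ} (ht : 1 ≤ t) (hT : 1 ≤ T) (hC : 0 ≤ C₀) (hB : 0 ≤ B)
    (hT2 : T ^ 2 ≤ t) (hT4 : t ^ 4 ≤ T ^ (4 * (K + 1))) (hτ0 : 0 ≤ τ) (hτ : τ ≤ (T ^ 2)⁻¹)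
    (hc : c ^ 2 ≤ (2 * ((K : ℝ) + 1) + 5) ^ 2 * t)
    (hS : S ≤ (c * (((K : ℝ) + 1) ^ 2 * C₀)) ^ 2)
    (hX : X ≤ (c * (C₀ * T ^ (2 * (K + 1)))) ^ 2)
    (hA : A ≤ ((K : ℝ) ^ 2 * (C₀ * (τ * T) ^ 2)) * (2 * (((K : ℝ) + 1) ^ 2 * C₀ + C₀))) :
    2 * (4 * (t ^ 2)⁻¹ * (S * B) + (4 / (t ^ 2)⁻¹ + 2) * (16 * τ ^ (4 * K + 4) * (X * B))) +
      2 * (A * B) ≤
    (8 * (2 * ((K : ℝ) + 1) + 5) ^ 2 * ((K : ℝ) + 1) ^ 4 * C₀ ^ 2 +
      192 * (2 * ((K : ℝ) + 1) + 5) ^ 2 * C₀ ^ 2 + 8 * ((K : ℝ) + 1) ^ 4 * C₀ ^ 2) *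
      (T ^ 2)⁻¹ * B := by
  have ht0 : 0 < t := by linarith
  have hT0 : 0 < T := by linarith
  have hK : (0 : ℝ) ≤ K := Nat.cast_nonneg K
  set L : ℝ := (K : ℝ) + 1 with hL
  have hL1 : 1 ≤ L := by linarith
  have hti : t⁻¹ ≤ (T ^ 2)⁻¹ := inv_anti₀ (by positivity) hT2
  -- (i)
  have i1 : 4 * (t ^ 2)⁻¹ * S ≤ 4 * (2 * L + 5) ^ 2 * L ^ 4 * C₀ ^ 2 * (T ^ 2)⁻¹ := by
    have e1 : S ≤ ((2 * L + 5) ^ 2 * t) * (L ^ 4 * C₀ ^ 2) := by
      refine le_trans hS ?_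
      have : (c * (L ^ 2 * C₀)) ^ 2 = c ^ 2 * (L ^ 4 * C₀ ^ 2) := by ring
      rw [this]
      exact mul_le_mul_of_nonneg_right hc (by positivity)
    calc 4 * (t ^ 2)⁻¹ * S ≤ 4 * (t ^ 2)⁻¹ * (((2 * L + 5) ^ 2 * t) * (L ^ 4 * C₀ ^ 2)) :=
          mul_le_mul_of_nonneg_left e1 (by positivity)
      _ = 4 * (2 * L + 5) ^ 2 * L ^ 4 * C₀ ^ 2 * t⁻¹ := by
          field_simp
      _ ≤ _ := mul_le_mul_of_nonneg_left hti (by positivity)
  -- (ii)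
  have i2 : (4 / (t ^ 2)⁻¹ + 2) * (16 * τ ^ (4 * K + 4) * X) ≤
      96 * (2 * L + 5) ^ 2 * C₀ ^ 2 * (T ^ 2)⁻¹ := by
    have e1 : X ≤ ((2 * L + 5) ^ 2 * t) * (C₀ ^ 2 * T ^ (4 * (K + 1))) := by
      refine le_trans hX ?_
      have : (c * (C₀ * T ^ (2 * (K + 1)))) ^ 2 = c ^ 2 * (C₀ ^ 2 * T ^ (4 * (K + 1))) := by
        have h : T ^ (4 * (K + 1)) = (T ^ (2 * (K + 1))) ^ 2 := by
          rw [← pow_mul]
          congr 1
          ring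
        rw [h]
        ring
      rw [this]
      exact mul_le_mul_of_nonneg_right hc (by positivity)
    have e2 : τ ^ (4 * K + 4) ≤ (T ^ (4 * (K + 1)))⁻¹ * (T ^ (4 * (K + 1)))⁻¹ := by
      refine le_trans (pow_le_pow_left₀ hτ0 hτ _) (le_of_eq ?_)
      rw [← mul_inv, inv_pow, ← pow_add, ← pow_mul]
      congr 2
      ring
    have e3 : τ ^ (4 * K + 4) * X ≤ (2 * L + 5) ^ 2 * t * C₀ ^ 2 * (t ^ 4)⁻¹ := by
      have hP : 0 < T ^ (4 * (K + 1)) := by positivity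
      calc τ ^ (4 * K + 4) * X
          ≤ τ ^ (4 * K + 4) * (((2 * L + 5) ^ 2 * t) * (C₀ ^ 2 * T ^ (4 * (K + 1)))) :=
            mul_le_mul_of_nonneg_left e1 (by positivity)
        _ ≤ ((T ^ (4 * (K + 1)))⁻¹ * (T ^ (4 * (K + 1)))⁻¹) *
            (((2 * L + 5) ^ 2 * t) * (C₀ ^ 2 * T ^ (4 * (K + 1)))) :=
            mul_le_mul_of_nonneg_right e2 (by positivity)
        _ = (2 * L + 5) ^ 2 * t * C₀ ^ 2 * (T ^ (4 * (K + 1)))⁻¹ := by
            field_simp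
        _ ≤ _ := mul_le_mul_of_nonneg_left (inv_anti₀ (by positivity) hT4) (by positivity)
    have e4 : 4 / (t ^ 2)⁻¹ + 2 ≤ 6 * t ^ 2 := by
      have : 4 / (t ^ 2)⁻¹ = 4 * t ^ 2 := by field_simp
      rw [this]
      nlinarith
    calc (4 / (t ^ 2)⁻¹ + 2) * (16 * τ ^ (4 * K + 4) * X)
        = (4 / (t ^ 2)⁻¹ + 2) * (16 * (τ ^ (4 * K + 4) * X)) := by ring
      _ ≤ (4 / (t ^ 2)⁻¹ + 2) * (16 * ((2 * L + 5) ^ 2 * t * C₀ ^ 2 * (t ^ 4)⁻¹)) :=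
          mul_le_mul_of_nonneg_left (mul_le_mul_of_nonneg_left e3 (by norm_num)) (by positivity)
      _ ≤ (6 * t ^ 2) * (16 * ((2 * L + 5) ^ 2 * t * C₀ ^ 2 * (t ^ 4)⁻¹)) :=
          mul_le_mul_of_nonneg_right e4 (by positivity)
      _ = 96 * (2 * L + 5) ^ 2 * C₀ ^ 2 * t⁻¹ := by
          field_simp
          ring
      _ ≤ _ := mul_le_mul_of_nonneg_left hti (by positivity)
  -- (iii)
  have i3 : A ≤ 4 * L ^ 4 * C₀ ^ 2 * (T ^ 2)⁻¹ := by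
    have e1 : τ * T ≤ T⁻¹ := by
      calc τ * T ≤ (T ^ 2)⁻¹ * T := mul_le_mul_of_nonneg_right hτ hT0.le
        _ = T⁻¹ := by field_simp
    have e2 : (τ * T) ^ 2 ≤ (T ^ 2)⁻¹ := by
      refine le_trans (pow_le_pow_left₀ (by positivity) e1 2) (le_of_eq ?_)
      rw [inv_pow]
    have e3 : (K : ℝ) ^ 2 ≤ L ^ 2 := pow_le_pow_left₀ hK (by linarith) 2
    have e4 : 2 * (L ^ 2 * C₀ + C₀) ≤ 4 * L ^ 2 * C₀ := by nlinarith
    refine le_trans hA ?_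
    calc ((K : ℝ) ^ 2 * (C₀ * (τ * T) ^ 2)) * (2 * (L ^ 2 * C₀ + C₀))
        ≤ (L ^ 2 * (C₀ * (T ^ 2)⁻¹)) * (4 * L ^ 2 * C₀) := by
          refine mul_le_mul ?_ e4 (by positivity) (by positivity)
          exact mul_le_mul e3 (mul_le_mul_of_nonneg_left e2 hC) (by positivity) (by positivity)
      _ = _ := by ring
  have j1 := mul_le_mul_of_nonneg_right i1 hB
  have j2 := mul_le_mul_of_nonneg_right i2 hB
  have j3 := mul_le_mul_of_nonneg_right i3 hB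
  nlinarith

end StaM

open StaM in
theorem stmtSta (h1 : StmtNuL) (h2 : StmtFib) (h3 : StmtTay) (h4 : StmtL4G) (h5 : StmtTwG) :
    StmtSta := by
  intro d hd hd8
  refine ⟨⌈2 / d⌉₊ + 2, fun K' hK' C₀ hC₀ φ hφ => ?_⟩
  obtain ⟨ζ, hζ, hφζ, hL4⟩ := h4 φ hφ
  obtain ⟨K, rfl⟩ : ∃ K, K' = K + 1 := ⟨K' - 1, by omega⟩
  have hK0 : (0 : ℝ) ≤ K := Nat.cast_nonneg K
  refine ⟨ζ, 8 * (2 * ((K : ℝ) + 1) + 5) ^ 2 * ((K : ℝ) + 1) ^ 4 * C₀ ^ 2 +
    192 * (2 * ((K : ℝ) + 1) + 5) ^ 2 * C₀ ^ 2 + 8 * ((K : ℝ) + 1) ^ 4 * C₀ ^ 2, 1, hζ, hφζ,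
    by positivity, le_rfl, ?_⟩
  intro f t hf ht N b hb B hB hU τ hτ
  have ht0 : 0 < t := by linarith
  have hφc : Continuous φ := hφ.test.smooth.continuous
  have hp := hφ.nonneg
  -- the numbers
  obtain ⟨T, hTdef⟩ : ∃ T, T = t ^ (2 * d) := ⟨_, rfl⟩
  have hT1 : 1 ≤ T := hTdef ▸ Real.one_le_rpow ht (by positivity)
  have hT0 : 0 < T := by linarith
  have hT2e : T ^ 2 = t ^ (4 * d) := by
    rw [hTdef, ← Real.rpow_natCast, ← Real.rpow_mul ht0.le]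
    congr 1
    push_cast
    ring
  have hTi : t ^ (-(4 * d)) = (T ^ 2)⁻¹ := by rw [Real.rpow_neg ht0.le, hT2e]
  have hT2 : T ^ 2 ≤ t := by
    rw [hT2e]
    calc t ^ (4 * d) ≤ t ^ (1 : ℝ) := Real.rpow_le_rpow_of_exponent_le ht (by linarith)
      _ = t := Real.rpow_one t
  have hdK : 2 ≤ d * ((K : ℝ) + 1) := by
    have e1 : 2 / d ≤ (⌈2 / d⌉₊ : ℝ) := Nat.le_ceil _
    have e2 : ((⌈2 / d⌉₊ + 2 : ℕ) : ℝ) ≤ ((K + 1 : ℕ) : ℝ) := by exact_mod_cast hK'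
    push_cast at e2
    have e3 : 2 / d ≤ (K : ℝ) + 1 := by linarith
    rw [div_le_iff₀ hd] at e3
    linarith
  have hT4 : t ^ 4 ≤ T ^ (4 * (K + 1)) := by
    have e1 : T ^ (4 * (K + 1)) = t ^ (2 * d * ((4 * (K + 1) : ℕ) : ℝ)) := by
      rw [hTdef, ← Real.rpow_natCast, ← Real.rpow_mul ht0.le]
    rw [e1, ← Real.rpow_natCast t 4]
    refine Real.rpow_le_rpow_of_exponent_le ht ?_
    push_cast
    nlinarith
  rw [hTi] at hτ ⊢
  have hτ1 : |τ| ≤ 1 := le_trans hτ (inv_le_one_of_one_le₀ (one_le_pow₀ hT1))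
  have hτT : |τ| * T ≤ 1 := by
    calc |τ| * T ≤ (T ^ 2)⁻¹ * T := mul_le_mul_of_nonneg_right hτ hT0.le
      _ = T⁻¹ := by field_simp
      _ ≤ 1 := inv_le_one_of_one_le₀ hT1
  -- the index set
  set I := Finset.Icc (-((N + (K + 1) : ℕ) : ℤ)) ((N + (K + 1) : ℕ) : ℤ) with hI
  have hpow : ∀ k < K + 1, ∑ n ∈ I, ((TT t)^[k] b n) ^ 2 ≤ C₀ * T ^ (2 * k) := by
    intro k hk
    have := hb.pow k hk.le
    rwa [← hTdef] at this
  have hpowK : ∑ n ∈ I, ((TT t)^[K + 1] b n) ^ 2 ≤ C₀ * T ^ (2 * (K + 1)) := by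
    have := hb.pow (K + 1) le_rfl
    rwa [← hTdef] at this
  set p := pco t b (K + 1) τ with hpdef
  have hp2 : ∑ n ∈ I, ‖p n‖ ^ 2 ≤ ((K : ℝ) + 1) ^ 2 * C₀ := by
    have := pp_sq t b (K + 1) τ I hC₀ hT0.le hτT hpow
    push_cast at this
    exact this
  have hps := pp_sub t b K τ I hC₀ hT0.le hτT hpow
  have hb2 : ∑ n ∈ I, b n ^ 2 ≤ C₀ := by
    have := hpow 0 (Nat.succ_pos K)
    simpa using this
  -- the functions
  set c : ℤ → ℂ := fun n => (-Complex.I) ^ n * p n with hc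
  have hcn : ∀ n, ‖c n‖ = ‖p n‖ := by
    intro n
    simp only [hc]
    rw [norm_mul, norm_zpow, norm_neg, Complex.norm_I, one_zpow, one_mul]
  have hP : ∀ g, ∑ k ∈ Finset.range (K + 1), (Complex.I * τ) ^ k / (k.factorial : ℂ) *
      Pb f t (N + (K + 1)) ((TT t)^[k] b) g = Ph f t (N + (K + 1)) c g := by
    intro g
    unfold Pb Ph
    simp only [Finset.mul_sum]
    rw [Finset.sum_comm]
    refine Finset.sum_congr rfl fun n _ => ?_
    simp only [hc, hpdef, pco]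
    rw [Finset.mul_sum, Finset.sum_mul]
    refine Finset.sum_congr rfl fun k _ => ?_
    ring
  set E := Complex.exp (Complex.I * t * τ) with hE
  have hEn : ‖E‖ = 1 := by
    have : E = Complex.exp (((t * τ : ℝ) : ℂ) * Complex.I) := by
      rw [hE]
      congr 1
      push_cast
      ring
    rw [this, Complex.norm_exp_ofReal_mul_I]
  set q : G → ℂ := fun g => E * Ph f t (N + (K + 1)) c g with hq
  set Ψ : G → ℂ := Pb f t (N + (K + 1)) ((TT t)^[K + 1] b) with hΨ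
  set r : G → ℂ := fun g => Pb f t N b (g * fl τ) - q g with hr
  have hPc : Continuous (Ph f t (N + (K + 1)) c) := cont_Ph h5 hf _ _
  have hqc : Continuous q := continuous_const.mul hPc
  have hbc : Continuous (Pb f t N b) := cont_Ph h5 hf _ _
  have hrc : Continuous r := (hbc.comp (continuous_id.mul continuous_const)).sub hqc
  have hΨc : Continuous Ψ := cont_Ph h5 hf _ _
  have hTay : ∀ g, ‖r g‖ ≤ |τ| ^ K * ∫ u in (-|τ|)..|τ|, ‖Ψ (g * fl u)‖ := by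
    intro g
    have := h3 f t hf N (K + 1) b (Nat.succ_pos K) hb.supp g τ
    rw [hP g, Nat.add_sub_cancel] at this
    exact this
  have hL4' : ∀ (c : ℤ → ℂ) (u : ℝ), |u| ≤ 1 → M4 φ (fun g => Ph f t (N + (K + 1)) c (g * fl u)) ≤
      ENNReal.ofReal ((∑ n ∈ I, ‖c n‖) ^ 4 * B) := by
    intro c u hu
    exact hL4 f t hf (N + (K + 1)) c B hU u hu
  have hL40 : ∀ c : ℤ → ℂ, M4 φ (Ph f t (N + (K + 1)) c) ≤
      ENNReal.ofReal ((∑ n ∈ I, ‖c n‖) ^ 4 * B) := by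
    intro c
    have := hL4' c 0 (by simp)
    simpa only [Dyn.fl_zero, mul_one] using this
  have hMq : M4 φ q ≤ ENNReal.ofReal ((∑ n ∈ I, ‖p n‖) ^ 4 * B) := by
    have e1 : M4 φ q = M4 φ (Ph f t (N + (K + 1)) c) := by
      unfold M4
      refine lintegral_congr fun g => ?_
      simp only [hq]
      rw [← ofReal_norm, norm_mul, hEn, one_mul, ofReal_norm]
    rw [e1]
    have := hL40 c
    simp only [hcn] at this
    exact this
  have hMr : M4 φ r ≤ ENNReal.ofReal (16 * |τ| ^ (4 * K + 4) *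
      ((∑ n ∈ I, |(TT t)^[K + 1] b n|) ^ 4 * B)) := by
    refine rem4 h1.2.2.1 hφc hΨc K (abs_nonneg τ) (mul_nonneg (by positivity) hB) hTay ?_
    intro u hu
    have := hL4' (fun n => (-Complex.I) ^ n * (((TT t)^[K + 1] b n : ℝ) : ℂ)) u
      (le_trans hu hτ1)
    have e2 : ∀ n : ℤ, ‖(-Complex.I) ^ n * (((TT t)^[K + 1] b n : ℝ) : ℂ)‖ =
        |(TT t)^[K + 1] b n| := by
      intro n
      rw [norm_mul, norm_zpow, norm_neg, Complex.norm_I, one_zpow, one_mul, Complex.norm_real,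
        Real.norm_eq_abs]
    simp only [e2] at this
    exact this
  -- the two parts
  have hl : 0 < (t ^ 2)⁻¹ := by positivity
  have hpart1 := fib_diff hφc hp hqc hrc hl
  have hpart2 := sum_diff hφc hp I (fun n => ‖p n‖ ^ 2 - b n ^ 2)
    (fun n z => ‖Gf f t n (z : ℂ)‖ ^ 2) (fun n => cont_u h5 hf n) hB
    (fun n hn => mom h5 hf hφc hp (N + (K + 1)) hL40 n hn)
  have hdec : ∀ z : ℍ, St (Pb f t N b) τ z - Sw f t N (fun n => b n ^ 2) z =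
      ((∫ x : XC, ‖q (Sct (z, x)) + r (Sct (z, x))‖ ^ 2 ∂AddCircle.haarAddCircle) -
        ∫ x : XC, ‖q (Sct (z, x))‖ ^ 2 ∂AddCircle.haarAddCircle) +
      ∑ n ∈ I, (‖p n‖ ^ 2 - b n ^ 2) * ‖Gf f t n (z : ℂ)‖ ^ 2 := by
    intro z
    have e1 : St (Pb f t N b) τ z =
        ∫ x : XC, ‖q (Sct (z, x)) + r (Sct (z, x))‖ ^ 2 ∂AddCircle.haarAddCircle := by
      unfold St
      refine integral_congr_ae (Eventually.of_forall fun x => ?_)
      simp only [hr]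
      rw [add_sub_cancel]
    have e2 : ∫ x : XC, ‖q (Sct (z, x))‖ ^ 2 ∂AddCircle.haarAddCircle =
        ∑ n ∈ I, ‖p n‖ ^ 2 * ‖Gf f t n (z : ℂ)‖ ^ 2 := by
      have e3 := (h2 f t hf (N + (K + 1)) c).1 z
      unfold St Sw at e3
      simp only [hcn, Dyn.fl_zero, mul_one] at e3
      rw [← e3]
      refine integral_congr_ae (Eventually.of_forall fun x => ?_)
      simp only [hq]
      rw [norm_mul, hEn, one_mul]
    have e4 : Sw f t N (fun n => b n ^ 2) z = ∑ n ∈ I, b n ^ 2 * ‖Gf f t n (z : ℂ)‖ ^ 2 := by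
      unfold Sw
      refine Finset.sum_subset ?_ ?_
      · refine Finset.Icc_subset_Icc ?_ ?_
        · push_cast
          omega
        · push_cast
          omega
      · intro n _ hn
        have : b n = 0 := by
          refine hb.supp n ?_
          rw [Finset.mem_Icc, not_and_or] at hn
          rcases hn with hn | hn
          · exact lt_abs.2 (Or.inr (by omega))
          · exact lt_abs.2 (Or.inl (by omega))
        simp only [this]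
        ring
    rw [e1, e2, e4]
    simp only [sub_mul, Finset.sum_sub_distrib]
    ring
  have hC' : 0 ≤ 8 * (2 * ((K : ℝ) + 1) + 5) ^ 2 * ((K : ℝ) + 1) ^ 4 * C₀ ^ 2 +
    192 * (2 * ((K : ℝ) + 1) + 5) ^ 2 * C₀ ^ 2 + 8 * ((K : ℝ) + 1) ^ 4 * C₀ ^ 2 := by positivity
  refine int_le (fun z => mul_nonneg (hp _) (sq_nonneg _))
    (mul_nonneg (mul_nonneg hC' (by positivity)) hB) ?_
  have hA4 : (0 : ℝ) ≤ (∑ n ∈ I, ‖p n‖) ^ 4 * B := mul_nonneg (by positivity) hB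
  have hX4 : (0 : ℝ) ≤ (∑ n ∈ I, |(TT t)^[K + 1] b n|) ^ 4 * B := mul_nonneg (by positivity) hB
  have hD2 : (0 : ℝ) ≤ (∑ n ∈ I, |‖p n‖ ^ 2 - b n ^ 2|) ^ 2 * B := mul_nonneg (by positivity) hB
  calc ∫⁻ z : ℍ, ENNReal.ofReal (φ z * (St (Pb f t N b) τ z - Sw f t N (fun n => b n ^ 2) z) ^ 2)
      ≤ ∫⁻ z : ℍ, (2 * ENNReal.ofReal (φ z * ((∫ x : XC, ‖q (Sct (z, x)) + r (Sct (z, x))‖ ^ 2
        ∂AddCircle.haarAddCircle) - ∫ x : XC, ‖q (Sct (z, x))‖ ^ 2 ∂AddCircle.haarAddCircle) ^ 2) +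
        2 * ENNReal.ofReal (φ z * (∑ n ∈ I, (‖p n‖ ^ 2 - b n ^ 2) *
          ‖Gf f t n (z : ℂ)‖ ^ 2) ^ 2)) := by
        refine lintegral_mono fun z => ?_
        have e : (2 : ℝ≥0∞) = ENNReal.ofReal 2 := by simp
        simp only
        rw [hdec z, e, ← ENNReal.ofReal_mul (by norm_num), ← ENNReal.ofReal_mul (by norm_num),
          ← ENNReal.ofReal_add (mul_nonneg (by norm_num) (mul_nonneg (hp _) (sq_nonneg _)))
            (mul_nonneg (by norm_num) (mul_nonneg (hp _) (sq_nonneg _)))]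
        refine ENNReal.ofReal_le_ofReal ?_
        have hpz := hp (z : ℂ)
        set x1 := (∫ x : XC, ‖q (Sct (z, x)) + r (Sct (z, x))‖ ^ 2 ∂AddCircle.haarAddCircle) -
          ∫ x : XC, ‖q (Sct (z, x))‖ ^ 2 ∂AddCircle.haarAddCircle
        set x2 := ∑ n ∈ I, (‖p n‖ ^ 2 - b n ^ 2) * ‖Gf f t n (z : ℂ)‖ ^ 2
        have e5 : (x1 + x2) ^ 2 ≤ 2 * x1 ^ 2 + 2 * x2 ^ 2 := by nlinarith [sq_nonneg (x1 - x2)]
        nlinarith [mul_le_mul_of_nonneg_left e5 hpz]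
    _ = 2 * (∫⁻ z : ℍ, ENNReal.ofReal (φ z * ((∫ x : XC, ‖q (Sct (z, x)) + r (Sct (z, x))‖ ^ 2
        ∂AddCircle.haarAddCircle) - ∫ x : XC, ‖q (Sct (z, x))‖ ^ 2 ∂AddCircle.haarAddCircle) ^ 2)) +
        2 * ∫⁻ z : ℍ, ENNReal.ofReal (φ z * (∑ n ∈ I, (‖p n‖ ^ 2 - b n ^ 2) *
          ‖Gf f t n (z : ℂ)‖ ^ 2) ^ 2) := by
        have hm : Measurable fun z : ℍ => 2 * ENNReal.ofReal (φ z * (∑ n ∈ I,
            (‖p n‖ ^ 2 - b n ^ 2) * ‖Gf f t n (z : ℂ)‖ ^ 2) ^ 2) := by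
          refine Measurable.const_mul (ENNReal.measurable_ofReal.comp (Continuous.measurable ?_)) _
          refine (hφc.comp UpperHalfPlane.continuous_coe).mul (Continuous.pow ?_ 2)
          exact continuous_finsetSum _ fun n _ => continuous_const.mul (cont_u h5 hf n)
        rw [lintegral_add_right _ hm, lintegral_const_mul' _ _ (by simp),
          lintegral_const_mul' _ _ (by simp)]
    _ ≤ 2 * (ENNReal.ofReal (4 * (t ^ 2)⁻¹) * ENNReal.ofReal ((∑ n ∈ I, ‖p n‖) ^ 4 * B) +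
          ENNReal.ofReal (4 / (t ^ 2)⁻¹ + 2) * ENNReal.ofReal (16 * |τ| ^ (4 * K + 4) *
            ((∑ n ∈ I, |(TT t)^[K + 1] b n|) ^ 4 * B))) +
        2 * ENNReal.ofReal ((∑ n ∈ I, |‖p n‖ ^ 2 - b n ^ 2|) ^ 2 * B) := by
        gcongr
        exact le_trans hpart1 (add_le_add (mul_le_mul_right hMq _) (mul_le_mul_right hMr _))
    _ = ENNReal.ofReal (2 * (4 * (t ^ 2)⁻¹ * ((∑ n ∈ I, ‖p n‖) ^ 4 * B) +
          (4 / (t ^ 2)⁻¹ + 2) * (16 * |τ| ^ (4 * K + 4) *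
            ((∑ n ∈ I, |(TT t)^[K + 1] b n|) ^ 4 * B))) +
        2 * ((∑ n ∈ I, |‖p n‖ ^ 2 - b n ^ 2|) ^ 2 * B)) := by
        have e : (2 : ℝ≥0∞) = ENNReal.ofReal 2 := by simp
        rw [e, ← ENNReal.ofReal_mul (by positivity), ← ENNReal.ofReal_mul (by positivity),
          ← ENNReal.ofReal_add (by positivity) (by positivity),
          ← ENNReal.ofReal_mul (by positivity), ← ENNReal.ofReal_mul (by positivity),
          ← ENNReal.ofReal_add (by positivity) (by positivity)]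
    _ ≤ _ := by
        refine ENNReal.ofReal_le_ofReal ?_
        refine final (c := (I.card : ℝ)) ht hT1 hC₀ hB hT2 hT4 (abs_nonneg τ) hτ ?_ ?_ ?_ ?_
        · have := card_le (N := N) (K := K + 1) ht hd hb.hi
          push_cast at this ⊢
          exact this
        · exact pow4_sum I (fun n => ‖p n‖) hp2
        · refine pow4_sum I (fun n => |(TT t)^[K + 1] b n|) ?_
          simp only [sq_abs]
          exact hpowK
        · exact diff_sq I p b hps hp2 hb2 (by positivity)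

end

end Pool.Agent.A54.Hp
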