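import Pool.Agent.Lib.MP_a54f13_nt.Hp.SpecB

/-!
# Package `Hp`: integrals of `S^τ` (`StmtSti`)

For note 4597 of MP_a54f13_nt (THEOREM A). Author: helper67.
-/

set_option autoImplicit false

namespace Pool.Agent.A54.Hp

open MeasureTheory Filter Topology Set
open scoped ContDiff ComplexConjugate UpperHalfPlane MatrixGroups ENNReal
open Pool.Agent.A54.Dyn (G fl base ze io mk4 dom)
open Pool.Agent.A54.Dyn.LiftM (Sct XC XX cc rot m0)

noncomputable section

namespace StiM

lemma meas_Sct : Measurable Sct := Dyn.LiftM.continuous_Sct.measurable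

lemma lint (F : G → ℝ≥0∞) (hF : Measurable F) :
    ∫⁻ g, F g ∂nu = ∫⁻ z : ℍ, ∫⁻ x : XC, F (Sct (z, x)) ∂AddCircle.haarAddCircle := by
  unfold nu m0
  rw [lintegral_map hF meas_Sct, lintegral_prod (fun p : XX => F (Sct p))
    (hF.comp meas_Sct).aemeasurable]

lemma enorm_sq (c : ℂ) : ‖c‖ₑ ^ 2 = ENNReal.ofReal (‖c‖ ^ 2) := by
  rw [ENNReal.ofReal_pow (norm_nonneg c), ofReal_norm]

lemma cont_St (Φ : G → ℂ) (hΦ : Continuous Φ) : Continuous (fun p : ℝ × ℍ => St Φ p.1 p.2) := by
  have h1 : Continuous (Function.uncurry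
      fun (p : ℝ × ℍ) (x : XC) => ‖Φ (Sct (p.2, x) * fl p.1)‖ ^ 2) := by
    refine (hΦ.comp ?_).norm.pow 2
    exact (Dyn.LiftM.continuous_Sct.comp
      ((continuous_snd.comp continuous_fst).prodMk continuous_snd)).mul
      (Dyn.continuous_fl.comp (continuous_fst.comp continuous_fst))
  have h2 := continuous_parametric_integral_of_continuous
    (μ := (AddCircle.haarAddCircle : Measure XC)) h1 (isCompact_univ : IsCompact (Set.univ : Set XC))
  refine h2.congr fun p => ?_
  rw [setIntegral_univ]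
  rfl

lemma ofReal_St (Φ : G → ℂ) (hΦ : Continuous Φ) (τ : ℝ) (z : ℍ) :
    ENNReal.ofReal (St Φ τ z) = ∫⁻ x : XC, ‖Φ (Sct (z, x) * fl τ)‖ₑ ^ 2 ∂AddCircle.haarAddCircle := by
  unfold St
  have hc : Continuous (fun x : XC => ‖Φ (Sct (z, x) * fl τ)‖ ^ 2) :=
    (hΦ.comp ((Dyn.LiftM.continuous_Sct.comp
      (continuous_const.prodMk continuous_id)).mul continuous_const)).norm.pow 2
  rw [ofReal_integral_eq_lintegral_ofReal (hc.integrable_of_hasCompactSupport
    (HasCompactSupport.of_compactSpace _)) (Eventually.of_forall fun x => by positivity)]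
  refine lintegral_congr fun x => ?_
  rw [enorm_sq]

end StiM

open StiM in
/-- **Sti** -/
theorem stmtSti (h : StmtNuR) : StmtSti := by
  intro Φ hΦ
  refine ⟨cont_St Φ hΦ, fun τ z => integral_nonneg fun x => by positivity, ?_⟩
  intro τ H hH
  have hr := h.1
  have hm : Measurable (fun g : G => H (base (g * fl (-τ))) * ‖Φ g‖ₑ ^ 2) :=
    (hH.comp (Dyn.measurable_base.comp (continuous_id.mul continuous_const).measurable)).mul
      ((hΦ.measurable.enorm).pow_const 2)
  have hm2 : Measurable (fun g : G => g * fl τ) := (continuous_id.mul continuous_const).measurable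
  have h1 : ∫⁻ g, H (base (g * fl (-τ))) * ‖Φ g‖ₑ ^ 2 ∂nu =
      ∫⁻ g, H (base g) * ‖Φ (g * fl τ)‖ₑ ^ 2 ∂nu := by
    rw [← lintegral_mul_right_eq_self (fun g : G => H (base (g * fl (-τ))) * ‖Φ g‖ₑ ^ 2) (fl τ)]
    refine lintegral_congr fun g => ?_
    rw [mul_assoc, Dyn.fl_neg, mul_inv_cancel, mul_one]
  rw [h1, lint]
  · refine lintegral_congr fun z => ?_
    rw [ofReal_St Φ hΦ τ z, ← lintegral_const_mul]
    · refine lintegral_congr fun x => ?_
      rw [Dyn.LiftM.base_Sct]
    · exact ((hΦ.comp ((Dyn.LiftM.continuous_Sct.comp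
        (continuous_const.prodMk continuous_id)).mul continuous_const)).measurable.enorm).pow_const 2
  · exact (hH.comp Dyn.measurable_base).mul (((hΦ.measurable.comp hm2).enorm).pow_const 2)

end

end Pool.Agent.A54.Hp
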