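import Pool.Agent.Lib.MP_a54f13_nt.Hp.SpecA

/-!
# Package `Hp`, module `Tay` (helper62): Taylor's formula along the geodesic flow
-/

set_option autoImplicit false

namespace Pool.Agent.A54.Hp

open MeasureTheory Filter Topology Set
open scoped ContDiff ComplexConjugate UpperHalfPlane MatrixGroups ENNReal
open Pool.Agent.A54.Dyn (G fl base ze io mk4 dom)
open Pool.Agent.A54.Dyn.LiftM (Sct XC XX cc rot m0)
open Pool.Agent.A54.Av (Mat NonSc)
open Pool.Agent.A54.Half (H0)
open Pool.Agent.A54.Sq (la TestP Tow Up)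

noncomputable section

namespace TayM

/-! ### Taylor's formula for `φ_k' = i φ_{k+1}` -/

lemma poly_deriv (K : ℕ) (c : ℕ → ℂ) (u : ℝ) :
    HasDerivAt (fun u : ℝ => ∑ k ∈ Finset.range (K + 2), (Complex.I * (u : ℂ)) ^ k / (k.factorial : ℂ) * c k)
      (Complex.I * ∑ k ∈ Finset.range (K + 1), (Complex.I * (u : ℂ)) ^ k / (k.factorial : ℂ) * c (k + 1)) u := by
  have h0 : ∀ u : ℝ, HasDerivAt (fun u : ℝ => Complex.I * (u : ℂ)) Complex.I u := by
    intro u
    have := (Complex.ofRealCLM.hasDerivAt (x := u)).const_mul Complex.I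
    simpa using this
  have h1 : ∀ k : ℕ, HasDerivAt (fun u : ℝ => (Complex.I * (u : ℂ)) ^ (k + 1) / ((k + 1).factorial : ℂ) * c (k + 1))
      (Complex.I * ((Complex.I * (u : ℂ)) ^ k / (k.factorial : ℂ) * c (k + 1))) u := by
    intro k
    have h2 := (((h0 u).pow (k + 1)).div_const ((k + 1).factorial : ℂ)).mul_const (c (k + 1))
    have h3 : ((k + 1 : ℕ) : ℂ) ≠ 0 := by exact_mod_cast Nat.succ_ne_zero k
    have h4 : ((k.factorial : ℕ) : ℂ) ≠ 0 := by exact_mod_cast k.factorial_ne_zero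
    have e : ((k + 1 : ℕ) : ℂ) * (Complex.I * (u : ℂ)) ^ (k + 1 - 1) * Complex.I / ((k + 1).factorial : ℂ) * c (k + 1) =
        Complex.I * ((Complex.I * (u : ℂ)) ^ k / (k.factorial : ℂ) * c (k + 1)) := by
      rw [Nat.factorial_succ, Nat.add_sub_cancel]
      push_cast
      push_cast at h3
      field_simp
    rw [e] at h2
    exact h2
  have h5 : HasDerivAt (fun u : ℝ => ∑ k ∈ Finset.range (K + 1),
      (Complex.I * (u : ℂ)) ^ (k + 1) / ((k + 1).factorial : ℂ) * c (k + 1))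
      (∑ k ∈ Finset.range (K + 1), Complex.I * ((Complex.I * (u : ℂ)) ^ k / (k.factorial : ℂ) * c (k + 1))) u :=
    HasDerivAt.fun_sum (fun k _ => h1 k)
  have h6 := h5.add_const (c 0)
  rw [← Finset.mul_sum] at h6
  refine h6.congr_of_eventuallyEq (Eventually.of_forall fun u => ?_)
  simp only
  rw [Finset.sum_range_succ']
  simp

lemma taylor (s : ℝ) : ∀ (K : ℕ) (φ : ℕ → ℝ → ℂ),
    (∀ k ≤ K, ∀ u, HasDerivAt (φ k) (Complex.I * φ (k + 1) u) u) → Continuous (φ (K + 1)) →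
    ∀ u : ℝ, |u| ≤ |s| → ‖φ 0 u - ∑ k ∈ Finset.range (K + 1), (Complex.I * (u : ℂ)) ^ k / (k.factorial : ℂ) * φ k 0‖ ≤
      |s| ^ K * ∫ v in (-|s|)..|s|, ‖φ (K + 1) v‖ := by
  intro K
  induction K with
  | zero =>
    intro φ hd hc u hu
    have h1 : ∫ v in (0 : ℝ)..u, Complex.I * φ 1 v = φ 0 u - φ 0 0 :=
      intervalIntegral.integral_eq_sub_of_hasDerivAt (fun v _ => hd 0 le_rfl v)
        ((continuous_const.mul hc).intervalIntegrable _ _)
    have h2 : φ 0 u - ∑ k ∈ Finset.range (0 + 1), (Complex.I * (u : ℂ)) ^ k / (k.factorial : ℂ) * φ k 0 =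
        ∫ v in (0 : ℝ)..u, Complex.I * φ 1 v := by
      rw [h1]
      simp
    rw [h2, pow_zero, one_mul]
    refine intervalIntegral.norm_integral_le_abs_integral_norm.trans ?_
    have h3 : ∀ v, ‖Complex.I * φ 1 v‖ = ‖φ (0 + 1) v‖ := by
      intro v
      rw [norm_mul, Complex.norm_I, one_mul]
    simp only [h3]
    have hs0 : 0 ≤ |s| := abs_nonneg s
    have h4 : |∫ v in (0 : ℝ)..u, ‖φ (0 + 1) v‖| ≤ |∫ v in (-|s|)..|s|, ‖φ (0 + 1) v‖| := by
      refine intervalIntegral.abs_integral_mono_interval ?_ ?_ ?_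
      · rw [uIoc_of_le (by linarith : -|s| ≤ |s|)]
        intro v hv
        have hu' := abs_le.1 hu
        rcases le_total 0 u with h0 | h0
        · rw [uIoc_of_le h0] at hv
          exact ⟨by linarith [hv.1], by linarith [hv.2]⟩
        · rw [uIoc_of_ge h0] at hv
          exact ⟨by linarith [hv.1], by linarith [hv.2]⟩
      · exact Eventually.of_forall fun v => norm_nonneg _
      · exact hc.norm.intervalIntegrable _ _
    refine h4.trans (le_of_eq ?_)
    exact abs_of_nonneg (intervalIntegral.integral_nonneg (by linarith) fun v _ => norm_nonneg _)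
  | succ K ih =>
    intro φ hd hc u hu
    have h1 := ih (fun k => φ (k + 1)) (fun k hk v => hd (k + 1) (by omega) v) hc
    set M := ∫ v in (-|s|)..|s|, ‖φ (K + 1 + 1) v‖ with hM
    set R : ℝ → ℂ := fun u => φ 0 u - ∑ k ∈ Finset.range (K + 2),
      (Complex.I * (u : ℂ)) ^ k / (k.factorial : ℂ) * φ k 0 with hR
    have h2 : ∀ v, HasDerivAt R (Complex.I * (φ 1 v - ∑ k ∈ Finset.range (K + 1),
        (Complex.I * (v : ℂ)) ^ k / (k.factorial : ℂ) * φ (k + 1) 0)) v := by
      intro v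
      have := (hd 0 (by omega) v).sub (poly_deriv K (fun k => φ k 0) v)
      rw [mul_sub]
      exact this
    have h3 : R 0 = 0 := by
      simp only [hR]
      rw [Finset.sum_range_succ']
      simp
    have h4 : ∀ v ∈ Icc (-|s|) |s|, ‖Complex.I * (φ 1 v - ∑ k ∈ Finset.range (K + 1),
        (Complex.I * (v : ℂ)) ^ k / (k.factorial : ℂ) * φ (k + 1) 0)‖ ≤ |s| ^ K * M := by
      intro v hv
      rw [norm_mul, Complex.norm_I, one_mul]
      exact h1 v (abs_le.2 hv)
    have h5 := Convex.norm_image_sub_le_of_norm_hasDerivWithin_le (s := Icc (-|s|) |s|) (x := 0) (y := u)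
      (fun v _ => (h2 v).hasDerivWithinAt) h4 (convex_Icc _ _)
      ⟨by linarith [abs_nonneg s], abs_nonneg s⟩ (abs_le.1 hu)
    rw [h3, sub_zero, sub_zero, Real.norm_eq_abs] at h5
    have hM0 : 0 ≤ M := intervalIntegral.integral_nonneg (by linarith [abs_nonneg s]) fun v _ => norm_nonneg _
    refine h5.trans ?_
    calc |s| ^ K * M * |u| ≤ |s| ^ K * M * |s| := mul_le_mul_of_nonneg_left hu (by positivity)
      _ = |s| ^ (K + 1) * M := by ring

/-! ### Supports -/

lemma TT_supp {t : ℝ} {b : ℤ → ℝ} {M : ℕ} (hb : ∀ n : ℤ, (M : ℤ) < |n| → b n = 0) :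
    ∀ n : ℤ, ((M + 1 : ℕ) : ℤ) < |n| → TT t b n = 0 := by
  intro n hn
  push_cast at hn
  have h1 : b (n - 1) = 0 := hb _ (by
    rcases abs_cases n with h | h <;> rcases abs_cases (n - 1) with h' | h' <;> omega)
  have h2 : b (n + 1) = 0 := hb _ (by
    rcases abs_cases n with h | h <;> rcases abs_cases (n + 1) with h' | h' <;> omega)
  have h3 : b n = 0 := hb _ (by omega)
  unfold TT
  rw [h1, h2, h3]
  ring

lemma iter_supp {t : ℝ} {b : ℤ → ℝ} {N : ℕ} (hb : ∀ n : ℤ, (N : ℤ) < |n| → b n = 0) (k : ℕ) :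
    ∀ n : ℤ, ((N + k : ℕ) : ℤ) < |n| → (TT t)^[k] b n = 0 := by
  induction k with
  | zero => simpa using hb
  | succ k ih =>
    rw [Function.iterate_succ_apply']
    exact TT_supp ih

/-- shifting a finitely supported sum over `ℤ` -/
lemma shift (S : Finset ℤ) (a : ℤ → ℂ) (c : ℤ) (h1 : ∀ n ∉ S, a n = 0) (h2 : ∀ n ∉ S, a (n + c) = 0) :
    ∑ n ∈ S, a n = ∑ n ∈ S, a (n + c) := by
  have e1 : ∑' n, a n = ∑ n ∈ S, a n := tsum_eq_sum h1
  have e2 : ∑' n, a (n + c) = ∑ n ∈ S, a (n + c) := tsum_eq_sum h2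
  rw [← e1, ← e2]
  exact ((Equiv.addRight c).tsum_eq a).symm

/-! ### The derivative of a combination -/

lemma Pb_apply (f : ℍ → ℝ) (t : ℝ) (N : ℕ) (b : ℤ → ℝ) (g : G) :
    Pb f t N b g = ∑ n ∈ Finset.Icc (-(N : ℤ)) N, (-Complex.I) ^ n * (b n : ℂ) * Ff f t n g := rfl

lemma zI_succ (n : ℤ) : (-Complex.I) ^ (n + 1) = (-Complex.I) ^ n * (-Complex.I) :=
  zpow_add_one₀ (neg_ne_zero.2 Complex.I_ne_zero) n

lemma zI_pred (n : ℤ) : (-Complex.I) ^ (n - 1) = (-Complex.I) ^ n * Complex.I := by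
  rw [zpow_sub_one₀ (neg_ne_zero.2 Complex.I_ne_zero), inv_neg, Complex.inv_I, neg_neg]

lemma Pb_deriv (h2 : StmtFlD) {f : ℍ → ℝ} {t : ℝ} (hf : IsHeckeMaass f t) {M N' : ℕ} (hMN : M + 1 ≤ N')
    {b : ℤ → ℝ} (hb : ∀ n : ℤ, (M : ℤ) < |n| → b n = 0) (g : G) (s : ℝ) :
    HasDerivAt (fun s : ℝ => Pb f t N' b (g * fl s))
      (Complex.I * (Pb f t N' (TT t b) (g * fl s) + (t : ℂ) * Pb f t N' b (g * fl s))) s := by
  have h3 : HasDerivAt (fun s : ℝ => ∑ n ∈ Finset.Icc (-(N' : ℤ)) N', (-Complex.I) ^ n * (b n : ℂ) * Ff f t n (g * fl s))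
      (∑ n ∈ Finset.Icc (-(N' : ℤ)) N', (-Complex.I) ^ n * (b n : ℂ) * ((1 / 2) * (((la t n : ℝ) : ℂ) *
        Ff f t (n + 1) (g * fl s) - ((la t (n - 1) : ℝ) : ℂ) * Ff f t (n - 1) (g * fl s)))) s :=
    HasDerivAt.fun_sum (fun n _ => (h2 f t hf n g s).const_mul _)
  have hb' : ∀ n : ℤ, (N' : ℤ) ≤ |n| → b n = 0 := fun n hn => hb n (by omega)
  have e1 : ∑ n ∈ Finset.Icc (-(N' : ℤ)) N', (-Complex.I) ^ n * (b n : ℂ) * ((1 / 2) * (((la t n : ℝ) : ℂ) *
        Ff f t (n + 1) (g * fl s))) =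
      ∑ n ∈ Finset.Icc (-(N' : ℤ)) N', (-Complex.I) ^ (n + -1) * (b (n + -1) : ℂ) * ((1 / 2) *
        (((la t (n + -1) : ℝ) : ℂ) * Ff f t (n + -1 + 1) (g * fl s))) := by
    refine shift _ (fun n => (-Complex.I) ^ n * (b n : ℂ) * ((1 / 2) * (((la t n : ℝ) : ℂ) *
        Ff f t (n + 1) (g * fl s)))) (-1) ?_ ?_
    · intro n hn
      have : b n = 0 := hb' n (by
        rw [Finset.mem_Icc, not_and_or, not_le, not_le] at hn
        rcases abs_cases n with h | h <;> omega)
      simp [this]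
    · intro n hn
      have : b (n + -1) = 0 := hb' _ (by
        rw [Finset.mem_Icc, not_and_or, not_le, not_le] at hn
        rcases abs_cases (n + -1) with h | h <;> omega)
      simp [this]
  have e2 : ∑ n ∈ Finset.Icc (-(N' : ℤ)) N', (-Complex.I) ^ n * (b n : ℂ) * ((1 / 2) * (((la t (n - 1) : ℝ) : ℂ) *
        Ff f t (n - 1) (g * fl s))) =
      ∑ n ∈ Finset.Icc (-(N' : ℤ)) N', (-Complex.I) ^ (n + 1) * (b (n + 1) : ℂ) * ((1 / 2) *
        (((la t (n + 1 - 1) : ℝ) : ℂ) * Ff f t (n + 1 - 1) (g * fl s))) := by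
    refine shift _ (fun n => (-Complex.I) ^ n * (b n : ℂ) * ((1 / 2) * (((la t (n - 1) : ℝ) : ℂ) *
        Ff f t (n - 1) (g * fl s)))) 1 ?_ ?_
    · intro n hn
      have : b n = 0 := hb' n (by
        rw [Finset.mem_Icc, not_and_or, not_le, not_le] at hn
        rcases abs_cases n with h | h <;> omega)
      simp [this]
    · intro n hn
      have : b (n + 1) = 0 := hb' _ (by
        rw [Finset.mem_Icc, not_and_or, not_le, not_le] at hn
        rcases abs_cases (n + 1) with h | h <;> omega)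
      simp [this]
  have e3 : ∑ n ∈ Finset.Icc (-(N' : ℤ)) N', (-Complex.I) ^ n * (b n : ℂ) * ((1 / 2) * (((la t n : ℝ) : ℂ) *
        Ff f t (n + 1) (g * fl s) - ((la t (n - 1) : ℝ) : ℂ) * Ff f t (n - 1) (g * fl s))) =
      Complex.I * (Pb f t N' (TT t b) (g * fl s) + (t : ℂ) * Pb f t N' b (g * fl s)) := by
    have e4 : ∀ n : ℤ, (-Complex.I) ^ n * (b n : ℂ) * ((1 / 2) * (((la t n : ℝ) : ℂ) *
        Ff f t (n + 1) (g * fl s) - ((la t (n - 1) : ℝ) : ℂ) * Ff f t (n - 1) (g * fl s))) =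
        (-Complex.I) ^ n * (b n : ℂ) * ((1 / 2) * (((la t n : ℝ) : ℂ) * Ff f t (n + 1) (g * fl s))) -
        (-Complex.I) ^ n * (b n : ℂ) * ((1 / 2) * (((la t (n - 1) : ℝ) : ℂ) * Ff f t (n - 1) (g * fl s))) :=
      fun n => by ring
    simp only [e4]
    rw [Finset.sum_sub_distrib, e1, e2, ← Finset.sum_sub_distrib, Pb_apply, Pb_apply, Finset.mul_sum,
      ← Finset.sum_add_distrib, Finset.mul_sum]
    refine Finset.sum_congr rfl fun n _ => ?_
    have a1 : n + -1 = n - 1 := by ring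
    have a2 : n - 1 + 1 = n := by ring
    have a3 : n + 1 - 1 = n := by ring
    rw [a1, a2, a3, zI_succ, zI_pred]
    unfold TT
    push_cast
    ring
  rw [e3] at h3
  exact h3

end TayM

open TayM in
theorem stmtTay (_h1 : StmtTwG) (h2 : StmtFlD) : StmtTay := by
  intro f t hf N K b hK hb g s
  obtain ⟨K, rfl⟩ : ∃ K', K = K' + 1 := ⟨K - 1, by omega⟩
  set bb : ℕ → ℤ → ℝ := fun k => (TT t)^[k] b with hbb
  have hsup : ∀ k, ∀ n : ℤ, ((N + k : ℕ) : ℤ) < |n| → bb k n = 0 := fun k => iter_supp hb k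
  have hsucc : ∀ k, bb (k + 1) = TT t (bb k) := fun k => Function.iterate_succ_apply' _ _ _
  set φ : ℕ → ℝ → ℂ := fun k u => Complex.exp (-(Complex.I * t * u)) * Pb f t (N + (K + 1)) (bb k) (g * fl u) with hφ
  have hcont : ∀ k, Continuous (φ k) := by
    intro k
    have h3 : ∀ n : ℤ, Continuous (fun u : ℝ => Ff f t n (g * fl u)) := fun n =>
      continuous_iff_continuousAt.2 fun u => (h2 f t hf n g u).continuousAt
    have h4 : Continuous (fun u : ℝ => Pb f t (N + (K + 1)) (bb k) (g * fl u)) := by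
      simp only [Pb_apply]
      exact continuous_finsetSum _ fun n _ => continuous_const.mul (h3 n)
    simp only [hφ]
    exact (by fun_prop : Continuous fun u : ℝ => Complex.exp (-(Complex.I * t * u))).mul h4
  have hder : ∀ k ≤ K, ∀ u, HasDerivAt (φ k) (Complex.I * φ (k + 1) u) u := by
    intro k hk u
    have h3 := Pb_deriv h2 hf (N' := N + (K + 1)) (by omega) (hsup k) g u
    have h4 : HasDerivAt (fun u : ℝ => Complex.exp (-(Complex.I * t * u)))
        (Complex.exp (-(Complex.I * t * u)) * (-(Complex.I * t))) u := by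
      have h5 : HasDerivAt (fun u : ℝ => -(Complex.I * t * (u : ℂ))) (-(Complex.I * t)) u := by
        have := (Complex.ofRealCLM.hasDerivAt (x := u)).const_mul (-(Complex.I * t))
        simpa [neg_mul] using this
      exact h5.cexp
    have h6 := h4.mul h3
    have e : Complex.exp (-(Complex.I * t * u)) * (-(Complex.I * t)) * Pb f t (N + (K + 1)) (bb k) (g * fl u) +
        Complex.exp (-(Complex.I * t * u)) * (Complex.I * (Pb f t (N + (K + 1)) (TT t (bb k)) (g * fl u) +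
          (t : ℂ) * Pb f t (N + (K + 1)) (bb k) (g * fl u))) = Complex.I * φ (k + 1) u := by
      simp only [hφ]
      rw [hsucc]
      ring
    rw [e] at h6
    exact h6
  have h3 := taylor s K φ hder (hcont _) s le_rfl
  have e1 : Pb f t N b (g * fl s) = Complex.exp (Complex.I * t * s) * φ 0 s := by
    simp only [hφ]
    rw [← mul_assoc, ← Complex.exp_add, add_neg_cancel, Complex.exp_zero, one_mul, Pb_apply, Pb_apply]
    refine Finset.sum_subset (fun n hn => ?_) (fun n _ hn => ?_)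
    · rw [Finset.mem_Icc] at hn ⊢
      push_cast
      omega
    · have : b n = 0 := hb n (by
        rw [Finset.mem_Icc, not_and_or, not_le, not_le] at hn
        rcases abs_cases n with h | h <;> omega)
      simp [this]
  have e2 : ∀ k, φ k 0 = Pb f t (N + (K + 1)) (bb k) g := by
    intro k
    simp only [hφ]
    rw [Dyn.fl_zero, mul_one]
    simp
  have e3 : ∀ u, ‖φ (K + 1) u‖ = ‖Pb f t (N + (K + 1)) (bb (K + 1)) (g * fl u)‖ := by
    intro u
    simp only [hφ]
    rw [norm_mul]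
    have : ‖Complex.exp (-(Complex.I * t * u))‖ = 1 := by
      have h4 : -(Complex.I * t * u) = ((-(t * u) : ℝ) : ℂ) * Complex.I := by
        push_cast
        ring
      rw [h4, Complex.norm_exp_ofReal_mul_I]
    rw [this, one_mul]
  simp only [e2, e3] at h3
  rw [e1, ← mul_sub, norm_mul]
  have h5 : ‖Complex.exp (Complex.I * t * s)‖ = 1 := by
    have h4 : Complex.I * t * s = ((t * s : ℝ) : ℂ) * Complex.I := by
      push_cast
      ring
    rw [h4, Complex.norm_exp_ofReal_mul_I]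
  rw [h5, one_mul, Nat.add_sub_cancel]
  exact h3

end

end Pool.Agent.A54.Hp
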