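import Pool.Agent.Lib.MP_a54f13_nt.Hp.SpecA
import Pool.Agent.Lib.MP_a54f13_nt.Half
import Pool.Agent.Lib.MP_a54f13_nt.IntLap

/-!
# Package `Hp`, module Tri4: the trivial bound for the fourth moment
-/

set_option autoImplicit false

namespace Pool.Agent.A54.Hp

open MeasureTheory Filter Topology Set
open scoped ContDiff ComplexConjugate UpperHalfPlane MatrixGroups ENNReal
open Pool.Agent.A54.Half (H0)
open Pool.Agent.A54.Sq (la TestP Tow Up)

noncomputable section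

namespace Tri4M

/-- from a bound for the masses on compact sets to the plane -/
lemma mass (hTwG : StmtTwG) (hMss : StmtMss) {χ : ℂ → ℝ} {V : Set ℂ}
    (hVH : V ⊆ H0) (h1 : ∀ z ∈ V, χ z = 1) {ζ : ℂ → ℝ} (hζ : TestP V ζ) :
    ∃ M : ℝ, ∀ (f : ℍ → ℝ) (t : ℝ), IsHeckeMaass f t → ∀ n : ℤ,
      ∫ z, ζ z * ‖(χ z : ℂ) * Gf f t n z‖ ^ 2 ≤ M := by
  have hsub : tsupport ζ ⊆ H0 := hζ.test.sub.trans hVH
  set K : Set ℍ := UpperHalfPlane.coe ⁻¹' (tsupport ζ) with hKdef
  have hKc : IsCompact K := by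
    rw [UpperHalfPlane.isOpenEmbedding_coe.isInducing.isCompact_preimage_iff]
    · exact hζ.test.cpt.isCompact
    · intro z hz
      exact ⟨⟨z, hsub hz⟩, rfl⟩
  obtain ⟨C, hC0, hC⟩ := hMss K hKc
  -- the weight
  have hwc : Continuous (fun z : ℂ => ζ z * z.im ^ 2) :=
    hζ.test.smooth.continuous.mul (Complex.continuous_im.pow 2)
  have hws : HasCompactSupport (fun z : ℂ => ζ z * z.im ^ 2) := hζ.test.cpt.mul_right
  obtain ⟨M, hM⟩ := hws.exists_bound_of_continuous hwc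
  have hM0 : 0 ≤ M := (norm_nonneg _).trans (hM 0)
  refine ⟨M * C, fun f t hf n => ?_⟩
  have hcn : Continuous (fun z : ℍ => ‖Gf f t n (z : ℂ)‖ ^ 2) :=
    (((hTwG f t hf n).1.continuousOn.comp_continuous UpperHalfPlane.continuous_coe
      (fun z => z.im_pos)).norm).pow 2
  have hint : IntegrableOn (fun z : ℍ => ‖Gf f t n (z : ℂ)‖ ^ 2) K :=
    hcn.continuousOn.integrableOn_compact hKc
  have hKm : MeasurableSet K := hKc.isClosed.measurableSet
  have hbd : ∫ z in K, ‖Gf f t n (z : ℂ)‖ ^ 2 ≤ C := by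
    rw [integral_eq_lintegral_of_nonneg_ae (Filter.Eventually.of_forall fun z => by positivity)
      hint.aestronglyMeasurable]
    refine ENNReal.toReal_le_of_le_ofReal hC0 (le_trans (le_of_eq ?_) (hC f t hf n))
    refine lintegral_congr fun z => ?_
    rw [ENNReal.ofReal_pow (norm_nonneg _), ofReal_norm]
  have h0 : ∀ z : ℂ, z.im ≤ 0 → (ζ z * z.im ^ 2) * ‖Gf f t n z‖ ^ 2 = 0 := by
    intro z hz
    rw [hζ.test.eq_zero (fun h => (not_lt.mpr hz) (hVH h))]
    simp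
  have e1 := stmtInt.1 _ h0
  have e2 : ∫ z : ℂ, ζ z * ‖(χ z : ℂ) * Gf f t n z‖ ^ 2 =
      ∫ z : ℂ, (ζ z * z.im ^ 2) * ‖Gf f t n z‖ ^ 2 / z.im ^ 2 := by
    apply integral_congr_ae
    refine Filter.Eventually.of_forall fun z => ?_
    by_cases hz : z ∈ V
    · have hne : z.im ≠ 0 := ne_of_gt (hVH hz)
      simp only [h1 z hz, Complex.ofReal_one, one_mul]
      field_simp
    · simp [hζ.test.eq_zero hz]
  calc ∫ z : ℂ, ζ z * ‖(χ z : ℂ) * Gf f t n z‖ ^ 2
      = ∫ z : ℍ, (ζ z * (z : ℂ).im ^ 2) * ‖Gf f t n (z : ℂ)‖ ^ 2 := by rw [e2, e1]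
    _ ≤ ∫ z : ℍ, K.indicator (fun z => M * ‖Gf f t n (z : ℂ)‖ ^ 2) z := by
        apply integral_mono_of_nonneg
        · refine Filter.Eventually.of_forall fun z => ?_
          simp only [Pi.zero_apply]
          have := hζ.nonneg (z : ℂ)
          positivity
        · rw [integrable_indicator_iff hKm]
          exact hint.const_mul M
        · refine Filter.Eventually.of_forall fun z => ?_
          by_cases hz : z ∈ K
          · rw [Set.indicator_of_mem hz]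
            have hb := hM (z : ℂ)
            have hb' : ζ z * (z : ℂ).im ^ 2 ≤ M := (Real.le_norm_self _).trans hb
            exact mul_le_mul_of_nonneg_right hb' (by positivity)
          · rw [Set.indicator_of_notMem hz]
            have : ζ (z : ℂ) = 0 := image_eq_zero_of_notMem_tsupport hz
            simp [this]
    _ = M * ∫ z in K, ‖Gf f t n (z : ℂ)‖ ^ 2 := by
        rw [integral_indicator hKm, integral_const_mul]
    _ ≤ M * C := mul_le_mul_of_nonneg_left hbd hM0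

end Tri4M

theorem stmtTri4 (hTwG : StmtTwG) (hTwc : StmtTwc) (hMss : StmtMss) (hLad : Sq.StmtLad) :
    StmtTri4 := by
  intro φ hφ
  obtain ⟨χ, V, hχ, -, hV, hVH, h1, hsup⟩ := Half.setup hφ.test
  have hφV : TestR V φ := ⟨hφ.test.smooth, hφ.test.cpt, hsup⟩
  have hφ' : TestP V (fun z => φ z * (z.im)⁻¹ ^ 2) :=
    ⟨Half.testR_weight hVH hφV, fun z => mul_nonneg (hφ.nonneg z) (by positivity)⟩
  obtain ⟨ζ, C, hζ, hC, hb⟩ := hLad V hV hVH _ hφ'
  obtain ⟨M, hM⟩ := Tri4M.mass hTwG hMss hVH h1 hζ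
  refine ⟨C * M ^ 2, by positivity, fun f t hf ht => ?_⟩
  have h2 := hb t _ ht (hTwc χ V hχ hV hVH h1 f t hf) M (fun n => hM f t hf n) 0
    (by simpa using (by linarith : (0 : ℝ) ≤ t))
  rw [Half.int_eq stmtInt hVH h1 hφV f 4]
  refine le_trans (le_of_eq ?_) h2
  refine integral_congr_ae (Filter.Eventually.of_forall fun z => ?_)
  have h5 : Gf f t 0 z = (ext f z : ℂ) := (hTwG f t hf 0).2.2.2.2.1 z
  have h6 : ‖(χ z : ℂ) * Gf f t 0 z‖ ^ 4 = Half.ff χ f z ^ 4 := by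
    rw [h5, ← Complex.ofReal_mul, Complex.norm_real, Real.norm_eq_abs,
      Even.pow_abs (by decide : Even 4)]
    rfl
  change φ z * (z.im)⁻¹ ^ 2 * Half.ff χ f z ^ 4 =
    φ z * (z.im)⁻¹ ^ 2 * ‖(χ z : ℂ) * Gf f t 0 z‖ ^ 4
  rw [h6]

end

end Pool.Agent.A54.Hp
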