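import Pool.Agent.Lib.MP_a54f13_nt.Hp.SpecL
import Pool.Agent.Lib.MP_a54f13_nt.Hp.LBase
import Pool.Agent.Lib.MP_a54f13_nt.Hp.RtB

/-!
# Package `Hp`, part L: the trivial bound for the returns (`StmtTrv`)
-/

set_option autoImplicit false

namespace Pool.Agent.A54.Hp

open MeasureTheory Filter Topology Set
open scoped ContDiff ComplexConjugate UpperHalfPlane MatrixGroups ENNReal
open Pool.Agent.A54.Dyn (G fl base ze io mk4 dom)
open Pool.Agent.A54.Av (Mat NonSc)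

theorem stmtTrv : StmtNm → StmtTrv := by
  intro hNm R B hR hB
  have hR0 : 0 ≤ R := by linarith
  have hB0 : 0 ≤ B := by linarith
  have h4 : 1 ≤ 4 * R ^ 2 * B + 1 := by
    have : 0 ≤ 4 * R ^ 2 * B := by positivity
    linarith
  refine ⟨(4 * R ^ 2 * B + 1) ^ 4, one_le_pow₀ h4, fun Y hY V hV x hx => ?_⟩
  have hY0 : 0 ≤ Y := by linarith
  unfold NS
  refine RtBN.tsum_le _ _ fun T hT => ?_
  have hbox : ∀ s ∈ T, ∀ i j, |((s i j : ℤ) : ℝ)| ≤ 2 * R ^ 2 * (B * Y) := by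
    intro s hs i j
    obtain ⟨⟨hd1, hd2⟩, hsV⟩ := hT s hs
    have hdr : (0 : ℝ) < ((s.det : ℤ) : ℝ) := by
      have : (1 : ℝ) ≤ Y ^ 2 := one_le_pow₀ hY
      linarith
    have hd : 0 < s.det := by exact_mod_cast hdr
    have h1 := hNm.2.2.2.2 R R x s hd (hV hx) (hV hsV) i j
    have h2 : √((s.det : ℤ) : ℝ) ≤ B * Y := by
      rw [Real.sqrt_le_left (by positivity)]
      exact hd2
    refine h1.trans ?_
    calc 2 * R * R * √((s.det : ℤ) : ℝ) = 2 * R ^ 2 * √((s.det : ℤ) : ℝ) := by ring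
      _ ≤ 2 * R ^ 2 * (B * Y) := mul_le_mul_of_nonneg_left h2 (by positivity)
  have h3 := card_box (K := 2 * R ^ 2 * (B * Y)) (by positivity) T hbox
  refine h3.trans ?_
  rw [← mul_pow]
  refine pow_le_pow_left₀ (by positivity) ?_ 4
  nlinarith [mul_nonneg (mul_nonneg (sq_nonneg R) hB0) hY0]

end Pool.Agent.A54.Hp
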