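import Pool.Agent.Lib.MP_a54f13_nt.Hp.SpecA
import Pool.Agent.Lib.MP_a54f13_nt.Half

/-!
# Package `Hp`, module Twc: cutoffs of the tower
-/

set_option autoImplicit false

namespace Pool.Agent.A54.Hp

open MeasureTheory Filter Topology Set
open scoped ContDiff ComplexConjugate UpperHalfPlane MatrixGroups ENNReal
open Pool.Agent.A54.Dyn (G fl base ze io mk4 dom)
open Pool.Agent.A54.Dyn.LiftM (Sct XC XX cc rot m0)
open Pool.Agent.A54.Av (Mat NonSc)
open Pool.Agent.A54.Half (H0)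
open Pool.Agent.A54.Sq (la TestP Tow Up)

noncomputable section

namespace TwcM

lemma tsupport_ofReal (χ : ℂ → ℝ) : tsupport (fun z => (χ z : ℂ)) ⊆ tsupport χ := by
  refine closure_mono ?_
  intro z hz
  rw [Function.mem_support] at hz ⊢
  intro h
  exact hz (by simp [h])

lemma eq_on {χ : ℂ → ℝ} {V : Set ℂ} (h1 : ∀ z ∈ V, χ z = 1) (g : ℂ → ℂ) :
    ∀ w ∈ V, (χ w : ℂ) * g w = g w := by
  intro w hw
  rw [h1 w hw, Complex.ofReal_one, one_mul]

end TwcM

open TwcM in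
theorem stmtTwc (hG : StmtTwG) : StmtTwc := by
  intro χ V hχ hV hVH h1 f t hf
  refine { smooth := ?_, neg := ?_, up := ?_, down := ?_ }
  · intro n
    exact Half.smooth_mulC Half.isOpen_H0 (contDiff_ofReal hχ.smooth)
      ((tsupport_ofReal χ).trans hχ.sub) (hG f t hf n).1
  · intro n z
    show (χ z : ℂ) * Gf f t (-n) z = (-1) ^ n * conj ((χ z : ℂ) * Gf f t n z)
    rw [(hG f t hf n).2.2.2.1 z, map_mul, Complex.conj_ofReal]
    ring
  · intro n z hz
    have h2 := (hG f t hf n).2.1 z (hVH hz)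
    have e1 : dz (fun w => (χ w : ℂ) * Gf f t n w) z = dz (Gf f t n) z :=
      dz_congr hV (eq_on h1 _) hz
    show Complex.I * (z.im : ℂ) * dz (fun w => (χ w : ℂ) * Gf f t n w) z +
      (n : ℂ) * ((χ z : ℂ) * Gf f t n z) = ((la t n : ℝ) : ℂ) * ((χ z : ℂ) * Gf f t (n + 1) z)
    rw [e1, eq_on h1 (Gf f t n) z hz, eq_on h1 (Gf f t (n + 1)) z hz]
    exact h2
  · intro n z hz
    have h2 := (hG f t hf n).2.2.1 z (hVH hz)
    have e1 : dzb (fun w => (χ w : ℂ) * Gf f t (n + 1) w) z = dzb (Gf f t (n + 1)) z :=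
      dzb_congr hV (eq_on h1 _) hz
    show -(Complex.I * (z.im : ℂ) * dzb (fun w => (χ w : ℂ) * Gf f t (n + 1) w) z) -
      ((n : ℂ) + 1) * ((χ z : ℂ) * Gf f t (n + 1) z) =
        -(((la t n : ℝ) : ℂ) * ((χ z : ℂ) * Gf f t n z))
    rw [e1, eq_on h1 (Gf f t n) z hz, eq_on h1 (Gf f t (n + 1)) z hz]
    exact h2

end

end Pool.Agent.A54.Hp
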