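import Pool.Agent.Lib.MP_a54f13_nt.Hp.SpecB
import Pool.Agent.Lib.MP_a54f13_nt.Hp.LBase

/-!
# Package `Hp`, module `Ug`: the function `u` and pairs of geodesics
-/

set_option autoImplicit false

namespace Pool.Agent.A54.Hp

open MeasureTheory Filter Topology Set
open scoped ContDiff ComplexConjugate UpperHalfPlane MatrixGroups ENNReal
open Pool.Agent.A54.Dyn (G fl base ze io mk4 dom)

noncomputable section

namespace UgM

lemma uh_cosh (z w : ℍ) : uh z w = 2 * Real.cosh (dist z w) - 2 := by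
  have hz := z.im_pos
  have hw := w.im_pos
  rw [UpperHalfPlane.cosh_dist, Complex.dist_eq, uh]
  field_simp
  ring

lemma uh_smul (g : G) (z w : ℍ) : uh (g • z) (g • w) = uh z w := by
  rw [uh_cosh, uh_cosh, dist_smul]

lemma uh_I (h : G) : uh UpperHalfPlane.I (base h) =
    (h 0 0 - h 1 1) ^ 2 + (h 0 1 + h 1 0) ^ 2 := by
  have hd : (h 1 0 : ℂ) * Complex.I + h 1 1 ≠ 0 := Dyn.denom_ne h UpperHalfPlane.I
  have hN : 0 < Complex.normSq ((h 1 0 : ℂ) * Complex.I + h 1 1) := Complex.normSq_pos.2 hd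
  have him : (base h).im = 1 / Complex.normSq ((h 1 0 : ℂ) * Complex.I + h 1 1) := by
    have h1 := Dyn.im_smul h UpperHalfPlane.I
    have h2 : (UpperHalfPlane.I : ℍ).im = 1 := UpperHalfPlane.I_im
    rw [h2] at h1
    exact h1
  have h3 : ((UpperHalfPlane.I : ℍ) : ℂ) - (base h : ℂ) =
      (((-(h 0 1 + h 1 0) : ℝ) : ℂ) + ((h 1 1 - h 0 0 : ℝ) : ℂ) * Complex.I) /
        ((h 1 0 : ℂ) * Complex.I + h 1 1) := by
    rw [Dyn.base_coe, eq_div_iff hd, sub_mul, div_mul_cancel₀ _ hd]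
    have h4 : ((UpperHalfPlane.I : ℍ) : ℂ) = Complex.I := rfl
    rw [h4]
    push_cast
    linear_combination (h 1 0 : ℂ) * Complex.I_mul_I
  unfold uh
  rw [h3, norm_div, div_pow, ← Complex.normSq_eq_norm_sq, ← Complex.normSq_eq_norm_sq, him,
    UpperHalfPlane.I_im, Complex.normSq_add_mul_I]
  field_simp
  ring

lemma uh_pair (y y' : G) (τ σ : ℝ) : uh (base (y * fl (-τ))) (base (y' * fl (-σ))) =
    ((y⁻¹ * y') 0 0 * Real.exp ((τ - σ) / 2) - (y⁻¹ * y') 1 1 * Real.exp (-((τ - σ) / 2))) ^ 2 +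
    ((y⁻¹ * y') 0 1 * Real.exp ((τ + σ) / 2) + (y⁻¹ * y') 1 0 * Real.exp (-((τ + σ) / 2))) ^ 2 := by
  set g : G := y⁻¹ * y' with hg
  have h1 : uh (base (y * fl (-τ))) (base (y' * fl (-σ))) =
      uh UpperHalfPlane.I (base (fl τ * g * fl (-σ))) := by
    rw [← uh_smul (y * fl (-τ))⁻¹ (base (y * fl (-τ)))]
    congr 1
    · unfold base
      rw [← mul_smul, inv_mul_cancel, one_smul]
    · rw [← Dyn.base_mul]
      congr 1
      rw [mul_inv_rev, Dyn.fl_neg, inv_inv, hg]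
      group
  rw [h1, uh_I]
  have e1 : Real.exp ((τ - σ) / 2) = Real.exp (τ / 2) * Real.exp (-σ / 2) := by
    rw [← Real.exp_add]
    congr 1
    ring
  have e2 : Real.exp (-((τ - σ) / 2)) = Real.exp (-τ / 2) * Real.exp (σ / 2) := by
    rw [← Real.exp_add]
    congr 1
    ring
  have e3 : Real.exp ((τ + σ) / 2) = Real.exp (τ / 2) * Real.exp (σ / 2) := by
    rw [← Real.exp_add]
    congr 1
    ring
  have e4 : Real.exp (-((τ + σ) / 2)) = Real.exp (-τ / 2) * Real.exp (-σ / 2) := by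
    rw [← Real.exp_add]
    congr 1
    ring
  rw [e1, e2, e3, e4]
  simp only [Dyn.mul_00, Dyn.mul_01, Dyn.mul_10, Dyn.mul_11, Dyn.fl_00, Dyn.fl_01, Dyn.fl_10,
    Dyn.fl_11, neg_neg]
  ring

lemma wr_00 : wr 0 0 = 0 := rfl
lemma wr_01 : wr 0 1 = 1 := rfl
lemma wr_10 : wr 1 0 = -1 := rfl
lemma wr_11 : wr 1 1 = 0 := rfl

lemma gw_00 (g : G) : (g * wr) 0 0 = -g 0 1 := by
  rw [Dyn.mul_00, wr_00, wr_10]
  ring

lemma gw_01 (g : G) : (g * wr) 0 1 = g 0 0 := by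
  rw [Dyn.mul_01, wr_01, wr_11]
  ring

lemma gw_10 (g : G) : (g * wr) 1 0 = -g 1 1 := by
  rw [Dyn.mul_10, wr_00, wr_10]
  ring

lemma gw_11 (g : G) : (g * wr) 1 1 = g 1 0 := by
  rw [Dyn.mul_11, wr_01, wr_11]
  ring

lemma xi_wr (g : G) (i : Fin 3) : xi (g * wr) i = -xi g i := by
  fin_cases i
  · change xi (g * wr) 0 = -xi g 0
    rw [xi_0, xi_0, gw_00, gw_01, gw_10, gw_11]
    ring
  · change xi (g * wr) 1 = -xi g 1
    rw [xi_1, xi_1, gw_00, gw_01]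
    ring
  · change xi (g * wr) 2 = -xi g 2
    rw [xi_2, xi_2, gw_10, gw_11]
    ring

lemma Om_wr (R : ℝ) (g : G) : g ∈ Om R ↔ g * wr ∈ Om R := by
  constructor
  · intro h i j
    fin_cases i <;> fin_cases j
    · change |(g * wr) 0 0| ≤ R
      rw [gw_00, abs_neg]
      exact h 0 1
    · change |(g * wr) 0 1| ≤ R
      rw [gw_01]
      exact h 0 0
    · change |(g * wr) 1 0| ≤ R
      rw [gw_10, abs_neg]
      exact h 1 1
    · change |(g * wr) 1 1| ≤ R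
      rw [gw_11]
      exact h 1 0
  · intro h i j
    have h00 := h 0 0
    have h01 := h 0 1
    have h10 := h 1 0
    have h11 := h 1 1
    rw [gw_00, abs_neg] at h00
    rw [gw_01] at h01
    rw [gw_10, abs_neg] at h10
    rw [gw_11] at h11
    fin_cases i <;> fin_cases j
    · exact h01
    · exact h00
    · exact h11
    · exact h10

lemma xi_close {R η : ℝ} {x g : G} (hx : x ∈ Om R) (hg : g ∈ Om R) (h1 : |g 0 1| ≤ η)
    (h2 : |g 1 0| ≤ η) (i : Fin 3) : |xi (x * g) i - xi x i| ≤ 8 * R ^ 3 * η := by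
  have w0 : 0 ≤ η := (abs_nonneg _).trans h1
  have hR : 0 ≤ R := (abs_nonneg _).trans (hx 0 0)
  have hd := Dyn.det_eq g
  have e0 : |xi g 0 - 1| ≤ 2 * R * η := by
    rw [xi_0, show g 0 0 * g 1 1 + g 0 1 * g 1 0 - 1 = 2 * (g 0 1 * g 1 0) by linarith, abs_mul,
      abs_mul, abs_two]
    have : |g 0 1| * |g 1 0| ≤ R * η := mul_le_mul (hg 0 1) h2 (abs_nonneg _) hR
    linarith
  have e1 : |xi g 1| ≤ R * η := by
    rw [xi_1, abs_neg, abs_mul]
    exact mul_le_mul (hg 0 0) h1 (abs_nonneg _) hR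
  have e2 : |xi g 2| ≤ R * η := by
    rw [xi_2, abs_mul, mul_comm]
    exact mul_le_mul (hg 1 1) h2 (abs_nonneg _) hR
  have key : ∀ i j k l, |x i j * x k l| ≤ R ^ 2 := fun i j k l => by
    rw [abs_mul, _root_.sq]
    exact mul_le_mul (hx i j) (hx k l) (abs_nonneg _) hR
  have hx0 := xi_le hx
  have hR2 : 0 ≤ R ^ 2 := by positivity
  have m1 : ∀ (a b A B : ℝ), |a| ≤ A → |b| ≤ B → |a * b| ≤ A * B := fun a b A B ha hb => by
    rw [abs_mul]; exact mul_le_mul ha hb (abs_nonneg _) ((abs_nonneg _).trans ha)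
  have n1 : 0 ≤ R ^ 3 * η := by positivity
  fin_cases i
  · change |xi (x * g) 0 - xi x 0| ≤ _
    rw [xi_mul_0, show xi x 0 * xi g 0 - 2 * (x 0 0 * x 1 0) * xi g 1 +
      2 * (x 0 1 * x 1 1) * xi g 2 - xi x 0 = xi x 0 * (xi g 0 - 1) +
      (-2) * ((x 0 0 * x 1 0) * xi g 1) + 2 * ((x 0 1 * x 1 1) * xi g 2) by ring]
    have b1 := m1 _ _ _ _ (hx0 0) e0
    have b2 := m1 _ _ _ _ (key 0 0 1 0) e1
    have b3 := m1 _ _ _ _ (key 0 1 1 1) e2
    have c1 : R ^ 2 * (R * η) = R ^ 3 * η := by ring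
    have c2 : 2 * R ^ 2 * (2 * R * η) = 4 * (R ^ 3 * η) := by ring
    rw [c1] at b2 b3
    rw [c2] at b1
    rw [abs_le] at b1 b2 b3 ⊢
    constructor <;> linarith [b1.1, b1.2, b2.1, b2.2, b3.1, b3.2]
  · change |xi (x * g) 1 - xi x 1| ≤ _
    rw [xi_mul_1, show xi x 1 * xi g 0 + x 0 0 ^ 2 * xi g 1 - x 0 1 ^ 2 * xi g 2 - xi x 1 =
      xi x 1 * (xi g 0 - 1) + (x 0 0 * x 0 0) * xi g 1 - (x 0 1 * x 0 1) * xi g 2 by ring]
    have b1 := m1 _ _ _ _ (hx0 1) e0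
    have b2 := m1 _ _ _ _ (key 0 0 0 0) e1
    have b3 := m1 _ _ _ _ (key 0 1 0 1) e2
    have c1 : R ^ 2 * (R * η) = R ^ 3 * η := by ring
    have c2 : 2 * R ^ 2 * (2 * R * η) = 4 * (R ^ 3 * η) := by ring
    rw [c1] at b2 b3
    rw [c2] at b1
    rw [abs_le] at b1 b2 b3 ⊢
    constructor <;> linarith [b1.1, b1.2, b2.1, b2.2, b3.1, b3.2]
  · change |xi (x * g) 2 - xi x 2| ≤ _
    rw [xi_mul_2, show xi x 2 * xi g 0 - x 1 0 ^ 2 * xi g 1 + x 1 1 ^ 2 * xi g 2 - xi x 2 =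
      xi x 2 * (xi g 0 - 1) - (x 1 0 * x 1 0) * xi g 1 + (x 1 1 * x 1 1) * xi g 2 by ring]
    have b1 := m1 _ _ _ _ (hx0 2) e0
    have b2 := m1 _ _ _ _ (key 1 0 1 0) e1
    have b3 := m1 _ _ _ _ (key 1 1 1 1) e2
    have c1 : R ^ 2 * (R * η) = R ^ 3 * η := by ring
    have c2 : 2 * R ^ 2 * (2 * R * η) = 4 * (R ^ 3 * η) := by ring
    rw [c1] at b2 b3
    rw [c2] at b1
    rw [abs_le] at b1 b2 b3 ⊢
    constructor <;> linarith [b1.1, b1.2, b2.1, b2.2, b3.1, b3.2]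

end UgM

open UgM

theorem stmtUg : StmtUg := by
  refine ⟨uh_smul, uh_cosh, uh_pair, xi_wr, Om_wr, fun R hR => ⟨8 * R ^ 3, by positivity, ?_⟩⟩
  intro y g η hy hg h1 h2 i
  exact xi_close hy hg h1 h2 i

end

end Pool.Agent.A54.Hp
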