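import Pool.Agent.Lib.MP_a54f13_nt.Hp.SpecM
import Pool.Agent.Lib.MP_a54f13_nt.Pl.U1

/-!
# Package `Hp`, module `Unf`: unfolding on `SL(2, ℤ) \ SL(2, ℝ)` (helper78)
-/

set_option autoImplicit false

namespace Pool.Agent.A54.Hp

open MeasureTheory Filter Topology Set
open scoped ContDiff ComplexConjugate UpperHalfPlane MatrixGroups ENNReal
open Pool.Agent.A54.Dyn (G fl base ze io mk4 dom)
open Pool.Agent.A54.Av (Mat NonSc)

noncomputable section

namespace UnfM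

lemma io_smul (γ : SL(2, ℤ)) (z : ℍ) : io γ • z = γ • z := rfl

lemma base_io_mul (γ : SL(2, ℤ)) (g : G) : base (io γ * g) = γ • base g := by
  rw [Dyn.base_mul, io_smul]

lemma io_inv (γ : SL(2, ℤ)) : io γ⁻¹ = (io γ)⁻¹ :=
  map_inv (Matrix.SpecialLinearGroup.map (Int.castRingHom ℝ)) γ

lemma measurableSet_FF : MeasurableSet FF := Dyn.measurable_base X.measurableSet_fdo

/-- the base point map preserves the measures -/
lemma mpb (h : StmtNuL) : MeasurePreserving base nu (volume : Measure ℍ) := by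
  refine ⟨Dyn.measurable_base, ?_⟩
  refine Measure.ext_of_lintegral _ fun f hf => ?_
  rw [lintegral_map hf Dyn.measurable_base]
  exact h.2.2.2.2 f hf

/-- almost every element has exactly two translates in the fundamental domain -/
lemma ae_two (h : StmtNuL) : ∀ᵐ g ∂nu, ∃ γ0 : SL(2, ℤ), ∀ γ : SL(2, ℤ),
    io γ⁻¹ * g ∈ FF ↔ γ = γ0 ∨ γ = -γ0 := by
  filter_upwards [(mpb h).quasiMeasurePreserving.ae Pl.U1M.ae_two] with g hg
  obtain ⟨γ0, h0⟩ := hg
  refine ⟨γ0, fun γ => ?_⟩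
  rw [← h0 γ]
  show base (io γ⁻¹ * g) ∈ ModularGroup.fdo ↔ _
  rw [base_io_mul]

/-- left multiplication preserves the measure -/
lemma mp (h : StmtNuL) (γ : SL(2, ℤ)) : MeasurePreserving (fun g : G => io γ * g) nu nu :=
  have := h.1
  measurePreserving_mul_left nu (io γ)

lemma me (γ : SL(2, ℤ)) : MeasurableEmbedding (fun g : G => io γ * g) :=
  measurableEmbedding_mulLeft (io γ)

/-- one term -/
lemma term (h : StmtNuL) (F : G → ℝ≥0∞) (γ : SL(2, ℤ)) :
    ∫⁻ g in FF, F (io γ * g) ∂nu =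
      ∫⁻ w, FF.indicator (fun _ => (1 : ℝ≥0∞)) (io γ⁻¹ * w) * F w ∂nu := by
  rw [← lintegral_indicator measurableSet_FF]
  rw [← (mp h γ).lintegral_comp_emb (me γ)
    (fun w : G => FF.indicator (fun _ => (1 : ℝ≥0∞)) (io γ⁻¹ * w) * F w)]
  refine lintegral_congr fun z => ?_
  simp only [io_inv, inv_mul_cancel_left]
  by_cases hz : z ∈ FF
  · rw [indicator_of_mem hz, indicator_of_mem hz, one_mul]
  · rw [indicator_of_notMem hz, indicator_of_notMem hz, zero_mul]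

/-- an element is not its negative -/
lemma ne_neg (γ0 : SL(2, ℤ)) : γ0 ≠ -γ0 := by
  intro h
  have h3 := congrArg (fun γ : SL(2, ℤ) => γ.1 0 0) h
  have h4 := congrArg (fun γ : SL(2, ℤ) => γ.1 0 1) h
  have h5 := γ0.det_coe
  rw [Matrix.det_fin_two] at h5
  simp only [Matrix.SpecialLinearGroup.coe_neg, Matrix.neg_apply] at h3 h4
  have h6 : (γ0 0 0 : ℤ) = 0 := by
    have : (γ0.1 0 0 : ℤ) = -γ0.1 0 0 := h3
    have h7 : (γ0.1 0 0 : ℤ) = 0 := by omega
    exact h7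
  have h8 : (γ0 0 1 : ℤ) = 0 := by
    have : (γ0.1 0 1 : ℤ) = -γ0.1 0 1 := h4
    have h7 : (γ0.1 0 1 : ℤ) = 0 := by omega
    exact h7
  rw [h6, h8] at h5
  simp at h5

/-- the count -/
lemma cnt (w : G) (γ0 : SL(2, ℤ)) (h : ∀ γ : SL(2, ℤ), io γ⁻¹ * w ∈ FF ↔ γ = γ0 ∨ γ = -γ0) :
    ∑' γ : SL(2, ℤ), FF.indicator (fun _ => (1 : ℝ≥0∞)) (io γ⁻¹ * w) = 2 := by
  rw [tsum_eq_sum (s := ({γ0, -γ0} : Finset SL(2, ℤ))), Finset.sum_pair (ne_neg γ0),
    indicator_of_mem ((h γ0).mpr (Or.inl rfl)), indicator_of_mem ((h (-γ0)).mpr (Or.inr rfl))]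
  · norm_num
  · intro γ hγ
    rw [Finset.mem_insert, Finset.mem_singleton] at hγ
    exact indicator_of_notMem (fun h' => hγ ((h γ).mp h')) _

lemma ind_meas (h : StmtNuL) (γ : SL(2, ℤ)) :
    Measurable fun w : G => FF.indicator (fun _ => (1 : ℝ≥0∞)) (io γ⁻¹ * w) :=
  (measurable_const.indicator measurableSet_FF).comp (mp h γ⁻¹).measurable

/-- the sum of the terms -/
lemma sum_term (h : StmtNuL) (F : G → ℝ≥0∞) (hF : AEMeasurable F nu) :
    ∑' γ : SL(2, ℤ), ∫⁻ g in FF, F (io γ * g) ∂nu = 2 * ∫⁻ g, F g ∂nu := by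
  have := Pl.U1M.countable_sl
  have h0 : ∀ γ : SL(2, ℤ), AEMeasurable (fun w : G =>
      FF.indicator (fun _ => (1 : ℝ≥0∞)) (io γ⁻¹ * w) * F w) nu := fun γ =>
    (ind_meas h γ).aemeasurable.mul hF
  rw [tsum_congr fun γ => term h F γ, ← lintegral_tsum h0, ← lintegral_const_mul'' 2 hF]
  refine lintegral_congr_ae ?_
  filter_upwards [ae_two h] with w hw
  obtain ⟨γ0, hγ0⟩ := hw
  rw [ENNReal.tsum_mul_right, cnt w γ0 hγ0]

/-- the sum of the translates of the measure on the fundamental domain -/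
lemma sum_meas (h : StmtNuL) : Measure.sum (fun γ : SL(2, ℤ) =>
    (nu.restrict FF).map (fun g : G => io γ * g)) = (2 : ℝ≥0∞) • nu := by
  refine Measure.ext_of_lintegral _ fun f hf => ?_
  rw [lintegral_sum_measure, lintegral_smul_measure, smul_eq_mul,
    ← sum_term h f hf.aemeasurable]
  exact tsum_congr fun γ => lintegral_map hf (mp h γ).measurable

/-- second part -/
lemma part2 (h : StmtNuL) (f : G → ℂ) (hf : Integrable f nu) :
    IntegrableOn (fun g => ∑' γ : SL(2, ℤ), f (io γ * g)) FF nu ∧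
      ∫ g in FF, ∑' γ : SL(2, ℤ), f (io γ * g) ∂nu = 2 * ∫ g, f g ∂nu := by
  have hcount := Pl.U1M.countable_sl
  have hm' : ∀ γ : SL(2, ℤ), AEStronglyMeasurable (fun g : G => f (io γ * g)) (nu.restrict FF) :=
    fun γ => (hf.aestronglyMeasurable.comp_measurePreserving (mp h γ)).restrict
  have hfin : 2 * ∫⁻ g, ‖f g‖ₑ ∂nu ≠ ⊤ := ENNReal.mul_ne_top (by norm_num) hf.2.ne
  have hs : ∑' γ : SL(2, ℤ), ∫⁻ g in FF, ‖f (io γ * g)‖ₑ ∂nu = 2 * ∫⁻ g, ‖f g‖ₑ ∂nu :=
    sum_term h (fun g => ‖f g‖ₑ) hf.aestronglyMeasurable.enorm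
  have hI : ∫⁻ g in FF, ∑' γ : SL(2, ℤ), ‖f (io γ * g)‖ₑ ∂nu = 2 * ∫⁻ g, ‖f g‖ₑ ∂nu := by
    rw [lintegral_tsum fun γ => (hm' γ).enorm, hs]
  have hae : ∀ᵐ g ∂(nu.restrict FF), ∑' γ : SL(2, ℤ), ‖f (io γ * g)‖ₑ < ⊤ := by
    refine ae_lt_top' (AEMeasurable.tsum fun γ => (hm' γ).enorm) ?_
    rw [hI]
    exact hfin
  have hsum : ∀ g : G, ∑' γ : SL(2, ℤ), ‖f (io γ * g)‖ₑ < ⊤ →
      Summable fun γ : SL(2, ℤ) => ‖f (io γ * g)‖ := by
    intro g hg
    have h1 := ENNReal.summable_toReal hg.ne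
    simpa only [toReal_enorm] using h1
  have hmt : AEStronglyMeasurable (fun g : G => ∑' γ : SL(2, ℤ), f (io γ * g))
      (nu.restrict FF) := by
    refine aestronglyMeasurable_of_tendsto_ae (atTop : Filter (Finset SL(2, ℤ)))
      (f := fun s g => ∑ γ ∈ s, f (io γ * g)) (fun s => ?_) ?_
    · exact Finset.aestronglyMeasurable_fun_sum s fun γ _ => hm' γ
    · filter_upwards [hae] with g hg
      exact (hsum g hg).of_norm.hasSum
  refine ⟨⟨hmt, ?_⟩, ?_⟩
  · rw [hasFiniteIntegral_iff_enorm]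
    refine lt_of_le_of_lt (lintegral_mono fun g => enorm_tsum_le_tsum_enorm) ?_
    rw [hI]
    exact hfin.lt_top
  · rw [integral_tsum hm' (by rw [hs]; exact hfin)]
    have h1 : Integrable f (Measure.sum (fun γ : SL(2, ℤ) =>
        (nu.restrict FF).map (fun g : G => io γ * g))) := by
      rw [sum_meas h]
      exact hf.smul_measure (by norm_num)
    have h2 := integral_sum_measure h1
    rw [sum_meas h, integral_smul_measure] at h2
    have h3 : ∀ γ : SL(2, ℤ), ∫ g, f g ∂((nu.restrict FF).map (fun g : G => io γ * g)) =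
        ∫ g in FF, f (io γ * g) ∂nu := fun γ => (me γ).integral_map f
    rw [← tsum_congr h3, ← h2]
    simp

end UnfM

theorem stmtUnf (h : StmtNuL) : StmtUnf :=
  ⟨fun F hF => UnfM.sum_term h F hF.aemeasurable, fun f hf => UnfM.part2 h f hf⟩

end

end Pool.Agent.A54.Hp
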