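import Pool.Agent.Lib.MP_a54f13_nt.Hp.SpecM

/-! THEOREM A (MP_a54f13_nt), module `VV`: the volume of `V`. -/

set_option autoImplicit false

namespace Pool.Agent.A54.Hp

open MeasureTheory Filter Topology Set
open scoped ContDiff ComplexConjugate UpperHalfPlane MatrixGroups ENNReal
open Pool.Agent.A54.Dyn (G fl base ze io mk4 dom)
open Pool.Agent.A54.Av (Mat NonSc)

noncomputable section

namespace VVM

lemma cont_xi (i : Fin 3) : Continuous fun g : G => xi g i := by
  have e := Dyn.continuous_entry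
  fin_cases i
  · change Continuous fun g : G => g 0 0 * g 1 1 + g 0 1 * g 1 0
    exact ((e 0 0).mul (e 1 1)).add ((e 0 1).mul (e 1 0))
  · change Continuous fun g : G => -(g 0 0 * g 0 1)
    exact ((e 0 0).mul (e 0 1)).neg
  · change Continuous fun g : G => g 1 0 * g 1 1
    exact (e 1 0).mul (e 1 1)

lemma closed_Om (R : ℝ) : IsClosed (Om R) := by
  have : Om R = ⋂ i, ⋂ j, {g : G | |g i j| ≤ R} := by
    ext g; simp only [Om, Set.mem_iInter]; rfl
  rw [this]
  exact isClosed_iInter fun i => isClosed_iInter fun j =>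
    isClosed_le ((Dyn.continuous_entry i j).abs) continuous_const

/-- the relation -/
def Rl (R η : ℝ) : Set (G × G) := {z | z.2 ∈ Om R ∧ ∀ i, |xi z.2 i - xi z.1 i| ≤ η}

lemma meas_Rl (R η : ℝ) : MeasurableSet (Rl R η) := by
  have h1 : IsClosed {z : G × G | z.2 ∈ Om R} := (closed_Om R).preimage continuous_snd
  have h2 : IsClosed {z : G × G | ∀ i, |xi z.2 i - xi z.1 i| ≤ η} := by
    have : {z : G × G | ∀ i, |xi z.2 i - xi z.1 i| ≤ η} =
        ⋂ i, {z : G × G | |xi z.2 i - xi z.1 i| ≤ η} := by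
      ext z; simp only [Set.mem_iInter]; rfl
    rw [this]
    refine isClosed_iInter fun i => isClosed_le ?_ continuous_const
    exact (((cont_xi i).comp continuous_snd).sub ((cont_xi i).comp continuous_fst)).abs
  exact (h1.inter h2).measurableSet

lemma key (hs : SigmaFinite nu) {Φ : G → ℂ} (hΦ : Continuous Φ) {R R1 η : ℝ} {W : Set G}
    (hW : MeasurableSet W) (hWR : W ⊆ Om R1) {A c : ℝ≥0∞}
    (hA : ∀ x ∈ W, A ≤ ms Φ (Tb R (xi x) η)) (hc : ∀ ζ, nu (Tb R1 ζ η) ≤ c) :
    A * nu W ≤ c * ms Φ (Om R) := by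
  have hm : Measurable fun g : G => ‖Φ g‖ₑ ^ 2 := (hΦ.measurable.enorm).pow_const 2
  set K : G → G → ℝ≥0∞ := fun x y => (Rl R η).indicator (fun z => ‖Φ z.2‖ₑ ^ 2) (x, y) with hK
  have hKm : Measurable (Function.uncurry K) :=
    (hm.comp measurable_snd).indicator (meas_Rl R η)
  have h1 : A * nu W ≤ ∫⁻ x in W, ∫⁻ y, K x y ∂nu ∂nu := by
    rw [← setLIntegral_const]
    refine setLIntegral_mono (hKm.lintegral_prod_right' ) ?_
    intro x hx
    refine (hA x hx).trans (le_of_eq ?_)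
    unfold ms
    have hT : MeasurableSet (Tb R (xi x) η) := by
      have : Tb R (xi x) η = (fun y : G => (x, y)) ⁻¹' Rl R η := rfl
      rw [this]
      exact (meas_Rl R η).preimage (by fun_prop)
    rw [← lintegral_indicator hT]
    rfl
  refine h1.trans ?_
  have h2 : ∫⁻ x in W, ∫⁻ y, K x y ∂nu ∂nu = ∫⁻ y, ∫⁻ x in W, K x y ∂nu ∂nu :=
    lintegral_lintegral_swap hKm.aemeasurable
  rw [h2]
  have hOm : MeasurableSet (Om R) := (closed_Om R).measurableSet
  have h3 : ∀ y, ∫⁻ x in W, K x y ∂nu ≤ (Om R).indicator (fun y => c * ‖Φ y‖ₑ ^ 2) y := by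
    intro y
    by_cases hy : y ∈ Om R
    · rw [Set.indicator_of_mem hy]
      have hS : MeasurableSet {x : G | (x, y) ∈ Rl R η} := (meas_Rl R η).preimage (by fun_prop)
      have e1 : ∫⁻ x in W, K x y ∂nu =
          ∫⁻ x in W, {x : G | (x, y) ∈ Rl R η}.indicator (fun _ => ‖Φ y‖ₑ ^ 2) x ∂nu := rfl
      rw [e1, lintegral_indicator hS, setLIntegral_const, Measure.restrict_apply hS, mul_comm]
      refine mul_le_mul_left ((measure_mono ?_).trans (hc (xi y))) _
      rintro x ⟨hx, hxW⟩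
      refine ⟨hWR hxW, fun i => ?_⟩
      rw [abs_sub_comm]
      exact hx.2 i
    · rw [Set.indicator_of_notMem hy]
      refine le_of_eq ?_
      have : ∀ x, K x y = 0 := fun x => Set.indicator_of_notMem (fun h => hy h.1) _
      simp only [this, lintegral_zero]
  refine (lintegral_mono h3).trans ?_
  rw [lintegral_indicator hOm, lintegral_const_mul _ hm]
  rfl

lemma open_Vb {U b : Set G} (hb : IsOpen b) : IsOpen (Vb U b) := by
  have : Vb U b = ⋃ u ∈ U, (fun x : G => x⁻¹ * u) ⁻¹' b := by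
    ext x
    simp only [Set.mem_iUnion, Set.mem_preimage]
    constructor
    · rintro ⟨β, hβ, hu⟩
      refine ⟨x * β, hu, ?_⟩
      simpa using hβ
    · rintro ⟨u, hu, hβ⟩
      exact ⟨x⁻¹ * u, hβ, by simpa using hu⟩
  rw [this]
  exact isOpen_biUnion fun u _ => hb.preimage (by fun_prop)

end VVM

theorem stmtVV (hNuL : StmtNuL) (hVol : StmtVol) (hBt : StmtBt) (hTot : StmtTot) : StmtVV := by
  have _ := hBt
  intro R hR
  obtain ⟨C1, hC1, h1⟩ := hVol.1 (8 * R) (by linarith)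
  obtain ⟨C2, hC2, h2⟩ := hVol.1 (64 * R) (by linarith)
  obtain ⟨C3, hC3, h3⟩ := hTot R hR
  refine ⟨(4 * C1 + 9 * C2) * C3, by positivity, ?_⟩
  intro l Φ hΦ w U b hw hw1 hU hUR hb hV hV' A hA
  have hs : SigmaFinite nu := hNuL.2.2.1
  have hms : ms Φ (Om R) ≤ ENNReal.ofReal C3 := h3 l Φ hΦ
  have fin : ∀ (C η : ℝ), 0 ≤ C → C * η ^ 2 * C3 ≤ (4 * C1 + 9 * C2) * C3 * w ^ 2 →
      ENNReal.ofReal (C * η ^ 2) * ms Φ (Om R) ≤ ENNReal.ofReal ((4 * C1 + 9 * C2) * C3 * w ^ 2) := by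
    intro C η hC hle
    refine (mul_le_mul_right hms _).trans ?_
    rw [← ENNReal.ofReal_mul (by positivity)]
    exact ENNReal.ofReal_le_ofReal hle
  have hw2 : 0 ≤ w ^ 2 := by positivity
  constructor
  · refine (VVM.key hs hΦ.cont (R := R) (R1 := 8 * R) (η := 2 * w)
      (VVM.open_Vb hb).measurableSet hV.1 ?_ (fun ζ => h1 ζ (2 * w) (by linarith))).trans ?_
    · intro x hx
      obtain ⟨u, hu, hxu⟩ := hV.2 x hx
      refine (hA u hu).trans (lintegral_mono_set ?_)
      rintro y ⟨hy, hyi⟩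
      refine ⟨hy, fun i => ?_⟩
      have e1 := hyi i
      have e2 := hxu i
      rw [abs_le] at e1 e2 ⊢
      constructor <;> linarith [e1.1, e1.2, e2.1, e2.2]
    · refine fin C1 (2 * w) hC1 ?_
      have : 0 ≤ C2 * C3 * w ^ 2 := by positivity
      nlinarith
  · refine (VVM.key hs hΦ.cont (R := R) (R1 := 64 * R) (η := 3 * w)
      (VVM.open_Vb hb).measurableSet hV'.1 ?_ (fun ζ => h2 ζ (3 * w) (by linarith))).trans ?_
    · intro x hx
      obtain ⟨v, hv, hxv⟩ := hV'.2 x hx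
      obtain ⟨u, hu, hvu⟩ := hV.2 v hv
      refine (hA u hu).trans (lintegral_mono_set ?_)
      rintro y ⟨hy, hyi⟩
      refine ⟨hy, fun i => ?_⟩
      have e1 := hyi i
      have e2 := hxv i
      have e3 := hvu i
      rw [abs_le] at e1 e2 e3 ⊢
      constructor <;> linarith [e1.1, e1.2, e2.1, e2.2, e3.1, e3.2]
    · refine fin C2 (3 * w) hC2 ?_
      have : 0 ≤ C1 * C3 * w ^ 2 := by positivity
      nlinarith

end

end Pool.Agent.A54.Hp
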