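import Pool.Agent.Lib.MP_a54f13_nt.Hp.SpecL
import Pool.Agent.Lib.MP_a54f13_nt.Hp.VV

/-! THEOREM A' (MP_a54f13_nt), module `VT`: the part of a set in a wide tube. -/

set_option autoImplicit false

namespace Pool.Agent.A54.Hp

open MeasureTheory Filter Topology Set
open scoped ContDiff ComplexConjugate UpperHalfPlane MatrixGroups ENNReal
open Pool.Agent.A54.Dyn (G fl base ze io mk4 dom)
open Pool.Agent.A54.Av (Mat NonSc)

noncomputable section

namespace VTL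

open VVM

lemma closed_Tb (R : ℝ) (ζ : Fin 3 → ℝ) (η : ℝ) : IsClosed (Tb R ζ η) := by
  have : Tb R ζ η = Om R ∩ ⋂ i, {g : G | |xi g i - ζ i| ≤ η} := by
    ext g
    simp only [Tb, Set.mem_inter_iff, Set.mem_iInter]
    rfl
  rw [this]
  exact (closed_Om R).inter (isClosed_iInter fun i =>
    isClosed_le (((cont_xi i).sub continuous_const).abs) continuous_const)

lemma meas_near (ζ : Fin 3 → ℝ) (η : ℝ) : MeasurableSet {y : G | ∀ i, |xi y i - ζ i| ≤ η} := by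
  have : {y : G | ∀ i, |xi y i - ζ i| ≤ η} = ⋂ i, {g : G | |xi g i - ζ i| ≤ η} := by
    ext g
    simp only [Set.mem_iInter]
    rfl
  rw [this]
  exact (isClosed_iInter fun i =>
    isClosed_le (((cont_xi i).sub continuous_const).abs) continuous_const).measurableSet

lemma key (hs : SigmaFinite nu) {Φ : G → ℂ} (hΦ : Continuous Φ) {R R1 η η' : ℝ} {ζ₀ : Fin 3 → ℝ}
    {W : Set G} (hW : MeasurableSet W) (hWR : W ⊆ Om R1) {A c : ℝ≥0∞}
    (hA : ∀ x ∈ W, A ≤ ms Φ (Tb R (xi x) η)) (hc : ∀ ζ, nu (Tb R1 ζ η) ≤ c)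
    (hn : ∀ x ∈ W, ∀ y ∈ Tb R (xi x) η, y ∈ Tb R ζ₀ η') :
    A * nu W ≤ c * ms Φ (Tb R ζ₀ η') := by
  have hm : Measurable fun g : G => ‖Φ g‖ₑ ^ 2 := (hΦ.measurable.enorm).pow_const 2
  set K : G → G → ℝ≥0∞ := fun x y => (Rl R η).indicator (fun z => ‖Φ z.2‖ₑ ^ 2) (x, y) with hK
  have hKm : Measurable (Function.uncurry K) :=
    (hm.comp measurable_snd).indicator (meas_Rl R η)
  have h1 : A * nu W ≤ ∫⁻ x in W, ∫⁻ y, K x y ∂nu ∂nu := by
    rw [← setLIntegral_const]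
    refine setLIntegral_mono (hKm.lintegral_prod_right' ) ?_
    intro x hx
    refine (hA x hx).trans (le_of_eq ?_)
    unfold ms
    rw [← lintegral_indicator (closed_Tb R (xi x) η).measurableSet]
    rfl
  refine h1.trans ?_
  have h2 : ∫⁻ x in W, ∫⁻ y, K x y ∂nu ∂nu = ∫⁻ y, ∫⁻ x in W, K x y ∂nu ∂nu :=
    lintegral_lintegral_swap hKm.aemeasurable
  rw [h2]
  have hT : MeasurableSet (Tb R ζ₀ η') := (closed_Tb R ζ₀ η').measurableSet
  have h3 : ∀ y, ∫⁻ x in W, K x y ∂nu ≤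
      (Tb R ζ₀ η').indicator (fun y => c * ‖Φ y‖ₑ ^ 2) y := by
    intro y
    by_cases hy : y ∈ Tb R ζ₀ η'
    · rw [Set.indicator_of_mem hy]
      have hS : MeasurableSet {x : G | (x, y) ∈ Rl R η} := (meas_Rl R η).preimage (by fun_prop)
      have e1 : ∫⁻ x in W, K x y ∂nu =
          ∫⁻ x in W, {x : G | (x, y) ∈ Rl R η}.indicator (fun _ => ‖Φ y‖ₑ ^ 2) x ∂nu := rfl
      rw [e1, lintegral_indicator hS, setLIntegral_const, Measure.restrict_apply hS, mul_comm]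
      refine mul_le_mul_left ((measure_mono ?_).trans (hc (xi y))) _
      rintro x ⟨hx, hxW⟩
      refine ⟨hWR hxW, fun i => ?_⟩
      rw [abs_sub_comm]
      exact hx.2 i
    · rw [Set.indicator_of_notMem hy]
      refine le_of_eq ?_
      have e0 : ∫⁻ x in W, K x y ∂nu = ∫⁻ _ in W, (0 : ℝ≥0∞) ∂nu :=
        setLIntegral_congr_fun hW fun x hx => by
          have hxy : (x, y) ∉ Rl R η := fun h => hy (hn x hx y h)
          exact Set.indicator_of_notMem hxy _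
      rw [e0, lintegral_zero]
  refine (lintegral_mono h3).trans ?_
  rw [lintegral_indicator hT, lintegral_const_mul _ hm]
  rfl

end VTL

theorem stmtVT (hNuL : StmtNuL) (hVol : StmtVol) : StmtVT := by
  intro R hR
  obtain ⟨C1, hC1, h1⟩ := hVol.1 (64 * R) (by linarith)
  refine ⟨9 * C1 + 1, by linarith, ?_⟩
  intro l Φ hΦ w w' hw hww A V' hV hVR hA ζ
  refine (VTL.key hNuL.2.2.1 hΦ.cont (R := R) (R1 := 64 * R) (η := 3 * w) (η' := 4 * w')
    (ζ₀ := ζ) (hV.inter (VTL.meas_near ζ w')) (fun y hy => hVR hy.1) (fun y hy => hA y hy.1)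
    (fun ζ => h1 ζ (3 * w) (by linarith)) ?_).trans ?_
  · rintro x ⟨_, hx⟩ y ⟨hy, hyi⟩
    refine ⟨hy, fun i => ?_⟩
    have e1 := hyi i
    have e2 := hx i
    rw [abs_le] at e1 e2 ⊢
    constructor <;> linarith [e1.1, e1.2, e2.1, e2.2]
  · refine mul_le_mul_left (ENNReal.ofReal_le_ofReal ?_) _
    nlinarith [sq_nonneg w]

end

end Pool.Agent.A54.Hp
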