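import Pool.Agent.Lib.MP_a54f13_nt.Hp.SpecC

/-!
# Package `Hp`, part C: fixed scales (`StmtVfx`)
-/

set_option autoImplicit false

namespace Pool.Agent.A54.Hp

open MeasureTheory Filter Topology Set
open scoped ContDiff ComplexConjugate UpperHalfPlane MatrixGroups ENNReal
open Pool.Agent.A54.Half (H0)
open Pool.Agent.A54.Sq (TestP)

noncomputable section

namespace VfxM

lemma cpt_pre {K : Set ℂ} (hK : IsCompact K) (hKH : K ⊆ H0) :
    IsCompact (UpperHalfPlane.coe ⁻¹' K : Set ℍ) := by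
  rw [UpperHalfPlane.isOpenEmbedding_coe.isInducing.isCompact_preimage_iff]
  · exact hK
  · intro z hz
    exact ⟨⟨z, hKH hz⟩, rfl⟩

lemma uh_comm (z w : ℍ) : uh z w = uh w z := by
  unfold uh
  rw [norm_sub_rev, mul_comm z.im]

lemma hk_coe (k : ℝ → ℝ) (z w : ℍ) : hk k z (w : ℂ) = k (uh z w) := by
  unfold hk uh
  have h : 0 < ((w : ℂ)).im := w.im_pos
  rw [if_pos h]
  rfl

lemma integrable_test {φ : ℂ → ℝ} (hφ : TestR H0 φ) {F : ℍ → ℝ} (hF : Continuous F) :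
    Integrable (fun z : ℍ => φ z * F z) := by
  refine Continuous.integrable_of_hasCompactSupport
    ((hφ.smooth.continuous.comp UpperHalfPlane.continuous_coe).mul hF) ?_
  refine HasCompactSupport.intro (cpt_pre hφ.cpt.isCompact hφ.sub) fun z hz => ?_
  have h : φ z = 0 := image_eq_zero_of_notMem_tsupport hz
  rw [h, zero_mul]

lemma continuous_uh (z : ℍ) : Continuous fun w : ℍ => uh z w := by
  unfold uh
  refine Continuous.div ?_ ?_ fun w => (mul_pos z.im_pos w.im_pos).ne'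
  · exact ((continuous_const.sub UpperHalfPlane.continuous_coe).norm).pow 2
  · exact continuous_const.mul UpperHalfPlane.continuous_im

/-- the mass of the kernel -/
lemma one_of_ker {C₀ e : ℝ} (hK : Ker C₀ e (sk e)) (hAr : StmtAr) (z : ℍ) :
    ∫ w : ℍ, sk e (uh z w) = 1 := by
  have hpi := Real.pi_pos
  have hint : IntegrableOn (sk e) (Ioi (0 : ℝ)) := by
    by_contra h
    have h1 := hK.one
    rw [integral_undef h, mul_zero] at h1
    exact zero_ne_one h1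
  have h2 := hAr (fun u => ENNReal.ofReal (sk e u)) hK.meas.ennreal_ofReal z
  have h3 : ∫⁻ u in Ioi (0 : ℝ), ENNReal.ofReal (sk e u) =
      ENNReal.ofReal (∫ u in Ioi (0 : ℝ), sk e u) :=
    (ofReal_integral_eq_lintegral_ofReal hint (Eventually.of_forall fun u => hK.nonneg u)).symm
  rw [h3, ← ENNReal.ofReal_mul hpi.le, hK.one] at h2
  rw [integral_eq_lintegral_of_nonneg_ae (Eventually.of_forall fun w => hK.nonneg _)
    (hK.meas.comp (continuous_uh z).measurable).aestronglyMeasurable, h2]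
  simp

lemma lip {h : ℂ → ℝ} {B : ℝ} (hs : ContDiff ℝ ∞ h)
    (hB : ∀ w, ‖iteratedFDeriv ℝ 1 h w‖ ≤ B) (z z' : ℂ) : |h z - h z'| ≤ B * ‖z - z'‖ := by
  have h1 := Convex.norm_image_sub_le_of_norm_fderiv_le (𝕜 := ℝ) (f := h) (s := univ) (C := B)
    (x := z') (y := z)
    (fun x _ => (hs.differentiable (by simp)).differentiableAt)
    (fun x _ => by rw [← norm_iteratedFDeriv_one]; exact hB x) convex_univ (mem_univ _) (mem_univ _)
  rwa [Real.norm_eq_abs] at h1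

/-- squeezing -/
lemma squeeze {V : ℕ → ℝ≥0∞} {a : ℕ → ℝ} {A : ℝ} (ha : Tendsto a atTop (𝓝 A))
    (ha0 : ∀ i, 0 ≤ a i)
    (h : ∀ ε : ℝ, 0 < ε → ε ≤ 1 → ∀ᶠ i in atTop, ENNReal.ofReal ((1 - ε) * a i) ≤ V i ∧
      V i ≤ ENNReal.ofReal ((1 + ε) * a i)) : Tendsto V atTop (𝓝 (ENNReal.ofReal A)) := by
  have hA0 : 0 ≤ A := ge_of_tendsto' ha ha0
  have hfin : ∀ᶠ i in atTop, V i = ENNReal.ofReal (V i).toReal := by
    filter_upwards [h 1 one_pos le_rfl] with i hi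
    exact (ENNReal.ofReal_toReal (ne_top_of_le_ne_top ENNReal.ofReal_ne_top hi.2)).symm
  have hd : Tendsto (fun i => (V i).toReal - a i) atTop (𝓝 0) := by
    rw [Metric.tendsto_nhds]
    intro η hη
    set ε := min 1 (η / (2 * (A + 1))) with hε
    have hε0 : 0 < ε := lt_min one_pos (by positivity)
    have hεη : ε * (A + 1) ≤ η / 2 := by
      have h1 : ε ≤ η / (2 * (A + 1)) := min_le_right _ _
      calc ε * (A + 1) ≤ η / (2 * (A + 1)) * (A + 1) :=
            mul_le_mul_of_nonneg_right h1 (by linarith)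
        _ = η / 2 := by field_simp
    filter_upwards [h ε hε0 (min_le_left _ _), ha.eventually_le_const (lt_add_one A)] with i hi hai
    have hne : V i ≠ ⊤ := ne_top_of_le_ne_top ENNReal.ofReal_ne_top hi.2
    have h1 : (1 - ε) * a i ≤ (V i).toReal := (ENNReal.ofReal_le_iff_le_toReal hne).1 hi.1
    have h2 : (V i).toReal ≤ (1 + ε) * a i :=
      ENNReal.toReal_le_of_le_ofReal (mul_nonneg (by linarith) (ha0 i)) hi.2
    have h3 : ε * a i ≤ ε * (A + 1) := mul_le_mul_of_nonneg_left hai hε0.le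
    rw [Real.dist_eq, sub_zero, abs_lt]
    constructor <;> linarith
  have hv : Tendsto (fun i => (V i).toReal) atTop (𝓝 A) := by
    have := hd.add ha
    simpa using this
  exact (ENNReal.tendsto_ofReal hv).congr' (hfin.mono fun i hi => hi.symm)

/-- the integral against the kernel -/
def gk (e : ℝ) (F : ℍ → ℝ) (z : ℍ) : ℝ := ∫ w : ℍ, sk e (uh z w) * F w

/-- the double integral -/
lemma V2_eq {φ : ℂ → ℝ} {e : ℝ} {F : ℍ → ℝ} (hF : Continuous F) (hF0 : ∀ z, 0 ≤ F z)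
    (hφ : TestP H0 φ) (hk0 : ∀ u, 0 ≤ sk e u)
    (ht : ∀ z : ℍ, (z : ℂ) ∈ tsupport φ → TestR H0 (hk (sk e) z)) :
    V2 φ (sk e) F F = ∫⁻ z : ℍ, ENNReal.ofReal (φ z * F z) * ENNReal.ofReal (gk e F z) := by
  unfold V2
  refine lintegral_congr fun z => ?_
  by_cases hz : (z : ℂ) ∈ tsupport φ
  · have hint : Integrable (fun w : ℍ => sk e (uh z w) * F w) := by
      have h1 := integrable_test (ht z hz) hF
      refine h1.congr (Eventually.of_forall fun w => ?_)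
      change hk (sk e) z (w : ℂ) * F w = sk e (uh z w) * F w
      rw [hk_coe]
    have h2 : ∀ w : ℍ, ENNReal.ofReal (φ z * sk e (uh z w) * F z * F w) =
        ENNReal.ofReal (φ z * F z) * ENNReal.ofReal (sk e (uh z w) * F w) := by
      intro w
      rw [← ENNReal.ofReal_mul (mul_nonneg (hφ.nonneg _) (hF0 _))]
      congr 1
      ring
    rw [lintegral_congr h2, lintegral_const_mul' _ _ ENNReal.ofReal_ne_top, gk,
      ofReal_integral_eq_lintegral_ofReal hint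
        (Eventually.of_forall fun w => mul_nonneg (hk0 _) (hF0 _))]
  · have h0 : φ z = 0 := image_eq_zero_of_notMem_tsupport hz
    simp [h0]

/-- the double integral, estimate -/
lemma V2_bd {φ : ℂ → ℝ} {e ε : ℝ} {F : ℍ → ℝ} (hF : Continuous F) (hF0 : ∀ z, 0 ≤ F z)
    (hφ : TestP H0 φ) (hk0 : ∀ u, 0 ≤ sk e u) (hε0 : 0 < ε) (hε1 : ε ≤ 1)
    (ht : ∀ z : ℍ, (z : ℂ) ∈ tsupport φ → TestR H0 (hk (sk e) z))
    (hg : ∀ z : ℍ, (z : ℂ) ∈ tsupport φ → |gk e F z - 1| ≤ ε) :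
    ENNReal.ofReal ((1 - ε) * ∫ z : ℍ, φ z * F z) ≤ V2 φ (sk e) F F ∧
      V2 φ (sk e) F F ≤ ENNReal.ofReal ((1 + ε) * ∫ z : ℍ, φ z * F z) := by
  have h1 : ∀ c : ℝ, 0 ≤ c → ENNReal.ofReal (c * ∫ z : ℍ, φ z * F z) =
      ∫⁻ z : ℍ, ENNReal.ofReal (φ z * F z) * ENNReal.ofReal c := by
    intro c hc
    rw [lintegral_mul_const' _ _ ENNReal.ofReal_ne_top, mul_comm c,
      ENNReal.ofReal_mul (integral_nonneg fun z => mul_nonneg (hφ.nonneg _) (hF0 z)),
      ofReal_integral_eq_lintegral_ofReal (integrable_test hφ.test hF)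
        (Eventually.of_forall fun z => mul_nonneg (hφ.nonneg _) (hF0 z))]
  rw [V2_eq hF hF0 hφ hk0 ht, h1 _ (by linarith), h1 _ (by linarith)]
  constructor
  · refine lintegral_mono fun z => ?_
    by_cases hz : (z : ℂ) ∈ tsupport φ
    · have h2 := abs_le.1 (hg z hz)
      gcongr
      linarith
    · have h0 : φ z = 0 := image_eq_zero_of_notMem_tsupport hz
      simp [h0]
  · refine lintegral_mono fun z => ?_
    by_cases hz : (z : ℂ) ∈ tsupport φ
    · have h2 := abs_le.1 (hg z hz)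
      gcongr
      linarith
    · have h0 : φ z = 0 := image_eq_zero_of_notMem_tsupport hz
      simp [h0]

/-- the integral against the kernel is Lipschitz continuous -/
lemma gk_lip {K₀ K₁ : Set ℂ} {e L : ℝ} {ζ : ℂ → ℝ} {F : ℍ → ℝ} (hF : Continuous F)
    (hF0 : ∀ z, 0 ≤ F z) (hζ : TestR H0 ζ) (hζ0 : ∀ z, 0 ≤ ζ z) (hζ1 : ∀ z ∈ K₀, ζ z = 1)
    (hL : 0 ≤ L)
    (ht : ∀ z : ℍ, (z : ℂ) ∈ K₁ → TestR H0 (hk (sk e) z) ∧ tsupport (hk (sk e) z) ⊆ K₀)
    (hl : ∀ w : ℍ, (w : ℂ) ∈ K₀ → ∀ z z' : ℂ, |hk (sk e) w z - hk (sk e) w z'| ≤ L * ‖z - z'‖)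
    {z z' : ℍ} (hz : (z : ℂ) ∈ K₁) (hz' : (z' : ℂ) ∈ K₁) :
    |gk e F z - gk e F z'| ≤ L * ‖(z : ℂ) - z'‖ * ∫ w : ℍ, ζ w * F w := by
  have hint : ∀ z : ℍ, (z : ℂ) ∈ K₁ → Integrable (fun w : ℍ => sk e (uh z w) * F w) := by
    intro z hz
    refine (integrable_test (ht z hz).1 hF).congr (Eventually.of_forall fun w => ?_)
    change hk (sk e) z (w : ℂ) * F w = sk e (uh z w) * F w
    rw [hk_coe]
  have hzero : ∀ z : ℍ, (z : ℂ) ∈ K₁ → ∀ w : ℍ, (w : ℂ) ∉ K₀ → sk e (uh z w) = 0 := by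
    intro z hz w hw
    rw [← hk_coe (sk e)]
    exact image_eq_zero_of_notMem_tsupport fun h => hw ((ht z hz).2 h)
  unfold gk
  rw [← integral_sub (hint z hz) (hint z' hz'), ← integral_const_mul, ← Real.norm_eq_abs]
  refine norm_integral_le_of_norm_le ((integrable_test hζ hF).const_mul _)
    (Eventually.of_forall fun w => ?_)
  rw [Real.norm_eq_abs, ← sub_mul, abs_mul, abs_of_nonneg (hF0 w), ← mul_assoc]
  refine mul_le_mul_of_nonneg_right ?_ (hF0 w)
  by_cases hw : (w : ℂ) ∈ K₀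
  · rw [hζ1 _ hw, mul_one, uh_comm z, uh_comm z', ← hk_coe (sk e), ← hk_coe (sk e)]
    exact hl w hw _ _
  · rw [hzero z hz w hw, hzero z' hz' w hw, sub_zero, abs_zero]
    exact mul_nonneg (mul_nonneg hL (norm_nonneg _)) (hζ0 _)

end VfxM

open VfxM in
/-- **Vfx** -/
theorem stmtVfx (_hUg : StmtUg) (hAr : StmtAr) (hSk : StmtSk) : StmtVfx := by
  intro S hS hS0 hlim φ hφ
  obtain ⟨hct, ⟨C₀, hC₀, hKer⟩, hsm⟩ := hSk
  set K₁ : Set ℂ := tsupport φ with hK₁
  have hK₁c : IsCompact K₁ := hφ.test.cpt.isCompact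
  obtain ⟨K₀, C, e₀, hK₀, hK₀H, hC, he₀, he₀1, h1⟩ := hsm _ (cpt_pre hK₁c hφ.test.sub)
  obtain ⟨K₀', C', e₀', hK₀', hK₀H', hC', he₀', he₀1', h2⟩ := hsm _ (cpt_pre hK₀ hK₀H)
  obtain ⟨ζ, hζ, hζ01, hζ1⟩ := exists_cutoff hK₀ Half.isOpen_H0 hK₀H
  refine ⟨min e₀ e₀', lt_min he₀ he₀', fun e he hee => ?_⟩
  have hee₀ : e ≤ e₀ := hee.trans (min_le_left _ _)
  have hee₀' : e ≤ e₀' := hee.trans (min_le_right _ _)
  have hk0 : ∀ u, 0 ≤ sk e u := (hKer e he).nonneg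
  have ht : ∀ z : ℍ, (z : ℂ) ∈ K₁ → TestR H0 (hk (sk e) z) ∧ tsupport (hk (sk e) z) ⊆ K₀ := by
    intro z hz
    obtain ⟨a1, a2, _⟩ := h1 e he hee₀ z hz
    exact ⟨⟨a1, hK₀.of_isClosed_subset (isClosed_tsupport _) a2, a2.trans hK₀H⟩, a2⟩
  set L : ℝ := C' * e⁻¹ ^ 8 with hL
  have hL0 : 0 ≤ L := by positivity
  have hl : ∀ w : ℍ, (w : ℂ) ∈ K₀ → ∀ z z' : ℂ,
      |hk (sk e) w z - hk (sk e) w z'| ≤ L * ‖z - z'‖ := by
    intro w hw z z'
    obtain ⟨a1, _, a3⟩ := h2 e he hee₀' w hw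
    exact lip a1 (fun x => a3 1 (by norm_num) x) z z'
  have hζone : ∀ z ∈ K₀, ζ z = 1 := fun z hz => hζ1.self_of_nhdsSet z hz
  -- the masses are bounded
  have hmass : ∀ᶠ i in atTop, ∫ w : ℍ, ζ w * S i w ≤ (∫ w : ℍ, ζ w) + 1 :=
    (hlim ζ hζ).eventually_le_const (lt_add_one _)
  set M : ℝ := (∫ w : ℍ, ζ w) + 1 with hM
  have hM0 : 0 < M := by
    have : 0 ≤ ∫ w : ℍ, ζ w := integral_nonneg fun w => (hζ01 _).1
    linarith
  -- pointwise convergence
  have hpt : ∀ z : ℍ, (z : ℂ) ∈ K₁ → Tendsto (fun i => gk e (S i) z) atTop (𝓝 1) := by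
    intro z hz
    have h3 := hlim _ (ht z hz).1
    have h4 : ∫ w : ℍ, hk (sk e) z w = 1 := by
      rw [← one_of_ker (hKer e he) hAr z]
      exact integral_congr_ae (Eventually.of_forall fun w => hk_coe _ _ _)
    rw [h4] at h3
    refine h3.congr fun i => ?_
    exact integral_congr_ae (Eventually.of_forall fun w => by
      change hk (sk e) z (w : ℂ) * S i w = sk e (uh z w) * S i w
      rw [hk_coe])
  -- uniform convergence
  have hunif : ∀ ε : ℝ, 0 < ε → ∀ᶠ i in atTop, ∀ z : ℍ, (z : ℂ) ∈ K₁ → |gk e (S i) z - 1| ≤ ε := by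
    intro ε hε
    set δ : ℝ := ε / (2 * (L * M + 1)) with hδ
    have hLM : 0 ≤ L * M := by positivity
    have hδ0 : 0 < δ := by positivity
    obtain ⟨t, ht1, ht2, ht3⟩ := hK₁c.finite_cover_balls hδ0
    have hfin : (UpperHalfPlane.coe ⁻¹' t : Set ℍ).Finite :=
      ht2.preimage (UpperHalfPlane.coe_injective.injOn)
    have hev : ∀ᶠ i in atTop, ∀ x ∈ (UpperHalfPlane.coe ⁻¹' t : Set ℍ),
        |gk e (S i) x - 1| < ε / 2 := by
      rw [eventually_all_finite hfin]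
      intro x hx
      have h3 := hpt x (ht1 hx)
      rw [Metric.tendsto_nhds] at h3
      exact h3 (ε / 2) (by positivity)
    filter_upwards [hev, hmass] with i hi hmi z hz
    have h3 := ht3 hz
    rw [mem_iUnion₂] at h3
    obtain ⟨x, hx, hzx⟩ := h3
    have hxH : x ∈ H0 := hφ.test.sub (ht1 hx)
    have h4 := hi ⟨x, hxH⟩ hx
    have h5 := gk_lip (hS i) (hS0 i) hζ (fun z => (hζ01 z).1) hζone hL0 ht hl (z := z)
      (z' := ⟨x, hxH⟩) hz (ht1 hx)
    have h6 : ‖(z : ℂ) - x‖ < δ := by rwa [Metric.mem_ball, dist_eq_norm] at hzx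
    have h7 : L * ‖(z : ℂ) - x‖ * ∫ w : ℍ, ζ w * S i w ≤ ε / 2 := by
      calc L * ‖(z : ℂ) - x‖ * ∫ w : ℍ, ζ w * S i w ≤ L * δ * M := by
            refine mul_le_mul (mul_le_mul_of_nonneg_left h6.le hL0) hmi
              (integral_nonneg fun w => mul_nonneg (hζ01 _).1 (hS0 i w)) (by positivity)
        _ = ε / 2 * (L * M / (L * M + 1)) := by
            rw [hδ]
            field_simp
        _ ≤ ε / 2 * 1 := by
            refine mul_le_mul_of_nonneg_left ?_ (by positivity)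
            rw [div_le_one (by linarith)]
            linarith
        _ = ε / 2 := mul_one _
    have h8 : |gk e (S i) z - 1| ≤ |gk e (S i) z - gk e (S i) ⟨x, hxH⟩| +
        |gk e (S i) ⟨x, hxH⟩ - 1| := abs_sub_le _ _ _
    have h9 : |gk e (S i) z - gk e (S i) ⟨x, hxH⟩| ≤ ε / 2 := h5.trans h7
    linarith
  refine squeeze (hlim φ hφ.test)
    (fun i => integral_nonneg fun z => mul_nonneg (hφ.nonneg _) (hS0 i z)) fun ε hε hε1 => ?_
  filter_upwards [hunif ε hε] with i hi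
  exact V2_bd (hS i) (hS0 i) hφ hk0 hε hε1 (fun z hz => (ht z hz).1) hi

end

end Pool.Agent.A54.Hp
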