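import Pool.Agent.Lib.MP_a54f13_nt.Hp.SpecM

/-!
# Package `Hp`, module Vol: volumes of tubes
-/

set_option autoImplicit false

namespace Pool.Agent.A54.Hp

open MeasureTheory Filter Topology Set
open scoped ContDiff ComplexConjugate UpperHalfPlane MatrixGroups ENNReal
open Pool.Agent.A54.Dyn (G fl base ze io mk4 dom)
open Pool.Agent.A54.Av (Mat NonSc)

noncomputable section

namespace VolM

open Pool.Agent.A54.Dyn Pool.Agent.A54.Dyn.LiftM

/-! ### The entries of the section -/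

lemma Sct_00 (z : ℍ) (x : XC) : Sct (z, x) 0 0 = √z.im * (cc x).re - z.re / √z.im * (cc x).im := by
  unfold Sct
  rw [mul_00, UpperHalfPlane.coe_toSL2R]
  show √z.im * (cc x).re + z.re / √z.im * (-(cc x).im) = _
  ring

lemma Sct_01 (z : ℍ) (x : XC) : Sct (z, x) 0 1 = √z.im * (cc x).im + z.re / √z.im * (cc x).re := by
  unfold Sct
  rw [mul_01, UpperHalfPlane.coe_toSL2R]
  rfl

lemma Sct_10 (z : ℍ) (x : XC) : Sct (z, x) 1 0 = -((cc x).im / √z.im) := by
  unfold Sct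
  rw [mul_10, UpperHalfPlane.coe_toSL2R]
  show 0 * (cc x).re + 1 / √z.im * (-(cc x).im) = _
  ring

lemma Sct_11 (z : ℍ) (x : XC) : Sct (z, x) 1 1 = (cc x).re / √z.im := by
  unfold Sct
  rw [mul_11, UpperHalfPlane.coe_toSL2R]
  show 0 * (cc x).im + 1 / √z.im * (cc x).re = _
  ring

/-! ### Rectangles in the half-plane -/

/-- rectangles -/
def RH (a y1 y2 : ℝ) : Set ℍ := {z | |z.re| ≤ a ∧ y1 ≤ z.im ∧ z.im ≤ y2}

/-- rectangles in the plane -/
def RC (a y1 y2 : ℝ) : Set ℂ := {z | |z.re| ≤ a ∧ y1 ≤ z.im ∧ z.im ≤ y2}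

lemma vol_RC (a y1 y2 : ℝ) : (volume : Measure ℂ) (RC a y1 y2) =
    ENNReal.ofReal (2 * a) * ENNReal.ofReal (y2 - y1) := by
  have h := Complex.volume_preserving_equiv_real_prod.measure_preimage_equiv
    (Icc (-a) a ×ˢ Icc y1 y2)
  rw [Measure.volume_eq_prod, Measure.prod_prod, Real.volume_Icc, Real.volume_Icc] at h
  have h1 : RC a y1 y2 = Complex.measurableEquivRealProd ⁻¹' (Icc (-a) a ×ˢ Icc y1 y2) := by
    ext z
    simp only [RC, mem_setOf_eq, mem_preimage, mem_prod, mem_Icc, abs_le,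
      Complex.measurableEquivRealProd_apply]
  rw [h1, h]
  congr 2
  ring

lemma meas_RC (a y1 y2 : ℝ) : MeasurableSet (RC a y1 y2) := by
  have h1 : RC a y1 y2 = Complex.measurableEquivRealProd ⁻¹' (Icc (-a) a ×ˢ Icc y1 y2) := by
    ext z
    simp only [RC, mem_setOf_eq, mem_preimage, mem_prod, mem_Icc, abs_le,
      Complex.measurableEquivRealProd_apply]
  rw [h1]
  exact (measurableSet_Icc.prod measurableSet_Icc).preimage
    Complex.measurableEquivRealProd.measurable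

lemma image_RH {a y1 y2 : ℝ} (h : 0 < y1) : ((↑) : ℍ → ℂ) '' RH a y1 y2 = RC a y1 y2 := by
  ext z
  constructor
  · rintro ⟨w, hw, rfl⟩
    exact hw
  · intro hz
    have hz0 : 0 < z.im := lt_of_lt_of_le h hz.2.1
    exact ⟨⟨z, hz0⟩, hz, rfl⟩

lemma RH_le {a y1 y2 : ℝ} (h : 0 < y1) (h12 : y1 ≤ y2) (ha : 0 ≤ a) :
    (volume : Measure ℍ) (RH a y1 y2) ≤ ENNReal.ofReal (2 * a * (y2 - y1) / y1 ^ 2) := by
  rw [UpperHalfPlane.volume_eq_lintegral, image_RH h]
  have h1 : ∫⁻ z : ℂ in RC a y1 y2, ((((1 / ‖z.im‖₊) ^ 2 : NNReal)) : ℝ≥0∞) ≤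
      ∫⁻ _ : ℂ in RC a y1 y2, ENNReal.ofReal (1 / y1 ^ 2) := by
    refine setLIntegral_mono measurable_const fun z hz => ?_
    rw [ENNReal.ofReal, ENNReal.coe_le_coe, ← NNReal.coe_le_coe, Real.coe_toNNReal _ (by positivity)]
    push_cast
    rw [Real.norm_eq_abs, abs_of_pos (lt_of_lt_of_le h hz.2.1), div_pow, one_pow]
    exact one_div_le_one_div_of_le (by positivity) (pow_le_pow_left₀ h.le hz.2.1 2)
  refine h1.trans ?_
  rw [setLIntegral_const, vol_RC, ← ENNReal.ofReal_mul (by positivity),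
    ← ENNReal.ofReal_mul (by positivity)]
  apply ENNReal.ofReal_le_ofReal
  apply le_of_eq
  ring

lemma le_RH {a y1 y2 : ℝ} (h : 0 < y1) (h12 : y1 ≤ y2) (ha : 0 ≤ a) :
    ENNReal.ofReal (2 * a * (y2 - y1) / y2 ^ 2) ≤ (volume : Measure ℍ) (RH a y1 y2) := by
  have h2 : 0 < y2 := lt_of_lt_of_le h h12
  rw [UpperHalfPlane.volume_eq_lintegral, image_RH h]
  have h1 : ∫⁻ _ : ℂ in RC a y1 y2, ENNReal.ofReal (1 / y2 ^ 2) ≤
      ∫⁻ z : ℂ in RC a y1 y2, ((((1 / ‖z.im‖₊) ^ 2 : NNReal)) : ℝ≥0∞) := by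
    refine setLIntegral_mono' (meas_RC a y1 y2) fun z hz => ?_
    rw [ENNReal.ofReal, ENNReal.coe_le_coe, ← NNReal.coe_le_coe, Real.coe_toNNReal _ (by positivity)]
    push_cast
    have hz0 : 0 < z.im := lt_of_lt_of_le h hz.2.1
    rw [Real.norm_eq_abs, abs_of_pos hz0, div_pow, one_pow]
    exact one_div_le_one_div_of_le (by positivity) (pow_le_pow_left₀ hz0.le hz.2.2 2)
  refine le_trans ?_ h1
  rw [setLIntegral_const, vol_RC, ← ENNReal.ofReal_mul (by positivity),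
    ← ENNReal.ofReal_mul (by positivity)]
  apply ENNReal.ofReal_le_ofReal
  apply le_of_eq
  ring

/-! ### Arcs -/

lemma haar_eq : (AddCircle.haarAddCircle : Measure XC) = volume := by
  rw [AddCircle.volume_eq_smul_haarAddCircle, ENNReal.ofReal_one, one_smul]

lemma rep (x : XC) : ∃ t : ℝ, |t| = ‖x‖ ∧ |t| ≤ 1 / 2 ∧ (cc x).re = Real.cos (2 * Real.pi * t) ∧
    (cc x).im = Real.sin (2 * Real.pi * t) := by
  induction x using QuotientAddGroup.induction_on with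
  | H y =>
    refine ⟨y - round y, ?_, abs_sub_round y, ?_⟩
    · exact (UnitAddCircle.norm_eq (x := y)).symm
    have h1 : ((y : ℝ) : XC) = ((y - round y : ℝ) : XC) := by
      have h2 : ((y - round y : ℝ) : XC) = ((y : ℝ) : XC) - ((round y : ℝ) : XC) := rfl
      have h3 : ((round y : ℝ) : XC) = 0 := by
        rw [AddCircle.coe_eq_zero_iff]
        exact ⟨round y, by simp⟩
      rw [h2, h3, sub_zero]
    have h4 : cc ((y : ℝ) : XC) = Complex.exp ((2 * Real.pi * (y - round y) : ℝ) * Complex.I) := by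
      rw [h1]
      unfold cc
      rw [AddCircle.toCircle_apply_mk, Circle.coe_exp, div_one]
    constructor
    · exact (congrArg Complex.re h4).trans (Complex.exp_ofReal_mul_I_re _)
    · exact (congrArg Complex.im h4).trans (Complex.exp_ofReal_mul_I_im _)

lemma arc_sub (s : ℝ) (x : XC) (h0 : 0 ≤ (cc x).re) (h1 : |(cc x).im| ≤ s) :
    x ∈ Metric.closedBall (0 : XC) (s / 4) := by
  obtain ⟨t, ht, ht2, hre, him⟩ := rep x
  rw [mem_closedBall_zero_iff, ← ht]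
  have hpi := Real.pi_pos
  have h2 : |2 * Real.pi * t| ≤ Real.pi / 2 := by
    by_contra h
    push Not at h
    have h3 : |2 * Real.pi * t| ≤ Real.pi := by
      rw [abs_mul, abs_of_pos (by positivity : 0 < 2 * Real.pi)]
      nlinarith
    have h4 := Real.cos_neg_of_pi_div_two_lt_of_lt h (by linarith)
    rw [Real.cos_abs, ← hre] at h4
    linarith
  have h3 := Real.mul_abs_le_abs_sin h2
  rw [← him, abs_mul, abs_of_pos (by positivity : 0 < 2 * Real.pi)] at h3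
  have h4 : 2 / Real.pi * (2 * Real.pi * |t|) = 4 * |t| := by
    field_simp
    ring
  rw [h4] at h3
  linarith

lemma sub_arc {s : ℝ} (hs : s ≤ 1) (x : XC) (h : x ∈ Metric.closedBall (0 : XC) (s / 8)) :
    0 < (cc x).re ∧ |(cc x).im| ≤ s := by
  obtain ⟨t, ht, ht2, hre, him⟩ := rep x
  rw [mem_closedBall_zero_iff, ← ht] at h
  have hpi := Real.pi_pos
  have hpi4 := Real.pi_le_four
  have h1 : |2 * Real.pi * t| ≤ 8 * |t| := by
    rw [abs_mul, abs_of_pos (by positivity : 0 < 2 * Real.pi)]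
    nlinarith [abs_nonneg t]
  constructor
  · rw [hre, ← Real.cos_abs]
    have h3 : |2 * Real.pi * t| < Real.pi / 2 := by
      rw [abs_mul, abs_of_pos (by positivity : 0 < 2 * Real.pi)]
      nlinarith [abs_nonneg t]
    exact Real.cos_pos_of_mem_Ioo ⟨by linarith [abs_nonneg (2 * Real.pi * t)], h3⟩
  · rw [him]
    have := Real.abs_sin_le_abs (x := 2 * Real.pi * t)
    linarith

/-- arcs -/
def AR (s : ℝ) : Set XC := {x | |(cc x).im| ≤ s}

lemma cc_half (x : XC) : cc (x + ((1 / 2 : ℝ) : XC)) = -cc x := by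
  unfold cc
  rw [AddCircle.toCircle_add, Circle.coe_mul, AddCircle.toCircle_apply_mk, Circle.coe_exp]
  have : ((2 * Real.pi / 1 * (1 / 2) : ℝ) : ℂ) * Complex.I = Real.pi * Complex.I := by
    push_cast; ring
  rw [this, Complex.exp_pi_mul_I]
  ring

lemma AR_le {s : ℝ} (hs : 0 ≤ s) : (AddCircle.haarAddCircle : Measure XC) (AR s) ≤
    ENNReal.ofReal s := by
  have h1 : AR s ⊆ Metric.closedBall (0 : XC) (s / 4) ∪
      (fun x => x + ((1 / 2 : ℝ) : XC)) ⁻¹' Metric.closedBall (0 : XC) (s / 4) := by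
    intro x hx
    have hx' : |(cc x).im| ≤ s := hx
    rcases le_total 0 (cc x).re with h | h
    · exact Or.inl (arc_sub s x h hx')
    · right
      show x + ((1 / 2 : ℝ) : XC) ∈ Metric.closedBall (0 : XC) (s / 4)
      refine arc_sub s _ ?_ ?_
      · rw [cc_half, Complex.neg_re]; linarith
      · rw [cc_half, Complex.neg_im, abs_neg]; exact hx'
  have h2 : (AddCircle.haarAddCircle : Measure XC) (Metric.closedBall (0 : XC) (s / 4)) ≤
      ENNReal.ofReal (s / 2) := by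
    rw [haar_eq, AddCircle.volume_closedBall]
    apply ENNReal.ofReal_le_ofReal
    refine (min_le_right _ _).trans ?_
    linarith
  refine (measure_mono h1).trans ((measure_union_le _ _).trans ?_)
  rw [measure_preimage_add_right]
  refine (add_le_add h2 h2).trans ?_
  rw [← ENNReal.ofReal_add (by positivity) (by positivity)]
  apply ENNReal.ofReal_le_ofReal
  linarith

lemma le_ball {s : ℝ} (hs1 : s ≤ 1) : ENNReal.ofReal (s / 4) ≤
    (AddCircle.haarAddCircle : Measure XC) (Metric.closedBall (0 : XC) (s / 8)) := by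
  rw [haar_eq, AddCircle.volume_closedBall]
  apply ENNReal.ofReal_le_ofReal
  rw [le_min_iff]
  constructor <;> linarith

/-! ### Compact sets -/

lemma compact_Om (R : ℝ) : IsCompact (Om R) := by
  have h1 : IsCompact {m : Matrix (Fin 2) (Fin 2) ℝ | ∀ i j, |m i j| ≤ R} := by
    have h2 : IsCompact (Set.univ.pi fun _ : Fin 2 => Set.univ.pi fun _ : Fin 2 => Icc (-R) R) :=
      isCompact_univ_pi fun _ => isCompact_univ_pi fun _ => isCompact_Icc
    have h3 : {m : Matrix (Fin 2) (Fin 2) ℝ | ∀ i j, |m i j| ≤ R} =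
        (Set.univ.pi fun _ : Fin 2 => Set.univ.pi fun _ : Fin 2 => Icc (-R) R) := by
      ext m
      constructor
      · intro hm i _ j _
        exact abs_le.1 (hm i j)
      · intro hm i j
        exact abs_le.2 (hm i (mem_univ i) j (mem_univ j))
    rw [h3]
    exact h2
  exact Matrix.SpecialLinearGroup.isClosedEmbedding_val.isCompact_preimage h1

/-! ### The upper bound -/

/-- the normalised tubes -/
def Y0 (A v : ℝ) : Set G := {g | |g 0 1| ≤ v ∧ |g 1 0| ≤ v ∧ |g 0 0| ≤ A ∧ 1 / A ≤ |g 1 1| ∧ |g 1 1| ≤ A}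

lemma meas_Y0 (A v : ℝ) : MeasurableSet (Y0 A v) := by
  have h : ∀ i j : Fin 2, Measurable fun g : G => |g i j| := fun i j =>
    (continuous_entry i j).abs.measurable
  refine ((measurableSet_le (h 0 1) measurable_const).inter
    ((measurableSet_le (h 1 0) measurable_const).inter
      ((measurableSet_le (h 0 0) measurable_const).inter
        ((measurableSet_le measurable_const (h 1 1)).inter
          (measurableSet_le (h 1 1) measurable_const)))))

lemma Y0_sub {A v : ℝ} (hA : 1 ≤ A) (hv : 0 < v) (hv1 : v ≤ 1) :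
    Sct ⁻¹' (Y0 A v) ⊆ RH (2 * A ^ 3 * v) (1 / (2 * A ^ 2)) (A ^ 2) ×ˢ AR (A * v) := by
  rintro ⟨z, x⟩ hp
  obtain ⟨h01, h10, h00, h11, h11'⟩ := (hp : Sct (z, x) ∈ Y0 A v)
  have hy : 0 < z.im := z.im_pos
  set y := z.im with hydef
  have hsy : 0 < √y := Real.sqrt_pos.2 hy
  have hsq : √y ^ 2 = y := Real.sq_sqrt hy.le
  have hcs := cc_normSq x
  set g := Sct (z, x) with hg
  have e00 : g 0 0 = √y * (cc x).re - z.re / √y * (cc x).im := Sct_00 z x
  have e01 : g 0 1 = √y * (cc x).im + z.re / √y * (cc x).re := Sct_01 z x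
  have e10 : g 1 0 = -((cc x).im / √y) := Sct_10 z x
  have e11 : g 1 1 = (cc x).re / √y := Sct_11 z x
  have k1 : y * (g 1 0 ^ 2 + g 1 1 ^ 2) = 1 := by
    rw [e10, e11, ← hcs]
    rw [neg_sq, div_pow, div_pow, hsq]
    field_simp
    ring
  have k2 : z.re = y * (g 0 1 * g 1 1 + g 0 0 * g 1 0) := by
    rw [e00, e01, e10, e11]
    have : (√y * (cc x).im + z.re / √y * (cc x).re) * ((cc x).re / √y) +
        (√y * (cc x).re - z.re / √y * (cc x).im) * -((cc x).im / √y) =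
        z.re * ((cc x).re ^ 2 + (cc x).im ^ 2) / √y ^ 2 := by
      field_simp
      ring
    rw [this, hcs, hsq]
    field_simp
  have k3 : (cc x).im = -(g 1 0 * √y) := by
    rw [e10]
    field_simp
  have hA0 : 0 < A := by linarith
  have l1 : 1 / A ^ 2 ≤ g 1 1 ^ 2 := by
    have := pow_le_pow_left₀ (by positivity : 0 ≤ 1 / A) h11 2
    rw [sq_abs, div_pow, one_pow] at this
    exact this
  have l2 : g 1 1 ^ 2 ≤ A ^ 2 := by
    have := pow_le_pow_left₀ (abs_nonneg _) h11' 2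
    rwa [sq_abs] at this
  have l3 : g 1 0 ^ 2 ≤ A ^ 2 := by
    have := pow_le_pow_left₀ (abs_nonneg _) (h10.trans (hv1.trans hA)) 2
    rwa [sq_abs] at this
  have hyA : y ≤ A ^ 2 := by
    have h1 : y * (1 / A ^ 2) ≤ 1 :=
      (mul_le_mul_of_nonneg_left (by nlinarith [sq_nonneg (g 1 0)]) hy.le).trans k1.le
    rw [mul_one_div, div_le_one (by positivity)] at h1
    exact h1
  have hyA' : 1 / (2 * A ^ 2) ≤ y := by
    rw [div_le_iff₀ (by positivity)]
    have h1 : y * (g 1 0 ^ 2 + g 1 1 ^ 2) ≤ y * (2 * A ^ 2) :=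
      mul_le_mul_of_nonneg_left (by linarith) hy.le
    linarith
  have hsyA : √y ≤ A := by
    rw [Real.sqrt_le_left hA0.le]
    exact hyA
  refine ⟨⟨?_, hyA', hyA⟩, ?_⟩
  · show |z.re| ≤ 2 * A ^ 3 * v
    rw [k2, abs_mul, abs_of_pos hy]
    have h1 : |g 0 1 * g 1 1 + g 0 0 * g 1 0| ≤ 2 * A * v := by
      refine (abs_add_le _ _).trans ?_
      rw [abs_mul, abs_mul]
      have a1 : |g 0 1| * |g 1 1| ≤ v * A := mul_le_mul h01 h11' (abs_nonneg _) hv.le
      have a2 : |g 0 0| * |g 1 0| ≤ A * v := mul_le_mul h00 h10 (abs_nonneg _) hA0.le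
      linarith
    calc y * |g 0 1 * g 1 1 + g 0 0 * g 1 0| ≤ A ^ 2 * (2 * A * v) :=
          mul_le_mul hyA h1 (abs_nonneg _) (by positivity)
      _ = 2 * A ^ 3 * v := by ring
  · show |(cc x).im| ≤ A * v
    rw [k3, abs_neg, abs_mul, abs_of_pos hsy]
    calc |g 1 0| * √y ≤ v * A := mul_le_mul h10 hsyA hsy.le hv.le
      _ = A * v := by ring

lemma nu_apply {S : Set G} (hS : MeasurableSet S) : nu S = m0 (Sct ⁻¹' S) := by
  unfold nu
  rw [Measure.map_apply continuous_Sct.measurable hS]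

lemma Y0_le {A v : ℝ} (hA : 1 ≤ A) (hv : 0 < v) (hv1 : v ≤ 1) :
    nu (Y0 A v) ≤ ENNReal.ofReal (16 * A ^ 10 * v ^ 2) := by
  have hA0 : 0 < A := by linarith
  have h12 : 1 / (2 * A ^ 2) ≤ A ^ 2 := by
    rw [div_le_iff₀ (by positivity)]
    nlinarith [one_le_pow₀ hA (n := 2)]
  rw [nu_apply (meas_Y0 A v)]
  refine (measure_mono (Y0_sub hA hv hv1)).trans ?_
  unfold m0
  rw [Measure.prod_prod]
  refine (mul_le_mul' (RH_le (by positivity) h12 (by positivity)) (AR_le (by positivity))).trans ?_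
  rw [← ENNReal.ofReal_mul (by
    have : 0 ≤ A ^ 2 - 1 / (2 * A ^ 2) := by linarith
    positivity)]
  apply ENNReal.ofReal_le_ofReal
  have h1 : 2 * (2 * A ^ 3 * v) * (A ^ 2 - 1 / (2 * A ^ 2)) / (1 / (2 * A ^ 2)) ^ 2 * (A * v) =
      16 * A ^ 10 * v ^ 2 - 16 * A ^ 8 * v ^ 2 * (1 / (2 * A ^ 2)) := by
    field_simp
    ring
  rw [h1]
  have : 0 ≤ 16 * A ^ 8 * v ^ 2 * (1 / (2 * A ^ 2)) := by positivity
  linarith

/-! ### Tubes -/

lemma entry_le {R : ℝ} {x0 x : G} (h0 : x0 ∈ Om R) (h : x ∈ Om R) (hR : 1 ≤ R) (i j : Fin 2) :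
    |(x0⁻¹ * x) i j| ≤ 2 * R ^ 2 := by
  have hR0 : 0 ≤ R := by linarith
  have key : ∀ a b c d : ℝ, |a| ≤ R → |b| ≤ R → |c| ≤ R → |d| ≤ R → |a * b + c * d| ≤ 2 * R ^ 2 := by
    intro a b c d ha hb hc hd
    refine (abs_add_le _ _).trans ?_
    rw [abs_mul, abs_mul]
    have a1 : |a| * |b| ≤ R * R := mul_le_mul ha hb (abs_nonneg _) hR0
    have a2 : |c| * |d| ≤ R * R := mul_le_mul hc hd (abs_nonneg _) hR0
    nlinarith
  have n1 : |-x0 0 1| ≤ R := by rw [abs_neg]; exact h0 0 1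
  have n2 : |-x0 1 0| ≤ R := by rw [abs_neg]; exact h0 1 0
  fin_cases i <;> fin_cases j
  · show |(x0⁻¹ * x) 0 0| ≤ _
    rw [mul_00, inv_00, inv_01]
    exact key _ _ _ _ (h0 1 1) (h 0 0) n1 (h 1 0)
  · show |(x0⁻¹ * x) 0 1| ≤ _
    rw [mul_01, inv_00, inv_01]
    exact key _ _ _ _ (h0 1 1) (h 0 1) n1 (h 1 1)
  · show |(x0⁻¹ * x) 1 0| ≤ _
    rw [mul_10, inv_10, inv_11]
    exact key _ _ _ _ n2 (h 0 0) (h0 0 0) (h 1 0)
  · show |(x0⁻¹ * x) 1 1| ≤ _
    rw [mul_11, inv_10, inv_11]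
    exact key _ _ _ _ n2 (h 0 1) (h0 0 0) (h 1 1)

/-- the conjugation formulas -/
lemma conj_eq (x0 x : G) :
    (x0⁻¹ * x) 0 0 * (x0⁻¹ * x) 0 1 = -(x0 0 1 * x0 1 1 * (xi x 0 - xi x0 0) -
      x0 0 1 ^ 2 * (xi x 2 - xi x0 2) + x0 1 1 ^ 2 * (xi x 1 - xi x0 1)) ∧
    (x0⁻¹ * x) 1 0 * (x0⁻¹ * x) 1 1 = -(x0 0 0 * x0 1 0) * (xi x 0 - xi x0 0) +
      x0 0 0 ^ 2 * (xi x 2 - xi x0 2) - x0 1 0 ^ 2 * (xi x 1 - xi x0 1) ∧
    2 * ((x0⁻¹ * x) 0 1 * (x0⁻¹ * x) 1 0) = (x0 0 0 * x0 1 1 + x0 0 1 * x0 1 0) * (xi x 0 - xi x0 0) -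
      2 * (x0 0 0 * x0 0 1) * (xi x 2 - xi x0 2) + 2 * (x0 1 0 * x0 1 1) * (xi x 1 - xi x0 1) := by
  have d0 := det_eq x0
  have d := det_eq x
  have e0 : ∀ g : G, xi g 0 = g 0 0 * g 1 1 + g 0 1 * g 1 0 := fun g => rfl
  have e1 : ∀ g : G, xi g 1 = -(g 0 0 * g 0 1) := fun g => rfl
  have e2 : ∀ g : G, xi g 2 = g 1 0 * g 1 1 := fun g => rfl
  simp only [e0, e1, e2]
  rw [mul_00, mul_01, mul_10, mul_11, inv_00, inv_01, inv_10, inv_11]
  generalize x0 0 0 = a at *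
  generalize x0 0 1 = b at *
  generalize x0 1 0 = c at *
  generalize x0 1 1 = e at *
  generalize x 0 0 = p at *
  generalize x 0 1 = q at *
  generalize x 1 0 = r at *
  generalize x 1 1 = s at *
  refine ⟨?_, ?_, ?_⟩
  · ring
  · ring
  · linear_combination (a * e - b * c) * (d0 - d)

lemma three {a b c x y z M t : ℝ} (ha : |a| ≤ M) (hb : |b| ≤ M) (hc : |c| ≤ M) (hx : |x| ≤ t)
    (hy : |y| ≤ t) (hz : |z| ≤ t) : |a * x + b * y + c * z| ≤ 3 * (M * t) := by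
  have hM : 0 ≤ M := (abs_nonneg _).trans ha
  refine (abs_add_three _ _ _).trans ?_
  rw [abs_mul, abs_mul, abs_mul]
  have h1 := mul_le_mul ha hx (abs_nonneg _) hM
  have h2 := mul_le_mul hb hy (abs_nonneg _) hM
  have h3 := mul_le_mul hc hz (abs_nonneg _) hM
  linarith

lemma tube_sub {R w : ℝ} (hR : 1 ≤ R) (hw : 0 < w) (hw1 : 24 * R ^ 4 * w ≤ 1) {ζ : Fin 3 → ℝ}
    {x0 x : G} (h0 : x0 ∈ Tb R ζ w) (h : x ∈ Tb R ζ w) :
    x0⁻¹ * x ∈ Y0 (4 * R ^ 2) (24 * R ^ 4 * w) := by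
  have hR0 : 0 < R := by linarith
  have hR2 : 1 ≤ R ^ 2 := one_le_pow₀ hR
  have hd : ∀ i, |xi x i - xi x0 i| ≤ 2 * w := by
    intro i
    have h1 := abs_le.1 (h.2 i)
    have h2 := abs_le.1 (h0.2 i)
    rw [abs_le]
    constructor <;> linarith
  have hm : ∀ i j k l : Fin 2, |x0 i j * x0 k l| ≤ R ^ 2 := by
    intro i j k l
    rw [abs_mul, pow_two]
    exact mul_le_mul (h0.1 i j) (h0.1 k l) (abs_nonneg _) hR0.le
  have hs : ∀ i j : Fin 2, |x0 i j ^ 2| ≤ R ^ 2 := by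
    intro i j
    rw [pow_two]
    exact hm i j i j
  obtain ⟨c1, c2, c3⟩ := conj_eq x0 x
  have b00 := entry_le h0.1 h.1 hR 0 0
  have b11 := entry_le h0.1 h.1 hR 1 1
  have hdet := det_eq (x0⁻¹ * x)
  generalize x0⁻¹ * x = y at *
  have k1 : |y 0 0 * y 0 1| ≤ 6 * R ^ 2 * w := by
    rw [c1, abs_neg]
    have := three (a := x0 0 1 * x0 1 1) (b := -x0 0 1 ^ 2) (c := x0 1 1 ^ 2) (hm 0 1 1 1)
      (by rw [abs_neg]; exact hs 0 1) (hs 1 1) (hd 0) (hd 2) (hd 1)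
    rw [neg_mul, ← sub_eq_add_neg] at this
    linarith
  have k2 : |y 1 0 * y 1 1| ≤ 6 * R ^ 2 * w := by
    rw [c2]
    have := three (a := -(x0 0 0 * x0 1 0)) (b := x0 0 0 ^ 2) (c := -x0 1 0 ^ 2)
      (by rw [abs_neg]; exact hm 0 0 1 0) (hs 0 0) (by rw [abs_neg]; exact hs 1 0) (hd 0) (hd 2) (hd 1)
    rw [neg_mul (x0 1 0 ^ 2), ← sub_eq_add_neg] at this
    linarith
  have k3 : |y 0 1 * y 1 0| ≤ 6 * R ^ 2 * w := by
    have h1 : |2 * (y 0 1 * y 1 0)| ≤ 3 * (2 * R ^ 2 * (2 * w)) := by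
      rw [c3]
      have := three (M := 2 * R ^ 2) (a := x0 0 0 * x0 1 1 + x0 0 1 * x0 1 0)
        (b := -(2 * (x0 0 0 * x0 0 1))) (c := 2 * (x0 1 0 * x0 1 1))
        ((abs_add_le _ _).trans (by linarith [hm 0 0 1 1, hm 0 1 1 0]))
        (by rw [abs_neg, abs_mul, abs_two]; linarith [hm 0 0 0 1])
        (by rw [abs_mul, abs_two]; linarith [hm 1 0 1 1]) (hd 0) (hd 2) (hd 1)
      rw [neg_mul, ← sub_eq_add_neg] at this
      exact this
    rw [abs_mul, abs_two] at h1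
    linarith
  have k4 : 6 * R ^ 2 * w ≤ 1 / 4 := by
    have h1 : R ^ 2 ≤ R ^ 4 := pow_le_pow_right₀ hR (by norm_num)
    have h2 : R ^ 2 * w ≤ R ^ 4 * w := mul_le_mul_of_nonneg_right h1 hw.le
    linarith
  have k5 : 1 / 2 ≤ |y 0 0| * |y 1 1| := by
    rw [← abs_mul]
    have h1 : y 0 0 * y 1 1 = 1 + y 0 1 * y 1 0 := by linarith
    rw [h1]
    have h2 := (abs_le.1 k3).1
    exact le_trans (by linarith) (le_abs_self _)
  have hA : 0 < 4 * R ^ 2 := by positivity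
  have k6 : 1 / (4 * R ^ 2) ≤ |y 1 1| := by
    rw [div_le_iff₀ hA]
    have := mul_le_mul_of_nonneg_right b00 (abs_nonneg (y 1 1))
    linarith
  have k7 : 1 / (4 * R ^ 2) ≤ |y 0 0| := by
    rw [div_le_iff₀ hA]
    have := mul_le_mul_of_nonneg_left b11 (abs_nonneg (y 0 0))
    linarith
  have k8 : ∀ u v : ℝ, 1 / (4 * R ^ 2) ≤ |u| → |u * v| ≤ 6 * R ^ 2 * w → |v| ≤ 24 * R ^ 4 * w := by
    intro u v hu huv
    rw [abs_mul] at huv
    have h1 := mul_le_mul_of_nonneg_right hu (abs_nonneg v)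
    have h2 : 1 / (4 * R ^ 2) * |v| ≤ 6 * R ^ 2 * w := h1.trans huv
    rw [one_div_mul_eq_div, div_le_iff₀ hA] at h2
    linarith
  refine ⟨k8 _ _ k7 k1, k8 _ _ k6 (by rw [mul_comm]; exact k2), by linarith, k6, by linarith⟩

lemma tube_le (hl : nu.IsMulLeftInvariant) {R w : ℝ} (hR : 1 ≤ R) (hw : 0 < w)
    (hw1 : 24 * R ^ 4 * w ≤ 1) (ζ : Fin 3 → ℝ) :
    nu (Tb R ζ w) ≤ ENNReal.ofReal (16 * (4 * R ^ 2) ^ 10 * (24 * R ^ 4) ^ 2 * w ^ 2) := by
  rcases (Tb R ζ w).eq_empty_or_nonempty with he | ⟨x0, h0⟩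
  · rw [he, measure_empty]
    exact bot_le
  · have h1 : nu (Tb R ζ w) = nu ((fun y => x0 * y) ⁻¹' Tb R ζ w) :=
      (measure_preimage_mul nu x0 (Tb R ζ w)).symm
    rw [h1]
    have h2 : (fun y => x0 * y) ⁻¹' Tb R ζ w ⊆ Y0 (4 * R ^ 2) (24 * R ^ 4 * w) := by
      intro y hy
      have h3 := tube_sub hR hw hw1 h0 (hy : x0 * y ∈ Tb R ζ w)
      rwa [inv_mul_cancel_left] at h3
    refine (measure_mono h2).trans ?_
    have hR2 : 1 ≤ R ^ 2 := one_le_pow₀ hR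
    refine (Y0_le (by linarith) (by positivity) hw1).trans ?_
    apply ENNReal.ofReal_le_ofReal
    apply le_of_eq
    ring

/-! ### The lower bound -/

lemma bt_sup {c w : ℝ} (hc : 0 < c) (hc1 : c ≤ 1 / 2) (hw : 0 < w) (hw1 : w ≤ 1) :
    RH (c * w / 8) (1 - c / 8) (1 + c / 8) ×ˢ Metric.closedBall (0 : XC) (c * w / 8 / 8) ⊆
      Sct ⁻¹' (bt c w) := by
  rintro ⟨z, x⟩ ⟨⟨hX, hy1, hy2⟩, hx⟩
  have hcw : c * w ≤ 1 / 2 := by nlinarith
  have hcw0 : 0 < c * w := mul_pos hc hw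
  obtain ⟨hre, him⟩ := sub_arc (s := c * w / 8) (by linarith) x hx
  have hX' : |z.re| ≤ c * w / 8 := hX
  have hy1' : 1 - c / 8 ≤ z.im := hy1
  have hy2' : z.im ≤ 1 + c / 8 := hy2
  have hcs := cc_normSq x
  have hy : 0 < z.im := z.im_pos
  have hsy : 0 < √z.im := Real.sqrt_pos.2 hy
  have hsq : √z.im ^ 2 = z.im := Real.sq_sqrt hy.le
  have hs1 : √z.im ≤ 1 + c / 8 := by
    by_contra h
    push Not at h
    nlinarith
  have hs2 : 1 - c / 8 ≤ √z.im := by
    by_contra h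
    push Not at h
    nlinarith
  have hs3 : 15 / 16 ≤ √z.im := by linarith
  have hs4 : √z.im ≤ 17 / 16 := by linarith
  have hre1 : (cc x).re ≤ 1 := by nlinarith [sq_nonneg (cc x).im]
  have him2 : (cc x).im ^ 2 ≤ (c * w / 8) ^ 2 := by
    rw [← sq_abs]
    exact pow_le_pow_left₀ (abs_nonneg _) him 2
  have hcw2 : (c * w / 8) ^ 2 ≤ c / 64 := by
    have : (c * w) ^ 2 ≤ c := by nlinarith
    nlinarith
  have hre2 : 1 - c / 64 ≤ (cc x).re := by nlinarith
  have hq : |z.re / √z.im| ≤ c * w / 8 * (16 / 15) := by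
    rw [abs_div, abs_of_pos hsy, div_le_iff₀ hsy]
    nlinarith
  refine ⟨?_, ?_, ?_⟩
  · show |Sct (z, x) 0 0 - 1| < c
    rw [Sct_00]
    have e : √z.im * (cc x).re - z.re / √z.im * (cc x).im - 1 =
        (√z.im - 1) * (cc x).re - (1 - (cc x).re) - z.re / √z.im * (cc x).im := by ring
    rw [e]
    have a1 : |(√z.im - 1) * (cc x).re| ≤ c / 8 := by
      rw [abs_mul, abs_of_pos hre]
      have : |√z.im - 1| ≤ c / 8 := by rw [abs_le]; constructor <;> linarith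
      nlinarith [abs_nonneg (√z.im - 1)]
    have a2 : |1 - (cc x).re| ≤ c / 64 := by rw [abs_le]; constructor <;> linarith
    have a3 : |z.re / √z.im * (cc x).im| ≤ c / 8 := by
      rw [abs_mul]
      have := mul_le_mul hq him (abs_nonneg _) (by positivity)
      nlinarith
    have t1 := abs_sub ((√z.im - 1) * (cc x).re - (1 - (cc x).re)) (z.re / √z.im * (cc x).im)
    have t2 := abs_sub ((√z.im - 1) * (cc x).re) (1 - (cc x).re)
    linarith
  · show |Sct (z, x) 0 1| < w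
    rw [Sct_01]
    have a1 : |√z.im * (cc x).im| ≤ 17 / 16 * (c * w / 8) := by
      rw [abs_mul, abs_of_pos hsy]
      exact mul_le_mul hs4 him (abs_nonneg _) (by norm_num)
    have a2 : |z.re / √z.im * (cc x).re| ≤ c * w / 8 * (16 / 15) * 1 := by
      rw [abs_mul, abs_of_pos hre]
      exact mul_le_mul hq hre1 hre.le (by positivity)
    have a3 : c * w ≤ w / 2 := by nlinarith
    have t1 := abs_add_le (√z.im * (cc x).im) (z.re / √z.im * (cc x).re)
    linarith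
  · show |Sct (z, x) 1 0| < w
    rw [Sct_10, abs_neg, abs_div, abs_of_pos hsy, div_lt_iff₀ hsy]
    have a3 : c * w ≤ w / 2 := by nlinarith
    nlinarith

lemma meas_bt (c w : ℝ) : MeasurableSet (bt c w) := by
  have h : ∀ i j : Fin 2, Measurable fun g : G => |g i j| := fun i j =>
    (continuous_entry i j).abs.measurable
  have h' : Measurable fun g : G => |g 0 0 - 1| :=
    ((continuous_entry 0 0).sub continuous_const).abs.measurable
  exact (measurableSet_lt h' measurable_const).inter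
    ((measurableSet_lt (h 0 1) measurable_const).inter (measurableSet_lt (h 1 0) measurable_const))

lemma bt_ge {c w : ℝ} (hc : 0 < c) (hc1 : c ≤ 1 / 2) (hw : 0 < w) (hw1 : w ≤ 1) :
    ENNReal.ofReal (c ^ 3 / 640 * w ^ 2) ≤ nu (bt c w) := by
  rw [nu_apply (meas_bt c w)]
  refine le_trans ?_ (measure_mono (bt_sup hc hc1 hw hw1))
  unfold m0
  rw [Measure.prod_prod]
  have hcw : c * w ≤ 1 / 2 := by nlinarith
  have hcw0 : 0 < c * w := mul_pos hc hw
  refine le_trans ?_ (mul_le_mul' (le_RH (by linarith) (by linarith) (by positivity))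
    (le_ball (s := c * w / 8) (by linarith)))
  rw [← ENNReal.ofReal_mul (by
    have : 0 ≤ 1 + c / 8 - (1 - c / 8) := by linarith
    positivity)]
  apply ENNReal.ofReal_le_ofReal
  have h1 : 2 * (c * w / 8) * (1 + c / 8 - (1 - c / 8)) / (1 + c / 8) ^ 2 * (c * w / 8 / 4) =
      c ^ 3 * w ^ 2 / 512 / (1 + c / 8) ^ 2 := by
    ring
  rw [h1, le_div_iff₀ (by positivity)]
  have h2 : (1 + c / 8) ^ 2 ≤ 5 / 4 := by nlinarith
  have h3 : 0 ≤ c ^ 3 * w ^ 2 := by positivity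
  nlinarith

end VolM

open VolM in
theorem stmtVol (h : StmtNuL) : StmtVol := by
  obtain ⟨hl, hf, -, -, -⟩ := h
  have hOm : ∀ R : ℝ, IsCompact (Om R) ∧ nu (Om R) < ⊤ := fun R =>
    ⟨compact_Om R, (compact_Om R).measure_lt_top⟩
  refine ⟨?_, ?_, hOm⟩
  · intro R hR
    have hR0 : 0 < R := by linarith
    set C1 : ℝ := 16 * (4 * R ^ 2) ^ 10 * (24 * R ^ 4) ^ 2 with hC1
    set M : ℝ := (nu (Om R)).toReal with hM
    have hC10 : 0 ≤ C1 := by positivity
    have hM0 : 0 ≤ M := ENNReal.toReal_nonneg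
    refine ⟨C1 + M * (24 * R ^ 4) ^ 2, by positivity, ?_⟩
    intro ζ w hw
    rcases le_total (24 * R ^ 4 * w) 1 with h1 | h1
    · refine (tube_le hl hR hw h1 ζ).trans ?_
      apply ENNReal.ofReal_le_ofReal
      have : 0 ≤ M * (24 * R ^ 4) ^ 2 * w ^ 2 := by positivity
      linarith
    · have h2 : nu (Tb R ζ w) ≤ nu (Om R) := measure_mono fun g hg => hg.1
      refine h2.trans ?_
      rw [← ENNReal.ofReal_toReal (hOm R).2.ne]
      apply ENNReal.ofReal_le_ofReal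
      have h3 : 1 ≤ (24 * R ^ 4 * w) ^ 2 := one_le_pow₀ h1
      have h4 : M * 1 ≤ M * (24 * R ^ 4 * w) ^ 2 := mul_le_mul_of_nonneg_left h3 hM0
      have h5 : 0 ≤ C1 * w ^ 2 := by positivity
      linarith
  · intro c hc hc1
    refine ⟨c ^ 3 / 640, by positivity, fun w hw hw1 => bt_ge hc hc1 hw hw1⟩

end

end Pool.Agent.A54.Hp
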