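import Pool.Agent.Lib.MP_a54f13_nt.Hp.SpecA
import Pool.Agent.Lib.MP_a54f13_nt.Hp.Tay

/-!
# `StmtWk`: unit times, smooth test functions

For the package `Hp`, part A (architect: helper39). Author: helper2.
-/

set_option autoImplicit false

namespace Pool.Agent.A54.Hp

open MeasureTheory Filter Topology Set
open scoped ContDiff ComplexConjugate UpperHalfPlane MatrixGroups ENNReal
open Pool.Agent.A54.Dyn (G fl base ze io mk4 dom)
open Pool.Agent.A54.Dyn.LiftM (Sct XC XX cc rot m0)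
open Pool.Agent.A54.Av (Mat NonSc)
open Pool.Agent.A54.Half (H0)
open Pool.Agent.A54.Sq (la TestP Tow Up)

noncomputable section

namespace WkM

/-! ### Sums -/

lemma summ : Summable fun j : ℤ => 1 / (1 + |(j : ℝ)|) ^ 2 := by
  have h : Summable fun n : ℕ => 1 / (1 + (n : ℝ)) ^ 2 := by
    have h1 := (summable_nat_add_iff 1).2 (Real.summable_one_div_nat_pow.2 one_lt_two)
    refine h1.congr fun n => ?_
    push_cast
    rw [add_comm (n : ℝ) 1]
  refine Summable.of_nat_of_neg ?_ ?_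
  · refine h.congr fun n => ?_
    rw [Int.cast_natCast, abs_of_nonneg (Nat.cast_nonneg n)]
  · refine h.congr fun n => ?_
    rw [Int.cast_neg, Int.cast_natCast, abs_neg, abs_of_nonneg (Nat.cast_nonneg n)]

/-- `∑ 1 / (1 + |j|)²` -/
def SZ : ℝ := ∑' j : ℤ, 1 / (1 + |(j : ℝ)|) ^ 2

lemma SZ_nonneg : 0 ≤ SZ := tsum_nonneg fun j => by positivity

lemma sum_le (R : Finset ℤ) : ∑ j ∈ R, |(j : ℝ)| / (1 + |(j : ℝ)|) ^ 3 ≤ SZ := by
  refine (Finset.sum_le_sum fun j _ => ?_).trans (summ.sum_le_tsum R fun j _ => by positivity)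
  have h0 := abs_nonneg (j : ℝ)
  rw [div_le_div_iff₀ (by positivity) (by positivity)]
  calc |(j : ℝ)| * (1 + |(j : ℝ)|) ^ 2 ≤ (1 + |(j : ℝ)|) * (1 + |(j : ℝ)|) ^ 2 := by
        gcongr
        linarith
    _ = 1 * (1 + |(j : ℝ)|) ^ 3 := by ring

lemma dbl (b c : ℤ → ℝ) (S : Finset ℤ) (E : ℝ) (hE : 0 ≤ E)
    (h : ∀ (j : ℤ) (S : Finset ℤ), ∑ n ∈ S, |b n * c (n + j) - b (n + j) * c n| ≤ E * |(j : ℝ)|) :
    ∑ m ∈ S, ∑ n ∈ S, |b m * c n - b n * c m| / (1 + |((n - m : ℤ) : ℝ)|) ^ 3 ≤ E * SZ := by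
  classical
  set R : Finset ℤ := S.biUnion fun m => S.image fun n => n - m with hR
  calc ∑ m ∈ S, ∑ n ∈ S, |b m * c n - b n * c m| / (1 + |((n - m : ℤ) : ℝ)|) ^ 3
      = ∑ m ∈ S, ∑ j ∈ S.image (fun n => n - m),
          |b m * c (m + j) - b (m + j) * c m| / (1 + |(j : ℝ)|) ^ 3 := by
        refine Finset.sum_congr rfl fun m _ => ?_
        rw [Finset.sum_image (fun x _ y _ hxy => by simpa using hxy)]
        refine Finset.sum_congr rfl fun n _ => ?_
        rw [add_sub_cancel]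
    _ ≤ ∑ m ∈ S, ∑ j ∈ R, |b m * c (m + j) - b (m + j) * c m| / (1 + |(j : ℝ)|) ^ 3 := by
        refine Finset.sum_le_sum fun m hm => ?_
        exact Finset.sum_le_sum_of_subset_of_nonneg
          (Finset.subset_biUnion_of_mem (fun m => S.image fun n => n - m) hm)
          fun j _ _ => by positivity
    _ = ∑ j ∈ R, (∑ m ∈ S, |b m * c (m + j) - b (m + j) * c m|) / (1 + |(j : ℝ)|) ^ 3 := by
        rw [Finset.sum_comm]
        refine Finset.sum_congr rfl fun j _ => ?_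
        rw [Finset.sum_div]
    _ ≤ ∑ j ∈ R, E * (|(j : ℝ)| / (1 + |(j : ℝ)|) ^ 3) := by
        refine Finset.sum_le_sum fun j _ => ?_
        rw [← mul_div_assoc]
        gcongr
        exact h j S
    _ ≤ E * SZ := by
        rw [← Finset.mul_sum]
        exact mul_le_mul_of_nonneg_left (sum_le R) hE

/-! ### Integrals over the group -/

lemma Ff_Sct (f : ℍ → ℝ) (t : ℝ) (n : ℤ) (z : ℍ) (x : XC) :
    Ff f t n (Sct (z, x)) = cc x ^ (2 * n) * Gf f t n (z : ℂ) := by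
  unfold Ff
  rw [Dyn.LiftM.base_Sct, Dyn.LiftM.ze_Sct, zpow_mul]
  rfl

lemma isCompact_K {K₀ : Set ℂ} (hK : IsCompact K₀) (hK0 : K₀ ⊆ H0) (s : ℝ) :
    IsCompact {g : G | ((base (g * fl s) : ℍ) : ℂ) ∈ K₀} := by
  have h1 : IsCompact (base ⁻¹' ((fun z : ℍ => (z : ℂ)) ⁻¹' K₀)) :=
    Dyn.isCompact_base (Half2.isCompact_pre hK hK0)
  have h2 := (Homeomorph.mulRight (fl s)).isClosedEmbedding.isCompact_preimage h1
  exact h2

lemma hcs {K₀ : Set ℂ} (hK : IsCompact K₀) (hK0 : K₀ ⊆ H0) {h : ℂ → ℝ} (hs : tsupport h ⊆ K₀)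
    (s : ℝ) {E : Type*} [Zero E] (F : G → E)
    (hF : ∀ g, h (base (g * fl s) : ℂ) = 0 → F g = 0) : HasCompactSupport F := by
  refine HasCompactSupport.intro (isCompact_K hK hK0 s) fun g hg => hF g ?_
  refine image_eq_zero_of_notMem_tsupport fun h1 => hg (hs h1)

lemma cont_base (s : ℝ) : Continuous fun g : G => ((base (g * fl s) : ℍ) : ℂ) :=
  UpperHalfPlane.continuous_coe.comp (Dyn.continuous_base.comp (continuous_mul_const (fl s)))

section coef

variable {K₀ : Set ℂ} (hK : IsCompact K₀) (hK0 : K₀ ⊆ H0) {K₁ : Set ℍ} {C₁ C₂ A : ℝ}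
  (hK₁ : IsCompact K₁) (hC₁ : 0 ≤ C₁) (hC₂ : 0 ≤ C₂) (hA : 0 ≤ A) {h : ℂ → ℝ} (hh : Continuous h)
  (hs : tsupport h ⊆ K₀) {s : ℝ}
  (hKf : ∀ (z : ℍ) (j : ℤ), (z ∉ K₁ → ∀ x : XC, h (base (Sct (z, x) * fl s) : ℂ) = 0) ∧
      ‖∫ x : XC, (h (base (Sct (z, x) * fl s) : ℂ) : ℂ) * cc x ^ (2 * j) ∂AddCircle.haarAddCircle‖ ≤
        C₁ * A / (1 + |(j : ℝ)|) ^ 3)
  {f : ℍ → ℝ} {t : ℝ} (hc : ∀ n, Continuous (Ff f t n))
  (hM : ∀ n : ℤ, ∫⁻ z in K₁, ‖Gf f t n (z : ℂ)‖ₑ ^ 2 ≤ ENNReal.ofReal C₂)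

include hK hK0 hK₁ hC₁ hC₂ hA hh hs hKf hc hM

lemma coef (n m : ℤ) : ‖∫ g, (h (base (g * fl s) : ℂ) : ℂ) * (Ff f t n g * conj (Ff f t m g)) ∂nu‖ ≤
    2 * C₂ * (C₁ * A / (1 + |((n - m : ℤ) : ℝ)|) ^ 3) := by
  set c := C₁ * A / (1 + |((n - m : ℤ) : ℝ)|) ^ 3 with hcdef
  have hc0 : 0 ≤ c := by positivity
  set Q : G → ℂ := fun g => (h (base (g * fl s) : ℂ) : ℂ) * (Ff f t n g * conj (Ff f t m g)) with hQ
  have hQc : Continuous Q := by
    refine (Complex.continuous_ofReal.comp (hh.comp (cont_base s))).mul ((hc n).mul ?_)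
    exact Complex.continuous_conj.comp (hc m)
  have hQs : HasCompactSupport Q := hcs hK hK0 hs s Q fun g hg => by
    simp only [hQ, hg, Complex.ofReal_zero, zero_mul]
  have e1 : ∫ g, Q g ∂nu = ∫ p, Q (Sct p) ∂m0 := by
    unfold nu
    exact integral_map Dyn.LiftM.continuous_Sct.aemeasurable hQc.aestronglyMeasurable
  have hint : Integrable (fun p : XX => Q (Sct p)) m0 :=
    (hQc.comp Dyn.LiftM.continuous_Sct).integrable_of_hasCompactSupport (Dyn.LiftM.hcs_Sct hQs)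
  have e2 : ∫ p, Q (Sct p) ∂m0 = ∫ z : ℍ, ∫ x : XC, Q (Sct (z, x)) ∂AddCircle.haarAddCircle := by
    unfold m0 at hint ⊢
    exact integral_prod _ hint
  have e3 : ∀ z : ℍ, ∫ x : XC, Q (Sct (z, x)) ∂AddCircle.haarAddCircle =
      (Gf f t n (z : ℂ) * conj (Gf f t m (z : ℂ))) *
        ∫ x : XC, (h (base (Sct (z, x) * fl s) : ℂ) : ℂ) * cc x ^ (2 * (n - m)) ∂AddCircle.haarAddCircle := by
    intro z
    rw [← integral_const_mul]
    refine integral_congr_ae (Eventually.of_forall fun x => ?_)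
    simp only [hQ]
    rw [Ff_Sct, Ff_Sct, map_mul, map_zpow₀, Dyn.LiftM.cc_conj, inv_zpow']
    have h2 : 2 * (n - m) = 2 * n + (-(2 * m)) := by ring
    rw [h2, zpow_add₀ (Dyn.LiftM.cc_ne x)]
    ring
  have e4 : ∀ z : ℍ, ‖∫ x : XC, Q (Sct (z, x)) ∂AddCircle.haarAddCircle‖ₑ ≤
      K₁.indicator (fun z : ℍ => ENNReal.ofReal c *
        (‖Gf f t n (z : ℂ)‖ₑ ^ 2 + ‖Gf f t m (z : ℂ)‖ₑ ^ 2)) z := by
    intro z
    by_cases hz : z ∈ K₁
    · rw [Set.indicator_of_mem hz, e3, enorm_mul, enorm_mul]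
      have h1 : ‖conj (Gf f t m (z : ℂ))‖ₑ = ‖Gf f t m (z : ℂ)‖ₑ := by
        rw [← ofReal_norm, ← ofReal_norm, RCLike.norm_conj]
      rw [h1, mul_comm]
      have h2 : ‖∫ x : XC, (h (base (Sct (z, x) * fl s) : ℂ) : ℂ) * cc x ^ (2 * (n - m)) ∂AddCircle.haarAddCircle‖ₑ ≤
          ENNReal.ofReal c := by
        rw [← ofReal_norm]
        exact ENNReal.ofReal_le_ofReal (hKf z (n - m)).2
      refine mul_le_mul' h2 ?_
      rcases le_total ‖Gf f t n (z : ℂ)‖ₑ ‖Gf f t m (z : ℂ)‖ₑ with h3 | h3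
      · calc ‖Gf f t n (z : ℂ)‖ₑ * ‖Gf f t m (z : ℂ)‖ₑ
            ≤ ‖Gf f t m (z : ℂ)‖ₑ * ‖Gf f t m (z : ℂ)‖ₑ := mul_le_mul' h3 le_rfl
          _ = ‖Gf f t m (z : ℂ)‖ₑ ^ 2 := (pow_two _).symm
          _ ≤ _ := le_add_self
      · calc ‖Gf f t n (z : ℂ)‖ₑ * ‖Gf f t m (z : ℂ)‖ₑ
            ≤ ‖Gf f t n (z : ℂ)‖ₑ * ‖Gf f t n (z : ℂ)‖ₑ := mul_le_mul' le_rfl h3
          _ = ‖Gf f t n (z : ℂ)‖ₑ ^ 2 := (pow_two _).symm
          _ ≤ _ := le_self_add
    · rw [Set.indicator_of_notMem hz]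
      have h1 : ∫ x : XC, Q (Sct (z, x)) ∂AddCircle.haarAddCircle = 0 := by
        have h2 : ∀ x : XC, Q (Sct (z, x)) = 0 := fun x => by
          simp only [hQ, (hKf z 0).1 hz x, Complex.ofReal_zero, zero_mul]
        simp only [h2, integral_zero]
      rw [h1, enorm_zero]
  have hmG : ∀ k : ℤ, Measurable fun z : ℍ => ‖Gf f t k (z : ℂ)‖ₑ ^ 2 := by
    intro k
    have h1 : (fun z : ℍ => ‖Gf f t k (z : ℂ)‖ₑ ^ 2) = fun z : ℍ => ‖Ff f t k (Sct (z, 0))‖ₑ ^ 2 := by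
      funext z
      rw [Ff_Sct]
      have h2 : cc 0 = 1 := by
        unfold cc
        rw [AddCircle.toCircle_zero]
        rfl
      rw [h2, one_zpow, one_mul]
    rw [h1]
    exact ((hc k).comp (Dyn.LiftM.continuous_Sct.comp (by fun_prop))).measurable.enorm.pow_const 2
  have e5 : ‖∫ g, Q g ∂nu‖ₑ ≤ ENNReal.ofReal (2 * C₂ * c) := by
    rw [e1, e2]
    calc ‖∫ z : ℍ, ∫ x : XC, Q (Sct (z, x)) ∂AddCircle.haarAddCircle‖ₑ
        ≤ ∫⁻ z : ℍ, ‖∫ x : XC, Q (Sct (z, x)) ∂AddCircle.haarAddCircle‖ₑ :=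
          enorm_integral_le_lintegral_enorm _
      _ ≤ ∫⁻ z : ℍ, K₁.indicator (fun z : ℍ => ENNReal.ofReal c *
            (‖Gf f t n (z : ℂ)‖ₑ ^ 2 + ‖Gf f t m (z : ℂ)‖ₑ ^ 2)) z := lintegral_mono e4
      _ = ENNReal.ofReal c * ((∫⁻ z in K₁, ‖Gf f t n (z : ℂ)‖ₑ ^ 2) +
            ∫⁻ z in K₁, ‖Gf f t m (z : ℂ)‖ₑ ^ 2) := by
          have hm2 : Measurable fun z : ℍ => ‖Gf f t n (z : ℂ)‖ₑ ^ 2 + ‖Gf f t m (z : ℂ)‖ₑ ^ 2 :=
            (hmG n).add (hmG m)
          rw [lintegral_indicator hK₁.measurableSet, lintegral_const_mul _ hm2,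
            lintegral_add_left (hmG n)]
      _ ≤ ENNReal.ofReal c * (ENNReal.ofReal C₂ + ENNReal.ofReal C₂) :=
          mul_le_mul' le_rfl (add_le_add (hM n) (hM m))
      _ = ENNReal.ofReal (2 * C₂ * c) := by
          rw [← ENNReal.ofReal_add hC₂ hC₂, ← ENNReal.ofReal_mul hc0]
          congr 1
          ring
  rw [← ofReal_norm] at e5
  exact (ENNReal.ofReal_le_ofReal_iff (by positivity)).1 e5

/-- the quadratic form -/
lemma quad [IsFiniteMeasureOnCompacts nu] (N' : ℕ) (b c : ℤ → ℝ) (E : ℝ) (hE : 0 ≤ E)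
    (hbc : ∀ (j : ℤ) (S : Finset ℤ), ∑ n ∈ S, |b n * c (n + j) - b (n + j) * c n| ≤ E * |(j : ℝ)|) :
    ‖∫ g, (h (base (g * fl s) : ℂ) : ℂ) * (conj (Pb f t N' b g) * Pb f t N' c g -
      conj (conj (Pb f t N' b g) * Pb f t N' c g)) ∂nu‖ ≤ 2 * C₂ * (C₁ * A) * (E * SZ) := by
  set S := Finset.Icc (-(N' : ℤ)) N' with hS
  have e0 : ∀ g, (h (base (g * fl s) : ℂ) : ℂ) * (conj (Pb f t N' b g) * Pb f t N' c g -
      conj (conj (Pb f t N' b g) * Pb f t N' c g)) = ∑ m ∈ S, ∑ n ∈ S,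
        ((-Complex.I) ^ (n - m) * ((b m * c n - b n * c m : ℝ) : ℂ)) *
          ((h (base (g * fl s) : ℂ) : ℂ) * (Ff f t n g * conj (Ff f t m g))) := by
    intro g
    have hI : conj (-Complex.I) = (-Complex.I)⁻¹ := by
      rw [map_neg, Complex.conj_I, inv_neg, Complex.inv_I]
    have e1 : conj (Pb f t N' b g) * Pb f t N' c g = ∑ m ∈ S, ∑ n ∈ S,
        ((-Complex.I) ^ (n - m) * ((b m * c n : ℝ) : ℂ)) * (Ff f t n g * conj (Ff f t m g)) := by
      rw [TayM.Pb_apply, TayM.Pb_apply, map_sum, Finset.sum_mul_sum]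
      refine Finset.sum_congr rfl fun m _ => Finset.sum_congr rfl fun n _ => ?_
      rw [map_mul, map_mul, map_zpow₀, hI, Complex.conj_ofReal, inv_zpow',
        sub_eq_add_neg n m, zpow_add₀ (neg_ne_zero.2 Complex.I_ne_zero)]
      push_cast
      ring
    have e2 : conj (conj (Pb f t N' b g) * Pb f t N' c g) = ∑ m ∈ S, ∑ n ∈ S,
        ((-Complex.I) ^ (n - m) * ((b n * c m : ℝ) : ℂ)) * (Ff f t n g * conj (Ff f t m g)) := by
      rw [map_mul, Complex.conj_conj, mul_comm, TayM.Pb_apply, TayM.Pb_apply, map_sum,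
        Finset.sum_mul_sum]
      refine Finset.sum_congr rfl fun m _ => Finset.sum_congr rfl fun n _ => ?_
      rw [map_mul, map_mul, map_zpow₀, hI, Complex.conj_ofReal, inv_zpow',
        sub_eq_add_neg n m, zpow_add₀ (neg_ne_zero.2 Complex.I_ne_zero)]
      push_cast
      ring
    rw [e2, e1, ← Finset.sum_sub_distrib, Finset.mul_sum]
    refine Finset.sum_congr rfl fun m _ => ?_
    rw [← Finset.sum_sub_distrib, Finset.mul_sum]
    refine Finset.sum_congr rfl fun n _ => ?_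
    push_cast
    ring
  have hi : ∀ n m : ℤ, Integrable (fun g : G => (h (base (g * fl s) : ℂ) : ℂ) *
      (Ff f t n g * conj (Ff f t m g))) nu := by
    intro n m
    have hQc : Continuous (fun g : G => (h (base (g * fl s) : ℂ) : ℂ) *
        (Ff f t n g * conj (Ff f t m g))) := by
      refine (Complex.continuous_ofReal.comp (hh.comp (cont_base s))).mul ((hc n).mul ?_)
      exact Complex.continuous_conj.comp (hc m)
    exact hQc.integrable_of_hasCompactSupport (hcs hK hK0 hs s _ fun g hg => by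
      simp only [hg, Complex.ofReal_zero, zero_mul])
  simp_rw [e0]
  rw [integral_finsetSum _ fun m _ => integrable_finsetSum _ fun n _ => (hi n m).const_mul _]
  calc ‖∑ m ∈ S, ∫ g, ∑ n ∈ S, ((-Complex.I) ^ (n - m) * ((b m * c n - b n * c m : ℝ) : ℂ)) *
          ((h (base (g * fl s) : ℂ) : ℂ) * (Ff f t n g * conj (Ff f t m g))) ∂nu‖
      ≤ ∑ m ∈ S, ‖∫ g, ∑ n ∈ S, ((-Complex.I) ^ (n - m) * ((b m * c n - b n * c m : ℝ) : ℂ)) *
          ((h (base (g * fl s) : ℂ) : ℂ) * (Ff f t n g * conj (Ff f t m g))) ∂nu‖ :=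
        norm_sum_le _ _
    _ ≤ ∑ m ∈ S, ∑ n ∈ S, |b m * c n - b n * c m| *
          (2 * C₂ * (C₁ * A / (1 + |((n - m : ℤ) : ℝ)|) ^ 3)) := by
        refine Finset.sum_le_sum fun m _ => ?_
        rw [integral_finsetSum _ fun n _ => (hi n m).const_mul _]
        refine (norm_sum_le _ _).trans (Finset.sum_le_sum fun n _ => ?_)
        rw [integral_const_mul, norm_mul, norm_mul, norm_zpow, norm_neg, Complex.norm_I, one_zpow,
          one_mul, Complex.norm_real, Real.norm_eq_abs]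
        exact mul_le_mul_of_nonneg_left
          (coef hK hK0 hK₁ hC₁ hC₂ hA hh hs hKf hc hM n m) (abs_nonneg _)
    _ = 2 * C₂ * (C₁ * A) * ∑ m ∈ S, ∑ n ∈ S,
          |b m * c n - b n * c m| / (1 + |((n - m : ℤ) : ℝ)|) ^ 3 := by
        rw [Finset.mul_sum]
        refine Finset.sum_congr rfl fun m _ => ?_
        rw [Finset.mul_sum]
        refine Finset.sum_congr rfl fun n _ => ?_
        ring
    _ ≤ 2 * C₂ * (C₁ * A) * (E * SZ) :=
        mul_le_mul_of_nonneg_left (dbl b c S E hE hbc) (by positivity)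

end coef

/-! ### The derivative -/

lemma cont_Pb {f : ℍ → ℝ} {t : ℝ} (hc : ∀ n, Continuous (Ff f t n)) (N : ℕ) (b : ℤ → ℝ) :
    Continuous (Pb f t N b) := by
  unfold Pb Ph
  exact continuous_finsetSum _ fun n _ => continuous_const.mul (hc n)

lemma Pb_ext (f : ℍ → ℝ) (t : ℝ) (N : ℕ) (b : ℤ → ℝ) (hb : ∀ n : ℤ, (N : ℤ) < |n| → b n = 0)
    (g : G) : Pb f t (N + 1) b g = Pb f t N b g := by
  rw [TayM.Pb_apply, TayM.Pb_apply]
  symm
  refine Finset.sum_subset ?_ ?_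
  · intro n hn
    rw [Finset.mem_Icc] at hn ⊢
    push_cast
    omega
  · intro n _ hn
    have h1 : b n = 0 := hb n (by
      rw [Finset.mem_Icc, not_and_or, not_le, not_le] at hn
      rcases abs_cases n with h | h <;> omega)
    rw [h1, Complex.ofReal_zero, mul_zero, zero_mul]

/-- the square of the norm along the flow -/
lemma sq_deriv (hFl : StmtFlD) {f : ℍ → ℝ} {t : ℝ} (hf : IsHeckeMaass f t) {N : ℕ}
    {b : ℤ → ℝ} (hb : ∀ n : ℤ, (N : ℤ) < |n| → b n = 0) (g : G) (x : ℝ) :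
    HasDerivAt (fun x : ℝ => ‖Pb f t (N + 1) b (g * fl (-x))‖ ^ 2)
      (2 * (conj (Pb f t (N + 1) b (g * fl (-x))) * Pb f t (N + 1) (TT t b) (g * fl (-x))).im) x := by
  have h1 := TayM.Pb_deriv hFl hf (le_refl (N + 1)) hb g (-x)
  have h2 := (h1.scomp x (hasDerivAt_neg x)).norm_sq
  have h3 : 2 * inner ℝ (Pb f t (N + 1) b (g * fl (-x)))
      ((-1 : ℝ) • (Complex.I * (Pb f t (N + 1) (TT t b) (g * fl (-x)) +
        (t : ℂ) * Pb f t (N + 1) b (g * fl (-x))))) =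
      2 * (conj (Pb f t (N + 1) b (g * fl (-x))) * Pb f t (N + 1) (TT t b) (g * fl (-x))).im := by
    generalize Pb f t (N + 1) b (g * fl (-x)) = u
    generalize Pb f t (N + 1) (TT t b) (g * fl (-x)) = v
    rw [Complex.inner]
    simp only [Complex.mul_re, Complex.mul_im, Complex.conj_re, Complex.conj_im, Complex.add_re,
      Complex.add_im, Complex.ofReal_re, Complex.ofReal_im, Complex.I_re, Complex.I_im,
      Complex.real_smul, Complex.ofReal_neg, Complex.ofReal_one, Complex.neg_re, Complex.neg_im,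
      Complex.one_re, Complex.one_im]
    ring
  rw [← h3]
  exact h2

/-- differentiation under the integral sign -/
lemma int_deriv [IsFiniteMeasureOnCompacts nu] {K₀ : Set ℂ} (hK : IsCompact K₀) (hK0 : K₀ ⊆ H0)
    {h : ℂ → ℝ} (hh : Continuous h) (hs : tsupport h ⊆ K₀) (U V : G → ℂ) (hU : Continuous U)
    (hV : Continuous V)
    (hd : ∀ g x, HasDerivAt (fun x : ℝ => ‖U (g * fl (-x))‖ ^ 2)
      (2 * (conj (U (g * fl (-x))) * V (g * fl (-x))).im) x) (x : ℝ) (hx : x ∈ Icc (-1 : ℝ) 1) :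
    HasDerivAt (fun x : ℝ => ∫ g, h (base g : ℂ) * ‖U (g * fl (-x))‖ ^ 2 ∂nu)
      (∫ g, h (base g : ℂ) * (2 * (conj (U (g * fl (-x))) * V (g * fl (-x))).im) ∂nu) x := by
  have hbase : Continuous fun g : G => h (base g : ℂ) :=
    hh.comp (UpperHalfPlane.continuous_coe.comp Dyn.continuous_base)
  have hcF' : Continuous fun p : ℝ × G => h (base p.2 : ℂ) *
      (2 * (conj (U (p.2 * fl (-p.1))) * V (p.2 * fl (-p.1))).im) := by
    have hm : Continuous fun p : ℝ × G => p.2 * fl (-p.1) :=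
      continuous_snd.mul (Dyn.continuous_fl.comp continuous_fst.neg)
    refine (hbase.comp continuous_snd).mul (continuous_const.mul (Complex.continuous_im.comp ?_))
    exact (Complex.continuous_conj.comp (hU.comp hm)).mul (hV.comp hm)
  set KG : Set G := {g : G | ((base (g * fl 0) : ℍ) : ℂ) ∈ K₀} with hKG
  have hKGc : IsCompact KG := isCompact_K hK hK0 0
  have hout : ∀ g, g ∉ KG → h (base g : ℂ) = 0 := by
    intro g hg
    refine image_eq_zero_of_notMem_tsupport fun h1 => hg ?_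
    change ((base (g * fl 0) : ℍ) : ℂ) ∈ K₀
    rw [Dyn.fl_zero, mul_one]
    exact hs h1
  have hsupp : ∀ F : G → ℝ, (∀ g, h (base g : ℂ) = 0 → F g = 0) → HasCompactSupport F := by
    intro F hF
    exact HasCompactSupport.intro hKGc fun g hg => hF g (hout g hg)
  obtain ⟨M, hM⟩ := ((isCompact_Icc (a := (-2 : ℝ)) (b := 2)).prod hKGc).exists_bound_of_continuousOn
    hcF'.continuousOn
  refine (hasDerivAt_integral_of_dominated_loc_of_deriv_le (s := Icc (-2 : ℝ) 2)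
    (bound := KG.indicator fun _ => M)
    (F := fun x g => h (base g : ℂ) * ‖U (g * fl (-x))‖ ^ 2)
    (F' := fun x g => h (base g : ℂ) * (2 * (conj (U (g * fl (-x))) * V (g * fl (-x))).im))
    (Icc_mem_nhds (by linarith [hx.1]) (by linarith [hx.2])) ?_ ?_ ?_ ?_ ?_ ?_).2
  · refine Eventually.of_forall fun y => ?_
    have h1 : Continuous fun g : G => h (base g : ℂ) * ‖U (g * fl (-y))‖ ^ 2 :=
      hbase.mul ((hU.comp (continuous_mul_const _)).norm.pow 2)
    exact h1.aestronglyMeasurable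
  · have h1 : Continuous fun g : G => h (base g : ℂ) * ‖U (g * fl (-x))‖ ^ 2 :=
      hbase.mul ((hU.comp (continuous_mul_const _)).norm.pow 2)
    exact h1.integrable_of_hasCompactSupport (hsupp _ fun g hg => by simp only [hg, zero_mul])
  · have h1 : Continuous fun g : G => h (base g : ℂ) *
        (2 * (conj (U (g * fl (-x))) * V (g * fl (-x))).im) :=
      hbase.mul (continuous_const.mul (Complex.continuous_im.comp
        ((Complex.continuous_conj.comp (hU.comp (continuous_mul_const _))).mul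
          (hV.comp (continuous_mul_const _)))))
    exact h1.aestronglyMeasurable
  · refine Eventually.of_forall fun g y hy => ?_
    by_cases hg : g ∈ KG
    · rw [Set.indicator_of_mem hg]
      exact hM (y, g) ⟨hy, hg⟩
    · rw [Set.indicator_of_notMem hg, hout g hg, zero_mul, norm_zero]
  · exact (integrable_indicator_iff hKGc.measurableSet).2
      (integrableOn_const hKGc.measure_lt_top.ne)
  · exact Eventually.of_forall fun g y _ => (hd g y).const_mul _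

end WkM

/-- unit times, smooth test functions -/
theorem stmtWk (h1 : StmtNuL) (h2 : StmtNuR) (h3 : StmtTwG) (h4 : StmtFlD) (h5 : StmtKf)
    (h6 : StmtMss) : StmtWk := by
  intro d C₀ _ _ hC₀ K₀ hK hK0
  obtain ⟨K₁, C₁, hK₁, hC₁, hKf⟩ := h5 K₀ hK hK0
  obtain ⟨C₂, hC₂, hM⟩ := h6 K₁ hK₁
  have i1 : IsFiniteMeasureOnCompacts nu := h1.2.1
  have i2 : nu.IsMulRightInvariant := h2.1
  have hSZ := WkM.SZ_nonneg
  refine ⟨2 * C₂ * C₁ * (C₀ * WkM.SZ), by positivity, ?_⟩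
  intro f t hf ht K N b hP h A hh hs hA hA3 s hs1
  have hc : ∀ n, Continuous (Ff f t n) := by
    intro n
    obtain ⟨-, -, -, -, -, -, -, -, h⟩ := h3 f t hf n
    exact h
  have ht0 : 0 < t := by linarith
  have hE : 0 ≤ C₀ * t ^ (-(1 / 2) + 3 * d) := by positivity
  have hanti : ∀ (j : ℤ) (S : Finset ℤ),
      ∑ n ∈ S, |b n * TT t b (n + j) - b (n + j) * TT t b n| ≤
        (C₀ * t ^ (-(1 / 2) + 3 * d)) * |(j : ℝ)| := fun j S =>
    (hP.anti j S).trans (le_of_eq (by ring))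
  set U := Pb f t (N + 1) b with hU
  set V := Pb f t (N + 1) (TT t b) with hV
  have hUc : Continuous U := WkM.cont_Pb hc (N + 1) b
  have hVc : Continuous V := WkM.cont_Pb hc (N + 1) (TT t b)
  have hd := WkM.sq_deriv h4 hf hP.supp
  rw [← hU, ← hV] at hd
  have hder := WkM.int_deriv hK hK0 hh.continuous hs U V hUc hVc hd
  have hbd : ∀ x ∈ Icc (-1 : ℝ) 1,
      ‖∫ g, h (base g : ℂ) * (2 * (conj (U (g * fl (-x))) * V (g * fl (-x))).im) ∂nu‖ ≤
        2 * C₂ * C₁ * (C₀ * WkM.SZ) * A * t ^ (-(1 / 2) + 3 * d) := by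
    intro x hx
    have hx1 : |x| ≤ 1 := abs_le.2 hx
    have e1 : ∫ g, h (base g : ℂ) * (2 * (conj (U (g * fl (-x))) * V (g * fl (-x))).im) ∂nu =
        ∫ g, h (base (g * fl x) : ℂ) * (2 * (conj (U g) * V g).im) ∂nu := by
      rw [← integral_mul_right_eq_self _ (fl x)]
      refine integral_congr_ae (Eventually.of_forall fun g => ?_)
      have h0 : g * fl x * fl (-x) = g := by
        rw [mul_assoc, ← Dyn.fl_add, add_neg_cancel, Dyn.fl_zero, mul_one]
      simp only [h0]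
    have e2 : ((∫ g, h (base (g * fl x) : ℂ) * (2 * (conj (U g) * V g).im) ∂nu : ℝ) : ℂ) =
        -Complex.I * ∫ g, (h (base (g * fl x) : ℂ) : ℂ) *
          (conj (U g) * V g - conj (conj (U g) * V g)) ∂nu := by
      rw [← integral_complex_ofReal, ← integral_const_mul]
      refine integral_congr_ae (Eventually.of_forall fun g => ?_)
      change ((h (base (g * fl x) : ℂ) * (2 * (conj (U g) * V g).im) : ℝ) : ℂ) =
        -Complex.I * ((h (base (g * fl x) : ℂ) : ℂ) *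
          (conj (U g) * V g - conj (conj (U g) * V g)))
      rw [Complex.sub_conj]
      push_cast
      linear_combination (2 * (h (base (g * fl x) : ℂ) : ℂ) * ((conj (U g) * V g).im : ℂ)) *
        Complex.I_mul_I
    have hq := WkM.quad hK hK0 hK₁ hC₁ hC₂ hA hh.continuous hs (s := x)
      (fun z j => hKf h A hh hs hA hA3 x hx1 z j) hc (fun n => hM f t hf n) (N + 1) b (TT t b) _ hE
      hanti
    rw [e1, ← Complex.norm_real, e2, norm_mul, norm_neg, Complex.norm_I, one_mul]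
    refine hq.trans (le_of_eq ?_)
    ring
  have hmv := Convex.norm_image_sub_le_of_norm_hasDerivWithin_le (s := Icc (-1 : ℝ) 1) (x := 0)
    (y := s) (fun x hx => (hder x hx).hasDerivWithinAt) hbd (convex_Icc _ _)
    ⟨by norm_num, by norm_num⟩ (abs_le.1 hs1)
  have eU : ∀ g, U g = Pb f t N b g := fun g => WkM.Pb_ext f t N b hP.supp g
  have eJ : ∀ x : ℝ, ∫ g, h (base g : ℂ) * ‖U (g * fl (-x))‖ ^ 2 ∂nu =
      ∫ g, h (base (g * fl x) : ℂ) * ‖Pb f t N b g‖ ^ 2 ∂nu := by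
    intro x
    rw [← integral_mul_right_eq_self _ (fl x)]
    refine integral_congr_ae (Eventually.of_forall fun g => ?_)
    have h0 : g * fl x * fl (-x) = g := by
      rw [mul_assoc, ← Dyn.fl_add, add_neg_cancel, Dyn.fl_zero, mul_one]
    simp only [h0, eU]
  simp only [eJ] at hmv
  simp only [Dyn.fl_zero, mul_one, Real.norm_eq_abs, sub_zero] at hmv
  refine hmv.trans ?_
  have hfin : 0 ≤ 2 * C₂ * C₁ * (C₀ * WkM.SZ) * A * t ^ (-(1 / 2) + 3 * d) := by positivity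
  exact (mul_le_mul_of_nonneg_left hs1 hfin).trans (le_of_eq (mul_one _))

end

end Pool.Agent.A54.Hp
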