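import Pool.Agent.Lib.MP_a54f13_nt.Hp.SpecC

/-!
# Package `Hp`, `WkV`: unit windows, smooth kernels
-/

set_option autoImplicit false

namespace Pool.Agent.A54.Hp

open MeasureTheory Filter Topology Set
open scoped ContDiff ComplexConjugate UpperHalfPlane MatrixGroups ENNReal
open Pool.Agent.A54.Dyn (G fl base ze io mk4 dom)
open Pool.Agent.A54.Dyn.LiftM (Sct XC XX cc rot m0)
open Pool.Agent.A54.Half (H0)
open Pool.Agent.A54.Sq (la TestP)

noncomputable section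

namespace WkVM

lemma uh_symm (z w : ℍ) : uh z w = uh w z := by
  unfold uh
  rw [norm_sub_rev, mul_comm z.im]

lemma hk_coe (k : ℝ → ℝ) (z w : ℍ) : hk k z (w : ℂ) = k (uh z w) := by
  have h : 0 < (w : ℂ).im := w.im_pos
  unfold hk uh
  rw [if_pos h]
  rfl

lemma cont_uh : Continuous (fun p : ℍ × ℍ => uh p.1 p.2) := by
  unfold uh
  refine Continuous.div ?_ ?_ ?_
  · exact ((UpperHalfPlane.continuous_coe.comp continuous_fst).sub
      (UpperHalfPlane.continuous_coe.comp continuous_snd)).norm.pow 2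
  · exact (UpperHalfPlane.continuous_im.comp continuous_fst).mul
      (UpperHalfPlane.continuous_im.comp continuous_snd)
  · intro p
    exact (mul_pos p.1.im_pos p.2.im_pos).ne'

lemma cont_sk (e : ℝ) : Continuous (sk e) := by
  unfold sk
  refine Continuous.div_const (Real.smoothTransition.continuous.comp ?_) _
  fun_prop

lemma sk_nonneg (hct : 0 < ct) (e u : ℝ) : 0 ≤ sk e u := by
  unfold sk
  exact div_nonneg (Real.smoothTransition.nonneg _) (by positivity)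

lemma meas_Om (R : ℝ) : MeasurableSet (Om R) := by
  have h : Om R = ⋂ i, ⋂ j, {g : G | |g i j| ≤ R} := by
    ext g
    simp [Om]
  rw [h]
  exact (isClosed_iInter fun i => isClosed_iInter fun j => isClosed_le
    (continuous_abs.comp (Dyn.continuous_entry i j)) continuous_const).measurableSet

lemma box (K : Set ℍ) (hK : IsCompact K) : ∃ R : ℝ, 1 ≤ R ∧ ∀ s : ℝ, |s| ≤ 1 → ∀ g : G,
    base (g * fl s) ∈ K → g ∈ Om R := by
  have h1 := Dyn.isCompact_base hK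
  have h2 : ∀ i j, ∃ M : ℝ, ∀ g ∈ base ⁻¹' K, |g i j| ≤ M := fun i j =>
    h1.exists_bound_of_continuousOn (Dyn.continuous_entry i j).continuousOn
  choose M hM using h2
  set B : ℝ := 1 + ∑ i, ∑ j, |M i j| with hB
  have hB1 : 1 ≤ B := by
    have : 0 ≤ ∑ i, ∑ j, |M i j| := Finset.sum_nonneg fun i _ => Finset.sum_nonneg fun j _ =>
      abs_nonneg _
    linarith
  have hMB : ∀ g ∈ base ⁻¹' K, ∀ i j, |g i j| ≤ B := by
    intro g hg i j
    have h3 : |M i j| ≤ ∑ j, |M i j| :=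
      Finset.single_le_sum (f := fun j => |M i j|) (fun j _ => abs_nonneg _) (Finset.mem_univ j)
    have h4 : ∑ j, |M i j| ≤ ∑ i, ∑ j, |M i j| :=
      Finset.single_le_sum (f := fun i => ∑ j, |M i j|)
        (fun i _ => Finset.sum_nonneg fun j _ => abs_nonneg _) (Finset.mem_univ i)
    have h5 := hM i j g hg
    have h6 := le_abs_self (M i j)
    linarith
  refine ⟨B * 3, by linarith, fun s hs g hg => ?_⟩
  have hx : g = (g * fl s) * fl (-s) := by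
    rw [mul_assoc, Dyn.fl_neg, mul_inv_cancel, mul_one]
  have h3 : ∀ x : ℝ, |x| ≤ 1 → Real.exp (x / 2) ≤ 3 := by
    intro x hx
    have h4 : x / 2 ≤ 1 := by have := (abs_le.1 hx).2; linarith
    calc Real.exp (x / 2) ≤ Real.exp 1 := Real.exp_le_exp.2 h4
      _ ≤ 3 := by have := Real.exp_one_lt_d9; linarith
  have e0 := h3 (-s) (by rwa [abs_neg])
  have e1 := h3 (- -s) (by rwa [abs_neg, abs_neg])
  have key : ∀ x y : ℝ, |x| ≤ B → 0 ≤ y → y ≤ 3 → |x * y| ≤ B * 3 := by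
    intro x y hx hy hy3
    rw [abs_mul, abs_of_nonneg hy]
    exact mul_le_mul hx hy3 hy (by linarith)
  intro i j
  rw [hx]
  fin_cases j
  · fin_cases i
    · show |((g * fl s) * fl (-s)) 0 0| ≤ B * 3
      rw [Dyn.mul_00, Dyn.fl_00, Dyn.fl_10, mul_zero, add_zero]
      exact key _ _ (hMB _ hg 0 0) (Real.exp_pos _).le e0
    · show |((g * fl s) * fl (-s)) 1 0| ≤ B * 3
      rw [Dyn.mul_10, Dyn.fl_00, Dyn.fl_10, mul_zero, add_zero]
      exact key _ _ (hMB _ hg 1 0) (Real.exp_pos _).le e0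
  · fin_cases i
    · show |((g * fl s) * fl (-s)) 0 1| ≤ B * 3
      rw [Dyn.mul_01, Dyn.fl_01, Dyn.fl_11, mul_zero, zero_add]
      exact key _ _ (hMB _ hg 0 1) (Real.exp_pos _).le e1
    · show |((g * fl s) * fl (-s)) 1 1| ≤ B * 3
      rw [Dyn.mul_11, Dyn.fl_01, Dyn.fl_11, mul_zero, zero_add]
      exact key _ _ (hMB _ hg 1 1) (Real.exp_pos _).le e1

lemma enorm_sq (x : ℂ) : ‖x‖ₑ ^ 2 = ENNReal.ofReal (‖x‖ ^ 2) := by
  rw [ENNReal.ofReal_pow (norm_nonneg _), ofReal_norm]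

/-- the mass with a test function as an integral -/
lemma mass_eq (hSti : StmtSti) (Φ : G → ℂ) (hΦ : Continuous Φ) (h : ℂ → ℝ) (hc : Continuous h)
    (h0 : ∀ z, 0 ≤ h z) (M : ℝ) (hM : ∀ z, h z ≤ M) (R : ℝ) (hfin : ms Φ (Om R) ≠ ⊤)
    (s : ℝ) (hR : ∀ g, h (base (g * fl (-s)) : ℂ) ≠ 0 → g ∈ Om R) :
    ∫⁻ z : ℍ, ENNReal.ofReal (h z) * ENNReal.ofReal (St Φ s z) =
      ENNReal.ofReal (∫ g, h (base (g * fl (-s)) : ℂ) * ‖Φ g‖ ^ 2 ∂nu) := by
  have hcb : Continuous fun g : G => h (base (g * fl (-s)) : ℂ) :=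
    hc.comp (UpperHalfPlane.continuous_coe.comp (Dyn.continuous_base.comp
      (continuous_id.mul continuous_const)))
  have hcc : Continuous fun g : G => h (base (g * fl (-s)) : ℂ) * ‖Φ g‖ ^ 2 :=
    hcb.mul (hΦ.norm.pow 2)
  have hnn : ∀ g : G, 0 ≤ h (base (g * fl (-s)) : ℂ) * ‖Φ g‖ ^ 2 := fun g =>
    mul_nonneg (h0 _) (by positivity)
  have h1 : ∀ g : G, ENNReal.ofReal (h (base (g * fl (-s)) : ℂ) * ‖Φ g‖ ^ 2) =
      ENNReal.ofReal (h (base (g * fl (-s)) : ℂ)) * ‖Φ g‖ₑ ^ 2 := fun g => by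
    rw [ENNReal.ofReal_mul (h0 _), enorm_sq]
  have hint : Integrable (fun g : G => h (base (g * fl (-s)) : ℂ) * ‖Φ g‖ ^ 2) nu := by
    refine (lintegral_ofReal_ne_top_iff_integrable hcc.aestronglyMeasurable
      (Eventually.of_forall hnn)).1 ?_
    have h2 : ∫⁻ g, ENNReal.ofReal (h (base (g * fl (-s)) : ℂ) * ‖Φ g‖ ^ 2) ∂nu ≤
        ∫⁻ g, (Om R).indicator (fun g => ENNReal.ofReal M * ‖Φ g‖ₑ ^ 2) g ∂nu := by
      refine lintegral_mono fun g => ?_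
      simp only [h1]
      by_cases h3 : g ∈ Om R
      · rw [Set.indicator_of_mem h3]
        gcongr
        exact hM _
      · have h4 : h (base (g * fl (-s)) : ℂ) = 0 := by
          by_contra h5
          exact h3 (hR g h5)
        rw [h4]
        simp
    refine ne_top_of_le_ne_top ?_ h2
    rw [lintegral_indicator (meas_Om R), lintegral_const_mul _ (by fun_prop)]
    exact ENNReal.mul_ne_top ENNReal.ofReal_ne_top hfin
  rw [ofReal_integral_eq_lintegral_ofReal hint (Eventually.of_forall hnn),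
    (hSti Φ hΦ).2.2 s (fun z => ENNReal.ofReal (h z))
      ((hc.comp UpperHalfPlane.continuous_coe).measurable.ennreal_ofReal)]
  exact lintegral_congr fun g => (h1 g).symm

/-- the mass of a compact set -/
lemma mass_le (hSti : StmtSti) (Φ : G → ℂ) (hΦ : Continuous Φ) (K : Set ℍ) (hK : MeasurableSet K)
    (R : ℝ) (s : ℝ) (hR : ∀ g, base (g * fl (-s)) ∈ K → g ∈ Om R) :
    ∫⁻ z : ℍ in K, ENNReal.ofReal (St Φ s z) ≤ ms Φ (Om R) := by
  have h1 := (hSti Φ hΦ).2.2 s (K.indicator 1) (measurable_one.indicator hK)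
  have h2 : ∫⁻ z : ℍ in K, ENNReal.ofReal (St Φ s z) =
      ∫⁻ z : ℍ, K.indicator 1 z * ENNReal.ofReal (St Φ s z) := by
    rw [← lintegral_indicator hK]
    refine lintegral_congr fun z => ?_
    by_cases h3 : z ∈ K
    · rw [Set.indicator_of_mem h3, Set.indicator_of_mem h3, Pi.one_apply, one_mul]
    · rw [Set.indicator_of_notMem h3, Set.indicator_of_notMem h3, zero_mul]
  rw [h2, h1, ms, ← lintegral_indicator (meas_Om R)]
  refine lintegral_mono fun g => ?_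
  by_cases h3 : base (g * fl (-s)) ∈ K
  · rw [Set.indicator_of_mem h3, Set.indicator_of_mem (hR g h3), Pi.one_apply, one_mul]
  · rw [Set.indicator_of_notMem h3, zero_mul]
    exact bot_le

lemma ch_cont : Continuous (ch 1) := by
  unfold ch
  fun_prop

lemma ch_nonneg (x : ℝ) : 0 ≤ ch 1 x := le_max_left _ _

lemma ch_zero (x : ℝ) (hx : 1 < |x|) : ch 1 x = 0 := by
  unfold ch
  rw [div_one, max_eq_left]
  linarith

lemma ch_int : ∫⁻ x : ℝ, ENNReal.ofReal (ch 1 x) = 1 := by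
  have h1 : ∀ x, x ∉ Set.Ioc (-1 : ℝ) 1 → ch 1 x = 0 := by
    intro x hx
    unfold ch
    rw [div_one, max_eq_left]
    by_contra h2
    push Not at h2
    have h3 := abs_lt.1 (by linarith : |x| < 1)
    exact hx ⟨h3.1, h3.2.le⟩
  have hi : IntegrableOn (ch 1) (Set.Ioc (-1 : ℝ) 1) :=
    (ch_cont.integrableOn_Icc (a := -1) (b := 1)).mono_set Set.Ioc_subset_Icc_self
  have hint : Integrable (ch 1) := by
    rw [← integrableOn_univ]
    refine (integrableOn_iff_integrable_of_support_subset ?_).1 hi |>.integrableOn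
    intro x hx
    by_contra h2
    exact hx (h1 x h2)
  rw [← ofReal_integral_eq_lintegral_ofReal hint (Eventually.of_forall ch_nonneg),
    ← setIntegral_eq_integral_of_forall_compl_eq_zero (s := Set.Ioc (-1 : ℝ) 1) h1,
    ← intervalIntegral.integral_of_le (by norm_num : (-1 : ℝ) ≤ 1),
    ← intervalIntegral.integral_add_adjacent_intervals (b := 0)
      (ch_cont.intervalIntegrable _ _) (ch_cont.intervalIntegrable _ _)]
  have h2 : ∫ x in (-1 : ℝ)..0, ch 1 x = ∫ x in (-1 : ℝ)..0, (1 + x) := by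
    refine intervalIntegral.integral_congr fun x hx => ?_
    rw [Set.uIcc_of_le (by norm_num)] at hx
    simp only [ch, div_one]
    rw [abs_of_nonpos hx.2, max_eq_right (by linarith [hx.1])]
    ring
  have h3 : ∫ x in (0 : ℝ)..1, ch 1 x = ∫ x in (0 : ℝ)..1, (1 - x) := by
    refine intervalIntegral.integral_congr fun x hx => ?_
    rw [Set.uIcc_of_le (by norm_num)] at hx
    simp only [ch, div_one]
    rw [abs_of_nonneg hx.1, max_eq_right (by linarith [hx.2])]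
  rw [h2, h3, intervalIntegral.integral_add (by simp) (by simp),
    intervalIntegral.integral_sub (by simp) (by simp)]
  simp only [intervalIntegral.integral_const, integral_id]
  norm_num

/-- comparison of the masses of `S^s` and `S` for a test function -/
lemma cmpW (hSti : StmtSti) {c C₀ : ℝ} {K₁ : Set ℂ} {CW : ℝ}
    (hW : ∀ (f : ℍ → ℝ) (t : ℝ), IsHeckeMaass f t → 1 ≤ t → ∀ (K N : ℕ) (b : ℤ → ℝ),
      Pack (c / 800) C₀ K t N b → ∀ (h : ℂ → ℝ) (A : ℝ), ContDiff ℝ ∞ h → tsupport h ⊆ K₁ → 0 ≤ A →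
      (∀ j ≤ 3, ∀ z, ‖iteratedFDeriv ℝ j h z‖ ≤ A) → ∀ s : ℝ, |s| ≤ 1 →
        |(∫ g, h (base (g * fl s) : ℂ) * ‖Pb f t N b g‖ ^ 2 ∂nu) -
          ∫ g, h (base g : ℂ) * ‖Pb f t N b g‖ ^ 2 ∂nu| ≤ CW * A * t ^ (-(1 / 2) + 3 * (c / 800)))
    {R : ℝ} (hR : ∀ s : ℝ, |s| ≤ 1 → ∀ g : G, (base (g * fl s) : ℂ) ∈ K₁ → g ∈ Om R)
    {v : ℝ → ℝ} {K : ℕ} {l : ℕ → ℝ} {f : ℍ → ℝ} {t : ℝ} {N : ℕ} {b : ℤ → ℝ}
    (hD : Dt c v C₀ K l f t N b) (hfin : ms (Pb f t N b) (Om R) ≠ ⊤)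
    (h : ℂ → ℝ) (A : ℝ) (h0 : ∀ z, 0 ≤ h z) (hs : ContDiff ℝ ∞ h) (hsup : tsupport h ⊆ K₁)
    (hA : 0 ≤ A) (hAj : ∀ j ≤ 3, ∀ z, ‖iteratedFDeriv ℝ j h z‖ ≤ A) (s : ℝ) (hs1 : |s| ≤ 1) :
    (∫⁻ z : ℍ, ENNReal.ofReal (h z) * ENNReal.ofReal (St (Pb f t N b) s z) ≤
      (∫⁻ z : ℍ, ENNReal.ofReal (h z) * ENNReal.ofReal (St (Pb f t N b) 0 z)) +
        ENNReal.ofReal (CW * A * t ^ (-(1 / 2) + 3 * (c / 800)))) ∧
    (∫⁻ z : ℍ, ENNReal.ofReal (h z) * ENNReal.ofReal (St (Pb f t N b) 0 z) ≤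
      (∫⁻ z : ℍ, ENNReal.ofReal (h z) * ENNReal.ofReal (St (Pb f t N b) s z)) +
        ENNReal.ofReal (CW * A * t ^ (-(1 / 2) + 3 * (c / 800)))) := by
  have hM : ∀ z, h z ≤ A := by
    intro z
    have h1 := hAj 0 (by norm_num) z
    rw [norm_iteratedFDeriv_zero, Real.norm_eq_abs] at h1
    exact (le_abs_self _).trans h1
  have hR' : ∀ s : ℝ, |s| ≤ 1 → ∀ g : G, h (base (g * fl (-s)) : ℂ) ≠ 0 → g ∈ Om R := by
    intro s hs g hg
    exact hR (-s) (by rwa [abs_neg]) g (hsup (subset_tsupport h hg))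
  have h1 := mass_eq hSti (Pb f t N b) hD.he.cont h hs.continuous h0 A hM R hfin s (hR' s hs1)
  have h2 := mass_eq hSti (Pb f t N b) hD.he.cont h hs.continuous h0 A hM R hfin 0
    (hR' 0 (by norm_num))
  have h3 := hW f t hD.hm hD.one_le K N b hD.pack h A hs hsup hA hAj (-s) (by rwa [abs_neg])
  simp only [neg_zero, Dyn.fl_zero, mul_one] at h2
  rw [h1, h2]
  have h4 := abs_le.1 h3
  constructor
  · refine (ENNReal.ofReal_le_ofReal ?_).trans ENNReal.ofReal_add_le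
    linarith [h4.2]
  · refine (ENNReal.ofReal_le_ofReal ?_).trans ENNReal.ofReal_add_le
    linarith [h4.1]

lemma step (a : ℍ → ℝ≥0∞) (ha : Measurable a) (I J : ℍ → ℝ≥0∞) (E : ℝ≥0∞)
    (h : ∀ z, a z ≠ 0 → I z ≤ J z + E) :
    ∫⁻ z, a z * I z ≤ (∫⁻ z, a z * J z) + (∫⁻ z, a z) * E := by
  rw [← lintegral_mul_const E ha, ← lintegral_add_right _ (ha.mul_const E)]
  refine lintegral_mono fun z => ?_
  by_cases h1 : a z = 0
  · simp [h1]
  · rw [← mul_add]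
    exact mul_le_mul_right (h z h1) _

lemma V2_eq1 (φ : ℂ → ℝ) (hφ0 : ∀ z, 0 ≤ φ z) (k : ℝ → ℝ) (hkc : Continuous k)
    (hk0 : ∀ u, 0 ≤ k u) (S S' : ℍ → ℝ) (hS0 : ∀ z, 0 ≤ S z) (hS' : Continuous S') :
    V2 φ k S S' = ∫⁻ z : ℍ, (ENNReal.ofReal (φ z) * ENNReal.ofReal (S z)) *
      ∫⁻ w : ℍ, ENNReal.ofReal (k (uh z w)) * ENNReal.ofReal (S' w) := by
  unfold V2
  refine lintegral_congr fun z => ?_
  have hkm : Measurable fun w : ℍ => ENNReal.ofReal (k (uh z w)) :=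
    (hkc.comp (cont_uh.comp (Continuous.prodMk_right z))).measurable.ennreal_ofReal
  have hkm2 : Measurable fun w : ℍ =>
      ENNReal.ofReal (k (uh z w)) * ENNReal.ofReal (S' w) := hkm.mul hS'.measurable.ennreal_ofReal
  rw [← lintegral_const_mul _ hkm2]
  refine lintegral_congr fun w => ?_
  rw [ENNReal.ofReal_mul (mul_nonneg (mul_nonneg (hφ0 _) (hk0 _)) (hS0 _)),
    ENNReal.ofReal_mul (mul_nonneg (hφ0 _) (hk0 _)), ENNReal.ofReal_mul (hφ0 _)]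
  ring

lemma V2_eq2 (φ : ℂ → ℝ) (hφ : Continuous φ) (hφ0 : ∀ z, 0 ≤ φ z) (k : ℝ → ℝ)
    (hkc : Continuous k) (hk0 : ∀ u, 0 ≤ k u) (S S' : ℍ → ℝ) (hS : Continuous S)
    (hS0 : ∀ z, 0 ≤ S z) (hS' : Continuous S') :
    V2 φ k S S' = ∫⁻ w : ℍ, ENNReal.ofReal (S' w) *
      ∫⁻ z : ℍ, ENNReal.ofReal (φ z * k (uh w z)) * ENNReal.ofReal (S z) := by
  unfold V2
  have hm : Continuous fun p : ℍ × ℍ => φ p.1 * k (uh p.1 p.2) * S p.1 * S' p.2 :=
    (((hφ.comp (UpperHalfPlane.continuous_coe.comp continuous_fst)).mul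
      (hkc.comp cont_uh)).mul (hS.comp continuous_fst)).mul (hS'.comp continuous_snd)
  rw [lintegral_lintegral_swap hm.measurable.ennreal_ofReal.aemeasurable]
  refine lintegral_congr fun w => ?_
  have hkm : Measurable fun z : ℍ => ENNReal.ofReal (φ z * k (uh w z)) :=
    ((hφ.comp UpperHalfPlane.continuous_coe).mul
      (hkc.comp (cont_uh.comp (Continuous.prodMk_right w)))).measurable.ennreal_ofReal
  have hkm2 : Measurable fun z : ℍ =>
      ENNReal.ofReal (φ z * k (uh w z)) * ENNReal.ofReal (S z) :=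
    hkm.mul hS.measurable.ennreal_ofReal
  rw [← lintegral_const_mul _ hkm2]
  refine lintegral_congr fun z => ?_
  rw [uh_symm z w, ENNReal.ofReal_mul (mul_nonneg (mul_nonneg (hφ0 _) (hk0 _)) (hS0 _)),
    ENNReal.ofReal_mul (mul_nonneg (hφ0 _) (hk0 _))]
  ring

lemma zz (n : ℤ) : ‖((-Complex.I) ^ n : ℂ)‖ = 1 := by
  rw [norm_zpow]
  simp

lemma cptH {K₀ : Set ℂ} (hK : IsCompact K₀) (hH : K₀ ⊆ H0) : IsCompact {z : ℍ | (z : ℂ) ∈ K₀} := by
  refine (UpperHalfPlane.isEmbedding_coe.isInducing.isCompact_preimage_iff ?_).2 hK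
  intro z hz
  exact ⟨⟨z, hH hz⟩, rfl⟩

lemma phiB (φ : ℂ → ℝ) (hs : ContDiff ℝ ∞ φ) (hc : HasCompactSupport φ) :
    ∃ A : ℝ, 0 ≤ A ∧ ∀ j ≤ 3, ∀ z, ‖iteratedFDeriv ℝ j φ z‖ ≤ A := by
  have h1 : ∀ j : ℕ, ∃ A : ℝ, ∀ z, ‖iteratedFDeriv ℝ j φ z‖ ≤ A := fun j =>
    (hs.continuous_iteratedFDeriv (m := j) (by exact_mod_cast le_top)).bounded_above_of_compact_support
      (hc.iteratedFDeriv j)
  choose A hA using h1
  refine ⟨∑ j ∈ Finset.range 4, |A j|, Finset.sum_nonneg fun j _ => abs_nonneg _, fun j hj z => ?_⟩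
  have h2 : |A j| ≤ ∑ j ∈ Finset.range 4, |A j| :=
    Finset.single_le_sum (f := fun j => |A j|) (fun j _ => abs_nonneg _)
      (Finset.mem_range.2 (by omega))
  exact (hA j z).trans ((le_abs_self _).trans h2)

lemma mulB (φ h : ℂ → ℝ) (hs : ContDiff ℝ ∞ φ) (hh : ContDiff ℝ ∞ h) (A B : ℝ) (hA0 : 0 ≤ A)
    (hB0 : 0 ≤ B) (hA : ∀ j ≤ 3, ∀ z, ‖iteratedFDeriv ℝ j φ z‖ ≤ A)
    (hB : ∀ j ≤ 3, ∀ z, ‖iteratedFDeriv ℝ j h z‖ ≤ B) :
    ∀ j ≤ 3, ∀ z, ‖iteratedFDeriv ℝ j (fun z => φ z * h z) z‖ ≤ 8 * (A * B) := by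
  intro j hj z
  refine (norm_iteratedFDeriv_mul_le hs hh z (n := j) (by exact_mod_cast le_top)).trans ?_
  have h1 : ∀ i ∈ Finset.range (j + 1), (j.choose i : ℝ) * ‖iteratedFDeriv ℝ i φ z‖ *
      ‖iteratedFDeriv ℝ (j - i) h z‖ ≤ (j.choose i : ℝ) * (A * B) := by
    intro i hi
    have hi' := Finset.mem_range.1 hi
    rw [mul_assoc]
    refine mul_le_mul_of_nonneg_left ?_ (by positivity)
    exact mul_le_mul (hA i (by omega) z) (hB (j - i) (by omega) z) (norm_nonneg _) hA0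
  refine (Finset.sum_le_sum h1).trans ?_
  rw [← Finset.sum_mul]
  refine mul_le_mul_of_nonneg_right ?_ (mul_nonneg hA0 hB0)
  have h2 : ∑ i ∈ Finset.range (j + 1), (j.choose i : ℝ) = 2 ^ j := by
    exact_mod_cast Nat.sum_range_choose j
  rw [h2]
  calc (2 : ℝ) ^ j ≤ 2 ^ 3 := pow_le_pow_right₀ (by norm_num) hj
    _ = 8 := by norm_num

/-- averages over the window -/
lemma average (F : ℝ → ℝ → ℝ≥0∞) (X E : ℝ≥0∞)
    (h1 : ∀ τ σ, |τ| ≤ 1 → |σ| ≤ 1 → F τ σ ≤ X + E)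
    (h2 : ∀ τ σ, |τ| ≤ 1 → |σ| ≤ 1 → X ≤ F τ σ + E) :
    X ≤ (∫⁻ τ : ℝ, ∫⁻ σ : ℝ, ENNReal.ofReal (ch 1 τ * ch 1 σ) * F τ σ) + E ∧
      (∫⁻ τ : ℝ, ∫⁻ σ : ℝ, ENNReal.ofReal (ch 1 τ * ch 1 σ) * F τ σ) ≤ X + E := by
  have hcm : Measurable fun x : ℝ => ENNReal.ofReal (ch 1 x) := ch_cont.measurable.ennreal_ofReal
  have hsp : ∀ τ σ, ENNReal.ofReal (ch 1 τ * ch 1 σ) =
      ENNReal.ofReal (ch 1 τ) * ENNReal.ofReal (ch 1 σ) := fun τ σ =>
    ENNReal.ofReal_mul (ch_nonneg τ)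
  have hone : ∀ Y : ℝ≥0∞, ∫⁻ τ : ℝ, ∫⁻ σ : ℝ, ENNReal.ofReal (ch 1 τ * ch 1 σ) * Y = Y := by
    intro Y
    have h3 : ∀ τ : ℝ, ∫⁻ σ : ℝ, ENNReal.ofReal (ch 1 τ * ch 1 σ) * Y =
        ENNReal.ofReal (ch 1 τ) * Y := by
      intro τ
      simp only [hsp, mul_assoc]
      rw [lintegral_const_mul _ (hcm.mul_const Y), lintegral_mul_const _ hcm, ch_int, one_mul]
    simp only [h3]
    rw [lintegral_mul_const _ hcm, ch_int, one_mul]
  have hz : ∀ τ σ, ¬ (|τ| ≤ 1 ∧ |σ| ≤ 1) → ENNReal.ofReal (ch 1 τ * ch 1 σ) = 0 := by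
    intro τ σ h
    by_cases h3 : |τ| ≤ 1
    · have h4 : 1 < |σ| := by
        by_contra h5
        exact h ⟨h3, not_lt.1 h5⟩
      rw [ch_zero σ h4, mul_zero, ENNReal.ofReal_zero]
    · rw [ch_zero τ (not_le.1 h3), zero_mul, ENNReal.ofReal_zero]
  constructor
  · have h3 : X ≤ ∫⁻ τ : ℝ, ((∫⁻ σ : ℝ, ENNReal.ofReal (ch 1 τ * ch 1 σ) * F τ σ) +
        ∫⁻ σ : ℝ, ENNReal.ofReal (ch 1 τ * ch 1 σ) * E) := by
      conv_lhs => rw [← hone X]
      refine lintegral_mono fun τ => ?_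
      rw [← lintegral_add_right _
        (((ch_cont.const_mul _).measurable.ennreal_ofReal).mul_const E)]
      refine lintegral_mono fun σ => ?_
      by_cases h4 : |τ| ≤ 1 ∧ |σ| ≤ 1
      · simp only
        rw [← mul_add]
        exact mul_le_mul_right (h2 τ σ h4.1 h4.2) _
      · simp [hz τ σ h4]
    refine h3.trans (le_of_eq ?_)
    rw [lintegral_add_right, hone E]
    have h5 : (fun τ : ℝ => ∫⁻ σ : ℝ, ENNReal.ofReal (ch 1 τ * ch 1 σ) * E) =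
        fun τ => ENNReal.ofReal (ch 1 τ) * E := by
      funext τ
      simp only [hsp, mul_assoc]
      rw [lintegral_const_mul _ (hcm.mul_const E), lintegral_mul_const _ hcm, ch_int, one_mul]
    rw [h5]
    exact hcm.mul_const E
  · conv_rhs => rw [← hone (X + E)]
    refine lintegral_mono fun τ => lintegral_mono fun σ => ?_
    by_cases h4 : |τ| ≤ 1 ∧ |σ| ≤ 1
    · exact mul_le_mul_right (h1 τ σ h4.1 h4.2) _
    · simp [hz τ σ h4]

lemma slice {F : ℝ → ℍ → ℝ} (h : Continuous fun p : ℝ × ℍ => F p.1 p.2) (τ : ℝ) :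
    Continuous (F τ) := h.comp (Continuous.prodMk_right τ)

end WkVM

open WkVM in
theorem stmtWkV (hNuR : StmtNuR) (hTot : StmtTot) (hFib : StmtFib) (hWk : StmtWk) (hSk : StmtSk)
    (hSti : StmtSti) (hUg : StmtUg) : StmtWkV := by
  intro c C₀ hc hc1 hC₀ K φ hφ
  have hφc : Continuous φ := hφ.test.smooth.continuous
  obtain ⟨hct, -, hSkK⟩ := hSk
  have hKφ : IsCompact {z : ℍ | (z : ℂ) ∈ tsupport φ} := cptH hφ.test.cpt hφ.test.sub
  obtain ⟨K₀, C1, e1, hK₀c, hK₀H, hC1, he1, he1', hS1⟩ := hSkK _ hKφ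
  have hK' : IsCompact {z : ℍ | (z : ℂ) ∈ K₀} := cptH hK₀c hK₀H
  obtain ⟨K₀', C2, e2, -, -, hC2, he2, he2', hS2⟩ := hSkK _ hK'
  have hd0 : 0 < c / 800 := by positivity
  have hd1 : c / 800 ≤ 1 / 8 := by linarith
  obtain ⟨CW1, hCW1, hW1⟩ := hWk (c / 800) C₀ hd0 hd1 hC₀ K₀ hK₀c hK₀H
  obtain ⟨CW2, hCW2, hW2⟩ := hWk (c / 800) C₀ hd0 hd1 hC₀ (tsupport φ) hφ.test.cpt hφ.test.sub
  obtain ⟨R, hR1, hR⟩ := box _ (hKφ.union hK')
  obtain ⟨CT, hCT, hT⟩ := hTot R hR1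
  obtain ⟨Aφ, hAφ0, hAφ⟩ := phiB φ hφ.test.smooth hφ.test.cpt
  refine ⟨CW1 * C1 * (Aφ * CT) + CW2 * (8 * (Aφ * C2)) * CT, min e1 e2, by positivity,
    lt_min he1 he2, (min_le_left _ _).trans he1', ?_⟩
  intro v l f t N b hD e he hee
  have hee1 : e ≤ e1 := hee.trans (min_le_left _ _)
  have hee2 : e ≤ e2 := hee.trans (min_le_right _ _)
  have ht0 : 0 < t := lt_of_lt_of_le one_pos hD.one_le
  obtain ⟨hSc, hS0, -⟩ := hSti (Pb f t N b) hD.he.cont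
  have hSc' : ∀ τ, Continuous (St (Pb f t N b) τ) := fun τ => slice hSc τ
  have hms : ms (Pb f t N b) (Om R) ≤ ENNReal.ofReal CT := hT l _ hD.he
  have hfin : ms (Pb f t N b) (Om R) ≠ ⊤ := ne_top_of_le_ne_top ENNReal.ofReal_ne_top hms
  have hk0 : ∀ u, 0 ≤ sk e u := sk_nonneg hct e
  have hkc : Continuous (sk e) := cont_sk e
  have hhk0 : ∀ (z : ℍ) (w : ℂ), 0 ≤ hk (sk e) z w := by
    intro z w
    unfold hk
    split_ifs
    · exact hk0 _
    · exact le_refl _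
  -- `S = S^0`
  have hSb : Sb f t N b = St (Pb f t N b) 0 := by
    funext z
    have h1 := (hFib f t hD.hm N (fun n => (-Complex.I) ^ n * (b n : ℂ))).1 z
    unfold Pb
    rw [h1]
    unfold Sb Sw
    refine Finset.sum_congr rfl fun n _ => ?_
    simp only [norm_mul, zz, one_mul, Complex.norm_real, Real.norm_eq_abs, sq_abs]
  have hRφ : ∀ s : ℝ, |s| ≤ 1 → ∀ g : G, (base (g * fl s) : ℂ) ∈ tsupport φ → g ∈ Om R :=
    fun s hs g hg => hR s hs g (Or.inl hg)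
  have hRK : ∀ s : ℝ, |s| ≤ 1 → ∀ g : G, (base (g * fl s) : ℂ) ∈ K₀ → g ∈ Om R :=
    fun s hs g hg => hR s hs g (Or.inr hg)
  set p : ℝ := t ^ (-(1 / 2) + 3 * (c / 800)) with hp
  have hp0 : 0 ≤ p := by positivity
  set q : ℝ := e⁻¹ ^ 8 with hq
  have hq0 : 0 ≤ q := by positivity
  set Φ := Pb f t N b with hΦ
  -- the mass of `φ`
  have hmφ : ∀ τ, |τ| ≤ 1 → ∫⁻ z : ℍ, ENNReal.ofReal (φ z) * ENNReal.ofReal (St Φ τ z) ≤
      ENNReal.ofReal (Aφ * CT) := by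
    intro τ hτ
    have hm : MeasurableSet {z : ℍ | (z : ℂ) ∈ tsupport φ} := hKφ.isClosed.measurableSet
    have h1 : ∀ z : ℍ, ENNReal.ofReal (φ z) * ENNReal.ofReal (St Φ τ z) ≤
        {z : ℍ | (z : ℂ) ∈ tsupport φ}.indicator
          (fun z => ENNReal.ofReal Aφ * ENNReal.ofReal (St Φ τ z)) z := by
      intro z
      by_cases h2 : (z : ℂ) ∈ tsupport φ
      · rw [Set.indicator_of_mem (show z ∈ {z : ℍ | (z : ℂ) ∈ tsupport φ} from h2)]
        gcongr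
        have h3 := hAφ 0 (by norm_num) (z : ℂ)
        rw [norm_iteratedFDeriv_zero, Real.norm_eq_abs] at h3
        exact (le_abs_self _).trans h3
      · rw [image_eq_zero_of_notMem_tsupport h2]
        simp
    refine (lintegral_mono h1).trans ?_
    rw [lintegral_indicator hm, lintegral_const_mul _ (hSc' τ).measurable.ennreal_ofReal,
      ENNReal.ofReal_mul hAφ0]
    refine mul_le_mul_right ((mass_le hSti Φ hD.he.cont _ hm R τ ?_).trans hms) _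
    intro g hg
    exact hRφ (-τ) (by rwa [abs_neg]) g hg
  -- first step
  have hI : ∀ σ, |σ| ≤ 1 → ∀ z : ℍ, φ z ≠ 0 →
      (∫⁻ w : ℍ, ENNReal.ofReal (sk e (uh z w)) * ENNReal.ofReal (St Φ σ w) ≤
        (∫⁻ w : ℍ, ENNReal.ofReal (sk e (uh z w)) * ENNReal.ofReal (St Φ 0 w)) +
          ENNReal.ofReal (CW1 * (C1 * q) * p)) ∧
      (∫⁻ w : ℍ, ENNReal.ofReal (sk e (uh z w)) * ENNReal.ofReal (St Φ 0 w) ≤
        (∫⁻ w : ℍ, ENNReal.ofReal (sk e (uh z w)) * ENNReal.ofReal (St Φ σ w)) +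
          ENNReal.ofReal (CW1 * (C1 * q) * p)) := by
    intro σ hσ z hz
    obtain ⟨h1, h2, h3⟩ := hS1 e he hee1 z (subset_tsupport φ hz)
    have h4 := cmpW hSti hW1 hRK hD hfin (hk (sk e) z) (C1 * q) (hhk0 z) h1 h2 (by positivity)
      h3 σ hσ
    simpa only [hk_coe] using h4
  have hstep1 : ∀ τ σ, |τ| ≤ 1 → |σ| ≤ 1 →
      V2 φ (sk e) (St Φ τ) (St Φ σ) ≤ V2 φ (sk e) (St Φ τ) (St Φ 0) +
        ENNReal.ofReal (CW1 * C1 * (Aφ * CT) * q * p) ∧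
      V2 φ (sk e) (St Φ τ) (St Φ 0) ≤ V2 φ (sk e) (St Φ τ) (St Φ σ) +
        ENNReal.ofReal (CW1 * C1 * (Aφ * CT) * q * p) := by
    intro τ σ hτ hσ
    have ha : Measurable fun z : ℍ => ENNReal.ofReal (φ z) * ENNReal.ofReal (St Φ τ z) :=
      (hφc.comp UpperHalfPlane.continuous_coe).measurable.ennreal_ofReal.mul
        (hSc' τ).measurable.ennreal_ofReal
    have hne : ∀ z : ℍ, ENNReal.ofReal (φ z) * ENNReal.ofReal (St Φ τ z) ≠ 0 → φ z ≠ 0 := by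
      intro z hz h0
      rw [h0] at hz
      simp at hz
    have hE : (∫⁻ z : ℍ, ENNReal.ofReal (φ z) * ENNReal.ofReal (St Φ τ z)) *
        ENNReal.ofReal (CW1 * (C1 * q) * p) ≤
        ENNReal.ofReal (CW1 * C1 * (Aφ * CT) * q * p) := by
      refine (mul_le_mul_left (hmφ τ hτ) _).trans (le_of_eq ?_)
      rw [← ENNReal.ofReal_mul (by positivity)]
      congr 1
      ring
    rw [V2_eq1 φ hφ.nonneg (sk e) hkc hk0 _ _ (hS0 τ) (hSc' σ),
      V2_eq1 φ hφ.nonneg (sk e) hkc hk0 _ _ (hS0 τ) (hSc' 0)]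
    constructor
    · refine (step _ ha _ _ _ fun z hz => (hI σ hσ z (hne z hz)).1).trans ?_
      gcongr
    · refine (step _ ha _ _ _ fun z hz => (hI σ hσ z (hne z hz)).2).trans ?_
      gcongr
  -- second step
  have hJ0 : ∀ (τ : ℝ) (w : ℍ), (w : ℂ) ∉ K₀ →
      ∫⁻ z : ℍ, ENNReal.ofReal (φ z * sk e (uh w z)) * ENNReal.ofReal (St Φ τ z) = 0 := by
    intro τ w hw
    have h1 : ∀ z : ℍ, φ z * sk e (uh w z) = 0 := by
      intro z
      by_cases hz : φ z = 0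
      · rw [hz, zero_mul]
      · obtain ⟨-, h2, -⟩ := hS1 e he hee1 z (subset_tsupport φ hz)
        have h3 : hk (sk e) z (w : ℂ) = 0 := by
          by_contra h4
          exact hw (h2 (subset_tsupport _ h4))
        rw [hk_coe] at h3
        rw [uh_symm w z, h3, mul_zero]
    simp [h1]
  have hJ : ∀ τ, |τ| ≤ 1 → ∀ w : ℍ, (w : ℂ) ∈ K₀ →
      (∫⁻ z : ℍ, ENNReal.ofReal (φ z * sk e (uh w z)) * ENNReal.ofReal (St Φ τ z) ≤
        (∫⁻ z : ℍ, ENNReal.ofReal (φ z * sk e (uh w z)) * ENNReal.ofReal (St Φ 0 z)) +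
          ENNReal.ofReal (CW2 * (8 * (Aφ * (C2 * q))) * p)) ∧
      (∫⁻ z : ℍ, ENNReal.ofReal (φ z * sk e (uh w z)) * ENNReal.ofReal (St Φ 0 z) ≤
        (∫⁻ z : ℍ, ENNReal.ofReal (φ z * sk e (uh w z)) * ENNReal.ofReal (St Φ τ z)) +
          ENNReal.ofReal (CW2 * (8 * (Aφ * (C2 * q))) * p)) := by
    intro τ hτ w hw
    obtain ⟨h1, -, h3⟩ := hS2 e he hee2 w hw
    have h4 := cmpW hSti hW2 hRφ hD hfin (fun z => φ z * hk (sk e) w z) (8 * (Aφ * (C2 * q)))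
      (fun z => mul_nonneg (hφ.nonneg z) (hhk0 w z)) (hφ.test.smooth.mul h1)
      (tsupport_mul_subset_left) (by positivity)
      (mulB φ _ hφ.test.smooth h1 Aφ (C2 * q) hAφ0 (by positivity) hAφ h3) τ hτ
    simpa only [hk_coe] using h4
  have hstep2 : ∀ τ, |τ| ≤ 1 →
      V2 φ (sk e) (St Φ τ) (St Φ 0) ≤ V2 φ (sk e) (St Φ 0) (St Φ 0) +
        ENNReal.ofReal (CW2 * (8 * (Aφ * C2)) * CT * q * p) ∧
      V2 φ (sk e) (St Φ 0) (St Φ 0) ≤ V2 φ (sk e) (St Φ τ) (St Φ 0) +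
        ENNReal.ofReal (CW2 * (8 * (Aφ * C2)) * CT * q * p) := by
    intro τ hτ
    have hm : MeasurableSet {z : ℍ | (z : ℂ) ∈ K₀} := hK'.isClosed.measurableSet
    have ha : Measurable ({z : ℍ | (z : ℂ) ∈ K₀}.indicator
        fun w : ℍ => ENNReal.ofReal (St Φ 0 w)) :=
      (hSc' 0).measurable.ennreal_ofReal.indicator hm
    have hne : ∀ w : ℍ, {z : ℍ | (z : ℂ) ∈ K₀}.indicator
        (fun w : ℍ => ENNReal.ofReal (St Φ 0 w)) w ≠ 0 → (w : ℂ) ∈ K₀ := by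
      intro w hw
      by_contra h1
      exact hw (Set.indicator_of_notMem (show w ∉ {z : ℍ | (z : ℂ) ∈ K₀} from h1) _)
    have hV : ∀ τ, V2 φ (sk e) (St Φ τ) (St Φ 0) =
        ∫⁻ w : ℍ, {z : ℍ | (z : ℂ) ∈ K₀}.indicator (fun w : ℍ => ENNReal.ofReal (St Φ 0 w)) w *
          ∫⁻ z : ℍ, ENNReal.ofReal (φ z * sk e (uh w z)) * ENNReal.ofReal (St Φ τ z) := by
      intro τ
      rw [V2_eq2 φ hφc hφ.nonneg (sk e) hkc hk0 _ _ (hSc' τ) (hS0 τ) (hSc' 0)]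
      refine lintegral_congr fun w => ?_
      by_cases h1 : (w : ℂ) ∈ K₀
      · rw [Set.indicator_of_mem (show w ∈ {z : ℍ | (z : ℂ) ∈ K₀} from h1)]
      · rw [hJ0 τ w h1, mul_zero, mul_zero]
    have hE : (∫⁻ w : ℍ, {z : ℍ | (z : ℂ) ∈ K₀}.indicator
        (fun w : ℍ => ENNReal.ofReal (St Φ 0 w)) w) *
        ENNReal.ofReal (CW2 * (8 * (Aφ * (C2 * q))) * p) ≤
        ENNReal.ofReal (CW2 * (8 * (Aφ * C2)) * CT * q * p) := by
      rw [lintegral_indicator hm]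
      have h1 : ∫⁻ w : ℍ in {z : ℍ | (z : ℂ) ∈ K₀}, ENNReal.ofReal (St Φ 0 w) ≤
          ENNReal.ofReal CT := by
        refine (mass_le hSti Φ hD.he.cont _ hm R 0 ?_).trans hms
        intro g hg
        exact hRK (-0) (by norm_num) g hg
      refine (mul_le_mul_left h1 _).trans (le_of_eq ?_)
      rw [← ENNReal.ofReal_mul hCT]
      congr 1
      ring
    rw [hV τ, hV 0]
    constructor
    · refine (step _ ha _ _ _ fun w hw => (hJ τ hτ w (hne w hw)).1).trans ?_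
      gcongr
    · refine (step _ ha _ _ _ fun w hw => (hJ τ hτ w (hne w hw)).2).trans ?_
      gcongr
  -- both steps
  have hEE : ENNReal.ofReal ((CW1 * C1 * (Aφ * CT) + CW2 * (8 * (Aφ * C2)) * CT) * q * p) =
      ENNReal.ofReal (CW1 * C1 * (Aφ * CT) * q * p) +
        ENNReal.ofReal (CW2 * (8 * (Aφ * C2)) * CT * q * p) := by
    rw [← ENNReal.ofReal_add (by positivity) (by positivity)]
    congr 1
    ring
  rw [hSb]
  refine average (fun τ σ => V2 φ (sk e) (St Φ τ) (St Φ σ)) _ _ (fun τ σ hτ hσ => ?_)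
    (fun τ σ hτ hσ => ?_)
  · rw [hEE]
    refine (hstep1 τ σ hτ hσ).1.trans ?_
    refine (add_le_add_left (hstep2 τ hτ).1 _).trans (le_of_eq ?_)
    ring
  · rw [hEE]
    refine (hstep2 τ hτ).2.trans ?_
    refine (add_le_add_left (hstep1 τ σ hτ hσ).2 _).trans (le_of_eq ?_)
    ring

end

end Pool.Agent.A54.Hp
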