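import Pool.Agent.Lib.MP_a54f13_nt.Hp.SpecU

/-!
# `Hp/Zcm`: measurability of the cusp set
-/

set_option autoImplicit false

namespace Pool.Agent.A54.Hp

open MeasureTheory Filter Topology Set
open scoped ContDiff ComplexConjugate UpperHalfPlane MatrixGroups ENNReal
open Pool.Agent.A54.Dyn (G fl base ze io mk4 dom)

noncomputable section

namespace ZcmM

lemma cont_entry (i j : Fin 2) : Continuous fun g : G => (g i j : ℝ) :=
  (continuous_apply_apply i j).comp continuous_subtype_val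

lemma isClosed_Om' (R : ℝ) : IsClosed (Om R) := by
  have h : Om R = ⋂ i : Fin 2, ⋂ j : Fin 2, {g : G | |(g i j : ℝ)| ≤ R} := by
    ext g
    simp only [Om, Set.mem_iInter]
    exact Iff.rfl
  rw [h]
  exact isClosed_iInter fun i => isClosed_iInter fun j =>
    isClosed_le (cont_entry i j).abs continuous_const

end ZcmM

open ZcmM

theorem stmtZcm : StmtZcm := by
  intro R a b
  have h : {x : G | x ∈ Om R ∧ ∃ u : Fin 2 → ℤ, u ≠ 0 ∧
      |x 1 1 * u 0 - x 0 1 * u 1| ≤ a ∧ |-(x 1 0) * u 0 + x 0 0 * u 1| ≤ b} =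
      Om R ∩ ⋃ u : {u : Fin 2 → ℤ // u ≠ 0}, ({x : G | |x 1 1 * (u.1 0 : ℝ) - x 0 1 * (u.1 1 : ℝ)| ≤ a} ∩
        {x : G | |-(x 1 0) * (u.1 0 : ℝ) + x 0 0 * (u.1 1 : ℝ)| ≤ b}) := by
    ext x
    constructor
    · rintro ⟨h1, u, h2, h3, h4⟩
      exact ⟨h1, Set.mem_iUnion.2 ⟨⟨u, h2⟩, h3, h4⟩⟩
    · rintro ⟨h1, h2⟩
      obtain ⟨u, h3, h4⟩ := Set.mem_iUnion.1 h2
      exact ⟨h1, u.1, u.2, h3, h4⟩
  rw [h]
  refine (isClosed_Om' R).measurableSet.inter (MeasurableSet.iUnion fun u => ?_)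
  refine (IsClosed.inter ?_ ?_).measurableSet
  · exact isClosed_le (((cont_entry 1 1).mul continuous_const).sub
      ((cont_entry 0 1).mul continuous_const)).abs continuous_const
  · exact isClosed_le (((cont_entry 1 0).neg.mul continuous_const).add
      ((cont_entry 0 0).mul continuous_const)).abs continuous_const

end

end Pool.Agent.A54.Hp
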