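import Pool.Agent.Lib.MP_a54f13_nt.Hp.SpecN

/-!
# Package `Hp`, part N, module Zt: transfer of the cusp set
-/

set_option autoImplicit false

namespace Pool.Agent.A54.Hp

open MeasureTheory Filter Topology Set
open Pool.Agent.A54.Dyn (G mk4)

namespace ZtN

/-- the two linear combinations of the coordinates -/
lemma lin {β00 β01 β10 β11 w η K p q : ℝ} (h00 : |β00| ≤ 3 / 2) (h01 : |β01| ≤ w / 2)
    (h10 : |β10| ≤ w / 2) (h11 : |β11| ≤ 5 / 2) (hw : 0 < w) (hw1 : w ≤ 1) (hη : 0 < η) (hK : η ≤ K)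
    (hwK : w * K ≤ η) (hpq : (|p| ≤ η ∧ |q| ≤ K) ∨ (|q| ≤ η ∧ |p| ≤ K)) :
    (|β11 * p - β01 * q| ≤ 8 * η ∧ |β00 * q - β10 * p| ≤ 8 * K) ∨
      (|β00 * q - β10 * p| ≤ 8 * η ∧ |β11 * p - β01 * q| ≤ 8 * K) := by
  have e1 : |β11 * p - β01 * q| ≤ |β11| * |p| + |β01| * |q| := by
    refine (abs_sub _ _).trans ?_
    rw [abs_mul, abs_mul]
  have e2 : |β00 * q - β10 * p| ≤ |β00| * |q| + |β10| * |p| := by
    refine (abs_sub _ _).trans ?_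
    rw [abs_mul, abs_mul]
  have k1 : |β11| * |p| ≤ 5 / 2 * |p| := mul_le_mul_of_nonneg_right h11 (abs_nonneg p)
  have k2 : |β01| * |q| ≤ w / 2 * |q| := mul_le_mul_of_nonneg_right h01 (abs_nonneg q)
  have k3 : |β00| * |q| ≤ 3 / 2 * |q| := mul_le_mul_of_nonneg_right h00 (abs_nonneg q)
  have k4 : |β10| * |p| ≤ w / 2 * |p| := mul_le_mul_of_nonneg_right h10 (abs_nonneg p)
  have m1 : w / 2 * |q| ≤ 1 / 2 * |q| :=
    mul_le_mul_of_nonneg_right (by linarith) (abs_nonneg q)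
  have m2 : w / 2 * |p| ≤ 1 / 2 * |p| :=
    mul_le_mul_of_nonneg_right (by linarith) (abs_nonneg p)
  rcases hpq with ⟨hp, hq⟩ | ⟨hq, hp⟩
  · left
    have n1 : w / 2 * |q| ≤ w / 2 * K := mul_le_mul_of_nonneg_left hq (by linarith)
    constructor
    · linarith
    · linarith
  · right
    have n1 : w / 2 * |p| ≤ w / 2 * K := mul_le_mul_of_nonneg_left hp (by linarith)
    constructor
    · linarith
    · linarith

/-- the entries of an element of the small tube -/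
lemma ent {c w : ℝ} (hc : 0 < c) (hc1 : c ≤ 1 / 2) (hw : 0 < w) (hw1 : w ≤ 1) {β : G}
    (hβ : β ∈ bt c (c * w)) :
    |β 0 0| ≤ 3 / 2 ∧ |β 0 1| ≤ w / 2 ∧ |β 1 0| ≤ w / 2 ∧ |β 1 1| ≤ 5 / 2 := by
  obtain ⟨h0, h1, h2⟩ := hβ
  have hcw : c * w ≤ w / 2 := by nlinarith
  have a0 := abs_lt.1 h0
  have g1 : |β 0 1| ≤ w / 2 := h1.le.trans hcw
  have g2 : |β 1 0| ≤ w / 2 := h2.le.trans hcw
  have hb : 1 / 2 ≤ β 0 0 := by linarith [a0.1]
  refine ⟨abs_le.2 ⟨by linarith [a0.1], by linarith [a0.2]⟩, g1, g2, ?_⟩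
  have hd : β 0 0 * β 1 1 = 1 + β 0 1 * β 1 0 := by
    have := Dyn.det_eq β
    linarith
  have hm : |β 0 1 * β 1 0| ≤ 1 / 4 := by
    rw [abs_mul]
    calc |β 0 1| * |β 1 0| ≤ 1 / 2 * (1 / 2) :=
          mul_le_mul (by linarith) (by linarith) (abs_nonneg _) (by norm_num)
      _ = 1 / 4 := by norm_num
  have hp : |β 0 0 * β 1 1| ≤ 5 / 4 := by
    rw [hd]
    refine (abs_add_le _ _).trans ?_
    rw [abs_one]
    linarith
  rw [abs_mul] at hp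
  have hb' : 1 / 2 ≤ |β 0 0| := hb.trans (le_abs_self _)
  have : 1 / 2 * |β 1 1| ≤ |β 0 0| * |β 1 1| := mul_le_mul_of_nonneg_right hb' (abs_nonneg _)
  linarith

end ZtN

theorem stmtZt : StmtZt := by
  intro R R' c w η K hc hc1 hw hw1 hη hK hwK U hU x hx hxZ
  obtain ⟨β, hβ, hy⟩ := hx
  obtain ⟨_, u, hu, hpq⟩ := hxZ
  obtain ⟨h00, h01, h10, h11⟩ := ZtN.ent hc hc1 hw hw1 hβ
  refine ⟨x * β, hy, hU hy, u, hu, ?_⟩
  have e1 : (x * β) 1 1 * u 0 - (x * β) 0 1 * u 1 =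
      β 1 1 * (x 1 1 * u 0 - x 0 1 * u 1) - β 0 1 * (-(x 1 0) * u 0 + x 0 0 * u 1) := by
    rw [Dyn.mul_11, Dyn.mul_01]
    ring
  have e2 : -((x * β) 1 0) * u 0 + (x * β) 0 0 * u 1 =
      β 0 0 * (-(x 1 0) * u 0 + x 0 0 * u 1) - β 1 0 * (x 1 1 * u 0 - x 0 1 * u 1) := by
    rw [Dyn.mul_10, Dyn.mul_00]
    ring
  rw [e1, e2]
  exact ZtN.lin h00 h01 h10 h11 hw hw1 hη hK hwK hpq

end Pool.Agent.A54.Hp
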