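import Pool.Agent.Lib.MP_a54f13_nt.Sq.Main
import Pool.Agent.Lib.MP_a54f13_nt.Ef.Pig
import Pool.Agent.Lib.MP_a54f13_nt.Ef.ChQ
import Pool.Agent.Lib.MP_a54f13_nt.Ef.Big
import Pool.Agent.Lib.MP_a54f13_nt.Ef.Dvd
import Pool.Agent.Lib.MP_a54f13_nt.Ef.Dvq
import Pool.Agent.Lib.MP_a54f13_nt.Ef.CaA
import Pool.Agent.Lib.MP_a54f13_nt.Ef.CaB
import Pool.Agent.Lib.MP_a54f13_nt.Ef.CaC
import Pool.Agent.Lib.MP_a54f13_nt.Ef.Snd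
import Pool.Agent.Lib.MP_a54f13_nt.Hp.NuLeft
import Pool.Agent.Lib.MP_a54f13_nt.Hp.NuR
import Pool.Agent.Lib.MP_a54f13_nt.Hp.Unf
import Pool.Agent.Lib.MP_a54f13_nt.Hp.Vol
import Pool.Agent.Lib.MP_a54f13_nt.Hp.Bt
import Pool.Agent.Lib.MP_a54f13_nt.Hp.Nm
import Pool.Agent.Lib.MP_a54f13_nt.Hp.Tot
import Pool.Agent.Lib.MP_a54f13_nt.Hp.Dds
import Pool.Agent.Lib.MP_a54f13_nt.Hp.CS
import Pool.Agent.Lib.MP_a54f13_nt.Hp.VV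
import Pool.Agent.Lib.MP_a54f13_nt.Hp.Lv
import Pool.Agent.Lib.MP_a54f13_nt.Hp.DuF
import Pool.Agent.Lib.MP_a54f13_nt.Hp.DuL
import Pool.Agent.Lib.MP_a54f13_nt.Hp.CtA
import Pool.Agent.Lib.MP_a54f13_nt.Hp.CtB
import Pool.Agent.Lib.MP_a54f13_nt.Hp.Cz
import Pool.Agent.Lib.MP_a54f13_nt.Hp.Zt
import Pool.Agent.Lib.MP_a54f13_nt.Hp.Tub
import Pool.Agent.Lib.MP_a54f13_nt.Hp.AIk
import Pool.Agent.Lib.MP_a54f13_nt.Hp.AIL
import Pool.Agent.Lib.MP_a54f13_nt.Hp.RL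
import Pool.Agent.Lib.MP_a54f13_nt.Hp.RB
import Pool.Agent.Lib.MP_a54f13_nt.Hp.SpT
import Pool.Agent.Lib.MP_a54f13_nt.Hp.RtL
import Pool.Agent.Lib.MP_a54f13_nt.Hp.Trv
import Pool.Agent.Lib.MP_a54f13_nt.Hp.VT
import Pool.Agent.Lib.MP_a54f13_nt.Hp.SnL
import Pool.Agent.Lib.MP_a54f13_nt.Hp.StL
import Pool.Agent.Lib.MP_a54f13_nt.Hp.PL
import Pool.Agent.Lib.MP_a54f13_nt.Hp.TwG
import Pool.Agent.Lib.MP_a54f13_nt.Hp.Twc
import Pool.Agent.Lib.MP_a54f13_nt.Hp.HkG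
import Pool.Agent.Lib.MP_a54f13_nt.Hp.Fib
import Pool.Agent.Lib.MP_a54f13_nt.Hp.HeF
import Pool.Agent.Lib.MP_a54f13_nt.Hp.FlD
import Pool.Agent.Lib.MP_a54f13_nt.Hp.Rev
import Pool.Agent.Lib.MP_a54f13_nt.Hp.Pka
import Pool.Agent.Lib.MP_a54f13_nt.Hp.Pk
import Pool.Agent.Lib.MP_a54f13_nt.Hp.Tay
import Pool.Agent.Lib.MP_a54f13_nt.Hp.L4G
import Pool.Agent.Lib.MP_a54f13_nt.Hp.Sta
import Pool.Agent.Lib.MP_a54f13_nt.Hp.Kf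
import Pool.Agent.Lib.MP_a54f13_nt.Hp.Mss
import Pool.Agent.Lib.MP_a54f13_nt.Hp.Wk
import Pool.Agent.Lib.MP_a54f13_nt.Hp.E2s
import Pool.Agent.Lib.MP_a54f13_nt.Hp.MfS
import Pool.Agent.Lib.MP_a54f13_nt.Hp.B4
import Pool.Agent.Lib.MP_a54f13_nt.Hp.Ky
import Pool.Agent.Lib.MP_a54f13_nt.Hp.Tri4
import Pool.Agent.Lib.MP_a54f13_nt.Hp.Ug
import Pool.Agent.Lib.MP_a54f13_nt.Hp.Po
import Pool.Agent.Lib.MP_a54f13_nt.Hp.Lh
import Pool.Agent.Lib.MP_a54f13_nt.Hp.Ar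
import Pool.Agent.Lib.MP_a54f13_nt.Hp.Hm
import Pool.Agent.Lib.MP_a54f13_nt.Hp.K2
import Pool.Agent.Lib.MP_a54f13_nt.Hp.EdU
import Pool.Agent.Lib.MP_a54f13_nt.Hp.Pv
import Pool.Agent.Lib.MP_a54f13_nt.Hp.Sch
import Pool.Agent.Lib.MP_a54f13_nt.Hp.Sk
import Pool.Agent.Lib.MP_a54f13_nt.Hp.Sti
import Pool.Agent.Lib.MP_a54f13_nt.Hp.Qi
import Pool.Agent.Lib.MP_a54f13_nt.Hp.Qa
import Pool.Agent.Lib.MP_a54f13_nt.Hp.Qb
import Pool.Agent.Lib.MP_a54f13_nt.Hp.Q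
import Pool.Agent.Lib.MP_a54f13_nt.Hp.Cus
import Pool.Agent.Lib.MP_a54f13_nt.Hp.Asw
import Pool.Agent.Lib.MP_a54f13_nt.Hp.WkV
import Pool.Agent.Lib.MP_a54f13_nt.Hp.SmQ
import Pool.Agent.Lib.MP_a54f13_nt.Hp.St1
import Pool.Agent.Lib.MP_a54f13_nt.Hp.St2
import Pool.Agent.Lib.MP_a54f13_nt.Hp.Dif
import Pool.Agent.Lib.MP_a54f13_nt.Hp.Bs1
import Pool.Agent.Lib.MP_a54f13_nt.Hp.Bs
import Pool.Agent.Lib.MP_a54f13_nt.Hp.Xb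
import Pool.Agent.Lib.MP_a54f13_nt.Hp.Bdd
import Pool.Agent.Lib.MP_a54f13_nt.Hp.MsW
import Pool.Agent.Lib.MP_a54f13_nt.Hp.Qx
import Pool.Agent.Lib.MP_a54f13_nt.Hp.Vfx
import Pool.Agent.Lib.MP_a54f13_nt.Hp.L2S
import Pool.Agent.Lib.MP_a54f13_nt.Hp.FinF
import Pool.Agent.Lib.MP_a54f13_nt.Hp.HprK
import Pool.Agent.Lib.MP_a54f13_nt.Hp.Mul
import Pool.Agent.Lib.MP_a54f13_nt.Hp.FcH
import Pool.Agent.Lib.MP_a54f13_nt.Hp.CuM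
import Pool.Agent.Lib.MP_a54f13_nt.Hp.FlH
import Pool.Agent.Lib.MP_a54f13_nt.Hp.Hgt
import Pool.Agent.Lib.MP_a54f13_nt.Hp.Zcm
import Pool.Agent.Lib.MP_a54f13_nt.Hp.Cst
import Pool.Agent.Lib.MP_a54f13_nt.Hp.IsU
import Pool.Agent.Lib.MP_a54f13_nt.Hp.CoL

/-!
# Package `Hp`: assembly

The first four moments of single sequences of Hecke–Maass forms (THEOREM A', helper39 with helper16, helper19, helper86).
-/

set_option autoImplicit false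

namespace Pool.Agent.A54.Hp

open MeasureTheory Filter Topology Set
open scoped ContDiff ComplexConjugate UpperHalfPlane MatrixGroups ENNReal

/-! ### Measure, Hecke operators, counting -/

theorem pNuR : StmtNuR := stmtNuR stmtNuL
theorem pUnf : StmtUnf := stmtUnf stmtNuL
theorem pVol : StmtVol := stmtVol stmtNuL
theorem pTot : StmtTot := stmtTot pUnf
theorem pDds : StmtDds := stmtDds stmtNuL
theorem pCS : StmtCS := stmtCS stmtNuL pNuR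
theorem pVV : StmtVV := stmtVV stmtNuL pVol stmtBt pTot
theorem pLv : StmtLv := stmtLv stmtNuL pTot
theorem pAIk : StmtAIk := stmtAIk stmtNuL pUnf stmtNm
theorem pAIL : StmtAIL := stmtAIL pAIk
theorem pDuL : StmtDuL := stmtDuL stmtDuF
theorem pCtB : StmtCtB := stmtCtB pDuL
theorem pRB : StmtRB := stmtRB stmtCtA pCtB
theorem pRL : StmtRL := stmtRL stmtNuL pNuR
theorem pRtL : StmtRtL := stmtRtL pRL pRB stmtCz pVol
theorem pTrv : StmtTrv := stmtTrv stmtNm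
theorem pVT : StmtVT := stmtVT stmtNuL pVol
theorem pSnL : StmtSnL := stmtSnL pTot pAIL pDds stmtCtA stmtTub
theorem pStL : StmtStL :=
  stmtStL stmtNuL pVol stmtBt pTot pAIL pDds pCS pVV stmtZt stmtSpT pRtL pTrv pVT
theorem pPL : StmtPL := stmtPL pTot pSnL pLv pStL

/-! ### The tower -/

theorem pTwG : StmtTwG := stmtTwG Av.pWf Av.pDer Av.pNk
theorem pTwc : StmtTwc := stmtTwc pTwG
theorem pHkG : StmtHkG := stmtHkG pTwG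
theorem pFib : StmtFib := stmtFib stmtNuL pTwG
theorem pHeF : StmtHeF := stmtHeF pTwG pHkG pFib
theorem pFlD : StmtFlD := stmtFlD pTwG
theorem pRev : StmtRev := stmtRev pTwG
theorem pPk : StmtPk := stmtPk stmtPka
theorem pTay : StmtTay := stmtTay pTwG pFlD
theorem pL4G : StmtL4G := stmtL4G stmtNuL pNuR pTwG
theorem pSta : StmtSta := stmtSta stmtNuL pFib pTay pL4G pTwG
theorem pMss : StmtMss := stmtMss pTwG Av.pUL
theorem pWk : StmtWk := stmtWk stmtNuL pNuR pTwG pFlD stmtKf pMss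
theorem pE2s : StmtE2s := stmtE2s Pl.pE1k
theorem pMfS : StmtMfS := stmtMfS Pl.pE1 pE2s
theorem pB4 : StmtB4 := stmtB4 pTwG pTwc pMss Sq.pBoo
theorem pKy : StmtKy := stmtKy pTwG pTwc pMss Sq.pKey Sq.pLad
theorem pTri4 : StmtTri4 := stmtTri4 pTwG pTwc pMss Sq.pLad

/-! ### Pairs of geodesics -/

theorem pAr : StmtAr := stmtAr stmtUg stmtPo stmtLh
theorem pHm : StmtHm := stmtHm stmtUg
theorem pK2 : StmtK2 := stmtK2 stmtUg pAr pHm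
theorem pEdU : StmtEdU := stmtEdU stmtLh
theorem pPv : StmtPv := stmtPv stmtUg stmtLh pAr pK2 pEdU
theorem pSch : StmtSch := stmtSch stmtUg pAr
theorem pSti : StmtSti := stmtSti pNuR
theorem pQi : StmtQi := stmtQi stmtNuL pSti
theorem pQa : StmtQa := stmtQa stmtUg stmtPo
theorem pQb : StmtQb := stmtQb stmtUg
theorem pQ : StmtQ := stmtQ pNuR stmtUg pQi pQa pQb

/-! ### Steps, bootstrap -/

theorem pCus : StmtCus := stmtCus pTwG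
theorem pAsw : StmtAsw := stmtAsw pNuR pFib pSta pSch pSti
theorem pWkV : StmtWkV := stmtWkV pNuR pTot pFib pWk stmtSk pSti stmtUg
theorem pSt1 : StmtSt1 := stmtSt1 pTot pRev stmtSk pQ pAsw stmtSmQ
theorem pSt2 : StmtSt2 := stmtSt2 pTot pFib pRev pSch stmtSk pSti pQ pWkV stmtSmQ
theorem pDif : StmtDif := stmtDif pTwG pTwc pMfS stmtLh
theorem pBs1 : StmtBs1 := stmtBs1 pTwG pPv pSt1 pSt2 pDif
theorem pBs : StmtBs := stmtBs pB4 pKy pTri4 pBs1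
theorem pXb : StmtXb := stmtXb pB4 pBs pBs1
theorem pBdd : StmtBdd := stmtBdd Sq.pTwr Sq.pUpB stmtLh
theorem pMsW : StmtMsW := stmtMsW pTwG pTwc pMss stmtLh
theorem pQx : StmtQx := stmtQx Pl.stmtU1
theorem pVfx : StmtVfx := stmtVfx stmtUg pAr stmtSk
theorem pL2S : StmtL2S := stmtL2S pTwG stmtLh Pl.pE3 pPv pSt1 pSt2 pDif pXb pMsW pVfx
theorem pFinF : StmtFinF := stmtFinF Sq.pFlt Pl.stmtU2 Sq.pFou stmtLh

/-! ### The cusp -/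

theorem pSnd : Ef.StmtSnd :=
  Ef.stmtSnd (Ef.stmtPig Ef.stmtChQ) (Ef.stmtCaA Ef.stmtBig) (Ef.stmtCaB Ef.stmtDvd Ef.stmtDvq)
    (Ef.stmtCaC Ef.stmtDvd)
theorem pCuM : StmtCuM := stmtCuM pSnd stmtMul stmtFcH
theorem pFlH : StmtFlH := stmtFlH stmtNuL pNuR pUnf
theorem pCst : StmtCst := stmtCst pNuR pUnf pCuM pFlH
theorem pIsU : StmtIsU := stmtIsU stmtHgt stmtZcm pCst

/-! ### The theorem -/

/-- **THEOREM A'** -/
theorem main (f : ℕ → ℍ → ℝ) (t : ℕ → ℝ) (l : ℕ → ℕ → ℝ) (K : ℝ)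
    (hf : ∀ i, IsHeckeMaass (f i) (t i)) (ht : Tendsto t atTop atTop)
    (hl : ∀ i, ∀ p : ℕ, p.Prime → Av.IsHk (f i) p (√p * l i p)) (hK : 1 ≤ K)
    (h : ∀ Y : ℕ → ℝ, Tendsto Y atTop atTop → (∀ᶠ i in atTop, Y i ^ K ≤ t i ^ (1 / 1000 : ℝ)) →
      ∀ᶠ i in atTop, ∃ M : ℝ, Y i ≤ M ∧ M ≤ Y i ^ K ∧ GdC (1 / 10000) (l i) M) :
    (∀ D : Set ℍ, IsCompact D → ∃ C : ℝ, ∀ i, ∫ z in D, f i z ^ 4 ≤ C) ∧
    ((∀ ψ : ℍ → ℝ, TestX ψ → Tendsto (fun i => ∫ z in ModularGroup.fdo, ψ z * f i z ^ 2) atTop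
      (𝓝 (∫ z in ModularGroup.fdo, ψ z))) →
    ∀ ψ : ℍ → ℝ, TestX ψ → ∀ n : ℕ, 1 ≤ n → n ≤ 4 →
      Tendsto (fun i => ∫ z in ModularGroup.fdo, ψ z * f i z ^ n) atTop
        (𝓝 (1 / √(2 * Real.pi) * (∫ x : ℝ, x ^ n * Real.exp (-x ^ 2 / 2)) *
          ∫ z in ModularGroup.fdo, ψ z))) :=
  core pPk pHeF pCus pXb pBdd pL2S pFinF pQx (c := 1 / 1000) (by norm_num) (by norm_num)
    (coreL pPL pIsU hK) f t l hf ht hl
    (hprK l t (1 / 1000) K (by norm_num) hK ht h)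

end Pool.Agent.A54.Hp
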