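import Pool.Agent.Lib.MP_a54f13_nt.Hp.SpecM

/-!
# Package `Hp`, module `HI`: the Hecke integral
-/

set_option autoImplicit false

namespace Pool.Agent.A54.Hp

open MeasureTheory Filter Topology Set
open scoped ContDiff ComplexConjugate UpperHalfPlane MatrixGroups ENNReal
open Pool.Agent.A54.Dyn (G fl base ze io mk4 dom)
open Pool.Agent.A54.Av (Mat NonSc)

noncomputable section

namespace HIM

lemma isCompact_Om (R : ℝ) : IsCompact (Om R) := by
  have h1 : IsCompact (Set.pi univ fun _ : Fin 2 => Set.pi univ fun _ : Fin 2 => Set.Icc (-R) R :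
      Set (Fin 2 → Fin 2 → ℝ)) :=
    isCompact_univ_pi fun _ => isCompact_univ_pi fun _ => isCompact_Icc
  have h2 : Om R = (fun g : G => (g.1 : Fin 2 → Fin 2 → ℝ)) ⁻¹'
      (Set.pi univ fun _ : Fin 2 => Set.pi univ fun _ : Fin 2 => Set.Icc (-R) R) := by
    ext g
    constructor
    · intro hg i _ j _
      exact abs_le.1 (hg i j)
    · intro hg i j
      exact abs_le.2 (hg i (mem_univ i) j (mem_univ j))
  rw [h2]
  exact (Matrix.SpecialLinearGroup.isClosedEmbedding_val (n := Fin 2) (R := ℝ)).isCompact_preimage h1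

lemma exists_Om (y : G) : ∃ R : ℝ, y ∈ Om R := by
  refine ⟨∑ i, ∑ j, |y i j|, fun i j => ?_⟩
  refine le_trans ?_ (Finset.single_le_sum (f := fun i => ∑ j, |y i j|)
    (fun i _ => Finset.sum_nonneg fun j _ => abs_nonneg _) (Finset.mem_univ i))
  exact Finset.single_le_sum (f := fun j => |y i j|) (fun j _ => abs_nonneg _) (Finset.mem_univ j)

/-- only finitely many translates meet the box -/
lemma fin_ret (hNm : StmtNm) {p : ℕ} (hp : 0 < p) (R : ℝ) (y : G) :
    {m : Mn p | nm m.1 * y ∈ Om R}.Finite := by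
  obtain ⟨R', hR'⟩ := exists_Om y
  obtain ⟨B, hB⟩ := exists_nat_ge (2 * R' * R * √(p : ℝ))
  have h1 : (Set.pi univ fun _ : Fin 2 => Set.pi univ fun _ : Fin 2 =>
      Set.Icc (-(B : ℤ)) (B : ℤ) : Set (Fin 2 → Fin 2 → ℤ)).Finite :=
    Set.Finite.pi fun _ => Set.Finite.pi fun _ => Set.finite_Icc _ _
  have h2 := Set.Finite.preimage (f := fun m : Mn p => (m.1 : Fin 2 → Fin 2 → ℤ))
    (Subtype.val_injective.injOn) h1
  refine h2.subset fun m hm => ?_
  intro i _ j _
  have hd : 0 < m.1.det := by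
    rw [m.2]
    exact_mod_cast hp
  have h3 := hNm.2.2.2.2 R' R y m.1 hd hR' hm i j
  rw [m.2] at h3
  have h4 : |((m.1 i j : ℤ) : ℝ)| ≤ (B : ℝ) := by
    refine h3.trans (le_trans (le_of_eq ?_) hB)
    push_cast
    rfl
  have h5 : |m.1 i j| ≤ (B : ℤ) := by exact_mod_cast h4
  exact abs_le.1 h5

lemma adj_det (r : Mat) : r.adjugate.det = r.det := by
  rw [Matrix.det_adjugate, Fintype.card_fin, pow_one]

lemma nm_mul_io (hNm : StmtNm) {m : Mat} (hm : 0 < m.det) (γ : SL(2, ℤ)) :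
    nm (m * (γ : Mat)) = nm m * io γ := by
  rw [hNm.1 m (γ : Mat) hm (by rw [γ.det_coe]; norm_num), hNm.2.1]

/-- the sum over `M_p` by cosets -/
lemma cosets (hNm : StmtNm) {p : ℕ} (hp : 0 < p) (r : Fin (p + 1) → Mat)
    (hr : ∀ j, (r j).det = (p : ℤ))
    (hadj : ∀ m : Mat, m.det = (p : ℤ) →
      ∃! x : Fin (p + 1) × SL(2, ℤ), m = (r x.1).adjugate * (x.2 : Mat))
    {R : ℝ} {F : G → ℂ} (hF : ∀ x, x ∉ Om R → F x = 0) (y : G) :
    ∑' m : Mn p, F (nm m.1 * y) =
      ∑ j, ∑' γ : SL(2, ℤ), F ((nm (r j))⁻¹ * (io γ * y)) := by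
  have hdet : ∀ x : Fin (p + 1) × SL(2, ℤ), ((r x.1).adjugate * (x.2 : Mat)).det = (p : ℤ) := by
    intro x
    rw [Matrix.det_mul, adj_det, hr, x.2.det_coe, mul_one]
  obtain ⟨e, he⟩ : ∃ e : Fin (p + 1) × SL(2, ℤ) ≃ Mn p,
      ∀ x, (e x).1 = (r x.1).adjugate * (x.2 : Mat) := ⟨Equiv.ofBijective
    (fun x => ⟨(r x.1).adjugate * (x.2 : Mat), hdet x⟩) ⟨fun x x' h => by
      have h1 : (r x.1).adjugate * (x.2 : Mat) = (r x'.1).adjugate * (x'.2 : Mat) :=
        congrArg Subtype.val h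
      exact (hadj _ (hdet x)).unique rfl h1, fun m => by
      obtain ⟨x, hx, -⟩ := hadj m.1 m.2
      exact ⟨x, Subtype.ext hx.symm⟩⟩, fun x => rfl⟩
  have hs : Summable fun m : Mn p => F (nm m.1 * y) := by
    refine summable_of_hasFiniteSupport ((fin_ret hNm hp R y).subset fun m hm => ?_)
    by_contra h
    exact hm (hF _ h)
  rw [← Equiv.tsum_eq e (fun m : Mn p => F (nm m.1 * y))]
  have hs' : Summable fun x : Fin (p + 1) × SL(2, ℤ) => F (nm (e x).1 * y) :=
    (Equiv.summable_iff e).2 hs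
  rw [hs'.tsum_prod, tsum_fintype]
  refine Finset.sum_congr rfl fun j _ => tsum_congr fun γ => ?_
  rw [he (j, γ)]
  change F (nm ((r j).adjugate * (γ : Mat)) * y) = _
  rw [nm_mul_io hNm (by rw [adj_det, hr]; exact_mod_cast hp), mul_assoc,
    hNm.2.2.1 (r j) (by rw [hr]; exact_mod_cast hp)]

end HIM

open HIM

theorem stmtHI (hNu : StmtNuL) (hUnf : StmtUnf) (hCo : StmtCo) (hNm : StmtNm) : StmtHI := by
  intro l Φ hE R U hU hUR p hp
  have hinv := hNu.1
  have hfc := hNu.2.1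
  obtain ⟨r, hr, -, hadj, hsum, -⟩ := hCo p hp
  have hp0 : 0 < p := hp.pos
  set F : G → ℂ := U.indicator Φ with hFdef
  have hF0 : ∀ x, x ∉ Om R → F x = 0 := fun x hx =>
    indicator_of_notMem (fun h => hx (hUR h)) _
  -- the functions before the change of variables
  have hh : ∀ g : G, Integrable (fun x => Φ (g * x) * conj (F x)) nu := by
    intro g
    have e1 : (fun x => Φ (g * x) * conj (F x)) =
        U.indicator (fun x => Φ (g * x) * conj (Φ x)) := by
      funext x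
      by_cases hx : x ∈ U
      · rw [hFdef, indicator_of_mem hx, indicator_of_mem hx]
      · rw [hFdef, indicator_of_notMem hx, indicator_of_notMem hx, map_zero, mul_zero]
    rw [e1, integrable_indicator_iff hU]
    have hc : Continuous fun x : G => Φ (g * x) * conj (Φ x) :=
      (hE.cont.comp (continuous_const.mul continuous_id)).mul
        (Complex.continuous_conj.comp hE.cont)
    exact (hc.continuousOn.integrableOn_compact (isCompact_Om R)).mono_set hUR
  -- the functions after the change of variables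
  let f : Fin (p + 1) → G → ℂ := fun j y => Φ y * conj (F ((nm (r j))⁻¹ * y))
  have hfh : ∀ j, f j = fun y => (fun x => Φ (nm (r j) * x) * conj (F x)) ((nm (r j))⁻¹ * y) := by
    intro j
    funext y
    change Φ y * conj (F ((nm (r j))⁻¹ * y)) =
      Φ (nm (r j) * ((nm (r j))⁻¹ * y)) * conj (F ((nm (r j))⁻¹ * y))
    rw [mul_inv_cancel_left]
  have hfi : ∀ j, Integrable (f j) nu := by
    intro j
    rw [hfh j]
    exact (hh (nm (r j))).comp_mul_left _
  have hfI : ∀ j, ∫ y, f j y ∂nu = ∫ x, Φ (nm (r j) * x) * conj (F x) ∂nu := by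
    intro j
    rw [hfh j]
    exact integral_mul_left_eq_self (μ := nu) (fun x => Φ (nm (r j) * x) * conj (F x)) _
  -- unfolding
  have hU2 : ∀ j, IntegrableOn (fun g => ∑' γ : SL(2, ℤ), f j (io γ * g)) FF nu ∧
      ∫ g in FF, ∑' γ : SL(2, ℤ), f j (io γ * g) ∂nu = 2 * ∫ g, f j g ∂nu := fun j =>
    hUnf.2 (f j) (hfi j)
  have hpt : ∀ y : G, Φ y * conj (∑' m : Mn p, F (nm m.1 * y)) =
      ∑ j, ∑' γ : SL(2, ℤ), f j (io γ * y) := by
    intro y
    rw [cosets hNm hp0 r hr hadj hF0 y, map_sum, Finset.mul_sum]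
    refine Finset.sum_congr rfl fun j _ => ?_
    have e1 : conj (∑' γ : SL(2, ℤ), F ((nm (r j))⁻¹ * (io γ * y))) =
        ∑' γ : SL(2, ℤ), conj (F ((nm (r j))⁻¹ * (io γ * y))) := tsum_star
    rw [e1, ← tsum_mul_left]
    refine tsum_congr fun γ => ?_
    change _ = Φ (io γ * y) * conj (F ((nm (r j))⁻¹ * (io γ * y)))
    rw [hE.inv]
  have hfun : (fun y => Φ y * conj (∑' m : Mn p, F (nm m.1 * y))) =
      fun y => ∑ j, ∑' γ : SL(2, ℤ), f j (io γ * y) := funext hpt
  refine ⟨?_, ?_⟩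
  · rw [hfun]
    exact integrable_finsetSum _ fun j _ => (hU2 j).1
  · rw [hfun, integral_finsetSum _ fun j _ => (hU2 j).1]
    have e2 : ∑ j, ∫ g in FF, ∑' γ : SL(2, ℤ), f j (io γ * g) ∂nu =
        2 * ∑ j, ∫ x, Φ (nm (r j) * x) * conj (F x) ∂nu := by
      rw [Finset.mul_sum]
      exact Finset.sum_congr rfl fun j _ => by rw [(hU2 j).2, hfI j]
    rw [e2, ← integral_finsetSum _ fun j _ => hh (nm (r j)), ← integral_indicator hU,
      ← integral_const_mul]
    have e3 : ∀ x : G, ((√p * l p : ℝ) : ℂ) *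
        U.indicator (fun g => (((‖Φ g‖ ^ 2 : ℝ)) : ℂ)) x =
        ∑ j, Φ (nm (r j) * x) * conj (F x) := by
      intro x
      rw [← Finset.sum_mul, hsum (fun m => Φ (nm m * x)), hE.hecke p hp x]
      by_cases hx : x ∈ U
      · rw [hFdef, indicator_of_mem hx, indicator_of_mem hx, mul_assoc, Complex.mul_conj,
          Complex.normSq_eq_norm_sq]
      · rw [hFdef, indicator_of_notMem hx, indicator_of_notMem hx, map_zero, mul_zero, mul_zero]
    simp only [e3]
    ring

end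

end Pool.Agent.A54.Hp
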