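import Pool.Agent.Lib.MP_a54f13_nt.Hp.SpecC

/-!
# Package `Hp`: assembly of the analysis

`CoreC c Gh`: cuspidal Hecke eigenfunctions satisfy `C_w ≤ w^(1+c)` at all small scales `w` with `Gh l w`. It implies the theorem for
sequences of forms whose eigenvalues satisfy `Gh (l i) w` for all `w` between `t_i^(-(1/2+c/1600))` and a constant.
-/

set_option autoImplicit false

namespace Pool.Agent.A54.Hp

open MeasureTheory Filter Topology Set
open scoped ContDiff ComplexConjugate UpperHalfPlane MatrixGroups ENNReal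
open Pool.Agent.A54.Dyn (G fl base ze io mk4 dom)
open Pool.Agent.A54.Half (H0)
open Pool.Agent.A54.Sq (la TestP)

noncomputable section

/-- the counting bound for cuspidal Hecke eigenfunctions -/
def CoreC (c : ℝ) (Gh : (ℕ → ℝ) → ℝ → Prop) : Prop :=
  ∀ R : ℝ, 1 ≤ R → ∃ w₀ : ℝ, 0 < w₀ ∧ ∀ (l : ℕ → ℝ) (Φ : G → ℂ), HE l Φ →
    (∀ g : G, ∫ x in (0 : ℝ)..1, Φ (mk4 1 x 0 1 (by norm_num) * g) = 0) →
    ∀ w : ℝ, 0 < w → w ≤ w₀ → Gh l w → Cw Φ R w ≤ ENNReal.ofReal (w ^ (1 + c))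

namespace CrM

lemma norm_ipow (n : ℤ) : ‖(-Complex.I) ^ n‖ = 1 := by
  rw [norm_zpow, norm_neg, Complex.norm_I, one_zpow]

/-- the data for one form -/
lemma data {c : ℝ} {Gh : (ℕ → ℝ) → ℝ → Prop} (hC : CoreC c Gh) (hHe : StmtHeF)
    (hCus : StmtCus) (W : ℝ) (hW : 0 < W) :
    ∃ v : ℝ → ℝ, (∀ R, 0 < v R) ∧ ∀ (C₀ : ℝ) (K : ℕ) (l : ℕ → ℝ) (f : ℍ → ℝ) (t : ℝ) (N : ℕ) (b : ℤ → ℝ),
      IsHeckeMaass f t → 1 ≤ t → (∀ p : ℕ, p.Prime → Av.IsHk f p (√p * l p)) →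
      Pack (c / 800) C₀ K t N b →
      (∀ w : ℝ, t ^ (-(1 / 2 + c / 1600)) ≤ w → w ≤ W → Gh l w) → Dt c v C₀ K l f t N b := by
  classical
  choose w₀ hw₀ h using hC
  refine ⟨fun R => if hR : 1 ≤ R then min (w₀ R hR) W else W, ?_, ?_⟩
  · intro R
    by_cases hR : 1 ≤ R
    · simp only [hR, dif_pos]; exact lt_min (hw₀ R hR) hW
    · simp only [hR, dif_neg, not_false_iff]; exact hW
  · intro C₀ K l f t N b hf ht hl hp hG
    have he : HE l (Pb f t N b) := by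
      apply hHe f t hf l hl N
      have h1 : ∀ n ∈ Finset.Icc (-(N : ℤ)) N, ‖(-Complex.I) ^ n * ((b n : ℝ) : ℂ)‖ ^ 2 = b n ^ 2 := by
        intro n _
        rw [norm_mul, norm_ipow, one_mul, Complex.norm_real, Real.norm_eq_abs, sq_abs]
      rw [Finset.sum_congr rfl h1, hp.norm]
    refine ⟨hf, ht, hp, he, ?_⟩
    intro R hR w hw1 hw2
    simp only [hR, dif_pos] at hw2
    have hw0 : 0 < w := lt_of_lt_of_le (Real.rpow_pos_of_pos (by linarith) _) hw1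
    exact h R hR l _ he (fun g => (hCus f t hf).2 N _ g) w hw0 (hw2.trans (min_le_left _ _))
      (hG w hw1 (hw2.trans (min_le_right _ _)))

end CrM

/-- **the theorem for single sequences**, in terms of an abstract condition on the eigenvalues -/
theorem core (hPk : StmtPk) (hHe : StmtHeF) (hCus : StmtCus) (hXb : StmtXb) (hBdd : StmtBdd)
    (hL2 : StmtL2S) (hFin : StmtFinF) (hQx : StmtQx) {c : ℝ} (hc : 0 < c) (hc1 : c ≤ 1)
    {Gh : (ℕ → ℝ) → ℝ → Prop} (hC : CoreC c Gh) (f : ℕ → ℍ → ℝ) (t : ℕ → ℝ) (l : ℕ → ℕ → ℝ)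
    (hf : ∀ i, IsHeckeMaass (f i) (t i)) (ht : Tendsto t atTop atTop)
    (hl : ∀ i, ∀ p : ℕ, p.Prime → Av.IsHk (f i) p (√p * l i p))
    (hG : ∃ (W : ℝ) (i₀ : ℕ), 0 < W ∧ ∀ i, i₀ ≤ i → ∀ w : ℝ, t i ^ (-(1 / 2 + c / 1600)) ≤ w →
      w ≤ W → Gh (l i) w) :
    (∀ K : Set ℍ, IsCompact K → ∃ C : ℝ, ∀ i, ∫ z in K, f i z ^ 4 ≤ C) ∧
    ((∀ ψ : ℍ → ℝ, TestX ψ → Tendsto (fun i => ∫ z in ModularGroup.fdo, ψ z * f i z ^ 2) atTop
      (𝓝 (∫ z in ModularGroup.fdo, ψ z))) →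
    ∀ ψ : ℍ → ℝ, TestX ψ → ∀ n : ℕ, 1 ≤ n → n ≤ 4 →
      Tendsto (fun i => ∫ z in ModularGroup.fdo, ψ z * f i z ^ n) atTop
        (𝓝 (1 / √(2 * Real.pi) * (∫ x : ℝ, x ^ n * Real.exp (-x ^ 2 / 2)) *
          ∫ z in ModularGroup.fdo, ψ z))) := by
  classical
  obtain ⟨W, i₀, hW, hG⟩ := hG
  obtain ⟨v, hv, hD⟩ := CrM.data hC hHe hCus W hW
  have hd0 : 0 < c / 800 := by positivity
  have hd8 : c / 800 ≤ 1 / 8 := by linarith
  have hδ : 0 < c / 1600 := by positivity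
  obtain ⟨K₁, hK₁⟩ := hXb c hc hc1
  obtain ⟨K₂, hK₂⟩ := hL2 c hc hc1
  obtain ⟨C₀, t₀, hC₀, ht₀, hP⟩ := hPk (c / 800) hd0 hd8 (max K₁ K₂)
  obtain ⟨i₁, hi₁⟩ := (ht.eventually_ge_atTop t₀).exists_forall_of_atTop
  set m := max i₀ i₁ with hm
  have hbig : ∀ j, t₀ ≤ t (j + m) := fun j => hi₁ _ (le_trans (le_max_right i₀ i₁) (Nat.le_add_left _ _))
  choose N b hKN hpk using fun j => hP (t (j + m)) (hbig j)
  have hdt : ∀ j, Dt c v C₀ (max K₁ K₂) (l (j + m)) (f (j + m)) (t (j + m)) (N j) (b j) := by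
    intro j
    exact hD C₀ (max K₁ K₂) (l (j + m)) (f (j + m)) (t (j + m)) (N j) (b j) (hf _) (ht₀.trans (hbig j))
      (hl _) (hpk j) (hG (j + m) (le_trans (le_max_left i₀ i₁) (Nat.le_add_left _ _)))
  have ht' : Tendsto (fun j => t (j + m)) atTop atTop := (tendsto_add_atTop_iff_nat m).mpr ht
  have hρ : ∀ j, 0 < rh c (t (j + m)) ∧ rh c (t (j + m)) ≤ t (j + m) ^ (-(1 / 2 + c / 1600)) := by
    intro j
    exact ⟨Real.rpow_pos_of_pos (by linarith [hbig j]) _, le_refl _⟩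
  refine ⟨?_, ?_⟩
  · intro K hK
    have h1 := hBdd (fun j => f (j + m)) (fun j => t (j + m)) (fun j => rh c (t (j + m))) (c / 1600)
      (fun j => hf _) ht' hδ hρ (fun φ hφ => by
        obtain ⟨C, t₁, _, _, hX⟩ := (hK₁ (max K₁ K₂) (le_max_left _ _) C₀ hC₀ v hv φ hφ).2
        exact ⟨C, (ht'.eventually_ge_atTop t₁).mono fun j hj => hX _ _ _ _ _ (hdt j) hj⟩) K hK
    obtain ⟨C, hC'⟩ := h1
    refine ⟨max C (∑ i ∈ Finset.range m, |∫ z in K, f i z ^ 4|), fun i => ?_⟩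
    by_cases hi : i < m
    · refine le_trans (le_abs_self _) (le_trans ?_ (le_max_right _ _))
      exact Finset.single_le_sum (f := fun i => |∫ z in K, f i z ^ 4|) (fun _ _ => abs_nonneg _)
        (Finset.mem_range.mpr hi)
    · have h2 := hC' (i - m)
      simp only [Nat.sub_add_cancel (not_lt.mp hi)] at h2
      exact h2.trans (le_max_left _ _)
  · intro h2 ψ hψ n hn1 hn4
    have hq := hQx f t hf h2
    have hq' : ∀ φ : ℂ → ℝ, TestR H0 φ → Tendsto (fun j => ∫ z : ℍ, φ z * f (j + m) z ^ 2) atTop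
        (𝓝 (∫ z : ℍ, φ z)) := fun φ hφ => (tendsto_add_atTop_iff_nat m).mpr (hq φ hφ)
    have h3 := hK₂ (max K₁ K₂) (le_max_right _ _) C₀ hC₀ v hv (fun j => l (j + m)) (fun j => f (j + m))
      (fun j => t (j + m)) N b hdt ht' hq'
    have h4 := hFin (fun j => f (j + m)) (fun j => t (j + m)) (fun j => rh c (t (j + m))) (c / 1600)
      (fun j => hf _) ht' hδ hρ h3 ψ hψ n hn1 hn4
    exact (tendsto_add_atTop_iff_nat m).mp h4

end

end Pool.Agent.A54.Hp
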