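import Pool.Agent.Lib.MP_a54f13_nt.Hp.SpecM

/-!
# Package `Hp`, part M: the double sum over `M_p`, `M_q` (A2)
-/

set_option autoImplicit false

namespace Pool.Agent.A54.Hp

open MeasureTheory Filter Topology Set
open scoped ContDiff ComplexConjugate UpperHalfPlane MatrixGroups ENNReal
open Pool.Agent.A54.Dyn (G fl base ze io mk4 dom)
open Pool.Agent.A54.Av (Mat NonSc)

noncomputable section

namespace A2M

lemma countMat : Countable Mat := inferInstanceAs (Countable (Fin 2 → Fin 2 → ℤ))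

lemma countMn (n : ℕ) : Countable (Mn n) := by
  have := countMat
  exact Subtype.countable

lemma countSL : Countable SL(2, ℤ) := by
  have := countMat
  exact inferInstanceAs (Countable {A : Mat // A.det = 1})

lemma det_pos {n : ℕ} (hn : 0 < n) (m : Mn n) : 0 < m.1.det := by
  rw [m.2]
  exact_mod_cast hn

lemma nm_mul_io (hNm : StmtNm) {m : Mat} (hm : 0 < m.det) (γ : SL(2, ℤ)) :
    nm (m * (γ : Mat)) = nm m * io γ := by
  rw [hNm.1 m (γ : Mat) hm (by rw [γ.det_coe]; norm_num), hNm.2.1]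

/-- Right multiplication by `γ`. -/
def rmul (n : ℕ) (γ : SL(2, ℤ)) : Mn n ≃ Mn n where
  toFun m := ⟨m.1 * (γ : Mat), by rw [Matrix.det_mul, m.2, γ.det_coe, mul_one]⟩
  invFun m := ⟨m.1 * ((γ⁻¹ : SL(2, ℤ)) : Mat), by
    rw [Matrix.det_mul, m.2, (γ⁻¹).det_coe, mul_one]⟩
  left_inv m := by
    apply Subtype.ext
    change m.1 * (γ : Mat) * ((γ⁻¹ : SL(2, ℤ)) : Mat) = m.1
    rw [Matrix.mul_assoc, ← Matrix.SpecialLinearGroup.coe_mul, mul_inv_cancel,
      Matrix.SpecialLinearGroup.coe_one, Matrix.mul_one]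
  right_inv m := by
    apply Subtype.ext
    change m.1 * ((γ⁻¹ : SL(2, ℤ)) : Mat) * (γ : Mat) = m.1
    rw [Matrix.mul_assoc, ← Matrix.SpecialLinearGroup.coe_mul, inv_mul_cancel,
      Matrix.SpecialLinearGroup.coe_one, Matrix.mul_one]

/-- `∑_{m ∈ M_n} F(nm m y)` -/
def hs (F : G → ℝ≥0∞) (n : ℕ) (y : G) : ℝ≥0∞ := ∑' m : Mn n, F (nm m.1 * y)

lemma hs_inv (hNm : StmtNm) (F : G → ℝ≥0∞) {n : ℕ} (hn : 0 < n) (γ : SL(2, ℤ)) (y : G) :
    hs F n (io γ * y) = hs F n y := by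
  unfold hs
  rw [← Equiv.tsum_eq (rmul n γ) (fun m : Mn n => F (nm m.1 * y))]
  refine tsum_congr fun m => ?_
  change F (nm m.1 * (io γ * y)) = F (nm (m.1 * (γ : Mat)) * y)
  rw [nm_mul_io hNm (det_pos hn m), mul_assoc]

lemma meas_mul {F : G → ℝ≥0∞} (hF : Measurable F) (g : G) : Measurable fun y => F (g * y) :=
  hF.comp (measurable_const_mul g)

lemma meas_hs {F : G → ℝ≥0∞} (hF : Measurable F) (n : ℕ) : Measurable (hs F n) := by
  have := countMn n
  exact Measurable.ennreal_tsum fun m => meas_mul hF _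

lemma adj_det (r : Mat) : r.adjugate.det = r.det := by
  rw [Matrix.det_adjugate, Fintype.card_fin, pow_one]

/-- The sum over `M_p` by cosets. -/
lemma hs_cosets (hNm : StmtNm) (F : G → ℝ≥0∞) {p : ℕ} (hp : 0 < p) (r : Fin (p + 1) → Mat)
    (hr : ∀ j, (r j).det = (p : ℤ))
    (hadj : ∀ m : Mat, m.det = (p : ℤ) →
      ∃! x : Fin (p + 1) × SL(2, ℤ), m = (r x.1).adjugate * (x.2 : Mat)) (y : G) :
    hs F p y = ∑ j, ∑' γ : SL(2, ℤ), F (nm (r j).adjugate * (io γ * y)) := by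
  have hdet : ∀ x : Fin (p + 1) × SL(2, ℤ), ((r x.1).adjugate * (x.2 : Mat)).det = (p : ℤ) := by
    intro x
    rw [Matrix.det_mul, adj_det, hr, x.2.det_coe, mul_one]
  let e : Fin (p + 1) × SL(2, ℤ) ≃ Mn p := Equiv.ofBijective
    (fun x => ⟨(r x.1).adjugate * (x.2 : Mat), hdet x⟩) ⟨fun x x' h => by
      have h1 : (r x.1).adjugate * (x.2 : Mat) = (r x'.1).adjugate * (x'.2 : Mat) :=
        congrArg Subtype.val h
      exact (hadj _ (hdet x)).unique rfl h1, fun m => by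
      obtain ⟨x, hx, -⟩ := hadj m.1 m.2
      exact ⟨x, Subtype.ext hx.symm⟩⟩
  unfold hs
  rw [← Equiv.tsum_eq e (fun m : Mn p => F (nm m.1 * y)), ENNReal.tsum_prod', tsum_fintype]
  refine Finset.sum_congr rfl fun j _ => tsum_congr fun γ => ?_
  change F (nm ((r j).adjugate * (γ : Mat)) * y) = _
  rw [nm_mul_io hNm (by rw [adj_det, hr]; exact_mod_cast hp), mul_assoc]

/-- Unfolding: the left side. -/
lemma unfold_lhs (hNu : StmtNuL) (hUnf : StmtUnf) (hNm : StmtNm) {F : G → ℝ≥0∞}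
    (hF : Measurable F) {p q : ℕ} (hp : 0 < p) (hq : 0 < q) (r : Fin (p + 1) → Mat)
    (hr : ∀ j, (r j).det = (p : ℤ))
    (hadj : ∀ m : Mat, m.det = (p : ℤ) →
      ∃! x : Fin (p + 1) × SL(2, ℤ), m = (r x.1).adjugate * (x.2 : Mat)) :
    ∫⁻ y in FF, hs F p y * hs F q y ∂nu =
      2 * ∑ j, ∑' m : Mn q, DF F (nm (m.1 * r j)) := by
  have := hNu.1
  have := countSL
  have := countMn q
  have hK : ∀ j, Measurable fun g => F (nm (r j).adjugate * g) * hs F q g := fun j =>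
    (meas_mul hF _).mul (meas_hs hF q)
  have h1 : ∀ y, hs F p y * hs F q y = ∑ j, ∑' γ : SL(2, ℤ),
      F (nm (r j).adjugate * (io γ * y)) * hs F q (io γ * y) := by
    intro y
    rw [hs_cosets hNm F hp r hr hadj y, Finset.sum_mul]
    refine Finset.sum_congr rfl fun j _ => ?_
    rw [← ENNReal.tsum_mul_right]
    exact tsum_congr fun γ => by rw [hs_inv hNm F hq]
  simp only [h1]
  rw [lintegral_finsetSum _ fun j _ => Measurable.ennreal_tsum fun γ => meas_mul (hK j) (io γ),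
    Finset.mul_sum]
  refine Finset.sum_congr rfl fun j _ => ?_
  rw [lintegral_tsum fun γ => (meas_mul (hK j) (io γ)).aemeasurable]
  have h2 := hUnf.1 (fun g => F (nm (r j).adjugate * g) * hs F q g) (hK j)
  rw [h2]
  congr 1
  rw [← lintegral_mul_left_eq_self (μ := nu)
    (fun g => F (nm (r j).adjugate * g) * hs F q g) (nm (r j))]
  have hrj : 0 < (r j).det := by
    rw [hr]
    exact_mod_cast hp
  have h3 : ∀ x : G, F (nm (r j).adjugate * (nm (r j) * x)) * hs F q (nm (r j) * x) =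
      ∑' m : Mn q, F x * F (nm (m.1 * r j) * x) := by
    intro x
    rw [hNm.2.2.1 (r j) hrj, inv_mul_cancel_left, ENNReal.tsum_mul_left]
    congr 1
    unfold hs
    refine tsum_congr fun m => ?_
    rw [hNm.1 m.1 (r j) (det_pos hq m) hrj, mul_assoc]
  simp only [h3]
  exact lintegral_tsum (f := fun (m : Mn q) (x : G) => F x * F (nm (m.1 * r j) * x))
    fun m => (hF.mul (meas_mul hF _)).aemeasurable

/-- The matrices `m r_j`. -/
def Ph {p q : ℕ} (r : Fin (p + 1) → Mat) (hr : ∀ j, (r j).det = (p : ℤ)) (j : Fin (p + 1))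
    (m : Mn q) : Mn (p * q) :=
  ⟨m.1 * r j, by rw [Matrix.det_mul, m.2, hr]; push_cast; ring⟩

lemma Ph_inj {p q : ℕ} (hp : 0 < p) (r : Fin (p + 1) → Mat) (hr : ∀ j, (r j).det = (p : ℤ))
    (j : Fin (p + 1)) : Function.Injective (Ph (q := q) r hr j) := by
  intro m m' h
  have h1 : m.1 * r j = m'.1 * r j := congrArg Subtype.val h
  have h2 := congrArg (fun A : Mat => A * (r j).adjugate) h1
  simp only [Matrix.mul_assoc, Matrix.mul_adjugate, hr, Matrix.mul_smul, Matrix.mul_one] at h2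
  apply Subtype.ext
  ext a b
  have h3 := congrFun (congrFun h2 a) b
  rw [Matrix.smul_apply, Matrix.smul_apply, smul_eq_mul, smul_eq_mul] at h3
  exact mul_left_cancel₀ (by exact_mod_cast hp.ne') h3

/-- A matrix which is hit twice is divisible by `p`. -/
lemma twice {p q : ℕ} (r : Fin (p + 1) → Mat) (hr : ∀ j, (r j).det = (p : ℤ))
    (hlast : ∀ j j', j ≠ j' → ∀ a b : ℤ,
      (∃ c d : ℤ, ∀ i, (p : ℤ) ∣ (![a, b] i - (c * r j 0 i + d * r j 1 i))) →
      (∃ c d : ℤ, ∀ i, (p : ℤ) ∣ (![a, b] i - (c * r j' 0 i + d * r j' 1 i))) →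
      (p : ℤ) ∣ a ∧ (p : ℤ) ∣ b) {s : Mn (p * q)} {j j' : Fin (p + 1)} (hjj : j ≠ j')
    (h : s ∈ Set.range (Ph (q := q) r hr j)) (h' : s ∈ Set.range (Ph (q := q) r hr j')) :
    ∃ t : Mat, s.1 = (p : ℤ) • t := by
  obtain ⟨m, hm⟩ := h
  obtain ⟨m', hm'⟩ := h'
  have key : ∀ k : Fin 2, (p : ℤ) ∣ s.1 k 0 ∧ (p : ℤ) ∣ s.1 k 1 := by
    intro k
    have haux : ∀ (i₀ : Fin (p + 1)) (n : Mn q), Ph r hr i₀ n = s → ∃ c d : ℤ, ∀ i,
        (p : ℤ) ∣ (![s.1 k 0, s.1 k 1] i - (c * r i₀ 0 i + d * r i₀ 1 i)) := by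
      intro i₀ n hn
      refine ⟨n.1 k 0, n.1 k 1, fun i => ?_⟩
      have h1 : s.1 = n.1 * r i₀ := by
        rw [← hn]
        rfl
      have h2 : ![s.1 k 0, s.1 k 1] i = s.1 k i := by
        fin_cases i <;> rfl
      rw [h2, h1, Matrix.mul_apply, Fin.sum_univ_two, sub_self]
      exact dvd_zero _
    exact hlast j j' hjj _ _ (haux j m hm) (haux j' m' hm')
  refine ⟨Matrix.of fun k i => s.1 k i / p, ?_⟩
  ext k i
  rw [Matrix.smul_apply, Matrix.of_apply, smul_eq_mul]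
  fin_cases i
  · exact (Int.mul_ediv_cancel' (key k).1).symm
  · exact (Int.mul_ediv_cancel' (key k).2).symm

lemma div_det {p q : ℕ} (hp : p.Prime) (hq : q.Prime) {s : Mn (p * q)} {t : Mat}
    (h : s.1 = (p : ℤ) • t) : p = q ∧ t.det = 1 := by
  have h1 := s.2
  rw [h, Matrix.det_smul, Fintype.card_fin] at h1
  have hp0 : (p : ℤ) ≠ 0 := by exact_mod_cast hp.ne_zero
  have h2 : (p : ℤ) * t.det = q := by
    have h3 : (p : ℤ) * ((p : ℤ) * t.det) = (p : ℤ) * q := by
      push_cast at h1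
      linear_combination h1
    exact mul_left_cancel₀ hp0 h3
  have h4 : (p : ℤ) ∣ (q : ℤ) := ⟨_, h2.symm⟩
  have h5 : p = q := (Nat.prime_dvd_prime_iff_eq hp hq).1 (by exact_mod_cast h4)
  refine ⟨h5, ?_⟩
  subst h5
  have h6 : (p : ℤ) * t.det = (p : ℤ) * 1 := by rw [h2, mul_one]
  exact mul_left_cancel₀ hp0 h6

/-- The scalar multiples of `SL(2, ℤ)`. -/
def io' (p : ℕ) (γ : SL(2, ℤ)) : Mn (p * p) :=
  ⟨(p : ℤ) • (γ : Mat), by
    rw [Matrix.det_smul, γ.det_coe, Fintype.card_fin]; push_cast; ring⟩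

lemma io'_inj {p : ℕ} (hp : 0 < p) : Function.Injective (io' p) := by
  intro γ γ' h
  have h1 : (p : ℤ) • (γ : Mat) = (p : ℤ) • (γ' : Mat) := congrArg Subtype.val h
  apply Subtype.ext
  ext a b
  have h3 := congrFun (congrFun h1 a) b
  rw [Matrix.smul_apply, Matrix.smul_apply, smul_eq_mul, smul_eq_mul] at h3
  exact mul_left_cancel₀ (by exact_mod_cast hp.ne') h3

end A2M

open A2M

theorem stmtA2 (hNu : StmtNuL) (hUnf : StmtUnf) (hCo : StmtCo) (hNm : StmtNm) : StmtA2 := by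
  classical
  intro F hF p q hp hq
  obtain ⟨r, hr, -, hadj, -, hlast⟩ := hCo p hp
  have hLHS := unfold_lhs hNu hUnf hNm hF hp.pos hq.pos r hr hadj
  change ∫⁻ y in FF, hs F p y * hs F q y ∂nu ≤ _
  rw [hLHS]
  refine mul_le_mul_right ?_ 2
  -- the sum over the pairs
  have h1 : ∀ j, ∑' m : Mn q, DF F (nm (m.1 * r j)) =
      ∑' s : Mn (p * q), (Set.range (Ph r hr j)).indicator
        (fun s : Mn (p * q) => DF F (nm s.1)) s := by
    intro j
    rw [← tsum_subtype, tsum_range (fun s : Mn (p * q) => DF F (nm s.1)) (Ph_inj hp.pos r hr j)]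
    rfl
  simp only [h1]
  rw [← Summable.tsum_finsetSum fun j _ => ENNReal.summable]
  -- a matrix not of the form `p γ` is hit at most once
  have hone : ∀ s : Mn (p * q), (¬ ∃ t : Mat, s.1 = (p : ℤ) • t) →
      ∑ j, (Set.range (Ph r hr j)).indicator (fun s : Mn (p * q) => DF F (nm s.1)) s ≤
        DF F (nm s.1) := by
    intro s hs
    by_cases hj : ∃ j, s ∈ Set.range (Ph r hr j)
    · obtain ⟨j, hj⟩ := hj
      rw [Finset.sum_eq_single j]
      · rw [Set.indicator_of_mem hj]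
      · intro j' _ hjj
        rw [Set.indicator_of_notMem]
        intro hj'
        exact hs (twice r hr hlast hjj hj' hj)
      · intro h
        exact absurd (Finset.mem_univ j) h
    · push Not at hj
      rw [Finset.sum_eq_zero fun j _ => Set.indicator_of_notMem (hj j) _]
      exact zero_le
  by_cases hpq : p = q
  · subst hpq
    rw [if_pos rfl]
    have h2 : ∀ s : Mn (p * p),
        ∑ j, (Set.range (Ph r hr j)).indicator (fun s : Mn (p * p) => DF F (nm s.1)) s ≤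
          DF F (nm s.1) + (Set.range (io' p)).indicator
            (fun s : Mn (p * p) => (p : ℝ≥0∞) * DF F (nm s.1)) s := by
      intro s
      by_cases hs : ∃ t : Mat, s.1 = (p : ℤ) • t
      · obtain ⟨t, ht⟩ := hs
        have hdet := (div_det hp hp ht).2
        have hmem : s ∈ Set.range (io' p) := ⟨⟨t, hdet⟩, Subtype.ext ht.symm⟩
        rw [Set.indicator_of_mem hmem]
        calc ∑ j, (Set.range (Ph r hr j)).indicator (fun s : Mn (p * p) => DF F (nm s.1)) s
            ≤ ∑ _j : Fin (p + 1), DF F (nm s.1) :=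
              Finset.sum_le_sum fun j _ => Set.indicator_le_self' (fun _ _ => zero_le) s
          _ = DF F (nm s.1) + (p : ℝ≥0∞) * DF F (nm s.1) := by
              rw [Finset.sum_const, Finset.card_univ, Fintype.card_fin, nsmul_eq_mul]
              push_cast
              ring
      · exact (hone s hs).trans le_self_add
    refine (ENNReal.tsum_le_tsum h2).trans (le_of_eq ?_)
    rw [ENNReal.tsum_add]
    congr 1
    rw [← tsum_subtype, tsum_range (fun s : Mn (p * p) => (p : ℝ≥0∞) * DF F (nm s.1))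
      (io'_inj hp.pos), ENNReal.tsum_mul_left]
    congr 1
    refine tsum_congr fun γ => ?_
    change DF F (nm ((p : ℤ) • (γ : Mat))) = _
    rw [hNm.2.2.2.1 (p : ℤ) (γ : Mat) (by exact_mod_cast hp.pos), hNm.2.1]
  · rw [if_neg hpq, add_zero]
    refine ENNReal.tsum_le_tsum fun s => hone s ?_
    rintro ⟨t, ht⟩
    exact hpq (div_det hp hq ht).1

end

end Pool.Agent.A54.Hp
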