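import Pool.Agent.Lib.MP_a54f13_nt.Hp.SpecM

/-!
# Package `Hp`, part M: the amplifier inequality
-/

set_option autoImplicit false

namespace Pool.Agent.A54.Hp

open MeasureTheory Filter Topology Set
open scoped ContDiff ComplexConjugate UpperHalfPlane MatrixGroups ENNReal
open Pool.Agent.A54.Dyn (G io)
open Pool.Agent.A54.Av (Mat)

noncomputable section

namespace AIM

/-- the cut off absolute value -/
def ff (Φ : G → ℂ) (U : Set G) : G → ℝ≥0∞ := U.indicator (fun x => ‖Φ x‖ₑ)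

lemma ff_meas (Φ : G → ℂ) (hΦ : Continuous Φ) (U : Set G) (hU : MeasurableSet U) :
    Measurable (ff Φ U) := (hΦ.enorm.measurable).indicator hU

/-- the sum over `M_p` -/
def TT (Φ : G → ℂ) (U : Set G) (p : ℕ) (y : G) : ℝ≥0∞ := ∑' m : Mn p, ff Φ U (nm m.1 * y)

instance countMat : Countable Mat := inferInstanceAs (Countable (Fin 2 → Fin 2 → ℤ))

lemma TT_meas (Φ : G → ℂ) (hΦ : Continuous Φ) (U : Set G) (hU : MeasurableSet U) (p : ℕ) :
    Measurable (TT Φ U p) := by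
  unfold TT
  have : Countable (Mn p) := inferInstanceAs (Countable {s : Mat // s.det = (p : ℤ)})
  exact Measurable.tsum fun m =>
    (ff_meas Φ hΦ U hU).comp (measurable_const.mul measurable_id)

lemma cs {α : Type*} [MeasurableSpace α] (μ : Measure α) (f g : α → ℝ≥0∞) (hf : Measurable f)
    (hg : Measurable g) :
    (∫⁻ x, f x * g x ∂μ) ^ 2 ≤ (∫⁻ x, f x ^ 2 ∂μ) * ∫⁻ x, g x ^ 2 ∂μ := by
  have h3 := ENNReal.lintegral_mul_le_Lp_mul_Lq μ (p := 2) (q := 2) Real.HolderConjugate.two_two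
    hf.aemeasurable hg.aemeasurable
  have h4 : ∀ f : α → ℝ≥0∞, ∫⁻ x, f x ^ (2 : ℝ) ∂μ = ∫⁻ x, f x ^ 2 ∂μ := by
    intro f
    refine lintegral_congr fun x => ?_
    rw [← ENNReal.rpow_natCast]
    norm_num
  rw [h4, h4] at h3
  have h5 : ∀ a : ℝ≥0∞, (a ^ (1 / 2 : ℝ)) ^ 2 = a := by
    intro a
    rw [← ENNReal.rpow_natCast, ← ENNReal.rpow_mul]
    norm_num
  calc (∫⁻ x, f x * g x ∂μ) ^ 2 ≤
      ((∫⁻ x, f x ^ 2 ∂μ) ^ (1 / 2 : ℝ) * (∫⁻ x, g x ^ 2 ∂μ) ^ (1 / 2 : ℝ)) ^ 2 :=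
        pow_le_pow_left' h3 2
    _ = (∫⁻ x, f x ^ 2 ∂μ) * ∫⁻ x, g x ^ 2 ∂μ := by rw [mul_pow, h5, h5]

lemma enorm_ind (Φ : G → ℂ) (U : Set G) (x : G) : ‖U.indicator Φ x‖ₑ = ff Φ U x := by
  unfold ff
  by_cases hx : x ∈ U
  · rw [indicator_of_mem hx, indicator_of_mem hx]
  · rw [indicator_of_notMem hx, indicator_of_notMem hx, enorm_zero]

lemma one (hT : StmtTot) (hH : StmtHI) (l : ℕ → ℝ) (Φ : G → ℂ) (hΦ : HE l Φ) (R : ℝ) (U : Set G)
    (hU : MeasurableSet U) (hUR : U ⊆ Om R) (p : ℕ) (hp : p.Prime) :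
    ENNReal.ofReal |l p| * ms Φ U ≤
      2⁻¹ * (ENNReal.ofReal (√(p : ℝ))⁻¹ * ∫⁻ y in FF, ‖Φ y‖ₑ * TT Φ U p y ∂nu) := by
  obtain ⟨-, h2⟩ := hH l Φ hΦ R U hU hUR p hp
  have hp0 : (0 : ℝ) < √(p : ℝ) := Real.sqrt_pos.2 (by exact_mod_cast hp.pos)
  -- the mass
  obtain ⟨C, -, hC⟩ := hT (max R 1) (le_max_right _ _)
  have hfin : ms Φ U ≠ ⊤ := by
    refine ne_top_of_le_ne_top ENNReal.ofReal_ne_top (le_trans ?_ (hC l Φ hΦ))
    refine lintegral_mono_set (hUR.trans fun g hg i j => (hg i j).trans (le_max_left _ _))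
  have hms : ms Φ U = ENNReal.ofReal (∫ g in U, ‖Φ g‖ ^ 2 ∂nu) := by
    have e1 : ∀ g, ‖Φ g‖ₑ ^ 2 = ENNReal.ofReal (‖Φ g‖ ^ 2) := by
      intro g
      rw [ENNReal.ofReal_pow (norm_nonneg _), ofReal_norm]
    unfold ms at hfin ⊢
    rw [lintegral_congr e1] at hfin ⊢
    rw [ofReal_integral_eq_lintegral_ofReal]
    · refine ⟨(hΦ.cont.norm.pow 2).aestronglyMeasurable, ?_⟩
      rw [hasFiniteIntegral_iff_ofReal (ae_of_all _ fun g => by positivity)]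
      exact hfin.lt_top
    · exact ae_of_all _ fun g => by positivity
  have h3 : ‖(∫ g in U, (((‖Φ g‖ ^ 2 : ℝ)) : ℂ) ∂nu)‖ₑ = ms Φ U := by
    rw [integral_complex_ofReal, hms]
    have h0 : 0 ≤ ∫ g in U, ‖Φ g‖ ^ 2 ∂nu := integral_nonneg fun g => by positivity
    rw [← ofReal_norm, Complex.norm_real, Real.norm_of_nonneg h0]
  have h4 : ‖((√p * l p : ℝ) : ℂ)‖ₑ = ENNReal.ofReal √(p : ℝ) * ENNReal.ofReal |l p| := by
    rw [← ofReal_norm, Complex.norm_real, Real.norm_eq_abs, abs_mul, abs_of_pos hp0,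
      ENNReal.ofReal_mul hp0.le]
  have h5 := congrArg (fun z : ℂ => ‖z‖ₑ) h2
  simp only [enorm_mul] at h5
  rw [h3, h4] at h5
  have h6 : ‖(1 / 2 : ℂ)‖ₑ = 2⁻¹ := by
    rw [← ofReal_norm]
    have : ‖(1 / 2 : ℂ)‖ = 2⁻¹ := by simp
    rw [this, ENNReal.ofReal_inv_of_pos two_pos]
    simp
  rw [h6] at h5
  have h7 : ‖∫ y in FF, Φ y * conj (∑' m : Mn p, U.indicator Φ (nm m.1 * y)) ∂nu‖ₑ ≤
      ∫⁻ y in FF, ‖Φ y‖ₑ * TT Φ U p y ∂nu := by
    refine (enorm_integral_le_lintegral_enorm _).trans (lintegral_mono fun y => ?_)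
    rw [enorm_mul]
    refine mul_le_mul_right ?_ _
    have e2 : ∀ z : ℂ, ‖conj z‖ₑ = ‖z‖ₑ := fun z => by
      rw [← ofReal_norm, ← ofReal_norm, RCLike.norm_conj]
    rw [e2]
    unfold TT
    refine enorm_tsum_le_tsum_enorm.trans ?_
    exact le_of_eq (tsum_congr fun m => enorm_ind Φ U _)
  have h8 : ENNReal.ofReal (√(p : ℝ))⁻¹ * ENNReal.ofReal √(p : ℝ) = 1 := by
    rw [← ENNReal.ofReal_mul (by positivity), inv_mul_cancel₀ hp0.ne', ENNReal.ofReal_one]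
  calc ENNReal.ofReal |l p| * ms Φ U =
      ENNReal.ofReal (√(p : ℝ))⁻¹ * (ENNReal.ofReal √(p : ℝ) * ENNReal.ofReal |l p| * ms Φ U) := by
        rw [mul_assoc, ← mul_assoc (ENNReal.ofReal (√(p : ℝ))⁻¹), h8, one_mul]
    _ ≤ ENNReal.ofReal (√(p : ℝ))⁻¹ * (2⁻¹ * ∫⁻ y in FF, ‖Φ y‖ₑ * TT Φ U p y ∂nu) := by
        rw [h5]
        exact mul_le_mul_right (mul_le_mul_right h7 _) _
    _ = _ := by ring

end AIM

open AIM

theorem stmtAI (hT : StmtTot) (hH : StmtHI) (hA : StmtA2) : StmtAI := by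
  intro l Φ hΦ R U hU hUR P hP
  have hf := ff_meas Φ hΦ.cont U hU
  have hTm := TT_meas Φ hΦ.cont U hU
  set a : ℕ → ℝ≥0∞ := fun p => ENNReal.ofReal (√(p : ℝ))⁻¹ with ha
  have h1 : ENNReal.ofReal (∑ p ∈ P, |l p|) * ms Φ U ≤
      2⁻¹ * ∫⁻ y in FF, ‖Φ y‖ₑ * (∑ p ∈ P, a p * TT Φ U p y) ∂nu := by
    rw [ENNReal.ofReal_sum_of_nonneg fun p _ => abs_nonneg _, Finset.sum_mul]
    refine (Finset.sum_le_sum fun p hp => one hT hH l Φ hΦ R U hU hUR p (hP p hp)).trans ?_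
    rw [← Finset.mul_sum]
    refine mul_le_mul_right ?_ _
    have e1 : ∀ y, ‖Φ y‖ₑ * (∑ p ∈ P, a p * TT Φ U p y) =
        ∑ p ∈ P, a p * (‖Φ y‖ₑ * TT Φ U p y) := by
      intro y
      rw [Finset.mul_sum]
      exact Finset.sum_congr rfl fun p _ => by ring
    rw [lintegral_congr e1, lintegral_finsetSum]
    · refine Finset.sum_le_sum fun p _ => ?_
      exact le_of_eq (lintegral_const_mul (a p) (hΦ.cont.enorm.measurable.mul (hTm p))).symm
    · exact fun p _ => (hΦ.cont.enorm.measurable.mul (hTm p)).const_mul _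
  have hPsi : Measurable fun y => ∑ p ∈ P, a p * TT Φ U p y :=
    Finset.measurable_sum _ fun p _ => (hTm p).const_mul _
  have h2 : (ENNReal.ofReal (∑ p ∈ P, |l p|) * ms Φ U) ^ 2 ≤
      2⁻¹ * ∫⁻ y in FF, (∑ p ∈ P, a p * TT Φ U p y) ^ 2 ∂nu := by
    refine (pow_le_pow_left' h1 2).trans ?_
    rw [mul_pow]
    refine (mul_le_mul_right (cs (nu.restrict FF) (fun y => ‖Φ y‖ₑ)
      (fun y => ∑ p ∈ P, a p * TT Φ U p y) hΦ.cont.enorm.measurable hPsi) _).trans ?_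
    refine (mul_le_mul_right (mul_le_mul_left hΦ.norm _) _).trans (le_of_eq ?_)
    rw [← mul_assoc]
    congr 1
    rw [pow_two, mul_assoc, ENNReal.inv_mul_cancel two_ne_zero ENNReal.ofNat_ne_top, mul_one]
  rw [← mul_pow]
  refine h2.trans ?_
  have h3 : ∫⁻ y in FF, (∑ p ∈ P, a p * TT Φ U p y) ^ 2 ∂nu =
      ∑ p ∈ P, ∑ q ∈ P, a p * a q * ∫⁻ y in FF, TT Φ U p y * TT Φ U q y ∂nu := by
    have e1 : ∀ y, (∑ p ∈ P, a p * TT Φ U p y) ^ 2 =
        ∑ p ∈ P, ∑ q ∈ P, a p * a q * (TT Φ U p y * TT Φ U q y) := by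
      intro y
      rw [pow_two, Finset.sum_mul_sum]
      exact Finset.sum_congr rfl fun p _ => Finset.sum_congr rfl fun q _ => by ring
    rw [lintegral_congr e1, lintegral_finsetSum]
    · refine Finset.sum_congr rfl fun p _ => ?_
      rw [lintegral_finsetSum]
      · exact Finset.sum_congr rfl fun q _ => lintegral_const_mul _ ((hTm p).mul (hTm q))
      · exact fun q _ => ((hTm p).mul (hTm q)).const_mul _
    · exact fun p _ => Finset.measurable_sum _ fun q _ => ((hTm p).mul (hTm q)).const_mul _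
  rw [h3]
  have h4 : ∀ p ∈ P, ∀ q ∈ P, a p * a q * ∫⁻ y in FF, TT Φ U p y * TT Φ U q y ∂nu ≤
      2 * (ENNReal.ofReal ((√((p : ℝ) * q))⁻¹) * (∑' s : Mn (p * q), Dd Φ U (nm s.1)) +
        (if p = q then ∑' γ : SL(2, ℤ), Dd Φ U (io γ) else 0)) := by
    intro p hp q hq
    have e1 := hA (ff Φ U) hf p q (hP p hp) (hP q hq)
    have e2 : a p * a q = ENNReal.ofReal ((√((p : ℝ) * q))⁻¹) := by
      rw [ha, ← ENNReal.ofReal_mul (by positivity), Real.sqrt_mul (by positivity), mul_inv]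
    refine (mul_le_mul_right e1 _).trans (le_of_eq ?_)
    rw [mul_left_comm, mul_add, e2]
    congr 2
    by_cases hpq : p = q
    · subst hpq
      rw [if_pos rfl, if_pos rfl, ← mul_assoc]
      have e3 : ENNReal.ofReal ((√((p : ℝ) * p))⁻¹) * (p : ℝ≥0∞) = 1 := by
        have hp0 : (0 : ℝ) < p := by exact_mod_cast (hP p hp).pos
        rw [Real.sqrt_mul_self hp0.le, ← ENNReal.ofReal_natCast, ← ENNReal.ofReal_mul (by positivity),
          inv_mul_cancel₀ hp0.ne', ENNReal.ofReal_one]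
      rw [e3, one_mul]
      rfl
    · rw [if_neg hpq, if_neg hpq, mul_zero]
  refine (mul_le_mul_right (Finset.sum_le_sum fun p hp => Finset.sum_le_sum fun q hq =>
    h4 p hp q hq) _).trans (le_of_eq ?_)
  simp_rw [← Finset.mul_sum]
  rw [← mul_assoc, ENNReal.inv_mul_cancel two_ne_zero ENNReal.ofNat_ne_top, one_mul]
  simp_rw [Finset.sum_add_distrib]
  congr 1
  rw [Finset.sum_congr rfl fun p hp => Finset.sum_ite_eq P p fun _ => ∑' γ : SL(2, ℤ), Dd Φ U (io γ)]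
  rw [Finset.sum_congr rfl fun p hp => if_pos hp, Finset.sum_const, nsmul_eq_mul]

end

end Pool.Agent.A54.Hp
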