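import Pool.Agent.Lib.MP_a54f13_nt.Hp.SpecB

/-!
The area formula for point pair functions (helper10).
-/

set_option autoImplicit false

namespace Pool.Agent.A54.Hp

open MeasureTheory Filter Topology Set
open scoped ContDiff ComplexConjugate UpperHalfPlane MatrixGroups ENNReal
open Pool.Agent.A54.Dyn (G fl base ze io mk4 dom)

noncomputable section

namespace ArM

/-- iterated integrals over the half-plane -/
lemma prodInt (F : ℂ → ℝ≥0∞) (hF0 : Measurable F) :
    ∫⁻ z in {z : ℂ | 0 < z.im}, ENNReal.ofReal (1 / z.im ^ 2) * F z =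
      ∫⁻ y in Ioi (0 : ℝ), ∫⁻ x : ℝ, ENNReal.ofReal (1 / y ^ 2) * F ⟨x, y⟩ := by
  have hmS : MeasurableSet {z : ℂ | 0 < z.im} := measurableSet_lt measurable_const
    Complex.measurable_im
  rw [← lintegral_indicator hmS]
  have hF : Measurable ({z : ℂ | 0 < z.im}.indicator
      fun a : ℂ => ENNReal.ofReal (1 / a.im ^ 2) * F a) := by
    refine Measurable.indicator ?_ hmS
    refine Measurable.mul ?_ hF0
    exact ((Complex.measurable_im.pow_const 2).const_div 1).ennreal_ofReal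
  have hQ : Measurable (fun a : ℝ × ℝ => ({z : ℂ | 0 < z.im}.indicator
      fun a : ℂ => ENNReal.ofReal (1 / a.im ^ 2) * F a) (Complex.measurableEquivRealProd.symm a)) :=
    hF.comp Complex.measurableEquivRealProd.symm.measurable
  rw [← Complex.volume_preserving_equiv_real_prod.symm.lintegral_comp hF,
    Measure.volume_eq_prod, lintegral_prod_symm' _ hQ, ← lintegral_indicator
      measurableSet_Ioi]
  refine lintegral_congr fun y => ?_
  by_cases hy : 0 < y
  · rw [Set.indicator_of_mem (show y ∈ Ioi (0 : ℝ) from hy)]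
    refine lintegral_congr fun x => ?_
    have : (Complex.measurableEquivRealProd.symm (x, y)) = (⟨x, y⟩ : ℂ) := rfl
    rw [this, Set.indicator_of_mem (show (⟨x, y⟩ : ℂ) ∈ {z : ℂ | 0 < z.im} from hy)]
  · rw [Set.indicator_of_notMem (show y ∉ Ioi (0 : ℝ) from hy)]
    have : ∀ x : ℝ, ({z : ℂ | 0 < z.im}.indicator
      fun a : ℂ => ENNReal.ofReal (1 / a.im ^ 2) * F a) (Complex.measurableEquivRealProd.symm (x, y))
        = 0 := by
      intro x
      have : (Complex.measurableEquivRealProd.symm (x, y)) = (⟨x, y⟩ : ℂ) := rfl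
      rw [this, Set.indicator_of_notMem (show (⟨x, y⟩ : ℂ) ∉ {z : ℂ | 0 < z.im} from hy)]
    rw [lintegral_congr this, lintegral_zero]

lemma uh_meas (z : ℍ) : Measurable fun w : ℍ => uh z w := by
  unfold uh
  refine Measurable.div ?_ ?_
  · exact ((measurable_const.sub UpperHalfPlane.measurableEmbedding_coe.measurable).norm).pow_const 2
  · exact (UpperHalfPlane.continuous_im.measurable).const_mul _

/-- invariance -/
lemma inv (hUg : StmtUg) (k : ℝ → ℝ≥0∞) (hk : Measurable k) (z : ℍ) :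
    ∫⁻ w : ℍ, k (uh z w) = ∫⁻ w : ℍ, k (uh UpperHalfPlane.I w) := by
  have hmp : MeasurePreserving (fun w : ℍ => z.toSL2R • w) volume volume :=
    measurePreserving_smul (Matrix.SpecialLinearGroup.mapGL ℝ z.toSL2R) (volume : Measure ℍ)
  have h1 := hmp.lintegral_comp (f := fun w : ℍ => k (uh z w)) (hk.comp (uh_meas z))
  rw [← h1]
  refine lintegral_congr fun w => ?_
  have h2 := hUg.1 z.toSL2R UpperHalfPlane.I w
  rw [UpperHalfPlane.toSL2R_smul_I] at h2
  rw [h2]

/-- the substitution `x = e^η v` -/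
lemma scale (c : ℝ) (hc : 0 < c) (g : ℝ → ℝ≥0∞) :
    ∫⁻ x : ℝ, g x = ENNReal.ofReal c * ∫⁻ v : ℝ, g (c * v) := by
  have h1 := lintegral_image_eq_lintegral_abs_deriv_mul (s := (univ : Set ℝ))
    (f := fun v : ℝ => c * v) (f' := fun _ => c) MeasurableSet.univ
    (fun x _ => by
      have := (hasDerivAt_id x).const_mul c
      rw [mul_one] at this
      exact this.hasDerivWithinAt)
    (fun x _ y _ h => mul_left_cancel₀ hc.ne' h) g
  have h2 : (fun v : ℝ => c * v) '' univ = univ := by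
    rw [image_univ]
    exact (mul_left_surjective₀ hc.ne').range_eq
  rw [h2, Measure.restrict_univ] at h1
  rw [h1]
  simp only [abs_of_pos hc]
  rw [lintegral_const_mul' _ _ ENNReal.ofReal_ne_top]

/-- the substitution `y = e^(2η)` -/
lemma expo (g : ℝ → ℝ≥0∞) : ∫⁻ y in Ioi (0 : ℝ), g y =
    ∫⁻ η : ℝ, ENNReal.ofReal (2 * Real.exp (2 * η)) * g (Real.exp (2 * η)) := by
  have h1 := lintegral_image_eq_lintegral_abs_deriv_mul (s := (univ : Set ℝ))
    (f := fun η : ℝ => Real.exp (2 * η)) (f' := fun η => 2 * Real.exp (2 * η)) MeasurableSet.univ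
    (fun x _ => by
      have := ((hasDerivAt_id x).const_mul (2 : ℝ)).exp
      rw [mul_one, mul_comm] at this
      exact this.hasDerivWithinAt)
    (fun x _ y _ h => by
      have h3 := Real.exp_injective h
      linarith) g
  have h2 : (fun η : ℝ => Real.exp (2 * η)) '' univ = Ioi 0 := by
    ext y
    constructor
    · rintro ⟨η, _, rfl⟩
      exact Real.exp_pos _
    · intro hy
      refine ⟨Real.log y / 2, mem_univ _, ?_⟩
      show Real.exp (2 * (Real.log y / 2)) = y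
      rw [mul_div_cancel₀ _ (by norm_num : (2 : ℝ) ≠ 0), Real.exp_log hy]
  rw [h2, Measure.restrict_univ] at h1
  rw [h1]
  refine lintegral_congr fun η => ?_
  rw [abs_of_pos (by positivity)]

/-- the function `F(s) = ∫ k(v² + s²) dv` -/
def FF1 (k : ℝ → ℝ≥0∞) (s : ℝ) : ℝ≥0∞ := ∫⁻ v : ℝ, k (v ^ 2 + s ^ 2)

lemma FF1_meas (k : ℝ → ℝ≥0∞) (hk : Measurable k) : Measurable (FF1 k) := by
  have h1 : Measurable fun p : ℝ × ℝ => k (p.2 ^ 2 + p.1 ^ 2) :=
    hk.comp ((measurable_snd.pow_const 2).add (measurable_fst.pow_const 2))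
  exact h1.lintegral_prod_right'

lemma FF1_neg (k : ℝ → ℝ≥0∞) (s : ℝ) : FF1 k (-s) = FF1 k s := by
  unfold FF1
  rw [neg_sq]

/-- the integral in the coordinates `η`, `v` -/
lemma step (k : ℝ → ℝ≥0∞) :
    ∫⁻ y in Ioi (0 : ℝ), ∫⁻ x : ℝ, ENNReal.ofReal (1 / y ^ 2) *
      k ((x ^ 2 + (y - 1) ^ 2) / y) =
    ∫⁻ η : ℝ, ENNReal.ofReal (2 * Real.exp (-η)) * FF1 k (2 * Real.sinh η) := by
  rw [expo]
  refine lintegral_congr fun η => ?_
  rw [lintegral_const_mul' _ _ ENNReal.ofReal_ne_top, scale (Real.exp η) (Real.exp_pos η),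
    ← mul_assoc, ← mul_assoc, ← ENNReal.ofReal_mul (by positivity),
    ← ENNReal.ofReal_mul (by positivity)]
  have h1 : 2 * Real.exp (2 * η) * (1 / Real.exp (2 * η) ^ 2) * Real.exp η =
      2 * Real.exp (-η) := by
    have h2 : Real.exp (2 * η) = Real.exp η ^ 2 := by
      rw [two_mul, Real.exp_add, sq]
    rw [h2, Real.exp_neg]
    have := (Real.exp_pos η).ne'
    field_simp
  rw [h1]
  congr 1
  unfold FF1
  refine lintegral_congr fun v => ?_
  congr 1
  have h2 : Real.exp (2 * η) = Real.exp η ^ 2 := by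
    rw [two_mul, Real.exp_add, sq]
  rw [h2, Real.sinh_eq, Real.exp_neg]
  have := (Real.exp_pos η).ne'
  field_simp

/-- averaging with `η ↦ -η` -/
lemma avg (k : ℝ → ℝ≥0∞) (hk : Measurable k) :
    ∫⁻ η : ℝ, ENNReal.ofReal (2 * Real.exp (-η)) * FF1 k (2 * Real.sinh η) =
    ∫⁻ η : ℝ, ENNReal.ofReal (2 * 1 * Real.cosh (η + 0)) * FF1 k (2 * 1 * Real.sinh (η + 0)) := by
  have hm : ∀ g : ℝ → ℝ, Measurable g → Measurable fun η : ℝ =>
      ENNReal.ofReal (g η) * FF1 k (2 * Real.sinh η) := by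
    intro g hg
    exact hg.ennreal_ofReal.mul ((FF1_meas k hk).comp (Real.measurable_sinh.const_mul 2))
  have h1 : ∫⁻ η : ℝ, ENNReal.ofReal (2 * Real.exp (-η)) * FF1 k (2 * Real.sinh η) =
      ∫⁻ η : ℝ, ENNReal.ofReal (2 * Real.exp η) * FF1 k (2 * Real.sinh η) := by
    rw [← lintegral_neg_eq_self]
    refine lintegral_congr fun η => ?_
    rw [neg_neg, Real.sinh_neg, mul_neg, FF1_neg]
  have h2 : (2 : ℝ≥0∞) * ∫⁻ η : ℝ, ENNReal.ofReal (2 * Real.exp (-η)) *
        FF1 k (2 * Real.sinh η) =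
      2 * ∫⁻ η : ℝ, ENNReal.ofReal (2 * 1 * Real.cosh (η + 0)) *
        FF1 k (2 * 1 * Real.sinh (η + 0)) := by
    calc (2 : ℝ≥0∞) * ∫⁻ η : ℝ, ENNReal.ofReal (2 * Real.exp (-η)) * FF1 k (2 * Real.sinh η)
        = (∫⁻ η : ℝ, ENNReal.ofReal (2 * Real.exp (-η)) * FF1 k (2 * Real.sinh η)) +
          ∫⁻ η : ℝ, ENNReal.ofReal (2 * Real.exp (-η)) * FF1 k (2 * Real.sinh η) := two_mul _
      _ = (∫⁻ η : ℝ, ENNReal.ofReal (2 * Real.exp (-η)) * FF1 k (2 * Real.sinh η)) +
          ∫⁻ η : ℝ, ENNReal.ofReal (2 * Real.exp η) * FF1 k (2 * Real.sinh η) :=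
        congrArg (fun x => (∫⁻ η : ℝ, ENNReal.ofReal (2 * Real.exp (-η)) *
          FF1 k (2 * Real.sinh η)) + x) h1
      _ = ∫⁻ η : ℝ, (ENNReal.ofReal (2 * Real.exp (-η)) * FF1 k (2 * Real.sinh η) +
          ENNReal.ofReal (2 * Real.exp η) * FF1 k (2 * Real.sinh η)) :=
        (lintegral_add_left (hm _ ((Real.measurable_exp.comp measurable_neg).const_mul 2)) _).symm
      _ = ∫⁻ η : ℝ, 2 * (ENNReal.ofReal (2 * 1 * Real.cosh (η + 0)) *
          FF1 k (2 * 1 * Real.sinh (η + 0))) := by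
        refine lintegral_congr fun η => ?_
        rw [mul_one, add_zero, ← add_mul, ← mul_assoc,
          ← ENNReal.ofReal_add (by positivity) (by positivity)]
        congr 1
        have h4 : (2 : ℝ≥0∞) = ENNReal.ofReal 2 := by norm_num
        rw [h4, ← ENNReal.ofReal_mul (by norm_num), Real.cosh_eq]
        congr 1
        ring
      _ = 2 * ∫⁻ η : ℝ, ENNReal.ofReal (2 * 1 * Real.cosh (η + 0)) *
          FF1 k (2 * 1 * Real.sinh (η + 0)) := lintegral_const_mul' _ _ (by norm_num)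
  exact (ENNReal.mul_right_inj (by norm_num) (by norm_num)).1 h2

end ArM

open ArM in
theorem stmtAr (hUg : StmtUg) (hPo : StmtPo) (hLh : StmtLh) : StmtAr := by
  intro k hk z
  rw [inv hUg k hk z]
  -- the function on the plane
  have hm : Measurable fun w : ℂ => k ((w.re ^ 2 + (w.im - 1) ^ 2) / w.im) :=
    hk.comp (((Complex.measurable_re.pow_const 2).add
      ((Complex.measurable_im.sub_const 1).pow_const 2)).div Complex.measurable_im)
  have h1 : ∀ w : ℍ, k (uh UpperHalfPlane.I w) =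
      (fun w : ℂ => k ((w.re ^ 2 + (w.im - 1) ^ 2) / w.im)) (w : ℂ) := by
    intro w
    show k (uh UpperHalfPlane.I w) = k (((w : ℂ).re ^ 2 + ((w : ℂ).im - 1) ^ 2) / (w : ℂ).im)
    congr 1
    unfold uh
    rw [← Complex.normSq_eq_norm_sq, Complex.normSq_apply, UpperHalfPlane.I_im,
      UpperHalfPlane.coe_I, Complex.sub_re, Complex.sub_im, Complex.I_re, Complex.I_im,
      UpperHalfPlane.coe_im, one_mul]
    congr 1
    ring
  rw [lintegral_congr h1, hLh _ hm, prodInt _ hm]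
  show ∫⁻ y in Ioi (0 : ℝ), ∫⁻ x : ℝ, ENNReal.ofReal (1 / y ^ 2) *
      k ((x ^ 2 + (y - 1) ^ 2) / y) = _
  rw [step, avg k hk, hPo.2 1 0 one_pos (FF1 k) (FF1_meas k hk), ← hPo.1 k hk]
  refine lintegral_congr fun x => ?_
  unfold FF1
  refine lintegral_congr fun y => ?_
  rw [add_comm]

end

end Pool.Agent.A54.Hp
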