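import Pool.Agent.Lib.MP_a54f13_nt.Hp.SpecM

set_option autoImplicit false

namespace Pool.Agent.A54.Hp

open MeasureTheory Filter Topology Set
open scoped ContDiff ComplexConjugate UpperHalfPlane MatrixGroups ENNReal
open Pool.Agent.A54.Av (Mat NonSc)

namespace CoM

/-- the representatives -/
def rp (p : ℕ) (j : Fin (p + 1)) : Mat :=
  if j.val < p then !![1, (j.val : ℤ); 0, (p : ℤ)] else !![(p : ℤ), 0; 0, 1]

/-- the row `(a, b)` is in the row space of `rp p j` modulo `p` -/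
def Q (p : ℕ) (j : Fin (p + 1)) (a b : ℤ) : Prop :=
  if j.val < p then (p : ℤ) ∣ b - a * j.val else (p : ℤ) ∣ a

theorem rp_lt {p : ℕ} {j : Fin (p + 1)} (h : j.val < p) :
    rp p j = !![1, (j.val : ℤ); 0, (p : ℤ)] := if_pos h

theorem rp_ge {p : ℕ} {j : Fin (p + 1)} (h : ¬ j.val < p) : rp p j = !![(p : ℤ), 0; 0, 1] :=
  if_neg h

theorem Q_lt {p : ℕ} {j : Fin (p + 1)} (h : j.val < p) (a b : ℤ) :
    Q p j a b ↔ (p : ℤ) ∣ b - a * j.val := by
  unfold Q
  rw [if_pos h]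

theorem Q_ge {p : ℕ} {j : Fin (p + 1)} (h : ¬ j.val < p) (a b : ℤ) :
    Q p j a b ↔ (p : ℤ) ∣ a := by
  unfold Q
  rw [if_neg h]

theorem det_rp (p : ℕ) (j : Fin (p + 1)) : (rp p j).det = (p : ℤ) := by
  by_cases h : j.val < p
  · rw [rp_lt h, Matrix.det_fin_two_of]
    ring
  · rw [rp_ge h, Matrix.det_fin_two_of]
    ring

theorem Q_of (p : ℕ) (j : Fin (p + 1)) (a b : ℤ)
    (h : ∃ c d : ℤ, ∀ i, (p : ℤ) ∣ (![a, b] i - (c * rp p j 0 i + d * rp p j 1 i))) :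
    Q p j a b := by
  obtain ⟨c, d, h⟩ := h
  have h0 := h 0
  have h1 := h 1
  by_cases hj : j.val < p
  · rw [Q_lt hj]
    rw [rp_lt hj] at h0 h1
    simp only [Matrix.cons_val_zero, Matrix.cons_val_one, Matrix.of_apply, Matrix.cons_val',
      Matrix.cons_val_fin_one, Matrix.empty_val', Matrix.head_cons, Matrix.head_fin_const] at h0 h1
    obtain ⟨u, hu⟩ := h0
    obtain ⟨v, hv⟩ := h1
    refine ⟨v + d - u * j.val, ?_⟩
    linear_combination hv - (j.val : ℤ) * hu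
  · rw [Q_ge hj]
    rw [rp_ge hj] at h0
    simp only [Matrix.cons_val_zero, Matrix.cons_val_one, Matrix.of_apply, Matrix.cons_val',
      Matrix.cons_val_fin_one, Matrix.empty_val', Matrix.head_cons, Matrix.head_fin_const] at h0
    obtain ⟨u, hu⟩ := h0
    refine ⟨u + c, ?_⟩
    linear_combination hu

theorem val_eq_of_not_lt {p : ℕ} {j : Fin (p + 1)} (h : ¬ j.val < p) : j.val = p := by
  have := j.isLt
  omega

theorem Q_uniq (p : ℕ) (hp : p.Prime) (j j' : Fin (p + 1)) (hjj : j ≠ j') (a b : ℤ)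
    (h : Q p j a b) (h' : Q p j' a b) : (p : ℤ) ∣ a ∧ (p : ℤ) ∣ b := by
  have hpz : Prime (p : ℤ) := Nat.prime_iff_prime_int.1 hp
  have key : ∀ i : Fin (p + 1), i.val < p → Q p i a b → (p : ℤ) ∣ a → (p : ℤ) ∣ b := by
    intro i hi hQ ha
    rw [Q_lt hi] at hQ
    have h1 : (p : ℤ) ∣ a * i.val := Dvd.dvd.mul_right ha _
    have h2 := dvd_add hQ h1
    rwa [sub_add_cancel] at h2
  by_cases hj : j.val < p
  · by_cases hj' : j'.val < p
    · have hQ := (Q_lt hj a b).1 h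
      have hQ' := (Q_lt hj' a b).1 h'
      have h1 : (p : ℤ) ∣ a * ((j'.val : ℤ) - j.val) := by
        have h2 := dvd_sub hQ hQ'
        have h3 : b - a * (j.val : ℤ) - (b - a * (j'.val : ℤ)) = a * ((j'.val : ℤ) - j.val) := by
          ring
        rwa [h3] at h2
      rcases hpz.dvd_or_dvd h1 with h2 | h2
      · exact ⟨h2, key j hj h h2⟩
      · exfalso
        apply hjj
        apply Fin.ext
        have h3 : |(j'.val : ℤ) - j.val| < p := by
          rw [abs_lt]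
          constructor <;> omega
        have h4 := Int.eq_zero_of_abs_lt_dvd h2 h3
        omega
    · have h1 := (Q_ge hj' a b).1 h'
      exact ⟨h1, key j hj h h1⟩
  · have h1 := (Q_ge hj a b).1 h
    by_cases hj' : j'.val < p
    · exact ⟨h1, key j' hj' h' h1⟩
    · exfalso
      apply hjj
      apply Fin.ext
      rw [val_eq_of_not_lt hj, val_eq_of_not_lt hj']

/-- solving `b ≡ a j` modulo `p` -/
theorem solve (p : ℕ) (hp : p.Prime) (a b : ℤ) (ha : ¬ (p : ℤ) ∣ a) :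
    ∃ j : ℕ, j < p ∧ (p : ℤ) ∣ b - a * j := by
  haveI : Fact p.Prime := ⟨hp⟩
  have ha' : ((a : ℤ) : ZMod p) ≠ 0 := by
    intro h
    exact ha ((ZMod.intCast_zmod_eq_zero_iff_dvd a p).1 h)
  refine ⟨((b : ZMod p) * ((a : ZMod p))⁻¹).val, ZMod.val_lt _, ?_⟩
  rw [← ZMod.intCast_zmod_eq_zero_iff_dvd]
  push_cast
  rw [ZMod.natCast_zmod_val]
  field_simp
  ring

theorem ex (p : ℕ) (hp : p.Prime) (m : Mat) (hm : m.det = (p : ℤ)) :
    ∃ j : Fin (p + 1), Q p j (m 0 0) (m 0 1) ∧ Q p j (m 1 0) (m 1 1) := by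
  have hpz : Prime (p : ℤ) := Nat.prime_iff_prime_int.1 hp
  rw [Matrix.det_fin_two] at hm
  by_cases h0 : (p : ℤ) ∣ m 0 0
  · by_cases h1 : (p : ℤ) ∣ m 1 0
    · refine ⟨Fin.last p, ?_, ?_⟩
      · rw [Q_ge (by simp)]
        exact h0
      · rw [Q_ge (by simp)]
        exact h1
    · obtain ⟨j, hj, hd⟩ := solve p hp (m 1 0) (m 1 1) h1
      have hj1 : (⟨j, Nat.lt_succ_of_lt hj⟩ : Fin (p + 1)).val < p := hj
      refine ⟨⟨j, Nat.lt_succ_of_lt hj⟩, ?_, ?_⟩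
      · rw [Q_lt hj1]
        have h2 : (p : ℤ) ∣ m 1 0 * (m 0 1 - m 0 0 * j) := by
          obtain ⟨u, hu⟩ := hd
          refine ⟨m 0 0 * u - 1, ?_⟩
          linear_combination m 0 0 * hu - hm
        rcases hpz.dvd_or_dvd h2 with h3 | h3
        · exact absurd h3 h1
        · exact h3
      · rw [Q_lt hj1]
        exact hd
  · obtain ⟨j, hj, hd⟩ := solve p hp (m 0 0) (m 0 1) h0
    have hj1 : (⟨j, Nat.lt_succ_of_lt hj⟩ : Fin (p + 1)).val < p := hj
    refine ⟨⟨j, Nat.lt_succ_of_lt hj⟩, ?_, ?_⟩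
    · rw [Q_lt hj1]
      exact hd
    · rw [Q_lt hj1]
      have h2 : (p : ℤ) ∣ m 0 0 * (m 1 1 - m 1 0 * j) := by
        obtain ⟨u, hu⟩ := hd
        refine ⟨m 1 0 * u + 1, ?_⟩
        linear_combination m 1 0 * hu + hm
      rcases hpz.dvd_or_dvd h2 with h3 | h3
      · exact absurd h3 h0
      · exact h3

theorem factor (p : ℕ) (hp : p.Prime) (m : Mat) (hm : m.det = (p : ℤ)) (j : Fin (p + 1))
    (h0 : Q p j (m 0 0) (m 0 1)) (h1 : Q p j (m 1 0) (m 1 1)) :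
    ∃ γ : SL(2, ℤ), m = (γ : Mat) * rp p j := by
  have hp0 : (p : ℤ) ≠ 0 := by
    exact_mod_cast hp.ne_zero
  rw [Matrix.det_fin_two] at hm
  by_cases hj : j.val < p
  · rw [Q_lt hj] at h0 h1
    obtain ⟨u, hu⟩ := h0
    obtain ⟨v, hv⟩ := h1
    have hdet : (!![m 0 0, u; m 1 0, v] : Mat).det = 1 := by
      rw [Matrix.det_fin_two_of]
      have h2 : (p : ℤ) * (m 0 0 * v - u * m 1 0) = p * 1 := by
        linear_combination m 0 0 * (-hv) + m 1 0 * hu + hm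
      exact mul_left_cancel₀ hp0 h2
    refine ⟨⟨!![m 0 0, u; m 1 0, v], hdet⟩, ?_⟩
    rw [rp_lt hj]
    ext i k
    fin_cases i <;> fin_cases k
    · simp [Matrix.mul_apply, Fin.sum_univ_two]
    · simp only [Matrix.mul_apply, Fin.sum_univ_two]
      simp
      linear_combination hu
    · simp [Matrix.mul_apply, Fin.sum_univ_two]
    · simp only [Matrix.mul_apply, Fin.sum_univ_two]
      simp
      linear_combination hv
  · rw [Q_ge hj] at h0 h1
    obtain ⟨u, hu⟩ := h0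
    obtain ⟨v, hv⟩ := h1
    have hdet : (!![u, m 0 1; v, m 1 1] : Mat).det = 1 := by
      rw [Matrix.det_fin_two_of]
      have h2 : (p : ℤ) * (u * m 1 1 - m 0 1 * v) = p * 1 := by
        linear_combination (-(m 1 1)) * hu + m 0 1 * hv + hm
      exact mul_left_cancel₀ hp0 h2
    refine ⟨⟨!![u, m 0 1; v, m 1 1], hdet⟩, ?_⟩
    rw [rp_ge hj]
    ext i k
    fin_cases i <;> fin_cases k
    · simp only [Matrix.mul_apply, Fin.sum_univ_two]
      simp
      linear_combination hu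
    · simp [Matrix.mul_apply, Fin.sum_univ_two]
    · simp only [Matrix.mul_apply, Fin.sum_univ_two]
      simp
      linear_combination hv
    · simp [Matrix.mul_apply, Fin.sum_univ_two]

theorem Q_row (p : ℕ) (γ : Mat) (j : Fin (p + 1)) (i : Fin 2) :
    Q p j ((γ * rp p j) i 0) ((γ * rp p j) i 1) := by
  apply Q_of
  refine ⟨γ i 0, γ i 1, fun k => ?_⟩
  have h : ![(γ * rp p j) i 0, (γ * rp p j) i 1] k = (γ * rp p j) i k := by
    fin_cases k <;> rfl
  rw [h, Matrix.mul_apply, Fin.sum_univ_two, sub_self]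
  exact dvd_zero _

theorem cancel (p : ℕ) (hp : p.Prime) (r : Mat) (hr : r.det = (p : ℤ)) (γ γ' : Mat)
    (h : γ * r = γ' * r) : γ = γ' := by
  have hp0 : (p : ℤ) ≠ 0 := by
    exact_mod_cast hp.ne_zero
  have h1 : γ * r * r.adjugate = γ' * r * r.adjugate := by rw [h]
  rw [Matrix.mul_assoc, Matrix.mul_assoc, Matrix.mul_adjugate, hr, Matrix.mul_smul,
    Matrix.mul_smul, Matrix.mul_one, Matrix.mul_one] at h1
  ext i k
  have h2 : ((p : ℤ) • γ) i k = ((p : ℤ) • γ') i k := by rw [h1]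
  rw [Matrix.smul_apply, Matrix.smul_apply, smul_eq_mul, smul_eq_mul] at h2
  exact mul_left_cancel₀ hp0 h2

theorem part2 (p : ℕ) (hp : p.Prime) (m : Mat) (hm : m.det = (p : ℤ)) :
    ∃! x : Fin (p + 1) × SL(2, ℤ), m = (x.2 : Mat) * rp p x.1 := by
  have hpz : Prime (p : ℤ) := Nat.prime_iff_prime_int.1 hp
  obtain ⟨j, hj0, hj1⟩ := ex p hp m hm
  obtain ⟨γ, hγ⟩ := factor p hp m hm j hj0 hj1
  refine ⟨(j, γ), hγ, ?_⟩
  rintro ⟨j', γ'⟩ h'
  simp only at h'
  have hjj : j' = j := by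
    by_contra hne
    have q0 := Q_row p (γ' : Mat) j' 0
    have q1 := Q_row p (γ' : Mat) j' 1
    rw [← h'] at q0 q1
    obtain ⟨a0, b0⟩ := Q_uniq p hp j' j hne _ _ q0 hj0
    obtain ⟨a1, b1⟩ := Q_uniq p hp j' j hne _ _ q1 hj1
    rw [Matrix.det_fin_two] at hm
    have h1 : (p : ℤ) * p ∣ m 0 0 * m 1 1 - m 0 1 * m 1 0 :=
      dvd_sub (mul_dvd_mul a0 b1) (mul_dvd_mul b0 a1)
    rw [hm] at h1
    have h2 : (p : ℤ) ∣ 1 := by
      have h3 : (p : ℤ) * p ∣ p * 1 := by rwa [mul_one]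
      exact (mul_dvd_mul_iff_left hpz.ne_zero).1 h3
    exact hpz.not_unit (isUnit_of_dvd_one h2)
  subst hjj
  have h2 : (γ' : Mat) = (γ : Mat) := by
    apply cancel p hp (rp p j') (det_rp p j')
    rw [← h', ← hγ]
  exact Prod.ext rfl (Subtype.ext h2)

theorem adj_adj (m : Mat) : m.adjugate.adjugate = m := by
  ext i k
  fin_cases i <;> fin_cases k <;> simp [Matrix.adjugate_fin_two]

theorem part3 (p : ℕ) (hp : p.Prime) (m : Mat) (hm : m.det = (p : ℤ)) :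
    ∃! x : Fin (p + 1) × SL(2, ℤ), m = (rp p x.1).adjugate * (x.2 : Mat) := by
  have hm' : m.adjugate.det = (p : ℤ) := by
    rw [Matrix.det_adjugate, hm]
    simp
  have key : ∀ x : Fin (p + 1) × SL(2, ℤ), m = (rp p x.1).adjugate * (x.2 : Mat) ↔
      m.adjugate = ((x.2⁻¹ : SL(2, ℤ)) : Mat) * rp p x.1 := by
    intro x
    constructor
    · intro h
      rw [h, Matrix.adjugate_mul_distrib, adj_adj, Matrix.SpecialLinearGroup.coe_inv]
    · intro h
      have h2 : m.adjugate.adjugate = (((x.2⁻¹ : SL(2, ℤ)) : Mat) * rp p x.1).adjugate := by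
        rw [h]
      rw [adj_adj, Matrix.adjugate_mul_distrib, Matrix.SpecialLinearGroup.coe_inv, adj_adj] at h2
      exact h2
  obtain ⟨x, hx, hu⟩ := part2 p hp m.adjugate hm'
  refine ⟨(x.1, x.2⁻¹), ?_, ?_⟩
  · refine (key (x.1, x.2⁻¹)).2 ?_
    show m.adjugate = (((x.2⁻¹)⁻¹ : SL(2, ℤ)) : Mat) * rp p x.1
    rw [inv_inv]
    exact hx
  · intro y hy
    have h3 : ((y.1, y.2⁻¹) : Fin (p + 1) × SL(2, ℤ)) = x := hu (y.1, y.2⁻¹) ((key y).1 hy)
    obtain ⟨h4, h5⟩ : y.1 = x.1 ∧ y.2⁻¹ = x.2 := by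
      rw [← h3]
      exact ⟨rfl, rfl⟩
    refine Prod.ext h4 ?_
    show y.2 = x.2⁻¹
    rw [← h5, inv_inv]

end CoM

theorem stmtCo : StmtCo := by
  intro p hp
  refine ⟨CoM.rp p, CoM.det_rp p, CoM.part2 p hp, CoM.part3 p hp, ?_, ?_⟩
  · intro f
    rw [Fin.sum_univ_castSucc, add_comm]
    have h1 : CoM.rp p (Fin.last p) = !![(p : ℤ), 0; 0, 1] := CoM.rp_ge (by simp)
    rw [h1, Finset.sum_range]
    refine congrArg _ (Finset.sum_congr rfl fun i _ => ?_)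
    have h2 : CoM.rp p i.castSucc = !![1, ((i : ℕ) : ℤ); 0, (p : ℤ)] := CoM.rp_lt (by simp)
    rw [h2]
  · intro j j' hjj a b h h'
    exact CoM.Q_uniq p hp j j' hjj a b (CoM.Q_of p j a b h) (CoM.Q_of p j' a b h')

end Pool.Agent.A54.Hp
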