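import Pool.Agent.Lib.MP_a54f13_nt.Hp.SpecM

/-!
# Package `Hp`, module `Coi`: many returns give many coincidences
-/

set_option autoImplicit false

namespace Pool.Agent.A54.Hp

open MeasureTheory Filter Topology Set
open scoped ContDiff ComplexConjugate UpperHalfPlane MatrixGroups ENNReal
open Pool.Agent.A54.Dyn (G fl base ze io mk4 dom)
open Pool.Agent.A54.Av (Mat NonSc)

noncomputable section

namespace CoiM

theorem cntMat : Countable Mat := inferInstanceAs (Countable (Fin 2 → Fin 2 → ℤ))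

/-- Cauchy–Schwarz with the function `1` -/
theorem cs (μ : Measure G) {f : G → ℝ≥0∞} (hf : AEMeasurable f μ) :
    (∫⁻ x, f x ∂μ) ^ 2 ≤ μ Set.univ * ∫⁻ x, f x ^ 2 ∂μ := by
  have h1 := ENNReal.lintegral_mul_le_Lp_mul_Lq μ (p := 2) (q := 2)
    (by constructor <;> norm_num) hf (aemeasurable_const (b := (1 : ℝ≥0∞)))
  simp only [Pi.mul_apply, mul_one] at h1
  have h2 := pow_le_pow_left₀ zero_le h1 2
  refine h2.trans (le_of_eq ?_)
  rw [mul_pow]
  have e1 : ∀ a : ℝ≥0∞, (a ^ (1 / (2 : ℝ))) ^ 2 = a := fun a => by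
    rw [← ENNReal.rpow_natCast, ← ENNReal.rpow_mul]
    norm_num
  rw [e1, e1]
  have e2 : ∀ a : ℝ≥0∞, a ^ (2 : ℝ) = a ^ 2 := fun a => by
    rw [← ENNReal.rpow_natCast]
    norm_num
  simp only [e2, one_pow]
  rw [lintegral_const, one_mul, mul_comm]

/-- the indicator of `b` -/
def ib (b : Set G) : G → ℝ≥0∞ := b.indicator fun _ => 1

theorem ib_meas {b : Set G} (hb : IsOpen b) : Measurable (ib b) :=
  measurable_const.indicator hb.measurableSet

theorem ib_le (b : Set G) (x : G) : ib b x ≤ 1 := by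
  unfold ib
  by_cases h : x ∈ b
  · rw [Set.indicator_of_mem h]
  · rw [Set.indicator_of_notMem h]
    exact zero_le

theorem lint_b (hR : StmtNuR) {b : Set G} (hb : IsOpen b) (z : G) :
    ∫⁻ y, ib b (y⁻¹ * z) ∂nu = nu b := by
  have i1 := hR.1
  have i2 := hR.2
  have h1 : ∫⁻ y, ib b (y⁻¹ * z) ∂nu = ∫⁻ y, ib b (y * z) ∂nu :=
    lintegral_inv_eq_self fun y => ib b (y * z)
  rw [h1, lintegral_mul_right_eq_self]
  unfold ib
  rw [lintegral_indicator hb.measurableSet, setLIntegral_one]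

theorem isOpen_Vb {V b : Set G} (hV : IsOpen V) : IsOpen (Vb V b) := by
  have h1 : Vb V b = ⋃ β ∈ b, (fun x : G => x * β) ⁻¹' V := by
    ext x
    simp only [Set.mem_iUnion, Set.mem_preimage, exists_prop]
    rfl
  rw [h1]
  exact isOpen_biUnion fun β _ => hV.preimage (continuous_mul_const β)

/-- the indicator of the returns -/
def iS (M : ℝ) (V : Set G) (x : G) (s : Mat) : ℝ≥0∞ := (Sx M V x).indicator (fun _ => 1) s

theorem iS_zero {M : ℝ} {V : Set G} {x : G} {s : Mat} (h : s ∉ Sx M V x) : iS M V x s = 0 :=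
  Set.indicator_of_notMem h _

theorem iS_one {M : ℝ} {V : Set G} {x : G} {s : Mat} (h : s ∈ Sx M V x) : iS M V x s = 1 :=
  Set.indicator_of_mem h _

/-- the number of returns near `y` -/
def NN (M : ℝ) (V b : Set G) (x y : G) : ℝ≥0∞ := ∑' s : Mat, iS M V x s * ib b (y⁻¹ * (nm s * x))

theorem ibc_meas {b : Set G} (hb : IsOpen b) (z : G) : Measurable fun y : G => ib b (y⁻¹ * z) :=
  (ib_meas hb).comp (continuous_inv.mul continuous_const).measurable

theorem term_meas (M : ℝ) (V : Set G) {b : Set G} (hb : IsOpen b) (x : G) (s : Mat) :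
    Measurable fun y : G => iS M V x s * ib b (y⁻¹ * (nm s * x)) :=
  (ibc_meas hb (nm s * x)).const_mul _

theorem NN_meas (M : ℝ) (V : Set G) {b : Set G} (hb : IsOpen b) (x : G) :
    Measurable (NN M V b x) := by
  have := cntMat
  exact Measurable.ennreal_tsum fun s => term_meas M V hb x s

theorem lint_NN (hR : StmtNuR) (M : ℝ) (V : Set G) {b : Set G} (hb : IsOpen b) (x : G) :
    ∫⁻ y, NN M V b x y ∂nu = nS M V x * nu b := by
  have := cntMat
  unfold NN
  rw [lintegral_tsum fun s => (term_meas M V hb x s).aemeasurable]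
  unfold nS
  rw [← ENNReal.tsum_mul_right]
  refine tsum_congr fun s => ?_
  rw [lintegral_const_mul _ (ibc_meas hb (nm s * x)), lint_b hR hb]
  rfl

theorem NN_zero {M : ℝ} {V b : Set G} {x y : G} (h : y ∉ Vb V b) : NN M V b x y = 0 := by
  unfold NN
  rw [ENNReal.tsum_eq_zero]
  intro s
  by_cases hs : s ∈ Sx M V x
  · have h1 : y⁻¹ * (nm s * x) ∉ b := by
      intro hb
      refine h ⟨_, hb, ?_⟩
      rw [mul_inv_cancel_left]
      exact hs.2
    unfold ib
    rw [Set.indicator_of_notMem h1, mul_zero]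
  · rw [iS_zero hs, zero_mul]

theorem NN_sq (M : ℝ) (V b : Set G) (x y : G) : NN M V b x y ^ 2 =
    ∑' w : Mat × Mat, (iS M V x w.1 * ib b (y⁻¹ * (nm w.1 * x))) *
      (iS M V x w.2 * ib b (y⁻¹ * (nm w.2 * x))) := by
  rw [ENNReal.tsum_prod', _root_.sq]
  unfold NN
  rw [← ENNReal.tsum_mul_right]
  refine tsum_congr fun s => ?_
  rw [← ENNReal.tsum_mul_left]

theorem grp {H : Type*} [Group H] (y a c : H) : a⁻¹ * c = (y⁻¹ * a)⁻¹ * (y⁻¹ * c) := by
  group

/-- the product for one pair -/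
def pf (M : ℝ) (V b : Set G) (x : G) (w : Mat × Mat) (y : G) : ℝ≥0∞ :=
  (iS M V x w.1 * ib b (y⁻¹ * (nm w.1 * x))) * (iS M V x w.2 * ib b (y⁻¹ * (nm w.2 * x)))

theorem pf_meas (M : ℝ) (V : Set G) {b : Set G} (hb : IsOpen b) (x : G) (w : Mat × Mat) :
    Measurable (pf M V b x w) :=
  Measurable.mul (term_meas M V hb x w.1) (term_meas M V hb x w.2)

/-- one pair -/
theorem pair (hR : StmtNuR) (M : ℝ) (V : Set G) {b : Set G} (hb : IsOpen b) (x : G) (s t : Mat) :
    ∫⁻ y, (iS M V x s * ib b (y⁻¹ * (nm s * x))) * (iS M V x t * ib b (y⁻¹ * (nm t * x))) ∂nu ≤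
      (Cx M V b x).indicator (fun _ => 1) (s, t) * nu b := by
  by_cases hw : (s, t) ∈ Cx M V b x
  · rw [Set.indicator_of_mem hw, one_mul, ← lint_b hR hb (nm s * x)]
    have h1 : iS M V x s = 1 := iS_one hw.1
    have h2 : iS M V x t = 1 := iS_one hw.2.1
    rw [h1, h2]
    refine lintegral_mono fun y => ?_
    change 1 * ib b (y⁻¹ * (nm s * x)) * (1 * ib b (y⁻¹ * (nm t * x))) ≤ ib b (y⁻¹ * (nm s * x))
    rw [one_mul, one_mul]
    exact mul_le_of_le_one_right zero_le (ib_le b _)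
  · rw [Set.indicator_of_notMem hw, zero_mul]
    have h0 : ∀ y : G, (iS M V x s * ib b (y⁻¹ * (nm s * x))) *
        (iS M V x t * ib b (y⁻¹ * (nm t * x))) = 0 := by
      intro y
      by_cases h1 : s ∈ Sx M V x
      · by_cases h2 : t ∈ Sx M V x
        · by_cases h3 : y⁻¹ * (nm s * x) ∈ b
          · have h4 : y⁻¹ * (nm t * x) ∉ b := by
              intro h4
              refine hw ⟨h1, h2, _, h3, _, h4, ?_⟩
              exact grp y (nm t * x) (nm s * x)
            unfold ib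
            rw [Set.indicator_of_notMem h4, mul_zero, mul_zero]
          · unfold ib
            rw [Set.indicator_of_notMem h3, mul_zero, zero_mul]
        · rw [iS_zero h2, zero_mul, mul_zero]
      · rw [iS_zero h1, zero_mul, zero_mul]
    rw [lintegral_congr h0, lintegral_zero]

theorem lint_sq (hR : StmtNuR) (M : ℝ) (V : Set G) {b : Set G} (hb : IsOpen b) (x : G) :
    ∫⁻ y, NN M V b x y ^ 2 ∂nu ≤ nC M V b x * nu b := by
  have := cntMat
  have c2 : Countable (Mat × Mat) := inferInstance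
  have h1 : ∫⁻ y, NN M V b x y ^ 2 ∂nu = ∫⁻ y, ∑' w : Mat × Mat, pf M V b x w y ∂nu :=
    lintegral_congr fun y => NN_sq M V b x y
  rw [h1, lintegral_tsum fun w => (pf_meas M V hb x w).aemeasurable]
  unfold nC
  rw [← ENNReal.tsum_mul_right]
  exact ENNReal.tsum_le_tsum fun w => pair hR M V hb x w.1 w.2

theorem nS_meas (M : ℝ) {V : Set G} (hV : IsOpen V) : Measurable (nS M V) := by
  have := cntMat
  refine Measurable.ennreal_tsum fun s => ?_
  by_cases hs : ∃ p ∈ Pm M, ∃ q ∈ Pm M, s.det = ((p * q : ℕ) : ℤ)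
  · have h1 : (fun x : G => (Sx M V x).indicator (fun _ => (1 : ℝ≥0∞)) s) =
        ((fun x : G => nm s * x) ⁻¹' V).indicator fun _ => 1 := by
      funext x
      by_cases hx : nm s * x ∈ V
      · rw [Set.indicator_of_mem (show s ∈ Sx M V x from ⟨hs, hx⟩),
          Set.indicator_of_mem (show x ∈ (fun x : G => nm s * x) ⁻¹' V from hx)]
      · rw [Set.indicator_of_notMem (show s ∉ Sx M V x from fun h => hx h.2),
          Set.indicator_of_notMem (show x ∉ (fun x : G => nm s * x) ⁻¹' V from hx)]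
    rw [h1]
    exact measurable_const.indicator (hV.preimage (continuous_const_mul (nm s))).measurableSet
  · have h1 : (fun x : G => (Sx M V x).indicator (fun _ => (1 : ℝ≥0∞)) s) = fun _ => 0 := by
      funext x
      exact Set.indicator_of_notMem (fun h => hs h.1) _
    rw [h1]
    exact measurable_const

/-- the pointwise inequality -/
theorem point (hR : StmtNuR) (M : ℝ) {V b : Set G} (hV : IsOpen V) (hb : IsOpen b)
    (hb1 : nu b ≠ ⊤) (hb0 : nu b ≠ 0) (x : G) :
    nu b * nS M V x ^ 2 ≤ nu (Vb V b) * nC M V b x := by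
  have hO := (isOpen_Vb (b := b) hV).measurableSet
  have h1 : ∫⁻ y, NN M V b x y ∂nu = ∫⁻ y in Vb V b, NN M V b x y ∂nu := by
    rw [← lintegral_indicator hO]
    refine lintegral_congr fun y => ?_
    by_cases hy : y ∈ Vb V b
    · rw [Set.indicator_of_mem hy]
    · rw [Set.indicator_of_notMem hy, NN_zero hy]
  have h2 := cs (nu.restrict (Vb V b)) (NN_meas M V hb x).aemeasurable
  rw [Measure.restrict_apply_univ, ← h1, lint_NN hR M V hb x] at h2
  have h3 : (nS M V x * nu b) ^ 2 ≤ nu (Vb V b) * (nC M V b x * nu b) := by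
    refine h2.trans (mul_le_mul_right ?_ _)
    exact (setLIntegral_le_lintegral _ _).trans (lint_sq hR M V hb x)
  have h4 : (nu b * nS M V x ^ 2) * nu b ≤ (nu (Vb V b) * nC M V b x) * nu b := by
    calc (nu b * nS M V x ^ 2) * nu b = (nS M V x * nu b) ^ 2 := by ring
      _ ≤ nu (Vb V b) * (nC M V b x * nu b) := h3
      _ = (nu (Vb V b) * nC M V b x) * nu b := by ring
  exact (ENNReal.mul_le_mul_iff_left hb0 hb1).1 h4

end CoiM

open CoiM in
/-- **Coi** many returns give many coincidences -/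
theorem stmtCoi (_hL : StmtNuL) (hR : StmtNuR) : StmtCoi := by
  intro M _ V b hV hb hb1 hb0 _ hVb
  have h1 := cs (nu.restrict V) (nS_meas M hV).aemeasurable
  rw [Measure.restrict_apply_univ] at h1
  have h2 : nu b * ∫⁻ x in V, nS M V x ^ 2 ∂nu ≤ nu (Vb V b) * ∫⁻ x in V, nC M V b x ∂nu := by
    rw [← lintegral_const_mul' _ _ hb1, ← lintegral_const_mul' _ _ hVb]
    exact lintegral_mono fun x => point hR M hV hb hb1 hb0 x
  calc nu b * (∫⁻ x in V, nS M V x ∂nu) ^ 2
      ≤ nu b * (nu V * ∫⁻ x in V, nS M V x ^ 2 ∂nu) := mul_le_mul_right h1 _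
    _ = nu V * (nu b * ∫⁻ x in V, nS M V x ^ 2 ∂nu) := by ring
    _ ≤ nu V * (nu (Vb V b) * ∫⁻ x in V, nC M V b x ∂nu) := mul_le_mul_right h2 _
    _ = nu V * nu (Vb V b) * ∫⁻ x in V, nC M V b x ∂nu := by ring

end

end Pool.Agent.A54.Hp
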