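import Pool.Agent.Lib.MP_a54f13_nt.Hp.SpecU
import Pool.Agent.Lib.MP_a54f13_nt.Ef.Cus

/-! # Package `Hp`, `CuM`: the mass high in the cusp -/

set_option autoImplicit false

namespace Pool.Agent.A54.Hp

open MeasureTheory Filter Topology Set
open scoped ContDiff ComplexConjugate UpperHalfPlane MatrixGroups ENNReal
open Pool.Agent.A54.Dyn (G fl base ze io mk4 dom)
open Pool.Agent.A54.Dyn.LiftM (Sct XC XX cc rot m0)

noncomputable section

namespace CuMM

open Pool.Agent.A54.Dyn (G_ext mul_00 mul_01 mul_10 mul_11 mk4_00 mk4_01 mk4_10 mk4_11)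
open Pool.Agent.A54.Ef (SF)
open Pool.Agent.A54.Ef.CusM (lint_gen St meas_St cont_pair scale sumS)
open Pool.Agent.A54.Av.Fo1M (cf cf_shift)
open Pool.Agent.A54.Av (ee)

/-- masses of strips -/
lemma mass_gen (H : ℂ → ℝ≥0∞) (hH : Measurable H) {Y : ℝ} (hY : 1 ≤ Y) :
    ∫⁻ z in ModularGroup.fdo ∩ {z : ℍ | Y < z.im}, H z =
      ∫⁻ y in Ici Y, (∫⁻ x in Ioo (-(1 / 2) : ℝ) (1 / 2), H ⟨x, y⟩) *
        ENNReal.ofReal (1 / y ^ 2) := by
  have hms : MeasurableSet (ModularGroup.fdo ∩ {z : ℍ | Y < z.im}) :=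
    ModularGroup.isOpen_fdo.measurableSet.inter
      (isOpen_lt continuous_const UpperHalfPlane.continuous_im).measurableSet
  have h1 : ∀ z : ℍ, (ModularGroup.fdo ∩ {z : ℍ | Y < z.im}).indicator
      (fun z : ℍ => H z) z = (St Y).indicator H (z : ℂ) := by
    intro z
    by_cases hz : (z : ℂ) ∈ St Y
    · have hz' : z ∈ ModularGroup.fdo ∩ {z : ℍ | Y < z.im} := by
        refine ⟨⟨?_, hz.2⟩, hz.1⟩
        rw [Complex.normSq_apply]
        have h3 : 1 < (z : ℂ).im := lt_of_le_of_lt hY hz.1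
        nlinarith [mul_self_nonneg (z : ℂ).re]
      rw [indicator_of_mem hz', indicator_of_mem hz]
    · have hz' : z ∉ ModularGroup.fdo ∩ {z : ℍ | Y < z.im} := fun h => hz ⟨h.2, h.1.2⟩
      rw [indicator_of_notMem hz', indicator_of_notMem hz]
  have hm1 : Measurable ((St Y).indicator H) := hH.indicator (meas_St Y)
  rw [← lintegral_indicator hms]
  simp_rw [h1]
  rw [lint_gen _ hm1 fun z hz => indicator_of_notMem (fun h => by
    have := h.1
    linarith) _]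
  have hpre := Complex.volume_preserving_equiv_real_prod
  have key := hpre.lintegral_comp_emb
    Complex.measurableEquivRealProd.measurableEmbedding
    (fun p : ℝ × ℝ => (Ioo (-(1 / 2) : ℝ) (1 / 2) ×ˢ Ioi Y).indicator
      (fun p : ℝ × ℝ => H ⟨p.1, p.2⟩ * ENNReal.ofReal (1 / p.2 ^ 2)) p)
  have h2 : ∀ z : ℂ, ENNReal.ofReal (1 / z.im ^ 2) * (St Y).indicator H z =
      (Ioo (-(1 / 2) : ℝ) (1 / 2) ×ˢ Ioi Y).indicator
      (fun p : ℝ × ℝ => H ⟨p.1, p.2⟩ * ENNReal.ofReal (1 / p.2 ^ 2))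
        (Complex.measurableEquivRealProd z) := by
    intro z
    rw [Complex.measurableEquivRealProd_apply]
    by_cases hz : z ∈ St Y
    · have hz' : (z.re, z.im) ∈ Ioo (-(1 / 2) : ℝ) (1 / 2) ×ˢ Ioi Y := ⟨abs_lt.mp hz.2, hz.1⟩
      rw [indicator_of_mem hz, indicator_of_mem hz', mul_comm]
    · have hz' : (z.re, z.im) ∉ Ioo (-(1 / 2) : ℝ) (1 / 2) ×ˢ Ioi Y :=
        fun h => hz ⟨h.2, abs_lt.mpr h.1⟩
      rw [indicator_of_notMem hz, indicator_of_notMem hz', mul_zero]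
  simp_rw [h2]
  rw [key]
  have hm2 : Measurable (fun p : ℝ × ℝ => H ⟨p.1, p.2⟩ * ENNReal.ofReal (1 / p.2 ^ 2)) :=
    (hH.comp cont_pair.measurable).mul (ENNReal.measurable_ofReal.comp (by fun_prop))
  have hm3 := hm2.indicator (measurableSet_Ioo.prod measurableSet_Ioi :
    MeasurableSet (Ioo (-(1 / 2) : ℝ) (1 / 2) ×ˢ Ioi Y))
  rw [Measure.volume_eq_prod, lintegral_prod_symm _ hm3.aemeasurable]
  rw [setLIntegral_congr Ioi_ae_eq_Ici.symm, ← lintegral_indicator measurableSet_Ioi]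
  refine lintegral_congr fun y => ?_
  by_cases hy : y ∈ Ioi Y
  · rw [indicator_of_mem hy, ← lintegral_mul_const' _ _ ENNReal.ofReal_ne_top,
      ← lintegral_indicator measurableSet_Ioo]
    refine lintegral_congr fun x => ?_
    by_cases hx : x ∈ Ioo (-(1 / 2) : ℝ) (1 / 2)
    · have hxy : (x, y) ∈ Ioo (-(1 / 2) : ℝ) (1 / 2) ×ˢ Ioi Y := ⟨hx, hy⟩
      rw [indicator_of_mem hx, indicator_of_mem hxy]
    · rw [indicator_of_notMem hx, indicator_of_notMem fun h => hx h.1]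
  · rw [indicator_of_notMem hy]
    have h5 : ∀ x : ℝ, (Ioo (-(1 / 2) : ℝ) (1 / 2) ×ˢ Ioi Y).indicator
        (fun p : ℝ × ℝ => H ⟨p.1, p.2⟩ * ENNReal.ofReal (1 / p.2 ^ 2)) (x, y) = 0 := fun x =>
      indicator_of_notMem (fun h => hy h.2) _
    simp_rw [h5]
    exact lintegral_zero

/-- Parseval -/
lemma pars_gen {h : ℝ → ℂ} (hc : Continuous h) (hp : ∀ x, h (x + 1) = h x) :
    HasSum (fun n : ℤ => ‖cf h n‖ ^ 2) (∫ x in (-(1 / 2) : ℝ)..(1 / 2), ‖h x‖ ^ 2) := by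
  have hab : (-(1 / 2) : ℝ) < 1 / 2 := by norm_num
  have hL2 : MemLp h 2 (volume.restrict (Ioc (-(1 / 2) : ℝ) (1 / 2))) := by
    obtain ⟨C, hC⟩ := (isCompact_Icc (a := (-(1 / 2) : ℝ)) (b := 1 / 2)).exists_bound_of_continuousOn
      hc.continuousOn
    refine MemLp.of_bound hc.aestronglyMeasurable C ?_
    rw [ae_restrict_iff' measurableSet_Ioc]
    exact Filter.Eventually.of_forall fun x hx => hC x (Ioc_subset_Icc_self hx)
  have h0 := hasSum_sq_fourierCoeffOn hab hL2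
  have h1 : ((1 / 2 : ℝ) - -(1 / 2))⁻¹ = 1 := by norm_num
  rw [h1, one_smul] at h0
  have h2 : ∀ n : ℤ, fourierCoeffOn hab h n = cf h n := by
    intro n
    rw [fourierCoeffOn_eq_integral, ← cf_shift hp n (-(1 / 2))]
    have h3 : (1 / ((1 / 2 : ℝ) - -(1 / 2))) = 1 := by norm_num
    have h4 : (-(1 / 2) : ℝ) + 1 = 1 / 2 := by norm_num
    rw [h3, one_smul, h4]
    refine intervalIntegral.integral_congr fun x _ => ?_
    show fourier (-n) (x : AddCircle ((1 / 2 : ℝ) - -(1 / 2))) • h x =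
      h x * ee (-((n : ℂ) * x))
    rw [fourier_coe_apply, smul_eq_mul, mul_comm]
    congr 1
    unfold ee
    congr 1
    push_cast
    ring
  simp_rw [h2] at h0
  exact h0

lemma en (z : ℂ) : ‖z‖ₑ ^ 2 = ENNReal.ofReal (‖z‖ ^ 2) := by
  rw [ENNReal.ofReal_pow (norm_nonneg _), ofReal_norm]

/-! ### Coordinates on the group -/

lemma continuous_un : Continuous un := by
  apply continuous_induced_rng.mpr
  apply continuous_matrix
  intro i j
  fin_cases i <;> fin_cases j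
  · exact continuous_const
  · exact continuous_id
  · exact continuous_const
  · exact continuous_const

lemma continuous_ay : Continuous fun y : ℝ => ay (max y (1 / 2)) := by
  unfold ay
  refine Dyn.continuous_fl.comp (Continuous.log (continuous_id.max continuous_const) fun y => ?_)
  have : (0 : ℝ) < max y (1 / 2) := lt_of_lt_of_le (by norm_num) (le_max_right _ _)
  exact this.ne'

lemma ay_00 {y : ℝ} (hy : 0 < y) : (ay y) 0 0 = √y := by
  show Real.exp (Real.log y / 2) = √y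
  rw [Real.exp_half, Real.exp_log hy]

lemma ay_11 {y : ℝ} (hy : 0 < y) : (ay y) 1 1 = 1 / √y := by
  show Real.exp (-Real.log y / 2) = 1 / √y
  rw [Real.exp_half, Real.exp_neg, Real.exp_log hy, Real.sqrt_inv, one_div]

lemma toSL (z : ℍ) : z.toSL2R = un z.re * ay z.im := by
  have hz : 0 < z.im := z.im_pos
  have e0 : z.toSL2R 0 0 = √z.im := by rw [UpperHalfPlane.coe_toSL2R]; rfl
  have e1 : z.toSL2R 0 1 = z.re / √z.im := by rw [UpperHalfPlane.coe_toSL2R]; rfl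
  have e2 : z.toSL2R 1 0 = 0 := by rw [UpperHalfPlane.coe_toSL2R]; rfl
  have e3 : z.toSL2R 1 1 = 1 / √z.im := by rw [UpperHalfPlane.coe_toSL2R]; rfl
  have a1 : (ay z.im) 0 1 = 0 := rfl
  have a2 : (ay z.im) 1 0 = 0 := rfl
  have u0 : (un z.re) 0 0 = 1 := rfl
  have u1 : (un z.re) 0 1 = z.re := rfl
  have u2 : (un z.re) 1 0 = 0 := rfl
  have u3 : (un z.re) 1 1 = 1 := rfl
  apply G_ext
  · rw [mul_00, e0, ay_00 hz, a2, u0]; ring
  · rw [mul_01, e1, a1, ay_11 hz, u1]; ring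
  · rw [mul_10, e2, a2, u2]; ring
  · rw [mul_11, e3, a1, ay_11 hz, u3]; ring

/-- the function in coordinates -/
def Pf (Φ : G → ℂ) (k : XC) (w : ℂ) : ℂ := Φ (un w.re * (ay (max w.im (1 / 2)) * rot k))

lemma cont_Pf {Φ : G → ℂ} (hΦ : Continuous Φ) (k : XC) : Continuous (Pf Φ k) := by
  unfold Pf
  exact hΦ.comp ((continuous_un.comp Complex.continuous_re).mul
    ((continuous_ay.comp Complex.continuous_im).mul continuous_const))

/-- the mass above `Y` for a direction -/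
def LL (Φ : G → ℂ) (Y : ℝ) (k : XC) : ℝ≥0∞ :=
  ∫⁻ y in Ici Y, (∫⁻ x in Ioo (-(1 / 2) : ℝ) (1 / 2), ‖Pf Φ k ⟨x, y⟩‖ₑ ^ 2) *
    ENNReal.ofReal (1 / y ^ 2)

lemma mass_eq {Φ : G → ℂ} (hΦ : Continuous Φ) {Y : ℝ} (hY : 1 ≤ Y) :
    ∫⁻ g in FF ∩ {g | Y < (base g).im}, ‖Φ g‖ₑ ^ 2 ∂nu =
      ∫⁻ k : XC, LL Φ Y k ∂AddCircle.haarAddCircle := by
  have hA : MeasurableSet (FF ∩ {g : G | Y < (base g).im}) :=
    (ModularGroup.isOpen_fdo.preimage Dyn.continuous_base).measurableSet.inter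
      (isOpen_lt continuous_const (UpperHalfPlane.continuous_im.comp Dyn.continuous_base)).measurableSet
  have hF : Measurable ((FF ∩ {g : G | Y < (base g).im}).indicator fun g => ‖Φ g‖ₑ ^ 2) :=
    ((hΦ.measurable.enorm).pow_const 2).indicator hA
  have hS : Measurable Sct := Dyn.LiftM.continuous_Sct.measurable
  rw [← lintegral_indicator hA]
  unfold nu
  rw [lintegral_map hF hS]
  unfold m0
  refine (lintegral_prod_symm (μ := (volume : Measure ℍ)) (ν := AddCircle.haarAddCircle)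
    (fun p : ℍ × XC => (FF ∩ {g : G | Y < (base g).im}).indicator (fun g => ‖Φ g‖ₑ ^ 2) (Sct p))
    (hF.comp hS).aemeasurable).trans ?_
  refine lintegral_congr fun k => ?_
  have hms : MeasurableSet (ModularGroup.fdo ∩ {z : ℍ | Y < z.im}) :=
    ModularGroup.isOpen_fdo.measurableSet.inter
      (isOpen_lt continuous_const UpperHalfPlane.continuous_im).measurableSet
  have h1 : ∀ z : ℍ, (FF ∩ {g : G | Y < (base g).im}).indicator (fun g => ‖Φ g‖ₑ ^ 2) (Sct (z, k)) =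
      (ModularGroup.fdo ∩ {z : ℍ | Y < z.im}).indicator
        (fun z : ℍ => (fun w : ℂ => ‖Pf Φ k w‖ₑ ^ 2) z) z := by
    intro z
    have hb : base (Sct (z, k)) = z := Dyn.LiftM.base_Sct (z, k)
    by_cases hz : z ∈ ModularGroup.fdo ∩ {z : ℍ | Y < z.im}
    · have hz' : Sct (z, k) ∈ FF ∩ {g : G | Y < (base g).im} := by
        refine ⟨?_, ?_⟩
        · show base (Sct (z, k)) ∈ ModularGroup.fdo
          rw [hb]
          exact hz.1
        · show Y < (base (Sct (z, k))).im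
          rw [hb]
          exact hz.2
      rw [indicator_of_mem hz, indicator_of_mem hz']
      show ‖Φ (Sct (z, k))‖ₑ ^ 2 = ‖Φ (un (z : ℂ).re * (ay (max (z : ℂ).im (1 / 2)) * rot k))‖ₑ ^ 2
      have h2 : Y < (z : ℂ).im := hz.2
      rw [max_eq_left (show (1 : ℝ) / 2 ≤ (z : ℂ).im by linarith)]
      have h3 : Sct (z, k) = un (z : ℂ).re * (ay (z : ℂ).im * rot k) := by
        show z.toSL2R * rot k = _
        rw [toSL, mul_assoc]
        rfl
      rw [h3]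
    · have hz' : Sct (z, k) ∉ FF ∩ {g : G | Y < (base g).im} := by
        intro h
        refine hz ⟨?_, ?_⟩
        · have h2 : base (Sct (z, k)) ∈ ModularGroup.fdo := h.1
          rwa [hb] at h2
        · have h2 : Y < (base (Sct (z, k))).im := h.2
          rwa [hb] at h2
      rw [indicator_of_notMem hz, indicator_of_notMem hz']
  simp_rw [h1]
  rw [lintegral_indicator hms]
  exact mass_gen (fun w : ℂ => ‖Pf Φ k w‖ₑ ^ 2)
    (((cont_Pf hΦ k).measurable.enorm).pow_const 2) hY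

/-! ### Fourier coefficients -/

lemma io_T : io ModularGroup.T = un 1 := by
  apply G_ext
  · show ((ModularGroup.T 0 0 : ℤ) : ℝ) = 1
    simp [ModularGroup.T]
  · show ((ModularGroup.T 0 1 : ℤ) : ℝ) = 1
    simp [ModularGroup.T]
  · show ((ModularGroup.T 1 0 : ℤ) : ℝ) = 0
    simp [ModularGroup.T]
  · show ((ModularGroup.T 1 1 : ℤ) : ℝ) = 1
    simp [ModularGroup.T]

lemma un_add (x y : ℝ) : un (x + y) = un x * un y := by
  have u0 : ∀ x : ℝ, (un x) 0 0 = 1 := fun x => rfl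
  have u1 : ∀ x : ℝ, (un x) 0 1 = x := fun x => rfl
  have u2 : ∀ x : ℝ, (un x) 1 0 = 0 := fun x => rfl
  have u3 : ∀ x : ℝ, (un x) 1 1 = 1 := fun x => rfl
  apply G_ext
  · rw [mul_00, u0, u0, u0, u1, u2]; ring
  · rw [mul_01, u0, u1, u1, u1, u3]; ring
  · rw [mul_10, u2, u2, u0, u3, u2]; ring
  · rw [mul_11, u3, u2, u1, u3, u3]; ring

lemma per {l : ℕ → ℝ} {Φ : G → ℂ} (hE : HE l Φ) (g : G) (x : ℝ) :
    Φ (un (x + 1) * g) = Φ (un x * g) := by
  rw [add_comm, un_add, mul_assoc, ← io_T]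
  exact hE.inv _ _

lemma Fc_eq (Φ : G → ℂ) (m : ℤ) (g : G) : Fc Φ m g = cf (fun x => Φ (un x * g)) m := by
  unfold Fc cf ee
  refine intervalIntegral.integral_congr fun x _ => ?_
  show Φ (un x * g) * _ = Φ (un x * g) * _
  congr 2
  ring

lemma inner {l : ℕ → ℝ} {Φ : G → ℂ} (hE : HE l Φ) (k : XC) {y : ℝ} (hy : 1 ≤ y) :
    ∫⁻ x in Ioo (-(1 / 2) : ℝ) (1 / 2), ‖Pf Φ k ⟨x, y⟩‖ₑ ^ 2 =
      ∑' n : ℤ, ENNReal.ofReal (‖Fc Φ n (ay y * rot k)‖ ^ 2) := by
  have hc : Continuous fun x : ℝ => Φ (un x * (ay y * rot k)) :=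
    hE.cont.comp (continuous_un.mul continuous_const)
  have hp := pars_gen hc (per hE (ay y * rot k))
  simp_rw [← Fc_eq] at hp
  rw [← ENNReal.ofReal_tsum_of_nonneg (fun n => sq_nonneg _) hp.summable, hp.tsum_eq]
  have h1 : ∀ x : ℝ, ‖Pf Φ k ⟨x, y⟩‖ₑ ^ 2 =
      ENNReal.ofReal (‖Φ (un x * (ay y * rot k))‖ ^ 2) := by
    intro x
    rw [en]
    unfold Pf
    rw [max_eq_left (show (1 : ℝ) / 2 ≤ (⟨x, y⟩ : ℂ).im by
      show (1 : ℝ) / 2 ≤ y
      linarith)]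
  simp_rw [h1]
  rw [intervalIntegral.integral_of_le (by norm_num), integral_Ioc_eq_integral_Ioo,
    ofReal_integral_eq_lintegral_ofReal]
  · exact ((hc.norm.pow 2).continuousOn.integrableOn_Icc (a := (-(1 / 2) : ℝ))
      (b := 1 / 2)).mono_set Ioo_subset_Icc_self
  · exact Filter.Eventually.of_forall fun x => sq_nonneg _

/-- the first coefficients -/
def Af (Φ : G → ℂ) (k : XC) (u : ℝ) : ℝ≥0∞ :=
  ENNReal.ofReal (‖Fc Φ 1 (ay (max u (1 / 2)) * rot k)‖ ^ 2) +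
    ENNReal.ofReal (‖Fc Φ (-1) (ay (max u (1 / 2)) * rot k)‖ ^ 2)

lemma meas_Af {Φ : G → ℂ} (hΦ : Continuous Φ) (k : XC) : Measurable (Af Φ k) := by
  have hc : ∀ m : ℤ, Continuous fun u : ℝ => Fc Φ m (ay (max u (1 / 2)) * rot k) := by
    intro m
    unfold Fc
    have h1 : Continuous (Function.uncurry fun (u x : ℝ) =>
        Φ (un x * (ay (max u (1 / 2)) * rot k)) *
          Complex.exp (-(2 * Real.pi * Complex.I * m * x))) := by
      refine Continuous.mul ?_ ?_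
      · exact hΦ.comp ((continuous_un.comp continuous_snd).mul
          ((continuous_ay.comp continuous_fst).mul continuous_const))
      · fun_prop
    exact intervalIntegral.continuous_parametric_intervalIntegral_of_continuous' h1 0 1
  exact (ENNReal.measurable_ofReal.comp ((hc 1).norm.pow 2).measurable).add
    (ENNReal.measurable_ofReal.comp ((hc (-1)).norm.pow 2).measurable)

/-- the sum over all coefficients -/
lemma coeffs {Φ : G → ℂ} (h0 : Csp Φ) {lam : ℕ → ℝ} (k : XC)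
    (hl : ∀ (n : ℕ) (σ : ℤ), 1 ≤ n → (σ = 1 ∨ σ = -1) → ∀ y : ℝ, 0 < y →
      Fc Φ (σ * n) (ay y * rot k) = ((lam n / √n : ℝ) : ℂ) * Fc Φ σ (ay (n * y) * rot k))
    {y : ℝ} (hy : 1 ≤ y) :
    ∑' n : ℤ, ENNReal.ofReal (‖Fc Φ n (ay y * rot k)‖ ^ 2) =
      ∑' n : ℕ, ENNReal.ofReal (lam (n + 1) ^ 2 / ((n : ℝ) + 1)) *
        Af Φ k (((n : ℝ) + 1) * y) := by
  have hy0 : 0 < y := by linarith
  have hpos : ∀ (n : ℕ) (σ : ℤ), (σ = 1 ∨ σ = -1) →
      ENNReal.ofReal (‖Fc Φ (σ * ((n : ℤ) + 1)) (ay y * rot k)‖ ^ 2) =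
      ENNReal.ofReal (lam (n + 1) ^ 2 / ((n : ℝ) + 1)) *
        ENNReal.ofReal (‖Fc Φ σ (ay (((n : ℝ) + 1) * y) * rot k)‖ ^ 2) := by
    intro n σ hσ
    have h := hl (n + 1) σ (by omega) hσ y hy0
    push_cast at h
    rw [h, norm_mul, mul_pow, ENNReal.ofReal_mul (by positivity)]
    congr 2
    rw [← Complex.ofReal_div, Complex.norm_real, Real.norm_eq_abs, sq_abs, div_pow,
      Real.sq_sqrt (by positivity)]
  rw [tsum_of_add_one_of_neg_add_one ENNReal.summable ENNReal.summable]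
  have hz : Fc Φ 0 (ay y * rot k) = 0 := by
    unfold Fc
    rw [← h0 (ay y * rot k)]
    refine intervalIntegral.integral_congr fun x _ => ?_
    simp [un]
  rw [hz, norm_zero, zero_pow two_ne_zero, ENNReal.ofReal_zero, add_zero, ← ENNReal.tsum_add]
  refine tsum_congr fun n => ?_
  have h1 := hpos n 1 (Or.inl rfl)
  have h2 := hpos n (-1) (Or.inr rfl)
  rw [one_mul] at h1
  rw [neg_one_mul] at h2
  have h5 : 1 / 2 ≤ ((n : ℝ) + 1) * y := by nlinarith [(Nat.cast_nonneg n : (0 : ℝ) ≤ n)]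
  rw [h1, h2, ← mul_add]
  unfold Af
  rw [max_eq_left h5]

/-- the formula for the mass in the cusp -/
lemma LL_eq {l : ℕ → ℝ} {Φ : G → ℂ} (hE : HE l Φ) (h0 : Csp Φ) {lam : ℕ → ℝ} (k : XC)
    (hl : ∀ (n : ℕ) (σ : ℤ), 1 ≤ n → (σ = 1 ∨ σ = -1) → ∀ y : ℝ, 0 < y →
      Fc Φ (σ * n) (ay y * rot k) = ((lam n / √n : ℝ) : ℂ) * Fc Φ σ (ay (n * y) * rot k))
    {Y : ℝ} (hY : 1 ≤ Y) :
    LL Φ Y k = ∫⁻ u, ENNReal.ofReal (SF lam (u / Y)) * (Af Φ k u * ENNReal.ofReal (1 / u ^ 2)) := by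
  have hY0 : 0 < Y := by linarith
  have hA := meas_Af hE.cont k
  have hw : Measurable fun u : ℝ => Af Φ k u * ENNReal.ofReal (1 / u ^ 2) :=
    hA.mul (ENNReal.measurable_ofReal.comp (by fun_prop))
  unfold LL
  have h1 : ∫⁻ y in Ici Y, (∫⁻ x in Ioo (-(1 / 2) : ℝ) (1 / 2), ‖Pf Φ k ⟨x, y⟩‖ₑ ^ 2) *
      ENNReal.ofReal (1 / y ^ 2) =
      ∫⁻ y in Ici Y, ∑' n : ℕ, (ENNReal.ofReal (lam (n + 1) ^ 2 / ((n : ℝ) + 1)) *
        (Af Φ k (((n : ℝ) + 1) * y) * ENNReal.ofReal (1 / y ^ 2))) := by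
    refine setLIntegral_congr_fun measurableSet_Ici fun y hy => ?_
    have hy1 : 1 ≤ y := hY.trans hy
    show (∫⁻ x in Ioo (-(1 / 2) : ℝ) (1 / 2), ‖Pf Φ k ⟨x, y⟩‖ₑ ^ 2) *
      ENNReal.ofReal (1 / y ^ 2) = _
    rw [inner hE k hy1, coeffs h0 k hl hy1, ← ENNReal.tsum_mul_right]
    simp_rw [mul_assoc]
  have hmn : ∀ n : ℕ, Measurable fun y : ℝ => ENNReal.ofReal (lam (n + 1) ^ 2 / ((n : ℝ) + 1)) *
      (Af Φ k (((n : ℝ) + 1) * y) * ENNReal.ofReal (1 / y ^ 2)) := by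
    intro n
    exact measurable_const.mul ((hA.comp (measurable_const_mul _)).mul
      (ENNReal.measurable_ofReal.comp (by fun_prop)))
  rw [h1, lintegral_tsum fun n => (hmn n).aemeasurable]
  have h2 : ∀ n : ℕ, ∫⁻ y in Ici Y, ENNReal.ofReal (lam (n + 1) ^ 2 / ((n : ℝ) + 1)) *
      (Af Φ k (((n : ℝ) + 1) * y) * ENNReal.ofReal (1 / y ^ 2)) =
      ∫⁻ u, (Ici (((n : ℝ) + 1) * Y)).indicator (fun _ => ENNReal.ofReal (lam (n + 1) ^ 2)) u *
        (Af Φ k u * ENNReal.ofReal (1 / u ^ 2)) := by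
    intro n
    have hm0 : (0 : ℝ) < (n : ℝ) + 1 := by positivity
    set m : ℝ := (n : ℝ) + 1 with hm
    set F : ℝ → ℝ≥0∞ := fun u => (Ici (m * Y)).indicator
      (fun u => ENNReal.ofReal (m * lam (n + 1) ^ 2) * (Af Φ k u * ENNReal.ofReal (1 / u ^ 2))) u
      with hF
    have hFm : Measurable F := (measurable_const.mul hw).indicator measurableSet_Ici
    have e1 : ∫⁻ y in Ici Y, ENNReal.ofReal (lam (n + 1) ^ 2 / m) *
        (Af Φ k (m * y) * ENNReal.ofReal (1 / y ^ 2)) = ∫⁻ y, F (m * y) := by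
      rw [← lintegral_indicator measurableSet_Ici]
      refine lintegral_congr fun y => ?_
      by_cases hy : y ∈ Ici Y
      · have hy' : m * y ∈ Ici (m * Y) := mul_le_mul_of_nonneg_left hy hm0.le
        have hy0 : 0 < y := lt_of_lt_of_le hY0 hy
        rw [indicator_of_mem hy]
        simp only [hF]
        rw [indicator_of_mem hy']
        have e2 : ENNReal.ofReal (1 / (m * y) ^ 2) =
            ENNReal.ofReal (m ^ 2)⁻¹ * ENNReal.ofReal (1 / y ^ 2) := by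
          rw [← ENNReal.ofReal_mul (by positivity)]
          congr 1
          field_simp
        have e3 : ENNReal.ofReal (lam (n + 1) ^ 2 / m) =
            ENNReal.ofReal (m * lam (n + 1) ^ 2) * ENNReal.ofReal (m ^ 2)⁻¹ := by
          rw [← ENNReal.ofReal_mul (by positivity)]
          congr 1
          field_simp
        rw [e2, e3]
        ring
      · have hy' : m * y ∉ Ici (m * Y) := fun h => hy (le_of_mul_le_mul_left h hm0)
        rw [indicator_of_notMem hy]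
        simp only [hF]
        rw [indicator_of_notMem hy']
    rw [e1, scale hm0 hFm, ← lintegral_const_mul' _ _ ENNReal.ofReal_ne_top]
    refine lintegral_congr fun u => ?_
    simp only [hF]
    by_cases hu : u ∈ Ici (m * Y)
    · rw [indicator_of_mem hu, indicator_of_mem hu, ← mul_assoc,
        ← ENNReal.ofReal_mul (by positivity)]
      congr 2
      field_simp
    · rw [indicator_of_notMem hu, indicator_of_notMem hu, mul_zero, zero_mul]
  simp_rw [h2]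
  have h3 := lintegral_tsum (μ := (volume : Measure ℝ)) (f := fun (n : ℕ) (u : ℝ) =>
    (Ici (((n : ℝ) + 1) * Y)).indicator (fun _ => ENNReal.ofReal (lam (n + 1) ^ 2)) u *
        (Af Φ k u * ENNReal.ofReal (1 / u ^ 2)))
    fun n => ((measurable_const.indicator measurableSet_Ici).mul hw).aemeasurable
  rw [← h3]
  refine lintegral_congr fun u => ?_
  rw [ENNReal.tsum_mul_right, sumS lam hY0 u]

end CuMM

open CuMM in
/-- the mass high in the cusp -/
theorem stmtCuM (hSnd : Ef.StmtSnd) (hMul : StmtMul) (hFcH : StmtFcH) : StmtCuM := by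
  obtain ⟨C, hC, hS⟩ := hSnd
  refine ⟨C * 2, by positivity, fun l Φ hE hCsp Y hY => ?_⟩
  have hY0 : 0 < Y := by linarith
  obtain ⟨lam, hmul, hlp⟩ := hMul l
  have hl := hFcH l lam Φ hE hmul hlp
  have hYp : 0 ≤ C * Y ^ (-(1 / 4 : ℝ)) := mul_nonneg hC (Real.rpow_nonneg hY0.le _)
  have h1 : ∫⁻ k : XC, LL Φ 1 k ∂AddCircle.haarAddCircle ≤ 2 := by
    rw [← mass_eq hE.cont le_rfl]
    exact (lintegral_mono_set inter_subset_left).trans hE.norm
  have h2 : ∀ k : XC, LL Φ Y k ≤ ENNReal.ofReal (C * Y ^ (-(1 / 4 : ℝ))) * LL Φ 1 k := by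
    intro k
    have hk : ∀ (n : ℕ) (σ : ℤ), 1 ≤ n → (σ = 1 ∨ σ = -1) → ∀ y : ℝ, 0 < y →
        Fc Φ (σ * n) (ay y * rot k) = ((lam n / √n : ℝ) : ℂ) * Fc Φ σ (ay (n * y) * rot k) :=
      fun n σ hn hσ y hy => hl n σ hn hσ y k hy
    rw [LL_eq hE hCsp k hk hY, LL_eq hE hCsp k hk le_rfl,
      ← lintegral_const_mul' _ _ ENNReal.ofReal_ne_top]
    refine lintegral_mono fun u => ?_
    show ENNReal.ofReal (Ef.SF lam (u / Y)) * (Af Φ k u * ENNReal.ofReal (1 / u ^ 2)) ≤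
      ENNReal.ofReal (C * Y ^ (-(1 / 4 : ℝ))) *
        (ENNReal.ofReal (Ef.SF lam (u / 1)) * (Af Φ k u * ENNReal.ofReal (1 / u ^ 2)))
    have h4 : ENNReal.ofReal (Ef.SF lam (u / Y)) ≤
        ENNReal.ofReal (C * Y ^ (-(1 / 4 : ℝ))) * ENNReal.ofReal (Ef.SF lam (u / 1)) := by
      rw [div_one, ← ENNReal.ofReal_mul hYp]
      exact ENNReal.ofReal_le_ofReal (hS lam u Y hmul hY)
    calc ENNReal.ofReal (Ef.SF lam (u / Y)) * (Af Φ k u * ENNReal.ofReal (1 / u ^ 2))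
        ≤ (ENNReal.ofReal (C * Y ^ (-(1 / 4 : ℝ))) * ENNReal.ofReal (Ef.SF lam (u / 1))) *
          (Af Φ k u * ENNReal.ofReal (1 / u ^ 2)) := by gcongr
      _ = _ := by ring
  rw [mass_eq hE.cont hY]
  calc ∫⁻ k : XC, LL Φ Y k ∂AddCircle.haarAddCircle
      ≤ ∫⁻ k : XC, ENNReal.ofReal (C * Y ^ (-(1 / 4 : ℝ))) * LL Φ 1 k ∂AddCircle.haarAddCircle :=
        lintegral_mono h2
    _ = ENNReal.ofReal (C * Y ^ (-(1 / 4 : ℝ))) * ∫⁻ k : XC, LL Φ 1 k ∂AddCircle.haarAddCircle :=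
        lintegral_const_mul' _ _ ENNReal.ofReal_ne_top
    _ ≤ ENNReal.ofReal (C * Y ^ (-(1 / 4 : ℝ))) * 2 := by gcongr
    _ = ENNReal.ofReal (C * 2 * Y ^ (-(1 / 4 : ℝ))) := by
        rw [show (2 : ℝ≥0∞) = ENNReal.ofReal 2 by simp, ← ENNReal.ofReal_mul hYp]
        congr 1
        ring

end

end Pool.Agent.A54.Hp
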