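import Pool.Agent.Lib.MP_a54f13_nt.Dyn.Lift
import Pool.Agent.Lib.MP_a54f13_nt.Av.Defs

/-!
# Package `Hp`: the fourth moment of single sequences of Hecke–Maass forms, definitions

THEOREM A (helper39, notes 4597, 4609–4611 of MP_a54f13_nt). Definitions for the group `G = SL(2, ℝ)`, integral
matrices acting on it, Hecke eigenfunctions on `SL(2, ℤ) \ G` and tubes.
-/

set_option autoImplicit false

namespace Pool.Agent.A54.Hp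

open MeasureTheory Filter Topology Set
open scoped ContDiff ComplexConjugate UpperHalfPlane MatrixGroups ENNReal
open Pool.Agent.A54.Dyn (G fl base ze io mk4 dom)
open Pool.Agent.A54.Av (Mat NonSc)

noncomputable section

/-- Haar measure on `SL(2, ℝ)`: the image of `dx dy / y² ⊗` (probability on the circle) -/
def nu : Measure G := Dyn.LiftM.m0.map Dyn.LiftM.Sct

/-- the normalised matrix `s / √det s` (for `det s > 0`; otherwise `1`) -/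
def nm (s : Mat) : G :=
  if h : (0 : ℝ) < ((s.det : ℤ) : ℝ) then
    mk4 (((s 0 0 : ℤ) : ℝ) / √((s.det : ℤ) : ℝ)) (((s 0 1 : ℤ) : ℝ) / √((s.det : ℤ) : ℝ))
      (((s 1 0 : ℤ) : ℝ) / √((s.det : ℤ) : ℝ)) (((s 1 1 : ℤ) : ℝ) / √((s.det : ℤ) : ℝ)) (by
        have h1 : √((s.det : ℤ) : ℝ) ^ 2 = ((s.det : ℤ) : ℝ) := Real.sq_sqrt h.le
        have h2 : √((s.det : ℤ) : ℝ) ≠ 0 := (Real.sqrt_pos.mpr h).ne'
        have h3 : ((s.det : ℤ) : ℝ) = ((s 0 0 : ℤ) : ℝ) * ((s 1 1 : ℤ) : ℝ) -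
            ((s 0 1 : ℤ) : ℝ) * ((s 1 0 : ℤ) : ℝ) := by
          rw [Matrix.det_fin_two]; push_cast; ring
        rw [div_mul_div_comm, div_mul_div_comm, ← sub_div, ← h3, ← _root_.sq, h1,
          div_self h.ne'])
  else 1

/-- integral matrices of determinant `n` -/
abbrev Mn (n : ℕ) : Type := {s : Mat // s.det = (n : ℤ)}

/-- the box: all entries at most `R` in absolute value (a compact set) -/
def Om (R : ℝ) : Set G := {g | ∀ i j, |g i j| ≤ R}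

/-- neighbourhoods of the identity -/
def Nb (c : ℝ) : Set G := {g | ∀ i j, |g i j - (1 : Matrix (Fin 2) (Fin 2) ℝ) i j| ≤ c}

/-- the small tube (open) around the geodesic through the identity -/
def bt (c w : ℝ) : Set G := {g | |g 0 0 - 1| < c ∧ |g 0 1| < w ∧ |g 1 0| < w}

/-- the geodesic of `g` as a point of the quadric `Q = 1`, `Q(ξ) = ξ₀² + 4 ξ₁ ξ₂`: with
`X(ξ) = (ξ₀, 2ξ₁; 2ξ₂, -ξ₀)` one has `X(xi g) = g (1, 0; 0, -1) g⁻¹` -/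
def xi (g : G) : Fin 3 → ℝ :=
  ![g 0 0 * g 1 1 + g 0 1 * g 1 0, -(g 0 0 * g 0 1), g 1 0 * g 1 1]

/-- the traceless part of an integral matrix: `2 s = tr(s) + X(uu s)` -/
def uu (s : Mat) : Fin 3 → ℤ := ![s 0 0 - s 1 1, s 0 1, s 1 0]

/-- the pairing -/
def pr (n : Fin 3 → ℤ) (ξ : Fin 3 → ℝ) : ℝ := ∑ i, ((n i : ℤ) : ℝ) * ξ i

/-- `ℓ¹`-norm of integral vectors -/
def nz (n : Fin 3 → ℤ) : ℝ := ∑ i, |((n i : ℤ) : ℝ)|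

/-- the quadratic form of linear forms: `n` is isotropic if `n₀² + n₁ n₂ = 0` (the matrix
`N = (n₀, n₂; n₁, -n₀)` has `tr(N X(ξ)) = 2 pr n ξ` and `det N = -(n₀² + n₁ n₂)`) -/
def IsoV (n : Fin 3 → ℤ) : Prop := n 0 ^ 2 + n 1 * n 2 = 0

/-- tubes: points of the box with geodesic within `η` of `ζ` -/
def Tb (R : ℝ) (ζ : Fin 3 → ℝ) (η : ℝ) : Set G := {g | g ∈ Om R ∧ ∀ i, |xi g i - ζ i| ≤ η}

/-- plane neighbourhoods: points of the box with `|⟨n, ξ⟩| ≤ w` -/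
def Wp (R : ℝ) (n : Fin 3 → ℤ) (w : ℝ) : Set G := {g | g ∈ Om R ∧ |pr n (xi g)| ≤ w}

/-- mass -/
def ms (Φ : G → ℂ) (U : Set G) : ℝ≥0∞ := ∫⁻ g in U, ‖Φ g‖ₑ ^ 2 ∂nu

/-- preimage of the fundamental domain (it contains `g` and `-g`) -/
def FF : Set G := base ⁻¹' ModularGroup.fdo

/-- `∫ |Φ 1_U|(g) |Φ 1_U|(h g) dg` -/
def Dd (Φ : G → ℂ) (U : Set G) (h : G) : ℝ≥0∞ :=
  ∫⁻ g, U.indicator (fun x => ‖Φ x‖ₑ) g * U.indicator (fun x => ‖Φ x‖ₑ) (h * g) ∂nu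

/-- Hecke eigenfunctions on `SL(2, ℤ) \ G` with eigenvalues `l(p)` at the primes -/
structure HE (l : ℕ → ℝ) (Φ : G → ℂ) : Prop where
  cont : Continuous Φ
  inv : ∀ (γ : SL(2, ℤ)) (g : G), Φ (io γ * g) = Φ g
  norm : ∫⁻ g in FF, ‖Φ g‖ₑ ^ 2 ∂nu ≤ 2
  hecke : ∀ p : ℕ, p.Prime → ∀ g : G, Φ (nm !![(p : ℤ), 0; 0, 1] * g) +
    ∑ b ∈ Finset.range p, Φ (nm !![1, (b : ℤ); 0, (p : ℤ)] * g) = ((√p * l p : ℝ) : ℂ) * Φ g

/-- the primes in `(M, 2M]` -/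
def Pm (M : ℝ) : Finset ℕ := (Finset.Ioc ⌊M⌋₊ ⌊2 * M⌋₊).filter Nat.Prime

/-- `M` is a good scale: `∑_{M < p ≤ 2M} |l(p)| ≥ M^(1-κ)` -/
def Gd (κ : ℝ) (l : ℕ → ℝ) (M : ℝ) : Prop := M ^ (1 - κ) ≤ ∑ p ∈ Pm M, |l p|

/-- there is a good scale in every `[X^(19/20), X]`, `w^(-1/2) ≤ X ≤ w^(-1)` -/
def GdI (l : ℕ → ℝ) (w : ℝ) : Prop :=
  ∀ X : ℝ, w ^ (-(1 / 2 : ℝ)) ≤ X → X ≤ w⁻¹ → ∃ M : ℝ, X ^ (19 / 20 : ℝ) ≤ M ∧ M ≤ X ∧ Gd (1 / 1000) l M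

/-- `C_w = ∫ μ{y : |ξ(y) - ξ(x)| ≤ w} dμ(x)` in the box, `μ = |Φ|²` -/
def Cw (Φ : G → ℂ) (R w : ℝ) : ℝ≥0∞ := ∫⁻ g in Om R, ‖Φ g‖ₑ ^ 2 * ms Φ (Tb R (xi g) w) ∂nu

end

end Pool.Agent.A54.Hp
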