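import Pool.Agent.Lib.MP_a54f13_nt.Hp.Defs
import Pool.Agent.Lib.MP_a54f13_nt.Sq.Spec

/-!
# Package `Hp`, analysis: definitions

The tower of a Hecke–Maass form as functions on `G = SL(2, ℝ)`, packets, time evolution, the function `u`.
-/

set_option autoImplicit false

namespace Pool.Agent.A54.Hp

open MeasureTheory Filter Topology Set
open scoped ContDiff ComplexConjugate UpperHalfPlane MatrixGroups ENNReal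
open Pool.Agent.A54.Dyn (G fl base ze io mk4 dom)
open Pool.Agent.A54.Dyn.LiftM (Sct XC XX cc rot m0)
open Pool.Agent.A54.Av (Mat NonSc)
open Pool.Agent.A54.Half (H0)
open Pool.Agent.A54.Sq (la TestP)

noncomputable section

/-- the normalised raised and lowered forms on the half-plane: `f_n / √(∏_{j<n} μ_j)` for `n ≥ 0`, and
`G_{-n} = (-1)^n conj G_n` -/
def Gf (f : ℍ → ℝ) (t : ℝ) : ℤ → ℂ → ℂ
  | Int.ofNat n => fun z => Av.fk f n z / ((√(∏ j ∈ Finset.range n, Av.mu j t) : ℝ) : ℂ)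
  | Int.negSucc n => fun z =>
      (-1) ^ (n + 1) * conj (Av.fk f (n + 1) z / ((√(∏ j ∈ Finset.range (n + 1), Av.mu j t) : ℝ) : ℂ))

/-- the form of weight `2 n` on the group: `F_n(g) = ze(g)^n G_n(base g)` -/
def Ff (f : ℍ → ℝ) (t : ℝ) (n : ℤ) (g : G) : ℂ := ze g ^ n * Gf f t n ((base g : ℍ) : ℂ)

/-- `∑_{|n| ≤ N} c_n F_n` -/
def Ph (f : ℍ → ℝ) (t : ℝ) (N : ℕ) (c : ℤ → ℂ) (g : G) : ℂ :=
  ∑ n ∈ Finset.Icc (-(N : ℤ)) N, c n * Ff f t n g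

/-- `∑_{|n| ≤ N} (-i)^n b_n F_n` -/
def Pb (f : ℍ → ℝ) (t : ℝ) (N : ℕ) (b : ℤ → ℝ) (g : G) : ℂ :=
  Ph f t N (fun n => (-Complex.I) ^ n * (b n : ℂ)) g

/-- `S = ∑_{|n| ≤ N} w_n |G_n|²` -/
def Sw (f : ℍ → ℝ) (t : ℝ) (N : ℕ) (w : ℤ → ℝ) (z : ℍ) : ℝ :=
  ∑ n ∈ Finset.Icc (-(N : ℤ)) N, w n * ‖Gf f t n (z : ℂ)‖ ^ 2

/-- the mass of `Φ` on the fibre of `z` after time `τ`: `S^τ(z) = ∫_K |Φ(z k a_τ)|² dk` -/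
def St (Φ : G → ℂ) (τ : ℝ) (z : ℍ) : ℝ :=
  ∫ x : XC, ‖Φ (Sct (z, x) * fl τ)‖ ^ 2 ∂AddCircle.haarAddCircle

/-- `(T - t) b`, `T` the Jacobi matrix of the geodesic flow -/
def TT (t : ℝ) (b : ℤ → ℝ) (n : ℤ) : ℝ :=
  (la t (n - 1) * b (n - 1) + la t n * b (n + 1)) / 2 - t * b n

/-- packets: even bumps of length `N ~ t^(1/2-d)`, with `‖(T-t)^k b‖ ≤ C t^(2dk)` for `k ≤ K` -/
structure Pack (d C : ℝ) (K : ℕ) (t : ℝ) (N : ℕ) (b : ℤ → ℝ) : Prop where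
  one_le : 1 ≤ N
  lo : t ^ (1 / 2 - d) ≤ N
  hi : (N : ℝ) ≤ 2 * t ^ (1 / 2 - d)
  supp : ∀ n : ℤ, (N : ℤ) < |n| → b n = 0
  even : ∀ n, b (-n) = b n
  norm : ∑ n ∈ Finset.Icc (-(N : ℤ)) N, b n ^ 2 = 1
  pow : ∀ k ≤ K, ∑ n ∈ Finset.Icc (-((N + K : ℕ) : ℤ)) ((N + K : ℕ) : ℤ), ((TT t)^[k] b n) ^ 2 ≤
    C * (t ^ (2 * d)) ^ (2 * k)
  anti : ∀ (j : ℤ) (S : Finset ℤ), ∑ n ∈ S, |b n * TT t b (n + j) - b (n + j) * TT t b n| ≤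
    C * |(j : ℝ)| * t ^ (-(1 / 2) + 3 * d)
  tele : ∀ S : Finset ℤ, ∑ n ∈ S, |b n ^ 2 - b (n + 1) ^ 2| ≤ C / N

/-- fourth moments of the tower up to the index `N`, on the half-plane -/
def U4 (f : ℍ → ℝ) (t : ℝ) (ζ : ℂ → ℝ) (N : ℕ) (B : ℝ) : Prop :=
  ∀ n : ℤ, |n| ≤ N → ∫ z : ℍ, ζ z * ‖Gf f t n (z : ℂ)‖ ^ 4 ≤ B

/-- the point pair invariant `u(z, w) = |z - w|² / (im z im w) = 2 cosh d(z, w) - 2` -/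
def uh (z w : ℍ) : ℝ := ‖(z : ℂ) - (w : ℂ)‖ ^ 2 / (z.im * w.im)

/-- `∫∫ φ(z) k(u(z, w)) S(z) S'(w)` -/
def V2 (φ : ℂ → ℝ) (k : ℝ → ℝ) (S S' : ℍ → ℝ) : ℝ≥0∞ :=
  ∫⁻ z : ℍ, ∫⁻ w : ℍ, ENNReal.ofReal (φ z * k (uh z w) * S z * S' w)

/-- kernels of scale `a`: `0 ≤ k ≤ C a⁻²`, `k(u) = 0` for `u ≥ a²`, `π ∫ k = 1` -/
structure Ker (C a : ℝ) (k : ℝ → ℝ) : Prop where
  pos : 0 < a
  meas : Measurable k
  nonneg : ∀ u, 0 ≤ k u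
  le : ∀ u, k u ≤ C / a ^ 2
  supp : ∀ u, a ^ 2 ≤ u → k u = 0
  one : Real.pi * ∫ u in Ioi (0 : ℝ), k u = 1

end

end Pool.Agent.A54.Hp
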