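import Pool.Agent.Lib.MP_a54f13_nt.Hp.DefsA

/-!
# Package `Hp`, pairs of geodesics: definitions
-/

set_option autoImplicit false

namespace Pool.Agent.A54.Hp

open MeasureTheory Filter Topology Set
open scoped ContDiff ComplexConjugate UpperHalfPlane MatrixGroups ENNReal
open Pool.Agent.A54.Dyn (G fl base ze io mk4 dom)

noncomputable section

/-- rotation by a right angle (reverses the geodesic) -/
def wr : G := mk4 0 1 (-1) 0 (by norm_num)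

/-- windows `(1 - |x|/τ₀)₊` -/
def ch (τ₀ x : ℝ) : ℝ := max 0 (1 - |x| / τ₀)

/-- `I_k(y, y') = ∫∫ χ(τ) χ(σ) φ(z_τ) k(u(z_τ, z'_σ)) dτ dσ`, `z_τ = base (y fl(-τ))`, `z'_σ = base (y' fl(-σ))` -/
def Ik (φ : ℂ → ℝ) (k χ : ℝ → ℝ) (y y' : G) : ℝ≥0∞ :=
  ∫⁻ τ : ℝ, ∫⁻ σ : ℝ, ENNReal.ofReal (χ τ * χ σ * (φ (base (y * fl (-τ)) : ℂ) *
    k (uh (base (y * fl (-τ))) (base (y' * fl (-σ))))))

/-- averages over the times -/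
def Aw (Φ : G → ℂ) (φ : ℂ → ℝ) (k χ : ℝ → ℝ) : ℝ≥0∞ :=
  ∫⁻ τ : ℝ, ∫⁻ σ : ℝ, ENNReal.ofReal (χ τ * χ σ) * V2 φ k (St Φ τ) (St Φ σ)

/-- the constant of the smooth kernels -/
def ct : ℝ := Real.pi * ∫ u in Ioi (0 : ℝ), Real.smoothTransition (2 - 2 * u)

/-- smooth kernels of scale `e` -/
def sk (e u : ℝ) : ℝ := Real.smoothTransition (2 - 2 * (u / e ^ 2)) / (ct * e ^ 2)

/-- indicator kernels -/
def kk (r u : ℝ) : ℝ := if u < r ^ 2 then (Real.pi * r ^ 2)⁻¹ else 0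

/-- `h_z(w) = k(u(z, w))` as a function on the plane, zero outside the half-plane -/
def hk (k : ℝ → ℝ) (z : ℍ) (w : ℂ) : ℝ := if 0 < w.im then k (‖(z : ℂ) - w‖ ^ 2 / (z.im * w.im)) else 0

/-- the data: a form, a packet (with exponent `d = c/800`) and the bounds for `C_w` down to `t^(-1/2-d/2)` -/
structure Dt (c : ℝ) (v : ℝ → ℝ) (C₀ : ℝ) (K : ℕ) (l : ℕ → ℝ) (f : ℍ → ℝ) (t : ℝ) (N : ℕ)
    (b : ℤ → ℝ) : Prop where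
  hm : IsHeckeMaass f t
  one_le : 1 ≤ t
  pack : Pack (c / 800) C₀ K t N b
  he : HE l (Pb f t N b)
  cw : ∀ R : ℝ, 1 ≤ R → ∀ w : ℝ, t ^ (-(1 / 2 + c / 1600)) ≤ w → w ≤ v R →
    Cw (Pb f t N b) R w ≤ ENNReal.ofReal (w ^ (1 + c))

/-- `S` for a packet -/
def Sb (f : ℍ → ℝ) (t : ℝ) (N : ℕ) (b : ℤ → ℝ) : ℍ → ℝ := Sw f t N (fun n => b n ^ 2)

/-- `S` on the plane -/
def Spl (f : ℍ → ℝ) (t : ℝ) (N : ℕ) (b : ℤ → ℝ) (z : ℂ) : ℝ :=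
  ∑ n ∈ Finset.Icc (-(N : ℤ)) N, b n ^ 2 * ‖Gf f t n z‖ ^ 2

/-- the radius -/
def rh (c t : ℝ) : ℝ := t ^ (-(1 / 2 + c / 1600))

end

end Pool.Agent.A54.Hp
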