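import Pool.Agent.Lib.MP_a54f13_nt.Hp.CoL
import Pool.Agent.Lib.MP_a54f13_nt.Hp.HprK

/-!
# Package `Hp`: the dichotomy, from the theorem with a hypothesis
-/

set_option autoImplicit false

namespace Pool.Agent.A54.Hp

open MeasureTheory Filter Topology Set
open scoped ContDiff ComplexConjugate UpperHalfPlane MatrixGroups ENNReal

noncomputable section

/-- Hecke operators at primes -/
theorem isHk_prime {f : ℍ → ℝ} {p : ℕ} (hp : p.Prime) {c : ℝ}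
    (h : ∀ z : ℍ, ext f ((p : ℂ) * z) + ∑ b ∈ Finset.range p, ext f (((z : ℂ) + b) / p) = c * f z) :
    Av.IsHk f p c := by
  intro z
  rw [Nat.Prime.sum_divisors hp]
  have h1 : ∑ b ∈ Finset.range p, ext f ((((p / p : ℕ) : ℂ) * z + b) / p) =
      ∑ b ∈ Finset.range p, ext f (((z : ℂ) + b) / p) := by
    rw [Nat.div_self hp.pos]
    simp
  have h2 : ∑ b ∈ Finset.range 1, ext f ((((p / 1 : ℕ) : ℂ) * z + b) / ((1 : ℕ) : ℂ)) =
      ext f ((p : ℂ) * z) := by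
    simp
  rw [h1, h2, add_comm]
  exact h z

/-- the count in `GdC` -/
theorem gdC_iff {κ M : ℝ} (hM : 0 ≤ M) (l : ℕ → ℝ) : GdC κ l M ↔
    M ^ (1 - κ) ≤ ({p : ℕ | p.Prime ∧ M < p ∧ (p : ℝ) ≤ 2 * M ∧ M ^ (-κ) ≤ |l p|}.ncard : ℝ) := by
  have h : {p : ℕ | p.Prime ∧ M < p ∧ (p : ℝ) ≤ 2 * M ∧ M ^ (-κ) ≤ |l p|} =
      (((Pm M).filter (fun p => M ^ (-κ) ≤ |l p|) : Finset ℕ) : Set ℕ) := by
    ext p
    simp only [Pm, mem_ofPred_eq, Finset.coe_filter, Finset.mem_filter, Finset.mem_Ioc]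
    rw [Nat.floor_lt hM, Nat.le_floor_iff (by linarith)]
    tauto
  rw [h, Set.ncard_coe_finset]
  rfl

end

end Pool.Agent.A54.Hp
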