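import Pool.Agent.Lib.MP_a54f13_nt.Hp.SpecM

/-!
# Package `Hp`, Hecke half of the long window version: arithmetic of the cosets of `M_p` in `M_{pn}`
-/

set_option autoImplicit false

namespace Pool.Agent.A54.Hp

open MeasureTheory Filter Topology Set
open scoped ContDiff ComplexConjugate UpperHalfPlane MatrixGroups ENNReal
open Pool.Agent.A54.Dyn (G fl base ze io mk4 dom)
open Pool.Agent.A54.Av (Mat NonSc)

noncomputable section

namespace Hk

/-- the `p + 1` representatives -/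
def rp (p : ℕ) : Option (Fin p) → Mat
  | none => !![(p : ℤ), 0; 0, 1]
  | some b => !![1, ((b : ℕ) : ℤ); 0, (p : ℤ)]

lemma rp_det (p : ℕ) (j : Option (Fin p)) : (rp p j).det = (p : ℤ) := by
  cases j with
  | none => simp [rp, Matrix.det_fin_two]
  | some b => simp [rp, Matrix.det_fin_two]

/-- `m ↦ m r_j` -/
def Ph (p n : ℕ) (j : Option (Fin p)) (m : Mn n) : Mn (p * n) :=
  ⟨m.1 * rp p j, by rw [Matrix.det_mul, m.2, rp_det]; push_cast; ring⟩

/-- the condition for `s ∈ M r_j` -/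
def Cd (p : ℕ) : Option (Fin p) → Mat → Prop
  | none => fun s => (p : ℤ) ∣ s 0 0 ∧ (p : ℤ) ∣ s 1 0
  | some b => fun s => (p : ℤ) ∣ s 0 1 - ((b : ℕ) : ℤ) * s 0 0 ∧ (p : ℤ) ∣ s 1 1 - ((b : ℕ) : ℤ) * s 1 0

/-- all entries divisible by `p` -/
def PD (p : ℕ) (s : Mat) : Prop := ∀ i j, (p : ℤ) ∣ s i j

lemma Ph_inj {p : ℕ} (hp : 0 < p) (n : ℕ) (j : Option (Fin p)) : Function.Injective (Ph p n j) := by
  intro m m' h
  have h1 : m.1 * rp p j = m'.1 * rp p j := congrArg Subtype.val h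
  have h2 := congrArg (fun A : Mat => A * (rp p j).adjugate) h1
  simp only [Matrix.mul_assoc, Matrix.mul_adjugate, rp_det, Matrix.mul_smul, Matrix.mul_one] at h2
  apply Subtype.ext
  ext a b
  have h3 := congrFun (congrFun h2 a) b
  rw [Matrix.smul_apply, Matrix.smul_apply, smul_eq_mul, smul_eq_mul] at h3
  exact mul_left_cancel₀ (by exact_mod_cast hp.ne') h3

lemma range_Ph {p : ℕ} (hp : 0 < p) (n : ℕ) (j : Option (Fin p)) (s : Mn (p * n)) :
    s ∈ Set.range (Ph p n j) ↔ Cd p j s.1 := by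
  have hp0 : (p : ℤ) ≠ 0 := by exact_mod_cast hp.ne'
  have hs := s.2
  rw [Matrix.det_fin_two] at hs
  push_cast at hs
  constructor
  · rintro ⟨m, rfl⟩
    cases j with
    | none =>
      refine ⟨⟨m.1 0 0, ?_⟩, ⟨m.1 1 0, ?_⟩⟩
      · simp [Ph, rp, Matrix.mul_apply, Fin.sum_univ_two]
        ring
      · simp [Ph, rp, Matrix.mul_apply, Fin.sum_univ_two]
        ring
    | some b =>
      refine ⟨⟨m.1 0 1, ?_⟩, ⟨m.1 1 1, ?_⟩⟩
      · simp [Ph, rp, Matrix.mul_apply, Fin.sum_univ_two]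
        ring
      · simp [Ph, rp, Matrix.mul_apply, Fin.sum_univ_two]
        ring
  · cases j with
    | none =>
      rintro ⟨⟨a, ha⟩, ⟨c, hc⟩⟩
      refine ⟨⟨!![a, s.1 0 1; c, s.1 1 1], ?_⟩, ?_⟩
      · apply mul_left_cancel₀ hp0
        rw [Matrix.det_fin_two]
        simp only [Matrix.of_apply, Matrix.cons_val', Matrix.cons_val_zero, Matrix.cons_val_one,
          Matrix.cons_val_fin_one]
        rw [ha, hc] at hs
        linear_combination hs
      · apply Subtype.ext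
        ext i k
        fin_cases i <;> fin_cases k <;>
          simp [Ph, rp, ha, hc] <;> ring
    | some b =>
      rintro ⟨⟨a, ha⟩, ⟨c, hc⟩⟩
      have ha' : s.1 0 1 = p * a + ((b : ℕ) : ℤ) * s.1 0 0 := by linear_combination ha
      have hc' : s.1 1 1 = p * c + ((b : ℕ) : ℤ) * s.1 1 0 := by linear_combination hc
      refine ⟨⟨!![s.1 0 0, a; s.1 1 0, c], ?_⟩, ?_⟩
      · apply mul_left_cancel₀ hp0
        rw [Matrix.det_fin_two]
        simp only [Matrix.of_apply, Matrix.cons_val', Matrix.cons_val_zero, Matrix.cons_val_one,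
          Matrix.cons_val_fin_one]
        rw [ha', hc'] at hs
        linear_combination hs
      · apply Subtype.ext
        ext i k
        fin_cases i <;> fin_cases k <;>
          simp [Ph, rp, ha', hc'] <;> ring

lemma Cd_of_PD {p : ℕ} {s : Mat} (h : PD p s) (j : Option (Fin p)) : Cd p j s := by
  cases j with
  | none => exact ⟨h 0 0, h 1 0⟩
  | some b =>
    exact ⟨(h 0 1).sub ((h 0 0).mul_left _), (h 1 1).sub ((h 1 0).mul_left _)⟩

lemma exists_Cd {p : ℕ} (hp : p.Prime) {s : Mat} (hs : (p : ℤ) ∣ s.det) : ∃ j, Cd p j s := by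
  have hpp : Prime (p : ℤ) := Nat.prime_iff_prime_int.1 hp
  by_cases h0 : (p : ℤ) ∣ s 0 0 ∧ (p : ℤ) ∣ s 1 0
  · exact ⟨none, h0⟩
  rw [Matrix.det_fin_two] at hs
  have hb : ∃ b0 : ℤ, (p : ℤ) ∣ s 0 1 - b0 * s 0 0 ∧ (p : ℤ) ∣ s 1 1 - b0 * s 1 0 := by
    by_cases h1 : (p : ℤ) ∣ s 0 0
    · have h2 : ¬ (p : ℤ) ∣ s 1 0 := fun h => h0 ⟨h1, h⟩
      obtain ⟨u, v, huv⟩ := (hpp.coprime_iff_not_dvd.2 h2 : IsCoprime (p : ℤ) (s 1 0))
      obtain ⟨e, he⟩ := h1
      refine ⟨v * s 1 1, ?_, ⟨u * s 1 1, by linear_combination (-s 1 1) * huv⟩⟩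
      have h3 : (p : ℤ) ∣ s 1 0 * (s 0 1 - v * s 1 1 * s 0 0) := by
        obtain ⟨d, hd⟩ := hs
        refine ⟨-d + e * s 1 1 - v * s 1 1 * s 1 0 * e, ?_⟩
        rw [he] at hd ⊢
        linear_combination -hd
      exact (hpp.dvd_or_dvd h3).resolve_left h2
    · obtain ⟨u, v, huv⟩ := (hpp.coprime_iff_not_dvd.2 h1 : IsCoprime (p : ℤ) (s 0 0))
      refine ⟨v * s 0 1, ⟨u * s 0 1, by linear_combination (-s 0 1) * huv⟩, ?_⟩
      have h3 : (p : ℤ) ∣ s 0 0 * (s 1 1 - v * s 0 1 * s 1 0) := by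
        obtain ⟨d, hd⟩ := hs
        refine ⟨d + u * s 0 1 * s 1 0, ?_⟩
        linear_combination hd + (-(s 0 1 * s 1 0)) * huv
      exact (hpp.dvd_or_dvd h3).resolve_left h1
  obtain ⟨b0, h1, h2⟩ := hb
  have hp0 : (0 : ℤ) < p := by exact_mod_cast hp.pos
  have hm0 := Int.emod_nonneg b0 hp0.ne'
  have hm1 := Int.emod_lt_of_pos b0 hp0
  have hdm := Int.emod_add_mul_ediv b0 p
  refine ⟨some ⟨(b0 % p).toNat, by omega⟩, ?_, ?_⟩
  · obtain ⟨c, hc⟩ := h1
    refine ⟨c + b0 / p * s 0 0, ?_⟩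
    simp only [Int.toNat_of_nonneg hm0]
    linear_combination hc - s 0 0 * hdm
  · obtain ⟨c, hc⟩ := h2
    refine ⟨c + b0 / p * s 1 0, ?_⟩
    simp only [Int.toNat_of_nonneg hm0]
    linear_combination hc - s 1 0 * hdm

lemma PD_of_two {p : ℕ} (hp : p.Prime) {s : Mat} {j j' : Option (Fin p)} (hj : j ≠ j')
    (h : Cd p j s) (h' : Cd p j' s) : PD p s := by
  have hpp : Prime (p : ℤ) := Nat.prime_iff_prime_int.1 hp
  have key : ∀ b : Fin p, (p : ℤ) ∣ s 0 0 → (p : ℤ) ∣ s 1 0 → Cd p (some b) s → PD p s := by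
    intro b h0 h1 h2 i k
    obtain ⟨h3, h4⟩ := h2
    have h5 : (p : ℤ) ∣ s 0 1 := (dvd_sub_left (h0.mul_left _)).1 h3
    have h6 : (p : ℤ) ∣ s 1 1 := (dvd_sub_left (h1.mul_left _)).1 h4
    fin_cases i <;> fin_cases k
    exacts [h0, h5, h1, h6]
  cases j with
  | none =>
    cases j' with
    | none => exact absurd rfl hj
    | some b => exact key b h.1 h.2 h'
  | some b =>
    cases j' with
    | none => exact key b h'.1 h'.2 h
    | some b' =>
      have hbb : b ≠ b' := fun h => hj (by rw [h])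
      have hnd : ¬ (p : ℤ) ∣ (((b : ℕ) : ℤ) - ((b' : ℕ) : ℤ)) := by
        intro h
        have h1 := b.2
        have h2 := b'.2
        have h3 := Int.eq_zero_of_abs_lt_dvd h (by rw [abs_lt]; constructor <;> omega)
        apply hbb
        apply Fin.ext
        omega
      have h0 : (p : ℤ) ∣ s 0 0 := by
        have h1 : (p : ℤ) ∣ (((b : ℕ) : ℤ) - ((b' : ℕ) : ℤ)) * s 0 0 := by
          have := h'.1.sub h.1
          have h2 : s 0 1 - ((b' : ℕ) : ℤ) * s 0 0 - (s 0 1 - ((b : ℕ) : ℤ) * s 0 0) =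
            (((b : ℕ) : ℤ) - ((b' : ℕ) : ℤ)) * s 0 0 := by ring
          rwa [h2] at this
        exact (hpp.dvd_or_dvd h1).resolve_left hnd
      have h1 : (p : ℤ) ∣ s 1 0 := by
        have h1 : (p : ℤ) ∣ (((b : ℕ) : ℤ) - ((b' : ℕ) : ℤ)) * s 1 0 := by
          have := h'.2.sub h.2
          have h2 : s 1 1 - ((b' : ℕ) : ℤ) * s 1 0 - (s 1 1 - ((b : ℕ) : ℤ) * s 1 0) =
            (((b : ℕ) : ℤ) - ((b' : ℕ) : ℤ)) * s 1 0 := by ring
          rwa [h2] at this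
        exact (hpp.dvd_or_dvd h1).resolve_left hnd
      exact key b h0 h1 h

open Classical in
/-- the number of cosets which contain `s` -/
lemma sum_ind {p : ℕ} (hp : p.Prime) (n : ℕ) (f : Mat → ℝ≥0∞) (s : Mn (p * n)) :
    ∑ j, (Set.range (Ph p n j)).indicator (fun s : Mn (p * n) => f s.1) s =
      f s.1 + if PD p s.1 then (p : ℝ≥0∞) * f s.1 else 0 := by
  by_cases h : PD p s.1
  · rw [if_pos h]
    have h1 : ∀ j, (Set.range (Ph p n j)).indicator (fun s : Mn (p * n) => f s.1) s = f s.1 :=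
      fun j => Set.indicator_of_mem ((range_Ph hp.pos n j s).2 (Cd_of_PD h j)) _
    simp only [h1]
    rw [Finset.sum_const, Finset.card_univ, Fintype.card_option, Fintype.card_fin, nsmul_eq_mul]
    push_cast
    ring
  · rw [if_neg h, add_zero]
    obtain ⟨j, hj⟩ := exists_Cd hp (s := s.1) ⟨n, by rw [s.2]; push_cast; ring⟩
    rw [Finset.sum_eq_single j]
    · exact Set.indicator_of_mem ((range_Ph hp.pos n j s).2 hj) _
    · intro j' _ hjj
      refine Set.indicator_of_notMem (fun h' => ?_) _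
      exact h (PD_of_two hp hjj ((range_Ph hp.pos n j' s).1 h') hj)
    · intro h'
      exact absurd (Finset.mem_univ j) h'

open Classical in
lemma sum_all {p : ℕ} (hp : p.Prime) (n : ℕ) (f : Mat → ℝ≥0∞) :
    ∑ j, ∑' m : Mn n, f (m.1 * rp p j) =
      (∑' s : Mn (p * n), f s.1) + ∑' s : Mn (p * n), if PD p s.1 then (p : ℝ≥0∞) * f s.1 else 0 := by
  have h1 : ∀ j, ∑' m : Mn n, f (m.1 * rp p j) =
      ∑' s : Mn (p * n), (Set.range (Ph p n j)).indicator (fun s : Mn (p * n) => f s.1) s := by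
    intro j
    rw [← tsum_subtype, tsum_range (fun s : Mn (p * n) => f s.1) (Ph_inj hp.pos n j)]
    rfl
  simp only [h1]
  rw [← Summable.tsum_finsetSum fun j _ => ENNReal.summable, ← ENNReal.tsum_add]
  exact tsum_congr fun s => sum_ind hp n f s

lemma not_PD {p : ℕ} (hp : 0 < p) {n : ℕ} (hn : ¬ p ∣ n) (s : Mn (p * n)) : ¬ PD p s.1 := by
  intro h
  apply hn
  have hp0 : (p : ℤ) ≠ 0 := by exact_mod_cast hp.ne'
  have hs := s.2
  rw [Matrix.det_fin_two] at hs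
  push_cast at hs
  obtain ⟨a, ha⟩ := h 0 0
  obtain ⟨b, hb⟩ := h 0 1
  have h1 : (p : ℤ) * n = p * (p * a * 1 * (s.1 1 1 / p) * 1 - b * s.1 1 0) := by
    obtain ⟨d, hd⟩ := h 1 1
    rw [← hs, ha, hb, hd, Int.mul_ediv_cancel_left _ hp0]
    ring
  have h2 := mul_left_cancel₀ hp0 h1
  obtain ⟨c, hc⟩ := h 1 0
  have h3 : (p : ℤ) ∣ (n : ℤ) := by
    rw [h2, hc]
    exact ⟨a * 1 * (s.1 1 1 / p) * 1 - b * c, by ring⟩
  exact_mod_cast h3

/-- `t ↦ p t` -/
def sc (p n : ℕ) (t : Mn n) : Mn (p * (p * n)) :=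
  ⟨(p : ℤ) • t.1, by rw [Matrix.det_smul, t.2, Fintype.card_fin]; push_cast; ring⟩

lemma sc_inj {p : ℕ} (hp : 0 < p) (n : ℕ) : Function.Injective (sc p n) := by
  intro t t' h
  have h1 : (p : ℤ) • t.1 = (p : ℤ) • t'.1 := congrArg Subtype.val h
  apply Subtype.ext
  ext a b
  have h3 := congrFun (congrFun h1 a) b
  rw [Matrix.smul_apply, Matrix.smul_apply, smul_eq_mul, smul_eq_mul] at h3
  exact mul_left_cancel₀ (by exact_mod_cast hp.ne') h3

lemma range_sc {p : ℕ} (hp : 0 < p) (n : ℕ) (s : Mn (p * (p * n))) :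
    s ∈ Set.range (sc p n) ↔ PD p s.1 := by
  have hp0 : (p : ℤ) ≠ 0 := by exact_mod_cast hp.ne'
  constructor
  · rintro ⟨t, rfl⟩ i j
    exact ⟨t.1 i j, rfl⟩
  · intro h
    choose t ht using h
    have h1 : s.1 = (p : ℤ) • (Matrix.of t : Mat) := by
      ext i j
      rw [Matrix.smul_apply, Matrix.of_apply, smul_eq_mul, ht]
    refine ⟨⟨Matrix.of t, ?_⟩, Subtype.ext h1.symm⟩
    have h2 := s.2
    rw [h1, Matrix.det_smul, Fintype.card_fin] at h2
    push_cast at h2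
    have h3 : (p : ℤ) ^ 2 ≠ 0 := pow_ne_zero 2 hp0
    apply mul_left_cancel₀ h3
    rw [h2]
    ring

/-- the coset sum for `p ∤ n` -/
lemma sum_coprime {p : ℕ} (hp : p.Prime) {n : ℕ} (hn : ¬ p ∣ n) (f : Mat → ℝ≥0∞) :
    ∑ j, ∑' m : Mn n, f (m.1 * rp p j) = ∑' s : Mn (p * n), f s.1 := by
  classical
  rw [sum_all hp n f]
  have h1 : ∀ s : Mn (p * n), (if PD p s.1 then (p : ℝ≥0∞) * f s.1 else 0) = 0 :=
    fun s => if_neg (not_PD hp.pos hn s)
  simp only [h1, tsum_zero, add_zero]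

/-- the coset sum for `p ∣ n` -/
lemma sum_dvd {p : ℕ} (hp : p.Prime) (n : ℕ) (f : Mat → ℝ≥0∞) :
    ∑ j, ∑' m : Mn (p * n), f (m.1 * rp p j) =
      (∑' s : Mn (p * (p * n)), f s.1) + (p : ℝ≥0∞) * ∑' t : Mn n, f ((p : ℤ) • t.1) := by
  classical
  rw [sum_all hp (p * n) f]
  congr 1
  have h1 : ∀ s : Mn (p * (p * n)), (if PD p s.1 then (p : ℝ≥0∞) * f s.1 else 0) =
      (Set.range (sc p n)).indicator (fun s : Mn (p * (p * n)) => (p : ℝ≥0∞) * f s.1) s := by
    intro s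
    by_cases h : PD p s.1
    · rw [if_pos h, Set.indicator_of_mem ((range_sc hp.pos n s).2 h)]
    · rw [if_neg h, Set.indicator_of_notMem (fun h' => h ((range_sc hp.pos n s).1 h'))]
  simp only [h1]
  rw [← tsum_subtype, tsum_range (fun s : Mn (p * (p * n)) => (p : ℝ≥0∞) * f s.1)
    (sc_inj hp.pos n), ENNReal.tsum_mul_left]
  rfl

/-- the coset sum, lower bound -/
lemma le_sum {p : ℕ} (hp : p.Prime) (n : ℕ) (f : Mat → ℝ≥0∞) :
    ∑' s : Mn (p * n), f s.1 ≤ ∑ j, ∑' m : Mn n, f (m.1 * rp p j) := by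
  classical
  rw [sum_all hp n f]
  exact le_self_add

/-- the adjugate -/
def adjE (n : ℕ) : Mn n ≃ Mn n where
  toFun m := ⟨m.1.adjugate, by rw [Matrix.det_adjugate, m.2, Fintype.card_fin, pow_one]⟩
  invFun m := ⟨m.1.adjugate, by rw [Matrix.det_adjugate, m.2, Fintype.card_fin, pow_one]⟩
  left_inv m := by
    apply Subtype.ext
    change m.1.adjugate.adjugate = m.1
    rw [Matrix.adjugate_fin_two, Matrix.adjugate_fin_two]
    ext i j
    fin_cases i <;> fin_cases j <;> simp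
  right_inv m := by
    apply Subtype.ext
    change m.1.adjugate.adjugate = m.1
    rw [Matrix.adjugate_fin_two, Matrix.adjugate_fin_two]
    ext i j
    fin_cases i <;> fin_cases j <;> simp

lemma adj_sum {p : ℕ} (n : ℕ) (f : Mat → ℝ≥0∞) (j : Option (Fin p)) :
    ∑' m : Mn n, f ((rp p j).adjugate * m.1) =
      ∑' m : Mn n, (fun s : Mat => f s.adjugate) (m.1 * rp p j) := by
  rw [← Equiv.tsum_eq (adjE n) (fun m : Mn n => f ((rp p j).adjugate * m.1))]
  refine tsum_congr fun m => ?_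
  change f ((rp p j).adjugate * m.1.adjugate) = f (m.1 * rp p j).adjugate
  rw [Matrix.adjugate_mul_distrib]

lemma adj_all (n : ℕ) (f : Mat → ℝ≥0∞) :
    ∑' s : Mn n, (fun s : Mat => f s.adjugate) s.1 = ∑' s : Mn n, f s.1 := by
  rw [← Equiv.tsum_eq (adjE n) (fun m : Mn n => f m.1)]
  rfl

lemma adj_coprime {p : ℕ} (hp : p.Prime) {n : ℕ} (hn : ¬ p ∣ n) (f : Mat → ℝ≥0∞) :
    ∑ j, ∑' m : Mn n, f ((rp p j).adjugate * m.1) = ∑' s : Mn (p * n), f s.1 := by
  simp only [adj_sum]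
  exact (sum_coprime hp hn (fun s : Mat => f s.adjugate)).trans (adj_all (p * n) f)

lemma adj_le {p : ℕ} (hp : p.Prime) (n : ℕ) (f : Mat → ℝ≥0∞) :
    ∑' s : Mn (p * n), f s.1 ≤ ∑ j, ∑' m : Mn n, f ((rp p j).adjugate * m.1) := by
  simp only [adj_sum]
  rw [← adj_all (p * n) f]
  exact le_sum hp n (fun s : Mat => f s.adjugate)

end Hk

end

end Pool.Agent.A54.Hp
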