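import Pool.Agent.Lib.MP_a54f13_nt.Hp.Hk1
import Pool.Agent.Lib.MP_a54f13_nt.Hp.A2

/-!
# Package `Hp`, Hecke half of the long window version: the operators, induction over the index set
-/

set_option autoImplicit false

namespace Pool.Agent.A54.Hp

open MeasureTheory Filter Topology Set
open scoped ContDiff ComplexConjugate UpperHalfPlane MatrixGroups ENNReal
open Pool.Agent.A54.Dyn (G fl base ze io mk4 dom)
open Pool.Agent.A54.Av (Mat NonSc)

noncomputable section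

namespace Hk

open A2M

/-- the Hecke operator on `SL(2, ℤ)`-invariant functions -/
def Tp (p : ℕ) (h : G → ℝ≥0∞) (x : G) : ℝ≥0∞ := ∑ j, h (nm (rp p j) * x)

/-- its dual on functions on `G` -/
def Ts (p : ℕ) (F : G → ℝ≥0∞) (x : G) : ℝ≥0∞ := ∑ j, F ((nm (rp p j))⁻¹ * x)

lemma meas_Tp {h : G → ℝ≥0∞} (hh : Measurable h) (p : ℕ) : Measurable (Tp p h) :=
  Finset.measurable_sum _ fun _ _ => meas_mul hh _

lemma meas_Ts {F : G → ℝ≥0∞} (hF : Measurable F) (p : ℕ) : Measurable (Ts p F) :=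
  Finset.measurable_sum _ fun _ _ => meas_mul hF _

lemma int_Tp (hNu : StmtNuL) {F h : G → ℝ≥0∞} (hF : Measurable F) (hh : Measurable h) (p : ℕ) :
    ∫⁻ x, F x * Tp p h x ∂nu = ∫⁻ x, Ts p F x * h x ∂nu := by
  have := hNu.1
  unfold Tp Ts
  simp only [Finset.mul_sum, Finset.sum_mul]
  have m1 : ∀ j ∈ (Finset.univ : Finset (Option (Fin p))),
      Measurable fun x => F x * h (nm (rp p j) * x) := fun j _ => hF.mul (meas_mul hh _)
  have m2 : ∀ j ∈ (Finset.univ : Finset (Option (Fin p))),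
      Measurable fun x => F ((nm (rp p j))⁻¹ * x) * h x := fun j _ => (meas_mul hF _).mul hh
  rw [lintegral_finsetSum _ m1, lintegral_finsetSum _ m2]
  refine Finset.sum_congr rfl fun j _ => ?_
  rw [← lintegral_mul_left_eq_self (μ := nu) (fun g => F ((nm (rp p j))⁻¹ * g) * h g) (nm (rp p j))]
  simp only [inv_mul_cancel_left]

lemma rp_pos {p : ℕ} (hp : p.Prime) (j : Option (Fin p)) : 0 < (rp p j).det := by
  rw [rp_det]
  exact_mod_cast hp.pos

lemma hs_Ts_sum (hNm : StmtNm) {p : ℕ} (hp : p.Prime) {n : ℕ} (hn : 0 < n) (F : G → ℝ≥0∞) (y : G) :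
    hs (Ts p F) n y = ∑ j, ∑' m : Mn n, (fun s : Mat => F (nm s * y)) ((rp p j).adjugate * m.1) := by
  rw [← Summable.tsum_finsetSum fun j _ => ENNReal.summable]
  unfold hs Ts
  refine tsum_congr fun m => Finset.sum_congr rfl fun j _ => ?_
  change F ((nm (rp p j))⁻¹ * (nm m.1 * y)) = F (nm ((rp p j).adjugate * m.1) * y)
  rw [hNm.1 (rp p j).adjugate m.1 (by rw [adj_det]; exact rp_pos hp j) (det_pos hn m),
    hNm.2.2.1 (rp p j) (rp_pos hp j), mul_assoc]

lemma Tp_hs_sum (hNm : StmtNm) {p : ℕ} (hp : p.Prime) {n : ℕ} (hn : 0 < n) (F : G → ℝ≥0∞) (x : G) :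
    Tp p (hs F n) x = ∑ j, ∑' m : Mn n, (fun s : Mat => F (nm s * x)) (m.1 * rp p j) := by
  unfold Tp hs
  refine Finset.sum_congr rfl fun j _ => tsum_congr fun m => ?_
  change F (nm m.1 * (nm (rp p j) * x)) = F (nm (m.1 * rp p j) * x)
  rw [hNm.1 m.1 (rp p j) (det_pos hn m) (rp_pos hp j), mul_assoc]

lemma hs_Ts (hNm : StmtNm) {p : ℕ} (hp : p.Prime) {n : ℕ} (hn : 0 < n) (hpn : ¬ p ∣ n)
    (F : G → ℝ≥0∞) : hs (Ts p F) n = hs F (p * n) := by
  funext y
  rw [hs_Ts_sum hNm hp hn F y]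
  exact adj_coprime hp hpn fun s : Mat => F (nm s * y)

lemma le_hs_Ts (hNm : StmtNm) {p : ℕ} (hp : p.Prime) {n : ℕ} (hn : 0 < n)
    (F : G → ℝ≥0∞) (y : G) : hs F (p * n) y ≤ hs (Ts p F) n y := by
  rw [hs_Ts_sum hNm hp hn F y]
  exact adj_le hp n fun s : Mat => F (nm s * y)

lemma Tp_hs (hNm : StmtNm) {p : ℕ} (hp : p.Prime) {n : ℕ} (hn : 0 < n) (hpn : ¬ p ∣ n)
    (F : G → ℝ≥0∞) : Tp p (hs F n) = hs F (p * n) := by
  funext x
  rw [Tp_hs_sum hNm hp hn F x]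
  exact sum_coprime hp hpn fun s : Mat => F (nm s * x)

lemma Tp_hs_dvd (hNm : StmtNm) {p : ℕ} (hp : p.Prime) {n : ℕ} (hn : 0 < n)
    (F : G → ℝ≥0∞) (x : G) : Tp p (hs F (p * n)) x = hs F (p * (p * n)) x + (p : ℝ≥0∞) * hs F n x := by
  rw [Tp_hs_sum hNm hp (Nat.mul_pos hp.pos hn) F x, sum_dvd hp n fun s : Mat => F (nm s * x)]
  congr 2
  refine tsum_congr fun t => ?_
  rw [hNm.2.2.2.1 (p : ℤ) t.1 (by exact_mod_cast hp.pos)]

/-- `SL(2, ℤ)` as `M_1` -/
def eSL : SL(2, ℤ) ≃ Mn 1 where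
  toFun γ := ⟨(γ : Mat), by rw [γ.det_coe]; norm_num⟩
  invFun m := ⟨m.1, by rw [m.2]; norm_num⟩
  left_inv _ := rfl
  right_inv _ := rfl

lemma hs_one (hNm : StmtNm) (F : G → ℝ≥0∞) (y : G) :
    hs F 1 y = ∑' γ : SL(2, ℤ), F (io γ * y) := by
  unfold hs
  rw [← Equiv.tsum_eq eSL (fun m : Mn 1 => F (nm m.1 * y))]
  refine tsum_congr fun γ => ?_
  change F (nm (γ : Mat) * y) = _
  rw [hNm.2.1]

lemma unf (hUnf : StmtUnf) (hNm : StmtNm) {F h : G → ℝ≥0∞} (hF : Measurable F)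
    (hh : Measurable h) (hinv : ∀ (γ : SL(2, ℤ)) (y : G), h (io γ * y) = h y) :
    ∫⁻ y in FF, hs F 1 y * h y ∂nu = 2 * ∫⁻ x, F x * h x ∂nu := by
  have := countSL
  have hK : Measurable fun g => F g * h g := hF.mul hh
  rw [← hUnf.1 (fun g => F g * h g) hK, ← lintegral_tsum fun γ => (meas_mul hK (io γ)).aemeasurable]
  refine lintegral_congr fun y => ?_
  rw [hs_one hNm, ← ENNReal.tsum_mul_right]
  exact tsum_congr fun γ => by rw [hinv]

/-- the pointwise Hecke inequality -/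
lemma hecke_le {l : ℕ → ℝ} {Φ : G → ℂ} (hE : HE l Φ) {p : ℕ} (hp : p.Prime) (x : G) :
    ENNReal.ofReal (√p * |l p|) * ‖Φ x‖ₑ ≤ Tp p (fun y => ‖Φ y‖ₑ) x := by
  have h1 : ENNReal.ofReal (√p * |l p|) * ‖Φ x‖ₑ = ‖((√p * l p : ℝ) : ℂ) * Φ x‖ₑ := by
    rw [enorm_mul]
    congr 1
    rw [← ofReal_norm, Complex.norm_real, Real.norm_eq_abs, abs_mul,
      abs_of_nonneg (Real.sqrt_nonneg _)]
  rw [h1, ← hE.hecke p hp x]
  unfold Tp
  rw [Fintype.sum_option]
  refine (enorm_add_le _ _).trans (add_le_add le_rfl ?_)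
  rw [Finset.sum_range]
  exact enorm_sum_le _ _

lemma prod_pos' {ι : Type} {s : Finset ι} {p : ι → ℕ} (h : ∀ i ∈ s, (p i).Prime) :
    0 < ∏ i ∈ s, p i := Finset.prod_pos fun i hi => (h i hi).pos

lemma not_dvd_prod {ι : Type} {s : Finset ι} {p : ι → ℕ} {q : ℕ} (hq : q.Prime)
    (h : ∀ i ∈ s, (p i).Prime) (hne : ∀ i ∈ s, q ≠ p i) : ¬ q ∣ ∏ i ∈ s, p i := by
  intro hd
  obtain ⟨i, hi, hd'⟩ := (Prime.dvd_finsetProd_iff (Nat.prime_iff.1 hq) p).1 hd
  exact hne i hi ((Nat.prime_dvd_prime_iff_eq hq (h i hi)).1 hd')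

/-- the first induction -/
lemma r1 (hNu : StmtNuL) (hUnf : StmtUnf) (hNm : StmtNm) {l : ℕ → ℝ} {Φ : G → ℂ} (hE : HE l Φ)
    {ι : Type} [DecidableEq ι] (p : ι → ℕ) (s : Finset ι) :
    (∀ i ∈ s, (p i).Prime) → (∀ i ∈ s, ∀ j ∈ s, i ≠ j → p i ≠ p j) →
    ∀ F : G → ℝ≥0∞, Measurable F →
    2 * (ENNReal.ofReal (∏ i ∈ s, (√(p i) * |l (p i)|)) * ∫⁻ x, F x * ‖Φ x‖ₑ ∂nu) ≤
      ∫⁻ y in FF, hs F (∏ i ∈ s, p i) y * ‖Φ y‖ₑ ∂nu := by
  have hφ : Measurable fun y => ‖Φ y‖ₑ := hE.cont.enorm.measurable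
  induction s using Finset.induction_on with
  | empty =>
    intro _ _ F hF
    rw [Finset.prod_empty, Finset.prod_empty, ENNReal.ofReal_one, one_mul,
      unf hUnf hNm hF hφ fun γ y => by rw [hE.inv]]
  | insert a s ha ih =>
    intro hp hne F hF
    have hpa := hp a (Finset.mem_insert_self a s)
    have hps : ∀ i ∈ s, (p i).Prime := fun i hi => hp i (Finset.mem_insert_of_mem hi)
    have hnd : ¬ p a ∣ ∏ i ∈ s, p i := not_dvd_prod hpa hps fun i hi =>
      hne a (Finset.mem_insert_self a s) i (Finset.mem_insert_of_mem hi)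
        (fun h => ha (h ▸ hi))
    rw [Finset.prod_insert ha, Finset.prod_insert ha, ← hs_Ts hNm hpa (prod_pos' hps) hnd]
    refine le_trans ?_ (ih hps (fun i hi j hj => hne i (Finset.mem_insert_of_mem hi) j
      (Finset.mem_insert_of_mem hj)) (Ts (p a) F) (meas_Ts hF _))
    refine mul_le_mul_right ?_ 2
    rw [ENNReal.ofReal_mul (by positivity), mul_comm (ENNReal.ofReal (√(p a) * |l (p a)|)), mul_assoc]
    refine mul_le_mul_right ?_ _
    rw [← int_Tp hNu hF hφ, ← lintegral_const_mul' _ _ ENNReal.ofReal_ne_top]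
    refine lintegral_mono fun x => ?_
    change ENNReal.ofReal (√(p a) * |l (p a)|) * (F x * ‖Φ x‖ₑ) ≤ F x * Tp (p a) (fun y => ‖Φ y‖ₑ) x
    calc ENNReal.ofReal (√(p a) * |l (p a)|) * (F x * ‖Φ x‖ₑ)
        = F x * (ENNReal.ofReal (√(p a) * |l (p a)|) * ‖Φ x‖ₑ) := by ring
      _ ≤ _ := mul_le_mul_right (hecke_le hE hpa x) _

/-- one step of the second induction -/
lemma step (hNu : StmtNuL) (hNm : StmtNm) {p q N : ℕ} (hp : p.Prime) (hq : q.Prime) (hN : 0 < N)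
    (hpN : ¬ p ∣ N) (hqN : ¬ q ∣ N) {F1 F2 : G → ℝ≥0∞} (h1 : Measurable F1) (h2 : Measurable F2) :
    ∫⁻ x, Ts p F1 x * hs (Ts q F2) N x ∂nu ≤ (∫⁻ x, F1 x * hs F2 (p * q * N) x ∂nu) +
      (if p = q then (p : ℝ≥0∞) * ∫⁻ x, F1 x * hs F2 N x ∂nu else 0) := by
  rw [← int_Tp hNu h1 (meas_hs (meas_Ts h2 q) N), hs_Ts hNm hq hN hqN]
  by_cases hpq : p = q
  · subst hpq
    have m1 : Measurable fun x => F1 x * hs F2 N x := h1.mul (meas_hs h2 N)
    have m2 : Measurable fun x => F1 x * hs F2 (p * p * N) x := h1.mul (meas_hs h2 _)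
    rw [if_pos rfl, ← lintegral_const_mul _ m1, ← lintegral_add_left m2]
    refine (lintegral_congr fun x => ?_).le
    rw [Tp_hs_dvd hNm hp hN F2 x, mul_assoc p p N]
    ring
  · rw [if_neg hpq, add_zero, Tp_hs hNm hp (Nat.mul_pos hq.pos hN) ?_ F2, mul_assoc p q N]
    intro h
    rcases (Nat.Prime.dvd_mul hp).1 h with h | h
    · exact hpq ((Nat.prime_dvd_prime_iff_eq hp hq).1 h)
    · exact hpN h

open Classical in
/-- the term of the set `S` -/
def tm {ι : Type} (p q : ι → ℕ) (F1 F2 : G → ℝ≥0∞) (s S : Finset ι) : ℝ≥0∞ :=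
  if ∀ i ∈ s \ S, p i = q i then
    (∏ i ∈ s \ S, (p i : ℝ≥0∞)) * ∫⁻ x, F1 x * hs F2 (∏ i ∈ S, p i * q i) x ∂nu else 0

open Classical in
/-- the second induction -/
lemma r2 (hNu : StmtNuL) (hUnf : StmtUnf) (hNm : StmtNm) {ι : Type} (p q : ι → ℕ) (s : Finset ι) :
    (∀ i ∈ s, (p i).Prime) → (∀ i ∈ s, (q i).Prime) →
    (∀ i ∈ s, ∀ j ∈ s, i ≠ j → p i ≠ p j ∧ p i ≠ q j ∧ q i ≠ q j) →
    ∀ F1 F2 : G → ℝ≥0∞, Measurable F1 → Measurable F2 →
    ∫⁻ y in FF, hs F1 (∏ i ∈ s, p i) y * hs F2 (∏ i ∈ s, q i) y ∂nu ≤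
      2 * ∑ S ∈ s.powerset, tm p q F1 F2 s S := by
  induction s using Finset.induction_on with
  | empty =>
    intro _ _ _ F1 F2 h1 h2
    rw [Finset.prod_empty, Finset.prod_empty, unf hUnf hNm h1 (meas_hs h2 1)
      fun γ y => hs_inv hNm F2 one_pos γ y]
    simp [tm]
  | insert a s ha ih =>
    intro hp hq hne F1 F2 h1 h2
    have hpa := hp a (Finset.mem_insert_self a s)
    have hqa := hq a (Finset.mem_insert_self a s)
    have hps : ∀ i ∈ s, (p i).Prime := fun i hi => hp i (Finset.mem_insert_of_mem hi)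
    have hqs : ∀ i ∈ s, (q i).Prime := fun i hi => hq i (Finset.mem_insert_of_mem hi)
    rw [Finset.prod_insert ha, Finset.prod_insert ha]
    have h3 : ∫⁻ y in FF, hs F1 (p a * ∏ i ∈ s, p i) y * hs F2 (q a * ∏ i ∈ s, q i) y ∂nu ≤
        ∫⁻ y in FF, hs (Ts (p a) F1) (∏ i ∈ s, p i) y * hs (Ts (q a) F2) (∏ i ∈ s, q i) y ∂nu :=
      lintegral_mono fun y => mul_le_mul' (le_hs_Ts hNm hpa (prod_pos' hps) F1 y)
        (le_hs_Ts hNm hqa (prod_pos' hqs) F2 y)
    refine h3.trans ((ih hps hqs (fun i hi j hj => hne i (Finset.mem_insert_of_mem hi) j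
      (Finset.mem_insert_of_mem hj)) _ _ (meas_Ts h1 _) (meas_Ts h2 _)).trans ?_)
    refine mul_le_mul_right ?_ 2
    rw [Finset.sum_powerset_insert ha, ← Finset.sum_add_distrib]
    refine Finset.sum_le_sum fun S hS => ?_
    have hSs : S ⊆ s := Finset.mem_powerset.1 hS
    have haS : a ∉ S := fun h => ha (hSs h)
    have haD : a ∉ s \ S := fun h => ha (Finset.mem_sdiff.1 h).1
    have e1 : insert a s \ S = insert a (s \ S) := Finset.insert_sdiff_of_notMem s haS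
    have e2 : insert a s \ insert a S = s \ S := by
      ext i
      simp only [Finset.mem_sdiff, Finset.mem_insert, not_or]
      constructor
      · rintro ⟨h | h, h', h''⟩
        · exact absurd h h'
        · exact ⟨h, h''⟩
      · rintro ⟨h, h'⟩
        exact ⟨Or.inr h, fun h'' => ha (h'' ▸ h), h'⟩
    unfold tm
    by_cases hC : ∀ i ∈ s \ S, p i = q i
    · rw [if_pos hC, e2, if_pos hC]
      have hSpr : ∀ i ∈ S, (p i).Prime := fun i hi => hps i (hSs hi)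
      have hSqr : ∀ i ∈ S, (q i).Prime := fun i hi => hqs i (hSs hi)
      have hpN : ¬ p a ∣ ∏ i ∈ S, p i * q i := by
        rw [Finset.prod_mul_distrib]
        intro h
        have hnei : ∀ i ∈ S, p a ≠ p i ∧ p a ≠ q i ∧ q a ≠ q i := fun i hi =>
          hne a (Finset.mem_insert_self a s) i (Finset.mem_insert_of_mem (hSs hi))
            (fun h' => haS (h' ▸ hi))
        rcases (Nat.Prime.dvd_mul hpa).1 h with h | h
        · exact not_dvd_prod hpa hSpr (fun i hi => (hnei i hi).1) h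
        · exact not_dvd_prod hpa hSqr (fun i hi => (hnei i hi).2.1) h
      have hqN : ¬ q a ∣ ∏ i ∈ S, p i * q i := by
        rw [Finset.prod_mul_distrib]
        intro h
        have hnei : ∀ i ∈ S, q a ≠ p i ∧ q a ≠ q i := fun i hi =>
          ⟨(hne i (Finset.mem_insert_of_mem (hSs hi)) a (Finset.mem_insert_self a s)
            (fun h' => haS (h' ▸ hi))).2.1.symm,
          (hne a (Finset.mem_insert_self a s) i (Finset.mem_insert_of_mem (hSs hi))
            (fun h' => haS (h' ▸ hi))).2.2⟩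
        rcases (Nat.Prime.dvd_mul hqa).1 h with h | h
        · exact not_dvd_prod hqa hSpr (fun i hi => (hnei i hi).1) h
        · exact not_dvd_prod hqa hSqr (fun i hi => (hnei i hi).2) h
      have hN : 0 < ∏ i ∈ S, p i * q i :=
        Finset.prod_pos fun i hi => Nat.mul_pos (hSpr i hi).pos (hSqr i hi).pos
      have h4 := step hNu hNm hpa hqa hN hpN hqN h1 h2
      rw [e1, Finset.prod_insert haD, Finset.prod_insert haS]
      refine (mul_le_mul_right h4 _).trans ?_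
      rw [mul_add, add_comm]
      refine add_le_add ?_ le_rfl
      by_cases hpq : p a = q a
      · rw [if_pos hpq, if_pos]
        · exact le_of_eq (by ring)
        · intro i hi
          rcases Finset.mem_insert.1 hi with rfl | hi
          · exact hpq
          · exact hC i hi
      · rw [if_neg hpq, mul_zero]
        exact zero_le
    · rw [if_neg hC]
      exact zero_le

end Hk

end

end Pool.Agent.A54.Hp
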