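import Pool.Agent.Lib.MP_a54f13_nt.Hp.SpecA

/-!
# `StmtHkG`: the Hecke operators on the tower

For the package `Hp` (note 4597 of MP_a54f13_nt). Author: helper92.
-/

set_option autoImplicit false

namespace Pool.Agent.A54.Hp.HkGM

open MeasureTheory Filter Topology Set
open scoped ContDiff ComplexConjugate UpperHalfPlane MatrixGroups ENNReal
open Pool.Agent.A54.Half (H0 isOpen_H0 ext_coe)
open Pool.Agent.A54.Sq (la)

noncomputable section

/-- the operator `I y ∂ + n` -/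
def Dn (n : ℂ) (H : ℂ → ℂ) (z : ℂ) : ℂ := Complex.I * (z.im : ℂ) * dz H z + n * H z

lemma aff_mem {α β : ℝ} (hα : 0 < α) {z : ℂ} (hz : z ∈ H0) : (α : ℂ) * z + (β : ℂ) ∈ H0 := by
  have hz' : 0 < z.im := hz
  change 0 < ((α : ℂ) * z + (β : ℂ)).im
  simp only [Complex.add_im, Complex.mul_im, Complex.ofReal_re, Complex.ofReal_im, zero_mul,
    add_zero]
  exact mul_pos hα hz'

lemma aff_im (α β : ℝ) (z : ℂ) : ((α : ℂ) * z + (β : ℂ)).im = α * z.im := by
  simp only [Complex.add_im, Complex.mul_im, Complex.ofReal_re, Complex.ofReal_im, zero_mul,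
    add_zero]

lemma aff_deriv (α β : ℝ) (z : ℂ) :
    HasFDerivAt (fun w : ℂ => (α : ℂ) * w + (β : ℂ)) (α • ContinuousLinearMap.id ℝ ℂ) z := by
  have h1 : HasFDerivAt (fun w : ℂ => α • w + (β : ℂ)) (α • ContinuousLinearMap.id ℝ ℂ) z :=
    ((hasFDerivAt_id z).const_smul α).add_const _
  have h2 : (fun w : ℂ => (α : ℂ) * w + (β : ℂ)) = fun w : ℂ => α • w + (β : ℂ) := by
    funext w
    rw [Complex.real_smul]
  rw [h2]
  exact h1

lemma diff_at {H : ℂ → ℂ} (hH : ContDiffOn ℝ ∞ H H0) {z : ℂ} (hz : z ∈ H0) :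
    DifferentiableAt ℝ H z :=
  (hH.contDiffAt (isOpen_H0.mem_nhds hz)).differentiableAt (by simp)

lemma comp_deriv {H : ℂ → ℂ} (hH : ContDiffOn ℝ ∞ H H0) {α β : ℝ} (hα : 0 < α) {z : ℂ}
    (hz : z ∈ H0) : HasFDerivAt (fun w : ℂ => H ((α : ℂ) * w + (β : ℂ)))
      ((fderiv ℝ H ((α : ℂ) * z + (β : ℂ))).comp (α • ContinuousLinearMap.id ℝ ℂ)) z :=
  (diff_at hH (aff_mem hα hz)).hasFDerivAt.comp z (aff_deriv α β z)

lemma dz_comp {H : ℂ → ℂ} (hH : ContDiffOn ℝ ∞ H H0) {α β : ℝ} (hα : 0 < α) {z : ℂ}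
    (hz : z ∈ H0) : dz (fun w : ℂ => H ((α : ℂ) * w + (β : ℂ))) z =
      (α : ℂ) * dz H ((α : ℂ) * z + (β : ℂ)) := by
  have h1 : ∀ v : ℂ, ((fderiv ℝ H ((α : ℂ) * z + (β : ℂ))).comp
      (α • ContinuousLinearMap.id ℝ ℂ)) v =
      (α : ℂ) * fderiv ℝ H ((α : ℂ) * z + (β : ℂ)) v := by
    intro v
    change fderiv ℝ H ((α : ℂ) * z + (β : ℂ)) (α • v) = _
    rw [map_smul, Complex.real_smul]
  unfold dz
  rw [(comp_deriv hH hα hz).fderiv, h1, h1]
  ring

lemma dz_sum {ι : Type} (s : Finset ι) (F : ι → ℂ → ℂ) {z : ℂ}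
    (hF : ∀ i ∈ s, DifferentiableAt ℝ (F i) z) :
    dz (fun w => ∑ i ∈ s, F i w) z = ∑ i ∈ s, dz (F i) z := by
  unfold dz
  rw [fderiv_fun_sum hF, sum_apply, sum_apply,
    Finset.mul_sum, ← Finset.sum_sub_distrib]

lemma dz_cmul (c : ℂ) {H : ℂ → ℂ} {z : ℂ} (hH : DifferentiableAt ℝ H z) :
    dz (fun w => c * H w) z = c * dz H z := by
  unfold dz
  rw [fderiv_const_mul hH]
  simp only [smul_apply, smul_eq_mul]
  ring

/-- one step: a Hecke relation is preserved by `I y ∂ + n` -/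
lemma step {ι : Type} (s : Finset ι) (α β : ι → ℝ) (hα : ∀ i ∈ s, 0 < α i) {H : ℂ → ℂ}
    (hH : ContDiffOn ℝ ∞ H H0) (c n : ℂ)
    (h : ∀ z ∈ H0, ∑ i ∈ s, H ((α i : ℂ) * z + (β i : ℂ)) = c * H z) :
    ∀ z ∈ H0, ∑ i ∈ s, Dn n H ((α i : ℂ) * z + (β i : ℂ)) = c * Dn n H z := by
  intro z hz
  have h1 : dz (fun w => ∑ i ∈ s, H ((α i : ℂ) * w + (β i : ℂ))) z = dz (fun w => c * H w) z :=
    dz_congr isOpen_H0 h hz
  rw [dz_sum s (fun i w => H ((α i : ℂ) * w + (β i : ℂ)))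
    (fun i hi => (comp_deriv hH (hα i hi) hz).differentiableAt), dz_cmul c (diff_at hH hz)] at h1
  have h2 : ∀ i ∈ s, Dn n H ((α i : ℂ) * z + (β i : ℂ)) =
      Complex.I * (z.im : ℂ) * dz (fun w => H ((α i : ℂ) * w + (β i : ℂ))) z +
        n * H ((α i : ℂ) * z + (β i : ℂ)) := by
    intro i hi
    unfold Dn
    rw [dz_comp hH (hα i hi) hz, aff_im]
    push_cast
    ring
  rw [Finset.sum_congr rfl h2, Finset.sum_add_distrib, ← Finset.mul_sum, ← Finset.mul_sum, h1,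
    h z hz]
  unfold Dn
  ring

/-- the coefficients of the affine maps -/
def al (p : ℕ) (i : ℕ) : ℝ := if i < p then (p : ℝ)⁻¹ else p

/-- the translations of the affine maps -/
def be (p : ℕ) (i : ℕ) : ℝ := if i < p then (i : ℝ) / p else 0

lemma al_pos {p : ℕ} (hp : p.Prime) (i : ℕ) : 0 < al p i := by
  have : (0 : ℝ) < p := by exact_mod_cast hp.pos
  unfold al
  split_ifs
  · positivity
  · exact this

lemma sum_maps (p : ℕ) (H : ℂ → ℂ) (z : ℂ) :
    ∑ i ∈ Finset.range (p + 1), H ((al p i : ℂ) * z + (be p i : ℂ)) =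
      H ((p : ℂ) * z) + ∑ b ∈ Finset.range p, H ((z + b) / p) := by
  rw [Finset.sum_range_succ, add_comm]
  refine congrArg₂ (· + ·) ?_ (Finset.sum_congr rfl fun b hb => ?_)
  · unfold al be
    rw [if_neg (lt_irrefl p), if_neg (lt_irrefl p)]
    push_cast
    rw [add_zero]
  · unfold al be
    rw [if_pos (Finset.mem_range.mp hb), if_pos (Finset.mem_range.mp hb)]
    push_cast
    refine congrArg H ?_
    rw [add_div, div_eq_mul_inv z, mul_comm]

lemma base0 {f : ℍ → ℝ} {t : ℝ} (h0 : ∀ z, Gf f t 0 z = (ext f z : ℂ)) {p : ℕ} (hp : p.Prime)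
    {c : ℝ} (hc : Av.IsHk f p c) {z : ℂ} (hz : z ∈ H0) :
    Gf f t 0 ((p : ℂ) * z) + ∑ b ∈ Finset.range p, Gf f t 0 ((z + b) / p) =
      (c : ℂ) * Gf f t 0 z := by
  have h1 := hc ⟨z, hz⟩
  rw [Nat.Prime.divisors hp, Finset.sum_pair hp.one_lt.ne, Finset.sum_range_one, Nat.div_one,
    Nat.div_self hp.pos, ← ext_coe f ⟨z, hz⟩] at h1
  simp only [Nat.cast_zero, Nat.cast_one, add_zero, div_one, one_mul] at h1
  simp only [h0]
  rw [← Complex.ofReal_sum, ← Complex.ofReal_add, ← Complex.ofReal_mul, h1]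

lemma nonneg (hT : StmtTwG) {f : ℍ → ℝ} {t : ℝ} (hf : IsHeckeMaass f t) {p : ℕ} (hp : p.Prime)
    {c : ℝ} (hc : Av.IsHk f p c) (n : ℕ) : ∀ z ∈ H0,
    ∑ i ∈ Finset.range (p + 1), Gf f t n ((al p i : ℂ) * z + (be p i : ℂ)) =
      (c : ℂ) * Gf f t n z := by
  induction n with
  | zero =>
    intro z hz
    obtain ⟨-, -, -, -, h0, -⟩ := hT f t hf 0
    rw [sum_maps]
    exact base0 h0 hp hc hz
  | succ n ih =>
    intro z hz
    obtain ⟨hs, h2, -⟩ := hT f t hf n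
    have h3 := step (Finset.range (p + 1)) (al p) (be p) (fun i _ => al_pos hp i) hs (c : ℂ)
      ((n : ℤ) : ℂ) ih z hz
    have h4 : ∀ w ∈ H0, Dn ((n : ℤ) : ℂ) (Gf f t n) w =
        ((la t n : ℝ) : ℂ) * Gf f t ((n : ℤ) + 1) w := h2
    rw [h4 z hz, Finset.sum_congr rfl fun i _ => h4 _ (aff_mem (al_pos hp i) hz),
      ← Finset.mul_sum] at h3
    have h5 : ((la t n : ℝ) : ℂ) ≠ 0 := by
      have : 0 < la t n := by
        unfold la
        apply Real.sqrt_pos.mpr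
        have := hf.pos
        positivity
      exact_mod_cast this.ne'
    have h6 : ((n + 1 : ℕ) : ℤ) = (n : ℤ) + 1 := by push_cast; rfl
    rw [h6]
    apply mul_left_cancel₀ h5
    rw [h3]
    ring

end

end Pool.Agent.A54.Hp.HkGM

namespace Pool.Agent.A54.Hp

open MeasureTheory Filter Topology Set
open scoped ContDiff ComplexConjugate UpperHalfPlane MatrixGroups ENNReal
open Pool.Agent.A54.Half (H0)

/-- Hecke operators on the tower -/
theorem stmtHkG (hT : StmtTwG) : StmtHkG := by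
  intro f t hf p hp c hc n z hz
  have key : ∀ m : ℕ, Gf f t m ((p : ℂ) * z) +
      ∑ b ∈ Finset.range p, Gf f t m ((z + b) / p) = (c : ℂ) * Gf f t m z := by
    intro m
    rw [← HkGM.sum_maps]
    exact HkGM.nonneg hT hf hp hc m z hz
  obtain ⟨m, rfl | rfl⟩ := Int.eq_nat_or_neg n
  · exact key m
  · obtain ⟨-, -, -, h4, -⟩ := hT f t hf m
    have h5 := congrArg (fun w : ℂ => (-1 : ℂ) ^ (m : ℤ) * conj w) (key m)
    simp only [map_add, map_sum, map_mul, Complex.conj_ofReal, mul_add, Finset.mul_sum] at h5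
    simp only [h4]
    rw [h5]
    ring

end Pool.Agent.A54.Hp
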