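import Pool.Agent.Lib.MP_a54f13_nt.Hp.SpecC

/-!
# The hypothesis on the eigenvalues gives good scales
-/

set_option autoImplicit false

namespace Pool.Agent.A54.Hp

open MeasureTheory Filter Topology Set

namespace HprM

/-- the inequality at `X` -/
def Iq (l : ℕ → ℝ) (X : ℝ) : Prop :=
  X ^ (-(1 / 2000 : ℝ)) ≤
    ∑ p ∈ (Finset.Ioc ⌊X ^ (19 / 20 : ℝ)⌋₊ ⌊X⌋₊).filter Nat.Prime, |l p| / p

theorem unif (l : ℕ → ℕ → ℝ) (u : ℕ → ℝ) (hu : Tendsto u atTop atTop)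
    (h : ∀ X : ℕ → ℝ, Tendsto X atTop atTop → (∀ i, X i ≤ u i) →
      ∀ᶠ i in atTop, Iq (l i) (X i)) :
    ∃ (X₀ : ℝ) (i₀ : ℕ), ∀ i, i₀ ≤ i → ∀ X, X₀ ≤ X → X ≤ u i → Iq (l i) X := by
  by_contra hc
  push Not at hc
  have h1 : ∀ n : ℕ, ∃ᶠ k in atTop, ∃ X : ℝ, (n : ℝ) ≤ X ∧ X ≤ u k ∧ ¬ Iq (l k) X := by
    intro n
    rw [frequently_atTop]
    intro a
    obtain ⟨i, hi, X, hX1, hX2, hX3⟩ := hc n a
    exact ⟨i, hi, X, hX1, hX2, hX3⟩
  obtain ⟨φ, hφ, h2⟩ := extraction_forall_of_frequently h1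
  choose X' hX1 hX2 hX3 using h2
  classical
  let X : ℕ → ℝ := fun i => if hi : ∃ n, φ n = i then X' hi.choose else u i
  have hX : ∀ n, X (φ n) = X' n := by
    intro n
    have hi : ∃ m, φ m = φ n := ⟨n, rfl⟩
    have h3 : hi.choose = n := hφ.injective hi.choose_spec
    simp only [X, dif_pos hi, h3]
  have hX' : ∀ i, (¬ ∃ n, φ n = i) → X i = u i := by
    intro i hi
    simp only [X, dif_neg hi]
  have h4 : Tendsto X atTop atTop := by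
    rw [tendsto_atTop_atTop]
    intro b
    obtain ⟨i₁, hi₁⟩ := (tendsto_atTop_atTop.1 hu) b
    refine ⟨max i₁ (φ ⌈b⌉₊), fun i hi => ?_⟩
    by_cases hn : ∃ n, φ n = i
    · obtain ⟨n, rfl⟩ := hn
      rw [hX]
      have h5 : ⌈b⌉₊ ≤ n := hφ.le_iff_le.1 ((le_max_right _ _).trans hi)
      exact (Nat.le_ceil b).trans ((Nat.cast_le.2 h5).trans (hX1 n))
    · rw [hX' i hn]
      exact hi₁ i ((le_max_left _ _).trans hi)
  have h6 : ∀ i, X i ≤ u i := by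
    intro i
    by_cases hn : ∃ n, φ n = i
    · obtain ⟨n, rfl⟩ := hn
      rw [hX]
      exact hX2 n
    · rw [hX' i hn]
  obtain ⟨n, hn⟩ := (hφ.tendsto_atTop.eventually (h X h4 h6)).exists
  rw [hX] at hn
  exact hX3 n hn

/-- telescoping -/
theorem tel (g : ℕ → ℝ) (A : ℝ) (hA : 0 ≤ A) (J : ℕ) :
    ∑ p ∈ (Finset.Ioc ⌊A⌋₊ ⌊2 ^ J * A⌋₊).filter Nat.Prime, g p =
      ∑ j ∈ Finset.range J, ∑ p ∈ Pm (2 ^ j * A), g p := by
  induction J with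
  | zero => simp
  | succ J ih =>
    rw [Finset.sum_range_succ, ← ih, Pm]
    simp only [Finset.sum_filter]
    have h1 : ⌊A⌋₊ ≤ ⌊2 ^ J * A⌋₊ := Nat.floor_mono (le_mul_of_one_le_left hA
      (one_le_pow₀ (by norm_num)))
    have h2 : ⌊2 ^ J * A⌋₊ ≤ ⌊2 * (2 ^ J * A)⌋₊ := Nat.floor_mono (by
      have : 0 ≤ 2 ^ J * A := by positivity
      linarith)
    rw [Finset.sum_Ioc_consecutive _ h1 h2]
    have h3 : (2 : ℝ) * (2 ^ J * A) = 2 ^ (J + 1) * A := by ring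
    rw [h3]

theorem big : ∃ X₂ : ℝ, 1 ≤ X₂ ∧ ∀ X, X₂ ≤ X → 1 + 2 * Real.log X < X ^ (9 / 20000 : ℝ) := by
  have h1 : ∀ᶠ X : ℝ in atTop, ‖Real.log X‖ ≤ 1 / 8 * ‖X ^ (9 / 20000 : ℝ)‖ :=
    (isLittleO_log_rpow_atTop (by norm_num)).bound (by norm_num)
  have h2 : ∀ᶠ X : ℝ in atTop, (4 : ℝ) ≤ X ^ (9 / 20000 : ℝ) :=
    (tendsto_rpow_atTop (by norm_num)).eventually_ge_atTop 4
  obtain ⟨X₂, hX₂⟩ := eventually_atTop.1 (h1.and h2)
  refine ⟨max X₂ 1, le_max_right _ _, fun X hX => ?_⟩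
  obtain ⟨h3, h4⟩ := hX₂ X ((le_max_left _ _).trans hX)
  have h5 : 0 ≤ X := zero_le_one.trans ((le_max_right _ _).trans hX)
  rw [Real.norm_eq_abs, Real.norm_eq_abs, abs_of_nonneg (Real.rpow_nonneg h5 _)] at h3
  have h6 := (le_abs_self _).trans h3
  linarith

theorem scale (l : ℕ → ℝ) (X : ℝ) (hX1 : 1 ≤ X)
    (hX2 : 1 + 2 * Real.log X < X ^ (9 / 20000 : ℝ)) (hI : Iq l X) :
    ∃ M : ℝ, X ^ (19 / 20 : ℝ) ≤ M ∧ M ≤ X ∧ Gd (1 / 1000) l M := by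
  by_contra hc
  push Not at hc
  have hX0 : 0 < X := zero_lt_one.trans_le hX1
  set A : ℝ := X ^ (19 / 20 : ℝ) with hA
  have hA1 : 1 ≤ A := Real.one_le_rpow hX1 (by norm_num)
  have hA0 : 0 < A := zero_lt_one.trans_le hA1
  have hex : ∃ J : ℕ, X ≤ 2 ^ J * A := by
    obtain ⟨J, hJ⟩ := pow_unbounded_of_one_lt X (by norm_num : (1 : ℝ) < 2)
    exact ⟨J, hJ.le.trans (le_mul_of_one_le_right (by positivity) hA1)⟩
  classical
  set J := Nat.find hex with hJ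
  have hJ1 : X ≤ 2 ^ J * A := Nat.find_spec hex
  have hJ2 : ∀ j < J, 2 ^ j * A < X := fun j hj => not_le.1 (Nat.find_min hex hj)
  have hJ3 : (J : ℝ) ≤ 1 + 2 * Real.log X := by
    rcases Nat.eq_zero_or_pos J with h0 | h0
    · rw [h0]
      have := Real.log_nonneg hX1
      push_cast
      linarith
    · have h1 := hJ2 (J - 1) (by omega)
      have h2 : (2 : ℝ) ^ (J - 1) ≤ X :=
        (le_mul_of_one_le_right (by positivity) hA1).trans h1.le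
      have h3 := Real.log_le_log (by positivity) h2
      rw [Real.log_pow] at h3
      have h4 : ((J - 1 : ℕ) : ℝ) = (J : ℝ) - 1 := by
        rw [Nat.cast_sub h0]
        simp
      rw [h4] at h3
      have h5 := Real.log_two_gt_d9
      have h6 : (0 : ℝ) ≤ (J : ℝ) - 1 := by
        have : (1 : ℝ) ≤ J := by exact_mod_cast h0
        linarith
      nlinarith
  have h1 : X ^ (-(1 / 2000 : ℝ)) ≤ ∑ j ∈ Finset.range J, ∑ p ∈ Pm (2 ^ j * A), |l p| / p := by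
    rw [← tel _ A hA0.le]
    refine hI.trans ?_
    refine Finset.sum_le_sum_of_subset_of_nonneg ?_ ?_
    · refine Finset.filter_subset_filter _ (Finset.Ioc_subset_Ioc_right ?_)
      exact Nat.floor_mono hJ1
    · intro p _ _
      positivity
  have h2 : ∀ j ∈ Finset.range J, ∑ p ∈ Pm (2 ^ j * A), |l p| / p ≤
      A ^ (-(1 / 1000 : ℝ)) := by
    intro j hj
    have hj' := hJ2 j (Finset.mem_range.1 hj)
    set M : ℝ := 2 ^ j * A with hM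
    have hAM : A ≤ M := le_mul_of_one_le_left hA0.le (one_le_pow₀ (by norm_num))
    have hM0 : 0 < M := hA0.trans_le hAM
    have h3 := hc M hAM hj'.le
    rw [Gd, not_le] at h3
    have h4 : ∑ p ∈ Pm M, |l p| / p ≤ M⁻¹ * ∑ p ∈ Pm M, |l p| := by
      rw [Finset.mul_sum]
      refine Finset.sum_le_sum fun p hp => ?_
      rw [Pm, Finset.mem_filter, Finset.mem_Ioc] at hp
      have h5 : M ≤ p := ((Nat.floor_lt hM0.le).1 hp.1.1).le
      rw [div_eq_inv_mul]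
      exact mul_le_mul_of_nonneg_right (inv_anti₀ hM0 h5) (abs_nonneg _)
    refine h4.trans ?_
    have h5 : M⁻¹ * ∑ p ∈ Pm M, |l p| ≤ M⁻¹ * M ^ (1 - 1 / 1000 : ℝ) :=
      mul_le_mul_of_nonneg_left h3.le (by positivity)
    refine h5.trans ?_
    have h6 : M⁻¹ * M ^ (1 - 1 / 1000 : ℝ) = M ^ (-(1 / 1000 : ℝ)) := by
      rw [← Real.rpow_neg_one, ← Real.rpow_add hM0]
      norm_num
    rw [h6]
    exact Real.rpow_le_rpow_of_nonpos hA0 hAM (by norm_num)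
  have h3 := h1.trans (Finset.sum_le_sum h2)
  rw [Finset.sum_const, Finset.card_range, nsmul_eq_mul] at h3
  have h4 : A ^ (-(1 / 1000 : ℝ)) = X ^ (-(19 / 20000 : ℝ)) := by
    rw [hA, ← Real.rpow_mul hX0.le]
    norm_num
  rw [h4] at h3
  have h5 : X ^ (-(1 / 2000 : ℝ)) = X ^ (9 / 20000 : ℝ) * X ^ (-(19 / 20000 : ℝ)) := by
    rw [← Real.rpow_add hX0]
    norm_num
  rw [h5] at h3
  have h6 : X ^ (9 / 20000 : ℝ) ≤ J := le_of_mul_le_mul_right h3 (Real.rpow_pos_of_pos hX0 _)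
  linarith

end HprM

theorem stmtHpr : StmtHpr := by
  intro l t c hc0 hc1 ht0 ht h
  have hu : Tendsto (fun i => t i ^ (3 / 4 : ℝ)) atTop atTop :=
    (tendsto_rpow_atTop (by norm_num)).comp ht
  obtain ⟨X₀, i₀, h1⟩ := HprM.unif l _ hu h
  obtain ⟨X₂, hX₂, h2⟩ := HprM.big
  obtain ⟨i₁, hi₁⟩ := (tendsto_atTop_atTop.1 ht) 1
  set X₁ := max X₀ X₂ with hX₁
  have hX₁1 : 1 ≤ X₁ := hX₂.trans (le_max_right _ _)
  have hX₁0 : 0 < X₁ := zero_lt_one.trans_le hX₁1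
  refine ⟨X₁ ^ (-(2 : ℝ)), max i₀ i₁, Real.rpow_pos_of_pos hX₁0 _,
    Real.rpow_le_one_of_one_le_of_nonpos hX₁1 (by norm_num), ?_⟩
  intro i hi w hw1 hw2 X hX1 hX2
  have hti : 1 ≤ t i := hi₁ i ((le_max_right _ _).trans hi)
  have hw0 : 0 < w := (Real.rpow_pos_of_pos (ht0 i) _).trans_le hw1
  have h3 : X₁ ≤ X := by
    refine le_trans ?_ hX1
    have h4 : X₁ = (X₁ ^ (-(2 : ℝ))) ^ (-(1 / 2 : ℝ)) := by
      rw [← Real.rpow_mul hX₁0.le]
      norm_num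
    rw [h4]
    exact Real.rpow_le_rpow_of_nonpos hw0 hw2 (by norm_num)
  have h4 : X ≤ t i ^ (3 / 4 : ℝ) := by
    refine hX2.trans ?_
    have h5 : w⁻¹ ≤ (t i ^ (-(1 / 2 + c / 1600)))⁻¹ :=
      inv_anti₀ (Real.rpow_pos_of_pos (ht0 i) _) hw1
    refine h5.trans ?_
    rw [← Real.rpow_neg (ht0 i).le, neg_neg]
    exact Real.rpow_le_rpow_of_exponent_le hti (by linarith)
  exact HprM.scale (l i) X (hX₁1.trans h3) (h2 X ((le_max_right _ _).trans h3))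
    (h1 i ((le_max_left _ _).trans hi) X ((le_max_left _ _).trans h3) h4)

end Pool.Agent.A54.Hp
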