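import Pool.Agent.Lib.MP_a54f13_nt.Hp.SpecA

/-!
# Package `Hp`, module `Kf`: Fourier coefficients in the fibre
-/

set_option autoImplicit false

namespace Pool.Agent.A54.Hp

open MeasureTheory Filter Topology Set
open scoped ContDiff ComplexConjugate UpperHalfPlane MatrixGroups ENNReal
open Pool.Agent.A54.Dyn (G fl base ze io mk4 dom)
open Pool.Agent.A54.Dyn.LiftM (Sct XC XX cc rot m0)
open Pool.Agent.A54.Half (H0)

noncomputable section

namespace KfM

/-! ### The curve -/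

/-- `tanh (s/2)` -/
def qq (s : ℝ) : ℝ := (Real.exp s - 1) / (Real.exp s + 1)

lemma qq_le {s : ℝ} (hs : |s| ≤ 1) : |qq s| ≤ 1 / 2 := by
  obtain ⟨h1, h2⟩ := abs_le.1 hs
  have h3 : Real.exp s ≤ 3 := by
    have := Real.exp_le_exp.2 h2
    have := Real.exp_one_lt_d9
    linarith
  have h4 : Real.exp (-s) ≤ 3 := by
    have := Real.exp_le_exp.2 (by linarith : -s ≤ 1)
    have := Real.exp_one_lt_d9
    linarith
  have h5 := Real.exp_pos s
  have h6 : 1 ≤ 3 * Real.exp s := by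
    have h7 : Real.exp s * Real.exp (-s) = 1 := by
      rw [← Real.exp_add, add_neg_cancel, Real.exp_zero]
    nlinarith
  have h8 : 0 < Real.exp s + 1 := by linarith
  unfold qq
  rw [abs_le]
  constructor
  · rw [le_div_iff₀ h8]
    linarith
  · rw [div_le_iff₀ h8]
    linarith

lemma key (a b c σ : ℂ) (h : c ^ 2 + σ ^ 2 = 1) :
    (c * a * Complex.I + σ * b) * ((a + b) - (a - b) * (c + Complex.I * σ) ^ 2) =
      ((a + b) + (a - b) * (c + Complex.I * σ) ^ 2) * (σ * a + Complex.I * c * b) := by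
  linear_combination (a ^ 2 - b ^ 2) * (-(c * Complex.I - σ)) * h -
    (a ^ 2 - b ^ 2) * (2 * c ^ 2 * σ + Complex.I * c * σ ^ 2 + σ ^ 3) * Complex.I_sq

/-- `1/(1 - q E)` on the circle -/
def vc (s : ℝ) (x : XC) : ℂ := (1 - (qq s : ℂ) * cc x ^ 2)⁻¹

lemma norm_cc (x : XC) : ‖cc x‖ = 1 := Circle.norm_coe _

lemma den_ne {s : ℝ} (hs : |s| ≤ 1) (E : ℂ) (hE : ‖E‖ = 1) : 1 / 2 ≤ ‖1 - (qq s : ℂ) * E‖ := by
  have h1 : ‖(qq s : ℂ) * E‖ ≤ 1 / 2 := by
    rw [norm_mul, hE, mul_one, Complex.norm_real]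
    exact qq_le hs
  have h2 : ‖(1 : ℂ)‖ - ‖(qq s : ℂ) * E‖ ≤ ‖1 - (qq s : ℂ) * E‖ := norm_sub_norm_le _ _
  rw [norm_one] at h2
  linarith

lemma base_fmla {s : ℝ} (hs : |s| ≤ 1) (z : ℍ) (x : XC) : (base (Sct (z, x) * fl s) : ℂ) =
    (z.re : ℂ) + (z.im : ℂ) * (Complex.I * (2 * vc s x - 1)) := by
  have h0 : Sct (z, x) * fl s = z.toSL2R * (rot x * fl s) := by
    unfold Dyn.LiftM.Sct
    rw [mul_assoc]
  have hy : 0 < z.im := z.im_pos
  have hy2 : √z.im ≠ 0 := (Real.sqrt_pos.2 hy).ne'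
  have hy3 : ((√z.im : ℝ) : ℂ) ≠ 0 := by exact_mod_cast hy2
  have hy4 : ((√z.im : ℝ) : ℂ) * ((√z.im : ℝ) : ℂ) = (z.im : ℂ) := by
    rw [← Complex.ofReal_mul, Real.mul_self_sqrt hy.le]
  have e00 : z.toSL2R 0 0 = √z.im := by rw [UpperHalfPlane.coe_toSL2R]; rfl
  have e01 : z.toSL2R 0 1 = z.re / √z.im := by rw [UpperHalfPlane.coe_toSL2R]; rfl
  have e10 : z.toSL2R 1 0 = 0 := by rw [UpperHalfPlane.coe_toSL2R]; rfl
  have e11 : z.toSL2R 1 1 = 1 / √z.im := by rw [UpperHalfPlane.coe_toSL2R]; rfl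
  rw [h0, Dyn.base_mul, Dyn.smul_coe, e00, e01, e10, e11]
  have h1 : (((√z.im : ℝ) : ℂ) * (base (rot x * fl s) : ℂ) + ((z.re / √z.im : ℝ) : ℂ)) /
      (((0 : ℝ) : ℂ) * (base (rot x * fl s) : ℂ) + ((1 / √z.im : ℝ) : ℂ)) =
      (z.re : ℂ) + (z.im : ℂ) * (base (rot x * fl s) : ℂ) := by
    push_cast
    rw [zero_mul, zero_add, ← hy4]
    field_simp
    ring
  rw [h1]
  congr 2
  rw [Dyn.base_coe]
  set c : ℂ := ((cc x).re : ℂ) with hc
  set σ : ℂ := ((cc x).im : ℂ) with hσ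
  set a : ℂ := ((Real.exp (s / 2) : ℝ) : ℂ) with ha
  set b : ℂ := ((Real.exp (-s / 2) : ℝ) : ℂ) with hb
  have g00 : (((rot x * fl s) 0 0 : ℝ) : ℂ) = c * a := by
    rw [Dyn.mul_00, Dyn.fl_00, Dyn.fl_10]
    change (((cc x).re * Real.exp (s / 2) + (cc x).im * 0 : ℝ) : ℂ) = c * a
    push_cast
    rw [mul_zero, add_zero, hc, ha]
    push_cast
    rfl
  have g01 : (((rot x * fl s) 0 1 : ℝ) : ℂ) = σ * b := by
    rw [Dyn.mul_01, Dyn.fl_01, Dyn.fl_11]
    change (((cc x).re * 0 + (cc x).im * Real.exp (-s / 2) : ℝ) : ℂ) = σ * b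
    rw [mul_zero, zero_add, Complex.ofReal_mul]
  have g10 : (((rot x * fl s) 1 0 : ℝ) : ℂ) = -(σ * a) := by
    rw [Dyn.mul_10, Dyn.fl_00, Dyn.fl_10]
    change ((-(cc x).im * Real.exp (s / 2) + (cc x).re * 0 : ℝ) : ℂ) = -(σ * a)
    rw [mul_zero, add_zero, Complex.ofReal_mul, Complex.ofReal_neg, neg_mul]
  have g11 : (((rot x * fl s) 1 1 : ℝ) : ℂ) = c * b := by
    rw [Dyn.mul_11, Dyn.fl_01, Dyn.fl_11]
    change ((-(cc x).im * 0 + (cc x).re * Real.exp (-s / 2) : ℝ) : ℂ) = c * b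
    rw [mul_zero, zero_add, Complex.ofReal_mul]
  have hden := Dyn.denom_ne (rot x * fl s) UpperHalfPlane.I
  have hden' : (((rot x * fl s) 1 0 : ℝ) : ℂ) * Complex.I + (((rot x * fl s) 1 1 : ℝ) : ℂ) ≠ 0 := hden
  rw [g10, g11] at hden'
  rw [g00, g01, g10, g11]
  have hcs : c ^ 2 + σ ^ 2 = 1 := by
    rw [hc, hσ]
    exact_mod_cast Dyn.LiftM.cc_normSq x
  have hE : cc x = c + Complex.I * σ := by
    rw [hc, hσ, mul_comm]
    exact (Complex.re_add_im (cc x)).symm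
  have hab : a * b = 1 := by
    rw [ha, hb, ← Complex.ofReal_mul, ← Real.exp_add]
    simp [show s / 2 + -s / 2 = 0 by ring]
  have hq : (qq s : ℂ) = (a - b) / (a + b) := by
    have h5 : Real.exp s = Real.exp (s / 2) / Real.exp (-s / 2) := by
      rw [← Real.exp_sub]
      congr 1
      ring
    have h6 := (Real.exp_pos (-s / 2)).ne'
    have h7 := (Real.exp_pos (s / 2))
    have h8 := (Real.exp_pos (-s / 2))
    have h9 : qq s = (Real.exp (s / 2) - Real.exp (-s / 2)) /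
        (Real.exp (s / 2) + Real.exp (-s / 2)) := by
      unfold qq
      rw [h5, div_eq_div_iff (by positivity) (by positivity)]
      field_simp
    rw [h9, ha, hb]
    push_cast
    rfl
  have hapb : a + b ≠ 0 := by
    have h7 := (Real.exp_pos (s / 2))
    have h8 := (Real.exp_pos (-s / 2))
    rw [ha, hb, ← Complex.ofReal_add]
    exact_mod_cast (by positivity : Real.exp (s / 2) + Real.exp (-s / 2) ≠ 0)
  have hv : 1 - (qq s : ℂ) * cc x ^ 2 ≠ 0 := by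
    have := den_ne hs (cc x ^ 2) (by rw [norm_pow, norm_cc, one_pow])
    intro h
    rw [h, norm_zero] at this
    linarith
  have hv2 : vc s x = (a + b) / ((a + b) - (a - b) * (c + Complex.I * σ) ^ 2) := by
    unfold vc
    rw [inv_eq_one_div]
    rw [hq, hE] at hv ⊢
    have h10 : (a + b) - (a - b) * (c + Complex.I * σ) ^ 2 =
        (a + b) * (1 - (a - b) / (a + b) * (c + Complex.I * σ) ^ 2) := by
      field_simp
    rw [h10, div_eq_div_iff hv (mul_ne_zero hapb hv)]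
    ring
  have hv3 : (a + b) - (a - b) * (c + Complex.I * σ) ^ 2 ≠ 0 := by
    have h10 : (a + b) - (a - b) * (c + Complex.I * σ) ^ 2 =
        (a + b) * (1 - (a - b) / (a + b) * (c + Complex.I * σ) ^ 2) := by
      field_simp
    rw [hq, hE] at hv
    rw [h10]
    exact mul_ne_zero hapb hv
  rw [hv2, div_eq_iff hden']
  have hk := key a b c σ hcs
  have h11 : Complex.I * (2 * ((a + b) / ((a + b) - (a - b) * (c + Complex.I * σ) ^ 2)) - 1) =
      Complex.I * ((a + b) + (a - b) * (c + Complex.I * σ) ^ 2) /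
        ((a + b) - (a - b) * (c + Complex.I * σ) ^ 2) := by
    field_simp
    ring
  rw [h11, div_mul_eq_mul_div, eq_div_iff hv3, hk]
  linear_combination (((a + b) + (a - b) * (c + Complex.I * σ) ^ 2) * (σ * a)) * Complex.I_sq

/-! ### The curve over the real line -/

/-- `4 π i` -/
def kap : ℂ := 4 * (Real.pi : ℂ) * Complex.I

lemma norm_kap : ‖kap‖ ≤ 13 := by
  unfold kap
  rw [norm_mul, norm_mul, Complex.norm_I, mul_one, Complex.norm_real, Real.norm_eq_abs,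
    abs_of_pos Real.pi_pos]
  have h := Real.pi_lt_d2
  have h4 : ‖(4 : ℂ)‖ = 4 := by norm_num
  rw [h4]
  linarith

/-- `1/(1 - q exp (4 π i x))` -/
def vr (s : ℝ) (x : ℝ) : ℂ := (1 - (qq s : ℂ) * Complex.exp (kap * x))⁻¹

lemma cc_coe (x : ℝ) : cc (x : XC) = Complex.exp (2 * (Real.pi : ℂ) * Complex.I * x) := by
  unfold Dyn.LiftM.cc
  rw [AddCircle.toCircle_apply_mk, Circle.coe_exp]
  congr 1
  push_cast
  ring

lemma norm_exp (x : ℝ) : ‖Complex.exp (kap * x)‖ = 1 := by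
  have h : kap * x = ((4 * Real.pi * x : ℝ) : ℂ) * Complex.I := by
    unfold kap
    push_cast
    ring
  rw [h, Complex.norm_exp_ofReal_mul_I]

lemma vc_coe (s x : ℝ) : vc s (x : XC) = vr s x := by
  unfold vc vr
  rw [cc_coe, ← Complex.exp_nat_mul]
  congr 4
  unfold kap
  push_cast
  ring

lemma den_ne' {s : ℝ} (hs : |s| ≤ 1) (x : ℝ) : 1 - (qq s : ℂ) * Complex.exp (kap * x) ≠ 0 := by
  have := den_ne hs (Complex.exp (kap * x)) (norm_exp x)
  intro h
  rw [h, norm_zero] at this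
  linarith

lemma norm_vr {s : ℝ} (hs : |s| ≤ 1) (x : ℝ) : ‖vr s x‖ ≤ 2 := by
  unfold vr
  rw [norm_inv]
  have h1 := den_ne hs (Complex.exp (kap * x)) (norm_exp x)
  have h2 : 0 < ‖1 - (qq s : ℂ) * Complex.exp (kap * x)‖ := by linarith
  rw [inv_le_comm₀ h2 (by norm_num)]
  linarith

/-- first derivative -/
def v1 (s x : ℝ) : ℂ := kap * (vr s x * vr s x - vr s x)

/-- second derivative -/
def v2 (s x : ℝ) : ℂ := kap * ((2 * vr s x - 1) * v1 s x)

/-- third derivative -/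
def v3 (s x : ℝ) : ℂ := kap * ((2 * v1 s x) * v1 s x + (2 * vr s x - 1) * v2 s x)

lemma hd0 {s : ℝ} (hs : |s| ≤ 1) (x : ℝ) : HasDerivAt (vr s) (v1 s x) x := by
  have h1 : HasDerivAt (fun x : ℝ => kap * (x : ℂ)) (kap * 1) x :=
    (hasDerivAt_id x).ofReal_comp.const_mul kap
  have h2 := h1.cexp
  have h3 : HasDerivAt (fun x : ℝ => 1 - (qq s : ℂ) * Complex.exp (kap * x))
      (-((qq s : ℂ) * (Complex.exp (kap * x) * (kap * 1)))) x := by
    have := (h2.const_mul (qq s : ℂ)).const_sub 1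
    exact this
  have h4 := h3.inv (den_ne' hs x)
  have h5 : -(-((qq s : ℂ) * (Complex.exp (kap * x) * (kap * 1)))) /
      (1 - (qq s : ℂ) * Complex.exp (kap * x)) ^ 2 = v1 s x := by
    have h6 := den_ne' hs x
    unfold v1 vr
    field_simp
    ring
  rw [h5] at h4
  exact h4

lemma hd1 {s : ℝ} (hs : |s| ≤ 1) (x : ℝ) : HasDerivAt (v1 s) (v2 s x) x := by
  have h := hd0 hs x
  have h2 := ((h.mul h).sub h).const_mul kap
  have h3 : kap * (v1 s x * vr s x + vr s x * v1 s x - v1 s x) = v2 s x := by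
    unfold v2
    ring
  rw [h3] at h2
  exact h2

lemma hd2 {s : ℝ} (hs : |s| ≤ 1) (x : ℝ) : HasDerivAt (v2 s) (v3 s x) x := by
  have h := hd0 hs x
  have h' := hd1 hs x
  have h2 := (((h.const_mul 2).sub_const 1).mul h').const_mul kap
  exact h2

/-- the base point -/
def PP (z : ℍ) (s x : ℝ) : ℂ := (z.re : ℂ) + (z.im : ℂ) * (Complex.I * (2 * vr s x - 1))

lemma hP {f : ℝ → ℂ} {f' : ℂ} {x : ℝ} (z : ℍ) (h : HasDerivAt f f' x) :
    HasDerivAt (fun x => (z.im : ℂ) * (Complex.I * (2 * f x))) ((z.im : ℂ) * (Complex.I * (2 * f'))) x :=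
  (((h.const_mul 2).const_mul Complex.I).const_mul (z.im : ℂ))

lemma it1 {s : ℝ} (hs : |s| ≤ 1) (z : ℍ) :
    iteratedDeriv 1 (PP z s) = fun x => (z.im : ℂ) * (Complex.I * (2 * v1 s x)) := by
  rw [iteratedDeriv_one]
  funext x
  refine HasDerivAt.deriv ?_
  have h := hd0 hs x
  exact ((((h.const_mul 2).sub_const 1).const_mul Complex.I).const_mul (z.im : ℂ)).const_add _

lemma it2 {s : ℝ} (hs : |s| ≤ 1) (z : ℍ) :
    iteratedDeriv 2 (PP z s) = fun x => (z.im : ℂ) * (Complex.I * (2 * v2 s x)) := by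
  rw [show (2 : ℕ) = 1 + 1 from rfl, iteratedDeriv_succ, it1 hs]
  funext x
  exact (hP z (hd1 hs x)).deriv

lemma it3 {s : ℝ} (hs : |s| ≤ 1) (z : ℍ) :
    iteratedDeriv 3 (PP z s) = fun x => (z.im : ℂ) * (Complex.I * (2 * v3 s x)) := by
  rw [show (3 : ℕ) = 2 + 1 from rfl, iteratedDeriv_succ, it2 hs]
  funext x
  exact (hP z (hd2 hs x)).deriv

lemma nb {s : ℝ} (hs : |s| ≤ 1) (x : ℝ) : ‖v1 s x‖ ≤ 78 ∧ ‖v2 s x‖ ≤ 5070 ∧ ‖v3 s x‖ ≤ 487734 := by
  have hv := norm_vr hs x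
  have hk := norm_kap
  have h0 := norm_nonneg (vr s x)
  have h1 : ‖v1 s x‖ ≤ 78 := by
    unfold v1
    rw [norm_mul]
    have : ‖vr s x * vr s x - vr s x‖ ≤ 6 := by
      refine (norm_sub_le _ _).trans ?_
      rw [norm_mul]
      nlinarith
    calc ‖kap‖ * ‖vr s x * vr s x - vr s x‖ ≤ 13 * 6 :=
        mul_le_mul hk this (norm_nonneg _) (by norm_num)
      _ = 78 := by norm_num
  have h5 : ‖2 * vr s x - 1‖ ≤ 5 := by
    refine (norm_sub_le _ _).trans ?_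
    rw [norm_mul, norm_one]
    have : ‖(2 : ℂ)‖ = 2 := by norm_num
    rw [this]
    linarith
  have h2 : ‖v2 s x‖ ≤ 5070 := by
    unfold v2
    rw [norm_mul, norm_mul]
    have : ‖2 * vr s x - 1‖ * ‖v1 s x‖ ≤ 5 * 78 :=
      mul_le_mul h5 h1 (norm_nonneg _) (by norm_num)
    calc ‖kap‖ * (‖2 * vr s x - 1‖ * ‖v1 s x‖) ≤ 13 * (5 * 78) :=
        mul_le_mul hk this (by positivity) (by norm_num)
      _ = 5070 := by norm_num
  refine ⟨h1, h2, ?_⟩
  unfold v3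
  rw [norm_mul]
  have h6 : ‖(2 * v1 s x) * v1 s x + (2 * vr s x - 1) * v2 s x‖ ≤ 2 * 78 * 78 + 5 * 5070 := by
    refine (norm_add_le _ _).trans (add_le_add ?_ ?_)
    · rw [norm_mul, norm_mul]
      have : ‖(2 : ℂ)‖ = 2 := by norm_num
      rw [this]
      have h7 := norm_nonneg (v1 s x)
      exact mul_le_mul (by linarith) h1 h7 (by norm_num)
    · rw [norm_mul]
      exact mul_le_mul h5 h2 (norm_nonneg _) (by norm_num)
  calc ‖kap‖ * ‖(2 * v1 s x) * v1 s x + (2 * vr s x - 1) * v2 s x‖ ≤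
        13 * (2 * 78 * 78 + 5 * 5070) := mul_le_mul hk h6 (norm_nonneg _) (by norm_num)
    _ ≤ 487734 := by norm_num

lemma nP (z : ℍ) (v : ℂ) (B : ℝ) (hv : ‖v‖ ≤ B) :
    ‖(z.im : ℂ) * (Complex.I * (2 * v))‖ ≤ z.im * (2 * B) := by
  rw [norm_mul, norm_mul, norm_mul, Complex.norm_I, one_mul, Complex.norm_real, Real.norm_eq_abs,
    abs_of_pos z.im_pos]
  have : ‖(2 : ℂ)‖ = 2 := by norm_num
  rw [this]
  exact mul_le_mul_of_nonneg_left (by linarith) z.im_pos.le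

lemma cd_PP {s : ℝ} (hs : |s| ≤ 1) (z : ℍ) : ContDiff ℝ ∞ (PP z s) := by
  have h1 : ContDiff ℝ ∞ (fun x : ℝ => Complex.exp (kap * x)) := by
    refine ContDiff.cexp ?_
    exact contDiff_const.mul Complex.ofRealCLM.contDiff
  have h2 : ContDiff ℝ ∞ (vr s) := by
    unfold vr
    exact (contDiff_const.sub (contDiff_const.mul h1)).inv (den_ne' hs)
  unfold PP
  exact contDiff_const.add (contDiff_const.mul (contDiff_const.mul
    ((contDiff_const.mul h2).sub contDiff_const)))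

lemma per_PP (z : ℍ) (s x : ℝ) : PP z s (x + 1) = PP z s x := by
  unfold PP vr
  have h : Complex.exp (kap * ((x + 1 : ℝ) : ℂ)) = Complex.exp (kap * (x : ℂ)) := by
    have h2 : kap * ((x + 1 : ℝ) : ℂ) = kap * (x : ℂ) + ((2 : ℤ) : ℂ) * (2 * (Real.pi : ℂ) * Complex.I) := by
      unfold kap
      push_cast
      ring
    rw [h2, Complex.exp_add, Complex.exp_int_mul_two_pi_mul_I, mul_one]
  rw [h]

/-- derivatives of the composition -/
lemma it_comp {s : ℝ} (hs : |s| ≤ 1) (z : ℍ) {h : ℂ → ℝ} {A Y : ℝ} (hh : ContDiff ℝ ∞ h)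
    (hA : ∀ j ≤ 3, ∀ z, ‖iteratedFDeriv ℝ j h z‖ ≤ A) (hz : z.im ≤ Y) (x : ℝ) :
    ‖iteratedDeriv 3 (h ∘ PP z s) x‖ ≤ 6 * A * (1 + 10 ^ 6 * Y) ^ 3 := by
  rw [← norm_iteratedFDeriv_eq_norm_iteratedDeriv]
  have hY : 0 < Y := z.im_pos.trans_le hz
  have hD : (1 : ℝ) ≤ 1 + 10 ^ 6 * Y := by nlinarith
  have h1 := norm_iteratedFDeriv_comp_le (𝕜 := ℝ) (g := h) (f := PP z s) (n := 3) (N := ∞) hh
    (cd_PP hs z) (WithTop.coe_le_coe.2 (le_top : ((3 : ℕ) : ℕ∞) ≤ ⊤)) x (C := A) (D := 1 + 10 ^ 6 * Y)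
    (fun i hi => hA i hi _) (by
      intro i hi1 hi3
      have key : ‖iteratedFDeriv ℝ i (PP z s) x‖ ≤ 1 + 10 ^ 6 * Y := by
        rw [norm_iteratedFDeriv_eq_norm_iteratedDeriv]
        obtain ⟨b1, b2, b3⟩ := nb hs x
        have hi : i = 1 ∨ i = 2 ∨ i = 3 := by omega
        rcases hi with rfl | rfl | rfl
        · rw [it1 hs]
          refine (nP z _ _ b1).trans ?_
          nlinarith
        · rw [it2 hs]
          refine (nP z _ _ b2).trans ?_
          nlinarith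
        · rw [it3 hs]
          refine (nP z _ _ b3).trans ?_
          nlinarith
      refine key.trans ?_
      calc (1 + 10 ^ 6 * Y) = (1 + 10 ^ 6 * Y) ^ 1 := (pow_one _).symm
        _ ≤ (1 + 10 ^ 6 * Y) ^ i := pow_le_pow_right₀ hD hi1)
  have h2 : ((Nat.factorial 3 : ℕ) : ℝ) = 6 := by norm_num [Nat.factorial]
  rw [h2] at h1
  exact h1

/-- integration by parts -/
lemma ibp (g g' : ℝ → ℝ) (hg : ∀ x, HasDerivAt g (g' x) x) (hc : Continuous g') (h01 : g 1 = g 0)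
    (c : ℂ) (hc0 : c ≠ 0) (hc1 : Complex.exp c = 1) :
    ∫ x in (0 : ℝ)..1, (g x : ℂ) * Complex.exp (c * x) =
      -(c⁻¹) * ∫ x in (0 : ℝ)..1, (g' x : ℂ) * Complex.exp (c * x) := by
  have he : ∀ x : ℝ, HasDerivAt (fun x : ℝ => Complex.exp (c * x)) (Complex.exp (c * x) * (c * 1)) x :=
    fun x => ((hasDerivAt_id x).ofReal_comp.const_mul c).cexp
  have hce : Continuous (fun x : ℝ => Complex.exp (c * x)) :=
    Complex.continuous_exp.comp (continuous_const.mul Complex.continuous_ofReal)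
  have hcg : Continuous (fun x : ℝ => (g x : ℂ)) :=
    Complex.continuous_ofReal.comp (continuous_iff_continuousAt.2 fun x => (hg x).continuousAt)
  have hcg' : Continuous (fun x : ℝ => (g' x : ℂ)) := Complex.continuous_ofReal.comp hc
  have h1 : ∀ x ∈ Set.uIcc (0 : ℝ) 1, HasDerivAt (fun x : ℝ => (g x : ℂ) * Complex.exp (c * x))
      ((g' x : ℂ) * Complex.exp (c * x) + (g x : ℂ) * (Complex.exp (c * x) * (c * 1))) x :=
    fun x _ => (hg x).ofReal_comp.mul (he x)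
  have i1 : IntervalIntegrable (fun x : ℝ => (g' x : ℂ) * Complex.exp (c * x)) volume 0 1 :=
    (hcg'.mul hce).intervalIntegrable _ _
  have i2 : IntervalIntegrable (fun x : ℝ => (g x : ℂ) * (Complex.exp (c * x) * (c * 1))) volume 0 1 :=
    (hcg.mul (hce.mul continuous_const)).intervalIntegrable _ _
  have h2 := intervalIntegral.integral_eq_sub_of_hasDerivAt h1 (i1.add i2)
  rw [intervalIntegral.integral_add i1 i2] at h2
  have h3 : ∫ x in (0 : ℝ)..1, (g x : ℂ) * (Complex.exp (c * x) * (c * 1)) =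
      c * ∫ x in (0 : ℝ)..1, (g x : ℂ) * Complex.exp (c * x) := by
    rw [← intervalIntegral.integral_const_mul]
    refine intervalIntegral.integral_congr fun x _ => ?_
    ring
  have h4 : (g 1 : ℂ) * Complex.exp (c * ((1 : ℝ) : ℂ)) - (g 0 : ℂ) * Complex.exp (c * ((0 : ℝ) : ℂ)) = 0 := by
    rw [Complex.ofReal_one, mul_one, hc1, Complex.ofReal_zero, mul_zero, Complex.exp_zero, h01, sub_self]
  rw [h4, h3] at h2
  have h5 : ∫ x in (0 : ℝ)..1, (g x : ℂ) * Complex.exp (c * x) =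
      c⁻¹ * (c * ∫ x in (0 : ℝ)..1, (g x : ℂ) * Complex.exp (c * x)) := by
    rw [← mul_assoc, inv_mul_cancel₀ hc0, one_mul]
  rw [h5]
  have h6 : c * ∫ x in (0 : ℝ)..1, (g x : ℂ) * Complex.exp (c * x) =
      -∫ x in (0 : ℝ)..1, (g' x : ℂ) * Complex.exp (c * x) := by
    linear_combination h2
  rw [h6]
  ring

/-- three integrations by parts -/
lemma ibp3 (f : ℝ → ℝ) (hf : ContDiff ℝ ∞ f) (hp : ∀ x, f (x + 1) = f x) (B : ℝ)
    (hB : ∀ x, ‖iteratedDeriv 3 f x‖ ≤ B) (c : ℂ) (hc0 : c ≠ 0) (hc1 : Complex.exp c = 1)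
    (hcr : c.re = 0) :
    ‖∫ x in (0 : ℝ)..1, (f x : ℂ) * Complex.exp (c * x)‖ ≤ B / ‖c‖ ^ 3 := by
  have hd : ∀ k : ℕ, ∀ x, HasDerivAt (iteratedDeriv k f) (iteratedDeriv (k + 1) f x) x := by
    intro k x
    rw [iteratedDeriv_succ]
    exact (hf.differentiable_iteratedDeriv k (by exact_mod_cast WithTop.coe_lt_top k)).differentiableAt.hasDerivAt
  have hcn : ∀ k : ℕ, Continuous (iteratedDeriv k f) := fun k =>
    hf.continuous_iteratedDeriv k (by exact_mod_cast le_top)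
  have hper : ∀ k : ℕ, iteratedDeriv k f 1 = iteratedDeriv k f 0 := by
    intro k
    have h1 := iteratedDeriv_comp_add_const (𝕜 := ℝ) k f 1
    have h2 : (fun z => f (z + 1)) = f := funext hp
    rw [h2] at h1
    have h3 := congrFun h1 0
    rw [zero_add] at h3
    exact h3.symm
  have e0 := ibp (iteratedDeriv 0 f) (iteratedDeriv 1 f) (hd 0) (hcn 1) (hper 0) c hc0 hc1
  have e1 := ibp (iteratedDeriv 1 f) (iteratedDeriv 2 f) (hd 1) (hcn 2) (hper 1) c hc0 hc1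
  have e2 := ibp (iteratedDeriv 2 f) (iteratedDeriv 3 f) (hd 2) (hcn 3) (hper 2) c hc0 hc1
  rw [iteratedDeriv_zero] at e0
  rw [e0, e1, e2]
  have h3 : ‖∫ x in (0 : ℝ)..1, ((iteratedDeriv 3 f x : ℝ) : ℂ) * Complex.exp (c * x)‖ ≤ B * |(1 : ℝ) - 0| := by
    refine intervalIntegral.norm_integral_le_of_norm_le_const fun x _ => ?_
    rw [norm_mul, Complex.norm_exp]
    have : (c * (x : ℂ)).re = 0 := by
      rw [Complex.re_mul_ofReal, hcr, zero_mul]
    rw [this, Real.exp_zero, mul_one, Complex.norm_real]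
    exact hB x
  rw [sub_zero, abs_one, mul_one] at h3
  rw [norm_mul, norm_mul, norm_mul, norm_neg, norm_inv]
  have h4 : 0 < ‖c‖ := norm_pos_iff.2 hc0
  calc ‖c‖⁻¹ * (‖c‖⁻¹ * (‖c‖⁻¹ * ‖∫ x in (0 : ℝ)..1, ((iteratedDeriv 3 f x : ℝ) : ℂ) * Complex.exp (c * x)‖))
      ≤ ‖c‖⁻¹ * (‖c‖⁻¹ * (‖c‖⁻¹ * B)) := by gcongr
    _ = B / ‖c‖ ^ 3 := by
      field_simp

end KfM

open KfM in
theorem stmtKf : StmtKf := by
  intro K₀ hK₀ hK₀H
  set K' : Set ℍ := ((↑) : ℍ → ℂ) ⁻¹' K₀ with hK'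
  have hK'c : IsCompact K' := Half2.isCompact_pre hK₀ hK₀H
  set K₁ : Set ℍ := Metric.cthickening 1 K' with hK₁
  have hK₁c : IsCompact K₁ :=
    Metric.isCompact_of_isClosed_isBounded Metric.isClosed_cthickening hK'c.isBounded.cthickening
  obtain ⟨Y0, hY0⟩ := hK₁c.bddAbove_image (f := UpperHalfPlane.im) UpperHalfPlane.continuous_im.continuousOn
  set Y : ℝ := max Y0 1 with hY
  have hY1 : 1 ≤ Y := le_max_right _ _
  have hYz : ∀ z ∈ K₁, z.im ≤ Y := fun z hz => (hY0 ⟨z, hz, rfl⟩).trans (le_max_left _ _)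
  refine ⟨K₁, 6 * (1 + 10 ^ 6 * Y) ^ 3, hK₁c, by positivity, ?_⟩
  intro h A hh hsup hA hAj s hs z j
  have hzero : z ∉ K₁ → ∀ x : XC, h (base (Sct (z, x) * fl s) : ℂ) = 0 := by
    intro hz x
    by_contra hne
    apply hz
    have h1 : (base (Sct (z, x) * fl s) : ℂ) ∈ K₀ := hsup (subset_tsupport _ hne)
    refine Metric.mem_cthickening_of_dist_le z (base (Sct (z, x) * fl s)) 1 K' h1 ?_
    rw [dist_comm]
    have h2 := Dyn.dist_base_fl (Sct (z, x)) s
    rw [Dyn.LiftM.base_Sct] at h2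
    rw [h2]
    exact hs
  refine ⟨hzero, ?_⟩
  have hD1 : (1 : ℝ) ≤ (1 + 10 ^ 6 * Y) ^ 3 := one_le_pow₀ (by nlinarith)
  by_cases hz : z ∈ K₁
  swap
  · have h1 : ∀ x : XC, (h (base (Sct (z, x) * fl s) : ℂ) : ℂ) * cc x ^ (2 * j) = 0 := fun x => by
      rw [hzero hz x, Complex.ofReal_zero, zero_mul]
    simp only [h1, integral_zero, norm_zero]
    positivity
  have hf : ∀ x : ℝ, h (base (Sct (z, (x : XC)) * fl s) : ℂ) = (h ∘ PP z s) x := by
    intro x
    rw [base_fmla hs, vc_coe]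
    rfl
  by_cases hj : j = 0
  · subst hj
    have h1 : ‖∫ x : XC, (h (base (Sct (z, x) * fl s) : ℂ) : ℂ) * cc x ^ (2 * (0 : ℤ))
        ∂AddCircle.haarAddCircle‖ ≤ A * (AddCircle.haarAddCircle (T := 1)).real Set.univ := by
      refine norm_integral_le_of_norm_le_const (Eventually.of_forall fun x => ?_)
      rw [mul_zero, zpow_zero, mul_one, Complex.norm_real]
      have := hAj 0 (by norm_num) (base (Sct (z, x) * fl s) : ℂ)
      rwa [norm_iteratedFDeriv_zero] at this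
    rw [probReal_univ, mul_one] at h1
    refine h1.trans ?_
    rw [Int.cast_zero, abs_zero, add_zero, one_pow, div_one]
    nlinarith
  have hmain : ∫ x : XC, (h (base (Sct (z, x) * fl s) : ℂ) : ℂ) * cc x ^ (2 * j)
      ∂AddCircle.haarAddCircle = ∫ x in (0 : ℝ)..1, ((h ∘ PP z s) x : ℂ) *
        Complex.exp ((4 * (Real.pi : ℂ) * Complex.I * j) * x) := by
    have h1 := fourierCoeff_eq_intervalIntegral (T := 1)
      (fun x : XC => ((h (base (Sct (z, x) * fl s) : ℂ) : ℝ) : ℂ)) (-(2 * j)) 0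
    unfold fourierCoeff at h1
    rw [neg_neg] at h1
    have h2 : ∫ x : XC, (h (base (Sct (z, x) * fl s) : ℂ) : ℂ) * cc x ^ (2 * j)
        ∂AddCircle.haarAddCircle = ∫ t : XC, fourier (2 * j) t •
          ((h (base (Sct (z, t) * fl s) : ℂ) : ℝ) : ℂ) ∂AddCircle.haarAddCircle := by
      refine integral_congr_ae (Eventually.of_forall fun x => ?_)
      change _ = fourier (2 * j) x * _
      rw [Dyn.LiftM.fourier_cc]
      ring
    rw [h2, h1, zero_add, div_one, one_smul]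
    refine intervalIntegral.integral_congr fun x _ => ?_
    change fourier (2 * j) (x : XC) * ((h (base (Sct (z, (x : XC)) * fl s) : ℂ) : ℝ) : ℂ) = _
    rw [hf x, Dyn.LiftM.fourier_cc, cc_coe, ← Complex.exp_int_mul, mul_comm]
    congr 2
    push_cast
    ring
  rw [hmain]
  have hjr : (0 : ℝ) < |(j : ℝ)| := abs_pos.2 (by exact_mod_cast hj)
  have hj1 : (1 : ℝ) ≤ |(j : ℝ)| := by
    have : 1 ≤ |j| := Int.one_le_abs hj
    exact_mod_cast this
  have hc0 : (4 * (Real.pi : ℂ) * Complex.I * j) ≠ 0 := by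
    have h1 : (Real.pi : ℂ) ≠ 0 := by exact_mod_cast Real.pi_ne_zero
    have h2 : (j : ℂ) ≠ 0 := by exact_mod_cast hj
    exact mul_ne_zero (mul_ne_zero (mul_ne_zero (by norm_num) h1) Complex.I_ne_zero) h2
  have hc1 : Complex.exp (4 * (Real.pi : ℂ) * Complex.I * j) = 1 := by
    have h1 : 4 * (Real.pi : ℂ) * Complex.I * j = ((2 * j : ℤ) : ℂ) * (2 * (Real.pi : ℂ) * Complex.I) := by
      push_cast
      ring
    rw [h1, Complex.exp_int_mul_two_pi_mul_I]
  have hcr : (4 * (Real.pi : ℂ) * Complex.I * j).re = 0 := by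
    have h1 : 4 * (Real.pi : ℂ) * Complex.I * j = ((4 * Real.pi * j : ℝ) : ℂ) * Complex.I := by
      push_cast
      ring
    rw [h1, Complex.re_ofReal_mul, Complex.I_re, mul_zero]
  have hnc : ‖4 * (Real.pi : ℂ) * Complex.I * j‖ = 4 * Real.pi * |(j : ℝ)| := by
    have h1 : 4 * (Real.pi : ℂ) * Complex.I * j = ((4 * Real.pi * j : ℝ) : ℂ) * Complex.I := by
      push_cast
      ring
    rw [h1, norm_mul, Complex.norm_I, mul_one, Complex.norm_real, Real.norm_eq_abs, abs_mul,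
      abs_of_pos (by positivity : (0 : ℝ) < 4 * Real.pi)]
  have hfin := ibp3 (h ∘ PP z s) (hh.comp (cd_PP hs z)) (fun x => by
      rw [Function.comp_apply, Function.comp_apply, per_PP]) _
    (fun x => it_comp hs z hh hAj (hYz z hz) x) _ hc0 hc1 hcr
  refine hfin.trans ?_
  rw [hnc]
  have hle : 1 + |(j : ℝ)| ≤ 4 * Real.pi * |(j : ℝ)| := by
    have := Real.pi_gt_three
    nlinarith
  have hle3 : (1 + |(j : ℝ)|) ^ 3 ≤ (4 * Real.pi * |(j : ℝ)|) ^ 3 :=
    pow_le_pow_left₀ (by positivity) hle 3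
  calc 6 * A * (1 + 10 ^ 6 * Y) ^ 3 / (4 * Real.pi * |(j : ℝ)|) ^ 3 ≤
        6 * A * (1 + 10 ^ 6 * Y) ^ 3 / (1 + |(j : ℝ)|) ^ 3 :=
      div_le_div_of_nonneg_left (by positivity) (by positivity) hle3
    _ = 6 * (1 + 10 ^ 6 * Y) ^ 3 * A / (1 + |(j : ℝ)|) ^ 3 := by ring

end

end Pool.Agent.A54.Hp
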