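import Pool.Agent.Lib.MP_a54f13_nt.Hp.SpecN

/-!
# Package `Hp`, module `PP`: masses of tubes, the final exponent argument (helper37)
-/

set_option autoImplicit false

namespace Pool.Agent.A54.Hp

open MeasureTheory Filter Topology Set
open scoped ContDiff ComplexConjugate UpperHalfPlane MatrixGroups ENNReal
open Pool.Agent.A54.Dyn (G fl base ze io mk4 dom)
open Pool.Agent.A54.Av (Mat NonSc)

noncomputable section

namespace PPN

/-- comparison of exponentials with a small factor -/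
theorem exl {C u x y : ℝ} (hC : 0 ≤ C) (h4 : 12 * C * Real.exp (-(u / 1000)) < 1)
    (h : x - y ≤ -(u / 1000)) : 12 * C * Real.exp x < Real.exp y := by
  have h1 : Real.exp x = Real.exp (x - y) * Real.exp y := by
    rw [← Real.exp_add]; congr 1; ring
  have h2 : 12 * C * Real.exp (x - y) < 1 :=
    lt_of_le_of_lt (mul_le_mul_of_nonneg_left (Real.exp_le_exp.2 h) (by linarith)) h4
  calc 12 * C * Real.exp x = (12 * C * Real.exp (x - y)) * Real.exp y := by rw [h1]; ring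
    _ < 1 * Real.exp y := mul_lt_mul_of_pos_right h2 (Real.exp_pos y)
    _ = Real.exp y := one_mul _

/-- the exponents -/
theorem core {u v a μ C : ℝ} (hu : 0 ≤ u) (h1 : 703 / 800 * u ≤ v) (h1' : v ≤ 37 / 40 * u)
    (ha : 47 / 50 * u ≤ a) (hC : 1 ≤ C)
    (h2 : Real.exp (-(1002 / 1000 * u)) / 2 ≤ Real.exp (-a) * μ)
    (h3 : Real.exp (1998 / 1000 * v) * μ ^ 2 ≤
      C * (Real.exp (3 * v - 2 * u + a) + Real.exp (-5 * v + 6 * u) + Real.exp v * μ))
    (h4 : 12 * C * Real.exp (-(u / 1000)) < 1) : False := by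
  set x : ℝ := Real.exp (-a) * μ with hx
  have hμ : μ = Real.exp a * x := by
    rw [hx, ← mul_assoc, ← Real.exp_add, add_neg_cancel, Real.exp_zero, one_mul]
  have hx0 : 0 < x := lt_of_lt_of_le (by positivity) h2
  have hx2 : Real.exp (-(2004 / 1000 * u)) / 4 ≤ x ^ 2 := by
    have h5 := mul_self_le_mul_self (by positivity) h2
    have h6 : Real.exp (-(2004 / 1000 * u)) / 4 = Real.exp (-(1002 / 1000 * u)) / 2 *
        (Real.exp (-(1002 / 1000 * u)) / 2) := by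
      rw [div_mul_div_comm, ← Real.exp_add]
      norm_num
      ring_nf
    rw [h6, pow_two]
    exact h5
  have hl : Real.exp (1998 / 1000 * v) * μ ^ 2 =
      Real.exp (1998 / 1000 * v + 2 * a) * x ^ 2 := by
    rw [hμ, mul_pow, ← mul_assoc, ← Real.exp_nat_mul, ← Real.exp_add]
    norm_num
  have hr : Real.exp v * μ = Real.exp (v + a) * x := by
    rw [hμ, ← mul_assoc, ← Real.exp_add]
  rw [hl, hr] at h3
  have hC0 : 0 ≤ C := by linarith
  have t1 := exl (x := 3 * v - 2 * u + a) (y := 1998 / 1000 * v + 2 * a - 2004 / 1000 * u) hC0 h4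
    (by nlinarith)
  have t2 := exl (x := -5 * v + 6 * u) (y := 1998 / 1000 * v + 2 * a - 2004 / 1000 * u) hC0 h4
    (by nlinarith)
  have t3 := exl (x := v + a) (y := 1998 / 1000 * v + 2 * a - 1002 / 1000 * u) hC0 h4
    (by nlinarith)
  set L : ℝ := Real.exp (1998 / 1000 * v + 2 * a) with hL
  have hLpos : 0 < L := Real.exp_pos _
  have e1 : Real.exp (1998 / 1000 * v + 2 * a - 2004 / 1000 * u) =
      L * Real.exp (-(2004 / 1000 * u)) := by
    rw [hL, ← Real.exp_add]; congr 1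
  have e2 : Real.exp (1998 / 1000 * v + 2 * a - 1002 / 1000 * u) =
      L * Real.exp (-(1002 / 1000 * u)) := by
    rw [hL, ← Real.exp_add]; congr 1
  rw [e1] at t1 t2
  rw [e2] at t3
  have f1 : L * (Real.exp (-(2004 / 1000 * u)) / 4) ≤ L * x ^ 2 :=
    mul_le_mul_of_nonneg_left hx2 hLpos.le
  have f2 : L * (Real.exp (-(1002 / 1000 * u)) / 2) * x ≤ L * x * x :=
    mul_le_mul_of_nonneg_right (mul_le_mul_of_nonneg_left h2 hLpos.le) hx0.le
  have t3' : 12 * C * Real.exp (v + a) * x < L * Real.exp (-(1002 / 1000 * u)) * x :=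
    mul_lt_mul_of_pos_right t3 hx0
  nlinarith

theorem rp {x y : ℝ} (hx : 0 < x) : x ^ y = Real.exp (Real.log x * y) := Real.rpow_def_of_pos hx y

/-- the numerical conclusion -/
theorem num {w A M μ C : ℝ} (hw : 0 < w) (hw1 : w ≤ 1) (hA : 0 < A) (hM : 0 < M)
    (hA1 : A ≤ w ^ (47 / 50 : ℝ)) (hM1 : w ^ (-(703 / 800) : ℝ) ≤ M)
    (hM2 : M ≤ w ^ (-(37 / 40) : ℝ)) (hC : 1 ≤ C) (h2 : w ^ (1002 / 1000 : ℝ) / 2 ≤ A * μ)
    (h3 : M ^ (1998 / 1000 : ℝ) * μ ^ 2 ≤
      C * (M ^ (3 : ℝ) * w ^ (2 : ℝ) / A + M ^ (-(5 : ℝ)) * w ^ (-(6 : ℝ)) + M * μ))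
    (h4 : 12 * C * w ^ (1 / 1000 : ℝ) < 1) : False := by
  have l1 : Real.log A ≤ Real.log w * (47 / 50) := by
    have := Real.log_le_log hA hA1
    rwa [Real.log_rpow hw, mul_comm] at this
  have l2 : Real.log w * (-(703 / 800)) ≤ Real.log M := by
    have := Real.log_le_log (Real.rpow_pos_of_pos hw _) hM1
    rwa [Real.log_rpow hw, mul_comm] at this
  have l3 : Real.log M ≤ Real.log w * (-(37 / 40)) := by
    have := Real.log_le_log hM hM2
    rwa [Real.log_rpow hw, mul_comm] at this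
  have l0 : Real.log w ≤ 0 := Real.log_nonpos hw.le hw1
  refine core (u := -Real.log w) (v := Real.log M) (a := -Real.log A) (μ := μ) (C := C)
    (by linarith) (by linarith) (by linarith) (by linarith) hC ?_ ?_ ?_
  · rw [neg_neg, Real.exp_log hA]
    rw [rp hw] at h2
    convert h2 using 3
    ring
  · have hE1 : Real.exp (3 * Real.log M - 2 * -Real.log w + -Real.log A) =
        M ^ (3 : ℝ) * w ^ (2 : ℝ) / A := by
      rw [rp hM, rp hw, show 3 * Real.log M - 2 * -Real.log w + -Real.log A =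
        (Real.log M * 3 + Real.log w * 2) - Real.log A by ring, Real.exp_sub, Real.exp_add,
        Real.exp_log hA]
    have hE2 : Real.exp (-5 * Real.log M + 6 * -Real.log w) =
        M ^ (-(5 : ℝ)) * w ^ (-(6 : ℝ)) := by
      rw [rp hM, rp hw, ← Real.exp_add]
      congr 1
      ring
    have hE3 : Real.exp (1998 / 1000 * Real.log M) = M ^ (1998 / 1000 : ℝ) := by
      rw [rp hM, mul_comm]
    rw [hE1, hE2, hE3, Real.exp_log hM]
    exact h3
  · rw [rp hw] at h4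
    convert h4 using 3
    ring

/-- small numbers -/
theorem sml {K w D e : ℝ} (hw : 0 < w) (hw1 : w ≤ 1) (h : K * w ^ (1 / 1000 : ℝ) < 1)
    (hD0 : 0 ≤ D) (hD : D ≤ K) (he : 1 / 1000 ≤ e) : D * w ^ e < 1 := by
  refine lt_of_le_of_lt ?_ h
  exact mul_le_mul hD (Real.rpow_le_rpow_of_exponent_ge hw hw1 he)
    (Real.rpow_nonneg hw.le _) (hD0.trans hD)

theorem ms_mono (Φ : G → ℂ) {U V : Set G} (h : U ⊆ V) : ms Φ U ≤ ms Φ V :=
  lintegral_mono_set h

end PPN

open PPN in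
theorem stmtPP (hTot : StmtTot) (hSin : StmtSin) (hLv : StmtLv) (hStp : StmtStp) : StmtPP := by
  intro R hR
  obtain ⟨CT, hCT0, hCT⟩ := hTot R hR
  obtain ⟨C₁, hC₁, hS⟩ := hSin R hR
  obtain ⟨w₁, hw₁, hw₁', hL⟩ := hLv R (1 / 1000) (3 / 50) hR (by norm_num) (by norm_num)
    (by norm_num) (by norm_num)
  obtain ⟨C, hC, hSt⟩ := hStp R hR
  set K : ℝ := C₁ + 12 * C ^ 2 + 2 with hK
  have hCC : C ≤ C ^ 2 := by nlinarith
  have hK1 : 1 ≤ K := by nlinarith
  have hK0 : 0 < K := by linarith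
  refine ⟨min w₁ ((1 / (2 * K)) ^ (1000 : ℝ)), lt_min hw₁ (by positivity),
    (min_le_left _ _).trans hw₁', ?_⟩
  intro l Φ hΦ w hw hww hIso hGd
  by_contra hcon
  rw [not_le] at hcon
  have hwL : w ≤ w₁ := hww.trans (min_le_left _ _)
  have hw1 : w ≤ 1 := hwL.trans hw₁'
  have hsm : K * w ^ (1 / 1000 : ℝ) < 1 := by
    have h1 : w ^ (1 / 1000 : ℝ) ≤ 1 / (2 * K) := by
      have h2 := Real.rpow_le_rpow hw.le (hww.trans (min_le_right _ _))
        (show (0 : ℝ) ≤ 1 / 1000 by norm_num)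
      rw [← Real.rpow_mul (by positivity)] at h2
      norm_num at h2 ⊢
      exact h2
    calc K * w ^ (1 / 1000 : ℝ) ≤ K * (1 / (2 * K)) := mul_le_mul_of_nonneg_left h1 hK0.le
      _ = 1 / 2 := by field_simp
      _ < 1 := by norm_num
  have hsml : ∀ {D e : ℝ}, 0 ≤ D → D ≤ K → 1 / 1000 ≤ e → D * w ^ e < 1 :=
    fun hD0 hD he => sml hw hw1 hsm hD0 hD he
  -- (1) single tubes
  obtain ⟨M₁, hM₁, hM₁', hG₁⟩ := hGd w⁻¹ (by
    rw [← Real.rpow_neg_one]
    exact Real.rpow_le_rpow_of_exponent_ge hw hw1 (by norm_num)) le_rfl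
  have hX1 : (1 : ℝ) ≤ w⁻¹ := (one_le_inv₀ hw).2 hw1
  have hM₁1 : 1 ≤ M₁ := (Real.one_le_rpow hX1 (by norm_num)).trans hM₁
  have hM₁w : M₁ * w ≤ 1 := by
    calc M₁ * w ≤ w⁻¹ * w := mul_le_mul_of_nonneg_right hM₁' hw.le
      _ = 1 := inv_mul_cancel₀ hw.ne'
  have htube : ∀ ζ : Fin 3 → ℝ, ms Φ (Tb R ζ w) ≤ ENNReal.ofReal (w ^ (1 - 3 / 50 : ℝ)) := by
    intro ζ
    refine (hS l Φ hΦ w M₁ hw hM₁1 hM₁w hG₁ ζ).trans (ENNReal.ofReal_le_ofReal ?_)
    have h1 : M₁ ^ (-(998 / 1000) : ℝ) ≤ w ^ (9481 / 10000 : ℝ) := by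
      have h2 : (w⁻¹ ^ (19 / 20 : ℝ)) ^ (-(998 / 1000) : ℝ) = w ^ (9481 / 10000 : ℝ) := by
        rw [← Real.rpow_neg_one w, ← Real.rpow_mul hw.le, ← Real.rpow_mul hw.le]
        norm_num
      rw [← h2]
      exact Real.rpow_le_rpow_of_nonpos (by positivity) hM₁ (by norm_num)
    have h3 : w ^ (9481 / 10000 : ℝ) = w ^ (81 / 10000 : ℝ) * w ^ (1 - 3 / 50 : ℝ) := by
      rw [← Real.rpow_add hw]
      norm_num
    have h4 := hsml (D := C₁) (e := 81 / 10000) (by linarith) (by nlinarith) (by norm_num)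
    calc C₁ * M₁ ^ (-(998 / 1000) : ℝ) ≤ C₁ * w ^ (9481 / 10000 : ℝ) :=
          mul_le_mul_of_nonneg_left h1 (by linarith)
      _ = (C₁ * w ^ (81 / 10000 : ℝ)) * w ^ (1 - 3 / 50 : ℝ) := by rw [h3]; ring
      _ ≤ 1 * w ^ (1 - 3 / 50 : ℝ) :=
          mul_le_mul_of_nonneg_right h4.le (Real.rpow_nonneg hw.le _)
      _ = _ := one_mul _
  -- (2) the level
  obtain ⟨A, hA1, hA2, hAm, hAms⟩ := hL l Φ hΦ w hw hwL htube (by
    convert hcon using 3
    norm_num)
  have hApos : 0 < A := lt_of_lt_of_le (Real.rpow_pos_of_pos hw _) hA1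
  -- (3) the scale
  obtain ⟨M, hM1, hM2, hG⟩ := hGd (w ^ (-(37 / 40) : ℝ))
    (Real.rpow_le_rpow_of_exponent_ge hw hw1 (by norm_num)) (by
      rw [← Real.rpow_neg_one w]
      exact Real.rpow_le_rpow_of_exponent_ge hw hw1 (by norm_num))
  rw [← Real.rpow_mul hw.le] at hM1
  have hM1' : w ^ (-(703 / 800) : ℝ) ≤ M := by
    convert hM1 using 2
    norm_num
  have hMone : 1 ≤ M :=
    (Real.one_le_rpow_of_pos_of_le_one_of_nonpos hw hw1 (by norm_num)).trans hM1'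
  have hMpos : 0 < M := by linarith
  have hMw : M * w ≤ 1 := by
    calc M * w ≤ w ^ (-(37 / 40) : ℝ) * w ^ (1 : ℝ) := by
          rw [Real.rpow_one]
          exact mul_le_mul_of_nonneg_right hM2 hw.le
      _ = w ^ (3 / 40 : ℝ) := by rw [← Real.rpow_add hw]; norm_num
      _ ≤ 1 := Real.rpow_le_one hw.le hw1 (by norm_num)
  have hM2w : w ^ (-(303 / 400) : ℝ) ≤ M ^ 2 * w := by
    have h1 : (w ^ (-(703 / 800) : ℝ)) ^ 2 ≤ M ^ 2 :=
      pow_le_pow_left₀ (Real.rpow_nonneg hw.le _) hM1' 2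
    have h2 : w ^ (-(303 / 400) : ℝ) = (w ^ (-(703 / 800) : ℝ)) ^ 2 * w := by
      rw [← Real.rpow_natCast, ← Real.rpow_mul hw.le]
      nth_rewrite 3 [← Real.rpow_one w]
      rw [← Real.rpow_add hw]
      norm_num
    rw [h2]
    exact mul_le_mul_of_nonneg_right h1 hw.le
  have hinv : ∀ e : ℝ, w ^ (-e) * w ^ e = 1 := fun e => by
    rw [← Real.rpow_add hw, neg_add_cancel, Real.rpow_zero]
  have hCMw : C ≤ M ^ 2 * w := by
    refine le_trans ?_ hM2w
    have h1 := hsml (D := C) (e := 303 / 400) (by linarith) (by nlinarith) (by norm_num)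
    have h2 := hinv (303 / 400)
    have h3 : 0 < w ^ (303 / 400 : ℝ) := Real.rpow_pos_of_pos hw _
    have h4 : 0 < w ^ (-(303 / 400) : ℝ) := Real.rpow_pos_of_pos hw _
    by_contra h5
    rw [not_le] at h5
    have h6 := mul_lt_mul_of_pos_right h5 h3
    rw [h2] at h6
    linarith
  obtain ⟨hZm, hZ⟩ := hIso (C / M) (C / (M * w)) (by positivity) (by
    apply div_le_div_of_nonneg_left (by linarith) (by positivity)
    calc M * w ≤ M * 1 := mul_le_mul_of_nonneg_left hw1 hMpos.le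
      _ = M := mul_one M) (by
    have h1 := hsml (D := C ^ 2) (e := 103 / 400) (by positivity) (by nlinarith) (by norm_num)
    have h2 : C / M * (C / (M * w)) = C ^ 2 / (M ^ 2 * w) := by
      field_simp
    rw [h2]
    calc C ^ 2 / (M ^ 2 * w) ≤ C ^ 2 / w ^ (-(303 / 400) : ℝ) :=
          div_le_div_of_nonneg_left (by positivity) (Real.rpow_pos_of_pos hw _) hM2w
      _ = C ^ 2 * w ^ (303 / 400 : ℝ) := by
          rw [Real.rpow_neg hw.le, div_inv_eq_mul]
      _ = (C ^ 2 * w ^ (103 / 400 : ℝ)) * w ^ (1 / 2 : ℝ) := by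
          rw [mul_assoc, ← Real.rpow_add hw]
          norm_num
      _ ≤ 1 * w ^ (1 / 2 : ℝ) := mul_le_mul_of_nonneg_right h1.le (Real.rpow_nonneg hw.le _)
      _ = _ := one_mul _)
  set Z : Set G := Zc R (C / M) (C / (M * w)) with hZdef
  set U : Set G := Ul Φ R w A \ Z with hU
  have hUR : U ⊆ Om R := fun g hg => hg.1.1
  have hfin : ms Φ U ≠ ⊤ := ne_top_of_le_ne_top ENNReal.ofReal_ne_top
    ((ms_mono Φ hUR).trans (hCT l Φ hΦ))
  obtain ⟨μ, hμ0, hμ⟩ : ∃ μ : ℝ, 0 ≤ μ ∧ ms Φ U = ENNReal.ofReal μ :=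
    ⟨(ms Φ U).toReal, ENNReal.toReal_nonneg, (ENNReal.ofReal_toReal hfin).symm⟩
  have hun : ms Φ (Ul Φ R w A) ≤ ENNReal.ofReal (μ + w ^ (1 / 10 : ℝ)) := by
    rw [ENNReal.ofReal_add hμ0 (Real.rpow_nonneg hw.le _), ← hμ]
    refine le_trans (ms_mono Φ (show Ul Φ R w A ⊆ U ∪ Z from fun g hg => ?_))
      ((lintegral_union_le _ _ _).trans (add_le_add le_rfl hZ))
    by_cases h : g ∈ Z
    · exact Or.inr h
    · exact Or.inl ⟨hg, h⟩
  have hAμ0 : w ^ (1 + 2 * (1 / 1000) : ℝ) ≤ A * (μ + w ^ (1 / 10 : ℝ)) := by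
    rw [← ENNReal.ofReal_le_ofReal_iff (by positivity), ENNReal.ofReal_mul hApos.le]
    exact hAms.trans (mul_le_mul_right hun _)
  have hAμ : w ^ (1002 / 1000 : ℝ) / 2 ≤ A * μ := by
    have e1 : w ^ (1 + 2 * (1 / 1000) : ℝ) = w ^ (1002 / 1000 : ℝ) := by norm_num
    rw [e1] at hAμ0
    have h1 : A * w ^ (1 / 10 : ℝ) ≤ w ^ (1002 / 1000 : ℝ) / 2 := by
      have h2 := hsml (D := 2) (e := 38 / 1000) (by norm_num) (by nlinarith) (by norm_num)
      calc A * w ^ (1 / 10 : ℝ) ≤ w ^ (1 - 3 / 50 : ℝ) * w ^ (1 / 10 : ℝ) :=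
            mul_le_mul_of_nonneg_right hA2 (Real.rpow_nonneg hw.le _)
        _ = (2 * w ^ (38 / 1000 : ℝ)) * w ^ (1002 / 1000 : ℝ) / 2 := by
            rw [← Real.rpow_add hw, mul_assoc, ← Real.rpow_add hw]
            norm_num
        _ ≤ 1 * w ^ (1002 / 1000 : ℝ) / 2 := by
            have := mul_le_mul_of_nonneg_right h2.le
              (Real.rpow_nonneg hw.le (1002 / 1000 : ℝ))
            linarith
        _ = _ := by rw [one_mul]
    nlinarith
  have hstep := hSt l Φ hΦ w M A hw hw1 hMone hMw hCMw hApos hG U (hAm.diff hZm)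
    (fun g hg => hg.1) Set.disjoint_sdiff_left
  have hreal : M ^ (1998 / 1000 : ℝ) * μ ^ 2 ≤
      C * (M ^ (3 : ℝ) * w ^ (2 : ℝ) / A + M ^ (-(5 : ℝ)) * w ^ (-(6 : ℝ)) + M * μ) := by
    rw [← ENNReal.ofReal_le_ofReal_iff (by positivity), ENNReal.ofReal_mul (by positivity),
      ENNReal.ofReal_mul (by positivity), ENNReal.ofReal_pow hμ0,
      ENNReal.ofReal_add (by positivity) (by positivity),
      ENNReal.ofReal_add (by positivity) (by positivity), ENNReal.ofReal_mul (q := μ) hMpos.le,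
      ← hμ]
    exact hstep
  exact num hw hw1 hApos hMpos (by
    convert hA2 using 2
    norm_num) hM1' hM2 hC hAμ hreal (hsml (by linarith) (by nlinarith) le_rfl)

end

end Pool.Agent.A54.Hp
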