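import Pool.Agent.Lib.MP_a54f13_nt.Hp.SpecB

/-!
# Package `Hp`, part B, module `Q`: comparison of two scales
-/

set_option autoImplicit false

namespace Pool.Agent.A54.Hp

open MeasureTheory Filter Topology Set
open scoped ContDiff ComplexConjugate UpperHalfPlane MatrixGroups ENNReal
open Pool.Agent.A54.Dyn (G fl base ze io mk4 dom)
open Pool.Agent.A54.Dyn.LiftM (Sct XC XX cc rot m0)
open Pool.Agent.A54.Half (H0)
open Pool.Agent.A54.Sq (la TestP)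

noncomputable section

namespace QM

lemma continuous_xi (i : Fin 3) : Continuous fun g : G => xi g i := by
  have h := Dyn.continuous_entry
  fin_cases i
  · exact ((h 0 0).mul (h 1 1)).add ((h 0 1).mul (h 1 0))
  · exact ((h 0 0).mul (h 0 1)).neg
  · exact (h 1 0).mul (h 1 1)

lemma isClosed_Om (R : ℝ) : IsClosed (Om R) := by
  have e : Om R = ⋂ i : Fin 2, ⋂ j : Fin 2, {g : G | |g i j| ≤ R} := by
    ext g; simp [Om]
  rw [e]
  exact isClosed_iInter fun i => isClosed_iInter fun j =>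
    isClosed_le (Dyn.continuous_entry i j).abs continuous_const

/-- pairs of points of the box whose geodesics are near -/
def Pp (R w : ℝ) : Set (G × G) := {p | p.2 ∈ Om R ∧ ∀ i, |xi p.2 i - xi p.1 i| ≤ w}

lemma isClosed_Pp (R w : ℝ) : IsClosed (Pp R w) := by
  have e : Pp R w = (Prod.snd ⁻¹' Om R) ∩ ⋂ i : Fin 3, {p : G × G | |xi p.2 i - xi p.1 i| ≤ w} := by
    ext p; simp [Pp]
  rw [e]
  refine ((isClosed_Om R).preimage continuous_snd).inter (isClosed_iInter fun i => ?_)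
  exact isClosed_le (((continuous_xi i).comp continuous_snd).sub
    ((continuous_xi i).comp continuous_fst)).abs continuous_const

lemma isClosed_Tb (R : ℝ) (ζ : Fin 3 → ℝ) (w : ℝ) : IsClosed (Tb R ζ w) := by
  have e : Tb R ζ w = Om R ∩ ⋂ i : Fin 3, {g : G | |xi g i - ζ i| ≤ w} := by
    ext p; simp [Tb]
  rw [e]
  exact (isClosed_Om R).inter (isClosed_iInter fun i =>
    isClosed_le ((continuous_xi i).sub continuous_const).abs continuous_const)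

instance sfin : SFinite nu := by
  unfold nu m0
  infer_instance

/-- the tube mass is measurable -/
lemma meas_m (Φ : G → ℂ) (hΦ : Continuous Φ) (R w : ℝ) :
    Measurable fun g => ms Φ (Tb R (xi g) w) := by
  have e : (fun g => ms Φ (Tb R (xi g) w)) =
      fun g => ∫⁻ y, (Pp R w).indicator (fun p => ‖Φ p.2‖ₑ ^ 2) (g, y) ∂nu := by
    funext g
    unfold ms
    rw [← lintegral_indicator (isClosed_Tb R (xi g) w).measurableSet]
    rfl
  rw [e]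
  refine Measurable.lintegral_prod_right' (f := (Pp R w).indicator (fun p => ‖Φ p.2‖ₑ ^ 2)) ?_
  refine Measurable.indicator ?_ (isClosed_Pp R w).measurableSet
  exact ((hΦ.measurable.comp measurable_snd).enorm).pow_const 2

/-- reversed geodesics -/
lemma ms_neg (hR : StmtNuR) (hU : StmtUg) (Φ : G → ℂ) (hw : ∀ g, ‖Φ (g * wr)‖ = ‖Φ g‖)
    (R : ℝ) (ζ : Fin 3 → ℝ) (η : ℝ) : ms Φ (Tb R (fun i => -ζ i) η) = ms Φ (Tb R ζ η) := by
  have := hR.1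
  unfold ms
  rw [← lintegral_indicator (isClosed_Tb R _ η).measurableSet,
    ← lintegral_indicator (isClosed_Tb R _ η).measurableSet,
    ← lintegral_mul_right_eq_self (μ := nu)
      (fun g => (Tb R (fun i => -ζ i) η).indicator (fun g => ‖Φ g‖ₑ ^ 2) g) wr]
  refine lintegral_congr fun g => ?_
  have h1 : g * wr ∈ Tb R (fun i => -ζ i) η ↔ g ∈ Tb R ζ η := by
    change (g * wr ∈ Om R ∧ ∀ i, |xi (g * wr) i - -ζ i| ≤ η) ↔
      (g ∈ Om R ∧ ∀ i, |xi g i - ζ i| ≤ η)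
    rw [← hU.2.2.2.2.1 R g]
    refine and_congr Iff.rfl (forall_congr' fun i => ?_)
    rw [hU.2.2.2.1 g i, show -xi g i - -ζ i = -(xi g i - ζ i) by ring, abs_neg]
  by_cases h : g ∈ Tb R ζ η
  · rw [indicator_of_mem h, indicator_of_mem (h1.2 h), ← ofReal_norm,
      ← ofReal_norm, hw]
  · rw [indicator_of_notMem h, indicator_of_notMem fun h' => h (h1.1 h')]

/-- the error terms -/
def Er (R c₀ : ℝ) (c D : ℕ → ℝ) (J : ℕ) (y y' : G) : ℝ≥0∞ :=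
  (Om R).indicator (fun _ => (1 : ℝ≥0∞)) y *
    ((Om R).indicator (fun _ => (1 : ℝ≥0∞)) y' * ENNReal.ofReal c₀ +
      ∑ j ∈ Finset.range (J + 1), ENNReal.ofReal (c j) *
        ((Tb R (xi y) (D j)).indicator (fun _ => (1 : ℝ≥0∞)) y' +
          (Tb R (fun i => -xi y i) (D j)).indicator (fun _ => (1 : ℝ≥0∞)) y'))

lemma ind_mul (Φ : G → ℂ) (S : Set G) (y' : G) :
    ‖Φ y'‖ₑ ^ 2 * S.indicator (fun _ => (1 : ℝ≥0∞)) y' = S.indicator (fun g => ‖Φ g‖ₑ ^ 2) y' := by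
  by_cases h : y' ∈ S
  · rw [indicator_of_mem h, indicator_of_mem h, mul_one]
  · rw [indicator_of_notMem h, indicator_of_notMem h, mul_zero]

lemma meas_Er (R c₀ : ℝ) (c D : ℕ → ℝ) (J : ℕ) (y : G) : Measurable (Er R c₀ c D J y) := by
  unfold Er
  refine Measurable.const_mul (Measurable.add ?_ ?_) _
  · exact (measurable_const.indicator (isClosed_Om R).measurableSet).mul_const _
  · refine Finset.measurable_fun_sum _ fun j _ => Measurable.const_mul (Measurable.add ?_ ?_) _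
    · exact measurable_const.indicator (isClosed_Tb R _ _).measurableSet
    · exact measurable_const.indicator (isClosed_Tb R _ _).measurableSet

/-- the inner integral of the error terms -/
lemma inner (hR : StmtNuR) (hU : StmtUg) (Φ : G → ℂ) (hΦ : Continuous Φ)
    (hw : ∀ g, ‖Φ (g * wr)‖ = ‖Φ g‖) (R c₀ : ℝ) (c D : ℕ → ℝ) (J : ℕ) (y : G) :
    ∫⁻ y', ‖Φ y‖ₑ ^ 2 * ‖Φ y'‖ₑ ^ 2 * Er R c₀ c D J y y' ∂nu =
      (Om R).indicator (fun y => ‖Φ y‖ₑ ^ 2 * (ENNReal.ofReal c₀ * ms Φ (Om R) +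
        ∑ j ∈ Finset.range (J + 1), ENNReal.ofReal (c j) * (2 * ms Φ (Tb R (xi y) (D j))))) y := by
  have hm : Measurable fun g => ‖Φ g‖ₑ ^ 2 := hΦ.measurable.enorm.pow_const 2
  have hmT : ∀ (ζ : Fin 3 → ℝ) (η : ℝ), Measurable ((Tb R ζ η).indicator fun g => ‖Φ g‖ₑ ^ 2) :=
    fun ζ η => hm.indicator (isClosed_Tb R ζ η).measurableSet
  have hmO : Measurable ((Om R).indicator fun g => ‖Φ g‖ₑ ^ 2) :=
    hm.indicator (isClosed_Om R).measurableSet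
  have e1 : ∀ y', ‖Φ y‖ₑ ^ 2 * ‖Φ y'‖ₑ ^ 2 * Er R c₀ c D J y y' =
      (‖Φ y‖ₑ ^ 2 * (Om R).indicator (fun _ => (1 : ℝ≥0∞)) y) *
        ((Om R).indicator (fun g => ‖Φ g‖ₑ ^ 2) y' * ENNReal.ofReal c₀ +
          ∑ j ∈ Finset.range (J + 1), ENNReal.ofReal (c j) *
            ((Tb R (xi y) (D j)).indicator (fun g => ‖Φ g‖ₑ ^ 2) y' +
              (Tb R (fun i => -xi y i) (D j)).indicator (fun g => ‖Φ g‖ₑ ^ 2) y')) := by
    intro y'
    unfold Er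
    simp only [← ind_mul Φ]
    have e2 : ∀ j, ENNReal.ofReal (c j) *
        (‖Φ y'‖ₑ ^ 2 * (Tb R (xi y) (D j)).indicator (fun _ => (1 : ℝ≥0∞)) y' +
          ‖Φ y'‖ₑ ^ 2 * (Tb R (fun i => -xi y i) (D j)).indicator (fun _ => (1 : ℝ≥0∞)) y') =
        ‖Φ y'‖ₑ ^ 2 * (ENNReal.ofReal (c j) *
          ((Tb R (xi y) (D j)).indicator (fun _ => (1 : ℝ≥0∞)) y' +
            (Tb R (fun i => -xi y i) (D j)).indicator (fun _ => (1 : ℝ≥0∞)) y')) := by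
      intro j; ring
    simp only [e2]
    rw [← Finset.mul_sum]
    ring
  simp only [e1]
  have hs1 : ∀ j, Measurable fun y' : G =>
      (Tb R (xi y) (D j)).indicator (fun g => ‖Φ g‖ₑ ^ 2) y' +
        (Tb R (fun i => -xi y i) (D j)).indicator (fun g => ‖Φ g‖ₑ ^ 2) y' := fun j =>
    (hmT _ _).add (hmT _ _)
  have hs2 : ∀ j, Measurable fun y' : G => ENNReal.ofReal (c j) *
      ((Tb R (xi y) (D j)).indicator (fun g => ‖Φ g‖ₑ ^ 2) y' +
        (Tb R (fun i => -xi y i) (D j)).indicator (fun g => ‖Φ g‖ₑ ^ 2) y') := fun j =>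
    (hs1 j).const_mul _
  have hs3 : Measurable fun y' : G => (Om R).indicator (fun g => ‖Φ g‖ₑ ^ 2) y' *
      ENNReal.ofReal c₀ := hmO.mul_const _
  have hs4 : Measurable fun y' : G => ((Om R).indicator (fun g => ‖Φ g‖ₑ ^ 2) y' *
      ENNReal.ofReal c₀ + ∑ j ∈ Finset.range (J + 1), ENNReal.ofReal (c j) *
      ((Tb R (xi y) (D j)).indicator (fun g => ‖Φ g‖ₑ ^ 2) y' +
        (Tb R (fun i => -xi y i) (D j)).indicator (fun g => ‖Φ g‖ₑ ^ 2) y')) :=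
    hs3.add (Finset.measurable_fun_sum _ fun j _ => hs2 j)
  rw [lintegral_const_mul _ hs4, lintegral_add_left hs3,
    lintegral_mul_const _ hmO, lintegral_finsetSum _ fun j _ => hs2 j]
  have e3 : ∀ j, ∫⁻ y', ENNReal.ofReal (c j) *
      ((Tb R (xi y) (D j)).indicator (fun g => ‖Φ g‖ₑ ^ 2) y' +
        (Tb R (fun i => -xi y i) (D j)).indicator (fun g => ‖Φ g‖ₑ ^ 2) y') ∂nu =
      ENNReal.ofReal (c j) * (2 * ms Φ (Tb R (xi y) (D j))) := by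
    intro j
    rw [lintegral_const_mul _ (hs1 j), lintegral_add_left (hmT _ _),
      lintegral_indicator (isClosed_Tb R _ _).measurableSet,
      lintegral_indicator (isClosed_Tb R _ _).measurableSet]
    change ENNReal.ofReal (c j) * (ms Φ (Tb R (xi y) (D j)) +
      ms Φ (Tb R (fun i => -xi y i) (D j))) = _
    rw [ms_neg hR hU Φ hw, two_mul]
  simp only [e3]
  rw [lintegral_indicator (isClosed_Om R).measurableSet]
  change _ * (ms Φ (Om R) * _ + _) = _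
  by_cases h : y ∈ Om R
  · rw [indicator_of_mem h, indicator_of_mem h, mul_one, mul_comm (ms Φ (Om R))]
  · rw [indicator_of_notMem h, indicator_of_notMem h, mul_zero, zero_mul]

/-- the integral of the error terms -/
lemma outer (Φ : G → ℂ) (hΦ : Continuous Φ) (R c₀ : ℝ) (c D : ℕ → ℝ) (J : ℕ) :
    Measurable ((Om R).indicator (fun y => ‖Φ y‖ₑ ^ 2 * (ENNReal.ofReal c₀ * ms Φ (Om R) +
        ∑ j ∈ Finset.range (J + 1), ENNReal.ofReal (c j) * (2 * ms Φ (Tb R (xi y) (D j)))))) ∧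
    ∫⁻ y, (Om R).indicator (fun y => ‖Φ y‖ₑ ^ 2 * (ENNReal.ofReal c₀ * ms Φ (Om R) +
        ∑ j ∈ Finset.range (J + 1), ENNReal.ofReal (c j) * (2 * ms Φ (Tb R (xi y) (D j))))) y ∂nu =
      ENNReal.ofReal c₀ * ms Φ (Om R) ^ 2 +
        ∑ j ∈ Finset.range (J + 1), ENNReal.ofReal (c j) * (2 * Cw Φ R (D j)) := by
  have hm : Measurable fun g => ‖Φ g‖ₑ ^ 2 := hΦ.measurable.enorm.pow_const 2
  have hmT : ∀ j, Measurable fun y => ms Φ (Tb R (xi y) (D j)) := fun j => meas_m Φ hΦ R (D j)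
  have hj : ∀ j, Measurable fun y => ENNReal.ofReal (c j) *
      (2 * (‖Φ y‖ₑ ^ 2 * ms Φ (Tb R (xi y) (D j)))) := fun j =>
    ((hm.mul (hmT j)).const_mul _).const_mul _
  have e1 : (fun y => ‖Φ y‖ₑ ^ 2 * (ENNReal.ofReal c₀ * ms Φ (Om R) +
      ∑ j ∈ Finset.range (J + 1), ENNReal.ofReal (c j) * (2 * ms Φ (Tb R (xi y) (D j))))) =
      fun y => ‖Φ y‖ₑ ^ 2 * (ENNReal.ofReal c₀ * ms Φ (Om R)) +
        ∑ j ∈ Finset.range (J + 1), ENNReal.ofReal (c j) *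
          (2 * (‖Φ y‖ₑ ^ 2 * ms Φ (Tb R (xi y) (D j)))) := by
    funext y
    rw [mul_add, Finset.mul_sum]
    refine congrArg₂ _ rfl (Finset.sum_congr rfl fun j _ => ?_)
    ring
  rw [e1]
  refine ⟨((hm.mul_const _).add (Finset.measurable_fun_sum _ fun j _ => hj j)).indicator
    (isClosed_Om R).measurableSet, ?_⟩
  rw [lintegral_indicator (isClosed_Om R).measurableSet, lintegral_add_left (hm.mul_const _),
    lintegral_mul_const _ hm, lintegral_finsetSum _ fun j _ => hj j]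
  congr 1
  · change ms Φ (Om R) * _ = _
    ring
  · refine Finset.sum_congr rfl fun j _ => ?_
    have hj1 : Measurable fun y => ‖Φ y‖ₑ ^ 2 * ms Φ (Tb R (xi y) (D j)) := hm.mul (hmT j)
    have hj2 : Measurable fun y => 2 * (‖Φ y‖ₑ ^ 2 * ms Φ (Tb R (xi y) (D j))) :=
      hj1.const_mul _
    rw [lintegral_const_mul _ hj2, lintegral_const_mul _ hj1]
    rfl

/-- the pointwise bound -/
lemma point {φ : ℂ → ℝ} {C₀ Ca Cb R : ℝ} (hCa0 : 0 ≤ Ca) (hCb0 : 0 ≤ Cb)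
    (hQa : ∀ (τ₀ a ε θ C₀ : ℝ) (k k' : ℝ → ℝ),
      0 < τ₀ → τ₀ ≤ 1 → Ker C₀ a k → Ker C₀ ε k' → a ≤ ε → ε ≤ θ → ∀ y y' : G,
      θ ^ 2 ≤ (y⁻¹ * y') 0 0 * (y⁻¹ * y') 1 1 → θ ^ 2 ≤ -((y⁻¹ * y') 0 1 * (y⁻¹ * y') 1 0) →
      Ik φ k (ch τ₀) y y' ≤ Ik φ k' (ch τ₀) y y' + ENNReal.ofReal (Ca * ε / (θ ^ 2 * τ₀)) ∧
      Ik φ k (ch τ₀) y y' ≤ ENNReal.ofReal (Ca / θ))
    (hQb : ∀ (τ₀ a : ℝ) (k : ℝ → ℝ), 0 < τ₀ → τ₀ ≤ 1 → a ≤ 1 → Ker C₀ a k → ∀ y y' : G,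
      Ik φ k (ch τ₀) y y' ≤ ENNReal.ofReal (Cb / a) ∧
      (Ik φ k (ch τ₀) y y' ≠ 0 → y ∈ Om R ∧ y' ∈ Om R ∧ ∀ η : ℝ, a ≤ η →
        (|(y⁻¹ * y') 0 1 * (y⁻¹ * y') 1 0| ≤ η ^ 2 → ∀ i, |xi y' i - xi y i| ≤ Cb * η) ∧
        (|(y⁻¹ * y') 0 0 * (y⁻¹ * y') 1 1| ≤ η ^ 2 → ∀ i, |xi y' i + xi y i| ≤ Cb * η) ∧
        (η ^ 2 < |(y⁻¹ * y') 0 1 * (y⁻¹ * y') 1 0| → η ^ 2 < |(y⁻¹ * y') 0 0 * (y⁻¹ * y') 1 1| →
          η ^ 2 < (y⁻¹ * y') 0 0 * (y⁻¹ * y') 1 1 ∧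
            η ^ 2 < -((y⁻¹ * y') 0 1 * (y⁻¹ * y') 1 0))))
    {τ₀ a ε θ : ℝ} {k k' : ℝ → ℝ} {J : ℕ} (hτ : 0 < τ₀) (hτ1 : τ₀ ≤ 1) (hk : Ker C₀ a k)
    (hk' : Ker C₀ ε k') (hae : a ≤ ε) (heθ : ε ≤ θ) (hθ1 : θ ≤ 1) (hJ : θ ≤ 2 ^ J * a) (y y' : G) :
    Ik φ k (ch τ₀) y y' ≤ Ik φ k' (ch τ₀) y y' +
      Er R (Ca * ε / (θ ^ 2 * τ₀)) (fun j => (Cb + 2 * Ca) * (2 ^ j * a)⁻¹)
        (fun j => Cb * (2 ^ j * a)) J y y' := by
  by_cases h0 : Ik φ k (ch τ₀) y y' = 0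
  · rw [h0]
    exact zero_le
  have ha : 0 < a := hk.pos
  have hb := hQb τ₀ a k hτ hτ1 (hae.trans (heθ.trans hθ1)) hk y y'
  obtain ⟨hy, hy', hη⟩ := hb.2 h0
  set A : ℝ := (y⁻¹ * y') 0 1 * (y⁻¹ * y') 1 0 with hA
  set B : ℝ := (y⁻¹ * y') 0 0 * (y⁻¹ * y') 1 1 with hB
  have hpow : ∀ j : ℕ, a ≤ 2 ^ j * a := fun j => by
    have h1 : (1 : ℝ) ≤ 2 ^ j := one_le_pow₀ (by norm_num)
    nlinarith
  by_cases hP : ∃ j : ℕ, j ≤ J ∧ (|A| ≤ (2 ^ j * a) ^ 2 ∨ |B| ≤ (2 ^ j * a) ^ 2)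
  · -- a pair of close geodesics
    classical
    have hfind := Nat.find_spec hP
    set j := Nat.find hP with hjdef
    have hjJ : j ≤ J := hfind.1
    have hle : Ik φ k (ch τ₀) y y' ≤ ENNReal.ofReal ((Cb + 2 * Ca) * (2 ^ j * a)⁻¹) := by
      rcases Nat.eq_zero_or_pos j with hj0 | hjpos
      · refine hb.1.trans (ENNReal.ofReal_le_ofReal ?_)
        rw [hj0, pow_zero, one_mul, div_eq_mul_inv]
        exact mul_le_mul_of_nonneg_right (by linarith) (inv_nonneg.2 ha.le)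
      · obtain ⟨i, hi⟩ : ∃ i, j = i + 1 := ⟨j - 1, by omega⟩
        have hnot := Nat.find_min hP (m := i) (by omega)
        have h1 : (2 ^ i * a) ^ 2 < |A| := by
          by_contra h
          exact hnot ⟨by omega, Or.inl (not_lt.1 h)⟩
        have h2 : (2 ^ i * a) ^ 2 < |B| := by
          by_contra h
          exact hnot ⟨by omega, Or.inr (not_lt.1 h)⟩
        have h3 := (hη (2 ^ i * a) (hpow i)).2.2 h1 h2
        have h4 := (hQa τ₀ a a (2 ^ i * a) C₀ k k hτ hτ1 hk hk le_rfl (hpow i) y y'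
          h3.1.le h3.2.le).2
        refine h4.trans (ENNReal.ofReal_le_ofReal ?_)
        have h5 : Ca / (2 ^ i * a) = 2 * Ca * (2 ^ j * a)⁻¹ := by
          rw [hi, pow_succ]
          field_simp
        rw [h5]
        exact mul_le_mul_of_nonneg_right (by linarith) (inv_nonneg.2 (by positivity))
    refine hle.trans (le_trans ?_ (le_add_left le_rfl))
    unfold Er
    rw [indicator_of_mem hy, one_mul]
    refine le_trans ?_ (le_add_left le_rfl)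
    refine le_trans ?_ (Finset.single_le_sum (f := fun j => ENNReal.ofReal
      ((fun j => (Cb + 2 * Ca) * (2 ^ j * a)⁻¹) j) *
        ((Tb R (xi y) ((fun j => Cb * (2 ^ j * a)) j)).indicator (fun _ => (1 : ℝ≥0∞)) y' +
          (Tb R (fun i => -xi y i) ((fun j => Cb * (2 ^ j * a)) j)).indicator
            (fun _ => (1 : ℝ≥0∞)) y')) (fun _ _ => zero_le)
      (Finset.mem_range.2 (Nat.lt_succ_of_le hjJ)))
    have h6 : (1 : ℝ≥0∞) ≤
        (Tb R (xi y) (Cb * (2 ^ j * a))).indicator (fun _ => (1 : ℝ≥0∞)) y' +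
          (Tb R (fun i => -xi y i) (Cb * (2 ^ j * a))).indicator (fun _ => (1 : ℝ≥0∞)) y' := by
      rcases hfind.2 with h7 | h7
      · have h8 := (hη (2 ^ j * a) (hpow j)).1 h7
        have h9 : y' ∈ Tb R (xi y) (Cb * (2 ^ j * a)) := ⟨hy', h8⟩
        rw [indicator_of_mem h9]
        exact le_self_add
      · have h8 := (hη (2 ^ j * a) (hpow j)).2.1 h7
        have h9 : y' ∈ Tb R (fun i => -xi y i) (Cb * (2 ^ j * a)) :=
          ⟨hy', fun i => by rw [sub_neg_eq_add]; exact h8 i⟩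
        rw [indicator_of_mem h9]
        exact le_add_self
    calc ENNReal.ofReal ((Cb + 2 * Ca) * (2 ^ j * a)⁻¹)
        = ENNReal.ofReal ((Cb + 2 * Ca) * (2 ^ j * a)⁻¹) * 1 := (mul_one _).symm
      _ ≤ _ := mul_le_mul_right h6 _
  · -- crossing geodesics
    push Not at hP
    have h1 := hP J le_rfl
    have h3 := (hη (2 ^ J * a) (hpow J)).2.2 h1.1 h1.2
    have hθ0 : 0 ≤ θ := (hk'.pos.le).trans heθ
    have h4 : θ ^ 2 ≤ (2 ^ J * a) ^ 2 := pow_le_pow_left₀ hθ0 hJ 2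
    have h5 := (hQa τ₀ a ε θ C₀ k k' hτ hτ1 hk hk' hae heθ y y'
      (h4.trans h3.1.le) (h4.trans h3.2.le)).1
    refine h5.trans (add_le_add le_rfl ?_)
    unfold Er
    rw [indicator_of_mem hy, indicator_of_mem hy', one_mul, one_mul]
    exact le_self_add

lemma ch_cont (τ₀ : ℝ) : Continuous (ch τ₀) := by
  unfold ch
  exact continuous_const.max (continuous_const.sub (continuous_abs.div_const _))

lemma Cw_mono (Φ : G → ℂ) (R : ℝ) {w w' : ℝ} (h : w ≤ w') : Cw Φ R w ≤ Cw Φ R w' := by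
  unfold Cw
  refine lintegral_mono fun g => mul_le_mul_right ?_ _
  exact lintegral_mono_set fun x hx => ⟨hx.1, fun i => (hx.2 i).trans h⟩

end QM

open QM

theorem stmtQ (hR : StmtNuR) (hU : StmtUg) (hQi : StmtQi) (hQa : StmtQa) (hQb : StmtQb) :
    StmtQ := by
  intro φ hφ C₀ hC₀
  obtain ⟨Ca, hCa0, hA⟩ := hQa φ hφ
  obtain ⟨R, Cb, hR1, hCb0, hB⟩ := hQb φ hφ C₀ hC₀
  refine ⟨R, 1 + 2 * (Cb + 2 * Ca), hR1, by linarith, ?_⟩
  intro Φ hΦ hw τ₀ a ε θ k k' J hτ hτ1 hk hk' hae heθ hθ1 hJ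
  have ha : 0 < a := hk.pos
  have hch0 : ∀ x, 0 ≤ ch τ₀ x := fun x => le_max_left _ _
  have e1 := hQi Φ hΦ φ hφ k (ch τ₀) hk.meas hk.nonneg (ch_cont τ₀) hch0
  have e2 := hQi Φ hΦ φ hφ k' (ch τ₀) hk'.meas hk'.nonneg (ch_cont τ₀) hch0
  set c₀ : ℝ := Ca * ε / (θ ^ 2 * τ₀) with hc₀
  set c : ℕ → ℝ := fun j => (Cb + 2 * Ca) * (2 ^ j * a)⁻¹ with hc
  set D : ℕ → ℝ := fun j => Cb * (2 ^ j * a) with hD
  have hm : Measurable fun g => ‖Φ g‖ₑ ^ 2 := hΦ.measurable.enorm.pow_const 2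
  obtain ⟨ho1, ho2⟩ := outer Φ hΦ R c₀ c D J
  have hstep : Aw Φ φ k (ch τ₀) ≤ Aw Φ φ k' (ch τ₀) + (ENNReal.ofReal c₀ * ms Φ (Om R) ^ 2 +
      ∑ j ∈ Finset.range (J + 1), ENNReal.ofReal (c j) * (2 * Cw Φ R (D j))) := by
    rw [e1, e2, ← ho2, ← lintegral_add_right _ ho1]
    refine lintegral_mono fun y => ?_
    change _ ≤ (∫⁻ y', ‖Φ y‖ₑ ^ 2 * ‖Φ y'‖ₑ ^ 2 * Ik φ k' (ch τ₀) y y' ∂nu) + _
    have hE : Measurable fun y' => ‖Φ y‖ₑ ^ 2 * ‖Φ y'‖ₑ ^ 2 * Er R c₀ c D J y y' :=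
      (hm.const_mul _).mul (meas_Er R c₀ c D J y)
    rw [← inner hR hU Φ hΦ hw R c₀ c D J y, ← lintegral_add_right _ hE]
    refine lintegral_mono fun y' => ?_
    change _ ≤ ‖Φ y‖ₑ ^ 2 * ‖Φ y'‖ₑ ^ 2 * Ik φ k' (ch τ₀) y y' +
      ‖Φ y‖ₑ ^ 2 * ‖Φ y'‖ₑ ^ 2 * Er R c₀ c D J y y'
    rw [← mul_add]
    exact mul_le_mul_right (point hCa0 hCb0 hA hB hτ hτ1 hk hk' hae heθ hθ1 hJ y y') _
  refine hstep.trans ?_
  rw [← add_assoc]
  have hθ0 : 0 < θ := hk'.pos.trans_le heθ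
  refine add_le_add (add_le_add le_rfl (mul_le_mul_left ?_ _)) ?_
  · refine ENNReal.ofReal_le_ofReal (div_le_div_of_nonneg_right ?_ (by positivity))
    exact mul_le_mul_of_nonneg_right (by linarith) hk'.pos.le
  · rw [Finset.mul_sum]
    refine Finset.sum_le_sum fun j _ => ?_
    have h2j : 0 < (2 : ℝ) ^ j * a := by positivity
    have h1 : Cw Φ R (D j) ≤ Cw Φ R ((1 + 2 * (Cb + 2 * Ca)) * (2 ^ j * a)) := by
      refine Cw_mono Φ R ?_
      exact mul_le_mul_of_nonneg_right (by linarith) h2j.le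
    have h2 : ENNReal.ofReal (c j) * 2 ≤
        ENNReal.ofReal (1 + 2 * (Cb + 2 * Ca)) * ENNReal.ofReal ((2 ^ j * a)⁻¹) := by
      rw [← ENNReal.ofReal_mul (by linarith), show (2 : ℝ≥0∞) = ENNReal.ofReal 2 by norm_num,
        ← ENNReal.ofReal_mul (by rw [hc]; positivity)]
      refine ENNReal.ofReal_le_ofReal ?_
      rw [hc]
      change (Cb + 2 * Ca) * (2 ^ j * a)⁻¹ * 2 ≤ _
      have h3 : 0 ≤ ((2 : ℝ) ^ j * a)⁻¹ := inv_nonneg.2 h2j.le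
      nlinarith
    calc ENNReal.ofReal (c j) * (2 * Cw Φ R (D j))
        = ENNReal.ofReal (c j) * 2 * Cw Φ R (D j) := (mul_assoc _ _ _).symm
      _ ≤ ENNReal.ofReal (1 + 2 * (Cb + 2 * Ca)) * ENNReal.ofReal ((2 ^ j * a)⁻¹) *
          Cw Φ R ((1 + 2 * (Cb + 2 * Ca)) * (2 ^ j * a)) := mul_le_mul' h2 h1
      _ = _ := mul_assoc _ _ _

end

end Pool.Agent.A54.Hp
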