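import Pool.Agent.Lib.MP_a54f13_nt.Hp.SpecN

/-!
# Package `Hp`, part N: returns, double counting
-/

set_option autoImplicit false

namespace Pool.Agent.A54.Hp

open MeasureTheory Filter Topology Set
open scoped ContDiff ComplexConjugate UpperHalfPlane MatrixGroups ENNReal
open Pool.Agent.A54.Dyn (G)
open Pool.Agent.A54.Av (Mat)

noncomputable section

namespace RtAN

instance instCountableMat : Countable Mat := inferInstanceAs (Countable (Fin 2 → Fin 2 → ℤ))

/-- the set of matrices in the definition of `rr` -/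
def TT (M : ℝ) (b : Set G) (x y : G) : Set Mat :=
  {s : Mat | (∃ p ∈ Pm M, ∃ q ∈ Pm M, s.det = ((p * q : ℕ) : ℤ)) ∧ y⁻¹ * (nm s * x) ∈ b}

/-- the translate `z b⁻¹` -/
def zb (b : Set G) (z : G) : Set G := {y | y⁻¹ * z ∈ b}

lemma zb_open {b : Set G} (hb : IsOpen b) (z : G) : IsOpen (zb b z) :=
  hb.preimage (continuous_inv.mul continuous_const)

lemma nu_zb [nu.IsMulRightInvariant] [nu.IsInvInvariant] (b : Set G) (z : G) :
    nu (zb b z) = nu b := by
  have h1 : zb b z = Inv.inv ⁻¹' ((fun u => u * z) ⁻¹' b) := rfl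
  rw [h1, Measure.measure_preimage_inv, measure_preimage_mul_right]

lemma zb_sub {V b : Set G} {z : G} (hz : z ∈ V) : zb b z ⊆ Vb V b := by
  intro y hy
  exact ⟨y⁻¹ * z, hy, by rwa [mul_inv_cancel_left]⟩

end RtAN

open RtAN

theorem stmtRtA (hL : StmtNuL) (hR : StmtNuR) : StmtRtA := by
  obtain ⟨i1, i2, i3, -, -⟩ := hL
  obtain ⟨i4, i5⟩ := hR
  intro M V b _ hb x
  have hm : ∀ s : Mat, Measurable fun y : G => (TT M b x y).indicator (fun _ => (1 : ℝ≥0∞)) s := by
    intro s
    by_cases hD : ∃ p ∈ Pm M, ∃ q ∈ Pm M, s.det = ((p * q : ℕ) : ℤ)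
    · have h1 : (fun y : G => (TT M b x y).indicator (fun _ => (1 : ℝ≥0∞)) s) =
          (zb b (nm s * x)).indicator (fun _ => (1 : ℝ≥0∞)) := by
        funext y
        by_cases hy : y⁻¹ * (nm s * x) ∈ b
        · have h2 : s ∈ TT M b x y := ⟨hD, hy⟩
          have h3 : y ∈ zb b (nm s * x) := hy
          rw [indicator_of_mem h2, indicator_of_mem h3]
        · have h2 : s ∉ TT M b x y := fun h => hy h.2
          have h3 : y ∉ zb b (nm s * x) := hy
          rw [indicator_of_notMem h2, indicator_of_notMem h3]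
      rw [h1]
      exact measurable_const.indicator (zb_open hb _).measurableSet
    · have h1 : (fun y : G => (TT M b x y).indicator (fun _ => (1 : ℝ≥0∞)) s) = fun _ => 0 := by
        funext y
        have h2 : s ∉ TT M b x y := fun h => hD h.1
        rw [indicator_of_notMem h2]
      rw [h1]
      exact measurable_const
  have hr : ∀ y : G, rr M b x y = ∑' s : Mat, (TT M b x y).indicator (fun _ => (1 : ℝ≥0∞)) s :=
    fun y => rfl
  rw [lintegral_congr hr, lintegral_tsum fun s => (hm s).aemeasurable]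
  unfold nS
  rw [← ENNReal.tsum_mul_right]
  refine ENNReal.tsum_le_tsum fun s => ?_
  by_cases hs : s ∈ Sx M V x
  · rw [indicator_of_mem hs, one_mul, ← nu_zb b (nm s * x)]
    calc nu (zb b (nm s * x)) = ∫⁻ y in zb b (nm s * x), 1 ∂nu := by rw [setLIntegral_one]
      _ ≤ ∫⁻ y in zb b (nm s * x), (TT M b x y).indicator (fun _ => (1 : ℝ≥0∞)) s ∂nu := by
          refine setLIntegral_mono (hm s) fun y hy => ?_
          have h2 : s ∈ TT M b x y := ⟨hs.1, hy⟩
          rw [indicator_of_mem h2]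
      _ ≤ _ := lintegral_mono_set (zb_sub hs.2)
  · rw [indicator_of_notMem hs, zero_mul]
    exact bot_le

end

end Pool.Agent.A54.Hp
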