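import Pool.Agent.Lib.MP_a54f13_nt.Hp.SpecL
import Pool.Agent.Lib.MP_a54f13_nt.Hp.RtA

/-!
# Package `Hp`, part L: returns, double counting
-/

set_option autoImplicit false

namespace Pool.Agent.A54.Hp

open MeasureTheory Filter Topology Set
open scoped ContDiff ComplexConjugate UpperHalfPlane MatrixGroups ENNReal
open Pool.Agent.A54.Dyn (G)
open Pool.Agent.A54.Av (Mat)

noncomputable section

namespace RLL

/-- the set of matrices in the definition of `rL` -/
def TT (B Y : ℝ) (b : Set G) (x y : G) : Set Mat := {s : Mat | s ∈ Ds B Y ∧ y⁻¹ * (nm s * x) ∈ b}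

/-- the set of matrices in the definition of `NS` -/
def SS (B Y : ℝ) (V : Set G) (x : G) : Set Mat := {s : Mat | s ∈ Ds B Y ∧ nm s * x ∈ V}

end RLL

open RLL RtAN

theorem stmtRL (hL : StmtNuL) (hR : StmtNuR) : StmtRL := by
  obtain ⟨i1, i2, i3, -, -⟩ := hL
  obtain ⟨i4, i5⟩ := hR
  intro B Y V b _ hb x
  have hm : ∀ s : Mat, Measurable fun y : G =>
      (RLL.TT B Y b x y).indicator (fun _ => (1 : ℝ≥0∞)) s := by
    intro s
    by_cases hD : s ∈ Ds B Y
    · have h1 : (fun y : G => (RLL.TT B Y b x y).indicator (fun _ => (1 : ℝ≥0∞)) s) =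
          (zb b (nm s * x)).indicator (fun _ => (1 : ℝ≥0∞)) := by
        funext y
        by_cases hy : y⁻¹ * (nm s * x) ∈ b
        · have h2 : s ∈ RLL.TT B Y b x y := ⟨hD, hy⟩
          have h3 : y ∈ zb b (nm s * x) := hy
          rw [indicator_of_mem h2, indicator_of_mem h3]
        · have h2 : s ∉ RLL.TT B Y b x y := fun h => hy h.2
          have h3 : y ∉ zb b (nm s * x) := hy
          rw [indicator_of_notMem h2, indicator_of_notMem h3]
      rw [h1]
      exact measurable_const.indicator (zb_open hb _).measurableSet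
    · have h1 : (fun y : G => (RLL.TT B Y b x y).indicator (fun _ => (1 : ℝ≥0∞)) s) =
          fun _ => 0 := by
        funext y
        have h2 : s ∉ RLL.TT B Y b x y := fun h => hD h.1
        rw [indicator_of_notMem h2]
      rw [h1]
      exact measurable_const
  have hr : ∀ y : G, rL B Y b x y =
      ∑' s : Mat, (RLL.TT B Y b x y).indicator (fun _ => (1 : ℝ≥0∞)) s := fun y => rfl
  have hn : NS B Y V x = ∑' s : Mat, (SS B Y V x).indicator (fun _ => (1 : ℝ≥0∞)) s := rfl
  rw [lintegral_congr hr, lintegral_tsum fun s => (hm s).aemeasurable, hn,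
    ← ENNReal.tsum_mul_right]
  refine ENNReal.tsum_le_tsum fun s => ?_
  by_cases hs : s ∈ SS B Y V x
  · rw [indicator_of_mem hs, one_mul, ← nu_zb b (nm s * x)]
    calc nu (zb b (nm s * x)) = ∫⁻ y in zb b (nm s * x), 1 ∂nu := by rw [setLIntegral_one]
      _ ≤ ∫⁻ y in zb b (nm s * x), (RLL.TT B Y b x y).indicator (fun _ => (1 : ℝ≥0∞)) s ∂nu := by
          refine setLIntegral_mono (hm s) fun y hy => ?_
          have h2 : s ∈ RLL.TT B Y b x y := ⟨hs.1, hy⟩
          rw [indicator_of_mem h2]
      _ ≤ _ := lintegral_mono_set (zb_sub hs.2)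
  · rw [indicator_of_notMem hs, zero_mul]
    exact bot_le

end

end Pool.Agent.A54.Hp
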