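import Pool.Agent.Lib.MP_a54f13_nt.Hp.SpecN

/-!
# Package `Hp`, module `Ret`: the number of returns

`stmtRet : StmtRet`, from the statements `RtA`, `RtB`, `SpB`, `Cz`, `Vol`.
-/

set_option autoImplicit false

namespace Pool.Agent.A54.Hp

open MeasureTheory Filter Topology Set
open scoped ContDiff ComplexConjugate UpperHalfPlane MatrixGroups ENNReal
open Pool.Agent.A54.Dyn (G fl base ze io mk4 dom)
open Pool.Agent.A54.Av (Mat NonSc)

noncomputable section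

namespace RetN

/-- `V b⁻¹` is open if `V` is -/
lemma isOpen_Vb {V : Set G} (b : Set G) (hV : IsOpen V) : IsOpen (Vb V b) := by
  have h : Vb V b = ⋃ β ∈ b, (fun x : G => x * β) ⁻¹' V := by
    ext x
    constructor
    · rintro ⟨β, hβ, hx⟩
      exact mem_iUnion₂.mpr ⟨β, hβ, hx⟩
    · intro hx
      obtain ⟨β, hβ, hx⟩ := mem_iUnion₂.mp hx
      exact ⟨β, hβ, hx⟩
  rw [h]
  exact isOpen_biUnion fun β _ => hV.preimage (continuous_mul_const β)

/-- monotonicity of the cusp set -/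
lemma Zc_mono {R R' η η' K K' : ℝ} {x : G} (hx : x ∈ Om R) (hη : η' ≤ η) (hK : K' ≤ K)
    (h : x ∈ Zc R' η' K') : x ∈ Zc R η K := by
  obtain ⟨-, u, hu, h⟩ := h
  refine ⟨hx, u, hu, ?_⟩
  rcases h with ⟨h1, h2⟩ | ⟨h1, h2⟩
  · exact Or.inl ⟨h1.trans hη, h2.trans hK⟩
  · exact Or.inr ⟨h1.trans hη, h2.trans hK⟩

end RetN

open RetN

/-- **Ret**: the number of returns -/
theorem stmtRet (hA : StmtRtA) (hB : StmtRtB) (hS : StmtSpB) (hC : StmtCz) (hV : StmtVol) : StmtRet := by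
  intro R c hR hc hc2
  have hR8 : (1 : ℝ) ≤ 8 * R := by linarith
  obtain ⟨C₁, hC₁, hB⟩ := hB (8 * R) hR8
  obtain ⟨C₂, hC₂, hS⟩ := hS (8 * R) hR8
  obtain ⟨c', hc', hV⟩ := hV.2.1 c hc hc2
  have hcc : 0 < c' * c ^ 2 := by positivity
  set D : ℝ := C₁ * C₂ / (c' * c ^ 2) with hD
  have hD0 : 0 ≤ D := by positivity
  have hC12 : C₁ ≤ C₁ * C₂ := le_mul_of_one_le_right (by linarith) hC₂
  refine ⟨16 * R + C₂ + D, by linarith, ?_⟩
  intro w M hw hw1 hM hMw hCM V hVo hVR hVb hbo x hx hxZ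
  set b : Set G := bt c (c * w) with hb
  have hM0 : 0 < M := by linarith
  have hMw0 : 0 < M * w := by positivity
  have hxR : x ∈ Om R := hVR hx
  have hx8 : x ∈ Om (8 * R) := fun i j => (hxR i j).trans (by linarith)
  have hε0 : 0 < 1 / M := by positivity
  have hεK : 1 / M ≤ 1 / (M * w) := one_div_le_one_div_of_le hMw0 (mul_le_of_le_one_right hM0.le hw1)
  have hK1 : 1 ≤ 1 / (M * w) := by rw [le_div_iff₀ hMw0]; linarith
  have hCK : C₂ * (1 / M * (1 / (M * w))) ≤ 1 := by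
    have h1 : C₂ * (1 / M * (1 / (M * w))) = C₂ / (M ^ 2 * w) := by field_simp
    rw [h1, div_le_one (by positivity)]
    linarith
  obtain ⟨hSm, hSn⟩ := hS x hx8 (1 / M) (1 / (M * w)) hε0 hεK hK1 hCK
  set S : Set G := Sp (8 * R) (1 / M) (1 / (M * w)) x with hSd
  have hcw : 0 < c * w := by positivity
  have hcw1 : c * w ≤ 1 := by nlinarith
  have hmeas : MeasurableSet (Vb V b) := (isOpen_Vb b hVo).measurableSet
  -- pointwise bound
  have hpt : ∀ y ∈ Vb V b, rr M b x y ≤ ENNReal.ofReal (C₁ * (M ^ 4 * w ^ 2)) +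
      S.indicator (fun _ => ENNReal.ofReal (C₁ * M ^ 2)) y := by
    intro y hy
    have hy8 : y ∈ Om (8 * R) := hVb hy
    obtain ⟨h1, h2⟩ := hB c w M hc hc2 hw hw1 hM hMw x hx8 y hy8
    by_cases hyS : y ∈ S
    · rw [indicator_of_mem hyS]
      exact h1.trans le_add_self
    · rw [indicator_of_notMem hyS, add_zero]
      refine h2 fun n hn => ?_
      by_contra hne
      by_cases hdet : n.det = 0
      · have h3 := hC (8 * R) hR8 x hx8 y hy8 M w hM hw hw1 n hne hdet hn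
        refine hxZ (Zc_mono hxR ?_ ?_ h3)
        · exact div_le_div_of_nonneg_right (by linarith) hM0.le
        · exact div_le_div_of_nonneg_right (by linarith) hMw0.le
      · exact hyS ⟨hy8, n, hdet, hn⟩
  -- integrate
  have hint : ∫⁻ y in Vb V b, rr M b x y ∂nu ≤
      ENNReal.ofReal (C₁ * (M ^ 4 * w ^ 2)) * nu (Vb V b) +
        ENNReal.ofReal (C₁ * M ^ 2) * ENNReal.ofReal (C₂ * ((1 / M) ^ 2 * (1 / (M * w)) ^ 4)) := by
    calc ∫⁻ y in Vb V b, rr M b x y ∂nu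
        ≤ ∫⁻ y in Vb V b, (ENNReal.ofReal (C₁ * (M ^ 4 * w ^ 2)) +
            S.indicator (fun _ => ENNReal.ofReal (C₁ * M ^ 2)) y) ∂nu := setLIntegral_mono' hmeas hpt
      _ = ENNReal.ofReal (C₁ * (M ^ 4 * w ^ 2)) * nu (Vb V b) +
            ∫⁻ y in Vb V b, S.indicator (fun _ => ENNReal.ofReal (C₁ * M ^ 2)) y ∂nu := by
          rw [lintegral_add_left measurable_const, setLIntegral_const]
      _ ≤ ENNReal.ofReal (C₁ * (M ^ 4 * w ^ 2)) * nu (Vb V b) +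
            ∫⁻ y, S.indicator (fun _ => ENNReal.ofReal (C₁ * M ^ 2)) y ∂nu := by
          gcongr
          exact Measure.restrict_le_self
      _ = ENNReal.ofReal (C₁ * (M ^ 4 * w ^ 2)) * nu (Vb V b) +
            ENNReal.ofReal (C₁ * M ^ 2) * nu S := by
          rw [lintegral_indicator_const hSm]
      _ ≤ _ := by gcongr
  have hmain := (hA M V b hVo hbo x).trans hint
  -- divide by the volume of `b`
  have hvol := hV (c * w) hcw hcw1
  have ha : 0 < c' * (c * w) ^ 2 := by positivity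
  set a : ℝ := c' * (c * w) ^ 2 with had
  have h5 : nS M V x * ENNReal.ofReal a ≤ ENNReal.ofReal (C₁ * (M ^ 4 * w ^ 2)) * nu (Vb V b) +
        ENNReal.ofReal (C₁ * M ^ 2) * ENNReal.ofReal (C₂ * ((1 / M) ^ 2 * (1 / (M * w)) ^ 4)) := by
    refine le_trans ?_ hmain
    gcongr
  have h6 : nS M V x = nS M V x * ENNReal.ofReal a * ENNReal.ofReal a⁻¹ := by
    rw [mul_assoc, ← ENNReal.ofReal_mul ha.le, mul_inv_cancel₀ ha.ne', ENNReal.ofReal_one, mul_one]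
  have e1 : C₁ * (M ^ 4 * w ^ 2) * a⁻¹ = C₁ / (c' * c ^ 2) * M ^ 4 := by
    rw [had]; field_simp
  have e2 : C₁ * M ^ 2 * (C₂ * ((1 / M) ^ 2 * (1 / (M * w)) ^ 4)) * a⁻¹ =
      D * (M ^ (-(4 : ℝ)) * w ^ (-(6 : ℝ))) := by
    have h7 : M ^ (-(4 : ℝ)) = (M ^ 4)⁻¹ := by
      rw [Real.rpow_neg hM0.le]; norm_cast
    have h8 : w ^ (-(6 : ℝ)) = (w ^ 6)⁻¹ := by
      rw [Real.rpow_neg hw.le]; norm_cast
    rw [h7, h8, had, hD]; field_simp
  have hD1 : C₁ / (c' * c ^ 2) ≤ D := div_le_div_of_nonneg_right hC12 hcc.le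
  have hR0 : (0 : ℝ) ≤ 16 * R + C₂ := by linarith
  rw [h6]
  calc nS M V x * ENNReal.ofReal a * ENNReal.ofReal a⁻¹
      ≤ (ENNReal.ofReal (C₁ * (M ^ 4 * w ^ 2)) * nu (Vb V b) +
        ENNReal.ofReal (C₁ * M ^ 2) * ENNReal.ofReal (C₂ * ((1 / M) ^ 2 * (1 / (M * w)) ^ 4))) *
          ENNReal.ofReal a⁻¹ := by gcongr
    _ = ENNReal.ofReal (C₁ * (M ^ 4 * w ^ 2) * a⁻¹) * nu (Vb V b) +
          ENNReal.ofReal (C₁ * M ^ 2 * (C₂ * ((1 / M) ^ 2 * (1 / (M * w)) ^ 4)) * a⁻¹) := by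
        rw [ENNReal.ofReal_mul (by positivity : 0 ≤ C₁ * (M ^ 4 * w ^ 2)),
          ENNReal.ofReal_mul (by positivity : 0 ≤ C₁ * M ^ 2 * (C₂ * ((1 / M) ^ 2 * (1 / (M * w)) ^ 4))),
          ENNReal.ofReal_mul (by positivity : 0 ≤ C₁ * M ^ 2)]
        ring
    _ = ENNReal.ofReal (C₁ / (c' * c ^ 2) * M ^ 4) * nu (Vb V b) +
          ENNReal.ofReal (D * (M ^ (-(4 : ℝ)) * w ^ (-(6 : ℝ)))) := by rw [e1, e2]
    _ = ENNReal.ofReal (C₁ / (c' * c ^ 2)) * (ENNReal.ofReal (M ^ 4) * nu (Vb V b)) +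
          ENNReal.ofReal D * ENNReal.ofReal (M ^ (-(4 : ℝ)) * w ^ (-(6 : ℝ))) := by
        rw [ENNReal.ofReal_mul (by positivity : 0 ≤ C₁ / (c' * c ^ 2)), ENNReal.ofReal_mul hD0, mul_assoc]
    _ ≤ ENNReal.ofReal (16 * R + C₂ + D) * (ENNReal.ofReal (M ^ 4) * nu (Vb V b)) +
          ENNReal.ofReal (16 * R + C₂ + D) * ENNReal.ofReal (M ^ (-(4 : ℝ)) * w ^ (-(6 : ℝ))) := by
        gcongr <;> linarith
    _ = _ := by rw [mul_add]

end

end Pool.Agent.A54.Hp
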