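import Pool.Agent.Lib.MP_a54f13_nt.Hp.SpecN

/-!
# Package `Hp`, part N, module `Sl`: slicing the Haar measure with unipotent elements
-/

set_option autoImplicit false

namespace Pool.Agent.A54.Hp

open MeasureTheory Filter Topology Set
open scoped ContDiff ComplexConjugate UpperHalfPlane MatrixGroups ENNReal
open Pool.Agent.A54.Dyn (G fl base ze io mk4 dom)
open Pool.Agent.A54.Av (Mat NonSc)

noncomputable section

namespace SlN

/-- slicing with a continuous family of right translations -/
lemma slice [SigmaFinite nu] [nu.IsMulRightInvariant] (u : ℝ → G) (hu : Continuous u)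
    (S S' : Set G) (lam : ℝ≥0∞) (hS : MeasurableSet S) (hS' : MeasurableSet S')
    (h1 : ∀ t ∈ Icc (0 : ℝ) 1, ∀ y : G, y * u t ∈ S → y ∈ S')
    (h2 : ∀ y : G, volume {t | t ∈ Icc (0 : ℝ) 1 ∧ y * u t ∈ S} ≤ lam) : nu S ≤ lam * nu S' := by
  have hm : Continuous (fun p : ℝ × G => p.2 * u p.1) :=
    continuous_snd.mul (hu.comp continuous_fst)
  have hm' : Measurable (fun p : ℝ × G => S.indicator (fun _ => (1 : ℝ≥0∞)) (p.2 * u p.1)) :=
    (measurable_const.indicator hS).comp hm.measurable
  have e1 : ∀ t : ℝ, nu S = ∫⁻ y, S.indicator (fun _ => (1 : ℝ≥0∞)) (y * u t) ∂nu := by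
    intro t
    have h3 : Measurable (fun y : G => y * u t) := (continuous_mul_const (u t)).measurable
    have h4 : (fun y : G => S.indicator (fun _ => (1 : ℝ≥0∞)) (y * u t)) =
        ((fun y : G => y * u t) ⁻¹' S).indicator (fun _ => (1 : ℝ≥0∞)) := by
      funext y
      rfl
    rw [h4, lintegral_indicator (h3 hS), setLIntegral_one, measure_preimage_mul_right]
  have e2 : nu S = ∫⁻ _t in Icc (0 : ℝ) 1, nu S := by
    rw [setLIntegral_const, Real.volume_Icc]
    simp
  calc nu S = ∫⁻ _t in Icc (0 : ℝ) 1, nu S := e2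
    _ = ∫⁻ t in Icc (0 : ℝ) 1, ∫⁻ y, S.indicator (fun _ => (1 : ℝ≥0∞)) (y * u t) ∂nu :=
        lintegral_congr fun t => e1 t
    _ = ∫⁻ y, (∫⁻ t in Icc (0 : ℝ) 1, S.indicator (fun _ => (1 : ℝ≥0∞)) (y * u t)) ∂nu :=
        lintegral_lintegral_swap hm'.aemeasurable
    _ ≤ ∫⁻ y, S'.indicator (fun _ => lam) y ∂nu := by
        refine lintegral_mono fun y => ?_
        have h5 : Measurable (fun t : ℝ => y * u t) := (continuous_const.mul hu).measurable
        have h6 : (fun t : ℝ => S.indicator (fun _ => (1 : ℝ≥0∞)) (y * u t)) =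
            ((fun t : ℝ => y * u t) ⁻¹' S).indicator (fun _ => (1 : ℝ≥0∞)) := by
          funext t
          rfl
        have h7 : ∫⁻ t in Icc (0 : ℝ) 1, S.indicator (fun _ => (1 : ℝ≥0∞)) (y * u t) =
            volume {t | t ∈ Icc (0 : ℝ) 1 ∧ y * u t ∈ S} := by
          rw [h6, lintegral_indicator (h5 hS), setLIntegral_one, Measure.restrict_apply (h5 hS)]
          congr 1
          ext t
          simp only [mem_inter_iff, mem_preimage, mem_ofPred_eq]
          exact and_comm
        show ∫⁻ t in Icc (0 : ℝ) 1, S.indicator (fun _ => (1 : ℝ≥0∞)) (y * u t) ≤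
          S'.indicator (fun _ => lam) y
        rw [h7]
        by_cases hy : y ∈ S'
        · rw [indicator_of_mem hy]
          exact h2 y
        · rw [indicator_of_notMem hy]
          have h8 : {t | t ∈ Icc (0 : ℝ) 1 ∧ y * u t ∈ S} = ∅ := by
            ext t
            simp only [mem_ofPred_eq, mem_empty_iff_false, iff_false]
            rintro ⟨h9, h10⟩
            exact hy (h1 t h9 y h10)
          rw [h8, measure_empty]
    _ = lam * nu S' := by rw [lintegral_indicator hS', setLIntegral_const]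

lemma cont_up : Continuous (fun t : ℝ => mk4 1 t 0 1 (by ring)) := by
  refine Continuous.subtype_mk ?_ _
  refine continuous_matrix fun i j => ?_
  fin_cases i <;> fin_cases j <;> simp <;> fun_prop

lemma cont_lo : Continuous (fun t : ℝ => mk4 1 0 t 1 (by ring)) := by
  refine Continuous.subtype_mk ?_ _
  refine continuous_matrix fun i j => ?_
  fin_cases i <;> fin_cases j <;> simp <;> fun_prop

end SlN

theorem stmtSl (hR : StmtNuR) : StmtSl := by
  intro hσ S S' lam hS hS'
  have := hR.1
  exact ⟨fun h1 h2 => SlN.slice _ SlN.cont_up S S' lam hS hS' h1 h2,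
    fun h1 h2 => SlN.slice _ SlN.cont_lo S S' lam hS hS' h1 h2⟩

end

end Pool.Agent.A54.Hp
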