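import Pool.Agent.Lib.MP_a54f13_nt.Hp.SpecN

/-!
# Package `Hp`, part N, module `SpA`: the measure of one special set
-/

set_option autoImplicit false

namespace Pool.Agent.A54.Hp

open MeasureTheory Filter Topology Set
open scoped ContDiff ComplexConjugate UpperHalfPlane MatrixGroups ENNReal
open Pool.Agent.A54.Dyn (G fl base ze io mk4 dom)
open Pool.Agent.A54.Av (Mat NonSc)

namespace SpAN

/-- volume of a slice -/
theorem vol_slice (a b e c : ℝ) (he : 0 ≤ e) (hb : 1 ≤ c * |b|) :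
    volume {t : ℝ | |a + t * b| ≤ e} ≤ ENNReal.ofReal (2 * e * c) := by
  have hb0 : b ≠ 0 := by
    intro h
    rw [h, abs_zero, mul_zero] at hb
    linarith
  have hbp : 0 < |b| := abs_pos.mpr hb0
  have hsub : {t : ℝ | |a + t * b| ≤ e} ⊆ Metric.closedBall (-a / b) (e * c) := by
    intro t ht
    rw [Metric.mem_closedBall, Real.dist_eq]
    have h1 : t - -a / b = (a + t * b) / b := by
      field_simp
      ring
    rw [h1, abs_div, div_le_iff₀ hbp]
    have ht' : |a + t * b| ≤ e := ht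
    calc |a + t * b| ≤ e := ht'
      _ = e * 1 := by ring
      _ ≤ e * (c * |b|) := mul_le_mul_of_nonneg_left hb he
      _ = e * c * |b| := by ring
  calc volume {t : ℝ | |a + t * b| ≤ e} ≤ volume (Metric.closedBall (-a / b) (e * c)) :=
        measure_mono hsub
    _ = ENNReal.ofReal (2 * (e * c)) := Real.volume_closedBall _ _
    _ = ENNReal.ofReal (2 * e * c) := by rw [mul_assoc]

/-- entries of a row from the products with the two columns -/
theorem row_le {p q a b c d R u v : ℝ} (hdet : a * d - b * c = 1) (hR : 0 ≤ R)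
    (ha : |a| ≤ R) (hb : |b| ≤ R) (hc : |c| ≤ R) (hd : |d| ≤ R)
    (h1 : |p * a + q * c| ≤ u) (h2 : |p * b + q * d| ≤ v) :
    |p| ≤ R * (u + v) ∧ |q| ≤ R * (u + v) := by
  have hu : 0 ≤ u := (abs_nonneg _).trans h1
  have hv : 0 ≤ v := (abs_nonneg _).trans h2
  have key : ∀ s t X Y : ℝ, |s| ≤ R → |t| ≤ R → |X| ≤ u → |Y| ≤ v → |X * s + Y * t| ≤ R * (u + v) := by
    intro s t X Y hs ht hX hY
    calc |X * s + Y * t| ≤ |X * s| + |Y * t| := abs_add_le _ _
      _ = |X| * |s| + |Y| * |t| := by rw [abs_mul, abs_mul]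
      _ ≤ u * R + v * R := add_le_add (mul_le_mul hX hs (abs_nonneg _) hu)
          (mul_le_mul hY ht (abs_nonneg _) hv)
      _ = R * (u + v) := by ring
  constructor
  · have e : p = (p * a + q * c) * d + (p * b + q * d) * (-c) := by
      have : (p * a + q * c) * d + (p * b + q * d) * (-c) = p * (a * d - b * c) := by ring
      rw [this, hdet, mul_one]
    rw [e]
    exact key d (-c) _ _ hd (by rwa [abs_neg]) h1 h2
  · have e : q = (p * a + q * c) * (-b) + (p * b + q * d) * a := by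
      have : (p * a + q * c) * (-b) + (p * b + q * d) * a = q * (a * d - b * c) := by ring
      rw [this, hdet, mul_one]
    rw [e]
    exact key (-b) a _ _ (by rwa [abs_neg]) ha h1 h2

/-- step 1: the second product is not small -/
theorem step1 {p q r s a b c d R ε K ρ : ℝ} (hdet : a * d - b * c = 1) (hR : 1 ≤ R)
    (hD : 1 ≤ |p * s - q * r|) (hb : |b| ≤ R) (hd : |d| ≤ R)
    (hp : |p| ≤ ρ) (hq : |q| ≤ ρ) (hr : |r| ≤ R * (2 * K)) (hs : |s| ≤ R * (2 * K))
    (h1 : |p * a + q * c| ≤ ε) (hεK : 8 * R ^ 2 * (ε * K) ≤ 1) :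
    1 ≤ 4 * R * ρ * |r * a + s * c| := by
  have hε : 0 ≤ ε := (abs_nonneg _).trans h1
  have hρ : 0 ≤ ρ := (abs_nonneg _).trans hp
  have hR0 : 0 ≤ R := by linarith
  have hRK : 0 ≤ R * (2 * K) := (abs_nonneg _).trans hr
  set Z := |r * a + s * c| with hZ
  have hZ0 : 0 ≤ Z := abs_nonneg _
  have ha' : |a| ≤ ε * (R * (2 * K)) + Z * ρ := by
    have e : (p * s - q * r) * a = (p * a + q * c) * s + (r * a + s * c) * (-q) := by ring
    calc |a| = 1 * |a| := by ring
      _ ≤ |p * s - q * r| * |a| := mul_le_mul_of_nonneg_right hD (abs_nonneg _)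
      _ = |(p * a + q * c) * s + (r * a + s * c) * (-q)| := by rw [← abs_mul, e]
      _ ≤ |(p * a + q * c) * s| + |(r * a + s * c) * (-q)| := abs_add_le _ _
      _ = |p * a + q * c| * |s| + Z * |q| := by rw [abs_mul, abs_mul, abs_neg]
      _ ≤ ε * (R * (2 * K)) + Z * ρ := add_le_add (mul_le_mul h1 hs (abs_nonneg _) hε)
          (mul_le_mul_of_nonneg_left hq hZ0)
  have hc' : |c| ≤ ε * (R * (2 * K)) + Z * ρ := by
    have e : (p * s - q * r) * c = (p * a + q * c) * (-r) + (r * a + s * c) * p := by ring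
    calc |c| = 1 * |c| := by ring
      _ ≤ |p * s - q * r| * |c| := mul_le_mul_of_nonneg_right hD (abs_nonneg _)
      _ = |(p * a + q * c) * (-r) + (r * a + s * c) * p| := by rw [← abs_mul, e]
      _ ≤ |(p * a + q * c) * (-r)| + |(r * a + s * c) * p| := abs_add_le _ _
      _ = |p * a + q * c| * |r| + Z * |p| := by rw [abs_mul, abs_mul, abs_neg]
      _ ≤ ε * (R * (2 * K)) + Z * ρ := add_le_add (mul_le_mul h1 hr (abs_nonneg _) hε)
          (mul_le_mul_of_nonneg_left hp hZ0)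
  have hone : 1 ≤ |a| * R + R * |c| := by
    calc (1 : ℝ) = |a * d - b * c| := by rw [hdet, abs_one]
      _ ≤ |a * d| + |b * c| := abs_sub _ _
      _ = |a| * |d| + |b| * |c| := by rw [abs_mul, abs_mul]
      _ ≤ |a| * R + R * |c| := add_le_add (mul_le_mul_of_nonneg_left hd (abs_nonneg _))
          (mul_le_mul_of_nonneg_right hb (abs_nonneg _))
  have h3 : |a| * R + R * |c| ≤ R * (2 * (ε * (R * (2 * K)) + Z * ρ)) := by
    have := mul_le_mul_of_nonneg_left (add_le_add ha' hc') hR0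
    nlinarith
  have h4 : R * (2 * (ε * (R * (2 * K)) + Z * ρ)) = (8 * R ^ 2 * (ε * K)) / 2 + 2 * R * ρ * Z := by ring
  have h5 : 1 ≤ 1 / 2 + 2 * R * ρ * Z := by
    calc (1 : ℝ) ≤ R * (2 * (ε * (R * (2 * K)) + Z * ρ)) := hone.trans h3
      _ = (8 * R ^ 2 * (ε * K)) / 2 + 2 * R * ρ * Z := h4
      _ ≤ 1 / 2 + 2 * R * ρ * Z := by linarith
  have h6 : 4 * R * ρ * Z = 2 * (2 * R * ρ * Z) := by ring
  rw [h6]
  linarith

/-- step 2: the second product of the first row is not small -/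
theorem step2 {p q a b c d R ε K ρ : ℝ} (hdet : a * d - b * c = 1) (hR : 1 ≤ R) (hK : 0 < K)
    (ha : |a| ≤ 2 * R) (hb : |b| ≤ 2 * R) (hc : |c| ≤ 2 * R) (hd : |d| ≤ 2 * R)
    (hρ : ρ = |p| ∨ ρ = |q|) (h1 : |p * a + q * c| ≤ ε) (hρ1 : 1 ≤ 4 * R * K * ρ)
    (hεK : 16 * R ^ 2 * (ε * K) ≤ 1) :
    0 < ρ ∧ 1 ≤ 4 * R / ρ * |p * b + q * d| := by
  have hR0 : 0 < R := by linarith
  have hRK : 0 < 4 * R * K := by positivity
  have hρ0 : 0 < ρ := by
    by_contra hcon
    push Not at hcon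
    have : 4 * R * K * ρ ≤ 0 := mul_nonpos_of_nonneg_of_nonpos hRK.le hcon
    linarith
  have hrow := row_le hdet (by linarith : (0 : ℝ) ≤ 2 * R) ha hb hc hd h1 (le_refl |p * b + q * d|)
  have hρle : ρ ≤ 2 * R * (ε + |p * b + q * d|) := by
    rcases hρ with h | h
    · rw [h]; exact hrow.1
    · rw [h]; exact hrow.2
  have hsm : 4 * R * ε ≤ ρ := by
    have h2 : (4 * R * K) * (4 * R * ε) ≤ (4 * R * K) * ρ := by
      calc (4 * R * K) * (4 * R * ε) = 16 * R ^ 2 * (ε * K) := by ring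
        _ ≤ 1 := hεK
        _ ≤ (4 * R * K) * ρ := hρ1
    exact le_of_mul_le_mul_left h2 hRK
  refine ⟨hρ0, ?_⟩
  rw [div_mul_eq_mul_div, le_div_iff₀ hρ0, one_mul]
  nlinarith

end SpAN

open SpAN in
theorem stmtSpA (hNuL : StmtNuL) (hSl : StmtSl) (hVol : StmtVol) : StmtSpA := by
  intro R hR
  have hR0 : 0 < R := by linarith
  obtain ⟨hcomp, hfin⟩ := hVol.2.2 (4 * R)
  have hsf : SigmaFinite nu := hNuL.2.2.1
  have hclOm : ∀ T : ℝ, IsClosed (Om T) := fun T => (hVol.2.2 T).1.isClosed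
  set V : ℝ := (nu (Om (4 * R))).toReal with hV
  have hV0 : 0 ≤ V := ENNReal.toReal_nonneg
  refine ⟨64 * R ^ 2 * (1 + V), ?_, ?_⟩
  · nlinarith [mul_nonneg (sq_nonneg R) hV0]
  intro h hdet ε K hε hεK hC
  have hK : 0 < K := lt_of_lt_of_le hε hεK
  have hsmall : 64 * R ^ 2 * (ε * K) ≤ 1 := by
    have h1 : 0 ≤ 64 * R ^ 2 * V * (ε * K) := by positivity
    calc 64 * R ^ 2 * (ε * K) ≤ 64 * R ^ 2 * (ε * K) + 64 * R ^ 2 * V * (ε * K) := by linarith
      _ = 64 * R ^ 2 * (1 + V) * (ε * K) := by ring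
      _ ≤ 1 := hC
  have hpos : 0 ≤ R ^ 2 * (ε * K) := by positivity
  -- entries
  have hent : ∀ (y : G) (i j : Fin 2), (h * y.1) i j = h i 0 * y 0 j + h i 1 * y 1 j := by
    intro y i j
    rw [Matrix.mul_apply, Fin.sum_univ_two]
  have hcont : ∀ i j : Fin 2, Continuous (fun y : G => |(h * y.1) i j|) := by
    intro i j
    simp only [hent]
    exact ((continuous_const.mul (Dyn.continuous_entry 0 j)).add
      (continuous_const.mul (Dyn.continuous_entry 1 j))).abs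
  set S : Set G := {y : G | y ∈ Om R ∧ Bxx ε K (h * y.1)} with hS
  set S' : Set G := {y : G | y ∈ Om (2 * R) ∧ |(h * y.1) 0 0| ≤ ε} with hS'
  have hSc : IsClosed S := by
    have e : S = Om R ∩ ({y : G | |(h * y.1) 0 0| ≤ ε} ∩ ({y : G | |(h * y.1) 1 1| ≤ ε} ∩
        ({y : G | |(h * y.1) 0 1| ≤ K} ∩ {y : G | |(h * y.1) 1 0| ≤ K}))) := rfl
    rw [e]
    exact (hclOm R).inter ((isClosed_le (hcont 0 0) continuous_const).inter
      ((isClosed_le (hcont 1 1) continuous_const).inter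
      ((isClosed_le (hcont 0 1) continuous_const).inter (isClosed_le (hcont 1 0) continuous_const))))
  have hSc' : IsClosed S' := by
    have e : S' = Om (2 * R) ∩ {y : G | |(h * y.1) 0 0| ≤ ε} := rfl
    rw [e]
    exact (hclOm (2 * R)).inter (isClosed_le (hcont 0 0) continuous_const)
  refine ⟨hSc.measurableSet, ?_⟩
  rcases S.eq_empty_or_nonempty with hemp | ⟨y0, hy0⟩
  · rw [hemp, measure_empty]
    exact bot_le
  -- the rows
  obtain ⟨hy0R, hb1, hb2, hb3, hb4⟩ := hy0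
  rw [hent] at hb1 hb2 hb3 hb4
  have hd0 := Dyn.det_eq y0
  have hrow2 := row_le hd0 hR0.le (hy0R 0 0) (hy0R 0 1) (hy0R 1 0) (hy0R 1 1) hb4 hb2
  have hD : 1 ≤ |h 0 0 * h 1 1 - h 0 1 * h 1 0| := by
    rw [← Matrix.det_fin_two]; exact hdet
  have hr : |h 1 0| ≤ R * (2 * K) := hrow2.1.trans (mul_le_mul_of_nonneg_left (by linarith) hR0.le)
  have hs : |h 1 1| ≤ R * (2 * K) := hrow2.2.trans (mul_le_mul_of_nonneg_left (by linarith) hR0.le)
  obtain ⟨ρ, hρ, hp, hq⟩ : ∃ ρ : ℝ, (ρ = |h 0 0| ∨ ρ = |h 0 1|) ∧ |h 0 0| ≤ ρ ∧ |h 0 1| ≤ ρ := by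
    rcases le_total (|h 0 0|) (|h 0 1|) with hh | hh
    · exact ⟨_, Or.inr rfl, hh, le_refl _⟩
    · exact ⟨_, Or.inl rfl, le_refl _, hh⟩
  have hρ1 : 1 ≤ 4 * R * K * ρ := by
    have hρn : 0 ≤ ρ := (abs_nonneg _).trans hp
    calc (1 : ℝ) ≤ |h 0 0 * h 1 1 - h 0 1 * h 1 0| := hD
      _ ≤ |h 0 0 * h 1 1| + |h 0 1 * h 1 0| := abs_sub _ _
      _ = |h 0 0| * |h 1 1| + |h 0 1| * |h 1 0| := by rw [abs_mul, abs_mul]
      _ ≤ ρ * (R * (2 * K)) + ρ * (R * (2 * K)) := add_le_add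
          (mul_le_mul hp hs (abs_nonneg _) hρn) (mul_le_mul hq hr (abs_nonneg _) hρn)
      _ = 4 * R * K * ρ := by ring
  have hρ0 : 0 < ρ := by
    by_contra hcon
    push Not at hcon
    have h4 : 0 ≤ 4 * R * K := by positivity
    have : 4 * R * K * ρ ≤ 0 := mul_nonpos_of_nonneg_of_nonpos h4 hcon
    linarith
  -- first slicing
  have hst1 : nu S ≤ ENNReal.ofReal (2 * ε * (4 * R * ρ)) * nu S' := by
    refine (hSl hsf S S' _ hSc.measurableSet hSc'.measurableSet).1 ?_ ?_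
    · intro t ht y hy
      obtain ⟨hyR, hyb⟩ := hy
      have e00 : (y * mk4 1 t 0 1 (by ring)) 0 0 = y 0 0 := by
        rw [Dyn.mul_00, Dyn.mk4_00, Dyn.mk4_10]; ring
      have e10 : (y * mk4 1 t 0 1 (by ring)) 1 0 = y 1 0 := by
        rw [Dyn.mul_10, Dyn.mk4_00, Dyn.mk4_10]; ring
      have e01 : (y * mk4 1 t 0 1 (by ring)) 0 1 = y 0 0 * t + y 0 1 := by
        rw [Dyn.mul_01, Dyn.mk4_01, Dyn.mk4_11]; ring
      have e11 : (y * mk4 1 t 0 1 (by ring)) 1 1 = y 1 0 * t + y 1 1 := by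
        rw [Dyn.mul_11, Dyn.mk4_01, Dyn.mk4_11]; ring
      have h00 := hyR 0 0
      have h01 := hyR 0 1
      have h10 := hyR 1 0
      have h11 := hyR 1 1
      rw [e00] at h00
      rw [e01] at h01
      rw [e10] at h10
      rw [e11] at h11
      have hcol : ∀ u v : ℝ, |u| ≤ R → |u * t + v| ≤ R → |v| ≤ 2 * R := by
        intro u v hu hv
        have h5 : |u * t| ≤ R := by
          rw [abs_mul]
          calc |u| * |t| ≤ R * 1 := mul_le_mul hu (by rw [abs_of_nonneg ht.1]; exact ht.2)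
                (abs_nonneg _) hR0.le
            _ = R := mul_one R
        calc |v| = |(u * t + v) - u * t| := by rw [add_sub_cancel_left]
          _ ≤ |u * t + v| + |u * t| := abs_sub _ _
          _ ≤ 2 * R := by linarith
      refine ⟨?_, ?_⟩
      · intro i j
        fin_cases i <;> fin_cases j
        · exact h00.trans (by linarith)
        · exact hcol _ _ h00 h01
        · exact h10.trans (by linarith)
        · exact hcol _ _ h10 h11
      · have h6 := hyb.1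
        rw [hent, e00, e10] at h6
        show |(h * y.1) 0 0| ≤ ε
        rw [hent]
        exact h6
    · intro y
      by_cases hex : ∃ t : ℝ, t ∈ Icc (0 : ℝ) 1 ∧ y * mk4 1 t 0 1 (by ring) ∈ S
      · obtain ⟨t0, ht0, hy1R, hy1b⟩ := hex
        have e00 : ∀ t : ℝ, (y * mk4 1 t 0 1 (by ring)) 0 0 = y 0 0 := by
          intro t; rw [Dyn.mul_00, Dyn.mk4_00, Dyn.mk4_10]; ring
        have e10 : ∀ t : ℝ, (y * mk4 1 t 0 1 (by ring)) 1 0 = y 1 0 := by
          intro t; rw [Dyn.mul_10, Dyn.mk4_00, Dyn.mk4_10]; ring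
        have e01 : ∀ t : ℝ, (y * mk4 1 t 0 1 (by ring)) 0 1 = y 0 0 * t + y 0 1 := by
          intro t; rw [Dyn.mul_01, Dyn.mk4_01, Dyn.mk4_11]; ring
        have e11 : ∀ t : ℝ, (y * mk4 1 t 0 1 (by ring)) 1 1 = y 1 0 * t + y 1 1 := by
          intro t; rw [Dyn.mul_11, Dyn.mk4_01, Dyn.mk4_11]; ring
        have hdy := Dyn.det_eq (y * mk4 1 t0 0 1 (by ring))
        have hb0 := hy1b.1
        rw [hent] at hb0
        have hs1 := step1 hdy hR hD (hy1R 0 1) (hy1R 1 1) hp hq hr hs hb0 (by nlinarith)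
        rw [e00, e10] at hs1
        refine le_trans (measure_mono ?_) (vol_slice (h 1 0 * y 0 1 + h 1 1 * y 1 1)
          (h 1 0 * y 0 0 + h 1 1 * y 1 0) ε (4 * R * ρ) hε.le hs1)
        intro t ht
        have h7 := ht.2.2.2.1
        rw [hent, e01, e11] at h7
        show |h 1 0 * y 0 1 + h 1 1 * y 1 1 + t * (h 1 0 * y 0 0 + h 1 1 * y 1 0)| ≤ ε
        have e : h 1 0 * y 0 1 + h 1 1 * y 1 1 + t * (h 1 0 * y 0 0 + h 1 1 * y 1 0) =
            h 1 0 * (y 0 0 * t + y 0 1) + h 1 1 * (y 1 0 * t + y 1 1) := by ring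
        rw [e]
        exact h7
      · have he : {t : ℝ | t ∈ Icc (0 : ℝ) 1 ∧ y * mk4 1 t 0 1 (by ring) ∈ S} = ∅ := by
          rw [Set.eq_empty_iff_forall_notMem]
          intro t ht
          exact hex ⟨t, ht⟩
        rw [he, measure_empty]
        exact bot_le
  -- second slicing
  have hOmM : MeasurableSet (Om (4 * R)) := (hclOm (4 * R)).measurableSet
  have hst2 : nu S' ≤ ENNReal.ofReal (2 * ε * (4 * R / ρ)) * nu (Om (4 * R)) := by
    refine (hSl hsf S' (Om (4 * R)) _ hSc'.measurableSet hOmM).2 ?_ ?_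
    · intro t ht y hy
      obtain ⟨hyR, hyb⟩ := hy
      have e00 : (y * mk4 1 0 t 1 (by ring)) 0 0 = y 0 1 * t + y 0 0 := by
        rw [Dyn.mul_00, Dyn.mk4_00, Dyn.mk4_10]; ring
      have e10 : (y * mk4 1 0 t 1 (by ring)) 1 0 = y 1 1 * t + y 1 0 := by
        rw [Dyn.mul_10, Dyn.mk4_00, Dyn.mk4_10]; ring
      have e01 : (y * mk4 1 0 t 1 (by ring)) 0 1 = y 0 1 := by
        rw [Dyn.mul_01, Dyn.mk4_01, Dyn.mk4_11]; ring
      have e11 : (y * mk4 1 0 t 1 (by ring)) 1 1 = y 1 1 := by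
        rw [Dyn.mul_11, Dyn.mk4_01, Dyn.mk4_11]; ring
      have h00 := hyR 0 0
      have h01 := hyR 0 1
      have h10 := hyR 1 0
      have h11 := hyR 1 1
      rw [e00] at h00
      rw [e01] at h01
      rw [e10] at h10
      rw [e11] at h11
      have hcol : ∀ u v : ℝ, |u| ≤ 2 * R → |u * t + v| ≤ 2 * R → |v| ≤ 4 * R := by
        intro u v hu hv
        have h5 : |u * t| ≤ 2 * R := by
          rw [abs_mul]
          calc |u| * |t| ≤ (2 * R) * 1 := mul_le_mul hu (by rw [abs_of_nonneg ht.1]; exact ht.2)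
                (abs_nonneg _) (by linarith)
            _ = 2 * R := mul_one _
        calc |v| = |(u * t + v) - u * t| := by rw [add_sub_cancel_left]
          _ ≤ |u * t + v| + |u * t| := abs_sub _ _
          _ ≤ 4 * R := by linarith
      intro i j
      fin_cases i <;> fin_cases j
      · exact hcol _ _ h01 h00
      · exact h01.trans (by linarith)
      · exact hcol _ _ h11 h10
      · exact h11.trans (by linarith)
    · intro y
      by_cases hex : ∃ t : ℝ, t ∈ Icc (0 : ℝ) 1 ∧ y * mk4 1 0 t 1 (by ring) ∈ S'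
      · obtain ⟨t0, ht0, hy1R, hy1b⟩ := hex
        have e00 : ∀ t : ℝ, (y * mk4 1 0 t 1 (by ring)) 0 0 = y 0 1 * t + y 0 0 := by
          intro t; rw [Dyn.mul_00, Dyn.mk4_00, Dyn.mk4_10]; ring
        have e10 : ∀ t : ℝ, (y * mk4 1 0 t 1 (by ring)) 1 0 = y 1 1 * t + y 1 0 := by
          intro t; rw [Dyn.mul_10, Dyn.mk4_00, Dyn.mk4_10]; ring
        have e01 : ∀ t : ℝ, (y * mk4 1 0 t 1 (by ring)) 0 1 = y 0 1 := by
          intro t; rw [Dyn.mul_01, Dyn.mk4_01, Dyn.mk4_11]; ring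
        have e11 : ∀ t : ℝ, (y * mk4 1 0 t 1 (by ring)) 1 1 = y 1 1 := by
          intro t; rw [Dyn.mul_11, Dyn.mk4_01, Dyn.mk4_11]; ring
        have hdy := Dyn.det_eq (y * mk4 1 0 t0 1 (by ring))
        have hb0 : |(h * (y * mk4 1 0 t0 1 (by ring)).1) 0 0| ≤ ε := hy1b
        rw [hent] at hb0
        have hs1 := (step2 hdy hR hK (hy1R 0 0) (hy1R 0 1) (hy1R 1 0) (hy1R 1 1) hρ hb0 hρ1
          (by nlinarith)).2
        rw [e01, e11] at hs1
        refine le_trans (measure_mono ?_) (vol_slice (h 0 0 * y 0 0 + h 0 1 * y 1 0)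
          (h 0 0 * y 0 1 + h 0 1 * y 1 1) ε (4 * R / ρ) hε.le hs1)
        intro t ht
        have h7 : |(h * (y * mk4 1 0 t 1 (by ring)).1) 0 0| ≤ ε := ht.2.2
        rw [hent, e00, e10] at h7
        show |h 0 0 * y 0 0 + h 0 1 * y 1 0 + t * (h 0 0 * y 0 1 + h 0 1 * y 1 1)| ≤ ε
        have e : h 0 0 * y 0 0 + h 0 1 * y 1 0 + t * (h 0 0 * y 0 1 + h 0 1 * y 1 1) =
            h 0 0 * (y 0 1 * t + y 0 0) + h 0 1 * (y 1 1 * t + y 1 0) := by ring
        rw [e]
        exact h7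
      · have he : {t : ℝ | t ∈ Icc (0 : ℝ) 1 ∧ y * mk4 1 0 t 1 (by ring) ∈ S'} = ∅ := by
          rw [Set.eq_empty_iff_forall_notMem]
          intro t ht
          exact hex ⟨t, ht⟩
        rw [he, measure_empty]
        exact bot_le
  have hVeq : nu (Om (4 * R)) = ENNReal.ofReal V := (ENNReal.ofReal_toReal hfin.ne).symm
  have ha1 : 0 ≤ 2 * ε * (4 * R * ρ) := by positivity
  have ha2 : 0 ≤ 2 * ε * (4 * R / ρ) := by positivity
  calc nu S ≤ ENNReal.ofReal (2 * ε * (4 * R * ρ)) * nu S' := hst1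
    _ ≤ ENNReal.ofReal (2 * ε * (4 * R * ρ)) *
        (ENNReal.ofReal (2 * ε * (4 * R / ρ)) * ENNReal.ofReal V) := by
        rw [← hVeq]
        gcongr
    _ = ENNReal.ofReal (2 * ε * (4 * R * ρ) * (2 * ε * (4 * R / ρ) * V)) := by
        rw [ENNReal.ofReal_mul ha1, ENNReal.ofReal_mul ha2]
    _ ≤ ENNReal.ofReal (64 * R ^ 2 * (1 + V) * ε ^ 2) := by
        apply ENNReal.ofReal_le_ofReal
        have e : 2 * ε * (4 * R * ρ) * (2 * ε * (4 * R / ρ) * V) = 64 * R ^ 2 * V * ε ^ 2 := by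
          field_simp
          ring
        rw [e]
        have h8 : 0 ≤ 64 * R ^ 2 * ε ^ 2 := by positivity
        nlinarith

end Pool.Agent.A54.Hp
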