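import Pool.Agent.Lib.MP_a54f13_nt.Hp.SpecN

/-!
# Package `Hp`, module SpB: the measure of the special points
-/

set_option autoImplicit false

namespace Pool.Agent.A54.Hp

open MeasureTheory Filter Topology Set
open scoped ContDiff ComplexConjugate UpperHalfPlane MatrixGroups ENNReal
open Pool.Agent.A54.Dyn (G fl base ze io mk4 dom)
open Pool.Agent.A54.Av (Mat NonSc)

noncomputable section

namespace SpBN

/-- the real matrix `x⁻¹ n` -/
def hm (x : G) (n : Mat) : Matrix (Fin 2) (Fin 2) ℝ :=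
  (x⁻¹ : G).1 * n.map (fun a : ℤ => (a : ℝ))

theorem cj_eq (x y : G) (n : Mat) : cj x y n = hm x n * y.1 := rfl

theorem det_hm (x : G) (n : Mat) : (hm x n).det = ((n.det : ℤ) : ℝ) := by
  unfold hm
  rw [Matrix.det_mul, (x⁻¹ : G).2, one_mul, Matrix.det_fin_two, Matrix.det_fin_two]
  simp only [Matrix.map_apply]
  push_cast
  ring

theorem one_le_det (x : G) (n : Mat) (hn : n.det ≠ 0) : 1 ≤ |(hm x n).det| := by
  rw [det_hm, ← Int.cast_abs]
  exact_mod_cast Int.one_le_abs hn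

/-- the entries of `n` -/
theorem entry (x y : G) (n : Mat) :
    n.map (fun a : ℤ => (a : ℝ)) = x.1 * cj x y n * (y⁻¹ : G).1 := by
  have h1 : x.1 * (x⁻¹ : G).1 = 1 := by
    have h := congrArg Subtype.val (mul_inv_cancel x)
    rwa [Matrix.SpecialLinearGroup.coe_mul, Matrix.SpecialLinearGroup.coe_one] at h
  have h2 : y.1 * (y⁻¹ : G).1 = 1 := by
    have h := congrArg Subtype.val (mul_inv_cancel y)
    rwa [Matrix.SpecialLinearGroup.coe_mul, Matrix.SpecialLinearGroup.coe_one] at h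
  unfold cj
  rw [← mul_assoc, ← mul_assoc, h1, one_mul, mul_assoc, h2, mul_one]

theorem bound3 {R K a b c : ℝ} (hK : 0 ≤ K) (hR : 0 ≤ R) (ha : |a| ≤ R) (hb : |b| ≤ K)
    (hc : |c| ≤ R) : |a * b * c| ≤ R * K * R := by
  rw [abs_mul, abs_mul]
  exact mul_le_mul (mul_le_mul ha hb (abs_nonneg _) hR) hc (abs_nonneg _) (by positivity)

theorem inv_entry {R : ℝ} (y : G) (hy : ∀ i j, |y i j| ≤ R) (i j : Fin 2) :
    |(y⁻¹ : G).1 i j| ≤ R := by
  rw [Matrix.SpecialLinearGroup.SL2_inv_expl]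
  fin_cases i <;> fin_cases j
  · simpa using hy 1 1
  · simpa using hy 0 1
  · simpa using hy 1 0
  · simpa using hy 0 0

theorem entry_le {R K : ℝ} (hR : 0 ≤ R) (hK : 0 ≤ K) (x y : G) (n : Mat)
    (hx : ∀ i j, |x i j| ≤ R) (hy : ∀ i j, |y i j| ≤ R) (hW : ∀ i j, |cj x y n i j| ≤ K)
    (i j : Fin 2) : |((n i j : ℤ) : ℝ)| ≤ 4 * R ^ 2 * K := by
  have h1 := congrFun (congrFun (entry x y n) i) j
  rw [Matrix.map_apply, Matrix.mul_apply, Fin.sum_univ_two, Matrix.mul_apply, Matrix.mul_apply,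
    Fin.sum_univ_two, Fin.sum_univ_two] at h1
  rw [h1]
  have e : ∀ k l : Fin 2, |x.1 i k * cj x y n k l * (y⁻¹ : G).1 l j| ≤ R * K * R := fun k l =>
    bound3 hK hR (hx i k) (hW k l) (inv_entry y hy l j)
  have a1 := abs_le.1 (e 0 0)
  have a2 := abs_le.1 (e 1 0)
  have a3 := abs_le.1 (e 0 1)
  have a4 := abs_le.1 (e 1 1)
  rw [add_mul, add_mul, abs_le]
  constructor
  · nlinarith [a1.1, a2.1, a3.1, a4.1]
  · nlinarith [a1.2, a2.2, a3.2, a4.2]

/-- the integral matrices with small entries -/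
def Tf (m : ℤ) : Finset Mat :=
  (Fintype.piFinset fun _ : Fin 2 => Fintype.piFinset fun _ : Fin 2 => Finset.Icc (-m) m :
    Finset (Fin 2 → Fin 2 → ℤ)).map
      (Matrix.of : (Fin 2 → Fin 2 → ℤ) ≃ Matrix (Fin 2) (Fin 2) ℤ).toEmbedding

theorem mem_Tf {m : ℤ} {n : Mat} (h : ∀ i j, |n i j| ≤ m) : n ∈ Tf m := by
  unfold Tf
  rw [Finset.mem_map]
  refine ⟨fun i j => n i j, ?_, rfl⟩
  rw [Fintype.mem_piFinset]
  intro i
  rw [Fintype.mem_piFinset]
  intro j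
  rw [Finset.mem_Icc]
  exact abs_le.1 (h i j)

theorem card_Tf {m : ℤ} (hm : 0 ≤ m) : ((Tf m).card : ℝ) = (2 * (m : ℝ) + 1) ^ 4 := by
  unfold Tf
  rw [Finset.card_map, Fintype.card_piFinset]
  simp only [Fintype.card_piFinset, Int.card_Icc, Finset.prod_const, Finset.card_univ,
    Fintype.card_fin]
  have h : ((m + 1 - -m).toNat : ℝ) = 2 * (m : ℝ) + 1 := by
    have h1 : ((m + 1 - -m).toNat : ℤ) = 2 * m + 1 := by omega
    exact_mod_cast h1
  push_cast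
  rw [h]
  ring

end SpBN

open SpBN in
/-- **SpB** -/
theorem stmtSpB (hA : StmtSpA) : StmtSpB := by
  intro R hR
  obtain ⟨C₀, hC₀, hA⟩ := hA R hR
  have hR8 : 1 ≤ R ^ 8 := one_le_pow₀ hR
  have hR2 : 1 ≤ R ^ 2 := one_le_pow₀ hR
  have hCC : C₀ ≤ 6561 * R ^ 8 * C₀ := by nlinarith
  refine ⟨6561 * R ^ 8 * C₀, hC₀.trans hCC, ?_⟩
  intro x hx ε K hε hεK hK hC
  have hK0 : 0 ≤ K := by linarith
  have hR0 : 0 ≤ R := by linarith
  have hC' : C₀ * (ε * K) ≤ 1 :=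
    (mul_le_mul_of_nonneg_right hCC (by positivity)).trans hC
  have hS : ∀ n : Mat, n.det ≠ 0 →
      MeasurableSet {y : G | y ∈ Om R ∧ Bxx ε K (hm x n * y.1)} ∧
      nu {y : G | y ∈ Om R ∧ Bxx ε K (hm x n * y.1)} ≤ ENNReal.ofReal (C₀ * ε ^ 2) :=
    fun n hn => hA (hm x n) (one_le_det x n hn) ε K hε hεK hC'
  have hSp : Sp R ε K x = ⋃ n : Mat, ⋃ _ : n.det ≠ 0, {y : G | y ∈ Om R ∧
      Bxx ε K (hm x n * y.1)} := by
    ext y
    simp only [Sp, Set.mem_ofPred_eq, Set.mem_iUnion, cj_eq, exists_prop]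
    constructor
    · rintro ⟨hy, n, hn, hB⟩
      exact ⟨n, hn, hy, hB⟩
    · rintro ⟨n, hn, hy, hB⟩
      exact ⟨hy, n, hn, hB⟩
  refine ⟨?_, ?_⟩
  · rw [hSp]
    have : Countable Mat := inferInstanceAs (Countable (Fin 2 → Fin 2 → ℤ))
    exact MeasurableSet.iUnion fun n => MeasurableSet.iUnion fun hn => (hS n hn).1
  · set m : ℤ := ⌊4 * R ^ 2 * K⌋ with hm
    have hm0 : 0 ≤ m := Int.floor_nonneg.2 (by positivity)
    have hsub : Sp R ε K x ⊆ ⋃ n ∈ (Tf m).filter (fun n : Mat => n.det ≠ 0),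
        {y : G | y ∈ Om R ∧ Bxx ε K (SpBN.hm x n * y.1)} := by
      rintro y ⟨hy, n, hn, hB⟩
      rw [Set.mem_iUnion₂]
      refine ⟨n, ?_, hy, hB⟩
      rw [Finset.mem_filter]
      refine ⟨mem_Tf fun i j => ?_, hn⟩
      have hW : ∀ i j, |cj x y n i j| ≤ K := by
        intro i j
        obtain ⟨h1, h2, h3, h4⟩ := hB
        fin_cases i <;> fin_cases j
        · exact h1.trans hεK
        · exact h3
        · exact h4
        · exact h2.trans hεK
      have h := entry_le hR0 hK0 x y n hx hy hW i j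
      rw [hm, Int.le_floor, Int.cast_abs]
      exact h
    calc nu (Sp R ε K x) ≤ nu (⋃ n ∈ (Tf m).filter (fun n : Mat => n.det ≠ 0),
          {y : G | y ∈ Om R ∧ Bxx ε K (SpBN.hm x n * y.1)}) := measure_mono hsub
      _ ≤ ∑ n ∈ (Tf m).filter (fun n : Mat => n.det ≠ 0),
          nu {y : G | y ∈ Om R ∧ Bxx ε K (SpBN.hm x n * y.1)} := measure_biUnion_finset_le _ _
      _ ≤ ∑ _n ∈ (Tf m).filter (fun n : Mat => n.det ≠ 0), ENNReal.ofReal (C₀ * ε ^ 2) :=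
          Finset.sum_le_sum fun n hn => (hS n (Finset.mem_filter.1 hn).2).2
      _ ≤ ∑ _n ∈ Tf m, ENNReal.ofReal (C₀ * ε ^ 2) :=
          Finset.sum_le_sum_of_subset (Finset.filter_subset _ _)
      _ = ENNReal.ofReal ((Tf m).card * (C₀ * ε ^ 2)) := by
          rw [Finset.sum_const, nsmul_eq_mul, ENNReal.ofReal_mul (Nat.cast_nonneg (Tf m).card),
            ENNReal.ofReal_natCast]
      _ ≤ ENNReal.ofReal (6561 * R ^ 8 * C₀ * (ε ^ 2 * K ^ 4)) := by
          refine ENNReal.ofReal_le_ofReal ?_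
          rw [card_Tf hm0]
          have h1 : (m : ℝ) ≤ 4 * R ^ 2 * K := Int.floor_le _
          have h1' : (0 : ℝ) ≤ m := by exact_mod_cast hm0
          have h2 : 2 * (m : ℝ) + 1 ≤ 9 * (R ^ 2 * K) := by nlinarith
          have h3 : (2 * (m : ℝ) + 1) ^ 4 ≤ (9 * (R ^ 2 * K)) ^ 4 :=
            pow_le_pow_left₀ (by linarith) h2 4
          calc (2 * (m : ℝ) + 1) ^ 4 * (C₀ * ε ^ 2) ≤ (9 * (R ^ 2 * K)) ^ 4 * (C₀ * ε ^ 2) :=
                mul_le_mul_of_nonneg_right h3 (by positivity)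
            _ = 6561 * R ^ 8 * C₀ * (ε ^ 2 * K ^ 4) := by ring

end

end Pool.Agent.A54.Hp
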