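import Pool.Agent.Lib.MP_a54f13_nt.Hp.SpecM
import Pool.Agent.Lib.MP_a54f13_nt.Hp.DefsA

/-!
# Package `Hp`, part A: the tower on the group, packets, short and unit times

Architect: helper39 (THEOREM A, note 4597 of MP_a54f13_nt). Conventions as in `Hp/SpecM.lean`: file
`Pool/Agent/Lib/MP_a54f13_nt/Hp/<Name>.lean` importing `Pool.Agent.Lib.MP_a54f13_nt.Hp.SpecA`, private names in
`namespace Pool.Agent.A54.Hp.<Name>M`, final theorem `stmt<Name> : Stmt<Name>`, the used statements are hypotheses.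
Useful: `Calc.lean` (rules for `dz`, `dzb`), `Half.lean`, `Av/Defs.lean` (`fk`, `RR`, `LL`, `mu`, `Wt`), `Av/SpecA.lean`
(`Av.StmtWf`, `Av.StmtDer`, `Av.StmtNk`; proved as `Av.stmtWf` etc.), `Dyn/Base.lean`, `Dyn/Lift.lean`, `Sq/Twr.lean`.
-/

set_option autoImplicit false

namespace Pool.Agent.A54.Hp

open MeasureTheory Filter Topology Set
open scoped ContDiff ComplexConjugate UpperHalfPlane MatrixGroups ENNReal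
open Pool.Agent.A54.Dyn (G fl base ze io mk4 dom)
open Pool.Agent.A54.Dyn.LiftM (Sct XC XX cc rot m0)
open Pool.Agent.A54.Av (Mat NonSc)
open Pool.Agent.A54.Half (H0)
open Pool.Agent.A54.Sq (la TestP Tow Up)

noncomputable section

/-! ### The tower on the group -/

/-- **TwG** the tower (uses `Av.StmtWf`, `Av.StmtDer`, `Av.StmtNk`). Proof. `n ≥ 0`: smoothness and (3) from `Av.StmtWf`; (2) is the definition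
`fk f (n+1) = RR n (fk f n)` divided by `√(∏_{j ≤ n} μ_j) = √(∏_{j < n} μ_j) λ_n`, `λ_n = √μ_n = la t n`. Negative indices: take complex conjugates
(`dz (conj g) = conj (dzb g)`): (2) at `-m-1` is the conjugate of (3) at `m`, and conversely, `la t (-m-1) = la t m` (see `Sq/Twr.lean`, which
has this computation). (4), (5) are the definition (`fk f 0 = ext f`, real). (6) the set of `γ ∈ SL(2, ℤ)` with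
`Ff f t n (io γ * g) = Ff f t n g` for all `g` is a subgroup; for `T`: `base (io T * g) = base g + 1`, `ze` unchanged (`ze_mul`, `base_mul`),
`Wt.T`; for `S = (0,-1;1,0)`: `ze (io S * g) = ze g * (conj z / z)`, `z = base g`, and `Wt.S`: `G_n(-1/z) = (z/conj z)^n G_n(z)`; generators:
`SpecialLinearGroup.SL2Z_generators`. (7) `Av.StmtNk` with `g = f`, `∫_{fdo} f² = π/3`. (8) `Av.StmtDer`. (9) continuity of `ze`, `base`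
and smoothness on `H0`. -/
def StmtTwG : Prop := ∀ (f : ℍ → ℝ) (t : ℝ), IsHeckeMaass f t → ∀ n : ℤ,
  ContDiffOn ℝ ∞ (Gf f t n) H0 ∧
  (∀ z ∈ H0, Complex.I * (z.im : ℂ) * dz (Gf f t n) z + (n : ℂ) * Gf f t n z =
    ((la t n : ℝ) : ℂ) * Gf f t (n + 1) z) ∧
  (∀ z ∈ H0, -(Complex.I * (z.im : ℂ) * dzb (Gf f t (n + 1)) z) - ((n : ℂ) + 1) * Gf f t (n + 1) z =
    -(((la t n : ℝ) : ℂ) * Gf f t n z)) ∧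
  (∀ z, Gf f t (-n) z = (-1) ^ n * conj (Gf f t n z)) ∧
  (∀ z, Gf f t 0 z = (ext f z : ℂ)) ∧
  (∀ (γ : SL(2, ℤ)) (g : G), Ff f t n (io γ * g) = Ff f t n g) ∧
  ∫⁻ z in ModularGroup.fdo, ‖Gf f t n (z : ℂ)‖ₑ ^ 2 = ENNReal.ofReal (Real.pi / 3) ∧
  (∃ C : ℝ, ∀ z ∈ H0, ‖Gf f t n z‖ ≤ C) ∧
  Continuous (Ff f t n)

/-- **Twc** cutoffs (uses `TwG`). Proof. As `Sq/Twr.lean`: `χ · Gf f t n` is smooth (`Half.smooth_mulC`), on the open set `V` it agrees with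
`Gf f t n` (`dz_congr`, `dzb_congr`). -/
def StmtTwc : Prop := ∀ (χ : ℂ → ℝ) (V : Set ℂ), TestR H0 χ → IsOpen V → V ⊆ H0 → (∀ z ∈ V, χ z = 1) →
  ∀ (f : ℍ → ℝ) (t : ℝ), IsHeckeMaass f t → Tow V t (fun n z => (χ z : ℂ) * Gf f t n z)

/-- **HkG** Hecke operators on the tower (uses `TwG`). Proof. For a real affine map `A(z) = α z + β`, `α > 0`, and smooth `H` on `H0`:
`(I y dz (H ∘ A))(z) = (I im · dz H)(A z)` (`dz (H ∘ A) = α (dz H) ∘ A`, `im (A z) = α y`). Induction on `n ≥ 0`: the relation for `G_n`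
is `∑_A G_n ∘ A = c G_n` on `H0`, the sum over `A(z) = p z` and `A(z) = (z + b)/p`, `0 ≤ b < p`; apply `(λ_n)⁻¹ (I y dz + n)` and `TwG` (2). `n = 0`:
`Av.IsHk f p c` with the divisors `1, p` of `p` (`d = 1`: `f(p z)`; `d = p`: `∑_b f((z+b)/p)`), `ext f`. Negative `n`: conjugate. -/
def StmtHkG : Prop := ∀ (f : ℍ → ℝ) (t : ℝ), IsHeckeMaass f t → ∀ p : ℕ, p.Prime → ∀ c : ℝ,
  Av.IsHk f p c → ∀ (n : ℤ), ∀ z ∈ H0, Gf f t n ((p : ℂ) * z) +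
    ∑ b ∈ Finset.range p, Gf f t n ((z + b) / p) = (c : ℂ) * Gf f t n z

/-- **Fib** integrals over the fibres (uses `NuL`, `TwG`). Proof. `ze (Sct (z, x)) = cc x ^ 2`, `base (Sct (z, x)) = z`, so
`Ph c (Sct (z, x)) = ∑ c_n cc(x)^{2n} G_n(z)`, and `∫ cc(x)^{2(n-m)} dx = δ_{nm}` (`Dyn.LiftM.integral_fourier`, `fourier_cc`); (2) from (1) by
Tonelli (`nu = m0.map Sct`). -/
def StmtFib : Prop := ∀ (f : ℍ → ℝ) (t : ℝ), IsHeckeMaass f t → ∀ (N : ℕ) (c : ℤ → ℂ),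
  (∀ z : ℍ, St (Ph f t N c) 0 z = Sw f t N (fun n => ‖c n‖ ^ 2) z) ∧
  ∀ H : ℍ → ℝ≥0∞, Measurable H → ∫⁻ g, H (base g) * ‖Ph f t N c g‖ₑ ^ 2 ∂nu =
    ∫⁻ z : ℍ, H z * ENNReal.ofReal (Sw f t N (fun n => ‖c n‖ ^ 2) z)

/-- **HeF** the combinations are Hecke eigenfunctions (uses `TwG`, `HkG`, `Fib`). Proof. Continuity and invariance: `TwG`. Norm: `Fib` with
`H = 1_{fdo}` and `TwG` (7): `∑ |c_n|² π/3 ≤ 2`. Hecke: `nm !![1,b;0,p] * g` has base `(z + b)/p` and the same `ze` (lower left entry zero: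
`ze_mul`), `nm !![p,0;0,1] * g` has base `p z`; `HkG` with `c = √p l(p)`. -/
def StmtHeF : Prop := ∀ (f : ℍ → ℝ) (t : ℝ), IsHeckeMaass f t → ∀ l : ℕ → ℝ,
  (∀ p : ℕ, p.Prime → Av.IsHk f p (√p * l p)) → ∀ (N : ℕ) (c : ℤ → ℂ),
    ∑ n ∈ Finset.Icc (-(N : ℤ)) N, ‖c n‖ ^ 2 ≤ 1 → HE l (Ph f t N c)

/-- **FlD** the derivative along the flow (uses `TwG`). Proof. It is enough to do `s = 0` (replace `g` by `g * fl s`, `fl_add`). `g = (a,b;c,d)`,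
`z = base g`, `ζ = ze g = (d - ic)/(d + ic)`, `base (g * fl s) = (a e^s i + b)/(c e^s i + d)` has derivative `i/(ci+d)² = i y ζ` at `s = 0`
(`y = |ci+d|⁻²`), and `ze (g * fl s) = (d e^{-s/2} - i c e^{s/2})/(d e^{-s/2} + i c e^{s/2})` has derivative `(ζ² - 1)/2`. For a smooth function `H`
near `z` the derivative in direction `w` is `(dz H · w + dzb H · conj w)/2`; so `d/ds G_n(base) = (1/2)(ζ · i y dz G_n - ζ⁻¹ i y dzb G_n)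
= (1/2) ζ (λ_n G_{n+1} - n G_n) + (1/2) ζ⁻¹ (n G_n - λ_{n-1} G_{n-1})` by `TwG` (2) for `n` and (3) for `n - 1`. With
`n ζ^{n-1} (ζ² - 1)/2 · G_n` the terms with `n G_n` cancel. -/
def StmtFlD : Prop := ∀ (f : ℍ → ℝ) (t : ℝ), IsHeckeMaass f t → ∀ (n : ℤ) (g : G) (s : ℝ),
  HasDerivAt (fun s : ℝ => Ff f t n (g * fl s))
    ((1 / 2) * (((la t n : ℝ) : ℂ) * Ff f t (n + 1) (g * fl s) -
      ((la t (n - 1) : ℝ) : ℂ) * Ff f t (n - 1) (g * fl s))) s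

/-- **Rev** reversal of time (uses `TwG`). Proof. `ze (g * w0) = - ze g`, `base (g * w0) = base g` (`w0` a rotation by a right angle), so
`Ff n (g w0) = (-1)^n Ff n g`; `conj (Ff n g) = (-1)^n Ff (-n) g` (`|ze| = 1`, `TwG` (4)). So `Pb b (g w0) = ∑ (-i)^n (-1)^n b_n F_n = ∑ i^n b_n F_n`,
and `conj (Pb b g) = ∑ i^n b_n (-1)^n F_{-n} = ∑ i^{-n} (-1)^n b_n F_n = ∑ i^n b_n F_n` (`n → -n`, `b` even, `i^{-n} (-1)^n = i^n`). -/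
def StmtRev : Prop := ∀ (f : ℍ → ℝ) (t : ℝ), IsHeckeMaass f t → ∀ (N : ℕ) (b : ℤ → ℝ),
  (∀ n, b (-n) = b n) → ∀ g : G,
    ‖Pb f t N b (g * mk4 0 1 (-1) 0 (by norm_num))‖ = ‖Pb f t N b g‖

/-! ### Packets -/

/-- **Pka** the operator `T - t` on smooth profiles. For `u : ℝ → ℝ` let `(𝒯u)(x) = (λ(x - h) u(x - h) + λ(x) u(x + h))/2 - t u(x)`, `h = 1/N`,
`λ(x) = √((x N + 1/2)² + t²)`. Proof. `𝒯u = (1/2) [(λ(x-h) - t) u(x-h) + (λ(x) - t) u(x+h)] + (t/2) [u(x+h) + u(x-h) - 2u(x)]`. Second part: its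
`j`-th derivative is at most `(t/2) h² sup |u^{(j+2)}|` (Taylor), `t h² ≤ t^{2d}`. First part: `λ(x) - t = t ψ((xN + 1/2)/t)`,
`ψ(y) = √(1 + y²) - 1`, `|ψ(y)| ≤ y²`, `|ψ'(y)| ≤ |y|`, `|ψ^{(j)}| ≤ C_j`; on `|x| ≤ 4` the `j`-th derivative of `λ - t` is at most `C_j N²/t ≤ C_j` (for
`j = 0, 1, 2` by the bounds for `ψ`, for `j ≥ 3`: `t (N/t)^j ≤ N²/t`; `N ≤ 2 t^{1/2-d} ≤ t`). Leibniz (`norm_iteratedFDeriv_mul_le` or iterated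
derivatives of products). -/
def StmtPka : Prop := ∀ (d : ℝ), 0 < d → d ≤ 1 / 8 → ∀ J : ℕ, ∃ C t₀ : ℝ, 0 ≤ C ∧ 1 ≤ t₀ ∧
  ∀ (t : ℝ) (N : ℕ), t₀ ≤ t → t ^ (1 / 2 - d) ≤ N → (N : ℝ) ≤ 2 * t ^ (1 / 2 - d) →
  ∀ (u : ℝ → ℝ) (A : ℝ), ContDiff ℝ ∞ u → (∀ x, 3 ≤ |x| → u x = 0) → 0 ≤ A →
    (∀ j ≤ J + 2, ∀ x, |iteratedDeriv j u x| ≤ A) →
    ContDiff ℝ ∞ (fun x : ℝ => (√(((x - 1 / N) * N + 1 / 2) ^ 2 + t ^ 2) * u (x - 1 / N) +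
      √((x * N + 1 / 2) ^ 2 + t ^ 2) * u (x + 1 / N)) / 2 - t * u x) ∧
    ∀ j ≤ J, ∀ x, |iteratedDeriv j (fun x : ℝ => (√(((x - 1 / N) * N + 1 / 2) ^ 2 + t ^ 2) * u (x - 1 / N) +
      √((x * N + 1 / 2) ^ 2 + t ^ 2) * u (x + 1 / N)) / 2 - t * u x) x| ≤ C * t ^ (2 * d) * A

/-- **Pk** packets exist (uses `Pka`). Proof. `χ` an even smooth bump, `χ = 1` on `[-1/2, 1/2]`, zero for `|x| ≥ 1`, `0 ≤ χ ≤ 1`;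
`N = ⌈t^{1/2-d}⌉`, `q² = ∑ χ(n/N)²`, `N/4 ≤ q² ≤ 3N`, `b_n = χ(n/N)/q`. `(TT t)^[k] b n = (𝒯^k χ)(n/N)/q` by induction
(`la t n = √((n + 1/2)² + t²)`, `x = n/N`), `𝒯^k χ` vanishes for `|x| ≥ 1 + k/N`, and by `Pka` (applied `k ≤ K` times, starting with `J = 2K`)
`|(𝒯^k χ)^{(j)}| ≤ C t^{2dk}` for `j ≤ 1`; so the sum in `pow` is at most `(2N + 2K + 1) C² t^{4dk}/q²`. `anti`: with `u = χ`, `v = 𝒯χ`: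
`|u(x) v(x + j/N) - u(x + j/N) v(x)| ≤ |u(x)| |v(x + j/N) - v(x)| + |v(x)| |u(x + j/N) - u(x)| ≤ C t^{2d} |j|/N`, nonzero only if
`|n| ≤ N + 1` or `|n + j| ≤ N + 1`: at most `4N + 6` values of `n`; divide by `q² ≥ N/4`: `≤ C |j| t^{2d}/N ≤ C |j| t^{-1/2+3d}`. `tele`:
`|b_n² - b_{n+1}²| ≤ 2 sup |χ'| /(N q²)` for at most `2N + 2` values of `n`. -/
def StmtPk : Prop := ∀ d : ℝ, 0 < d → d ≤ 1 / 8 → ∀ K : ℕ, ∃ C t₀ : ℝ, 0 ≤ C ∧ 1 ≤ t₀ ∧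
  ∀ t : ℝ, t₀ ≤ t → ∃ (N : ℕ) (b : ℤ → ℝ), K ≤ N ∧ Pack d C K t N b

/-! ### Short times -/

/-- **Tay** Taylor's formula (uses `TwG`, `FlD`). Proof. By `FlD`, for `b` with `b_n = 0` for `|n| > N'`, `N' < N''`: `d/ds Pb N'' b (g fl s) = i Pb N'' (T b) (g fl s)`,
`T b = TT t b + t b`: the coefficient of `F_n` is `(λ_{n-1} (-i)^{n-1} b_{n-1} - λ_n (-i)^{n+1} b_{n+1})/2 = i (-i)^n (λ_{n-1} b_{n-1} + λ_n b_{n+1})/2`.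
So `ψ_b(s) = e^{-its} Pb b (g fl s)` satisfies `ψ_b' = i ψ_{TT b}`. With `b^{(k)} = (TT t)^[k] b` (zero for `|n| > N + k`): Taylor's formula with
integral remainder (`taylor_mean_remainder` or induction on `K` by integration):
`ψ_b(s) = ∑_{k<K} (is)^k/k! ψ_{b^{(k)}}(0) + i^K ∫_0^s (s-u)^{K-1}/(K-1)! ψ_{b^{(K)}}(u) du`. The index `N + K` is large enough for all `b^{(k)}`, `k ≤ K`. -/
def StmtTay : Prop := ∀ (f : ℍ → ℝ) (t : ℝ), IsHeckeMaass f t → ∀ (N K : ℕ) (b : ℤ → ℝ), 1 ≤ K →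
  (∀ n : ℤ, (N : ℤ) < |n| → b n = 0) → ∀ (g : G) (s : ℝ),
    ‖Pb f t N b (g * fl s) - Complex.exp (Complex.I * t * s) * ∑ k ∈ Finset.range K,
      (Complex.I * s) ^ k / (k.factorial : ℂ) * Pb f t (N + K) ((TT t)^[k] b) g‖ ≤
    |s| ^ (K - 1) * ∫ u in (-|s|)..|s|, ‖Pb f t (N + K) ((TT t)^[K] b) (g * fl u)‖

/-- **L4G** fourth moments on the group (uses `NuL`, `NuR`, `TwG`). Proof. `ζ ∈ TestP H0` with `φ(z) ≤ ζ(w)` whenever `d(z, w) ≤ 1` (`ζ ≥ sup φ` on the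
closed `1`-neighbourhood of `tsupport φ`, a compact set). Right invariance: `∫⁻ φ(base g) ‖Φ(g fl u)‖⁴ = ∫⁻ φ(base(g fl(-u))) ‖Φ g‖⁴ ≤
∫⁻ ζ(base g) ‖Φ g‖⁴` (`dist_base_fl`), and by convexity `‖∑ c_n F_n‖⁴ ≤ (∑|c_n|)³ ∑ |c_n| ‖F_n‖⁴`, `‖F_n g‖ = ‖G_n (base g)‖`; last part of `NuL`. -/
def StmtL4G : Prop := ∀ φ : ℂ → ℝ, TestP H0 φ → ∃ ζ : ℂ → ℝ, TestP H0 ζ ∧ (∀ z, φ z ≤ ζ z) ∧
  ∀ (f : ℍ → ℝ) (t : ℝ), IsHeckeMaass f t → ∀ (N : ℕ) (c : ℤ → ℂ) (B : ℝ), U4 f t ζ N B →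
    ∀ u : ℝ, |u| ≤ 1 → ∫⁻ g, ENNReal.ofReal (φ (base g : ℂ)) * ‖Ph f t N c (g * fl u)‖ₑ ^ 4 ∂nu ≤
      ENNReal.ofReal ((∑ n ∈ Finset.Icc (-(N : ℤ)) N, ‖c n‖) ^ 4 * B)

/-- **Sta** short times (uses `NuL`, `Fib`, `Tay`, `L4G`). Proof. `ζ` from `L4G`; `B ≥ 0`; `|τ| ≤ t^{-4d}`. `P = ∑_{k<K} (iτ)^k/k! Pb (b^{(k)})`,
`p_n = ∑_{k<K} (iτ)^k/k! b^{(k)}_n`, `R = e^{-itτ} Pb b (g fl τ) - P`. By `Tay` and Hölder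
`∫ φ |R|⁴ ≤ |τ|^{4(K-1)} (2|τ|)³ ∫_{-|τ|}^{|τ|} ∫ φ ‖Pb (b^{(K)}) (g fl u)‖⁴ ≤ C |τ|^{4K} (∑ |b^{(K)}_n|)⁴ B ≤ C t^{-16dK} (2N+2K+1)² C² t^{8dK} B ≤ C t^{-8dK+2} B`.
With `K ≥ K₀ = ⌈2/d⌉ + 2` this is at most `C t^{-8} B`. `‖P‖_{L⁴(φ)} ≤ C (∑_n |p_n|) B^{1/4} ≤ C t^{1/2} B^{1/4}` (`∑ |p_n| ≤ √(3N) ‖p‖`, `‖p‖ ≤ C`). Fibre integrals:
`S^τ = ∫_x |P + R|² = ∑ |p_n|² |G_n|² + E`, `|E| ≤ ∫_x (2|P||R| + |R|²)`, so `‖√φ E‖_{L²} ≤ 2 ‖P‖₄ ‖R‖₄ + ‖R‖₄² ≤ C t^{1/2-2} B^{1/2}` (Cauchy–Schwarz in the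
fibre; `L⁴` norms with weight `φ`). Main term: `√φ ∑ (|p_n|² - b_n²)|G_n|²` has `L²` norm at most `∑ ||p_n|² - b_n²| B^{1/2} ≤ ‖p - b‖ (‖p‖ + ‖b‖) B^{1/2}` and
`‖p - b‖ ≤ ∑_{k≥1} |τ|^k/k! √C t^{2dk} ≤ C t^{-2d}` (`∫ φ ‖G_n‖⁴ ≤ ∫ ζ ‖G_n‖⁴ ≤ B`). -/
def StmtSta : Prop := ∀ d : ℝ, 0 < d → d ≤ 1 / 8 → ∃ K₀ : ℕ, ∀ K : ℕ, K₀ ≤ K → ∀ C₀ : ℝ, 0 ≤ C₀ →
  ∀ φ : ℂ → ℝ, TestP H0 φ → ∃ (ζ : ℂ → ℝ) (C t₀ : ℝ), TestP H0 ζ ∧ (∀ z, φ z ≤ ζ z) ∧ 0 ≤ C ∧ 1 ≤ t₀ ∧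
    ∀ (f : ℍ → ℝ) (t : ℝ), IsHeckeMaass f t → t₀ ≤ t → ∀ (N : ℕ) (b : ℤ → ℝ), Pack d C₀ K t N b →
      ∀ B : ℝ, 0 ≤ B → U4 f t ζ (N + K) B → ∀ τ : ℝ, |τ| ≤ t ^ (-(4 * d)) →
        ∫ z : ℍ, φ z * (St (Pb f t N b) τ z - Sw f t N (fun n => b n ^ 2) z) ^ 2 ≤ C * t ^ (-(4 * d)) * B

/-! ### Unit times -/

/-- **Kf** Fourier coefficients in the fibre. Proof. `base (Sct (z, x) * fl s) = re z + im z · w`, `w = rot x • (e^s i)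
= (cosθ e^s i + sinθ)/(-sinθ e^s i + cosθ)`, `cc x = e^{iθ}`, `θ = 2πx`: a function of `θ` of period `π`, all derivatives bounded for `|s| ≤ 1`
(the denominator has absolute value `≥ e^{-1}`). If the integrand is not zero for some `x` then `d(z, K₀) ≤ 1` (`dist_base_fl`), so `z` is in a
compact set `K₁`, and there the third derivative in `θ` of `h(base ..)` is at most `C A` (`norm_iteratedFDeriv_comp_le`, or compute the three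
derivatives by the chain rule). Three integrations by parts against `e^{2ijθ}` (periodic): `|∫| ≤ C A/|2j|³`; for `j = 0` it is at most `A`. -/
def StmtKf : Prop := ∀ K₀ : Set ℂ, IsCompact K₀ → K₀ ⊆ H0 → ∃ (K₁ : Set ℍ) (C : ℝ), IsCompact K₁ ∧ 0 ≤ C ∧
  ∀ (h : ℂ → ℝ) (A : ℝ), ContDiff ℝ ∞ h → tsupport h ⊆ K₀ → 0 ≤ A →
    (∀ j ≤ 3, ∀ z, ‖iteratedFDeriv ℝ j h z‖ ≤ A) → ∀ s : ℝ, |s| ≤ 1 → ∀ (z : ℍ) (j : ℤ),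
      (z ∉ K₁ → ∀ x : XC, h (base (Sct (z, x) * fl s) : ℂ) = 0) ∧
      ‖∫ x : XC, (h (base (Sct (z, x) * fl s) : ℂ) : ℂ) * cc x ^ (2 * j) ∂AddCircle.haarAddCircle‖ ≤
        C * A / (1 + |(j : ℝ)|) ^ 3

/-- **Mss** masses on compact sets (uses `TwG`, `Av.StmtUL`). Proof. `‖G_n‖²` is a continuous invariant function of `z` (`TwG` (6), `|ze| = 1`), so
`2 ∫_{K} ‖G_n‖² = ∑_γ ∫_{fdo} 1_K(γz) ‖G_n(z)‖² ≤ J π/3`, `J` the number of `γ` with `γ fdo ∩ K ≠ ∅` (finite: `Pl/U1.lean`, `fin_strip`,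
`compact_strip`; or use `Tot` on the group with `c = 1_n`). -/
def StmtMss : Prop := ∀ K : Set ℍ, IsCompact K → ∃ C : ℝ, 0 ≤ C ∧ ∀ (f : ℍ → ℝ) (t : ℝ),
  IsHeckeMaass f t → ∀ n : ℤ, ∫⁻ z in K, ‖Gf f t n (z : ℂ)‖ₑ ^ 2 ≤ ENNReal.ofReal C

/-- **Wk** unit times, smooth test functions (uses `NuL`, `NuR`, `TwG`, `FlD`, `Kf`, `Mss`). Proof. `Φ = Pb f t N b`,
`J(s) = ∫ h(base(g fl s)) |Φ g|² dν = ∫ h(base g) |Φ(g fl(-s))|²` (right invariance), so `J'(s) = -∫ h(base g) (Z|Φ|²)(g fl(-s)) = -∫ h_s Z|Φ|²`,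
`h_s(g) = h(base(g fl s))`, `Z|Φ|²(g) = d/dr |Φ(g fl r)|² at r = 0` `= 2 Re(conj Φ · i(t Φ + Ψ)) = -2 Im(conj Φ · Ψ)`, `Ψ = ∑ (-i)^n b¹_n F_n`, `b¹ = TT t b`
(computation in `Tay`; sums up to `N + 1`). `conj Φ Ψ = ∑_{m,n} i^m (-i)^n b_m b¹_n conj(F_m) F_n`; the sum is antisymmetrised by taking the imaginary
part: `2i Im(conj Φ Ψ) = ∑_{m,n} i^{m-n} (b_m b¹_n - b_n b¹_m) F_n conj F_m`. And `∫ h_s F_n conj F_m dν = ∫_ℍ ĥ_s(z, n-m) G_n conj G_m`,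
`ĥ_s(z, j) = ∫_x h_s(Sct(z,x)) cc(x)^{2j}`, so by `Kf` and `Mss` it is at most `C A (1+|n-m|)⁻³`. Hence
`|J'(s)| ≤ C A ∑_j (1+|j|)⁻³ ∑_n |b_n b¹_{n+j} - b_{n+j} b¹_n| ≤ C A ∑_j |j| (1+|j|)⁻³ t^{-1/2+3d}` (`Pack.anti`). Integrate from `0` to `s`. -/
def StmtWk : Prop := ∀ (d C₀ : ℝ), 0 < d → d ≤ 1 / 8 → 0 ≤ C₀ → ∀ K₀ : Set ℂ, IsCompact K₀ → K₀ ⊆ H0 →
  ∃ C : ℝ, 0 ≤ C ∧ ∀ (f : ℍ → ℝ) (t : ℝ), IsHeckeMaass f t → 1 ≤ t → ∀ (K N : ℕ) (b : ℤ → ℝ),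
    Pack d C₀ K t N b → ∀ (h : ℂ → ℝ) (A : ℝ), ContDiff ℝ ∞ h → tsupport h ⊆ K₀ → 0 ≤ A →
      (∀ j ≤ 3, ∀ z, ‖iteratedFDeriv ℝ j h z‖ ≤ A) → ∀ s : ℝ, |s| ≤ 1 →
        |(∫ g, h (base (g * fl s) : ℂ) * ‖Pb f t N b g‖ ^ 2 ∂nu) -
          ∫ g, h (base g : ℂ) * ‖Pb f t N b g‖ ^ 2 ∂nu| ≤ C * A * t ^ (-(1 / 2) + 3 * d)

/-! ### Means of `f² - S` and fourth moments -/

/-- **E2s** means of derivatives (model `Pl/E2.lean`; uses `Pl.StmtE1k`). Proof. As `Pl.StmtE2` with a radial bump `b_s(u) = β(|u|²)`, `β` nonincreasing, `β = 1` on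
`[0, s]`, `β = 0` on `[1, ∞)` (`Real.smoothTransition ((1 - |u|²)/(1 - s))`): then `∫ ‖dzb b_s‖ ≤ 2 ∫_0^1 |(β(ρ²))'| 2πρ dρ ≤ 4π` for all `s < 1`, so the
constant `C` of the first term does not depend on `s`, and the second term is `≤ C (1-s)² ∫ ζ² ‖dzb W‖²`; for fixed `W` let `s → 1`. -/
def StmtE2s : Prop := ∀ V : Set ℂ, IsOpen V → V ⊆ H0 → ∀ φ : ℂ → ℝ, TestR V φ → (∀ z, 0 ≤ φ z) →
  ∃ (ζ : ℂ → ℝ) (C r0 : ℝ), TestR V ζ ∧ 0 ≤ C ∧ 0 < r0 ∧ r0 ≤ 1 ∧ ∀ r : ℝ, 0 < r → r ≤ r0 →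
    ∀ W : ℂ → ℂ, ContDiff ℝ ∞ W →
      ∫ z, φ z * ‖Pl.Ed r (dzb W) z‖ ^ 2 ≤ C / r ^ 2 * ∫ z, ζ z ^ 2 * ‖W z‖ ^ 2

/-- **MfS** means of `|G_0|² - S` (uses `Pl.StmtE1`, `E2s`). Proof. On `V`, `u_n = |G_n|²`, `p_n = G_{n+1} conj G_n`:
`λ_n (u_{n+1} - u_n) = -i y dzb p_n - p_n = -i dzb(y p_n) - 2 p_n` (see `Sq.StmtMsS`, `dzb y = i`). So by `E2s` with `W = Im z · p_n` and `E1`
`(∫ φ ‖Ed r (u_{n+1} - u_n)‖²)^{1/2} ≤ (C/t)(1/r + 1) (∫ ζ₁ |p_n|²)^{1/2} ≤ C B^{1/2}/(r t)` (`λ_n ≥ t`; `|p_n|² ≤ (u_n² + u_{n+1}²)/2`). Telescope (`u_{-n} = u_n`):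
`‖Ed r (u_0 - u_n)‖ ≤ C |n| B^{1/2}/(r t)`, and `|G_0|² - S = ∑ w_n (u_0 - u_n)`, `∑ w_n = 1`, `w_n ≥ 0`. -/
def StmtMfS : Prop := ∀ V : Set ℂ, IsOpen V → V ⊆ H0 → ∀ φ : ℂ → ℝ, TestP V φ →
  ∃ (ζ : ℂ → ℝ) (C r0 : ℝ), TestP V ζ ∧ 0 ≤ C ∧ 0 < r0 ∧ ∀ (t : ℝ) (G : ℤ → ℂ → ℂ), 1 ≤ t → Tow V t G →
    ∀ (N : ℕ) (B r : ℝ) (w : ℤ → ℝ), 1 ≤ N → Up ζ G (N + 1) B → 0 < r → r ≤ r0 → (∀ n, 0 ≤ w n) →
      ∑ n ∈ Finset.Icc (-(N : ℤ)) N, w n = 1 →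
      ∫ z, φ z * (Pl.Ed r (fun z => ‖G 0 z‖ ^ 2) z -
        Pl.Ed r (fun z => ∑ n ∈ Finset.Icc (-(N : ℤ)) N, w n * ‖G n z‖ ^ 2) z) ^ 2 ≤
          C * ((N : ℝ) / (r * t)) ^ 2 * B

/-- **B4** a priori bounds on the half-plane (uses `TwG`, `Twc`, `Mss`, `Sq.StmtBoo`). Proof. `Half.setup` (for a test function which is one on `tsupport φ`) gives
`χ, V`, `tsupport φ ⊆ V`, `χ = 1` on `V`; `Sq.StmtBoo` for `V`, `κ`, `η` and the test function `φ y⁻²` (for `∫_ℍ φ F = ∫_ℂ φ y⁻² F`: `Half.int_eq`, `stmtInt`), the tower of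
`Twc`; `M` the bound of `∫ ζ ‖G_n‖²` from `Mss`; `‖G_0‖⁴ = f⁴` on `V`. -/
def StmtB4 : Prop := ∀ φ : ℂ → ℝ, TestP H0 φ → ∀ κ η : ℝ, 0 < κ → κ ≤ 1 / 2 → 0 < η →
  ∃ (ζ : ℂ → ℝ) (C : ℝ), TestP H0 ζ ∧ 0 ≤ C ∧ ∀ (f : ℍ → ℝ) (t : ℝ), IsHeckeMaass f t → 1 ≤ t →
    ∀ n : ℤ, |(n : ℝ)| ≤ t ^ (1 / 2 - κ) →
      ∫ z : ℍ, φ z * ‖Gf f t n (z : ℂ)‖ ^ 4 ≤ C * t ^ η * (1 + ∫ z : ℍ, ζ z * f z ^ 4)

/-- **Ky** the fourth moment and means of `f²` (uses `TwG`, `Twc`, `Mss`, `Sq.StmtKey`, `Sq.StmtLad`). Proof. `setup`, `Twc`; `Sq.StmtKey` for the plane test function `φ y⁻²`, `a = 0`,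
`D = B'`, `B' ≥ B` (fourth moments `≤ C B` for the plane test functions on `|n| ≤ 2N + 1`), `M` from `Mss`: `∫ φ f⁴ ≤ 3 √(∫ φ (Ed ρ f²)²) √(C B) + C (B (..) + (N+1)/t)`. Here the integrals of
`Ed` are over the plane, and `Ed ρ (‖G_0‖²) = Ed ρ (ext f²)` on `tsupport φ` for small `ρ` (the discs lie in `V`). For `ρ ≥ ρ₀` nothing is claimed. -/
def StmtKy : Prop := ∀ φ : ℂ → ℝ, TestP H0 φ → ∃ (ζ : ℂ → ℝ) (C ρ₀ : ℝ), TestP H0 ζ ∧ 0 ≤ C ∧ 0 < ρ₀ ∧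
  ∀ (f : ℍ → ℝ) (t : ℝ), IsHeckeMaass f t → 1 ≤ t → ∀ (N : ℕ) (B ρ : ℝ), (2 * (N : ℝ) + 2) ^ 2 ≤ t →
    0 ≤ B → U4 f t ζ (2 * N + 1) B → 0 < ρ → ρ ≤ ρ₀ →
      ∫ z : ℍ, φ z * f z ^ 4 ≤ C * √(∫ z : ℂ, ζ z * (Pl.Ed ρ (fun w => ext f w ^ 2) z) ^ 2) * √B +
        C * (B * (((N : ℝ) + 1) ^ 2 / t + ρ * t / ((N : ℝ) + 1) + (((N : ℝ) + 1) ^ 2)⁻¹) +
          ((N : ℝ) + 1) / t)

/-- **Tri4** the trivial bound (uses `TwG`, `Twc`, `Mss`, `Sq.StmtLad`). Proof. `setup`, `Twc`, `Sq.StmtLad` with `n = 0`. -/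
def StmtTri4 : Prop := ∀ φ : ℂ → ℝ, TestP H0 φ → ∃ C : ℝ, 0 ≤ C ∧ ∀ (f : ℍ → ℝ) (t : ℝ),
  IsHeckeMaass f t → 1 ≤ t → ∫ z : ℍ, φ z * f z ^ 4 ≤ C * t ^ 2

end

end Pool.Agent.A54.Hp
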