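import Pool.Agent.Lib.MP_a54f13_nt.Hp.SpecA
import Pool.Agent.Lib.MP_a54f13_nt.Hp.DefsB

/-!
# Package `Hp`, part B: pairs of geodesics, kernels

Architect: helper39 (THEOREM A, note 4597 of MP_a54f13_nt). Conventions as in `Hp/SpecM.lean`: file
`Pool/Agent/Lib/MP_a54f13_nt/Hp/<Name>.lean` importing `Pool.Agent.Lib.MP_a54f13_nt.Hp.SpecB`, private names in
`namespace Pool.Agent.A54.Hp.<Name>M`, final theorem `stmt<Name> : Stmt<Name>`, the used statements are hypotheses.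
Useful: `Dyn/Base.lean` (`mul_00`, `inv_00`, `det_eq`, `base_mul`, `dist_base_fl`, `isCompact_base`), `Hp/LBase.lean`
(`xi_mul_0`, `xi_mul_1`, `xi_mul_2`, `Om_mul`, `Om_inv`, ..), `IntLap.lean`, `Pl/Defs.lean` (`Ed`, `lin`), `Pl/L1.lean`.
-/

set_option autoImplicit false

namespace Pool.Agent.A54.Hp

open MeasureTheory Filter Topology Set
open scoped ContDiff ComplexConjugate UpperHalfPlane MatrixGroups ENNReal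
open Pool.Agent.A54.Dyn (G fl base ze io mk4 dom)
open Pool.Agent.A54.Dyn.LiftM (Sct XC XX cc rot m0)
open Pool.Agent.A54.Half (H0)
open Pool.Agent.A54.Sq (la TestP)

noncomputable section

/-! ### Geometry -/

/-- **Ug** the function `u` and pairs of geodesics. Proof. `uh z w = 2 cosh (dist z w) - 2` (`UpperHalfPlane.cosh_dist`), so `uh` is invariant.
`uh I (base h) = ∑ h_ij² - 2 = (h₀₀ - h₁₁)² + (h₀₁ + h₁₀)²` (`det h = 1`; `base_coe`), applied to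
`h = (y fl(-τ))⁻¹ y' fl(-σ) = fl τ g fl(-σ) = (g₀₀ e^{(τ-σ)/2}, g₀₁ e^{(τ+σ)/2}; g₁₀ e^{-(τ+σ)/2}, g₁₁ e^{-(τ-σ)/2})`, `g = y⁻¹ y'`. `g wr = (-g₀₁, g₀₀; -g₁₁, g₁₀)`.
Last part: `xi g - (1,0,0) = (2 g₀₁ g₁₀, -g₀₀ g₀₁, g₁₀ g₁₁)` is at most `2 R η`, and `xi (y g)` is `xi g` transformed by the linear map
`X ↦ y X y⁻¹` with coefficients at most `4 R²` (`xi_mul_0` etc. in `LBase.lean`). -/
def StmtUg : Prop :=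
  (∀ (g : G) (z w : ℍ), uh (g • z) (g • w) = uh z w) ∧
  (∀ z w : ℍ, uh z w = 2 * Real.cosh (dist z w) - 2) ∧
  (∀ (y y' : G) (τ σ : ℝ), uh (base (y * fl (-τ))) (base (y' * fl (-σ))) =
    ((y⁻¹ * y') 0 0 * Real.exp ((τ - σ) / 2) - (y⁻¹ * y') 1 1 * Real.exp (-((τ - σ) / 2))) ^ 2 +
    ((y⁻¹ * y') 0 1 * Real.exp ((τ + σ) / 2) + (y⁻¹ * y') 1 0 * Real.exp (-((τ + σ) / 2))) ^ 2) ∧
  (∀ (g : G) (i : Fin 3), xi (g * wr) i = -xi g i) ∧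
  (∀ (R : ℝ) (g : G), g ∈ Om R ↔ g * wr ∈ Om R) ∧
  ∀ R : ℝ, 1 ≤ R → ∃ C : ℝ, 0 ≤ C ∧ ∀ (y g : G) (η : ℝ), y ∈ Om R → g ∈ Om R →
    |g 0 1| ≤ η → |g 1 0| ≤ η → ∀ i, |xi (y * g) i - xi y i| ≤ C * η

/-- **Po** polar coordinates and the substitution `ξ = 2 c sinh(x + α)`. Proof. `integral_comp_polarCoord_symm`/`lintegral_comp_polarCoord_symm`:
`∫⁻∫⁻ F(x² + y²) = 2π ∫⁻_{r > 0} r F(r²) dr`, and `u = r²` (`lintegral_image_eq_lintegral_abs_deriv_mul`). Second part: the same lemma for the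
bijection `x ↦ 2 c sinh (x + α)` of the line (`Real.sinh_surjective`, strictly monotone). -/
def StmtPo : Prop :=
  (∀ F : ℝ → ℝ≥0∞, Measurable F → ∫⁻ x : ℝ, ∫⁻ y : ℝ, F (x ^ 2 + y ^ 2) =
    ENNReal.ofReal Real.pi * ∫⁻ u in Ioi (0 : ℝ), F u) ∧
  ∀ c α : ℝ, 0 < c → ∀ F : ℝ → ℝ≥0∞, Measurable F →
    ∫⁻ x : ℝ, ENNReal.ofReal (2 * c * Real.cosh (x + α)) * F (2 * c * Real.sinh (x + α)) = ∫⁻ ξ : ℝ, F ξ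

/-- **Lh** the measure of the half-plane. Proof. As `IntLap.int_gen`: `UpperHalfPlane.volume_def`, `lintegral_withDensity_eq_lintegral_mul`, and the
measurable embedding `ℍ → ℂ`. -/
def StmtLh : Prop := ∀ F : ℂ → ℝ≥0∞, Measurable F →
  ∫⁻ z : ℍ, F z = ∫⁻ z in {z : ℂ | 0 < z.im}, ENNReal.ofReal (1 / z.im ^ 2) * F z

/-- **Ar** area formula (uses `Ug`, `Po`, `Lh`). Proof. By invariance (`uh (g • z) (g • w) = uh z w`, `measurePreserving_smul`) `z = I`. In the plane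
`u(I, x + iy) = (x² + (y-1)²)/y`; substitute `y = e^{2η}` and then, for fixed `η`, `x = e^η v`: `u = v² + 4 sinh² η`,
`dx dy/y² = 2 e^{-η} dv dη`. So the integral is `∫⁻_η ∫⁻_v 2 e^{-η} k(v² + 4 sinh² η)`; average with `η ↦ -η`: `∫⁻_η ∫⁻_v 2 cosh η k(v² + (2 sinh η)²)
= ∫⁻∫⁻ k(v² + s²) ds dv` (`Po` (2), `c = 1`, `α = 0`) `= π ∫⁻ k` (`Po` (1)). -/
def StmtAr : Prop := ∀ k : ℝ → ℝ≥0∞, Measurable k → ∀ z : ℍ,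
  ∫⁻ w : ℍ, k (uh z w) = ENNReal.ofReal Real.pi * ∫⁻ u in Ioi (0 : ℝ), k u

/-- **Hm** two-point homogeneity (uses `Ug`). Proof. It is enough to move `(z, w)` to `(I, i s)`, `s ≥ 1`: then `uh I (i s) = s + 1/s - 2` determines `s`.
`z` to `I`: `(toSL2R z)⁻¹`. Rotations `k_θ = mk4 (cos θ) (sin θ) (-sin θ) (cos θ)` fix `I`; `θ ↦ re (k_θ • w)` is continuous, and
`k_{π/2} • w = -1/w` has real part `- re w/|w|²`: by the intermediate value theorem `re (k_θ • w) = 0` for some `θ`, so `k_θ • w = i s`, and if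
`s < 1` apply `k_{π/2}`: `s ↦ 1/s`. -/
def StmtHm : Prop := ∀ z w z' w' : ℍ, uh z w = uh z' w' → ∃ g : G, g • z = z' ∧ g • w = w'

/-! ### Kernels -/

/-- **K2** the convolution square of the indicator kernel (uses `Ug`, `Ar`, `Hm`). Proof. `r² = ρ²(1 + 2ρ)`. `M(w, w') = ∫⁻_z kk r (u(z, w)) kk r (u(z, w'))` is
invariant under `G` (substitute `z ↦ g z`), so by `Hm` it is a function of `u(w, w')`: `k(x) = M(I, i s)` with `s ≥ 1`, `s + 1/s - 2 = max x 0`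
(`s = 1 + x/2 + √(x + x²/4)`), measurable in `x` (Tonelli, `Measurable.lintegral_prod_right`). `k ≤ (π r²)⁻¹ ∫⁻ kk r = (π r²)⁻¹ ≤ 9/(π (3ρ)²)` (`Ar`:
`π ∫ kk r = 1`). Support: `u(z,w), u(z,w') < r²` gives `d(w,w') < 2 ρ₁`, `4 sinh²(ρ₁/2) = r²`, `u(w,w') < 4 sinh² ρ₁ = 4 r² (1 + r²/4) ≤ 9ρ²`
(`Ug` (2), `cosh`). `π ∫ k = 1`: `Ar` for `k` and Tonelli, `Ar` for `kk r` twice. For `x < 0` the value does not matter (`max x 0`; if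
`x < 0` then `k x ≤ C₀/a²` as well). -/
def StmtK2 : Prop := ∃ C₀ : ℝ, 0 ≤ C₀ ∧ ∀ ρ : ℝ, 0 < ρ → ρ ≤ 1 / 8 → ∃ k : ℝ → ℝ, Ker C₀ (3 * ρ) k ∧
  ∀ w w' : ℍ, ∫⁻ z : ℍ, ENNReal.ofReal (kk (√(ρ ^ 2 * (1 + 2 * ρ))) (uh z w) *
    kk (√(ρ ^ 2 * (1 + 2 * ρ))) (uh z w')) = ENNReal.ofReal (k (uh w w'))

/-- **EdU** Euclidean discs (uses `Lh`). Proof. `r² = ρ²(1 + 2ρ)`, `y = im z`. `Ed ρ F z = (π ρ² y²)⁻¹ ∫_{|w - z| < ρ y} F(w) dw` (substitution `w = z + ρ y u`). In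
this disc `im w ∈ [y(1-ρ), y(1+ρ)]`, so `uh z w = |z-w|²/(y im w) < ρ²/(1-ρ) ≤ r²` and `dw = (im w)² dμ(w) ≤ y² (1+ρ)² dμ(w)`. So
`Ed ρ F z ≤ (1+ρ)² (π ρ²)⁻¹ ∫_{uh z w < r²} F dμ = (1+ρ)² (1+2ρ) ∫ kk r (uh z w) F(w) dμ(w)` and `(1+ρ)² (1+2ρ) ≤ 1 + 10 ρ`. Integrable: `uh z w < r²` is a
bounded set of `w` (relatively compact in `ℍ`), `F` continuous. -/
def StmtEdU : Prop := ∀ ρ : ℝ, 0 < ρ → ρ ≤ 1 / 8 → ∀ F : ℂ → ℝ, ContinuousOn F H0 → (∀ z, 0 ≤ F z) → ∀ z : ℍ,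
  Integrable (fun w : ℍ => kk (√(ρ ^ 2 * (1 + 2 * ρ))) (uh z w) * F w) ∧
  Pl.Ed ρ F z ≤ (1 + 10 * ρ) * ∫ w : ℍ, kk (√(ρ ^ 2 * (1 + 2 * ρ))) (uh z w) * F w

/-- **Pv** mean squares of `Ed` (uses `Lh`, `K2`, `EdU`, `Ar`). Proof. `r` as in `K2`, `A(z) = ∫ kk r (uh z w) F(w) dμ(w)`. By `EdU` and `Lh` the left side is at most
`(1 + 10ρ)² ∫⁻_ℍ φ y² A²`, and by Tonelli `∫⁻_ℍ φ y² A² = ∫⁻_w ∫⁻_{w'} F(w) F(w') ∫⁻_z φ(z) y² kk(u(z,w)) kk(u(z,w'))`. If `u(z,w) < r²` then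
`φ(z) (im z)² ≤ φ(w) (im w)² + C r ζ(w)` (`φ y²` is smooth with compact support, so Lipschitz for the hyperbolic distance: `|φ y² (z) - φ y² (w)| ≤ C d(z,w)`,
`d(z,w) ≤ r` (`4 sinh²(d/2) < r²`); `ζ ∈ TestP H0`, `ζ ≥ 1` on the `1`-neighbourhood of `tsupport φ`, `ζ ≥ 0`). By `K2` the inner integral is at most
`(φ(w)(im w)² + C r ζ(w)) k(u(w,w'))`. Finally `(1+10ρ)² ≤ 1 + 30ρ` and `φ y² ≤ C ζ`. -/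
def StmtPv : Prop := ∃ (C₀ : ℝ) (kf : ℝ → ℝ → ℝ), 0 ≤ C₀ ∧
  (∀ ρ : ℝ, 0 < ρ → ρ ≤ 1 / 8 → Ker C₀ (3 * ρ) (kf ρ)) ∧
  ∀ φ : ℂ → ℝ, TestP H0 φ → ∃ (ζ : ℂ → ℝ) (C : ℝ), TestP H0 ζ ∧ 0 ≤ C ∧ ∀ ρ : ℝ, 0 < ρ → ρ ≤ 1 / 8 →
    ∀ F : ℂ → ℝ, ContinuousOn F H0 → (∀ z, 0 ≤ F z) →
      ENNReal.ofReal (∫ z : ℂ, φ z * (Pl.Ed ρ F z) ^ 2) ≤
        V2 (fun z => φ z * z.im ^ 2) (kf ρ) (fun z => F z) (fun z => F z) +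
          ENNReal.ofReal (C * ρ) * V2 ζ (kf ρ) (fun z => F z) (fun z => F z)

/-- **Sch** Schur's test (uses `Ar`). Proof. `∫⁻_w k(uh z w) = ∫⁻_z k(uh z w) = 1` (`Ar`, `uh` symmetric, `Ker.one`); `ζ ∈ TestP H0` with `ζ ≥ max 1 (sup φ)` on the closed
hyperbolic `1`-neighbourhood of `tsupport φ`, `a₀ = 1/2` (`u < a₀²` implies `d < 1`). (1) Cauchy–Schwarz: `(∫∫ φ k |S| |S'|)² ≤ ∫∫ φ(z) k S(z)² · ∫∫ φ(z) k S'(w)²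
≤ ∫ φ S² · ∫ ζ S'²`. (2) `k ≤ C₀/a²`. (3) `S₁ S₁' ≤ S₂ S₂' + |S₁ - S₂| S₁' + S₂ |S₁' - S₂'|` pointwise and (1). Everything is continuous with
compact support (in `z` and, because of `k`, in `w`), so all integrals are finite. -/
def StmtSch : Prop := ∀ φ : ℂ → ℝ, TestP H0 φ → ∃ (ζ : ℂ → ℝ) (C a₀ : ℝ), TestP H0 ζ ∧ (∀ z, φ z ≤ ζ z) ∧
  0 ≤ C ∧ 0 < a₀ ∧ a₀ ≤ 1 ∧ ∀ (C₀ a : ℝ) (k : ℝ → ℝ), a ≤ a₀ → Ker C₀ a k →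
    (∀ S S' : ℍ → ℝ, Continuous S → Continuous S' →
      V2 φ k (fun z => |S z|) (fun z => |S' z|) ≤
        ENNReal.ofReal (C * (√(∫ z : ℍ, ζ z * S z ^ 2) * √(∫ z : ℍ, ζ z * S' z ^ 2))) ∧
      ((∀ z, 0 ≤ S z) → (∀ z, 0 ≤ S' z) → V2 φ k S S' ≤
        ENNReal.ofReal (C * C₀ / a ^ 2 * ((∫ z : ℍ, ζ z * S z) * ∫ z : ℍ, ζ z * S' z)))) ∧
    ∀ S₁ S₂ S₁' S₂' : ℍ → ℝ, Continuous S₁ → Continuous S₂ → Continuous S₁' → Continuous S₂' →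
      (∀ z, 0 ≤ S₁ z) → (∀ z, 0 ≤ S₂ z) → (∀ z, 0 ≤ S₁' z) → (∀ z, 0 ≤ S₂' z) →
      V2 φ k S₁ S₁' ≤ V2 φ k S₂ S₂' + ENNReal.ofReal (C *
        (√(∫ z : ℍ, ζ z * (S₁ z - S₂ z) ^ 2) * √(∫ z : ℍ, ζ z * S₁' z ^ 2) +
          √(∫ z : ℍ, ζ z * S₂ z ^ 2) * √(∫ z : ℍ, ζ z * (S₁' z - S₂' z) ^ 2)))

/-- **Sk** smooth kernels. Proof. `ct > 0` (`smoothTransition (2 - 2u) = 1` for `u ≤ 1/2`, `0` for `u ≥ 1`). `Ker`: `C₀ = 1/ct`, substitution `u ↦ e² u`. `e₀ = 1/4`, `K₀` a compact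
neighbourhood: the closed hyperbolic `1`-neighbourhood of `K`. On `H0`, `w ↦ |z - w|²/(im z im w)` is smooth, and on a compact neighbourhood of `K₀` in `H0` its
derivatives of order `≤ 3` are at most a constant `D ≥ 1` (uniformly in `z ∈ K`); `hk (sk e) z` is the composition with `x ↦ smoothTransition (2 - 2x/e²)/(ct e²)`,
whose derivatives of order `j ≤ 3` are at most `C e^{-2-2j}`: `norm_iteratedFDeriv_comp_le` gives `C e^{-8}`. It vanishes for `w ∉ K₀` (also near the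
boundary of `H0`: `hk = 0` if `im w` is small), so it is smooth on `ℂ` and its support is in `K₀`. -/
def StmtSk : Prop := 0 < ct ∧ (∃ C₀ : ℝ, 0 ≤ C₀ ∧ ∀ e : ℝ, 0 < e → Ker C₀ e (sk e)) ∧
  ∀ K : Set ℍ, IsCompact K → ∃ (K₀ : Set ℂ) (C e₀ : ℝ), IsCompact K₀ ∧ K₀ ⊆ H0 ∧ 0 ≤ C ∧ 0 < e₀ ∧ e₀ ≤ 1 ∧
    ∀ e : ℝ, 0 < e → e ≤ e₀ → ∀ z ∈ K, ContDiff ℝ ∞ (hk (sk e) z) ∧ tsupport (hk (sk e) z) ⊆ K₀ ∧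
      ∀ j ≤ 3, ∀ w, ‖iteratedFDeriv ℝ j (hk (sk e) z) w‖ ≤ C * e⁻¹ ^ 8

/-! ### Time averages on the group -/

/-- **Sti** integrals of `S^τ` (uses `NuR`). Proof. `(τ, z) ↦ St Φ τ z` is continuous (parametric integral of a continuous function over the compact circle;
`Sct`, `fl` continuous). `ofReal (St Φ τ z) = ∫⁻_x ‖Φ (Sct (z, x) fl τ)‖ₑ²`; `nu = m0.map Sct`, `base (Sct (z, x)) = z`, so the left side is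
`∫⁻ H(base g) ‖Φ (g fl τ)‖ₑ² dν(g)`, and `g ↦ g fl(-τ)` (right invariance). -/
def StmtSti : Prop := ∀ Φ : G → ℂ, Continuous Φ → Continuous (fun p : ℝ × ℍ => St Φ p.1 p.2) ∧
  (∀ τ z, 0 ≤ St Φ τ z) ∧ ∀ (τ : ℝ) (H : ℍ → ℝ≥0∞), Measurable H →
    ∫⁻ z : ℍ, H z * ENNReal.ofReal (St Φ τ z) = ∫⁻ g, H (base (g * fl (-τ))) * ‖Φ g‖ₑ ^ 2 ∂nu

/-- **Qi** the pair formula (uses `Sti`). Proof. For fixed `τ, σ` apply `Sti` in the variable `w` and then in `z`: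
`V2 φ k S^τ S^σ = ∫⁻_y ∫⁻_{y'} ‖Φ y‖² ‖Φ y'‖² ofReal (φ(z_τ) k(uh z_τ z'_σ))`; Tonelli (all functions measurable: `k` measurable, the others continuous, `nu` is
`σ`-finite: `NuL`). -/
def StmtQi : Prop := ∀ Φ : G → ℂ, Continuous Φ → ∀ φ : ℂ → ℝ, TestP H0 φ → ∀ k χ : ℝ → ℝ, Measurable k →
  (∀ u, 0 ≤ k u) → Continuous χ → (∀ x, 0 ≤ χ x) →
    Aw Φ φ k χ = ∫⁻ y, ∫⁻ y', ‖Φ y‖ₑ ^ 2 * ‖Φ y'‖ₑ ^ 2 * Ik φ k χ y y' ∂nu ∂nu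

/-- **Qa** crossing geodesics (uses `Ug`, `Po`). Proof. `g = y⁻¹ y'`, `P = √(g₀₀ g₁₁)`, `Q = √(-g₀₁ g₁₀)`, `P² + Q² = 1`, `P, Q ≥ θ`; `e^{2α} = g₀₀/g₁₁`,
`e^{2β} = -g₀₁/g₁₀`: `g₀₀ e^x - g₁₁ e^{-x} = ± 2P sinh(x + α)`, `g₀₁ e^y + g₁₀ e^{-y} = ± 2Q sinh(y + β)`. Substitute `τ = y + x`, `σ = y - x` (`dτ dσ = 2 dx dy`; first `σ = τ - 2x`,
then `τ = y + x`) and `ξ₁ = 2P sinh(x + α)`, `ξ₂ = 2Q sinh(y + β)` (`Po` (2)): `Ik = (2PQ)⁻¹ ∫⁻∫⁻ F(ξ) k(ξ₁² + ξ₂²)`, `F = χ(τ) χ(σ) φ(z_τ)/(cosh X cosh Y)`,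
`X = x + α`, `Y = y + β`. `k(|ξ|²) ≠ 0` only for `|ξ| < a`, and then `|X|, |Y| ≤ a/(2θ)`, `|τ - τ*|, |σ - σ*| ≤ |X| + |Y|` (`τ* = -α-β`, `σ* = α - β`), so
`|F(ξ) - F*| ≤ C (1/τ₀ + 1)(|X| + |Y|) ≤ C a/(θ τ₀)` with `F* = χ(τ*) χ(σ*) φ(z_τ*)` (`χ = ch τ₀` is `1/τ₀`-Lipschitz and `≤ 1`; `φ(z_τ)` is Lipschitz in `τ`:
`dist_base_fl`, `φ` Lipschitz for the hyperbolic distance and bounded; `1 - 1/(cosh X cosh Y) ≤ |X| + |Y|`). By `Po` (1) `∫⁻∫⁻ k(|ξ|²) = 1`. So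
`Ik φ k ≤ (2PQ)⁻¹ (F* + E)`, `Ik φ k' ≥ (2PQ)⁻¹ (F* - E)`, `E = C ε/(θ τ₀)`, and `2 P Q ≥ θ` (`max(P,Q) ≥ 1/√2`). Second claim: `F ≤ sup φ`. -/
def StmtQa : Prop := ∀ φ : ℂ → ℝ, TestP H0 φ → ∃ C : ℝ, 0 ≤ C ∧ ∀ (τ₀ a ε θ C₀ : ℝ) (k k' : ℝ → ℝ),
  0 < τ₀ → τ₀ ≤ 1 → Ker C₀ a k → Ker C₀ ε k' → a ≤ ε → ε ≤ θ → ∀ y y' : G,
    θ ^ 2 ≤ (y⁻¹ * y') 0 0 * (y⁻¹ * y') 1 1 → θ ^ 2 ≤ -((y⁻¹ * y') 0 1 * (y⁻¹ * y') 1 0) →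
    Ik φ k (ch τ₀) y y' ≤ Ik φ k' (ch τ₀) y y' + ENNReal.ofReal (C * ε / (θ ^ 2 * τ₀)) ∧
    Ik φ k (ch τ₀) y y' ≤ ENNReal.ofReal (C / θ)

/-- **Qb** general pairs (uses `Ug`). Proof. `g = y⁻¹ y' = (p, q; r, s)`, `p s - q r = 1`, so `|p s| ≥ 1/2` or `|q r| ≥ 1/2`. If `Ik ≠ 0` there are `|τ|, |σ| ≤ τ₀ ≤ 1` with
`φ(z_τ) ≠ 0` and `u < a² ≤ 1`, `u = (p e^x - s e^{-x})² + (q e^y + r e^{-y})²`, `x = (τ-σ)/2`, `y = (τ+σ)/2`; so `z_τ ∈ tsupport φ`, `z'_σ` is within distance `1`, and `y, y'` are in a compact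
set, contained in `Om R` (`isCompact_base`, `dist_base_fl`). (1) area of `{u < a²}` in `[-1,1]²`: if `p s ≥ 1/2`: `|2 √(ps) sinh(x + α)| < a` gives `|x + α| ≤ a`; if `p s ≤ -1/2`:
`|p e^x - s e^{-x}| ≥ 2√|ps| > 1 ≥ a`, no points; if `q r ≤ -1/2` the same with `y`, if `q r ≥ 1/2` no points. So the area is `≤ C a` and `Ik ≤ sup φ · C₀ a⁻² · C a`.
(2) `|q r| ≤ η²`, `a ≤ η`: `(|q| e^y - |r| e^{-y})² ≤ (q e^y + r e^{-y})² < a²` or (`q r ≥ 0`) `|q| e^y + |r| e^{-y} < a`; in all cases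
`(|q| e^y + |r| e^{-y})² ≤ a² + 4 η²`, so `|q|, |r| ≤ 3 e η`; `Ug` (last part), `y' = y g`. (3) `|p s| ≤ η²`: in the same way `|p|, |s| ≤ 3 e η`; `g wr = (-q, p; -s, r)` has small
off-diagonal entries, `xi (y' wr) = - xi y'`. (4) `|ps|, |qr| > η² ≥ a²`: if `p s < 0` then `u ≥ 4 |ps| > a²`, if `q r > 0` then `u ≥ 4 |qr| > a²`: impossible. -/
def StmtQb : Prop := ∀ φ : ℂ → ℝ, TestP H0 φ → ∀ C₀ : ℝ, 0 ≤ C₀ → ∃ R C : ℝ, 1 ≤ R ∧ 0 ≤ C ∧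
  ∀ (τ₀ a : ℝ) (k : ℝ → ℝ), 0 < τ₀ → τ₀ ≤ 1 → a ≤ 1 → Ker C₀ a k → ∀ y y' : G,
    Ik φ k (ch τ₀) y y' ≤ ENNReal.ofReal (C / a) ∧
    (Ik φ k (ch τ₀) y y' ≠ 0 → y ∈ Om R ∧ y' ∈ Om R ∧ ∀ η : ℝ, a ≤ η →
      (|(y⁻¹ * y') 0 1 * (y⁻¹ * y') 1 0| ≤ η ^ 2 → ∀ i, |xi y' i - xi y i| ≤ C * η) ∧
      (|(y⁻¹ * y') 0 0 * (y⁻¹ * y') 1 1| ≤ η ^ 2 → ∀ i, |xi y' i + xi y i| ≤ C * η) ∧
      (η ^ 2 < |(y⁻¹ * y') 0 1 * (y⁻¹ * y') 1 0| → η ^ 2 < |(y⁻¹ * y') 0 0 * (y⁻¹ * y') 1 1| →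
        η ^ 2 < (y⁻¹ * y') 0 0 * (y⁻¹ * y') 1 1 ∧ η ^ 2 < -((y⁻¹ * y') 0 1 * (y⁻¹ * y') 1 0)))

/-- **Q** comparison of two scales (uses `NuR`, `Ug`, `Qi`, `Qa`, `Qb`). Proof. `R` from `Qb`, constants enlarged. `g = y⁻¹ y'`, `A = |g₀₁ g₁₀|`, `B = |g₀₀ g₁₁|`, `m = min A B`. For every pair
`Ik φ k ≤ Ik φ k' + 1[y, y' ∈ Om R] (C ε/(θ² τ₀) + ∑_{j ≤ J} C (2^j a)⁻¹ (1[|xi y' - xi y| ≤ C 2^j a] + 1[|xi y' + xi y| ≤ C 2^j a]))`: let `Ik φ k ≠ 0`. If `m ≤ a²`: `Ik ≤ C/a`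
and (`Qb` with `η = a`) one of the indicators with `j = 0` is one. If `(2^{j-1} a)² < m ≤ (2^j a)²`, `1 ≤ j ≤ J`: `Qb` with `η = 2^{j-1} a` (crossing) and `Qa` (second claim, `θ = ε = 2^{j-1}a`
or `ε = a`, `k' = k`) give `Ik ≤ C/(2^{j-1} a)`, and `Qb` with `η = 2^j a` the indicator. If `m > (2^J a)² ≥ θ²`: `Qb` with `η = 2^J a`, `Qa` (first claim). Integrate against
`‖Φ y‖² ‖Φ y'‖²` (`Qi` for `k` and `k'`). The first indicator gives `Cw Φ R (C 2^j a)`; the second too: substitute `y' ↦ y' wr` (`NuR`, `‖Φ(y' wr)‖ = ‖Φ y'‖`, `xi (y' wr) = - xi y'`,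
`Om R wr = Om R`). -/
def StmtQ : Prop := ∀ φ : ℂ → ℝ, TestP H0 φ → ∀ C₀ : ℝ, 0 ≤ C₀ → ∃ R C : ℝ, 1 ≤ R ∧ 1 ≤ C ∧
  ∀ Φ : G → ℂ, Continuous Φ → (∀ g, ‖Φ (g * wr)‖ = ‖Φ g‖) →
    ∀ (τ₀ a ε θ : ℝ) (k k' : ℝ → ℝ) (J : ℕ), 0 < τ₀ → τ₀ ≤ 1 → Ker C₀ a k → Ker C₀ ε k' → a ≤ ε →
      ε ≤ θ → θ ≤ 1 → θ ≤ 2 ^ J * a →
      Aw Φ φ k (ch τ₀) ≤ Aw Φ φ k' (ch τ₀) + ENNReal.ofReal (C * ε / (θ ^ 2 * τ₀)) * ms Φ (Om R) ^ 2 +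
        ENNReal.ofReal C * ∑ j ∈ Finset.range (J + 1),
          ENNReal.ofReal ((2 ^ j * a)⁻¹) * Cw Φ R (C * (2 ^ j * a))

end

end Pool.Agent.A54.Hp
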