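import Pool.Agent.Lib.MP_a54f13_nt.Hp.SpecB

/-!
# Package `Hp`, part C: the two steps, the bootstrap, the conclusion of the analysis

Architect: helper39 (THEOREM A, note 4597 of MP_a54f13_nt). Conventions as in `Hp/SpecM.lean`: file
`Pool/Agent/Lib/MP_a54f13_nt/Hp/<Name>.lean` importing `Pool.Agent.Lib.MP_a54f13_nt.Hp.SpecC`, private names in
`namespace Pool.Agent.A54.Hp.<Name>M`, final theorem `stmt<Name> : Stmt<Name>`, the used statements are hypotheses.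

Numbers: `d = c/800` (packets), `ρ = rh c t = t^(-1/2-d/2)`, times `t^(-4d) = t^(-c/200)`, `θ = t^(-1/80)`, `ε₁ = t^(-1/20)`.
-/

set_option autoImplicit false

namespace Pool.Agent.A54.Hp

open MeasureTheory Filter Topology Set
open scoped ContDiff ComplexConjugate UpperHalfPlane MatrixGroups ENNReal
open Pool.Agent.A54.Dyn (G fl base ze io mk4 dom)
open Pool.Agent.A54.Dyn.LiftM (Sct XC XX cc rot m0)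
open Pool.Agent.A54.Half (H0)
open Pool.Agent.A54.Sq (la TestP)

noncomputable section

/-! ### Cuspidality -/

/-- **Cus** the functions are cuspidal (uses `TwG`). Proof. `c_n(y) = ∫_0^1 Gf f t n (x + iy) dx`. `n = 0`: `cuspidal`. `Gf f t n (z + 1) = Gf f t n z` (invariance of `Ff`
under `T`, `ze` unchanged). Induction on `n ≥ 0`: integrate `TwG` (2) over `x ∈ [0,1]`: `dz = ∂_x - i ∂_y`, the `∂_x` part integrates to zero (periodicity), so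
`λ_n c_{n+1} = y c_n' + n c_n = 0` (differentiation under the integral: smooth on `H0`). Negative `n`: conjugate. For the group: `ze (u(x) g) = ze g`,
`base (u(x) g) = base g + x`, `u(x) = mk4 1 x 0 1`, and `∫_0^1 G_n(z + x) dx = c_n(im z)` (periodic). -/
def StmtCus : Prop := ∀ (f : ℍ → ℝ) (t : ℝ), IsHeckeMaass f t →
  (∀ (n : ℤ) (y : ℝ), 0 < y → ∫ x in (0 : ℝ)..1, Gf f t n ⟨x, y⟩ = 0) ∧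
  ∀ (N : ℕ) (c : ℤ → ℂ) (g : G), ∫ x in (0 : ℝ)..1, Ph f t N c (mk4 1 x 0 1 (by norm_num) * g) = 0

/-! ### Replacing `S` by time averages -/

/-- **Asw** short windows (uses `NuR`, `Fib`, `Sta`, `Sch`, `Sti`). Proof. `τ₀ = t^(-c/200)`, `∫ ch τ₀ = τ₀`. `ζ₁, C, a₀` from `Sch` for `φ`, `ζ` from `Sta` for `ζ₁` (`d = c/800`). `S = St Φ 0 = Sb`
(`Fib`), `∫ ζ₁ S² ≤ ∑ b_n² ∫ ζ₁ |G_n|⁴ ≤ B`, `∫ ζ₁ (S^τ - S)² ≤ C t^(-4d) B` for `|τ| ≤ τ₀`, so `∫ ζ₁ (S^τ)² ≤ C B`. `Sch` (3), both ways: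
`V2 φ k S S ≤ V2 φ k S^τ S^σ + ofReal (C t^(-2d) B)` and conversely, `2d = c/400`; multiply by `ch τ · ch σ` and integrate. -/
def StmtAsw : Prop := ∀ c : ℝ, 0 < c → c ≤ 1 → ∃ K₀ : ℕ, ∀ K : ℕ, K₀ ≤ K → ∀ C₀ : ℝ, 0 ≤ C₀ → ∀ φ : ℂ → ℝ, TestP H0 φ →
  ∃ (ζ : ℂ → ℝ) (C t₀ a₀ : ℝ), TestP H0 ζ ∧ (∀ z, φ z ≤ ζ z) ∧ 0 ≤ C ∧ 1 ≤ t₀ ∧ 0 < a₀ ∧
    ∀ (v : ℝ → ℝ) (l : ℕ → ℝ) (f : ℍ → ℝ) (t : ℝ) (N : ℕ) (b : ℤ → ℝ), Dt c v C₀ K l f t N b → t₀ ≤ t →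
      ∀ B : ℝ, 0 ≤ B → U4 f t ζ (N + K) B → ∀ (C₁ a : ℝ) (k : ℝ → ℝ), a ≤ a₀ → Ker C₁ a k →
        ENNReal.ofReal (t ^ (-(c / 100))) * V2 φ k (Sb f t N b) (Sb f t N b) ≤
          Aw (Pb f t N b) φ k (ch (t ^ (-(c / 200)))) +
            ENNReal.ofReal (t ^ (-(c / 100)) * (C * t ^ (-(c / 400)) * B)) ∧
        Aw (Pb f t N b) φ k (ch (t ^ (-(c / 200)))) ≤
          ENNReal.ofReal (t ^ (-(c / 100))) * V2 φ k (Sb f t N b) (Sb f t N b) +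
            ENNReal.ofReal (t ^ (-(c / 100)) * (C * t ^ (-(c / 400)) * B))

/-- **WkV** unit windows, smooth kernels (uses `NuR`, `Tot`, `Fib`, `Wk`, `Sk`, `Sti`, `Ug`). Proof. `∫ ch 1 = 1`. Let `|τ|, |σ| ≤ 1`, `z ∈ tsupport φ`, `h = hk (sk e) z` (`Sk`): by `Sti`
`∫_ℍ h S^σ = ∫_G h(base (g fl(-σ))) |Φ|²`, `∫_ℍ h S = ∫_G h(base g) |Φ|²`, so by `Wk` `|∫ h (S^σ - S)| ≤ C e⁻⁸ t^(-1/2+3d)`, `d = c/800 ≤ 1/8`. Multiply by `φ(z) S^τ(z)` and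
integrate, `∫ φ S^τ ≤ C` (`Sti`, `Tot`: `φ(base (g fl(-τ))) ≤ C 1_{Om R}(g)`). In the same way for fixed `w` (in the compact `1`-neighbourhood of `tsupport φ`)
`h'(z) = φ(z) hk (sk e) w z` (`uh` symmetric; `norm_iteratedFDeriv_mul_le`): `|∫ h' (S^τ - S)| ≤ C e⁻⁸ t^(-1/2+3d)`, times `∫_{K'} S ≤ C`. So
`|V2 φ k S^τ S^σ - V2 φ k S S| ≤ C e⁻⁸ t^(-1/2+3d)` (finite quantities); average over `τ, σ`. -/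
def StmtWkV : Prop := ∀ c C₀ : ℝ, 0 < c → c ≤ 1 → 0 ≤ C₀ → ∀ K : ℕ, ∀ φ : ℂ → ℝ, TestP H0 φ →
  ∃ C e₀ : ℝ, 0 ≤ C ∧ 0 < e₀ ∧ e₀ ≤ 1 ∧
    ∀ (v : ℝ → ℝ) (l : ℕ → ℝ) (f : ℍ → ℝ) (t : ℝ) (N : ℕ) (b : ℤ → ℝ), Dt c v C₀ K l f t N b →
      ∀ e : ℝ, 0 < e → e ≤ e₀ →
        V2 φ (sk e) (Sb f t N b) (Sb f t N b) ≤ Aw (Pb f t N b) φ (sk e) (ch 1) +
          ENNReal.ofReal (C * e⁻¹ ^ 8 * t ^ (-(1 / 2) + 3 * (c / 800))) ∧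
        Aw (Pb f t N b) φ (sk e) (ch 1) ≤ V2 φ (sk e) (Sb f t N b) (Sb f t N b) +
          ENNReal.ofReal (C * e⁻¹ ^ 8 * t ^ (-(1 / 2) + 3 * (c / 800)))

/-! ### The two steps -/

/-- **SmQ** the sum in `Q`. Proof. `C 2^j a ≥ a ≥ rh c t` and `C 2^j a ≤ v R` for `j ≤ J`, so `Cw ≤ (C 2^j a)^(1+c)` and the sum is at most
`∑_{j ≤ J} C^(1+c) (2^j a)^c ≤ C² (2^J a)^c ∑_{i ≥ 0} 2^(-ic) = C² (2^J a)^c/(1 - 2^(-c))`, `2^J a ≤ 2θ`, `2^c ≤ 2`. -/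
def StmtSmQ : Prop := ∀ c C : ℝ, 0 < c → c ≤ 1 → 1 ≤ C → ∃ C' : ℝ, 0 ≤ C' ∧
  ∀ (v : ℝ → ℝ) (C₀ : ℝ) (K : ℕ) (l : ℕ → ℝ) (f : ℍ → ℝ) (t : ℝ) (N : ℕ) (b : ℤ → ℝ),
    Dt c v C₀ K l f t N b → ∀ (R a θ : ℝ) (J : ℕ), 1 ≤ R → rh c t ≤ a → 2 ^ J * a ≤ 2 * θ →
      C * (2 * θ) ≤ v R →
      ∑ j ∈ Finset.range (J + 1), ENNReal.ofReal ((2 ^ j * a)⁻¹) * Cw (Pb f t N b) R (C * (2 ^ j * a)) ≤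
        ENNReal.ofReal (C' * θ ^ c)

/-- **St1** from the scale `3ρ` to `t^(-1/20)` (uses `Tot`, `Rev`, `Sk`, `Q`, `Asw`, `SmQ`). Proof. `a = 3 rh c t`, `ε = t^(-1/20)`, `θ = t^(-1/80)`, `τ₀ = t^(-c/200)`, `J` with `θ ≤ 2^J a ≤ 2θ`
(`a ≤ ε ≤ θ` for large `t`). `Asw`, `Q` (with the constant `max C₁ C_sk`; `Φ` continuous by `Dt.he`, symmetric by `Rev`, `b` even), `SmQ`, `Tot` (`ms Φ (Om R) ≤ C`):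
`τ₀² V2(k) ≤ Aw(k) + τ₀² e ≤ Aw(sk ε) + C ε/(θ² τ₀) + C θ^c + τ₀² e ≤ τ₀² V2(sk ε) + C ε/(θ² τ₀) + C θ^c + 2 τ₀² e`, `e = C t^(-c/400) B`. Divide by
`τ₀² = t^(-c/100)`: `ε θ⁻² τ₀⁻³ = t^(-1/20+1/40+3c/200) ≤ t^(-1/100) ≤ t^(-c/400)`, `θ^c τ₀⁻² = t^(-c/80+c/100) = t^(-c/400)`. -/
def StmtSt1 : Prop := ∀ c : ℝ, 0 < c → c ≤ 1 → ∃ K₀ : ℕ, ∀ K : ℕ, K₀ ≤ K → ∀ C₀ : ℝ, 0 ≤ C₀ →
  ∀ v : ℝ → ℝ, (∀ R, 0 < v R) → ∀ φ : ℂ → ℝ, TestP H0 φ → ∀ C₁ : ℝ, 0 ≤ C₁ →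
    ∃ (ζ : ℂ → ℝ) (C t₀ : ℝ), TestP H0 ζ ∧ (∀ z, φ z ≤ ζ z) ∧ 0 ≤ C ∧ 1 ≤ t₀ ∧
      ∀ (l : ℕ → ℝ) (f : ℍ → ℝ) (t : ℝ) (N : ℕ) (b : ℤ → ℝ), Dt c v C₀ K l f t N b → t₀ ≤ t →
        ∀ B : ℝ, 0 ≤ B → U4 f t ζ (N + K) B → ∀ k : ℝ → ℝ, Ker C₁ (3 * rh c t) k →
          V2 φ k (Sb f t N b) (Sb f t N b) ≤
            V2 φ (sk (t ^ (-(1 / 20 : ℝ)))) (Sb f t N b) (Sb f t N b) +
              ENNReal.ofReal (C * t ^ (-(c / 400)) * (1 + B))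

/-- **St2** from the scale `t^(-1/20)` to fixed scales (uses `Tot`, `Fib`, `Rev`, `Sch`, `Sk`, `Sti`, `Q`, `WkV`, `SmQ`). Proof. `ε₁ = t^(-1/20) ≤ ε`. `WkV`, `Q` with `τ₀ = 1`, `a = ε₁`, `J` with
`θ ≤ 2^J ε₁ ≤ 2θ`, `SmQ` (`rh c t ≤ ε₁`), `WkV` again: `V2(sk ε₁) ≤ V2(sk ε) + C ε/θ² + C θ^c + C ε₁⁻⁸ t^(-1/2+3d) + C ε⁻⁸ t^(-1/2+3d)`; `8/20 - 1/2 + 3/800 < 0`, so the last
two terms are `≤ ε` for `t ≥ t₀(ε)`. `θ₁` so small that `2 C θ₁ ≤ v R` and `θ₁ ≤ e₀` (`WkV`). Second claim: `Sch` (2) and `∫ ζ S ≤ C` (`Sti`, `Tot`). -/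
def StmtSt2 : Prop := ∀ c C₀ : ℝ, 0 < c → c ≤ 1 → 0 ≤ C₀ → ∀ K : ℕ, ∀ v : ℝ → ℝ, (∀ R, 0 < v R) →
  ∀ φ : ℂ → ℝ, TestP H0 φ → ∃ C θ₁ : ℝ, 0 ≤ C ∧ 0 < θ₁ ∧ θ₁ ≤ 1 ∧
    ∀ θ ε : ℝ, 0 < ε → ε ≤ θ → θ ≤ θ₁ → ∃ t₀ : ℝ, 1 ≤ t₀ ∧
      ∀ (l : ℕ → ℝ) (f : ℍ → ℝ) (t : ℝ) (N : ℕ) (b : ℤ → ℝ), Dt c v C₀ K l f t N b → t₀ ≤ t →
        V2 φ (sk (t ^ (-(1 / 20 : ℝ)))) (Sb f t N b) (Sb f t N b) ≤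
          V2 φ (sk ε) (Sb f t N b) (Sb f t N b) + ENNReal.ofReal (C * (ε / θ ^ 2 + θ ^ c)) ∧
        V2 φ (sk ε) (Sb f t N b) (Sb f t N b) ≤ ENNReal.ofReal (C / ε ^ 2)

/-! ### The bootstrap -/

/-- **Dif** means of `f² - S` for the data (uses `TwG`, `Twc`, `MfS`, `Lh`). Proof. `Half.setup` and `Twc` (as in `Ky`), `MfS` with `w_n = b_n²`, `N + 1 ≤ N + K`:
`(N/(ρ t))² ≤ (2 t^(1/2-d) t^(1/2+d/2)/t)² = 4 t^(-d)`, `d = c/800`; on `tsupport φ` and for small `ρ` the discs lie in `V`, where the cut off tower is the tower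
(`Ed_congr`); `U4` on the half-plane gives `Up` on the plane for a larger `ζ` (`Lh` or `IntLap.int_gen`). -/
def StmtDif : Prop := ∀ c C₀ : ℝ, 0 < c → c ≤ 1 → 0 ≤ C₀ → ∀ K : ℕ, 1 ≤ K → ∀ φ : ℂ → ℝ, TestP H0 φ →
  ∃ (ζ : ℂ → ℝ) (C t₀ : ℝ), TestP H0 ζ ∧ 0 ≤ C ∧ 1 ≤ t₀ ∧
    ∀ (v : ℝ → ℝ) (l : ℕ → ℝ) (f : ℍ → ℝ) (t : ℝ) (N : ℕ) (b : ℤ → ℝ), Dt c v C₀ K l f t N b → t₀ ≤ t →
      ∀ B : ℝ, 0 ≤ B → U4 f t ζ (N + K) B →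
        ∫ z : ℂ, φ z * (Pl.Ed (rh c t) (fun w => ext f w ^ 2) z - Pl.Ed (rh c t) (Spl f t N b) z) ^ 2 ≤
          C * t ^ (-(c / 800)) * B

/-- **Bs1** the mean square of the local masses (uses `TwG`, `Pv`, `St1`, `St2`, `Dif`). Proof. `(Ed f²)² ≤ 2 (Ed Spl)² + 2 (Ed f² - Ed Spl)²`. `Pv` with `F = Spl` (`= Sb` on `ℍ`), `St1` for `φ y²` and for the `ζ` of
`Pv`, `St2` for both with `ε = θ = θ₁`: `∫ φ (Ed Spl)² ≤ C (1 + t^(-c/400) (1 + B))`. One `ζ` dominating all (`Cacc.dom`). -/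
def StmtBs1 : Prop := ∀ c : ℝ, 0 < c → c ≤ 1 → ∃ K₀ : ℕ, ∀ K : ℕ, K₀ ≤ K → ∀ C₀ : ℝ, 0 ≤ C₀ →
  ∀ v : ℝ → ℝ, (∀ R, 0 < v R) → ∀ φ : ℂ → ℝ, TestP H0 φ → ∃ (ζ : ℂ → ℝ) (C t₀ : ℝ), TestP H0 ζ ∧ 0 ≤ C ∧ 1 ≤ t₀ ∧
    ∀ (l : ℕ → ℝ) (f : ℍ → ℝ) (t : ℝ) (N : ℕ) (b : ℤ → ℝ), Dt c v C₀ K l f t N b → t₀ ≤ t →
      ∀ B : ℝ, 0 ≤ B → U4 f t ζ (N + K) B →
        ∫ z : ℂ, φ z * (Pl.Ed (rh c t) (fun w => ext f w ^ 2) z) ^ 2 ≤ C * (1 + t ^ (-(c / 800)) * B)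

/-- **Bs** bootstrap (uses `B4`, `Ky`, `Tri4`, `Bs1`). Proof. `δ = c/1600`, `κ = δ/4`, `η' = min (η/4) (δ/4)`. `P(s)`: for all `φ` there is `C` with `∫ φ f⁴ ≤ C t^s` for all data (`t ≥ 1`). `P(2)`: `Tri4`. Step: `P(s)`,
`s ≥ 3η'` imply `P(s - η')`: for `t ≤ t₀` use `Tri4`; for `t ≥ t₀` let `N' = ⌊t^(1/2-δ/2)/4⌋`: `(2N'+2)² ≤ t`, `2N'+1 ≤ t^(1/2-κ)`, `N + K ≤ t^(1/2-κ)` (`N ≤ 2 t^(1/2-2δ)`). `B4` (with `κ`, `η'`) and `P(s)`: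
`∫ ζ |G_n|⁴ ≤ B := C t^(s+η')` for `|n| ≤ t^(1/2-κ)`. `Bs1`: `X ≤ C (1 + t^(s+η'-2δ))`. `Ky` with `ρ = rh c t = t^(-1/2-δ)`: `(N'+1)²/t ≤ C t^(-δ)`, `ρ t/(N'+1) ≤ 4 t^(-δ/2)`, `(N'+1)⁻² ≤ 16 t^(-1+δ)`, so
`∫ φ f⁴ ≤ C √X √B + C B t^(-δ/2) + C ≤ C (t^((s+η')/2) + t^(s+η'-δ) + t^(s+η'-δ/2) + 1)`, all exponents `≤ s - η'`. Finitely many steps from `2` down to `4η' ≤ η`. -/
def StmtBs : Prop := ∀ c : ℝ, 0 < c → c ≤ 1 → ∃ K₀ : ℕ, ∀ K : ℕ, K₀ ≤ K → ∀ C₀ : ℝ, 0 ≤ C₀ →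
  ∀ v : ℝ → ℝ, (∀ R, 0 < v R) → ∀ η : ℝ, 0 < η → ∀ φ : ℂ → ℝ, TestP H0 φ → ∃ C : ℝ, 0 ≤ C ∧
    ∀ (l : ℕ → ℝ) (f : ℍ → ℝ) (t : ℝ) (N : ℕ) (b : ℤ → ℝ), Dt c v C₀ K l f t N b →
      ∫ z : ℍ, φ z * f z ^ 4 ≤ C * t ^ η

/-- **Xb** bounds for the data (uses `B4`, `Bs`, `Bs1`). Proof. `B4` with `κ = c/6400` and `Bs`, `η/2` each: `U4` (`N + K ≤ t^(1/2-κ)` for `t ≥ t₀`). Second part: `Bs1` with `B = C t^(c/800)`. -/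
def StmtXb : Prop := ∀ c : ℝ, 0 < c → c ≤ 1 → ∃ K₀ : ℕ, ∀ K : ℕ, K₀ ≤ K → ∀ C₀ : ℝ, 0 ≤ C₀ →
  ∀ v : ℝ → ℝ, (∀ R, 0 < v R) → ∀ φ : ℂ → ℝ, TestP H0 φ →
    (∀ η : ℝ, 0 < η → ∃ C t₀ : ℝ, 0 ≤ C ∧ 1 ≤ t₀ ∧
      ∀ (l : ℕ → ℝ) (f : ℍ → ℝ) (t : ℝ) (N : ℕ) (b : ℤ → ℝ), Dt c v C₀ K l f t N b → t₀ ≤ t →
        U4 f t φ (N + K) (C * t ^ η)) ∧
    ∃ C t₀ : ℝ, 0 ≤ C ∧ 1 ≤ t₀ ∧
      ∀ (l : ℕ → ℝ) (f : ℍ → ℝ) (t : ℝ) (N : ℕ) (b : ℤ → ℝ), Dt c v C₀ K l f t N b → t₀ ≤ t →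
        ∫ z : ℂ, φ z * (Pl.Ed (rh c t) (fun w => ext f w ^ 2) z) ^ 2 ≤ C

/-! ### Sequences -/

/-- **Bdd** bounded fourth moments (model: `Sq/Bd.lean`; uses `Sq.StmtTwr`, `Sq.StmtUpB`, `Lh`). Proof. `φ ∈ TestP H0` equal to one on `K`; `Half.setup`, `Sq.StmtTwr`, `Sq.Dat` with `a = 0` for `i ≥ i0`, `x ζ` the bounds of the
hypothesis; `Sq.StmtUpB` with `a = 0`: `w_i ≤ 3 √X √(w_i + C) + C`, so `w_i` is bounded; the finitely many other `i`: `f_i` is continuous. -/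
def StmtBdd : Prop := ∀ (f : ℕ → ℍ → ℝ) (t ρ : ℕ → ℝ) (δ : ℝ), (∀ i, IsHeckeMaass (f i) (t i)) →
  Tendsto t atTop atTop → 0 < δ → (∀ i, 0 < ρ i ∧ ρ i ≤ t i ^ (-(1 / 2 + δ))) →
  (∀ φ : ℂ → ℝ, TestP H0 φ → ∃ C : ℝ, ∀ᶠ i in atTop,
    ∫ z : ℂ, φ z * (Pl.Ed (ρ i) (fun w => ext (f i) w ^ 2) z) ^ 2 ≤ C) →
  ∀ K : Set ℍ, IsCompact K → ∃ C : ℝ, ∀ i, ∫ z in K, f i z ^ 4 ≤ C

/-- **MsW** the mass of `S` (uses `TwG`, `Twc`, `Mss`, `Lh`). Proof. As `Sq.StmtMsS`: on the plane, with `φ₁ = φ y⁻²`, `λ_n ∫ φ₁ (u_{n+1} - u_n) = ∫ (i y dzb φ₁ - 2 φ₁) p_n`, at most `C ∫ ζ |G_{n+1}| |G_n| ≤ C`; `λ_n ≥ t`;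
telescope: `|∫ φ (u_n - u_0)| ≤ C |n|/t`, `u_0 = f²`, `∑ w_n = 1`. -/
def StmtMsW : Prop := ∀ φ : ℂ → ℝ, TestR H0 φ → ∃ C : ℝ, 0 ≤ C ∧ ∀ (f : ℍ → ℝ) (t : ℝ),
  IsHeckeMaass f t → 1 ≤ t → ∀ (N : ℕ) (w : ℤ → ℝ), (∀ n, 0 ≤ w n) →
    ∑ n ∈ Finset.Icc (-(N : ℤ)) N, w n = 1 →
    |(∫ z : ℍ, φ z * Sw f t N w z) - ∫ z : ℍ, φ z * f z ^ 2| ≤ C * N / t

/-- **Qx** the case `n = 2` on the half-plane (uses `Pl.StmtU1`). Proof. `Pl.StmtU1` gives `ψ` for `φ`; its identity for `F = f_i²` and for `F = 1`. -/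
def StmtQx : Prop := ∀ (f : ℕ → ℍ → ℝ) (t : ℕ → ℝ), (∀ i, IsHeckeMaass (f i) (t i)) →
  (∀ ψ : ℍ → ℝ, TestX ψ → Tendsto (fun i => ∫ z in ModularGroup.fdo, ψ z * f i z ^ 2) atTop
    (𝓝 (∫ z in ModularGroup.fdo, ψ z))) →
  ∀ φ : ℂ → ℝ, TestR H0 φ → Tendsto (fun i => ∫ z : ℍ, φ z * f i z ^ 2) atTop (𝓝 (∫ z : ℍ, φ z))

/-- **Vfx** fixed scales (uses `Ug`, `Ar`, `Sk`). Proof. `g_i(z) = ∫ sk e (uh z w) S_i(w) dμ(w)`; for `z ∈ tsupport φ` (compact) `hk (sk e) z ∈ TestR H0` (`Sk`) and `∫ sk e (uh z w) dμ(w) = 1` (`Ar`), so `g_i(z) → 1`. The masses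
`∫ ζ S_i` are bounded (they converge), `|sk e (uh z w) - sk e (uh z' w)| ≤ C(e) |z - z'|` for `z, z'` in a compact set and zero for `w` outside a compact set, so the `g_i` are
equi-Lipschitz on `tsupport φ` and `g_i → 1` uniformly there. `V2 φ (sk e) S_i S_i = ofReal ∫ φ g_i S_i` and `|∫ φ g_i S_i - ∫ φ S_i| ≤ sup |g_i - 1| ∫ φ S_i → 0`. -/
def StmtVfx : Prop := ∀ S : ℕ → ℍ → ℝ, (∀ i, Continuous (S i)) → (∀ i z, 0 ≤ S i z) →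
  (∀ φ : ℂ → ℝ, TestR H0 φ → Tendsto (fun i => ∫ z : ℍ, φ z * S i z) atTop (𝓝 (∫ z : ℍ, φ z))) →
  ∀ φ : ℂ → ℝ, TestP H0 φ → ∃ e₀ : ℝ, 0 < e₀ ∧ ∀ e : ℝ, 0 < e → e ≤ e₀ →
    Tendsto (fun i => V2 φ (sk e) (S i) (S i)) atTop (𝓝 (ENNReal.ofReal (∫ z : ℍ, φ z)))

/-- **L2S** the conclusion (uses `TwG`, `Lh`, `Pl.StmtE3`, `Pv`, `St1`, `St2`, `Dif`, `Xb`, `MsW`, `Vfx`). Proof. `ρ_i = rh c (t i)`, `S_i = Sb`, `F_i = Spl`. `Xb` with `η = c/1600`: `U4` with `B_i = C t_i^(c/1600)` for every `ζ`. `Dif`: `∫ φ (Ed f_i² - Ed F_i)² → 0`, so it is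
enough that `∫ φ (Ed F_i - 1)² → 0`. (a) `∫_ℍ φ S_i → ∫_ℍ φ` (`MsW`, `N/t → 0`, hypothesis), so `∫_ℂ φ F_i → ∫_ℂ φ`; `Pl.StmtE3` with `G = 1` (functions cut off by `χ`, `ρ_i² ∫ ζ² F_i² → 0`): `∫ φ Ed F_i → ∫ φ`.
(b) `Pv`, `St1`, `St2` (for `φ y²` and, with `ε = θ = θ₁`, for `ζ`): for `ε ≤ θ ≤ θ₁` and large `i`
`ofReal ∫ φ (Ed F_i)² ≤ V2 (φ y²) (sk ε) S_i S_i + ofReal (C (ε/θ² + θ^c)) + o(1)`, and `V2 (φ y²) (sk ε) S_i S_i → ofReal ∫_ℍ φ y² = ofReal ∫_ℂ φ` (`Vfx`, `ε ≤ e₀`). Choose `θ` small, then `ε = θ³`: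
`limsup ∫ φ (Ed F_i)² ≤ ∫ φ`. Expand the square. -/
def StmtL2S : Prop := ∀ c : ℝ, 0 < c → c ≤ 1 → ∃ K₀ : ℕ, ∀ K : ℕ, K₀ ≤ K → ∀ C₀ : ℝ, 0 ≤ C₀ →
  ∀ v : ℝ → ℝ, (∀ R, 0 < v R) → ∀ (l : ℕ → ℕ → ℝ) (f : ℕ → ℍ → ℝ) (t : ℕ → ℝ) (N : ℕ → ℕ)
    (b : ℕ → ℤ → ℝ), (∀ i, Dt c v C₀ K (l i) (f i) (t i) (N i) (b i)) → Tendsto t atTop atTop →
    (∀ φ : ℂ → ℝ, TestR H0 φ → Tendsto (fun i => ∫ z : ℍ, φ z * f i z ^ 2) atTop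
      (𝓝 (∫ z : ℍ, φ z))) →
    ∀ φ : ℂ → ℝ, TestP H0 φ → Tendsto (fun i => ∫ z : ℂ, φ z *
      (Pl.Ed (rh c (t i)) (fun w => ext (f i) w ^ 2) z - 1) ^ 2) atTop (𝓝 0)

/-- **FinF** the first four moments (uses `Sq.StmtFlt`, `Pl.StmtU2`, `Sq.StmtFou`, `Lh`). Proof. `Sq.StmtFlt` with `a = 1`, `c₀ = 1` gives the second and fourth moments on the plane for `φ y⁻²`, so `Pl.CondH f` (see `Sq/FD.lean`); `Pl.StmtU2` with `F = f_i²`, `c = 1` and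
`F = f_i⁴`, `c = 3` gives `Pl.CondA f`; `Sq.StmtFou`. -/
def StmtFinF : Prop := ∀ (f : ℕ → ℍ → ℝ) (t ρ : ℕ → ℝ) (δ : ℝ), (∀ i, IsHeckeMaass (f i) (t i)) →
  Tendsto t atTop atTop → 0 < δ → (∀ i, 0 < ρ i ∧ ρ i ≤ t i ^ (-(1 / 2 + δ))) →
  (∀ φ : ℂ → ℝ, TestP H0 φ → Tendsto (fun i => ∫ z : ℂ, φ z *
    (Pl.Ed (ρ i) (fun w => ext (f i) w ^ 2) z - 1) ^ 2) atTop (𝓝 0)) →
  ∀ ψ : ℍ → ℝ, TestX ψ → ∀ n : ℕ, 1 ≤ n → n ≤ 4 →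
    Tendsto (fun i => ∫ z in ModularGroup.fdo, ψ z * f i z ^ n) atTop
      (𝓝 (1 / √(2 * Real.pi) * (∫ x : ℝ, x ^ n * Real.exp (-x ^ 2 / 2)) *
        ∫ z in ModularGroup.fdo, ψ z))

/-- **Hpr** the hypothesis on the eigenvalues gives good scales. Proof. (1) There are `X₀, i₀` such that the inequality holds for all `i ≥ i₀` and `X₀ ≤ X ≤ t_i^(3/4)`: otherwise there are increasing indices `i_n` and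
`X ∈ [n, t_{i_n}^(3/4)]` violating it; put `X_{i_n}` equal to these and `X_i = t_i^(3/4)` for the other `i` (`t_i` is positive): `X_i → ∞`, contradiction. (2) Let `w ≥ t^(-(1/2+c/1600))`, so `w⁻¹ ≤ t^(3/4)`,
`w^(-1/2) ≤ X ≤ w⁻¹`, `w ≤ W`. The primes in `(X^(19/20), X]` are covered by the blocks `Pm M_j`, `M_j = 2^j X^(19/20) ≤ X`, at most `1 + log₂ X` of them; one block has `∑_{Pm M} |l(p)|/p ≥ X^(-1/2000)/(1 + log₂ X)`, so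
`∑_{Pm M} |l(p)| ≥ M X^(-1/2000)/(1 + log₂ X) ≥ M^(1-1/1000)`, since `M^(-1/1000) ≤ X^(-19/20000)` and `X` is large. -/
def StmtHpr : Prop := ∀ (l : ℕ → ℕ → ℝ) (t : ℕ → ℝ) (c : ℝ), 0 < c → c ≤ 1 → (∀ i, 0 < t i) → Tendsto t atTop atTop →
  (∀ X : ℕ → ℝ, Tendsto X atTop atTop → (∀ i, X i ≤ t i ^ (3 / 4 : ℝ)) → ∀ᶠ i in atTop,
    X i ^ (-(1 / 2000 : ℝ)) ≤ ∑ p ∈ (Finset.Ioc ⌊X i ^ (19 / 20 : ℝ)⌋₊ ⌊X i⌋₊).filter Nat.Prime, |l i p| / p) →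
  ∃ (W : ℝ) (i₀ : ℕ), 0 < W ∧ W ≤ 1 ∧ ∀ i, i₀ ≤ i → ∀ w : ℝ, t i ^ (-(1 / 2 + c / 1600)) ≤ w → w ≤ W → GdI (l i) w

end

end Pool.Agent.A54.Hp
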