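import Pool.Agent.Lib.MP_a54f13_nt.Hp.Defs

/-!
# Package `Hp`, part M: the measure on `G = SL(2, ℝ)`, Hecke operators, the amplifier inequality, level sets

Architect: helper39 (note 4597 of MP_a54f13_nt, THEOREM A). Every module: file
`Pool/Agent/Lib/MP_a54f13_nt/Hp/<Name>.lean` importing `Pool.Agent.Lib.MP_a54f13_nt.Hp.SpecM` and what is named in the
docstring, private names in `namespace Pool.Agent.A54.Hp.<Name>M`, final theorem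
`Pool.Agent.A54.Hp.stmt<Name> : Stmt<Name>` (the Props named in the docstring are hypotheses of the theorem, in this order,
e.g. `theorem stmtUnf (h : StmtNuL) : StmtUnf`). Useful: `Dyn/Base.lean` (entries of products and inverses `mul_00`, `inv_00`,
`det_eq`, `G_ext`, `base_mul`, `continuous_entry`), `Dyn/Lift.lean` (`rot`, `Sct`, `m0`, `base_Sct`, `isCompact_Sct`),
`Av/UL.lean` and `Pl/U1.lean` (unfolding on `ℍ`, `countable_sl`).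
-/

set_option autoImplicit false

namespace Pool.Agent.A54.Hp

open MeasureTheory Filter Topology Set
open scoped ContDiff ComplexConjugate UpperHalfPlane MatrixGroups ENNReal
open Pool.Agent.A54.Dyn (G fl base ze io mk4 dom)
open Pool.Agent.A54.Av (Mat NonSc)

noncomputable section

/-- `U b⁻¹ = {x : x β ∈ U for some β ∈ b}` (open if `b` is open) -/
def Vb (U b : Set G) : Set G := {x | ∃ β ∈ b, x * β ∈ U}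

/-- the returns of `x` to `V` by matrices of determinant `p q` -/
def Sx (M : ℝ) (V : Set G) (x : G) : Set Mat :=
  {s | (∃ p ∈ Pm M, ∃ q ∈ Pm M, s.det = ((p * q : ℕ) : ℤ)) ∧ nm s * x ∈ V}

/-- their number -/
def nS (M : ℝ) (V : Set G) (x : G) : ℝ≥0∞ := ∑' s : Mat, (Sx M V x).indicator (fun _ => 1) s

/-- coincidences: pairs of returns in the same translate of `b` -/
def Cx (M : ℝ) (V b : Set G) (x : G) : Set (Mat × Mat) :=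
  {y | y.1 ∈ Sx M V x ∧ y.2 ∈ Sx M V x ∧ ∃ β ∈ b, ∃ β' ∈ b, (nm y.2 * x)⁻¹ * (nm y.1 * x) = β'⁻¹ * β}

/-- their number -/
def nC (M : ℝ) (V b : Set G) (x : G) : ℝ≥0∞ :=
  ∑' y : Mat × Mat, (Cx M V b x).indicator (fun _ => 1) y

/-- `∫ F(g) F(h g) dg` -/
def DF (F : G → ℝ≥0∞) (h : G) : ℝ≥0∞ := ∫⁻ g, F g * F (h * g) ∂nu

/-! ### The measure -/

/-- **NuL** left invariance. Proof. Let `h ∈ G`, `z ∈ ℍ`; `k = ((h • z).toSL2R)⁻¹ * h * z.toSL2R` fixes `I`, so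
`k = mk4 c s (-s) c` with `c² + s² = 1` (an element of `SL(2, ℝ)` which fixes `I`: `a I + b = I (c I + d)` gives `a = d`,
`b = -c`), and `k = rot x₀` for some `x₀` in the circle (`AddCircle.toCircle` is surjective onto `Circle`:
`AddCircle.homeomorphCircle`), `rot (x + y) = rot x * rot y` (entries: real and imaginary part of `cc x * cc y`). So
`h * Sct (z, x) = Sct (h • z, x₀ + x)`. For measurable `F ≥ 0` by Tonelli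
`∫⁻ F(h g) dν = ∫⁻_z ∫⁻_x F(Sct (h • z, x₀(z) + x)) = ∫⁻_z ∫⁻_x F(Sct (h • z, x))` (translation invariance of
`haarAddCircle`, for each fixed `z`) `= ∫⁻_z ∫⁻_x F(Sct (z, x))` (`measurePreserving_smul` for `(h : GL (Fin 2) ℝ)`, as in
`Av/UL.lean`, `ULM.mp`). Compact sets: `Dyn.LiftM.isCompact_Sct`. The last statement: `base (Sct p) = p.1`. -/
def StmtNuL : Prop := nu.IsMulLeftInvariant ∧ IsFiniteMeasureOnCompacts nu ∧ SigmaFinite nu ∧ nu ≠ 0 ∧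
  ∀ F : ℍ → ℝ≥0∞, Measurable F → ∫⁻ g, F (base g) ∂nu = ∫⁻ z : ℍ, F z

/-- **NuR** unimodularity (uses `NuL`). Proof. `ν` is a left Haar measure. For `h ∈ G` the image of `ν` under `g ↦ g h` is left
invariant, finite on compacts, so equal to `Δ(h) ν` (uniqueness: `Measure.isMulLeftInvariant_eq_smul`, or use
`Mathlib.MeasureTheory.Group.ModularCharacter`), `Δ : G → (0, ∞)` multiplicative. For the unipotent `u(x) = mk4 1 x 0 1`: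
`fl s * u(x) * fl (-s) = u(e^s x)`, so with `e^s = 2`: `Δ(u(2x)) = Δ(u(x))` and `u(2x) = u(x)²`, so `Δ(u(x)) = 1`; the same for
`mk4 1 0 x 1`. Every `g` with `g 1 0 ≠ 0` is `u(x) * mk4 1 0 c 1 * u(y)`, `c = g 1 0`, `x = (g 0 0 - 1)/c`, `y = (g 1 1 - 1)/c`, and if
`g 1 0 = 0` then `(mk4 1 0 1 1 * g) 1 0 = g 0 0 ≠ 0`. So `Δ = 1`. The image of `ν` under `g ↦ g⁻¹` is left invariant (right
invariance of `ν`), so it is `c ν`, and applying it twice `c² = 1`, `c = 1`. -/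
def StmtNuR : Prop := nu.IsMulRightInvariant ∧ nu.IsInvInvariant

/-- **Unf** unfolding (uses `NuL`). Proof. As `Av/UL.lean` (`ULM.term`, `ULM.cnt`, `ULM.sum_term`): by left invariance
`∫⁻_{FF} F(γ g) = ∫⁻ 1_{FF}(γ⁻¹ w) F(w) dν(w)`, and `∑_γ 1_{fdo}(γ⁻¹ • base w) = 2` for all `w` with `base w` outside a null set
`N ⊆ ℍ`; `base⁻¹ N` is a `ν`-null set (last part of `NuL`). `base (io γ * g) = γ • base g`. Second part: for integrable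
`f : G → ℂ`, `∑_γ ∫_{FF} ‖f(γ g)‖ = 2 ∫ ‖f‖ < ∞`, and `hasSum_integral_of_summable_integral_norm`; apply the first part to the
positive and negative parts of real and imaginary part, or argue directly as in the first part. -/
def StmtUnf : Prop := (∀ F : G → ℝ≥0∞, Measurable F →
    ∑' γ : SL(2, ℤ), ∫⁻ g in FF, F (io γ * g) ∂nu = 2 * ∫⁻ g, F g ∂nu) ∧
  ∀ f : G → ℂ, Integrable f nu →
    IntegrableOn (fun g => ∑' γ : SL(2, ℤ), f (io γ * g)) FF nu ∧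
      ∫ g in FF, ∑' γ : SL(2, ℤ), f (io γ * g) ∂nu = 2 * ∫ g, f g ∂nu

/-- **Vol** volumes (uses `NuL`). Proof. (3) `Om R` is compact (closed in `G`, bounded entries). With `z = X + iY`,
`Sct (z, x) = (√Y cosθ - (X/√Y) sinθ, √Y sinθ + (X/√Y) cosθ; - sinθ/√Y, cosθ/√Y)`, `cc x = cosθ + i sinθ`. (2) if `|Y - 1| ≤ c/8`,
`|X| ≤ c w/8`, `cosθ > 0`, `|sinθ| ≤ c w/8` then `Sct (z, x) ∈ bt c w` (`c ≤ 1/2`, `w ≤ 1`); this set has measure `≥ c'(c) w²` (an arc of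
length `≥ c w/30` of the circle). (1a) `bt c w ⊆` image of `{Y ∈ [1/16, 16], |X| ≤ 16 w, |sinθ| ≤ 16 w}`, so
`nu (bt c w) ≤ C w²` for `c ≤ 1/2`. (1) Let `x0 ∈ Tb R ζ w` and `x ∈ Tb R ζ w`, `y = x0⁻¹ x`. `X(xi x) = x diag(1,-1) x⁻¹`
(`X(ξ) = (ξ₀, 2ξ₁; 2ξ₂, -ξ₀)`), so `X(xi y) = x0⁻¹ X(xi x) x0 = diag(1,-1) + x0⁻¹ (X(xi x) - X(xi x0)) x0` and
`|xi y - (1,0,0)| ≤ C R² w`: `|y₀₀ y₀₁|, |y₁₀ y₁₁|, |2 y₀₁ y₁₀| ≤ C R² w`, `|y_ij| ≤ 2R²`. If `C R² w ≤ 1` then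
`y₀₀ y₁₁ = 1 + y₀₁ y₁₀ ≥ 1/2`, so `|y₀₀|, |y₁₁| ≥ 1/(4R²)` and `|y₀₁|, |y₁₀| ≤ C' w`, and `±y = fl(s_j) β` with `β ∈ bt (1/2) (C'' w)` for one of
finitely many `s_j` (cover the range `[1/(4R²), 2R²]` of `|y₀₀|`); so `Tb R ζ w` is covered by `J(R)` sets `± x0 fl(s_j) bt (1/2) (C'' w)`
of measure `≤ C w²` (if `C'' w > 1` use `nu (Om R) < ∞`). -/
def StmtVol : Prop :=
  (∀ R : ℝ, 1 ≤ R → ∃ C : ℝ, 0 ≤ C ∧ ∀ (ζ : Fin 3 → ℝ) (w : ℝ), 0 < w → nu (Tb R ζ w) ≤ ENNReal.ofReal (C * w ^ 2)) ∧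
  (∀ c : ℝ, 0 < c → c ≤ 1 / 2 → ∃ c' : ℝ, 0 < c' ∧ ∀ w : ℝ, 0 < w → w ≤ 1 →
    ENNReal.ofReal (c' * w ^ 2) ≤ nu (bt c w)) ∧
  ∀ R : ℝ, IsCompact (Om R) ∧ nu (Om R) < ⊤

/-- **Bt** the small tubes. Proof. `β = mk4 β₀₀ β₀₁ β₁₀ β₁₁`, `|β₀₀ - 1| < c₀`, `|β₀₁|, |β₁₀| < c₀ w`, `β₁₁ = (1 + β₀₁ β₁₀)/β₀₀`, so
`|β₁₁ - 1| ≤ 4 c₀`; (1) `δ = β⁻¹ β'` has `|δ - 1| ≤ 40 c₀` entrywise. (2) the off-diagonal entries of `δ` are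
`β₁₁ β'₀₁ - β₀₁ β'₁₁` and `-β₁₀ β'₀₀ + β₀₀ β'₁₀`, at most `8 c₀ w`, so `xi δ = (1 + 2 δ₀₁ δ₁₀, -δ₀₀ δ₀₁, δ₁₀ δ₁₁)` is within `20 c₀ w` of
`(1,0,0)`, and `X(xi (u δ)) = u X(xi δ) u⁻¹`, `X(xi u) = u X(1,0,0) u⁻¹`, so `|xi (u δ) - xi u| ≤ C R² c₀ w ≤ w` if `c₀` is small.
(3) `x = u β⁻¹`, `|x_ij| ≤ R (|β₁₁| + 1) ≤ 8R` if `c₀ ≤ 1/2`; (4) as (2) with `δ = β⁻¹`. (5) `b` is open. -/
def StmtBt : Prop := ∀ R c₁ : ℝ, 1 ≤ R → 0 < c₁ → ∃ c₀ : ℝ, 0 < c₀ ∧ c₀ ≤ 1 / 2 ∧ ∀ w : ℝ, 0 < w → w ≤ 1 →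
  (∀ β ∈ bt c₀ (c₀ * w), ∀ β' ∈ bt c₀ (c₀ * w), β⁻¹ * β' ∈ Nb c₁ ∧
    ∀ u ∈ Om R, ∀ i, |xi (u * (β⁻¹ * β')) i - xi u i| ≤ w) ∧
  (∀ U : Set G, U ⊆ Om R → Vb U (bt c₀ (c₀ * w)) ⊆ Om (8 * R) ∧
    ∀ x ∈ Vb U (bt c₀ (c₀ * w)), ∃ u ∈ U, ∀ i, |xi x i - xi u i| ≤ w) ∧
  IsOpen (bt c₀ (c₀ * w))

/-! ### Hecke operators -/

/-- **Co** the cosets of `M_p`. Proof. (1) `m ∈ M_p`; let `(c, d)` be its bottom row, `g = gcd(c, d) ∣ p`. If `p ∣ c` and `p ∣ d` then `m = γ' ..`: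
choose `γ ∈ SL(2, ℤ)` with `(c,d) = g (c', d')`, and `γ⁻¹ m` upper triangular: take the first column `(a, c)` of `m`,
`e = gcd(a, c)`, `γ` with first column `(a/e, c/e)`; then `γ⁻¹ m = (e, b; 0, p/e)` up to sign, `e ∣ p`: `e = p`: `(p, b; 0, 1) = (1, b; 0, 1) (p, 0; 0, 1)`;
`e = 1`: `(1, b; 0, p)` and `b` may be reduced mod `p`: `(1, b + kp; 0, p) = (1, k; 0, 1) (1, b; 0, p)`. (2) uniqueness: `γ rp j = γ' rp j'` gives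
`γ'⁻¹ γ = rp j' · adj(rp j)/p` integral: for `j, j' < p` it is `(1, (j'-j)·/p; 0, 1)`-like with entry `(j' - j)/p`, so `j = j'`; mixed cases give
the entries `1/p`, not integral. (3), (4) follow by taking adjugates (`adj (γ m) = adj m · γ⁻¹`). -/
def StmtCo : Prop := ∀ p : ℕ, p.Prime → ∃ r : Fin (p + 1) → Mat,
  (∀ j, (r j).det = (p : ℤ)) ∧
  (∀ m : Mat, m.det = (p : ℤ) → ∃! x : Fin (p + 1) × SL(2, ℤ), m = (x.2 : Mat) * r x.1) ∧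
  (∀ m : Mat, m.det = (p : ℤ) → ∃! x : Fin (p + 1) × SL(2, ℤ), m = (r x.1).adjugate * (x.2 : Mat)) ∧
  (∀ f : Mat → ℂ, ∑ j, f (r j) = f !![(p : ℤ), 0; 0, 1] +
    ∑ b ∈ Finset.range p, f !![1, (b : ℤ); 0, (p : ℤ)]) ∧
  ∀ j j', j ≠ j' → ∀ a b : ℤ, (∃ c d : ℤ, ∀ i, (p : ℤ) ∣ (![a, b] i - (c * r j 0 i + d * r j 1 i))) →
    (∃ c d : ℤ, ∀ i, (p : ℤ) ∣ (![a, b] i - (c * r j' 0 i + d * r j' 1 i))) → (p : ℤ) ∣ a ∧ (p : ℤ) ∣ b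

/-- **Nm** the normalised matrices. Proof. Entries; `(det s) (det s') = det (s s')` and square roots. (5) a compact set of matrices with
entries at most `2 R R' √n`: `s = √n (nm s x) x⁻¹`. -/
def StmtNm : Prop := (∀ s s' : Mat, 0 < s.det → 0 < s'.det → nm (s * s') = nm s * nm s') ∧
  (∀ γ : SL(2, ℤ), nm (γ : Mat) = io γ) ∧
  (∀ s : Mat, 0 < s.det → nm s.adjugate = (nm s)⁻¹) ∧
  (∀ (n : ℤ) (s : Mat), 0 < n → nm (n • s) = nm s) ∧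
  ∀ (R R' : ℝ) (x : G) (s : Mat), 0 < s.det → x ∈ Om R → nm s * x ∈ Om R' →
    ∀ i j, |((s i j : ℤ) : ℝ)| ≤ 2 * R * R' * √((s.det : ℤ) : ℝ)

/-- **Tot** total mass of a box (uses `Unf`). Proof. `2 ms Φ (Om R) = ∑_γ ∫⁻_{FF} 1_{Om R}(γ g) ‖Φ(g)‖² = ∫⁻_{FF} #{γ : γ g ∈ Om R} ‖Φ‖²`. If
`γ g, γ' g ∈ Om R` then `γ' γ⁻¹ = (γ' g)(γ g)⁻¹` has entries at most `2R²`; so the number is at most the number `J` of `γ ∈ SL(2, ℤ)` with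
entries at most `2R²`, and `∫⁻_{FF} ‖Φ‖² ≤ 2`. -/
def StmtTot : Prop := ∀ R : ℝ, 1 ≤ R → ∃ C : ℝ, 0 ≤ C ∧ ∀ (l : ℕ → ℝ) (Φ : G → ℂ), HE l Φ →
  ms Φ (Om R) ≤ ENNReal.ofReal C

/-- **HI** the Hecke integral (uses `NuL`, `Unf`, `Co`, `Nm`). Proof. Let `g = 1_U Φ` (bounded, measurable, zero outside `Om R`; `Om R` is compact). By
`HE.hecke`, `√p l(p) ∫_U |Φ|² = ∫ √p l(p) Φ conj g = ∑_j ∫ Φ(nm r_j x) conj g(x) dν(x) = ∑_j ∫ Φ(y) conj g((nm r_j)⁻¹ y) dν(y)` (left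
invariance). `Unf` (second part) for each `j`: this is `(1/2) ∑_j ∫_{FF} ∑_γ Φ(γ y) conj g((nm r_j)⁻¹ γ y)`, `Φ(γ y) = Φ(y)`,
`(nm r_j)⁻¹ * io γ = nm (adj(r_j) γ)` (`Nm`), and `(j, γ) ↦ adj(r_j) γ` is a bijection onto `Mn p` (`Co`). For every `y` only finitely many
`m ∈ Mn p` have `nm m * y ∈ Om R` (entries bounded: `Nm`), so all sums over `m` are finite. -/
def StmtHI : Prop := ∀ (l : ℕ → ℝ) (Φ : G → ℂ), HE l Φ → ∀ (R : ℝ) (U : Set G), MeasurableSet U →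
  U ⊆ Om R → ∀ p : ℕ, p.Prime →
    IntegrableOn (fun y => Φ y * conj (∑' m : Mn p, U.indicator Φ (nm m.1 * y))) FF nu ∧
    ((√p * l p : ℝ) : ℂ) * (∫ g in U, (((‖Φ g‖ ^ 2 : ℝ)) : ℂ) ∂nu) =
      (1 / 2) * ∫ y in FF, Φ y * conj (∑' m : Mn p, U.indicator Φ (nm m.1 * y)) ∂nu

/-- **A2** the double sum (uses `NuL`, `Unf`, `Co`, `Nm`). Proof. `h(y) = ∑_{m' ∈ M_q} F(nm m' y)` satisfies `h(γ y) = h(y)` (`m' ↦ m' γ`). By `Co`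
`M_p` is the disjoint union of the `adj(r_j) Γ`, so the left side is `∑_j ∑_γ ∫⁻_{FF} F(nm(adj r_j) γ y) h(γ y) = 2 ∑_j ∫⁻ F(nm(adj r_j) y) h(y)`
(`Unf`) `= 2 ∑_j ∫⁻ F(x) h(nm(r_j) x) = 2 ∑_j ∑_{m' ∈ M_q} DF F (nm(m' r_j))` (`y = nm(r_j) x`, `nm(adj r_j) nm(r_j) = 1`). For `s = m' r_j ∈ M_{pq}`: the
rows of `s` are integral combinations of the rows of `r_j`. If `s = m' r_j = m'' r_{j'}` with `j ≠ j'` then by the last part of `Co` all rows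
of `s` are `≡ 0 mod p`, `s = p s'`, `p q = p² det s'`, so `p = q`, `s' ∈ SL(2, ℤ)`, `nm s = io s'`. So every `s` which is not of the form `p γ` is
hit at most once, and `s = p γ` at most `p + 1` times. -/
def StmtA2 : Prop := ∀ F : G → ℝ≥0∞, Measurable F → ∀ p q : ℕ, p.Prime → q.Prime →
  ∫⁻ y in FF, (∑' m : Mn p, F (nm m.1 * y)) * (∑' m : Mn q, F (nm m.1 * y)) ∂nu ≤
    2 * ((∑' s : Mn (p * q), DF F (nm s.1)) +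
      (if p = q then (p : ℝ≥0∞) * ∑' γ : SL(2, ℤ), DF F (io γ) else 0))

/-- **AI** the amplifier inequality (uses `Tot`, `HI`, `A2`). Proof. `X = ∫_U |Φ|²` is finite, `ms Φ U = ofReal X`. `F = 1_U ‖Φ‖ₑ`, `DF F h = Dd Φ U h`.
`HI` and `σ_p = sgn l(p)`: `∑_P |l(p)| X = ∑ σ_p p^{-1/2} (√p l(p) X) = (1/2) ∫_{FF} Φ conj Ψ`, `Ψ = ∑_P σ_p p^{-1/2} ∑_{m ∈ M_p} (1_U Φ)(nm m y)`,
`‖Ψ‖ₑ ≤ ∑_P p^{-1/2} ∑_{m ∈ M_p} F(nm m y)`. Cauchy–Schwarz (`ENNReal.lintegral_mul_le_Lp_mul_Lq` or the square version) and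
`∫⁻_{FF} ‖Φ‖² ≤ 2`: `(∑ |l(p)| X)² ≤ (1/4) 2 ∫⁻_{FF} ‖Ψ‖² ≤ (1/2) ∑_{p,q} (pq)^{-1/2} 2 (∑_{s ∈ M_{pq}} Dd + [p = q] p ∑_γ Dd)` by `A2`, and
`(p p)^{-1/2} p = 1`. -/
def StmtAI : Prop := ∀ (l : ℕ → ℝ) (Φ : G → ℂ), HE l Φ → ∀ (R : ℝ) (U : Set G), MeasurableSet U →
  U ⊆ Om R → ∀ P : Finset ℕ, (∀ p ∈ P, p.Prime) →
    ENNReal.ofReal (∑ p ∈ P, |l p|) ^ 2 * ms Φ U ^ 2 ≤
      (∑ p ∈ P, ∑ q ∈ P, ENNReal.ofReal ((√((p : ℝ) * q))⁻¹) * ∑' s : Mn (p * q), Dd Φ U (nm s.1)) +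
        (P.card : ℝ≥0∞) * ∑' γ : SL(2, ℤ), Dd Φ U (io γ)

/-- **Dds** simple bounds for `Dd` (uses `NuL`). Proof. `Dd = ∫⁻_{U ∩ h⁻¹U} ‖Φ(g)‖ ‖Φ(h g)‖`, Cauchy–Schwarz and left invariance:
`Dd² ≤ ms Φ (U ∩ h⁻¹ U) · ∫⁻_{h⁻¹U} ‖Φ(h g)‖² = ms Φ (U ∩ h⁻¹U) · ms Φ U`. (3) the number of `γ` with `Dd ≠ 0` is at most the number of `γ` with
entries `≤ 2R²`. -/
def StmtDds : Prop :=
  (∀ (Φ : G → ℂ), Continuous Φ → ∀ U : Set G, MeasurableSet U → ∀ h : G,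
    Dd Φ U h ^ 2 ≤ ms Φ (U ∩ {g | h * g ∈ U}) * ms Φ U ∧ Dd Φ U h ≤ ms Φ U ∧
      ((∀ x ∈ U, h * x ∉ U) → Dd Φ U h = 0)) ∧
  ∀ R : ℝ, 1 ≤ R → ∃ C : ℝ, 0 ≤ C ∧ ∀ (Φ : G → ℂ), Continuous Φ → ∀ U : Set G, MeasurableSet U → U ⊆ Om R →
    ∑' γ : SL(2, ℤ), Dd Φ U (io γ) ≤ ENNReal.ofReal C * ms Φ U

/-! ### Level sets -/

/-- **CS** Cauchy–Schwarz on tubes (uses `NuL`, `NuR`). Proof. `f = 1_U ‖Φ‖`. Right invariance: for every `β`, `∫⁻ f(x) f(hx) = ∫⁻ f(xβ) f(hxβ)`;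
average over `β ∈ b` (Tonelli): `nu b · Dd = ∫⁻_x ∫⁻_{β ∈ b} f(xβ) f(hxβ) ≤ ∫⁻_x (∫⁻_b f(xβ)²)^{1/2} (∫⁻_b f(hxβ)²)^{1/2}`, and
`∫⁻_b f(xβ)² dβ = ms Φ (U ∩ {g : x⁻¹ g ∈ b}) ≤ A` (left invariance), which is zero if `x ∉ Vb U b`. `Vb U b` is open:
`= ⋃_{u ∈ U} {x : x⁻¹ u ∈ b}`. -/
def StmtCS : Prop := ∀ (Φ : G → ℂ), Continuous Φ → ∀ U b : Set G, MeasurableSet U → IsOpen b →
  ∀ A : ℝ≥0∞, (∀ x : G, ms Φ (U ∩ {g | x⁻¹ * g ∈ b}) ≤ A) → ∀ h : G,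
    nu b * Dd Φ U h ≤ A * nu {x | x ∈ Vb U b ∧ h * x ∈ Vb U b}

/-- **Coi** many returns give many coincidences (uses `NuL`, `NuR`). Proof. For `x ∈ V` let `N(y) = #{s ∈ Sx M V x : y⁻¹ (nm s x) ∈ b}`. It vanishes unless
`y ∈ Vb V b`. `∫⁻ N dν = ∑_s nu {y : y⁻¹ (nm s x) ∈ b} = nS(x) nu b` (the set is `(nm s x) b⁻¹`; left and inversion invariance).
Cauchy–Schwarz: `(nS nu b)² ≤ nu (Vb V b) ∫⁻ N²`, and `∫⁻ N² = ∑_{s,s'} nu {y : y⁻¹ (nm s x) ∈ b, y⁻¹ (nm s' x) ∈ b} ≤ nu b · nC(x)`: the set is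
contained in `(nm s x) b⁻¹` and empty unless `(s, s') ∈ Cx` (`nm s x = y β`, `nm s' x = y β'`). If `0 < nu b < ∞` divide by `nu b`
(otherwise the claim is trivial or follows similarly), integrate over `x ∈ V` and use Cauchy–Schwarz `(∫⁻_V nS)² ≤ nu V ∫⁻_V nS²`.
Measurability: `nS`, `nC` are countable sums of indicator functions of measurable sets (`V`, `b` open; the set of `x` with
`(nm s' x)⁻¹ (nm s x) ∈ b⁻¹ b` is open). -/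
def StmtCoi : Prop := ∀ M : ℝ, 1 ≤ M → ∀ V b : Set G, IsOpen V → IsOpen b → nu b ≠ ⊤ → nu b ≠ 0 →
  nu V ≠ ⊤ → nu (Vb V b) ≠ ⊤ →
    nu b * (∫⁻ x in V, nS M V x ∂nu) ^ 2 ≤ nu V * nu (Vb V b) * ∫⁻ x in V, nC M V b x ∂nu

/-- **VV** the volume of `V` (uses `NuL`, `Vol`, `Bt`, `Tot`). Proof. `x ∈ V = Vb U b`: there is `u ∈ U` with `|xi x - xi u| ≤ w` (`Bt`), so
`A ≤ ms Φ (Tb R (xi u) w) ≤ ms Φ (Tb R (xi x) (2w))`. Integrate over `x ∈ V ⊆ Om (8R)` (Tonelli):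
`A nu V ≤ ∫⁻_{y ∈ Om R} ‖Φ y‖² nu {x ∈ Om (8R) : |xi x - xi y| ≤ 2w} ≤ C w² ms Φ (Om R)` (`Vol`, `Tot`). For `Vb V b` the same with `3w` and
`Om (64R)` (use `Bt` for the radius `8R`: the constant `c₀` is the smaller one; so here `c₀` is such that the conclusions of `Bt` hold for
`R` and `8R`, given as hypotheses). -/
def StmtVV : Prop := ∀ R : ℝ, 1 ≤ R → ∃ C : ℝ, 0 ≤ C ∧ ∀ (l : ℕ → ℝ) (Φ : G → ℂ), HE l Φ →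
  ∀ (w : ℝ) (U b : Set G), 0 < w → w ≤ 1 → MeasurableSet U → U ⊆ Om R → IsOpen b →
    (Vb U b ⊆ Om (8 * R) ∧ ∀ x ∈ Vb U b, ∃ u ∈ U, ∀ i, |xi x i - xi u i| ≤ w) →
    (Vb (Vb U b) b ⊆ Om (64 * R) ∧ ∀ x ∈ Vb (Vb U b) b, ∃ u ∈ Vb U b, ∀ i, |xi x i - xi u i| ≤ w) →
    ∀ A : ℝ≥0∞, (∀ u ∈ U, A ≤ ms Φ (Tb R (xi u) w)) →
      A * nu (Vb U b) ≤ ENNReal.ofReal (C * w ^ 2) ∧ A * nu (Vb (Vb U b) b) ≤ ENNReal.ofReal (C * w ^ 2)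

/-- **Lev** a level (uses `NuL`, `Tot`). Proof. `m(x) = ms Φ (Tb R (xi x) w)` is measurable (Tonelli: `∫⁻_y 1[y ∈ Om R, |xi y - xi x| ≤ w] ‖Φ y‖²`).
`A_j = 2^j w^{1+2c}`, `0 ≤ j ≤ J`, `A_J ≤ w^{1-δ} < 2 A_J`, `J + 1 ≤ C log(1/w)`. On `Om R` either `m < w^{1+2c}` or `A_j ≤ m < 2 A_j` for one `j ≤ J`
(`m ≤ w^{1-δ}` by hypothesis; `< 2 A_J`). So `Cw ≤ w^{1+2c} ms Φ (Om R) + ∑_j 2 A_j ms Φ U_j`, and for small `w` the first term is at most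
`w^{1+c}/2`; some `j` has `2 A_j ms Φ U_j ≥ w^{1+c}/(2 (J+1)) ≥ 2 w^{1+2c}`, `A_j ≤ w^{1-δ}`. -/
def StmtLev : Prop := ∀ R c δ : ℝ, 1 ≤ R → 0 < c → c ≤ 1 → 0 ≤ δ → δ ≤ 1 → ∃ w₀ : ℝ, 0 < w₀ ∧ w₀ ≤ 1 ∧
  ∀ (l : ℕ → ℝ) (Φ : G → ℂ), HE l Φ → ∀ w : ℝ, 0 < w → w ≤ w₀ →
    (∀ ζ : Fin 3 → ℝ, ms Φ (Tb R ζ w) ≤ ENNReal.ofReal (w ^ (1 - δ))) →
    ENNReal.ofReal (w ^ (1 + c)) < Cw Φ R w →
    ∃ A : ℝ, w ^ (1 + 2 * c) ≤ A ∧ A ≤ w ^ (1 - δ) ∧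
      MeasurableSet {g | g ∈ Om R ∧ ENNReal.ofReal A ≤ ms Φ (Tb R (xi g) w) ∧
        ms Φ (Tb R (xi g) w) < ENNReal.ofReal (2 * A)} ∧
      ENNReal.ofReal (w ^ (2 * c + δ)) ≤ ms Φ {g | g ∈ Om R ∧
        ENNReal.ofReal A ≤ ms Φ (Tb R (xi g) w) ∧ ms Φ (Tb R (xi g) w) < ENNReal.ofReal (2 * A)}

end

end Pool.Agent.A54.Hp
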