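import Pool.Agent.Lib.MP_a54f13_nt.Hp.SpecM

/-!
# Package `Hp`, part N: returns are counted with the dual lattice; the masses of the tubes

Architect: helper16 (THEOREM A of MP_a54f13_nt, note 4597; this proof replaces planes and coincidences). Every module: file
`Pool/Agent/Lib/MP_a54f13_nt/Hp/<Name>.lean` importing `Pool.Agent.Lib.MP_a54f13_nt.Hp.SpecN`, private names in
`namespace Pool.Agent.A54.Hp.<Name>N`, final theorem `Pool.Agent.A54.Hp.stmt<Name> : Stmt<Name>`; the Props named in the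
docstring under `uses` are hypotheses of the theorem, in this order (e.g. `theorem stmtDuL (h : StmtDuF) : StmtDuL`).
Useful: `Dyn/Base.lean` (entries of products and inverses `mul_00`, `inv_00`, `det_eq`, `G_ext`), `Hp/Nm.lean` (private lemmas
`NmM.nm_of`: entries of `nm s`, `NmM.mul_ij`).

IDEA. `b` is a tube of width `w`, `V` a set of few tubes. For `x ∈ V` the number of integral matrices `s`, `det s = p q ≈ M²`, with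
`s x ∈ V` is `1 / |b|` times the integral over `y ∈ V b⁻¹` of the number of `s` with `y⁻¹ s x` in a box with sides `M, M, M w, M w`.
The `y⁻¹ s x` form a unimodular lattice in `ℝ⁴`, so the number is `≤ C M⁴ w²`, unless the dual lattice `x⁻¹ n y` has a
short vector: diagonal entries `≤ 1/M`, off-diagonal entries `≤ 1/(M w)`. If `det n ≠ 0` this happens only for `y` in a set of
measure `≤ C (M w)⁻⁴ M⁻²`; if `det n = 0`, `n ≠ 0`, then `x` points to a cusp.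
-/

set_option autoImplicit false

namespace Pool.Agent.A54.Hp

open MeasureTheory Filter Topology Set
open scoped ContDiff ComplexConjugate UpperHalfPlane MatrixGroups ENNReal
open Pool.Agent.A54.Dyn (G fl base ze io mk4 dom)
open Pool.Agent.A54.Av (Mat NonSc)

noncomputable section

/-! ### Definitions -/

/-- the real matrix `y⁻¹ s x` -/
def cj (y x : G) (s : Mat) : Matrix (Fin 2) (Fin 2) ℝ :=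
  (y⁻¹ : G).1 * s.map (fun a : ℤ => (a : ℝ)) * x.1

/-- a real matrix with diagonal entries `≤ D` and off-diagonal entries `≤ E` -/
def Bxx (D E : ℝ) (g : Matrix (Fin 2) (Fin 2) ℝ) : Prop :=
  |g 0 0| ≤ D ∧ |g 1 1| ≤ D ∧ |g 0 1| ≤ E ∧ |g 1 0| ≤ E

/-- the cusp set: `x⁻¹ u` has one coordinate `≤ η` and the other `≤ K`, for an integral vector `u ≠ 0` -/
def Zc (R η K : ℝ) : Set G :=
  {x | x ∈ Om R ∧ ∃ u : Fin 2 → ℤ, u ≠ 0 ∧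
    ((|x 1 1 * u 0 - x 0 1 * u 1| ≤ η ∧ |-(x 1 0) * u 0 + x 0 0 * u 1| ≤ K) ∨
      (|-(x 1 0) * u 0 + x 0 0 * u 1| ≤ η ∧ |x 1 1 * u 0 - x 0 1 * u 1| ≤ K))}

/-- the hypothesis on the cusp (proved by helper86 for cuspidal Hecke eigenfunctions) -/
def Iso (R : ℝ) (Φ : G → ℂ) (w : ℝ) : Prop := ∀ η K : ℝ, 0 < η → η ≤ K → η * K ≤ w ^ (1 / 2 : ℝ) →
  MeasurableSet (Zc R η K) ∧ ms Φ (Zc R η K) ≤ ENNReal.ofReal (w ^ (1 / 10 : ℝ))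

/-- the number of the `s` with `det s = p q` and `y⁻¹ (s x) ∈ b` -/
def rr (M : ℝ) (b : Set G) (x y : G) : ℝ≥0∞ :=
  ∑' s : Mat, {s : Mat | (∃ p ∈ Pm M, ∃ q ∈ Pm M, s.det = ((p * q : ℕ) : ℤ)) ∧
    y⁻¹ * (nm s * x) ∈ b}.indicator (fun _ => (1 : ℝ≥0∞)) s

/-- the level set -/
def Ul (Φ : G → ℂ) (R w A : ℝ) : Set G := {g | g ∈ Om R ∧ ENNReal.ofReal A ≤ ms Φ (Tb R (xi g) w) ∧
  ms Φ (Tb R (xi g) w) < ENNReal.ofReal (2 * A)}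

/-- the points `y` of the box for which `x⁻¹ n y` is short, for an integral `n` with `det n ≠ 0` -/
def Sp (R ε K : ℝ) (x : G) : Set G :=
  {y | y ∈ Om R ∧ ∃ n : Mat, n.det ≠ 0 ∧ Bxx ε K (cj x y n)}

/-! ### The dual lattice -/

/-- **DuF** (uses nothing). Proof. Let `F(t) = ∑_{m ∈ S} exp(2πi m·t)`; it is `ℤ⁴`-periodic. `D` meets every translate of
itself by `n ∈ ℤ⁴`, `n ≠ 0`, in the empty set, so with `Q = [0,1)⁴` (a fundamental domain of `ℤ⁴`):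
`∫_D |F|² = ∑_n ∫_{Q ∩ (D - n)} |F|² ≤ ∫_Q |F|²` (the sets `D - n` are disjoint), and `∫_Q |F|² = ∑_{m,m'} ∫_Q exp(2πi (m-m')·t) = #S` (Fubini,
`∫_0^1 exp(2πi k t) dt = 0` for `k ≠ 0`). (`IsAddFundamentalDomain` or floor functions; alternatively `UnitAddTorus`.) -/
def StmtDuF : Prop := ∀ (S : Finset (Fin 4 → ℤ)) (D : Set (Fin 4 → ℝ)), MeasurableSet D →
  (∀ t ∈ D, ∀ t' ∈ D, ∀ n : Fin 4 → ℤ, (∀ i, t i - t' i = (n i : ℝ)) → n = 0) →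
  ∫⁻ t in D, ‖∑ m ∈ S, Complex.exp (2 * Real.pi * Complex.I * ((∑ i, (m i : ℝ) * t i : ℝ) : ℂ))‖ₑ ^ 2 ≤
    (S.card : ℝ≥0∞)

/-- **DuL** (uses `DuF`). Proof. `D = {∑_i τ_i A_i : |τ_i| ≤ 1/(64 B_i)}` (`A_i` the rows of `A`), i.e. the image of a box under `Aᵀ`,
`volume D = |det A| ∏ 1/(32 B_i)` (`Measure.addHaar_image_linearMap` or `Real.map_matrix_volume_pi_eq_smul_volume_pi`). If `t - t' = n`
is integral, `t, t' ∈ D`, then `n_j = ∑_i A_ij (τ_i - τ'_i)` with `|τ_i - τ'_i| ≤ 1/(32 B_i)`, so `n = 0`. For `t = Aᵀ τ ∈ D`, `m ∈ S`: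
`m·t = (A m)·τ`, `|m·t| ≤ 4/64`, so `Re exp(2πi m·t) ≥ cos(π/8) ≥ 1/2` and `|F(t)| ≥ #S/2`. `DuF`: `(#S)²/4 ∏ 1/(32 B_i) ≤ #S`, so
`#S ≤ 4 · 32⁴ ∏ B_i ≤ 2²³ ∏ B_i`. -/
def StmtDuL : Prop := ∀ (A : Matrix (Fin 4) (Fin 4) ℝ) (B : Fin 4 → ℝ), |A.det| = 1 → (∀ i, 0 < B i) →
  (∀ (n : Fin 4 → ℤ) (τ : Fin 4 → ℝ), (∀ j, (n j : ℝ) = ∑ i, A i j * τ i) →
    (∀ i, |τ i| ≤ 1 / (32 * B i)) → n = 0) →
  ∀ S : Finset (Fin 4 → ℤ), (∀ m ∈ S, ∀ i, |∑ j, A i j * (m j : ℝ)| ≤ B i) →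
    (S.card : ℝ) ≤ 2 ^ 23 * ∏ i, B i

/-- **CtA** the trivial count (uses nothing). Proof. The entries of `g = y⁻¹ s x` are at most `B M` (diagonal) and `B` (off-diagonal).
`s = y g x⁻¹` depends linearly on `g = (g₀₀, g₀₁, g₁₀, g₁₁)`; so `|s_ij| ≤ 4 R² B M` (`M ≥ 1`). Count: the map `s ↦ (⌊g₀₀⌋, ⌊g₀₁⌋, ⌊g₁₀⌋, ⌊g₁₁⌋)`
takes at most `(2 B M + 2)² (2 B + 2)²` values, and if `s, s'` have the same value then the entries of `g - g'` are at most `1`, the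
entries of `s - s' = y (g - g') x⁻¹` at most `4 R²`, so each value is taken at most `(8 R² + 1)⁴` times. -/
def StmtCtA : Prop := ∀ R B : ℝ, 1 ≤ R → 1 ≤ B → ∃ C : ℝ, 1 ≤ C ∧ ∀ x ∈ Om R, ∀ y ∈ Om R, ∀ M : ℝ, 1 ≤ M →
  ∀ S : Finset Mat, (∀ s ∈ S, Bxx (B * M) B (cj y x s)) → (S.card : ℝ) ≤ C * M ^ 2

/-- **CtB** the generic count (uses `DuL`). Proof. `DuL` with `m = (s₀₀, s₀₁, s₁₀, s₁₁)`, `A m = (g₀₀, g₀₁, g₁₀, g₁₁)`, `g = y⁻¹ s x`: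
`g_ij = ∑_{k,l} (y⁻¹)_ik x_lj s_kl`, the Kronecker product of `y⁻¹` and `xᵀ`, of determinant `(det y⁻¹)² (det x)² = 1` (expand: use
`det_eq` for `x` and `y`, e.g. write the 4 × 4 determinant by `Matrix.det_succ_row_zero`, `Fin.sum_univ_succ`, `simp`, then it is
`(x₀₀x₁₁ - x₀₁x₁₀)² (y₀₀y₁₁ - y₀₁y₁₀)²`), box sides `B M, B M w, B M w, B M`. If `n_kl = ∑_{i,j} (y⁻¹)_ik x_lj τ_ij` (as in `DuL`), let
`N` be the integral matrix `N_lk = n_kl` (transposed). Then `N = x τᵀ y⁻¹`, so `x⁻¹ N y = τᵀ`: diagonal entries `≤ 1/(32 B M) ≤ 1/M`, off-diagonal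
entries `≤ 1/(32 B M w) ≤ 1/(M w)`, so `N = 0` by hypothesis. Result: `#S ≤ 2²³ B⁴ M⁴ w²`. -/
def StmtCtB : Prop := ∀ B : ℝ, 1 ≤ B → ∃ C : ℝ, 1 ≤ C ∧ ∀ (x y : G) (M w : ℝ), 0 < M → 0 < w →
  (∀ n : Mat, Bxx (1 / M) (1 / (M * w)) (cj x y n) → n = 0) →
  ∀ S : Finset Mat, (∀ s ∈ S, Bxx (B * M) (B * (M * w)) (cj y x s)) → (S.card : ℝ) ≤ C * (M ^ 4 * w ^ 2)

/-! ### Special points -/

/-- **Sl** slicing (uses `NuR`). Proof. Let `u(t)` be one of the two unipotent elements. Right invariance: `nu S = nu {y : y u(t) ∈ S}` for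
every `t`; integrate over `t ∈ [0,1]` and use Tonelli (`(y,t) ↦ y u(t)` is continuous, `S` measurable; `nu` σ-finite: hypothesis):
`nu S = ∫⁻_y volume {t ∈ [0,1] : y u(t) ∈ S} dν(y) ≤ ∫⁻_y 1_{S'}(y) λ = λ nu S'`. -/
def StmtSl : Prop := SigmaFinite nu → ∀ (S S' : Set G) (lam : ℝ≥0∞), MeasurableSet S → MeasurableSet S' →
  ((∀ t ∈ Icc (0 : ℝ) 1, ∀ y : G, y * mk4 1 t 0 1 (by ring) ∈ S → y ∈ S') →
    (∀ y : G, volume {t | t ∈ Icc (0 : ℝ) 1 ∧ y * mk4 1 t 0 1 (by ring) ∈ S} ≤ lam) → nu S ≤ lam * nu S') ∧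
  ((∀ t ∈ Icc (0 : ℝ) 1, ∀ y : G, y * mk4 1 0 t 1 (by ring) ∈ S → y ∈ S') →
    (∀ y : G, volume {t | t ∈ Icc (0 : ℝ) 1 ∧ y * mk4 1 0 t 1 (by ring) ∈ S} ≤ lam) → nu S ≤ lam * nu S')

/-- **SpA** one matrix (uses `NuL`, `Sl`, `Vol`). Here `h` is a real `2 × 2` matrix with `|det h| ≥ 1` (`h = x⁻¹ n`), rows `r₁, r₂`; columns of `y`:
`c₁, c₂`. `S = {y ∈ Om R : |r₁·c₁| ≤ ε, |r₂·c₂| ≤ ε, |r₁·c₂| ≤ K, |r₂·c₁| ≤ K}`. Proof. Let `S ≠ ∅`. Then `|r_i| ≤ C K` (euclidean or sup norm;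
`h = (h y) y⁻¹`, `ε ≤ K`), and `|r_i| ≥ 1/(C K)` because `1 ≤ |det h| ≤ 2 |r₁| |r₂|`. Step 1 (`Sl`, upper unipotent: `y u(t)` has the columns
`c₁, c₂ + t c₁`): `S' = {y ∈ Om (2R) : |r₁·c₁| ≤ ε, |r₂·c₁| ≤ K}`; if `y u(t) ∈ S` for some `t` then `y ∈ S'`, and the `t` with
`|r₂·(c₂ + t c₁)| ≤ ε` form an interval of length `2ε/|r₂·c₁|`. By `|det h| |c₁| ≤ 2 (|r₁·c₁| |r₂| + |r₂·c₁| |r₁|)` (the vector identity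
`(r₁·c) r₂ - (r₂·c) r₁ = ± det(r₁,r₂) c^⊥`), `|c₁| ≥ 1/(4R)` (`1 = det y ≤ 2 |c₁| |c₂|`), and `ε |r₂| ≤ C ε K` small: `|r₂·c₁| ≥ 1/(C |r₁|)`. So
`nu S ≤ C ε |r₁| nu S'`. Step 2 (`Sl`, lower unipotent: columns `c₁ + t c₂, c₂`): `S'' = Om (4R)`; for `y` such that `y l(t) ∈ S'` for some `t`,
`|r₁·(c₁ + t c₂)| ≤ ε` and `|r₁| ≤ 4R (ε + |r₁·c₂|)` (`r₁ = (r₁·c₁', r₁·c₂) y'⁻¹`, `y' = y l(t)`), `ε ≤ |r₁|/(8R)` (`ε K` small), so `|r₁·c₂| ≥ |r₁|/(8R)` and the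
`t` form an interval of length `≤ 16 R ε/|r₁|`: `nu S' ≤ C (ε/|r₁|) nu (Om (4R))`. Together `nu S ≤ C ε²`. All sets are closed in `G`. -/
def StmtSpA : Prop := ∀ R : ℝ, 1 ≤ R → ∃ C : ℝ, 1 ≤ C ∧ ∀ h : Matrix (Fin 2) (Fin 2) ℝ, 1 ≤ |h.det| →
  ∀ ε K : ℝ, 0 < ε → ε ≤ K → C * (ε * K) ≤ 1 →
    MeasurableSet {y : G | y ∈ Om R ∧ Bxx ε K (h * y.1)} ∧
    nu {y : G | y ∈ Om R ∧ Bxx ε K (h * y.1)} ≤ ENNReal.ofReal (C * ε ^ 2)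

/-- **SpB** the special points (uses `SpA`). Proof. `cj x y n = (x⁻¹ n) y`, `|det (x⁻¹ n)| = |det n| ≥ 1`. If `y ∈ Sp R ε K x` with the matrix
`n` then `n = x (x⁻¹ n y) y⁻¹` has entries at most `4 R² K`, so `Sp R ε K x` is the union over at most `(8 R² K + 1)⁴ ≤ C K⁴` matrices `n` of sets as in
`SpA` (`K ≥ 1`). -/
def StmtSpB : Prop := ∀ R : ℝ, 1 ≤ R → ∃ C : ℝ, 1 ≤ C ∧ ∀ x ∈ Om R, ∀ ε K : ℝ, 0 < ε → ε ≤ K → 1 ≤ K →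
  C * (ε * K) ≤ 1 → MeasurableSet (Sp R ε K x) ∧ nu (Sp R ε K x) ≤ ENNReal.ofReal (C * (ε ^ 2 * K ^ 4))

/-- **Cz** singular matrices (uses nothing). Proof. `W = x⁻¹ n y = cj x y n`, `det W = det n = 0`, so `|W₀₁ W₁₀| = |W₀₀ W₁₁| ≤ 1/M²` and `|W₁₀| ≤ 1/M` or
`|W₀₁| ≤ 1/M`. In the first case the second row of `W` is at most `1/M`, the first row at most `1/(M w)` (`M ≥ 1 ≥ M w`, so `1/M ≤ 1/(M w)`... note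
`w ≤ 1`). Let `u` be a column of `n` which is not zero; `x⁻¹ u` is the corresponding column of `x⁻¹ n = W y⁻¹`, so its coordinates are at most
`2R/M` and `2R/(M w)`. The second case is the same with the rows exchanged. (`p = x⁻¹ u = (x₁₁ u₀ - x₀₁ u₁, - x₁₀ u₀ + x₀₀ u₁)`.) -/
def StmtCz : Prop := ∀ R : ℝ, 1 ≤ R → ∀ x ∈ Om R, ∀ y ∈ Om R, ∀ M w : ℝ, 1 ≤ M → 0 < w → w ≤ 1 →
  ∀ n : Mat, n ≠ 0 → n.det = 0 → Bxx (1 / M) (1 / (M * w)) (cj x y n) → x ∈ Zc R (2 * R / M) (2 * R / (M * w))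

/-- **Zt** transfer (uses nothing). Proof. `x β ∈ U`, `β ∈ bt c (c w)`; `(x β)⁻¹ u = β⁻¹ p`, `p = x⁻¹ u`, with coordinates `β₁₁ p₀ - β₀₁ p₁` and
`- β₁₀ p₀ + β₀₀ p₁`; `|β₀₀| ≤ 2`, `|β₁₁| ≤ 4` (`β₁₁ = (1 + β₀₁ β₁₀)/β₀₀`, `β₀₀ ≥ 1/2`), `|β₀₁|, |β₁₀| ≤ w`, and `w K ≤ η`, `η ≤ K`. -/
def StmtZt : Prop := ∀ (R R' c w η K : ℝ), 0 < c → c ≤ 1 / 2 → 0 < w → w ≤ 1 → 0 < η → η ≤ K → w * K ≤ η →
  ∀ U : Set G, U ⊆ Om R → ∀ x ∈ Vb U (bt c (c * w)), x ∈ Zc R' η K →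
    ∃ y ∈ U, y ∈ Zc R (8 * η) (8 * K)

/-! ### Returns -/

/-- **RtA** double counting (uses `NuL`, `NuR`). Proof. For `s` with `z = nm s * x ∈ V`: `nu {y : y⁻¹ z ∈ b} = nu (z b⁻¹) = nu b` (left and inversion
invariance), and this set is contained in `Vb V b` (`y β = z ∈ V` with `β = y⁻¹ z ∈ b`). Sum over `s` (`lintegral_tsum`; the sets
`{y : y⁻¹ z ∈ b}` are open). -/
def StmtRtA : Prop := ∀ (M : ℝ) (V b : Set G), IsOpen V → IsOpen b → ∀ x : G,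
  nS M V x * nu b ≤ ∫⁻ y in Vb V b, rr M b x y ∂nu

/-- **RtB** (uses `CtA`, `CtB`). Proof. `M < p, q ≤ 2M` (or `p ≤ ⌊2M⌋`), so `M² ≤ det s ≤ 4M²`. If `y⁻¹ (nm s x) = β ∈ bt c (c w)` then
`cj y x s = √(det s) β` (entries of `nm s`: `s_ij/√(det s)`), `|β₀₀|, |β₁₁| ≤ 4`, `|β₀₁|, |β₁₀| ≤ c w ≤ w`: `Bxx (8 M) (8 (M w)) (cj y x s)`, and
`M w ≤ 1`. So every finite subset of the set of these `s` has at most `C M²` elements (`CtA` with `B = 8`), and at most `C M⁴ w²` elements if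
the hypothesis of `CtB` holds; `ENNReal.tsum_eq_iSup_sum`. -/
def StmtRtB : Prop := ∀ R : ℝ, 1 ≤ R → ∃ C : ℝ, 1 ≤ C ∧ ∀ c w M : ℝ, 0 < c → c ≤ 1 / 2 → 0 < w → w ≤ 1 →
  1 ≤ M → M * w ≤ 1 → ∀ x ∈ Om R, ∀ y ∈ Om R, rr M (bt c (c * w)) x y ≤ ENNReal.ofReal (C * M ^ 2) ∧
    ((∀ n : Mat, Bxx (1 / M) (1 / (M * w)) (cj x y n) → n = 0) →
      rr M (bt c (c * w)) x y ≤ ENNReal.ofReal (C * (M ^ 4 * w ^ 2)))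

/-- **Ret** the number of returns (uses `RtA`, `RtB`, `SpB`, `Cz`, `Vol`). Proof. `x ∈ V ⊆ Om R ⊆ Om (8R)`, `V' = Vb V b ⊆ Om (8R)`, `b = bt c (c w)`. Put `ε = 1/M`,
`K = 1/(M w) ≥ 1`; `ε K = 1/(M² w)`, small by hypothesis. For `y ∈ V'`, `y ∉ Sp (8R) ε K x`, an `n ≠ 0` with `Bxx ε K (cj x y n)` has `det n = 0`, so by
`Cz` (radius `8R`) `x ∈ Zc (8R) (16R/M) (16R/(M w))`, and `x ∈ Om R`: excluded. So `rr ≤ C M⁴ w²` for these `y` and `rr ≤ C M²` for `y ∈ Sp`.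
`RtA`: `nS nu b ≤ C M⁴ w² nu V' + C M² C M⁻² K⁴`; divide by `nu b ≥ c' c² w²` (`Vol`, second part with the width `c w`: `bt c (c w)`). -/
def StmtRet : Prop := ∀ R c : ℝ, 1 ≤ R → 0 < c → c ≤ 1 / 2 → ∃ C : ℝ, 1 ≤ C ∧ ∀ w M : ℝ, 0 < w → w ≤ 1 →
  1 ≤ M → M * w ≤ 1 → C ≤ M ^ 2 * w → ∀ V : Set G, IsOpen V → V ⊆ Om R →
    Vb V (bt c (c * w)) ⊆ Om (8 * R) → IsOpen (bt c (c * w)) → ∀ x ∈ V, x ∉ Zc R (C / M) (C / (M * w)) →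
      nS M V x ≤ ENNReal.ofReal C *
        (ENNReal.ofReal (M ^ 4) * nu (Vb V (bt c (c * w))) + ENNReal.ofReal (M ^ (-(4 : ℝ)) * w ^ (-(6 : ℝ))))

/-! ### Sums over pairs of primes, tubes, levels -/

/-- **Two** (uses nothing). Proof. `p, q ∈ Pm M` are `> M` (`p ≥ ⌊M⌋ + 1`), so `(√(pq))⁻¹ ≤ M⁻¹`. The sums over `s ∈ Mn (p q)` are sums over all
`s : Mat` of `F s` times the indicator of `det s = p q`; for each `s` at most two ordered pairs `(p, q)` of primes have `p q = det s`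
(if `p q = p' q'` then `p' ∈ {p, q}`). -/
def StmtTwo : Prop := ∀ M : ℝ, 1 ≤ M → ∀ F : Mat → ℝ≥0∞,
  ∑ p ∈ Pm M, ∑ q ∈ Pm M, ENNReal.ofReal ((√((p : ℝ) * q))⁻¹) * ∑' s : Mn (p * q), F s.1 ≤
    ENNReal.ofReal (2 / M) *
      ∑' s : Mat, {s : Mat | ∃ p ∈ Pm M, ∃ q ∈ Pm M, s.det = ((p * q : ℕ) : ℤ)}.indicator F s

/-- **Tub** two points of a tube (uses nothing). Proof. `δ = x₀⁻¹ x`, `|δ_ij| ≤ 2R²`. With `X(ξ) = (ξ₀, 2ξ₁; 2ξ₂, -ξ₀)` one has `X(xi g) = g diag(1,-1) g⁻¹`, so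
`X(xi δ) - X(1,0,0) = x₀⁻¹ (X(xi x) - X(xi x₀)) x₀` has entries at most `C R² w`: `|δ₀₀ δ₀₁|, |δ₁₀ δ₁₁|, |δ₀₁ δ₁₀| ≤ C R² w`. If `C R² w ≤ 1/2` then
`δ₀₀ δ₁₁ = 1 + δ₀₁ δ₁₀ ≥ 1/2`, so `|δ₀₀|, |δ₁₁| ≥ 1/(4R²)` and `|δ₀₁|, |δ₁₀| ≤ C' w`; otherwise `|δ_ij| ≤ 2R² ≤ C'' w`. -/
def StmtTub : Prop := ∀ R : ℝ, 1 ≤ R → ∃ C : ℝ, 1 ≤ C ∧ ∀ (ζ : Fin 3 → ℝ) (w : ℝ), 0 < w →
  ∀ x₀ ∈ Tb R ζ w, ∀ x ∈ Tb R ζ w, |(x₀⁻¹ * x) 0 0| ≤ C ∧ |(x₀⁻¹ * x) 1 1| ≤ C ∧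
    |(x₀⁻¹ * x) 0 1| ≤ C * w ∧ |(x₀⁻¹ * x) 1 0| ≤ C * w

/-- **Sin** single tubes (uses `Tot`, `AI`, `Dds`, `CtA`, `Two`, `Tub`). Proof. `U = Tb R ζ w` (closed); let `x₀ ∈ U` (if `U = ∅` the claim is trivial). If `det s = p q` and
`x, nm s x ∈ U` then `cj x₀ x₀ s = √(pq) (x₀⁻¹ (nm s x)) (x₀⁻¹ x)⁻¹` has diagonal entries at most `C M` and off-diagonal entries at most
`2M · C w ≤ C` (`M w ≤ 1`): by `CtA` at most `C M²` such `s`. `AI` with `P = Pm M` (`card ≤ 2M`), `Dd Φ U (nm s) ≤ ms Φ U`, and it is `0` for the other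
`s` (`Dds`), `Two`, and `∑_γ Dd Φ U (io γ) ≤ C ms Φ U` (`Dds`): `M^(2-2κ) ms² ≤ (2/M) C M² ms + 2M C ms`, `κ = 1/1000`. `ms Φ U < ∞` (`Tot`), so
`ms ≤ C M^(-1+2κ)`. -/
def StmtSin : Prop := ∀ R : ℝ, 1 ≤ R → ∃ C : ℝ, 1 ≤ C ∧ ∀ (l : ℕ → ℝ) (Φ : G → ℂ), HE l Φ → ∀ w M : ℝ,
  0 < w → 1 ≤ M → M * w ≤ 1 → Gd (1 / 1000) l M → ∀ ζ : Fin 3 → ℝ,
    ms Φ (Tb R ζ w) ≤ ENNReal.ofReal (C * M ^ (-(998 / 1000) : ℝ))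

/-- **Lv** a level (uses `NuL`, `Tot`); the same as `Lev` with a sharper conclusion. Proof. `m(x) = ms Φ (Tb R (xi x) w)` is measurable (Tonelli). `A_j = 2^j w^{1+2c}`, `0 ≤ j ≤ J`,
`A_J ≤ w^{1-δ} < 2 A_J`, `J + 1 ≤ C log(1/w)`. On `Om R` either `m < w^{1+2c}` or `A_j ≤ m < 2 A_j` for one `j ≤ J`. So
`Cw ≤ w^{1+2c} ms Φ (Om R) + ∑_j 2 A_j ms Φ U_j`; for small `w` the first term is at most `w^{1+c}/2`, so some `j` has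
`2 A_j ms Φ U_j ≥ w^{1+c}/(2 (J+1)) ≥ 2 w^{1+2c}`. -/
def StmtLv : Prop := ∀ R c δ : ℝ, 1 ≤ R → 0 < c → c ≤ 1 → 0 ≤ δ → δ ≤ 1 → ∃ w₀ : ℝ, 0 < w₀ ∧ w₀ ≤ 1 ∧
  ∀ (l : ℕ → ℝ) (Φ : G → ℂ), HE l Φ → ∀ w : ℝ, 0 < w → w ≤ w₀ →
    (∀ ζ : Fin 3 → ℝ, ms Φ (Tb R ζ w) ≤ ENNReal.ofReal (w ^ (1 - δ))) →
    ENNReal.ofReal (w ^ (1 + c)) < Cw Φ R w →
    ∃ A : ℝ, w ^ (1 + 2 * c) ≤ A ∧ A ≤ w ^ (1 - δ) ∧ MeasurableSet (Ul Φ R w A) ∧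
      ENNReal.ofReal (w ^ (1 + 2 * c)) ≤ ENNReal.ofReal A * ms Φ (Ul Φ R w A)

/-! ### The main step -/

/-- **Stp** (uses `NuL`, `Vol`, `Bt`, `Tot`, `AI`, `Dds`, `CS`, `VV`, `Zt`, `Ret`, `Two`). Proof. `Bt` for the radius `R` and for `8R` (with `c₁ = 1`) give `c₀, c₀'`; let `c` be the smaller one
(`bt c (c w) ⊆ bt c₀ (c₀ w)`, and `Vb U b` is monotone in `b`; the conclusions of `Bt` pass to `bt c (c w)`, which is open), `b = bt c (c w)`,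
`V = Vb U b ⊆ Om (8R)` (open), `V' = Vb V b ⊆ Om (64R)`. (1) If `g, u₀ ∈ U ∩ x b` then `|xi g - xi u₀| ≤ w`, so `ms Φ (U ∩ x b) ≤ 2A` (`U ⊆ Ul Φ R w A`), and `CS`:
`nu b · Dd Φ U h ≤ 2A nu {x ∈ V : h x ∈ V}`. (2) `∑_s nu {x ∈ V : nm s x ∈ V} = ∫⁻_V nS M V x` (sum over the `s` with `det s = p q`). (3) for `x ∈ V`:
`x ∉ Zc (8R) (C/M) (C/(M w))` by `Zt` (`η = C/M`, `K = C/(M w)`, `w K = η`) if `U` is disjoint from `Zc R (8C/M) (8C/(M w))`; so by `Ret` (radius `8R`)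
`nS M V x ≤ C (M⁴ nu V' + M⁻⁴ w⁻⁶)`. (4) `VV`: `A nu V, A nu V' ≤ C w²`. (5) `AI` with `P = Pm M` (`card ≤ 2M`), `Two`, `Dds`:
`M^(2-2κ) ms² ≤ (2/M) (2A/nu b) nu V · C (M⁴ nu V' + M⁻⁴ w⁻⁶) + 2M · C ms`, and `nu b ≥ c' w²` (`Vol`). So
`M^(2-2κ) ms² ≤ C (M⁻¹ (M⁴ w²/A + M⁻⁴ w⁻⁶) + M ms)`. -/
def StmtStp : Prop := ∀ R : ℝ, 1 ≤ R → ∃ C : ℝ, 1 ≤ C ∧ ∀ (l : ℕ → ℝ) (Φ : G → ℂ), HE l Φ → ∀ w M A : ℝ,
  0 < w → w ≤ 1 → 1 ≤ M → M * w ≤ 1 → C ≤ M ^ 2 * w → 0 < A → Gd (1 / 1000) l M →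
  ∀ U : Set G, MeasurableSet U → U ⊆ Ul Φ R w A → Disjoint U (Zc R (C / M) (C / (M * w))) →
    ENNReal.ofReal (M ^ (1998 / 1000 : ℝ)) * ms Φ U ^ 2 ≤ ENNReal.ofReal C *
      (ENNReal.ofReal (M ^ (3 : ℝ) * w ^ (2 : ℝ) / A) + ENNReal.ofReal (M ^ (-(5 : ℝ)) * w ^ (-(6 : ℝ))) +
        ENNReal.ofReal M * ms Φ U)

/-- **PP** (uses `Tot`, `Sin`, `Lv`, `Stp`). Proof. Suppose `Cw > w^(1+c)`, `c = 1/1000`. (1) `GdI` with `X = w⁻¹` gives `M₁ ∈ [w^(-19/20), w⁻¹]`, and `Sin`: all tubes have mass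
`≤ C w^((19/20)(998/1000)) ≤ w^(47/50)` for small `w` (`0.9481 > 0.94`). (2) `Lv` with `δ = 3/50`: `A ∈ [w^(1+2c), w^(47/50)]`, `U₀ = Ul Φ R w A`,
`A ms U₀ ≥ w^(1+2c)`, so `ms U₀ ≥ w^(0.062)`. (3) `GdI` with `X = w^(-37/40)`: `M = w^(-m)`, `m ∈ [703/800, 37/40]` (`703/800 = 0.87875`). `η = C/M`,
`K = C/(M w)`, `η K = C² w^(2m-1) ≤ w^(1/2)`; `Iso`: `ms Z ≤ w^(1/5)`, `Z = Zc R η K`, so `U = U₀ \ Z` has `ms U ≥ ms U₀ - w^(1/5) ≥ w^(1+2c)/(2A)` (for small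
`w`). (4) `Stp` (`M² w = w^(1-2m) ≥ C`): one of the three terms is at least a third of the left side. If `C M ms ≥ (1/3) M^1.998 ms²` then
`ms ≤ 3 C M^(-0.998) ≤ 3 C w^0.87`, against `ms ≥ w^0.062/2`. If `C M³ w²/A ≥ (1/3) M^1.998 ms² ≥ (1/12) M^1.998 w^2.004/A²` then
`A ≥ M^(-1.002) w^0.004/(12 C) ≥ w^(0.925·1.002 + 0.004)/(12 C) = w^0.93085/(12 C)`, against `A ≤ w^0.94`. If
`C M^(-5) w^(-6) ≥ (1/12) M^1.998 w^2.004/A²` then `A² ≥ M^6.998 w^8.004/(12 C) ≥ w^(8.004 - 0.87875·6.998)/(12 C) ≥ w^1.8546/(12 C)`,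
against `A² ≤ w^1.88`. All for `w ≤ w₀(R)`. -/
def StmtPP : Prop := ∀ R : ℝ, 1 ≤ R → ∃ w₀ : ℝ, 0 < w₀ ∧ w₀ ≤ 1 ∧ ∀ (l : ℕ → ℝ) (Φ : G → ℂ), HE l Φ →
  ∀ w : ℝ, 0 < w → w ≤ w₀ → Iso R Φ w → GdI l w → Cw Φ R w ≤ ENNReal.ofReal (w ^ (1001 / 1000 : ℝ))

end

end Pool.Agent.A54.Hp
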