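import Pool.Agent.Lib.MP_a54f13_nt.Hp.SpecN

/-!
# Package `Hp`, part N, module `Two`: sums over pairs of primes
-/

set_option autoImplicit false

namespace Pool.Agent.A54.Hp

open MeasureTheory Filter Topology Set
open scoped ContDiff ComplexConjugate UpperHalfPlane MatrixGroups ENNReal
open Pool.Agent.A54.Dyn (G fl base ze io mk4 dom)
open Pool.Agent.A54.Av (Mat NonSc)

noncomputable section

namespace TwoN

lemma mem_Pm {M : ℝ} {p : ℕ} (hp : p ∈ Pm M) : p.Prime ∧ M < p := by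
  unfold Pm at hp
  rw [Finset.mem_filter, Finset.mem_Ioc] at hp
  refine ⟨hp.2, ?_⟩
  exact (Nat.floor_lt' hp.2.ne_zero).1 hp.1.1

lemma weight {M : ℝ} (hM : 1 ≤ M) {p q : ℕ} (hp : p ∈ Pm M) (hq : q ∈ Pm M) :
    (√((p : ℝ) * q))⁻¹ ≤ M⁻¹ := by
  have h1 := (mem_Pm hp).2
  have h2 := (mem_Pm hq).2
  have hM0 : 0 < M := by linarith
  refine inv_anti₀ hM0 ?_
  refine Real.le_sqrt_of_sq_le ?_
  nlinarith

/-- at most two ordered pairs of primes have a given product -/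
lemma pairs (M : ℝ) (n : ℤ) :
    ((Pm M ×ˢ Pm M).filter (fun w : ℕ × ℕ => n = ((w.1 * w.2 : ℕ) : ℤ))).card ≤ 2 := by
  classical
  by_cases h : ∃ w ∈ Pm M ×ˢ Pm M, n = ((w.1 * w.2 : ℕ) : ℤ)
  · obtain ⟨w, hw, hn⟩ := h
    rw [Finset.mem_product] at hw
    have hp := (mem_Pm hw.1).1
    have hq := (mem_Pm hw.2).1
    have hsub : (Pm M ×ˢ Pm M).filter (fun w : ℕ × ℕ => n = ((w.1 * w.2 : ℕ) : ℤ)) ⊆
        {w, (w.2, w.1)} := by
      intro w' hw'
      rw [Finset.mem_filter, Finset.mem_product] at hw'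
      have hp' := (mem_Pm hw'.1.1).1
      have h1 : w'.1 * w'.2 = w.1 * w.2 := by
        have := hw'.2.symm.trans hn
        exact_mod_cast this
      have h2 : w'.1 ∣ w.1 * w.2 := ⟨w'.2, h1.symm⟩
      rw [Finset.mem_insert, Finset.mem_singleton]
      rcases hp'.dvd_mul.1 h2 with h3 | h3
      · left
        have h4 : w'.1 = w.1 := (Nat.prime_dvd_prime_iff_eq hp' hp).1 h3
        rw [h4] at h1
        exact Prod.ext h4 (Nat.eq_of_mul_eq_mul_left hp.pos h1)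
      · right
        have h4 : w'.1 = w.2 := (Nat.prime_dvd_prime_iff_eq hp' hq).1 h3
        rw [h4, mul_comm w.1 w.2] at h1
        exact Prod.ext h4 (Nat.eq_of_mul_eq_mul_left hq.pos h1)
    exact (Finset.card_le_card hsub).trans Finset.card_le_two
  · rw [Finset.filter_eq_empty_iff.2]
    · simp
    · intro w hw hn
      exact h ⟨w, hw, hn⟩

end TwoN

open TwoN in
theorem stmtTwo : StmtTwo := by
  classical
  intro M hM F
  have hM0 : 0 < M := by linarith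
  have h1 : ∑ p ∈ Pm M, ∑ q ∈ Pm M, ENNReal.ofReal ((√((p : ℝ) * q))⁻¹) * ∑' s : Mn (p * q), F s.1 ≤
      ∑ w ∈ Pm M ×ˢ Pm M, ENNReal.ofReal (M⁻¹) *
        ∑' s : Mat, {s : Mat | s.det = ((w.1 * w.2 : ℕ) : ℤ)}.indicator F s := by
    rw [Finset.sum_product]
    refine Finset.sum_le_sum fun p hp => Finset.sum_le_sum fun q hq => ?_
    refine mul_le_mul' (ENNReal.ofReal_le_ofReal (weight hM hp hq)) (le_of_eq ?_)
    exact tsum_subtype {s : Mat | s.det = ((p * q : ℕ) : ℤ)} F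
  refine h1.trans ?_
  rw [← Finset.mul_sum, ← Summable.tsum_finsetSum (fun w _ => ENNReal.summable)]
  have h2 : ∀ s : Mat, ∑ w ∈ Pm M ×ˢ Pm M, {s : Mat | s.det = ((w.1 * w.2 : ℕ) : ℤ)}.indicator F s ≤
      2 * {s : Mat | ∃ p ∈ Pm M, ∃ q ∈ Pm M, s.det = ((p * q : ℕ) : ℤ)}.indicator F s := by
    intro s
    have h3 : ∑ w ∈ Pm M ×ˢ Pm M, {s : Mat | s.det = ((w.1 * w.2 : ℕ) : ℤ)}.indicator F s =
        (((Pm M ×ˢ Pm M).filter (fun w : ℕ × ℕ => s.det = ((w.1 * w.2 : ℕ) : ℤ))).card : ℝ≥0∞) *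
          F s := by
      rw [← nsmul_eq_mul, ← Finset.sum_const, Finset.sum_filter]
      refine Finset.sum_congr rfl fun w _ => ?_
      rw [Set.indicator_apply]
      rfl
    rw [h3]
    by_cases h4 : ∃ p ∈ Pm M, ∃ q ∈ Pm M, s.det = ((p * q : ℕ) : ℤ)
    · rw [Set.indicator_of_mem (show s ∈ {s : Mat | ∃ p ∈ Pm M, ∃ q ∈ Pm M,
        s.det = ((p * q : ℕ) : ℤ)} from h4)]
      refine mul_le_mul' ?_ le_rfl
      exact_mod_cast pairs M s.det
    · have h5 : (Pm M ×ˢ Pm M).filter (fun w : ℕ × ℕ => s.det = ((w.1 * w.2 : ℕ) : ℤ)) = ∅ := by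
        rw [Finset.filter_eq_empty_iff]
        intro w hw hn
        rw [Finset.mem_product] at hw
        exact h4 ⟨w.1, hw.1, w.2, hw.2, hn⟩
      rw [h5, Finset.card_empty, Nat.cast_zero, zero_mul]
      exact bot_le
  calc ENNReal.ofReal (M⁻¹) *
        ∑' s : Mat, ∑ w ∈ Pm M ×ˢ Pm M, {s : Mat | s.det = ((w.1 * w.2 : ℕ) : ℤ)}.indicator F s
      ≤ ENNReal.ofReal (M⁻¹) * ∑' s : Mat,
        2 * {s : Mat | ∃ p ∈ Pm M, ∃ q ∈ Pm M, s.det = ((p * q : ℕ) : ℤ)}.indicator F s :=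
        mul_le_mul' le_rfl (ENNReal.tsum_le_tsum h2)
    _ = ENNReal.ofReal (2 / M) *
      ∑' s : Mat, {s : Mat | ∃ p ∈ Pm M, ∃ q ∈ Pm M, s.det = ((p * q : ℕ) : ℤ)}.indicator F s := by
        rw [ENNReal.tsum_mul_left, ← mul_assoc]
        congr 1
        rw [div_eq_inv_mul, ENNReal.ofReal_mul (by positivity)]
        norm_num

end

end Pool.Agent.A54.Hp
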