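import Pool.Agent.Lib.MP_a54f13_nt.Hp.SpecC

/-!
# Package `Hp`, module `Xb`: bounds for the data (helper37)
-/

set_option autoImplicit false

namespace Pool.Agent.A54.Hp

open MeasureTheory Filter Topology Set
open scoped ContDiff ComplexConjugate UpperHalfPlane MatrixGroups ENNReal
open Pool.Agent.A54.Half (H0)
open Pool.Agent.A54.Sq (la TestP)

noncomputable section

namespace XbM

/-- the packets are short -/
theorem short {c C₀ t : ℝ} {K N : ℕ} {b : ℤ → ℝ} (hc : 0 < c) (hc1 : c ≤ 1)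
    (hp : Pack (c / 800) C₀ K t N b) (ht : 1 ≤ t)
    (ht0 : (2 + (K : ℝ)) ^ (6400 / (7 * c)) ≤ t) {n : ℤ} (hn : |n| ≤ ((N + K : ℕ) : ℤ)) :
    |(n : ℝ)| ≤ t ^ (1 / 2 - c / 6400) := by
  have hK0 : (0 : ℝ) ≤ K := Nat.cast_nonneg K
  have ht' : 0 < t := by linarith
  have h1 : |(n : ℝ)| ≤ (N : ℝ) + K := by
    rw [← Int.cast_abs]
    exact_mod_cast hn
  have h2 : (1 : ℝ) ≤ t ^ (1 / 2 - c / 800) := Real.one_le_rpow ht (by linarith)
  have h3 : 2 + (K : ℝ) ≤ t ^ (7 * c / 6400) := by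
    have h4 := Real.rpow_le_rpow (by positivity) ht0 (show (0 : ℝ) ≤ 7 * c / 6400 by positivity)
    rw [← Real.rpow_mul (by positivity)] at h4
    have h5 : 6400 / (7 * c) * (7 * c / 6400) = 1 := by
      field_simp
    rwa [h5, Real.rpow_one] at h4
  have h6 : t ^ (1 / 2 - c / 6400) = t ^ (7 * c / 6400) * t ^ (1 / 2 - c / 800) := by
    rw [← Real.rpow_add ht']
    congr 1
    ring
  rw [h6]
  calc |(n : ℝ)| ≤ (N : ℝ) + K := h1
    _ ≤ 2 * t ^ (1 / 2 - c / 800) + K * t ^ (1 / 2 - c / 800) := by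
        have := hp.hi
        nlinarith
    _ = (2 + (K : ℝ)) * t ^ (1 / 2 - c / 800) := by ring
    _ ≤ _ := mul_le_mul_of_nonneg_right h3 (by linarith)

theorem first (hB4 : StmtB4) {c C₀ : ℝ} (hc : 0 < c) (hc1 : c ≤ 1) {K : ℕ} {v : ℝ → ℝ}
    (hBs : ∀ η : ℝ, 0 < η → ∀ φ : ℂ → ℝ, TestP H0 φ → ∃ C : ℝ, 0 ≤ C ∧
      ∀ (l : ℕ → ℝ) (f : ℍ → ℝ) (t : ℝ) (N : ℕ) (b : ℤ → ℝ), Dt c v C₀ K l f t N b →
        ∫ z : ℍ, φ z * f z ^ 4 ≤ C * t ^ η) (φ : ℂ → ℝ) (hφ : TestP H0 φ) (η : ℝ) (hη : 0 < η) :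
    ∃ C t₀ : ℝ, 0 ≤ C ∧ 1 ≤ t₀ ∧
      ∀ (l : ℕ → ℝ) (f : ℍ → ℝ) (t : ℝ) (N : ℕ) (b : ℤ → ℝ), Dt c v C₀ K l f t N b → t₀ ≤ t →
        U4 f t φ (N + K) (C * t ^ η) := by
  obtain ⟨ζ, C₁, hζ, hC₁, h1⟩ := hB4 φ hφ (c / 6400) (η / 2) (by positivity) (by linarith)
    (by positivity)
  obtain ⟨C₂, hC₂, h2⟩ := hBs (η / 2) (by positivity) ζ hζ
  have hK0 : (0 : ℝ) ≤ K := Nat.cast_nonneg K
  refine ⟨C₁ * (1 + C₂), (2 + (K : ℝ)) ^ (6400 / (7 * c)), by positivity,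
    Real.one_le_rpow (by linarith) (by positivity), ?_⟩
  intro l f t N b hD ht n hn
  have ht1 := hD.one_le
  have ht' : 0 < t := by linarith
  have h3 := h1 f t hD.hm ht1 n (short hc hc1 hD.pack ht1 ht hn)
  have h4 := h2 l f t N b hD
  have h5 : (1 : ℝ) ≤ t ^ (η / 2) := Real.one_le_rpow ht1 (by positivity)
  have h6 : t ^ η = t ^ (η / 2) * t ^ (η / 2) := by
    rw [← Real.rpow_add ht']
    congr 1
    ring
  refine h3.trans ?_
  calc C₁ * t ^ (η / 2) * (1 + ∫ z : ℍ, ζ z * f z ^ 4)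
      ≤ C₁ * t ^ (η / 2) * (t ^ (η / 2) + C₂ * t ^ (η / 2)) :=
        mul_le_mul_of_nonneg_left (by linarith) (by positivity)
    _ = C₁ * (1 + C₂) * t ^ η := by rw [h6]; ring

end XbM

open XbM in
theorem stmtXb (hB4 : StmtB4) (hBs : StmtBs) (hBs1 : StmtBs1) : StmtXb := by
  intro c hc hc1
  obtain ⟨K₁, hK₁⟩ := hBs c hc hc1
  obtain ⟨K₂, hK₂⟩ := hBs1 c hc hc1
  refine ⟨max K₁ K₂, fun K hK C₀ hC₀ v hv φ hφ => ?_⟩
  have h1 := hK₁ K ((le_max_left _ _).trans hK) C₀ hC₀ v hv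
  have h2 := hK₂ K ((le_max_right _ _).trans hK) C₀ hC₀ v hv
  refine ⟨first hB4 hc hc1 h1 φ hφ, ?_⟩
  obtain ⟨ζ, C, t₀, hζ, hC, ht₀, h3⟩ := h2 φ hφ
  obtain ⟨C', t₀', hC', ht₀', h4⟩ := first hB4 hc hc1 h1 ζ hζ (c / 800) (by positivity)
  refine ⟨C * (1 + C'), max t₀ t₀', by positivity, ht₀.trans (le_max_left _ _), ?_⟩
  intro l f t N b hD ht
  have ht1 := hD.one_le
  have ht' : 0 < t := by linarith
  have h5 := h3 l f t N b hD ((le_max_left _ _).trans ht) (C' * t ^ (c / 800)) (by positivity)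
    (h4 l f t N b hD ((le_max_right _ _).trans ht))
  have h6 : t ^ (-(c / 800)) * (C' * t ^ (c / 800)) = C' := by
    have h7 : t ^ (-(c / 800)) * t ^ (c / 800) = 1 := by
      rw [← Real.rpow_add ht', neg_add_cancel, Real.rpow_zero]
    calc t ^ (-(c / 800)) * (C' * t ^ (c / 800)) = C' * (t ^ (-(c / 800)) * t ^ (c / 800)) := by
          ring
      _ = C' := by rw [h7, mul_one]
  rw [h6] at h5
  exact h5

end

end Pool.Agent.A54.Hp
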